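import Pool.Agent.VOP.OP2
import Mathlib.Analysis.SpecialFunctions.Log.Basic

/-!
# Highest weight gluing: the exponential range (MP_deb8da_ag)

If `D ≤ C N` and `2 C ≤ e + 2` then `HG κ e D` holds for `κ < C (1 + exp ((e + 2) / C - 2))`.
-/

set_option autoImplicit false

namespace Pool.Agent.VOP

open Pool.Agent.VSY

namespace QRE

/-- The range is preserved by the step `κ ↦ κ + 1 - ρ`, `e + 1 ↦ e`, `κ ≤ ρ C`. -/
theorem arith {C : ℝ} (hC : 1 < C) {e κ ρ κ' : ℕ} (hE : 2 * C ≤ (e : ℝ) + 3)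
    (hκ : (κ : ℝ) < C * (1 + Real.exp (((e : ℝ) + 3) / C - 2))) (hρ : (κ : ℝ) ≤ ρ * C)
    (hκ' : κ' + ρ = κ + 1) :
    κ' ≤ e + 1 ∨ (2 * C ≤ (e : ℝ) + 2 ∧
      (κ' : ℝ) < C * (1 + Real.exp (((e : ℝ) + 2) / C - 2))) := by
  have hC0 : 0 < C := by linarith
  obtain ⟨z, hz⟩ : ∃ z, z = Real.exp (((e : ℝ) + 3) / C - 2) := ⟨_, rfl⟩
  have hz0 : 0 < z := hz ▸ Real.exp_pos _
  rw [← hz] at hκ
  have h1 : (κ' : ℝ) + ρ = κ + 1 := by exact_mod_cast hκ'
  have h2 : (κ' : ℝ) < C + (C - 1) * z := by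
    have h3 : C * (κ' : ℝ) < C * (C + (C - 1) * z) := by
      have h4 : C * (κ' : ℝ) = C * κ + C - ρ * C := by
        rw [show (κ' : ℝ) = κ + 1 - ρ by linarith]
        ring
      have h5 : (C - 1) * (κ : ℝ) < (C - 1) * (C * (1 + z)) :=
        mul_lt_mul_of_pos_left hκ (by linarith)
      nlinarith
    exact lt_of_mul_lt_mul_left h3 hC0.le
  rcases le_or_gt (2 * C) ((e : ℝ) + 2) with h3 | h3
  · refine Or.inr ⟨h3, h2.trans_le ?_⟩
    have h4 : Real.exp (((e : ℝ) + 2) / C - 2) = z * Real.exp (-(1 / C)) := by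
      rw [hz, ← Real.exp_add]
      congr 1
      field_simp
      ring
    have h5 : 1 - 1 / C ≤ Real.exp (-(1 / C)) := by
      have := Real.add_one_le_exp (-(1 / C))
      linarith
    have h6 : C * (1 - 1 / C) = C - 1 := by
      field_simp
    rw [h4]
    have h7 : z * (1 - 1 / C) ≤ z * Real.exp (-(1 / C)) := mul_le_mul_of_nonneg_left h5 hz0.le
    have h8 : C * (z * (1 - 1 / C)) ≤ C * (z * Real.exp (-(1 / C))) :=
      mul_le_mul_of_nonneg_left h7 hC0.le
    have h9 : C * (z * (1 - 1 / C)) = (C - 1) * z := by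
      rw [← h6]
      ring
    linarith
  · refine Or.inl ?_
    obtain ⟨t, ht⟩ : ∃ t, t = ((e : ℝ) + 3) / C - 2 := ⟨_, rfl⟩
    have ht1 : t * C = (e : ℝ) + 3 - 2 * C := by
      rw [ht]
      field_simp
    rw [← ht] at hz
    have ht0 : 0 ≤ t := by
      by_contra hcon
      have : t * C < 0 := mul_neg_of_neg_of_pos (not_le.1 hcon) hC0
      linarith
    have htC : t * C < 1 := by linarith
    have ht2 : t < 1 := by
      by_contra hcon
      have : 1 * C ≤ t * C := mul_le_mul_of_nonneg_right (not_lt.1 hcon) hC0.le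
      linarith
    have h4 : (1 - t) * z ≤ 1 := by
      have h5 : 1 - t ≤ Real.exp (-t) := by
        have := Real.add_one_le_exp (-t)
        linarith
      have h6 : Real.exp (-t) * z = 1 := by
        rw [hz, ← Real.exp_add, neg_add_cancel, Real.exp_zero]
      have h7 : (1 - t) * z ≤ Real.exp (-t) * z := mul_le_mul_of_nonneg_right h5 hz0.le
      linarith
    have h5 : (C - 1) * z ≤ (C - 1) + t * C := by
      have h6 : (1 - t) * ((C - 1) * z) ≤ (1 - t) * ((C - 1) + t * C) := by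
        have h7 : (1 - t) * ((C - 1) * z) = (C - 1) * ((1 - t) * z) := by ring
        have h8 : (C - 1) * ((1 - t) * z) ≤ (C - 1) * 1 :=
          mul_le_mul_of_nonneg_left h4 (by linarith)
        have h9 : (1 - t) * ((C - 1) + t * C) = (C - 1) + t * (1 - t * C) := by ring
        have h10 : 0 ≤ t * (1 - t * C) := mul_nonneg ht0 (by linarith)
        linarith
      exact le_of_mul_le_mul_left h6 (by linarith)
    have h6 : (κ' : ℝ) < (e : ℝ) + 2 := by linarith
    have h7 : κ' < e + 2 := by exact_mod_cast h6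
    omega

section ord

variable (K : Type) [Field K] [LinearOrder K] [IsStrictOrderedRing K]

/-- The induction. -/
theorem claim {v N : ℕ} (hN : 1 ≤ N) {C : ℝ} (hC : 1 < C) :
    ∀ (n e κ D : ℕ), e + κ ≤ n → (D : ℝ) ≤ C * N →
      (κ ≤ e + 1 ∨ (2 * C ≤ (e : ℝ) + 2 ∧ (κ : ℝ) < C * (1 + Real.exp (((e : ℝ) + 2) / C - 2)))) →
      HG K v N κ e D := by
  intro n
  induction n with
  | zero =>
    intro e κ D hn _ _
    exact hg0 K v N κ e D hN (by omega)
  | succ n ih =>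
    intro e κ D hn hD hκ
    rcases hκ with hκ | ⟨hE, hκ⟩
    · exact hg0 K v N κ e D hN hκ
    rcases e with _ | e
    · exfalso
      rw [Nat.cast_zero] at hE
      linarith
    have e1 : ((e + 1 : ℕ) : ℝ) + 2 = (e : ℝ) + 3 := by
      push_cast
      ring
    rw [e1] at hE hκ
    refine hgs K v N κ (e + 1) D hN (by omega) ?_
    intro ρ hρ1 _ hρD
    have hD1 : ((D - 1 : ℕ) : ℝ) ≤ C * N := by
      have : ((D - 1 : ℕ) : ℝ) ≤ D := by exact_mod_cast Nat.sub_le D 1
      linarith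
    constructor
    · intro _
      refine ih (e + 1) (κ - ρ) (D - 1) (by omega) hD1 (Or.inr ?_)
      rw [e1]
      refine ⟨hE, lt_of_le_of_lt ?_ hκ⟩
      exact_mod_cast Nat.sub_le κ ρ
    · intro hρκ
      rw [Nat.add_sub_cancel]
      refine ih e (κ + 1 - ρ) (D - 1) (by omega) hD1 ?_
      refine arith hC hE hκ ?_ (by omega : κ + 1 - ρ + ρ = κ + 1)
      have h1 : ((κ * N + (e + 1) : ℕ) : ℝ) ≤ ((ρ * D : ℕ) : ℝ) := by exact_mod_cast hρD
      push_cast at h1
      have h2 : (ρ : ℝ) * D ≤ ρ * (C * N) := mul_le_mul_of_nonneg_left hD (Nat.cast_nonneg ρ)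
      have hN0 : (0 : ℝ) < N := by exact_mod_cast hN
      have h3 : (κ : ℝ) * N ≤ (ρ * C) * N := by
        have : (0 : ℝ) ≤ e := Nat.cast_nonneg e
        nlinarith
      exact le_of_mul_le_mul_right h3 hN0

/-- gluing for weights at most `N` -/
theorem hg_small (v N κ e D : ℕ) (hN : 1 ≤ N) (he : 1 ≤ e) (hD : D ≤ N) : HG K v N κ e D := by
  refine hgs K v N κ e D hN he fun ρ _ _ hρ => ?_
  have h1 : ρ * D ≤ ρ * N := Nat.mul_le_mul_left ρ hD
  have h2 : κ < ρ := by
    by_contra hcon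
    have h3 : ρ * N ≤ κ * N := Nat.mul_le_mul_right N (by omega)
    omega
  exact ⟨fun h => absurd h (by omega), fun h => hg0 K v N _ _ _ hN (by omega)⟩

/-- The exponential range. -/
theorem hg_exp {v N : ℕ} (hN : 1 ≤ N) {e κ D : ℕ} {C : ℝ} (hC : 1 < C) (hD : (D : ℝ) ≤ C * N)
    (hE : 2 * C ≤ (e : ℝ) + 2) (hκ : (κ : ℝ) < C * (1 + Real.exp (((e : ℝ) + 2) / C - 2))) :
    HG K v N κ e D :=
  claim K hN hC (e + κ) e κ D le_rfl hD (Or.inr ⟨hE, hκ⟩)

end ord

/-- The tangent lines of `C exp (E / C - 2)`. -/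
theorem tangent {C E y : ℝ} (hC : 0 < C) (hy : 0 < y) :
    y * (E - (1 + Real.log y) * C) ≤ C * Real.exp (E / C - 2) := by
  have h1 : E / C - 2 - Real.log y + 1 ≤ Real.exp (E / C - 2 - Real.log y) :=
    Real.add_one_le_exp _
  have h2 : Real.exp (E / C - 2 - Real.log y) = Real.exp (E / C - 2) / y := by
    rw [Real.exp_sub (E / C - 2), Real.exp_log hy]
  rw [h2, le_div_iff₀ hy] at h1
  have h3 : C * ((E / C - 2 - Real.log y + 1) * y) ≤ C * Real.exp (E / C - 2) :=
    mul_le_mul_of_nonneg_left h1 hC.le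
  have h4 : C * ((E / C - 2 - Real.log y + 1) * y) = y * (E - (1 + Real.log y) * C) := by
    field_simp
    ring
  linarith

end QRE

end Pool.Agent.VOP
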