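import Pool.Agent.VOP.StmtsG

/-!
# Module DG: degrees at the points
-/

namespace Pool.Agent.VOP

open MvPolynomial Pool.Agent.VSY

namespace DG

variable {K : Type} [Field K] {A B : Type} {v : ℕ}

theorem zero (δ : A → ℕ) : Dg δ (0 : PX K A v) := by
  intro m hm
  simp at hm

theorem add {δ : A → ℕ} {f g : PX K A v} (hf : Dg δ f) (hg : Dg δ g) : Dg δ (f + g) := by
  classical
  intro m hm
  rcases Finset.mem_union.1 (support_add hm) with h | h
  · exact hf m h
  · exact hg m h

theorem smul {δ : A → ℕ} (a : K) {f : PX K A v} (hf : Dg δ f) : Dg δ (a • f) := fun m hm =>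
  hf m (support_smul hm)

theorem neg {δ : A → ℕ} {f : PX K A v} (hf : Dg δ f) : Dg δ (-f) := by
  have := smul (-1) hf
  rwa [neg_one_smul] at this

theorem sub {δ : A → ℕ} {f g : PX K A v} (hf : Dg δ f) (hg : Dg δ g) : Dg δ (f - g) := by
  rw [sub_eq_add_neg]
  exact add hf (neg hg)

theorem zsmul {δ : A → ℕ} (n : ℤ) {f : PX K A v} (hf : Dg δ f) : Dg δ (n • f) := by
  have := smul (n : K) hf
  rwa [Int.cast_smul_eq_zsmul] at this

theorem sum {δ : A → ℕ} {ι : Type} (s : Finset ι) (f : ι → PX K A v)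
    (h : ∀ i ∈ s, Dg δ (f i)) : Dg δ (∑ i ∈ s, f i) := by
  classical
  induction s using Finset.induction_on with
  | empty => rw [Finset.sum_empty]; exact zero δ
  | insert a s ha ih =>
    rw [Finset.sum_insert ha]
    exact add (h a (Finset.mem_insert_self _ _)) (ih fun i hi => h i (Finset.mem_insert_of_mem hi))

theorem mul {δ δ' : A → ℕ} {f g : PX K A v} (hf : Dg δ f) (hg : Dg δ' g) :
    Dg (fun x => δ x + δ' x) (f * g) := by
  classical
  intro m hm x
  obtain ⟨a, ha, b, hb, rfl⟩ := Finset.mem_add.1 (support_mul f g hm)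
  simp only [Finsupp.add_apply, Finset.sum_add_distrib]
  rw [hf a ha x, hg b hb x]

theorem one : Dg (fun _ => 0) (1 : PX K A v) := by
  classical
  intro m hm x
  rw [mem_support_iff, coeff_one] at hm
  have : (0 : A × Fin v →₀ ℕ) = m := by
    by_contra h
    exact hm (if_neg h)
  rw [← this]
  simp

theorem C_mul {δ : A → ℕ} (a : K) {f : PX K A v} (hf : Dg δ f) : Dg δ (C a * f) := by
  rw [← smul_eq_C_mul]
  exact smul a hf

theorem var [DecidableEq A] (p : A) (i : Fin v) : Dg (Pi.single p 1) (X (p, i) : PX K A v) := by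
  classical
  intro m hm x
  rw [support_X, Finset.mem_singleton] at hm
  subst hm
  by_cases h : x = p
  · subst h
    rw [Pi.single_eq_same]
    simp [Finsupp.single_apply]
  · rw [Pi.single_eq_of_ne h]
    refine Finset.sum_eq_zero fun j _ => ?_
    rw [Finsupp.single_apply, if_neg]
    intro h2
    exact h (congrArg Prod.fst h2).symm

theorem lin [DecidableEq A] (x : Fin v → K) (p : A) :
    Dg (Pi.single p 1) (VOP.lin x p : PX K A v) :=
  sum _ _ fun i _ => C_mul (x i) (var p i)

theorem atp [DecidableEq A] (n : ℕ) (b : MvPolynomial (Fin v) K) (p : A) (hb : b.IsHomogeneous n) :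
    Dg (Pi.single p n) (VSY.atp p b : PX K A v) := by
  classical
  intro m hm x
  rw [mem_support_iff, VSY.atp] at hm
  obtain ⟨m', h1, h2⟩ := coeff_rename_ne_zero _ _ _ hm
  have h3 := hb h2
  subst h1
  by_cases h : x = p
  · subst h
    rw [Pi.single_eq_same, ← h3]
    rw [Finsupp.weight_apply, Finsupp.sum_fintype _ _ (by simp)]
    refine Finset.sum_congr rfl fun j _ => ?_
    rw [Finsupp.mapDomain_apply (fun a b hab => congrArg Prod.snd hab)]
    simp
  · rw [Pi.single_eq_of_ne h]
    refine Finset.sum_eq_zero fun j _ => ?_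
    apply Finsupp.mapDomain_notin_range
    rintro ⟨i, hi⟩
    exact h (congrArg Prod.fst hi).symm

theorem ren_push [Fintype A] [DecidableEq B] (δ : A → ℕ) (φ : A → B) (f : PX K A v)
    (h : Dg δ f) :
    Dg (fun b => ∑ a ∈ Finset.univ.filter (fun a => φ a = b), δ a) (ren φ f) := by
  intro m hm x
  obtain ⟨m', hm', rfl⟩ := exists_of_mem_support_ren φ f hm
  rw [mapDomain_sum]
  exact Finset.sum_congr rfl fun a _ => h m' hm' a

theorem ren_perm [Fintype A] [DecidableEq A] (δ : A → ℕ) (π : Equiv.Perm A) (f : PX K A v)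
    (hπ : ∀ a, δ (π a) = δ a) (h : Dg δ f) : Dg δ (ren π f) := by
  have h1 := ren_push δ π f h
  have h2 : (fun b => ∑ a ∈ Finset.univ.filter (fun a => π a = b), δ a) = δ := by
    funext b
    have h3 : (Finset.univ.filter fun a => π a = b) = {π.symm b} := by
      ext a
      rw [Finset.mem_filter, Finset.mem_singleton]
      constructor
      · rintro ⟨-, rfl⟩
        rw [Equiv.symm_apply_apply]
      · rintro rfl
        exact ⟨Finset.mem_univ _, π.apply_symm_apply b⟩
    rw [h3, Finset.sum_singleton, ← hπ, π.apply_symm_apply]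
  rwa [h2] at h1

theorem ren_eq (δ : A → ℕ) (φ ψ : A → B) (f : PX K A v) (h : ∀ x, δ x ≠ 0 → φ x = ψ x)
    (hf : Dg δ f) : ren φ f = ren ψ f := by
  classical
  rw [f.as_sum, map_sum, map_sum]
  refine Finset.sum_congr rfl fun m hm => ?_
  rw [ren_monomial, ren_monomial]
  have h2 : m.mapDomain (Prod.map φ id) = m.mapDomain (Prod.map ψ id) := by
    refine Finsupp.mapDomain_congr fun y hy => ?_
    rw [Finsupp.mem_support_iff] at hy
    obtain ⟨x, j⟩ := y
    have h1 : δ x ≠ 0 := by
      rw [← hf m hm x]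
      intro h0
      exact hy (Finset.sum_eq_zero_iff.1 h0 j (Finset.mem_univ _))
    rw [Prod.map_apply, Prod.map_apply, h x h1]
  rw [h2]

theorem unique (δ δ' : A → ℕ) (f : PX K A v) (h0 : f ≠ 0) (h : Dg δ f) (h' : Dg δ' f) :
    δ = δ' := by
  obtain ⟨m, hm⟩ := support_nonempty.2 h0
  funext x
  rw [← h m hm x, h' m hm x]

theorem xS [Fintype A] [DecidableEq A] (x : Fin v → K) (S : Finset A) :
    Dg (fun p => if p ∈ S then 1 else 0) (VOP.xS x S : PX K A v) := by
  classical
  rw [VOP.xS]
  induction S using Finset.induction_on with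
  | empty =>
    rw [Finset.prod_empty]
    simpa using (one : Dg (fun _ => 0) (1 : PX K A v))
  | insert a s ha ih =>
    rw [Finset.prod_insert ha]
    have h1 := mul (lin x a) ih
    have h2 : (fun p => (Pi.single a 1 : A → ℕ) p + if p ∈ s then 1 else 0) =
        fun p => if p ∈ insert a s then 1 else 0 := by
      funext p
      by_cases hp : p = a
      · subst hp
        rw [Pi.single_eq_same, if_neg ha, if_pos (Finset.mem_insert_self _ _)]
      · rw [Pi.single_eq_of_ne hp, zero_add]
        simp [Finset.mem_insert, hp]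
    rwa [h2] at h1

end DG

theorem DG_thm : Stmt_DG := by
  intro K _ A B _ _ _ _ v
  exact ⟨DG.zero, fun δ f g hf hg => ⟨DG.add hf hg, DG.sub hf hg⟩,
    fun δ a n f hf => ⟨DG.smul a hf, DG.neg hf, DG.zsmul n hf⟩,
    fun δ ι s f h => DG.sum s f h, fun δ δ' f g hf hg => DG.mul hf hg,
    DG.lin, fun n b p hb => DG.atp n b p hb, DG.ren_push, DG.ren_perm, DG.ren_eq, DG.unique,
    DG.xS⟩

end Pool.Agent.VOP
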