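import Pool.Agent.VOP.StmtsS

/-!
# The Ottaviani-Paoletti conjecture (MP_deb8da_ag): CHB
-/

namespace Pool.Agent.VOP

open MvPolynomial Pool.Agent.VSY

namespace CHB

variable {K : Type} [Field K] {A : Type} {v : ℕ}

theorem lin_single [DecidableEq A] (k : Fin v) (p : A) :
    (lin (Pi.single k 1) p : PX K A v) = X (p, k) := by
  classical
  rw [lin, Finset.sum_eq_single k]
  · simp
  · intro b _ hb
    simp [Pi.single_eq_of_ne hb]
  · intro h
    exact absurd (Finset.mem_univ k) h

theorem X_dvd_of (f : PX K A v) (i : A × Fin v) (h : ∀ m ∈ f.support, m i ≠ 0) : X i ∣ f := by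
  classical
  rw [X_dvd_iff_modMonomial_eq_zero]
  ext m
  rw [coeff_zero]
  by_cases hle : Finsupp.single i 1 ≤ m
  · exact coeff_modMonomial_of_le _ hle
  · rw [coeff_modMonomial_of_not_le _ hle]
    by_contra hne
    have h1 := h m (mem_support_iff.2 hne)
    apply hle
    rw [Finsupp.single_le_iff]
    omega

theorem upd_dgc [DecidableEq A] (M : ℕ) (T S C : Finset A) (w : A) (r e : ℕ)
    (hc : Cf T S C w) : Function.update (dgc M T S C w r) w e = dgc M T S C w e := by
  funext y
  by_cases hy : y = w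
  · subst hy
    have h1 : y ∉ T ∪ S := by
      rw [Finset.mem_union]
      rintro (h | h)
      · exact hc.wT h
      · exact hc.wS h
    rw [Function.update_self, dgc, if_neg h1, if_neg hc.wC, if_pos rfl]
  · rw [Function.update_of_ne hy, dgc, dgc, if_neg hy, if_neg hy]

end CHB

theorem CHB_thm (h1 : Stmt_DG) (h2 : Stmt_DIV) : Stmt_CHB := by
  intro K _ _ v M β t s l i hA hi A _ _ T S C w k f hc hsp hT hS hC hZ hm
  have hx : (Pi.single k 1 : Fin v → K) ≠ 0 := by
    intro h
    have := congrFun h k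
    simp at this
  have hdvd : (X (w, k) : PX K A v) ∣ f := by
    apply CHB.X_dvd_of
    intro m hmm h0
    have h3 := hm m hmm h0
    have h4 : ((T ∪ S).filter fun p => 1 ≤ m (p, k)).card ≤ T.card + S.card :=
      (Finset.card_filter_le _ _).trans (Finset.card_union_le _ _)
    omega
  obtain ⟨f', hf'⟩ := hdvd
  rw [← CHB.lin_single] at hf'
  obtain ⟨d1, d2, -, -, -, d6, -⟩ := h2 K A A v (Pi.single k 1) hx
  have hcancel : ∀ (φ : A → A) (g : PX K A v), φ w = w → ren φ f = lin (Pi.single k 1) w * g →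
      ren φ f' = g := by
    intro φ g hφ h
    apply d1 w
    rw [← h, hf', map_mul, d6, hφ]
  have hsw : ∀ a b : A, a ≠ w → b ≠ w → (Equiv.swap a b) w = w := fun a b ha hb =>
    Equiv.swap_apply_of_ne_of_ne ha.symm hb.symm
  have hneS : ∀ a ∈ S, a ≠ w := fun a ha h => hc.wS (h ▸ ha)
  have hneT : ∀ a ∈ T, a ≠ w := fun a ha h => hc.wT (h ▸ ha)
  have hneC : ∀ a ∈ C, a ≠ w := fun a ha h => hc.wC (h ▸ ha)
  have hmv : ∀ u : A, mv u w w = w := by
    intro u
    unfold mv
    by_cases hu : w = u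
    · rw [hu, Function.update_self]
    · rw [Function.update_of_ne hu, id]
  have hZ' : Zc M T S C w (2 * M + 1 + β) f' := by
    refine ⟨⟨?_, ?_, ?_, ?_⟩, ?_, ?_⟩
    · have hdw : dgc M T S C w (2 * M + 2 + β) w = 2 * M + 1 + β + 1 := by
        have h1 : w ∉ T ∪ S := by
          rw [Finset.mem_union]
          rintro (h | h)
          · exact hc.wT h
          · exact hc.wS h
        rw [dgc, if_neg h1, if_neg hc.wC, if_pos rfl]
        omega
      have h5 := d2 (dgc M T S C w (2 * M + 2 + β)) w (2 * M + 1 + β) f' hdw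
        (by rw [← hf']; exact hZ.cg.dg)
      rwa [CHB.upd_dgc _ _ _ _ _ _ _ hc] at h5
    · intro a ha b hb
      exact hcancel _ _ (hsw a b (hneT a ha) (hneT b hb)) (by rw [hZ.cg.sy a ha b hb, ← hf'])
    · intro a ha b hb hab
      exact hcancel _ _ (hsw a b (hneS a ha) (hneS b hb))
        (by rw [hZ.cg.alS a ha b hb hab, mul_neg, ← hf'])
    · intro a ha b hb hab
      exact hcancel _ _ (hsw a b (hneC a ha) (hneC b hb))
        (by rw [hZ.cg.alC a ha b hb hab, mul_neg, ← hf'])
    · intro u hu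
      exact hcancel _ _ (hmv u) (by rw [hZ.cyS u hu, mul_zero])
    · intro u hu
      exact hcancel _ _ (hmv u) (by rw [hZ.cyC u hu, mul_zero])
  have hG := hA A T S C w (Pi.single k 1) f' hc hsp hT hS hC hx hZ'
  have heq : (∏ p ∈ S, (X (p, k) : PX K A v)) * f =
      lin (Pi.single k 1) w * xS (Pi.single k 1) S * f' := by
    rw [hf', xS]
    simp only [CHB.lin_single]
    ring
  rw [heq]
  exact hG

end Pool.Agent.VOP
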