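import Pool.Agent.VOP.StmtsG

/-!
# The Ottaviani-Paoletti conjecture (MP_deb8da_ag): division by `x(w)`
-/

set_option autoImplicit false

namespace Pool.Agent.VOP

open MvPolynomial Pool.Agent.VSY

namespace DIV

variable {K : Type} [Field K] {A : Type} {v : ℕ}

theorem ren_lin {B : Type} (x : Fin v → K) (φ : A → B) (p : A) :
    ren φ (lin x p : PX K A v) = lin x (φ p) := by
  simp [lin]

theorem lin_ne_zero {x : Fin v → K} (hx : x ≠ 0) (p : A) : (lin x p : PX K A v) ≠ 0 := by
  classical
  obtain ⟨k, hk⟩ := Function.ne_iff.1 hx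
  intro h
  apply hk
  have h1 := congrArg (coeff (Finsupp.single (p, k) 1)) h
  rw [lin, coeff_sum, coeff_zero] at h1
  rw [Finset.sum_eq_single k] at h1
  · simpa [coeff_C_mul] using h1
  · intro b _ hb
    rw [coeff_C_mul, coeff_X, if_neg, mul_zero]
    intro h2
    have h3 := Finsupp.single_left_injective (one_ne_zero) h2
    exact hb (Prod.ext_iff.1 h3).2
  · intro h2
    exact absurd (Finset.mem_univ k) h2

section grading

variable [Fintype A] [DecidableEq A]

/-- The weight of a variable. -/
def wt : A × Fin v → (A → ℕ) := fun y => Pi.single y.1 1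

theorem weight_apply (m : A × Fin v →₀ ℕ) (a : A) :
    Finsupp.weight (wt : A × Fin v → (A → ℕ)) m a = ∑ j, m (a, j) := by
  rw [Finsupp.weight_apply, Finsupp.sum_fintype _ _ (by intro i; simp), Finset.sum_apply,
    Fintype.sum_prod_type]
  rw [Finset.sum_eq_single a]
  · refine Finset.sum_congr rfl fun j _ => ?_
    simp [wt]
  · intro b _ hb
    refine Finset.sum_eq_zero fun j _ => ?_
    simp [wt, Ne.symm hb]
  · intro h
    exact absurd (Finset.mem_univ a) h

theorem dg_iff (δ : A → ℕ) (f : PX K A v) :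
    Dg δ f ↔ IsWeightedHomogeneous (wt : A × Fin v → (A → ℕ)) f δ := by
  constructor
  · intro h m hm
    funext a
    rw [weight_apply]
    exact h m (mem_support_iff.2 hm) a
  · intro h m hm a
    have h1 := h (mem_support_iff.1 hm)
    rw [← h1, weight_apply]

theorem lin_hom (x : Fin v → K) (p : A) :
    IsWeightedHomogeneous (wt : A × Fin v → (A → ℕ)) (lin x p : PX K A v) (Pi.single p 1) := by
  unfold lin
  apply IsWeightedHomogeneous.sum
  intro i _
  apply IsWeightedHomogeneous.C_mul
  exact isWeightedHomogeneous_X K wt (p, i)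

/-- Components of `x(w) q`. -/
theorem comp_mul (x : Fin v → K) (w : A) (q : PX K A v) (ε : A → ℕ) :
    weightedHomogeneousComponent (wt : A × Fin v → (A → ℕ)) (Pi.single w 1 + ε) (lin x w * q) =
      lin x w * weightedHomogeneousComponent wt ε q := by
  let _ := weightedGradedAlgebra K (wt : A × Fin v → (A → ℕ))
  have e : ∀ (p : PX K A v) (m : A → ℕ),
      ((DirectSum.decompose (weightedHomogeneousSubmodule K (wt : A × Fin v → (A → ℕ))) p m :
        weightedHomogeneousSubmodule K (wt : A × Fin v → (A → ℕ)) m) : PX K A v) =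
        weightedHomogeneousComponent wt m p := fun p m =>
    MvPolynomial.decompose'_apply K wt p m
  have h := DirectSum.coe_decompose_mul_add_of_left_mem
    (𝒜 := weightedHomogeneousSubmodule K (wt : A × Fin v → (A → ℕ))) (i := Pi.single w 1) (j := ε)
    (a := lin x w) (b := q) (lin_hom x w)
  rw [e, e] at h
  exact h

theorem comp_ne {q : PX K A v} {m : A × Fin v →₀ ℕ} (hm : m ∈ q.support) :
    weightedHomogeneousComponent (wt : A × Fin v → (A → ℕ)) (Finsupp.weight wt m) q ≠ 0 := by
  intro h
  have h1 := congrArg (coeff m) h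
  rw [coeff_weightedHomogeneousComponent, if_pos rfl, coeff_zero] at h1
  exact mem_support_iff.1 hm h1

/-- The degrees of a monomial of `q`. -/
theorem weight_eq {x : Fin v → K} (hx : x ≠ 0) {δ : A → ℕ} {w : A} {q : PX K A v}
    (h : Dg δ (lin x w * q)) {m : A × Fin v →₀ ℕ} (hm : m ∈ q.support) :
    Pi.single w 1 + Finsupp.weight wt m = δ := by
  by_contra hne
  have h1 := comp_mul x w q (Finsupp.weight wt m)
  rw [((dg_iff δ _).1 h).weightedHomogeneousComponent_ne _ hne] at h1
  exact mul_ne_zero (lin_ne_zero hx w) (comp_ne hm) h1.symm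

end grading

section subst

variable [DecidableEq A]

/-- The substitution which kills `x(w)`. -/
noncomputable def sub (x : Fin v → K) (k : Fin v) (w : A) : PX K A v →ₐ[K] PX K A v :=
  aeval fun y => if y = (w, k) then X (w, k) - C (x k)⁻¹ * lin x w else X y

theorem sub_lin_other (x : Fin v → K) (k : Fin v) {w u : A} (h : u ≠ w) :
    sub x k w (lin x u) = lin x u := by
  unfold lin
  rw [map_sum]
  refine Finset.sum_congr rfl fun i _ => ?_
  rw [map_mul, sub, aeval_X, if_neg (by simp [h]), ← algebraMap_eq, AlgHom.commutes]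

theorem sub_lin (x : Fin v → K) (k : Fin v) (hk : x k ≠ 0) (w : A) :
    sub x k w (lin x w) = 0 := by
  have h1 : sub x k w (lin x w) = ∑ i, (C (x i) * X (w, i) -
      if i = k then lin x w else 0) := by
    conv_lhs => unfold lin
    rw [map_sum]
    refine Finset.sum_congr rfl fun i _ => ?_
    rw [map_mul, sub, aeval_X, ← algebraMap_eq, AlgHom.commutes]
    by_cases hi : i = k
    · subst hi
      rw [if_pos rfl, if_pos rfl, algebraMap_eq, mul_sub, ← mul_assoc, ← C_mul,
        mul_inv_cancel₀ hk, C_1, one_mul]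
    · rw [if_neg (by simp [hi]), if_neg hi, sub_zero]
  rw [h1, Finset.sum_sub_distrib, Finset.sum_ite_eq' Finset.univ k, if_pos (Finset.mem_univ k)]
  unfold lin
  exact sub_self _

theorem dvd_iff (x : Fin v → K) (k : Fin v) (hk : x k ≠ 0) (w : A) (h : PX K A v) :
    lin x w ∣ h ↔ sub x k w h = 0 := by
  constructor
  · rintro ⟨g, rfl⟩
    rw [map_mul, sub_lin x k hk, zero_mul]
  · intro h0
    have key : ((Ideal.Quotient.mkₐ K (Ideal.span {(lin x w : PX K A v)})).comp (sub x k w)) =
        Ideal.Quotient.mkₐ K (Ideal.span {(lin x w : PX K A v)}) := by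
      apply MvPolynomial.algHom_ext
      intro y
      rw [AlgHom.comp_apply, sub, aeval_X]
      split_ifs with hy
      · subst hy
        rw [map_sub]
        have : Ideal.Quotient.mkₐ K (Ideal.span {(lin x w : PX K A v)}) (C (x k)⁻¹ * lin x w)
            = 0 := by
          rw [Ideal.Quotient.mkₐ_eq_mk, Ideal.Quotient.eq_zero_iff_mem]
          exact Ideal.mul_mem_left _ _ (Ideal.mem_span_singleton_self _)
        rw [this, sub_zero]
      · rfl
    have h1 := DFunLike.congr_fun key h
    rw [AlgHom.comp_apply, h0, map_zero, Ideal.Quotient.mkₐ_eq_mk] at h1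
    exact Ideal.mem_span_singleton.1 (Ideal.Quotient.eq_zero_iff_mem.1 h1.symm)

end subst

end DIV

theorem DIV_thm (_ : Stmt_DG) : Stmt_DIV := by
  intro K _ A B _ _ _ _ v x hx
  refine ⟨?_, ?_, ?_, ?_, ?_, ?_, ?_⟩
  · intro w f g h
    exact mul_left_cancel₀ (DIV.lin_ne_zero hx w) h
  · intro δ w e q hδ h m hm a
    have h1 := congrFun (DIV.weight_eq hx h hm) a
    rw [Pi.add_apply, DIV.weight_apply] at h1
    by_cases ha : a = w
    · subst ha
      rw [Function.update_self]
      rw [Pi.single_eq_same] at h1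
      omega
    · rw [Function.update_of_ne ha]
      rw [Pi.single_eq_of_ne ha] at h1
      omega
  · intro δ w q hδ h
    by_contra hq
    obtain ⟨m, hm⟩ := Finset.nonempty_iff_ne_empty.2 fun h0 => hq (support_eq_empty.1 h0)
    have h1 := congrFun (DIV.weight_eq hx h hm) w
    rw [Pi.add_apply, Pi.single_eq_same] at h1
    omega
  · intro w u q hu h
    obtain ⟨k, hk⟩ := Function.ne_iff.1 hx
    rw [DIV.dvd_iff x k hk] at h ⊢
    rw [map_mul, DIV.sub_lin_other x k hu] at h
    exact (mul_eq_zero.1 h).resolve_left (DIV.lin_ne_zero hx u)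
  · rintro w w' φ f rfl ⟨g, rfl⟩
    rw [map_mul, DIV.ren_lin]
    exact Dvd.intro _ rfl
  · intro φ p
    exact DIV.ren_lin x φ p
  · intro φ S hS
    unfold xS
    rw [map_prod, Finset.prod_image hS]
    exact Finset.prod_congr rfl fun p _ => DIV.ren_lin x φ p

end Pool.Agent.VOP
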