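import Pool.Agent.VOP.StmtsG

/-!
# Module SYM: symmetrisation
-/

namespace Pool.Agent.VOP

open MvPolynomial Pool.Agent.VSY

namespace SYM

variable {K : Type} [Field K] {A : Type} [Fintype A] [DecidableEq A] {v : ℕ}

theorem ren_mul (π σ : Equiv.Perm A) (f : PX K A v) : ren (π * σ) f = ren π (ren σ f) := by
  rw [ren_ren]
  rfl

theorem mem_pS {S : Finset A} {π : Equiv.Perm A} : π ∈ pS S ↔ ∀ x, x ∉ S → π x = x := by
  rw [pS, Finset.mem_filter]
  exact ⟨fun h => h.2, fun h => ⟨Finset.mem_univ _, h⟩⟩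

theorem one_mem (S : Finset A) : (1 : Equiv.Perm A) ∈ pS S := mem_pS.2 fun _ _ => rfl

theorem mul_mem {S : Finset A} {π σ : Equiv.Perm A} (h : π ∈ pS S) (h' : σ ∈ pS S) :
    π * σ ∈ pS S := by
  rw [mem_pS] at *
  intro x hx
  rw [Equiv.Perm.mul_apply, h' x hx, h x hx]

theorem inv_mem {S : Finset A} {π : Equiv.Perm A} (h : π ∈ pS S) : π⁻¹ ∈ pS S := by
  rw [mem_pS] at *
  intro x hx
  rw [Equiv.Perm.inv_eq_iff_eq, h x hx]

theorem swap_mem {S : Finset A} {x y : A} (hx : x ∈ S) (hy : y ∈ S) :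
    Equiv.swap x y ∈ pS S := by
  rw [mem_pS]
  intro z hz
  refine Equiv.swap_apply_of_ne_of_ne ?_ ?_
  · rintro rfl
    exact hz hx
  · rintro rfl
    exact hz hy

theorem maps {S : Finset A} {π : Equiv.Perm A} (h : π ∈ pS S) {x : A} (hx : x ∈ S) :
    π x ∈ S := by
  by_contra h0
  have h1 := mem_pS.1 h (π x) h0
  have h2 := π.injective h1
  rw [h2] at h0
  exact h0 hx

theorem sum_left {M : Type*} [AddCommMonoid M] {S : Finset A} {σ : Equiv.Perm A}
    (h : σ ∈ pS S) (F : Equiv.Perm A → M) : ∑ π ∈ pS S, F (σ * π) = ∑ π ∈ pS S, F π := by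
  refine Finset.sum_nbij' (fun π => σ * π) (fun π => σ⁻¹ * π) (fun π hπ => mul_mem h hπ)
    (fun π hπ => mul_mem (inv_mem h) hπ) (fun π _ => ?_) (fun π _ => ?_) (fun π _ => rfl)
  · exact inv_mul_cancel_left _ _
  · exact mul_inv_cancel_left _ _

theorem sum_right {M : Type*} [AddCommMonoid M] {S : Finset A} {σ : Equiv.Perm A}
    (h : σ ∈ pS S) (F : Equiv.Perm A → M) : ∑ π ∈ pS S, F (π * σ) = ∑ π ∈ pS S, F π := by
  refine Finset.sum_nbij' (fun π => π * σ) (fun π => π * σ⁻¹) (fun π hπ => mul_mem hπ h)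
    (fun π hπ => mul_mem hπ (inv_mem h)) (fun π _ => ?_) (fun π _ => ?_) (fun π _ => rfl)
  · exact mul_inv_cancel_right _ _
  · exact inv_mul_cancel_right _ _

/-- sign as an integer -/
abbrev sg (π : Equiv.Perm A) : ℤ := ((Equiv.Perm.sign π : ℤˣ) : ℤ)

theorem sg_mul (π σ : Equiv.Perm A) : sg (π * σ) = sg π * sg σ := by
  rw [sg, Equiv.Perm.sign_mul, Units.val_mul]

theorem sg_swap {x y : A} (h : x ≠ y) : sg (Equiv.swap x y) = -1 := by
  rw [sg, Equiv.Perm.sign_swap h]
  rfl

theorem sg_one : sg (1 : Equiv.Perm A) = 1 := by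
  rw [sg, Equiv.Perm.sign_one]
  rfl

theorem sg_sq (π : Equiv.Perm A) : sg π * sg π = 1 := by
  rw [sg]
  exact Int.units_coe_mul_self _

theorem alt_def (S : Finset A) (f : PX K A v) : alt S f = ∑ π ∈ pS S, sg π • ren π f := rfl

theorem smz_def (S : Finset A) (f : PX K A v) : smz S f = ∑ π ∈ pS S, ren π f := rfl

theorem ren_one (f : PX K A v) : ren (1 : Equiv.Perm A) f = f := ren_id f

/-- item 2 -/
theorem perm_aux (T : Finset A) (f : PX K A v) (n : ℕ) : ∀ π : Equiv.Perm A,
    π.support.card ≤ n → π ∈ pS T → (Sy T f → ren π f = f) ∧ (Al T f → ren π f = sg π • f) := by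
  induction n with
  | zero =>
    intro π h1 _
    have h2 : π = 1 := by
      rw [← Equiv.Perm.support_eq_empty_iff, ← Finset.card_eq_zero]
      omega
    rw [h2, sg_one, one_smul, ren_one]
    exact ⟨fun _ => rfl, fun _ => rfl⟩
  | succ n ih =>
    intro π h1 h2
    by_cases h3 : π = 1
    · rw [h3, sg_one, one_smul, ren_one]
      exact ⟨fun _ => rfl, fun _ => rfl⟩
    · obtain ⟨x, hx⟩ : ∃ x, π x ≠ x := by
        by_contra h4
        push Not at h4
        exact h3 (Equiv.ext h4)
      have hxT : x ∈ T := by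
        by_contra h4
        exact hx (mem_pS.1 h2 x h4)
      have hyT : π x ∈ T := maps h2 hxT
      have h5 := Equiv.Perm.card_support_swap_mul hx
      have h6 : Equiv.swap x (π x) * π ∈ pS T := mul_mem (swap_mem hxT hyT) h2
      obtain ⟨h7, h8⟩ := ih _ (by omega) h6
      have h9 : π = Equiv.swap x (π x) * (Equiv.swap x (π x) * π) := by
        rw [← mul_assoc, Equiv.swap_mul_self, one_mul]
      constructor
      · intro h
        rw [h9, ren_mul, h7 h]
        exact h x hxT (π x) hyT
      · intro h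
        have h10 : sg π = -sg (Equiv.swap x (π x) * π) := by
          rw [sg_mul, sg_swap hx.symm]
          ring
        conv_lhs => rw [h9]
        rw [ren_mul, h8 h, map_zsmul, h x hxT (π x) hyT hx.symm, h10, neg_smul, smul_neg]

theorem perm_sy {T : Finset A} {f : PX K A v} (h : Sy T f) {π : Equiv.Perm A} (hπ : π ∈ pS T) :
    ren π f = f := (perm_aux T f _ π le_rfl hπ).1 h

theorem perm_al {T : Finset A} {f : PX K A v} (h : Al T f) {π : Equiv.Perm A} (hπ : π ∈ pS T) :
    ren π f = sg π • f := (perm_aux T f _ π le_rfl hπ).2 h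

theorem sy_smz (T : Finset A) (f : PX K A v) : Sy T (smz T f) := by
  intro x hx y hy
  rw [smz_def, map_sum]
  rw [← sum_left (swap_mem hx hy) (fun π => ren π f)]
  exact Finset.sum_congr rfl fun π _ => (ren_mul _ _ _).symm

theorem al_alt (T : Finset A) (f : PX K A v) : Al T (alt T f) := by
  intro x hx y hy hxy
  rw [alt_def, map_sum, ← Finset.sum_neg_distrib]
  rw [← sum_left (swap_mem hx hy) (fun π => -(sg π • ren π f))]
  refine Finset.sum_congr rfl fun π _ => ?_
  rw [map_zsmul, ren_mul, sg_mul, sg_swap hxy, neg_one_mul, neg_smul, neg_neg]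

theorem sy_add {T : Finset A} {f g : PX K A v} (h : Sy T f) (h' : Sy T g) :
    Sy T (f + g) ∧ Sy T (f - g) :=
  ⟨fun x hx y hy => by rw [map_add, h x hx y hy, h' x hx y hy],
    fun x hx y hy => by rw [map_sub, h x hx y hy, h' x hx y hy]⟩

theorem al_add {T : Finset A} {f g : PX K A v} (h : Al T f) (h' : Al T g) :
    Al T (f + g) ∧ Al T (f - g) :=
  ⟨fun x hx y hy hn => by rw [map_add, h x hx y hy hn, h' x hx y hy hn]; ring,
    fun x hx y hy hn => by rw [map_sub, h x hx y hy hn, h' x hx y hy hn]; ring⟩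

theorem card_pS (T : Finset A) : (pS T).card = T.card.factorial := by
  classical
  have h1 : Fintype.card {π : Equiv.Perm A // ∀ a, ¬ a ∈ T → π a = a} = (pS T).card := by
    rw [Fintype.card_subtype, pS]
  rw [← h1, ← Fintype.card_congr (Equiv.Perm.subtypeEquivSubtypePerm fun a => a ∈ T),
    Fintype.card_perm, Fintype.card_coe]

theorem smz_sy {T : Finset A} {f : PX K A v} (h : Sy T f) :
    smz T f = (T.card.factorial : ℤ) • f := by
  rw [smz_def, Finset.sum_congr rfl fun π hπ => perm_sy h hπ, Finset.sum_const, card_pS]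
  exact (natCast_zsmul _ _).symm

theorem alt_al {T : Finset A} {f : PX K A v} (h : Al T f) :
    alt T f = (T.card.factorial : ℤ) • f := by
  have h1 : ∀ π ∈ pS T, sg π • ren π f = f := by
    intro π hπ
    rw [perm_al h hπ, smul_smul, sg_sq, one_smul]
  rw [alt_def, Finset.sum_congr rfl h1, Finset.sum_const, card_pS]
  exact (natCast_zsmul _ _).symm

theorem ren_alt {S : Finset A} {σ : Equiv.Perm A} (h : ∀ π ∈ pS S, σ * π = π * σ)
    (f : PX K A v) : ren σ (alt S f) = alt S (ren σ f) := by
  rw [alt_def, alt_def, map_sum]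
  refine Finset.sum_congr rfl fun π hπ => ?_
  rw [map_zsmul, ← ren_mul, h π hπ, ren_mul]

theorem ren_smz {S : Finset A} {σ : Equiv.Perm A} (h : ∀ π ∈ pS S, σ * π = π * σ)
    (f : PX K A v) : ren σ (smz S f) = smz S (ren σ f) := by
  rw [smz_def, smz_def, map_sum]
  refine Finset.sum_congr rfl fun π hπ => ?_
  rw [← ren_mul, h π hπ, ren_mul]

theorem comm {T S : Finset A} (h : Disjoint T S) {σ : Equiv.Perm A} (hσ : σ ∈ pS T) :
    ∀ π ∈ pS S, σ * π = π * σ := by
  intro π hπ
  have h1 : Equiv.Perm.Disjoint σ π := by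
    intro x
    by_cases hx : x ∈ T
    · exact Or.inr (mem_pS.1 hπ x (Finset.disjoint_left.1 h hx))
    · exact Or.inl (mem_pS.1 hσ x hx)
  exact h1.commute

theorem alt_add (T : Finset A) (f g : PX K A v) : alt T (f + g) = alt T f + alt T g := by
  rw [alt_def, alt_def, alt_def, ← Finset.sum_add_distrib]
  refine Finset.sum_congr rfl fun π _ => ?_
  rw [map_add, smul_add]

theorem smz_add (T : Finset A) (f g : PX K A v) : smz T (f + g) = smz T f + smz T g := by
  rw [smz_def, smz_def, smz_def, ← Finset.sum_add_distrib]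
  refine Finset.sum_congr rfl fun π _ => ?_
  rw [map_add]

theorem alt_smul (T : Finset A) (a : K) (f : PX K A v) : alt T (a • f) = a • alt T f := by
  rw [alt_def, alt_def, Finset.smul_sum]
  refine Finset.sum_congr rfl fun π _ => ?_
  rw [map_smul, smul_comm]

theorem smz_smul (T : Finset A) (a : K) (f : PX K A v) : smz T (a • f) = a • smz T f := by
  rw [smz_def, smz_def, Finset.smul_sum]
  refine Finset.sum_congr rfl fun π _ => ?_
  rw [map_smul]

theorem alt_zsmul (T : Finset A) (a : ℤ) (f : PX K A v) : alt T (a • f) = a • alt T f := by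
  rw [alt_def, alt_def, Finset.smul_sum]
  refine Finset.sum_congr rfl fun π _ => ?_
  rw [map_zsmul, smul_comm]

theorem alt_sum (T : Finset A) {ι : Type*} (s : Finset ι) (F : ι → PX K A v) :
    alt T (∑ i ∈ s, F i) = ∑ i ∈ s, alt T (F i) := by
  classical
  induction s using Finset.induction_on with
  | empty =>
    rw [Finset.sum_empty, Finset.sum_empty, alt_def]
    refine Finset.sum_eq_zero fun π _ => ?_
    rw [map_zero, smul_zero]
  | insert a s ha ih => rw [Finset.sum_insert ha, Finset.sum_insert ha, alt_add, ih]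

theorem smz_sum (T : Finset A) {ι : Type*} (s : Finset ι) (F : ι → PX K A v) :
    smz T (∑ i ∈ s, F i) = ∑ i ∈ s, smz T (F i) := by
  classical
  induction s using Finset.induction_on with
  | empty =>
    rw [Finset.sum_empty, Finset.sum_empty, smz_def]
    refine Finset.sum_eq_zero fun π _ => ?_
    rw [map_zero]
  | insert a s ha ih => rw [Finset.sum_insert ha, Finset.sum_insert ha, smz_add, ih]

theorem al_insert {S : Finset A} {u : A} {f : PX K A v} (hu : u ∉ S) (h : Al S f) :
    Al (insert u S) (f - ∑ b ∈ S, ren (Equiv.swap u b) f) := by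
  have key : ∀ y ∈ S, ren (Equiv.swap u y) (f - ∑ b ∈ S, ren (Equiv.swap u b) f) =
      -(f - ∑ b ∈ S, ren (Equiv.swap u b) f) := by
    intro y hy
    rw [map_sub, map_sum]
    have h1 : ∀ b ∈ S, ren (Equiv.swap u y) (ren (Equiv.swap u b) f) =
        if b = y then f else -ren (Equiv.swap u b) f := by
      intro b hb
      split_ifs with hby
      · rw [hby, ← ren_mul, Equiv.swap_mul_self, ren_one]
      · have hyu : y ≠ u := by
          rintro rfl
          exact hu hy
        have h2 : Equiv.swap u y * Equiv.swap u b = Equiv.swap u b * Equiv.swap b y := by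
          rw [Equiv.mul_swap_eq_swap_mul (Equiv.swap u b) b y, Equiv.swap_apply_right,
            Equiv.swap_apply_of_ne_of_ne hyu (Ne.symm hby)]
        rw [← ren_mul, h2, ren_mul, h b hb y hy hby, map_neg]
    rw [Finset.sum_congr rfl h1, ← Finset.add_sum_erase S _ hy, if_pos rfl,
      ← Finset.add_sum_erase S (fun b => ren (Equiv.swap u b) f) hy]
    have h3 : ∑ b ∈ S.erase y, (if b = y then f else -ren (Equiv.swap u b) f) =
        -∑ b ∈ S.erase y, ren (Equiv.swap u b) f := by
      rw [← Finset.sum_neg_distrib]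
      refine Finset.sum_congr rfl fun b hb => ?_
      rw [if_neg (Finset.ne_of_mem_erase hb)]
    rw [h3]
    ring
  intro x hx y hy hxy
  rw [Finset.mem_insert] at hx hy
  rcases hx with rfl | hx
  · rcases hy with rfl | hy
    · exact absurd rfl hxy
    · exact key y hy
  · rcases hy with rfl | hy
    · rw [Equiv.swap_comm]
      exact key x hx
    · rw [map_sub, map_sum, h x hx y hy hxy]
      have h1 : ∀ b ∈ S, ren (Equiv.swap x y) (ren (Equiv.swap u b) f) =
          -ren (Equiv.swap u (Equiv.swap x y b)) f := by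
        intro b _
        have hxu : u ≠ x := by
          rintro rfl
          exact hu hx
        have hyu : u ≠ y := by
          rintro rfl
          exact hu hy
        rw [← ren_mul, Equiv.mul_swap_eq_swap_mul, Equiv.swap_apply_of_ne_of_ne hxu hyu, ren_mul,
          h x hx y hy hxy, map_neg]
      rw [Finset.sum_congr rfl h1, Finset.sum_neg_distrib]
      have h2 : ∑ b ∈ S, ren (Equiv.swap u (Equiv.swap x y b)) f =
          ∑ b ∈ S, ren (Equiv.swap u b) f := by
        refine Finset.sum_nbij' (Equiv.swap x y) (Equiv.swap x y)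
          (fun b hb => maps (swap_mem hx hy) hb) (fun b hb => maps (swap_mem hx hy) hb)
          (fun b _ => ?_) (fun b _ => ?_) (fun b _ => rfl)
        · exact Equiv.swap_apply_self x y b
        · exact Equiv.swap_apply_self x y b
      rw [h2]
      ring

theorem sum_insert {M : Type*} [AddCommMonoid M] {S : Finset A} {u : A} (hu : u ∉ S)
    (F : Equiv.Perm A → M) : ∑ π ∈ pS (insert u S), F π =
      ∑ b ∈ insert u S, ∑ σ ∈ pS S, F (Equiv.swap u b * σ) := by
  rw [← Finset.sum_product']
  symm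
  refine Finset.sum_nbij' (fun p => Equiv.swap u p.1 * p.2)
    (fun π => (π u, Equiv.swap u (π u) * π)) ?_ ?_ ?_ ?_ ?_
  · rintro ⟨b, σ⟩ hp
    rw [Finset.mem_product] at hp
    refine mul_mem (swap_mem (Finset.mem_insert_self _ _) hp.1) ?_
    rw [mem_pS]
    intro x hx
    exact mem_pS.1 hp.2 x fun h => hx (Finset.mem_insert_of_mem h)
  · intro π hπ
    have h1 : π u ∈ insert u S := maps hπ (Finset.mem_insert_self _ _)
    rw [Finset.mem_product]
    refine ⟨h1, ?_⟩
    rw [mem_pS]
    intro x hx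
    rw [Equiv.Perm.mul_apply]
    by_cases hxu : x = u
    · rw [hxu, Equiv.swap_apply_right]
    · have h2 : x ∉ insert u S := by
        rw [Finset.mem_insert, not_or]
        exact ⟨hxu, hx⟩
      rw [mem_pS.1 hπ x h2]
      refine Equiv.swap_apply_of_ne_of_ne hxu ?_
      rintro rfl
      exact h2 h1
  · rintro ⟨b, σ⟩ hp
    rw [Finset.mem_product] at hp
    have h1 : σ u = u := mem_pS.1 hp.2 u hu
    have h2 : (Equiv.swap u b * σ) u = b := by
      rw [Equiv.Perm.mul_apply, h1, Equiv.swap_apply_left]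
    simp only [h2]
    rw [← mul_assoc, Equiv.swap_mul_self, one_mul]
  · intro π _
    simp only
    rw [← mul_assoc, Equiv.swap_mul_self, one_mul]
  · intro p _
    rfl

theorem alt_insert {S : Finset A} {u : A} {f : PX K A v} (hu : u ∉ S) (h : Al S f) :
    alt (insert u S) f =
      (S.card.factorial : ℤ) • (f - ∑ b ∈ S, ren (Equiv.swap u b) f) := by
  rw [alt_def, sum_insert hu]
  have h1 : ∀ b : A, ∑ σ ∈ pS S, sg (Equiv.swap u b * σ) • ren (Equiv.swap u b * σ) f =
      sg (Equiv.swap u b) • ren (Equiv.swap u b) (alt S f) := by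
    intro b
    rw [alt_def, map_sum, Finset.smul_sum]
    refine Finset.sum_congr rfl fun σ _ => ?_
    rw [map_zsmul, smul_smul, ← sg_mul, ren_mul]
  rw [Finset.sum_congr rfl fun b _ => h1 b, Finset.sum_insert hu, Equiv.swap_self]
  have h2 : sg (Equiv.refl A) • ren (Equiv.refl A) (alt S f) = alt S f := by
    have := sg_one (A := A)
    change sg (1 : Equiv.Perm A) • ren (1 : Equiv.Perm A) (alt S f) = alt S f
    rw [this, one_smul, ren_one]
  rw [h2, alt_al h, smul_sub, Finset.smul_sum, sub_eq_add_neg, ← Finset.sum_neg_distrib]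
  congr 1
  refine Finset.sum_congr rfl fun b hb => ?_
  have hub : u ≠ b := by
    rintro rfl
    exact hu hb
  rw [sg_swap hub, map_zsmul, neg_smul, one_smul]

end SYM

open SYM in
/-- Symmetrisation. -/
theorem SYM_thm (h1 : Stmt_DG) : Stmt_SYM := by
  intro K _ A _ _ v
  refine ⟨?_, ?_, ?_, ?_, ?_, ?_, ?_, ?_, ?_, ?_, ?_, ?_⟩
  · intro T T' f hT
    exact ⟨fun h x hx y hy => h x (hT hx) y (hT hy),
      fun h x hx y hy => h x (hT hx) y (hT hy)⟩
  · intro T f π hπ
    exact ⟨fun h => perm_sy h hπ, fun h => perm_al h hπ⟩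
  · intro T f
    exact ⟨sy_smz T f, al_alt T f⟩
  · intro T f g
    refine ⟨sy_add, al_add, ?_, ?_, ?_⟩
    · intro h h' x hx y hy hn
      rw [map_mul, h x hx y hy, h' x hx y hy hn, mul_neg]
    · intro h h' x hx y hy
      rw [map_mul, h x hx y hy, h' x hx y hy]
    · intro a
      refine ⟨fun h x hx y hy => ?_, fun h x hx y hy hn => ?_⟩
      · rw [map_smul, h x hx y hy]
      · rw [map_smul, h x hx y hy hn, smul_neg]
  · intro T f
    exact ⟨smz_sy, alt_al⟩
  · intro T S f hd
    have hc : ∀ x ∈ T, ∀ y ∈ T, ∀ π ∈ pS S, Equiv.swap x y * π = π * Equiv.swap x y :=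
      fun x hx y hy => comm hd (swap_mem hx hy)
    refine ⟨fun h x hx y hy => ?_, fun h x hx y hy hn => ?_, fun h x hx y hy => ?_,
      fun h x hx y hy hn => ?_⟩
    · rw [ren_alt (hc x hx y hy), h x hx y hy]
    · rw [ren_alt (hc x hx y hy), h x hx y hy hn]
      have := alt_smul S (-1 : K) f
      rwa [neg_one_smul, neg_one_smul] at this
    · rw [ren_smz (hc x hx y hy), h x hx y hy]
    · rw [ren_smz (hc x hx y hy), h x hx y hy hn]
      have := smz_smul S (-1 : K) f
      rwa [neg_one_smul, neg_one_smul] at this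
  · intro T S f hd
    refine ⟨?_, ?_, ?_⟩
    · rw [smz_def T, smz_def T, alt_sum]
      exact Finset.sum_congr rfl fun σ hσ => ren_alt (comm hd hσ) f
    · rw [alt_def T, alt_def T, alt_sum]
      refine Finset.sum_congr rfl fun σ hσ => ?_
      rw [alt_zsmul, ren_alt (comm hd hσ) f]
    · rw [smz_def T, smz_def T, smz_sum]
      exact Finset.sum_congr rfl fun σ hσ => ren_smz (comm hd hσ) f
  · intro T δ f hδ hf
    obtain ⟨-, -, hD3, hD4, -, -, -, -, hD9, -⟩ := h1 K A A v
    have h2 : ∀ π ∈ pS T, Dg δ (ren π f) := by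
      intro π hπ
      refine hD9 δ π f (fun a => ?_) hf
      by_cases ha : a ∈ T
      · exact hδ _ (maps hπ ha) _ ha
      · rw [mem_pS.1 hπ a ha]
    refine ⟨?_, ?_⟩
    · rw [alt_def]
      exact hD4 δ _ _ _ fun π hπ => (hD3 δ 0 (sg π) _ (h2 π hπ)).2.2
    · rw [smz_def]
      exact hD4 δ _ _ _ fun π hπ => h2 π hπ
  · intro T f g a
    refine ⟨alt_add T f g, smz_add T f g, alt_smul T a f, smz_smul T a f, fun h => ⟨?_, ?_⟩⟩
    · rw [alt_def, alt_def, Finset.mul_sum]
      refine Finset.sum_congr rfl fun π hπ => ?_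
      rw [map_mul, perm_sy h hπ, mul_smul_comm]
    · rw [smz_def, smz_def, Finset.mul_sum]
      refine Finset.sum_congr rfl fun π hπ => ?_
      rw [map_mul, perm_sy h hπ]
  · intro T f x hx y hy
    refine ⟨?_, fun hxy => ?_⟩
    · rw [smz_def, smz_def, ← sum_right (swap_mem hx hy) (fun π => ren π f)]
      exact Finset.sum_congr rfl fun π _ => (ren_mul _ _ _).symm
    · rw [alt_def, alt_def, ← sum_right (swap_mem hx hy) (fun π => sg π • ren π f),
        ← Finset.sum_neg_distrib]
      refine Finset.sum_congr rfl fun π _ => ?_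
      rw [sg_mul, sg_swap hxy, mul_neg_one, neg_smul, neg_neg, ren_mul]
  · intro S u f hu h
    exact al_insert hu h
  · intro S u f hu h
    exact alt_insert hu h

end Pool.Agent.VOP
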