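import Pool.Agent.VOP.StmtsR
import Pool.Agent.VOP.DG
import Pool.Agent.VOP.DIV
import Pool.Agent.VOP.SYM
import Pool.Agent.VOP.CHB
import Pool.Agent.VSY.VU

/-!
# The ends of the induction for the first row criterion (MP_deb8da_ag)
-/

namespace Pool.Agent.VOP

open MvPolynomial Pool.Agent.VSY

namespace RCV

variable {K : Type} [Field K]

theorem mv_self {A : Type} [DecidableEq A] {c w : A} (h : w ≠ c) : mv c w w = w := by
  unfold mv
  rw [Function.update_of_ne h]
  rfl

/-- the first part -/
theorem top (v M e p : ℕ) : CHR K v M e p (p + 2) := by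
  intro A _ _ Λ w c g f hw hc hcard hdg hal hm hf
  have hx : (Pi.single (Fin.last v) 1 : Fin (v + 1) → K) ≠ 0 := by
    intro h
    have := congrFun h (Fin.last v)
    simp at this
  have hwc : w ≠ c := fun h => hw (h ▸ hc)
  have hdvd : (X (w, Fin.last v) : PX K A (v + 1)) ∣ g := by
    apply CHB.X_dvd_of
    intro m hmm h0
    have h3 := hm m hmm h0
    have h4 : (Λ.filter fun u => 1 ≤ m (u, Fin.last v)).card ≤ Λ.card := Finset.card_filter_le _ _
    omega
  obtain ⟨g', hg'⟩ := hdvd
  obtain ⟨d1, d2, -, -, -, d6, -⟩ := DIV_thm DG_thm K A A (v + 1) (Pi.single (Fin.last v) 1) hx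
  have hl : (lin (Pi.single (Fin.last v) 1) w : PX K A (v + 1)) = X (w, Fin.last v) :=
    CHB.lin_single _ _
  rw [← hl] at hg' hf
  have hcancel : ∀ (φ : A → A) (q : PX K A (v + 1)), φ w = w →
      ren φ g = lin (Pi.single (Fin.last v) 1) w * q → ren φ g' = q := by
    intro φ q hφ h
    apply d1 w
    rw [← h, hg', map_mul, d6, hφ]
  refine ⟨g', ?_, ?_, ?_⟩
  · have hCf : Cf ∅ ∅ Λ w := ⟨Finset.disjoint_empty_left _, Finset.disjoint_empty_left _,
      Finset.disjoint_empty_left _, Finset.notMem_empty _, Finset.notMem_empty _, hw⟩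
    rw [← CHB.upd_dgc M ∅ ∅ Λ w (e + 1) e hCf]
    apply d2
    · unfold dgc
      rw [if_neg (by simp), if_neg hw, if_pos rfl]
    · rw [← hg']
      exact hdg
  · intro x hx y hy hxy
    apply hcancel
    · apply Equiv.swap_apply_of_ne_of_ne
      · rintro rfl
        exact hw hx
      · rintro rfl
        exact hw hy
    · rw [hal x hx y hy hxy, hg', mul_neg]
  · exact hcancel _ f (mv_self hwc) hf.symm

/-- degrees on `Option U` -/
def dl {U : Type} (d e : ℕ) : Option U → ℕ
  | none => e
  | some _ => d

theorem dg_of_inC {U : Type} [Fintype U] [DecidableEq U] {v d s r e : ℕ} {f : PX K (Option U) v}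
    (h : InC U v d s r f) (he : e + s = r) : Dg (dl d e) f := by
  intro m hm x
  have h1 := h.deg m hm
  cases x with
  | none =>
    have := h1.2
    show _ = e
    omega
  | some u => exact h1.1 u

theorem deg_of_dg {U : Type} [Fintype U] [DecidableEq U] {v d s r e : ℕ} {f : PX K (Option U) v}
    (h : Dg (dl d e) f) (he : e + s = r) :
    ∀ m ∈ f.support, (∀ u : U, ∑ j, m (some u, j) = d) ∧ ∑ j, m (none, j) + s = r := by
  intro m hm
  refine ⟨fun u => h m hm (some u), ?_⟩
  rw [h m hm none]
  exact he

theorem mg_none {U : Type} [DecidableEq U] (u : U) : mg u none = none := by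
  unfold mg
  rw [Function.update_of_ne (by simp)]
  rfl

/-- multiplication by a coordinate of the point `none` -/
theorem mul_X {U : Type} [Fintype U] [DecidableEq U] {v d r : ℕ} (k : Fin v)
    {f : PX K (Option U) v} (h : InZ U v d r f) : InZ U v d (r + 1) (X (none, k) * f) := by
  refine ⟨⟨fun π => ?_, ?_⟩, fun u => ?_⟩
  · rw [map_mul, ren_X, h.1.alt, Option.map_none, mul_smul_comm]
  · apply deg_of_dg (e := r + 1) _ (by omega)
    have h1 := DG.mul (DG.var (K := K) (none : Option U) k) (dg_of_inC h.1 (e := r) (by omega))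
    have h2 : (fun x => (Pi.single (none : Option U) 1 : Option U → ℕ) x + dl d r x) =
        dl d (r + 1) := by
      funext x
      cases x with
      | none =>
        rw [Pi.single_eq_same]
        show 1 + r = r + 1
        omega
      | some u =>
        rw [Pi.single_eq_of_ne (by simp)]
        show 0 + d = d
        omega
    rw [h2] at h1
    exact h1
  · rw [map_mul, h.2, mul_zero]

/-- the second part -/
theorem bot (v M e p : ℕ) (h0 : CHR K v M e p 0)
    (hV : Van K (v + 1) (M + 2) p (e + 1 + (M + 2))) : Van K (v + 1) (M + 2) p (e + (M + 2)) := by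
  refine VU_thm K (v + 1) (M + 2) p (e + (M + 2)) (Fin p) (Fintype.card_fin p) ?_
  intro f hf
  have hF := mul_X (Fin.last v) hf
  rw [show e + (M + 2) + 1 = e + 1 + (M + 2) by omega] at hF
  obtain ⟨g, hg, hgf⟩ := hV (Fin p) (Fintype.card_fin p) _ hF
  set Λ : Finset (Option (Option (Fin p))) := Finset.univ.erase none with hΛ
  have hmemΛ : ∀ x : Option (Option (Fin p)), x ∈ Λ ↔ x ≠ none := by
    intro x
    rw [hΛ, Finset.mem_erase]
    exact ⟨fun h => h.1, fun h => ⟨h, Finset.mem_univ _⟩⟩
  have hdgc : ∀ r : ℕ, dgc M ∅ ∅ Λ none r = dl (M + 2) r := by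
    intro r
    funext x
    cases x with
    | none =>
      unfold dgc
      rw [if_neg (by simp), if_neg (by rw [hmemΛ]; simp), if_pos rfl]
      rfl
    | some x =>
      unfold dgc
      rw [if_neg (by simp), if_pos (by rw [hmemΛ]; simp)]
      rfl
  have hmv : (mv (some none) none : Option (Option (Fin p)) → Option (Option (Fin p))) =
      Option.map some ∘ Option.join := by
    funext x
    rcases x with _ | _ | x
    · rw [mv_self (by simp)]
      rfl
    · unfold mv
      rw [Function.update_self]
      rfl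
    · unfold mv
      rw [Function.update_of_ne (by simp)]
      rfl
  obtain ⟨g₁, hg1, hg2, hg3⟩ := h0 (Option (Option (Fin p))) Λ none (some none) g
    (ren (Option.map some) f) (by rw [hmemΛ]; simp) (by rw [hmemΛ]; simp) (by
      rw [hΛ, Finset.card_erase_of_mem (Finset.mem_univ _), Finset.card_univ, Fintype.card_option,
        Fintype.card_option, Fintype.card_fin]
      rfl) (by
      rw [hdgc]
      exact dg_of_inC hg rfl) (by
      intro x hx y hy hxy
      rw [hmemΛ] at hx hy
      obtain ⟨a, rfl⟩ := Option.ne_none_iff_exists'.mp hx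
      obtain ⟨b, rfl⟩ := Option.ne_none_iff_exists'.mp hy
      have hab : a ≠ b := fun h => hxy (by rw [h])
      have h1 := hg.alt (Equiv.swap a b)
      rw [Equiv.Perm.sign_swap hab] at h1
      have h2 : (Option.map (Equiv.swap a b) : Option (Option (Fin p)) → Option (Option (Fin p))) =
          Equiv.swap (some a) (some b) := by
        rw [← Equiv.optionCongr_swap]
        rfl
      rw [h2] at h1
      rw [h1]
      simp) (by
      intro m _ _
      exact Nat.zero_le _) (by
      rw [hmv, ← ren_ren, hgf, map_mul, ren_X, Option.map_none])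
  refine ⟨g₁, ⟨fun π => ?_, ?_⟩, ?_⟩
  · obtain ⟨-, s2, -⟩ := SYM_thm DG_thm K (Option (Option (Fin p))) (v + 1)
    have hmem : Equiv.optionCongr π ∈ pS Λ := by
      rw [SYM.mem_pS]
      intro x hx
      rw [hmemΛ, not_not] at hx
      rw [hx]
      rfl
    have h1 := (s2 Λ g₁ (Equiv.optionCongr π) hmem).2 hg2
    rw [Equiv.optionCongr_sign] at h1
    exact h1
  · rw [hdgc] at hg1
    exact deg_of_dg hg1 rfl
  · have h1 : (Option.join : Option (Option (Fin p)) → Option (Fin p)) =
        Option.join ∘ mv (some none) none := by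
      rw [hmv]
      funext x
      rcases x with _ | _ | x <;> rfl
    rw [h1, ← ren_ren, hg3, ren_ren]
    have h2 : Option.join ∘ Option.map some = (id : Option (Fin p) → Option (Fin p)) := by
      funext x
      rcases x with _ | x <;> rfl
    rw [h2, ren_id]

end RCV

theorem RCV_thm : Stmt_RCV := by
  intro K _ _ v M e p
  exact ⟨RCV.top v M e p, RCV.bot v M e p⟩

end Pool.Agent.VOP
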