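import Pool.Agent.VOP.StmtsR
import Pool.Agent.VOP.DG
import Pool.Agent.VOP.RCV
import Pool.Agent.VSY.WB
import Pool.Agent.VSY.NAT

/-!
# Highest weight gluing gives the vanishing of highest weight classes (MP_deb8da_ag)
-/

set_option autoImplicit false

namespace Pool.Agent.VOP

open MvPolynomial Pool.Agent.VSY

namespace QRL

variable {K : Type} [Field K] {U : Type} [Fintype U] [DecidableEq U] {v : ℕ}

/-- the letters `U` are moved to the letters different from `o` -/
def ph (o : Option U) : Option U → Option (Option U) :=
  Option.map fun u => Equiv.swap none o (some u)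

omit [Fintype U] in
theorem ph_inj (o : Option U) : Function.Injective (ph o) := by
  unfold ph
  apply Option.map_injective
  intro a b h
  exact Option.some_injective _ ((Equiv.swap none o).injective h)

omit [Fintype U] in
theorem ph_none (o : Option U) : ph o none = none := rfl

omit [Fintype U] in
theorem ph_some (o : Option U) (u : U) : ph o (some u) = some (Equiv.swap none o (some u)) := rfl

omit [Fintype U] in
theorem ph_ne (o : Option U) (a : Option U) : ph o a ≠ some o := by
  cases a with
  | none => simp [ph_none]
  | some u =>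
    rw [ph_some]
    intro h
    have h1 := Option.some.inj h
    have h2 : Equiv.swap none o (some u) = Equiv.swap none o none := by
      rw [h1, Equiv.swap_apply_left]
    exact absurd ((Equiv.swap none o).injective h2) (by simp)

omit [Fintype U] in
theorem ph_surj (o o' : Option U) (h : o' ≠ o) : ∃ u : U, ph o (some u) = some o' := by
  have h1 : Equiv.swap none o o' ≠ none := by
    intro h2
    apply h
    have h3 : Equiv.swap none o o' = Equiv.swap none o o := by
      rw [h2, Equiv.swap_apply_right]
    exact (Equiv.swap none o).injective h3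
  obtain ⟨u, hu⟩ := Option.ne_none_iff_exists'.mp h1
  refine ⟨u, ?_⟩
  rw [ph_some, ← hu, Equiv.swap_apply_self]

/-- the degrees of the transported cycle -/
theorem dg_ph {d e : ℕ} {f : PX K (Option U) v} (h : Dg (RCV.dl d (e + d)) f) (o : Option U) :
    Dg (Function.update (Function.update (RCV.dl (U := Option U) d e) (some o) 0) none (e + d))
      (ren (ph o) f) := by
  have h1 := DG.ren_push _ (ph o) f h
  have h2 : (fun b => ∑ a ∈ Finset.univ.filter (fun a => ph o a = b), RCV.dl d (e + d) a) =
      Function.update (Function.update (RCV.dl (U := Option U) d e) (some o) 0) none (e + d) := by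
    funext b
    cases b with
    | none =>
      rw [Function.update_self, Finset.sum_eq_single none]
      · rfl
      · intro a ha hne
        rw [Finset.mem_filter] at ha
        exact absurd (ph_inj o (ha.2.trans (ph_none o).symm)) hne
      · intro hn
        exact (hn (Finset.mem_filter.2 ⟨Finset.mem_univ _, ph_none o⟩)).elim
    | some o' =>
      rw [Function.update_of_ne (by simp)]
      by_cases ho : o' = o
      · subst ho
        rw [Function.update_self]
        refine Finset.sum_eq_zero fun a ha => ?_
        rw [Finset.mem_filter] at ha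
        exact absurd ha.2 (ph_ne _ a)
      · rw [Function.update_of_ne (by simpa using ho)]
        obtain ⟨u, hu⟩ := ph_surj o o' ho
        rw [Finset.sum_eq_single (some u)]
        · rfl
        · intro a ha hne
          rw [Finset.mem_filter] at ha
          exact absurd (ph_inj o (ha.2.trans hu.symm)) hne
        · intro hn
          exact (hn (Finset.mem_filter.2 ⟨Finset.mem_univ _, hu⟩)).elim
  rwa [h2] at h1

omit [Fintype U] in
/-- the transported cycle is a cycle -/
theorem cy_ph {f : PX K (Option U) v} (h : ∀ u, ren (mg u) f = 0) (o o' : Option U)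
    (ho : o' ≠ o) : ren (mv (some o') none) (ren (ph o) f) = 0 := by
  obtain ⟨u, hu⟩ := ph_surj o o' ho
  have h1 : ren (mv (some o') none) (ren (ph o) f) = ren (ph o) (ren (mg u) f) := by
    rw [ren_ren, ren_ren]
    refine ren_congr (fun a => ?_) f
    simp only [Function.comp_apply, mg, mv]
    by_cases ha : a = some u
    · subst ha
      rw [hu, Function.update_self, Function.update_self, ph_none]
    · rw [Function.update_of_ne ha, Function.update_of_ne]
      · rfl
      · intro h'
        exact ha (ph_inj o (h'.trans hu.symm))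
  rw [h1, h u, map_zero]

omit [Fintype U] in
/-- the sign rule -/
theorem sgn_ph {d r : ℕ} [Fintype U] {f : PX K (Option U) v} (h : InC U v d 0 r f)
    (σ : Equiv.Perm (Option U)) :
    ren (Option.join ∘ Option.map σ ∘ ph (σ⁻¹ none)) f =
      ((Equiv.Perm.sign (σ * Equiv.swap none (σ⁻¹ none)) : ℤˣ) : ℤ) • f := by
  set τ : Equiv.Perm (Option U) := σ * Equiv.swap none (σ⁻¹ none) with hτ
  have h0 : τ none = none := by
    rw [hτ, Equiv.Perm.mul_apply, Equiv.swap_apply_left]
    exact Equiv.apply_symm_apply σ none
  have h1 : (Equiv.removeNone τ).optionCongr = τ := by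
    rw [map_equiv_removeNone, h0, Equiv.swap_self]
    rfl
  have h2 := h.alt (Equiv.removeNone τ)
  rw [← Equiv.optionCongr_sign, h1] at h2
  rw [← h2]
  refine ren_congr (fun a => ?_) f
  have h3 : Option.map (Equiv.removeNone τ) a = τ a := by
    conv_rhs => rw [← h1]
    rfl
  rw [h3]
  cases a with
  | none =>
    rw [h0]
    rfl
  | some u =>
    simp only [Function.comp_apply, ph_some, Option.map_some, Option.join_some, hτ,
      Equiv.Perm.mul_apply]

/-- Highest weight gluing implies that highest weight cycles are boundaries. -/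
theorem link (K : Type) [Field K] [CharZero K] (v d l e D : ℕ) (h : HG K v d (l + 1) e D) :
    HVR K v d l (e + d) D := by
  intro U _ _ hU ν f hf hW hH hν
  have hfd : Dg (RCV.dl d (e + d)) f := RCV.dg_of_inC hf.1 (by omega)
  have hWB := (WB_thm K (Option U) (Option (Option U)) v).2.2.2.1
  obtain ⟨y, hy, -, -, hyx⟩ := h (Option (Option U)) (RCV.dl d e) (Finset.univ.erase none) none ν
    (fun a => a.elim 0 fun o => ((Equiv.Perm.sign (Equiv.swap none o) : ℤˣ) : ℤ) • ren (ph o) f)
    (by simp) (by
      rw [Finset.card_erase_of_mem (Finset.mem_univ _), Finset.card_univ, Fintype.card_option,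
        Fintype.card_option, hU]
      rfl) (by
      intro u hu
      obtain ⟨o, rfl⟩ := Option.ne_none_iff_exists'.mp (Finset.mem_erase.1 hu).1
      exact le_rfl) rfl (by
      intro p hp hp'
      exact absurd (Finset.mem_erase.2 ⟨hp', Finset.mem_univ _⟩) hp) hν (by
      intro u hu
      obtain ⟨o, rfl⟩ := Option.ne_none_iff_exists'.mp (Finset.mem_erase.1 hu).1
      exact ((DG_thm K (Option (Option U)) (Option (Option U)) v).2.2.1 _ 0 _ _
        (dg_ph hfd o)).2.2) (by
      intro a ha a' ha' haa
      obtain ⟨o, rfl⟩ := Option.ne_none_iff_exists'.mp (Finset.mem_erase.1 ha).1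
      obtain ⟨o', rfl⟩ := Option.ne_none_iff_exists'.mp (Finset.mem_erase.1 ha').1
      have hoo : o ≠ o' := fun h => haa (by rw [h])
      simp only [Option.elim_some, map_zsmul]
      rw [cy_ph hf.2 o o' hoo.symm, cy_ph hf.2 o' o hoo, smul_zero, smul_zero]) (by
      intro u hu
      obtain ⟨o, rfl⟩ := Option.ne_none_iff_exists'.mp (Finset.mem_erase.1 hu).1
      intro m hm j
      exact hWB ν (ph o) f hW m (support_smul hm) j) (by
      intro u hu i j hij
      obtain ⟨o, rfl⟩ := Option.ne_none_iff_exists'.mp (Finset.mem_erase.1 hu).1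
      simp only [Option.elim_some, map_zsmul]
      rw [← NAT.ren_Eij, hH i j hij, map_zero, smul_zero])
  have hyx' : ∀ o : Option U, ren (mv (some o) none) y =
      ((Equiv.Perm.sign (Equiv.swap none o) : ℤˣ) : ℤ) • ren (ph o) f := fun o =>
    hyx (some o) (Finset.mem_erase.2 ⟨by simp, Finset.mem_univ _⟩)
  have hterm : ∀ σ : Equiv.Perm (Option U), ren Option.join (((Equiv.Perm.sign σ : ℤˣ) : ℤ) •
      ren (Option.map σ) y) = f := by
    intro σ
    have h1 : ren Option.join (ren (Option.map σ) y) =
        ren (Option.join ∘ Option.map σ) (ren (mv (some (σ⁻¹ none)) none) y) := by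
      rw [ren_ren, ren_ren]
      refine ren_congr (fun a => ?_) y
      simp only [Function.comp_apply, mv]
      by_cases ha : a = some (σ⁻¹ none)
      · subst ha
        rw [Function.update_self, Option.map_some, show σ (σ⁻¹ none) = none from
          Equiv.apply_symm_apply σ none]
        rfl
      · rw [Function.update_of_ne ha]
        rfl
    rw [map_zsmul, h1, hyx', map_zsmul, ren_ren, Function.comp_assoc, sgn_ph hf.1, smul_smul,
      smul_smul, Equiv.Perm.sign_mul]
    rcases Int.units_eq_one_or (Equiv.Perm.sign σ) with h2 | h2 <;>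
    rcases Int.units_eq_one_or (Equiv.Perm.sign (Equiv.swap none (σ⁻¹ none))) with h3 | h3 <;>
    · rw [h2, h3]
      simp
  refine ⟨((Fintype.card (Equiv.Perm (Option U)) : ℕ) : K)⁻¹ • ∑ σ : Equiv.Perm (Option U),
    ((Equiv.Perm.sign σ : ℤˣ) : ℤ) • ren (Option.map σ) y, ⟨?_, ?_⟩, ?_⟩
  · intro π
    have hs : ren (Option.map π) (∑ σ : Equiv.Perm (Option U),
        ((Equiv.Perm.sign σ : ℤˣ) : ℤ) • ren (Option.map σ) y) =
        ((Equiv.Perm.sign π : ℤˣ) : ℤ) • ∑ σ : Equiv.Perm (Option U),
          ((Equiv.Perm.sign σ : ℤˣ) : ℤ) • ren (Option.map σ) y := by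
      rw [map_sum, Finset.smul_sum]
      refine Fintype.sum_equiv (Equiv.mulLeft π) _ _ fun σ => ?_
      rw [map_zsmul, ren_ren, Equiv.coe_mulLeft, smul_smul, Equiv.Perm.sign_mul]
      have h1 : (Option.map π ∘ Option.map σ : Option (Option U) → Option (Option U)) =
          Option.map (π * σ) := by
        rw [Option.map_comp_map]
        rfl
      rw [h1]
      congr 1
      rcases Int.units_eq_one_or (Equiv.Perm.sign π) with h2 | h2 <;>
      · rw [h2]
        simp
    rw [map_smul, hs, smul_comm]
  · have hD := DG_thm K (Option (Option U)) (Option (Option U)) v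
    refine RCV.deg_of_dg (e := e) ?_ rfl
    refine (hD.2.2.1 _ _ 0 _ (hD.2.2.2.1 _ _ _ _ fun σ _ => (hD.2.2.1 _ 0 _ _ ?_).2.2)).1
    refine hD.2.2.2.2.2.2.2.2.1 (RCV.dl d e) (Equiv.optionCongr σ) y (fun a => ?_) hy
    cases a <;> rfl
  · rw [map_smul, map_sum, Finset.sum_congr rfl fun σ _ => hterm σ, Finset.sum_const,
      Finset.card_univ, ← Nat.cast_smul_eq_nsmul K, smul_smul, inv_mul_cancel₀, one_smul]
    exact Nat.cast_ne_zero.2 Fintype.card_ne_zero

end QRL

end Pool.Agent.VOP
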