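import Pool.Agent.VOP.MAIN3
import Pool.Agent.VOP.QRL
import Pool.Agent.VOP.QRE

/-!
# Ranges from the first row criterion and highest weight gluing (MP_deb8da_ag)

`d = M + 2`, levels `r ≥ β + 2 d - 1`.  The criterion reduces `K_p[r]` to the classes of first row
at most `D` in `K_l[r - d + 1]`, `l + D = p`; they are zero if the gluing `HG (l + 1) (r - 2 d + 1) D`
holds.
-/

set_option autoImplicit false

namespace Pool.Agent.VOP

open MvPolynomial Pool.Agent.VSY

namespace QRS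

/-- no variables -/
theorem van_zero (K : Type) [Field K] (d p r : ℕ) (hr : 1 ≤ r) : Van K 0 d p r := by
  intro U _ _ _ f hf
  have h0 : f = 0 := by
    by_contra hne
    obtain ⟨m, hm⟩ := support_nonempty.2 hne
    have h1 := (hf.1.deg m hm).2
    simp at h1
    omega
  refine ⟨0, ⟨fun π => by rw [map_zero, smul_zero], fun m hm => ?_⟩, by rw [map_zero, h0]⟩
  simp at hm

section ord

variable (K : Type) [Field K] [LinearOrder K] [IsStrictOrderedRing K]

/-- The step. -/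
theorem step (M β p : ℕ) (Q : ℕ → Prop)
    (h1 : ∀ l, Q l → ∀ v r, β + (M + 2) ≤ r → Van K v (M + 2) l r)
    (h2 : ∀ l D, l + D = p → ¬ Q l → ∀ v β', β ≤ β' → HG K v (M + 2) (l + 1) β' D) :
    ∀ v r, β + 2 * M + 3 ≤ r → Van K v (M + 2) p r := by
  classical
  have key : ∀ v j r, β + 2 * M + 3 ≤ r → (v + 1) * (M + 1) < r + j →
      Van K (v + 1) (M + 2) p r := by
    intro v j
    induction j with
    | zero =>
      intro r _ hr
      exact tg K v (M + 2) p r (by omega) (by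
        have : M + 2 - 1 = M + 1 := by omega
        rw [this]
        omega) (Or.inl (by
        have : M + 2 - 1 = M + 1 := by omega
        rw [this]
        omega))
    | succ j ih =>
      intro r hr hj
      obtain ⟨e, rfl⟩ : ∃ e, r = e + (M + 2) := ⟨r - (M + 2), by omega⟩
      refine V3F.rcr K v M e p ?_ fun l D hl => ?_
      · rw [show e + 1 + (M + 2) = e + (M + 2) + 1 by omega]
        exact ih _ (by omega) (by omega)
      · by_cases hQ : Q l
        · intro U _ _ hU ν f hf _ _ _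
          exact h1 l hQ v (e + 1) (by omega) U hU f hf
        · obtain ⟨β', hβ'⟩ : ∃ β', e + 1 = β' + (M + 2) := ⟨e + 1 - (M + 2), by omega⟩
          rw [hβ']
          exact QRL.link K v (M + 2) l β' D (h2 l D hl hQ v β' (by omega))
  intro v r hr
  cases v with
  | zero => exact van_zero K (M + 2) p r (by omega)
  | succ v => exact key v ((v + 1) * (M + 1)) r hr (by omega)

end ord

/-- `y (1 - log y) ≤ 1` -/
theorem ylog {y : ℝ} (hy : 0 < y) : y * (1 - Real.log y) ≤ 1 := by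
  have h1 := Real.one_sub_inv_le_log_of_pos hy
  have h2 : y * (1 - Real.log y) ≤ y * y⁻¹ := mul_le_mul_of_nonneg_left (by linarith) hy.le
  rwa [mul_inv_cancel₀ hy.ne'] at h2

section ord

variable (K : Type) [Field K] [LinearOrder K] [IsStrictOrderedRing K]

/-- The gluing for the one step theorem. -/
theorem hgA {d p β β' l D v : ℕ} {y : ℝ} (hd : 1 ≤ d) (hβ : 1 ≤ β) (hββ : β ≤ β') (hy : 1 ≤ y)
    (hyd : y * (1 + Real.log y) ≤ d) (hp : (p : ℝ) < y * (β + 2)) (hl : l + D = p) :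
    HG K v d (l + 1) β' D := by
  rcases Nat.lt_or_ge d D with hD | hD
  swap
  · exact QRE.hg_small K v d (l + 1) β' D hd (by omega) hD
  have hd0 : (0 : ℝ) < d := by exact_mod_cast hd
  have hy0 : 0 < y := by linarith
  obtain ⟨C, hC⟩ : ∃ C : ℝ, C = D / d := ⟨_, rfl⟩
  have hCd : C * d = D := by
    rw [hC]
    field_simp
  have hC1 : 1 < C := by
    rw [hC, one_lt_div hd0]
    exact_mod_cast hD
  have hββ' : (β : ℝ) ≤ β' := by exact_mod_cast hββ
  have hlr : (l : ℝ) + C * d = p := by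
    rw [hCd]
    exact_mod_cast hl
  obtain ⟨E, hE⟩ : ∃ E : ℝ, E = (β' : ℝ) + 2 := ⟨_, rfl⟩
  have hpE : (p : ℝ) < y * E := by
    refine hp.trans_le (mul_le_mul_of_nonneg_left ?_ hy0.le)
    linarith
  have hE3 : 3 ≤ E := by
    have : (1 : ℝ) ≤ β' := by exact_mod_cast hβ.trans hββ
    linarith
  rcases le_or_gt (2 * C) E with h2 | h2
  · refine QRE.hg_exp K hd hC1 (by rw [hCd]) (by rw [← hE]; exact h2) ?_
    rw [← hE]
    have h3 := QRE.tangent (E := E) (by linarith : 0 < C) hy0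
    have h4 : y * (1 + Real.log y) * C ≤ d * C := mul_le_mul_of_nonneg_right hyd (by linarith)
    push_cast
    nlinarith
  · refine hg0 K v d (l + 1) β' D hd ?_
    have h3 := ylog hy0
    have h4 : 2 * y ≤ d + 1 := by nlinarith
    have h5 : (l : ℝ) < β' + 1 := by
      have h6 : E * d < 2 * (C * d) := by nlinarith
      have h7 : 2 * y * E ≤ (d + 1) * E := mul_le_mul_of_nonneg_right h4 (by linarith)
      nlinarith
    have h6 : l < β' + 1 := by exact_mod_cast h5
    omega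

/-- The gluing for the steps of the recursion. -/
theorem hgB {d p β β' l D v : ℕ} {y P : ℝ} (hd : 1 ≤ d) (hβ : 1 ≤ β) (hββ : β ≤ β') (hy : 1 ≤ y)
    (hyd : (d : ℝ) + 1 ≤ y * (1 + Real.log y))
    (hP : (P + 1) * (2 + Real.log y) ≤ (β + 2) * (y + 1))
    (hp : (p : ℝ) < P + d * (β + 2) / (2 + Real.log y)) (hl : l + D = p) (hPl : P ≤ l) :
    HG K v d (l + 1) β' D := by
  rcases Nat.lt_or_ge d D with hD | hD
  swap
  · exact QRE.hg_small K v d (l + 1) β' D hd (by omega) hD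
  have hd0 : (0 : ℝ) < d := by exact_mod_cast hd
  have hy0 : 0 < y := by linarith
  have hlog : 0 ≤ Real.log y := Real.log_nonneg hy
  obtain ⟨w, hw⟩ : ∃ w : ℝ, w = 1 + Real.log y := ⟨_, rfl⟩
  have hw1 : 1 ≤ w := by linarith
  have e1 : 2 + Real.log y = w + 1 := by
    rw [hw]
    ring
  rw [e1] at hP hp
  obtain ⟨C, hC⟩ : ∃ C : ℝ, C = D / d := ⟨_, rfl⟩
  have hCd : C * d = D := by
    rw [hC]
    field_simp
  have hC1 : 1 < C := by
    rw [hC, one_lt_div hd0]
    exact_mod_cast hD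
  have hββ' : (β : ℝ) ≤ β' := by exact_mod_cast hββ
  have hlr : (l : ℝ) + C * d = p := by
    rw [hCd]
    exact_mod_cast hl
  obtain ⟨E, hE⟩ : ∃ E : ℝ, E = (β : ℝ) + 2 := ⟨_, rfl⟩
  rw [← hE] at hP hp
  have hE0 : 0 < E := by
    rw [hE]
    positivity
  -- `C < E / (w + 1)`
  have hCE : C * (w + 1) < E := by
    have h1 : C * d < d * E / (w + 1) := by linarith
    rw [lt_div_iff₀ (by linarith)] at h1
    have h2 : d * (C * (w + 1)) < d * E := by linarith
    exact lt_of_mul_lt_mul_left h2 hd0.le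
  have h2C : 2 * C ≤ E := by nlinarith
  refine QRE.hg_exp K hd hC1 (by rw [hCd]) (by rw [hE] at h2C; linarith) ?_
  have h3 := QRE.tangent (E := E) (by linarith : 0 < C) hy0
  rw [← hw] at h3
  have h4 : Real.exp (E / C - 2) ≤ Real.exp (((β' : ℝ) + 2) / C - 2) := by
    apply Real.exp_le_exp.2
    have : E / C ≤ ((β' : ℝ) + 2) / C := by
      apply div_le_div_of_nonneg_right _ (by linarith : 0 ≤ C)
      rw [hE]
      linarith
    linarith
  have h5 : C * Real.exp (E / C - 2) ≤ C * Real.exp (((β' : ℝ) + 2) / C - 2) :=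
    mul_le_mul_of_nonneg_left h4 (by linarith)
  -- `p + 1 < y E - C (y w - d - 1)`
  have h6 : (p : ℝ) + 1 < y * E - C * (y * w - d - 1) := by
    have h7 : 0 ≤ y * w - d - 1 := by
      rw [hw]
      linarith
    have h8 : (w + 1) * ((p : ℝ) + 1) < (w + 1) * (P + 1) + d * E := by
      have h9 : (p : ℝ) - P < d * E / (w + 1) := by linarith
      rw [lt_div_iff₀ (by linarith)] at h9
      nlinarith
    have h10 : C * (w + 1) * (y * w - d - 1) ≤ E * (y * w - d - 1) :=
      mul_le_mul_of_nonneg_right hCE.le h7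
    have h11 : (w + 1) * ((p : ℝ) + 1) < (w + 1) * (y * E - C * (y * w - d - 1)) := by
      nlinarith
    exact lt_of_mul_lt_mul_left h11 (by linarith)
  push_cast
  nlinarith

/-- One step, for all levels above `β + 2 d - 1`. -/
theorem vanA {M β p : ℕ} {y : ℝ} (hβ : 1 ≤ β) (hy : 1 ≤ y)
    (hyd : y * (1 + Real.log y) ≤ (M + 2 : ℕ)) (hp : (p : ℝ) < y * (β + 2)) :
    ∀ v r, β + 2 * M + 3 ≤ r → Van K v (M + 2) p r :=
  step K M β p (fun _ => False) (fun _ h => h.elim)
    fun _ _ hl _ _ _ hβ' => hgA K (by omega) hβ hβ' hy hyd hp hl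

/-- The ranges. -/
noncomputable def PP' (N s : ℕ) (y : ℝ) (i : ℕ) : ℝ :=
  s + 1 + ∑ j ∈ Finset.range i, ((N : ℝ) + 1) * ((s + j * N : ℕ) + 2) / (2 + Real.log y)

theorem PP'_succ (N s : ℕ) (y : ℝ) (i : ℕ) :
    PP' N s y (i + 1) = PP' N s y i + ((N : ℝ) + 1) * ((s + i * N : ℕ) + 2) / (2 + Real.log y) := by
  unfold PP'
  rw [Finset.sum_range_succ]
  ring

/-- The condition for the steps. -/
theorem PP'_le {N s : ℕ} {y : ℝ} (hy : 1 ≤ y) {i : ℕ}
    (h : (i : ℝ) * (N + 1) + 1 + Real.log y ≤ y) :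
    (PP' N s y i + 1) * (2 + Real.log y) ≤ ((s + i * N : ℕ) + 2) * (y + 1) := by
  have hlog : 0 ≤ Real.log y := Real.log_nonneg hy
  obtain ⟨u, hu⟩ : ∃ u : ℝ, u = 2 + Real.log y := ⟨_, rfl⟩
  have hu0 : 0 < u := by linarith
  obtain ⟨E, hE⟩ : ∃ E : ℝ, E = ((s + i * N : ℕ) : ℝ) + 2 := ⟨_, rfl⟩
  have h1 : ∑ j ∈ Finset.range i, ((N : ℝ) + 1) * ((s + j * N : ℕ) + 2) / (2 + Real.log y) ≤
      i * ((N + 1) * E / u) := by
    have h2 : ∀ j ∈ Finset.range i,
        ((N : ℝ) + 1) * ((s + j * N : ℕ) + 2) / (2 + Real.log y) ≤ (N + 1) * E / u := by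
      intro j hj
      rw [← hu]
      apply div_le_div_of_nonneg_right _ hu0.le
      apply mul_le_mul_of_nonneg_left _ (by positivity)
      rw [hE]
      have h3 : s + j * N ≤ s + i * N := by
        have := Nat.mul_le_mul_right N (Finset.mem_range.1 hj).le
        omega
      have h4 : ((s + j * N : ℕ) : ℝ) ≤ ((s + i * N : ℕ) : ℝ) := by exact_mod_cast h3
      linarith
    have h3 := Finset.sum_le_card_nsmul _ _ _ h2
    rwa [Finset.card_range, nsmul_eq_mul] at h3
  have h2 : (i * ((N + 1) * E / u)) * u = i * (N + 1) * E := by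
    field_simp
  have h3 : (s : ℝ) + 2 ≤ E := by
    rw [hE]
    push_cast
    have : (0 : ℝ) ≤ (i : ℝ) * N := by positivity
    linarith
  unfold PP'
  rw [← hE]
  obtain ⟨T, hT⟩ : ∃ T : ℝ, T = ∑ j ∈ Finset.range i,
    ((N : ℝ) + 1) * ((s + j * N : ℕ) + 2) / (2 + Real.log y) := ⟨_, rfl⟩
  rw [← hT] at h1 ⊢
  rw [← hu]
  have h4 : T * u ≤ i * (N + 1) * E := by
    rw [← h2]
    exact mul_le_mul_of_nonneg_right h1 hu0.le
  have h5 : (s + 1 + 1) * u ≤ E * u := mul_le_mul_of_nonneg_right (by linarith) hu0.le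
  have h6 : (i * (N + 1) + u) * E ≤ (y + 1) * E := by
    apply mul_le_mul_of_nonneg_right _ (by
      rw [hE]
      positivity)
    linarith
  nlinarith

/-- The ranges in all weights. -/
theorem vanB {M s : ℕ} {y : ℝ} (hy : 1 ≤ y) (hyd : ((M + 2 : ℕ) : ℝ) + 1 ≤ y * (1 + Real.log y)) :
    ∀ i : ℕ, ((i - 1 : ℕ) : ℝ) * ((M + 1 : ℕ) + 1) + 1 + Real.log y ≤ y →
      ∀ v p r : ℕ, (p : ℝ) < PP' (M + 1) s y i → (i + 1) * (M + 1) + s + 1 ≤ r → (i = 0 ∨ 1 ≤ s) →
        Van K v (M + 2) p r := by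
  intro i
  induction i with
  | zero =>
    intro _ v p r hp hr _
    have h0 : PP' (M + 1) s y 0 = s + 1 := by simp [PP']
    rw [h0] at hp
    have hp' : p < s + 1 := by exact_mod_cast hp
    exact low K v (M + 2) p r (by omega) (by omega)
  | succ i ih =>
    intro hi v p r hp hr hs
    have hs1 : 1 ≤ s := by omega
    rw [Nat.add_sub_cancel] at hi
    have hi' : ((i - 1 : ℕ) : ℝ) * ((M + 1 : ℕ) + 1) + 1 + Real.log y ≤ y := by
      have h1 : ((i - 1 : ℕ) : ℝ) ≤ i := by exact_mod_cast Nat.sub_le i 1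
      have h2 : ((i - 1 : ℕ) : ℝ) * ((M + 1 : ℕ) + 1) ≤ i * ((M + 1 : ℕ) + 1) :=
        mul_le_mul_of_nonneg_right h1 (by positivity)
      linarith
    rw [PP'_succ] at hp
    refine step K M (s + i * (M + 1)) p (fun l => (l : ℝ) < PP' (M + 1) s y i) ?_ ?_ v r ?_
    · intro l hl v r hr'
      exact ih hi' v l r hl (by
        have e1 : (i + 1) * (M + 1) + s + 1 = s + i * (M + 1) + (M + 2) := by ring
        omega) (Or.inr hs1)
    · intro l D hl hnl v β' hβ'
      refine hgB K (y := y) (P := PP' (M + 1) s y i) (by omega) (by omega) hβ' hy hyd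
        (PP'_le hy hi) ?_ hl (not_lt.1 hnl)
      have e1 : ((M + 2 : ℕ) : ℝ) = ((M + 1 : ℕ) : ℝ) + 1 := by
        push_cast
        ring
      rw [e1]
      exact hp
    · have e1 : (i + 1 + 1) * (M + 1) + s + 1 = s + i * (M + 1) + 2 * M + 3 := by ring
      omega

end ord

/-- One step: the range `p < y ((q - 2) d + b + 3)`. -/
theorem one (K : Type) [Field K] [CharZero K] (v q b d p : ℕ) (hq : 2 ≤ q) (hd : 2 ≤ d) (y : ℝ)
    (hy : 1 ≤ y) (hyd : y * (1 + Real.log y) ≤ d)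
    (hp : (p : ℝ) < y * (((q : ℝ) - 2) * d + b + 3)) : Van K v d p (q * d + b) := by
  obtain ⟨M, rfl⟩ : ∃ M, d = M + 2 := ⟨d - 2, by omega⟩
  obtain ⟨k, rfl⟩ : ∃ k, q = k + 2 := ⟨q - 2, by omega⟩
  apply BC_thm
  refine vanA ℚ (M := M) (β := k * (M + 2) + b + 1) (by omega) hy hyd ?_ v _ ?_
  · push_cast at hp ⊢
    have e1 : ((k : ℝ) + 2 - 2) * (M + 2) + b + 3 = k * (M + 2) + b + 1 + 2 := by ring
    rw [e1] at hp
    exact hp
  · have e1 : (k + 2) * (M + 2) + b = k * (M + 2) + b + 1 + 2 * M + 3 := by ring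
    omega

/-- Several steps. -/
theorem several (K : Type) [Field K] [CharZero K] (v q b d p : ℕ) (hq : 3 ≤ q) (hd : 2 ≤ d)
    (y : ℝ) (hy : 1 ≤ y) (hyd : ((q : ℝ) - 2) * d + 1 + Real.log y ≤ y)
    (hp : (p : ℝ) < b + q + (q - 1) * d * (2 * (b + q + 1) + (q - 2) * (d - 1)) /
      (2 * (2 + Real.log y))) : Van K v d p (q * d + b) := by
  obtain ⟨M, rfl⟩ : ∃ M, d = M + 2 := ⟨d - 2, by omega⟩
  obtain ⟨k, rfl⟩ : ∃ k, q = k + 2 := ⟨q - 2, by omega⟩
  have hlog : 0 ≤ Real.log y := Real.log_nonneg hy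
  apply BC_thm
  refine vanB ℚ (M := M) (s := b + k + 1) (y := y) hy ?_ (k + 1) ?_ v p _ ?_ ?_ (Or.inr (by omega))
  · have h1 : ((M : ℝ) + 2) + 1 ≤ y := by
      push_cast at hyd
      have h2 : (1 : ℝ) * (M + 2) ≤ ((k : ℝ) + 2 - 2) * (M + 2) := by
        apply mul_le_mul_of_nonneg_right _ (by positivity)
        have : (1 : ℝ) ≤ k := by exact_mod_cast (by omega : 1 ≤ k)
        linarith
      linarith
    push_cast
    nlinarith
  · rw [Nat.add_sub_cancel]
    push_cast at hyd ⊢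
    have e1 : ((k : ℝ) + 2 - 2) * (M + 2) = k * (M + 1 + 1) := by ring
    rw [e1] at hyd
    exact hyd
  · refine hp.trans_le (le_of_eq ?_)
    unfold PP'
    have h1 : ∑ j ∈ Finset.range (k + 1), (((M + 1 : ℕ) : ℝ) + 1) *
        (((b + k + 1 + j * (M + 1) : ℕ) : ℝ) + 2) / (2 + Real.log y) =
        (k + 1) * (M + 2) * (2 * (b + k + 3) + k * (M + 1)) / (2 * (2 + Real.log y)) := by
      rw [← Finset.sum_div, ← Finset.mul_sum]
      have h2 : ∑ j ∈ Finset.range (k + 1), (((b + k + 1 + j * (M + 1) : ℕ) : ℝ) + 2) =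
          (k + 1) * (2 * (b + k + 3) + k * (M + 1)) / 2 := by
        have h3 : ∀ n : ℕ, ∑ j ∈ Finset.range n, (((b + k + 1 + j * (M + 1) : ℕ) : ℝ) + 2) =
            n * (2 * (b + k + 3) + (n - 1) * (M + 1)) / 2 := by
          intro n
          induction n with
          | zero => simp
          | succ n ih =>
            rw [Finset.sum_range_succ, ih]
            push_cast
            ring
        rw [h3]
        push_cast
        ring
      rw [h2]
      push_cast
      field_simp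
      ring
    rw [h1]
    push_cast
    ring
  · have e1 : (k + 1 + 1) * (M + 1) + (b + k + 1) + 1 = (k + 2) * (M + 2) + b := by ring
    omega

end QRS

end Pool.Agent.VOP
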