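import Pool.Agent.VOP.StmtsS

/-!
# Module ALPM: the step (α')
-/

namespace Pool.Agent.VOP

open MvPolynomial Pool.Agent.VSY

namespace ALPM

variable {K : Type} [Field K] {A : Type} [Fintype A] [DecidableEq A] {v : ℕ}

omit [Fintype A] in
lemma ext_eq {M : ℕ} {T S C : Finset A} {w : A} (hcf : Cf T S C w) (r e : ℕ) :
    ext (dgc M T S C w r) (M + 1) w e = dgc M (sm T) (isn S) (sm C) (some w) e := by
  funext o
  cases o with
  | none =>
    show M + 1 = _
    rw [dgc, if_pos]
    exact Finset.mem_union_right _ (Finset.mem_insert_self _ _)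
  | some x =>
    show (if x = w then e else dgc M T S C w r x) = _
    have m1 : ∀ S' : Finset A, some x ∈ sm S' ↔ x ∈ S' := by
      intro S'
      exact Finset.mem_map' _
    have m2 : some x ∈ isn S ↔ x ∈ S := by
      rw [isn, Finset.mem_insert, m1]
      simp
    have m3 : some x ∈ sm T ∪ isn S ↔ x ∈ T ∪ S := by
      rw [Finset.mem_union, Finset.mem_union, m1, m2]
    by_cases hx : x = w
    · subst hx
      have n1 : x ∉ T ∪ S := by
        rw [Finset.mem_union, not_or]
        exact ⟨hcf.wT, hcf.wS⟩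
      rw [if_pos rfl, dgc, if_neg (by rw [m3]; exact n1), if_neg (by rw [m1]; exact hcf.wC),
        if_pos rfl]
    · rw [if_neg hx, dgc, dgc]
      have n2 : ¬ (some x = some w) := fun h => hx (Option.some.inj h)
      simp only [m3, m1, if_neg hx, if_neg n2]

omit [Fintype A] in
lemma mv_swap {b c w : A} (hb : b ≠ w) (hc : c ≠ w) (x : A) :
    (mv b w ∘ Equiv.swap b c) x = (Equiv.swap b c ∘ mv c w) x := by
  simp only [Function.comp_apply, mv]
  by_cases h1 : x = c
  · subst h1
    rw [Equiv.swap_apply_right, Function.update_self, Function.update_self,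
      Equiv.swap_apply_of_ne_of_ne hb.symm hc.symm]
  · rw [Function.update_of_ne h1, id]
    by_cases h2 : x = b
    · subst h2
      rw [Equiv.swap_apply_left, Function.update_of_ne (fun h => h1 h.symm), id]
    · rw [Equiv.swap_apply_of_ne_of_ne h2 h1, Function.update_of_ne h2, id]

end ALPM

open ALPM in
theorem ALPM_thm (h1 : Stmt_DG) (h2 : Stmt_DIV) (h3 : Stmt_SYM) (h4 : Stmt_GD0) (h5 : Stmt_OMG)
    (h6 : Stmt_OMC) : Stmt_ALPM := by
  intro K _ _ v M β t s l hPV hCL A _ _ T S C w x f hcf hsp hT hS hC hx hz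
  have hwTS : w ∉ T ∪ S := by
    rw [Finset.mem_union, not_or]
    exact ⟨hcf.wT, hcf.wS⟩
  obtain ⟨Ω, hΩ, hΩf⟩ := hPV A (dgc M T S C w (2 * M + 1 + β)) T C S w f
    ⟨hcf.TC, hcf.TS, hcf.SC.symm, hcf.wT, hcf.wC, hcf.wS⟩ hS
    (fun y hy => by rw [dgc, if_pos (Finset.mem_union_right _ hy)])
    (by rw [dgc, if_neg hwTS, if_neg hcf.wC, if_pos rfl]; ring)
    ⟨hz.cg.dg, hz.cg.sy, hz.cg.alC, hz.cg.alS⟩ hz.cyS
  rw [ext_eq hcf] at hΩ
  have hΩ' : Cg (dgc M (sm T) (isn S) (sm C) (some w) (M + β)) (sm T) (isn S) (sm C) Ω :=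
    ⟨hΩ.dg, hΩ.sy, hΩ.alC, hΩ.alS⟩
  have hcf' : Cf T ∅ (S ∪ C) w := by
    refine ⟨Finset.disjoint_empty_right _, ?_, Finset.disjoint_empty_left _, hcf.wT,
      Finset.notMem_empty _, ?_⟩
    · rw [Finset.disjoint_union_right]
      exact ⟨hcf.TS, hcf.TC⟩
    · rw [Finset.mem_union, not_or]
      exact ⟨hcf.wS, hcf.wC⟩
  obtain ⟨-, -, -, gadd, -, gdiv, gsum, -⟩ := h4 K A v M β T (S ∪ C) w hcf'
  have hG := h5 K v M β A T S C w x Ω hcf hΩ'
  have hO := h6 K v M β A T S C w Ω hcf hΩ'
  -- the terms of the sum are good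
  have hterm : ∀ c ∈ C, Good M β T (S ∪ C) w (xS x (insert c S) *
      ren (fun o => (Equiv.swap none (some c) o : Option A).getD w) Ω) := by
    intro c hc
    obtain ⟨o1, o2, o3⟩ := hO c hc
    have hcl : CL K v M β t (s + l) (l - 1) := by
      rcases hCL with h | h
      · exfalso
        rw [h, Finset.card_eq_zero] at hC
        rw [hC] at hc
        exact Finset.notMem_empty _ hc
      · exact h
    have hcS : c ∉ S := Finset.disjoint_right.1 hcf.SC hc
    have hcT : c ∉ T := Finset.disjoint_right.1 hcf.TC hc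
    have hcw : c ≠ w := fun h => hcf.wC (h ▸ hc)
    have hl : 1 ≤ l := by
      rw [← hC]
      exact Finset.card_pos.2 ⟨c, hc⟩
    have hce : (C.erase c).card = l - 1 := by rw [Finset.card_erase_of_mem hc, hC]
    have hU : insert c S ∪ C.erase c = S ∪ C := by
      ext y
      simp only [Finset.mem_union, Finset.mem_insert, Finset.mem_erase]
      by_cases hy : y = c
      · subst hy
        simp [hc]
      · simp [hy]
    have hcfc : Cf T (insert c S) (C.erase c) w := by
      refine ⟨?_, ?_, ?_, hcf.wT, ?_, ?_⟩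
      · rw [Finset.disjoint_insert_right]
        exact ⟨hcT, hcf.TS⟩
      · exact Finset.disjoint_of_subset_right (Finset.erase_subset _ _) hcf.TC
      · rw [Finset.disjoint_insert_left]
        exact ⟨Finset.notMem_erase _ _,
          Finset.disjoint_of_subset_right (Finset.erase_subset _ _) hcf.SC⟩
      · rw [Finset.mem_insert, not_or]
        exact ⟨hcw.symm, hcf.wS⟩
      · intro h
        exact hcf.wC (Finset.mem_of_mem_erase h)
    have hspc : Sp T (insert c S) (C.erase c) w := by
      obtain ⟨a, a1, a2, a3, a4⟩ := hsp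
      refine ⟨a, a1, ?_, fun h => a3 (Finset.mem_of_mem_erase h), a4⟩
      rw [Finset.mem_insert, not_or]
      exact ⟨fun h => a3 (h ▸ hc), a2⟩
    have hcy : ren (mv c w) (ren (fun o => (Equiv.swap none (some c) o : Option A).getD w) Ω) =
        0 := by
      rw [o2, hΩf]
      exact hz.cyC c hc
    have hzc : Zc M T (insert c S) (C.erase c) w (2 * M + 2 + β)
        (ren (fun o => (Equiv.swap none (some c) o : Option A).getD w) Ω) := by
      refine ⟨o1, ?_, ?_⟩
      · intro b hb
        rcases Finset.mem_insert.1 hb with rfl | hbS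
        · exact hcy
        · have hbc : b ≠ c := fun h => hcS (h ▸ hbS)
          have hbw : b ≠ w := fun h => hcf.wS (h ▸ hbS)
          have e1 := o1.alS b hb c (Finset.mem_insert_self _ _) hbc
          have e2 : ren (mv b w) (ren (Equiv.swap b c)
              (ren (fun o => (Equiv.swap none (some c) o : Option A).getD w) Ω)) = 0 := by
            rw [ren_ren, ren_congr (mv_swap hbw hcw), ← ren_ren, hcy, map_zero]
          rw [e1, map_neg, neg_eq_zero] at e2
          exact e2
      · intro c' hc'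
        exact (o3 c' (Finset.mem_of_mem_erase hc') (Finset.ne_of_mem_erase hc')).1
    have hfin := hcl A T (insert c S) (C.erase c) w x _ hcfc hspc hT
      (by rw [Finset.card_insert_of_notMem hcS, hce, hS]; omega) hce hx hzc
    rwa [hU] at hfin
  have hsum := gsum A C _ hterm
  have hall := (gadd _ _ hG hsum).1
  rw [sub_add_cancel, hΩf] at hall
  exact gdiv _ _ (Nat.cast_ne_zero.2 (Nat.succ_ne_zero _)) hall

end Pool.Agent.VOP
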