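import Pool.Agent.VOP.Iface

/-!
# The Ottaviani-Paoletti conjecture (MP_deb8da_ag): base change (block X)
-/

namespace Pool.Agent.VOP

open MvPolynomial Pool.Agent.VSY

namespace BC

variable {k K : Type} [Field k] [Field K] [Algebra k K] {A B : Type} {v : ℕ}

/-- A linear functional applied to the coefficients. -/
noncomputable def pm (φ : K →ₗ[k] k) (f : PX K A v) : PX k A v :=
  ∑ m ∈ f.support, monomial m (φ (coeff m f))

theorem coeff_pm (φ : K →ₗ[k] k) (f : PX K A v) (m : A × Fin v →₀ ℕ) :
    coeff m (pm φ f) = φ (coeff m f) := by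
  classical
  rw [pm, coeff_sum]
  simp only [coeff_monomial]
  rw [Finset.sum_ite_eq']
  split_ifs with h
  · rfl
  · rw [notMem_support_iff.1 h, map_zero]

theorem pm_add (φ : K →ₗ[k] k) (f g : PX K A v) : pm φ (f + g) = pm φ f + pm φ g := by
  ext m
  simp only [coeff_pm, coeff_add, map_add]

theorem pm_zero (φ : K →ₗ[k] k) : pm φ (0 : PX K A v) = 0 := by
  ext m
  simp only [coeff_pm, coeff_zero, map_zero]

theorem pm_zsmul (φ : K →ₗ[k] k) (a : ℤ) (f : PX K A v) : pm φ (a • f) = a • pm φ f := by
  ext m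
  have h1 : coeff m (a • f) = a • coeff m f := by
    rw [zsmul_eq_mul, zsmul_eq_mul]
    have : ((a : ℤ) : PX K A v) = C (a : K) := by simp
    rw [this, coeff_C_mul]
  have h2 : coeff m (a • pm φ f) = a • coeff m (pm φ f) := by
    rw [zsmul_eq_mul, zsmul_eq_mul]
    have : ((a : ℤ) : PX k A v) = C (a : k) := by simp
    rw [this, coeff_C_mul]
  rw [h2, coeff_pm, coeff_pm, h1, map_zsmul]

theorem pm_monomial (φ : K →ₗ[k] k) (m : A × Fin v →₀ ℕ) (a : K) :
    pm φ (monomial m a : PX K A v) = monomial m (φ a) := by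
  classical
  ext m'
  rw [coeff_pm, coeff_monomial, coeff_monomial]
  split_ifs with h
  · rfl
  · rw [map_zero]

theorem pm_ren (φ : K →ₗ[k] k) (ψ : A → B) (f : PX K A v) :
    pm φ (ren ψ f) = ren ψ (pm φ f) := by
  induction f using MvPolynomial.induction_on' with
  | monomial m a => rw [ren_monomial, pm_monomial, pm_monomial, ren_monomial]
  | add f g hf hg => rw [map_add, pm_add, pm_add, map_add, hf, hg]

theorem support_pm (φ : K →ₗ[k] k) (f : PX K A v) : (pm φ f).support ⊆ f.support := by
  intro m hm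
  rw [mem_support_iff, coeff_pm] at hm
  rw [mem_support_iff]
  intro h
  rw [h, map_zero] at hm
  exact hm rfl

theorem InC_pm {U : Type} [Fintype U] [DecidableEq U] {d s r : ℕ} (φ : K →ₗ[k] k)
    {f : PX K (Option U) v} (hf : InC U v d s r f) : InC U v d s r (pm φ f) :=
  ⟨fun π => by rw [← pm_ren, hf.alt π, pm_zsmul], fun m hm => hf.deg m (support_pm φ f hm)⟩

theorem InZ_pm {U : Type} [Fintype U] [DecidableEq U] {d r : ℕ} (φ : K →ₗ[k] k)
    {f : PX K (Option U) v} (hf : InZ U v d r f) : InZ U v d r (pm φ f) :=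
  ⟨InC_pm φ hf.1, fun u => by rw [← pm_ren, hf.2 u, pm_zero]⟩

theorem map_ren (ψ : A → B) (f : PX k A v) :
    MvPolynomial.map (algebraMap k K) (ren ψ f) = ren ψ (MvPolynomial.map (algebraMap k K) f) := by
  rw [ren, ren]
  exact map_rename _ _ _

theorem InC_map {U : Type} [Fintype U] [DecidableEq U] {d s r : ℕ}
    {f : PX k (Option U) v} (hf : InC U v d s r f) :
    InC U v d s r (MvPolynomial.map (algebraMap k K) f : PX K (Option U) v) :=
  ⟨fun π => by rw [← map_ren, hf.alt π, map_zsmul],
    fun m hm => hf.deg m (support_map_subset _ _ hm)⟩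

theorem InB_map {U : Type} [Fintype U] [DecidableEq U] {d r : ℕ}
    {f : PX k (Option U) v} (hf : InB U v d r f) :
    InB U v d r (MvPolynomial.map (algebraMap k K) f : PX K (Option U) v) := by
  obtain ⟨g, hg, rfl⟩ := hf
  exact ⟨MvPolynomial.map (algebraMap k K) g, InC_map hg, (map_ren _ _).symm⟩

theorem InB_sum {U : Type} [Fintype U] [DecidableEq U] {d r : ℕ} {ι : Type*} (s : Finset ι)
    (F : ι → PX K (Option U) v) (h : ∀ i ∈ s, InB U v d r (F i)) :
    InB U v d r (∑ i ∈ s, F i) := by
  classical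
  induction s using Finset.induction_on with
  | empty => simpa using InB.zero
  | insert i s hi ih =>
    rw [Finset.sum_insert hi]
    exact InB.add (h i (Finset.mem_insert_self i s))
      (ih fun j hj => h j (Finset.mem_insert_of_mem hj))

theorem decomp {ι : Type*} (b : Module.Basis ι k K) (f : PX K A v) :
    ∃ s : Finset ι, f = ∑ i ∈ s, b i • (MvPolynomial.map (algebraMap k K) (pm (b.coord i) f)) := by
  classical
  refine ⟨f.support.biUnion fun m => (b.repr (coeff m f)).support, ?_⟩
  ext m
  rw [coeff_sum]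
  have h1 : ∀ i, coeff m (b i • (MvPolynomial.map (algebraMap k K) (pm (b.coord i) f))) =
      b.repr (coeff m f) i • b i := by
    intro i
    rw [coeff_smul, coeff_map, coeff_pm, Module.Basis.coord_apply, smul_eq_mul, mul_comm,
      Algebra.smul_def]
  simp only [h1]
  by_cases hm : m ∈ f.support
  · conv_lhs => rw [← b.linearCombination_repr (coeff m f)]
    rw [Finsupp.linearCombination_apply]
    exact Finsupp.sum_of_support_subset _
      (Finset.subset_biUnion_of_mem (fun m => (b.repr (coeff m f)).support) hm) _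
      (fun i _ => zero_smul k (b i))
  · rw [notMem_support_iff.1 hm]
    simp

theorem base_change {d p r : ℕ} (h : Van k v d p r) : Van K v d p r := by
  intro U _ _ hU f hf
  obtain ⟨s, hs⟩ := decomp (Module.Basis.ofVectorSpace k K) f
  rw [hs]
  exact InB_sum s _ fun i _ => InB.smul _ (InB_map (h U hU _ (InZ_pm _ hf)))

end BC

/-- Base change from `ℚ`. -/
theorem BC_thm : Stmt_BC := fun _ _ _ _ _ _ _ h => BC.base_change h

end Pool.Agent.VOP
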