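import Pool.Agent.VOP.StmtsH

/-!
# Module CFO: the coefficient operator
-/

namespace Pool.Agent.VOP

open MvPolynomial Pool.Agent.VSY

namespace CFOH

variable {K : Type} [Field K] {A : Type} [DecidableEq A] {v : ℕ}

/-- The monomials containing a coordinate of a point of `P` are killed. -/
noncomputable def kill (P : Finset A) : PX K A v →ₐ[K] PX K A v :=
  aeval (fun y : A × Fin v => if y.1 ∈ P then (0 : PX K A v) else X y)

theorem cfo_def (P : Finset A) (α : A × Fin v →₀ ℕ) (f : PX K A v) :
    cfo P α f = kill P (f.divMonomial α) := rfl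

theorem kill_pos (P : Finset A) (m : A × Fin v →₀ ℕ) (a : K) (h : ∀ y, y.1 ∈ P → m y = 0) :
    kill P (monomial m a) = monomial m a := by
  rw [kill, aeval_monomial, monomial_eq]
  congr 1
  refine Finset.prod_congr rfl fun y hy => ?_
  have h1 : y.1 ∉ P := fun h2 => (Finsupp.mem_support_iff.1 hy) (h y h2)
  simp only [if_neg h1]

theorem kill_neg (P : Finset A) (m : A × Fin v →₀ ℕ) (a : K) (h : ∃ y, y.1 ∈ P ∧ m y ≠ 0) :
    kill P (monomial m a) = 0 := by
  obtain ⟨y, hy, hm⟩ := h
  rw [kill, aeval_monomial]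
  have h1 : (m.prod fun i k => (if i.1 ∈ P then (0 : PX K A v) else X i) ^ k) = 0 := by
    refine Finset.prod_eq_zero (Finsupp.mem_support_iff.2 hm) ?_
    simp only [if_pos hy]
    exact zero_pow hm
  rw [h1, mul_zero]

theorem coeff_kill_pos (P : Finset A) (m : A × Fin v →₀ ℕ) (f : PX K A v)
    (h : ∀ y, y.1 ∈ P → m y = 0) : coeff m (kill P f) = coeff m f := by
  classical
  induction f using MvPolynomial.induction_on' with
  | add p q hp hq => rw [map_add, coeff_add, coeff_add, hp, hq]
  | monomial n a =>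
    by_cases h2 : ∀ y, y.1 ∈ P → n y = 0
    · rw [kill_pos P n a h2]
    · push Not at h2
      rw [kill_neg P n a h2, coeff_zero, coeff_monomial, if_neg]
      rintro rfl
      obtain ⟨y, hy, hy2⟩ := h2
      exact hy2 (h y hy)

theorem coeff_kill_neg (P : Finset A) (m : A × Fin v →₀ ℕ) (f : PX K A v)
    (h : ∃ y, y.1 ∈ P ∧ m y ≠ 0) : coeff m (kill P f) = 0 := by
  classical
  induction f using MvPolynomial.induction_on' with
  | add p q hp hq => rw [map_add, coeff_add, hp, hq, add_zero]
  | monomial n a =>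
    by_cases h2 : ∀ y, y.1 ∈ P → n y = 0
    · rw [kill_pos P n a h2, coeff_monomial, if_neg]
      rintro rfl
      obtain ⟨y, hy, hy2⟩ := h
      exact hy2 (h2 y hy)
    · push Not at h2
      rw [kill_neg P n a h2, coeff_zero]

theorem coeff_pos (P : Finset A) (α m : A × Fin v →₀ ℕ) (f : PX K A v)
    (h : ∀ y, y.1 ∈ P → m y = 0) : coeff m (cfo P α f) = coeff (α + m) f := by
  rw [cfo_def, coeff_kill_pos P m _ h, coeff_divMonomial]

theorem coeff_neg (P : Finset A) (α m : A × Fin v →₀ ℕ) (f : PX K A v)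
    (h : ∃ y, y.1 ∈ P ∧ m y ≠ 0) : coeff m (cfo P α f) = 0 := by
  rw [cfo_def, coeff_kill_neg P m _ h]

open Classical in
theorem coeff_cfo (P : Finset A) (α m : A × Fin v →₀ ℕ) (f : PX K A v) :
    coeff m (cfo P α f) = if ∀ y, y.1 ∈ P → m y = 0 then coeff (α + m) f else 0 := by
  classical
  split_ifs with h
  · exact coeff_pos P α m f h
  · push Not at h
    exact coeff_neg P α m f h

theorem cfo_add (P : Finset A) (α : A × Fin v →₀ ℕ) (f g : PX K A v) :
    cfo P α (f + g) = cfo P α f + cfo P α g := by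
  ext m
  rw [coeff_add, coeff_cfo, coeff_cfo, coeff_cfo, coeff_add]
  split_ifs
  · rfl
  · rw [add_zero]

theorem cfo_smul (P : Finset A) (α : A × Fin v →₀ ℕ) (a : K) (f : PX K A v) :
    cfo P α (a • f) = a • cfo P α f := by
  ext m
  rw [coeff_smul, coeff_cfo, coeff_cfo, coeff_smul]
  split_ifs
  · rfl
  · rw [smul_zero]

theorem cfo_zero (P : Finset A) (α : A × Fin v →₀ ℕ) : cfo P α (0 : PX K A v) = 0 := by
  ext m
  rw [coeff_cfo, coeff_zero, coeff_zero, ite_self]

theorem cfo_mono_pos (P : Finset A) (α n : A × Fin v →₀ ℕ) (a : K)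
    (hn : ∀ y, y.1 ∈ P → n y = 0) : cfo P α (monomial (α + n) a) = monomial n a := by
  classical
  ext m
  rw [coeff_cfo, coeff_monomial, coeff_monomial]
  by_cases h : n = m
  · subst h
    rw [if_pos hn, if_pos rfl, if_pos rfl]
  · rw [if_neg h, if_neg (fun h2 => h (add_left_cancel h2)), ite_self]

theorem cfo_mono_neg (P : Finset A) (α m : A × Fin v →₀ ℕ) (a : K)
    (hα : ∀ y, y.1 ∉ P → α y = 0) (hm : ∃ y, y.1 ∈ P ∧ m y ≠ α y) :
    cfo P α (monomial m a) = 0 := by
  classical
  ext n
  rw [coeff_cfo, coeff_zero, coeff_monomial]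
  split_ifs with h1 h2
  · exfalso
    obtain ⟨y, hy, hy2⟩ := hm
    apply hy2
    rw [h2, Finsupp.add_apply, h1 y hy, add_zero]
  · rfl
  · rfl

theorem mapDomain_fix {u w : A} (P : Finset A) (hu : u ∉ P) (hw : w ∉ P)
    (m : A × Fin v →₀ ℕ) (y : A × Fin v) (hy : y.1 ∈ P) :
    m.mapDomain (Prod.map (mv u w) id) y = m y := by
  classical
  rw [Finsupp.mapDomain, Finsupp.sum_apply, Finsupp.sum]
  have h1 : ∀ z ∈ m.support, (Finsupp.single (Prod.map (mv u w) id z) (m z)) y =
      if z = y then m z else 0 := by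
    intro z _
    rw [Finsupp.single_apply]
    have h2 : (Prod.map (mv u w) id z = y) ↔ z = y := by
      constructor
      · intro h3
        have h4 : mv u w z.1 = y.1 := congrArg Prod.fst h3
        have h5 : (Prod.map (mv u w) id z).2 = y.2 := congrArg Prod.snd h3
        by_cases h6 : z.1 = u
        · exfalso
          rw [h6] at h4
          simp only [mv, Function.update_self] at h4
          rw [← h4] at hy
          exact hw hy
        · simp only [mv, Function.update_of_ne h6, id] at h4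
          exact Prod.ext h4 h5
      · rintro rfl
        have h6 : z.1 ≠ u := fun h => hu (h ▸ hy)
        apply Prod.ext
        · show mv u w z.1 = z.1
          simp only [mv, Function.update_of_ne h6, id]
        · rfl
    simp only [h2]
  rw [Finset.sum_congr rfl h1, Finset.sum_ite_eq']
  split_ifs with h
  · rfl
  · exact (Finsupp.notMem_support_iff.1 h).symm

theorem mapDomain_self {u w : A} (P : Finset A) (hu : u ∉ P) (α : A × Fin v →₀ ℕ)
    (hα : ∀ y, y.1 ∉ P → α y = 0) : α.mapDomain (Prod.map (mv u w) id) = α := by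
  classical
  conv_rhs => rw [← Finsupp.mapDomain_id (v := α)]
  refine Finsupp.mapDomain_congr fun y hy => ?_
  have h1 : y.1 ∈ P := by
    by_contra h
    exact (Finsupp.mem_support_iff.1 hy) (hα y h)
  have h2 : y.1 ≠ u := fun h => hu (h ▸ h1)
  apply Prod.ext
  · show mv u w y.1 = y.1
    simp only [mv, Function.update_of_ne h2, id]
  · rfl

theorem decomp (P : Finset A) (α m : A × Fin v →₀ ℕ) (hα : ∀ y, y.1 ∉ P → α y = 0)
    (h : ∀ y, y.1 ∈ P → m y = α y) : ∃ n : A × Fin v →₀ ℕ, m = α + n ∧
      ∀ y, y.1 ∈ P → n y = 0 := by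
  refine ⟨m - α, ?_, ?_⟩
  · ext y
    rw [Finsupp.add_apply, Finsupp.tsub_apply]
    by_cases hy : y.1 ∈ P
    · rw [h y hy]
      omega
    · rw [hα y hy]
      omega
  · intro y hy
    rw [Finsupp.tsub_apply, h y hy, Nat.sub_self]

theorem cfo_ren (P : Finset A) (α : A × Fin v →₀ ℕ) (u w : A) (f : PX K A v)
    (hα : ∀ y, y.1 ∉ P → α y = 0) (hu : u ∉ P) (hw : w ∉ P) :
    cfo P α (ren (mv u w) f) = ren (mv u w) (cfo P α f) := by
  classical
  induction f using MvPolynomial.induction_on' with
  | add p q hp hq => rw [map_add, cfo_add, cfo_add, map_add, hp, hq]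
  | monomial m a =>
    rw [ren_monomial]
    by_cases h : ∀ y, y.1 ∈ P → m y = α y
    · obtain ⟨n, rfl, hn⟩ := decomp P α m hα h
      rw [Finsupp.mapDomain_add, mapDomain_self P hu α hα, cfo_mono_pos P α n a hn,
        cfo_mono_pos, ren_monomial]
      intro y hy
      rw [mapDomain_fix P hu hw n y hy, hn y hy]
    · push Not at h
      rw [cfo_mono_neg P α m a hα h, map_zero, cfo_mono_neg P α _ a hα]
      obtain ⟨y, hy, hy2⟩ := h
      exact ⟨y, hy, by rw [mapDomain_fix P hu hw m y hy]; exact hy2⟩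

/-- the monomials of `cfo P α f` -/
theorem mem_cfo {P : Finset A} {α m : A × Fin v →₀ ℕ} {f : PX K A v}
    (h : m ∈ (cfo P α f).support) : (∀ y, y.1 ∈ P → m y = 0) ∧ α + m ∈ f.support := by
  rw [mem_support_iff, coeff_cfo] at h
  split_ifs at h with h1
  · exact ⟨h1, mem_support_iff.2 h⟩
  · exact absurd rfl h

theorem cfo_deg (P : Finset A) (α : A × Fin v →₀ ℕ) (δ : A → ℕ) (f : PX K A v)
    (hα : ∀ y, y.1 ∉ P → α y = 0) (hf : Dg δ f) :
    Dg (fun p => if p ∈ P then 0 else δ p) (cfo P α f) ∧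
      (cfo P α f ≠ 0 → ∀ p ∈ P, ∑ j, α (p, j) = δ p) := by
  constructor
  · intro m hm x
    obtain ⟨h1, h2⟩ := mem_cfo hm
    by_cases hx : x ∈ P
    · simp only [if_pos hx]
      exact Finset.sum_eq_zero fun j _ => h1 (x, j) hx
    · simp only [if_neg hx]
      rw [← hf _ h2 x]
      refine Finset.sum_congr rfl fun j _ => ?_
      rw [Finsupp.add_apply, hα (x, j) hx, zero_add]
  · intro h0 p hp
    obtain ⟨m, hm⟩ := support_nonempty.2 h0
    obtain ⟨h1, h2⟩ := mem_cfo hm
    rw [← hf _ h2 p]
    refine Finset.sum_congr rfl fun j _ => ?_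
    rw [Finsupp.add_apply, h1 (p, j) hp, add_zero]

theorem cfo_wt [Fintype A] (P : Finset A) (α : A × Fin v →₀ ℕ) (ν : Fin v → ℕ) (f : PX K A v)
    (hf : HasW ν f) : HasW (fun j => ν j - ∑ p, α (p, j)) (cfo P α f) := by
  intro m hm j
  obtain ⟨-, h2⟩ := mem_cfo hm
  have h3 := hf _ h2 j
  simp only [Finsupp.add_apply, Finset.sum_add_distrib] at h3
  show _ = ν j - ∑ p, α (p, j)
  omega

theorem cfo_exists (P : Finset A) (f : PX K A v) (hf : f ≠ 0) :
    ∃ α : A × Fin v →₀ ℕ, (∀ y, y.1 ∉ P → α y = 0) ∧ cfo P α f ≠ 0 := by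
  classical
  obtain ⟨m, hm⟩ := support_nonempty.2 hf
  refine ⟨m.filter fun y => y.1 ∈ P, fun y hy => Finsupp.filter_apply_neg _ _ hy, ?_⟩
  intro h0
  have h1 := coeff_pos P (m.filter fun y => y.1 ∈ P) (m.filter fun y => ¬ y.1 ∈ P) f
    (fun y hy => Finsupp.filter_apply_neg (fun y : A × Fin v => ¬ y.1 ∈ P) _ (not_not.2 hy))
  rw [h0, coeff_zero, Finsupp.filter_add_filter_not] at h1
  exact (mem_support_iff.1 hm) h1.symm

theorem coeff_Eij [Fintype A] (i j : Fin v) (g : PX K A v) (m : A × Fin v →₀ ℕ) :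
    coeff m (Eij i j g) = ∑ x : A, if (x, i) ∈ m.support then
      coeff (m - Finsupp.single (x, i) 1 + Finsupp.single (x, j) 1) g *
        ((((m - Finsupp.single (x, i) 1 : A × Fin v →₀ ℕ) (x, j) : ℕ) : K) + 1) else 0 := by
  classical
  rw [Eij, LinearMap.sum_apply, coeff_sum]
  refine Finset.sum_congr rfl fun x _ => ?_
  show coeff m (X (x, i) * pderiv (x, j) g) = _
  rw [coeff_X_mul', coeff_pderiv]

theorem cfo_Eij [Fintype A] (P : Finset A) (α : A × Fin v →₀ ℕ) (i j : Fin v) (f : PX K A v)
    (hα : ∀ y, y.1 ∉ P → α y = 0) (hij : i ≠ j)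
    (h : ∀ p ∈ P, ∀ β : A × Fin v →₀ ℕ,
      β + Finsupp.single (p, i) 1 = α + Finsupp.single (p, j) 1 → cfo P β f = 0) :
    Eij i j (cfo P α f) = cfo P α (Eij i j f) := by
  classical
  ext m
  rw [coeff_Eij]
  by_cases hm : ∀ y, y.1 ∈ P → m y = 0
  · rw [coeff_pos P α m _ hm, coeff_Eij]
    refine Finset.sum_congr rfl fun x _ => ?_
    by_cases hx : x ∈ P
    · have h1 : (x, i) ∉ m.support := by
        rw [Finsupp.notMem_support_iff]
        exact hm _ hx
      rw [if_neg h1]
      split_ifs with h2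
      · have h3 : α (x, i) ≠ 0 := by
          rw [Finsupp.mem_support_iff, Finsupp.add_apply, hm (x, i) hx, add_zero] at h2
          exact h2
        have h4 : Finsupp.single (x, i) 1 ≤ α := by
          rw [Finsupp.single_le_iff]
          omega
        have h5 : α - Finsupp.single (x, i) 1 + Finsupp.single (x, j) 1 +
            Finsupp.single (x, i) 1 = α + Finsupp.single (x, j) 1 := by
          rw [add_right_comm, tsub_add_cancel_of_le h4]
        have h6 := h x hx _ h5
        have h7 := coeff_pos P (α - Finsupp.single (x, i) 1 + Finsupp.single (x, j) 1) m f hm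
        rw [h6, coeff_zero] at h7
        have h8 : α + m - Finsupp.single (x, i) 1 + Finsupp.single (x, j) 1 =
            α - Finsupp.single (x, i) 1 + Finsupp.single (x, j) 1 + m := by
          have h9 : α + m - Finsupp.single (x, i) 1 = α - Finsupp.single (x, i) 1 + m := by
            rw [← tsub_add_eq_add_tsub h4]
          rw [h9, add_right_comm]
        rw [h8, ← h7, zero_mul]
      · rfl
    · have h1 : (x, i) ∈ (α + m).support ↔ (x, i) ∈ m.support := by
        rw [Finsupp.mem_support_iff, Finsupp.mem_support_iff, Finsupp.add_apply, hα (x, i) hx,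
          zero_add]
      simp only [h1]
      split_ifs with h2
      · have h4 : Finsupp.single (x, i) 1 ≤ m := by
          rw [Finsupp.single_le_iff]
          have := Finsupp.mem_support_iff.1 h2
          omega
        rw [coeff_pos]
        · rw [add_tsub_assoc_of_le h4, ← add_assoc, Finsupp.add_apply, hα (x, j) hx, zero_add]
        · intro y hy
          have h5 : y ≠ (x, j) := by
            rintro rfl
            exact hx hy
          rw [Finsupp.add_apply, Finsupp.tsub_apply, hm y hy,
            Finsupp.single_apply (a := (x, j)), if_neg h5.symm]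
          omega
      · rfl
  · push Not at hm
    rw [coeff_neg P α m _ hm]
    refine Finset.sum_eq_zero fun x _ => ?_
    split_ifs with h2
    · obtain ⟨y, hy, hy2⟩ := hm
      rw [coeff_neg, zero_mul]
      by_cases hx : x ∈ P
      · refine ⟨(x, j), hx, ?_⟩
        rw [Finsupp.add_apply, Finsupp.single_eq_same]
        omega
      · refine ⟨y, hy, ?_⟩
        have h5 : y ≠ (x, i) := by
          rintro rfl
          exact hx hy
        rw [Finsupp.add_apply, Finsupp.tsub_apply, Finsupp.single_apply (a := (x, i)),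
          if_neg h5.symm]
        omega
    · rfl

end CFOH

open CFOH in
theorem CFO_thm : Stmt_CFO := by
  intro K _ A _ _ v P
  exact ⟨fun α m f h => coeff_pos P α m f h, fun α m f h => coeff_neg P α m f h,
    fun α f g a => ⟨cfo_add P α f g, cfo_smul P α a f, cfo_zero P α⟩,
    fun α u w f hα hu hw => cfo_ren P α u w f hα hu hw,
    fun α δ f hα hf => cfo_deg P α δ f hα hf, fun α ν f hf => cfo_wt P α ν f hf,
    fun f hf => cfo_exists P f hf, fun α i j f hα hij h => cfo_Eij P α i j f hα hij h⟩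

end Pool.Agent.VOP
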