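import Pool.Agent.VOP.StmtsS

/-!
# The Ottaviani-Paoletti conjecture (MP_deb8da_ag): module CHI
-/

namespace Pool.Agent.VOP

open MvPolynomial Pool.Agent.VSY

namespace CHI

variable {K : Type} [Field K] {A : Type} [DecidableEq A] {v : ℕ}

theorem mvA (u w p : A) : mv u w p = if p = u then w else p := by
  unfold mv
  rw [Function.update_apply]
  rfl

theorem rc {A B C D : Type} (φ : A → B) (ψ : B → D) (φ' : A → C) (ψ' : C → D)
    (h : ∀ p, ψ (φ p) = ψ' (φ' p)) (f : PX K A v) :
    ren ψ (ren φ f) = ren ψ' (ren φ' f) := by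
  rw [ren_ren, ren_ren]
  exact ren_congr h f

/-- the point `c` becomes the new point -/
def io (c : A) (y : A) : Option A := if y = c then none else some y

theorem io_inj (c : A) : Function.Injective (io c) := by
  intro y z h
  unfold io at h
  split_ifs at h with h1 h2 h2
  · rw [h1, h2]
  · exact Option.some.inj h

theorem io_getD (c y : A) : (io c y).getD c = y := by
  unfold io
  split_ifs with h
  · exact h.symm
  · rfl

theorem getD_io {c : A} {o : Option A} (h : o ≠ some c) : io c (o.getD c) = o := by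
  cases o with
  | none => simp [io]
  | some b =>
    have : b ≠ c := fun h1 => h (by rw [h1])
    simp [io, this]

theorem io_swap (c y z p : A) :
    Equiv.swap (io c y) (io c z) (io c p) = io c (Equiv.swap y z p) :=
  (io_inj c).swap_apply y z p

theorem io_mv (c u w p : A) : mv (io c u) (io c w) (io c p) = io c (mv u w p) := by
  rw [mvA, mvA]
  by_cases h : p = u
  · rw [if_pos h, if_pos (by rw [h])]
  · rw [if_neg h, if_neg (fun h1 => h (io_inj c h1))]

theorem mem_isn (T : Finset A) (b : A) : some b ∈ isn T ↔ b ∈ T := by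
  simp [isn, sm]

theorem none_mem_isn (T : Finset A) : none ∈ isn T := by
  simp [isn]

theorem mem_sm (T : Finset A) (b : A) : some b ∈ sm T ↔ b ∈ T := by
  simp [sm]

theorem none_mem_sm (T : Finset A) : none ∉ sm T := by
  simp [sm]

theorem io_ne {c y : A} (h : y ≠ c) : io c y = some y := by
  simp [io, h]

theorem io_self (c : A) : io c c = none := by
  simp [io]

variable [Fintype A]

theorem tr (h1 : Stmt_DG) {δ : Option A → ℕ} {c : A} {G : PX K (Option A) v} (hG : Dg δ G)
    (h0 : δ (some c) = 0) (φ : A → A) (ψ : Option A → Option A)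
    (h : ∀ p, ψ (io c p) = io c (φ p)) : ren φ (rn c G) = rn c (ren ψ G) := by
  rw [rn, ren_ren, ren_ren]
  refine (h1 K (Option A) A v).2.2.2.2.2.2.2.2.2.1 δ _ _ G (fun o ho => ?_) hG
  have ho' : o ≠ some c := by
    rintro rfl
    exact ho h0
  have e := h (o.getD c)
  rw [getD_io ho'] at e
  change φ (o.getD c) = (ψ o).getD c
  rw [e, io_getD]

theorem degRn (h1 : Stmt_DG) {δ : Option A → ℕ} (c : A) {f : PX K (Option A) v}
    (hf : Dg δ f) : Dg (fun b => (if c = b then δ none else 0) + δ (some b)) (rn c f) := by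
  have h := (h1 K (Option A) A v).2.2.2.2.2.2.2.1 δ (fun o => o.getD c) f hf
  have e : (fun b => ∑ o ∈ Finset.univ.filter (fun o : Option A => o.getD c = b), δ o) =
      fun b => (if c = b then δ none else 0) + δ (some b) := by
    funext b
    rw [Finset.sum_filter, Fintype.sum_option]
    congr 1
    change ∑ i : A, (if i = b then δ (some i) else 0) = δ (some b)
    rw [Finset.sum_ite_eq' Finset.univ b (fun i => δ (some i)), if_pos (Finset.mem_univ b)]
  rw [e] at h
  exact h

theorem degMv (h1 : Stmt_DG) {δ : A → ℕ} {u w : A} (huw : u ≠ w) {f : PX K A v}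
    (hf : Dg δ f) :
    Dg (fun b => if b = u then 0 else if b = w then δ w + δ u else δ b) (ren (mv u w) f) := by
  have h := (h1 K A A v).2.2.2.2.2.2.2.1 δ (mv u w) f hf
  have e : (fun b => ∑ a ∈ Finset.univ.filter (fun a => mv u w a = b), δ a) =
      fun b => if b = u then 0 else if b = w then δ w + δ u else δ b := by
    funext b
    by_cases hb : b = u
    · rw [if_pos hb]
      refine Finset.sum_eq_zero fun a ha => ?_
      exfalso
      rw [Finset.mem_filter, mvA] at ha
      have h2 := ha.2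
      split_ifs at h2 with h3
      · exact huw (hb.symm.trans h2.symm)
      · exact h3 (h2.trans hb)
    · rw [if_neg hb]
      by_cases hw : b = w
      · rw [if_pos hw]
        have e1 : Finset.univ.filter (fun a => mv u w a = b) = {w, u} := by
          ext a
          rw [Finset.mem_filter, Finset.mem_insert, Finset.mem_singleton, mvA]
          constructor
          · rintro ⟨-, h2⟩
            split_ifs at h2 with h3
            · exact Or.inr h3
            · exact Or.inl (h2.trans hw)
          · rintro (h2 | h2)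
            · refine ⟨Finset.mem_univ _, ?_⟩
              rw [if_neg (fun h3 => huw (h3.symm.trans h2)), h2, hw]
            · exact ⟨Finset.mem_univ _, by rw [if_pos h2, hw]⟩
        rw [e1, Finset.sum_pair huw.symm]
      · rw [if_neg hw]
        have e1 : Finset.univ.filter (fun a => mv u w a = b) = {b} := by
          ext a
          rw [Finset.mem_filter, Finset.mem_singleton, mvA]
          constructor
          · rintro ⟨-, h2⟩
            split_ifs at h2 with h3
            · exact absurd h2.symm hw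
            · exact h2
          · rintro h2
            exact ⟨Finset.mem_univ _, by rw [if_neg (fun h3 => hb (h2.symm.trans h3)), h2]⟩
        rw [e1, Finset.sum_singleton]
  rw [e] at h
  exact h

theorem io_mem_isn {c : A} {T : Finset A} (hc : c ∉ T) {y : A} :
    io c y ∈ isn T ↔ y ∈ insert c T := by
  by_cases h : y = c
  · subst h
    rw [io_self]
    simp [none_mem_isn]
  · rw [io_ne h, mem_isn, Finset.mem_insert]
    simp [h]

theorem syT (h1 : Stmt_DG) {δ : Option A → ℕ} {c : A} {G : PX K (Option A) v} (hG : Dg δ G)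
    (h0 : δ (some c) = 0) {T' : Finset (Option A)} {T : Finset A} (hT : ∀ y ∈ T, io c y ∈ T')
    (hs : Sy T' G) : Sy T (rn c G) := by
  intro y hy z hz
  rw [tr h1 hG h0 (Equiv.swap y z) (Equiv.swap (io c y) (io c z)) (io_swap c y z),
    hs _ (hT y hy) _ (hT z hz)]

theorem alT (h1 : Stmt_DG) {δ : Option A → ℕ} {c : A} {G : PX K (Option A) v} (hG : Dg δ G)
    (h0 : δ (some c) = 0) {T' : Finset (Option A)} {T : Finset A} (hT : ∀ y ∈ T, io c y ∈ T')
    (hs : Al T' G) : Al T (rn c G) := by
  intro y hy z hz hyz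
  rw [tr h1 hG h0 (Equiv.swap y z) (Equiv.swap (io c y) (io c z)) (io_swap c y z),
    hs _ (hT y hy) _ (hT z hz) (fun h => hyz (io_inj c h)), map_neg]

theorem tta (h1 : Stmt_DG) {M β : ℕ} {T C : Finset A} {w c : A} {f : PX K A v}
    (hcT : c ∉ T) (hcC : c ∉ C) (hcw : c ≠ w) (hf : TT M β T C w f) : ∃ G g : PX K A v,
      Zc M (insert c T) ∅ C w (M + 1 + β) G ∧
      Cg (dgc M T ∅ (insert c C) w (M + β)) T ∅ (insert c C) g ∧
      f = ren (mv c w) G + ren (mv c w) g := by
  obtain ⟨G, g, hG, hg, rfl⟩ := hf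
  have hG0 : dgc M (isn T) ∅ (sm C) (some w) (M + 1 + β) (some c) = 0 := by
    unfold dgc
    rw [if_neg, if_neg, if_neg]
    · intro h
      exact hcw (Option.some.inj h)
    · rw [mem_sm]
      exact hcC
    · rw [Finset.union_empty, mem_isn]
      exact hcT
  have hg0 : dgc M (sm T) ∅ (isn C) (some w) (M + β) (some c) = 0 := by
    unfold dgc
    rw [if_neg, if_neg, if_neg]
    · intro h
      exact hcw (Option.some.inj h)
    · rw [mem_isn]
      exact hcC
    · rw [Finset.union_empty, mem_sm]
      exact hcT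
  refine ⟨rn c G, rn c g, ⟨⟨?_, ?_, ?_, ?_⟩, ?_, ?_⟩, ⟨?_, ?_, ?_, ?_⟩, ?_⟩
  · have h := degRn h1 c hG.cg.dg
    have e : (fun b => (if c = b then dgc M (isn T) ∅ (sm C) (some w) (M + 1 + β) none else 0) +
        dgc M (isn T) ∅ (sm C) (some w) (M + 1 + β) (some b)) =
        dgc M (insert c T) ∅ C w (M + 1 + β) := by
      funext b
      by_cases hb : c = b
      · subst hb
        rw [if_pos rfl, hG0, add_zero]
        unfold dgc
        rw [if_pos, if_pos]
        · rw [Finset.union_empty]
          exact Finset.mem_insert_self _ _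
        · rw [Finset.union_empty]
          exact none_mem_isn T
      · rw [if_neg hb, zero_add]
        unfold dgc
        rw [Finset.union_empty, Finset.union_empty]
        simp only [mem_isn, mem_sm, Finset.mem_insert, Option.some.injEq, Ne.symm hb, false_or]
    rw [e] at h
    exact h
  · exact syT h1 hG.cg.dg hG0 (fun y hy => (io_mem_isn hcT).2 hy) hG.cg.sy
  · intro y hy
    exact absurd hy (Finset.notMem_empty y)
  · refine alT h1 hG.cg.dg hG0 (fun y hy => ?_) hG.cg.alC
    rw [io_ne (ne_of_mem_of_not_mem hy hcC), mem_sm]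
    exact hy
  · intro y hy
    exact absurd hy (Finset.notMem_empty y)
  · intro y hy
    rw [tr h1 hG.cg.dg hG0 (mv y w) (mv (io c y) (io c w)) (io_mv c y w),
      io_ne (ne_of_mem_of_not_mem hy hcC), io_ne hcw.symm, hG.cyC (some y) ((mem_sm C y).2 hy), map_zero]
  · have h := degRn h1 c hg.dg
    have e : (fun b => (if c = b then dgc M (sm T) ∅ (isn C) (some w) (M + β) none else 0) +
        dgc M (sm T) ∅ (isn C) (some w) (M + β) (some b)) =
        dgc M T ∅ (insert c C) w (M + β) := by
      funext b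
      by_cases hb : c = b
      · subst hb
        rw [if_pos rfl, hg0, add_zero]
        unfold dgc
        rw [if_neg, if_pos, if_neg, if_pos]
        · exact Finset.mem_insert_self _ _
        · rw [Finset.union_empty]
          exact hcT
        · exact none_mem_isn C
        · rw [Finset.union_empty]
          exact none_mem_sm T
      · rw [if_neg hb, zero_add]
        unfold dgc
        rw [Finset.union_empty, Finset.union_empty]
        simp only [mem_isn, mem_sm, Finset.mem_insert, Option.some.injEq, Ne.symm hb, false_or]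
    rw [e] at h
    exact h
  · refine syT h1 hg.dg hg0 (fun y hy => ?_) hg.sy
    rw [io_ne (ne_of_mem_of_not_mem hy hcT), mem_sm]
    exact hy
  · intro y hy
    exact absurd hy (Finset.notMem_empty y)
  · exact alT h1 hg.dg hg0 (fun y hy => (io_mem_isn hcC).2 hy) hg.alC
  · have e : ∀ (δ : Option A → ℕ) (F : PX K (Option A) v), Dg δ F → δ (some c) = 0 →
        rn w F = ren (mv c w) (rn c F) := by
      intro δ F hF h0
      rw [rn, rn, ren_ren]
      refine (h1 K (Option A) A v).2.2.2.2.2.2.2.2.2.1 δ _ _ F (fun o ho => ?_) hF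
      have ho' : o ≠ some c := by
        rintro rfl
        exact ho h0
      change o.getD w = mv c w (o.getD c)
      cases o with
      | none => simp [mvA]
      | some b =>
        have hb : b ≠ c := fun h => ho' (by rw [h])
        simp [mvA, hb]
    rw [e _ G hG.cg.dg hG0, e _ g hg.dg hg0]

omit [Fintype A] in
theorem m1 {y z u w : A} (h1 : y ≠ u) (h2 : z ≠ u) (h3 : y ≠ w) (h4 : z ≠ w) (p : A) :
    Equiv.swap y z (mv u w p) = mv u w (Equiv.swap y z p) := by
  rw [mvA, mvA, Equiv.swap_apply_def, Equiv.swap_apply_def]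
  split_ifs <;> simp_all

omit [Fintype A] in
theorem m2 {c d w : A} (h1 : c ≠ d) (h2 : c ≠ w) (h3 : d ≠ w) (p : A) :
    mv d w (mv c w p) = mv d w (mv c w (Equiv.swap c d p)) := by
  rw [mvA, mvA, mvA, mvA, Equiv.swap_apply_def]
  split_ifs <;> simp_all

omit [Fintype A] in
theorem m3 {c d w : A} (h1 : c ≠ d) (h2 : w ≠ c) (h3 : w ≠ d) (p : A) :
    Equiv.swap c d (mv c w p) = mv d w (Equiv.swap c d p) := by
  rw [mvA, mvA, Equiv.swap_apply_def, Equiv.swap_apply_def]
  split_ifs <;> simp_all

omit [Fintype A] in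
theorem m4 {c d w : A} (h1 : c ≠ d) (h2 : w ≠ c) (p : A) :
    mv c w (Equiv.swap c d p) = mv c d (mv d w p) := by
  rw [mvA, mvA, mvA, Equiv.swap_apply_def]
  split_ifs <;> simp_all

omit [Fintype A] in
theorem m8 {c d a : A} (h1 : a ≠ c) (h2 : a ≠ d) (p : A) :
    mv a d (Equiv.swap c d p) = Equiv.swap c d (mv a c p) := by
  rw [mvA, mvA, Equiv.swap_apply_def, Equiv.swap_apply_def]
  split_ifs <;> simp_all

omit [Fintype A] in
theorem m10 {c d y z : A} (h1 : y ≠ c) (h2 : y ≠ d) (h3 : z ≠ c) (h4 : z ≠ d) (p : A) :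
    Equiv.swap y z (Equiv.swap c d p) = Equiv.swap c d (Equiv.swap y z p) := by
  rw [Equiv.swap_apply_def, Equiv.swap_apply_def, Equiv.swap_apply_def, Equiv.swap_apply_def]
  split_ifs <;> simp_all

omit [DecidableEq A] [Fintype A] in
theorem renLin {B : Type} (φ : A → B) (x : Fin v → K) (p : A) :
    ren φ (lin x p : PX K A v) = lin x (φ p) := by
  unfold lin
  rw [map_sum]
  refine Finset.sum_congr rfl fun i _ => ?_
  rw [map_mul, ren_C, ren_X]

theorem kap2 (h2 : Stmt_DIV) {C : Finset A} {w : A} {x : Fin v → K} {E : PX K A v}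
    {κ : A → PX K A v} (hwC : w ∉ C) (hx : x ≠ 0) (hE : Al C E)
    (hκ : ∀ c ∈ C, ren (mv c w) E = lin x w * κ c) {c d : A} (hc : c ∈ C) (hd : d ∈ C)
    (hne : c ≠ d) : κ d = -ren (Equiv.swap c d) (κ c) := by
  have hcw : w ≠ c := fun h => hwC (h ▸ hc)
  have hdw : w ≠ d := fun h => hwC (h ▸ hd)
  refine (h2 K A A v x hx).1 w _ _ ?_
  have e1 := congrArg (ren (Equiv.swap c d)) (hκ c hc)
  rw [map_mul, renLin, Equiv.swap_apply_of_ne_of_ne hcw hdw,
    rc (mv c w) (Equiv.swap c d) (Equiv.swap c d) (mv d w) (m3 hne hcw hdw), hE c hc d hd hne,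
    map_neg, hκ d hd] at e1
  rw [mul_neg, ← e1, neg_neg]

theorem kap (h1 : Stmt_DG) (h2 : Stmt_DIV) [CharZero K] {M β : ℕ} {T C : Finset A} {w : A}
    {x : Fin v → K} {E : PX K A v} {κ : A → PX K A v} (hTC : Disjoint T C) (hwT : w ∉ T)
    (hwC : w ∉ C) (hx : x ≠ 0) (hE : Cg (dgc M T ∅ C w (M + 1 + β)) T ∅ C E)
    (hκ : ∀ c ∈ C, ren (mv c w) E = lin x w * κ c) {c : A} (hc : c ∈ C) :
    Zc M T ∅ (C.erase c) w (2 * M + 2 + β) (κ c) := by
  have hcw : c ≠ w := ne_of_mem_of_not_mem hc hwC
  have hcT : c ∉ T := fun h => Finset.disjoint_left.1 hTC h hc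
  refine ⟨⟨?_, ?_, ?_, ?_⟩, ?_, ?_⟩
  · have h := degMv h1 hcw hE.dg
    rw [hκ c hc] at h
    have h' := (h2 K A A v x hx).2.1 _ w (2 * M + 2 + β) _ ?_ h
    · have e : Function.update (fun b => if b = c then 0 else if b = w then
          dgc M T ∅ C w (M + 1 + β) w + dgc M T ∅ C w (M + 1 + β) c else
            dgc M T ∅ C w (M + 1 + β) b) w (2 * M + 2 + β) =
          dgc M T ∅ (C.erase c) w (2 * M + 2 + β) := by
        funext b
        by_cases hb : b = w
        · subst hb
          rw [Function.update_self]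
          unfold dgc
          rw [Finset.union_empty, if_neg hwT, if_neg (fun h => hwC (Finset.mem_of_mem_erase h)),
            if_pos rfl]
        · rw [Function.update_of_ne hb]
          by_cases hbc : b = c
          · subst hbc
            rw [if_pos rfl]
            unfold dgc
            rw [Finset.union_empty, if_neg hcT, if_neg (Finset.notMem_erase b C), if_neg hb]
          · rw [if_neg hbc, if_neg hb]
            unfold dgc
            simp only [Finset.mem_erase, ne_eq, hbc, not_false_eq_true, true_and, hb, if_false]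
      rw [e] at h'
      exact h'
    · change (if w = c then 0 else if w = w then
          dgc M T ∅ C w (M + 1 + β) w + dgc M T ∅ C w (M + 1 + β) c else
            dgc M T ∅ C w (M + 1 + β) w) = _
      rw [if_neg hcw.symm, if_pos rfl]
      unfold dgc
      rw [Finset.union_empty, if_neg hwT, if_neg hwC, if_pos rfl, if_neg hcT, if_pos hc]
      omega
  · intro y hy z hz
    have hyw : w ≠ y := fun h => hwT (h ▸ hy)
    have hzw : w ≠ z := fun h => hwT (h ▸ hz)
    have hyc : y ≠ c := fun h => hcT (h ▸ hy)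
    have hzc : z ≠ c := fun h => hcT (h ▸ hz)
    refine (h2 K A A v x hx).1 w _ _ ?_
    have e1 := congrArg (ren (Equiv.swap y z)) (hκ c hc)
    rw [map_mul, renLin, Equiv.swap_apply_of_ne_of_ne hyw hzw,
      rc (mv c w) (Equiv.swap y z) (Equiv.swap y z) (mv c w) (m1 hyc hzc hyw.symm hzw.symm),
      hE.sy y hy z hz, hκ c hc] at e1
    exact e1.symm
  · intro y hy
    exact absurd hy (Finset.notMem_empty y)
  · intro y hy z hz hyz
    obtain ⟨hyc, hyC⟩ := Finset.mem_erase.1 hy
    obtain ⟨hzc, hzC⟩ := Finset.mem_erase.1 hz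
    have hyw : w ≠ y := fun h => hwC (h ▸ hyC)
    have hzw : w ≠ z := fun h => hwC (h ▸ hzC)
    refine (h2 K A A v x hx).1 w _ _ ?_
    have e1 := congrArg (ren (Equiv.swap y z)) (hκ c hc)
    rw [map_mul, renLin, Equiv.swap_apply_of_ne_of_ne hyw hzw,
      rc (mv c w) (Equiv.swap y z) (Equiv.swap y z) (mv c w) (m1 hyc hzc hyw.symm hzw.symm),
      hE.alC y hyC z hzC hyz, map_neg, hκ c hc] at e1
    rw [← e1, mul_neg]
  · intro y hy
    exact absurd hy (Finset.notMem_empty y)
  · intro d hd
    obtain ⟨hdc, hdC⟩ := Finset.mem_erase.1 hd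
    have hdw : d ≠ w := ne_of_mem_of_not_mem hdC hwC
    refine (h2 K A A v x hx).1 w _ _ ?_
    have e1 := congrArg (ren (mv d w)) (hκ c hc)
    rw [map_mul, renLin, mvA, if_neg hdw.symm] at e1
    rw [← e1, mul_zero]
    have e2 : ren (mv d w) (ren (mv c w) E) = -ren (mv d w) (ren (mv c w) E) := by
      have e3 : ren (mv d w) (ren (mv c w) E) =
          ren (mv d w) (ren (mv c w) (ren (Equiv.swap c d) E)) := by
        rw [ren_ren, ren_ren, ren_ren]
        exact ren_congr (m2 hdc.symm hcw hdw) E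
      rw [hE.alC c hc d hdC hdc.symm, map_neg, map_neg] at e3
      exact e3
    exact self_eq_neg.1 e2

theorem dgMul (h1 : Stmt_DG) {δ δ' δ'' : A → ℕ} {f g : PX K A v} (hf : Dg δ f) (hg : Dg δ' g)
    (h : ∀ y, δ y + δ' y = δ'' y) : Dg δ'' (f * g) := by
  have e := (h1 K A A v).2.2.2.2.1 δ δ' f g hf hg
  rw [funext h] at e
  exact e

end CHI

/-- CHI (section 2, (i)). -/
theorem CHI_thm (h1 : Stmt_DG) (h2 : Stmt_DIV) (h3 : Stmt_SYM) (h4 : Stmt_GD0) (_h5 : Stmt_GD1)
    (h6 : Stmt_GD2') (h7 : Stmt_GD3) : Stmt_CHI := by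
  intro K _ _ v M β t j hPP A _ _ T C w a x E κ hcf hT hC hx haT haC haw hE hκ
  -- the configuration
  have hwT : w ∉ T := hcf.wT
  have hwC : w ∉ C := hcf.wC
  have hTC : Disjoint T C := hcf.TC
  have hwaT : w ∉ insert a T := by
    rw [Finset.mem_insert, not_or]
    exact ⟨haw.symm, hwT⟩
  have haTC : Disjoint (insert a T) C := by
    rw [Finset.disjoint_insert_left]
    exact ⟨haC, hTC⟩
  obtain ⟨c, hc⟩ : C.Nonempty := by
    rw [← Finset.card_pos, hC]
    omega
  have hcw : c ≠ w := ne_of_mem_of_not_mem hc hwC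
  have hca : c ≠ a := ne_of_mem_of_not_mem hc haC
  have hcaT : c ∉ insert a T := fun h => Finset.disjoint_left.1 haTC h hc
  have hcT : c ∉ T := fun h => hcaT (Finset.mem_insert_of_mem h)
  -- the module PP for the configuration (insert a T, C.erase c)
  have hκc := CHI.kap h1 h2 haTC hwaT hwC hx hE hκ hc
  have htt := hPP A (insert a T) (C.erase c) w (κ c)
    ⟨Finset.disjoint_empty_right _, Finset.disjoint_of_subset_right (Finset.erase_subset _ _) haTC,
      Finset.disjoint_empty_left _, hwaT, Finset.notMem_empty _,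
      fun h => hwC (Finset.mem_of_mem_erase h)⟩
    (by rw [Finset.card_insert_of_notMem haT, hT]) (by rw [Finset.card_erase_of_mem hc, hC]; rfl)
    hκc
  obtain ⟨G, g, hG, hg, hGg⟩ := CHI.tta h1 hcaT (Finset.notMem_erase c C) hcw htt
  rw [Finset.insert_erase hc] at hg
  have hdc : ∀ d ∈ C.erase c, d ≠ c ∧ d ∈ C ∧ d ≠ w ∧ d ≠ a := fun d hd =>
    ⟨Finset.ne_of_mem_erase hd, Finset.mem_of_mem_erase hd,
      ne_of_mem_of_not_mem (Finset.mem_of_mem_erase hd) hwC,
      ne_of_mem_of_not_mem (Finset.mem_of_mem_erase hd) haC⟩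
  -- E₁, E₂, E'
  set H : PX K A v := lin x c * G with hH
  set E1 : PX K A v := lin x w * g with hE1
  set E2 : PX K A v := H - ∑ d ∈ C.erase c, ren (Equiv.swap c d) H with hE2
  -- degrees
  have hHd : Dg (dgc M (insert a T) ∅ C w (M + 1 + β)) H := by
    refine CHI.dgMul h1 ((h1 K A A v).2.2.2.2.2.1 x c) hG.cg.dg fun y => ?_
    by_cases hy : y = c
    · subst hy
      rw [Pi.single_eq_same]
      unfold dgc
      rw [Finset.union_empty, Finset.union_empty, if_pos (Finset.mem_insert_self _ _),
        if_neg hcaT, if_pos hc]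
      omega
    · rw [Pi.single_eq_of_ne hy, zero_add]
      unfold dgc
      rw [Finset.union_empty, Finset.union_empty]
      simp only [Finset.mem_insert, Finset.mem_erase, ne_eq, hy, false_or, not_false_eq_true,
        true_and]
  have hE1d : Dg (dgc M (insert a T) ∅ C w (M + 1 + β)) E1 := by
    refine CHI.dgMul h1 ((h1 K A A v).2.2.2.2.2.1 x w) hg.dg fun y => ?_
    by_cases hy : y = w
    · subst hy
      rw [Pi.single_eq_same]
      unfold dgc
      rw [Finset.union_empty, if_neg hwaT, if_neg hwaT, if_neg hwC, if_neg hwC, if_pos rfl,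
        if_pos rfl]
      omega
    · rw [Pi.single_eq_of_ne hy, zero_add]
      unfold dgc
      rw [if_neg hy, if_neg hy]
  have hdsw : ∀ d ∈ C.erase c, ∀ y, dgc M (insert a T) ∅ C w (M + 1 + β) (Equiv.swap c d y) =
      dgc M (insert a T) ∅ C w (M + 1 + β) y := by
    intro d hd y
    have hdC := (hdc d hd).2.1
    have hdaT : d ∉ insert a T := fun h => Finset.disjoint_left.1 haTC h hdC
    have e : ∀ z ∈ C, dgc M (insert a T) ∅ C w (M + 1 + β) z = M + 2 := by
      intro z hz
      unfold dgc
      rw [Finset.union_empty, if_neg (fun h => Finset.disjoint_left.1 haTC h hz), if_pos hz]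
    rcases eq_or_ne y c with rfl | h
    · rw [Equiv.swap_apply_left, e _ hdC, e _ hc]
    · rcases eq_or_ne y d with rfl | h'
      · rw [Equiv.swap_apply_right, e _ hdC, e _ hc]
      · rw [Equiv.swap_apply_of_ne_of_ne h h']
  have hE2d : Dg (dgc M (insert a T) ∅ C w (M + 1 + β)) E2 := by
    refine ((h1 K A A v).2.1 _ _ _ hHd ((h1 K A A v).2.2.2.1 _ A _ _ fun d hd => ?_)).2
    exact (h1 K A A v).2.2.2.2.2.2.2.2.1 _ (Equiv.swap c d) H (hdsw d hd) hHd
  -- symmetries
  have hfix : ∀ y ∈ insert a T, ∀ z ∈ insert a T, Equiv.swap y z c = c := fun y hy z hz =>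
    Equiv.swap_apply_of_ne_of_ne (fun h => hcaT (h ▸ hy)) (fun h => hcaT (h ▸ hz))
  have hHs : Sy (insert a T) H := by
    intro y hy z hz
    rw [hH, map_mul, CHI.renLin, hfix y hy z hz,
      hG.cg.sy y (Finset.mem_insert_of_mem hy) z (Finset.mem_insert_of_mem hz)]
  have hHa : Al (C.erase c) H := by
    intro y hy z hz hyz
    rw [hH, map_mul, CHI.renLin,
      Equiv.swap_apply_of_ne_of_ne (hdc y hy).1.symm (hdc z hz).1.symm,
      hG.cg.alC y hy z hz hyz, mul_neg]
  have hE1s : Sy (insert a T) E1 := by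
    intro y hy z hz
    rw [hE1, map_mul, CHI.renLin, Equiv.swap_apply_of_ne_of_ne
      (ne_of_mem_of_not_mem hy hwaT).symm (ne_of_mem_of_not_mem hz hwaT).symm, hg.sy y hy z hz]
  have hE1a : Al C E1 := by
    intro y hy z hz hyz
    rw [hE1, map_mul, CHI.renLin, Equiv.swap_apply_of_ne_of_ne
      (ne_of_mem_of_not_mem hy hwC).symm (ne_of_mem_of_not_mem hz hwC).symm, hg.alC y hy z hz hyz, mul_neg]
  have hE2s : Sy (insert a T) E2 := by
    intro y hy z hz
    rw [hE2, map_sub, map_sum, hHs y hy z hz]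
    congr 1
    refine Finset.sum_congr rfl fun d hd => ?_
    have hyc : y ≠ c := fun h => hcaT (h ▸ hy)
    have hzc : z ≠ c := fun h => hcaT (h ▸ hz)
    have hdaT : d ∉ insert a T := fun h => Finset.disjoint_left.1 haTC h (hdc d hd).2.1
    have hyd : y ≠ d := fun h => hdaT (h ▸ hy)
    have hzd : z ≠ d := fun h => hdaT (h ▸ hz)
    rw [CHI.rc (Equiv.swap c d) (Equiv.swap y z) (Equiv.swap y z) (Equiv.swap c d)
      (CHI.m10 hyc hyd hzc hzd), hHs y hy z hz]
  have hE2a : Al C E2 := by
    have h := (h3 K A v).2.2.2.2.2.2.2.2.2.2.1 (C.erase c) c H (Finset.notMem_erase c C) hHa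
    rwa [Finset.insert_erase hc] at h
  -- the cycle
  have hcyc : ren (mv c w) (E - E1 - E2) = 0 := by
    have e1 : ren (mv c w) E1 = lin x w * ren (mv c w) g := by
      rw [hE1, map_mul, CHI.renLin, CHI.mvA, if_neg hcw.symm]
    have e2 : ren (mv c w) E2 = lin x w * ren (mv c w) G := by
      rw [hE2, map_sub, map_sum, Finset.sum_eq_zero, sub_zero, hH, map_mul, CHI.renLin, CHI.mvA,
        if_pos rfl]
      intro d hd
      obtain ⟨hdc', hdC, hdw, hda⟩ := hdc d hd
      rw [CHI.rc (Equiv.swap c d) (mv c w) (mv d w) (mv c d) (CHI.m4 hdc'.symm hcw.symm), hH,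
        map_mul, hG.cyC d hd, mul_zero, map_zero]
    rw [map_sub, map_sub, e1, e2, hκ c hc, hGg]
    ring
  have hE' : Zc M (insert a T) ∅ C w (M + 1 + β) (E - E1 - E2) := by
    have hal : Al C (E - E1 - E2) :=
      (((h3 K A v).2.2.2.1 C _ _).2.1 ((((h3 K A v).2.2.2.1 C _ _).2.1 hE.alC hE1a).2) hE2a).2
    refine ⟨⟨?_, ?_, ?_, hal⟩, ?_, ?_⟩
    · exact ((h1 K A A v).2.1 _ _ _ ((h1 K A A v).2.1 _ _ _ hE.dg hE1d).2 hE2d).2
    · exact (((h3 K A v).2.2.2.1 _ _ _).1 ((((h3 K A v).2.2.2.1 _ _ _).1 hE.sy hE1s).2) hE2s).2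
    · intro y hy
      exact absurd hy (Finset.notMem_empty y)
    · intro y hy
      exact absurd hy (Finset.notMem_empty y)
    · intro d hd
      rcases eq_or_ne d c with rfl | hdc'
      · exact hcyc
      · have hdw : d ≠ w := ne_of_mem_of_not_mem hd hwC
        have e := CHI.rc (mv c w) (Equiv.swap c d) (Equiv.swap c d) (mv d w)
          (CHI.m3 hdc'.symm hcw.symm hdw.symm) (E - E1 - E2)
        rw [hcyc, map_zero, hal c hc d hd hdc'.symm, map_neg] at e
        exact neg_eq_zero.1 e.symm
  -- good polynomials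
  have hcfC : Cf T ∅ C w := hcf
  have good1 := h7 K A v M β T C w a (E - E1 - E2) hcfC haT haC haw hE'
  have good2 := h6 K A v M β T C w a (lin x a * g) hcfC haT haC haw ?_
  · have key : ren (mv a w) E - ∑ d ∈ C, lin x d * ren (mv a d) (κ d) =
        ren (mv a w) (E - E1 - E2) + (ren (mv a w) (lin x a * g) -
          ∑ d ∈ C, ren (mv a w) (ren (Equiv.swap a d) (lin x a * g))) := by
      have f1 : ren (mv a w) E1 = ren (mv a w) (lin x a * g) := by
        rw [hE1, map_mul, map_mul, CHI.renLin, CHI.renLin, CHI.mvA, CHI.mvA, if_neg haw.symm,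
          if_pos rfl]
      have f2 : ∀ d ∈ C, ren (mv a w) (ren (Equiv.swap a d) (lin x a * g)) =
          lin x d * ren (mv a d) (ren (mv d w) g) := by
        intro d hd
        have hda : d ≠ a := ne_of_mem_of_not_mem hd haC
        rw [map_mul, map_mul, CHI.renLin, CHI.renLin, Equiv.swap_apply_left, CHI.mvA,
          if_neg hda, CHI.rc (Equiv.swap a d) (mv a w) (mv d w) (mv a d)
            (CHI.m4 hda.symm haw.symm)]
      have f3 : ren (mv a c) (ren (mv c w) G) = ren (mv a w) G := by
        rw [← CHI.rc (Equiv.swap a c) (mv a w) (mv c w) (mv a c) (CHI.m4 hca.symm haw.symm) G,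
          hG.cg.sy a (Finset.mem_insert_of_mem (Finset.mem_insert_self _ _)) c
            (Finset.mem_insert_self _ _)]
      have f4 : ren (mv a w) H = lin x c * ren (mv a w) G := by
        rw [hH, map_mul, CHI.renLin, CHI.mvA, if_neg hca]
      have f5 : ∀ d ∈ C.erase c, lin x d * ren (mv a d) (κ d) =
          -ren (mv a w) (ren (Equiv.swap c d) H) + lin x d * ren (mv a d) (ren (mv d w) g) := by
        intro d hd
        obtain ⟨hdc', hdC, hdw, hda⟩ := hdc d hd
        have hal : ren (Equiv.swap c d) (ren (mv c w) g) = -ren (mv d w) g := by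
          rw [CHI.rc (mv c w) (Equiv.swap c d) (Equiv.swap c d) (mv d w)
            (CHI.m3 hdc'.symm hcw.symm hdw.symm), hg.alC c hc d hdC hdc'.symm, map_neg]
        have hlast : ren (mv a w) (ren (Equiv.swap c d) H) =
            lin x d * ren (mv a d) (ren (Equiv.swap c d) (ren (mv c w) G)) := by
          rw [← CHI.rc (mv a w) (Equiv.swap c d) (Equiv.swap c d) (mv a w)
            (CHI.m1 hca hda hcw hdw), f4, map_mul, CHI.renLin, Equiv.swap_apply_left,
            CHI.rc (Equiv.swap c d) (mv a d) (mv a c) (Equiv.swap c d)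
              (CHI.m8 hca.symm hda.symm), f3]
        rw [CHI.kap2 h2 hwC hx hE.alC hκ hc hdC hdc'.symm, hGg, map_add, hal, hlast, map_neg,
          map_add, map_neg]
        ring
      rw [map_sub, map_sub, f1, Finset.sum_congr rfl f2,
        ← Finset.add_sum_erase C (fun d => lin x d * ren (mv a d) (κ d)) hc,
        ← Finset.add_sum_erase C (fun d => lin x d * ren (mv a d) (ren (mv d w) g)) hc,
        Finset.sum_congr rfl f5, Finset.sum_add_distrib, Finset.sum_neg_distrib, hE2, map_sub,
        map_sum, f4, hGg, map_add, f3]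
      ring
    rw [key]
    exact ((h4 K A v M β T C w hcfC).2.2.2.1 _ _ good1 good2).1
  · refine CHI.dgMul h1 ((h1 K A A v).2.2.2.2.2.1 x a) hg.dg fun y => ?_
    by_cases hy : y = a
    · subst hy
      rw [Pi.single_eq_same]
      unfold dgc
      rw [Finset.union_empty, Finset.union_empty, if_pos (Finset.mem_insert_self _ _),
        if_neg haT, if_pos (Finset.mem_insert_self _ _)]
      omega
    · rw [Pi.single_eq_of_ne hy, zero_add]
      unfold dgc
      rw [Finset.union_empty, Finset.union_empty]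
      simp only [Finset.mem_insert, hy, false_or]

end Pool.Agent.VOP
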