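import Pool.Agent.VOP.StmtsS

/-!
# Module CHIP: CHI without alternation
-/

namespace Pool.Agent.VOP

open MvPolynomial Pool.Agent.VSY

namespace CHIP

variable {K : Type} [Field K] {A : Type} {v : ℕ}

theorem mv_self [DecidableEq A] (u w : A) : mv u w u = w := by
  unfold mv
  rw [Function.update_self]

theorem mv_ne [DecidableEq A] {u w x : A} (h : x ≠ u) : mv u w x = x := by
  unfold mv
  rw [Function.update_of_ne h, id]

theorem sum_mv [Fintype A] [DecidableEq A] (δ : A → ℕ) {u w : A} (huw : u ≠ w) (b : A) :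
    ∑ x ∈ Finset.univ.filter (fun x => mv u w x = b), δ x =
      if b = u then 0 else if b = w then δ u + δ w else δ b := by
  by_cases hbu : b = u
  · rw [if_pos hbu]
    subst hbu
    apply Finset.sum_eq_zero
    intro x hx
    exfalso
    rw [Finset.mem_filter] at hx
    by_cases hx2 : x = b
    · rw [hx2, mv_self] at hx
      exact huw hx.2.symm
    · rw [mv_ne hx2] at hx
      exact hx2 hx.2
  · rw [if_neg hbu]
    by_cases hbw : b = w
    · rw [if_pos hbw]
      have h : (Finset.univ.filter fun x => mv u w x = b) = {u, w} := by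
        ext x
        rw [Finset.mem_filter, Finset.mem_insert, Finset.mem_singleton, hbw]
        constructor
        · rintro ⟨-, hx⟩
          by_cases hx2 : x = u
          · exact Or.inl hx2
          · rw [mv_ne hx2] at hx
            exact Or.inr hx
        · rintro (hx | hx)
          · rw [hx]
            exact ⟨Finset.mem_univ _, mv_self _ _⟩
          · rw [hx]
            exact ⟨Finset.mem_univ _, mv_ne huw.symm⟩
      rw [h, Finset.sum_pair huw]
    · rw [if_neg hbw]
      have h : (Finset.univ.filter fun x => mv u w x = b) = {b} := by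
        ext x
        rw [Finset.mem_filter, Finset.mem_singleton]
        constructor
        · rintro ⟨-, hx⟩
          by_cases hx2 : x = u
          · rw [hx2, mv_self] at hx
            exact absurd hx.symm hbw
          · rw [mv_ne hx2] at hx
            exact hx
        · intro hx
          rw [hx]
          exact ⟨Finset.mem_univ _, mv_ne hbu⟩
      rw [h, Finset.sum_singleton]

theorem mem_pS [Fintype A] [DecidableEq A] {S : Finset A} {π : Equiv.Perm A} (h : π ∈ pS S) :
    ∀ x, x ∉ S → π x = x := by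
  unfold pS at h
  exact (Finset.mem_filter.1 h).2

theorem pS_mem [Fintype A] [DecidableEq A] {S : Finset A} {π : Equiv.Perm A} (h : π ∈ pS S)
    {x : A} (hx : x ∈ S) : π x ∈ S := by
  by_contra h2
  have h3 := mem_pS h _ h2
  rw [π.injective h3] at h2
  exact h2 hx

theorem pS_symm_mem [Fintype A] [DecidableEq A] {S : Finset A} {π : Equiv.Perm A}
    (h : π ∈ pS S) {x : A} (hx : x ∈ S) : π.symm x ∈ S := by
  by_contra h2
  have h3 := mem_pS h _ h2
  rw [Equiv.apply_symm_apply] at h3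
  exact h2 (h3 ▸ hx)

/-- `mv c w ∘ π = π ∘ mv (π⁻¹ c) w` if `π w = w`. -/
theorem mv_comp_perm [DecidableEq A] (π : Equiv.Perm A) (c w : A) (hw : π w = w) :
    mv c w ∘ π = π ∘ mv (π.symm c) w := by
  funext x
  simp only [Function.comp_apply]
  by_cases hx : x = π.symm c
  · rw [hx, mv_self, Equiv.apply_symm_apply, mv_self, hw]
  · rw [mv_ne hx, mv_ne]
    intro h
    apply hx
    rw [← h, Equiv.symm_apply_apply]

/-- `π ∘ mv a c = mv a (π c) ∘ π` if `π a = a`. -/
theorem perm_comp_mv [DecidableEq A] (π : Equiv.Perm A) (a c : A) (ha : π a = a) :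
    π ∘ mv a c = mv a (π c) ∘ π := by
  funext x
  simp only [Function.comp_apply]
  by_cases hx : x = a
  · rw [hx, mv_self, ha, mv_self]
  · rw [mv_ne hx, mv_ne]
    intro h
    apply hx
    apply π.injective
    rw [h, ha]

theorem dgc_of_mem_T [DecidableEq A] {M r : ℕ} {T C : Finset A} {w y : A} (h : y ∈ T) :
    dgc M T ∅ C w r y = M + 1 := by
  unfold dgc
  rw [if_pos (Finset.mem_union_left _ h)]

theorem dgc_of_mem_C [DecidableEq A] {M r : ℕ} {T C : Finset A} {w y : A} (hT : y ∉ T)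
    (h : y ∈ C) : dgc M T ∅ C w r y = M + 2 := by
  unfold dgc
  rw [if_neg (by rw [Finset.union_empty]; exact hT), if_pos h]

theorem dgc_self [DecidableEq A] {M r : ℕ} {T C : Finset A} {w : A} (hT : w ∉ T)
    (h : w ∉ C) : dgc M T ∅ C w r w = r := by
  unfold dgc
  rw [if_neg (by rw [Finset.union_empty]; exact hT), if_neg h, if_pos rfl]

theorem dgc_other [DecidableEq A] {M r : ℕ} {T C : Finset A} {w y : A} (hT : y ∉ T)
    (h : y ∉ C) (hw : y ≠ w) : dgc M T ∅ C w r y = 0 := by
  unfold dgc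
  rw [if_neg (by rw [Finset.union_empty]; exact hT), if_neg h, if_neg hw]

theorem deg_h (h1 : Stmt_DG) [Fintype A] [DecidableEq A] {M β : ℕ} {T C : Finset A} {w a : A}
    {x : Fin v → K} {E : PX K A v} {κ : A → PX K A v} (hcf : Cf T ∅ C w) (haT : a ∉ T)
    (haC : a ∉ C) (haw : a ≠ w) (hE : Dg (dgc M (insert a T) ∅ C w (M + 1 + β)) E)
    (hκ : ∀ c ∈ C, Dg (Function.update (dgc M (insert a T) ∅ C w (2 * M + 2 + β)) c 0) (κ c)) :
    Dg (dgc M T ∅ C w (2 * M + 2 + β))
      (ren (mv a w) E - ∑ c ∈ C, lin x c * ren (mv a c) (κ c)) := by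
  obtain ⟨-, d2, -, d4, d5, d6, -, d8, -⟩ := h1 K A A v
  have hTC : ∀ y ∈ C, y ∉ T := fun y hy hT => Finset.disjoint_left.1 hcf.TC hT hy
  have haT' : ∀ y, y ≠ a → (y ∈ insert a T ↔ y ∈ T) := fun y hy => by
    rw [Finset.mem_insert]
    exact ⟨fun h => h.resolve_left hy, Or.inr⟩
  refine (d2 _ _ _ ?_ (d4 _ _ _ _ ?_)).2
  · have := d8 _ (mv a w) E hE
    convert this using 1
    funext b
    rw [sum_mv _ haw]
    by_cases hba : b = a
    · rw [if_pos hba, hba, dgc_other haT haC haw]
    · rw [if_neg hba]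
      by_cases hbw : b = w
      · rw [if_pos hbw, hbw, dgc_self hcf.wT hcf.wC, dgc_of_mem_T (Finset.mem_insert_self _ _),
          dgc_self (fun h => hcf.wT ((haT' w haw.symm).1 h)) hcf.wC]
        ring
      · rw [if_neg hbw]
        by_cases hbT : b ∈ T
        · rw [dgc_of_mem_T hbT, dgc_of_mem_T (Finset.mem_insert_of_mem hbT)]
        · have hbT' : b ∉ insert a T := fun h => hbT ((haT' b hba).1 h)
          by_cases hbC : b ∈ C
          · rw [dgc_of_mem_C hbT hbC, dgc_of_mem_C hbT' hbC]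
          · rw [dgc_other hbT hbC hbw, dgc_other hbT' hbC hbw]
  · intro c hc
    have hca : a ≠ c := fun h => haC (h ▸ hc)
    have hcw : c ≠ w := fun h => hcf.wC (h ▸ hc)
    have := d5 _ _ _ _ (d6 x c) (d8 _ (mv a c) (κ c) (hκ c hc))
    convert this using 1
    funext b
    rw [sum_mv _ hca]
    by_cases hba : b = a
    · rw [if_pos hba, hba, dgc_other haT haC haw, Pi.single_eq_of_ne hca]
    · rw [if_neg hba]
      by_cases hbc : b = c
      · rw [if_pos hbc, hbc, dgc_of_mem_C (hTC c hc) hc, Pi.single_eq_same,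
          Function.update_of_ne hca, Function.update_self,
          dgc_of_mem_T (Finset.mem_insert_self _ _)]
        ring
      · rw [if_neg hbc, Function.update_of_ne hbc, Pi.single_eq_of_ne hbc, zero_add]
        by_cases hbT : b ∈ T
        · rw [dgc_of_mem_T hbT, dgc_of_mem_T (Finset.mem_insert_of_mem hbT)]
        · have hbT' : b ∉ insert a T := fun h => hbT ((haT' b hba).1 h)
          by_cases hbC : b ∈ C
          · rw [dgc_of_mem_C hbT hbC, dgc_of_mem_C hbT' hbC]
          · by_cases hbw : b = w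
            · rw [hbw, dgc_self hcf.wT hcf.wC,
                dgc_self (fun h => hcf.wT ((haT' w haw.symm).1 h)) hcf.wC]
            · rw [dgc_other hbT hbC hbw, dgc_other hbT' hbC hbw]

/-- The alternated family. -/
noncomputable def kp [Fintype A] [DecidableEq A] (C : Finset A) (κ : A → PX K A v) (c : A) :
    PX K A v :=
  ∑ π ∈ pS C, ((Equiv.Perm.sign π : ℤˣ) : ℤ) • ren π (κ (π.symm c))

theorem kp_rel (h2 : Stmt_DIV) [Fintype A] [DecidableEq A] {C : Finset A} {w : A}
    {x : Fin v → K} (hx : x ≠ 0) {E : PX K A v} {κ : A → PX K A v} (hw : w ∉ C)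
    (hκ : ∀ c ∈ C, ren (mv c w) E = lin x w * κ c) {c : A} (hc : c ∈ C) :
    ren (mv c w) (alt C E) = lin x w * kp C κ c := by
  obtain ⟨-, -, -, -, -, l6, -⟩ := h2 K A A v x hx
  unfold alt kp
  rw [map_sum, Finset.mul_sum]
  refine Finset.sum_congr rfl fun π hπ => ?_
  rw [map_zsmul, ren_ren, mv_comp_perm π c w (mem_pS hπ w hw), ← ren_ren,
    hκ _ (pS_symm_mem hπ hc), map_mul, l6, mem_pS hπ w hw, mul_smul_comm]

theorem alt_h (h2 : Stmt_DIV) [Fintype A] [DecidableEq A] {C : Finset A} {w a : A}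
    {x : Fin v → K} (hx : x ≠ 0) (E : PX K A v) (κ : A → PX K A v) (hw : w ∉ C) (ha : a ∉ C) :
    alt C (ren (mv a w) E - ∑ c ∈ C, lin x c * ren (mv a c) (κ c)) =
      ren (mv a w) (alt C E) - ∑ c ∈ C, lin x c * ren (mv a c) (kp C κ c) := by
  obtain ⟨-, -, -, -, -, l6, -⟩ := h2 K A A v x hx
  have e1 : ren (mv a w) (alt C E) =
      ∑ π ∈ pS C, ((Equiv.Perm.sign π : ℤˣ) : ℤ) • ren π (ren (mv a w) E) := by
    unfold alt
    rw [map_sum]
    refine Finset.sum_congr rfl fun π hπ => ?_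
    rw [map_zsmul, ren_ren, ren_ren, perm_comp_mv π a w (mem_pS hπ a ha), mem_pS hπ w hw]
  have e2 : ∑ c ∈ C, lin x c * ren (mv a c) (kp C κ c) =
      ∑ π ∈ pS C, ((Equiv.Perm.sign π : ℤˣ) : ℤ) •
        ren π (∑ c ∈ C, lin x c * ren (mv a c) (κ c)) := by
    have e3 : ∀ c ∈ C, lin x c * ren (mv a c) (kp C κ c) =
        ∑ π ∈ pS C, ((Equiv.Perm.sign π : ℤˣ) : ℤ) •
          (lin x c * ren (mv a c) (ren π (κ (π.symm c)))) := by
      intro c _
      unfold kp
      rw [map_sum, Finset.mul_sum]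
      refine Finset.sum_congr rfl fun π _ => ?_
      rw [map_zsmul, mul_smul_comm]
    rw [Finset.sum_congr rfl e3, Finset.sum_comm]
    refine Finset.sum_congr rfl fun π hπ => ?_
    rw [← Finset.smul_sum, map_sum]
    congr 1
    refine Finset.sum_bij' (fun c _ => π.symm c) (fun c _ => π c)
      (fun c hc => pS_symm_mem hπ hc) (fun c hc => pS_mem hπ hc)
      (fun c _ => Equiv.apply_symm_apply _ _) (fun c _ => Equiv.symm_apply_apply _ _) ?_
    intro c _
    rw [map_mul, l6, Equiv.apply_symm_apply, ren_ren, ren_ren,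
      perm_comp_mv π a (π.symm c) (mem_pS hπ a ha), Equiv.apply_symm_apply]
  rw [e1, e2, ← Finset.sum_sub_distrib]
  unfold alt
  refine Finset.sum_congr rfl fun π _ => ?_
  rw [map_sub, smul_sub]

end CHIP

theorem CHIP_thm (h1 : Stmt_DG) (h2 : Stmt_DIV) (h3 : Stmt_SYM) (h4 : Stmt_GD0)
    (h5 : Stmt_GD1) (h6 : Stmt_CHI) : Stmt_CHI' := by
  intro K _ _ v M β t j hPP A _ _ T C w a x E κ hcf hT hC hx haT haC haw hE hS hκ hκd
  obtain ⟨-, -, s3, -, s5, s6, -, s8, s9, -⟩ := h3 K A v
  have hTC : ∀ y ∈ C, y ∉ insert a T := by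
    intro y hy h
    rcases Finset.mem_insert.1 h with h | h
    · exact haC (h ▸ hy)
    · exact Finset.disjoint_left.1 hcf.TC h hy
  have hcg : Cg (dgc M (insert a T) ∅ C w (M + 1 + β)) (insert a T) ∅ C (alt C E) := by
    refine ⟨?_, ?_, ?_, (s3 C E).2⟩
    · refine (s8 C _ E ?_ hE).1
      intro y hy z hz
      rw [CHIP.dgc_of_mem_C (hTC y hy) hy, CHIP.dgc_of_mem_C (hTC z hz) hz]
    · refine (s6 (insert a T) C E ?_).1 hS
      rw [Finset.disjoint_right]
      exact hTC
    · intro y hy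
      exact absurd hy (Finset.notMem_empty y)
  have hgood := h6 K v M β t j hPP A T C w a x (alt C E) (CHIP.kp C κ) hcf hT hC hx haT haC haw
    hcg (fun c hc => CHIP.kp_rel h2 hx hcf.wC hκ hc)
  rw [← CHIP.alt_h h2 hx E κ hcf.wC haC] at hgood
  refine ⟨CHIP.deg_h h1 hcf haT haC haw hE hκd, ?_⟩
  obtain ⟨-, hTT⟩ := hgood
  rw [(s5 C _).2 (s3 C _).2] at hTT
  have hfac : ((C.card.factorial : ℕ) : K) ≠ 0 := by
    exact_mod_cast C.card.factorial_ne_zero
  have e1 : ∀ f : PX K A v, ((C.card.factorial : ℕ) : ℤ) • f = ((C.card.factorial : ℕ) : K) • f := by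
    intro f
    rw [← Int.cast_smul_eq_zsmul K, Int.cast_natCast]
  rw [e1, (s9 T _ 0 _).2.2.2.1] at hTT
  have h7 := (h4 K A v M β T C w hcf).2.1 (((C.card.factorial : ℕ) : K)⁻¹) _ hTT
  rw [smul_smul, inv_mul_cancel₀ hfac, one_smul] at h7
  exact h7

end Pool.Agent.VOP
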