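import Pool.Agent.VOP.StmtsX

/-!
# MP_deb8da_ag: finite checks of the recursions of the highest weight gluing
-/

namespace Pool.Agent.VOP

/-- The check for one `N` without a bound for the rows: `κ = tot - D`, `e = N + β`. -/
def ckN (N β tot : ℕ) : ℕ → Bool
  | 0 => true
  | D + 1 => (Nat.ble (tot - D) (N + β + 1) || Nat.ble (tot - D) (GN N (N + β) D)) &&
      ckN N β tot D

/-- The check for one `N` with at most `v` rows. -/
def ckR (N v β tot : ℕ) : ℕ → Bool
  | 0 => true
  | D + 1 => (Nat.ble (tot - D) (N + β + 1) || Nat.ble (tot - D) (GR N v (N + β) D)) &&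
      ckR N v β tot D

theorem ckN_spec {N β tot : ℕ} (n : ℕ) (h : ckN N β tot n = true) (D : ℕ) (hD : D < n) :
    tot - D ≤ N + β + 1 ∨ tot - D ≤ GN N (N + β) D := by
  induction n with
  | zero => omega
  | succ n ih =>
    rw [ckN, Bool.and_eq_true, Bool.or_eq_true] at h
    rcases Nat.lt_or_ge D n with hn | hn
    · exact ih h.2 hn
    · obtain rfl : D = n := by omega
      rcases h.1 with h1 | h1
      · exact Or.inl (Nat.le_of_ble_eq_true h1)
      · exact Or.inr (Nat.le_of_ble_eq_true h1)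

theorem ckR_spec {N v β tot : ℕ} (n : ℕ) (h : ckR N v β tot n = true) (D : ℕ) (hD : D < n) :
    tot - D ≤ N + β + 1 ∨ tot - D ≤ GR N v (N + β) D := by
  induction n with
  | zero => omega
  | succ n ih =>
    rw [ckR, Bool.and_eq_true, Bool.or_eq_true] at h
    rcases Nat.lt_or_ge D n with hn | hn
    · exact ih h.2 hn
    · obtain rfl : D = n := by omega
      rcases h.1 with h1 | h1
      · exact Or.inl (Nat.le_of_ble_eq_true h1)
      · exact Or.inr (Nat.le_of_ble_eq_true h1)

theorem ck_6 : ckN 6 2 40 41 = true := by decide +kernel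
theorem ck_7 : ckN 7 2 48 49 = true := by decide +kernel
theorem ck_8 : ckN 8 2 56 57 = true := by decide +kernel
theorem ck_9 : ∀ t < 8, 3 ≤ t → ckR 9 (t + 1) 2 (69 - t) (70 - t) = true := by decide +kernel
theorem ck_10 : ∀ N < 30, 10 ≤ N → ckN N 2 (8 * N - 6) (8 * N - 5) = true := by decide +kernel

theorem ck_b2_11 : ckN 11 3 91 92 = true := by decide +kernel
theorem ck_b2_12 : ∀ t < 7, 3 ≤ t → ckR 12 (t + 1) 3 (106 - t) (107 - t) = true := by
  decide +kernel
theorem ck_b2_13 : ∀ t < 9, 3 ≤ t → ckR 13 (t + 1) 3 (118 - t) (119 - t) = true := by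
  decide +kernel
theorem ck_b2_14 : ∀ t < 11, 3 ≤ t → ckR 14 (t + 1) 3 (130 - t) (131 - t) = true := by
  decide +kernel
theorem ck_b2_15 : ∀ N < 41, 15 ≤ N → ckN N 3 (10 * N - 11) (10 * N - 10) = true := by
  decide +kernel

theorem ff7 : FF 7 32 = 262 := by decide +kernel
theorem ff9 : FF 9 44 = 410 := by decide +kernel

end Pool.Agent.VOP
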