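import Pool.Agent.VOP.StmtsS

/-!
# The Ottaviani-Paoletti conjecture (MP_deb8da_ag): CLCH
-/

namespace Pool.Agent.VOP

open MvPolynomial Pool.Agent.VSY

theorem CLCH_thm (_h1 : Stmt_DG) (h2 : Stmt_SBT) : Stmt_CLCH := by
  intro K _ _ v M β t s l hCH A _ _ T S C w x f hcf hsp hT hSC hC hx hf
  have hS : S.card = s := by omega
  obtain ⟨-, -, h3, -, -, h6⟩ := h2 K v
  obtain ⟨k, g, g', hk, hgg⟩ := h6 x hx
  have hz : Zc M T S C w (2 * M + 2 + β) (sb g' f) := (h3 A M β _ T S C w g' f).1 hf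
  have hgood := hCH A T S C w k (sb g' f) hcf hsp hT hS hC hz (fun m _ _ => Nat.zero_le _)
  have h5 := (h3 A M β (2 * M + 2 + β) T S (S ∪ C) w g
    ((∏ p ∈ S, X (p, k)) * sb g' f)).2.2.1
  have h6' : sb g ((∏ p ∈ S, X (p, k)) * sb g' f) = xS x S * f := by
    rw [map_mul, map_prod, (hgg A f).2, xS]
    congr 1
    refine Finset.prod_congr rfl fun p _ => ?_
    simp [sb, hk]
  rw [← h6']
  exact h5 hgood

end Pool.Agent.VOP
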