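import Pool.Agent.VOP.StmtsN

/-!
# The Ottaviani-Paoletti conjecture (MP_deb8da_ag): `CLAIM^H`, monomials divisible by a point of `C`
-/

namespace Pool.Agent.VOP

open MvPolynomial Pool.Agent.VSY

namespace CP

variable {K : Type} [Field K] {A : Type} {v : ℕ}

theorem lin_single (k : Fin v) (p : A) : (lin (Pi.single k 1) p : PX K A v) = X (p, k) := by
  classical
  rw [lin, Finset.sum_eq_single k]
  · simp
  · intro i _ hi
    simp [Pi.single_eq_of_ne hi]
  · simp

theorem single_ne (k : Fin v) : (Pi.single k 1 : Fin v → K) ≠ 0 := by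
  intro h
  have := congrFun h k
  simp at this

theorem Dg_add {δ : A → ℕ} {f g : PX K A v} (hf : Dg δ f) (hg : Dg δ g) : Dg δ (f + g) := by
  classical
  intro m hm
  rcases Finset.mem_union.1 (support_add hm) with h | h
  · exact hf m h
  · exact hg m h

theorem Dg_smul {δ : A → ℕ} {f : PX K A v} (a : K) (hf : Dg δ f) : Dg δ (a • f) :=
  fun m hm => hf m (support_smul hm)

theorem Zc_zero [DecidableEq A] (M : ℕ) (T S C : Finset A) (w : A) (r : ℕ) :
    Zc M T S C w r (0 : PX K A v) :=
  ⟨⟨fun m hm => by simp at hm, fun x _ y _ => map_zero _,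
    fun x _ y _ _ => by rw [map_zero, neg_zero], fun x _ y _ _ => by rw [map_zero, neg_zero]⟩,
    fun u _ => map_zero _, fun u _ => map_zero _⟩

theorem Zc_add [DecidableEq A] {M : ℕ} {T S C : Finset A} {w : A} {r : ℕ} {f g : PX K A v}
    (hf : Zc M T S C w r f) (hg : Zc M T S C w r g) : Zc M T S C w r (f + g) :=
  ⟨⟨Dg_add hf.cg.dg hg.cg.dg,
    fun x hx y hy => by rw [map_add, hf.cg.sy x hx y hy, hg.cg.sy x hx y hy],
    fun x hx y hy h => by rw [map_add, hf.cg.alS x hx y hy h, hg.cg.alS x hx y hy h, neg_add],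
    fun x hx y hy h => by rw [map_add, hf.cg.alC x hx y hy h, hg.cg.alC x hx y hy h, neg_add]⟩,
    fun u hu => by rw [map_add, hf.cyS u hu, hg.cyS u hu, add_zero],
    fun u hu => by rw [map_add, hf.cyC u hu, hg.cyC u hu, add_zero]⟩

theorem Zc_smul [DecidableEq A] {M : ℕ} {T S C : Finset A} {w : A} {r : ℕ} {f : PX K A v}
    (a : K) (hf : Zc M T S C w r f) : Zc M T S C w r (a • f) :=
  ⟨⟨Dg_smul a hf.cg.dg,
    fun x hx y hy => by rw [map_smul, hf.cg.sy x hx y hy],
    fun x hx y hy h => by rw [map_smul, hf.cg.alS x hx y hy h, smul_neg],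
    fun x hx y hy h => by rw [map_smul, hf.cg.alC x hx y hy h, smul_neg]⟩,
    fun u hu => by rw [map_smul, hf.cyS u hu, smul_zero],
    fun u hu => by rw [map_smul, hf.cyC u hu, smul_zero]⟩

theorem Zc_sum [DecidableEq A] {M : ℕ} {T S C : Finset A} {w : A} {r : ℕ} {ι : Type}
    (s : Finset ι) (F : ι → PX K A v) (hF : ∀ i ∈ s, Zc M T S C w r (F i)) :
    Zc M T S C w r (∑ i ∈ s, F i) := by
  classical
  induction s using Finset.induction_on with
  | empty => simpa using Zc_zero M T S C w r
  | insert a s ha ih =>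
    rw [Finset.sum_insert ha]
    exact Zc_add (hF a (Finset.mem_insert_self a s))
      (ih fun i hi => hF i (Finset.mem_insert_of_mem hi))

theorem swap_mem [DecidableEq A] {C : Finset A} {x y : A} (h : x ∈ C ↔ y ∈ C) (a : A) :
    Equiv.swap x y a ∈ C ↔ a ∈ C := by
  rcases eq_or_ne a x with rfl | hax
  · rw [Equiv.swap_apply_left]
    exact h.symm
  · rcases eq_or_ne a y with rfl | hay
    · rw [Equiv.swap_apply_right]
      exact h
    · rw [Equiv.swap_apply_of_ne_of_ne hax hay]

theorem card_map [DecidableEq A] {C : Finset A} {x y : A} (h : x ∈ C ↔ y ∈ C) (J : Finset A) :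
    (J.map (Equiv.swap x y).toEmbedding ∩ C).card = (J ∩ C).card := by
  have e : J.map (Equiv.swap x y).toEmbedding ∩ C =
      (J ∩ C).map (Equiv.swap x y).toEmbedding := by
    ext a
    simp only [Finset.mem_inter, Finset.mem_map_equiv, Equiv.symm_swap]
    rw [swap_mem h]
  rw [e, Finset.card_map]

end CP

theorem CP_thm (h1 : Stmt_DG) (h2 : Stmt_DIV) (_h3 : Stmt_SYM) (h4 : Stmt_GD0) (h5 : Stmt_PR)
    (h6 : Stmt_LFT) : Stmt_CP := by
  intro K _ _ v M β t s l hTWO hALP hLIFT hLIFT' A _ _ T S C w k f hCf hSp hT hS hC hf hm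
  obtain ⟨hl1, hl2⟩ := h6 K v M β t s l
  have hx0 := CP.single_ne (K := K) k
  have hlin := CP.lin_single (K := K) (A := A) k
  generalize (Pi.single k 1 : Fin v → K) = x at hx0 hlin ⊢
  obtain ⟨pr1, pr2, pr3, pr4, -, -, pr7, -, pr9, pr10⟩ := h5 K A v k w
  obtain ⟨-, dg2, -, -, dg5, dg6, -, -, -, -, -, -⟩ := h1 K A A v
  obtain ⟨div1, div2, -, div4, -, -, -⟩ := h2 K A A v x hx0
  obtain ⟨-, -, -, -, -, div6, -⟩ := h2 K A A v x hx0
  have hCf' : Cf T ∅ (S ∪ C) w := ⟨Finset.disjoint_empty_right _,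
    Finset.disjoint_union_right.2 ⟨hCf.TS, hCf.TC⟩, Finset.disjoint_empty_left _, hCf.wT,
    Finset.notMem_empty _, fun h => (Finset.mem_union.1 h).elim hCf.wS hCf.wC⟩
  obtain ⟨-, -, -, -, -, gd6, gd7, -⟩ := h4 K A v M β T (S ∪ C) w hCf'
  -- disjointness
  have hneT : ∀ a ∈ T, a ≠ w := fun a ha h => hCf.wT (h ▸ ha)
  have hneS : ∀ a ∈ S, a ≠ w := fun a ha h => hCf.wS (h ▸ ha)
  have hneC : ∀ a ∈ C, a ≠ w := fun a ha h => hCf.wC (h ▸ ha)
  have hTnC : ∀ a ∈ T, a ∉ C := fun a ha h => Finset.disjoint_left.1 hCf.TC ha h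
  have hSnC : ∀ a ∈ S, a ∉ C := fun a ha h => Finset.disjoint_left.1 hCf.SC ha h
  have hcy : ∀ u ∈ S ∪ C, ren (mv u w) f = 0 := by
    intro u hu
    rcases Finset.mem_union.1 hu with h | h
    · exact hf.cyS u h
    · exact hf.cyC u h
  have hneSC : ∀ u ∈ S ∪ C, u ≠ w := by
    intro u hu
    rcases Finset.mem_union.1 hu with h | h
    · exact hneS u h
    · exact hneC u h
  -- parts and permutations
  have hpr : ∀ (P : Finset A → Prop) (π : Equiv.Perm A), π w = w →
      (∀ J, P (J.map π.toEmbedding) ↔ P J) → ∀ g : PX K A v,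
      ren π (pr k w P g) = pr k w P (ren π g) := by
    intro P π hπ hP g
    rw [pr7 P π g hπ]
    have e : (fun J => P (J.map π.toEmbedding)) = P := funext fun J => propext (hP J)
    rw [e]
  have hprn : ∀ (P : Finset A → Prop) (g : PX K A v), pr k w P (-g) = -pr k w P g := by
    intro P g
    have := (pr2 P g g (-1)).2.2
    rwa [neg_one_smul, neg_one_smul] at this
  have hsw : ∀ a b : A, a ≠ w → b ≠ w → Equiv.swap a b w = w :=
    fun a b ha hb => Equiv.swap_apply_of_ne_of_ne ha.symm hb.symm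
  -- the decomposition
  have hdec : pr k w (fun _ => True) f =
      ∑ q ∈ Finset.Icc 1 l, pr k w (fun J => (J ∩ C).card = q) f := by
    ext m
    rw [coeff_sum]
    by_cases h0 : m (w, k) = 0
    · rw [(pr1 (fun _ => True) f m).1 ⟨h0, trivial⟩]
      by_cases hms : m ∈ f.support
      · obtain ⟨c, hc, hc1⟩ := hm m hms h0
        have hmem : (js k w m ∩ C).card ∈ Finset.Icc 1 l := by
          rw [Finset.mem_Icc]
          refine ⟨Finset.card_pos.2 ⟨c, Finset.mem_inter.2 ⟨?_, hc⟩⟩, ?_⟩
          · rw [js, Finset.mem_filter]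
            exact ⟨Finset.mem_univ _, hneC c hc, hc1⟩
          · rw [← hC]
            exact Finset.card_le_card Finset.inter_subset_right
        rw [Finset.sum_eq_single_of_mem _ hmem]
        · exact ((pr1 (fun J => (J ∩ C).card = (js k w m ∩ C).card) f m).1 ⟨h0, rfl⟩).symm
        · intro q _ hq
          exact (pr1 _ f m).2 fun h => hq h.2.symm
      · rw [notMem_support_iff.1 hms]
        symm
        refine Finset.sum_eq_zero fun q _ => ?_
        by_cases hq : (js k w m ∩ C).card = q
        · rw [(pr1 _ f m).1 ⟨h0, hq⟩, notMem_support_iff.1 hms]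
        · exact (pr1 _ f m).2 fun h => hq h.2
    · rw [(pr1 (fun _ => True) f m).2 fun h => h0 h.1]
      symm
      exact Finset.sum_eq_zero fun q _ => (pr1 _ f m).2 fun h => h0 h.1
  have key : ∀ q ∈ Finset.Icc 1 l, ∃ F : PX K A v, Zc M T S C w (2 * M + 2 + β) F ∧
      lin x w ∣ pr k w (fun J => (J ∩ C).card = q) f - F ∧
      Good M β T (S ∪ C) w (xS x S * F) := by
    intro q hq
    obtain ⟨hq1, hql⟩ := Finset.mem_Icc.1 hq
    have hfq : Cg (dgc M T S C w (2 * M + 2 + β)) T S C
        (pr k w (fun J => (J ∩ C).card = q) f) := by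
      refine ⟨pr3 _ _ _ hf.cg.dg, fun a ha b hb => ?_, fun a ha b hb hab => ?_,
        fun a ha b hb hab => ?_⟩
      · rw [hpr _ _ (hsw a b (hneT a ha) (hneT b hb)) (fun J => by
          rw [CP.card_map (iff_of_false (hTnC a ha) (hTnC b hb))]), hf.cg.sy a ha b hb]
      · rw [hpr _ _ (hsw a b (hneS a ha) (hneS b hb)) (fun J => by
          rw [CP.card_map (iff_of_false (hSnC a ha) (hSnC b hb))]), hf.cg.alS a ha b hb hab,
          hprn]
      · rw [hpr _ _ (hsw a b (hneC a ha) (hneC b hb)) (fun J => by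
          rw [CP.card_map (iff_of_true ha hb)]), hf.cg.alC a ha b hb hab, hprn]
    have hdvd : ∀ (P : Finset A → Prop), ∀ u ∈ S ∪ C,
        lin x w ∣ ren (mv u w) (pr k w P f) := by
      intro P u hu
      rw [hlin]
      exact (pr9 P u f (hneSC u hu) (by rw [hcy u hu]; exact dvd_zero _)).1
    obtain ⟨F, hF1, hF2⟩ := hl1 hLIFT A T S C w x _ hCf hS hC hx0 hfq (hdvd _)
    refine ⟨F, hF1, hF2, ?_⟩
    -- a point of `C`
    obtain ⟨u, hu⟩ : C.Nonempty := by
      rw [← Finset.card_pos, hC]
      omega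
    have huw : u ≠ w := hneC u hu
    have huT : u ∉ T := fun h => hTnC u h hu
    have huS : u ∉ S := fun h => hSnC u h hu
    obtain ⟨η, hη⟩ := pr10 (fun J => (J ∩ C).card = q ∧ u ∈ J) u f fun J hJ => hJ.2
    rw [← hlin] at hη
    have hren : ∀ a b : A, a ≠ u → b ≠ u → a ≠ w → b ≠ w → (a ∈ C ↔ b ∈ C) →
        lin x u * ren (Equiv.swap a b) η =
          pr k w (fun J => (J ∩ C).card = q ∧ u ∈ J) (ren (Equiv.swap a b) f) := by
      intro a b hau hbu haw hbw hab
      rw [← hpr _ _ (hsw a b haw hbw) (fun J => by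
        rw [CP.card_map hab, Finset.mem_map_equiv, Equiv.symm_swap,
          Equiv.swap_apply_of_ne_of_ne hau.symm hbu.symm]), hη, map_mul, div6,
        Equiv.swap_apply_of_ne_of_ne hau.symm hbu.symm]
    have hδu : dgc M T S C w (2 * M + 2 + β) u = M + 1 + 1 := by
      simp [dgc, huT, huS, hu]
    have hδw : dgc M T S C w (2 * M + 2 + β) w = 2 * M + 2 + β := by
      simp [dgc, hCf.wT, hCf.wS, hCf.wC]
    have hdη : Dg (Function.update (dgc M T S C w (2 * M + 2 + β)) u (M + 1)) η :=
      div2 _ u (M + 1) η hδu (by rw [← hη]; exact pr3 _ _ _ hf.cg.dg)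
    have hcgη : Cg (Function.update (dgc M T S C w (2 * M + 2 + β)) u (M + 1)) T S (C.erase u)
        η := by
      refine ⟨hdη, fun a ha b hb => ?_, fun a ha b hb hab => ?_, fun a ha b hb hab => ?_⟩
      · apply div1 u
        rw [hren a b (fun h => huT (h ▸ ha)) (fun h => huT (h ▸ hb)) (hneT a ha) (hneT b hb)
          (iff_of_false (hTnC a ha) (hTnC b hb)), hf.cg.sy a ha b hb, hη]
      · apply div1 u
        rw [hren a b (fun h => huS (h ▸ ha)) (fun h => huS (h ▸ hb)) (hneS a ha) (hneS b hb)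
          (iff_of_false (hSnC a ha) (hSnC b hb)), hf.cg.alS a ha b hb hab, hprn, hη, mul_neg]
      · obtain ⟨ha1, ha2⟩ := Finset.mem_erase.1 ha
        obtain ⟨hb1, hb2⟩ := Finset.mem_erase.1 hb
        apply div1 u
        rw [hren a b ha1 hb1 (hneC a ha2) (hneC b hb2) (iff_of_true ha2 hb2),
          hf.cg.alC a ha2 b hb2 hab, hprn, hη, mul_neg]
    have hmv : ∀ c, c ≠ u → mv c w u = u := by
      intro c hc
      rw [mv, Function.update_of_ne hc.symm]
      rfl
    have hdη' : ∀ c ∈ S ∪ C.erase u, lin x w ∣ ren (mv c w) η := by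
      intro c hc
      have hcu : c ≠ u := by
        rcases Finset.mem_union.1 hc with h | h
        · exact fun h' => huS (h' ▸ h)
        · exact (Finset.mem_erase.1 h).1
      have hc' : c ∈ S ∪ C := by
        rcases Finset.mem_union.1 hc with h | h
        · exact Finset.mem_union_left _ h
        · exact Finset.mem_union_right _ (Finset.mem_erase.1 h).2
      apply div4 w u _ huw
      have e : lin x u * ren (mv c w) η = ren (mv c w) (lin x u * η) := by
        rw [map_mul, div6, hmv c hcu]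
      rw [e, ← hη]
      exact hdvd _ c hc'
    have hCfe : Cf T S (C.erase u) w := ⟨hCf.TS,
      hCf.TC.mono_right (Finset.erase_subset _ _), hCf.SC.mono_right (Finset.erase_subset _ _),
      hCf.wT, hCf.wS, fun h => hCf.wC (Finset.mem_erase.1 h).2⟩
    obtain ⟨ρ, hρ1, hρ2⟩ := hLIFT' A
      (Function.update (dgc M T S C w (2 * M + 2 + β)) u (M + 1)) T S (C.erase u) w x η hCfe hS
      (by rw [Finset.card_erase_of_mem hu, hC]) hx0
      (fun a ha => by
        have hau : a ≠ u := fun h => huS (h ▸ ha)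
        rw [Function.update_of_ne hau]
        simp [dgc, ha])
      (fun a ha => by
        obtain ⟨ha1, ha2⟩ := Finset.mem_erase.1 ha
        rw [Function.update_of_ne ha1]
        have h3 : a ∉ T := fun h => hTnC a h ha2
        have h4 : a ∉ S := fun h => hSnC a h ha2
        simp [dgc, ha2, h3, h4])
      (by
        rw [Function.update_of_ne huw.symm, hδw]
        ring) hcgη hdη'
    have hren' : ∀ a b : A, a ≠ w → b ≠ w → ∀ g : PX K A v,
        ren (Equiv.swap a b) (lin x w * g) = lin x w * ren (Equiv.swap a b) g := by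
      intro a b ha hb g
      rw [map_mul, div6, hsw a b ha hb]
    have hdρ : Dg (Function.update (dgc M T S C w (2 * M + 2 + β)) u (M + 1))
        (lin x w * ρ) := by
      have e1 := dg5 _ _ _ _ (dg6 x w) hρ1.dg
      have e2 : (fun p => (Pi.single w 1 : A → ℕ) p +
          Function.update (Function.update (dgc M T S C w (2 * M + 2 + β)) u (M + 1)) w
            (2 * M + 1 + β) p) =
          Function.update (dgc M T S C w (2 * M + 2 + β)) u (M + 1) := by
        funext p
        rcases eq_or_ne p w with rfl | hp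
        · rw [Pi.single_eq_same, Function.update_self, Function.update_of_ne huw.symm, hδw]
          ring
        · rw [Pi.single_eq_of_ne hp, Function.update_of_ne hp, zero_add]
      rwa [e2] at e1
    have hcg' : Cg (Function.update (dgc M T S C w (2 * M + 2 + β)) u (M + 1)) T S (C.erase u)
        (η - lin x w * ρ) := by
      refine ⟨(dg2 _ _ _ hcgη.dg hdρ).2, fun a ha b hb => ?_, fun a ha b hb hab => ?_,
        fun a ha b hb hab => ?_⟩
      · rw [map_sub, hren' a b (hneT a ha) (hneT b hb), hcgη.sy a ha b hb, hρ1.sy a ha b hb]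
      · rw [map_sub, hren' a b (hneS a ha) (hneS b hb), hcgη.alS a ha b hb hab,
          hρ1.alS a ha b hb hab]
        ring
      · rw [map_sub, hren' a b (hneC a (Finset.mem_erase.1 ha).2)
          (hneC b (Finset.mem_erase.1 hb).2), hcgη.alC a ha b hb hab, hρ1.alC a ha b hb hab]
        ring
    -- the sum of the parts
    have hgc : ∀ c ∈ C.erase u, ren (Equiv.swap u c) (lin x u * η) =
        -pr k w (fun J => (J ∩ C).card = q ∧ c ∈ J) f := by
      intro c hc
      obtain ⟨hc1, hc2⟩ := Finset.mem_erase.1 hc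
      have e := pr7 (fun J => (J ∩ C).card = q ∧ c ∈ J) (Equiv.swap u c) f
        (hsw u c huw (hneC c hc2))
      rw [hf.cg.alC u hu c hc2 hc1.symm, hprn] at e
      rw [e, ← hη]
      have e' : (fun J : Finset A => (J ∩ C).card = q ∧ u ∈ J) =
          fun J => (J.map (Equiv.swap u c).toEmbedding ∩ C).card = q ∧
            c ∈ J.map (Equiv.swap u c).toEmbedding := by
        funext J
        rw [CP.card_map (iff_of_true hu hc2), Finset.mem_map_equiv, Equiv.symm_swap,
          Equiv.swap_apply_right]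
      rw [e']
    have hsum : ∑ c ∈ C, pr k w (fun J => (J ∩ C).card = q ∧ c ∈ J) f =
        (q : K) • pr k w (fun J => (J ∩ C).card = q) f := by
      ext m
      rw [coeff_sum, coeff_smul, smul_eq_mul]
      by_cases h0 : m (w, k) = 0 ∧ (js k w m ∩ C).card = q
      · rw [(pr1 _ f m).1 h0]
        have e : ∀ c ∈ C, coeff m (pr k w (fun J => (J ∩ C).card = q ∧ c ∈ J) f) =
            if c ∈ js k w m then coeff m f else 0 := by
          intro c _
          split_ifs with h
          · exact (pr1 _ f m).1 ⟨h0.1, h0.2, h⟩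
          · exact (pr1 _ f m).2 fun h' => h h'.2.2
        rw [Finset.sum_congr rfl e, ← Finset.sum_filter, Finset.sum_const, nsmul_eq_mul]
        congr 2
        rw [← h0.2]
        congr 1
        ext a
        simp only [Finset.mem_filter, Finset.mem_inter]
        exact and_comm
      · rw [(pr1 _ f m).2 h0, mul_zero]
        exact Finset.sum_eq_zero fun c _ => (pr1 _ f m).2 fun h => h0 ⟨h.1, h.2.1⟩
    have hsum' : lin x u * η + ∑ c ∈ C.erase u, pr k w (fun J => (J ∩ C).card = q ∧ c ∈ J) f =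
        (q : K) • pr k w (fun J => (J ∩ C).card = q) f := by
      rw [← hsum, ← Finset.add_sum_erase C _ hu, hη]
    have hfin := hTWO A T S C w u x (η - lin x w * ρ) ((q : K) • F) hCf hSp hT hS hC hu hx0 hcg'
      (fun a ha => hρ2 a (Finset.mem_union_left _ ha))
      (fun a ha => hρ2 a (Finset.mem_union_right _ ha)) (CP.Zc_smul _ hF1) (by
        have e1 : lin x u * (η - lin x w * ρ) = lin x u * η - lin x w * (lin x u * ρ) := by
          ring
        have e2 : ∀ c ∈ C.erase u, ren (Equiv.swap u c) (lin x u * (η - lin x w * ρ)) =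
            -pr k w (fun J => (J ∩ C).card = q ∧ c ∈ J) f -
              lin x w * ren (Equiv.swap u c) (lin x u * ρ) := by
          intro c hc
          rw [e1, map_sub, hgc c hc, hren' u c huw (hneC c (Finset.mem_erase.1 hc).2)]
        rw [Finset.sum_congr rfl e2, Finset.sum_sub_distrib, Finset.sum_neg_distrib,
          ← Finset.mul_sum, e1]
        have e3 : lin x u * η - lin x w * (lin x u * ρ) -
            (-∑ c ∈ C.erase u, pr k w (fun J => (J ∩ C).card = q ∧ c ∈ J) f -
              lin x w * ∑ c ∈ C.erase u, ren (Equiv.swap u c) (lin x u * ρ)) - (q : K) • F =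
            (q : K) • (pr k w (fun J => (J ∩ C).card = q) f - F) +
              lin x w * (∑ c ∈ C.erase u, ren (Equiv.swap u c) (lin x u * ρ) -
                lin x u * ρ) := by
          rw [smul_sub, ← hsum']
          ring
        rw [e3]
        refine dvd_add ?_ (dvd_mul_right _ _)
        rw [smul_eq_C_mul]
        exact dvd_mul_of_dvd_right hF2 _)
    refine gd6 (q : K) _ ?_ ?_
    · have : (0 : ℕ) < q := hq1
      exact_mod_cast this.ne'
    · rwa [mul_smul_comm] at hfin
  choose! F hF using key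
  refine hl2 hALP A T S C w x f (∑ q ∈ Finset.Icc 1 l, F q) hCf hSp hT hS hC hx0 hf
    (CP.Zc_sum _ _ fun q hq => (hF q hq).1) ?_ ?_
  · have e : f - ∑ q ∈ Finset.Icc 1 l, F q = (f - pr k w (fun _ => True) f) +
        ∑ q ∈ Finset.Icc 1 l, (pr k w (fun J => (J ∩ C).card = q) f - F q) := by
      rw [Finset.sum_sub_distrib, ← hdec]
      ring
    rw [e]
    refine dvd_add ?_ (Finset.dvd_sum fun q hq => (hF q hq).2.1)
    rw [hlin]
    exact pr4 f
  · rw [Finset.mul_sum]
    exact gd7 ℕ _ _ fun q hq => (hF q hq).2.2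

end Pool.Agent.VOP
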