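import Pool.Agent.VOP.StmtsW
import Pool.Agent.VOP.DG

/-!
# A polynomial which vanishes for `u = w` is in the ideal of the coordinates of `u × w`
(MP_deb8da_ag)
-/

set_option autoImplicit false

namespace Pool.Agent.VOP

open MvPolynomial Pool.Agent.VSY

namespace CRV

variable {K : Type} [Field K] {A : Type} [DecidableEq A]

/-- `g` is in the ideal, with the right degrees. -/
def Sat (δ : A → ℕ) (u w : A) (g : PX K A 3) : Prop :=
  ∃ h : Fin 3 → PX K A 3,
    (∀ i, Dg (Function.update (Function.update δ u (δ u - 1)) w (δ w - 1)) (h i)) ∧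
    g = ∑ i, cr K u w i * h i

theorem sat_zero (δ : A → ℕ) (u w : A) : Sat δ u w (0 : PX K A 3) :=
  ⟨fun _ => 0, fun _ => DG.zero _, by simp⟩

theorem sat_add {δ : A → ℕ} {u w : A} {f g : PX K A 3} (hf : Sat δ u w f) (hg : Sat δ u w g) :
    Sat δ u w (f + g) := by
  obtain ⟨h, h1, h2⟩ := hf
  obtain ⟨k, k1, k2⟩ := hg
  refine ⟨fun i => h i + k i, fun i => DG.add (h1 i) (k1 i), ?_⟩
  rw [h2, k2, ← Finset.sum_add_distrib]
  exact Finset.sum_congr rfl fun i _ => (mul_add _ _ _).symm

theorem sat_smul {δ : A → ℕ} {u w : A} {f : PX K A 3} (c : K) (hf : Sat δ u w f) :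
    Sat δ u w (c • f) := by
  obtain ⟨h, h1, h2⟩ := hf
  refine ⟨fun i => c • h i, fun i => DG.smul c (h1 i), ?_⟩
  rw [h2, Finset.smul_sum]
  exact Finset.sum_congr rfl fun i _ => (mul_smul_comm _ _ _).symm

omit [DecidableEq A] in
/-- The exchange relation. -/
theorem exch (u w : A) {i j : Fin 3} (hij : i ≠ j) : ∃ (k : Fin 3) (c : K),
    (X (u, i) * X (w, j) - X (u, j) * X (w, i) : PX K A 3) = C c * cr K u w k := by
  fin_cases i <;> fin_cases j
  · exact absurd rfl hij
  · refine ⟨2, 1, ?_⟩
    simp only [cr, C_1]
    change (X (u, 0) * X (w, 1) - X (u, 1) * X (w, 0) : PX K A 3) =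
      1 * (X (u, 0) * X (w, 1) - X (u, 1) * X (w, 0))
    ring
  · refine ⟨1, -1, ?_⟩
    simp only [cr, C_neg, C_1]
    change (X (u, 0) * X (w, 2) - X (u, 2) * X (w, 0) : PX K A 3) =
      -1 * (X (u, 2) * X (w, 0) - X (u, 0) * X (w, 2))
    ring
  · refine ⟨2, -1, ?_⟩
    simp only [cr, C_neg, C_1]
    change (X (u, 1) * X (w, 0) - X (u, 0) * X (w, 1) : PX K A 3) =
      -1 * (X (u, 0) * X (w, 1) - X (u, 1) * X (w, 0))
    ring
  · exact absurd rfl hij
  · refine ⟨0, 1, ?_⟩
    simp only [cr, C_1]
    change (X (u, 1) * X (w, 2) - X (u, 2) * X (w, 1) : PX K A 3) =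
      1 * (X (u, 1) * X (w, 2) - X (u, 2) * X (w, 1))
    ring
  · refine ⟨1, 1, ?_⟩
    simp only [cr, C_1]
    change (X (u, 2) * X (w, 0) - X (u, 0) * X (w, 2) : PX K A 3) =
      1 * (X (u, 2) * X (w, 0) - X (u, 0) * X (w, 2))
    ring
  · refine ⟨0, -1, ?_⟩
    simp only [cr, C_neg, C_1]
    change (X (u, 2) * X (w, 1) - X (u, 1) * X (w, 2) : PX K A 3) =
      -1 * (X (u, 1) * X (w, 2) - X (u, 2) * X (w, 1))
    ring
  · exact absurd rfl hij

/-- The relation between monomials. -/
structure Eqv (u w : A) (m m' : A × Fin 3 →₀ ℕ) : Prop where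
  off : ∀ x l, x ≠ u → x ≠ w → m (x, l) = m' (x, l)
  on : ∀ l, m (u, l) + m (w, l) = m' (u, l) + m' (w, l)

theorem sat_exch {δ : A → ℕ} {u w : A} (huw : u ≠ w) {i j : Fin 3} (hij : i ≠ j)
    (n : A × Fin 3 →₀ ℕ)
    (hn : ∀ x, ∑ l, (n + Finsupp.single (u, i) 1 + Finsupp.single (w, j) 1 : A × Fin 3 →₀ ℕ)
      (x, l) = δ x) :
    Sat δ u w (monomial (n + Finsupp.single (u, i) 1 + Finsupp.single (w, j) 1) (1 : K) -
      monomial (n + Finsupp.single (u, j) 1 + Finsupp.single (w, i) 1) 1) := by
  obtain ⟨k, c, hkc⟩ := exch (K := K) u w hij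
  have hdn : Dg (Function.update (Function.update δ u (δ u - 1)) w (δ w - 1))
      (monomial n (1 : K)) := by
    intro m hm x
    have h1 := Finset.mem_singleton.1 (support_monomial_subset hm)
    subst h1
    have h2 := hn x
    simp only [Finsupp.add_apply, Finset.sum_add_distrib] at h2
    have h3 : ∀ (p : A) (a : Fin 3), ∑ l, (Finsupp.single (p, a) 1 : A × Fin 3 →₀ ℕ) (x, l) =
        if x = p then 1 else 0 := by
      intro p a
      by_cases hx : x = p
      · subst hx
        rw [if_pos rfl]
        simp [Finsupp.single_apply]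
      · rw [if_neg hx]
        refine Finset.sum_eq_zero fun l _ => ?_
        rw [Finsupp.single_apply, if_neg]
        intro h4
        exact hx (congrArg Prod.fst h4).symm
    rw [h3, h3] at h2
    by_cases hxw : x = w
    · subst hxw
      rw [Function.update_self]
      rw [if_neg (Ne.symm huw), if_pos rfl] at h2
      omega
    · rw [Function.update_of_ne hxw]
      rw [if_neg hxw] at h2
      by_cases hxu : x = u
      · subst hxu
        rw [Function.update_self]
        rw [if_pos rfl] at h2
        omega
      · rw [Function.update_of_ne hxu]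
        rw [if_neg hxu] at h2
        omega
  refine ⟨Pi.single k (c • monomial n 1), ?_, ?_⟩
  · intro l
    by_cases hl : l = k
    · subst hl
      rw [Pi.single_eq_same]
      exact DG.smul c hdn
    · rw [Pi.single_eq_of_ne hl]
      exact DG.zero _
  · rw [Finset.sum_eq_single k]
    · rw [Pi.single_eq_same, smul_eq_C_mul]
      have h5 : ∀ (a b : A × Fin 3), monomial (n + Finsupp.single a 1 + Finsupp.single b 1) (1 : K) =
          X a * X b * monomial n 1 := by
        intro a b
        rw [X, X, monomial_mul, monomial_mul, one_mul, one_mul]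
        congr 1
        rw [add_comm (Finsupp.single a 1 + Finsupp.single b 1) n, add_assoc]
      rw [h5, h5, ← sub_mul, hkc]
      ring
    · intro l _ hl
      rw [Pi.single_eq_of_ne hl, mul_zero]
    · intro h
      exact absurd (Finset.mem_univ k) h

theorem sat_monomial {δ : A → ℕ} {u w : A} (huw : u ≠ w) (m' : A × Fin 3 →₀ ℕ)
    (hm' : ∀ x, ∑ l, m' (x, l) = δ x) : ∀ (d : ℕ) (m : A × Fin 3 →₀ ℕ),
    (∀ x, ∑ l, m (x, l) = δ x) → Eqv u w m m' → ∑ l, (m (u, l) - m' (u, l)) = d →
    Sat δ u w (monomial m (1 : K) - monomial m' 1) := by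
  intro d
  induction d with
  | zero =>
    intro m hm he hd
    have h1 : m = m' := by
      have h2 := hm u
      have h3 := hm' u
      rw [← h3] at h2
      rw [Fin.sum_univ_three, Fin.sum_univ_three] at h2
      rw [Fin.sum_univ_three] at hd
      have e : ∀ l, m (u, l) = m' (u, l) := by
        intro l
        fin_cases l
        · show m (u, 0) = m' (u, 0)
          omega
        · show m (u, 1) = m' (u, 1)
          omega
        · show m (u, 2) = m' (u, 2)
          omega
      ext ⟨x, l⟩
      by_cases hxu : x = u
      · subst hxu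
        exact e l
      · by_cases hxw : x = w
        · subst hxw
          have h4 := he.on l
          rw [e l] at h4
          omega
        · exact he.off x l hxu hxw
    rw [h1, sub_self]
    exact sat_zero _ _ _
  | succ d ih =>
    intro m hm he hd
    have h2 := hm u
    rw [← hm' u, Fin.sum_univ_three, Fin.sum_univ_three] at h2
    rw [Fin.sum_univ_three] at hd
    obtain ⟨i, hi⟩ : ∃ i, m' (u, i) < m (u, i) := by
      by_contra hcon
      push Not at hcon
      have c0 := hcon 0
      have c1 := hcon 1
      have c2 := hcon 2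
      omega
    obtain ⟨j, hj⟩ : ∃ j, m (u, j) < m' (u, j) := by
      by_contra hcon
      push Not at hcon
      have c0 := hcon 0
      have c1 := hcon 1
      have c2 := hcon 2
      omega
    have hij : i ≠ j := by
      rintro rfl
      omega
    have hwj : 1 ≤ m (w, j) := by
      have := he.on j
      omega
    have hui : 1 ≤ m (u, i) := by omega
    set n : A × Fin 3 →₀ ℕ := m - Finsupp.single (u, i) 1 - Finsupp.single (w, j) 1 with hn
    have huiwj : ((u, i) : A × Fin 3) ≠ (w, j) := fun h => huw (congrArg Prod.fst h)
    have hnm : n + Finsupp.single (u, i) 1 + Finsupp.single (w, j) 1 = m := by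
      ext y
      simp only [hn, Finsupp.add_apply, Finsupp.tsub_apply]
      by_cases h1 : y = (u, i)
      · subst h1
        rw [Finsupp.single_eq_same, Finsupp.single_apply, if_neg huiwj.symm]
        omega
      · by_cases h3 : y = (w, j)
        · subst h3
          rw [Finsupp.single_eq_same, Finsupp.single_apply, if_neg huiwj]
          omega
        · rw [Finsupp.single_apply, if_neg (Ne.symm h1), Finsupp.single_apply, if_neg (Ne.symm h3)]
          omega
    set m2 : A × Fin 3 →₀ ℕ := n + Finsupp.single (u, j) 1 + Finsupp.single (w, i) 1 with hm2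
    have hval : ∀ y, m2 y + (Finsupp.single (u, i) 1 : A × Fin 3 →₀ ℕ) y +
        (Finsupp.single (w, j) 1 : A × Fin 3 →₀ ℕ) y =
        m y + (Finsupp.single (u, j) 1 : A × Fin 3 →₀ ℕ) y +
        (Finsupp.single (w, i) 1 : A × Fin 3 →₀ ℕ) y := by
      intro y
      rw [← hnm, hm2]
      simp only [Finsupp.add_apply]
      ring
    have hu : ∀ l, m2 (u, l) + (if l = i then 1 else 0) = m (u, l) + (if l = j then 1 else 0) := by
      intro l
      have := hval (u, l)
      simp only [Finsupp.single_apply, Prod.mk.injEq, true_and, huw.symm, false_and,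
        if_false, add_zero] at this
      rw [show (if l = i then 1 else 0) = (if i = l then 1 else 0) by simp only [eq_comm],
        show (if l = j then 1 else 0) = (if j = l then 1 else 0) by simp only [eq_comm]]
      exact this
    have hw : ∀ l, m2 (w, l) + (if l = j then 1 else 0) = m (w, l) + (if l = i then 1 else 0) := by
      intro l
      have := hval (w, l)
      simp only [Finsupp.single_apply, Prod.mk.injEq, true_and, huw, false_and,
        if_false, add_zero] at this
      rw [show (if l = i then 1 else 0) = (if i = l then 1 else 0) by simp only [eq_comm],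
        show (if l = j then 1 else 0) = (if j = l then 1 else 0) by simp only [eq_comm]]
      exact this
    have hx : ∀ x l, x ≠ u → x ≠ w → m2 (x, l) = m (x, l) := by
      intro x l hxu hxw
      have := hval (x, l)
      simp only [Finsupp.single_apply, Prod.mk.injEq, hxu.symm, hxw.symm, false_and,
        if_false, add_zero] at this
      exact this
    have hsum : ∀ (a : Fin 3), ∑ l : Fin 3, (if l = a then 1 else 0) = 1 := by
      intro a
      rw [Finset.sum_ite_eq' Finset.univ a, if_pos (Finset.mem_univ a)]
    have hdeg : ∀ x, ∑ l, m2 (x, l) = δ x := by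
      intro x
      by_cases hxu : x = u
      · subst hxu
        have h6 : ∑ l, (m2 (x, l) + (if l = i then 1 else 0)) =
            ∑ l, (m (x, l) + (if l = j then 1 else 0)) := Finset.sum_congr rfl fun l _ => hu l
        rw [Finset.sum_add_distrib, Finset.sum_add_distrib, hsum, hsum, hm x] at h6
        omega
      · by_cases hxw : x = w
        · subst hxw
          have h6 : ∑ l, (m2 (x, l) + (if l = j then 1 else 0)) =
              ∑ l, (m (x, l) + (if l = i then 1 else 0)) := Finset.sum_congr rfl fun l _ => hw l
          rw [Finset.sum_add_distrib, Finset.sum_add_distrib, hsum, hsum, hm x] at h6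
          omega
        · rw [← hm x]
          exact Finset.sum_congr rfl fun l _ => hx x l hxu hxw
    have heq2 : Eqv u w m2 m' := by
      refine ⟨fun x l hxu hxw => ?_, fun l => ?_⟩
      · rw [hx x l hxu hxw, he.off x l hxu hxw]
      · have := he.on l
        have := hu l
        have := hw l
        omega
    have hd2 : ∑ l, (m2 (u, l) - m' (u, l)) = d := by
      have h6 : ∑ l, ((m2 (u, l) - m' (u, l)) + (if l = i then 1 else 0)) =
          ∑ l, (m (u, l) - m' (u, l)) := by
        refine Finset.sum_congr rfl fun l _ => ?_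
        have h7 := hu l
        by_cases hli : l = i
        · subst hli
          rw [if_pos rfl, if_neg hij] at h7
          rw [if_pos rfl]
          omega
        · rw [if_neg hli] at h7 ⊢
          by_cases hlj : l = j
          · subst hlj
            rw [if_pos rfl] at h7
            omega
          · rw [if_neg hlj] at h7
            omega
      rw [Finset.sum_add_distrib, hsum, Fin.sum_univ_three (fun l => m (u, l) - m' (u, l))] at h6
      omega
    have h8 := ih m2 hdeg heq2 hd2
    have h9 : Sat δ u w (monomial m (1 : K) - monomial m2 1) := by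
      rw [← hnm, hm2]
      exact sat_exch huw hij n (by rw [hnm]; exact hm)
    have h10 := sat_add h9 h8
    rwa [sub_add_sub_cancel] at h10

theorem mv_self (u w : A) : mv u w u = w := by
  rw [mv, Function.update_self]

theorem mv_ne {u x : A} (w : A) (h : x ≠ u) : mv u w x = x := by
  rw [mv, Function.update_of_ne h, id]

theorem eqv_of_mapDomain [Fintype A] {u w : A} (huw : u ≠ w) {m m' : A × Fin 3 →₀ ℕ}
    (h : m.mapDomain (Prod.map (mv u w) id) = m'.mapDomain (Prod.map (mv u w) id)) :
    Eqv u w m m' := by
  refine ⟨fun x l hxu hxw => ?_, fun l => ?_⟩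
  · have h1 := DFunLike.congr_fun h (x, l)
    rw [mapDomain_deg, mapDomain_deg] at h1
    have h2 : (Finset.univ.filter fun a => mv u w a = x) = {x} := by
      ext a
      simp only [Finset.mem_filter, Finset.mem_univ, true_and, Finset.mem_singleton]
      constructor
      · intro h3
        by_cases hau : a = u
        · subst hau
          rw [mv_self] at h3
          exact absurd h3.symm hxw
        · rwa [mv_ne w hau] at h3
      · rintro rfl
        exact mv_ne w hxu
    rwa [h2, Finset.sum_singleton, Finset.sum_singleton] at h1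
  · have h1 := DFunLike.congr_fun h (w, l)
    rw [mapDomain_deg, mapDomain_deg] at h1
    have h2 : (Finset.univ.filter fun a => mv u w a = w) = {u, w} := by
      ext a
      simp only [Finset.mem_filter, Finset.mem_univ, true_and, Finset.mem_singleton,
        Finset.mem_insert]
      constructor
      · intro h3
        by_cases hau : a = u
        · exact Or.inl hau
        · rw [mv_ne w hau] at h3
          exact Or.inr h3
      · rintro (rfl | rfl)
        · exact mv_self _ _
        · exact mv_ne _ huw.symm
    rwa [h2, Finset.sum_pair huw, Finset.sum_pair huw] at h1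

/-- A polynomial in the kernel has two equivalent monomials. -/
theorem exists_pair {u w : A} (f : PX K A 3) (hf : ren (mv u w) f = 0)
    {m : A × Fin 3 →₀ ℕ} (hm : m ∈ f.support) : ∃ m' ∈ f.support, m' ≠ m ∧
      m'.mapDomain (Prod.map (mv u w) id) = m.mapDomain (Prod.map (mv u w) id) := by
  set g : PX K A 3 := f - monomial m (coeff m f) with hg
  have h1 : ren (mv u w) g = - monomial (m.mapDomain (Prod.map (mv u w) id)) (coeff m f) := by
    rw [hg, map_sub, hf, ren_monomial, zero_sub]
  have h2 : m.mapDomain (Prod.map (mv u w) id) ∈ (ren (mv u w) g).support := by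
    rw [h1, mem_support_iff, coeff_neg, coeff_monomial, if_pos rfl, neg_ne_zero]
    exact mem_support_iff.1 hm
  obtain ⟨m', h3, h4⟩ := exists_of_mem_support_ren _ _ h2
  have h5 : m' ≠ m := by
    rintro rfl
    rw [mem_support_iff, hg, coeff_sub, coeff_monomial, if_pos rfl, sub_self] at h3
    exact h3 rfl
  refine ⟨m', ?_, h5, h4⟩
  rw [mem_support_iff, hg, coeff_sub, coeff_monomial, if_neg h5.symm, sub_zero] at h3
  exact mem_support_iff.2 h3

theorem sat_of_ren [Fintype A] {δ : A → ℕ} {u w : A} (huw : u ≠ w) : ∀ (k : ℕ) (f : PX K A 3),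
    f.support.card ≤ k → Dg δ f → ren (mv u w) f = 0 → Sat δ u w f := by
  intro k
  induction k with
  | zero =>
    intro f hk _ _
    have : f = 0 := by
      rw [← support_eq_empty]
      exact Finset.card_eq_zero.1 (Nat.le_zero.1 hk)
    rw [this]
    exact sat_zero _ _ _
  | succ k ih =>
    intro f hk hd hf
    by_cases h0 : f = 0
    · rw [h0]
      exact sat_zero _ _ _
    obtain ⟨m, hm⟩ := support_nonempty.2 h0
    obtain ⟨m', hm', hne, hmap⟩ := exists_pair f hf hm
    set c : K := coeff m f with hc
    have hs : Sat δ u w (monomial m (1 : K) - monomial m' 1) :=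
      sat_monomial huw m' (hd m' hm') _ m (hd m hm) (eqv_of_mapDomain huw hmap.symm) rfl
    set g : PX K A 3 := f - c • (monomial m (1 : K) - monomial m' 1) with hg
    have hcoeff : ∀ a, coeff a g = coeff a f - c * ((if m = a then 1 else 0) -
        (if m' = a then 1 else 0)) := by
      intro a
      rw [hg, coeff_sub, coeff_smul, coeff_sub, coeff_monomial, coeff_monomial, smul_eq_mul]
    have hsub : g.support ⊆ f.support.erase m := by
      intro a ha
      rw [mem_support_iff, hcoeff] at ha
      rw [Finset.mem_erase]
      constructor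
      · rintro rfl
        rw [if_pos rfl, if_neg hne, sub_zero, mul_one, hc, sub_self] at ha
        exact ha rfl
      · by_contra hcon
        rw [mem_support_iff, not_not] at hcon
        have h1 : m ≠ a := by
          rintro rfl
          exact (mem_support_iff.1 hm) hcon
        have h2 : m' ≠ a := by
          rintro rfl
          exact (mem_support_iff.1 hm') hcon
        rw [hcon, if_neg h1, if_neg h2, sub_zero, mul_zero, sub_zero] at ha
        exact ha rfl
    have hgd : Dg δ g := fun a ha => hd a (Finset.mem_of_mem_erase (hsub ha))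
    have hgr : ren (mv u w) g = 0 := by
      rw [hg, map_sub, map_smul, map_sub, ren_monomial, ren_monomial, hmap, sub_self, smul_zero,
        hf, sub_zero]
    have hgk : g.support.card ≤ k := by
      have h1 := Finset.card_le_card hsub
      rw [Finset.card_erase_of_mem hm] at h1
      omega
    have h3 := sat_add (ih g hgk hgd hgr) (sat_smul c hs)
    rwa [hg, sub_add_cancel] at h3

theorem one_le [Fintype A] {δ : A → ℕ} {u w : A} (huw : u ≠ w) (f : PX K A 3) (hd : Dg δ f)
    (hf : ren (mv u w) f = 0) (h0 : f ≠ 0) : 1 ≤ δ u ∧ 1 ≤ δ w := by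
  obtain ⟨m, hm⟩ := support_nonempty.2 h0
  obtain ⟨m', hm', hne, hmap⟩ := exists_pair f hf hm
  have he := eqv_of_mapDomain huw hmap
  have hu := hd m hm u
  have hu' := hd m' hm' u
  have hw := hd m hm w
  have hw' := hd m' hm' w
  rw [Fin.sum_univ_three] at hu hu' hw hw'
  have key : (∀ l, m (u, l) = m' (u, l)) → False := by
    intro h1
    apply hne
    ext ⟨x, l⟩
    by_cases hxu : x = u
    · subst hxu
      exact (h1 l).symm
    · by_cases hxw : x = w
      · subst hxw
        have h2 := he.on l
        rw [h1 l] at h2
        omega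
      · exact he.off x l hxu hxw
  constructor
  · by_contra hcon
    apply key
    intro l
    fin_cases l
    · show m (u, 0) = m' (u, 0)
      omega
    · show m (u, 1) = m' (u, 1)
      omega
    · show m (u, 2) = m' (u, 2)
      omega
  · by_contra hcon
    apply key
    have e0 := he.on 0
    have e1 := he.on 1
    have e2 := he.on 2
    intro l
    fin_cases l
    · show m (u, 0) = m' (u, 0)
      omega
    · show m (u, 1) = m' (u, 1)
      omega
    · show m (u, 2) = m' (u, 2)
      omega

end CRV

theorem CRV_thm : Stmt_CRV := by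
  intro K _ _ A _ _ δ u w f huw hd hf
  exact ⟨fun h0 => CRV.one_le huw f hd hf h0, CRV.sat_of_ren huw _ f le_rfl hd hf⟩

end Pool.Agent.VOP
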