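import Pool.Agent.VOP.StmtsW
import Pool.Agent.VOP.DG
import Pool.Agent.VOP.DIV

/-!
# The relations between the coordinates of `u × w` (MP_deb8da_ag)
-/

set_option autoImplicit false

namespace Pool.Agent.VOP

open MvPolynomial Pool.Agent.VSY

namespace CRX

variable {K : Type} [Field K] {A : Type}

theorem X_eq_lin (p : A) (i : Fin 3) :
    (X (p, i) : PX K A 3) = lin (Pi.single i 1) p := by
  unfold lin
  rw [Finset.sum_eq_single i]
  · rw [Pi.single_eq_same, C_1, one_mul]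
  · intro j _ hj
    rw [Pi.single_eq_of_ne hj, C_0, zero_mul]
  · intro h; exact absurd (Finset.mem_univ i) h

theorem single_ne_zero (i : Fin 3) : (Pi.single i 1 : Fin 3 → K) ≠ 0 := fun h => by
  have := congrFun h i
  rw [Pi.single_eq_same] at this
  exact one_ne_zero this

/-- `X a` divides `f` if `f` vanishes for `X a = X b = 0` modulo `X b`. -/
theorem mem_span_of_kill [DecidableEq A] (a b : A × Fin 3) (f : PX K A 3)
    (h : aeval (fun y => if y = a ∨ y = b then (0 : PX K A 3) else X y) f = 0) :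
    ∃ p q : PX K A 3, f = p * X a + q * X b := by
  set φ : PX K A 3 →ₐ[K] PX K A 3 :=
    aeval (fun y => if y = a ∨ y = b then (0 : PX K A 3) else X y) with hφ
  have key : ((Ideal.Quotient.mkₐ K (Ideal.span {(X a : PX K A 3), X b})).comp φ) =
      Ideal.Quotient.mkₐ K (Ideal.span {(X a : PX K A 3), X b}) := by
    apply MvPolynomial.algHom_ext
    intro y
    rw [AlgHom.comp_apply, hφ, aeval_X]
    split_ifs with hy
    · rw [map_zero, Ideal.Quotient.mkₐ_eq_mk]
      symm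
      rw [Ideal.Quotient.eq_zero_iff_mem]
      rcases hy with rfl | rfl
      · exact Ideal.subset_span (by simp)
      · exact Ideal.subset_span (by simp)
    · rfl
  have h1 := DFunLike.congr_fun key f
  rw [AlgHom.comp_apply, h, map_zero, Ideal.Quotient.mkₐ_eq_mk] at h1
  have h2 := Ideal.Quotient.eq_zero_iff_mem.1 h1.symm
  obtain ⟨p, q, hpq⟩ := Ideal.mem_span_pair.1 h2
  exact ⟨p, q, hpq.symm⟩

theorem X_ne {p q : A × Fin 3} (h : p ≠ q) : ¬ (X p : PX K A 3) ∣ X q := fun hd =>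
  h (X_dvd_X.1 hd)

/-- (F1): exactness at the second place. -/
theorem f1 [DecidableEq A] (u : A) (m0 m1 m2 : PX K A 3)
    (h : X (u, 0) * m0 + X (u, 1) * m1 + X (u, 2) * m2 = 0) :
    ∃ n0 n1 n2 : PX K A 3, m0 = X (u, 1) * n2 - X (u, 2) * n1 ∧
      m1 = X (u, 2) * n0 - X (u, 0) * n2 ∧ m2 = X (u, 0) * n1 - X (u, 1) * n0 := by
  have hk : aeval (fun y => if y = (u, (1 : Fin 3)) ∨ y = (u, 2) then (0 : PX K A 3) else X y)
      m0 = 0 := by
    have h1 := congrArg
      (aeval (fun y => if y = (u, (1 : Fin 3)) ∨ y = (u, 2) then (0 : PX K A 3) else X y)) h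
    rw [map_add, map_add, map_mul, map_mul, map_mul, aeval_X, aeval_X, aeval_X, if_neg,
      if_pos (Or.inl rfl), if_pos (Or.inr rfl), zero_mul, zero_mul, add_zero, add_zero,
      map_zero] at h1
    · exact (mul_eq_zero.1 h1).resolve_left (X_ne_zero _)
    · simp
  obtain ⟨p, q, hpq⟩ := mem_span_of_kill _ _ _ hk
  -- `n2 = p`, `n1 = -q`
  have h2 : X (u, 1) * (m1 + X (u, 0) * p) + X (u, 2) * (m2 - X (u, 0) * (-q)) = 0 := by
    rw [hpq] at h
    linear_combination h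
  have h3 : (X (u, 2) : PX K A 3) ∣ X (u, 1) * (m1 + X (u, 0) * p) :=
    ⟨-(m2 - X (u, 0) * (-q)), by linear_combination h2⟩
  obtain ⟨n0, hn0⟩ := (X_dvd_mul_iff.1 h3).resolve_left (X_ne (by simp))
  have h4 : X (u, 2) * (X (u, 1) * n0 + (m2 - X (u, 0) * (-q))) = 0 := by
    rw [hn0] at h2
    linear_combination h2
  have h5 := (mul_eq_zero.1 h4).resolve_left (X_ne_zero _)
  refine ⟨n0, -q, p, ?_, ?_, ?_⟩
  · rw [hpq]; ring
  · linear_combination hn0
  · linear_combination h5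

/-- (F2): exactness at the first place. -/
theorem f2 (w : A) (m0 m1 m2 : PX K A 3) (h0 : X (w, 1) * m2 = X (w, 2) * m1)
    (h1 : X (w, 2) * m0 = X (w, 0) * m2) (h2 : X (w, 0) * m1 = X (w, 1) * m0) :
    ∃ c : PX K A 3, m0 = X (w, 0) * c ∧ m1 = X (w, 1) * c ∧ m2 = X (w, 2) * c := by
  have h3 : (X (w, 0) : PX K A 3) ∣ X (w, 1) * m0 := ⟨m1, h2.symm⟩
  obtain ⟨c, hc⟩ := (X_dvd_mul_iff.1 h3).resolve_left (X_ne (by simp))
  refine ⟨c, hc, ?_, ?_⟩
  · apply mul_left_cancel₀ (X_ne_zero ((w, 0) : A × Fin 3))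
    rw [h2, hc]; ring
  · apply mul_left_cancel₀ (X_ne_zero ((w, 0) : A × Fin 3))
    rw [← h1, hc]; ring

section grading

variable [Fintype A] [DecidableEq A]

/-- Components. -/
noncomputable def cmp (ε : A → ℕ) (q : PX K A 3) : PX K A 3 :=
  weightedHomogeneousComponent (DIV.wt : A × Fin 3 → (A → ℕ)) ε q

theorem cmp_dg (ε : A → ℕ) (q : PX K A 3) : Dg ε (cmp ε q) :=
  (DIV.dg_iff ε _).2 (weightedHomogeneousComponent_isWeightedHomogeneous ε q)

theorem cmp_self {ε : A → ℕ} {q : PX K A 3} (h : Dg ε q) : cmp ε q = q :=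
  ((DIV.dg_iff ε _).1 h).weightedHomogeneousComponent_same

theorem cmp_mul (p : A) (i : Fin 3) (ε : A → ℕ) (q : PX K A 3) :
    cmp (Pi.single p 1 + ε) (X (p, i) * q) = X (p, i) * cmp ε q := by
  rw [X_eq_lin]; exact DIV.comp_mul _ p q ε

theorem cmp_sub (ε : A → ℕ) (p q : PX K A 3) : cmp ε (p - q) = cmp ε p - cmp ε q :=
  map_sub _ _ _

theorem cmp_zero {p : A} {i : Fin 3} {ε : A → ℕ} (h : ε p = 0) (q : PX K A 3) :
    cmp ε (X (p, i) * q) = 0 := by
  ext m
  unfold cmp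
  rw [coeff_weightedHomogeneousComponent, coeff_zero]
  split_ifs with hm
  · rw [coeff_X_mul', if_neg]
    intro hs
    have h1 : m (p, i) ≠ 0 := Finsupp.mem_support_iff.1 hs
    have h2 := congrFun hm p
    rw [DIV.weight_apply, h] at h2
    exact h1 ((Finset.sum_eq_zero_iff.1 h2) i (Finset.mem_univ i))
  · rfl

theorem dg_mul_X (p : A) (i : Fin 3) {δ : A → ℕ} {q : PX K A 3} (h : Dg δ q) :
    Dg (Pi.single p 1 + δ) (X (p, i) * q) := by
  rw [DIV.dg_iff, X_eq_lin]
  exact (DIV.lin_hom _ p).mul ((DIV.dg_iff _ _).1 h)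

theorem dg_sub {δ : A → ℕ} {p q : PX K A 3} (hp : Dg δ p) (hq : Dg δ q) : Dg δ (p - q) := by
  rw [DIV.dg_iff] at *
  exact hp.sub hq

theorem dg_add {δ : A → ℕ} {p q : PX K A 3} (hp : Dg δ p) (hq : Dg δ q) : Dg δ (p + q) := by
  rw [DIV.dg_iff] at *
  exact hp.add hq

theorem dg_zero (δ : A → ℕ) : Dg δ (0 : PX K A 3) := fun m hm => by simp at hm

theorem dg_neg {δ : A → ℕ} {p : PX K A 3} (hp : Dg δ p) : Dg δ (-p) := by
  have := dg_sub (dg_zero δ) hp
  rwa [zero_sub] at this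

/-- Degrees of a quotient by a variable. -/
theorem dg_div (hDIV : Stmt_DIV) {δ : A → ℕ} {p : A} {i : Fin 3} {q : PX K A 3}
    (h : Dg δ (X (p, i) * q)) : Dg (Function.update δ p (δ p - 1)) q ∧ (δ p = 0 → q = 0) := by
  obtain ⟨_, h1, h2, _⟩ := hDIV K A A 3 (Pi.single i 1) (single_ne_zero i)
  rw [X_eq_lin] at h
  by_cases hp : δ p = 0
  · have h3 := h2 δ p q hp h
    exact ⟨by rw [h3]; exact dg_zero _, fun _ => h3⟩
  · exact ⟨h1 δ p (δ p - 1) q (by omega) h, fun h => absurd h hp⟩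

/-- The claim, in coordinates. -/
theorem main (hDIV : Stmt_DIV) (u w : A) (huw : u ≠ w) : ∀ (n : ℕ) (δ : A → ℕ)
    (h0 h1 h2 : PX K A 3), δ u = n → Dg δ h0 → Dg δ h1 → Dg δ h2 →
    (X (u, 1) * X (w, 2) - X (u, 2) * X (w, 1)) * h0 +
      (X (u, 2) * X (w, 0) - X (u, 0) * X (w, 2)) * h1 +
      (X (u, 0) * X (w, 1) - X (u, 1) * X (w, 0)) * h2 = 0 →
    ∃ α β : PX K A 3, Dg (Function.update δ w (δ w - 1)) α ∧
      Dg (Function.update δ u (δ u - 1)) β ∧ (δ w = 0 → α = 0) ∧ (δ u = 0 → β = 0) ∧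
      h0 = α * X (w, 0) + β * X (u, 0) ∧ h1 = α * X (w, 1) + β * X (u, 1) ∧
      h2 = α * X (w, 2) + β * X (u, 2) := by
  intro n
  induction n with
  | zero =>
    intro δ h0 h1 h2 hδ d0 d1 d2 hdet
    -- `w × h = u × m`
    obtain ⟨m0, m1, m2, e0, e1, e2⟩ := f1 u (X (w, 1) * h2 - X (w, 2) * h1)
      (X (w, 2) * h0 - X (w, 0) * h2) (X (w, 0) * h1 - X (w, 1) * h0)
      (by linear_combination hdet)
    have hε : (Pi.single w 1 + δ : A → ℕ) u = 0 := by
      rw [Pi.add_apply, Pi.single_eq_of_ne huw, hδ]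
    have g0 : X (w, 1) * h2 - X (w, 2) * h1 = 0 := by
      rw [← cmp_self (dg_sub (dg_mul_X w 1 d2) (dg_mul_X w 2 d1)), e0, cmp_sub, cmp_zero hε,
        cmp_zero hε, sub_zero]
    have g1 : X (w, 2) * h0 - X (w, 0) * h2 = 0 := by
      rw [← cmp_self (dg_sub (dg_mul_X w 2 d0) (dg_mul_X w 0 d2)), e1, cmp_sub, cmp_zero hε,
        cmp_zero hε, sub_zero]
    have g2 : X (w, 0) * h1 - X (w, 1) * h0 = 0 := by
      rw [← cmp_self (dg_sub (dg_mul_X w 0 d1) (dg_mul_X w 1 d0)), e2, cmp_sub, cmp_zero hε,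
        cmp_zero hε, sub_zero]
    obtain ⟨c, c0, c1, c2⟩ := f2 w h0 h1 h2 (sub_eq_zero.1 g0) (sub_eq_zero.1 g1)
      (sub_eq_zero.1 g2)
    obtain ⟨hc1, hc2⟩ := dg_div hDIV (p := w) (i := 0) (q := c) (δ := δ) (by rw [← c0]; exact d0)
    refine ⟨c, 0, hc1, dg_zero _, hc2, fun _ => rfl, ?_, ?_, ?_⟩
    · rw [c0]; ring
    · rw [c1]; ring
    · rw [c2]; ring
  | succ n ih =>
    intro δ h0 h1 h2 hδ d0 d1 d2 hdet
    obtain ⟨m0, m1, m2, e0, e1, e2⟩ := f1 u (X (w, 1) * h2 - X (w, 2) * h1)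
      (X (w, 2) * h0 - X (w, 0) * h2) (X (w, 0) * h1 - X (w, 1) * h0)
      (by linear_combination hdet)
    -- the degrees of `m`
    set ε : A → ℕ := fun x => if x = u then n else if x = w then δ w + 1 else δ x with hε
    have hεδ : (Pi.single u 1 + ε : A → ℕ) = Pi.single w 1 + δ := by
      funext x
      rw [Pi.add_apply, Pi.add_apply]
      by_cases hx : x = u
      · subst hx
        rw [Pi.single_eq_same, Pi.single_eq_of_ne huw, hε]
        simp only [if_true, hδ]; omega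
      · by_cases hx' : x = w
        · subst hx'
          rw [Pi.single_eq_same, Pi.single_eq_of_ne hx, hε]
          simp only [hx, if_false, if_true]; omega
        · rw [Pi.single_eq_of_ne hx, Pi.single_eq_of_ne hx', hε]
          simp only [hx, hx', if_false]
    have hεu : ε u = n := by rw [hε]; simp
    have hεw : ε w = δ w + 1 := by rw [hε]; simp [huw.symm]
    set k0 := cmp ε m0
    set k1 := cmp ε m1
    set k2 := cmp ε m2
    have g0 : X (w, 1) * h2 - X (w, 2) * h1 = X (u, 1) * k2 - X (u, 2) * k1 := by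
      rw [← cmp_self (dg_sub (dg_mul_X w 1 d2) (dg_mul_X w 2 d1)), e0, cmp_sub, ← hεδ, cmp_mul,
        cmp_mul]
    have g1 : X (w, 2) * h0 - X (w, 0) * h2 = X (u, 2) * k0 - X (u, 0) * k2 := by
      rw [← cmp_self (dg_sub (dg_mul_X w 2 d0) (dg_mul_X w 0 d2)), e1, cmp_sub, ← hεδ, cmp_mul,
        cmp_mul]
    have g2 : X (w, 0) * h1 - X (w, 1) * h0 = X (u, 0) * k1 - X (u, 1) * k0 := by
      rw [← cmp_self (dg_sub (dg_mul_X w 0 d1) (dg_mul_X w 1 d0)), e2, cmp_sub, ← hεδ, cmp_mul,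
        cmp_mul]
    obtain ⟨α', β', a1, a2, a3, a4, b0, b1, b2⟩ := ih ε k0 k1 k2 hεu (cmp_dg _ _) (cmp_dg _ _)
      (cmp_dg _ _) (by
        linear_combination X (w, 0) * g0 + X (w, 1) * g1 + X (w, 2) * g2)
    have hδ' : Function.update ε w (ε w - 1) = Function.update δ u (δ u - 1) := by
      funext x
      by_cases hx : x = w
      · subst hx
        rw [Function.update_self, Function.update_of_ne huw.symm, hεw]; rfl
      · rw [Function.update_of_ne hx]
        by_cases hx' : x = u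
        · subst hx'
          rw [Function.update_self, hεu, hδ]; rfl
        · rw [Function.update_of_ne hx', hε]
          simp only [hx, hx', if_false]
    rw [hδ'] at a1
    have hup : (Pi.single u 1 + Function.update δ u (δ u - 1) : A → ℕ) = δ := by
      funext x
      rw [Pi.add_apply]
      by_cases hx : x = u
      · subst hx
        rw [Pi.single_eq_same, Function.update_self, hδ]; omega
      · rw [Pi.single_eq_of_ne hx, Function.update_of_ne hx, zero_add]
    have dα : ∀ i : Fin 3, Dg δ (X (u, i) * α') := fun i => by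
      have := dg_mul_X u i a1
      rwa [hup] at this
    obtain ⟨c, c0, c1, c2⟩ := f2 w (h0 + X (u, 0) * α') (h1 + X (u, 1) * α')
      (h2 + X (u, 2) * α')
      (by rw [b1, b2] at g0; linear_combination g0)
      (by rw [b0, b2] at g1; linear_combination g1)
      (by rw [b0, b1] at g2; linear_combination g2)
    obtain ⟨hc1, hc2⟩ := dg_div hDIV (p := w) (i := 0) (q := c) (δ := δ)
      (by rw [← c0]; exact dg_add d0 (dα 0))
    refine ⟨c, -α', hc1, dg_neg a1, hc2, fun h => by omega, ?_, ?_, ?_⟩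
    · linear_combination c0
    · linear_combination c1
    · linear_combination c2

end grading

end CRX

theorem CRX_thm : Stmt_CRX := by
  intro K _ _ A _ _ δ u w h huw hdg hdet
  have hDIV := DIV_thm DG_thm
  have e1 : ((1 : Fin 3) + 1) = 2 := rfl
  have e2 : ((1 : Fin 3) + 2) = 0 := rfl
  have e3 : ((2 : Fin 3) + 1) = 0 := rfl
  have e4 : ((2 : Fin 3) + 2) = 1 := rfl
  rw [Fin.sum_univ_three] at hdet
  simp only [cr, zero_add, e1, e2, e3, e4] at hdet
  obtain ⟨α, β, a1, a2, a3, a4, b0, b1, b2⟩ := CRX.main hDIV u w huw (δ u) δ (h 0) (h 1) (h 2)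
    rfl (hdg 0) (hdg 1) (hdg 2) hdet
  refine ⟨α, β, a1, a2, a3, a4, fun i => ?_⟩
  fin_cases i
  · exact b0
  · exact b1
  · exact b2

end Pool.Agent.VOP
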