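import Pool.Agent.VOP.StmtsH

/-!
# Construction of super polynomials from their components
-/

namespace Pool.Agent.VOP

open MvPolynomial Pool.Agent.VSY

namespace CSTH

variable {K : Type} [Field K] {A : Type} {v k : ℕ}

/-- The determinant form. -/
noncomputable def d0 (t : Fin k → A) (G : PX K A v) : SA K A v k :=
  (LinearMap.toSpanSingleton K (PX K A v) G).compAlternatingMap
    ((Matrix.detRowAlternating (n := Fin k) (R := K)).compLinearMap (LinearMap.funLeft K K t))

theorem d0_apply (t : Fin k → A) (G : PX K A v) (ξ : Fin k → A → K) :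
    d0 t G ξ = (Matrix.det (Matrix.of fun i j => ξ i (t j))) • G := rfl

theorem eval_sum {ι : Type} (s : Finset ι) (f : ι → SA K A v k) (ξ : Fin k → A → K) :
    (∑ i ∈ s, f i) ξ = ∑ i ∈ s, f i ξ :=
  map_sum (AddMonoidHom.mk' (fun c : SA K A v k => c ξ) (fun _ _ => rfl)) f s

variable [DecidableEq A]

theorem d0_sgl (t s : Fin k → A) (G : PX K A v) :
    d0 t G (sgl K s) = ∑ σ : Equiv.Perm (Fin k),
      if s ∘ σ = t then ((Equiv.Perm.sign σ : ℤˣ) : ℤ) • G else 0 := by
  rw [d0_apply, Matrix.det_apply, Finset.sum_smul]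
  refine Finset.sum_congr rfl fun σ _ => ?_
  split_ifs with h
  · have h1 : ∏ i, (Matrix.of fun i j => sgl K s i (t j)) (σ i) i = 1 := by
      refine Finset.prod_eq_one fun i _ => ?_
      rw [Matrix.of_apply, sgl, Pi.single_apply, if_pos (by rw [← h]; rfl)]
    rw [h1, Units.smul_def, smul_assoc, one_smul]
  · have h1 : ∏ i, (Matrix.of fun i j => sgl K s i (t j)) (σ i) i = 0 := by
      obtain ⟨i, hi⟩ := Function.ne_iff.1 h
      refine Finset.prod_eq_zero (Finset.mem_univ i) ?_
      rw [Matrix.of_apply, sgl, Pi.single_apply, if_neg (fun h2 => hi h2.symm)]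
    rw [h1, smul_zero, zero_smul]

end CSTH

theorem CST_thm : Stmt_CST := by
  intro K _ _ A _ _ v k Q y hQ hy _
  have hk : (k.factorial : K) ≠ 0 := Nat.cast_ne_zero.2 k.factorial_ne_zero
  have key : ∀ s : Fin k → A,
      (∑ t : Fin k → A, CSTH.d0 t ((k.factorial : K)⁻¹ • y t)) (sgl K s) =
        ∑ σ : Equiv.Perm (Fin k),
          ((Equiv.Perm.sign σ : ℤˣ) : ℤ) • ((k.factorial : K)⁻¹ • y (s ∘ σ)) := by
    intro s
    rw [CSTH.eval_sum]
    simp_rw [CSTH.d0_sgl]
    rw [Finset.sum_comm]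
    refine Finset.sum_congr rfl fun σ _ => ?_
    rw [Finset.sum_ite_eq, if_pos (Finset.mem_univ _)]
  refine ⟨∑ t : Fin k → A, CSTH.d0 t ((k.factorial : K)⁻¹ • y t), fun s => ?_, fun s => ?_⟩
  · rw [key]
    refine Submodule.sum_mem _ fun σ _ => ?_
    refine Submodule.smul_of_tower_mem _ _ (Submodule.smul_mem _ _ ?_)
    rw [← hQ s σ]
    exact hy _
  · rw [key, Finset.smul_sum]
    refine Finset.sum_congr rfl fun σ _ => ?_
    rw [smul_comm, smul_smul, mul_inv_cancel₀ hk, one_smul]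

end Pool.Agent.VOP
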