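import Pool.Agent.VOP.StmtsW
import Pool.Agent.VOP.DG

/-!
# Module D1F: a family which is glueable on the lines is glueable
-/

namespace Pool.Agent.VOP

open MvPolynomial Pool.Agent.VSY

namespace D1F

variable {K : Type} [Field K] {A : Type} [Fintype A] [DecidableEq A] {v : ℕ}

omit [Fintype A] in
theorem mv_self (u w : A) : mv u w u = w := Function.update_self _ _ _

omit [Fintype A] in
theorem mv_ne {u w a : A} (h : a ≠ u) : mv u w a = a := Function.update_of_ne h _ _

theorem dg_mv (δ : A → ℕ) {u w : A} (h : u ≠ w) {f : PX K A v} (hf : Dg δ f) :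
    Dg (Function.update (Function.update δ u 0) w (δ w + δ u)) (ren (mv u w) f) := by
  have h1 := DG.ren_push δ (mv u w) f hf
  have h2 : (fun b => ∑ a ∈ Finset.univ.filter (fun a => mv u w a = b), δ a) =
      Function.update (Function.update δ u 0) w (δ w + δ u) := by
    funext b
    rw [Finset.sum_filter, ← Finset.add_sum_erase Finset.univ _ (Finset.mem_univ u), mv_self]
    have h3 : ∑ a ∈ Finset.univ.erase u, (if mv u w a = b then δ a else 0) =
        ∑ a ∈ Finset.univ.erase u, (if a = b then δ a else 0) := by
      refine Finset.sum_congr rfl fun a ha => ?_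
      rw [mv_ne (Finset.ne_of_mem_erase ha)]
    rw [h3, Finset.sum_ite_eq']
    by_cases hb : b = w
    · subst hb
      rw [if_pos rfl, if_pos (Finset.mem_erase.2 ⟨h.symm, Finset.mem_univ _⟩),
        Function.update_self, add_comm]
    · rw [if_neg (Ne.symm hb), Function.update_of_ne hb, zero_add]
      by_cases hu : b = u
      · subst hu
        rw [if_neg (Finset.notMem_erase _ _), Function.update_self]
      · rw [if_pos (Finset.mem_erase.2 ⟨hu, Finset.mem_univ _⟩), Function.update_of_ne hu]
  rwa [h2] at h1

theorem dg_rn (δ : Option A → ℕ) (u : A) {f : PX K (Option A) v} (hf : Dg δ f) :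
    Dg (fun b => (if b = u then δ none else 0) + δ (some b)) (rn u f) := by
  have h1 := DG.ren_push δ (fun o : Option A => o.getD u) f hf
  have h2 : (fun b => ∑ a ∈ Finset.univ.filter (fun a : Option A => a.getD u = b), δ a) =
      fun b => (if b = u then δ none else 0) + δ (some b) := by
    funext b
    rw [Finset.sum_filter, Fintype.sum_option]
    simp only [Option.getD_none, Option.getD_some]
    rw [Finset.sum_ite_eq' Finset.univ b, if_pos (Finset.mem_univ _)]
    congr 1
    by_cases h : u = b
    · rw [if_pos h, if_pos h.symm]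
    · rw [if_neg h, if_neg (Ne.symm h)]
  rw [h2] at h1
  exact h1

omit [Fintype A] in
theorem mv_comm {u u' w : A} (hu : u ≠ w) (hu' : u' ≠ w) (f : PX K A v) :
    ren (mv u w) (ren (mv u' w) f) = ren (mv u' w) (ren (mv u w) f) := by
  rw [ren_ren, ren_ren]
  refine ren_congr (fun a => ?_) f
  simp only [Function.comp_apply]
  by_cases h1 : a = u
  · subst h1
    rw [mv_self, mv_ne hu'.symm]
    by_cases h2 : a = u'
    · subst h2
      rw [mv_self, mv_ne hu.symm]
    · rw [mv_ne h2, mv_self]
  · by_cases h2 : a = u'
    · subst h2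
      rw [mv_self, mv_ne h1, mv_self, mv_ne hu.symm]
    · rw [mv_ne h2, mv_ne h1, mv_ne h2]

end D1F

theorem D1F_thm (h1 : Stmt_STAR) (h2 : Stmt_LNV) : Stmt_D1F := by
  intro K _ _ A _ _ δ Λ w x hw hc1 hc2 hdg hcomp hglu
  induction Λ using Finset.induction_on with
  | empty =>
    refine ⟨0, DG.zero δ, fun u hu => ?_⟩
    exact absurd hu (Finset.notMem_empty u)
  | insert u₀ Λ' hu₀ ih =>
    have hcard : (insert u₀ Λ').card = Λ'.card + 1 := Finset.card_insert_of_notMem hu₀
    have hmem0 : u₀ ∈ insert u₀ Λ' := Finset.mem_insert_self _ _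
    have hmem : ∀ u ∈ Λ', u ∈ insert u₀ Λ' := fun u hu => Finset.mem_insert_of_mem hu
    have hw' : w ∉ Λ' := fun h => hw (hmem w h)
    have hne : ∀ u ∈ insert u₀ Λ', u ≠ w := fun u hu h => hw (h ▸ hu)
    have hu0w : u₀ ≠ w := hne u₀ hmem0
    have hneu : ∀ u ∈ Λ', u ≠ u₀ := fun u hu h => hu₀ (h ▸ hu)
    rw [hcard] at hc1 hc2
    obtain ⟨Y₀, hY0, hY0x⟩ := ih hw' (by omega)
      (fun u hu => by have := hc2 u (hmem u hu); omega) (fun u hu => hdg u (hmem u hu))
      (fun u hu u' hu' h => hcomp u (hmem u hu) u' (hmem u' hu') h)
      (fun y hy => by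
        obtain ⟨Y, hY, hd⟩ := hglu y hy
        exact ⟨Y, hY, fun u hu => hd u (hmem u hu)⟩)
    have hf : Dg (Function.update (Function.update δ u₀ 0) w (δ w + δ u₀))
        (x u₀ - ren (mv u₀ w) Y₀) :=
      DG.sub (hdg u₀ hmem0) (D1F.dg_mv δ hu0w hY0)
    have hcy : Cy Λ' w (x u₀ - ren (mv u₀ w) Y₀) := by
      intro u hu
      have e1 := hcomp u₀ hmem0 u (hmem u hu) (hneu u hu).symm
      rw [map_sub, e1, D1F.mv_comm (hne u (hmem u hu)) hu0w, hY0x u hu, sub_self]
    have hps : ∀ J, J ⊆ Λ' → δ w + 1 ≤ J.card →
        ps K (insert w J) (x u₀ - ren (mv u₀ w) Y₀) = 0 := by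
      intro J hJ hJc
      refine h2 K A δ J w u₀ _ (fun h => hw' (hJ h)) (fun h => hu₀ (hJ h)) hu0w hJc ?_
      intro y hy
      obtain ⟨Yy, hYy, hd⟩ := hglu y hy
      refine ⟨Yy - Y₀, DG.sub hYy hY0, fun u hu => ?_, ?_⟩
      · rw [map_sub, hY0x u (hJ hu)]
        exact hd u (hmem u (hJ hu))
      · have e : x u₀ - ren (mv u₀ w) Y₀ - ren (mv u₀ w) (Yy - Y₀) =
            -(ren (mv u₀ w) Yy - x u₀) := by
          rw [map_sub]
          ring
        rw [e]
        exact (dvd_neg).2 (hd u₀ hmem0)
    obtain ⟨Y', hY'd, hY'c, hY'r⟩ := h1 K A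
      (Function.update (Function.update δ u₀ 0) w (δ w + δ u₀)) Λ' w (δ u₀) (δ w)
      (x u₀ - ren (mv u₀ w) Y₀) hw' (by rw [Function.update_self, add_comm])
      (by have := hc2 u₀ hmem0; omega) (by omega) hf hcy hps
    refine ⟨Y₀ + rn u₀ Y', DG.add hY0 ?_, ?_⟩
    · have h3 := D1F.dg_rn _ u₀ hY'd
      have h4 : (fun b => (if b = u₀ then
          ext (Function.update (Function.update δ u₀ 0) w (δ w + δ u₀)) (δ u₀) w (δ w) none else 0) +
          ext (Function.update (Function.update δ u₀ 0) w (δ w + δ u₀)) (δ u₀) w (δ w) (some b)) =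
          δ := by
        funext b
        simp only [ext]
        by_cases hb : b = u₀
        · subst hb
          rw [if_pos rfl, if_neg hu0w, Function.update_of_ne hu0w, Function.update_self, add_zero]
        · rw [if_neg hb, zero_add]
          by_cases hbw : b = w
          · rw [if_pos hbw, hbw]
          · rw [if_neg hbw, Function.update_of_ne hbw, Function.update_of_ne hb]
      rw [h4] at h3
      exact h3
    · intro u hu
      rw [map_add]
      rcases Finset.mem_insert.1 hu with h | h
      · subst h
        have e1 : ren (mv u w) (rn u Y') = rn w Y' := by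
          show ren (mv u w) (ren (fun o : Option A => o.getD u) Y') =
            ren (fun o : Option A => o.getD w) Y'
          rw [ren_ren]
          refine DG.ren_eq _ _ _ Y' ?_ hY'd
          intro o ho
          cases o with
          | none =>
            simp only [Function.comp_apply, Option.getD_none]
            exact D1F.mv_self u w
          | some a =>
            simp only [Function.comp_apply, Option.getD_some]
            have ha : a ≠ u := by
              intro ha
              subst ha
              apply ho
              simp only [ext]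
              rw [if_neg hu0w, Function.update_of_ne hu0w, Function.update_self]
            exact D1F.mv_ne ha
        rw [e1, hY'r]
        ring
      · have huw : u ≠ w := hne u hu
        have hu0 : u ≠ u₀ := hneu u h
        have e1 : ren (mv u w) (rn u₀ Y') = 0 := by
          show ren (mv u w) (ren (fun o : Option A => o.getD u₀) Y') = 0
          have e2 : ren (mv u w) (ren (fun o : Option A => o.getD u₀) Y') =
              ren (fun o : Option A => o.getD u₀) (ren (mv (some u) (some w)) Y') := by
            rw [ren_ren, ren_ren]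
            refine ren_congr (fun o => ?_) Y'
            cases o with
            | none =>
              have e3 : mv (some u) (some w) none = none :=
                D1F.mv_ne (by simp)
              simp only [Function.comp_apply, Option.getD_none, e3]
              exact D1F.mv_ne hu0.symm
            | some a =>
              simp only [Function.comp_apply, Option.getD_some]
              by_cases ha : a = u
              · subst ha
                rw [D1F.mv_self, D1F.mv_self, Option.getD_some]
              · rw [D1F.mv_ne ha, D1F.mv_ne (fun h => ha (Option.some.inj h)), Option.getD_some]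
          rw [e2, hY'c u h, map_zero]
        rw [e1, add_zero, hY0x u h]

end Pool.Agent.VOP
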