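import Mathlib

/-!
# Koszul duality for the Veronese modules (MP_deb8da_ag), part 1: letters that act regularly

Koszul chains are functions on the finite sets of letters with values in the polynomials; all is
considered modulo the ideal of the polynomials whose monomials are divisible by some `X_j ^ d`,
`j ∈ P`. A letter that is a power `X_j ^ d`, `j ∉ P`, can be removed if `j` is put into `P`.
-/

namespace Pool.Agent.VOP.DK

open MvPolynomial

variable {K : Type} [Field K] {v N : ℕ}

/-- The sign of the insertion of `k` into `J`. -/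
noncomputable def sg (K : Type) [Field K] (v : ℕ) {N : ℕ} (J : Finset (Fin N)) (k : Fin N) :
    MvPolynomial (Fin v) K :=
  (-1) ^ (J.filter (fun c => c < k)).card

theorem sg_sq (J : Finset (Fin N)) (k : Fin N) : sg K v J k * sg K v J k = 1 := by
  unfold sg
  rw [← pow_add, ← two_mul, pow_mul, neg_one_sq, one_pow]

theorem card_filter_insert (J : Finset (Fin N)) {z k : Fin N} (hz : z ∉ J) :
    ((insert z J).filter (fun c => c < k)).card =
      (J.filter (fun c => c < k)).card + if z < k then 1 else 0 := by
  rw [Finset.filter_insert]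
  split_ifs with h
  · rw [Finset.card_insert_of_notMem]
    intro h'
    exact hz (Finset.mem_filter.1 h').1
  · rfl

theorem sg_swap {J : Finset (Fin N)} {z k : Fin N} (hz : z ∉ J) (hk : k ∉ J) (hzk : z ≠ k) :
    sg K v (insert z J) k * sg K v (insert k J) z = -(sg K v J k * sg K v J z) := by
  unfold sg
  rw [card_filter_insert J hz, card_filter_insert J hk]
  rcases lt_or_gt_of_ne hzk with h | h
  · rw [if_pos h, if_neg (not_lt_of_gt h), pow_succ]
    ring
  · rw [if_pos h, if_neg (not_lt_of_gt h), pow_succ]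
    ring

/-- The Koszul boundary with the letters in `T`, the letter `k` acting by `a k`. -/
noncomputable def bd (a : Fin N → MvPolynomial (Fin v) K) (T : Finset (Fin N))
    (f : Finset (Fin N) → MvPolynomial (Fin v) K) (J : Finset (Fin N)) :
    MvPolynomial (Fin v) K :=
  ∑ k ∈ T \ J, sg K v J k * a k * f (insert k J)

theorem bd_add (a : Fin N → MvPolynomial (Fin v) K) (T : Finset (Fin N))
    (f g : Finset (Fin N) → MvPolynomial (Fin v) K) (J : Finset (Fin N)) :
    bd a T (fun I => f I + g I) J = bd a T f J + bd a T g J := by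
  unfold bd
  rw [← Finset.sum_add_distrib]
  exact Finset.sum_congr rfl fun k _ => by ring

theorem bd_mul (a : Fin N → MvPolynomial (Fin v) K) (T : Finset (Fin N))
    (c : MvPolynomial (Fin v) K)
    (f : Finset (Fin N) → MvPolynomial (Fin v) K) (J : Finset (Fin N)) :
    bd a T (fun I => c * f I) J = c * bd a T f J := by
  unfold bd
  rw [Finset.mul_sum]
  exact Finset.sum_congr rfl fun k _ => by ring

theorem bd_neg (a : Fin N → MvPolynomial (Fin v) K) (T : Finset (Fin N))
    (f : Finset (Fin N) → MvPolynomial (Fin v) K) (J : Finset (Fin N)) :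
    bd a T (fun I => - f I) J = - bd a T f J := by
  unfold bd
  rw [← Finset.sum_neg_distrib]
  exact Finset.sum_congr rfl fun k _ => by ring

theorem bd_sub (a : Fin N → MvPolynomial (Fin v) K) (T : Finset (Fin N))
    (f g : Finset (Fin N) → MvPolynomial (Fin v) K) (J : Finset (Fin N)) :
    bd a T (fun I => f I - g I) J = bd a T f J - bd a T g J := by
  unfold bd
  rw [← Finset.sum_sub_distrib]
  exact Finset.sum_congr rfl fun k _ => by ring

theorem bd_congr (a : Fin N → MvPolynomial (Fin v) K) (T : Finset (Fin N))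
    {f g : Finset (Fin N) → MvPolynomial (Fin v) K} {J : Finset (Fin N)}
    (h : ∀ k ∈ T \ J, f (insert k J) = g (insert k J)) :
    bd a T f J = bd a T g J :=
  Finset.sum_congr rfl fun k hk => by rw [h k hk]

/-- The square of the boundary is zero. -/
theorem bd_bd (a : Fin N → MvPolynomial (Fin v) K) (T : Finset (Fin N))
    (f : Finset (Fin N) → MvPolynomial (Fin v) K) (J : Finset (Fin N)) :
    bd a T (bd a T f) J = 0 := by
  unfold bd
  simp only [Finset.mul_sum]
  rw [Finset.sum_sigma']
  refine Finset.sum_involution (fun x _ => ⟨x.2, x.1⟩) ?_ ?_ ?_ ?_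
  · rintro ⟨k, l⟩ h
    simp only [Finset.mem_sigma, Finset.mem_sdiff, Finset.mem_insert, not_or] at h
    obtain ⟨⟨h1, h2⟩, h3, h4, h5⟩ := h
    simp only
    rw [Finset.insert_comm l k J]
    have h6 := sg_swap (K := K) (v := v) h2 h5 (Ne.symm h4)
    have h7 := sg_sq (K := K) (v := v) (insert l J) k
    have h8 := sg_sq (K := K) (v := v) J l
    have h9 : sg K v J k * sg K v (insert k J) l = -(sg K v J l * sg K v (insert l J) k) := by
      calc sg K v J k * sg K v (insert k J) l
          = (sg K v J k * sg K v J l) * sg K v J l * sg K v (insert k J) l := by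
            linear_combination -(sg K v J k * sg K v (insert k J) l) * h8
        _ = -(sg K v (insert k J) l * sg K v (insert l J) k) * sg K v J l *
              sg K v (insert k J) l := by
            rw [h6]
            ring
        _ = -(sg K v J l * sg K v (insert l J) k) := by
            linear_combination -(sg K v J l * sg K v (insert l J) k) *
              sg_sq (K := K) (v := v) (insert k J) l
    linear_combination (a k * a l * f (insert k (insert l J))) * h9
  · rintro ⟨k, l⟩ h _ h'
    simp only [Finset.mem_sigma, Finset.mem_sdiff, Finset.mem_insert, not_or] at h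
    simp only [Sigma.mk.injEq] at h'
    exact h.2.2.1 h'.1
  · rintro ⟨k, l⟩ h
    simp only [Finset.mem_sigma, Finset.mem_sdiff, Finset.mem_insert, not_or] at h ⊢
    obtain ⟨⟨h1, h2⟩, h3, h4, h5⟩ := h
    exact ⟨⟨h3, h5⟩, h1, Ne.symm h4, h2⟩
  · rintro ⟨k, l⟩ h
    rfl

/-- Homogeneous of degree `r` (zero for `r < 0`). -/
def Hd (r : ℤ) (x : MvPolynomial (Fin v) K) : Prop :=
  ∀ m ∈ x.support, ((∑ j, m j : ℕ) : ℤ) = r

/-- Every monomial is divisible by some `X_j ^ d`, `j ∈ P`. -/
def InI (d : ℕ) (P : Finset (Fin v)) (x : MvPolynomial (Fin v) K) : Prop :=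
  ∀ m ∈ x.support, ∃ j ∈ P, d ≤ m j

theorem Hd.zero (r : ℤ) : Hd r (0 : MvPolynomial (Fin v) K) := by
  intro m hm
  simp at hm

theorem Hd.add {r : ℤ} {x y : MvPolynomial (Fin v) K} (hx : Hd r x) (hy : Hd r y) :
    Hd r (x + y) := by
  classical
  intro m hm
  rcases Finset.mem_union.1 (support_add hm) with h | h
  · exact hx m h
  · exact hy m h

theorem Hd.neg {r : ℤ} {x : MvPolynomial (Fin v) K} (hx : Hd r x) : Hd r (-x) := by
  intro m hm
  rw [MvPolynomial.support_neg] at hm
  exact hx m hm

theorem Hd.sub {r : ℤ} {x y : MvPolynomial (Fin v) K} (hx : Hd r x) (hy : Hd r y) :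
    Hd r (x - y) := by
  rw [sub_eq_add_neg]
  exact hx.add hy.neg

theorem Hd.mul {r s : ℤ} {x y : MvPolynomial (Fin v) K} (hx : Hd r x) (hy : Hd s y) :
    Hd (r + s) (x * y) := by
  classical
  intro m hm
  obtain ⟨m1, h1, m2, h2, rfl⟩ := Finset.mem_add.1 (support_mul x y hm)
  have e1 := hx m1 h1
  have e2 := hy m2 h2
  simp only [Finsupp.coe_add, Pi.add_apply]
  rw [Finset.sum_add_distrib]
  push_cast at e1 e2 ⊢
  omega

theorem Hd.sum {ι : Type} {r : ℤ} (s : Finset ι) {F : ι → MvPolynomial (Fin v) K}
    (h : ∀ i ∈ s, Hd r (F i)) : Hd r (∑ i ∈ s, F i) := by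
  classical
  induction s using Finset.induction_on with
  | empty => simpa using Hd.zero r
  | insert i s hi ih =>
    rw [Finset.sum_insert hi]
    exact (h i (Finset.mem_insert_self _ _)).add
      (ih fun j hj => h j (Finset.mem_insert_of_mem hj))

theorem Hd.one : Hd 0 (1 : MvPolynomial (Fin v) K) := by
  classical
  intro m hm
  have : m = 0 := by
    rw [mem_support_iff, coeff_one] at hm
    by_contra h
    exact hm (if_neg (Ne.symm h))
  subst this
  simp

theorem Hd.sg (J : Finset (Fin N)) (k : Fin N) : Hd 0 (sg K v J k) := by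
  unfold DK.sg
  rcases neg_one_pow_eq_or (MvPolynomial (Fin v) K) (J.filter (fun c => c < k)).card with h | h
  · rw [h]
    exact Hd.one
  · rw [h]
    exact Hd.one.neg

theorem Hd.smul {r : ℤ} {x y : MvPolynomial (Fin v) K} (hx : Hd 0 x) (hy : Hd r y) :
    Hd r (x * y) := by
  have := hx.mul hy
  rwa [zero_add] at this

theorem Hd.bd {a : Fin N → MvPolynomial (Fin v) K} {d : ℕ} (ha : ∀ k, Hd d (a k))
    (T : Finset (Fin N)) {r : ℤ} {f : Finset (Fin N) → MvPolynomial (Fin v) K}
    (hf : ∀ I, Hd r (f I)) (J : Finset (Fin N)) : Hd (r + d) (bd a T f J) := by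
  refine Hd.sum _ fun k _ => ?_
  have := ((Hd.sg (K := K) (v := v) J k).smul (ha k)).mul (hf (insert k J))
  rwa [add_comm] at this

theorem InI.zero (d : ℕ) (P : Finset (Fin v)) : InI d P (0 : MvPolynomial (Fin v) K) := by
  intro m hm
  simp at hm

theorem InI.add {d : ℕ} {P : Finset (Fin v)} {x y : MvPolynomial (Fin v) K} (hx : InI d P x)
    (hy : InI d P y) : InI d P (x + y) := by
  classical
  intro m hm
  rcases Finset.mem_union.1 (support_add hm) with h | h
  · exact hx m h
  · exact hy m h

theorem InI.neg {d : ℕ} {P : Finset (Fin v)} {x : MvPolynomial (Fin v) K} (hx : InI d P x) :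
    InI d P (-x) := by
  intro m hm
  rw [MvPolynomial.support_neg] at hm
  exact hx m hm

theorem InI.sub {d : ℕ} {P : Finset (Fin v)} {x y : MvPolynomial (Fin v) K} (hx : InI d P x)
    (hy : InI d P y) : InI d P (x - y) := by
  rw [sub_eq_add_neg]
  exact hx.add hy.neg

theorem InI.mul {d : ℕ} {P : Finset (Fin v)} (x : MvPolynomial (Fin v) K)
    {y : MvPolynomial (Fin v) K} (hy : InI d P y) : InI d P (x * y) := by
  classical
  intro m hm
  obtain ⟨m1, h1, m2, h2, rfl⟩ := Finset.mem_add.1 (support_mul x y hm)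
  obtain ⟨j, hj, h3⟩ := hy m2 h2
  exact ⟨j, hj, h3.trans (by simp)⟩

theorem InI.sum {ι : Type} {d : ℕ} {P : Finset (Fin v)} (s : Finset ι)
    {F : ι → MvPolynomial (Fin v) K} (h : ∀ i ∈ s, InI d P (F i)) : InI d P (∑ i ∈ s, F i) := by
  classical
  induction s using Finset.induction_on with
  | empty => simpa using InI.zero d P
  | insert i s hi ih =>
    rw [Finset.sum_insert hi]
    exact (h i (Finset.mem_insert_self _ _)).add
      (ih fun j hj => h j (Finset.mem_insert_of_mem hj))

theorem InI.mono {d : ℕ} {P Q : Finset (Fin v)} (h : P ⊆ Q) {x : MvPolynomial (Fin v) K}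
    (hx : InI d P x) : InI d Q x := fun m hm => by
  obtain ⟨j, hj, h1⟩ := hx m hm
  exact ⟨j, h hj, h1⟩

theorem InI_empty {d : ℕ} {x : MvPolynomial (Fin v) K} : InI d ∅ x ↔ x = 0 := by
  constructor
  · intro h
    by_contra h1
    obtain ⟨m, hm⟩ := MvPolynomial.support_nonempty.2 h1
    obtain ⟨j, hj, _⟩ := h m hm
    simp at hj
  · rintro rfl
    exact InI.zero _ _

theorem InI.bd {d : ℕ} {P : Finset (Fin v)} (a : Fin N → MvPolynomial (Fin v) K)
    (T : Finset (Fin N)) {f : Finset (Fin N) → MvPolynomial (Fin v) K} {J : Finset (Fin N)}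
    (hf : ∀ k ∈ T \ J, InI d P (f (insert k J))) : InI d P (bd a T f J) :=
  InI.sum _ fun k hk => InI.mul _ (hf k hk)

theorem InI.X_mul {d : ℕ} {P : Finset (Fin v)} {j : Fin v} (hj : j ∈ P)
    (y : MvPolynomial (Fin v) K) : InI d P (X j ^ d * y) := by
  classical
  rw [mul_comm]
  refine InI.mul _ ?_
  intro m hm
  rw [mem_support_iff, coeff_X_pow] at hm
  have : Finsupp.single j d = m := by
    by_contra h
    exact hm (if_neg h)
  subst this
  exact ⟨j, hj, by simp⟩

theorem coeff_X_pow_mul_add (j : Fin v) (d : ℕ) (x : MvPolynomial (Fin v) K) (m : Fin v →₀ ℕ) :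
    coeff (Finsupp.single j d + m) (X j ^ d * x) = coeff m x := by
  rw [X_pow_eq_monomial, coeff_monomial_mul, one_mul]

/-- `X_j ^ d` is a nonzerodivisor. -/
theorem InI.of_X_mul {d : ℕ} {P : Finset (Fin v)} {j : Fin v} (hj : j ∉ P)
    {x : MvPolynomial (Fin v) K} (h : InI d P (X j ^ d * x)) : InI d P x := by
  intro m hm
  have h1 : Finsupp.single j d + m ∈ (X j ^ d * x).support := by
    rw [mem_support_iff, coeff_X_pow_mul_add]
    exact mem_support_iff.1 hm
  obtain ⟨i, hi, h2⟩ := h _ h1
  refine ⟨i, hi, ?_⟩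
  have hij : j ≠ i := fun h => hj (h ▸ hi)
  rwa [Finsupp.add_apply, Finsupp.single_eq_of_ne' hij, zero_add] at h2

/-- Division by `X_j ^ d`. -/
theorem InI.div {d : ℕ} {P : Finset (Fin v)} {j : Fin v} {r : ℤ}
    {x : MvPolynomial (Fin v) K} (hx : Hd r x) (h : InI d (insert j P) x) :
    ∃ y, Hd (r - d) y ∧ InI d P (x - X j ^ d * y) := by
  classical
  refine ⟨∑ m ∈ x.support.filter (fun m => d ≤ m j), monomial (m - Finsupp.single j d) (coeff m x),
    Hd.sum _ fun m hm => ?_, ?_⟩
  · rw [Finset.mem_filter] at hm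
    intro m' hm'
    have h1 := support_monomial_subset hm'
    rw [Finset.mem_singleton] at h1
    subst h1
    have h2 := hx m hm.1
    have h3 : ∑ i, (m - Finsupp.single j d) i + d = ∑ i, m i := by
      rw [← Finset.add_sum_erase _ _ (Finset.mem_univ j),
        ← Finset.add_sum_erase _ (fun i => m i) (Finset.mem_univ j)]
      have h4 : ∑ i ∈ Finset.univ.erase j, (m - Finsupp.single j d) i =
          ∑ i ∈ Finset.univ.erase j, m i := by
        refine Finset.sum_congr rfl fun i hi => ?_
        rw [Finset.mem_erase] at hi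
        rw [Finsupp.tsub_apply, Finsupp.single_eq_of_ne hi.1, Nat.sub_zero]
      have h5 := hm.2
      rw [h4, Finsupp.tsub_apply, Finsupp.single_eq_same]
      omega
    push_cast at h2
    have h6 : ((∑ i, (m - Finsupp.single j d) i : ℕ) : ℤ) + d = ((∑ i, m i : ℕ) : ℤ) := by
      exact_mod_cast h3
    push_cast at h6 ⊢
    linarith
  · have e : x - X j ^ d * ∑ m ∈ x.support.filter (fun m => d ≤ m j),
        monomial (m - Finsupp.single j d) (coeff m x) =
        ∑ m ∈ x.support.filter (fun m => ¬ d ≤ m j), monomial m (coeff m x) := by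
      have hs : x = ∑ m ∈ x.support.filter (fun m => d ≤ m j), monomial m (coeff m x) +
          ∑ m ∈ x.support.filter (fun m => ¬ d ≤ m j), monomial m (coeff m x) := by
        rw [Finset.sum_filter_add_sum_filter_not]
        exact x.as_sum
      have hq : X j ^ d * ∑ m ∈ x.support.filter (fun m => d ≤ m j),
          monomial (m - Finsupp.single j d) (coeff m x) =
          ∑ m ∈ x.support.filter (fun m => d ≤ m j), monomial m (coeff m x) := by
        rw [Finset.mul_sum]
        refine Finset.sum_congr rfl fun m hm => ?_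
        rw [Finset.mem_filter] at hm
        have hm1 : Finsupp.single j d + (m - Finsupp.single j d) = m := by
          ext i
          rw [Finsupp.add_apply, Finsupp.tsub_apply, Finsupp.single_apply]
          split_ifs with hij
          · subst hij
            have := hm.2
            omega
          · simp
        rw [X_pow_eq_monomial, monomial_mul, one_mul, hm1]
      rw [hq]
      linear_combination hs
    rw [e]
    refine InI.sum _ fun m hm => ?_
    rw [Finset.mem_filter] at hm
    obtain ⟨i, hi, h1⟩ := h m hm.1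
    intro m' hm'
    have h2 := support_monomial_subset hm'
    rw [Finset.mem_singleton] at h2
    subst h2
    rcases Finset.mem_insert.1 hi with h3 | h3
    · subst h3
      exact absurd h1 hm.2
    · exact ⟨i, h3, h1⟩

end Pool.Agent.VOP.DK
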