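import Pool.Agent.VOP.DK1

/-!
# Koszul duality for the Veronese modules (MP_deb8da_ag), part 2: removing a regular letter
-/

namespace Pool.Agent.VOP.DK

open MvPolynomial

variable {K : Type} [Field K] {v N : ℕ}

/-- Exactness of the Koszul complex with the letters in `T` at the sets of `p` letters and the
polynomials of degree `r`, modulo the ideal given by `d` and `P`. -/
def Ex (a : Fin N → MvPolynomial (Fin v) K) (d : ℕ) (P : Finset (Fin v)) (T : Finset (Fin N))
    (p r : ℤ) : Prop :=
  ∀ f : Finset (Fin N) → MvPolynomial (Fin v) K, (∀ I, Hd r (f I)) →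
    (∀ I, ¬ (I ⊆ T ∧ (I.card : ℤ) = p) → f I = 0) →
    (∀ J, J ⊆ T → (J.card : ℤ) + 1 = p → InI d P (bd a T f J)) →
    ∃ g : Finset (Fin N) → MvPolynomial (Fin v) K, (∀ I, Hd (r - d) (g I)) ∧
      (∀ I, ¬ (I ⊆ T ∧ (I.card : ℤ) = p + 1) → g I = 0) ∧
      ∀ I, I ⊆ T → (I.card : ℤ) = p → InI d P (f I - bd a T g I)

/-- The chain on the letters `T ∪ z` with the components `f` (without `z`) and `g` (with `z`). -/
noncomputable def glue (_T : Finset (Fin N)) (z : Fin N)
    (f g : Finset (Fin N) → MvPolynomial (Fin v) K) (I : Finset (Fin N)) :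
    MvPolynomial (Fin v) K :=
  if z ∈ I then sg K v (I.erase z) z * g (I.erase z) else f I

/-- The component with `z`. -/
noncomputable def cz (z : Fin N) (f : Finset (Fin N) → MvPolynomial (Fin v) K)
    (J : Finset (Fin N)) : MvPolynomial (Fin v) K :=
  sg K v J z * f (insert z J)

theorem glue_of_notMem {T : Finset (Fin N)} {z : Fin N}
    (f g : Finset (Fin N) → MvPolynomial (Fin v) K) {I : Finset (Fin N)} (h : z ∉ I) :
    glue T z f g I = f I := if_neg h

theorem cz_glue {T : Finset (Fin N)} {z : Fin N}
    (f g : Finset (Fin N) → MvPolynomial (Fin v) K) {J : Finset (Fin N)} (h : z ∉ J) :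
    cz z (glue T z f g) J = g J := by
  unfold cz glue
  rw [if_pos (Finset.mem_insert_self _ _), Finset.erase_insert h, ← mul_assoc, sg_sq, one_mul]

theorem sdiff_insert_left {T J : Finset (Fin N)} {z : Fin N} (hJ : z ∉ J) :
    insert z T \ J = insert z (T \ J) := Finset.insert_sdiff_of_notMem _ hJ

/-- The boundary without `z`. -/
theorem bd_insert_zero (a : Fin N → MvPolynomial (Fin v) K) {T : Finset (Fin N)} {z : Fin N}
    (hz : z ∉ T) (f : Finset (Fin N) → MvPolynomial (Fin v) K) {J : Finset (Fin N)}
    (hJ : z ∉ J) :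
    bd a (insert z T) f J = a z * cz z f J + bd a T f J := by
  unfold bd cz
  rw [sdiff_insert_left hJ, Finset.sum_insert]
  · ring
  · intro h
    exact hz (Finset.mem_sdiff.1 h).1

/-- The boundary with `z`. -/
theorem cz_bd (a : Fin N → MvPolynomial (Fin v) K) {T : Finset (Fin N)} {z : Fin N}
    (hz : z ∉ T) (f : Finset (Fin N) → MvPolynomial (Fin v) K) {J : Finset (Fin N)}
    (hJ : z ∉ J) :
    cz z (bd a (insert z T) f) J = - bd a T (cz z f) J := by
  simp only [bd, cz]
  have e : insert z T \ insert z J = T \ J := by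
    ext x
    simp only [Finset.mem_sdiff, Finset.mem_insert, not_or]
    constructor
    · rintro ⟨h1 | h1, h2, h3⟩
      · exact absurd h1 h2
      · exact ⟨h1, h3⟩
    · rintro ⟨h1, h2⟩
      exact ⟨Or.inr h1, fun h => hz (h ▸ h1), h2⟩
  rw [e, Finset.mul_sum, ← Finset.sum_neg_distrib]
  refine Finset.sum_congr rfl fun k hk => ?_
  rw [Finset.mem_sdiff] at hk
  have hzk : z ≠ k := fun h => hz (h ▸ hk.1)
  have h1 := sg_swap (K := K) (v := v) hJ hk.2 hzk
  have h2 := sg_sq (K := K) (v := v) (insert k J) z
  have h3 := sg_sq (K := K) (v := v) J z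
  rw [Finset.insert_comm k z J]
  linear_combination (sg K v J z * a k * f (insert z (insert k J)) *
      sg K v (insert k J) z) * h1 - (sg K v J z * sg K v (insert z J) k * a k *
      f (insert z (insert k J))) * h2 - (sg K v J k * sg K v (insert k J) z * a k *
      f (insert z (insert k J))) * h3

/-- Removal of a regular letter. -/
theorem Ex.cone {a : Fin N → MvPolynomial (Fin v) K} {d : ℕ} (ha : ∀ k, Hd d (a k))
    {P : Finset (Fin v)} {T : Finset (Fin N)} {z : Fin N} (hz : z ∉ T) {j : Fin v} (hj : j ∉ P)
    (haz : a z = X j ^ d) {p r : ℤ} (h : Ex a d (insert j P) T p r) :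
    Ex a d P (insert z T) p r := by
  classical
  intro f hf hfs hfc
  have hsub : ∀ {I : Finset (Fin N)}, z ∉ I → I ⊆ insert z T → I ⊆ T := by
    intro I h1 h2 x hx
    rcases Finset.mem_insert.1 (h2 hx) with h3 | h3
    · exact absurd (h3 ▸ hx) h1
    · exact h3
  -- the first component
  obtain ⟨g0, hg0, hg0s, hg0c⟩ := h (fun I => if I ⊆ T ∧ (I.card : ℤ) = p then f I else 0)
    (fun I => by
      split_ifs
      · exact hf I
      · exact Hd.zero r)
    (fun I hI => if_neg hI)
    (fun J hJ hJc => by
      have hzJ : z ∉ J := fun h' => hz (hJ h')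
      have h1 := hfc J (hJ.trans (Finset.subset_insert _ _)) hJc
      rw [bd_insert_zero a hz f hzJ] at h1
      have h2 : bd a T (fun I => if I ⊆ T ∧ (I.card : ℤ) = p then f I else 0) J = bd a T f J := by
        refine bd_congr a T fun k hk => ?_
        rw [Finset.mem_sdiff] at hk
        rw [if_pos]
        exact ⟨Finset.insert_subset hk.1 hJ, by rw [Finset.card_insert_of_notMem hk.2]; push_cast; exact hJc⟩
      rw [h2]
      have h3 : bd a T f J = (a z * cz z f J + bd a T f J) - X j ^ d * cz z f J := by
        rw [haz]; ring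
      rw [h3]
      exact (h1.mono (Finset.subset_insert _ _)).sub (InI.X_mul (Finset.mem_insert_self _ _) _))
  -- division
  have hdiv : ∀ I : Finset (Fin N), ∃ y, Hd (r - d) y ∧ (I ⊆ T → (I.card : ℤ) = p →
      InI d P (f I - bd a T g0 I - X j ^ d * y)) ∧ (¬ (I ⊆ T ∧ (I.card : ℤ) = p) → y = 0) := by
    intro I
    by_cases hI : I ⊆ T ∧ (I.card : ℤ) = p
    · have h1 := hg0c I hI.1 hI.2
      rw [if_pos hI] at h1
      obtain ⟨y, hy1, hy2⟩ := InI.div ((hf I).sub (by
        have := Hd.bd ha T hg0 I
        rwa [sub_add_cancel] at this)) h1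
      exact ⟨y, hy1, fun _ _ => hy2, fun h' => absurd hI h'⟩
    · exact ⟨0, Hd.zero _, fun h1 h2 => absurd ⟨h1, h2⟩ hI, fun _ => rfl⟩
  choose g1 hg1 hg1c hg1s using hdiv
  refine ⟨glue T z g0 g1, fun I => ?_, fun I hI => ?_, fun I hI hIc => ?_⟩
  · unfold glue
    split_ifs
    · exact (Hd.sg _ _).smul (hg1 _)
    · exact hg0 I
  · unfold glue
    split_ifs with hzI
    · rw [hg1s, mul_zero]
      rintro ⟨h1, h2⟩
      apply hI
      constructor
      · rw [← Finset.insert_erase hzI]
        exact Finset.insert_subset_insert _ h1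
      · rw [← Finset.insert_erase hzI, Finset.card_insert_of_notMem (Finset.notMem_erase _ _)]
        push_cast
        omega
    · apply hg0s
      rintro ⟨h1, h2⟩
      exact hI ⟨h1.trans (Finset.subset_insert _ _), h2⟩
  · by_cases hzI : z ∈ I
    · -- the component with `z`
      obtain ⟨J, hzJ, rfl⟩ : ∃ J, z ∉ J ∧ insert z J = I :=
        ⟨I.erase z, Finset.notMem_erase _ _, Finset.insert_erase hzI⟩
      have hJT : J ⊆ T := hsub hzJ ((Finset.subset_insert _ _).trans hI)
      have hJc : (J.card : ℤ) + 1 = p := by
        rw [Finset.card_insert_of_notMem hzJ] at hIc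
        push_cast at hIc
        exact hIc
      have h1 := hfc J (hJT.trans (Finset.subset_insert _ _)) hJc
      rw [bd_insert_zero a hz f hzJ, haz] at h1
      -- `cz f = - bd g1` modulo the ideal
      have h2 : InI d P (cz z f J + bd a T g1 J) := by
        apply InI.of_X_mul hj
        have h3 : InI d P (bd a T (fun I => f I - bd a T g0 I - X j ^ d * g1 I) J) := by
          refine InI.bd a T fun k hk => ?_
          rw [Finset.mem_sdiff] at hk
          exact hg1c _ (Finset.insert_subset hk.1 hJT)
            (by rw [Finset.card_insert_of_notMem hk.2]; push_cast; exact hJc)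
        rw [bd_sub a T (fun I => f I - bd a T g0 I) (fun I => X j ^ d * g1 I),
          bd_sub a T f (bd a T g0), bd_bd, sub_zero, bd_mul] at h3
        have h4 : X j ^ d * (cz z f J + bd a T g1 J) =
            (X j ^ d * cz z f J + bd a T f J) - (bd a T f J - X j ^ d * bd a T g1 J) := by ring
        rw [h4]
        exact h1.sub h3
      have h5 : cz z (bd a (insert z T) (glue T z g0 g1)) J = - bd a T g1 J := by
        rw [cz_bd a hz _ hzJ]
        congr 1
        refine bd_congr a T fun k hk => ?_
        rw [Finset.mem_sdiff] at hk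
        exact cz_glue g0 g1 (by
          rw [Finset.mem_insert, not_or]
          exact ⟨fun h' => hz (h' ▸ hk.1), hzJ⟩)
      have h6 : f (insert z J) - bd a (insert z T) (glue T z g0 g1) (insert z J) =
          sg K v J z * (cz z f J + bd a T g1 J) := by
        have h7 : cz z (bd a (insert z T) (glue T z g0 g1)) J =
          sg K v J z * bd a (insert z T) (glue T z g0 g1) (insert z J) := rfl
        rw [h7] at h5
        have h8 : cz z f J = sg K v J z * f (insert z J) := rfl
        rw [h8]
        have h9 := sg_sq (K := K) (v := v) J z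
        linear_combination (bd a (insert z T) (glue T z g0 g1) (insert z J) -
          f (insert z J)) * h9 - sg K v J z * h5
      rw [h6]
      exact InI.mul _ h2
    · -- the component without `z`
      have hIT : I ⊆ T := hsub hzI hI
      rw [bd_insert_zero a hz _ hzI, cz_glue g0 g1 hzI, haz]
      have h1 : bd a T (glue T z g0 g1) I = bd a T g0 I := by
        refine bd_congr a T fun k hk => ?_
        rw [Finset.mem_sdiff] at hk
        refine glue_of_notMem g0 g1 ?_
        rw [Finset.mem_insert, not_or]
        exact ⟨fun h' => hz (h' ▸ hk.1), hzI⟩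
      rw [h1]
      have h2 := hg1c I hIT hIc
      have h3 : f I - (X j ^ d * g1 I + bd a T g0 I) = f I - bd a T g0 I - X j ^ d * g1 I := by
        ring
      rw [h3]
      exact h2

/-- The converse. -/
theorem Ex.of_cone {a : Fin N → MvPolynomial (Fin v) K} {d : ℕ} (ha : ∀ k, Hd d (a k))
    {P : Finset (Fin v)} {T : Finset (Fin N)} {z : Fin N} (hz : z ∉ T) {j : Fin v} (hj : j ∉ P)
    (haz : a z = X j ^ d) {p r : ℤ} (h : Ex a d P (insert z T) p r) :
    Ex a d (insert j P) T p r := by
  classical
  intro f hf hfs hfc
  -- the second component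
  have hdiv : ∀ J : Finset (Fin N), ∃ y, Hd r y ∧ (J ⊆ T → (J.card : ℤ) + 1 = p →
      InI d P (bd a T f J + X j ^ d * y)) ∧ (¬ (J ⊆ T ∧ (J.card : ℤ) + 1 = p) → y = 0) := by
    intro J
    by_cases hJ : J ⊆ T ∧ (J.card : ℤ) + 1 = p
    · obtain ⟨y, hy1, hy2⟩ := InI.div (Hd.bd ha T hf J) (hfc J hJ.1 hJ.2)
      rw [add_sub_cancel_right] at hy1
      refine ⟨-y, hy1.neg, fun _ _ => ?_, fun h' => absurd hJ h'⟩
      rw [mul_neg, ← sub_eq_add_neg]
      exact hy2
    · exact ⟨0, Hd.zero _, fun h1 h2 => absurd ⟨h1, h2⟩ hJ, fun _ => rfl⟩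
  choose f1 hf1 hf1c hf1s using hdiv
  obtain ⟨g, hg, hgs, hgc⟩ := h (glue T z f f1) (fun I => by
      unfold glue
      split_ifs
      · exact (Hd.sg _ _).smul (hf1 _)
      · exact hf I)
    (fun I hI => by
      unfold glue
      split_ifs with hzI
      · rw [hf1s, mul_zero]
        rintro ⟨h1, h2⟩
        apply hI
        constructor
        · rw [← Finset.insert_erase hzI]
          exact Finset.insert_subset_insert _ h1
        · rw [← Finset.insert_erase hzI, Finset.card_insert_of_notMem (Finset.notMem_erase _ _)]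
          push_cast
          exact h2
      · apply hfs
        rintro ⟨h1, h2⟩
        exact hI ⟨h1.trans (Finset.subset_insert _ _), h2⟩)
    (fun J hJ hJc => by
      by_cases hzJ : z ∈ J
      · obtain ⟨J', hzJ', rfl⟩ : ∃ J', z ∉ J' ∧ insert z J' = J :=
          ⟨J.erase z, Finset.notMem_erase _ _, Finset.insert_erase hzJ⟩
        have hJ'T : J' ⊆ T := by
          intro x hx
          rcases Finset.mem_insert.1 (hJ (Finset.mem_insert_of_mem hx)) with h3 | h3
          · exact absurd (h3 ▸ hx) hzJ'
          · exact h3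
        have hJ'c : (J'.card : ℤ) + 1 + 1 = p := by
          rw [Finset.card_insert_of_notMem hzJ'] at hJc
          push_cast at hJc
          exact hJc
        have h1 : InI d P (bd a T f1 J') := by
          apply InI.of_X_mul hj
          have h3 : InI d P (bd a T (fun I => bd a T f I + X j ^ d * f1 I) J') := by
            refine InI.bd a T fun k hk => ?_
            rw [Finset.mem_sdiff] at hk
            exact hf1c _ (Finset.insert_subset hk.1 hJ'T)
              (by rw [Finset.card_insert_of_notMem hk.2]; push_cast; exact hJ'c)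
          rwa [bd_add a T (bd a T f) (fun I => X j ^ d * f1 I), bd_bd, zero_add, bd_mul] at h3
        have h5 : cz z (bd a (insert z T) (glue T z f f1)) J' = - bd a T f1 J' := by
          rw [cz_bd a hz _ hzJ']
          congr 1
          refine bd_congr a T fun k hk => ?_
          rw [Finset.mem_sdiff] at hk
          exact cz_glue f f1 (by
            rw [Finset.mem_insert, not_or]
            exact ⟨fun h' => hz (h' ▸ hk.1), hzJ'⟩)
        have h6 : bd a (insert z T) (glue T z f f1) (insert z J') =
            sg K v J' z * (- bd a T f1 J') := by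
          rw [← h5]
          unfold cz
          rw [← mul_assoc, sg_sq, one_mul]
        rw [h6]
        exact InI.mul _ h1.neg
      · have hJT : J ⊆ T := by
          intro x hx
          rcases Finset.mem_insert.1 (hJ hx) with h3 | h3
          · exact absurd (h3 ▸ hx) hzJ
          · exact h3
        rw [bd_insert_zero a hz _ hzJ, cz_glue f f1 hzJ, haz]
        have h1 : bd a T (glue T z f f1) J = bd a T f J := by
          refine bd_congr a T fun k hk => ?_
          rw [Finset.mem_sdiff] at hk
          refine glue_of_notMem f f1 ?_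
          rw [Finset.mem_insert, not_or]
          exact ⟨fun h' => hz (h' ▸ hk.1), hzJ⟩
        rw [h1, add_comm]
        exact hf1c J hJT hJc)
  refine ⟨fun I => if I ⊆ T ∧ (I.card : ℤ) = p + 1 then g I else 0, fun I => ?_,
    fun I hI => if_neg hI, fun I hI hIc => ?_⟩
  · dsimp only
    split_ifs
    · exact hg I
    · exact Hd.zero _
  · have hzI : z ∉ I := fun h' => hz (hI h')
    have h1 := hgc I (hI.trans (Finset.subset_insert _ _)) hIc
    rw [bd_insert_zero a hz _ hzI, glue_of_notMem f f1 hzI, haz] at h1
    have h2 : bd a T (fun I => if I ⊆ T ∧ (I.card : ℤ) = p + 1 then g I else 0) I =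
        bd a T g I := by
      refine bd_congr a T fun k hk => ?_
      rw [Finset.mem_sdiff] at hk
      rw [if_pos]
      exact ⟨Finset.insert_subset hk.1 hI,
        by rw [Finset.card_insert_of_notMem hk.2]; push_cast; rw [hIc]⟩
    rw [h2]
    have h3 : f I - bd a T g I = (f I - (X j ^ d * cz z g I + bd a T g I)) +
        X j ^ d * cz z g I := by ring
    rw [h3]
    exact (h1.mono (Finset.subset_insert _ _)).add (InI.X_mul (Finset.mem_insert_self _ _) _)

/-- Removal of the pure powers with `j ∈ P`. -/
theorem Ex_iff {a : Fin N → MvPolynomial (Fin v) K} {d : ℕ} (ha : ∀ k, Hd d (a k))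
    {w : Fin v → Fin N} (hw : Function.Injective w) (haw : ∀ j, a (w j) = X j ^ d)
    (P : Finset (Fin v)) (p r : ℤ) :
    Ex a d ∅ Finset.univ p r ↔ Ex a d P (Finset.univ \ P.image w) p r := by
  classical
  induction P using Finset.induction_on with
  | empty => rw [Finset.image_empty, Finset.sdiff_empty]
  | insert j P hj ih =>
    have e : Finset.univ \ P.image w = insert (w j) (Finset.univ \ (insert j P).image w) := by
      ext x
      simp only [Finset.mem_sdiff, Finset.mem_univ, true_and, Finset.mem_image,
        Finset.mem_insert, not_exists, not_and]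
      constructor
      · intro h1
        by_cases h2 : x = w j
        · exact Or.inl h2
        · refine Or.inr fun i hi h3 => ?_
          rcases hi with rfl | hi
          · exact h2 h3.symm
          · exact h1 i hi h3
      · rintro (rfl | h1) i hi h2
        · exact hj (hw h2 ▸ hi)
        · exact h1 i (Or.inr hi) h2
    have hn : w j ∉ Finset.univ \ (insert j P).image w := by
      simp only [Finset.mem_sdiff, Finset.mem_univ, true_and, not_not]
      exact Finset.mem_image_of_mem _ (Finset.mem_insert_self _ _)
    rw [ih, e]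
    exact ⟨fun h => h.of_cone ha hn hj (haw j), fun h => Ex.cone ha hn hj (haw j) h⟩

end Pool.Agent.VOP.DK
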