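import Mathlib

/-!
# Koszul duality for the Veronese modules (MP_deb8da_ag), part 3: the combinatorial duality

The Koszul complex of the truncated polynomials `K[X]/(X_j ^ d)` with monomials as letters is given
by a matrix with entries `0, 1, -1`; the complement of the sets of letters and of the exponents
changes this matrix into its transpose.
-/

namespace Pool.Agent.VOP.DK

variable {K : Type} [Field K] {v N d : ℕ}

/-- Sets of letters and exponents `< d`. -/
abbrev Y (N v d : ℕ) : Type := Finset (Fin N) × (Fin v → Fin d)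

/-- The pairs with `p` letters of `T` and the degree `r`. -/
def XX (T : Finset (Fin N)) (p r : ℤ) (y : Y N v d) : Prop :=
  y.1 ⊆ T ∧ (y.1.card : ℤ) = p ∧ ∑ j, ((y.2 j : ℕ) : ℤ) = r

/-- The letter `k` leads from `y'` to `y`. -/
def Lk (α : Fin N → Fin v → ℕ) (k : Fin N) (y y' : Y N v d) : Prop :=
  k ∉ y.1 ∧ y'.1 = insert k y.1 ∧ ∀ j, (y.2 j : ℕ) = y'.2 j + α k j

/-- The sign. -/
def sk (K : Type) [Field K] {N : ℕ} (J : Finset (Fin N)) (k : Fin N) : K :=
  (-1) ^ (J.filter (fun c => c < k)).card

open Classical in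
/-- The entries of the matrix. -/
noncomputable def cc (K : Type) [Field K] (α : Fin N → Fin v → ℕ) (T : Finset (Fin N))
    (y y' : Y N v d) : K :=
  ∑ k ∈ T, if Lk α k y y' then sk K y.1 k else 0

theorem cc_ne {α : Fin N → Fin v → ℕ} {T : Finset (Fin N)} {y y' : Y N v d}
    (h : cc K α T y y' ≠ 0) : ∃ k ∈ T, Lk α k y y' := by
  classical
  by_contra h1
  push Not at h1
  exact h (Finset.sum_eq_zero fun k hk => if_neg (h1 k hk))

theorem cc_XX {α : Fin N → Fin v → ℕ} (hα : ∀ k, ∑ j, α k j = d) {T : Finset (Fin N)}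
    {y y' : Y N v d} (h : cc K α T y y' ≠ 0) (p r : ℤ) :
    XX T (p - 1) (r + d) y ↔ XX T p r y' := by
  obtain ⟨k, hk, h1, h2, h3⟩ := cc_ne h
  have e1 : (y'.1.card : ℤ) = y.1.card + 1 := by
    rw [h2, Finset.card_insert_of_notMem h1]
    push_cast
    rfl
  have e2 : ∑ j, ((y.2 j : ℕ) : ℤ) = ∑ j, ((y'.2 j : ℕ) : ℤ) + d := by
    have hd : (d : ℤ) = ∑ j, (α k j : ℤ) := by exact_mod_cast (hα k).symm
    calc ∑ j, ((y.2 j : ℕ) : ℤ) = ∑ j, (((y'.2 j : ℕ) : ℤ) + α k j) :=
          Finset.sum_congr rfl fun j _ => by exact_mod_cast h3 j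
      _ = ∑ j, ((y'.2 j : ℕ) : ℤ) + d := by rw [Finset.sum_add_distrib, ← hd]
  have e3 : y'.1 ⊆ T ↔ y.1 ⊆ T := by
    rw [h2, Finset.insert_subset_iff]
    exact ⟨fun h => h.2, fun h => ⟨hk, h⟩⟩
  unfold XX
  rw [e1, e2, e3]
  constructor
  · rintro ⟨h4, h5, h6⟩
    exact ⟨h4, by omega, by omega⟩
  · rintro ⟨h4, h5, h6⟩
    exact ⟨h4, by omega, by omega⟩

theorem cc_sub {α : Fin N → Fin v → ℕ} {T : Finset (Fin N)} {y y' : Y N v d}
    (h : cc K α T y y' ≠ 0) : y.1 ⊆ T ↔ y'.1 ⊆ T := by
  obtain ⟨k, hk, h1, h2, h3⟩ := cc_ne h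
  rw [h2, Finset.insert_subset_iff]
  exact ⟨fun h => ⟨hk, h⟩, fun h => h.2⟩

/-- Exactness in terms of the matrix. -/
def MEx (K : Type) [Field K] (α : Fin N → Fin v → ℕ) (d : ℕ) (T : Finset (Fin N)) (p r : ℤ) :
    Prop :=
  ∀ x : Y N v d → K, (∀ y, ¬ XX T p r y → x y = 0) → (∀ y, ∑ y', cc K α T y y' * x y' = 0) →
    ∃ z : Y N v d → K, (∀ y, ¬ XX T (p + 1) (r - d) y → z y = 0) ∧
      ∀ y, ∑ y', cc K α T y y' * z y' = x y

/-- Exactness of the transposed complex. -/
theorem MEx.transpose {α : Fin N → Fin v → ℕ} (hα : ∀ k, ∑ j, α k j = d) {T : Finset (Fin N)}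
    {p r : ℤ} (h : MEx K α d T p r) (u : Y N v d → K) (hu : ∀ y, ¬ XX T p r y → u y = 0)
    (hc : ∀ y', ∑ y, cc K α T y y' * u y = 0) :
    ∃ t : Y N v d → K, (∀ y, ¬ XX T (p - 1) (r + d) y → t y = 0) ∧
      ∀ y', ∑ y, cc K α T y y' * t y = u y' := by
  classical
  let A : (Y N v d → K) →ₗ[K] (Y N v d → K) :=
    { toFun := fun x y => ∑ y', cc K α T y y' * x y'
      map_add' := fun x z => by
        funext y
        simp only [Pi.add_apply, mul_add, Finset.sum_add_distrib]
      map_smul' := fun c x => by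
        funext y
        simp only [Pi.smul_apply, smul_eq_mul, RingHom.id_apply, Finset.mul_sum]
        exact Finset.sum_congr rfl fun y' _ => by ring }
  let φ : (Y N v d → K) →ₗ[K] K :=
    { toFun := fun x => ∑ y, u y * x y
      map_add' := fun x z => by
        simp only [Pi.add_apply, mul_add, Finset.sum_add_distrib]
      map_smul' := fun c x => by
        simp only [Pi.smul_apply, smul_eq_mul, RingHom.id_apply, Finset.mul_sum]
        exact Finset.sum_congr rfl fun y' _ => by ring }
  have hker : LinearMap.ker A ≤ LinearMap.ker φ := by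
    intro x hx
    rw [LinearMap.mem_ker] at hx ⊢
    have hx' : ∀ y, ∑ y', cc K α T y y' * x y' = 0 := fun y => congrFun hx y
    -- the component of `x`
    obtain ⟨z, hz, hz'⟩ := h (fun y => if XX T p r y then x y else 0) (fun y hy => if_neg hy)
      (fun y => by
        by_cases hy : XX T (p - 1) (r + d) y
        · rw [← hx' y]
          refine Finset.sum_congr rfl fun y' _ => ?_
          by_cases h0 : cc K α T y y' = 0
          · rw [h0, zero_mul, zero_mul]
          · rw [if_pos ((cc_XX hα h0 p r).1 hy)]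
        · refine Finset.sum_eq_zero fun y' _ => ?_
          by_cases h0 : cc K α T y y' = 0
          · rw [h0, zero_mul]
          · rw [if_neg fun h' => hy ((cc_XX hα h0 p r).2 h'), mul_zero])
    change ∑ y, u y * x y = 0
    have e1 : ∀ y, u y * x y = u y * ∑ y', cc K α T y y' * z y' := by
      intro y
      rw [hz']
      split_ifs with hy
      · rfl
      · rw [hu y hy, zero_mul, zero_mul]
    simp only [e1, Finset.mul_sum]
    rw [Finset.sum_comm]
    refine Finset.sum_eq_zero fun y' _ => ?_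
    have e2 : ∑ y, u y * (cc K α T y y' * z y') = (∑ y, cc K α T y y' * u y) * z y' := by
      rw [Finset.sum_mul]
      exact Finset.sum_congr rfl fun y _ => by ring
    rw [e2, hc, zero_mul]
  obtain ⟨ψ, hψ⟩ : ∃ ψ : (Y N v d → K) →ₗ[K] K, ψ ∘ₗ A = φ := by
    have h1 : φ ∈ LinearMap.range A.dualMap := by
      rw [LinearMap.range_dualMap_eq_dualAnnihilator_ker, Submodule.mem_dualAnnihilator]
      intro x hx
      exact hker hx
    obtain ⟨ψ, hψ⟩ := h1
    exact ⟨ψ, hψ⟩
  have hφ : ∀ y', ∑ y, cc K α T y y' * ψ (Pi.single y 1) = u y' := by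
    intro y'
    have h1 : φ (Pi.single y' 1) = u y' := by
      change ∑ y, u y * (Pi.single y' (1 : K) : Y N v d → K) y = u y'
      rw [Finset.sum_eq_single y']
      · rw [Pi.single_eq_same, mul_one]
      · intro y _ hy
        rw [Pi.single_eq_of_ne hy, mul_zero]
      · intro h'
        exact absurd (Finset.mem_univ _) h'
    rw [← h1, ← hψ, LinearMap.comp_apply]
    have h2 : A (Pi.single y' 1) = ∑ y, cc K α T y y' • (Pi.single y (1 : K) : Y N v d → K) := by
      funext y
      have h3 : A (Pi.single y' 1) y = cc K α T y y' := by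
        change ∑ y'', cc K α T y y'' * (Pi.single y' (1 : K) : Y N v d → K) y'' = _
        rw [Finset.sum_eq_single y']
        · rw [Pi.single_eq_same, mul_one]
        · intro y'' _ hy
          rw [Pi.single_eq_of_ne hy, mul_zero]
        · intro h'
          exact absurd (Finset.mem_univ _) h'
      rw [h3, Finset.sum_apply, Finset.sum_eq_single y]
      · rw [Pi.smul_apply, Pi.single_eq_same, smul_eq_mul, mul_one]
      · intro y'' _ hy
        rw [Pi.smul_apply, Pi.single_eq_of_ne (Ne.symm hy), smul_zero]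
      · intro h'
        exact absurd (Finset.mem_univ _) h'
    rw [h2, map_sum]
    exact Finset.sum_congr rfl fun y _ => by rw [map_smul, smul_eq_mul]
  refine ⟨fun y => if XX T (p - 1) (r + d) y then ψ (Pi.single y 1) else 0,
    fun y hy => if_neg hy, fun y' => ?_⟩
  by_cases hy' : XX T p r y'
  · rw [← hφ y']
    refine Finset.sum_congr rfl fun y _ => ?_
    by_cases h0 : cc K α T y y' = 0
    · rw [h0, zero_mul, zero_mul]
    · dsimp only
      rw [if_pos ((cc_XX hα h0 p r).2 hy')]
  · rw [hu y' hy']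
    refine Finset.sum_eq_zero fun y _ => ?_
    by_cases h0 : cc K α T y y' = 0
    · rw [h0, zero_mul]
    · dsimp only
      rw [if_neg fun h' => hy' ((cc_XX hα h0 p r).1 h'), mul_zero]

/-! ### Complements -/

/-- The complement. -/
def th (T : Finset (Fin N)) (y : Y N v d) : Y N v d := (T \ y.1, fun j => (y.2 j).rev)

theorem th_th {T : Finset (Fin N)} {y : Y N v d} (h : y.1 ⊆ T) : th T (th T y) = y := by
  unfold th
  ext1
  · simp only
    rw [Finset.sdiff_sdiff_eq_self h]
  · simp only [Fin.rev_rev]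

theorem th_sub (T : Finset (Fin N)) (y : Y N v d) : (th T y).1 ⊆ T := Finset.sdiff_subset

theorem th_XX {T : Finset (Fin N)} {y : Y N v d} (h : y.1 ⊆ T) (p r : ℤ) :
    XX T (T.card - p) (v * (d - 1) - r) (th T y) ↔ XX T p r y := by
  unfold XX th
  simp only
  have e1 : ((T \ y.1).card : ℤ) = T.card - y.1.card := by
    rw [Finset.card_sdiff_of_subset h, Nat.cast_sub (Finset.card_le_card h)]
  have e2 : ∑ j, (((y.2 j).rev : ℕ) : ℤ) = v * (d - 1) - ∑ j, ((y.2 j : ℕ) : ℤ) := by
    have h1 : ∀ j, (((y.2 j).rev : ℕ) : ℤ) = (d - 1) - ((y.2 j : ℕ) : ℤ) := by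
      intro j
      rw [Fin.val_rev]
      have := (y.2 j).2
      omega
    rw [Finset.sum_congr rfl fun j _ => h1 j, Finset.sum_sub_distrib, Finset.sum_const,
      Finset.card_univ, Fintype.card_fin, nsmul_eq_mul]
  rw [e1, e2]
  constructor
  · rintro ⟨-, h2, h3⟩
    exact ⟨h, by omega, by omega⟩
  · rintro ⟨-, h2, h3⟩
    exact ⟨Finset.sdiff_subset, by omega, by omega⟩

/-- The sign of a set of letters. -/
def sn (K : Type) [Field K] (T I : Finset (Fin N)) : K := ∏ i ∈ I, sk K T i

theorem sk_sq (T : Finset (Fin N)) (i : Fin N) : sk K T i * sk K T i = 1 := by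
  unfold sk
  rw [← pow_add, ← two_mul, pow_mul, neg_one_sq, one_pow]

theorem sn_sq (T I : Finset (Fin N)) : sn K T I * sn K T I = 1 := by
  unfold sn
  rw [← Finset.prod_mul_distrib]
  exact Finset.prod_eq_one fun i _ => sk_sq T i

theorem Lk_th {α : Fin N → Fin v → ℕ} {T : Finset (Fin N)} {y y' : Y N v d} (h : y.1 ⊆ T)
    (h' : y'.1 ⊆ T) {k : Fin N} (hk : k ∈ T) :
    Lk α k (th T y') (th T y) ↔ Lk α k y y' := by
  unfold Lk th
  simp only
  have e1 : (∀ j, (((y'.2 j).rev : Fin d) : ℕ) = ((y.2 j).rev : Fin d) + α k j) ↔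
      ∀ j, (y.2 j : ℕ) = y'.2 j + α k j := by
    refine forall_congr' fun j => ?_
    rw [Fin.val_rev, Fin.val_rev]
    have h1 := (y.2 j).2
    have h2 := (y'.2 j).2
    omega
  rw [e1]
  constructor
  · rintro ⟨h1, h2, h3⟩
    have hk' : k ∈ y'.1 := by
      by_contra h4
      exact h1 (Finset.mem_sdiff.2 ⟨hk, h4⟩)
    have hky : k ∉ y.1 := by
      have : k ∈ T \ y.1 := by
        rw [h2]
        exact Finset.mem_insert_self _ _
      exact (Finset.mem_sdiff.1 this).2
    refine ⟨hky, ?_, h3⟩
    ext x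
    rw [Finset.mem_insert]
    have h4 : x ∈ T \ y.1 ↔ x ∈ insert k (T \ y'.1) := by rw [h2]
    rw [Finset.mem_insert, Finset.mem_sdiff, Finset.mem_sdiff] at h4
    constructor
    · intro hx
      by_contra h5
      push Not at h5
      rcases h4.1 ⟨h' hx, h5.2⟩ with h6 | h6
      · exact h5.1 h6
      · exact h6.2 hx
    · rintro (rfl | hx)
      · exact hk'
      · by_contra h5
        exact (h4.2 (Or.inr ⟨h hx, h5⟩)).2 hx
  · rintro ⟨h1, h2, h3⟩
    refine ⟨?_, ?_, h3⟩
    · rw [h2, Finset.mem_sdiff, not_and, not_not]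
      exact fun _ => Finset.mem_insert_self _ _
    · rw [h2]
      ext x
      simp only [Finset.mem_insert, Finset.mem_sdiff, not_or]
      constructor
      · rintro ⟨h4, h5⟩
        by_cases hxk : x = k
        · exact Or.inl hxk
        · exact Or.inr ⟨h4, hxk, h5⟩
      · rintro (rfl | ⟨h4, h5, h6⟩)
        · exact ⟨hk, h1⟩
        · exact ⟨h4, h6⟩

theorem cc_th {α : Fin N → Fin v → ℕ} {T : Finset (Fin N)} {y y' : Y N v d} (h : y.1 ⊆ T)
    (h' : y'.1 ⊆ T) :
    cc K α T (th T y') (th T y) = sn K T y.1 * sn K T y'.1 * cc K α T y y' := by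
  classical
  unfold cc
  rw [Finset.mul_sum]
  refine Finset.sum_congr rfl fun k hk => ?_
  by_cases hL : Lk α k y y'
  · rw [if_pos hL, if_pos ((Lk_th h h' hk).2 hL)]
    obtain ⟨h1, h2, h3⟩ := hL
    have e1 : sn K T y'.1 = sk K T k * sn K T y.1 := by
      unfold sn
      rw [h2, Finset.prod_insert h1]
    have e2 : sk K (th T y').1 k * sk K y.1 k = sk K T k := by
      unfold sk th
      simp only
      rw [← pow_add, ← Finset.card_union_of_disjoint]
      · congr 2
        rw [← Finset.filter_union, h2]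
        ext x
        simp only [Finset.mem_filter, Finset.mem_union, Finset.mem_sdiff, Finset.mem_insert,
          not_or]
        constructor
        · rintro ⟨h4 | h4, h5⟩
          · exact ⟨h4.1, h5⟩
          · exact ⟨h h4, h5⟩
        · rintro ⟨h4, h5⟩
          refine ⟨?_, h5⟩
          by_cases hx : x ∈ y.1
          · exact Or.inr hx
          · exact Or.inl ⟨h4, ne_of_lt h5, hx⟩
      · rw [Finset.disjoint_left]
        intro x hx hx'
        rw [Finset.mem_filter] at hx hx'
        have h4 := (Finset.mem_sdiff.1 hx.1).2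
        rw [h2] at h4
        exact h4 (Finset.mem_insert_of_mem hx'.1)
    rw [e1]
    have e3 := sk_sq (K := K) y.1 k
    have e4 := sn_sq (K := K) T y.1
    calc sk K (th T y').1 k = (sk K (th T y').1 k * sk K y.1 k) * sk K y.1 k := by
          rw [mul_assoc, e3, mul_one]
      _ = sk K T k * sk K y.1 k := by rw [e2]
      _ = sn K T y.1 * (sk K T k * sn K T y.1) * sk K y.1 k := by
          linear_combination -(sk K T k * sk K y.1 k) * e4
  · rw [if_neg hL, if_neg fun h1 => hL ((Lk_th h h' hk).1 h1), mul_zero]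

theorem sn_th (T : Finset (Fin N)) {y : Y N v d} (h : y.1 ⊆ T) :
    sn K T y.1 * sn K T (th T y).1 = sn K T T := by
  unfold sn th
  simp only
  rw [mul_comm]
  exact Finset.prod_sdiff h

open Classical in
theorem sum_th (T : Finset (Fin N)) (F : Y N v d → K) :
    ∑ y : Y N v d, (if y.1 ⊆ T then F (th T y) else 0) =
      ∑ y : Y N v d, if y.1 ⊆ T then F y else 0 := by
  rw [← Finset.sum_filter, ← Finset.sum_filter]
  refine Finset.sum_bij' (fun y _ => th T y) (fun y _ => th T y) ?_ ?_ ?_ ?_ ?_
  · intro y hy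
    rw [Finset.mem_filter]
    exact ⟨Finset.mem_univ _, th_sub T y⟩
  · intro y hy
    rw [Finset.mem_filter]
    exact ⟨Finset.mem_univ _, th_sub T y⟩
  · intro y hy
    exact th_th (Finset.mem_filter.1 hy).2
  · intro y hy
    exact th_th (Finset.mem_filter.1 hy).2
  · intro y hy
    rfl

/-- The duality. -/
theorem MEx.dual {α : Fin N → Fin v → ℕ} (hα : ∀ k, ∑ j, α k j = d) {T : Finset (Fin N)}
    {p r : ℤ} (h : MEx K α d T p r) : MEx K α d T (T.card - p) (v * (d - 1) - r) := by
  classical
  intro x hx hxc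
  have hxT : ∀ y : Y N v d, ¬ y.1 ⊆ T → x y = 0 := fun y hy => hx y fun h' => hy h'.1
  obtain ⟨t, ht, htc⟩ := h.transpose hα (fun y => if y.1 ⊆ T then sn K T y.1 * x (th T y) else 0)
    (fun y hy => by
      split_ifs with hyT
      · rw [hx, mul_zero]
        exact fun h' => hy ((th_XX hyT p r).1 h')
      · rfl)
    (fun y' => by
      by_cases hy' : y'.1 ⊆ T
      · have e1 : ∀ y : Y N v d, cc K α T y y' *
            (if y.1 ⊆ T then sn K T y.1 * x (th T y) else 0) =
            sn K T y'.1 * (if y.1 ⊆ T then cc K α T (th T y') (th T y) * x (th T y) else 0) := by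
          intro y
          split_ifs with hy
          · rw [cc_th hy hy']
            have e2 := sn_sq (K := K) T y'.1
            linear_combination -(sn K T y.1 * cc K α T y y' * x (th T y)) * e2
          · rw [mul_zero, mul_zero]
        rw [Finset.sum_congr rfl fun y _ => e1 y, ← Finset.mul_sum,
          sum_th T fun y => cc K α T (th T y') y * x y]
        have e3 : ∑ y : Y N v d, (if y.1 ⊆ T then cc K α T (th T y') y * x y else 0) =
            ∑ y, cc K α T (th T y') y * x y := by
          refine Finset.sum_congr rfl fun y _ => ?_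
          split_ifs with hy
          · rfl
          · rw [hxT y hy, mul_zero]
        rw [e3, hxc, mul_zero]
      · refine Finset.sum_eq_zero fun y _ => ?_
        by_cases h0 : cc K α T y y' = 0
        · rw [h0, zero_mul]
        · rw [if_neg fun h' => hy' ((cc_sub h0).1 h'), mul_zero])
  refine ⟨fun y => if y.1 ⊆ T then sn K T T * (sn K T y.1 * t (th T y)) else 0,
    fun y hy => ?_, fun y => ?_⟩
  · dsimp only
    split_ifs with hyT
    · have h1 : t (th T y) = 0 := by
        refine ht _ fun h' => hy ?_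
        have h2 := (th_XX (th_sub T y) (p - 1) (r + d)).2 h'
        rw [th_th hyT] at h2
        have e1 : (T.card : ℤ) - (p - 1) = T.card - p + 1 := by ring
        have e2 : (v * ((d : ℤ) - 1) - (r + d)) = v * (d - 1) - r - d := by ring
        rwa [e1, e2] at h2
      rw [h1, mul_zero, mul_zero]
    · rfl
  · by_cases hy : y.1 ⊆ T
    · have e1 : ∀ y' : Y N v d, cc K α T y y' *
          (if y'.1 ⊆ T then sn K T T * (sn K T y'.1 * t (th T y')) else 0) =
          sn K T T * sn K T y.1 *
            (if y'.1 ⊆ T then cc K α T (th T y') (th T y) * t (th T y') else 0) := by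
        intro y'
        split_ifs with hy'
        · rw [cc_th hy hy']
          have e2 := sn_sq (K := K) T y.1
          linear_combination -(sn K T T * sn K T y'.1 * cc K α T y y' * t (th T y')) * e2
        · rw [mul_zero, mul_zero]
      rw [Finset.sum_congr rfl fun y' _ => e1 y', ← Finset.mul_sum,
        sum_th T fun y' => cc K α T y' (th T y) * t y']
      have e3 : ∑ y' : Y N v d, (if y'.1 ⊆ T then cc K α T y' (th T y) * t y' else 0) =
          ∑ y', cc K α T y' (th T y) * t y' := by
        refine Finset.sum_congr rfl fun y' _ => ?_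
        split_ifs with hy'
        · rfl
        · rw [ht y' fun h' => hy' h'.1, mul_zero]
      rw [e3, htc, if_pos (th_sub T y), th_th hy]
      have e4 := sn_th (K := K) T hy
      have e5 := sn_sq (K := K) T T
      linear_combination sn K T T * x y * e4 + x y * e5
    · rw [hxT y hy]
      refine Finset.sum_eq_zero fun y' _ => ?_
      by_cases h0 : cc K α T y y' = 0
      · rw [h0, zero_mul]
      · dsimp only
        rw [if_neg fun h' => hy ((cc_sub h0).2 h'), mul_zero]

end Pool.Agent.VOP.DK
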