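import Pool.Agent.VOP.DK2
import Pool.Agent.VOP.DK3

/-!
# Koszul duality for the Veronese modules (MP_deb8da_ag), part 4: the duality for polynomials
-/

namespace Pool.Agent.VOP.DK

open MvPolynomial

variable {K : Type} [Field K] {v N d : ℕ}

/-- The exponents as a finitely supported function. -/
noncomputable def fs (m : Fin v → Fin d) : Fin v →₀ ℕ :=
  Finsupp.equivFunOnFinite.symm fun j => (m j : ℕ)

theorem fs_apply (m : Fin v → Fin d) (j : Fin v) : fs m j = m j := rfl

theorem fs_inj {m m' : Fin v → Fin d} (h : fs m = fs m') : m = m' := by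
  funext j
  have := DFunLike.congr_fun h j
  rw [fs_apply, fs_apply] at this
  exact Fin.ext this

theorem sg_eq (J : Finset (Fin N)) (k : Fin N) : sg K v J k = C (sk K J k) := by
  unfold sg sk
  rw [map_pow, map_neg, map_one]

/-- The coefficients of the boundary. -/
theorem coeff_bd (α : Fin N → (Fin v →₀ ℕ)) (T : Finset (Fin N))
    (f : Finset (Fin N) → MvPolynomial (Fin v) K) (y : Y N v d) :
    coeff (fs y.2) (bd (fun k => monomial (α k) 1) T f y.1) =
      ∑ y' : Y N v d, cc K (fun k => α k) T y y' * coeff (fs y'.2) (f y'.1) := by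
  classical
  have e1 : ∀ k ∈ T, k ∉ T \ y.1 → coeff (fs y.2) (if k ∈ y.1 then 0 else
      sg K v y.1 k * monomial (α k) (1 : K) * f (insert k y.1)) = 0 := by
    intro k hk hk'
    rw [Finset.mem_sdiff, not_and, not_not] at hk'
    rw [if_pos (hk' hk), coeff_zero]
  have e2 : coeff (fs y.2) (bd (fun k => monomial (α k) 1) T f y.1) =
      ∑ k ∈ T, coeff (fs y.2) (if k ∈ y.1 then 0 else
        sg K v y.1 k * monomial (α k) (1 : K) * f (insert k y.1)) := by
    rw [← Finset.sum_subset Finset.sdiff_subset e1]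
    unfold bd
    rw [coeff_sum]
    refine Finset.sum_congr rfl fun k hk => ?_
    rw [if_neg (Finset.mem_sdiff.1 hk).2]
  rw [e2]
  simp only [cc, Finset.sum_mul]
  rw [Finset.sum_comm]
  refine Finset.sum_congr rfl fun k _ => ?_
  by_cases hk : k ∈ y.1
  · rw [if_pos hk, coeff_zero]
    symm
    refine Finset.sum_eq_zero fun y' _ => ?_
    rw [if_neg fun h => h.1 hk, zero_mul]
  · rw [if_neg hk, sg_eq, mul_assoc, coeff_C_mul, coeff_monomial_mul']
    split_ifs with hle
    · rw [one_mul, Finset.sum_eq_single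
        ((insert k y.1, fun j => ⟨y.2 j - α k j, by have := (y.2 j).2; omega⟩) : Y N v d)]
      · have h1 : ∀ j, α k j ≤ y.2 j := fun j => hle j
        rw [if_pos]
        · have e3 : fs (fun j => (⟨y.2 j - α k j, by have := (y.2 j).2; omega⟩ : Fin d)) =
              fs y.2 - α k := by
            ext j
            rw [Finsupp.tsub_apply, fs_apply, fs_apply]
          rw [← e3]
        · refine ⟨hk, rfl, fun j => ?_⟩
          have := h1 j
          change (y.2 j : ℕ) = (y.2 j - α k j) + α k j
          omega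
      · intro y' _ hy'
        rw [if_neg, zero_mul]
        rintro ⟨h1, h2, h3⟩
        apply hy'
        ext1
        · exact h2
        · funext j
          apply Fin.ext
          have h4 : (y.2 j : ℕ) = y'.2 j + α k j := h3 j
          change (y'.2 j : ℕ) = y.2 j - α k j
          omega
      · intro h
        exact absurd (Finset.mem_univ _) h
    · rw [mul_zero]
      symm
      refine Finset.sum_eq_zero fun y' _ => ?_
      rw [if_neg, zero_mul]
      rintro ⟨h1, h2, h3⟩
      apply hle
      intro j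
      have h4 : (y.2 j : ℕ) = y'.2 j + α k j := h3 j
      rw [fs_apply]
      omega

/-- The ideal of the non-truncated monomials. -/
theorem InI_iff {x : MvPolynomial (Fin v) K} :
    InI d Finset.univ x ↔ ∀ m : Fin v → Fin d, coeff (fs m) x = 0 := by
  constructor
  · intro h m
    by_contra h1
    obtain ⟨j, _, h2⟩ := h _ (mem_support_iff.2 h1)
    rw [fs_apply] at h2
    exact absurd (m j).2 (not_lt.2 h2)
  · intro h m hm
    by_contra h1
    push Not at h1
    have h2 : fs (fun j => (⟨m j, h1 j (Finset.mem_univ _)⟩ : Fin d)) = m := by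
      ext j
      rfl
    have h3 := h fun j => ⟨m j, h1 j (Finset.mem_univ _)⟩
    rw [h2] at h3
    exact mem_support_iff.1 hm h3

theorem coeff_lift (x : Y N v d → K) (y : Y N v d) :
    coeff (fs y.2) (∑ m : Fin v → Fin d, monomial (fs m) (x (y.1, m))) = x y := by
  classical
  rw [coeff_sum, Finset.sum_eq_single y.2]
  · rw [coeff_monomial, if_pos rfl]
  · intro m _ hm
    rw [coeff_monomial, if_neg fun h => hm (fs_inj h)]
  · intro h
    exact absurd (Finset.mem_univ _) h

theorem Hd_lift {T : Finset (Fin N)} {p r : ℤ} {x : Y N v d → K}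
    (hx : ∀ y, ¬ XX T p r y → x y = 0) (I : Finset (Fin N)) :
    Hd r (∑ m : Fin v → Fin d, monomial (fs m) (x (I, m))) := by
  classical
  refine Hd.sum _ fun m _ => ?_
  intro m' hm'
  by_cases h0 : x (I, m) = 0
  · rw [h0, map_zero] at hm'
    simp at hm'
  · have h1 := support_monomial_subset hm'
    rw [Finset.mem_singleton] at h1
    subst h1
    have h2 : XX T p r ((I, m) : Y N v d) := by
      by_contra h3
      exact h0 (hx _ h3)
    rw [← h2.2.2]
    push_cast
    rfl

theorem MEx_of_Ex {α : Fin N → (Fin v →₀ ℕ)} {T : Finset (Fin N)} {p r : ℤ}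
    (h : Ex (fun k => monomial (α k) (1 : K)) d Finset.univ T p r) :
    MEx K (fun k => α k) d T p r := by
  classical
  intro x hx hxc
  obtain ⟨g, hg, hgs, hgc⟩ := h (fun I => ∑ m : Fin v → Fin d, monomial (fs m) (x (I, m)))
    (fun I => Hd_lift hx I)
    (fun I hI => by
      refine Finset.sum_eq_zero fun m _ => ?_
      rw [hx, map_zero]
      exact fun h' => hI ⟨h'.1, h'.2.1⟩)
    (fun J _ _ => by
      rw [InI_iff]
      intro m
      have h1 := coeff_bd α T (fun I => ∑ m : Fin v → Fin d, monomial (fs m) (x (I, m)))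
        ((J, m) : Y N v d)
      refine h1.trans ?_
      rw [← hxc (J, m)]
      exact Finset.sum_congr rfl fun y' _ => by rw [coeff_lift])
  refine ⟨fun y => coeff (fs y.2) (g y.1), fun y hy => ?_, fun y => ?_⟩
  · by_contra h0
    change coeff (fs y.2) (g y.1) ≠ 0 at h0
    apply hy
    have h1 : g y.1 ≠ 0 := by
      intro h2
      rw [h2, coeff_zero] at h0
      exact h0 rfl
    have h2 : y.1 ⊆ T ∧ (y.1.card : ℤ) = p + 1 := by
      by_contra h3
      exact h1 (hgs _ h3)
    refine ⟨h2.1, h2.2, ?_⟩
    have h3 := hg y.1 (fs y.2) (mem_support_iff.2 h0)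
    rw [← h3]
    push_cast
    rfl
  · rw [← coeff_bd α T g y]
    by_cases hy : y.1 ⊆ T ∧ (y.1.card : ℤ) = p
    · have h1 := InI_iff.1 (hgc y.1 hy.1 hy.2) y.2
      rw [coeff_sub, coeff_lift, sub_eq_zero] at h1
      exact h1.symm
    · rw [hx y fun h' => hy ⟨h'.1, h'.2.1⟩]
      have h1 : bd (fun k => monomial (α k) (1 : K)) T g y.1 = 0 := by
        refine Finset.sum_eq_zero fun k hk => ?_
        rw [Finset.mem_sdiff] at hk
        rw [hgs, mul_zero]
        rintro ⟨h2, h3⟩
        apply hy
        rw [Finset.card_insert_of_notMem hk.2] at h3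
        push_cast at h3
        exact ⟨(Finset.subset_insert _ _).trans h2, by omega⟩
      rw [h1, coeff_zero]

theorem Ex_of_MEx {α : Fin N → (Fin v →₀ ℕ)} {T : Finset (Fin N)} {p r : ℤ}
    (h : MEx K (fun k => α k) d T p r) :
    Ex (fun k => monomial (α k) (1 : K)) d Finset.univ T p r := by
  classical
  intro f hf hfs hfc
  obtain ⟨z, hz, hzc⟩ := h (fun y => coeff (fs y.2) (f y.1))
    (fun y hy => by
      by_contra h0
      apply hy
      have h1 : f y.1 ≠ 0 := by
        intro h2
        rw [h2, coeff_zero] at h0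
        exact h0 rfl
      have h2 : y.1 ⊆ T ∧ (y.1.card : ℤ) = p := by
        by_contra h3
        exact h1 (hfs _ h3)
      refine ⟨h2.1, h2.2, ?_⟩
      have h3 := hf y.1 (fs y.2) (mem_support_iff.2 h0)
      rw [← h3]
      push_cast
      rfl)
    (fun y => by
      rw [← coeff_bd α T f y]
      by_cases hy : y.1 ⊆ T ∧ (y.1.card : ℤ) + 1 = p
      · exact InI_iff.1 (hfc y.1 hy.1 hy.2) y.2
      · have h1 : bd (fun k => monomial (α k) (1 : K)) T f y.1 = 0 := by
          refine Finset.sum_eq_zero fun k hk => ?_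
          rw [Finset.mem_sdiff] at hk
          rw [hfs, mul_zero]
          rintro ⟨h2, h3⟩
          apply hy
          rw [Finset.card_insert_of_notMem hk.2] at h3
          push_cast at h3
          exact ⟨(Finset.subset_insert _ _).trans h2, by omega⟩
        rw [h1, coeff_zero])
  refine ⟨fun I => ∑ m : Fin v → Fin d, monomial (fs m) (z (I, m)), fun I => Hd_lift hz I,
    fun I hI => ?_, fun I hI hIc => ?_⟩
  · refine Finset.sum_eq_zero fun m _ => ?_
    rw [hz, map_zero]
    exact fun h' => hI ⟨h'.1, h'.2.1⟩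
  · rw [InI_iff]
    intro m
    rw [coeff_sub, sub_eq_zero]
    have h1 := coeff_bd α T (fun I => ∑ m : Fin v → Fin d, monomial (fs m) (z (I, m)))
      ((I, m) : Y N v d)
    refine Eq.trans ?_ h1.symm
    have h2 := hzc (I, m)
    refine h2.symm.trans ?_
    exact Finset.sum_congr rfl fun y' _ => by rw [coeff_lift]

/-- The duality of the Koszul complexes. -/
theorem Ex_dual {α : Fin N → (Fin v →₀ ℕ)} (hα : ∀ k, ∑ j, α k j = d)
    {w : Fin v → Fin N} (hw : Function.Injective w) (haw : ∀ j, α (w j) = Finsupp.single j d)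
    {p r : ℤ} (h : Ex (fun k => monomial (α k) (1 : K)) d ∅ Finset.univ p r) :
    Ex (fun k => monomial (α k) (1 : K)) d ∅ Finset.univ (N - v - p) (v * (d - 1) - r) := by
  classical
  have ha : ∀ k, Hd d (monomial (α k) (1 : K)) := by
    intro k m hm
    have h1 := support_monomial_subset hm
    rw [Finset.mem_singleton] at h1
    subst h1
    rw [hα]
  have haw' : ∀ j, monomial (α (w j)) (1 : K) = X j ^ d := by
    intro j
    rw [haw, X_pow_eq_monomial]
  rw [Ex_iff ha hw haw' Finset.univ] at h ⊢
  have h1 := (MEx_of_Ex h).dual hα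
  have e1 : (((Finset.univ \ Finset.univ.image w : Finset (Fin N)).card : ℕ) : ℤ) = N - v := by
    rw [Finset.card_sdiff_of_subset (Finset.subset_univ _), Finset.card_image_of_injective _ hw,
      Finset.card_univ, Finset.card_univ, Fintype.card_fin, Fintype.card_fin, Nat.cast_sub]
    have := Fintype.card_le_of_injective w hw
    rwa [Fintype.card_fin, Fintype.card_fin] at this
  rw [e1] at h1
  exact Ex_of_MEx h1

/-- Exactness is trivial at a negative number of letters. -/
theorem Ex_neg_card {a : Fin N → MvPolynomial (Fin v) K} {T : Finset (Fin N)} {p r : ℤ}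
    (hp : p < 0) : Ex a d ∅ T p r := by
  intro f hf hfs _
  refine ⟨fun _ => 0, fun _ => Hd.zero _, fun _ _ => rfl, fun I hI hIc => ?_⟩
  have := Nat.zero_le I.card
  omega

/-- Exactness is trivial in negative degrees. -/
theorem Ex_neg_deg {a : Fin N → MvPolynomial (Fin v) K} {T : Finset (Fin N)} {p r : ℤ}
    (hr : r < 0) : Ex a d ∅ T p r := by
  intro f hf hfs _
  have h0 : ∀ I, f I = 0 := by
    intro I
    by_contra h1
    obtain ⟨m, hm⟩ := MvPolynomial.support_nonempty.2 h1
    have h2 := hf I m hm
    have h3 : (0 : ℤ) ≤ ((∑ j, m j : ℕ) : ℤ) := Int.natCast_nonneg _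
    omega
  refine ⟨fun _ => 0, fun _ => Hd.zero _, fun _ _ => rfl, fun I hI hIc => ?_⟩
  rw [h0, InI_empty, zero_sub, neg_eq_zero]
  exact Finset.sum_eq_zero fun k _ => mul_zero _

end Pool.Agent.VOP.DK
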