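import Pool.Agent.VSY.KOS
import Pool.Agent.VOP.DK4

/-!
# Koszul duality for the Veronese modules (MP_deb8da_ag), part 5: the duality for `KExact`
-/

namespace Pool.Agent.VOP.DK

open MvPolynomial TensorProduct Module Pool.Agent.VSY

variable {K : Type} [Field K] {v N d : ℕ}

theorem wt_eq (m : Fin v →₀ ℕ) : Finsupp.weight (1 : Fin v → ℕ) m = ∑ j, m j := by
  rw [Finsupp.weight_apply, Finsupp.sum_fintype _ _ (fun j => by simp)]
  exact Finset.sum_congr rfl fun j _ => by rw [Pi.one_apply, smul_eq_mul, mul_one]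

theorem Hd_iff {r : ℕ} {x : MvPolynomial (Fin v) K} :
    Hd r x ↔ x ∈ homogeneousSubmodule (Fin v) K r := by
  rw [mem_homogeneousSubmodule]
  constructor
  · intro h m hm
    have h1 := h m (mem_support_iff.2 hm)
    rw [wt_eq]
    exact_mod_cast h1
  · intro h m hm
    have h1 := h (mem_support_iff.1 hm)
    rw [wt_eq] at h1
    exact_mod_cast h1

theorem Hd_neg {r : ℤ} (hr : r < 0) {x : MvPolynomial (Fin v) K} (h : Hd r x) : x = 0 := by
  by_contra h1
  obtain ⟨m, hm⟩ := MvPolynomial.support_nonempty.2 h1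
  have h2 := h m hm
  have h3 : (0 : ℤ) ≤ ((∑ j, m j : ℕ) : ℤ) := Int.natCast_nonneg _
  omega

/-- The monomials of degree `d`, numbered. -/
theorem exists_letters (v d : ℕ) : ∃ (α : Fin ((Finset.univ.finsuppAntidiag d :
      Finset (Fin v →₀ ℕ)).card) → (Fin v →₀ ℕ)),
    Function.Injective α ∧ (∀ k, ∑ j, α k j = d) ∧
      ∀ m : Fin v →₀ ℕ, ∑ j, m j = d → ∃ k, α k = m := by
  classical
  let e := (Finset.univ.finsuppAntidiag d : Finset (Fin v →₀ ℕ)).equivFin
  refine ⟨fun k => (e.symm k).1, fun k l h => e.symm.injective (Subtype.ext h), fun k => ?_,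
    fun m hm => ?_⟩
  · exact (Finset.mem_finsuppAntidiag.1 (e.symm k).2).1
  · refine ⟨e ⟨m, Finset.mem_finsuppAntidiag.2 ⟨hm, Finset.subset_univ _⟩⟩, ?_⟩
    simp only [Equiv.symm_apply_apply]

section mono

variable {α : Fin N → (Fin v →₀ ℕ)}

theorem mono_mem (hα : ∀ k, ∑ j, α k j = d) (k : Fin N) :
    monomial (α k) (1 : K) ∈ homogeneousSubmodule (Fin v) K d := by
  rw [← Hd_iff]
  intro m hm
  have h1 := support_monomial_subset hm
  rw [Finset.mem_singleton] at h1
  subst h1
  rw [hα]

theorem mono_li (hi : Function.Injective α) :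
    LinearIndependent K (fun k => monomial (α k) (1 : K)) := by
  have h1 := (basisMonomials (Fin v) K).linearIndependent.comp α hi
  have e : (basisMonomials (Fin v) K : (Fin v →₀ ℕ) → MvPolynomial (Fin v) K) ∘ α =
      fun k => monomial (α k) (1 : K) := by
    funext k
    simp only [Function.comp_apply, coe_basisMonomials]
  rwa [e] at h1

theorem mono_span (hα : ∀ k, ∑ j, α k j = d) (hs : ∀ m : Fin v →₀ ℕ, ∑ j, m j = d → ∃ k, α k = m) :
    Submodule.span K (Set.range fun k => monomial (α k) (1 : K)) =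
      homogeneousSubmodule (Fin v) K d := by
  apply le_antisymm
  · rw [Submodule.span_le]
    rintro _ ⟨k, rfl⟩
    exact mono_mem hα k
  · intro x hx
    rw [x.as_sum]
    refine Submodule.sum_mem _ fun m hm => ?_
    have h1 := (Hd_iff.2 hx) m hm
    obtain ⟨k, rfl⟩ := hs m (by exact_mod_cast h1)
    have h2 : monomial (α k) (coeff (α k) x) = coeff (α k) x • monomial (α k) (1 : K) := by
      rw [smul_monomial, smul_eq_mul, mul_one]
    rw [h2]
    exact Submodule.smul_mem _ _ (Submodule.subset_span ⟨k, rfl⟩)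

end mono

/-- From `KExact` to the exactness with the monomials as letters. -/
theorem Ex_of_KExact {n p r : ℕ} (h : KExact K n d p r) {α : Fin N → (Fin (n + 1) →₀ ℕ)}
    (hi : Function.Injective α) (hα : ∀ k, ∑ j, α k j = d)
    (hs : ∀ m : Fin (n + 1) →₀ ℕ, ∑ j, m j = d → ∃ k, α k = m) :
    Ex (fun k => monomial (α k) (1 : K)) d ∅ Finset.univ p r := by
  classical
  intro f hf hfs hfc
  obtain ⟨g, hg, hg0, hgs, hgc⟩ := h N (fun k => monomial (α k) (1 : K)) (mono_mem hα)
    (mono_li hi) (mono_span hα hs) f (fun I => Hd_iff.1 (hf I))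
    (fun I hI => hfs I fun h' => hI (by exact_mod_cast h'.2))
    (fun J hJ => by
      have h1 := InI_empty.1 (hfc J (Finset.subset_univ _) (by exact_mod_cast hJ))
      unfold bd at h1
      rw [← Finset.compl_eq_univ_sdiff] at h1
      exact h1)
  refine ⟨g, fun I => ?_, fun I hI => hgs I fun h' => hI ⟨Finset.subset_univ _,
    by exact_mod_cast h'⟩, fun I _ hIc => ?_⟩
  · rcases Nat.lt_or_ge r d with hrd | hrd
    · rw [hg0 hrd I]
      exact Hd.zero _
    · have h1 := Hd_iff.2 (hg I)
      rw [Nat.cast_sub hrd] at h1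
      exact h1
  · rw [InI_empty, sub_eq_zero]
    unfold bd
    rw [← Finset.compl_eq_univ_sdiff]
    exact hgc I (by exact_mod_cast hIc)

/-- From the exactness in coordinates to the invariant form. -/
theorem KV_of_Ex {n p r : ℕ} (β : Basis (Fin N) K (Forms K n d))
    (h : Ex (fun k => (β k).1) d ∅ Finset.univ p r) (x : KT K n d p r) (hx : IsCycle K p x) :
    x = 0 ∨ ∃ (m : ℕ) (h : m + d = r) (y : KT K n d (p + 1) m), koszulD K p h y = x := by
  classical
  obtain ⟨g, hg, hgs, hgc⟩ := h
    (fun I => if I.card = p then (KOS.evT β p r I x).1 else 0)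
    (fun I => by
      split_ifs
      · exact Hd_iff.2 (KOS.evT β p r I x).2
      · exact Hd.zero _)
    (fun I hI => if_neg fun h' => hI ⟨Finset.subset_univ _, by exact_mod_cast h'⟩)
    (fun J _ hJ => by
      rw [InI_empty]
      cases p with
      | zero =>
        have := Nat.zero_le J.card
        push_cast at hJ
        omega
      | succ p =>
        have hJ' : J.card = p := by
          push_cast at hJ
          omega
        have h1 : koszulD K p (rfl : r + d = r + d) x = 0 := hx
        have h2 := KOS.evT_koszulD β (rfl : r + d = r + d) hJ' x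
        rw [h1, map_zero] at h2
        have h3 := congrArg (KOS.vl K n (r + d)) h2
        rw [map_zero, KOS.vl_sum β (rfl : r + d = r + d) J
          (fun I => KOS.evT β (p + 1) r I x)] at h3
        unfold bd
        rw [← Finset.compl_eq_univ_sdiff]
        refine Eq.trans ?_ (neg_eq_zero.2 h3.symm)
        rw [← Finset.sum_neg_distrib]
        refine Finset.sum_congr rfl fun k hk => ?_
        rw [Finset.mem_compl] at hk
        have hc : (insert k J).card = p + 1 := by rw [Finset.card_insert_of_notMem hk, hJ']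
        have h4 : (fun I : Finset (Fin N) =>
            if I.card = p + 1 then (KOS.evT β (p + 1) r I x).1 else 0) (insert k J) =
            (KOS.evT β (p + 1) r (insert k J) x).1 := if_pos hc
        rw [h4]
        unfold sg
        ring)
  rcases Nat.lt_or_ge r d with hrd | hrd
  · left
    rw [KOS.sum_evT β x]
    refine Finset.sum_eq_zero fun I hI => ?_
    have hIc : I.card = p := (Finset.mem_powersetCard.1 hI).2
    have h1 := InI_empty.1 (hgc I (Finset.subset_univ _) (by exact_mod_cast hIc))
    have h2 : bd (fun k => (β k).1) Finset.univ g I = 0 := by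
      refine Finset.sum_eq_zero fun k _ => ?_
      rw [Hd_neg (by omega) (hg (insert k I)), mul_zero]
    rw [if_pos hIc, h2, sub_zero] at h1
    have h3 : KOS.evT β p r I x = 0 := Subtype.ext h1
    rw [h3, TensorProduct.tmul_zero]
  · right
    have hg' : ∀ I, g I ∈ homogeneousSubmodule (Fin (n + 1)) K (r - d) := by
      intro I
      rw [← Hd_iff, Nat.cast_sub hrd]
      exact hg I
    refine ⟨r - d, Nat.sub_add_cancel hrd,
      ∑ I ∈ Finset.powersetCard (p + 1) (Finset.univ : Finset (Fin N)),
        KOS.W β (p + 1) I ⊗ₜ[K] (⟨-g I, neg_mem (hg' I)⟩ : Forms K n (r - d)), ?_⟩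
    rw [KOS.koszulD_sum]
    refine Eq.trans ?_ (KOS.sum_evT β x).symm
    refine Finset.sum_congr rfl fun I hI => ?_
    have hIc : I.card = p := (Finset.mem_powersetCard.1 hI).2
    congr 1
    apply KOS.vl_inj
    rw [KOS.vl_sum β (Nat.sub_add_cancel hrd) I
      (fun I => (⟨-g I, neg_mem (hg' I)⟩ : Forms K n (r - d)))]
    have h1 := InI_empty.1 (hgc I (Finset.subset_univ _) (by exact_mod_cast hIc))
    rw [if_pos hIc, sub_eq_zero] at h1
    refine Eq.trans ?_ h1.symm
    unfold bd
    rw [← Finset.compl_eq_univ_sdiff]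
    refine Finset.sum_congr rfl fun k _ => ?_
    rw [neg_neg]
    rfl

/-- **Duality.** The Koszul homology of the polynomials in `n + 1` variables with letters of degree
`d` is symmetric: `K_p[r]` and `K_{w-p}[σ-r]` vanish together, `w = C(d+n,n) - (n+1)`,
`σ = (n+1) (d-1)`; it vanishes for `p > w` and for `r > σ`. -/
theorem KExact_dual (K : Type) [Field K] (n d p r : ℕ) (hd : 0 < d)
    (h : p ≤ (d + n).choose n - (n + 1) → r ≤ (n + 1) * (d - 1) →
      KExact K n d ((d + n).choose n - (n + 1) - p) ((n + 1) * (d - 1) - r)) :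
    KExact K n d p r := by
  classical
  obtain ⟨α, hi, hα, hs⟩ := exists_letters (n + 1) d
  have hN : (Finset.univ.finsuppAntidiag d : Finset (Fin (n + 1) →₀ ℕ)).card =
      (d + n).choose n := by
    rw [Finset.card_finsuppAntidiag_nat_eq_choose, Finset.card_univ, Fintype.card_fin]
    have h1 : n + 1 + d - 1 = d + n := by omega
    rw [h1]
    exact Nat.choose_symm_add
  have hsing : ∀ j : Fin (n + 1), ∑ i, (Finsupp.single j d : Fin (n + 1) →₀ ℕ) i = d := by
    intro j
    rw [Finset.sum_eq_single j]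
    · exact Finsupp.single_eq_same
    · intro i _ hij
      exact Finsupp.single_eq_of_ne hij
    · intro h'
      exact absurd (Finset.mem_univ _) h'
  choose w hw using fun j => hs (Finsupp.single j d) (hsing j)
  have hwi : Function.Injective w := by
    intro j j' hjj
    have h1 : Finsupp.single j d = (Finsupp.single j' d : Fin (n + 1) →₀ ℕ) := by
      rw [← hw, ← hw, hjj]
    exact Finsupp.single_left_injective hd.ne' h1
  have hle : n + 1 ≤ (d + n).choose n := by
    have := Fintype.card_le_of_injective w hwi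
    rwa [Fintype.card_fin, Fintype.card_fin, hN] at this
  have hN' : (((Finset.univ.finsuppAntidiag d : Finset (Fin (n + 1) →₀ ℕ)).card : ℕ) : ℤ) =
      (d + n).choose n := by rw [hN]
  -- exactness at the dual place
  have hE : Ex (fun k => monomial (α k) (1 : K)) d ∅ Finset.univ
      (((Finset.univ.finsuppAntidiag d : Finset (Fin (n + 1) →₀ ℕ)).card : ℕ) -
        ((n + 1 : ℕ) : ℤ) - p) (((n + 1 : ℕ) : ℤ) * (d - 1) - r) := by
    rw [hN']
    have hd1 : (((n + 1 : ℕ) : ℤ) * ((d : ℤ) - 1)) = (((n + 1) * (d - 1) : ℕ) : ℤ) := by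
      rw [Nat.cast_mul, Nat.cast_sub hd]
      push_cast
      ring
    rw [hd1]
    by_cases hp : p ≤ (d + n).choose n - (n + 1)
    · by_cases hr : r ≤ (n + 1) * (d - 1)
      · have h1 := Ex_of_KExact (h hp hr) hi hα hs
        have e1 : (((d + n).choose n - (n + 1) - p : ℕ) : ℤ) =
            (d + n).choose n - ((n + 1 : ℕ) : ℤ) - p := by
          rw [Nat.cast_sub hp, Nat.cast_sub hle]
        have e2 : (((n + 1) * (d - 1) - r : ℕ) : ℤ) = (((n + 1) * (d - 1) : ℕ) : ℤ) - r := by
          rw [Nat.cast_sub hr]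
        rwa [e1, e2] at h1
      · refine Ex_neg_deg ?_
        push Not at hr
        have : (((n + 1) * (d - 1) : ℕ) : ℤ) < r := by exact_mod_cast hr
        omega
    · refine Ex_neg_card ?_
      push Not at hp
      have : (((d + n).choose n - (n + 1) : ℕ) : ℤ) < p := by exact_mod_cast hp
      rw [Nat.cast_sub hle] at this
      omega
  have hE2 := Ex_dual hα hwi hw hE
  rw [hN'] at hE2
  have e3 : ((d + n).choose n : ℤ) - ((n + 1 : ℕ) : ℤ) -
      ((d + n).choose n - ((n + 1 : ℕ) : ℤ) - p) = p := by ring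
  have e4 : (((n + 1 : ℕ) : ℤ) * ((d : ℤ) - 1) - (((n + 1 : ℕ) : ℤ) * ((d : ℤ) - 1) - r)) = r := by
    ring
  rw [e3, e4] at hE2
  -- back to all bases
  obtain ⟨β, hβ⟩ := KOS.exists_basis (mono_mem (K := K) hα) (mono_li hi) (mono_span hα hs)
  have hβ' : (fun k => (β k).1) = fun k => monomial (α k) (1 : K) := by
    funext k
    exact hβ k
  rw [← hβ'] at hE2
  have h0 : KVanishes K n r d p 0 := by
    intro x hx
    have e5 : 0 * d + r = r := by omega
    refine KV_of_Ex β ?_ x hx
    rw [e5]
    exact hE2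
  have h1 := KOS_thm K n r d p 0 h0
  rwa [zero_mul, zero_add] at h1

end Pool.Agent.VOP.DK
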