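import Pool.Agent.VSY.StmtsB

/-!
# The Ottaviani-Paoletti conjecture (MP_deb8da_ag): definitions

Polynomials in the coordinates of points `x : A` (`PX K A v`, see `Pool.Agent.VSY.Defs`).  The
point `w` is special, the other points lie in the finite sets `T` (symmetric points), `S` and `C`
(alternating points).  Complete mathematics: `Pool/Agent/VOP/PAPER.md`.
-/

namespace Pool.Agent.VOP

open MvPolynomial Pool.Agent.VSY

variable {K : Type} [Field K] {A : Type} {v : ℕ}

/-- The degree of `f` at every point `x` is `δ x`. -/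
def Dg (δ : A → ℕ) (f : PX K A v) : Prop :=
  ∀ m ∈ f.support, ∀ x, ∑ j, m (x, j) = δ x

/-- `f` is symmetric in the points of `T`. -/
def Sy [DecidableEq A] (T : Finset A) (f : PX K A v) : Prop :=
  ∀ x ∈ T, ∀ y ∈ T, ren (Equiv.swap x y) f = f

/-- `f` is alternating in the points of `S`. -/
def Al [DecidableEq A] (S : Finset A) (f : PX K A v) : Prop :=
  ∀ x ∈ S, ∀ y ∈ S, x ≠ y → ren (Equiv.swap x y) f = -f

/-- The point `u` is moved to the point `w`. -/
def mv [DecidableEq A] (u w : A) : A → A :=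
  Function.update id u w

/-- `f` vanishes when a point of `S` is moved to `w`. -/
def Cy [DecidableEq A] (S : Finset A) (w : A) (f : PX K A v) : Prop :=
  ∀ u ∈ S, ren (mv u w) f = 0

/-- Chains: degrees `δ`, symmetric in `T`, alternating in `S` and in `C`. -/
structure Cg [DecidableEq A] (δ : A → ℕ) (T S C : Finset A) (f : PX K A v) : Prop where
  dg : Dg δ f
  sy : Sy T f
  alS : Al S f
  alC : Al C f

/-- The sets `T`, `S`, `C`, `{w}` are disjoint. -/
structure Cf [DecidableEq A] (T S C : Finset A) (w : A) : Prop where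
  TS : Disjoint T S
  TC : Disjoint T C
  SC : Disjoint S C
  wT : w ∉ T
  wS : w ∉ S
  wC : w ∉ C

/-- There is a point outside the configuration. -/
def Sp (T S C : Finset A) (w : A) : Prop :=
  ∃ a, a ∉ T ∧ a ∉ S ∧ a ∉ C ∧ a ≠ w

/-- Degrees on `Option A`: `a` at the new point `none`, `e` at `w`, `δ` elsewhere. -/
def ext [DecidableEq A] (δ : A → ℕ) (a : ℕ) (w : A) (e : ℕ) : Option A → ℕ
  | none => a
  | some x => if x = w then e else δ x

/-- A finite set of old points in `Option A`. -/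
abbrev sm (S : Finset A) : Finset (Option A) :=
  S.map Function.Embedding.some

/-- A finite set of old points in `Option A`, and the new point. -/
def isn [DecidableEq A] (S : Finset A) : Finset (Option A) :=
  insert none (sm S)

/-- The new point is moved to `x`. -/
noncomputable def rn (x : A) : PX K (Option A) v →ₐ[K] PX K A v :=
  ren fun o : Option A => o.getD x

/-- The degrees of the configuration: `M + 1` on `T` and `S`, `M + 2` on `C`, `r` at `w`, and `0`
at all other points. -/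
def dgc [DecidableEq A] (M : ℕ) (T S C : Finset A) (w : A) (r : ℕ) : A → ℕ := fun x =>
  if x ∈ T ∪ S then M + 1 else if x ∈ C then M + 2 else if x = w then r else 0

/-- Bicycles: symmetric in `T`, alternating cycles in `S` (degree `M + 1`) and in `C` (degree
`M + 2`), degree `r` at `w`. -/
structure Zc [DecidableEq A] (M : ℕ) (T S C : Finset A) (w : A) (r : ℕ) (f : PX K A v) :
    Prop where
  cg : Cg (dgc M T S C w r) T S C f
  cyS : Cy S w f
  cyC : Cy C w f

/-- `TT`: the sum of the symmetric products `G|_{a₀ → w}` (`G` a cycle of degree `M + 1 + β` at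
`w`, with one more symmetric point) and of the boundaries `g|_{u₀ → w}`. -/
def TT [DecidableEq A] (M β : ℕ) (T C : Finset A) (w : A) (f : PX K A v) : Prop :=
  ∃ G g : PX K (Option A) v, Zc M (isn T) ∅ (sm C) (some w) (M + 1 + β) G ∧
    Cg (dgc M (sm T) ∅ (isn C) (some w) (M + β)) (sm T) ∅ (isn C) g ∧
    f = rn w G + rn w g

/-- Permutations of the points of `S`. -/
noncomputable def pS [Fintype A] [DecidableEq A] (S : Finset A) : Finset (Equiv.Perm A) := by
  classical exact Finset.univ.filter fun π => ∀ x, x ∉ S → π x = x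

/-- Alternating sum over the permutations of `S`. -/
noncomputable def alt [Fintype A] [DecidableEq A] (S : Finset A) (f : PX K A v) : PX K A v :=
  ∑ π ∈ pS S, ((Equiv.Perm.sign π : ℤˣ) : ℤ) • ren π f

/-- Sum over the permutations of `T`. -/
noncomputable def smz [Fintype A] [DecidableEq A] (T : Finset A) (f : PX K A v) : PX K A v :=
  ∑ π ∈ pS T, ren π f

/-- Good polynomials: `h` has the degrees of the configuration `(T, C)` and its symmetrisation is
in `TT`. -/
def Good [Fintype A] [DecidableEq A] (M β : ℕ) (T C : Finset A) (w : A) (h : PX K A v) : Prop :=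
  Dg (dgc M T ∅ C w (2 * M + 2 + β)) h ∧ TT M β T C w (smz T (alt C h))

/-- The linear form `x` at the point `p`. -/
noncomputable def lin (x : Fin v → K) (p : A) : PX K A v :=
  ∑ i, C (x i) * X (p, i)

/-- The product of the `x(p)`, `p ∈ S`. -/
noncomputable def xS (x : Fin v → K) (S : Finset A) : PX K A v :=
  ∏ p ∈ S, lin x p

/-- Substitution of the coordinates at all points. -/
noncomputable def sb (g : Fin v → Fin v → K) : PX K A v →ₐ[K] PX K A v :=
  aeval fun y : A × Fin v => lin (g y.2) y.1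

variable (K)

/-- `PV`: `K_p[e + d] = 0` (letters of degree `d`, in `v` variables), with parameters and
symmetries. -/
def PV (v d p e : ℕ) : Prop :=
  ∀ (A : Type) [Fintype A] [DecidableEq A] (δ : A → ℕ) (T S C : Finset A) (w : A)
    (f : PX K A v), Cf T S C w → C.card = p → (∀ x ∈ C, δ x = d) → δ w = e + d →
    Cg δ T S C f → Cy C w f →
    ∃ g : PX K (Option A) v, Cg (ext δ d w e) (sm T) (sm S) (isn C) g ∧ rn w g = f

/-- `PP`: every cycle with `t` symmetric points and `j` alternating points is in `TT`. -/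
def PP (v M β t j : ℕ) : Prop :=
  ∀ (A : Type) [Fintype A] [DecidableEq A] (T C : Finset A) (w : A) (f : PX K A v),
    Cf T ∅ C w → T.card = t → C.card = j → Zc M T ∅ C w (2 * M + 2 + β) f → TT M β T C w f

/-- `CLAIM(l)`. -/
def CL (v M β t j l : ℕ) : Prop :=
  ∀ (A : Type) [Fintype A] [DecidableEq A] (T S C : Finset A) (w : A) (x : Fin v → K)
    (f : PX K A v), Cf T S C w → Sp T S C w → T.card = t → S.card + C.card = j →
    C.card = l → x ≠ 0 →
    Zc M T S C w (2 * M + 2 + β) f → Good M β T (S ∪ C) w (xS x S * f)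

/-- `(α')`. -/
def ALP (v M β t s l : ℕ) : Prop :=
  ∀ (A : Type) [Fintype A] [DecidableEq A] (T S C : Finset A) (w : A) (x : Fin v → K)
    (f : PX K A v), Cf T S C w → Sp T S C w → T.card = t → S.card = s → C.card = l → x ≠ 0 →
    Zc M T S C w (2 * M + 1 + β) f → Good M β T (S ∪ C) w (lin x w * xS x S * f)

/-- `(2')`: `u ∈ C`; `η` is a bicycle for `S` and `C - u`, of degree `M + 1` at `u`. -/
def TWO (v M β t s l : ℕ) : Prop :=
  ∀ (A : Type) [Fintype A] [DecidableEq A] (T S C : Finset A) (w u : A) (x : Fin v → K)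
    (η f : PX K A v), Cf T S C w → Sp T S C w → T.card = t → S.card = s → C.card = l →
    u ∈ C → x ≠ 0 →
    Cg (Function.update (dgc M T S C w (2 * M + 2 + β)) u (M + 1)) T S (C.erase u) η →
    Cy S w η → Cy (C.erase u) w η →
    Zc M T S C w (2 * M + 2 + β) f →
    lin x w ∣ (lin x u * η - ∑ c ∈ C.erase u, ren (Equiv.swap u c) (lin x u * η)) - f →
    Good M β T (S ∪ C) w (xS x S * f)

/-- `(3')`: `a` is a new symmetric point; `η` is a bicycle modulo `x(w)`. -/
def THREE (v M β t s l : ℕ) : Prop :=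
  ∀ (A : Type) [Fintype A] [DecidableEq A] (T S C : Finset A) (w a : A) (x : Fin v → K)
    (η f : PX K A v), Cf T S C w → T.card = t → S.card = s → C.card = l → x ≠ 0 →
    a ∉ T → a ∉ S → a ∉ C → a ≠ w →
    Cg (dgc M (insert a T) S C w (M + 1 + β)) (insert a T) S C η →
    (∀ u ∈ S ∪ C, lin x w ∣ ren (mv u w) η) →
    Zc M T S C w (2 * M + 2 + β) f →
    lin x w ∣ ren (mv a w) η - f →
    Good M β T (S ∪ C) w (xS x S * f)

/-- `(LIFT)`: bicycles modulo `x(w)` of degree `e + 1` at `w` lift to bicycles. -/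
def LIFT (v N d s l e : ℕ) : Prop :=
  ∀ (A : Type) [Fintype A] [DecidableEq A] (δ : A → ℕ) (T S C : Finset A) (w : A)
    (x : Fin v → K) (f : PX K A v), Cf T S C w → S.card = s → C.card = l → x ≠ 0 →
    (∀ u ∈ S, δ u = N) → (∀ u ∈ C, δ u = d) → δ w = e + 1 → Cg δ T S C f →
    (∀ u ∈ S ∪ C, lin x w ∣ ren (mv u w) f) →
    ∃ ρ : PX K A v, Cg (Function.update δ w e) T S C ρ ∧
      ∀ u ∈ S ∪ C, ren (mv u w) (f - lin x w * ρ) = 0

/-- `(MVB)`: the Koszul homology (letters `C`, degree `d`) of the module of `S`-cycles (letters of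
degree `N`) vanishes. -/
def MVB (v N d s p e : ℕ) : Prop :=
  ∀ (A : Type) [Fintype A] [DecidableEq A] (δ : A → ℕ) (T S C : Finset A) (w : A)
    (f : PX K A v), Cf T S C w → S.card = s → C.card = p →
    (∀ u ∈ S, δ u = N) → (∀ u ∈ C, δ u = d) → δ w = e + d → Cg δ T S C f →
    Cy S w f → Cy C w f →
    ∃ g : PX K (Option A) v, Cg (ext δ d w e) (sm T) (sm S) (isn C) g ∧ Cy (sm S) (some w) g ∧
      rn w g = f

/-- `CLAIM^H(i)`, for the coordinate `k`: if every monomial of `f` not divisible by `X_{w,k}` is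
divisible by `X_{p,k}` for at least `i` points `p ∈ T ∪ S`, then `X_{S,k} f` is good. -/
def CH (v M β t s l i : ℕ) : Prop :=
  ∀ (A : Type) [Fintype A] [DecidableEq A] (T S C : Finset A) (w : A) (k : Fin v)
    (f : PX K A v), Cf T S C w → Sp T S C w → T.card = t → S.card = s → C.card = l →
    Zc M T S C w (2 * M + 2 + β) f →
    (∀ m ∈ f.support, m (w, k) = 0 → i ≤ ((T ∪ S).filter fun p => 1 ≤ m (p, k)).card) →
    Good M β T (S ∪ C) w ((∏ p ∈ S, X (p, k)) * f)

/-- The product `∏ x(p) b_p(p)` over the points `p ∈ P`. -/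
noncomputable def xb {K : Type} [Field K] {A : Type} {v : ℕ} (x : Fin v → K)
    (b : A → MvPolynomial (Fin v) K) (P : Finset A) : PX K A v :=
  ∏ p ∈ P, (lin x p * atp p (b p))

/-- The lifting relation: `f` is a bicycle, congruent modulo `x(w)` to the symmetrisation of
`∏_{p ∈ T₁ ∪ S₁} x(p) b_p(p) · m`. -/
def LR {K : Type} [Field K] {A : Type} [Fintype A] [DecidableEq A] {v : ℕ} (M β : ℕ)
    (T S C T₁ S₁ : Finset A) (w : A) (x : Fin v → K) (b : A → MvPolynomial (Fin v) K)
    (m f : PX K A v) : Prop :=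
  Zc M T S C w (2 * M + 2 + β) f ∧ lin x w ∣ smz T (alt S (xb x b (T₁ ∪ S₁) * m)) - f

/-- The conclusion of `FCLAIM` for `m`. -/
def FCm {K : Type} [Field K] {A : Type} [Fintype A] [DecidableEq A] {v : ℕ} (M β : ℕ)
    (T S C T₁ S₁ : Finset A) (w : A) (m : PX K A v) : Prop :=
  ∀ (x : Fin v → K) (b : A → MvPolynomial (Fin v) K) (f : PX K A v), x ≠ 0 →
    (∀ p, (b p).IsHomogeneous M) → LR M β T S C T₁ S₁ w x b m f →
    Good M β T (S ∪ C) w (xS x S * f)

/-- `FCLAIM(a, b)`. -/
def FC (v M β t s l a b : ℕ) : Prop :=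
  ∀ (A : Type) [Fintype A] [DecidableEq A] (T S C T₁ S₁ : Finset A) (w : A) (m : PX K A v),
    Cf T S C w → Sp T S C w → T.card = t → S.card = s → C.card = l → T₁ ⊆ T → S₁ ⊆ S →
    T₁.card = a → S₁.card = b → Zc M (T \ T₁) (S \ S₁) C w (2 * M + 2 + β) m →
    FCm M β T S C T₁ S₁ w m

/-- `(N0)`: the conclusion of `FCLAIM` for `m` in the ideal of the `x(p)`, for this `x`. -/
def N0P (v M β t s l i : ℕ) : Prop :=
  ∀ (A : Type) [Fintype A] [DecidableEq A] (T S C T₁ S₁ : Finset A) (w : A) (x : Fin v → K)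
    (b : A → MvPolynomial (Fin v) K) (m f : PX K A v),
    Cf T S C w → Sp T S C w → T.card = t → S.card = s → C.card = l → T₁ ⊆ T → S₁ ⊆ S →
    T₁.card + S₁.card = i → x ≠ 0 → (∀ p, (b p).IsHomogeneous M) →
    Zc M (T \ T₁) (S \ S₁) C w (2 * M + 2 + β) m →
    m ∈ Ideal.span (Set.range fun p : A => (lin x p : PX K A v)) →
    LR M β T S C T₁ S₁ w x b m f → Good M β T (S ∪ C) w (xS x S * f)

/-- `(N0)` for the coordinate `k`. -/
def N0K (v M β t s l i : ℕ) : Prop :=
  ∀ (A : Type) [Fintype A] [DecidableEq A] (T S C T₁ S₁ : Finset A) (w : A) (k : Fin v)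
    (b : A → MvPolynomial (Fin v) K) (m f : PX K A v),
    Cf T S C w → Sp T S C w → T.card = t → S.card = s → C.card = l → T₁ ⊆ T → S₁ ⊆ S →
    T₁.card + S₁.card = i → (∀ p, (b p).IsHomogeneous M) →
    Zc M (T \ T₁) (S \ S₁) C w (2 * M + 2 + β) m →
    (∀ μ ∈ m.support, ∃ p, 1 ≤ μ (p, k)) →
    LR M β T S C T₁ S₁ w (Pi.single k 1) b m f →
    Good M β T (S ∪ C) w (xS (Pi.single k 1) S * f)

/-- `HG(κ, e, D)` in `v` variables, letters of degree at least `N`: highest weight families of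
weight `ν` with `ν j ≤ D` for all `j` are glueable. -/
def HG (v N κ e D : ℕ) : Prop :=
  ∀ (A : Type) [Fintype A] [DecidableEq A] (δ : A → ℕ) (Λ : Finset A) (w : A)
    (ν : Fin v → ℕ) (x : A → PX K A v), w ∉ Λ → Λ.card = κ → (∀ u ∈ Λ, N ≤ δ u) →
    δ w = e → (∀ p, p ∉ Λ → p ≠ w → δ p = 0) → (∀ j, ν j ≤ D) →
    (∀ u ∈ Λ, Dg (Function.update (Function.update δ u 0) w (e + δ u)) (x u)) →
    (∀ u ∈ Λ, ∀ u' ∈ Λ, u ≠ u' → ren (mv u' w) (x u) = ren (mv u w) (x u')) →
    (∀ u ∈ Λ, HasW ν (x u)) → (∀ u ∈ Λ, ∀ i j : Fin v, i < j → Eij i j (x u) = 0) →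
    ∃ y : PX K A v, Dg δ y ∧ HasW ν y ∧ (∀ i j : Fin v, i < j → Eij i j y = 0) ∧
      ∀ u ∈ Λ, ren (mv u w) y = x u

end Pool.Agent.VOP
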