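import Pool.Agent.VOP.Iface
import Pool.Agent.VSY.PAR

/-!
# The Ottaviani-Paoletti conjecture (MP_deb8da_ag): block V+L, definitions

Koszul chains with values in an abstract graded module `E 0, E 1, …` of submodules of a vector space
`W` with commuting operators `X 0, …, X (v - 1)`: alternating functions on tuples of monomials.
-/

namespace Pool.Agent.VOP

open MvPolynomial Pool.Agent.VSY

/-- The exponents of degree `δ`. -/
abbrev Mn (v δ : ℕ) : Type :=
  ↥(Finset.piAntidiag (Finset.univ : Finset (Fin v)) δ : Finset (Fin v → ℕ))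

section Mod

variable {K : Type} [Field K] {v : ℕ} {W : Type} [AddCommGroup W] [Module K W]

/-- The operators commute and raise the degree by one. -/
def GrM (X : Fin v → (W →ₗ[K] W)) (E : ℕ → Submodule K W) : Prop :=
  (∀ i j, X i ∘ₗ X j = X j ∘ₗ X i) ∧ ∀ k i, ∀ x ∈ E k, X i x ∈ E (k + 1)

/-- The monomial `X^α` as an operator. -/
noncomputable def mo (X : Fin v → (W →ₗ[K] W)) (α : Fin v → ℕ) : W →ₗ[K] W :=
  ((List.finRange v).map fun i => (X i : Module.End K W) ^ α i).prod

/-- Alternating functions. -/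
def AltF {δ p : ℕ} (c : (Fin p → Mn v δ) → W) : Prop :=
  ∀ (σ : Equiv.Perm (Fin p)) (t : Fin p → Mn v δ),
    c (t ∘ σ) = ((Equiv.Perm.sign σ : ℤˣ) : ℤ) • c t

/-- The boundary. -/
noncomputable def bdF (X : Fin v → (W →ₗ[K] W)) {δ p : ℕ} (c : (Fin (p + 1) → Mn v δ) → W)
    (t : Fin p → Mn v δ) : W :=
  ∑ α : Mn v δ, mo X α.1 (c (Fin.cons α t))

/-- Cycles: the boundary is zero (no condition for `p = 0`). -/
def CycF (X : Fin v → (W →ₗ[K] W)) {δ p : ℕ} (c : (Fin p → Mn v δ) → W) : Prop :=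
  ∀ (i : Fin p) (t : Fin p → Mn v δ),
    ∑ α : Mn v δ, mo X α.1 (c (Function.update t i α)) = 0

/-- Exactness of the Koszul complex of `E` with letters of degree `δ`, at `p` letters and values in
`E (e + δ)`. -/
def KE (X : Fin v → (W →ₗ[K] W)) (E : ℕ → Submodule K W) (δ p e : ℕ) : Prop :=
  ∀ c : (Fin p → Mn v δ) → W, AltF c → (∀ t, c t ∈ E (e + δ)) → CycF X c →
    ∃ y : (Fin (p + 1) → Mn v δ) → W, AltF y ∧ (∀ t, y t ∈ E e) ∧ ∀ t, bdF X y t = c t

/-- Exactness of the linear Koszul complex of `E` in all degrees `> m`. -/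
def LK (X : Fin v → (W →ₗ[K] W)) (E : ℕ → Submodule K W) (m : ℕ) : Prop :=
  ∀ q e, m ≤ e → KE X E 1 q e

/-! ### the free module on `W` -/

/-- Polynomials in `v` variables with coefficients in `W`. -/
abbrev FR (v : ℕ) (W : Type) [AddCommGroup W] : Type := (Fin v → ℕ) →₀ W

/-- Multiplication by the variable `i`. -/
noncomputable def frX (K : Type) [Field K] (v : ℕ) (W : Type) [AddCommGroup W] [Module K W]
    (i : Fin v) : FR v W →ₗ[K] FR v W :=
  Finsupp.lmapDomain W K fun α => α + Pi.single i 1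

/-- The evaluation `FR v W → W`. -/
noncomputable def eps (X : Fin v → (W →ₗ[K] W)) : FR v W →ₗ[K] W :=
  Finsupp.lsum K fun α => mo X α

/-- The polynomials of degree `k` with coefficients in `Y`. -/
def FE (v : ℕ) (Y : Submodule K W) (k : ℕ) : Submodule K (FR v W) where
  carrier := {F | ∀ α, F α ∈ Y ∧ (F α ≠ 0 → ∑ j, α j = k)}
  add_mem' := by
    intro F G hF hG α
    refine ⟨add_mem (hF α).1 (hG α).1, fun h => ?_⟩
    by_cases h1 : F α = 0
    · refine (hG α).2 fun h2 => h ?_
      rw [Finsupp.add_apply, h1, h2, add_zero]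
    · exact (hF α).2 h1
  zero_mem' := fun α => ⟨zero_mem _, fun h => absurd rfl h⟩
  smul_mem' := by
    intro a F hF α
    refine ⟨Submodule.smul_mem _ _ (hF α).1, fun h => (hF α).2 fun h1 => h ?_⟩
    rw [Finsupp.smul_apply, h1, smul_zero]

/-- The relations of `E` in the generators of degree `m`: polynomials of degree `k - m` with
coefficients in `E m`, of value zero. -/
def ER (X : Fin v → (W →ₗ[K] W)) (E : ℕ → Submodule K W) (m k : ℕ) : Submodule K (FR v W) where
  carrier := {F | (∀ α, F α ∈ E m ∧ (F α ≠ 0 → ∑ j, α j + m = k)) ∧ eps X F = 0}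
  add_mem' := by
    rintro F G ⟨hF, hF'⟩ ⟨hG, hG'⟩
    refine ⟨fun α => ⟨add_mem (hF α).1 (hG α).1, fun h => ?_⟩, by rw [map_add, hF', hG', add_zero]⟩
    by_cases h1 : F α = 0
    · refine (hG α).2 fun h2 => h ?_
      rw [Finsupp.add_apply, h1, h2, add_zero]
    · exact (hF α).2 h1
  zero_mem' := ⟨fun α => ⟨zero_mem _, fun h => absurd rfl h⟩, map_zero _⟩
  smul_mem' := by
    rintro a F ⟨hF, hF'⟩
    refine ⟨fun α => ⟨Submodule.smul_mem _ _ (hF α).1, fun h => (hF α).2 fun h1 => h ?_⟩,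
      by rw [map_smul, hF', smul_zero]⟩
    rw [Finsupp.smul_apply, h1, smul_zero]

end Mod

/-! ### points -/

section Pt

variable {K : Type} [Field K] {A : Type} [DecidableEq A] {v : ℕ}

/-- Multiplication by the coordinates of the point `w`. -/
noncomputable def wX (w : A) (i : Fin v) : PX K A v →ₗ[K] PX K A v :=
  LinearMap.mulLeft K (X (w, i))

/-- Polynomials of degree `k` at `w` and `δ` elsewhere, symmetric in `T`, alternating in `S`. -/
def FS (δ : A → ℕ) (T S : Finset A) (w : A) (k : ℕ) : Submodule K (PX K A v) where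
  carrier := {f | Dg (Function.update δ w k) f ∧ Sy T f ∧ Al S f}
  add_mem' := by
    rintro f g ⟨h1, h2, h3⟩ ⟨h1', h2', h3'⟩
    refine ⟨fun m hm => ?_, fun x hx y hy => ?_, fun x hx y hy hxy => ?_⟩
    · classical
      rcases Finset.mem_union.1 (support_add hm) with h | h
      · exact h1 m h
      · exact h1' m h
    · rw [map_add, h2 x hx y hy, h2' x hx y hy]
    · rw [map_add, h3 x hx y hy hxy, h3' x hx y hy hxy, neg_add]
  zero_mem' := ⟨fun m hm => by simp at hm, fun x _ y _ => by rw [map_zero],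
    fun x _ y _ _ => by rw [map_zero, neg_zero]⟩
  smul_mem' := by
    rintro a f ⟨h1, h2, h3⟩
    refine ⟨fun m hm => h1 m ?_, fun x hx y hy => ?_, fun x hx y hy hxy => ?_⟩
    · exact support_smul hm
    · rw [map_smul, h2 x hx y hy]
    · rw [map_smul, h3 x hx y hy hxy, smul_neg]

/-- The module of `S`-cycles. -/
def ES (δ : A → ℕ) (T S : Finset A) (w : A) (k : ℕ) : Submodule K (PX K A v) where
  carrier := {f | f ∈ FS (K := K) δ T S w k ∧ Cy S w f}
  add_mem' := by
    rintro f g ⟨h1, h2⟩ ⟨h1', h2'⟩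
    exact ⟨add_mem h1 h1', fun u hu => by rw [map_add, h2 u hu, h2' u hu, add_zero]⟩
  zero_mem' := ⟨zero_mem _, fun u _ => map_zero _⟩
  smul_mem' := by
    rintro a f ⟨h1, h2⟩
    exact ⟨Submodule.smul_mem _ _ h1, fun u hu => by rw [map_smul, h2 u hu, smul_zero]⟩

/-- The monomial `∏_i X(c i)^(t i)`. -/
noncomputable def mc {p : ℕ} (c : Fin p → A) (t : Fin p → Fin v → ℕ) : PX K A v :=
  ∏ i, ∏ j, X (c i, j) ^ t i j

end Pt

end Pool.Agent.VOP
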