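import Pool.Agent.VOP.StmtsN

/-!
# Module EST: the `m` satisfying `FCm` form a subspace stable under the `E_ij`
-/

namespace Pool.Agent.VOP

open MvPolynomial Pool.Agent.VSY

namespace EST

variable {K : Type} [Field K] {A : Type} [Fintype A] [DecidableEq A] {v : ℕ}

/-- The matrix `1 + c e_{ji}`. -/
def gc (i j : Fin v) (c : K) : Fin v → Fin v → K := fun a b =>
  (if b = a then 1 else 0) + if a = j ∧ b = i then c else 0

theorem sb_X (i j : Fin v) (c : K) (y : A × Fin v) :
    sb (gc i j c) (X y : PX K A v) =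
      X y + if y.2 = j then C c * X (y.1, i) else 0 := by
  classical
  obtain ⟨p, l⟩ := y
  rw [sb, aeval_X, lin]
  simp only [gc, C_add, add_mul, Finset.sum_add_distrib]
  congr 1
  · rw [Finset.sum_eq_single l]
    · simp
    · intro b _ hb
      simp [hb]
    · intro h
      exact absurd (Finset.mem_univ l) h
  · by_cases hl : l = j
    · subst hl
      rw [Finset.sum_eq_single i]
      · simp
      · intro b _ hb
        simp [hb]
      · intro h
        exact absurd (Finset.mem_univ i) h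
    · simp [hl]

/-- The substitution with an unknown `c`. -/
noncomputable def Th (i j : Fin v) : PX K A v →ₐ[K] Polynomial (PX K A v) :=
  aeval fun y : A × Fin v => Polynomial.C (X y) +
    if y.2 = j then Polynomial.X * Polynomial.C (X (y.1, i)) else 0

theorem Th_X (i j : Fin v) (y : A × Fin v) : Th i j (X y : PX K A v) = Polynomial.C (X y) +
    if y.2 = j then Polynomial.X * Polynomial.C (X (y.1, i)) else 0 := by
  rw [Th, aeval_X]

theorem Th_C (i j : Fin v) (a : K) : Th i j (C a : PX K A v) = Polynomial.C (C a) := by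
  rw [Th, aeval_C]
  rfl

theorem Th_eval (i j : Fin v) (c : K) (m : PX K A v) :
    Polynomial.eval (C c) (Th i j m) = sb (gc i j c) m := by
  induction m using MvPolynomial.induction_on with
  | C a =>
    rw [Th_C, Polynomial.eval_C, sb, aeval_C]
    rfl
  | add p q hp hq => rw [map_add, map_add, Polynomial.eval_add, hp, hq]
  | mul_X p y hp =>
    rw [map_mul, map_mul, Polynomial.eval_mul, hp, sb_X, Th_X, Polynomial.eval_add,
      Polynomial.eval_C]
    split_ifs with h
    · rw [Polynomial.eval_mul, Polynomial.eval_C, Polynomial.eval_X]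
    · rw [Polynomial.eval_zero]

theorem Th_coeff_zero (i j : Fin v) (m : PX K A v) : (Th i j m).coeff 0 = m := by
  induction m using MvPolynomial.induction_on with
  | C a => rw [Th_C, Polynomial.coeff_C_zero]
  | add p q hp hq => rw [map_add, Polynomial.coeff_add, hp, hq]
  | mul_X p y hp =>
    rw [map_mul, Polynomial.mul_coeff_zero, hp, Th_X, Polynomial.coeff_add,
      Polynomial.coeff_C_zero]
    split_ifs with h
    · rw [Polynomial.mul_coeff_zero, Polynomial.coeff_X_zero, zero_mul, add_zero]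
    · rw [Polynomial.coeff_zero, add_zero]

theorem Eij_apply (i j : Fin v) (m : PX K A v) :
    Eij i j m = ∑ p : A, X (p, i) * pderiv (p, j) m := by
  simp [Eij, LinearMap.sum_apply]

theorem Eij_C (i j : Fin v) (a : K) : Eij i j (C a : PX K A v) = 0 := by
  rw [Eij_apply]
  simp

theorem Eij_X (i j : Fin v) (y : A × Fin v) :
    Eij i j (X y : PX K A v) = if y.2 = j then X (y.1, i) else 0 := by
  classical
  rw [Eij_apply]
  obtain ⟨p, l⟩ := y
  by_cases h : l = j
  · subst h
    rw [if_pos rfl, Finset.sum_eq_single p]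
    · simp
    · intro b _ hb
      rw [pderiv_X_of_ne, mul_zero]
      intro h
      exact hb (congrArg Prod.fst h).symm
    · intro h
      exact absurd (Finset.mem_univ p) h
  · rw [if_neg h]
    refine Finset.sum_eq_zero fun b _ => ?_
    rw [pderiv_X_of_ne, mul_zero]
    intro h'
    exact h (congrArg Prod.snd h')

theorem Eij_mul (i j : Fin v) (p q : PX K A v) :
    Eij i j (p * q) = p * Eij i j q + Eij i j p * q := by
  rw [Eij_apply, Eij_apply, Eij_apply, Finset.mul_sum, Finset.sum_mul,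
    ← Finset.sum_add_distrib]
  refine Finset.sum_congr rfl fun b _ => ?_
  rw [Derivation.leibniz]
  simp only [smul_eq_mul]
  ring

theorem Th_coeff_one (i j : Fin v) (m : PX K A v) : (Th i j m).coeff 1 = Eij i j m := by
  induction m using MvPolynomial.induction_on with
  | C a => rw [Th_C, Polynomial.coeff_C_of_ne_zero one_ne_zero, Eij_C]
  | add p q hp hq => rw [map_add, Polynomial.coeff_add, hp, hq, map_add]
  | mul_X p y hp =>
    rw [map_mul, Polynomial.mul_coeff_one, hp, Th_coeff_zero, Th_coeff_zero, Eij_mul, Eij_X,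
      Th_X, Polynomial.coeff_add, Polynomial.coeff_C_of_ne_zero one_ne_zero, zero_add]
    split_ifs with h
    · rw [Polynomial.coeff_X_mul, Polynomial.coeff_C_zero]
    · rw [Polynomial.coeff_zero]

theorem sb_gc_eq (i j : Fin v) (c : K) (m : PX K A v) :
    sb (gc i j c) m =
      ∑ n ∈ Finset.range ((Th i j m).natDegree + 1 + 1), c ^ n • (Th i j m).coeff n := by
  rw [← Th_eval, Polynomial.eval_eq_sum_range' (n := (Th i j m).natDegree + 1 + 1) (by omega)]
  refine Finset.sum_congr rfl fun n _ => ?_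
  rw [← C_pow, mul_comm, C_mul']

theorem gc_inv (i j : Fin v) (c c' : K) (h : c + c' + (if i = j then c * c' else 0) = 0)
    (f : PX K A v) : sb (gc i j c') (sb (gc i j c) f) = f := by
  have e : (sb (gc i j c')).comp (sb (gc i j c)) = AlgHom.id K (PX K A v) := by
    apply MvPolynomial.algHom_ext
    intro y
    rw [AlgHom.comp_apply, AlgHom.id_apply, sb_X, map_add, sb_X]
    by_cases hy : y.2 = j
    · rw [if_pos hy, if_pos hy, map_mul, sb_X]
      have hc : sb (gc i j c') (C c : PX K A v) = C c := by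
        rw [sb, aeval_C]
        rfl
      rw [hc]
      by_cases hij : i = j
      · rw [if_pos hij] at h
        rw [if_pos (show ((y.1, i) : A × Fin v).2 = j from hij)]
        have h2 : (C c + C c' + C c * C c' : PX K A v) = 0 := by
          rw [← C_mul, ← C_add, ← C_add, h, C_0]
        linear_combination (X (y.1, i) : PX K A v) * h2
      · rw [if_neg hij, add_zero] at h
        rw [if_neg (show ¬ ((y.1, i) : A × Fin v).2 = j from hij)]
        have h2 : (C c + C c' : PX K A v) = 0 := by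
          rw [← C_add, h, C_0]
        linear_combination (X (y.1, i) : PX K A v) * h2
    · rw [if_neg hy, if_neg hy, map_zero, add_zero, add_zero]
  exact congrArg (fun F : PX K A v →ₐ[K] PX K A v => F f) e

theorem exists_inv (i j : Fin v) (c : K) (hc : c ≠ -1) :
    ∃ g' : Fin v → Fin v → K, (∀ f : PX K A v, sb g' (sb (gc i j c) f) = f) ∧
      (∀ f : PX K A v, sb (gc i j c) (sb g' f) = f) := by
  by_cases hij : i = j
  · have h1 : 1 + c ≠ 0 := by
      intro h
      exact hc (eq_neg_of_add_eq_zero_right h)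
    have h2 : c + (-c / (1 + c)) + c * (-c / (1 + c)) = 0 := by
      field_simp
      ring
    refine ⟨gc i j (-c / (1 + c)), gc_inv i j _ _ ?_, gc_inv i j _ _ ?_⟩
    · rw [if_pos hij]
      exact h2
    · rw [if_pos hij]
      linear_combination h2
  · refine ⟨gc i j (-c), gc_inv i j _ _ ?_, gc_inv i j _ _ ?_⟩
    · rw [if_neg hij]
      ring
    · rw [if_neg hij]
      ring

theorem Zc_zero (h1 : Stmt_DG) (M : ℕ) (T S C : Finset A) (w : A) (r : ℕ) :
    Zc M T S C w r (0 : PX K A v) := by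
  obtain ⟨d0, -⟩ := h1 K A A v
  refine ⟨⟨d0 _, ?_, ?_, ?_⟩, ?_, ?_⟩
  · intro x _ y _
    rw [map_zero]
  · intro x _ y _ _
    rw [map_zero, neg_zero]
  · intro x _ y _ _
    rw [map_zero, neg_zero]
  · intro u _
    rw [map_zero]
  · intro u _
    rw [map_zero]

theorem Zc_add (h1 : Stmt_DG) {M : ℕ} {T S C : Finset A} {w : A} {r : ℕ} {f g : PX K A v}
    (hf : Zc M T S C w r f) (hg : Zc M T S C w r g) : Zc M T S C w r (f + g) := by
  obtain ⟨-, dA, -⟩ := h1 K A A v
  refine ⟨⟨(dA _ _ _ hf.cg.dg hg.cg.dg).1, ?_, ?_, ?_⟩, ?_, ?_⟩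
  · intro x hx y hy
    rw [map_add, hf.cg.sy x hx y hy, hg.cg.sy x hx y hy]
  · intro x hx y hy hxy
    rw [map_add, hf.cg.alS x hx y hy hxy, hg.cg.alS x hx y hy hxy, neg_add]
  · intro x hx y hy hxy
    rw [map_add, hf.cg.alC x hx y hy hxy, hg.cg.alC x hx y hy hxy, neg_add]
  · intro u hu
    rw [map_add, hf.cyS u hu, hg.cyS u hu, add_zero]
  · intro u hu
    rw [map_add, hf.cyC u hu, hg.cyC u hu, add_zero]

theorem Zc_smul (h1 : Stmt_DG) {M : ℕ} {T S C : Finset A} {w : A} {r : ℕ} (a : K)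
    {f : PX K A v} (hf : Zc M T S C w r f) : Zc M T S C w r (a • f) := by
  obtain ⟨-, -, dS, -⟩ := h1 K A A v
  refine ⟨⟨(dS _ a 1 _ hf.cg.dg).1, ?_, ?_, ?_⟩, ?_, ?_⟩
  · intro x hx y hy
    rw [map_smul, hf.cg.sy x hx y hy]
  · intro x hx y hy hxy
    rw [map_smul, hf.cg.alS x hx y hy hxy, smul_neg]
  · intro x hx y hy hxy
    rw [map_smul, hf.cg.alC x hx y hy hxy, smul_neg]
  · intro u hu
    rw [map_smul, hf.cyS u hu, smul_zero]
  · intro u hu
    rw [map_smul, hf.cyC u hu, smul_zero]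

/-- The bicycles. -/
def ZS (K : Type) [Field K] (v : ℕ) (h1 : Stmt_DG) (M : ℕ) (T S C : Finset A) (w : A) (r : ℕ) :
    Submodule K (PX K A v) where
  carrier := {f | Zc M T S C w r f}
  add_mem' := fun hf hg => Zc_add h1 hf hg
  zero_mem' := Zc_zero h1 M T S C w r
  smul_mem' := fun a _ hf => Zc_smul h1 a hf

theorem cf' {T S C : Finset A} {w : A} (hcf : Cf T S C w) : Cf T ∅ (S ∪ C) w := by
  refine ⟨Finset.disjoint_empty_right _, ?_, Finset.disjoint_empty_left _, hcf.wT,
    Finset.notMem_empty _, ?_⟩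
  · rw [Finset.disjoint_union_right]
    exact ⟨hcf.TS, hcf.TC⟩
  · rw [Finset.mem_union, not_or]
    exact ⟨hcf.wS, hcf.wC⟩

/-- The `f` with `xS x S * f` good. -/
def GS (K : Type) [Field K] [CharZero K] (v : ℕ) (h4 : Stmt_GD0) (M β : ℕ) (T S C : Finset A)
    (w : A) (x : Fin v → K) (hcf : Cf T S C w) : Submodule K (PX K A v) where
  carrier := {f | Good M β T (S ∪ C) w (xS x S * f)}
  add_mem' := fun {f g} hf hg => by
    obtain ⟨-, -, -, gA, -⟩ := h4 K A v M β T (S ∪ C) w (cf' hcf)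
    show Good M β T (S ∪ C) w (xS x S * (f + g))
    rw [mul_add]
    exact (gA _ _ hf hg).1
  zero_mem' := by
    obtain ⟨-, -, g0, -⟩ := h4 K A v M β T (S ∪ C) w (cf' hcf)
    show Good M β T (S ∪ C) w (xS x S * 0)
    rw [mul_zero]
    exact g0
  smul_mem' := fun a f hf => by
    obtain ⟨-, -, -, -, gS, -⟩ := h4 K A v M β T (S ∪ C) w (cf' hcf)
    show Good M β T (S ∪ C) w (xS x S * (a • f))
    rw [mul_smul_comm]
    exact gS a _ hf

/-- The pairs `(m, f)` with `LR .. m f`. -/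
def LS (K : Type) [Field K] (v : ℕ) (h1 : Stmt_DG) (h3 : Stmt_SYM) (M β : ℕ)
    (T S C T₁ S₁ : Finset A) (w : A) (x : Fin v → K) (b : A → MvPolynomial (Fin v) K) :
    Submodule K (PX K A v × PX K A v) where
  carrier := {p | LR M β T S C T₁ S₁ w x b p.1 p.2}
  add_mem' := fun {p q} hp hq => by
    obtain ⟨-, -, -, -, -, -, -, -, sA, -⟩ := h3 K A v
    refine ⟨Zc_add h1 hp.1 hq.1, ?_⟩
    have e : smz T (alt S (xb x b (T₁ ∪ S₁) * (p + q).1)) - (p + q).2 =
        (smz T (alt S (xb x b (T₁ ∪ S₁) * p.1)) - p.2) +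
        (smz T (alt S (xb x b (T₁ ∪ S₁) * q.1)) - q.2) := by
      rw [Prod.fst_add, Prod.snd_add, mul_add, (sA S _ _ 1).1, (sA T _ _ 1).2.1]
      ring
    rw [e]
    exact dvd_add hp.2 hq.2
  zero_mem' := by
    obtain ⟨-, -, -, -, -, -, -, -, sA, -⟩ := h3 K A v
    refine ⟨Zc_zero h1 _ _ _ _ _ _, ?_⟩
    have e : smz T (alt S (xb x b (T₁ ∪ S₁) * (0 : PX K A v × PX K A v).1)) -
        (0 : PX K A v × PX K A v).2 = 0 := by
      rw [Prod.fst_zero, Prod.snd_zero, mul_zero, sub_zero]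
      have e1 := (sA S (0 : PX K A v) 0 0).2.2.1
      rw [zero_smul, zero_smul] at e1
      have e2 := (sA T (0 : PX K A v) 0 0).2.2.2.1
      rw [zero_smul, zero_smul] at e2
      rw [e1, e2]
    rw [e]
    exact dvd_zero _
  smul_mem' := fun a p hp => by
    obtain ⟨-, -, -, -, -, -, -, -, sA, -⟩ := h3 K A v
    refine ⟨Zc_smul h1 a hp.1, ?_⟩
    have e : smz T (alt S (xb x b (T₁ ∪ S₁) * (a • p).1)) - (a • p).2 =
        a • (smz T (alt S (xb x b (T₁ ∪ S₁) * p.1)) - p.2) := by
      rw [Prod.smul_fst, Prod.smul_snd, mul_smul_comm, (sA S _ 0 a).2.2.1,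
        (sA T _ 0 a).2.2.2.1, smul_sub]
    rw [e]
    obtain ⟨q, hq⟩ := hp.2
    exact ⟨a • q, by rw [hq, mul_smul_comm]⟩

theorem mem_LS {K : Type} [Field K] {v : ℕ} {h1 : Stmt_DG} {h3 : Stmt_SYM} {M β : ℕ}
    {T S C T₁ S₁ : Finset A} {w : A} {x : Fin v → K} {b : A → MvPolynomial (Fin v) K}
    {m f : PX K A v} :
    (m, f) ∈ LS K v h1 h3 M β T S C T₁ S₁ w x b ↔ LR M β T S C T₁ S₁ w x b m f := Iff.rfl

theorem exl [CharZero K] (h6 : Stmt_MSX) (h7 : Stmt_LFT) {M β s l : ℕ}
    (hL : LIFT K v (M + 1) (M + 2) s l (2 * M + 1 + β)) {T S C T₁ S₁ : Finset A} {w : A}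
    (hcf : Cf T S C w) (hs : S.card = s) (hl : C.card = l) (hT : T₁ ⊆ T) (hS : S₁ ⊆ S)
    {x : Fin v → K} (hx : x ≠ 0) {b : A → MvPolynomial (Fin v) K}
    (hb : ∀ p, (b p).IsHomogeneous M) {m : PX K A v}
    (hm : Zc M (T \ T₁) (S \ S₁) C w (2 * M + 2 + β) m) :
    ∃ f, LR M β T S C T₁ S₁ w x b m f := by
  obtain ⟨hc, hd⟩ := h6 K v M (2 * M + 2 + β) A T S C T₁ S₁ w x b m hcf hT hS hb hm
  obtain ⟨f, hf, hdv⟩ := (h7 K v M β 0 s l).1 hL A T S C w x _ hcf hs hl hx hc hd
  exact ⟨f, hf, hdv⟩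

end EST

open EST in
theorem EST_thm (h1 : Stmt_DG) (_h2 : Stmt_DIV) (h3 : Stmt_SYM) (h4 : Stmt_GD0)
    (h5 : Stmt_SBT) (h6 : Stmt_MSX) (h7 : Stmt_LFT) (h8 : Stmt_N1) (h9 : Stmt_VDM) :
    Stmt_EST := by
  intro K _ _ v M β t s l hL hA A _ _ T S C T₁ S₁ w hcf hsp ht hs hl hT hS
  have hEX : ∀ (x : Fin v → K) (b : A → MvPolynomial (Fin v) K) (m : PX K A v), x ≠ 0 →
      (∀ p, (b p).IsHomogeneous M) → Zc M (T \ T₁) (S \ S₁) C w (2 * M + 2 + β) m →
      ∃ f, LR M β T S C T₁ S₁ w x b m f := fun x b m hx hb hm =>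
    exl h6 h7 hL hcf hs hl hT hS hx hb hm
  obtain ⟨-, -, g0, gA, gS, gI, -, -⟩ := h4 K A v M β T (S ∪ C) w (cf' hcf)
  refine ⟨?_, ?_, ?_⟩
  · intro m m' hm hm' hF hF' x b f hx hb hf
    obtain ⟨f₁, hf₁⟩ := hEX x b m hx hb hm
    have h2 : LR M β T S C T₁ S₁ w x b m' (f - f₁) := by
      have e := (LS K v h1 h3 M β T S C T₁ S₁ w x b).sub_mem (mem_LS.2 hf) (mem_LS.2 hf₁)
      rwa [Prod.mk_sub_mk, add_sub_cancel_left] at e
    have e1 := hF x b f₁ hx hb hf₁
    have e2 := hF' x b (f - f₁) hx hb h2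
    have e3 := (gA _ _ e1 e2).1
    rwa [← mul_add, add_sub_cancel] at e3
  · intro a m hm hF x b f hx hb hf
    by_cases ha : a = 0
    · subst ha
      rw [zero_smul] at hf
      have h00 : LR M β T S C T₁ S₁ w x b 0 0 :=
        (LS K v h1 h3 M β T S C T₁ S₁ w x b).zero_mem
      have hd : lin x w ∣ f - 0 := by
        have e := dvd_sub h00.2 hf.2
        rwa [sub_sub_sub_cancel_left] at e
      refine (h7 K v M β t s l).2 hA A T S C w x f 0 hcf hsp ht hs hl hx hf.1 h00.1 hd ?_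
      rw [mul_zero]
      exact g0
    · have h2 : LR M β T S C T₁ S₁ w x b m (a⁻¹ • f) := by
        have e := (LS K v h1 h3 M β T S C T₁ S₁ w x b).smul_mem a⁻¹ (mem_LS.2 hf)
        rwa [Prod.smul_mk, smul_smul, inv_mul_cancel₀ ha, one_smul] at e
      have e1 := hF x b _ hx hb h2
      rw [mul_smul_comm] at e1
      exact gI _ _ (inv_ne_zero ha) e1
  · intro i j m hm
    have hz : ∀ n ≤ (Th i j m).natDegree + 1, (Th i j m).coeff n ∈
        ZS K v h1 M (T \ T₁) (S \ S₁) C w (2 * M + 2 + β) := by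
      refine h9 K (PX K A v) _ _ (fun n => (Th i j m).coeff n) ∅ ?_
      intro c _
      rw [← sb_gc_eq]
      exact (h5 K v |>.2.2.1 A M β _ _ _ _ w (gc i j c) m).1 hm
    have hz1 : Zc M (T \ T₁) (S \ S₁) C w (2 * M + 2 + β) (Eij i j m) := by
      rw [← Th_coeff_one]
      exact hz 1 (by omega)
    refine ⟨hz1, ?_⟩
    intro hF x b f hx hb hf
    have hG : ∀ n, ∃ g, n ≤ (Th i j m).natDegree + 1 →
        (LR M β T S C T₁ S₁ w x b ((Th i j m).coeff n) g ∧ (n = 1 → g = f)) := by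
      intro n
      by_cases hn : n = 1
      · subst hn
        exact ⟨f, fun _ => ⟨by rw [Th_coeff_one]; exact hf, fun _ => rfl⟩⟩
      · by_cases hn2 : n ≤ (Th i j m).natDegree + 1
        · obtain ⟨g, hg⟩ := hEX x b _ hx hb (hz n hn2)
          exact ⟨g, fun _ => ⟨hg, fun h => absurd h hn⟩⟩
        · exact ⟨0, fun h => absurd h hn2⟩
    choose F hFF using hG
    have hU : ∀ n ≤ (Th i j m).natDegree + 1, F n ∈ GS K v h4 M β T S C w x hcf := by
      refine h9 K (PX K A v) _ _ F {-1} ?_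
      intro c hc
      rw [Finset.mem_singleton] at hc
      obtain ⟨g', hg1, hg2⟩ := exists_inv (A := A) i j c hc
      have hN := h8 K v M β A T S C T₁ S₁ w m (gc i j c) g' hg1 hg2 hF
      refine hN x b _ hx hb ?_
      rw [sb_gc_eq, ← mem_LS (h1 := h1) (h3 := h3)]
      have e := Submodule.sum_mem (LS K v h1 h3 M β T S C T₁ S₁ w x b)
        (t := Finset.range ((Th i j m).natDegree + 1 + 1))
        (f := fun n => c ^ n • (((Th i j m).coeff n, F n) : PX K A v × PX K A v))
        (fun n hn => Submodule.smul_mem _ _ (mem_LS.2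
          (hFF n (by rw [Finset.mem_range] at hn; omega)).1))
      have e2 : ∑ n ∈ Finset.range ((Th i j m).natDegree + 1 + 1),
          c ^ n • (((Th i j m).coeff n, F n) : PX K A v × PX K A v) =
          (∑ n ∈ Finset.range ((Th i j m).natDegree + 1 + 1), c ^ n • (Th i j m).coeff n,
            ∑ n ∈ Finset.range ((Th i j m).natDegree + 1 + 1), c ^ n • F n) := by
        apply Prod.ext
        · rw [Prod.fst_sum]
          rfl
        · rw [Prod.snd_sum]
          rfl
      rw [← e2]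
      exact e
    have e := hU 1 (by omega)
    rw [(hFF 1 (by omega)).2 rfl] at e
    exact e

end Pool.Agent.VOP
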