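import Pool.Agent.VOP.StmtsN

/-!
# Module EXP: expansion of a part of `f` with a fixed set `J` of divisible points
-/

namespace Pool.Agent.VOP

open MvPolynomial Pool.Agent.VSY

namespace EXP

variable {K : Type} [Field K] {A : Type} {v : ℕ}

open Classical in
/-- the coefficient of the monomial `α` in the variables of the points of `J` -/
noncomputable def EE (K : Type) [Field K] (J : Finset A) (α : A × Fin v →₀ ℕ) :
    PX K A v →ₗ[K] PX K A v :=
  (basisMonomials (A × Fin v) K).constr K fun m =>
    if m.filter (fun y => y.1 ∈ J) = α then monomial (m.filter fun y => y.1 ∉ J) 1 else 0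

open Classical in
lemma EE_monomial (J : Finset A) (α m : A × Fin v →₀ ℕ) (c : K) :
    EE K J α (monomial m c) =
      if m.filter (fun y => y.1 ∈ J) = α then monomial (m.filter fun y => y.1 ∉ J) c else 0 := by
  have h1 : (monomial m c : PX K A v) = c • monomial m 1 := by
    rw [smul_monomial, smul_eq_mul, mul_one]
  have h2 : EE K J α (monomial m 1) =
      if m.filter (fun y => y.1 ∈ J) = α then monomial (m.filter fun y => y.1 ∉ J) 1 else 0 := by
    have h3 := (basisMonomials (A × Fin v) K).constr_basis K (fun m : A × Fin v →₀ ℕ =>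
      (if m.filter (fun y => y.1 ∈ J) = α then monomial (m.filter fun y => y.1 ∉ J) 1 else 0 :
        PX K A v)) m
    rw [coe_basisMonomials] at h3
    exact h3
  rw [h1, map_smul, h2]
  split_ifs
  · rw [smul_monomial, smul_eq_mul, mul_one]
  · rw [smul_zero]

lemma filter_mapDomain {Y : Type} (Φ : Y → Y) (P : Y → Prop) [DecidablePred P]
    (h : ∀ y, P (Φ y) ↔ P y) (m : Y →₀ ℕ) :
    (m.mapDomain Φ).filter P = (m.filter P).mapDomain Φ := by
  classical
  induction m using Finsupp.induction_linear with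
  | zero => rw [Finsupp.mapDomain_zero, Finsupp.filter_zero, Finsupp.mapDomain_zero]
  | add f g hf hg =>
    rw [Finsupp.mapDomain_add, Finsupp.filter_add, Finsupp.filter_add, Finsupp.mapDomain_add, hf,
      hg]
  | single a b =>
    rw [Finsupp.mapDomain_single]
    by_cases ha : P a
    · rw [Finsupp.filter_single_of_pos _ ha, Finsupp.filter_single_of_pos _ ((h a).2 ha),
        Finsupp.mapDomain_single]
    · rw [Finsupp.filter_single_of_neg _ ha, Finsupp.filter_single_of_neg _
        (fun h' => ha ((h a).1 h')), Finsupp.mapDomain_zero]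

/-- renamings which fix the points of `J` act coefficientwise -/
lemma ren_EE (J : Finset A) (α : A × Fin v →₀ ℕ) (φ : A → A) (h1 : ∀ a ∈ J, φ a = a)
    (h2 : ∀ a, a ∉ J → φ a ∉ J) (f : PX K A v) :
    ren φ (EE K J α f) = EE K J α (ren φ f) := by
  classical
  have hiff : ∀ y : A × Fin v, (Prod.map φ id y).1 ∈ J ↔ y.1 ∈ J := by
    rintro ⟨a, j⟩
    show φ a ∈ J ↔ a ∈ J
    constructor
    · intro h
      by_contra h'
      exact h2 a h' h
    · intro h
      rw [h1 a h]
      exact h
  induction f using MvPolynomial.induction_on' with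
  | add p q hp hq => rw [map_add, map_add, map_add, map_add, hp, hq]
  | monomial m c =>
    rw [ren_monomial, EE_monomial, EE_monomial,
      filter_mapDomain (Prod.map φ id) (fun y : A × Fin v => y.1 ∈ J) hiff,
      filter_mapDomain (Prod.map φ id) (fun y : A × Fin v => y.1 ∉ J)
        (fun y => not_congr (hiff y))]
    have e1 : (m.filter (fun y => y.1 ∈ J)).mapDomain (Prod.map φ id) =
        m.filter (fun y => y.1 ∈ J) := by
      conv_rhs => rw [← Finsupp.mapDomain_id (v := m.filter (fun y => y.1 ∈ J))]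
      refine Finsupp.mapDomain_congr fun y hy => ?_
      rw [Finsupp.support_filter, Finset.mem_filter] at hy
      exact Prod.ext (h1 _ hy.2) rfl
    rw [e1]
    split_ifs
    · rw [ren_monomial]
    · rw [map_zero]

/-- the decomposition -/
lemma decomp (J : Finset A) (f : PX K A v) : ∃ S0 : Finset (A × Fin v →₀ ℕ),
    (∀ α ∈ S0, ∃ m ∈ f.support, ∀ y, (y.1 ∈ J → α y = m y) ∧ (y.1 ∉ J → α y = 0)) ∧
    f = ∑ α ∈ S0, monomial α 1 * EE K J α f := by
  classical
  refine ⟨f.support.image fun m => m.filter (fun y => y.1 ∈ J), ?_, ?_⟩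
  · intro α hα
    obtain ⟨m, hm, rfl⟩ := Finset.mem_image.1 hα
    exact ⟨m, hm, fun y => ⟨fun h => Finsupp.filter_apply_pos _ _ h,
      fun h => Finsupp.filter_apply_neg _ _ h⟩⟩
  · have h1 : ∀ α, EE K J α f = ∑ m ∈ f.support, EE K J α (monomial m (coeff m f)) := by
      intro α
      conv_lhs => rw [f.as_sum]
      rw [map_sum]
    conv_lhs => rw [f.as_sum]
    simp only [h1, Finset.mul_sum]
    rw [Finset.sum_comm]
    refine Finset.sum_congr rfl fun m hm => ?_
    rw [Finset.sum_eq_single_of_mem (m.filter (fun y => y.1 ∈ J)) (Finset.mem_image_of_mem _ hm)]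
    · rw [EE_monomial, if_pos rfl, monomial_mul, one_mul, Finsupp.filter_add_filter_not]
    · intro α _ hne
      rw [EE_monomial, if_neg hne.symm, mul_zero]

/-- a monomial supported on `J`, all of whose points have degree `M + 1` and are divisible by the
coordinate `k` -/
lemma mon_eq [DecidableEq A] (J : Finset A) (k : Fin v) (α : A × Fin v →₀ ℕ)
    (h0 : ∀ y, y.1 ∉ J → α y = 0) (h1 : ∀ p ∈ J, 1 ≤ α (p, k)) :
    (monomial α 1 : PX K A v) = xb (Pi.single k 1)
      (fun p => monomial (Finsupp.equivFunOnFinite.symm fun j => α (p, j) - if j = k then 1 else 0) 1)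
      J := by
  have e1 : ∀ p : A, (lin (Pi.single k 1) p : PX K A v) = X (p, k) := by
    intro p
    rw [lin, Finset.sum_eq_single k]
    · rw [Pi.single_eq_same, C_1, one_mul]
    · intro j _ hj
      rw [Pi.single_eq_of_ne hj, C_0, zero_mul]
    · intro h
      exact absurd (Finset.mem_univ _) h
  have e2 : ∀ p : A, (lin (Pi.single k 1) p : PX K A v) * atp p (monomial
      (Finsupp.equivFunOnFinite.symm fun j => α (p, j) - if j = k then 1 else 0) 1) =
      monomial (Finsupp.single (p, k) 1 + (Finsupp.equivFunOnFinite.symm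
        fun j => α (p, j) - if j = k then 1 else 0).mapDomain (fun j => (p, j))) 1 := by
    intro p
    rw [e1, atp, rename_monomial, X, monomial_mul, one_mul]
  rw [xb, Finset.prod_congr rfl fun p _ => e2 p]
  have e3 : ∀ (J' : Finset A) (g : A → (A × Fin v →₀ ℕ)),
      ∏ p ∈ J', (monomial (g p) 1 : PX K A v) = monomial (∑ p ∈ J', g p) 1 := by
    intro J' g
    rw [monomial_sum_one]
  rw [e3]
  refine congrArg (fun a => (monomial a 1 : PX K A v)) (Finsupp.ext ?_)
  rintro ⟨q, j⟩
  rw [Finsupp.finsetSum_apply]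
  have e4 : ∀ p : A, (Finsupp.single (p, k) 1 + (Finsupp.equivFunOnFinite.symm
        fun j => α (p, j) - if j = k then 1 else 0).mapDomain (fun j => (p, j)) :
          A × Fin v →₀ ℕ) (q, j) =
      if p = q then ((if j = k then 1 else 0) + (α (q, j) - if j = k then 1 else 0)) else 0 := by
    intro p
    rw [Finsupp.add_apply]
    by_cases hp : p = q
    · subst hp
      rw [if_pos rfl, Finsupp.mapDomain_apply (fun a b h => (Prod.mk.inj h).2)]
      congr 1
      rw [Finsupp.single_apply]
      by_cases hj : j = k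
      · rw [if_pos hj, if_pos (by rw [hj])]
      · rw [if_neg hj, if_neg (fun h => hj (Prod.mk.inj h).2.symm)]
    · rw [if_neg hp, Finsupp.single_eq_of_ne (fun h => hp (Prod.mk.inj h).1.symm), zero_add]
      apply Finsupp.mapDomain_of_notMem_range
      rintro ⟨i, hi⟩
      exact hp (Prod.mk.inj hi).1
  rw [Finset.sum_congr rfl fun p _ => e4 p, Finset.sum_ite_eq']
  by_cases hq : q ∈ J
  · rw [if_pos hq]
    by_cases hj : j = k
    · subst hj
      rw [if_pos rfl]
      have := h1 q hq
      omega
    · rw [if_neg hj]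
      omega
  · rw [if_neg hq, h0 _ hq]

/-- degrees of the coefficients -/
lemma EE_dg {J : Finset A} {α : A × Fin v →₀ ℕ} {δ δ' : A → ℕ} {f : PX K A v}
    (dsum : ∀ (δ : A → ℕ) (ι : Type) (s : Finset ι) (f : ι → PX K A v),
      (∀ i ∈ s, Dg δ (f i)) → Dg δ (∑ i ∈ s, f i)) (dz : ∀ δ : A → ℕ, Dg δ (0 : PX K A v))
    (hf : Dg δ f) (h0 : ∀ p ∈ J, δ' p = 0) (h1 : ∀ p, p ∉ J → δ' p = δ p) :
    Dg δ' (EE K J α f) := by
  classical
  rw [f.as_sum, map_sum]
  refine dsum _ _ _ _ fun m hm => ?_
  rw [EE_monomial]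
  split_ifs
  · intro m' hm' x
    have h2 := support_monomial_subset hm'
    rw [Finset.mem_singleton] at h2
    rw [h2]
    by_cases hx : x ∈ J
    · rw [h0 x hx]
      refine Finset.sum_eq_zero fun j _ => ?_
      exact Finsupp.filter_apply_neg _ _ (fun h => h hx)
    · rw [h1 x hx, ← hf m hm x]
      refine Finset.sum_congr rfl fun j _ => ?_
      exact Finsupp.filter_apply_pos _ _ hx
  · exact dz _

end EXP

open EXP in
theorem EXP_thm (h1 : Stmt_DG) (h2 : Stmt_PR) : Stmt_EXP := by
  intro K _ v M β A _ _ T S C J w k f hcf hJ hdg hdiv hT hS hC hcy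
  obtain ⟨dz, -, -, dsum, -⟩ := h1 K A A v
  obtain ⟨S0, hS0, hf⟩ := decomp J f
  have hJC : ∀ p ∈ J, p ∉ C := by
    intro p hp hpC
    rcases Finset.mem_union.1 (hJ hp) with h | h
    · exact Finset.disjoint_left.1 hcf.TC h hpC
    · exact Finset.disjoint_left.1 hcf.SC h hpC
  have hJw : w ∉ J := by
    intro hp
    rcases Finset.mem_union.1 (hJ hp) with h | h
    · exact hcf.wT h
    · exact hcf.wS h
  -- renamings
  have hren : ∀ (α : A × Fin v →₀ ℕ) (φ : A → A), (∀ a ∈ J, φ a = a) → (∀ a, a ∉ J → φ a ∉ J) →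
      ren φ (EE K J α f) = EE K J α (ren φ f) := fun α φ a1 a2 => ren_EE J α φ a1 a2 f
  have hswap : ∀ x y, x ∉ J → y ∉ J → (∀ a ∈ J, Equiv.swap x y a = a) ∧
      ∀ a, a ∉ J → Equiv.swap x y a ∉ J := by
    intro x y hx hy
    constructor
    · intro a ha
      exact Equiv.swap_apply_of_ne_of_ne (fun h => hx (h ▸ ha)) (fun h => hy (h ▸ ha))
    · intro a ha
      by_cases e1 : a = x
      · rw [e1, Equiv.swap_apply_left]
        exact hy
      · by_cases e2 : a = y
        · rw [e2, Equiv.swap_apply_right]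
          exact hx
        · rwa [Equiv.swap_apply_of_ne_of_ne e1 e2]
  have hmv : ∀ u, u ∉ J → (∀ a ∈ J, mv u w a = a) ∧ ∀ a, a ∉ J → mv u w a ∉ J := by
    intro u hu
    constructor
    · intro a ha
      rw [mv, Function.update_of_ne (show a ≠ u from fun h => hu (h ▸ ha))]
      rfl
    · intro a ha
      by_cases e1 : a = u
      · rw [mv, e1, Function.update_self]
        exact hJw
      · rw [mv, Function.update_of_ne e1]
        exact ha
  refine ⟨S0, inferInstance, fun α p => if p ∈ J then monomial (Finsupp.equivFunOnFinite.symm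
    fun j => α.1 (p, j) - if j = k then 1 else 0) 1 else 0, fun α => EE K J α.1 f, ?_, ?_, ?_⟩
  · rintro ⟨α, hα⟩ p
    show (if p ∈ J then (monomial (Finsupp.equivFunOnFinite.symm
      fun j => α (p, j) - if j = k then 1 else 0) 1 : MvPolynomial (Fin v) K) else 0).IsHomogeneous M
    by_cases hp : p ∈ J
    · rw [if_pos hp]
      apply isHomogeneous_monomial
      obtain ⟨m, hm, hαm⟩ := hS0 α hα
      have e1 : ∑ j, α (p, j) = M + 1 := by
        have e2 := hdg m hm p
        rw [dgc, if_pos (hJ hp)] at e2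
        rw [← e2]
        exact Finset.sum_congr rfl fun j _ => (hαm (p, j)).1 hp
      have e3 : 1 ≤ α (p, k) := by
        rw [(hαm (p, k)).1 hp]
        exact hdiv m hm p hp
      rw [Finsupp.degree_eq_sum]
      have e4 : ∀ j, (Finsupp.equivFunOnFinite.symm fun j => α (p, j) - if j = k then 1 else 0) j +
          (if j = k then 1 else 0) = α (p, j) := by
        intro j
        show (α (p, j) - if j = k then 1 else 0) + (if j = k then 1 else 0) = α (p, j)
        by_cases hj : j = k
        · subst hj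
          rw [if_pos rfl]
          omega
        · rw [if_neg hj]
          omega
      have e5 := Finset.sum_congr rfl fun j (_ : j ∈ (Finset.univ : Finset (Fin v))) => e4 j
      rw [Finset.sum_add_distrib, Finset.sum_ite_eq', if_pos (Finset.mem_univ _), e1] at e5
      omega
    · rw [if_neg hp]
      exact isHomogeneous_zero _ _ _
  · rintro ⟨α, hα⟩
    show Zc M (T \ J) (S \ J) C w (2 * M + 2 + β) (EE K J α f)
    refine ⟨⟨?_, ?_, ?_, ?_⟩, ?_, ?_⟩
    · refine EE_dg dsum dz hdg ?_ ?_
      · intro p hp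
        rw [dgc, if_neg, if_neg (hJC p hp), if_neg (show ¬ (p = w) from fun h => hJw (h ▸ hp))]
        rw [Finset.mem_union, Finset.mem_sdiff, Finset.mem_sdiff]
        tauto
      · intro p hp
        have e1 : p ∈ T \ J ∪ S \ J ↔ p ∈ T ∪ S := by
          rw [Finset.mem_union, Finset.mem_union, Finset.mem_sdiff, Finset.mem_sdiff]
          tauto
        rw [dgc, dgc]
        simp only [e1]
    · intro x hx y hy
      rw [Finset.mem_sdiff] at hx hy
      obtain ⟨a1, a2⟩ := hswap x y hx.2 hy.2
      rw [hren α _ a1 a2, hT x (Finset.mem_sdiff.2 hx) y (Finset.mem_sdiff.2 hy)]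
    · intro x hx y hy hxy
      rw [Finset.mem_sdiff] at hx hy
      obtain ⟨a1, a2⟩ := hswap x y hx.2 hy.2
      rw [hren α _ a1 a2, hS x (Finset.mem_sdiff.2 hx) y (Finset.mem_sdiff.2 hy) hxy, map_neg]
    · intro x hx y hy hxy
      obtain ⟨a1, a2⟩ := hswap x y (fun h => hJC x h hx) (fun h => hJC y h hy)
      rw [hren α _ a1 a2, hC x hx y hy hxy, map_neg]
    · intro u hu
      obtain ⟨a1, a2⟩ := hmv u (Finset.mem_sdiff.1 hu).2
      rw [hren α _ a1 a2, hcy u (Finset.mem_union_left _ hu), map_zero]
    · intro u hu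
      obtain ⟨a1, a2⟩ := hmv u (fun h => hJC u h hu)
      rw [hren α _ a1 a2, hcy u (Finset.mem_union_right _ hu), map_zero]
  · have e0 : ∑ α : S0, xb (Pi.single k 1) (fun p => if p ∈ J then
        (monomial (Finsupp.equivFunOnFinite.symm
          fun j => α.1 (p, j) - if j = k then 1 else 0) 1 : MvPolynomial (Fin v) K) else 0) J *
          EE K J α.1 f = ∑ α ∈ S0, xb (Pi.single k 1) (fun p => if p ∈ J then
        (monomial (Finsupp.equivFunOnFinite.symm
          fun j => α (p, j) - if j = k then 1 else 0) 1 : MvPolynomial (Fin v) K) else 0) J *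
          EE K J α f :=
      Finset.sum_coe_sort S0 (fun α => xb (Pi.single k 1) (fun p => if p ∈ J then
        (monomial (Finsupp.equivFunOnFinite.symm
          fun j => α (p, j) - if j = k then 1 else 0) 1 : MvPolynomial (Fin v) K) else 0) J *
          EE K J α f)
    refine Eq.trans ?_ e0.symm
    conv_lhs => rw [hf]
    refine Finset.sum_congr rfl fun α hα => ?_
    obtain ⟨m, hm, hαm⟩ := hS0 α hα
    rw [mon_eq J k α (fun y hy => (hαm y).2 hy) (fun p hp => by
      rw [(hαm (p, k)).1 hp]
      exact hdiv m hm p hp)]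
    congr 1
    rw [xb, xb]
    refine Finset.prod_congr rfl fun p hp => ?_
    rw [if_pos hp]

end Pool.Agent.VOP
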