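import Pool.Agent.VOP.StmtsW
import Pool.Agent.VOP.DG

/-!
# Module EXT: extension of the elements of `I_b` to a new point
-/

namespace Pool.Agent.VOP

open MvPolynomial Pool.Agent.VSY

namespace EXT

variable {K : Type} [Field K] {A : Type} [DecidableEq A]

/-- The degrees of the generators of `I_b`. -/
def ga (w : A) (n : ℕ) (Λ : Finset A) : A → ℕ :=
  fun x => if x ∈ Λ then 1 else if x = w then n else 0

/-- Polynomials with the degrees of the generators, which vanish when a point of `Λ` moves
to `w`. -/
def PP (K : Type) [Field K] (w : A) (b : ℕ) (Λ : Finset A) : Set (PX K A 3) :=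
  {g | ∃ n, n + b = Λ.card ∧ Dg (ga w n Λ) g ∧ ∀ s ∈ Λ, ren (mv s w) g = 0}

theorem mv_self (s w : A) : mv s w s = w := by
  simp [mv]

theorem mv_w (s w : A) : mv s w w = w := by
  by_cases h : w = s
  · subst h
    exact mv_self w w
  · simp [mv, Function.update_of_ne h]

theorem mv_ne (s w : A) {x : A} (h : x ≠ s) : mv s w x = x := by
  simp [mv, Function.update_of_ne h]

theorem dg_cr (p q : A) (i : Fin 3) :
    Dg (fun x => (Pi.single p 1 : A → ℕ) x + (Pi.single q 1 : A → ℕ) x) (cr K p q i) := by
  rw [cr]
  exact DG.sub (DG.mul (DG.var _ _) (DG.var _ _)) (DG.mul (DG.var _ _) (DG.var _ _))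

theorem dg_br (p q w : A) :
    Dg (fun x => (Pi.single p 1 : A → ℕ) x +
      ((Pi.single q 1 : A → ℕ) x + (Pi.single w 1 : A → ℕ) x)) (br K p q w) := by
  rw [br]
  exact DG.sum _ _ fun i _ => DG.mul (DG.var _ _) (dg_cr _ _ _)

theorem ren_cr (s w : A) (i : Fin 3) : ren (mv s w) (cr K s w i) = 0 := by
  rw [cr, map_sub, map_mul, map_mul, ren_X, ren_X, ren_X, ren_X, mv_self, mv_w]
  ring

theorem ren_br1 (s j w : A) (h : j ≠ s) : ren (mv s w) (br K s j w) = 0 := by
  rw [br, map_sum, Fin.sum_univ_three]
  simp only [cr, map_sub, map_mul, ren_X, mv_self, mv_w, mv_ne s w h, Fin.isValue]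
  have h1 : (1 : Fin 3) + 1 = 2 := rfl
  have h2 : (1 : Fin 3) + 2 = 0 := rfl
  have h3 : (2 : Fin 3) + 1 = 0 := rfl
  have h4 : (2 : Fin 3) + 2 = 1 := rfl
  rw [h1, h2, h3, h4, zero_add, zero_add]
  ring

theorem ren_br2 (i s w : A) : ren (mv s w) (br K i s w) = 0 := by
  rw [br, map_sum]
  refine Finset.sum_eq_zero fun k _ => ?_
  rw [map_mul, ren_cr, mul_zero]

/-- `I_0` is generated by good elements. -/
theorem span0 (w : A) (Λ : Finset A) (hw : w ∉ Λ) : IB K w 0 Λ ≤ Ideal.span (PP K w 0 Λ) := by
  rw [IB]
  induction Λ using Finset.induction_on with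
  | empty =>
    rw [Finset.prod_empty, Ideal.one_eq_top]
    have h1 : (1 : PX K A 3) ∈ PP K w 0 ∅ := by
      refine ⟨0, rfl, ?_, fun s hs => absurd hs (Finset.notMem_empty s)⟩
      have h2 : ga w 0 ∅ = fun _ : A => 0 := by
        funext x
        simp [ga]
      rw [h2]
      exact DG.one
    exact le_of_eq ((Ideal.eq_top_iff_one _).2 (Ideal.subset_span h1)).symm
  | insert s Λ hs ih =>
    have hw' : w ∉ Λ := fun h => hw (Finset.mem_insert_of_mem h)
    have hsw : s ≠ w := fun h => hw (h ▸ Finset.mem_insert_self _ _)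
    rw [Finset.prod_insert hs]
    refine le_trans (Ideal.mul_mono_right (ih hw')) ?_
    rw [Ideal.span_mul_span', Ideal.span_le]
    rintro _ ⟨_, ⟨i, rfl⟩, g, ⟨n, hn, hg, hz⟩, rfl⟩
    refine Ideal.subset_span ⟨n + 1, ?_, ?_, ?_⟩
    · rw [Finset.card_insert_of_notMem hs]
      omega
    · have h1 := DG.mul (dg_cr (K := K) s w i) hg
      have h2 : ga w (n + 1) (insert s Λ) = fun x =>
          ((Pi.single s 1 : A → ℕ) x + (Pi.single w 1 : A → ℕ) x) + ga w n Λ x := by
        funext x
        by_cases hx : x = s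
        · subst hx
          simp [ga, hs, hsw]
        · by_cases hx2 : x = w
          · subst hx2
            simp [ga, hw', hx]
            omega
          · simp [ga, hx, hx2]
      rw [h2]
      exact h1
    · intro t ht
      change ren (mv t w) (cr K s w i * g) = 0
      rw [map_mul]
      rcases Finset.mem_insert.1 ht with h | h
      · subst h
        rw [ren_cr, zero_mul]
      · rw [hz t h, mul_zero]

/-- `I_b` is generated by good elements. -/
theorem spanb (w : A) (b : ℕ) : ∀ (Λ : Finset A), w ∉ Λ →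
    IB K w b Λ ≤ Ideal.span (PP K w b Λ) := by
  induction b with
  | zero => exact fun Λ hw => span0 w Λ hw
  | succ b ih =>
    intro Λ hw
    rw [IB]
    refine iSup₂_le fun i hi => iSup₂_le fun j hj => ?_
    have hij : j ≠ i := Finset.ne_of_mem_erase hj
    have hj' : j ∈ Λ := Finset.mem_of_mem_erase hj
    have hiw : i ≠ w := fun h => hw (h ▸ hi)
    have hjw : j ≠ w := fun h => hw (h ▸ hj')
    have hw' : w ∉ (Λ.erase i).erase j := fun h =>
      hw (Finset.mem_of_mem_erase (Finset.mem_of_mem_erase h))
    refine le_trans (Ideal.mul_mono_right (ih _ hw')) ?_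
    rw [Ideal.span_mul_span', Ideal.span_le]
    rintro _ ⟨_, hb, g, ⟨n, hn, hg, hz⟩, rfl⟩
    rw [Set.mem_singleton_iff] at hb
    subst hb
    have hc1 : (Λ.erase i).card = Λ.card - 1 := Finset.card_erase_of_mem hi
    have hc2 : ((Λ.erase i).erase j).card = (Λ.erase i).card - 1 := Finset.card_erase_of_mem hj
    have hc3 : 0 < (Λ.erase i).card := Finset.card_pos.2 ⟨j, hj⟩
    refine Ideal.subset_span ⟨n + 1, by omega, ?_, ?_⟩
    · have h1 := DG.mul (dg_br (K := K) i j w) hg
      have h2 : ga w (n + 1) Λ = fun x =>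
          ((Pi.single i 1 : A → ℕ) x + ((Pi.single j 1 : A → ℕ) x + (Pi.single w 1 : A → ℕ) x)) +
            ga w n ((Λ.erase i).erase j) x := by
        funext x
        by_cases hx : x = i
        · subst hx
          simp [ga, hi, hij.symm, hiw]
        · by_cases hx1 : x = j
          · subst hx1
            simp [ga, hj', hij, hjw]
          · by_cases hx2 : x = w
            · subst hx2
              simp [ga, hw, hx, hx1]
              omega
            · simp [ga, hx, hx1, hx2]
      rw [h2]
      exact h1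
    · intro t ht
      change ren (mv t w) (br K i j w * g) = 0
      rw [map_mul]
      by_cases h : t = i
      · subst h
        rw [ren_br1 _ _ _ hij, zero_mul]
      · by_cases h' : t = j
        · subst h'
          rw [ren_br2, zero_mul]
        · rw [hz t (Finset.mem_erase.2 ⟨h', Finset.mem_erase.2 ⟨h, ht⟩⟩), mul_zero]

/-- Splitting of exponents. -/
theorem split (β : Fin 3 → ℕ) (r : ℕ) (h : r ≤ ∑ j, β j) :
    ∃ α : Fin 3 → ℕ, (∀ j, α j ≤ β j) ∧ ∑ j, α j = r := by
  rw [Fin.sum_univ_three] at h
  refine ⟨![min r (β 0), min (r - min r (β 0)) (β 1),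
    r - min r (β 0) - min (r - min r (β 0)) (β 1)], ?_, ?_⟩
  · intro j
    fin_cases j
    · simp
    · simp
    · simp only [Fin.reduceFinMk, Matrix.cons_val]
      omega
  · rw [Fin.sum_univ_three]
    simp only [Matrix.cons_val]
    omega

/-- The property which is proved for all elements of the ideal. -/
def QQ [Fintype A] (δ : A → ℕ) (Λ : Finset A) (w : A) (r e : ℕ) (f : PX K A 3) : Prop :=
  ∃ Y : PX K (Option A) 3, Dg (ext δ r w e) Y ∧
    (∀ s ∈ Λ, ren (mv (some s) (some w)) Y = 0) ∧
    ∀ m : A × Fin 3 →₀ ℕ, (∀ x, ∑ j, m (x, j) = δ x) → coeff m (rn w Y) = coeff m f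

theorem QQ_zero [Fintype A] (δ : A → ℕ) (Λ : Finset A) (w : A) (r e : ℕ) :
    QQ δ Λ w r e (0 : PX K A 3) :=
  ⟨0, DG.zero _, fun s _ => map_zero _, fun m _ => by rw [map_zero]⟩

theorem QQ_add [Fintype A] {δ : A → ℕ} {Λ : Finset A} {w : A} {r e : ℕ} {f g : PX K A 3}
    (hf : QQ δ Λ w r e f) (hg : QQ δ Λ w r e g) : QQ δ Λ w r e (f + g) := by
  obtain ⟨Y, h1, h2, h3⟩ := hf
  obtain ⟨Z, h4, h5, h6⟩ := hg
  refine ⟨Y + Z, DG.add h1 h4, fun s hs => ?_, fun m hm => ?_⟩
  · rw [map_add, h2 s hs, h5 s hs, add_zero]
  · rw [map_add, coeff_add, coeff_add, h3 m hm, h6 m hm]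

omit [DecidableEq A] in
theorem dg_monomial (m : A × Fin 3 →₀ ℕ) (c : K) :
    Dg (fun x => ∑ j, m (x, j)) (monomial m c : PX K A 3) := by
  classical
  intro m' hm' x
  have h := support_monomial_subset hm'
  rw [Finset.mem_singleton] at h
  rw [h]

theorem QQ_mono [Fintype A] (δ : A → ℕ) (Λ : Finset A) (w : A) (b r e : ℕ) (hw : w ∉ Λ)
    (hδ : δ w = r + e) (hc : Λ.card ≤ e + b) (g : PX K A 3) (hg : g ∈ PP K w b Λ)
    (m : A × Fin 3 →₀ ℕ) (c : K) : QQ δ Λ w r e (monomial m c * g) := by
  classical
  obtain ⟨n, hn, hd, hz⟩ := hg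
  by_cases hm : ∀ x, (∑ j, m (x, j)) + ga w n Λ x = δ x
  · have hgw : ga w n Λ w = n := by simp [ga, hw]
    have hmw := hm w
    rw [hgw] at hmw
    obtain ⟨α, hα1, hα2⟩ := split (fun j => m (w, j)) r (by omega)
    let a : A × Fin 3 →₀ ℕ := ∑ j, Finsupp.single (w, j) (α j)
    have ha : ∀ x j, a (x, j) = if x = w then α j else 0 := by
      intro x j
      simp only [a, Finsupp.coe_finsetSum, Finset.sum_apply, Finsupp.single_apply,
        Prod.mk.injEq]
      by_cases hx : x = w
      · subst hx
        simp
      · simp [hx, Ne.symm hx]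
    have hle : a ≤ m := by
      rintro ⟨x, j⟩
      rw [ha]
      by_cases hx : x = w
      · subst hx
        rw [if_pos rfl]
        exact hα1 j
      · rw [if_neg hx]
        exact Nat.zero_le _
    let a' : Option A × Fin 3 →₀ ℕ := ∑ j, Finsupp.single (none, j) (α j)
    have ha' : ∀ x j, a' (x, j) = if x = none then α j else 0 := by
      intro x j
      simp only [a', Finsupp.coe_finsetSum, Finset.sum_apply, Finsupp.single_apply,
        Prod.mk.injEq]
      by_cases hx : x = none
      · subst hx
        simp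
      · simp [hx, Ne.symm hx]
    refine ⟨monomial a' 1 * (ren some (monomial (m - a) c) * ren some g), ?_, ?_, ?_⟩
    · have h1 := DG.mul (dg_monomial a' (1 : K)) (DG.mul
        (DG.ren_push _ (some : A → Option A) _ (dg_monomial (m - a) c))
        (DG.ren_push _ (some : A → Option A) _ hd))
      have h2 : ext δ r w e = fun x => (∑ j, a' (x, j)) +
          ((∑ y ∈ Finset.univ.filter (fun y : A => some y = x), ∑ j, (m - a) (y, j)) +
            ∑ y ∈ Finset.univ.filter (fun y : A => some y = x), ga w n Λ y) := by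
        funext x
        cases x with
        | none => simp [ext, ha', hα2]
        | some x =>
          have hf : (Finset.univ.filter fun y : A => some y = some x) = {x} := by
            ext y
            simp
          rw [hf, Finset.sum_singleton, Finset.sum_singleton]
          have h3 : ∑ j, a' (some x, j) = 0 := by simp [ha']
          have h4 : (∑ j, (m - a) (x, j)) + ∑ j, a (x, j) = ∑ j, m (x, j) := by
            rw [← Finset.sum_add_distrib]
            refine Finset.sum_congr rfl fun j _ => ?_
            rw [Finsupp.tsub_apply]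
            exact Nat.sub_add_cancel (hle (x, j))
          have h5 := hm x
          rw [h3, zero_add]
          by_cases hx : x = w
          · subst hx
            have h6 : ∑ j, a (x, j) = r := by
              simp only [ha, if_true]
              exact hα2
            simp only [ext, if_true]
            omega
          · have h6 : ∑ j, a (x, j) = 0 := by
              simp [ha, hx]
            simp only [ext, if_neg hx]
            omega
      rw [h2]
      exact h1
    · intro s hs
      have h1 : mv (some s) (some w) ∘ some = some ∘ mv s w := by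
        funext x
        by_cases hx : x = s
        · subst hx
          rw [Function.comp_apply, Function.comp_apply, mv_self, mv_self]
        · rw [Function.comp_apply, Function.comp_apply, mv_ne _ _ hx,
            mv_ne _ _ (fun h => hx (Option.some_injective _ h))]
      rw [map_mul, map_mul, ren_ren _ _ g, h1, ← ren_ren, hz s hs, map_zero, mul_zero, mul_zero]
    · intro m' _
      have h1 : (fun o : Option A => o.getD w) ∘ some = id := by
        funext x
        simp
      rw [rn, map_mul, map_mul, ren_ren, ren_ren, h1, ren_id, ren_id, ← mul_assoc, ren_monomial]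
      have h2 : a'.mapDomain (Prod.map (fun o : Option A => o.getD w) id) = a := by
        simp only [a', a, Finsupp.mapDomain_finsetSum, Finsupp.mapDomain_single, Prod.map_apply,
          Option.getD_none, id_eq]
      rw [h2, monomial_mul, one_mul, add_tsub_cancel_of_le hle]
  · refine ⟨0, DG.zero _, fun s _ => map_zero _, fun m' hm' => ?_⟩
    rw [map_zero, coeff_zero]
    by_contra hne
    have h1 := DG.mul (dg_monomial m c) hd
    have h2 : m' ∈ (monomial m c * g).support := by
      rw [mem_support_iff]
      exact Ne.symm hne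
    exact hm fun x => by
      rw [← hm' x]
      exact (h1 m' h2 x).symm

theorem QQ_mul [Fintype A] (δ : A → ℕ) (Λ : Finset A) (w : A) (b r e : ℕ) (hw : w ∉ Λ)
    (hδ : δ w = r + e) (hc : Λ.card ≤ e + b) (g : PX K A 3) (hg : g ∈ PP K w b Λ)
    (c : PX K A 3) : QQ δ Λ w r e (c * g) := by
  induction c using MvPolynomial.induction_on' with
  | monomial m a => exact QQ_mono δ Λ w b r e hw hδ hc g hg m a
  | add p q hp hq =>
    rw [add_mul]
    exact QQ_add hp hq

theorem QQ_span [Fintype A] (δ : A → ℕ) (Λ : Finset A) (w : A) (b r e : ℕ) (hw : w ∉ Λ)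
    (hδ : δ w = r + e) (hc : Λ.card ≤ e + b) (f : PX K A 3)
    (hf : f ∈ Ideal.span (PP K w b Λ)) : ∀ c : PX K A 3, QQ δ Λ w r e (c * f) := by
  induction hf using Submodule.span_induction with
  | mem g hg => exact fun c => QQ_mul δ Λ w b r e hw hδ hc g hg c
  | zero =>
    intro c
    rw [mul_zero]
    exact QQ_zero δ Λ w r e
  | add x y _ _ hx hy =>
    intro c
    rw [mul_add]
    exact QQ_add (hx c) (hy c)
  | smul a x _ hx =>
    intro c
    rw [smul_eq_mul, ← mul_assoc]
    exact hx (c * a)

end EXT

open EXT in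
theorem EXT_thm : Stmt_EXT := by
  intro K _ _ A _ _ δ Λ w b r e f hw hδ hc hf hI
  obtain ⟨Y, h1, h2, h3⟩ := QQ_span δ Λ w b r e hw hδ hc f (spanb w b Λ hw hI) 1
  refine ⟨Y, h1, h2, ?_⟩
  rw [one_mul] at h3
  have h4 : Dg δ (rn w Y) := by
    have h5 := DG.ren_push _ (fun o : Option A => o.getD w) _ h1
    have h6 : (fun b : A => ∑ a ∈ Finset.univ.filter (fun a : Option A => a.getD w = b),
        ext δ r w e a) = δ := by
      funext x
      rw [Finset.sum_filter, Fintype.sum_option]
      simp only [Option.getD_none, Option.getD_some, ext]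
      rw [Finset.sum_ite_eq' Finset.univ x, if_pos (Finset.mem_univ x)]
      by_cases hx : x = w
      · subst hx
        rw [if_pos rfl, if_pos rfl, hδ]
      · rw [if_neg (Ne.symm hx), if_neg hx, zero_add]
    rw [h6] at h5
    exact h5
  ext m
  by_cases hm : ∀ x, ∑ j, m (x, j) = δ x
  · exact h3 m hm
  · have h7 : coeff m (rn w Y) = 0 := by
      by_contra h
      exact hm (h4 m (mem_support_iff.2 h))
    have h8 : coeff m f = 0 := by
      by_contra h
      exact hm (hf m (mem_support_iff.2 h))
    rw [h7, h8]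

end Pool.Agent.VOP
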