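import Pool.Agent.VOP.StmtsN

/-!
# The Ottaviani-Paoletti conjecture (MP_deb8da_ag), module FAM: polynomial families of lifts
-/

namespace Pool.Agent.VOP

open MvPolynomial Pool.Agent.VSY

namespace FAM

variable {K : Type} [Field K] {A : Type} [Fintype A] [DecidableEq A] {v : ℕ}

theorem mem_pS {S : Finset A} {π : Equiv.Perm A} : π ∈ pS S ↔ ∀ x, x ∉ S → π x = x := by
  unfold pS
  simp

theorem smz_def (S : Finset A) (f : PX K A v) : smz S f = ∑ π ∈ pS S, ren π f := rfl

theorem smz_sum (T : Finset A) {ι : Type} (s : Finset ι) (F : ι → PX K A v) :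
    smz T (∑ i ∈ s, F i) = ∑ i ∈ s, smz T (F i) := by
  simp only [smz_def, map_sum]
  rw [Finset.sum_comm]

theorem smz_sub (T : Finset A) (f g : PX K A v) : smz T (f - g) = smz T f - smz T g := by
  simp only [smz_def, map_sub, Finset.sum_sub_distrib]

theorem smz_smul (T : Finset A) (a : K) (f : PX K A v) : smz T (a • f) = a • smz T f := by
  simp only [smz_def, map_smul, Finset.smul_sum]

theorem smz_zero (T : Finset A) : smz T (0 : PX K A v) = 0 := by
  simp only [smz_def, map_zero, Finset.sum_const_zero]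

theorem ren_lin {B : Type} (φ : A → B) (x : Fin v → K) (p : A) :
    ren φ (lin x p : PX K A v) = lin x (φ p) := by
  unfold lin
  simp only [map_sum, map_mul, ren_C, ren_X]

theorem smz_dvd {T : Finset A} {w : A} (hw : w ∉ T) (x : Fin v → K) {f : PX K A v}
    (h : lin x w ∣ f) : lin x w ∣ smz T f := by
  rw [smz_def]
  refine Finset.dvd_sum fun π hπ => ?_
  obtain ⟨q, rfl⟩ := h
  rw [map_mul, ren_lin, mem_pS.1 hπ w hw]
  exact Dvd.intro _ rfl

theorem ren_mv_smz {T : Finset A} {u w : A} (hu : u ∉ T) (hw : w ∉ T) (f : PX K A v) :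
    ren (mv u w) (smz T f) = smz T (ren (mv u w) f) := by
  rw [smz_def, smz_def, map_sum]
  refine Finset.sum_congr rfl fun π hπ => ?_
  rw [ren_ren, ren_ren]
  refine ren_congr (fun a => ?_) f
  have hπu := mem_pS.1 hπ u hu
  have hπw := mem_pS.1 hπ w hw
  by_cases ha : a = u
  · subst ha
    simp only [Function.comp_apply, mv, hπu, Function.update_self, hπw]
  · have hne : π a ≠ u := fun h => ha (π.injective (h.trans hπu.symm))
    simp only [Function.comp_apply, mv, Function.update_of_ne ha, Function.update_of_ne hne,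
      id_eq]

/-- The terms of the product over `T₁`. -/
noncomputable def PQ (x y : Fin v → K) (b : A → MvPolynomial (Fin v) K) (T₁ Q : Finset A) :
    PX K A v := xS y Q * xS x (T₁ \ Q) * ∏ p ∈ T₁, atp p (b p)

theorem lin_add (x y : Fin v → K) (c : K) (p : A) :
    (lin (x + c • y) p : PX K A v) = C c * lin y p + lin x p := by
  unfold lin
  rw [Finset.mul_sum, ← Finset.sum_add_distrib]
  refine Finset.sum_congr rfl fun i _ => ?_
  rw [Pi.add_apply, Pi.smul_apply, smul_eq_mul, C_add, C_mul]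
  ring

theorem xb_eq (x y : Fin v → K) (c : K) (b : A → MvPolynomial (Fin v) K) (T₁ : Finset A) :
    (xb (x + c • y) b T₁ : PX K A v) =
      ∑ Q ∈ T₁.powerset, c ^ Q.card • PQ x y b T₁ Q := by
  unfold xb PQ
  rw [Finset.prod_mul_distrib]
  have h1 : (∏ p ∈ T₁, lin (x + c • y) p : PX K A v) =
      ∏ p ∈ T₁, (C c * lin y p + lin x p) := Finset.prod_congr rfl fun p _ => lin_add x y c p
  rw [h1, Finset.prod_add, Finset.sum_mul]
  refine Finset.sum_congr rfl fun Q _ => ?_
  rw [Finset.prod_mul_distrib, Finset.prod_const, smul_eq_C_mul, C_pow]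
  unfold xS
  ring

theorem xb_union {T₁ S₁ : Finset A} (h : Disjoint T₁ S₁) (x : Fin v → K)
    (b : A → MvPolynomial (Fin v) K) :
    (xb x b (T₁ ∪ S₁) : PX K A v) = xb x b T₁ * xb x b S₁ := by
  unfold xb
  exact Finset.prod_union h

/-- The degrees on a set of points. -/
def ind (S : Finset A) (n : ℕ) (a : A) : ℕ := if a ∈ S then n else 0

theorem Dg_congr {δ δ' : A → ℕ} {f : PX K A v} (h : ∀ a, δ a = δ' a) (hf : Dg δ f) :
    Dg δ' f := by
  have : δ = δ' := funext h
  rwa [← this]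

theorem Dg_one : Dg (fun _ => 0) (1 : PX K A v) := by
  intro m hm a
  have h1 : m = 0 := by
    have h2 := support_monomial_subset (R := K) (a := (1 : K)) (s := (0 : A × Fin v →₀ ℕ))
      (by simpa [monomial_zero'] using hm)
    exact Finset.mem_singleton.1 h2
  subst h1
  simp

theorem Dg_prod_atp (h1 : Stmt_DG) (S : Finset A) (n : ℕ) (b : A → MvPolynomial (Fin v) K)
    (hb : ∀ p, (b p).IsHomogeneous n) :
    Dg (ind S n) (∏ p ∈ S, atp p (b p) : PX K A v) := by
  obtain ⟨-, -, -, -, h5, -, h7, -⟩ := h1 K A A v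
  induction S using Finset.induction_on with
  | empty =>
    rw [Finset.prod_empty]
    exact Dg_congr (fun a => by simp [ind]) Dg_one
  | insert p S hp ih =>
    rw [Finset.prod_insert hp]
    refine Dg_congr (fun a => ?_) (h5 _ _ _ _ (h7 n (b p) p (hb p)) ih)
    unfold ind
    by_cases ha : a = p
    · subst ha
      rw [Pi.single_eq_same, if_neg hp, if_pos (Finset.mem_insert_self _ _), add_zero]
    · rw [Pi.single_eq_of_ne ha, zero_add]
      simp only [Finset.mem_insert, ha, false_or]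

theorem Dg_PQ (h1 : Stmt_DG) (x y : Fin v → K) (b : A → MvPolynomial (Fin v) K) (n : ℕ)
    (hb : ∀ p, (b p).IsHomogeneous n) {T₁ Q : Finset A} (hQ : Q ⊆ T₁) :
    Dg (ind T₁ (n + 1)) (PQ x y b T₁ Q : PX K A v) := by
  have h := Dg_prod_atp h1 T₁ n b hb
  obtain ⟨-, -, -, -, h5, -, -, -, -, -, -, h12⟩ := h1 K A A v
  unfold PQ
  refine Dg_congr (fun a => ?_) (h5 _ _ _ _ (h5 _ _ _ _ (h12 y Q) (h12 x (T₁ \ Q))) h)
  unfold ind
  by_cases ha : a ∈ T₁
  · by_cases haQ : a ∈ Q
    · simp [ha, haQ]; omega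
    · simp [ha, haQ]; omega
  · have haQ : a ∉ Q := fun h => ha (hQ h)
    simp [ha, haQ]

theorem zc_zero {M : ℕ} {T S C : Finset A} {w : A} {r : ℕ} :
    Zc M T S C w r (0 : PX K A v) := by
  refine ⟨⟨?_, ?_, ?_, ?_⟩, ?_, ?_⟩
  · intro m hm
    simp at hm
  · intro x _ y _
    rw [map_zero]
  · intro x _ y _ _
    rw [map_zero, neg_zero]
  · intro x _ y _ _
    rw [map_zero, neg_zero]
  · intro u _
    rw [map_zero]
  · intro u _
    rw [map_zero]

theorem zc_sum (h1 : Stmt_DG) {M : ℕ} {T S C : Finset A} {w : A} {r : ℕ} {ι : Type}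
    (s : Finset ι) (f : ι → PX K A v) (h : ∀ i ∈ s, Zc M T S C w r (f i)) :
    Zc M T S C w r (∑ i ∈ s, f i) := by
  obtain ⟨-, -, -, h4, -⟩ := h1 K A A v
  refine ⟨⟨h4 _ ι s f fun i hi => (h i hi).cg.dg, ?_, ?_, ?_⟩, ?_, ?_⟩
  · intro x hx y hy
    rw [map_sum]
    exact Finset.sum_congr rfl fun i hi => (h i hi).cg.sy x hx y hy
  · intro x hx y hy hxy
    rw [map_sum, ← Finset.sum_neg_distrib]
    exact Finset.sum_congr rfl fun i hi => (h i hi).cg.alS x hx y hy hxy
  · intro x hx y hy hxy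
    rw [map_sum, ← Finset.sum_neg_distrib]
    exact Finset.sum_congr rfl fun i hi => (h i hi).cg.alC x hx y hy hxy
  · intro u hu
    rw [map_sum]
    exact Finset.sum_eq_zero fun i hi => (h i hi).cyS u hu
  · intro u hu
    rw [map_sum]
    exact Finset.sum_eq_zero fun i hi => (h i hi).cyC u hu

/-- A polynomial in the points of `T₁` is symmetric in all other points. -/
theorem sy_of_Dg (h1 : Stmt_DG) {T₁ S : Finset A} {n : ℕ} {P : PX K A v}
    (hP : Dg (ind T₁ n) P) (h : Disjoint T₁ S) : Sy S P := by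
  obtain ⟨-, -, -, -, -, -, -, -, -, h10, -⟩ := h1 K A A v
  intro x hx y hy
  have h2 : ren (Equiv.swap x y) P = ren id P := by
    refine h10 _ (Equiv.swap x y) id P (fun a ha => ?_) hP
    have haT : a ∈ T₁ := by
      by_contra hcon
      exact ha (if_neg hcon)
    have hax : a ≠ x := fun h' => Finset.disjoint_left.1 h haT (h' ▸ hx)
    have hay : a ≠ y := fun h' => Finset.disjoint_left.1 h haT (h' ▸ hy)
    exact Equiv.swap_apply_of_ne_of_ne hax hay
  rw [h2, ren_id]

/-- The products. -/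
theorem zc_smz (h1 : Stmt_DG) (h3 : Stmt_SYM) {M r : ℕ} {T S C T₁ : Finset A} {w : A}
    (hcf : Cf T S C w) (hT : T₁ ⊆ T) {P g : PX K A v} (hP : Dg (ind T₁ (M + 1)) P)
    (hg : Zc M (T \ T₁) S C w r g) : Zc M T S C w r (smz T (P * g)) := by
  have hdg : Dg (dgc M T S C w r) (P * g) := by
    obtain ⟨-, -, -, -, h5, -⟩ := h1 K A A v
    refine Dg_congr (fun a => ?_) (h5 _ _ _ _ hP hg.cg.dg)
    unfold ind dgc
    by_cases ha : a ∈ T₁
    · have haT := hT ha
      have haS : a ∉ S := fun h => Finset.disjoint_left.1 hcf.TS haT h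
      have haC : a ∉ C := fun h => Finset.disjoint_left.1 hcf.TC haT h
      have haw : a ≠ w := fun h => hcf.wT (h ▸ haT)
      simp [ha, haT, haS, haC, haw]
    · simp [ha]
  obtain ⟨-, -, k3, k4, -, k6, -, k8, -⟩ := h3 K A v
  have hS1 : Disjoint T₁ S := Finset.disjoint_of_subset_left hT hcf.TS
  have hC1 : Disjoint T₁ C := Finset.disjoint_of_subset_left hT hcf.TC
  refine ⟨⟨?_, ?_, ?_, ?_⟩, ?_, ?_⟩
  · refine (k8 T _ _ ?_ hdg).2
    intro x hx y hy
    unfold dgc
    rw [if_pos (Finset.mem_union_left _ hx), if_pos (Finset.mem_union_left _ hy)]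
  · exact (k3 T _).1
  · refine (k6 S T _ hcf.TS.symm).2.2.2 ?_
    exact (k4 S _ _).2.2.1 (sy_of_Dg h1 hP hS1) hg.cg.alS
  · refine (k6 C T _ hcf.TC.symm).2.2.2 ?_
    exact (k4 C _ _).2.2.1 (sy_of_Dg h1 hP hC1) hg.cg.alC
  · intro u hu
    rw [ren_mv_smz (fun h => Finset.disjoint_left.1 hcf.TS h hu) hcf.wT, map_mul,
      hg.cyS u hu, mul_zero, smz_zero]
  · intro u hu
    rw [ren_mv_smz (fun h => Finset.disjoint_left.1 hcf.TC h hu) hcf.wT, map_mul,
      hg.cyC u hu, mul_zero, smz_zero]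

end FAM

open FAM in
theorem FAM_thm (h1 : Stmt_DG) (_h2 : Stmt_DIV) (h3 : Stmt_SYM) (h4 : Stmt_FAS) : Stmt_FAM := by
  intro K _ _ v M β s l hv hL A _ _ T S C T₁ S₁ w x y b m hcf hS hC hT₁ hS₁ hb hm
  have hcf' : Cf (T \ T₁) S C w :=
    ⟨Finset.disjoint_of_subset_left Finset.sdiff_subset hcf.TS,
      Finset.disjoint_of_subset_left Finset.sdiff_subset hcf.TC, hcf.SC,
      fun h => hcf.wT (Finset.sdiff_subset h), hcf.wS, hcf.wC⟩
  obtain ⟨G, hG, hG0, hGd⟩ := h4 K v M β s l hv hL A (T \ T₁) S C S₁ w x y b m hcf' hS hC hS₁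
    hb hm
  have hP : ∀ Q ∈ T₁.powerset, Dg (ind T₁ (M + 1)) (PQ x y b T₁ Q : PX K A v) :=
    fun Q hQ => Dg_PQ h1 x y b M hb (Finset.mem_powerset.1 hQ)
  refine ⟨fun n => ∑ Q ∈ T₁.powerset, ∑ n' ∈ Finset.range (S₁.card + 1),
    if Q.card + n' = n then smz T (PQ x y b T₁ Q * G n') else 0, ?_, ?_, ?_⟩
  · intro n
    refine zc_sum h1 _ _ fun Q hQ => zc_sum h1 _ _ fun n' _ => ?_
    split_ifs
    · exact zc_smz h1 h3 hcf hT₁ (hP Q hQ) (hG n')
    · exact zc_zero
  · intro n hn
    refine Finset.sum_eq_zero fun Q hQ => Finset.sum_eq_zero fun n' hn' => if_neg ?_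
    have h5 := Finset.card_le_card (Finset.mem_powerset.1 hQ)
    have h6 := Finset.mem_range.1 hn'
    omega
  · intro c
    have hsum : ∑ n ∈ Finset.range (T₁.card + S₁.card + 1),
        c ^ n • (∑ Q ∈ T₁.powerset, ∑ n' ∈ Finset.range (S₁.card + 1),
          if Q.card + n' = n then smz T (PQ x y b T₁ Q * G n') else 0) =
        smz T (xb (x + c • y) b T₁ *
          ∑ n' ∈ Finset.range (S₁.card + 1), c ^ n' • G n') := by
      have e1 : (xb (x + c • y) b T₁ * ∑ n' ∈ Finset.range (S₁.card + 1), c ^ n' • G n' :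
          PX K A v) = ∑ Q ∈ T₁.powerset, ∑ n' ∈ Finset.range (S₁.card + 1),
            c ^ (Q.card + n') • (PQ x y b T₁ Q * G n') := by
        rw [xb_eq, Finset.sum_mul]
        refine Finset.sum_congr rfl fun Q _ => ?_
        rw [Finset.mul_sum]
        refine Finset.sum_congr rfl fun n' _ => ?_
        rw [smul_mul_smul_comm, pow_add]
      rw [e1, smz_sum]
      have e2 : ∀ n ∈ Finset.range (T₁.card + S₁.card + 1),
          c ^ n • (∑ Q ∈ T₁.powerset, ∑ n' ∈ Finset.range (S₁.card + 1),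
            if Q.card + n' = n then smz T (PQ x y b T₁ Q * G n') else 0 : PX K A v) =
          ∑ Q ∈ T₁.powerset, ∑ n' ∈ Finset.range (S₁.card + 1),
            if Q.card + n' = n then c ^ n • smz T (PQ x y b T₁ Q * G n') else 0 := by
        intro n _
        rw [Finset.smul_sum]
        refine Finset.sum_congr rfl fun Q _ => ?_
        rw [Finset.smul_sum]
        refine Finset.sum_congr rfl fun n' _ => ?_
        rw [smul_ite, smul_zero]
      rw [Finset.sum_congr rfl e2, Finset.sum_comm]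
      refine Finset.sum_congr rfl fun Q hQ => ?_
      rw [Finset.sum_comm, smz_sum]
      refine Finset.sum_congr rfl fun n' hn' => ?_
      rw [Finset.sum_ite_eq, if_pos, smz_smul]
      have h5 := Finset.card_le_card (Finset.mem_powerset.1 hQ)
      have h6 := Finset.mem_range.1 hn'
      rw [Finset.mem_range]
      omega
    rw [hsum]
    have hdis : Disjoint T₁ S₁ :=
      Finset.disjoint_of_subset_left hT₁ (Finset.disjoint_of_subset_right hS₁ hcf.TS)
    have hsy : Sy S (xb (x + c • y) b T₁ : PX K A v) := by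
      rw [xb_eq]
      intro p hp q hq
      rw [map_sum]
      refine Finset.sum_congr rfl fun Q hQ => ?_
      rw [map_smul, sy_of_Dg h1 (hP Q hQ) (Finset.disjoint_of_subset_left hT₁ hcf.TS) p hp q hq]
    obtain ⟨-, -, -, -, -, -, -, -, k9, -⟩ := h3 K A v
    have halt : alt S (xb (x + c • y) b (T₁ ∪ S₁) * m) =
        xb (x + c • y) b T₁ * alt S (xb (x + c • y) b S₁ * m) := by
      rw [xb_union hdis, mul_assoc]
      exact ((k9 S (xb (x + c • y) b S₁ * m) (xb (x + c • y) b T₁) 0).2.2.2.2 hsy).1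
    rw [halt, ← smz_sub, ← mul_sub]
    exact smz_dvd hcf.wT _ (Dvd.dvd.mul_left (hGd c) _)

end Pool.Agent.VOP
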