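import Pool.Agent.VOP.StmtsN
import Pool.Agent.VSY.L2M

/-!
# FAS: polynomial families of lifts, letters of `S`
-/

set_option autoImplicit false

namespace Pool.Agent.VOP

open MvPolynomial Pool.Agent.VSY

namespace FAS

variable {K : Type} [Field K]

section

variable {A : Type} {v : ℕ}

theorem ren_lin {B : Type} (φ : A → B) (x : Fin v → K) (p : A) :
    ren φ (lin x p : PX K A v) = lin x (φ p) := by
  simp [lin]

theorem lin_add (x y : Fin v → K) (c : K) (p : A) :
    (lin (x + c • y) p : PX K A v) = lin x p + c • lin y p := by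
  simp only [lin, Pi.add_apply, Pi.smul_apply, smul_eq_mul, map_add, map_mul, add_mul,
    Finset.sum_add_distrib, Finset.smul_sum]
  congr 1
  refine Finset.sum_congr rfl fun i _ => ?_
  rw [smul_eq_C_mul]
  ring

variable [DecidableEq A]

/-- The operator `h ↦ g h - ∑ (p q) (g h)`. -/
noncomputable def FF (S : Finset A) (p : A) (g : PX K A v) : PX K A v →ₗ[K] PX K A v :=
  LinearMap.mulLeft K g -
    ∑ q ∈ S, (ren (Equiv.swap p q)).toLinearMap ∘ₗ LinearMap.mulLeft K g

theorem FF_apply (S : Finset A) (p : A) (g h : PX K A v) :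
    FF S p g h = g * h - ∑ q ∈ S, ren (Equiv.swap p q) (g * h) := by
  simp [FF, LinearMap.sum_apply]

theorem FF_add (S : Finset A) (p : A) (g g' h : PX K A v) (c : K) :
    FF S p (g + c • g') h = FF S p g h + c • FF S p g' h := by
  simp only [FF_apply, add_mul, smul_mul_assoc, map_add, map_smul, Finset.sum_add_distrib,
    smul_sub, Finset.smul_sum]
  ring

theorem FF_mul (S : Finset A) (p w : A) (g h : PX K A v) (z : Fin v → K) (hp : p ≠ w)
    (hS : w ∉ S) : FF S p g (lin z w * h) = lin z w * FF S p g h := by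
  simp only [FF_apply, mul_sub, Finset.mul_sum]
  congr 1
  · ring
  · refine Finset.sum_congr rfl fun q hq => ?_
    simp only [map_mul, ren_lin]
    rw [Equiv.swap_apply_of_ne_of_ne hp.symm (fun h => hS (h ▸ hq))]
    ring

theorem Zc_zero (M : ℕ) (T S C : Finset A) (w : A) (r : ℕ) :
    Zc M T S C w r (0 : PX K A v) := by
  refine ⟨⟨fun m hm => by simp at hm, ?_, ?_, ?_⟩, ?_, ?_⟩
  · intro x _ y _
    simp
  · intro x _ y _ _
    simp
  · intro x _ y _ _
    simp
  · intro x _
    simp
  · intro x _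
    simp

variable [Fintype A]

theorem Zc_add (h1 : Stmt_DG) (M : ℕ) (T S C : Finset A) (w : A) (r : ℕ) (f g : PX K A v)
    (hf : Zc M T S C w r f) (hg : Zc M T S C w r g) : Zc M T S C w r (f + g) := by
  obtain ⟨-, h2, -⟩ := h1 K A A v
  refine ⟨⟨(h2 _ f g hf.cg.dg hg.cg.dg).1, ?_, ?_, ?_⟩, ?_, ?_⟩
  · intro x hx y hy
    rw [map_add, hf.cg.sy x hx y hy, hg.cg.sy x hx y hy]
  · intro x hx y hy hxy
    rw [map_add, hf.cg.alS x hx y hy hxy, hg.cg.alS x hx y hy hxy, neg_add]
  · intro x hx y hy hxy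
    rw [map_add, hf.cg.alC x hx y hy hxy, hg.cg.alC x hx y hy hxy, neg_add]
  · intro x hx
    rw [map_add, hf.cyS x hx, hg.cyS x hx, add_zero]
  · intro x hx
    rw [map_add, hf.cyC x hx, hg.cyC x hx, add_zero]

theorem Zc_zsmul (h1 : Stmt_DG) (M : ℕ) (T S C : Finset A) (w : A) (r : ℕ) (n : ℤ)
    (f : PX K A v) (hf : Zc M T S C w r f) : Zc M T S C w r (n • f) := by
  obtain ⟨-, -, h2, -⟩ := h1 K A A v
  refine ⟨⟨(h2 _ 0 n f hf.cg.dg).2.2, ?_, ?_, ?_⟩, ?_, ?_⟩
  · intro x hx y hy
    rw [map_zsmul, hf.cg.sy x hx y hy]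
  · intro x hx y hy hxy
    rw [map_zsmul, hf.cg.alS x hx y hy hxy, smul_neg]
  · intro x hx y hy hxy
    rw [map_zsmul, hf.cg.alC x hx y hy hxy, smul_neg]
  · intro x hx
    rw [map_zsmul, hf.cyS x hx, smul_zero]
  · intro x hx
    rw [map_zsmul, hf.cyC x hx, smul_zero]

theorem mem_pS {S : Finset A} {π : Equiv.Perm A} : π ∈ pS S ↔ ∀ x, x ∉ S → π x = x := by
  classical
  simp [pS]

theorem alt_ren (S : Finset A) (π : Equiv.Perm A) (hπ : π ∈ pS S) (f : PX K A v) :
    alt S (ren π f) = ((Equiv.Perm.sign π : ℤˣ) : ℤ) • alt S f := by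
  rw [alt, alt, Finset.smul_sum]
  refine Finset.sum_equiv (Equiv.mulRight π) (fun σ => ?_) (fun σ _ => ?_)
  · rw [mem_pS, mem_pS]
    rw [mem_pS] at hπ
    constructor
    · intro h x hx
      change σ (π x) = x
      rw [hπ x hx, h x hx]
    · intro h x hx
      have h1 : σ (π x) = x := h x hx
      rwa [hπ x hx] at h1
  · change _ = _ • ((Equiv.Perm.sign (σ * π) : ℤˣ) : ℤ) • ren (σ * π) f
    rw [ren_ren, smul_smul, Equiv.Perm.sign_mul]
    have h1 : ((Equiv.Perm.sign π : ℤˣ) : ℤ) * ((Equiv.Perm.sign σ * Equiv.Perm.sign π : ℤˣ) : ℤ) =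
        ((Equiv.Perm.sign σ : ℤˣ) : ℤ) := by
      rw [← Units.val_mul, mul_comm (Equiv.Perm.sign σ), ← mul_assoc, ← sq,
        Int.units_sq, one_mul]
    rw [h1]
    rfl

theorem alt_alt (h3 : Stmt_SYM) (S S' : Finset A) (hS : S' ⊆ S) (f : PX K A v) :
    alt S (alt S' f) = (S'.card.factorial : ℤ) • alt S f := by
  obtain ⟨e1, e2, e3, -, e5, -⟩ := h3 K A v
  have hA : Al S (alt S f) := (e3 S f).2
  have hA' : Al S' (alt S f) := (e1 S S' _ hS).2 hA
  rw [← (e5 S' (alt S f)).2 hA']
  have hsq : ∀ π : Equiv.Perm A, ((Equiv.Perm.sign π : ℤˣ) : ℤ) * ((Equiv.Perm.sign π : ℤˣ) : ℤ) = 1 := by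
    intro π
    rw [← Units.val_mul, ← sq, Int.units_sq, Units.val_one]
  have h1 : alt S' (alt S f) = ∑ π ∈ pS S', alt S f := by
    conv_lhs => rw [alt]
    refine Finset.sum_congr rfl fun π hπ => ?_
    rw [(e2 S' (alt S f) π hπ).2 hA', smul_smul, hsq, one_smul]
  have h2 : alt S (alt S' f) = ∑ π ∈ pS S', alt S f := by
    conv_lhs => rw [alt]
    simp only [alt, map_sum, Finset.smul_sum]
    rw [Finset.sum_comm]
    refine Finset.sum_congr rfl fun π hπ => ?_
    have hπ' : π ∈ pS S := by
      rw [mem_pS] at hπ ⊢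
      exact fun x hx => hπ x (fun h => hx (hS h))
    have h4 := alt_ren S π hπ' f
    rw [alt, alt] at h4
    have h5 : ∀ σ ∈ pS S, ((Equiv.Perm.sign σ : ℤˣ) : ℤ) •
        ren σ (((Equiv.Perm.sign π : ℤˣ) : ℤ) • ren π f) =
        ((Equiv.Perm.sign π : ℤˣ) : ℤ) • (((Equiv.Perm.sign σ : ℤˣ) : ℤ) • ren σ (ren π f)) := by
      intro σ _
      rw [map_zsmul, smul_comm]
    rw [Finset.sum_congr rfl h5, ← Finset.smul_sum, h4, smul_smul, hsq, one_smul]
  rw [h1, h2]

end

theorem key (h1 : Stmt_DG) (h3 : Stmt_SYM) (h4 : Stmt_LL) [CharZero K] (v M β l : ℕ)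
    (hv : 1 ≤ v) {A : Type} [Fintype A] [DecidableEq A] (T C : Finset A) (w : A)
    (x y : Fin v → K) (b : A → MvPolynomial (Fin v) K) (hb : ∀ p, (b p).IsHomogeneous M)
    (m : PX K A v) (hC : C.card = l) (S₁ : Finset A) : ∀ (s : ℕ) (S : Finset A),
    (∀ s' ≤ s, LIFT K v (M + 1) (M + 2) s' l (2 * M + 1 + β)) → Cf T S C w → S.card = s →
    S₁ ⊆ S → Zc M T (S \ S₁) C w (2 * M + 2 + β) m →
    ∃ G : ℕ → PX K A v, (∀ n, Zc M T S C w (2 * M + 2 + β) (G n)) ∧
      (∀ n, S₁.card < n → G n = 0) ∧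
      ∀ c : K, lin (x + c • y) w ∣ alt S (xb (x + c • y) b S₁ * m) -
        ∑ n ∈ Finset.range (S₁.card + 1), c ^ n • G n := by
  induction S₁ using Finset.induction_on with
  | empty =>
    intro s S hL hcf hs hsub hm
    rw [Finset.sdiff_empty] at hm
    obtain ⟨-, -, -, -, e5, -⟩ := h3 K A v
    refine ⟨fun n => if n = 0 then (S.card.factorial : ℤ) • m else 0, ?_, ?_, ?_⟩
    · intro n
      by_cases hn : n = 0
      · simp only [if_pos hn]
        exact Zc_zsmul h1 _ _ _ _ _ _ _ _ hm
      · simp only [if_neg hn]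
        exact Zc_zero _ _ _ _ _ _
    · intro n hn
      rw [Finset.card_empty] at hn
      exact if_neg (by omega)
    · intro c
      have : xb (x + c • y) b (∅ : Finset A) = 1 := by simp [xb]
      rw [this, one_mul, (e5 S m).2 hm.cg.alS]
      simp
  | insert p S₁' hp ih =>
    intro s S hL hcf hs hsub hm
    have hpS : p ∈ S := hsub (Finset.mem_insert_self p S₁')
    have hsd : S \ insert p S₁' = S.erase p \ S₁' := by
      ext a
      simp only [Finset.mem_sdiff, Finset.mem_insert, Finset.mem_erase, not_or]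
      tauto
    have hsub' : S₁' ⊆ S.erase p := by
      intro a ha
      rw [Finset.mem_erase]
      exact ⟨fun h => hp (h ▸ ha), hsub (Finset.mem_insert_of_mem ha)⟩
    have hcard : (S.erase p).card + 1 = S.card := Finset.card_erase_add_one hpS
    have hcf' : Cf T (S.erase p) C w :=
      ⟨hcf.TS.mono_right (Finset.erase_subset _ _), hcf.TC,
        hcf.SC.mono_left (Finset.erase_subset _ _), hcf.wT,
        fun h => hcf.wS (Finset.mem_of_mem_erase h), hcf.wC⟩
    have hpT : p ∉ T := fun h => (Finset.disjoint_left.1 hcf.TS h) hpS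
    have hpC : p ∉ C := fun h => (Finset.disjoint_left.1 hcf.SC hpS) h
    have hpw : p ≠ w := fun h => hcf.wS (h ▸ hpS)
    have hwS : w ∉ S.erase p := hcf'.wS
    rw [hsd] at hm
    obtain ⟨G', g1, g2, g3⟩ := ih (s - 1) (S.erase p)
      (fun s' hs' => hL s' (by omega)) hcf' (by omega) hsub' hm
    have hLL := fun n => h4 K v M β (s - 1) l hv
      (by rw [Nat.sub_add_cancel (by omega)]; exact hL s le_rfl) A T (S.erase p) C w p (b p)
      (G' n) hcf' (by omega) hC hpT (Finset.notMem_erase p S) hpC hpw (hb p) (g1 n)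
    choose ρ r1 r2 using hLL
    rw [Finset.insert_erase hpS] at r2
    -- the lifts
    let g : (Fin v → K) → PX K A v := fun z => lin z p * atp p (b p)
    let E : (Fin v → K) → ℕ → PX K A v := fun z n => FF (S.erase p) p (g z) (G' n) - lin z w * ρ n
    have hE : ∀ z n, Zc M T S C w (2 * M + 2 + β) (E z n) := by
      intro z n
      have := r2 n z
      simp only [E, FF_apply]
      exact this
    have hElin : ∀ (c : K) (n : ℕ), E (x + c • y) n = E x n + c • E y n := by
      intro c n
      have h5 : g (x + c • y) = g x + c • g y := by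
        simp only [g, lin_add, add_mul, smul_mul_assoc]
      simp only [E, h5, FF_add, lin_add, add_mul, smul_mul_assoc, smul_sub]
      ring
    have hN : (insert p S₁').card = S₁'.card + 1 := Finset.card_insert_of_notMem hp
    refine ⟨fun n => (if n ≤ S₁'.card then E x n else 0) +
      if 1 ≤ n ∧ n ≤ S₁'.card + 1 then E y (n - 1) else 0, ?_, ?_, ?_⟩
    · intro n
      apply Zc_add h1
      · split_ifs
        · exact hE x n
        · exact Zc_zero _ _ _ _ _ _
      · split_ifs
        · exact hE y _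
        · exact Zc_zero _ _ _ _ _ _
    · intro n hn
      rw [hN] at hn
      simp only [if_neg (show ¬ n ≤ S₁'.card by omega),
        if_neg (show ¬ (1 ≤ n ∧ n ≤ S₁'.card + 1) by omega), add_zero]
    · intro c
      have hsum : ∑ n ∈ Finset.range ((insert p S₁').card + 1), c ^ n •
          ((if n ≤ S₁'.card then E x n else 0) +
            if 1 ≤ n ∧ n ≤ S₁'.card + 1 then E y (n - 1) else 0) =
          ∑ n ∈ Finset.range (S₁'.card + 1), c ^ n • E (x + c • y) n := by
        rw [hN]
        simp only [smul_add, Finset.sum_add_distrib, hElin]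
        congr 1
        · rw [Finset.sum_range_succ, if_neg (by omega), smul_zero, add_zero]
          refine Finset.sum_congr rfl fun n hn => ?_
          rw [if_pos (by have := Finset.mem_range.1 hn; omega)]
        · rw [Finset.sum_range_succ', if_neg (by omega : ¬ (1 ≤ 0 ∧ 0 ≤ S₁'.card + 1)),
            smul_zero, add_zero]
          refine Finset.sum_congr rfl fun n hn => ?_
          have hn' := Finset.mem_range.1 hn
          rw [if_pos (⟨by omega, by omega⟩ : 1 ≤ n + 1 ∧ n + 1 ≤ S₁'.card + 1),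
            Nat.add_sub_cancel, smul_smul, pow_succ]
      rw [hsum]
      have hE2 : ∑ n ∈ Finset.range (S₁'.card + 1), c ^ n • E (x + c • y) n =
          FF (S.erase p) p (g (x + c • y)) (∑ n ∈ Finset.range (S₁'.card + 1), c ^ n • G' n) -
            lin (x + c • y) w * ∑ n ∈ Finset.range (S₁'.card + 1), c ^ n • ρ n := by
        rw [map_sum, Finset.mul_sum, ← Finset.sum_sub_distrib]
        refine Finset.sum_congr rfl fun n _ => ?_
        simp only [E, map_smul, smul_sub, mul_smul_comm]
      rw [hE2]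
      -- the alternation
      obtain ⟨e1, e2, e3, e4, e5, e6, e7, e8, e9, e10, e11, e12⟩ := h3 K A v
      have hgs : Sy (S.erase p) (g (x + c • y)) := by
        intro a ha a' ha'
        have hpa : p ≠ a := (Finset.ne_of_mem_erase ha).symm
        have hpa' : p ≠ a' := (Finset.ne_of_mem_erase ha').symm
        simp only [g, map_mul, ren_lin, L2M.ren_atp]
        rw [Equiv.swap_apply_of_ne_of_ne hpa hpa']
      have hD : FF (S.erase p) p (g (x + c • y)) (alt (S.erase p) (xb (x + c • y) b S₁' * m)) =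
          alt S (xb (x + c • y) b (insert p S₁') * m) := by
        have hal : Al (S.erase p) (g (x + c • y) * alt (S.erase p) (xb (x + c • y) b S₁' * m)) := by
          have h6 := (e4 (S.erase p) (alt (S.erase p) (xb (x + c • y) b S₁' * m))
            (alt (S.erase p) (xb (x + c • y) b S₁' * m)))
          have h7 := (e4 (S.erase p) (g (x + c • y)) (alt (S.erase p) (xb (x + c • y) b S₁' * m))).2.2.1
          exact h7 hgs (e3 _ _).2
        have h6 := e12 (S.erase p) p _ (Finset.notMem_erase p S) hal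
        rw [Finset.insert_erase hpS] at h6
        have h7 : alt (S.erase p) (g (x + c • y) * (xb (x + c • y) b S₁' * m)) =
            g (x + c • y) * alt (S.erase p) (xb (x + c • y) b S₁' * m) :=
          ((e9 (S.erase p) (xb (x + c • y) b S₁' * m) (g (x + c • y)) 0).2.2.2.2 hgs).1
        rw [← h7, alt_alt h3 S (S.erase p) (Finset.erase_subset _ _)] at h6
        have h8 : (((S.erase p).card.factorial : ℤ) : ℤ) ≠ 0 := by
          exact_mod_cast Nat.factorial_ne_zero _
        have h9 := smul_right_injective (PX K A v) h8 h6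
        rw [FF_apply, ← h7, ← h9]
        congr 1
        have h10 : xb (x + c • y) b (insert p S₁') = g (x + c • y) * xb (x + c • y) b S₁' := by
          rw [xb, xb, Finset.prod_insert hp]
        rw [h10]
        exact (mul_assoc _ _ _).symm
      rw [← hD, ← sub_add, ← map_sub]
      obtain ⟨k, hk⟩ := g3 c
      rw [hk, FF_mul _ _ _ _ _ _ hpw hwS]
      exact Dvd.intro _ (mul_add _ _ _)

end FAS

open FAS in
theorem FAS_thm (h1 : Stmt_DG) (_h2 : Stmt_DIV) (h3 : Stmt_SYM) (h4 : Stmt_LL) : Stmt_FAS := by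
  intro K _ _ v M β s l hv hL A _ _ T S C S₁ w x y b m hcf hs hC hsub hb hm
  exact key h1 h3 h4 v M β l hv T C w x y b hb m hC S₁ s S hL hcf hs hsub hm

end Pool.Agent.VOP
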