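import Pool.Agent.VOP.StmtsN

/-!
# The Ottaviani-Paoletti conjecture (MP_deb8da_ag), module FCA: the claim `FCLAIM`
-/

namespace Pool.Agent.VOP

open MvPolynomial Pool.Agent.VSY

namespace FCA

variable {K : Type} [Field K] {A : Type} [Fintype A] [DecidableEq A] {v : ℕ}

theorem zc_zero (h1 : Stmt_DG) (M : ℕ) (T S C : Finset A) (w : A) (r : ℕ) :
    Zc M T S C w r (0 : PX K A v) := by
  refine ⟨⟨(h1 K A A v).1 _, ?_, ?_, ?_⟩, ?_, ?_⟩
  · intro x _ y _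
    simp
  · intro x _ y _ _
    simp
  · intro x _ y _ _
    simp
  · intro u _
    simp
  · intro u _
    simp

theorem zc_add (h1 : Stmt_DG) (h2 : Stmt_SYM) {M : ℕ} {T S C : Finset A} {w : A} {r : ℕ}
    {f g : PX K A v} (hf : Zc M T S C w r f) (hg : Zc M T S C w r g) :
    Zc M T S C w r (f + g) := by
  obtain ⟨-, -, -, h4, -⟩ := h2 K A v
  refine ⟨⟨((h1 K A A v).2.1 _ f g hf.cg.dg hg.cg.dg).1, ((h4 T f g).1 hf.cg.sy hg.cg.sy).1,
    ((h4 S f g).2.1 hf.cg.alS hg.cg.alS).1, ((h4 C f g).2.1 hf.cg.alC hg.cg.alC).1⟩, ?_, ?_⟩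
  · intro u hu
    rw [map_add, hf.cyS u hu, hg.cyS u hu, add_zero]
  · intro u hu
    rw [map_add, hf.cyC u hu, hg.cyC u hu, add_zero]

theorem zc_smul (h1 : Stmt_DG) (h2 : Stmt_SYM) {M : ℕ} {T S C : Finset A} {w : A} {r : ℕ}
    (a : K) {f : PX K A v} (hf : Zc M T S C w r f) : Zc M T S C w r (a • f) := by
  obtain ⟨-, -, -, h4, -⟩ := h2 K A v
  refine ⟨⟨((h1 K A A v).2.2.1 _ a 0 f hf.cg.dg).1, ((h4 T f f).2.2.2.2 a).1 hf.cg.sy,
    ((h4 S f f).2.2.2.2 a).2 hf.cg.alS, ((h4 C f f).2.2.2.2 a).2 hf.cg.alC⟩, ?_, ?_⟩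
  · intro u hu
    rw [map_smul, hf.cyS u hu, smul_zero]
  · intro u hu
    rw [map_smul, hf.cyC u hu, smul_zero]

end FCA

open FCA in
theorem FCA_thm (h1 : Stmt_DG) (h2 : Stmt_SYM) (h3 : Stmt_GD0) (h4 : Stmt_N2) (h5 : Stmt_N3)
    (h6 : Stmt_N4) (h7 : Stmt_EST) (h8 : Stmt_ORT) (h9 : Pool.Agent.VSY.Stmt_WB) : Stmt_FCA := by
  intro K _ _ _ v M β t s l a b hv hat hbs hN0 hL hα h3' hHG A _ _ T S C T₁ S₁ w m hCf hSp hT hS
    hC hT₁ hS₁ ha hb hm
  have hcz : CharZero K := IsStrictOrderedRing.toCharZero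
  obtain ⟨hE1, hE2, hE3⟩ := h7 K v M β t s l (hL s le_rfl) hα A T S C T₁ S₁ w hCf hSp hT hS hC
    hT₁ hS₁
  have hSp' := hSp
  obtain ⟨c₀, hc1, hc2, hc3, hc4⟩ := hSp'
  have hz : FCm M β T S C T₁ S₁ w (0 : PX K A v) := by
    have := h4 K v M β t s l h3' A T S C T₁ S₁ w c₀ 0 hCf hT hS hC hT₁ hS₁ hc1 hc2 hc3 hc4
      (zc_zero h1 _ _ _ _ _ _)
    rwa [map_zero] at this
  let Z : Submodule K (PX K A v) :=
    { carrier := {f | Zc M (T \ T₁) (S \ S₁) C w (2 * M + 2 + β) f}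
      add_mem' := fun hf hg => zc_add h1 h2 hf hg
      zero_mem' := zc_zero h1 _ _ _ _ _ _
      smul_mem' := fun c _ hf => zc_smul h1 h2 c hf }
  let N : Submodule K (PX K A v) :=
    { carrier := {f | Zc M (T \ T₁) (S \ S₁) C w (2 * M + 2 + β) f ∧
        FCm M β T S C T₁ S₁ w f}
      add_mem' := fun hf hg => ⟨zc_add h1 h2 hf.1 hg.1, hE1 _ _ hf.1 hg.1 hf.2 hg.2⟩
      zero_mem' := ⟨zc_zero h1 _ _ _ _ _ _, hz⟩
      smul_mem' := fun c _ hf => ⟨zc_smul h1 h2 c hf.1, hE2 c _ hf.1 hf.2⟩ }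
  have key : Z ≤ N := by
    refine h8 K A v (∑ x, dgc M (T \ T₁) (S \ S₁) C w (2 * M + 2 + β) x) Z N
      (fun f hf => hf.1) (fun i j f hf => (hE3 i j f hf).1)
      (fun i j f hf => ⟨(hE3 i j f hf.1).1, (hE3 i j f hf.1).2 hf.2⟩) ?_ ?_
    · intro f hf μ hμ
      rw [Fintype.sum_prod_type]
      exact (Finset.sum_congr rfl fun x _ => hf.cg.dg μ hμ x).le
    · intro ν f hf hW hE
      refine ⟨hf, ?_⟩
      by_cases hk : ∃ k, s + a + b + 1 ≤ ν k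
      · obtain ⟨k, hk⟩ := hk
        exact h5 K v M β t s l (a + b) hv hN0 hL hα A T S C T₁ S₁ w k f (ν k) hCf hSp hT hS hC
          hT₁ hS₁ (by rw [ha, hb]) hf (fun μ hμ => hW μ hμ k) (by omega)
      · push Not at hk
        have hcT : (T \ T₁).card = t - a := by
          rw [Finset.card_sdiff_of_subset hT₁, hT, ha]
        have hcS : (S \ S₁).card = s - b := by
          rw [Finset.card_sdiff_of_subset hS₁, hS, hb]
        obtain ⟨η, hη, hηf⟩ := h6 K v M β (s + a + b) A (T \ T₁) (S \ S₁) C w c₀ ν f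
          ⟨hCf.TS.mono Finset.sdiff_subset Finset.sdiff_subset,
            hCf.TC.mono_left Finset.sdiff_subset, hCf.SC.mono_left Finset.sdiff_subset,
            fun h => hCf.wT (Finset.sdiff_subset h), fun h => hCf.wS (Finset.sdiff_subset h),
            hCf.wC⟩
          (fun h => hc1 (Finset.sdiff_subset h)) (fun h => hc2 (Finset.sdiff_subset h)) hc3 hc4
          (by rw [hcT, hcS, hC]; exact hHG) hf hW hE (fun j => by have := hk j; omega)
        have := h4 K v M β t s l h3' A T S C T₁ S₁ w c₀ η hCf hT hS hC hT₁ hS₁ hc1 hc2 hc3 hc4 hη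
        rwa [hηf] at this
  exact (key hm).2

end Pool.Agent.VOP
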