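import Pool.Agent.VOP.FINN

/-!
# MP_deb8da_ag: the numbers for `q ≥ 2` from a larger base

From the vanishing at the level `2 d + b₀` for `p ≤ 3 (d - 1) + 3 b₀ + e` to the levels `q d + b`.
-/

namespace Pool.Agent.VOP

open Pool.Agent.VSY Pool.Agent.VSY.CH

namespace FINN2

variable {K : Type} [Field K] [CharZero K]

/-- The rows `2 d + b`, `d = N + 1`. -/
theorem rowB (hTR : Stmt_TR) (hTG : Stmt_TG) (hRED : Stmt_RED) (N b₀ e : ℕ)
    (H : ∀ p, p ≤ 3 * N + 3 * b₀ + e → W K (N + 1) p (2 * (N + 1) + b₀))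
    (he : ∀ b, b₀ ≤ b → b + 5 ≤ N → 2 * e + b * (b + 1) + 6 * b ≤ 2 * (b * N)) (n : ℕ) :
    b₀ + n + 2 ≤ N → ∀ p : ℕ, 2 * p + (b₀ + n + 1) * (b₀ + n) ≤ 2 * ((b₀ + n + 3) * N) →
      p ≤ 3 * N + 3 * (b₀ + n) + e → W K (N + 1) p (2 * (N + 1) + (b₀ + n)) := by
  induction n with
  | zero =>
    intro hb p hp hp'
    exact H p (by omega)
  | succ n ihn =>
    intro hb p
    induction p using Nat.strong_induction_on with
    | _ p ih =>
      intro hp hp'
      obtain ⟨b, hbe⟩ : ∃ b, b = b₀ + n := ⟨_, rfl⟩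
      have hb1 : b₀ + (n + 1) = b + 1 := by omega
      rw [hb1] at hb hp hp' ih ⊢
      rw [← hbe] at ihn
      refine step hTR hTG hRED (q := 2) (by omega) (by omega)
        (Or.inr ⟨N - 3 - b, by omega, ?_⟩) ?_ ?_
      · obtain ⟨m, rfl⟩ : ∃ m, N = m + b + 3 := ⟨N - b - 3, by omega⟩
        have e3 : m + b + 3 - 3 - b + 2 = m + 1 + 1 := by omega
        have e4 : m + b + 3 + 1 + 2 = m + b + 5 + 1 := by omega
        rw [e3, e4]
        have h1 := ch2 (m + 1)
        have h2 := ch2 (m + b + 5)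
        nlinarith
      · intro p' h
        exact ih p' (by omega) (by omega) (by omega)
      · intro p' r' h hr
        have hr2 : r' = 2 * (N + 1) + b := by omega
        subst hr2
        refine ihn (by omega) p' ?_ (by omega)
        rcases Nat.lt_or_ge N (b + 5) with hd | hd
        · obtain ⟨m, rfl⟩ : ∃ m, N = b + 3 + m := ⟨N - (b + 3), by omega⟩
          have hm : m = 0 ∨ m = 1 := by omega
          rcases hm with rfl | rfl
          · nlinarith
          · nlinarith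
        · have h5 := he b (by omega) hd
          have h6 : 2 * p' ≤ 6 * N + 6 * b + 2 * e := by omega
          nlinarith
      
/-- The inequality for Theorem G. -/
theorem ineq (N : ℕ) (hN : 2 ≤ N) (q s p c E : ℕ) (hq : 3 ≤ q) (hs : s ≤ N)
    (hc : 7 * N + 10 + E ≤ N * N + c)
    (hp : 2 * p + c ≤ N * (q * (q + 1)) + 2 * ((q + 1) * (N - s + 1)) + E) :
    p + (s + q).choose q + (q + 1) ≤ (N + 1 + q).choose q := by
  have h := FINN.GG_nonneg N hN q s hq hs
  unfold FINN.GG at h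
  obtain ⟨m, rfl⟩ : ∃ m, N = s + m := ⟨N - s, by omega⟩
  rw [Nat.add_sub_cancel_left] at hp
  have hp' : (2 : ℤ) * p + c ≤ (s + m) * (q * (q + 1)) + 2 * ((q + 1) * (m + 1)) + E := by
    exact_mod_cast hp
  have hc' : (7 : ℤ) * (s + m) + 10 + E ≤ (s + m) * (s + m) + c := by exact_mod_cast hc
  have h2 : (2 : ℤ) * (p + ((s + q).choose q : ℕ) + (q + 1)) ≤
      2 * ((s + m + 1 + q).choose q : ℕ) := by
    push_cast at h ⊢
    nlinarith
  have h3 : 2 * (p + (s + q).choose q + (q + 1)) ≤ 2 * (s + m + 1 + q).choose q := by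
    exact_mod_cast h2
  omega

/-- The step for `q ≥ 3`. -/
theorem main (hTR : Stmt_TR) (hTG : Stmt_TG) (hRED : Stmt_RED) (N : ℕ) (hN : 3 ≤ N) (c E : ℕ)
    (hc : 7 * N + 10 + E ≤ N * N + c) (q r : ℕ) (hq : 3 ≤ q) (hqr : q * N ≤ r)
    (hrq : r ≤ (q + 1) * N)
    (hB : ∀ p r', r' + 1 = r →
      2 * (p + (q + 1)) + c ≤ N * (q * (q + 1)) + 2 * ((q + 1) * (r - q * N + 1)) + E →
      W K (N + 1) p r') :
    ∀ p, 2 * p + c ≤ N * (q * (q + 1)) + 2 * ((q + 1) * (r - q * N + 1)) + E →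
      W K (N + 1) p r := by
  intro p
  induction p using Nat.strong_induction_on with
  | _ p ih =>
    intro hp
    have e1 : (q + 1) * N = q * N + N := by ring
    obtain ⟨s, hs⟩ : ∃ s, r + s = (q + 1) * N := ⟨(q + 1) * N - r, by omega⟩
    have hsN : s ≤ N := by omega
    have e2 : r - q * N = N - s := by omega
    refine step hTR hTG hRED (q := q) (by omega) ?_ (Or.inr ⟨s, ?_, ?_⟩) ?_ ?_
    · rw [Nat.add_sub_cancel]
      omega
    · rw [Nat.add_sub_cancel]
      exact hs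
    · rw [e2] at hp
      exact ineq N (by omega) q s p c E hq hsN hc hp
    · intro p' hp'
      exact ih p' (by omega) (by omega)
    · intro p' r' hp' hr'
      exact hB p' r' hr' (by omega)

/-- The rows `r ≥ 3 (d - 1)`. -/
theorem rows (hTR : Stmt_TR) (hTG : Stmt_TG) (hRED : Stmt_RED) (N b₀ e : ℕ) (hN : b₀ + 3 ≤ N)
    (c : ℕ) (hc : 7 * N + 10 + 2 * e ≤ N * N + c) (hc18 : 18 ≤ c)
    (H : ∀ p, p ≤ 3 * N + 3 * b₀ + e → W K (N + 1) p (2 * (N + 1) + b₀))
    (he : ∀ b, b₀ ≤ b → b + 5 ≤ N → 2 * e + b * (b + 1) + 6 * b ≤ 2 * (b * N))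
    (j : ℕ) : ∀ q r p : ℕ, 3 * N + j = r → 3 ≤ q → q * N ≤ r → r ≤ (q + 1) * N →
      2 * p + c ≤ N * (q * (q + 1)) + 2 * ((q + 1) * (r - q * N + 1)) + 2 * e →
      W K (N + 1) p r := by
  induction j with
  | zero =>
    intro q r p hr hq hqr hrq hp
    rw [add_zero] at hr
    have hq3 : q = 3 := by
      by_contra hne
      have h5 : 4 * N ≤ q * N := Nat.mul_le_mul_right N (by omega)
      omega
    subst hq3
    subst hr
    refine main hTR hTG hRED N (by omega) c (2 * e) hc 3 (3 * N) hq hqr hrq ?_ p hp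
    intro p' r' hr' hp'
    rw [Nat.sub_self] at hp'
    obtain ⟨m, rfl⟩ : ∃ m, N = b₀ + m + 3 := ⟨N - b₀ - 3, by omega⟩
    have e' : r' = 2 * (b₀ + m + 3 + 1) + (b₀ + m) := by omega
    subst e'
    refine rowB hTR hTG hRED (b₀ + m + 3) b₀ e H he m (by omega) p' ?_ (by omega)
    obtain ⟨a, ha⟩ : ∃ a, a = b₀ + m := ⟨_, rfl⟩
    rw [← ha] at hp' hc ⊢
    nlinarith
  | succ j ihj =>
    intro q r p hr hq hqr hrq hp
    refine main hTR hTG hRED N (by omega) c (2 * e) hc q r hq hqr hrq ?_ p hp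
    intro p' r' hr' hp'
    rcases Nat.lt_or_ge (q * N) r with h | h
    · refine ihj q r' p' (by omega) hq (by omega) (by omega) ?_
      have e3 : r - q * N = r' - q * N + 1 := by omega
      rw [e3] at hp'
      have e4 : 2 * ((q + 1) * (r' - q * N + 1 + 1)) =
        2 * ((q + 1) * (r' - q * N + 1)) + 2 * (q + 1) := by ring
      rw [e4] at hp'
      omega
    · have hqr' : q * N = r := le_antisymm hqr h
      have hq4 : 4 ≤ q := by
        by_contra hne
        have : q = 3 := by omega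
        subst this
        omega
      obtain ⟨k, rfl⟩ : ∃ k, q = k + 1 := ⟨q - 1, by omega⟩
      have e1 : (k + 1) * N = k * N + N := by ring
      refine ihj k r' p' (by omega) (by omega) (by omega) (by omega) ?_
      have e2 : r - (k + 1) * N = 0 := by omega
      have e3 : r' - k * N + 1 = N := by omega
      rw [e2] at hp'
      rw [e3]
      have e4 : N * ((k + 1) * (k + 1 + 1)) = N * (k * (k + 1)) + 2 * ((k + 1) * N) := by ring
      rw [e4] at hp'
      have e5 : 2 * ((k + 1 + 1) * (0 + 1)) = 2 * (k + 1 + 1) := by ring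
      rw [e5] at hp'
      omega

end FINN2

open FINN2

/-- FINN2: the levels `q d + b`, from a base at the level `2 d + b₀`. -/
def Stmt_FINN2 : Prop :=
  ∀ (K : Type) [Field K] [CharZero K] (d b₀ e : ℕ), b₀ + 4 ≤ d →
    7 * (d - 1) + 10 + 2 * e ≤ (d - 1) * (d - 1) + 18 →
    (∀ b, b₀ ≤ b → b + 6 ≤ d → 2 * e + b * (b + 1) + 6 * b ≤ 2 * (b * (d - 1))) →
    (∀ v p : ℕ, p ≤ 3 * (d - 1) + 3 * b₀ + e → Van K v d p (2 * d + b₀)) →
    (∀ v b p : ℕ, b₀ ≤ b → b + 3 ≤ d → (p : ℤ) < Lend 2 b d →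
      p ≤ 3 * (d - 1) + 3 * b + e → Van K v d p (2 * d + b)) ∧
    (∀ v q b p : ℕ, 3 ≤ q → b + q + 1 ≤ d →
      2 * p + 16 ≤ q * (q + 1) * (d - 1) + 2 * ((q + 1) * (q + b)) + 2 * q + 2 * e →
      Van K v d p (q * d + b))

theorem FINN2_thm (hTR : Stmt_TR) (hTG : Stmt_TG) (hRED : Stmt_RED) : Stmt_FINN2 := by
  intro K _ _ d b₀ e hd hc he H
  obtain ⟨N, rfl⟩ : ∃ N, d = N + 1 := ⟨d - 1, by omega⟩
  rw [Nat.add_sub_cancel] at hc H he
  have H' : ∀ p, p ≤ 3 * N + 3 * b₀ + e → W K (N + 1) p (2 * (N + 1) + b₀) :=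
    fun p hp v => H v p hp
  have he' : ∀ b, b₀ ≤ b → b + 5 ≤ N → 2 * e + b * (b + 1) + 6 * b ≤ 2 * (b * N) :=
    fun b hb hb' => he b hb (by omega)
  constructor
  · intro v b p hb hb' hL hp
    obtain ⟨n, rfl⟩ := Nat.exists_eq_add_of_le hb
    refine rowB hTR hTG hRED N b₀ e H' he' n (by omega) p ?_ (by omega) v
    have hL' := lend_eq (by omega : b₀ + n + 3 ≤ N + 1)
    obtain ⟨a, ha⟩ : ∃ a, a = b₀ + n := ⟨_, rfl⟩
    rw [← ha] at hL hL' ⊢
    push_cast at hL'
    have h8 : (2 : ℤ) * p + (a + 1) * a ≤ 2 * ((a + 3) * N) := by nlinarith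
    exact_mod_cast h8
  · intro v q b p hq hqb hp
    have e0 : q * (N + 1) + b = q * N + (q + b) := by ring
    have e1 : (q + 1) * N = q * N + N := by ring
    have e2 : 3 * N ≤ q * N := Nat.mul_le_mul_right N hq
    refine rows hTR hTG hRED N b₀ e (by omega) 18 hc le_rfl H' he' (q * (N + 1) + b - 3 * N) q _ p
      (by omega) hq (by omega) (by omega) ?_ v
    have e3 : q * (N + 1) + b - q * N = q + b := by omega
    rw [e3]
    rw [Nat.add_sub_cancel] at hp
    have e4 : N * (q * (q + 1)) = q * (q + 1) * N := by ring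
    have e5 : 2 * ((q + 1) * (q + b + 1)) = 2 * ((q + 1) * (q + b)) + 2 * (q + 1) := by ring
    rw [e4, e5]
    omega

end Pool.Agent.VOP
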