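import Pool.Agent.VOP.OP2
import Pool.Agent.VOP.FINN2

/-!
# MP_deb8da_ag: the ranges for all `q ≥ 2`
-/

namespace Pool.Agent.VOP

open Pool.Agent.VSY Pool.Agent.VSY.CH

/-- The improvement of the linear bound. -/
def EE (d : ℕ) : ℕ :=
  if d < 7 then 0 else if d < 10 then d - 6 else if d < 12 then d - 5 else
    if d < 16 then 3 * d - 27 else 2 * d - 11

namespace FIN3

/-- Base change for `VB`. -/
theorem vb_bc (K : Type) [Field K] [CharZero K] {N β P : ℕ} (h : VB ℚ N β P) : VB K N β P :=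
  fun v p hp => BC_thm K v (N + 1) p _ (h v p hp)

/-- The base at the level `2 d + b₀`. -/
theorem base (K : Type) [Field K] [CharZero K] (d : ℕ) (hd : 7 ≤ d) :
    ∃ b₀, ((b₀ = 1 ∧ d < 12) ∨ (b₀ = 2 ∧ 12 ≤ d)) ∧
      ∀ v p : ℕ, p ≤ 3 * (d - 1) + 3 * b₀ + EE d → Van K v d p (2 * d + b₀) := by
  obtain ⟨N, rfl⟩ : ∃ N, d = N + 1 := ⟨d - 1, by omega⟩
  rw [Nat.add_sub_cancel]
  have q1 : VB ℚ 6 2 22 ∧ VB ℚ 7 2 26 ∧ VB ℚ 8 2 30 := VB.two_less stepx hg0 hgt (vb1 ℚ)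
  have conv1 : ∀ P, VB ℚ N 2 P → ∀ v p : ℕ, p ≤ P → Van K v (N + 1) p (2 * (N + 1) + 1) := by
    intro P h v p hp
    have := vb_bc K h v p hp
    rwa [show 2 * N + 2 + 1 = 2 * (N + 1) + 1 by ring] at this
  have conv2 : ∀ P, VB ℚ N 3 P → ∀ v p : ℕ, p ≤ P → Van K v (N + 1) p (2 * (N + 1) + 2) := by
    intro P h v p hp
    have := vb_bc K h v p hp
    rwa [show 2 * N + 3 + 1 = 2 * (N + 1) + 2 by ring] at this
  rcases Nat.lt_or_ge N 9 with h9 | h9
  · refine ⟨1, Or.inl ⟨rfl, by omega⟩, ?_⟩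
    have hE : EE (N + 1) = N - 5 := by
      unfold EE
      rw [if_neg (by omega), if_pos (by omega)]
      omega
    rw [hE]
    have : N = 6 ∨ N = 7 ∨ N = 8 := by omega
    rcases this with rfl | rfl | rfl
    · exact conv1 22 q1.1
    · exact conv1 26 q1.2.1
    · exact conv1 30 q1.2.2
  · rcases Nat.lt_or_ge N 11 with h11 | h11
    · refine ⟨1, Or.inl ⟨rfl, by omega⟩, ?_⟩
      have hE : EE (N + 1) = N - 4 := by
        unfold EE
        rw [if_neg (by omega), if_neg (by omega), if_pos (by omega)]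
        omega
      rw [hE]
      intro v p hp
      exact conv1 _ (vb2 ℚ N h9) v p (by omega)
    · refine ⟨2, Or.inr ⟨rfl, by omega⟩, ?_⟩
      rcases Nat.lt_or_ge N 15 with h15 | h15
      · have hE : EE (N + 1) = 3 * N - 24 := by
          unfold EE
          rw [if_neg (by omega), if_neg (by omega), if_neg (by omega), if_pos (by omega)]
          omega
        rw [hE]
        have hs : VB ℚ 11 3 48 ∧ VB ℚ 12 3 54 ∧ VB ℚ 13 3 60 ∧ VB ℚ 14 3 66 :=
          VB.three_mid stepx hg0 hgt (vb2 ℚ)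
        have : N = 11 ∨ N = 12 ∨ N = 13 ∨ N = 14 := by omega
        rcases this with rfl | rfl | rfl | rfl
        · exact conv2 48 hs.1
        · exact conv2 54 hs.2.1
        · exact conv2 60 hs.2.2.1
        · exact conv2 66 hs.2.2.2
      · have hE : EE (N + 1) = 2 * N - 9 := by
          unfold EE
          rw [if_neg (by omega), if_neg (by omega), if_neg (by omega), if_neg (by omega)]
          omega
        rw [hE]
        intro v p hp
        exact conv2 _ (vb3 ℚ N h15) v p (by omega)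

/-- The rows `q ≥ 2`, `b ≥ 1` or `q ≥ 3`, `d ≥ 7`. -/
theorem big (K : Type) [Field K] [CharZero K] (d : ℕ) (hd : 7 ≤ d) :
    (∀ v b p : ℕ, 1 ≤ b → b + 3 ≤ d → (p : ℤ) < Lend 2 b d →
      p ≤ 3 * (d - 1) + 3 * b + EE d → Van K v d p (2 * d + b)) ∧
    (∀ v q b p : ℕ, 3 ≤ q → b + q + 1 ≤ d →
      2 * p + 16 ≤ q * (q + 1) * (d - 1) + 2 * ((q + 1) * (q + b)) + 2 * q + 2 * EE d →
      Van K v d p (q * d + b)) := by
  obtain ⟨b₀, hb₀, H⟩ := base K d hd
  have hE : 7 ≤ d → EE d + 6 ≤ d ∨ (10 ≤ d ∧ EE d + 5 ≤ d) ∨ (12 ≤ d ∧ d < 16 ∧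
      EE d + 27 = 3 * d) ∨ (16 ≤ d ∧ EE d + 11 = 2 * d) := by
    intro _
    unfold EE
    split_ifs <;> omega
  have hE' := hE hd
  obtain ⟨N, rfl⟩ : ∃ N, d = N + 1 := ⟨d - 1, by omega⟩
  have h1 := FINN2_thm tr tg red K (N + 1) b₀ (EE (N + 1)) (by omega) ?_ ?_ H
  · refine ⟨?_, h1.2⟩
    intro v b p hb hb' hL hp
    rcases Nat.lt_or_ge b b₀ with hbb | hbb
    · -- `b = 1`, `b₀ = 2`: the exact range
      have hb1 : b = 1 := by omega
      have hN : 11 ≤ N := by omega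
      subst hb1
      have h := vb_bc K (vb2 ℚ N (by omega)) v p ?_
      · rwa [show 2 * N + 2 + 1 = 2 * (N + 1) + 1 by ring] at h
      · have hl := lend_eq (b := 1) (d := N + 1) (by omega)
        have hN' : (11 : ℤ) ≤ N := by exact_mod_cast hN
        push_cast at hl
        have : (p : ℤ) ≤ 4 * N - 1 := by nlinarith
        omega
    · exact h1.1 v b p hbb hb' hL hp
  · rw [Nat.add_sub_cancel]
    rcases hE' with h | ⟨h, h'⟩ | ⟨h, h', h''⟩ | ⟨h, h'⟩
    · rcases Nat.lt_or_ge N 9 with h9 | h9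
      · have : N = 6 ∨ N = 7 ∨ N = 8 := by omega
        rcases this with rfl | rfl | rfl <;> omega
      · nlinarith
    · nlinarith
    · nlinarith
    · nlinarith
  · intro b hb hb'
    rw [Nat.add_sub_cancel]
    obtain ⟨m, rfl⟩ : ∃ m, N = b + 5 + m := ⟨N - b - 5, by omega⟩
    rcases hb₀ with ⟨rfl, hd'⟩ | ⟨rfl, hd'⟩
    · rcases hE' with h | ⟨h, h'⟩ | ⟨h, h', h''⟩ | ⟨h, h'⟩
      · nlinarith [Nat.zero_le (b * m)]
      · nlinarith [Nat.zero_le (b * m)]
      · omega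
      · omega
    · rcases hE' with h | ⟨h, h'⟩ | ⟨h, h', h''⟩ | ⟨h, h'⟩
      · nlinarith [Nat.zero_le (b * m)]
      · nlinarith [Nat.zero_le (b * m)]
      · nlinarith [Nat.zero_le (b * m)]
      · nlinarith [Nat.zero_le (b * m)]

end FIN3

end Pool.Agent.VOP
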