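import Pool.Agent.VOP.NUM2

/-!
# MP_deb8da_ag: the ranges `5 (ℓ + 1) p² ≤ ((q - 1) d + b)³`, `d ≤ 2^ℓ`

`s = N + β`, `A = 5 (ℓ + 1)`.  The ranges are below the tangent lines of `(s³ / A)^(1/2)` of slope
at most `β + 3`.
-/

namespace Pool.Agent.VOP

open Pool.Agent.VSY

/-- Growth of `FF`. -/
theorem FF_succ (C e : ℕ) : FF C e + FF C e / (C - 1) ≤ FF C (e + 1) := by
  rw [FF]
  exact le_max_right _ _

theorem FF_lin (C e : ℕ) : e + 1 ≤ FF C e := by
  cases e with
  | zero => simp [FF]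
  | succ e =>
    rw [FF]
    exact le_max_left _ _

theorem FF_mono (C : ℕ) {e e' : ℕ} (h : e ≤ e') : FF C e ≤ FF C e' := by
  induction h with
  | refl => exact le_rfl
  | step _ ih => exact ih.trans ((Nat.le_add_right _ _).trans (FF_succ C _))

theorem FF_step {C e y : ℕ} (hC : 2 ≤ C) (h : C * y ≤ FF C e) (i : ℕ) :
    C * y + i * y ≤ FF C (e + i) := by
  induction i with
  | zero => simpa using h
  | succ i ih =>
    have h1 : y ≤ FF C (e + i) / (C - 1) := by
      rw [Nat.le_div_iff_mul_le (by omega)]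
      have h2 : y * (C - 1) ≤ C * y := by
        rw [Nat.mul_comm C y]
        exact Nat.mul_le_mul_left y (by omega)
      omega
    have h2 := FF_succ C (e + i)
    have h3 : (i + 1) * y = i * y + y := by ring
    rw [h3, ← Nat.add_assoc e i 1]
    omega

theorem FF_pow {C : ℕ} (hC : 2 ≤ C) (k : ℕ) : C * 2 ^ k ≤ FF C (C * (k + 1)) := by
  induction k with
  | zero =>
    have := FF_lin C (C * (0 + 1))
    simp only [zero_add, pow_zero, mul_one] at this ⊢
    omega
  | succ k ih =>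
    have h := FF_step hC ih C
    have e1 : C * (k + 1 + 1) = C * (k + 1) + C := by ring
    have e2 : C * 2 ^ (k + 1) = C * 2 ^ k + C * 2 ^ k := by ring
    rw [e1, e2]
    exact h

/-- The condition: `P` is below a tangent line of slope `w ≤ β + 3`. -/
def Tan (A N β P : ℕ) : Prop :=
  ∃ w : ℚ, 0 < w ∧ w ≤ β + 3 ∧ 27 * (P : ℚ) + 4 * A * w ^ 3 ≤ 27 * w * (N + β)

/-- The cap. -/
def Cap (N β P : ℕ) : Prop := N ≤ β ∨ 2 * P + β * (β - 1) ≤ 2 * ((β + 2) * N)

namespace Tan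

variable {A N β P : ℕ}

theorem sq (h : Tan A N β P) : A * P ^ 2 ≤ (N + β) ^ 3 := by
  obtain ⟨w, hw, -, h⟩ := h
  have hA : (0 : ℚ) ≤ A := Nat.cast_nonneg _
  have hP : (0 : ℚ) ≤ P := Nat.cast_nonneg _
  have hs : (0 : ℚ) ≤ (N : ℚ) + β := by positivity
  obtain ⟨s, hs'⟩ : ∃ s : ℚ, s = N + β := ⟨_, rfl⟩
  rw [← hs'] at h hs
  -- `9 s ≥ A w²`
  have h1 : 4 * A * w ^ 2 ≤ 27 * s := by
    have h2 : 4 * A * w ^ 3 ≤ 27 * w * s := by linarith
    have h3 : w * (4 * A * w ^ 2) ≤ w * (27 * s) := by nlinarith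
    exact le_of_mul_le_mul_left h3 hw
  have h9 : 0 ≤ 9 * s - A * w ^ 2 := by nlinarith [mul_nonneg hA (sq_nonneg w)]
  have h4 : 0 ≤ 27 * w * s - 4 * A * w ^ 3 := by linarith
  have h5 : (27 * (P : ℚ)) ^ 2 ≤ (27 * w * s - 4 * A * w ^ 3) ^ 2 :=
    pow_le_pow_left₀ (by positivity) (by linarith) 2
  have h6 : 729 * s ^ 3 - A * (27 * w * s - 4 * A * w ^ 3) ^ 2 =
      (9 * s - 4 * A * w ^ 2) ^ 2 * (9 * s - A * w ^ 2) := by ring
  have h7 : 0 ≤ (9 * s - 4 * A * w ^ 2) ^ 2 * (9 * s - A * w ^ 2) :=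
    mul_nonneg (sq_nonneg _) h9
  have h8 : A * (27 * (P : ℚ)) ^ 2 ≤ A * (27 * w * s - 4 * A * w ^ 3) ^ 2 :=
    mul_le_mul_of_nonneg_left h5 hA
  have h10 : (A : ℚ) * P ^ 2 ≤ s ^ 3 := by nlinarith
  rw [hs'] at h10
  exact_mod_cast h10

theorem diag {M : ℕ} (h : Tan A (M + 1) β P) {P' : ℕ} (hP : P' ≤ P) : Tan A M (β + 1) P' := by
  obtain ⟨w, hw, hw', h⟩ := h
  refine ⟨w, hw, ?_, ?_⟩
  · push_cast
    linarith
  · have : (P' : ℚ) ≤ P := by exact_mod_cast hP
    push_cast at h ⊢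
    nlinarith

theorem down {M : ℕ} (h : Tan A (M + 1) β P) {P' : ℕ} (hP : P' + 3 + β ≤ P) :
    Tan A M β P' := by
  obtain ⟨w, hw, hw', h⟩ := h
  refine ⟨w, hw, hw', ?_⟩
  have : (P' : ℚ) + 3 + β ≤ P := by exact_mod_cast hP
  push_cast at h ⊢
  nlinarith

theorem left (h : Tan A N (β + 1) P) (hA : 10 ≤ A) (hN : A * (N + β + 1) < 4 * N ^ 2)
    {Q : ℕ} (hP : Q + (N + 4) ≤ P) : Tan A N β Q := by
  obtain ⟨w, hw, hw', h⟩ := h
  have hA' : (10 : ℚ) ≤ A := by exact_mod_cast hA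
  have hQ : (Q : ℚ) + (N + 4) ≤ P := by exact_mod_cast hP
  have hN' : (A : ℚ) * (N + β + 1) < 4 * N ^ 2 := by exact_mod_cast hN
  have hNn : (0 : ℚ) ≤ N := Nat.cast_nonneg _
  have hβn : (0 : ℚ) ≤ β := Nat.cast_nonneg _
  push_cast at hw' h
  obtain ⟨s, hs⟩ : ∃ s : ℚ, s = N + β + 1 := ⟨_, rfl⟩
  have hs1 : (N : ℚ) + (β + 1) = s := by rw [hs]; ring
  rw [hs1] at h
  rw [← hs] at hN'
  have h1 : 4 * A * w ^ 2 ≤ 27 * s := by
    have h2 : 4 * A * w ^ 3 ≤ 27 * w * s := by nlinarith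
    have h3 : w * (4 * A * w ^ 2) ≤ w * (27 * s) := by nlinarith
    exact le_of_mul_le_mul_left h3 hw
  rcases le_or_gt w (β + 3) with hc | hc
  · refine ⟨w, hw, hc, ?_⟩
    have hwN : w ≤ N := by
      by_contra hcon
      rw [not_le] at hcon
      have h4 : (N : ℚ) ^ 2 < w ^ 2 := pow_lt_pow_left₀ hcon hNn (by norm_num)
      nlinarith
    have e : 27 * w * ((N : ℚ) + β) = 27 * w * s - 27 * w := by rw [hs]; ring
    rw [e]
    nlinarith
  · refine ⟨β + 3, by linarith, le_rfl, ?_⟩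
    obtain ⟨y, hy⟩ : ∃ y : ℚ, y = β + 3 := ⟨_, rfl⟩
    have hβ : (β : ℚ) = y - 3 := by rw [hy]; ring
    have hNs : (N : ℚ) = s - y + 2 := by rw [hs, hy]; ring
    have hy3 : 3 ≤ y := by rw [hy]; linarith
    rw [← hy] at hc ⊢
    have hw2 : w ≤ y + 1 := by rw [hy]; linarith
    have e : 27 * y * ((N : ℚ) + β) = 27 * y * s - 27 * y := by rw [hs]; ring
    rw [e]
    have h4 : 0 ≤ w - y := by linarith
    have h5 : 0 ≤ y + 1 - w := by linarith
    have hyw : y ^ 2 ≤ w ^ 2 := pow_le_pow_left₀ (by linarith) hc.le 2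
    -- `27 (y + 1 - w) s + 4 A (w³ - y³) ≥ 54 y - 162`
    have h6 : 27 * (y + 1 - w) * s ≥ 4 * A * (y + 1 - w) * y ^ 2 := by
      have : 4 * A * y ^ 2 ≤ 27 * s := by nlinarith
      nlinarith
    have h7 : w ^ 3 - y ^ 3 ≥ 3 * y ^ 2 * (w - y) := by
      have e1 : w ^ 3 - y ^ 3 = (w - y) * (w ^ 2 + w * y + y ^ 2) := by ring
      rw [e1]
      have h8 : 3 * y ^ 2 ≤ w ^ 2 + w * y + y ^ 2 := by nlinarith
      nlinarith
    have h8 : 4 * A * (w ^ 3 - y ^ 3) ≥ 4 * A * (3 * y ^ 2 * (w - y)) :=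
      mul_le_mul_of_nonneg_left h7 (by positivity)
    have h9 : 0 ≤ A * (w - y) * y ^ 2 := by positivity
    have h10 : 40 * y ^ 2 ≤ 4 * A * y ^ 2 := by nlinarith [sq_nonneg y]
    nlinarith

end Tan

namespace Cap

variable {A N β P : ℕ}

theorem diag {M : ℕ} (h : Cap (M + 1) β P) (hs : 10 * P ^ 2 ≤ (M + 1 + β) ^ 3) {P' : ℕ}
    (hP : P' + 3 ≤ P) : Cap M (β + 1) P' := by
  rcases Nat.lt_or_ge (β + 1) M with hM | hM
  · right
    rcases h with h | h
    · omega
    · rw [Nat.add_sub_cancel]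
      rcases Nat.lt_or_ge (M + 1) (2 * β) with h2 | h2
      · -- `2 β > N`: from the square
        have hsq : 10 * P ^ 2 ≤ (2 * (M + 1)) ^ 3 :=
          hs.trans (Nat.pow_le_pow_left (by omega) 3)
        obtain ⟨N, hN⟩ : ∃ N, N = M + 1 := ⟨_, rfl⟩
        rw [← hN] at hsq h2
        have hM' : M = N - 1 := by omega
        have h4 : (4 * P) ^ 2 ≤ (N ^ 2 + 10 * N) ^ 2 := by
          have e1 : (2 * N) ^ 3 = 8 * N ^ 3 := by ring
          rw [e1] at hsq
          have : 20 * N ^ 3 ≤ N ^ 4 + 100 * N ^ 2 := by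
            have : (0 : ℤ) ≤ (N : ℤ) ^ 2 * ((N : ℤ) - 10) ^ 2 := by positivity
            zify
            nlinarith
          nlinarith
        have h5 : 4 * P ≤ N ^ 2 + 10 * N := by
          by_contra hcon
          rw [not_le] at hcon
          exact absurd h4 (not_le.2 (Nat.pow_lt_pow_left hcon (by norm_num)))
        obtain ⟨a, ha⟩ : ∃ a, M = β + 2 + a := ⟨M - β - 2, by omega⟩
        subst ha
        subst hN
        have h6 : a + 3 < β := by omega
        nlinarith [Nat.zero_le (a * β), Nat.zero_le (a * a)]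
      · obtain ⟨a, ha⟩ : ∃ a, M + 1 = 2 * β + a := ⟨M + 1 - 2 * β, by omega⟩
        rcases Nat.eq_zero_or_pos β with hb | hb
        · subst hb
          simp only [zero_mul, add_zero, zero_add, mul_zero] at h ⊢
          omega
        · obtain ⟨c, rfl⟩ : ∃ c, β = c + 1 := ⟨β - 1, by omega⟩
          rw [Nat.add_sub_cancel] at h
          nlinarith
  · exact Or.inl hM

theorem down {M : ℕ} (h : Cap (M + 1) β P) {P' : ℕ} (hP : P' + 3 + β ≤ P) : Cap M β P' := by
  rcases h with h | h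
  · exact Or.inl (by omega)
  · right
    have e : 2 * ((β + 2) * (M + 1)) = 2 * ((β + 2) * M) + 2 * (β + 2) := by ring
    omega

theorem left (h : Cap N (β + 1) P) (hs : 10 * P ^ 2 ≤ (N + β + 1) ^ 3) {Q : ℕ}
    (hP : Q + (N + 4) ≤ P) : Cap N β Q := by
  rcases Nat.lt_or_ge β N with hβ | hβ
  · right
    rcases h with h | h
    · obtain rfl : N = β + 1 := by omega
      have e1 : β + 1 + β + 1 = 2 * (β + 1) := by ring
      rw [e1] at hs
      obtain ⟨N, hN⟩ : ∃ N, N = β + 1 := ⟨_, rfl⟩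
      rw [← hN] at hs hP ⊢
      have hβ' : β = N - 1 := by omega
      have h4 : (2 * P) ^ 2 ≤ (N ^ 2 + 7 * N) ^ 2 := by
        have e1 : (2 * N) ^ 3 = 8 * N ^ 3 := by ring
        rw [e1] at hs
        have h0 : 0 ≤ N ^ 4 := Nat.zero_le _
        have h1 : 0 ≤ N ^ 2 := Nat.zero_le _
        nlinarith
      have h5 : 2 * P ≤ N ^ 2 + 7 * N := by
        by_contra hcon
        rw [not_le] at hcon
        exact absurd h4 (not_le.2 (Nat.pow_lt_pow_left hcon (by norm_num)))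
      rcases Nat.eq_zero_or_pos β with hb | hb
      · subst hb
        subst hN
        omega
      · obtain ⟨c, rfl⟩ : ∃ c, β = c + 1 := ⟨β - 1, by omega⟩
        subst hN
        rw [Nat.add_sub_cancel]
        nlinarith
    · rw [Nat.add_sub_cancel] at h
      rcases Nat.eq_zero_or_pos β with hb | hb
      · subst hb
        omega
      · obtain ⟨c, rfl⟩ : ∃ c, β = c + 1 := ⟨β - 1, by omega⟩
        rw [Nat.add_sub_cancel]
        nlinarith
  · exact Or.inl hβ

end Cap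

namespace VB

variable {K : Type} [Field K] [LinearOrder K] [IsStrictOrderedRing K]

/-- The lines at the optimal slope: `2 p + 2 ≤ (s + 1) (s + 1 + N) / N`. -/
theorem lines_opt {N s p v : ℕ} (hN : 1 ≤ N)
    (h : (2 * p + 2) * N ≤ (s + 1) * (s + 1 + N)) : Van K v (N + 1) p (N + s + 1) := by
  obtain ⟨m, a, ha, hm⟩ : ∃ m a, a < N ∧ s + 1 + N = N * m + a :=
    ⟨(s + 1 + N) / N, (s + 1 + N) % N, Nat.mod_lt _ (by omega), (Nat.div_add_mod _ _).symm⟩
  refine lines (K := K) hN m _ v p ?_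
  refine Nat.le_of_mul_le_mul_right (c := N) ?_ (by omega)
  have e1 : N + s + 1 = N * m + a := by omega
  rw [e1]
  obtain ⟨c, hc⟩ : ∃ c, N = a + c := ⟨N - a, by omega⟩
  have h2 : (s + 1) * (s + 1 + N) + (N * m + a) * N = (N * m + a) * (N * m + a) := by
    have e2 : s + 1 + N = N * m + a := hm
    rw [← e2]
    ring
  have h3 : (2 * p + 2) * N + (N * m + a) * N ≤ (N * m + a) * (N * m + a) := by omega
  have h4 : 0 ≤ a * c := Nat.zero_le _
  have e5 : a * N = a * a + a * c := by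
    rw [hc]
    ring
  nlinarith

/-- The ranges below the tangent lines. -/
theorem rangeJ (hSTEP : Stmt_STEP) (hHGF : Stmt_HGF)
    (h0 : ∀ N, 1 ≤ N → VB K N 0 (2 * N)) (ℓ : ℕ) (hℓ : 1 ≤ ℓ) (r : ℕ) :
    ∀ N β P : ℕ, 2 * N + β = r → 1 ≤ N → N ≤ 2 ^ ℓ → Tan (5 * (ℓ + 1)) N β P → Cap N β P →
      VB K N β P := by
  induction r using Nat.strong_induction_on with
  | _ r ih =>
    intro N β P hr hN hNℓ hT hC
    rcases Nat.lt_or_ge (N + β) P with hPs | hPs
    swap
    · intro v p hp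
      exact low K v (N + 1) p _ (by omega) (by omega)
    obtain ⟨L, hL⟩ : ∃ L, L = ℓ + 1 := ⟨_, rfl⟩
    have hsq := hT.sq
    obtain ⟨s, hs⟩ : ∃ s, s = N + β := ⟨_, rfl⟩
    rw [← hs, ← hL] at hsq
    rw [← hs] at hPs
    have hs1 : 1 ≤ s := by omega
    have h10 : 10 * P ^ 2 ≤ s ^ 3 := by
      have : 10 * P ^ 2 ≤ 5 * L * P ^ 2 := Nat.mul_le_mul_right _ (by omega)
      omega
    -- the lines
    rcases Nat.lt_or_ge ((s + 1) * (s + 1 + N)) ((2 * P + 2) * N) with hl | hl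
    swap
    · intro v p hp
      have h := lines_opt (K := K) (v := v) (p := p) hN
        (le_trans (Nat.mul_le_mul_right N (by omega)) hl)
      rwa [hs, show N + (N + β) + 1 = 2 * N + β + 1 by ring] at h
    have hX : s ^ 2 ≤ 2 * P * N := by
      have : N * 1 ≤ s * N := by nlinarith
      nlinarith
    -- `β = 0`
    rcases Nat.eq_zero_or_pos β with hβ | hβ
    · subst hβ
      refine mono (h0 N hN) le_rfl ?_
      rcases hC with h | h
      · omega
      · omega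
    -- `N ≥ 2`
    have hN2 : 2 ≤ N := by
      by_contra hcon
      have hN1 : N = 1 := by omega
      rw [hN1] at hX
      have h1 : s ^ 4 ≤ 4 * P ^ 2 := by nlinarith
      have h2 : 10 * s ^ 4 ≤ 4 * s ^ 3 := by nlinarith
      have h3 : 0 < s ^ 3 := by positivity
      have h4 : s ^ 4 = s * s ^ 3 := by ring
      rw [h4] at h2
      nlinarith
    obtain ⟨M, rfl⟩ : ∃ M, N = M + 1 := ⟨N - 1, by omega⟩
    obtain ⟨β, rfl⟩ : ∃ β', β = β' + 1 := ⟨β - 1, by omega⟩
    -- `5 L < s`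
    have h5 : 5 * L < s := by
      by_contra hcon
      rw [not_lt] at hcon
      have h1 : s ^ 2 < P ^ 2 := Nat.pow_lt_pow_left hPs (by norm_num)
      have h2 : s * s ^ 2 ≤ 5 * L * s ^ 2 := Nat.mul_le_mul_right _ hcon
      have h3 : 5 * L * s ^ 2 < 5 * L * P ^ 2 := Nat.mul_lt_mul_of_pos_left h1 (by omega)
      have h4 : s ^ 3 = s * s ^ 2 := by ring
      omega
    -- `5 L s < 4 N²`
    have h6 : 5 * L * s < 4 * (M + 1) ^ 2 := by
      by_contra hcon
      rw [not_lt] at hcon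
      have hX' : (s + 1) ^ 2 ≤ 2 * P * (M + 1) := by nlinarith
      have h1 : ((s + 1) ^ 2) ^ 2 ≤ (2 * P * (M + 1)) ^ 2 := Nat.pow_le_pow_left hX' 2
      have h2 : s ^ 4 < ((s + 1) ^ 2) ^ 2 := by
        have : ((s + 1) ^ 2) ^ 2 = s ^ 4 + 4 * s ^ 3 + 6 * s ^ 2 + 4 * s + 1 := by ring
        omega
      have h3 : (2 * P * (M + 1)) ^ 2 = 4 * (M + 1) ^ 2 * P ^ 2 := by ring
      have h4 : 4 * (M + 1) ^ 2 * P ^ 2 ≤ 5 * L * s * P ^ 2 := Nat.mul_le_mul_right _ hcon
      have h7 : 5 * L * s * P ^ 2 = s * (5 * L * P ^ 2) := by ring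
      have h8 : s * (5 * L * P ^ 2) ≤ s * s ^ 3 := Nat.mul_le_mul_left s hsq
      have h9 : s * s ^ 3 = s ^ 4 := by ring
      omega
    -- `(2 P + N) L ≤ s N`
    have h7 : (2 * P + (M + 1)) * L ≤ s * (M + 1) := by
      zify at hX hsq h5 ⊢
      by_contra hcon
      rw [not_le] at hcon
      have hP0 : (0 : ℤ) < 2 * P := by
        have : 0 < P := by omega
        exact_mod_cast Nat.mul_pos two_pos this
      have h8 := mul_lt_mul_of_pos_left hcon hP0
      have h9 : (s : ℤ) ^ 2 * (s - L) ≤ 2 * P * (M + 1) * (s - L) :=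
        mul_le_mul_of_nonneg_right hX (by omega)
      have h10 : (4 * (s : ℤ)) * s ^ 2 ≤ (5 * (s - L)) * s ^ 2 :=
        mul_le_mul_of_nonneg_right (by linarith) (sq_nonneg _)
      nlinarith
    refine climb hSTEP (q := P - (M + 5)) (by omega) hC ?_ ?_ ?_ (by omega) ?_
    · intro s' hs'
      exact ih (2 * M + (β + 1 + 1)) (by omega) M (β + 1 + 1) s' rfl (by omega) (by omega)
        (hT.diag (by omega)) (hC.diag (by rw [← hs]; exact h10) hs')
    · intro s' hs'
      exact ih (2 * M + (β + 1)) (by omega) M (β + 1) s' rfl (by omega) (by omega)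
        (hT.down hs') (hC.down hs')
    · rw [Nat.add_sub_cancel]
      rcases Nat.lt_or_ge P (M + 5) with hPM | hPM
      · intro v p hp
        exact low K v (M + 1 + 1) p _ (by omega) (by omega)
      · refine ih (2 * (M + 1) + β) (by omega) (M + 1) β _ rfl (by omega) hNℓ ?_ ?_
        · refine hT.left (by omega) ?_ (by omega)
          rw [← hL]
          have : M + 1 + β + 1 = s := by omega
          rw [this]
          exact h6
        · refine hC.left ?_ (by omega)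
          have : M + 1 + β + 1 = s := by omega
          rw [this]
          exact h10
    · intro v t κ D ht _ _ hD
      obtain ⟨c, hc⟩ : ∃ c, c = 2 * P / (M + 1) := ⟨_, rfl⟩
      have hc1 : 1 ≤ c := by
        rw [hc]
        exact Nat.div_pos (by omega) (by omega)
      have hdm := Nat.div_add_mod (2 * P) (M + 1)
      have hml := Nat.mod_lt (2 * P) (show 0 < M + 1 by omega)
      rw [← hc] at hdm
      have hc2 : 2 * P < (c + 1) * (M + 1) := by
        have e : (c + 1) * (M + 1) = (M + 1) * c + (M + 1) := by ring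
        omega
      refine hHGF K v (M + 1) (c + 1) (by omega) (by omega) (M + 1 + (β + 1)) κ D (by omega) ?_
      have h8 : (c + 1) * (ℓ + 1) ≤ M + 1 + (β + 1) := by
        have e : (c + 1) * (M + 1) ≤ 2 * P + (M + 1) := by
          have e : (c + 1) * (M + 1) = (M + 1) * c + (M + 1) := by ring
          omega
        have e2 : (c + 1) * (M + 1) * L ≤ s * (M + 1) :=
          (Nat.mul_le_mul_right L e).trans h7
        have e3 : (c + 1) * L * (M + 1) ≤ s * (M + 1) := by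
          rw [show (c + 1) * L * (M + 1) = (c + 1) * (M + 1) * L by ring]
          exact e2
        have e4 := Nat.le_of_mul_le_mul_right e3 (by omega)
        rw [← hL]
        omega
      have h9 := FF_pow (C := c + 1) (by omega) ℓ
      have h10 := FF_mono (c + 1) h8
      have h11 : (c + 1) * (M + 1) ≤ (c + 1) * 2 ^ ℓ := Nat.mul_le_mul_left _ hNℓ
      omega

end VB

end Pool.Agent.VOP
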