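import Pool.Agent.VOP.FIN3
import Pool.Agent.VOP.NUMJ

/-!
# MP_deb8da_ag: ranges of order `d^(3/2)`
-/

namespace Pool.Agent.VOP

open Pool.Agent.VSY Pool.Agent.VSY.CH

theorem vb0 (K : Type) [Field K] [LinearOrder K] [IsStrictOrderedRing K] (N : ℕ) (hN : 1 ≤ N) :
    VB K N 0 (2 * N) := by
  obtain ⟨M, rfl⟩ := Nat.exists_eq_add_of_le' hN
  intro v p hp
  have h := (vth K v M p).1 hp
  rwa [show 2 * M + 3 = 2 * (M + 1) + 0 + 1 by ring] at h

/-- The ranges below the tangent lines. -/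
theorem vbj (ℓ N β P : ℕ) (hℓ : 1 ≤ ℓ) (hN : 1 ≤ N) (hNℓ : N ≤ 2 ^ ℓ)
    (hT : Tan (5 * (ℓ + 1)) N β P) (hC : Cap N β P) : VB ℚ N β P :=
  VB.rangeJ stepx hgf (vb0 ℚ) ℓ hℓ _ N β P rfl hN hNℓ hT hC

/-- A tangent line for a given point. -/
theorem Tan.of_sq {A N β P : ℕ} (hP : 0 < P) (h : A * P ^ 2 ≤ (N + β) ^ 3)
    (h3 : 3 * P ≤ 2 * ((β + 3) * (N + β))) : Tan A N β P := by
  have hs : 0 < N + β := by
    rcases Nat.eq_zero_or_pos (N + β) with h0 | h0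
    · rw [h0, mul_zero, mul_zero] at h3
      omega
    · exact h0
  obtain ⟨s, hs'⟩ : ∃ s : ℚ, s = N + β := ⟨_, rfl⟩
  have hs0 : 0 < s := by
    rw [hs']
    exact_mod_cast hs
  have hP0 : (0 : ℚ) < P := by exact_mod_cast hP
  have h' : (A : ℚ) * P ^ 2 ≤ s ^ 3 := by
    rw [hs']
    exact_mod_cast h
  have h3' : 3 * (P : ℚ) ≤ 2 * ((β + 3) * s) := by
    rw [hs']
    exact_mod_cast h3
  refine ⟨3 * P / (2 * s), by positivity, ?_, ?_⟩
  · rw [div_le_iff₀ (by positivity)]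
    linarith
  · rw [← hs']
    have e1 : 27 * (3 * (P : ℚ) / (2 * s)) * s = 81 / 2 * P := by
      field_simp
      ring
    have e2 : 4 * (A : ℚ) * (3 * P / (2 * s)) ^ 3 = 27 / 2 * P * (A * P ^ 2 / s ^ 3) := by
      field_simp
      ring
    have e3 : (A : ℚ) * P ^ 2 / s ^ 3 ≤ 1 := by
      rw [div_le_one (by positivity)]
      exact h'
    rw [e1, e2]
    have e4 : 27 / 2 * (P : ℚ) * (A * P ^ 2 / s ^ 3) ≤ 27 / 2 * P * 1 :=
      mul_le_mul_of_nonneg_left e3 (by positivity)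
    linarith

/-- The ranges of order `d^(3/2)`, `q ≥ 2`. -/
theorem threeHalves (K : Type) [Field K] [CharZero K] (v q b d p : ℕ) (hq : 2 ≤ q)
    (hd : b + q + 1 ≤ d) (hp : 5 * (Nat.clog 2 d + 1) * p ^ 2 ≤ ((q - 1) * d + b) ^ 3)
    (h2 : q = 2 → (p : ℤ) < Lend 2 b d ∧ 3 * p ≤ 2 * ((b + 4) * (d + b))) :
    Van K v d p (q * d + b) := by
  obtain ⟨N, rfl⟩ : ∃ N, d = N + 1 := ⟨d - 1, by omega⟩
  obtain ⟨k, rfl⟩ : ∃ k, q = k + 2 := ⟨q - 2, by omega⟩
  have e1 : (k + 2) * (N + 1) + b = 2 * N + (k * (N + 1) + b + 1) + 1 := by ring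
  have e2 : (k + 2 - 1) * (N + 1) + b = N + (k * (N + 1) + b + 1) := by
    rw [show k + 2 - 1 = k + 1 by omega]
    ring
  rw [e1]
  rw [e2] at hp
  obtain ⟨β, hβ⟩ : ∃ β, β = k * (N + 1) + b + 1 := ⟨_, rfl⟩
  rw [← hβ] at hp ⊢
  rcases Nat.lt_or_ge (N + β) p with hps | hps
  swap
  · exact low K v (N + 1) p _ (by omega) (by omega)
  have hclog : 2 ≤ Nat.clog 2 (N + 1) := by
    by_contra hcon
    have h1 : N + 1 ≤ 2 ^ Nat.clog 2 (N + 1) := Nat.le_pow_clog (by norm_num) _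
    have h3 : 2 ^ Nat.clog 2 (N + 1) ≤ 2 ^ 1 := Nat.pow_le_pow_right (by norm_num) (by omega)
    omega
  have hNℓ : N ≤ 2 ^ Nat.clog 2 (N + 1) := by
    have h1 : N + 1 ≤ 2 ^ Nat.clog 2 (N + 1) := Nat.le_pow_clog (by norm_num) _
    omega
  have hmain : Tan (5 * (Nat.clog 2 (N + 1) + 1)) N β p ∧ Cap N β p := by
    rcases Nat.eq_zero_or_pos k with hk | hk
    · subst hk
      obtain ⟨hL, h3⟩ := h2 rfl
      have hβb : β = b + 1 := by omega
      refine ⟨Tan.of_sq (by omega) hp ?_, Or.inr ?_⟩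
      · rw [hβb]
        have e : N + (b + 1) = N + 1 + b := by ring
        have e' : b + 1 + 3 = b + 4 := by ring
        rw [e, e']
        exact h3
      · rw [hβb, Nat.add_sub_cancel]
        have hl := lend_eq (b := b) (d := N + 1) (by omega)
        push_cast at hl
        have h8 : (2 : ℤ) * p + (b + 1) * b ≤ 2 * ((b + 1 + 2) * N) := by nlinarith
        exact_mod_cast h8
    · have hβN : N + 1 ≤ β := by
        have : 1 * (N + 1) ≤ k * (N + 1) := Nat.mul_le_mul_right _ hk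
        omega
      refine ⟨Tan.of_sq (by omega) hp ?_, Or.inl (by omega)⟩
      have h10 : 10 * p ^ 2 ≤ (N + β) ^ 3 := by
        have : 10 * p ^ 2 ≤ 5 * (Nat.clog 2 (N + 1) + 1) * p ^ 2 :=
          Nat.mul_le_mul_right _ (by omega)
        omega
      have h11 : 3 * p ≤ (N + β) ^ 2 := by
        by_contra hcon
        rw [not_le] at hcon
        have h12 : ((N + β) ^ 2) ^ 2 < (3 * p) ^ 2 := Nat.pow_lt_pow_left hcon (by norm_num)
        have h13 : (N + β) ^ 3 ≤ ((N + β) ^ 2) ^ 2 := by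
          have : ((N + β) ^ 2) ^ 2 = (N + β) ^ 3 * (N + β) := by ring
          rw [this]
          exact Nat.le_mul_of_pos_right _ (by omega)
        nlinarith
      have h14 : (N + β) * (N + β) ≤ 2 * (β + 3) * (N + β) :=
        Nat.mul_le_mul_right _ (by omega)
      nlinarith
  exact FIN3.vb_bc K (vbj _ N β p (by omega) (by omega) hNℓ hmain.1 hmain.2) v p le_rfl

/-- The whole lower end of the row `q = 2`, `3 (⌈log₂ d⌉ + 1) (b + 4)³ ≤ 4 d`. -/
theorem weightTwo (K : Type) [Field K] [CharZero K] (v b d p : ℕ)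
    (hd : 3 * (Nat.clog 2 d + 1) * (b + 4) ^ 3 ≤ 4 * d) (hL : (p : ℤ) < Lend 2 b d) :
    Van K v d p (2 * d + b) := by
  have hd1 : 48 * (Nat.clog 2 d + 1) * (b + 4) ≤ 4 * d := by
    have : 48 * (Nat.clog 2 d + 1) * (b + 4) ≤ 3 * (Nat.clog 2 d + 1) * (b + 4) ^ 3 := by
      have e : 3 * (Nat.clog 2 d + 1) * (b + 4) ^ 3 =
          3 * (Nat.clog 2 d + 1) * (b + 4) * (b + 4) ^ 2 := by ring
      have e2 : 48 * (Nat.clog 2 d + 1) * (b + 4) = 3 * (Nat.clog 2 d + 1) * (b + 4) * 16 := by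
        ring
      rw [e, e2]
      refine Nat.mul_le_mul_left _ ?_
      nlinarith
    omega
  have hd2 : b + 4 ≤ d := by nlinarith [Nat.zero_le (Nat.clog 2 d * (b + 4))]
  obtain ⟨N, rfl⟩ : ∃ N, d = N + 1 := ⟨d - 1, by omega⟩
  have hclog : 1 ≤ Nat.clog 2 (N + 1) := by
    by_contra hcon
    have h1 : N + 1 ≤ 2 ^ Nat.clog 2 (N + 1) := Nat.le_pow_clog (by norm_num) _
    have h3 : 2 ^ Nat.clog 2 (N + 1) ≤ 2 ^ 0 := Nat.pow_le_pow_right (by norm_num) (by omega)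
    omega
  have hNℓ : N ≤ 2 ^ Nat.clog 2 (N + 1) := by
    have h1 : N + 1 ≤ 2 ^ Nat.clog 2 (N + 1) := Nat.le_pow_clog (by norm_num) _
    omega
  have hl := lend_eq (b := b) (d := N + 1) (by omega)
  push_cast at hl
  have h8 : (2 : ℤ) * p + (b + 1) * b + 2 ≤ 2 * ((b + 3) * N) + 2 := by nlinarith
  have e : 2 * (N + 1) + b = 2 * N + (b + 1) + 1 := by ring
  rw [e]
  refine FIN3.vb_bc K (vbj (Nat.clog 2 (N + 1)) N (b + 1) p hclog (by omega) hNℓ ?_ ?_) v p le_rfl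
  · refine ⟨b + 4, by positivity, ?_, ?_⟩
    · push_cast
      linarith
    · have hd' : (3 : ℚ) * (Nat.clog 2 (N + 1) + 1) * (b + 4) ^ 3 ≤ 4 * (N + 1) := by
        exact_mod_cast hd
      have h8' : (2 : ℚ) * p + (b + 1) * b ≤ 2 * ((b + 3) * N) := by
        have : (2 : ℤ) * p + (b + 1) * b ≤ 2 * ((b + 3) * N) := by linarith
        exact_mod_cast this
      have hb0 : (0 : ℚ) ≤ b := Nat.cast_nonneg _
      push_cast
      nlinarith [mul_nonneg hb0 hb0]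
  · refine Or.inr ?_
    rw [Nat.add_sub_cancel]
    have h9 : (2 : ℤ) * p + (b + 1) * b ≤ 2 * ((b + 1 + 2) * N) := by linarith
    exact_mod_cast h9

end Pool.Agent.VOP
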