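import Pool.Agent.VOP.Iface
import Pool.Agent.VSY.CH

/-!
# The Ottaviani-Paoletti conjecture (MP_deb8da_ag): the numbers for `b > 0` and `q ≥ 3` (block X)

From `K_{p,2}(n,0;d) = 0` for `p ≤ 3 d - 3` to the levels `q d + b`.
-/

namespace Pool.Agent.VOP

open Pool.Agent.VSY Pool.Agent.VSY.CH

namespace FINN

variable {K : Type} [Field K] [CharZero K]

/-- The rows `2 d + b`, `b + 3 ≤ d`: `p ≤ 3 d - 3 + 3 b` and `p < L`. -/
theorem rowB (hTR : Stmt_TR) (hTG : Stmt_TG) (hRED : Stmt_RED) (d b : ℕ)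
    (H : ∀ p, p + 3 ≤ 3 * d → W K d p (2 * d)) :
    b + 3 ≤ d → ∀ p : ℕ, (p : ℤ) < Lend 2 b d → p + 3 ≤ 3 * d + 3 * b →
      W K d p (2 * d + b) := by
  induction b with
  | zero =>
    intro hb p hp hp'
    exact H p (by omega)
  | succ b ihb =>
    intro hb p
    induction p using Nat.strong_induction_on with
    | _ p ih =>
      intro hp hp'
      have hL := lend_eq hb
      have hL' := lend_eq (by omega : b + 3 ≤ d)
      refine step hTR hTG hRED (q := 2) (by omega) (by omega)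
        (Or.inr ⟨d - 3 - (b + 1), by omega, ?_⟩) ?_ ?_
      · obtain ⟨e, rfl⟩ : ∃ e, d = e + (b + 1) + 3 := ⟨d - (b + 1) - 3, by omega⟩
        have e3 : e + (b + 1) + 3 - (b + 1) - 1 = e + (b + 1) + 3 - 3 - (b + 1) + 2 := by omega
        rw [Lend, e3] at hp
        have : (p : ℤ) + ((e + (b + 1) + 3 - 3 - (b + 1) + 2).choose 2 : ℕ) + 3 ≤
            ((e + (b + 1) + 3 + 2).choose 2 : ℕ) := by
          push_cast at hp ⊢
          linarith
        exact_mod_cast this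
      · intro p' h
        refine ih p' (by omega) ?_ (by omega)
        have : (p' : ℤ) ≤ p := by exact_mod_cast (by omega : p' ≤ p)
        linarith
      · intro p' r' h hr
        have hr2 : r' = 2 * d + b := by omega
        subst hr2
        refine ihb (by omega) p' ?_ (by omega)
        have h5 : (p' : ℤ) + 3 ≤ p := by exact_mod_cast h
        have h6 : (p' : ℤ) + 3 ≤ 3 * d + 3 * b := by
          exact_mod_cast (by omega : p' + 3 ≤ 3 * d + 3 * b)
        push_cast at hL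
        rcases Nat.lt_or_ge d (b + 6) with hd | hd
        · have hd' : (d : ℤ) ≤ b + 5 := by exact_mod_cast (by omega : d ≤ b + 5)
          nlinarith
        · have hd' : (b : ℤ) + 6 ≤ d := by exact_mod_cast hd
          have hb0 : (0 : ℤ) ≤ b := by positivity
          nlinarith

/-- The difference of the two sides, times two. -/
def GG (N q s : ℕ) : ℤ :=
  2 * ((N + 1 + q).choose q : ℕ) - 2 * ((s + q).choose q : ℕ) - 2 * ((q : ℤ) + 1) -
    (N : ℤ) * ((q : ℤ) * (q + 1)) - 2 * ((q : ℤ) + 1) * (N + 1) + 2 * ((q : ℤ) + 1) * s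

theorem GG_step (N k s : ℕ) :
    GG N (k + 1) s - GG N (k + 1) (s + 1) =
      2 * ((s + k + 1).choose k : ℕ) - 2 * ((k : ℤ) + 2) := by
  have h : (s + 1 + (k + 1)).choose (k + 1) =
      (s + k + 1).choose k + (s + (k + 1)).choose (k + 1) := by
    have e : s + 1 + (k + 1) = s + k + 1 + 1 := by ring
    rw [e, Nat.choose_succ_succ]
    rfl
  unfold GG
  rw [h]
  push_cast
  ring

theorem GG_last (N k : ℕ) : GG N (k + 1) N = GG N k 0 - 2 := by
  have h : (N + 1 + (k + 1)).choose (k + 1) =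
      (N + 1 + k).choose k + (N + (k + 1)).choose (k + 1) := by
    have e : N + 1 + (k + 1) = N + 1 + k + 1 := by ring
    have e2 : N + (k + 1) = N + 1 + k := by ring
    rw [e, e2, Nat.choose_succ_succ]
  unfold GG
  rw [h, Nat.zero_add, Nat.choose_self]
  push_cast
  ring

theorem ch_low (k s : ℕ) (hs : 1 ≤ s) :
    ((k : ℤ) + 2) * (k + 1) ≤ 2 * ((s + k + 1).choose k : ℕ) := by
  have h1 : (k + 2).choose k ≤ (s + k + 1).choose k := Nat.choose_le_choose k (by omega)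
  have h2 : (k + 2).choose k = (k + 1 + 1).choose 2 := by
    rw [← Nat.choose_symm (by omega : k ≤ k + 2)]
    congr 1
    omega
  have h3 := ch2 (k + 1)
  have h4 : (k + 2) * (k + 1) ≤ 2 * (s + k + 1).choose k := by
    rw [← h2] at h3
    have : (k + 1 + 1) * (k + 1) ≤ 2 * (s + k + 1).choose k := by
      rw [← h3]
      omega
    exact this
  exact_mod_cast h4

theorem GG_anti (N k s : ℕ) (hs : 1 ≤ s) :
    GG N (k + 1) (s + 1) + ((k : ℤ) + 2) * (k - 1) ≤ GG N (k + 1) s := by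
  have h1 := GG_step N k s
  have h2 := ch_low k s hs
  nlinarith

theorem GG_ge (N k : ℕ) (hk : 1 ≤ k) (j : ℕ) : ∀ s, 1 ≤ s → s + j = N →
    GG N (k + 1) N ≤ GG N (k + 1) s := by
  induction j with
  | zero =>
    intro s _ hs
    rw [add_zero] at hs
    rw [hs]
  | succ j ih =>
    intro s hs1 hs
    have h1 := ih (s + 1) (by omega) (by omega)
    have h2 := GG_anti N k s hs1
    have hk' : (1 : ℤ) ≤ k := by exact_mod_cast hk
    nlinarith

theorem GG_three (N : ℕ) : GG N 3 N = (N : ℤ) * N - 7 * N - 10 := by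
  rw [GG_last N 2]
  unfold GG
  rw [Nat.zero_add, Nat.choose_self]
  have h := ch2 (N + 2)
  have h' : (2 : ℤ) * ((N + 1 + 2).choose 2 : ℕ) = (N + 2 + 1) * (N + 2) := by
    have : N + 1 + 2 = N + 2 + 1 := by ring
    rw [this]
    exact_mod_cast h
  rw [h']
  push_cast
  ring

/-- The values at `s = N` increase. -/
theorem GG_diag (N : ℕ) (hN : 2 ≤ N) (k : ℕ) : (N : ℤ) * N - 7 * N - 10 ≤ GG N (k + 3) N := by
  induction k with
  | zero => exact (GG_three N).ge
  | succ k ih =>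
    have e : k + 1 + 3 = (k + 3) + 1 := by ring
    rw [e, GG_last]
    have h1 := GG_step N (k + 2) 0
    have h2 := GG_anti N (k + 2) 1 le_rfl
    have h3 := GG_ge N (k + 2) (by omega) (N - 2) 2 (by omega) (by omega)
    have h4 : (0 + (k + 2) + 1).choose (k + 2) = k + 2 + 1 := by
      rw [Nat.zero_add]
      exact Nat.choose_succ_self_right (k + 2)
    rw [h4] at h1
    have hk : (0 : ℤ) ≤ k := by positivity
    have e1 : GG N (k + 3) 0 = GG N (k + 2 + 1) 0 := rfl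
    have e2 : GG N (k + 3) N = GG N (k + 2 + 1) N := rfl
    rw [e1]
    rw [e2] at ih
    push_cast at h1 h2
    have h6 : GG N (k + 2 + 1) (0 + 1) = GG N (k + 2 + 1) 1 := rfl
    have h7 : GG N (k + 2 + 1) (1 + 1) = GG N (k + 2 + 1) 2 := rfl
    rw [h6] at h1
    rw [h7] at h2
    nlinarith

theorem GG_nonneg (N : ℕ) (hN : 2 ≤ N) (q s : ℕ) (hq : 3 ≤ q) (hs : s ≤ N) :
    (N : ℤ) * N - 7 * N - 10 ≤ GG N q s := by
  obtain ⟨k, rfl⟩ : ∃ k, q = k + 3 := ⟨q - 3, by omega⟩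
  rcases Nat.eq_zero_or_pos s with rfl | h
  · have h1 := GG_diag N hN (k + 1)
    have e : k + 1 + 3 = (k + 3) + 1 := by ring
    rw [e, GG_last] at h1
    linarith
  · have h1 := GG_ge N (k + 2) (by omega) (N - s) s h (by omega)
    have h2 := GG_diag N hN k
    have e2 : GG N (k + 3) N = GG N (k + 2 + 1) N := rfl
    have e3 : GG N (k + 3) s = GG N (k + 2 + 1) s := rfl
    rw [e3]
    rw [e2] at h2
    linarith

/-- The inequality for Theorem G. -/
theorem ineq (N : ℕ) (hN : 2 ≤ N) (q s p c : ℕ) (hq : 3 ≤ q) (hs : s ≤ N)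
    (hc : 7 * N + 10 ≤ N * N + c)
    (hp : 2 * p + c ≤ N * (q * (q + 1)) + 2 * ((q + 1) * (N - s + 1))) :
    p + (s + q).choose q + (q + 1) ≤ (N + 1 + q).choose q := by
  have h := GG_nonneg N hN q s hq hs
  unfold GG at h
  obtain ⟨m, rfl⟩ : ∃ m, N = s + m := ⟨N - s, by omega⟩
  rw [Nat.add_sub_cancel_left] at hp
  have hp' : (2 : ℤ) * p + c ≤ (s + m) * (q * (q + 1)) + 2 * ((q + 1) * (m + 1)) := by
    exact_mod_cast hp
  have hc' : (7 : ℤ) * (s + m) + 10 ≤ (s + m) * (s + m) + c := by exact_mod_cast hc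
  have h2 : (2 : ℤ) * (p + ((s + q).choose q : ℕ) + (q + 1)) ≤
      2 * ((s + m + 1 + q).choose q : ℕ) := by
    push_cast at h ⊢
    nlinarith
  have h3 : 2 * (p + (s + q).choose q + (q + 1)) ≤ 2 * (s + m + 1 + q).choose q := by
    exact_mod_cast h2
  omega

/-- The step for `q ≥ 3`. -/
theorem main (hTR : Stmt_TR) (hTG : Stmt_TG) (hRED : Stmt_RED) (N : ℕ) (hN : 3 ≤ N) (c : ℕ)
    (hc : 7 * N + 10 ≤ N * N + c) (q r : ℕ) (hq : 3 ≤ q) (hqr : q * N ≤ r)
    (hrq : r ≤ (q + 1) * N)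
    (hB : ∀ p r', r' + 1 = r →
      2 * (p + (q + 1)) + c ≤ N * (q * (q + 1)) + 2 * ((q + 1) * (r - q * N + 1)) →
      W K (N + 1) p r') :
    ∀ p, 2 * p + c ≤ N * (q * (q + 1)) + 2 * ((q + 1) * (r - q * N + 1)) →
      W K (N + 1) p r := by
  intro p
  induction p using Nat.strong_induction_on with
  | _ p ih =>
    intro hp
    have e1 : (q + 1) * N = q * N + N := by ring
    obtain ⟨s, hs⟩ : ∃ s, r + s = (q + 1) * N := ⟨(q + 1) * N - r, by omega⟩
    have hsN : s ≤ N := by omega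
    have e2 : r - q * N = N - s := by omega
    refine step hTR hTG hRED (q := q) (by omega) ?_ (Or.inr ⟨s, ?_, ?_⟩) ?_ ?_
    · rw [Nat.add_sub_cancel]
      omega
    · rw [Nat.add_sub_cancel]
      exact hs
    · rw [e2] at hp
      exact ineq N (by omega) q s p c hq hsN hc hp
    · intro p' hp'
      exact ih p' (by omega) (by omega)
    · intro p' r' hp' hr'
      exact hB p' r' hr' (by omega)

/-- The rows `r ≥ 3 (d - 1)`. -/
theorem rows (hTR : Stmt_TR) (hTG : Stmt_TG) (hRED : Stmt_RED) (N : ℕ) (hN : 3 ≤ N) (c : ℕ)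
    (hc : 7 * N + 10 ≤ N * N + c) (hc18 : 18 ≤ c)
    (H : ∀ p, p + 3 ≤ 3 * (N + 1) → W K (N + 1) p (2 * (N + 1)))
    (j : ℕ) : ∀ q r p : ℕ, 3 * N + j = r → 3 ≤ q → q * N ≤ r → r ≤ (q + 1) * N →
      2 * p + c ≤ N * (q * (q + 1)) + 2 * ((q + 1) * (r - q * N + 1)) → W K (N + 1) p r := by
  induction j with
  | zero =>
    intro q r p hr hq hqr hrq hp
    rw [add_zero] at hr
    have hq3 : q = 3 := by
      by_contra hne
      have h5 : 4 * N ≤ q * N := Nat.mul_le_mul_right N (by omega)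
      omega
    subst hq3
    subst hr
    refine main hTR hTG hRED N hN c hc 3 (3 * N) hq hqr hrq ?_ p hp
    intro p' r' hr' hp'
    rw [Nat.sub_self] at hp'
    obtain ⟨M, rfl⟩ : ∃ M, N = M + 3 := ⟨N - 3, by omega⟩
    have e : r' = 2 * (M + 3 + 1) + M := by omega
    subst e
    refine rowB hTR hTG hRED (M + 3 + 1) M H (by omega) p' ?_ (by omega)
    have hL := lend_eq (by omega : M + 3 ≤ M + 3 + 1)
    have h7 : (2 : ℤ) * p' + c ≤ 12 * M + 36 := by exact_mod_cast (by omega)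
    have h8 : (7 : ℤ) * (M + 3) + 10 ≤ (M + 3) * (M + 3) + c := by exact_mod_cast hc
    push_cast at hL
    nlinarith
  | succ j ihj =>
    intro q r p hr hq hqr hrq hp
    refine main hTR hTG hRED N hN c hc q r hq hqr hrq ?_ p hp
    intro p' r' hr' hp'
    rcases Nat.lt_or_ge (q * N) r with h | h
    · refine ihj q r' p' (by omega) hq (by omega) (by omega) ?_
      have e3 : r - q * N = r' - q * N + 1 := by omega
      rw [e3] at hp'
      have e4 : 2 * ((q + 1) * (r' - q * N + 1 + 1)) =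
        2 * ((q + 1) * (r' - q * N + 1)) + 2 * (q + 1) := by ring
      rw [e4] at hp'
      omega
    · have hqr' : q * N = r := le_antisymm hqr h
      have hq4 : 4 ≤ q := by
        by_contra hne
        have : q = 3 := by omega
        subst this
        omega
      obtain ⟨k, rfl⟩ : ∃ k, q = k + 1 := ⟨q - 1, by omega⟩
      have e1 : (k + 1) * N = k * N + N := by ring
      refine ihj k r' p' (by omega) (by omega) (by omega) (by omega) ?_
      have e2 : r - (k + 1) * N = 0 := by omega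
      have e3 : r' - k * N + 1 = N := by omega
      rw [e2] at hp'
      rw [e3]
      have e4 : N * ((k + 1) * (k + 1 + 1)) = N * (k * (k + 1)) + 2 * ((k + 1) * N) := by ring
      rw [e4] at hp'
      have e5 : 2 * ((k + 1 + 1) * (0 + 1)) = 2 * (k + 1 + 1) := by ring
      rw [e5] at hp'
      omega

/-- The levels `q d + b`, `q ≥ 3`. -/
theorem level (hTR : Stmt_TR) (hTG : Stmt_TG) (hRED : Stmt_RED) (d q b c p : ℕ) (hq : 3 ≤ q)
    (hd : b + q + 1 ≤ d) (hc : 7 * (d - 1) + 10 ≤ (d - 1) * (d - 1) + c) (hc18 : 18 ≤ c)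
    (H : ∀ p, p + 3 ≤ 3 * d → W K d p (2 * d))
    (hp : 2 * p + c ≤ (d - 1) * (q * (q + 1)) + 2 * ((q + 1) * (q + b + 1))) :
    W K d p (q * d + b) := by
  obtain ⟨N, rfl⟩ : ∃ N, d = N + 1 := ⟨d - 1, by omega⟩
  rw [Nat.add_sub_cancel] at hp hc
  have e0 : q * (N + 1) + b = q * N + (q + b) := by ring
  have e1 : (q + 1) * N = q * N + N := by ring
  have e2 : 3 * N ≤ q * N := Nat.mul_le_mul_right N hq
  refine rows hTR hTG hRED N (by omega) c hc hc18 H (q * (N + 1) + b - 3 * N) q _ p (by omega) hq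
    (by omega) (by omega) ?_
  have e3 : q * (N + 1) + b - q * N = q + b := by omega
  rw [e3]
  exact hp

/-- The levels `q d + b` with `q + b = d - 1`. -/
theorem level' (hTR : Stmt_TR) (hTG : Stmt_TG) (hRED : Stmt_RED) (d q b c p : ℕ) (hq : 3 ≤ q)
    (hd : b + q + 1 = d) (hc : 7 * (d - 1) + 10 ≤ (d - 1) * (d - 1) + c) (hc18 : 18 ≤ c)
    (H : ∀ p, p + 3 ≤ 3 * d → W K d p (2 * d))
    (hp : 2 * p + c ≤ (d - 1) * ((q + 1) * (q + 2)) + 2 * (q + 2)) :
    W K d p (q * d + b) := by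
  obtain ⟨N, rfl⟩ : ∃ N, d = N + 1 := ⟨d - 1, by omega⟩
  rw [Nat.add_sub_cancel] at hp hc
  have e0 : q * (N + 1) + b = q * N + (q + b) := by ring
  have e1 : (q + 1) * N = q * N + N := by ring
  have e1' : (q + 1 + 1) * N = q * N + N + N := by ring
  have e2 : 3 * N ≤ q * N := Nat.mul_le_mul_right N hq
  refine rows hTR hTG hRED N (by omega) c hc hc18 H (q * (N + 1) + b - 3 * N) (q + 1) _ p
    (by omega) (by omega) (by omega) (by omega) ?_
  have e3 : q * (N + 1) + b - (q + 1) * N = 0 := by omega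
  rw [e3]
  have e5 : 2 * ((q + 1 + 1) * (0 + 1)) = 2 * (q + 2) := by ring
  rw [e5]
  exact hp

end FINN

open FINN

/-- FINN: the levels `q d + b`, from `K_{p,2}(n,0;d) = 0` for `p ≤ 3 d - 3`. -/
def Stmt_FINN : Prop :=
  ∀ (K : Type) [Field K] [CharZero K] (d : ℕ),
    (∀ v p : ℕ, p + 3 ≤ 3 * d → Van K v d p (2 * d)) →
    (∀ v q b p : ℕ, 2 ≤ q → b + q + 1 ≤ d → (p : ℤ) < Lend q b d → (q = 2 ∨ 7 ≤ d) →
      2 * p + 16 ≤ q * (q + 1) * (d - 1) + 2 * ((q + 1) * (q + b)) + 2 * q →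
      Van K v d p (q * d + b)) ∧
    (∀ v q b p : ℕ, 3 ≤ q → b + q + 1 ≤ d → ¬ (d = 5 ∧ q = 3 ∧ b = 0) →
      2 * p + 18 ≤ q * (q + 1) * (d - 1) + 2 * ((q + 1) * (q + b)) + 2 * q →
      Van K v d p (q * d + b)) ∧
    (∀ v q b p : ℕ, 2 ≤ q → b + q + 1 ≤ d → (p : ℤ) < Lend q b d →
      ¬ (d = 5 ∧ q = 3 ∧ b = 0) →
      2 * p + 12 ≤ q * (q + 1) * (d - 1) + 2 * ((q + 1) * (q + b)) →
      Van K v d p (q * d + b)) ∧
    (∀ v q b p : ℕ, 3 ≤ q → b + q + 1 ≤ d →
      2 * p + 20 ≤ q * (q + 1) * (d - 1) + 2 * ((q + 1) * (q + b)) + 2 * q →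
      Van K v d p (q * d + b))

theorem FINN_thm (hTR : Stmt_TR) (hTG : Stmt_TG) (hRED : Stmt_RED) : Stmt_FINN := by
  intro K _ _ d H
  have H' : ∀ p, p + 3 ≤ 3 * d → W K d p (2 * d) := fun p hp v => H v p hp
  -- `2 c`: the general form
  have gen : ∀ c q b p : ℕ, 3 ≤ q → b + q + 1 ≤ d → 18 ≤ c →
      7 * (d - 1) + 10 ≤ (d - 1) * (d - 1) + c →
      2 * p + c ≤ q * (q + 1) * (d - 1) + 2 * ((q + 1) * (q + b)) + 2 * (q + 1) →
      W K d p (q * d + b) := by
    intro c q b p hq hd hc18 hc hp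
    refine level hTR hTG hRED d q b c p hq hd hc hc18 H' ?_
    have e1 : (d - 1) * (q * (q + 1)) = q * (q + 1) * (d - 1) := by ring
    have e2 : 2 * ((q + 1) * (q + b + 1)) = 2 * ((q + 1) * (q + b)) + 2 * (q + 1) := by ring
    rw [e1, e2]
    omega
  have h7 : 7 ≤ d → 7 * (d - 1) + 10 ≤ (d - 1) * (d - 1) + 18 := by
    intro hd
    obtain ⟨m, rfl⟩ : ∃ m, d = m + 7 := ⟨d - 7, by omega⟩
    have : m + 7 - 1 = m + 6 := by omega
    rw [this]
    nlinarith
  have h2 : ∀ b p : ℕ, b + 3 ≤ d → (p : ℤ) < Lend 2 b d → p + 3 ≤ 3 * d + 3 * b →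
      W K d p (2 * d + b) :=
    fun b p hb hL hp => rowB hTR hTG hRED d b H' hb p hL hp
  have h22 : 4 ≤ d → 7 * (d - 1) + 10 ≤ (d - 1) * (d - 1) + 22 := by
    intro hd
    obtain ⟨m, rfl⟩ : ∃ m, d = m + 4 := ⟨d - 4, by omega⟩
    have : m + 4 - 1 = m + 3 := by omega
    rw [this]
    rcases Nat.eq_zero_or_pos m with rfl | hm
    · norm_num
    · nlinarith
  have h20 : 6 ≤ d → 7 * (d - 1) + 10 ≤ (d - 1) * (d - 1) + 20 := by
    intro hd
    obtain ⟨m, rfl⟩ : ∃ m, d = m + 6 := ⟨d - 6, by omega⟩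
    have : m + 6 - 1 = m + 5 := by omega
    rw [this]
    nlinarith
  -- the second form
  have hII : ∀ q b p : ℕ, 3 ≤ q → b + q + 1 ≤ d → ¬ (d = 5 ∧ q = 3 ∧ b = 0) →
      2 * p + 18 ≤ q * (q + 1) * (d - 1) + 2 * ((q + 1) * (q + b)) + 2 * q →
      W K d p (q * d + b) := by
    intro q b p hq hd hne hp
    rcases Nat.lt_or_ge d 6 with h6 | h6
    · have hqb : b + q + 1 = d := by omega
      refine level' hTR hTG hRED d q b 22 p hq hqb (h22 (by omega)) (by omega) H' ?_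
      have e0 : d - 1 = q + b := by omega
      rw [e0] at hp ⊢
      have e1 : (q + b) * ((q + 1) * (q + 2)) =
          q * (q + 1) * (q + b) + 2 * ((q + 1) * (q + b)) := by ring
      rw [e1]
      omega
    · exact gen 20 q b p hq hd (by omega) (h20 h6) (by omega)
  have hI : ∀ q b p : ℕ, 2 ≤ q → b + q + 1 ≤ d → (p : ℤ) < Lend q b d → (q = 2 ∨ 7 ≤ d) →
      2 * p + 16 ≤ q * (q + 1) * (d - 1) + 2 * ((q + 1) * (q + b)) + 2 * q →
      W K d p (q * d + b) := by
    intro q b p hq hd hL h hp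
    rcases Nat.lt_or_ge q 3 with hq3 | hq3
    · obtain rfl : q = 2 := by omega
      exact h2 b p (by omega) hL (by omega)
    · exact gen 18 q b p hq3 hd le_rfl (h7 (by omega)) (by omega)
  refine ⟨fun v q b p hq hd hL h hp => hI q b p hq hd hL h hp v,
    fun v q b p hq hd hne hp => hII q b p hq hd hne hp v, ?_, ?_⟩
  · intro v q b p hq hd hL hne hp
    rcases Nat.lt_or_ge q 3 with hq3 | hq3
    · obtain rfl : q = 2 := by omega
      exact h2 b p (by omega) hL (by omega) v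
    · exact hII q b p hq3 hd hne (by omega) v
  · intro v q b p hq hd hp
    exact gen 22 q b p hq hd (by omega) (h22 (by omega)) (by omega) v

end Pool.Agent.VOP
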