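import Pool.Agent.VOP.StmtsG

/-!
# The Ottaviani-Paoletti conjecture (MP_deb8da_ag): `TT` and good polynomials form subspaces
-/

namespace Pool.Agent.VOP

open MvPolynomial Pool.Agent.VSY

namespace GD0

variable {K : Type} [Field K] {A : Type} [Fintype A] [DecidableEq A] {v : ℕ}

theorem sy_zero (T : Finset A) : Sy T (0 : PX K A v) := fun x _ y _ => map_zero _

theorem al_zero (T : Finset A) : Al T (0 : PX K A v) := fun x _ y _ _ => by
  rw [map_zero, neg_zero]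

theorem cy_zero (T : Finset A) (w : A) : Cy T w (0 : PX K A v) := fun u _ => map_zero _

theorem cy_add (T : Finset A) (w : A) (f g : PX K A v) (hf : Cy T w f) (hg : Cy T w g) :
    Cy T w (f + g) := fun u hu => by rw [map_add, hf u hu, hg u hu, add_zero]

theorem cy_smul (T : Finset A) (w : A) (a : K) (f : PX K A v) (hf : Cy T w f) :
    Cy T w (a • f) := fun u hu => by rw [map_smul, hf u hu, smul_zero]

theorem cg_zero (h1 : Stmt_DG) (δ : A → ℕ) (T S C : Finset A) : Cg δ T S C (0 : PX K A v) :=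
  ⟨(h1 K A A v).1 δ, sy_zero T, al_zero S, al_zero C⟩

theorem cg_add (h1 : Stmt_DG) (h2 : Stmt_SYM) (δ : A → ℕ) (T S C : Finset A) (f g : PX K A v)
    (hf : Cg δ T S C f) (hg : Cg δ T S C g) : Cg δ T S C (f + g) := by
  have hS := (h2 K A v).2.2.2.1
  exact ⟨((h1 K A A v).2.1 δ f g hf.dg hg.dg).1, ((hS T f g).1 hf.sy hg.sy).1,
    ((hS S f g).2.1 hf.alS hg.alS).1, ((hS C f g).2.1 hf.alC hg.alC).1⟩

theorem cg_smul (h1 : Stmt_DG) (h2 : Stmt_SYM) (δ : A → ℕ) (T S C : Finset A) (a : K)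
    (f : PX K A v) (hf : Cg δ T S C f) : Cg δ T S C (a • f) := by
  have hS := (h2 K A v).2.2.2.1
  exact ⟨((h1 K A A v).2.2.1 δ a 0 f hf.dg).1, ((hS T f f).2.2.2.2 a).1 hf.sy,
    ((hS S f f).2.2.2.2 a).2 hf.alS, ((hS C f f).2.2.2.2 a).2 hf.alC⟩

theorem zc_zero (h1 : Stmt_DG) (M : ℕ) (T S C : Finset A) (w : A) (r : ℕ) :
    Zc M T S C w r (0 : PX K A v) :=
  ⟨cg_zero h1 _ T S C, cy_zero S w, cy_zero C w⟩

theorem zc_add (h1 : Stmt_DG) (h2 : Stmt_SYM) (M : ℕ) (T S C : Finset A) (w : A) (r : ℕ)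
    (f g : PX K A v) (hf : Zc M T S C w r f) (hg : Zc M T S C w r g) :
    Zc M T S C w r (f + g) :=
  ⟨cg_add h1 h2 _ T S C f g hf.cg hg.cg, cy_add S w f g hf.cyS hg.cyS,
    cy_add C w f g hf.cyC hg.cyC⟩

theorem zc_smul (h1 : Stmt_DG) (h2 : Stmt_SYM) (M : ℕ) (T S C : Finset A) (w : A) (r : ℕ)
    (a : K) (f : PX K A v) (hf : Zc M T S C w r f) : Zc M T S C w r (a • f) :=
  ⟨cg_smul h1 h2 _ T S C a f hf.cg, cy_smul S w a f hf.cyS, cy_smul C w a f hf.cyC⟩

theorem tt_zero (h1 : Stmt_DG) (M β : ℕ) (T C : Finset A) (w : A) :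
    TT M β T C w (0 : PX K A v) :=
  ⟨0, 0, zc_zero h1 _ _ _ _ _ _, cg_zero h1 _ _ _ _, by rw [map_zero, add_zero]⟩

theorem tt_add (h1 : Stmt_DG) (h2 : Stmt_SYM) (M β : ℕ) (T C : Finset A) (w : A)
    (f g : PX K A v) (hf : TT M β T C w f) (hg : TT M β T C w g) : TT M β T C w (f + g) := by
  obtain ⟨G, b, hG, hb, rfl⟩ := hf
  obtain ⟨G', b', hG', hb', rfl⟩ := hg
  exact ⟨G + G', b + b', zc_add h1 h2 _ _ _ _ _ _ _ _ hG hG', cg_add h1 h2 _ _ _ _ _ _ hb hb', by
    rw [map_add, map_add]; ring⟩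

theorem tt_smul (h1 : Stmt_DG) (h2 : Stmt_SYM) (M β : ℕ) (T C : Finset A) (w : A)
    (a : K) (f : PX K A v) (hf : TT M β T C w f) : TT M β T C w (a • f) := by
  obtain ⟨G, b, hG, hb, rfl⟩ := hf
  exact ⟨a • G, a • b, zc_smul h1 h2 _ _ _ _ _ _ _ _ hG, cg_smul h1 h2 _ _ _ _ _ _ hb, by
    rw [map_smul, map_smul, smul_add]⟩

theorem good_zero (h1 : Stmt_DG) (M β : ℕ) (T C : Finset A) (w : A) :
    Good M β T C w (0 : PX K A v) := by
  refine ⟨(h1 K A A v).1 _, ?_⟩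
  have h3 : smz T (alt C (0 : PX K A v)) = 0 := by
    have h4 : alt C (0 : PX K A v) = 0 := by
      unfold alt
      exact Finset.sum_eq_zero fun π _ => by rw [map_zero, smul_zero]
    rw [h4]
    unfold smz
    exact Finset.sum_eq_zero fun π _ => map_zero _
  rw [h3]
  exact tt_zero h1 M β T C w

theorem good_add (h1 : Stmt_DG) (h2 : Stmt_SYM) (M β : ℕ) (T C : Finset A) (w : A)
    (f g : PX K A v) (hf : Good M β T C w f) (hg : Good M β T C w g) :
    Good M β T C w (f + g) := by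
  have h9 := (h2 K A v).2.2.2.2.2.2.2.2.1
  refine ⟨((h1 K A A v).2.1 _ f g hf.1 hg.1).1, ?_⟩
  rw [(h9 C f g 0).1, (h9 T (alt C f) (alt C g) 0).2.1]
  exact tt_add h1 h2 M β T C w _ _ hf.2 hg.2

theorem good_smul (h1 : Stmt_DG) (h2 : Stmt_SYM) (M β : ℕ) (T C : Finset A) (w : A)
    (a : K) (f : PX K A v) (hf : Good M β T C w f) : Good M β T C w (a • f) := by
  have h9 := (h2 K A v).2.2.2.2.2.2.2.2.1
  refine ⟨((h1 K A A v).2.2.1 _ a 0 f hf.1).1, ?_⟩
  rw [(h9 C f 0 a).2.2.1, (h9 T (alt C f) 0 a).2.2.2.1]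
  exact tt_smul h1 h2 M β T C w a _ hf.2

theorem smul_int (n : ℕ) (f : PX K A v) : ((n : ℤ) • f) = ((n : K) • f) := by
  rw [natCast_zsmul, Nat.cast_smul_eq_nsmul]

/-- for symmetric, alternating `f` the symmetrisation is a multiple -/
theorem sm_alt (h2 : Stmt_SYM) (T C : Finset A) (f : PX K A v) (hs : Sy T f) (ha : Al C f) :
    smz T (alt C f) = ((C.card.factorial : K) * (T.card.factorial : K)) • f := by
  have h9 := (h2 K A v).2.2.2.2.2.2.2.2.1
  have h5 := (h2 K A v).2.2.2.2.1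
  rw [(h5 C f).2 ha, smul_int, (h9 T f 0 _).2.2.2.1, (h5 T f).1 hs, smul_int, smul_smul]

end GD0

theorem GD0_thm (h1 : Stmt_DG) (h2 : Stmt_SYM) : Stmt_GD0 := by
  intro K _ _ A _ _ v M β T C w hcf
  refine ⟨GD0.tt_add h1 h2 M β T C w, GD0.tt_smul h1 h2 M β T C w, GD0.good_zero h1 M β T C w,
    ?_, GD0.good_smul h1 h2 M β T C w, ?_, ?_, ?_⟩
  · intro f g hf hg
    refine ⟨GD0.good_add h1 h2 M β T C w f g hf hg, ?_⟩
    have h3 : f - g = f + (-1 : K) • g := by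
      rw [neg_one_smul, sub_eq_add_neg]
    rw [h3]
    exact GD0.good_add h1 h2 M β T C w _ _ hf (GD0.good_smul h1 h2 M β T C w _ _ hg)
  · intro a f ha hf
    have h3 := GD0.good_smul h1 h2 M β T C w a⁻¹ _ hf
    rwa [smul_smul, inv_mul_cancel₀ ha, one_smul] at h3
  · intro ι s f
    classical
    induction s using Finset.induction_on with
    | empty =>
      intro _
      rw [Finset.sum_empty]
      exact GD0.good_zero h1 M β T C w
    | insert i s hi ih =>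
      intro h
      rw [Finset.sum_insert hi]
      exact GD0.good_add h1 h2 M β T C w _ _ (h i (Finset.mem_insert_self _ _))
        (ih fun j hj => h j (Finset.mem_insert_of_mem hj))
  · intro f hf
    have h3 := GD0.sm_alt h2 T C f hf.cg.sy hf.cg.alC
    have h4 : ((C.card.factorial : K) * (T.card.factorial : K)) ≠ 0 :=
      mul_ne_zero (Nat.cast_ne_zero.2 (Nat.factorial_ne_zero _))
        (Nat.cast_ne_zero.2 (Nat.factorial_ne_zero _))
    constructor
    · intro hg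
      have h5 := hg.2
      rw [h3] at h5
      have h6 := GD0.tt_smul h1 h2 M β T C w ((C.card.factorial : K) * (T.card.factorial : K))⁻¹
        _ h5
      rwa [smul_smul, inv_mul_cancel₀ h4, one_smul] at h6
    · intro ht
      refine ⟨hf.cg.dg, ?_⟩
      rw [h3]
      exact GD0.tt_smul h1 h2 M β T C w _ _ ht

end Pool.Agent.VOP
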