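import Pool.Agent.VOP.StmtsN
import Pool.Agent.VOP.GD0

/-!
# The Ottaviani-Paoletti conjecture (MP_deb8da_ag): module FP
-/

namespace Pool.Agent.VOP

open MvPolynomial Pool.Agent.VSY

namespace FP

variable {K : Type} [Field K] {A : Type} [Fintype A] [DecidableEq A] {v : ℕ}

theorem lin_single (k : Fin v) (p : A) : (lin (Pi.single k 1) p : PX K A v) = X (p, k) := by
  unfold lin
  rw [Finset.sum_eq_single k]
  · rw [Pi.single_eq_same, C_1, one_mul]
  · intro i _ hi
    rw [Pi.single_eq_of_ne hi, C_0, zero_mul]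
  · intro h
    exact absurd (Finset.mem_univ k) h

theorem single_ne (k : Fin v) : (Pi.single k 1 : Fin v → K) ≠ 0 := by
  intro h
  have := congrFun h k
  rw [Pi.single_eq_same, Pi.zero_apply] at this
  exact one_ne_zero this

theorem zc_sum (h1 : Stmt_DG) (h3 : Stmt_SYM) (M : ℕ) (T S C : Finset A) (w : A) (r : ℕ)
    {ι : Type} (s : Finset ι) (f : ι → PX K A v) (hf : ∀ i ∈ s, Zc M T S C w r (f i)) :
    Zc M T S C w r (∑ i ∈ s, f i) := by
  classical
  induction s using Finset.induction_on with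
  | empty =>
    rw [Finset.sum_empty]
    exact GD0.zc_zero h1 M T S C w r
  | insert i s hi ih =>
    rw [Finset.sum_insert hi]
    exact GD0.zc_add h1 h3 M T S C w r _ _ (hf i (Finset.mem_insert_self _ _))
      (ih fun j hj => hf j (Finset.mem_insert_of_mem hj))

theorem smz_sum {ι : Type} (T : Finset A) (s : Finset ι) (f : ι → PX K A v) :
    smz T (∑ i ∈ s, f i) = ∑ i ∈ s, smz T (f i) := by
  unfold smz
  simp only [map_sum]
  exact Finset.sum_comm

theorem alt_sum {ι : Type} (T : Finset A) (s : Finset ι) (f : ι → PX K A v) :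
    alt T (∑ i ∈ s, f i) = ∑ i ∈ s, alt T (f i) := by
  unfold alt
  simp only [map_sum, Finset.smul_sum]
  exact Finset.sum_comm

theorem smz_sub (T : Finset A) (f g : PX K A v) : smz T (f - g) = smz T f - smz T g := by
  unfold smz
  simp only [map_sub, Finset.sum_sub_distrib]

theorem alt_sub (T : Finset A) (f g : PX K A v) : alt T (f - g) = alt T f - alt T g := by
  unfold alt
  simp only [map_sub, smul_sub, Finset.sum_sub_distrib]

theorem pS_fix {T : Finset A} {π : Equiv.Perm A} (h : π ∈ pS T) {w : A} (hw : w ∉ T) :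
    π w = w := by
  unfold pS at h
  rw [Finset.mem_filter] at h
  exact h.2 w hw

theorem dvd_smz (h2 : Stmt_DIV) {x : Fin v → K} (hx : x ≠ 0) {w : A} {T : Finset A}
    (hw : w ∉ T) {f : PX K A v} (h : lin x w ∣ f) : lin x w ∣ smz T f := by
  unfold smz
  refine Finset.dvd_sum fun π hπ => ?_
  exact (h2 K A A v x hx).2.2.2.2.1 w w π f (pS_fix hπ hw) h

theorem dvd_alt (h2 : Stmt_DIV) {x : Fin v → K} (hx : x ≠ 0) {w : A} {T : Finset A}
    (hw : w ∉ T) {f : PX K A v} (h : lin x w ∣ f) : lin x w ∣ alt T f := by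
  unfold alt
  refine Finset.dvd_sum fun π hπ => ?_
  have h3 := (h2 K A A v x hx).2.2.2.2.1 w w π f (pS_fix hπ hw) h
  rw [zsmul_eq_mul]
  exact dvd_mul_of_dvd_right h3 _

/-- the condition `J' = J` under a permutation that preserves `J` -/
theorem map_swap_eq {J : Finset A} {x y : A} (hx : x ∉ J) (hy : y ∉ J) (J' : Finset A) :
    (J'.map (Equiv.swap x y).toEmbedding = J) = (J' = J) := by
  have hJ : J.map (Equiv.swap x y).toEmbedding = J := by
    ext a
    rw [Finset.mem_map]
    constructor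
    · rintro ⟨b, hb, rfl⟩
      have h1 : b ≠ x := fun h => hx (h ▸ hb)
      have h2 : b ≠ y := fun h => hy (h ▸ hb)
      rw [Equiv.coe_toEmbedding, Equiv.swap_apply_of_ne_of_ne h1 h2]
      exact hb
    · intro ha
      have h1 : a ≠ x := fun h => hx (h ▸ ha)
      have h2 : a ≠ y := fun h => hy (h ▸ ha)
      exact ⟨a, ha, by rw [Equiv.coe_toEmbedding, Equiv.swap_apply_of_ne_of_ne h1 h2]⟩
  apply propext
  constructor
  · intro h
    rw [← hJ] at h
    exact Finset.map_injective _ h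
  · intro h
    rw [h, hJ]

/-- the part of `f` with the set `J` under a swap -/
theorem pr_swap (h5 : Stmt_PR) (k : Fin v) (w : A) (J : Finset A) (x y : A) (hx : x ∉ J)
    (hy : y ∉ J) (hxw : x ≠ w) (hyw : y ≠ w) (f : PX K A v) :
    ren (Equiv.swap x y) (pr k w (fun J' => J' = J) f) =
      pr k w (fun J' => J' = J) (ren (Equiv.swap x y) f) := by
  have h7 := (h5 K A v k w).2.2.2.2.2.2.1 (fun J' => J' = J) (Equiv.swap x y) f
    (Equiv.swap_apply_of_ne_of_ne hxw.symm hyw.symm)
  rw [h7]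
  congr 2
  funext J'
  exact (map_swap_eq hx hy J').symm

theorem pr_neg (h5 : Stmt_PR) (k : Fin v) (w : A) (P : Finset A → Prop) (f : PX K A v) :
    pr k w P (-f) = -pr k w P f := by
  have h := ((h5 K A v k w).2.1 P f f (-1)).2.2
  rwa [neg_one_smul, neg_one_smul] at h

/-- the part for one set `J` -/
theorem part (h1 : Stmt_DG) (h2 : Stmt_DIV) (h3 : Stmt_SYM) (h4 : Stmt_GD0) (h5 : Stmt_PR)
    (h6 : Stmt_LFT) (h7 : Stmt_EXP) (h8 : Stmt_MSX) [CharZero K] (M β t s l i : ℕ)
    (hl : LIFT K v (M + 1) (M + 2) s l (2 * M + 1 + β))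
    (hfc : ∀ a b, a + b = i → a ≤ t → b ≤ s → FC K v M β t s l a b)
    (T S C : Finset A) (w : A) (k : Fin v) (f : PX K A v) (hcf : Cf T S C w)
    (hsp : Sp T S C w) (hT : T.card = t) (hS : S.card = s) (hC : C.card = l)
    (hf : Zc M T S C w (2 * M + 2 + β) f) (J : Finset A) (hJ : J ⊆ T ∪ S) (hJi : J.card = i) :
    ∃ F : PX K A v, Zc M T S C w (2 * M + 2 + β) F ∧
      lin (Pi.single k 1) w ∣ smz T (alt S (pr k w (fun J' => J' = J) f)) - F ∧
      Good M β T (S ∪ C) w (xS (Pi.single k 1) S * F) := by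
  classical
  set x : Fin v → K := Pi.single k 1 with hx
  have hx0 : x ≠ 0 := single_ne k
  obtain ⟨p1, p2, p3, p4, p5, p6, p7, p8, p9, p10⟩ := h5 K A v k w
  have hsy : ∀ a b : A, a ∉ J → b ∉ J → a ≠ w → b ≠ w →
      ren (Equiv.swap a b) (pr k w (fun J' => J' = J) f) =
      pr k w (fun J' => J' = J) (ren (Equiv.swap a b) f) :=
    fun a b ha hb haw hbw => pr_swap h5 k w J a b ha hb haw hbw f
  have hCJ : ∀ a ∈ C, a ∉ J := by
    intro a ha haJ
    rcases Finset.mem_union.1 (hJ haJ) with h | h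
    · exact Finset.disjoint_left.1 hcf.TC h ha
    · exact Finset.disjoint_left.1 hcf.SC h ha
  obtain ⟨ι, _, b, m, hb, hm, hfJ⟩ := h7 K v M β A T S C J w k
    (pr k w (fun J' => J' = J) f) hcf hJ (p3 _ _ f hf.cg.dg)
    (by
      intro m hm p hp
      have h := (p1 (fun J' => J' = J) f m).2
      by_cases hc : m (w, k) = 0 ∧ js k w m = J
      · have h' : p ∈ js k w m := by rw [hc.2]; exact hp
        unfold js at h'
        rw [Finset.mem_filter] at h'
        exact h'.2.2
      · exact absurd (h hc) (mem_support_iff.1 hm))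
    (by
      intro a ha b hb
      rw [Finset.mem_sdiff] at ha hb
      rw [hsy a b ha.2 hb.2 (fun h => hcf.wT (h ▸ ha.1)) (fun h => hcf.wT (h ▸ hb.1)),
        hf.cg.sy a ha.1 b hb.1])
    (by
      intro a ha b hb hab
      rw [Finset.mem_sdiff] at ha hb
      rw [hsy a b ha.2 hb.2 (fun h => hcf.wS (h ▸ ha.1)) (fun h => hcf.wS (h ▸ hb.1)),
        hf.cg.alS a ha.1 b hb.1 hab, pr_neg h5])
    (by
      intro a ha b hb hab
      rw [hsy a b (hCJ a ha) (hCJ b hb) (fun h => hcf.wC (h ▸ ha)) (fun h => hcf.wC (h ▸ hb)),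
        hf.cg.alC a ha b hb hab, pr_neg h5])
    (by
      intro u hu
      rcases Finset.mem_union.1 hu with h | h
      · rw [Finset.mem_sdiff] at h
        refine (p9 (fun J' => J' = J) u f (fun h' => hcf.wS (h' ▸ h.1)) ?_).2 ?_
        · rw [hf.cyS u h.1]
          exact dvd_zero _
        · rintro J' rfl
          exact h.2
      · refine (p9 (fun J' => J' = J) u f (fun h' => hcf.wC (h' ▸ h)) ?_).2 ?_
        · rw [hf.cyC u h]
          exact dvd_zero _
        · rintro J' rfl
          exact hCJ u h)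
  -- the sets
  have hTS : Disjoint (J ∩ T) (J ∩ S) := by
    refine Finset.disjoint_left.2 fun a ha hb => ?_
    exact Finset.disjoint_left.1 hcf.TS (Finset.mem_inter.1 ha).2 (Finset.mem_inter.1 hb).2
  have hJu : (J ∩ T) ∪ (J ∩ S) = J := by
    rw [← Finset.inter_union_distrib_left]
    exact Finset.inter_eq_left.2 hJ
  have hcard : (J ∩ T).card + (J ∩ S).card = i := by
    rw [← Finset.card_union_of_disjoint hTS, hJu, hJi]
  have hTd : T \ (J ∩ T) = T \ J := by
    rw [Finset.inter_comm]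
    exact Finset.sdiff_inter_self_left T J
  have hSd : S \ (J ∩ S) = S \ J := by
    rw [Finset.inter_comm]
    exact Finset.sdiff_inter_self_left S J
  have hmi : ∀ j, Zc M (T \ (J ∩ T)) (S \ (J ∩ S)) C w (2 * M + 2 + β) (m j) := by
    intro j
    rw [hTd, hSd]
    exact hm j
  have hF : ∀ j, ∃ F : PX K A v, Zc M T S C w (2 * M + 2 + β) F ∧
      lin x w ∣ smz T (alt S (xb x (b j) J * m j)) - F ∧
      Good M β T (S ∪ C) w (xS x S * F) := by
    intro j
    have hms := h8 K v M (2 * M + 2 + β) A T S C (J ∩ T) (J ∩ S) w x (b j) (m j) hcf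
      Finset.inter_subset_right Finset.inter_subset_right (hb j) (hmi j)
    rw [hJu] at hms
    obtain ⟨F, hF1, hF2⟩ := (h6 K v M β t s l).1 hl A T S C w x _ hcf hS hC hx0 hms.1 hms.2
    refine ⟨F, hF1, hF2, ?_⟩
    refine hfc (J ∩ T).card (J ∩ S).card hcard ?_ ?_ A T S C (J ∩ T) (J ∩ S) w (m j) hcf hsp hT hS
      hC Finset.inter_subset_right Finset.inter_subset_right rfl rfl (hmi j) x (b j) F hx0
      (hb j) ⟨hF1, ?_⟩
    · rw [← hT]
      exact Finset.card_le_card Finset.inter_subset_right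
    · rw [← hS]
      exact Finset.card_le_card Finset.inter_subset_right
    · rw [hJu]
      exact hF2
  choose F hF1 hF2 hF3 using hF
  refine ⟨∑ j, F j, zc_sum h1 h3 M T S C w _ _ _ fun j _ => hF1 j, ?_, ?_⟩
  · rw [hfJ, alt_sum, smz_sum, ← Finset.sum_sub_distrib]
    exact Finset.dvd_sum fun j _ => hF2 j
  · rw [Finset.mul_sum]
    have hcf' : Cf T ∅ (S ∪ C) w :=
      { TS := Finset.disjoint_empty_right T
        TC := Finset.disjoint_union_right.2 ⟨hcf.TS, hcf.TC⟩
        SC := Finset.disjoint_empty_left _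
        wT := hcf.wT
        wS := Finset.notMem_empty w
        wC := by
          rw [Finset.mem_union]
          rintro (h | h)
          · exact hcf.wS h
          · exact hcf.wC h }
    exact (h4 K A v M β T (S ∪ C) w hcf').2.2.2.2.2.2.1 ι Finset.univ _ fun j _ => hF3 j

end FP

theorem FP_thm (h1 : Stmt_DG) (h2 : Stmt_DIV) (h3 : Stmt_SYM) (h4 : Stmt_GD0) (h5 : Stmt_PR)
    (h6 : Stmt_LFT) (h7 : Stmt_EXP) (h8 : Stmt_MSX) : Stmt_FP := by
  classical
  intro K _ _ v M β t s l i halp hl hfc A _ _ T S C w k f hcf hsp hT hS hC hf hsupp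
  set x : Fin v → K := Pi.single k 1 with hx
  have hx0 : x ≠ 0 := FP.single_ne k
  have hcf' : Cf T ∅ (S ∪ C) w :=
    { TS := Finset.disjoint_empty_right T
      TC := Finset.disjoint_union_right.2 ⟨hcf.TS, hcf.TC⟩
      SC := Finset.disjoint_empty_left _
      wT := hcf.wT
      wS := Finset.notMem_empty w
      wC := by
        rw [Finset.mem_union]
        rintro (h | h)
        · exact hcf.wS h
        · exact hcf.wC h }
  obtain ⟨g1, g2, g3, g4, g5, g6, g7, g8⟩ := h4 K A v M β T (S ∪ C) w hcf'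
  obtain ⟨p1, p2, p3, p4, p5, p6, p7, p8, p9, p10⟩ := h5 K A v k w
  set 𝒥 : Finset (Finset A) := (T ∪ S).powersetCard i with h𝒥
  have hpart : ∀ J : 𝒥, ∃ F : PX K A v, Zc M T S C w (2 * M + 2 + β) F ∧
      lin x w ∣ smz T (alt S (pr k w (fun J' => J' = J.1) f)) - F ∧
      Good M β T (S ∪ C) w (xS x S * F) := by
    intro J
    have hJ := Finset.mem_powersetCard.1 J.2
    exact FP.part h1 h2 h3 h4 h5 h6 h7 h8 M β t s l i hl hfc T S C w k f hcf hsp hT hS hC hf
      J.1 hJ.1 hJ.2
  choose F hF1 hF2 hF3 using hpart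
  -- the sum of the parts
  have hjs : ∀ m ∈ f.support, m (w, k) = 0 → js k w m ∈ 𝒥 := by
    intro m hm hmw
    obtain ⟨hs1, hs2⟩ := hsupp m hm hmw
    have hjm : js k w m = (T ∪ S).filter fun p => 1 ≤ m (p, k) := by
      ext p
      unfold js
      rw [Finset.mem_filter, Finset.mem_filter]
      constructor
      · rintro ⟨_, hpw, hp⟩
        refine ⟨?_, hp⟩
        by_contra hpTS
        have hpC : p ∉ C := fun h => by
          rw [hs1 p h] at hp
          exact absurd hp (by norm_num)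
        have hd := hf.cg.dg m hm p
        unfold dgc at hd
        rw [if_neg hpTS, if_neg hpC, if_neg hpw] at hd
        have hz := (Finset.sum_eq_zero_iff.1 hd) k (Finset.mem_univ k)
        rw [hz] at hp
        exact absurd hp (by norm_num)
      · rintro ⟨hpTS, hp⟩
        refine ⟨Finset.mem_univ _, ?_, hp⟩
        rintro rfl
        rw [hmw] at hp
        exact absurd hp (by norm_num)
    rw [h𝒥, Finset.mem_powersetCard, hjm]
    exact ⟨Finset.filter_subset _ _, hs2⟩
  have hsum : pr k w (fun _ => True) f = ∑ J : 𝒥, pr k w (fun J' => J' = J.1) f := by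
    ext m
    rw [coeff_sum]
    by_cases hmw : m (w, k) = 0
    · rw [(p1 (fun _ => True) f m).1 ⟨hmw, trivial⟩]
      by_cases hm : m ∈ f.support
      · have hmem := hjs m hm hmw
        rw [Finset.sum_eq_single (⟨js k w m, hmem⟩ : 𝒥)]
        · exact ((p1 (fun J' => J' = js k w m) f m).1 ⟨hmw, rfl⟩).symm
        · intro J _ hJ
          refine (p1 (fun J' => J' = J.1) f m).2 ?_
          rintro ⟨_, h⟩
          exact hJ (Subtype.ext h.symm)
        · intro h
          exact absurd (Finset.mem_univ _) h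
      · rw [notMem_support_iff.1 hm]
        symm
        refine Finset.sum_eq_zero fun J _ => ?_
        by_cases hc : m (w, k) = 0 ∧ js k w m = J.1
        · rw [(p1 (fun J' => J' = J.1) f m).1 hc]
          exact notMem_support_iff.1 hm
        · exact (p1 (fun J' => J' = J.1) f m).2 hc
    · rw [(p1 (fun _ => True) f m).2 fun h => hmw h.1]
      symm
      exact Finset.sum_eq_zero fun J _ => (p1 (fun J' => J' = J.1) f m).2 fun h => hmw h.1
  have hdvd : lin x w ∣ f - ∑ J : 𝒥, pr k w (fun J' => J' = J.1) f := by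
    rw [← hsum, hx, FP.lin_single]
    exact p4 f
  have hdvd2 : lin x w ∣ smz T (alt S f) - ∑ J : 𝒥, F J := by
    have h := FP.dvd_smz h2 hx0 hcf.wT (FP.dvd_alt h2 hx0 hcf.wS hdvd)
    rw [FP.alt_sub, FP.smz_sub, FP.alt_sum, FP.smz_sum] at h
    have h' : lin x w ∣ ∑ J : 𝒥, (smz T (alt S (pr k w (fun J' => J' = J.1) f)) - F J) :=
      Finset.dvd_sum fun J _ => hF2 J
    rw [Finset.sum_sub_distrib] at h'
    have h'' := dvd_add h h'
    rwa [sub_add_sub_cancel] at h''
  rw [GD0.sm_alt h3 T S f hf.cg.sy hf.cg.alS] at hdvd2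
  set c : K := (S.card.factorial : K) * (T.card.factorial : K) with hc
  have hc0 : c ≠ 0 :=
    mul_ne_zero (Nat.cast_ne_zero.2 (Nat.factorial_ne_zero _))
      (Nat.cast_ne_zero.2 (Nat.factorial_ne_zero _))
  have hgood : Good M β T (S ∪ C) w (xS x S * (c • f)) := by
    refine (h6 K v M β t s l).2 halp A T S C w x (c • f) (∑ J : 𝒥, F J) hcf hsp hT hS hC hx0
      (GD0.zc_smul h1 h3 M T S C w _ c f hf)
      (FP.zc_sum h1 h3 M T S C w _ _ _ fun J _ => hF1 J) hdvd2 ?_
    rw [Finset.mul_sum]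
    exact g7 𝒥 Finset.univ _ fun J _ => hF3 J
  rw [mul_smul_comm] at hgood
  exact g6 c _ hc0 hgood

end Pool.Agent.VOP
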