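import Pool.Agent.VOP.StmtsH

/-!
# The Ottaviani-Paoletti conjecture (MP_deb8da_ag): the Fischer form
-/

namespace Pool.Agent.VOP

open MvPolynomial Pool.Agent.VSY

namespace FSHH

section field

variable {K : Type} [Field K] {A : Type} {v : ℕ}

theorem fis_of_subset (f g : PX K A v) {s : Finset (A × Fin v →₀ ℕ)} (hs : f.support ⊆ s) :
    fis f g = ∑ m ∈ s, mfac K m * (coeff m f * coeff m g) := by
  rw [fis]
  refine Finset.sum_subset hs fun m _ hm => ?_
  rw [notMem_support_iff.1 hm, zero_mul, mul_zero]

theorem fis_comm (f g : PX K A v) : fis f g = fis g f := by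
  classical
  rw [fis_of_subset f g (Finset.subset_union_left (s₂ := g.support)),
    fis_of_subset g f (Finset.subset_union_right (s₁ := f.support))]
  refine Finset.sum_congr rfl fun m _ => ?_
  rw [mul_comm (coeff m f)]

theorem fis_add_left (f g h : PX K A v) : fis (f + g) h = fis f h + fis g h := by
  classical
  rw [fis_of_subset f h (Finset.subset_union_left (s₂ := g.support)),
    fis_of_subset g h (Finset.subset_union_right (s₁ := f.support)),
    fis_of_subset (f + g) h support_add, ← Finset.sum_add_distrib]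
  refine Finset.sum_congr rfl fun m _ => ?_
  rw [coeff_add]
  ring

theorem fis_smul_left (a : K) (f g : PX K A v) : fis (a • f) g = a * fis f g := by
  rw [fis_of_subset (a • f) g support_smul, fis, Finset.mul_sum]
  refine Finset.sum_congr rfl fun m _ => ?_
  rw [coeff_smul, smul_eq_mul]
  ring

theorem fis_sub_left (f g h : PX K A v) : fis (f - g) h = fis f h - fis g h := by
  rw [sub_eq_add_neg, ← neg_one_smul K g, fis_add_left, fis_smul_left]
  ring

theorem fis_sum_left {ι : Type} (s : Finset ι) (F : ι → PX K A v) (g : PX K A v) :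
    fis (∑ i ∈ s, F i) g = ∑ i ∈ s, fis (F i) g := by
  classical
  induction s using Finset.induction_on with
  | empty => simp [fis]
  | insert a s ha ih => rw [Finset.sum_insert ha, Finset.sum_insert ha, fis_add_left, ih]

theorem fis_sum_right {ι : Type} (s : Finset ι) (F : ι → PX K A v) (g : PX K A v) :
    fis g (∑ i ∈ s, F i) = ∑ i ∈ s, fis g (F i) := by
  rw [fis_comm, fis_sum_left]
  exact Finset.sum_congr rfl fun i _ => fis_comm _ _

theorem mfac_eq [Fintype A] (m : A × Fin v →₀ ℕ) : mfac K m = ∏ y, ((m y).factorial : K) := by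
  rw [mfac, Finsupp.prod_fintype]
  intro i
  simp

theorem mfac_add_single [Fintype A] (m : A × Fin v →₀ ℕ) (y : A × Fin v) :
    mfac K (Finsupp.single y 1 + m) = mfac K m * ((m y : K) + 1) := by
  classical
  rw [mfac_eq, mfac_eq, Fintype.prod_eq_mul_prod_compl y, Fintype.prod_eq_mul_prod_compl y]
  have h1 : ∏ i ∈ ({y} : Finset (A × Fin v))ᶜ,
      (((Finsupp.single y 1 + m : A × Fin v →₀ ℕ) i).factorial : K) =
      ∏ i ∈ ({y} : Finset (A × Fin v))ᶜ, ((m i).factorial : K) := by
    refine Finset.prod_congr rfl fun i hi => ?_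
    have h2 : y ≠ i := by
      rintro rfl
      simp at hi
    rw [Finsupp.add_apply, Finsupp.single_eq_of_ne' h2, zero_add]
  rw [h1, Finsupp.add_apply, Finsupp.single_eq_same, add_comm 1 (m y), Nat.factorial_succ]
  push_cast
  ring

theorem fis_X_mul [Fintype A] (y : A × Fin v) (f g : PX K A v) :
    fis (X y * f) g = fis f (pderiv y g) := by
  rw [fis, support_X_mul, Finset.sum_map, fis]
  refine Finset.sum_congr rfl fun m _ => ?_
  rw [addLeftEmbedding_apply, coeff_X_mul, coeff_pderiv, mfac_add_single,
    add_comm (Finsupp.single y 1) m]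
  ring

theorem fis_Eij [Fintype A] (i j : Fin v) (f g : PX K A v) :
    fis (Eij i j f) g = fis f (Eij j i g) := by
  have h1 : ∀ (i j : Fin v) (f : PX K A v), Eij i j f = ∑ x : A, X (x, i) * pderiv (x, j) f := by
    intro i j f
    rw [Eij, LinearMap.sum_apply]
    rfl
  rw [h1, h1, fis_sum_left, fis_sum_right]
  refine Finset.sum_congr rfl fun x _ => ?_
  rw [fis_X_mul, fis_comm f, fis_X_mul, fis_comm]

theorem coeff_Eij_self [Fintype A] (i : Fin v) (f : PX K A v) (m : A × Fin v →₀ ℕ) :
    coeff m (Eij i i f) = (∑ x : A, (m (x, i) : K)) * coeff m f := by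
  classical
  rw [Eij, LinearMap.sum_apply, coeff_sum, Finset.sum_mul]
  refine Finset.sum_congr rfl fun x _ => ?_
  show coeff m (X (x, i) * pderiv (x, i) f) = _
  rw [coeff_X_mul']
  split_ifs with h
  · rw [Finsupp.mem_support_iff] at h
    have h1 : m - Finsupp.single (x, i) 1 + Finsupp.single (x, i) 1 = m := by
      refine tsub_add_cancel_of_le ?_
      rw [Finsupp.single_le_iff]
      omega
    have h2 : ((m - Finsupp.single (x, i) 1 : A × Fin v →₀ ℕ) (x, i) : K) + 1 = m (x, i) := by
      have h3 : (m - Finsupp.single (x, i) 1 : A × Fin v →₀ ℕ) (x, i) + 1 = m (x, i) := by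
        rw [Finsupp.tsub_apply, Finsupp.single_eq_same]
        omega
      rw [← h3, Nat.cast_add, Nat.cast_one]
    rw [coeff_pderiv, h1, h2, mul_comm]
  · rw [Finsupp.notMem_support_iff] at h
    rw [h, Nat.cast_zero, zero_mul]

end field

section order

variable {K : Type} [Field K] [LinearOrder K] [IsStrictOrderedRing K] {A : Type} {v : ℕ}

theorem mfac_pos (m : A × Fin v →₀ ℕ) : 0 < mfac K m := by
  rw [mfac, Finsupp.prod]
  refine Finset.prod_pos fun i _ => ?_
  exact_mod_cast Nat.factorial_pos _

theorem fis_self_nonneg (f : PX K A v) : 0 ≤ fis f f :=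
  Finset.sum_nonneg fun m _ => mul_nonneg (mfac_pos m).le (mul_self_nonneg _)

theorem fis_self_eq_zero {f : PX K A v} (h : fis f f = 0) : f = 0 := by
  rw [fis, Finset.sum_eq_zero_iff_of_nonneg
    (fun m _ => mul_nonneg (mfac_pos m).le (mul_self_nonneg _))] at h
  by_contra hf
  obtain ⟨m, hm⟩ := support_nonempty.2 hf
  have h1 := h m hm
  rw [mem_support_iff] at hm
  rcases mul_eq_zero.1 h1 with h2 | h2
  · exact (mfac_pos m).ne' h2
  · exact hm (mul_self_eq_zero.1 h2)

omit [LinearOrder K] [IsStrictOrderedRing K] in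
theorem fis_monomial_mul (α : A × Fin v →₀ ℕ) (f c : PX K A v)
    (h : ∀ m ∈ c.support, coeff (α + m) f = coeff m c) :
    fis f (monomial α 1 * c) = ∑ m ∈ c.support, mfac K (α + m) * (coeff m c * coeff m c) := by
  classical
  have hs : (monomial α 1 * c).support ⊆ c.support.map (addLeftEmbedding α) := by
    intro m hm
    rw [mem_support_iff, coeff_monomial_mul'] at hm
    split_ifs at hm with h1
    · rw [one_mul] at hm
      rw [Finset.mem_map]
      exact ⟨m - α, by rwa [mem_support_iff], by
        rw [addLeftEmbedding_apply, add_tsub_cancel_of_le h1]⟩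
    · exact absurd rfl hm
  rw [fis_comm, fis_of_subset _ _ hs, Finset.sum_map]
  refine Finset.sum_congr rfl fun m hm => ?_
  rw [addLeftEmbedding_apply, coeff_monomial_mul, one_mul, h m hm]

end order

end FSHH

open FSHH in
theorem FSH_thm : Stmt_FSH := by
  intro K _ _ _ A _ _ v
  refine ⟨fun f g h => ⟨fis_add_left f g h, fis_sub_left f g h⟩, fis_smul_left, fis_comm,
    fun f => ⟨fis_self_nonneg f, fis_self_eq_zero⟩, fis_Eij, ?_, ?_⟩
  · intro α f c h
    rw [fis_monomial_mul α f c h]
    refine ⟨Finset.sum_nonneg fun m _ => mul_nonneg (mfac_pos _).le (mul_self_nonneg _), ?_⟩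
    intro h0
    rw [Finset.sum_eq_zero_iff_of_nonneg
      (fun m _ => mul_nonneg (mfac_pos _).le (mul_self_nonneg _))] at h0
    by_contra hc
    obtain ⟨m, hm⟩ := support_nonempty.2 hc
    have h1 := h0 m hm
    rw [mem_support_iff] at hm
    rcases mul_eq_zero.1 h1 with h2 | h2
    · exact (mfac_pos (α + m)).ne' h2
    · exact hm (mul_self_eq_zero.1 h2)
  · intro i n f h m hm
    have h1 := coeff_Eij_self i f m
    rw [h, coeff_smul, smul_eq_mul] at h1
    rw [mem_support_iff] at hm
    have h2 := mul_right_cancel₀ hm h1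
    rw [← Nat.cast_sum] at h2
    exact (Nat.cast_injective h2).symm

end Pool.Agent.VOP
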