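import Pool.Agent.VOP.StmtsG

/-!
# The Ottaviani-Paoletti conjecture (MP_deb8da_ag): `(G1)`
-/

namespace Pool.Agent.VOP

open MvPolynomial Pool.Agent.VSY

namespace GD1

/-- The degrees of the configuration are invariant under a swap of two points of `T`. -/
theorem dgc_swapT {A : Type} [DecidableEq A] (M r : ℕ) (T C : Finset A) (w : A)
    {x y : A} (hx : x ∈ T) (hy : y ∈ T) (a : A) :
    dgc M T ∅ C w r (Equiv.swap x y a) = dgc M T ∅ C w r a := by
  rcases eq_or_ne a x with rfl | hax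
  · rw [Equiv.swap_apply_left]
    simp [dgc, hx, hy]
  · rcases eq_or_ne a y with rfl | hay
    · rw [Equiv.swap_apply_right]
      simp [dgc, hx, hy]
    · rw [Equiv.swap_apply_of_ne_of_ne hax hay]

/-- The degrees of the configuration are invariant under a swap of two points of `C`. -/
theorem dgc_swapC {A : Type} [DecidableEq A] (M r : ℕ) {T C : Finset A} {w : A}
    (hCf : Cf T ∅ C w) {x y : A} (hx : x ∈ C) (hy : y ∈ C) (a : A) :
    dgc M T ∅ C w r (Equiv.swap x y a) = dgc M T ∅ C w r a := by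
  have hT : ∀ z ∈ C, z ∉ T := fun z hz hz' => (Finset.disjoint_left.1 hCf.TC) hz' hz
  rcases eq_or_ne a x with rfl | hax
  · rw [Equiv.swap_apply_left]
    simp [dgc, hx, hy, hT a hx, hT y hy]
  · rcases eq_or_ne a y with rfl | hay
    · rw [Equiv.swap_apply_right]
      simp [dgc, hx, hy, hT a hy, hT x hx]
    · rw [Equiv.swap_apply_of_ne_of_ne hax hay]

end GD1

theorem GD1_thm (h1 : Stmt_DG) (h2 : Stmt_SYM) (h3 : Stmt_GD0) : Stmt_GD1 := by
  intro K _ _ A _ _ v M β T C w h hCf hdg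
  obtain ⟨-, hdadd, -, -, -, -, -, -, hdren, -, -, -⟩ := h1 K A A v
  obtain ⟨-, -, -, -, -, -, scomm, -, slin, sswap, -, -⟩ := h2 K A v
  obtain ⟨-, -, hg0, -⟩ := h3 K A v M β T C w hCf
  have ha0 : alt C (0 : PX K A v) = 0 := by
    have := (slin C (0 : PX K A v) 0 0).2.2.1
    simpa using this
  have hs0 : smz T (0 : PX K A v) = 0 := by
    have := (slin T (0 : PX K A v) 0 0).2.2.2.1
    simpa using this
  have hTT0 : TT M β T C w (0 : PX K A v) := by
    have := hg0.2
    rwa [ha0, hs0] at this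
  refine ⟨fun x hx y hy => ⟨?_, ?_⟩, fun x hx y hy hxy => ⟨?_, ?_⟩⟩
  · exact (hdadd _ _ _ hdg (hdren _ (Equiv.swap x y) _ (GD1.dgc_swapT M _ T C w hx hy) hdg)).2
  · have e1 : smz T (h - ren (Equiv.swap x y) h) = 0 := by
      have e2 : h - ren (Equiv.swap x y) h = h + (-1 : K) • ren (Equiv.swap x y) h := by
        rw [neg_one_smul, sub_eq_add_neg]
      rw [e2, (slin T h ((-1 : K) • ren (Equiv.swap x y) h) 0).2.1,
        (slin T (ren (Equiv.swap x y) h) 0 (-1)).2.2.2.1, (sswap T h x hx y hy).1,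
        neg_one_smul, add_neg_cancel]
    rw [(scomm T C _ hCf.TC).1, e1, ha0]
    exact hTT0
  · exact (hdadd _ _ _ hdg (hdren _ (Equiv.swap x y) _ (GD1.dgc_swapC M _ hCf hx hy) hdg)).1
  · have e1 : alt C (h + ren (Equiv.swap x y) h) = 0 := by
      rw [(slin C h (ren (Equiv.swap x y) h) 0).1, (sswap C h x hx y hy).2 hxy, add_neg_cancel]
    rw [e1, hs0]
    exact hTT0

end Pool.Agent.VOP
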