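import Pool.Agent.VOP.StmtsG

/-!
# The Ottaviani-Paoletti conjecture (MP_deb8da_ag): boundaries are good
-/

set_option autoImplicit false

namespace Pool.Agent.VOP

open MvPolynomial Pool.Agent.VSY

namespace GD2

section perm

variable {A : Type} [Fintype A] [DecidableEq A]

theorem mem_pS (S : Finset A) (π : Equiv.Perm A) : π ∈ pS S ↔ ∀ x, x ∉ S → π x = x := by
  classical
  unfold pS
  simp

/-- The permutations of `Option A`. -/
def E (U : Type) [DecidableEq U] : Option U × Equiv.Perm U ≃ Equiv.Perm (Option U) :=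
  (Equiv.prodCongr (Equiv.refl _) (Equiv.inv (Equiv.Perm U))).trans
    (Equiv.Perm.decomposeOption.symm.trans (Equiv.inv _))

omit [Fintype A] in
theorem E_apply (x : Option A) (σ : Equiv.Perm A) :
    E A (x, σ) = Equiv.optionCongr σ * Equiv.swap none x := by
  have h1 : E A (x, σ) = (Equiv.swap none x * Equiv.optionCongr σ⁻¹)⁻¹ := by
    show (Equiv.Perm.decomposeOption.symm (x, σ⁻¹))⁻¹ = _
    rw [Equiv.Perm.decomposeOption_symm_apply]
  rw [h1, mul_inv_rev, Equiv.swap_inv]
  congr 1

omit [Fintype A] [DecidableEq A] in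
theorem some_mem_sm (S : Finset A) (x : A) : some x ∈ sm S ↔ x ∈ S := by
  simp [sm]

omit [Fintype A] [DecidableEq A] in
theorem none_notMem_sm (S : Finset A) : none ∉ sm S := by
  simp [sm]

omit [Fintype A] in
theorem some_mem_isn (S : Finset A) (x : A) : some x ∈ isn S ↔ x ∈ S := by
  simp [isn]

omit [Fintype A] in
theorem none_mem_isn (S : Finset A) : none ∈ isn S := by
  simp [isn]

theorem mem_E (C : Finset A) (p : Option A × Equiv.Perm A) :
    p ∈ isn C ×ˢ pS C ↔ E A p ∈ pS (isn C) := by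
  obtain ⟨y, σ⟩ := p
  rw [Finset.mem_product, mem_pS, mem_pS, E_apply]
  constructor
  · rintro ⟨h1, h2⟩ o ho
    have h3 : o ≠ none := by
      rintro rfl
      exact ho (none_mem_isn C)
    have h4 : o ≠ y := by
      rintro rfl
      exact ho h1
    rw [Equiv.Perm.mul_apply, Equiv.swap_apply_of_ne_of_ne h3 h4]
    cases o with
    | none => exact absurd rfl h3
    | some x =>
      rw [some_mem_isn] at ho
      simp [h2 x ho]
  · intro h
    have h1 : y ∈ isn C := by
      by_contra hy
      have h2 := h y hy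
      rw [Equiv.Perm.mul_apply, Equiv.swap_apply_right] at h2
      apply hy
      rw [← h2]
      exact none_mem_isn C
    refine ⟨h1, fun x hx => ?_⟩
    have hx' : some x ∉ isn C := by
      rwa [some_mem_isn]
    have h2 := h (some x) hx'
    rw [Equiv.Perm.mul_apply, Equiv.swap_apply_of_ne_of_ne (by simp)
      (by rintro rfl; exact hx' h1)] at h2
    simpa using h2

theorem pS_sm (T : Finset A) (π : Equiv.Perm (Option A)) (hπ : π ∈ pS (sm T)) :
    ∃ σ ∈ pS T, Equiv.optionCongr σ = π := by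
  rw [mem_pS] at hπ
  refine ⟨Equiv.removeNone π, ?_, ?_⟩
  · rw [mem_pS]
    intro x hx
    have h1 := hπ (some x) (by rwa [some_mem_sm])
    have h2 : some (Equiv.removeNone π x) = π (some x) := Equiv.removeNone_some π ⟨x, h1⟩
    rw [h1] at h2
    exact Option.some.inj h2
  · rw [map_equiv_removeNone, hπ none (none_notMem_sm T), Equiv.swap_self]
    rfl

end perm

section poly

variable {K : Type} [Field K] {A : Type} [Fintype A] [DecidableEq A] {v : ℕ}

theorem rn_alt (C : Finset A) (w : A) (hw : w ∉ C) (g : PX K (Option A) v) :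
    rn w (alt (isn C) g) = alt C (rn w g -
      ∑ c ∈ C, ren (fun o => (Equiv.swap none (some c) o : Option A).getD w) g) := by
  have hc : ∀ (x : Option A), ∀ σ ∈ pS C,
      rn w (((Equiv.Perm.sign (E A (x, σ)) : ℤˣ) : ℤ) • ren (E A (x, σ)) g) =
      ((Equiv.Perm.sign σ : ℤˣ) : ℤ) • (((Equiv.Perm.sign (Equiv.swap none x) : ℤˣ) : ℤ) •
        ren σ (ren (fun o => (Equiv.swap none x o : Option A).getD w) g)) := by
    intro x σ hσ
    rw [map_zsmul, rn, ren_ren, ren_ren, smul_smul, E_apply, Equiv.Perm.sign_mul,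
      Equiv.optionCongr_sign, Units.val_mul]
    congr 1
    apply ren_congr
    intro o
    rw [mem_pS] at hσ
    rw [Function.comp_apply, Function.comp_apply, Equiv.Perm.mul_apply]
    cases (Equiv.swap none x o) with
    | none => simp [hσ w hw]
    | some a => simp
  unfold alt
  rw [map_sum, ← Finset.sum_equiv (E A) (s := isn C ×ˢ pS C) (t := pS (isn C))
    (f := fun p => rn w (((Equiv.Perm.sign (E A p) : ℤˣ) : ℤ) • ren (E A p) g))
    (fun p => mem_E C p) (fun p _ => rfl), Finset.sum_product_right]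
  refine Finset.sum_congr rfl fun σ hσ => ?_
  rw [Finset.sum_congr rfl fun x _ => hc x σ hσ, ← Finset.smul_sum]
  congr 1
  rw [isn, Finset.sum_insert (none_notMem_sm C), Finset.sum_map]
  rw [Equiv.swap_self, Equiv.Perm.sign_refl, Units.val_one, one_smul, map_sub, map_sum,
    sub_eq_add_neg, ← Finset.sum_neg_distrib]
  congr 1
  refine Finset.sum_congr rfl fun u _ => ?_
  rw [Function.Embedding.some_apply, Equiv.Perm.sign_swap (by simp), Units.val_neg,
    Units.val_one, neg_one_smul]

theorem rn_smz (T : Finset A) (w : A) (hw : w ∉ T) (g : PX K (Option A) v) :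
    rn w (smz (sm T) g) = smz T (rn w g) := by
  unfold smz
  rw [map_sum]
  symm
  refine Finset.sum_bij (fun σ _ => Equiv.optionCongr σ) ?_ ?_ ?_ ?_
  · intro σ hσ
    rw [mem_pS] at hσ ⊢
    intro o ho
    cases o with
    | none => simp
    | some x =>
      rw [some_mem_sm] at ho
      simp [hσ x ho]
  · intro σ _ τ _ h
    exact Equiv.optionCongr_injective h
  · intro π hπ
    obtain ⟨σ, h1, h2⟩ := pS_sm T π hπ
    exact ⟨σ, h1, h2⟩
  · intro σ hσ
    rw [mem_pS] at hσ
    rw [rn, ren_ren, ren_ren]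
    apply ren_congr
    intro o
    rw [Function.comp_apply, Function.comp_apply]
    cases o with
    | none => simp [hσ w hw]
    | some a => simp

omit [Fintype A] in
theorem dgc_none (M : ℕ) (T C : Finset A) (w : A) (r : ℕ) :
    dgc M (sm T) ∅ (isn C) (some w) r none = M + 2 := by
  unfold dgc
  rw [if_neg, if_pos (none_mem_isn C)]
  rw [Finset.union_empty]
  exact none_notMem_sm T

omit [Fintype A] in
theorem dgc_some (M : ℕ) (T C : Finset A) (w : A) (r : ℕ) (x : A) :
    dgc M (sm T) ∅ (isn C) (some w) r (some x) = dgc M T ∅ C w r x := by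
  unfold dgc
  simp only [Finset.union_empty, some_mem_sm, some_mem_isn, Option.some.injEq]

omit [Fintype A] in
theorem dgc_T (M : ℕ) (T C : Finset A) (w : A) (r : ℕ) (x : A) (hx : x ∈ T) :
    dgc M T ∅ C w r x = M + 1 := by
  unfold dgc
  rw [if_pos (by rwa [Finset.union_empty])]

omit [Fintype A] in
theorem dgc_C (M : ℕ) (T C : Finset A) (w : A) (r : ℕ) (x : A) (hx : x ∈ C) (hT : x ∉ T) :
    dgc M T ∅ C w r x = M + 2 := by
  unfold dgc
  rw [if_neg (by rwa [Finset.union_empty]), if_pos hx]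

theorem dg_rn (h1 : Stmt_DG) (M β : ℕ) (T C : Finset A) (w : A) (hT : w ∉ T) (hC : w ∉ C)
    (g : PX K (Option A) v) (hg : Dg (dgc M (sm T) ∅ (isn C) (some w) (M + β)) g) :
    Dg (dgc M T ∅ C w (2 * M + 2 + β)) (rn w g) := by
  obtain ⟨-, -, -, -, -, -, -, d8, -⟩ := h1 K (Option A) A v
  have h := d8 _ (fun o : Option A => o.getD w) g hg
  have e : (fun b => ∑ a ∈ Finset.univ.filter (fun a : Option A => a.getD w = b),
      dgc M (sm T) ∅ (isn C) (some w) (M + β) a) = dgc M T ∅ C w (2 * M + 2 + β) := by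
    funext b
    rw [Finset.sum_filter, Fintype.sum_option]
    simp only [Option.getD_none, Option.getD_some, dgc_none, dgc_some]
    rw [Finset.sum_ite_eq' Finset.univ b, if_pos (Finset.mem_univ b)]
    by_cases hb : w = b
    · subst hb
      rw [if_pos rfl]
      unfold dgc
      rw [Finset.union_empty, if_neg hT, if_neg hC, if_pos rfl, if_neg hT, if_neg hC, if_pos rfl]
      ring
    · rw [if_neg hb, zero_add]
      unfold dgc
      have hb' : ¬ b = w := fun h => hb h.symm
      simp only [if_neg hb']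
  rw [e] at h
  exact h

theorem dg_swap (h1 : Stmt_DG) (M β : ℕ) (T C : Finset A) (w c : A) (hc : c ∈ C) (hcT : c ∉ T)
    (g : PX K (Option A) v) (hg : Dg (dgc M (sm T) ∅ (isn C) (some w) (M + β)) g) :
    Dg (dgc M (sm T) ∅ (isn C) (some w) (M + β)) (ren (Equiv.swap none (some c)) g) := by
  obtain ⟨-, -, -, -, -, -, -, -, d9, -⟩ := h1 K (Option A) (Option A) v
  refine d9 _ (Equiv.swap none (some c)) g ?_ hg
  intro a
  have e1 : dgc M (sm T) ∅ (isn C) (some w) (M + β) none = M + 2 := dgc_none M T C w _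
  have e2 : dgc M (sm T) ∅ (isn C) (some w) (M + β) (some c) = M + 2 := by
    rw [dgc_some, dgc_C M T C w _ c hc hcT]
  by_cases ha : a = none
  · rw [ha, Equiv.swap_apply_left, e1, e2]
  · by_cases ha2 : a = some c
    · rw [ha2, Equiv.swap_apply_right, e1, e2]
    · rw [Equiv.swap_apply_of_ne_of_ne ha ha2]

end poly

end GD2

theorem GD2_thm (h1 : Stmt_DG) (h2 : Stmt_SYM) (_h3 : Stmt_GD0) : Stmt_GD2 := by
  intro K _ _ A _ _ v M β T C w g hcf hg
  have hTC : ∀ x, x ∈ C → x ∉ T := fun x hx hx' => Finset.disjoint_left.1 hcf.TC hx' hx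
  obtain ⟨-, d2, -, d4, -⟩ := h1 K A A v
  obtain ⟨d1', -⟩ := h1 K (Option A) (Option A) v
  obtain ⟨-, -, s3, -, -, s6, -, s8, -⟩ := h2 K (Option A) v
  have eT : ∀ x ∈ sm T, dgc M (sm T) ∅ (isn C) (some w) (M + β) x = M + 1 := by
    intro x hx
    cases x with
    | none => exact absurd hx (GD2.none_notMem_sm T)
    | some x =>
      rw [GD2.some_mem_sm] at hx
      rw [GD2.dgc_some, GD2.dgc_T M T C w _ x hx]
  have eC : ∀ x ∈ isn C, dgc M (sm T) ∅ (isn C) (some w) (M + β) x = M + 2 := by
    intro x hx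
    cases x with
    | none => exact GD2.dgc_none M T C w _
    | some x =>
      rw [GD2.some_mem_isn] at hx
      rw [GD2.dgc_some, GD2.dgc_C M T C w _ x hx (hTC x hx)]
  have hdis : Disjoint (isn C) (sm T) := by
    rw [Finset.disjoint_left]
    intro x hx hx'
    have a := eC x hx
    rw [eT x hx'] at a
    omega
  have key : ∀ c ∈ C, ren (fun o => (Equiv.swap none (some c) o : Option A).getD w) g =
      rn w (ren (Equiv.swap none (some c)) g) := by
    intro c _
    rw [rn, ren_ren]
    rfl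
  refine ⟨?_, 0, smz (sm T) (alt (isn C) g), ?_, ?_, ?_⟩
  · refine (d2 _ _ _ (GD2.dg_rn h1 M β T C w hcf.wT hcf.wC g hg) ?_).2
    refine d4 _ _ _ _ fun c hc => ?_
    rw [key c hc]
    exact GD2.dg_rn h1 M β T C w hcf.wT hcf.wC _ (GD2.dg_swap h1 M β T C w c hc (hTC c hc) g hg)
  · refine ⟨⟨d1' _, ?_, ?_, ?_⟩, ?_, ?_⟩
    · intro x _ y _
      rw [map_zero]
    · intro x _ y _ _
      rw [map_zero, neg_zero]
    · intro x _ y _ _
      rw [map_zero, neg_zero]
    · intro x _
      rw [map_zero]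
    · intro x _
      rw [map_zero]
  · refine ⟨?_, ?_, ?_, ?_⟩
    · refine (s8 (sm T) _ _ ?_ ?_).2
      · intro x hx y hy
        rw [eT x hx, eT y hy]
      · refine (s8 (isn C) _ _ ?_ hg).1
        intro x hx y hy
        rw [eC x hx, eC y hy]
    · exact (s3 (sm T) _).1
    · intro x hx
      exact absurd hx (Finset.notMem_empty x)
    · exact (s6 (isn C) (sm T) _ hdis).2.2.2 (s3 (isn C) g).2
  · rw [map_zero, zero_add, GD2.rn_smz T w hcf.wT, GD2.rn_alt C w hcf.wC]

end Pool.Agent.VOP
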