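import Pool.Agent.VOP.StmtsG

/-!
# The Ottaviani-Paoletti conjecture (MP_deb8da_ag), module GD2P: boundaries, new letter in `A`
-/

namespace Pool.Agent.VOP

open MvPolynomial Pool.Agent.VSY

namespace GD2P

variable {A : Type} [Fintype A] [DecidableEq A]

/-- The point `u` becomes the new point. -/
def io (u : A) (x : A) : Option A := if x = u then none else some x

theorem io_self (u : A) : io u u = none := if_pos rfl

theorem io_ne {u x : A} (h : x ≠ u) : io u x = some x := if_neg h

theorem filter_none (u : A) : Finset.univ.filter (fun a => io u a = none) = {u} := by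
  ext a
  rw [Finset.mem_filter, Finset.mem_singleton]
  constructor
  · rintro ⟨-, h⟩
    by_contra hne
    rw [io_ne hne] at h
    exact absurd h (Option.some_ne_none a)
  · rintro rfl
    exact ⟨Finset.mem_univ _, io_self _⟩

theorem filter_self (u : A) : Finset.univ.filter (fun a => io u a = some u) = ∅ := by
  rw [Finset.filter_eq_empty_iff]
  intro a _ h
  by_cases ha : a = u
  · rw [ha, io_self] at h
    exact absurd h.symm (Option.some_ne_none u)
  · rw [io_ne ha] at h
    exact ha (Option.some.inj h)

theorem filter_ne {u x : A} (hx : x ≠ u) :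
    Finset.univ.filter (fun a => io u a = some x) = {x} := by
  ext a
  rw [Finset.mem_filter, Finset.mem_singleton]
  constructor
  · rintro ⟨-, h⟩
    by_cases ha : a = u
    · rw [ha, io_self] at h
      exact absurd h.symm (Option.some_ne_none x)
    · rw [io_ne ha] at h
      exact Option.some.inj h
  · rintro rfl
    exact ⟨Finset.mem_univ _, io_ne hx⟩

theorem mem_sm {S : Finset A} {x : A} : some x ∈ sm S ↔ x ∈ S := by
  simp [sm]

theorem none_sm {S : Finset A} : (none : Option A) ∉ sm S := by
  simp [sm]

theorem mem_isn {S : Finset A} {x : A} : some x ∈ isn S ↔ x ∈ S := by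
  simp [isn, sm]

theorem deg_eq {M : ℕ} {T C : Finset A} {w u : A} {r : ℕ} (hT : u ∉ T) (hC : u ∉ C)
    (hw : u ≠ w) :
    (fun b : Option A => ∑ a ∈ Finset.univ.filter (fun a => io u a = b),
      dgc M T ∅ (insert u C) w r a) = dgc M (sm T) ∅ (isn C) (some w) r := by
  funext b
  cases b with
  | none =>
    rw [filter_none, Finset.sum_singleton]
    unfold dgc
    rw [if_neg, if_pos, if_neg, if_pos]
    · exact Finset.mem_insert_self _ _
    · rw [Finset.union_empty]
      exact none_sm
    · exact Finset.mem_insert_self _ _
    · rw [Finset.union_empty]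
      exact hT
  | some x =>
    by_cases hx : x = u
    · subst hx
      rw [filter_self, Finset.sum_empty]
      unfold dgc
      rw [if_neg, if_neg, if_neg]
      · intro h
        exact hw (Option.some.inj h)
      · rw [mem_isn]
        exact hC
      · rw [Finset.union_empty, mem_sm]
        exact hT
    · rw [filter_ne hx, Finset.sum_singleton]
      unfold dgc
      simp only [Finset.union_empty, mem_sm, mem_isn, Finset.mem_insert, hx, false_or,
        Option.some.injEq]

end GD2P

open GD2P in
theorem GD2P_thm (h1 : Stmt_DG) (h2 : Stmt_GD2) : Stmt_GD2' := by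
  intro K _ _ A _ _ v M β T C w u g hcf hT hC hw hg
  have hd : Dg (dgc M (sm T) ∅ (isn C) (some w) (M + β)) (ren (io u) g) := by
    obtain ⟨-, -, -, -, -, -, -, h8, -⟩ := h1 K A (Option A) v
    rw [← deg_eq hT hC hw]
    exact h8 _ (io u) g hg
  have key := h2 K A v M β T C w (ren (io u) g) hcf hd
  have e1 : rn w (ren (io u) g) = ren (mv u w) g := by
    unfold rn
    rw [ren_ren]
    refine ren_congr (fun x => ?_) g
    by_cases hx : x = u
    · subst hx
      simp only [Function.comp_apply, io_self, Option.getD_none, mv, Function.update_self]
    · simp only [Function.comp_apply, io_ne hx, Option.getD_some, mv,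
        Function.update_of_ne hx, id_eq]
  have e2 : ∀ c ∈ C, ren (fun o => (Equiv.swap none (some c) o : Option A).getD w)
      (ren (io u) g) = ren (mv u w) (ren (Equiv.swap u c) g) := by
    intro c hc
    have hcu : c ≠ u := fun h => hC (h ▸ hc)
    rw [ren_ren, ren_ren]
    refine ren_congr (fun x => ?_) g
    by_cases hx : x = u
    · subst hx
      simp only [Function.comp_apply, io_self, Equiv.swap_apply_left, Option.getD_some, mv,
        Function.update_of_ne hcu, id_eq]
    · by_cases hxc : x = c
      · subst hxc
        simp only [Function.comp_apply, io_ne hx, Equiv.swap_apply_right, Option.getD_none, mv,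
          Function.update_self]
      · simp only [Function.comp_apply, io_ne hx]
        rw [Equiv.swap_apply_of_ne_of_ne (Option.some_ne_none x)
          (fun h => hxc (Option.some.inj h)), Equiv.swap_apply_of_ne_of_ne hx hxc]
        simp only [Option.getD_some, mv, Function.update_of_ne hx, id_eq]
  rw [e1, Finset.sum_congr rfl e2] at key
  exact key

end Pool.Agent.VOP
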