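import Pool.Agent.VOP.StmtsG

/-!
# VOP, GD3: `(G3)`
-/

namespace Pool.Agent.VOP

open MvPolynomial Pool.Agent.VSY

namespace GD3

variable {K : Type} [Field K] {A : Type} {v : ℕ}

/-- the injective renaming `a ↦ none`, `x ↦ some x` -/
def io [DecidableEq A] (a : A) (x : A) : Option A := if x = a then none else some x

theorem io_self [DecidableEq A] (a : A) : io a a = none := if_pos rfl

theorem io_ne [DecidableEq A] {a x : A} (h : x ≠ a) : io a x = some x := if_neg h

theorem io_inj [DecidableEq A] (a : A) : Function.Injective (io a) := by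
  intro x y h
  by_cases hx : x = a
  · by_cases hy : y = a
    · rw [hx, hy]
    · rw [hx, io_self, io_ne hy] at h
      exact absurd h (by simp)
  · by_cases hy : y = a
    · rw [hy, io_self, io_ne hx] at h
      exact absurd h (by simp)
    · rw [io_ne hx, io_ne hy] at h
      exact Option.some_injective _ h

theorem mv_self [DecidableEq A] (a w : A) : mv a w a = w := by simp [mv]

theorem mv_ne [DecidableEq A] {a w x : A} (h : x ≠ a) : mv a w x = x := by simp [mv, h]

/-- renamings commuting with a swap -/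
theorem swap_mv [DecidableEq A] {a w x y : A} (hxa : x ≠ a) (hya : y ≠ a) (hxw : x ≠ w)
    (hyw : y ≠ w) (f : PX K A v) :
    ren (Equiv.swap x y) (ren (mv a w) f) = ren (mv a w) (ren (Equiv.swap x y) f) := by
  rw [ren_ren, ren_ren]
  refine ren_congr (fun z => ?_) f
  show Equiv.swap x y (mv a w z) = mv a w (Equiv.swap x y z)
  by_cases hz : z = a
  · subst hz
    rw [mv_self, Equiv.swap_apply_of_ne_of_ne hxw.symm hyw.symm,
      Equiv.swap_apply_of_ne_of_ne hxa.symm hya.symm, mv_self]
  · rw [mv_ne hz]
    have h : Equiv.swap x y z ≠ a := by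
      intro h
      have h2 := congrArg (Equiv.swap x y) h
      rw [Equiv.swap_apply_self, Equiv.swap_apply_of_ne_of_ne hxa.symm hya.symm] at h2
      exact hz h2
    rw [mv_ne h]

theorem mv_mv [DecidableEq A] {a u w : A} (hau : a ≠ u) (haw : a ≠ w) (huw : u ≠ w)
    (f : PX K A v) : ren (mv u w) (ren (mv a w) f) = ren (mv a w) (ren (mv u w) f) := by
  rw [ren_ren, ren_ren]
  refine ren_congr (fun z => ?_) f
  show mv u w (mv a w z) = mv a w (mv u w z)
  by_cases hz : z = a
  · subst hz
    rw [mv_self, mv_ne huw.symm, mv_ne hau, mv_self]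
  · rw [mv_ne hz]
    by_cases hu : z = u
    · subst hu
      rw [mv_self, mv_ne haw.symm]
    · rw [mv_ne hu, mv_ne hz]

theorem swap_io [DecidableEq A] (a x y : A) (f : PX K A v) :
    ren (Equiv.swap (io a x) (io a y)) (ren (io a) f) = ren (io a) (ren (Equiv.swap x y) f) := by
  rw [ren_ren, ren_ren, (io_inj a).swap_comp]

theorem mv_io [DecidableEq A] {a c w : A} (hac : c ≠ a) (haw : a ≠ w) (f : PX K A v) :
    ren (mv (some c) (some w)) (ren (io a) f) = ren (io a) (ren (mv c w) f) := by
  rw [ren_ren, ren_ren]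
  refine ren_congr (fun z => ?_) f
  show mv (some c) (some w) (io a z) = io a (mv c w z)
  by_cases hz : z = a
  · subst hz
    rw [io_self, mv_ne (by simp), mv_ne hac.symm, io_self]
  · rw [io_ne hz]
    by_cases hu : z = c
    · subst hu
      rw [mv_self, mv_self, io_ne haw.symm]
    · rw [mv_ne (by simpa using hu), mv_ne hu, io_ne hz]

theorem fib_mv [Fintype A] [DecidableEq A] {M r : ℕ} {T C : Finset A} {w a : A}
    (hc : Cf T ∅ C w) (hT : a ∉ T) (hC : a ∉ C) (haw : a ≠ w) :
    (fun b => ∑ x ∈ Finset.univ.filter (fun x => mv a w x = b),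
      dgc M (insert a T) ∅ C w r x) = dgc M T ∅ C w (M + 1 + r) := by
  funext b
  by_cases hb : b = w
  · subst hb
    have h : (Finset.univ.filter fun x => mv a b x = b) = {a, b} := by
      ext x
      simp only [Finset.mem_filter, Finset.mem_univ, true_and, Finset.mem_insert,
        Finset.mem_singleton]
      by_cases hx : x = a
      · simp [hx, mv_self]
      · simp [mv_ne hx, hx]
    rw [h, Finset.sum_pair haw]
    have h1 : dgc M (insert a T) ∅ C b r a = M + 1 := by simp [dgc]
    have h2 : dgc M (insert a T) ∅ C b r b = r := by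
      simp [dgc, hc.wT, hc.wC, haw.symm]
    have h3 : dgc M T ∅ C b (M + 1 + r) b = M + 1 + r := by
      simp [dgc, hc.wT, hc.wC]
    rw [h1, h2, h3]
  · by_cases hba : b = a
    · subst hba
      have h : (Finset.univ.filter fun x => mv b w x = b) = ∅ := by
        ext x
        simp only [Finset.mem_filter, Finset.mem_univ, true_and, Finset.notMem_empty, iff_false]
        by_cases hx : x = b
        · rw [hx, mv_self]; exact haw.symm
        · rw [mv_ne hx]; exact hx
      rw [h, Finset.sum_empty]
      simp [dgc, hT, hC, haw]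
    · have h : (Finset.univ.filter fun x => mv a w x = b) = {b} := by
        ext x
        simp only [Finset.mem_filter, Finset.mem_univ, true_and, Finset.mem_singleton]
        by_cases hx : x = a
        · rw [hx, mv_self]
          exact ⟨fun h => absurd h.symm hb, fun h => absurd h.symm hba⟩
        · rw [mv_ne hx]
      rw [h, Finset.sum_singleton]
      simp [dgc, hb, hba]

theorem fib_io [Fintype A] [DecidableEq A] {M r : ℕ} {T C : Finset A} {w a : A}
    (hT : a ∉ T) (hC : a ∉ C) (haw : a ≠ w) :
    (fun b => ∑ x ∈ Finset.univ.filter (fun x => io a x = b),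
      dgc M (insert a T) ∅ C w r x) = dgc M (isn T) ∅ (sm C) (some w) r := by
  funext b
  rcases b with _ | b
  · have h : (Finset.univ.filter fun x => io a x = none) = {a} := by
      ext x
      simp only [Finset.mem_filter, Finset.mem_univ, true_and, Finset.mem_singleton]
      by_cases hx : x = a
      · simp [hx, io_self]
      · simp [io_ne hx, hx]
    rw [h, Finset.sum_singleton]
    simp [dgc, isn]
  · by_cases hba : b = a
    · subst hba
      have h : (Finset.univ.filter fun x => io b x = some b) = ∅ := by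
        ext x
        simp only [Finset.mem_filter, Finset.mem_univ, true_and, Finset.notMem_empty, iff_false]
        by_cases hx : x = b
        · rw [hx, io_self]; simp
        · rw [io_ne hx]; simpa using hx
      rw [h, Finset.sum_empty]
      simp [dgc, isn, sm, hT, hC, haw]
    · have h : (Finset.univ.filter fun x => io a x = some b) = {b} := by
        ext x
        simp only [Finset.mem_filter, Finset.mem_univ, true_and, Finset.mem_singleton]
        by_cases hx : x = a
        · rw [hx, io_self]
          exact ⟨fun h => absurd h (by simp), fun h => absurd h.symm hba⟩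
        · rw [io_ne hx]; simp
      rw [h, Finset.sum_singleton]
      simp [dgc, isn, sm, hba]

end GD3

open GD3 in
theorem GD3_thm (h1 : Stmt_DG) (h2 : Stmt_SYM) (h3 : Stmt_GD0) : Stmt_GD3 := by
  intro K _ _ A _ _ v M β T C w a E hc hT hC haw hE
  obtain ⟨-, -, -, -, -, -, -, hgd⟩ := h3 K A v M β T C w hc
  obtain ⟨hd0, -⟩ := h1 K A A v
  obtain ⟨-, -, -, -, -, -, -, hdr, -⟩ := h1 K A A v
  obtain ⟨-, -, -, -, -, -, -, hdr', -⟩ := h1 K A (Option A) v
  obtain ⟨hd0', -⟩ := h1 K (Option A) A v
  have hTa : ∀ x ∈ T, x ≠ a ∧ x ≠ w := fun x hx =>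
    ⟨fun h => hT (h ▸ hx), fun h => hc.wT (h ▸ hx)⟩
  have hCa : ∀ x ∈ C, x ≠ a ∧ x ≠ w := fun x hx =>
    ⟨fun h => hC (h ▸ hx), fun h => hc.wC (h ▸ hx)⟩
  have hZ : Zc M T ∅ C w (2 * M + 2 + β) (ren (mv a w) E) := by
    refine ⟨⟨?_, ?_, ?_, ?_⟩, ?_, ?_⟩
    · have h := hdr _ (mv a w) E hE.cg.dg
      rw [fib_mv hc hT hC haw] at h
      have he : M + 1 + (M + 1 + β) = 2 * M + 2 + β := by ring
      rw [he] at h
      exact h
    · intro x hx y hy
      rw [swap_mv (hTa x hx).1 (hTa y hy).1 (hTa x hx).2 (hTa y hy).2,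
        hE.cg.sy x (Finset.mem_insert_of_mem hx) y (Finset.mem_insert_of_mem hy)]
    · intro x hx
      exact absurd hx (Finset.notMem_empty x)
    · intro x hx y hy hxy
      rw [swap_mv (hCa x hx).1 (hCa y hy).1 (hCa x hx).2 (hCa y hy).2,
        hE.cg.alC x hx y hy hxy, map_neg]
    · intro x hx
      exact absurd hx (Finset.notMem_empty x)
    · intro u hu
      rw [mv_mv (hCa u hu).1.symm haw (hCa u hu).2, hE.cyC u hu, map_zero]
  rw [hgd _ hZ]
  refine ⟨ren (io a) E, 0, ⟨⟨?_, ?_, ?_, ?_⟩, ?_, ?_⟩, ⟨hd0' _, ?_, ?_, ?_⟩, ?_⟩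
  · have h := hdr' _ (io a) E hE.cg.dg
    rw [fib_io hT hC haw] at h
    exact h
  · have key : ∀ x ∈ isn T, ∃ x' ∈ insert a T, io a x' = x := by
      intro x hx
      rcases Finset.mem_insert.1 hx with rfl | hx
      · exact ⟨a, Finset.mem_insert_self _ _, io_self a⟩
      · obtain ⟨x', hx', rfl⟩ := Finset.mem_map.1 hx
        exact ⟨x', Finset.mem_insert_of_mem hx', io_ne (hTa x' hx').1⟩
    intro x hx y hy
    obtain ⟨x', hx', rfl⟩ := key x hx
    obtain ⟨y', hy', rfl⟩ := key y hy
    rw [swap_io, hE.cg.sy x' hx' y' hy']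
  · intro x hx
    exact absurd hx (Finset.notMem_empty x)
  · have key : ∀ x ∈ sm C, ∃ x' ∈ C, io a x' = x := by
      intro x hx
      obtain ⟨x', hx', rfl⟩ := Finset.mem_map.1 hx
      exact ⟨x', hx', io_ne (hCa x' hx').1⟩
    intro x hx y hy hxy
    obtain ⟨x', hx', rfl⟩ := key x hx
    obtain ⟨y', hy', rfl⟩ := key y hy
    rw [swap_io, hE.cg.alC x' hx' y' hy' (fun h => hxy (by rw [h])), map_neg]
  · intro x hx
    exact absurd hx (Finset.notMem_empty x)
  · intro u hu
    obtain ⟨c, hc', rfl⟩ := Finset.mem_map.1 hu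
    show ren (mv (some c) (some w)) (ren (io a) E) = 0
    rw [mv_io (hCa c hc').1 haw, hE.cyC c hc', map_zero]
  · intro x _ y _
    exact map_zero _
  · intro x hx
    exact absurd hx (Finset.notMem_empty x)
  · intro x _ y _ _
    rw [map_zero, neg_zero]
  · rw [map_zero, add_zero]
    show ren (mv a w) E = ren (fun o : Option A => o.getD w) (ren (io a) E)
    rw [ren_ren]
    refine ren_congr (fun z => ?_) E
    show mv a w z = (io a z).getD w
    by_cases hz : z = a
    · subst hz
      rw [mv_self, io_self]; rfl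
    · rw [mv_ne hz, io_ne hz]; rfl

end Pool.Agent.VOP
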