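import Pool.Agent.VOP.StmtsW
import Pool.Agent.VOP.DG

/-!
# Module GEN: cycles are in the ideal `I_0`
-/

namespace Pool.Agent.VOP

open MvPolynomial Pool.Agent.VSY

namespace GEN

variable {K : Type} [Field K] {A B : Type}

theorem ren_X (φ : A → B) (p : A) (i : Fin 3) :
    ren φ (X (p, i) : PX K A 3) = X (φ p, i) := by
  rw [ren, rename_X, Prod.map_apply, id]

theorem ren_cr (φ : A → B) (p q : A) (i : Fin 3) :
    ren φ (cr K p q i) = cr K (φ p) (φ q) i := by
  simp only [cr, map_sub, map_mul, ren_X]

theorem sum_left (u w : A) : ∑ i, cr K u w i * X (u, i) = 0 := by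
  rw [Fin.sum_univ_three]
  have e1 : (1 : Fin 3) + 1 = 2 := rfl
  have e2 : (1 : Fin 3) + 2 = 0 := rfl
  have e3 : (2 : Fin 3) + 1 = 0 := rfl
  have e4 : (2 : Fin 3) + 2 = 1 := rfl
  simp only [cr, e1, e2, e3, e4, zero_add]
  ring

theorem sum_right (u w : A) : ∑ i, cr K u w i * X (w, i) = 0 := by
  rw [Fin.sum_univ_three]
  have e1 : (1 : Fin 3) + 1 = 2 := rfl
  have e2 : (1 : Fin 3) + 2 = 0 := rfl
  have e3 : (2 : Fin 3) + 1 = 0 := rfl
  have e4 : (2 : Fin 3) + 2 = 1 := rfl
  simp only [cr, e1, e2, e3, e4, zero_add]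
  ring

theorem cr_ne_zero [DecidableEq A] {u w : A} (h : u ≠ w) : cr K u w 0 ≠ 0 := by
  intro h0
  have h1 := congrArg (eval (fun y : A × Fin 3 =>
    if y = (u, 1) then (1 : K) else if y = (w, 2) then 1 else 0)) h0
  have e1 : ((u, 2) : A × Fin 3) ≠ (u, 1) := by simp
  have e2 : ((w, 1) : A × Fin 3) ≠ (u, 1) := by
    intro h2
    exact h (congrArg Prod.fst h2).symm
  have e3 : ((w, 2) : A × Fin 3) ≠ (u, 1) := by simp
  have e4 : ((u, 2) : A × Fin 3) ≠ (w, 2) := by
    intro h2
    exact h (congrArg Prod.fst h2)
  simp only [cr, map_sub, map_mul, eval_X, zero_add, if_true, if_neg e1, if_neg e3,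
    if_neg e4, map_zero, zero_mul, sub_zero, mul_one] at h1
  exact one_ne_zero h1

theorem pair_zero [DecidableEq A] {u w : A} (h : u ≠ w) {a b : PX K A 3}
    (h0 : ∀ i : Fin 3, a * X (w, i) + b * X (u, i) = 0) : a = 0 ∧ b = 0 := by
  have h1 : a * cr K u w 0 = 0 := by
    have e1 := h0 1
    have e2 := h0 2
    simp only [cr, zero_add]
    linear_combination X (u, 1) * e2 - X (u, 2) * e1
  have h2 : a = 0 := by
    rcases mul_eq_zero.1 h1 with h2 | h2
    · exact h2
    · exact absurd h2 (cr_ne_zero h)
  refine ⟨h2, ?_⟩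
  have h3 := h0 0
  rw [h2, zero_mul, zero_add] at h3
  rcases mul_eq_zero.1 h3 with h4 | h4
  · exact h4
  · exact absurd h4 (X_ne_zero _)

theorem mv_same [DecidableEq A] (s w : A) : mv s w s = w := by
  rw [mv, Function.update_self]

theorem mv_other [DecidableEq A] {s x : A} (w : A) (h : x ≠ s) : mv s w x = x := by
  rw [mv, Function.update_of_ne h, id]

/-- Degrees after moving `s` to `w`. -/
theorem dg_mv [Fintype A] [DecidableEq A] {δ : A → ℕ} {s w : A} (h : s ≠ w) {f : PX K A 3}
    (hf : Dg δ f) :
    Dg (Function.update (Function.update δ s 0) w (δ w + δ s)) (ren (mv s w) f) := by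
  have h1 := DG.ren_push δ (mv s w) f hf
  have h2 : (fun b => ∑ a ∈ Finset.univ.filter (fun a => mv s w a = b), δ a) =
      Function.update (Function.update δ s 0) w (δ w + δ s) := by
    funext b
    by_cases hb : b = w
    · subst hb
      rw [Function.update_self]
      have h3 : (Finset.univ.filter fun a => mv s b a = b) = {b, s} := by
        ext a
        rw [Finset.mem_filter, Finset.mem_insert, Finset.mem_singleton]
        constructor
        · rintro ⟨-, h4⟩
          by_cases ha : a = s
          · exact Or.inr ha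
          · rw [mv_other _ ha] at h4
            exact Or.inl h4
        · rintro (rfl | rfl)
          · exact ⟨Finset.mem_univ _, mv_other _ h.symm⟩
          · exact ⟨Finset.mem_univ _, mv_same _ _⟩
      rw [h3, Finset.sum_pair h.symm]
    · rw [Function.update_of_ne hb]
      by_cases hs : b = s
      · subst hs
        rw [Function.update_self]
        refine Finset.sum_eq_zero fun a ha => ?_
        rw [Finset.mem_filter] at ha
        exfalso
        by_cases hab : a = b
        · rw [hab, mv_same] at ha
          exact h ha.2.symm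
        · rw [mv_other _ hab] at ha
          exact hab ha.2
      · rw [Function.update_of_ne hs]
        have h3 : (Finset.univ.filter fun a => mv s w a = b) = {b} := by
          ext a
          rw [Finset.mem_filter, Finset.mem_singleton]
          constructor
          · rintro ⟨-, h4⟩
            by_cases ha : a = s
            · rw [ha, mv_same] at h4
              exact absurd h4.symm hb
            · rw [mv_other _ ha] at h4
              exact h4
          · rintro rfl
            exact ⟨Finset.mem_univ _, mv_other _ hs⟩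
        rw [h3, Finset.sum_singleton]
  rwa [h2] at h1

/-- Degrees after moving the new point to `s`. -/
theorem dg_getD [Fintype A] [DecidableEq A] {δ : A → ℕ} {s w : A} {r e : ℕ} (h : s ≠ w)
    (h0 : δ s = 0) {Y : PX K (Option A) 3} (hY : Dg (ext δ r w e) Y) :
    Dg (Function.update (Function.update δ s r) w e) (ren (fun o : Option A => o.getD s) Y) := by
  have h1 := DG.ren_push (ext δ r w e) (fun o : Option A => o.getD s) Y hY
  have h2 : (fun b => ∑ o ∈ Finset.univ.filter (fun o : Option A => o.getD s = b),
      ext δ r w e o) = Function.update (Function.update δ s r) w e := by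
    funext b
    by_cases hs : b = s
    · subst hs
      rw [Function.update_of_ne h, Function.update_self]
      have h3 : (Finset.univ.filter fun o : Option A => o.getD b = b) = {none, some b} := by
        ext o
        rw [Finset.mem_filter, Finset.mem_insert, Finset.mem_singleton]
        cases o with
        | none => simp
        | some x => simp
      rw [h3, Finset.sum_pair (by simp)]
      simp only [ext, if_neg h, h0, add_zero]
    · have h3 : (Finset.univ.filter fun o : Option A => o.getD s = b) = {some b} := by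
        ext o
        rw [Finset.mem_filter, Finset.mem_singleton]
        cases o with
        | none => simp [Ne.symm hs]
        | some x => simp
      rw [h3, Finset.sum_singleton]
      by_cases hb : b = w
      · subst hb
        rw [Function.update_self]
        simp only [ext, if_true]
      · rw [Function.update_of_ne hb, Function.update_of_ne hs]
        simp only [ext, if_neg hb]
  rwa [h2] at h1

/-- The lift of a cycle in `I_0`. -/
theorem lift [CharZero K] [Fintype A] [DecidableEq A] (h3 : Stmt_EXT) {δ : A → ℕ}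
    {Γ : Finset A} {w s : A} {r e : ℕ} {α : PX K A 3} (hw : w ∉ Γ) (hs : s ∉ Γ) (hsw : s ≠ w)
    (h0 : δ s = 0) (hre : δ w = r + e) (hc : Γ.card ≤ e) (hα : Dg δ α)
    (hI : α ∈ IB K w 0 Γ) :
    ∃ a : PX K A 3, Dg (Function.update (Function.update δ s r) w e) a ∧
      (∀ t ∈ Γ, ren (mv t w) a = 0) ∧ ren (mv s w) a = α := by
  obtain ⟨Y, hY, hY1, hY2⟩ := h3 K A δ Γ w 0 r e α hw hre hc hα hI
  refine ⟨ren (fun o : Option A => o.getD s) Y, dg_getD hsw h0 hY, ?_, ?_⟩
  · intro t ht
    have hts : s ≠ t := by
      rintro rfl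
      exact hs ht
    rw [ren_ren]
    have h4 : ren (mv t w ∘ fun o : Option A => o.getD s) Y =
        ren ((fun o : Option A => o.getD s) ∘ mv (some t) (some w)) Y := by
      refine ren_congr (fun o => ?_) Y
      cases o with
      | none =>
        simp only [Function.comp, Option.getD_none]
        rw [mv_other _ hts, mv_other _ (by simp : (none : Option A) ≠ some t)]
        rfl
      | some x =>
        simp only [Function.comp, Option.getD_some]
        by_cases hx : x = t
        · subst hx
          rw [mv_same, mv_same]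
          rfl
        · rw [mv_other _ hx, mv_other _ (by simpa using hx : (some x : Option A) ≠ some t)]
          rfl
    rw [h4, ← ren_ren, hY1 t ht, map_zero]
  · rw [ren_ren, ← hY2, rn]
    refine DG.ren_eq (ext δ r w e) _ _ Y (fun o ho => ?_) hY
    cases o with
    | none =>
      simp only [Function.comp, Option.getD_none]
      exact mv_same _ _
    | some x =>
      simp only [Function.comp, Option.getD_some]
      have hx : x ≠ s := by
        rintro rfl
        apply ho
        simp only [ext, if_neg hsw, h0]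
      exact mv_other _ hx

/-- Multiplication by a coordinate raises the degree by one. -/
theorem dg_mul_X [DecidableEq A] {δ δ' : A → ℕ} {p : A} {i : Fin 3} {a : PX K A 3}
    (ha : Dg δ a) (h : ∀ x, δ' x = δ x + if x = p then 1 else 0) :
    Dg δ' (a * X (p, i)) := by
  have h1 := DG.mul ha (DG.var (K := K) p i)
  have h2 : (fun x => δ x + (Pi.single p 1 : A → ℕ) x) = δ' := by
    funext x
    rw [h x]
    by_cases hx : x = p
    · subst hx
      rw [Pi.single_eq_same, if_pos rfl]
    · rw [Pi.single_eq_of_ne hx, if_neg hx]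
  rwa [h2] at h1

theorem ren_comm [DecidableEq A] {s t w : A} (hsw : s ≠ w) (htw : t ≠ w) (hst : s ≠ t)
    (f : PX K A 3) :
    ren (mv t w) (ren (mv s w) f) = ren (mv s w) (ren (mv t w) f) := by
  rw [ren_ren, ren_ren]
  refine ren_congr (fun x => ?_) f
  simp only [Function.comp]
  by_cases hs : x = s
  · subst hs
    rw [mv_same, mv_other _ htw.symm, mv_other _ hst, mv_same]
  · rw [mv_other _ hs]
    by_cases ht : x = t
    · subst ht
      rw [mv_same, mv_other _ hsw.symm]
    · rw [mv_other _ ht, mv_other _ hs]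

/-- The inner claim. -/
theorem inner [CharZero K] [Fintype A] [DecidableEq A] (h1 : Stmt_CRV) (h2 : Stmt_CRX)
    (h3 : Stmt_EXT) {δ : A → ℕ} {Λ : Finset A} {u w : A} {f : PX K A 3} (hwΛ : w ∉ Λ)
    (hu : u ∈ Λ) (hc : Λ.card ≤ δ w) (hf : Dg δ f) (hcy : Cy Λ w f) (hf0 : f ≠ 0)
    (IH : ∀ Γ : Finset A, Γ ⊂ Λ → ∀ (δ : A → ℕ) (f : PX K A 3), Γ.card ≤ δ w → Dg δ f →
      Cy Γ w f → f ∈ IB K w 0 Γ) :
    ∀ Γ : Finset A, Γ ⊆ Λ.erase u → ∃ h : Fin 3 → PX K A 3,
      (∀ i, Dg (Function.update (Function.update δ u (δ u - 1)) w (δ w - 1)) (h i)) ∧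
      (∀ i, ∀ t ∈ Γ, ren (mv t w) (h i) = 0) ∧ f = ∑ i, cr K u w i * h i := by
  have huw : u ≠ w := by
    rintro rfl
    exact hwΛ hu
  obtain ⟨hd, h, hh1, hh2⟩ := h1 K A δ u w f huw hf (hcy u hu)
  obtain ⟨hdu, hdw⟩ := hd hf0
  intro Γ
  induction Γ using Finset.induction_on with
  | empty =>
    intro _
    exact ⟨h, hh1, fun i t ht => absurd ht (Finset.notMem_empty t), hh2⟩
  | insert s Γ hs ih =>
    intro hsub
    clear h hh1 hh2
    have hΓ : Γ ⊆ Λ.erase u := (Finset.subset_insert s Γ).trans hsub
    have hsΛ' := hsub (Finset.mem_insert_self s Γ)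
    have hsu : s ≠ u := (Finset.mem_erase.1 hsΛ').1
    have hsΛ : s ∈ Λ := (Finset.mem_erase.1 hsΛ').2
    have hsw : s ≠ w := by
      rintro rfl
      exact hwΛ hsΛ
    have hwΓ : w ∉ Γ := fun h => hwΛ (Finset.mem_erase.1 (hΓ h)).2
    have hcard : Γ.card + 2 ≤ δ w := by
      have e1 := Finset.card_le_card hsub
      rw [Finset.card_insert_of_notMem hs, Finset.card_erase_of_mem hu] at e1
      have e2 : 1 ≤ Λ.card := Finset.card_pos.2 ⟨u, hu⟩
      omega
    have hΓΛ : Γ ⊂ Λ := by
      refine ⟨hΓ.trans (Finset.erase_subset u Λ), fun h => ?_⟩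
      exact (Finset.notMem_erase u Λ) (hΓ (h hu))
    obtain ⟨h, hh1, hh2, hh3⟩ := ih hΓ
    -- the degrees of `h' i`
    set δh : A → ℕ := Function.update (Function.update δ u (δ u - 1)) w (δ w - 1) with hδh
    set δ' : A → ℕ := Function.update (Function.update δh s 0) w (δh w + δh s) with hδ'
    have ehw : δh w = δ w - 1 := by
      rw [hδh, Function.update_self]
    have ehs : δh s = δ s := by
      rw [hδh, Function.update_of_ne hsw, Function.update_of_ne hsu]
    have ehu : δh u = δ u - 1 := by
      rw [hδh, Function.update_of_ne huw, Function.update_self]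
    have e'w : δ' w = δ w - 1 + δ s := by
      rw [hδ', Function.update_self, ehw, ehs]
    have e's : δ' s = 0 := by
      rw [hδ', Function.update_of_ne hsw, Function.update_self]
    have e'x : ∀ x, x ≠ w → x ≠ s → δ' x = δh x := by
      intro x hx hx'
      rw [hδ', Function.update_of_ne hx, Function.update_of_ne hx']
    have e'u : δ' u = δ u - 1 := by
      rw [e'x u huw hsu.symm, ehu]
    have hg : ∀ i, Dg δ' (ren (mv s w) (h i)) := fun i => dg_mv hsw (hh1 i)
    have hsum : ∑ i, cr K u w i * ren (mv s w) (h i) = 0 := by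
      have e1 := hcy s hsΛ
      rw [hh3, map_sum] at e1
      rw [← e1]
      refine Finset.sum_congr rfl fun i _ => ?_
      rw [map_mul, ren_cr, mv_other _ hsu.symm, mv_other _ hsw.symm]
    obtain ⟨α, β, hα, hβ, hα0, hβ0, hαβ⟩ := h2 K A δ' u w (fun i => ren (mv s w) (h i)) huw hg hsum
    have hkill : ∀ t ∈ Γ, ren (mv t w) α = 0 ∧ ren (mv t w) β = 0 := by
      intro t ht
      have htu : t ≠ u := (Finset.mem_erase.1 (hΓ ht)).1
      have htw : t ≠ w := by
        rintro rfl
        exact hwΓ ht
      have hst : s ≠ t := by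
        rintro rfl
        exact hs ht
      refine pair_zero huw fun i => ?_
      have e1 := congrArg (ren (mv t w)) (hαβ i)
      rw [ren_comm hsw htw hst, hh2 i t ht, map_zero, map_add, map_mul, map_mul, ren_X, ren_X,
        mv_other _ htu.symm, mv_other _ htw.symm] at e1
      exact e1.symm
    -- the lift of `α`
    have hαI : α ∈ IB K w 0 Γ := by
      refine IH Γ hΓΛ (Function.update δ' w (δ' w - 1)) α ?_ hα fun t ht => (hkill t ht).1
      rw [Function.update_self, e'w]
      omega
    have hβI : β ∈ IB K w 0 Γ := by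
      refine IH Γ hΓΛ (Function.update δ' u (δ' u - 1)) β ?_ hβ fun t ht => (hkill t ht).2
      rw [Function.update_of_ne huw.symm, e'w]
      omega
    obtain ⟨a, ha1, ha2, ha3⟩ := lift (s := s) (r := δ s) (e := δ w - 2) h3 hwΓ hs hsw
      (by rw [Function.update_of_ne hsw, e's])
      (by rw [Function.update_self, e'w]; omega) (by omega) hα hαI
    have hb : ∃ b : PX K A 3, (∀ i : Fin 3, Dg δh (b * X (u, i))) ∧
        (∀ t ∈ Γ, ren (mv t w) b = 0) ∧ ren (mv s w) b = β := by
      by_cases hu2 : δ u - 1 = 0
      · refine ⟨0, fun i => ?_, fun t _ => map_zero _, ?_⟩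
        · rw [zero_mul]
          exact DG.zero δh
        · rw [map_zero, hβ0 (by rw [e'u, hu2])]
      · obtain ⟨b, hb1, hb2, hb3⟩ := lift (s := s) (r := δ s) (e := δ w - 1) h3 hwΓ hs hsw
          (by rw [Function.update_of_ne hsu, e's])
          (by rw [Function.update_of_ne huw.symm, e'w]; omega) (by omega) hβ hβI
        refine ⟨b, fun i => dg_mul_X hb1 fun x => ?_, hb2, hb3⟩
        by_cases hxw : x = w
        · subst hxw
          rw [Function.update_self, if_neg huw.symm, ehw, add_zero]
        · rw [Function.update_of_ne hxw]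
          by_cases hxs : x = s
          · subst hxs
            rw [Function.update_self, if_neg hsu, ehs, add_zero]
          · rw [Function.update_of_ne hxs]
            by_cases hxu : x = u
            · subst hxu
              rw [Function.update_self, if_pos rfl, e'u, ehu]
              omega
            · rw [Function.update_of_ne hxu, if_neg hxu, e'x x hxw hxs, add_zero]
    obtain ⟨b, hb1, hb2, hb3⟩ := hb
    have ha4 : ∀ i : Fin 3, Dg δh (a * X (w, i)) := by
      intro i
      refine dg_mul_X ha1 fun x => ?_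
      by_cases hxw : x = w
      · subst hxw
        rw [Function.update_self, if_pos rfl, ehw]
        omega
      · rw [Function.update_of_ne hxw, if_neg hxw, add_zero]
        by_cases hxs : x = s
        · subst hxs
          rw [Function.update_self, ehs]
        · rw [Function.update_of_ne hxs, Function.update_of_ne hxw, e'x x hxw hxs]
    refine ⟨fun i => h i - a * X (w, i) - b * X (u, i),
      fun i => DG.sub (DG.sub (hh1 i) (ha4 i)) (hb1 i), ?_, ?_⟩
    · intro i t ht
      rw [map_sub, map_sub, map_mul, map_mul]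
      rcases Finset.mem_insert.1 ht with rfl | ht
      · rw [ha3, hb3, ren_X, ren_X, mv_other _ hsu.symm, mv_other _ hsw.symm]
        have e1 := hαβ i
        rw [e1]
        ring
      · rw [hh2 i t ht, ha2 t ht, hb2 t ht]
        ring
    · have e1 : ∑ i, cr K u w i * (h i - a * X (w, i) - b * X (u, i)) =
          ∑ i, cr K u w i * h i - a * ∑ i, cr K u w i * X (w, i) -
            b * ∑ i, cr K u w i * X (u, i) := by
        rw [Finset.mul_sum, Finset.mul_sum, ← Finset.sum_sub_distrib, ← Finset.sum_sub_distrib]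
        refine Finset.sum_congr rfl fun i _ => ?_
        ring
      rw [e1, sum_left, sum_right, mul_zero, mul_zero, sub_zero, sub_zero]
      exact hh3

end GEN

theorem GEN_thm (h1 : Stmt_CRV) (h2 : Stmt_CRX) (h3 : Stmt_EXT) : Stmt_GEN := by
  intro K _ _ A _ _ δ Λ w f hw hc hf hcy
  revert δ f
  induction Λ using Finset.strongInduction with
  | H Λ IH =>
    intro δ f hc hf hcy
    by_cases hf0 : f = 0
    · rw [hf0]
      exact Ideal.zero_mem _
    rcases Λ.eq_empty_or_nonempty with rfl | ⟨u, hu⟩
    · rw [IB, Finset.prod_empty, Ideal.one_eq_top]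
      exact Submodule.mem_top
    have hdw : 1 ≤ δ w := by
      have e2 : 1 ≤ Λ.card := Finset.card_pos.2 ⟨u, hu⟩
      omega
    have IH' : ∀ Γ : Finset A, Γ ⊂ Λ → ∀ (δ : A → ℕ) (f : PX K A 3), Γ.card ≤ δ w → Dg δ f →
        Cy Γ w f → f ∈ IB K w 0 Γ :=
      fun Γ hΓ δ f hc hf hcy => IH Γ hΓ (fun h => hw (hΓ.1 h)) δ f hc hf hcy
    obtain ⟨h, hh1, hh2, hh3⟩ := GEN.inner h1 h2 h3 hw hu hc hf hcy hf0 IH' (Λ.erase u)
      (Finset.Subset.refl _)
    have hI : ∀ i, h i ∈ IB K w 0 (Λ.erase u) := by
      intro i
      refine IH' (Λ.erase u) (Finset.erase_ssubset hu) _ (h i) ?_ (hh1 i) fun t ht => hh2 i t ht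
      rw [Function.update_self, Finset.card_erase_of_mem hu]
      omega
    have hprod : IB K w 0 Λ = Ideal.span (Set.range (cr K u w)) * IB K w 0 (Λ.erase u) := by
      rw [IB, IB, Finset.mul_prod_erase Λ (fun s => Ideal.span (Set.range (cr K s w))) hu]
    rw [hprod, hh3]
    refine Ideal.sum_mem _ fun i _ => ?_
    exact Ideal.mul_mem_mul (Ideal.subset_span ⟨i, rfl⟩) (hI i)

end Pool.Agent.VOP
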