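import Pool.Agent.VOP.StmtsN

/-!
# The Ottaviani-Paoletti conjecture (MP_deb8da_ag): HF, the step `CLAIM^H(i+1) → CLAIM^H(i)`
-/

namespace Pool.Agent.VOP

open MvPolynomial Pool.Agent.VSY

namespace HF

variable {K : Type} [Field K] {A : Type} [Fintype A] [DecidableEq A] {v : ℕ}

omit [Fintype A] [DecidableEq A] in
theorem lin_single (k : Fin v) (p : A) :
    (lin (Pi.single k (1 : K)) p : PX K A v) = X (p, k) := by
  unfold lin
  rw [Finset.sum_eq_single k]
  · simp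
  · intro i _ hi
    rw [Pi.single_eq_of_ne hi, C_0, zero_mul]
  · intro h
    exact absurd (Finset.mem_univ k) h

omit [Fintype A] [DecidableEq A] in
theorem xS_single (k : Fin v) (S : Finset A) :
    (xS (Pi.single k (1 : K)) S : PX K A v) = ∏ p ∈ S, X (p, k) := by
  unfold xS
  exact Finset.prod_congr rfl fun p _ => lin_single k p

theorem single_ne (k : Fin v) : (Pi.single k (1 : K) : Fin v → K) ≠ 0 := by
  intro h
  have := congrFun h k
  rw [Pi.single_eq_same] at this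
  exact one_ne_zero this

theorem map_inter {D : Finset A} {π : Equiv.Perm A} (h : ∀ z, π z ∈ D ↔ z ∈ D)
    (J : Finset A) : ((J.map π.toEmbedding) ∩ D).card = (J ∩ D).card := by
  have e : (J.map π.toEmbedding) ∩ D = (J ∩ D).map π.toEmbedding := by
    ext z
    simp only [Finset.mem_inter, Finset.mem_map, Equiv.coe_toEmbedding]
    constructor
    · rintro ⟨⟨y, hy, rfl⟩, hz⟩
      exact ⟨y, ⟨hy, (h y).1 hz⟩, rfl⟩
    · rintro ⟨y, ⟨hy, hyD⟩, rfl⟩
      exact ⟨⟨y, hy, rfl⟩, (h y).2 hyD⟩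
  rw [e, Finset.card_map]

theorem swap_mem {D : Finset A} {x y : A} (h : (x ∈ D ∧ y ∈ D) ∨ (x ∉ D ∧ y ∉ D)) (z : A) :
    Equiv.swap x y z ∈ D ↔ z ∈ D := by
  by_cases hx : z = x
  · subst hx
    rw [Equiv.swap_apply_left]
    rcases h with h | h
    · exact ⟨fun _ => h.1, fun _ => h.2⟩
    · exact ⟨fun h' => absurd h' h.2, fun h' => absurd h' h.1⟩
  · by_cases hy : z = y
    · subst hy
      rw [Equiv.swap_apply_right]
      rcases h with h | h
      · exact ⟨fun _ => h.2, fun _ => h.1⟩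
      · exact ⟨fun h' => absurd h' h.1, fun h' => absurd h' h.2⟩
    · rw [Equiv.swap_apply_of_ne_of_ne hx hy]

/-- the points of a set at which `m` is divisible -/
theorem js_inter (k : Fin v) (w : A) (m : A × Fin v →₀ ℕ) (D : Finset A) (hw : w ∉ D) :
    js k w m ∩ D = D.filter fun p => 1 ≤ m (p, k) := by
  ext z
  simp only [js, Finset.mem_inter, Finset.mem_filter, Finset.mem_univ, true_and]
  constructor
  · rintro ⟨⟨_, h1⟩, h2⟩
    exact ⟨h2, h1⟩
  · rintro ⟨h2, h1⟩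
    exact ⟨⟨fun e => hw (e ▸ h2), h1⟩, h2⟩

/-- the part of `f` given by a condition on the numbers of divisible points -/
noncomputable def prt (T S C : Finset A) (k : Fin v) (w : A) (R : ℕ → ℕ → Prop)
    (f : PX K A v) : PX K A v :=
  pr k w (fun J => R (J ∩ C).card (J ∩ (T ∪ S)).card) f

/-- the part is invariant -/
theorem prt_ren (h5 : Stmt_PR) {T S C : Finset A} {w : A} (k : Fin v) (R : ℕ → ℕ → Prop)
    (f : PX K A v) (π : Equiv.Perm A) (hw : π w = w) (hC : ∀ z, π z ∈ C ↔ z ∈ C)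
    (hTS : ∀ z, π z ∈ T ∪ S ↔ z ∈ T ∪ S) :
    prt T S C k w R (ren π f) = ren π (prt T S C k w R f) := by
  obtain ⟨-, -, -, -, -, -, h7, -⟩ := h5 K A v k w
  unfold prt
  rw [h7 _ π f hw]
  congr 2
  funext J
  rw [map_inter hC, map_inter hTS]

theorem prt_neg (h5 : Stmt_PR) {T S C : Finset A} {w : A} (k : Fin v) (R : ℕ → ℕ → Prop)
    (f : PX K A v) : prt T S C k w R (-f) = -prt T S C k w R f := by
  obtain ⟨-, h2, -⟩ := h5 K A v k w
  have h := (h2 (fun J => R (J ∩ C).card (J ∩ (T ∪ S)).card) f f (-1)).2.2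
  rw [neg_one_smul, neg_one_smul] at h
  exact h

theorem prt_cg (h5 : Stmt_PR) {T S C : Finset A} {w : A} (hcf : Cf T S C w) {δ : A → ℕ}
    (k : Fin v) (R : ℕ → ℕ → Prop) {f : PX K A v} (hf : Cg δ T S C f) :
    Cg δ T S C (prt T S C k w R f) := by
  obtain ⟨-, -, h3, -⟩ := h5 K A v k w
  have hTS := Finset.disjoint_left.1 hcf.TS
  have hTC := Finset.disjoint_left.1 hcf.TC
  have hSC := Finset.disjoint_left.1 hcf.SC
  have hwx : ∀ x y : A, x ≠ w → y ≠ w → Equiv.swap x y w = w := fun x y hx hy =>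
    Equiv.swap_apply_of_ne_of_ne hx.symm hy.symm
  refine ⟨h3 _ _ _ hf.dg, ?_, ?_, ?_⟩
  · intro x hx y hy
    rw [← prt_ren h5 k R f _ (hwx x y (fun e => hcf.wT (e ▸ hx)) (fun e => hcf.wT (e ▸ hy)))
      (swap_mem (Or.inr ⟨hTC hx, hTC hy⟩))
      (swap_mem (Or.inl ⟨Finset.mem_union_left _ hx, Finset.mem_union_left _ hy⟩)),
      hf.sy x hx y hy]
  · intro x hx y hy hne
    rw [← prt_ren h5 k R f _ (hwx x y (fun e => hcf.wS (e ▸ hx)) (fun e => hcf.wS (e ▸ hy)))
      (swap_mem (Or.inr ⟨hSC hx, hSC hy⟩))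
      (swap_mem (Or.inl ⟨Finset.mem_union_right _ hx, Finset.mem_union_right _ hy⟩)),
      hf.alS x hx y hy hne, prt_neg h5]
  · intro x hx y hy hne
    have hn : ∀ z ∈ C, z ∉ T ∪ S := by
      intro z hz hz'
      rcases Finset.mem_union.1 hz' with h | h
      · exact hTC h hz
      · exact hSC h hz
    rw [← prt_ren h5 k R f _ (hwx x y (fun e => hcf.wC (e ▸ hx)) (fun e => hcf.wC (e ▸ hy)))
      (swap_mem (Or.inl ⟨hx, hy⟩)) (swap_mem (Or.inr ⟨hn x hx, hn y hy⟩)),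
      hf.alC x hx y hy hne, prt_neg h5]

/-- lifting of the part to a bicycle -/
theorem lift_prt [CharZero K] (h5 : Stmt_PR) (h6 : Stmt_LFT) {M β t s l : ℕ}
    (hL : LIFT K v (M + 1) (M + 2) s l (2 * M + 1 + β)) {T S C : Finset A} {w : A}
    (hcf : Cf T S C w) (hS : S.card = s) (hC : C.card = l) (k : Fin v) (R : ℕ → ℕ → Prop)
    {f : PX K A v} (hf : Zc M T S C w (2 * M + 2 + β) f) (ht : T.card = t) :
    ∃ F : PX K A v, Zc M T S C w (2 * M + 2 + β) F ∧ X (w, k) ∣ prt T S C k w R f - F ∧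
      ∀ m ∈ F.support, m (w, k) = 0 →
        R (C.filter fun p => 1 ≤ m (p, k)).card ((T ∪ S).filter fun p => 1 ≤ m (p, k)).card := by
  obtain ⟨h1, h2, -, h4, -, h6', -, -, h9, -⟩ := h5 K A v k w
  have hw : w ∉ T ∪ S := by
    intro h
    rcases Finset.mem_union.1 h with h | h
    · exact hcf.wT h
    · exact hcf.wS h
  obtain ⟨F, hF, hd⟩ := (h6 K v M β t s l).1 hL A T S C w (Pi.single k 1)
    (prt T S C k w R f) hcf hS hC (single_ne k) (prt_cg h5 hcf k R hf.cg) (by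
      intro u hu
      rw [lin_single]
      have huw : u ≠ w := by
        rintro rfl
        rcases Finset.mem_union.1 hu with h | h
        · exact hcf.wS h
        · exact hcf.wC h
      refine (h9 _ u f huw ?_).1
      have h0 : ren (mv u w) f = 0 := by
        rcases Finset.mem_union.1 hu with h | h
        · exact hf.cyS u h
        · exact hf.cyC u h
      rw [h0]
      exact dvd_zero _)
  rw [lin_single] at hd
  refine ⟨F, hF, hd, fun m hm hmw => ?_⟩
  have e1 : pr k w (fun _ => True) (prt T S C k w R f - F) = 0 := h6' _ _ hd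
  rw [(h2 (fun _ => True) (prt T S C k w R f) F 0).2.1] at e1
  have e2 : coeff m F ≠ 0 := mem_support_iff.1 hm
  have e3 : coeff m (pr k w (fun _ => True) F) = coeff m F :=
    (h1 (fun _ => True) F m).1 ⟨hmw, trivial⟩
  have e4 : coeff m (pr k w (fun _ => True) (prt T S C k w R f)) =
      coeff m (prt T S C k w R f) := (h1 (fun _ => True) _ m).1 ⟨hmw, trivial⟩
  have e5 : coeff m (prt T S C k w R f) ≠ 0 := by
    rw [← e4, sub_eq_zero.1 e1, e3]
    exact e2
  by_contra hcon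
  apply e5
  refine (h1 _ f m).2 ?_
  rintro ⟨-, h⟩
  apply hcon
  rwa [js_inter k w m C hcf.wC, js_inter k w m (T ∪ S) hw] at h

theorem zc_add (h1 : Stmt_DG) (h3 : Stmt_SYM) {M r : ℕ} {T S C : Finset A} {w : A}
    {f g : PX K A v} (hf : Zc M T S C w r f) (hg : Zc M T S C w r g) :
    Zc M T S C w r (f + g) := by
  obtain ⟨-, hadd, -⟩ := h1 K A A v
  obtain ⟨-, -, -, hs, -⟩ := h3 K A v
  refine ⟨⟨(hadd _ _ _ hf.cg.dg hg.cg.dg).1, ((hs T f g).1 hf.cg.sy hg.cg.sy).1,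
    ((hs S f g).2.1 hf.cg.alS hg.cg.alS).1, ((hs C f g).2.1 hf.cg.alC hg.cg.alC).1⟩, ?_, ?_⟩
  · intro u hu
    rw [map_add, hf.cyS u hu, hg.cyS u hu, add_zero]
  · intro u hu
    rw [map_add, hf.cyC u hu, hg.cyC u hu, add_zero]

end HF

theorem HF_thm (h1 : Stmt_DG) (h2 : Stmt_DIV) (h3 : Stmt_SYM) (h4 : Stmt_GD0) (h5 : Stmt_PR)
    (h6 : Stmt_LFT) (h7 : Stmt_CP) (h8 : Stmt_FP) : Stmt_HF := by
  classical
  intro K _ _ v M β t s l i hTWO hALP hL hL' hCH hFC A _ _ T S C w k f hcf hsp hT hS hC hf hm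
  have hw : w ∉ T ∪ S := by
    intro h
    rcases Finset.mem_union.1 h with h | h
    · exact hcf.wT h
    · exact hcf.wS h
  obtain ⟨F₁, hF₁, hd₁, hs₁⟩ := HF.lift_prt h5 h6 hL hcf hS hC k (fun a _ => 0 < a) hf hT
  obtain ⟨F₂, hF₂, hd₂, hs₂⟩ :=
    HF.lift_prt h5 h6 hL hcf hS hC k (fun a b => a = 0 ∧ i + 1 ≤ b) hf hT
  obtain ⟨F₃, hF₃, hd₃, hs₃⟩ :=
    HF.lift_prt h5 h6 hL hcf hS hC k (fun a b => a = 0 ∧ b = i) hf hT
  have g₁ : Good M β T (S ∪ C) w (xS (Pi.single k 1) S * F₁) := by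
    refine h7 K v M β t s l hTWO hALP hL hL' A T S C w k F₁ hcf hsp hT hS hC hF₁ ?_
    intro m hm1 hm2
    obtain ⟨c, hc⟩ := Finset.card_pos.1 (hs₁ m hm1 hm2)
    exact ⟨c, (Finset.mem_filter.1 hc).1, (Finset.mem_filter.1 hc).2⟩
  have g₂ : Good M β T (S ∪ C) w (xS (Pi.single k 1) S * F₂) := by
    rw [HF.xS_single]
    exact hCH A T S C w k F₂ hcf hsp hT hS hC hF₂ fun m hm1 hm2 => (hs₂ m hm1 hm2).2
  have g₃ : Good M β T (S ∪ C) w (xS (Pi.single k 1) S * F₃) := by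
    refine h8 K v M β t s l i hALP hL hFC A T S C w k F₃ hcf hsp hT hS hC hF₃ ?_
    intro m hm1 hm2
    obtain ⟨h9, h10⟩ := hs₃ m hm1 hm2
    refine ⟨fun c hc => ?_, h10⟩
    by_contra hne
    have h11 : c ∈ C.filter fun p => 1 ≤ m (p, k) :=
      Finset.mem_filter.2 ⟨hc, Nat.one_le_iff_ne_zero.2 hne⟩
    rw [Finset.card_eq_zero] at h9
    rw [h9] at h11
    exact absurd h11 (Finset.notMem_empty c)
  -- the sum of the parts
  obtain ⟨p1, p2, -, p4, -⟩ := h5 K A v k w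
  have hsum : X (w, k) ∣ f - (HF.prt T S C k w (fun a _ => 0 < a) f +
      HF.prt T S C k w (fun a b => a = 0 ∧ i + 1 ≤ b) f +
      HF.prt T S C k w (fun a b => a = 0 ∧ b = i) f) := by
    have e1 : pr k w (fun _ => True) f = HF.prt T S C k w (fun a _ => 0 < a) f +
        HF.prt T S C k w (fun a b => a = 0 ∧ i + 1 ≤ b) f +
        HF.prt T S C k w (fun a b => a = 0 ∧ b = i) f := by
      ext m
      rw [coeff_add, coeff_add]
      unfold HF.prt
      by_cases hmw : m (w, k) = 0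
      · rw [(p1 (fun _ => True) f m).1 ⟨hmw, trivial⟩]
        by_cases hf0 : coeff m f = 0
        · have hz : ∀ P : Finset A → Prop, coeff m (pr k w P f) = 0 := by
            intro P
            by_cases hP : m (w, k) = 0 ∧ P (js k w m)
            · rw [(p1 P f m).1 hP, hf0]
            · exact (p1 P f m).2 hP
          rw [hz, hz, hz, hf0, add_zero, add_zero]
        · have h12 := hm m (mem_support_iff.2 hf0) hmw
          rw [← HF.js_inter k w m (T ∪ S) hw] at h12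
          by_cases hc0 : (js k w m ∩ C).card = 0
          · rcases Nat.lt_or_ge i (js k w m ∩ (T ∪ S)).card with h13 | h13
            · rw [(p1 _ f m).2 (by rintro ⟨-, h⟩; omega), (p1 _ f m).1 ⟨hmw, hc0, h13⟩,
                (p1 _ f m).2 (by rintro ⟨-, -, h⟩; omega), zero_add, add_zero]
            · rw [(p1 _ f m).2 (by rintro ⟨-, h⟩; omega),
                (p1 _ f m).2 (by rintro ⟨-, -, h⟩; omega),
                (p1 _ f m).1 ⟨hmw, hc0, by omega⟩, zero_add, zero_add]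
          · rw [(p1 _ f m).1 ⟨hmw, Nat.pos_of_ne_zero hc0⟩,
              (p1 _ f m).2 (by rintro ⟨-, h, -⟩; exact hc0 h),
              (p1 _ f m).2 (by rintro ⟨-, h, -⟩; exact hc0 h), add_zero, add_zero]
      · rw [(p1 _ f m).2 (fun h => hmw h.1), (p1 _ f m).2 (fun h => hmw h.1),
          (p1 _ f m).2 (fun h => hmw h.1), (p1 _ f m).2 (fun h => hmw h.1), add_zero, add_zero]
    rw [← e1]
    exact p4 f
  have hF := HF.zc_add h1 h3 (HF.zc_add h1 h3 hF₁ hF₂) hF₃
  have hcf' : Cf T ∅ (S ∪ C) w := by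
    refine ⟨Finset.disjoint_empty_right _, ?_, Finset.disjoint_empty_left _, hcf.wT,
      Finset.notMem_empty _, ?_⟩
    · rw [Finset.disjoint_union_right]
      exact ⟨hcf.TS, hcf.TC⟩
    · intro h
      rcases Finset.mem_union.1 h with h | h
      · exact hcf.wS h
      · exact hcf.wC h
  obtain ⟨-, -, -, gadd, -⟩ := h4 K A v M β T (S ∪ C) w hcf'
  have hG : Good M β T (S ∪ C) w (xS (Pi.single k 1) S * (F₁ + F₂ + F₃)) := by
    rw [mul_add, mul_add]
    exact (gadd _ _ (gadd _ _ g₁ g₂).1 g₃).1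
  have hdvd : lin (Pi.single k 1) w ∣ f - (F₁ + F₂ + F₃) := by
    rw [HF.lin_single]
    have e : f - (F₁ + F₂ + F₃) = (f - (HF.prt T S C k w (fun a _ => 0 < a) f +
      HF.prt T S C k w (fun a b => a = 0 ∧ i + 1 ≤ b) f +
      HF.prt T S C k w (fun a b => a = 0 ∧ b = i) f)) +
      ((HF.prt T S C k w (fun a _ => 0 < a) f - F₁) +
      (HF.prt T S C k w (fun a b => a = 0 ∧ i + 1 ≤ b) f - F₂) +
      (HF.prt T S C k w (fun a b => a = 0 ∧ b = i) f - F₃)) := by ring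
    rw [e]
    exact dvd_add hsum (dvd_add (dvd_add hd₁ hd₂) hd₃)
  rw [← HF.xS_single]
  exact (h6 K v M β t s l).2 hALP A T S C w (Pi.single k 1) f (F₁ + F₂ + F₃) hcf hsp hT hS hC
    (HF.single_ne k) hf hF hdvd hG

end Pool.Agent.VOP
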