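import Pool.Agent.VOP.StmtsN

/-!
# Module LFT: lifting of bicycles modulo `x(w)`; differences
-/

namespace Pool.Agent.VOP

open MvPolynomial Pool.Agent.VSY

namespace LFT

variable {K : Type} [Field K] {A : Type} [Fintype A] [DecidableEq A] {v : ℕ}

theorem ren_lin {B : Type} (φ : A → B) (x : Fin v → K) (p : A) :
    ren φ (lin x p : PX K A v) = lin x (φ p) := by
  simp [lin, map_sum, map_mul]

theorem swap_lin {x y w : A} (hx : x ≠ w) (hy : y ≠ w) (ξ : Fin v → K) :
    ren (Equiv.swap x y) (lin ξ w : PX K A v) = lin ξ w := by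
  rw [ren_lin, Equiv.swap_apply_of_ne_of_ne hx.symm hy.symm]

theorem mv_lin {u w : A} (hu : u ≠ w) (ξ : Fin v → K) :
    ren (mv u w) (lin ξ w : PX K A v) = lin ξ w := by
  rw [ren_lin, mv, Function.update_of_ne hu.symm, id]

theorem dgc_w {M : ℕ} {T S C : Finset A} {w : A} {r : ℕ} (h : Cf T S C w) :
    dgc M T S C w r w = r := by
  have h1 : w ∉ T ∪ S := by
    rw [Finset.mem_union, not_or]
    exact ⟨h.wT, h.wS⟩
  rw [dgc, if_neg h1, if_neg h.wC, if_pos rfl]

theorem dgc_S {M : ℕ} {T S C : Finset A} {w : A} {r : ℕ} {u : A} (hu : u ∈ S) :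
    dgc M T S C w r u = M + 1 := by
  rw [dgc, if_pos (Finset.mem_union_right _ hu)]

theorem dgc_C {M : ℕ} {T S C : Finset A} {w : A} {r : ℕ} {u : A} (h : Cf T S C w) (hu : u ∈ C) :
    dgc M T S C w r u = M + 2 := by
  have h1 : u ∉ T ∪ S := by
    rw [Finset.mem_union, not_or]
    exact ⟨fun h' => (Finset.disjoint_left.1 h.TC) h' hu,
      fun h' => (Finset.disjoint_left.1 h.SC) h' hu⟩
  rw [dgc, if_neg h1, if_pos hu]

theorem update_dgc {M : ℕ} {T S C : Finset A} {w : A} {r r' : ℕ} (h : Cf T S C w) :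
    Function.update (dgc M T S C w r) w r' = dgc M T S C w r' := by
  funext y
  by_cases hy : y = w
  · subst hy
    rw [Function.update_self, dgc_w h]
  · rw [Function.update_of_ne hy]
    simp only [dgc, if_neg hy]

theorem ne_of_mem {S : Finset A} {w u : A} (hw : w ∉ S) (hu : u ∈ S) : u ≠ w := by
  rintro rfl
  exact hw hu

end LFT

open LFT in
theorem LFT_thm (h1 : Stmt_DG) (h2 : Stmt_DIV) (_h3 : Stmt_SYM) (h4 : Stmt_GD0) : Stmt_LFT := by
  intro K _ _ v M β t s l
  constructor
  · intro hL A _ _ T S C w x h hcf hs hl hx hcg hd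
    obtain ⟨-, dgA, -, -, dgM, dgL, -⟩ := h1 K A A v
    obtain ⟨ρ, hρ, hρ2⟩ := hL A (dgc M T S C w (2 * M + 2 + β)) T S C w x h hcf hs hl hx
      (fun u hu => dgc_S hu) (fun u hu => dgc_C hcf hu) (by rw [dgc_w hcf]; ring) hcg hd
    have hdg : Dg (dgc M T S C w (2 * M + 2 + β)) (lin x w * ρ) := by
      have e := dgM _ _ _ _ (dgL x w) hρ.dg
      have e2 : (fun y => (Pi.single w 1 : A → ℕ) y +
          Function.update (dgc M T S C w (2 * M + 2 + β)) w (2 * M + 1 + β) y) =
          dgc M T S C w (2 * M + 2 + β) := by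
        funext y
        by_cases hy : y = w
        · subst hy
          rw [Pi.single_eq_same, Function.update_self, dgc_w hcf]
          ring
        · rw [Pi.single_eq_of_ne hy, Function.update_of_ne hy, zero_add]
      rwa [e2] at e
    refine ⟨h - lin x w * ρ, ⟨⟨(dgA _ _ _ hcg.dg hdg).2, ?_, ?_, ?_⟩, ?_, ?_⟩, ?_⟩
    · intro p hp q hq
      rw [map_sub, map_mul, hcg.sy p hp q hq, hρ.sy p hp q hq,
        swap_lin (ne_of_mem hcf.wT hp) (ne_of_mem hcf.wT hq)]
    · intro p hp q hq hpq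
      rw [map_sub, map_mul, hcg.alS p hp q hq hpq, hρ.alS p hp q hq hpq,
        swap_lin (ne_of_mem hcf.wS hp) (ne_of_mem hcf.wS hq)]
      ring
    · intro p hp q hq hpq
      rw [map_sub, map_mul, hcg.alC p hp q hq hpq, hρ.alC p hp q hq hpq,
        swap_lin (ne_of_mem hcf.wC hp) (ne_of_mem hcf.wC hq)]
      ring
    · exact fun u hu => hρ2 u (Finset.mem_union_left _ hu)
    · exact fun u hu => hρ2 u (Finset.mem_union_right _ hu)
    · exact ⟨ρ, by ring⟩
  · intro hA A _ _ T S C w x f f' hcf hsp ht hs hl hx hf hf' hdvd hG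
    obtain ⟨dvC, dvD, -⟩ := h2 K A A v x hx
    obtain ⟨-, dgA, -⟩ := h1 K A A v
    obtain ⟨g, hg⟩ := hdvd
    have hcf' : Cf T ∅ (S ∪ C) w := by
      refine ⟨Finset.disjoint_empty_right _, ?_, Finset.disjoint_empty_left _, hcf.wT,
        Finset.notMem_empty _, ?_⟩
      · rw [Finset.disjoint_union_right]
        exact ⟨hcf.TS, hcf.TC⟩
      · rw [Finset.mem_union, not_or]
        exact ⟨hcf.wS, hcf.wC⟩
    have hdg : Dg (dgc M T S C w (2 * M + 2 + β)) (lin x w * g) := by
      rw [← hg]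
      exact (dgA _ _ _ hf.cg.dg hf'.cg.dg).2
    have hz : Zc M T S C w (2 * M + 1 + β) g := by
      refine ⟨⟨?_, ?_, ?_, ?_⟩, ?_, ?_⟩
      · have e := dvD _ w (2 * M + 1 + β) g (by rw [dgc_w hcf]; ring) hdg
        rwa [update_dgc hcf] at e
      · intro p hp q hq
        apply dvC w
        have e := congrArg (ren (Equiv.swap p q)) hg
        rw [map_sub, hf.cg.sy p hp q hq, hf'.cg.sy p hp q hq, hg, map_mul,
          swap_lin (ne_of_mem hcf.wT hp) (ne_of_mem hcf.wT hq)] at e
        exact e.symm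
      · intro p hp q hq hpq
        apply dvC w
        have e := congrArg (ren (Equiv.swap p q)) hg
        rw [map_sub, hf.cg.alS p hp q hq hpq, hf'.cg.alS p hp q hq hpq, map_mul,
          swap_lin (ne_of_mem hcf.wS hp) (ne_of_mem hcf.wS hq)] at e
        rw [← e, mul_neg, ← hg]
        ring
      · intro p hp q hq hpq
        apply dvC w
        have e := congrArg (ren (Equiv.swap p q)) hg
        rw [map_sub, hf.cg.alC p hp q hq hpq, hf'.cg.alC p hp q hq hpq, map_mul,
          swap_lin (ne_of_mem hcf.wC hp) (ne_of_mem hcf.wC hq)] at e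
        rw [← e, mul_neg, ← hg]
        ring
      · intro u hu
        apply dvC w
        have e := congrArg (ren (mv u w)) hg
        rw [map_sub, hf.cyS u hu, hf'.cyS u hu, map_mul, mv_lin (ne_of_mem hcf.wS hu)] at e
        rw [← e, mul_zero, sub_zero]
      · intro u hu
        apply dvC w
        have e := congrArg (ren (mv u w)) hg
        rw [map_sub, hf.cyC u hu, hf'.cyC u hu, map_mul, mv_lin (ne_of_mem hcf.wC hu)] at e
        rw [← e, mul_zero, sub_zero]
    have hgood := hA A T S C w x g hcf hsp ht hs hl hx hz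
    obtain ⟨-, -, -, gA, -⟩ := h4 K A v M β T (S ∪ C) w hcf'
    have e : xS x S * f = xS x S * f' + lin x w * xS x S * g := by
      have : f = f' + lin x w * g := by rw [← hg]; ring
      rw [this]
      ring
    rw [e]
    exact (gA _ _ hG hgood).1

end Pool.Agent.VOP
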