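import Pool.Agent.VOP.StmtsN

/-!
# Module LL (MP_deb8da_ag): adding one letter
-/

namespace Pool.Agent.VOP

open MvPolynomial Pool.Agent.VSY

namespace LL

variable {K : Type} [Field K] {A B : Type} {v : ℕ}

theorem ren_atp (φ : A → B) (x : A) (a : MvPolynomial (Fin v) K) :
    ren φ (atp x a) = atp (φ x) a := by
  rw [ren, atp, atp, rename_rename]
  rfl

theorem ren_lin (φ : A → B) (x : Fin v → K) (p : A) :
    ren φ (lin x p : PX K A v) = lin x (φ p) := by
  rw [lin, lin, map_sum]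
  refine Finset.sum_congr rfl fun i _ => ?_
  rw [map_mul, ren_C, ren_X]

variable [DecidableEq A]

theorem mv_apply (u w y : A) : mv u w y = if y = u then w else y := by
  rw [mv, Function.update_apply]
  rfl

theorem mv_self (u w : A) : mv u w u = w := by rw [mv_apply, if_pos rfl]

theorem mv_ne (u w : A) {y : A} (h : y ≠ u) : mv u w y = y := by rw [mv_apply, if_neg h]

/-- a move and a transposition of other points commute -/
theorem mv_swap_comm {c w p q : A} (hcp : c ≠ p) (hcq : c ≠ q) (hwp : w ≠ p) (hwq : w ≠ q)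
    (f : PX K A v) :
    ren (mv c w) (ren (Equiv.swap p q) f) = ren (Equiv.swap p q) (ren (mv c w) f) := by
  rw [ren_ren, ren_ren]
  apply ren_congr
  intro y
  simp only [Function.comp_apply]
  by_cases hyc : y = c
  · subst hyc
    rw [mv_self, Equiv.swap_apply_of_ne_of_ne hcp hcq, mv_self,
      Equiv.swap_apply_of_ne_of_ne hwp hwq]
  · rw [mv_ne c w hyc]
    rw [mv_ne]
    intro h
    apply hyc
    have h2 := congrArg (Equiv.swap p q) h
    rwa [Equiv.swap_apply_self, Equiv.swap_apply_of_ne_of_ne hcp hcq] at h2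

theorem mv_swap_self {w p q : A} (hqp : q ≠ p) (hwp : w ≠ p) (hwq : w ≠ q)
    (f : PX K A v) :
    ren (mv q w) (ren (Equiv.swap p q) f) = ren (Equiv.swap p q) (ren (mv p w) f) := by
  rw [ren_ren, ren_ren]
  apply ren_congr
  intro y
  simp only [Function.comp_apply]
  by_cases hyp : y = p
  · subst hyp
    rw [Equiv.swap_apply_left, mv_self, mv_self, Equiv.swap_apply_of_ne_of_ne hwp hwq]
  · rw [mv_ne p w hyp]
    by_cases hyq : y = q
    · subst hyq
      rw [Equiv.swap_apply_right, mv_ne y w (Ne.symm hqp)]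
    · rw [Equiv.swap_apply_of_ne_of_ne hyp hyq, mv_ne q w hyq]

theorem swap_comm {a a' p q : A} (hap : a ≠ p) (haq : a ≠ q) (hap' : a' ≠ p) (haq' : a' ≠ q)
    (f : PX K A v) :
    ren (Equiv.swap a a') (ren (Equiv.swap p q) f) =
      ren (Equiv.swap p q) (ren (Equiv.swap a a') f) := by
  rw [ren_ren, ren_ren]
  apply ren_congr
  intro y
  simp only [Function.comp_apply]
  by_cases h1 : y = a
  · subst h1
    rw [Equiv.swap_apply_left, Equiv.swap_apply_of_ne_of_ne hap haq, Equiv.swap_apply_left,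
      Equiv.swap_apply_of_ne_of_ne hap' haq']
  by_cases h2 : y = a'
  · subst h2
    rw [Equiv.swap_apply_right, Equiv.swap_apply_of_ne_of_ne hap' haq', Equiv.swap_apply_right,
      Equiv.swap_apply_of_ne_of_ne hap haq]
  rw [Equiv.swap_apply_of_ne_of_ne h1 h2]
  by_cases h3 : y = p
  · subst h3
    rw [Equiv.swap_apply_left, Equiv.swap_apply_of_ne_of_ne (Ne.symm haq) (Ne.symm haq')]
  by_cases h4 : y = q
  · subst h4
    rw [Equiv.swap_apply_right, Equiv.swap_apply_of_ne_of_ne (Ne.symm hap) (Ne.symm hap')]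
  rw [Equiv.swap_apply_of_ne_of_ne h3 h4, Equiv.swap_apply_of_ne_of_ne h1 h2]

/-- the product with one more letter -/
noncomputable def G (x : Fin v → K) (p : A) (b : MvPolynomial (Fin v) K) (h : PX K A v) :
    PX K A v := lin x p * atp p b * h

/-- the alternating expression -/
noncomputable def FF (x : Fin v → K) (p : A) (b : MvPolynomial (Fin v) K) (S : Finset A)
    (h : PX K A v) : PX K A v :=
  G x p b h - ∑ q ∈ S, ren (Equiv.swap p q) (G x p b h)

theorem ren_G_of_fix (φ : A → A) (x : Fin v → K) {p : A} (b : MvPolynomial (Fin v) K)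
    (h : PX K A v) (hφ : φ p = p) : ren φ (G x p b h) = lin x p * atp p b * ren φ h := by
  rw [G, map_mul, map_mul, ren_lin, ren_atp, hφ]

theorem dgc_p {M : ℕ} {T S C : Finset A} {w p : A} {r : ℕ} (hT : p ∉ T) (hS : p ∉ S)
    (hC : p ∉ C) (hw : p ≠ w) : dgc M T S C w r p = 0 := by
  simp [dgc, hT, hS, hC, hw]

/-- moving the new letter -/
theorem mv_p_G [Fintype A] (h1 : Stmt_DG) (x : Fin v → K) {p w : A} (b : MvPolynomial (Fin v) K)
    {δ : A → ℕ} {h : PX K A v} (hd : Dg δ h) (hp : δ p = 0) :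
    ren (mv p w) (G x p b h) = lin x w * (atp w b * h) := by
  have h2 : ren (mv p w) h = ren id h := by
    refine (h1 K A A v).2.2.2.2.2.2.2.2.2.1 δ _ _ h ?_ hd
    intro y hy
    have hyp : y ≠ p := by
      rintro rfl
      exact hy hp
    rw [mv_ne p w hyp]
    rfl
  rw [G, map_mul, map_mul, ren_lin, ren_atp, mv_self, h2, ren_id, mul_assoc]

theorem mv_p_swap [Fintype A] (h1 : Stmt_DG) (x : Fin v → K) {p q w : A}
    (b : MvPolynomial (Fin v) K) {δ : A → ℕ} {h : PX K A v} (hd : Dg δ h) (hp : δ p = 0)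
    (hqp : q ≠ p) :
    ren (mv p w) (ren (Equiv.swap p q) (G x p b h)) =
      lin x q * atp q b * ren (mv q w) h := by
  have h2 : ren (mv p w ∘ Equiv.swap p q) h = ren (mv q w) h := by
    refine (h1 K A A v).2.2.2.2.2.2.2.2.2.1 δ _ _ h ?_ hd
    intro y hy
    have hyp : y ≠ p := by
      rintro rfl
      exact hy hp
    simp only [Function.comp_apply]
    by_cases hyq : y = q
    · subst hyq
      rw [Equiv.swap_apply_right, mv_self, mv_self]
    · rw [Equiv.swap_apply_of_ne_of_ne hyp hyq, mv_ne p w hyp, mv_ne q w hyq]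
  rw [ren_ren, G, map_mul, map_mul, ren_lin, ren_atp, h2]
  simp only [Function.comp_apply]
  rw [Equiv.swap_apply_left, mv_ne p w hqp]

/-- moving the new letter in the alternating expression -/
theorem mv_p_FF [Fintype A] (h1 : Stmt_DG) (x : Fin v → K) {p w : A}
    (b : MvPolynomial (Fin v) K) (S : Finset A) {δ : A → ℕ} {h : PX K A v} (hd : Dg δ h)
    (hp : δ p = 0) (hpS : p ∉ S) (hcy : Cy S w h) :
    ren (mv p w) (FF x p b S h) = lin x w * (atp w b * h) := by
  rw [FF, map_sub, mv_p_G h1 x b hd hp, map_sum, Finset.sum_eq_zero, sub_zero]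
  intro q hq
  rw [mv_p_swap h1 x b hd hp (by
    rintro rfl
    exact hpS hq), hcy q hq, mul_zero]

theorem mv_c_FF (x : Fin v → K) {p w c : A} (b : MvPolynomial (Fin v) K) (S : Finset A)
    {h : PX K A v} (hcp : c ≠ p) (hcS : c ∉ S) (hwp : w ≠ p) (hwS : w ∉ S)
    (hc : ren (mv c w) h = 0) : ren (mv c w) (FF x p b S h) = 0 := by
  have h1 : ren (mv c w) (G x p b h) = 0 := by
    rw [ren_G_of_fix _ _ _ _ (mv_ne c w (Ne.symm hcp)), hc, mul_zero]
  rw [FF, map_sub, h1, map_sum, Finset.sum_eq_zero, sub_zero]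
  intro q hq
  rw [mv_swap_comm hcp (by
    rintro rfl
    exact hcS hq) hwp (by
    rintro rfl
    exact hwS hq), h1, map_zero]

/-- the other letters, by alternation -/
theorem mv_q {S : Finset A} {p w q : A} {f : PX K A v} (hf : Al (insert p S) f)
    (hpS : p ∉ S) (hq : q ∈ S) (hwp : w ≠ p) (hwS : w ∉ S) :
    ren (mv q w) f = -ren (Equiv.swap p q) (ren (mv p w) f) := by
  have hqp : q ≠ p := by
    rintro rfl
    exact hpS hq
  have h1 := hf p (Finset.mem_insert_self _ _) q (Finset.mem_insert_of_mem hq) (Ne.symm hqp)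
  have h2 := mv_swap_self (K := K) (v := v) hqp hwp (by
    rintro rfl
    exact hwS hq) f
  rw [h1, map_neg] at h2
  rw [← h2, neg_neg]

theorem Sy_lin {T : Finset A} (x : Fin v → K) {p : A} (hp : p ∉ T) :
    Sy T (lin x p : PX K A v) := by
  intro a ha a' ha'
  rw [ren_lin, Equiv.swap_apply_of_ne_of_ne]
  · rintro rfl
    exact hp ha
  · rintro rfl
    exact hp ha'

theorem Sy_atp {T : Finset A} (b : MvPolynomial (Fin v) K) {p : A} (hp : p ∉ T) :
    Sy T (atp p b : PX K A v) := by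
  intro a ha a' ha'
  rw [ren_atp, Equiv.swap_apply_of_ne_of_ne]
  · rintro rfl
    exact hp ha
  · rintro rfl
    exact hp ha'

theorem Sy_G {T : Finset A} (x : Fin v → K) {p : A} (b : MvPolynomial (Fin v) K)
    {h : PX K A v} (hp : p ∉ T) (hh : Sy T h) : Sy T (G x p b h) := by
  intro a ha a' ha'
  rw [G, map_mul, map_mul, Sy_lin x hp a ha a' ha', Sy_atp b hp a ha a' ha', hh a ha a' ha']

theorem Al_G {T : Finset A} (x : Fin v → K) {p : A} (b : MvPolynomial (Fin v) K)
    {h : PX K A v} (hp : p ∉ T) (hh : Al T h) : Al T (G x p b h) := by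
  intro a ha a' ha' hne
  rw [G, map_mul, map_mul, Sy_lin x hp a ha a' ha', Sy_atp b hp a ha a' ha',
    hh a ha a' ha' hne, mul_neg]

theorem Sy_FF {T S : Finset A} (x : Fin v → K) {p : A} (b : MvPolynomial (Fin v) K)
    {h : PX K A v} (hp : p ∉ T) (hTS : Disjoint T S) (hh : Sy T h) : Sy T (FF x p b S h) := by
  intro a ha a' ha'
  rw [FF, map_sub, Sy_G x b hp hh a ha a' ha', map_sum]
  congr 1
  refine Finset.sum_congr rfl fun q hq => ?_
  rw [swap_comm, Sy_G x b hp hh a ha a' ha']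
  · rintro rfl
    exact hp ha
  · rintro rfl
    exact Finset.disjoint_left.mp hTS ha hq
  · rintro rfl
    exact hp ha'
  · rintro rfl
    exact Finset.disjoint_left.mp hTS ha' hq

theorem Al_FF {T S : Finset A} (x : Fin v → K) {p : A} (b : MvPolynomial (Fin v) K)
    {h : PX K A v} (hp : p ∉ T) (hTS : Disjoint T S) (hh : Al T h) : Al T (FF x p b S h) := by
  intro a ha a' ha' hne
  have h1 : ∑ q ∈ S, ren (Equiv.swap a a') (ren (Equiv.swap p q) (G x p b h)) =
      -∑ q ∈ S, ren (Equiv.swap p q) (G x p b h) := by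
    rw [← Finset.sum_neg_distrib]
    refine Finset.sum_congr rfl fun q hq => ?_
    rw [swap_comm, Al_G x b hp hh a ha a' ha' hne, map_neg]
    · rintro rfl
      exact hp ha
    · rintro rfl
      exact Finset.disjoint_left.mp hTS ha hq
    · rintro rfl
      exact hp ha'
    · rintro rfl
      exact Finset.disjoint_left.mp hTS ha' hq
  rw [FF, map_sub, Al_G x b hp hh a ha a' ha' hne, map_sum, h1]
  ring

/-- degrees -/
theorem Dg_G [Fintype A] (h1 : Stmt_DG) (x : Fin v → K) {p w : A} {b : MvPolynomial (Fin v) K}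
    {M r : ℕ} {T S C : Finset A} {h : PX K A v} (hb : b.IsHomogeneous M)
    (hT : p ∉ T) (hS : p ∉ S) (hC : p ∉ C) (hw : p ≠ w) (hd : Dg (dgc M T S C w r) h) :
    Dg (dgc M T (insert p S) C w r) (G x p b h) := by
  have hD := h1 K A A v
  have h2 := hD.2.2.2.2.1 _ _ _ _ (hD.2.2.2.2.1 _ _ _ _ (hD.2.2.2.2.2.1 x p)
    (hD.2.2.2.2.2.2.1 M b p hb)) hd
  have h3 : (fun y => (Pi.single p 1 : A → ℕ) y + (Pi.single p M : A → ℕ) y +
      dgc M T S C w r y) = dgc M T (insert p S) C w r := by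
    funext y
    by_cases hy : y = p
    · subst hy
      rw [Pi.single_eq_same, Pi.single_eq_same, dgc_p hT hS hC hw]
      simp [dgc]
      omega
    · rw [Pi.single_eq_of_ne hy, Pi.single_eq_of_ne hy]
      simp [dgc, hy]
  rw [h3] at h2
  exact h2

theorem Dg_FF [Fintype A] (h1 : Stmt_DG) (x : Fin v → K) {p w : A} {b : MvPolynomial (Fin v) K}
    {M r : ℕ} {T S C : Finset A} {h : PX K A v} (hb : b.IsHomogeneous M)
    (hT : p ∉ T) (hS : p ∉ S) (hC : p ∉ C) (hw : p ≠ w) (hd : Dg (dgc M T S C w r) h) :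
    Dg (dgc M T (insert p S) C w r) (FF x p b S h) := by
  have hD := h1 K A A v
  have hG := Dg_G h1 x hb hT hS hC hw hd
  refine (hD.2.1 _ _ _ hG (hD.2.2.2.1 _ _ _ _ ?_)).2
  intro q hq
  refine hD.2.2.2.2.2.2.2.2.1 _ _ _ ?_ hG
  intro a
  rw [Equiv.swap_apply_def]
  split_ifs with h2 h3
  · subst h2
    simp [dgc, hq]
  · subst h3
    simp [dgc, hq]
  · rfl

end LL

theorem LL_thm (h1 : Stmt_DG) (h2 : Stmt_DIV) (h3 : Stmt_SYM) : Stmt_LL := by
  intro K _ _ v M β s l hv hL A _ _ T S C w p b h hCf hs hl hT hS hC hw hb hZ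
  have hwp : w ≠ p := Ne.symm hw
  have hCf' : Cf T (insert p S) C w := by
    refine ⟨?_, hCf.TC, ?_, hCf.wT, ?_, hCf.wC⟩
    · rw [Finset.disjoint_insert_right]
      exact ⟨hT, hCf.TS⟩
    · rw [Finset.disjoint_insert_left]
      exact ⟨hC, hCf.SC⟩
    · rw [Finset.mem_insert, not_or]
      exact ⟨hwp, hCf.wS⟩
  have hdp : dgc M T S C w (2 * M + 2 + β) p = 0 := LL.dgc_p hT hS hC hw
  have hFCg : ∀ x : Fin v → K, Cg (dgc M T (insert p S) C w (2 * M + 2 + β)) T (insert p S) C
      (LL.FF x p b S h) := by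
    intro x
    refine ⟨LL.Dg_FF h1 x hb hT hS hC hw hZ.cg.dg, LL.Sy_FF x b hT hCf.TS hZ.cg.sy, ?_,
      LL.Al_FF x b hC hCf.SC.symm hZ.cg.alC⟩
    exact (h3 K A v).2.2.2.2.2.2.2.2.2.2.1 S p _ hS (LL.Al_G x b hS hZ.cg.alS)
  have hFp : ∀ x : Fin v → K, ren (mv p w) (LL.FF x p b S h) = lin x w * (atp w b * h) :=
    fun x => LL.mv_p_FF h1 x b S hZ.cg.dg hdp hS hZ.cyS
  have hFc : ∀ x : Fin v → K, ∀ c ∈ C, ren (mv c w) (LL.FF x p b S h) = 0 := by
    intro x c hc
    refine LL.mv_c_FF x b S ?_ ?_ hwp hCf.wS (hZ.cyC c hc)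
    · rintro rfl
      exact hC hc
    · intro hcS
      exact Finset.disjoint_left.mp hCf.SC hcS hc
  -- the vector `x₀`
  let k : Fin v := ⟨0, by omega⟩
  have hx₀ : (Pi.single k 1 : Fin v → K) ≠ 0 := by
    intro h0
    have h4 := congrFun h0 k
    rw [Pi.single_eq_same] at h4
    exact one_ne_zero h4
  set x₀ : Fin v → K := Pi.single k 1 with hx₀d
  have hdw : dgc M T (insert p S) C w (2 * M + 2 + β) w = 2 * M + 1 + β + 1 := by
    have e1 := hCf'.wT
    have e2 := hCf'.wS
    have e3 := hCf'.wC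
    rw [dgc, if_neg, if_neg e3, if_pos rfl]
    · omega
    · rw [Finset.mem_union, not_or]
      exact ⟨e1, e2⟩
  obtain ⟨ρ, hρ, hρ0⟩ := hL A (dgc M T (insert p S) C w (2 * M + 2 + β)) T (insert p S) C w x₀
    (LL.FF x₀ p b S h) hCf' (by rw [Finset.card_insert_of_notMem hS, hs]) hl hx₀
    (by
      intro u hu
      rw [dgc, if_pos]
      exact Finset.mem_union_right _ hu)
    (by
      intro u hu
      rw [dgc, if_neg, if_pos hu]
      rw [Finset.mem_union, not_or]
      exact ⟨fun h' => Finset.disjoint_left.mp hCf'.TC h' hu,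
        fun h' => Finset.disjoint_left.mp hCf'.SC h' hu⟩)
    hdw (hFCg x₀)
    (by
      intro u hu
      rw [Finset.mem_union, Finset.mem_insert] at hu
      rcases hu with (rfl | hu) | hu
      · rw [hFp]
        exact dvd_mul_right _ _
      · rw [LL.mv_q (hFCg x₀).alS hS hu hwp hCf.wS, hFp, map_mul, LL.ren_lin,
          Equiv.swap_apply_of_ne_of_ne hwp (by
            rintro rfl
            exact hCf.wS hu)]
        exact (dvd_mul_right _ _).neg_right
      · rw [hFc x₀ u hu]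
        exact dvd_zero _)
  have hupd : Function.update (dgc M T (insert p S) C w (2 * M + 2 + β)) w (2 * M + 1 + β) =
      dgc M T (insert p S) C w (2 * M + 1 + β) := by
    funext y
    rw [Function.update_apply]
    by_cases hy : y = w
    · subst hy
      rw [if_pos rfl, dgc, if_neg, if_neg hCf'.wC, if_pos rfl]
      rw [Finset.mem_union, not_or]
      exact ⟨hCf'.wT, hCf'.wS⟩
    · rw [if_neg hy, dgc, dgc, if_neg hy, if_neg hy]
  rw [hupd] at hρ
  have hcan := (h2 K A A v x₀ hx₀).1 w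
  have hρp : ren (mv p w) ρ = atp w b * h := by
    have h4 := hρ0 p (Finset.mem_union_left _ (Finset.mem_insert_self _ _))
    rw [map_sub, hFp, map_mul, LL.ren_lin, LL.mv_ne p w hwp, sub_eq_zero] at h4
    exact (hcan _ _ h4).symm
  have hρc : ∀ c ∈ C, ren (mv c w) ρ = 0 := by
    intro c hc
    have hwc : w ≠ c := by
      rintro rfl
      exact hCf.wC hc
    have h4 := hρ0 c (Finset.mem_union_right _ hc)
    rw [map_sub, hFc x₀ c hc, map_mul, LL.ren_lin, LL.mv_ne c w hwc, zero_sub, neg_eq_zero] at h4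
    exact hcan _ _ (by rw [h4, mul_zero])
  refine ⟨ρ, hρ, ?_⟩
  intro x
  have hD := h1 K A A v
  have hlρ : Cg (dgc M T (insert p S) C w (2 * M + 2 + β)) T (insert p S) C (lin x w * ρ) := by
    refine ⟨?_, ?_, ?_, ?_⟩
    · have h4 := hD.2.2.2.2.1 _ _ _ _ (hD.2.2.2.2.2.1 x w) hρ.dg
      have h5 : (fun y => (Pi.single w 1 : A → ℕ) y +
          dgc M T (insert p S) C w (2 * M + 1 + β) y) =
          dgc M T (insert p S) C w (2 * M + 2 + β) := by
        rw [← hupd]
        funext y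
        by_cases hy : y = w
        · subst hy
          rw [Pi.single_eq_same, Function.update_self, hdw]
          omega
        · rw [Pi.single_eq_of_ne hy, Function.update_of_ne hy, zero_add]
      rw [h5] at h4
      exact h4
    · intro a ha a' ha'
      rw [map_mul, LL.Sy_lin x hCf'.wT a ha a' ha', hρ.sy a ha a' ha']
    · intro a ha a' ha' hne
      rw [map_mul, LL.Sy_lin x hCf'.wS a ha a' ha', hρ.alS a ha a' ha' hne, mul_neg]
    · intro a ha a' ha' hne
      rw [map_mul, LL.Sy_lin x hCf'.wC a ha a' ha', hρ.alC a ha a' ha' hne, mul_neg]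
  have hF := hFCg x
  have hS4 := (h3 K A v).2.2.2.1
  have hal : Al (insert p S) (LL.FF x p b S h - lin x w * ρ) :=
    ((hS4 _ _ _).2.1 hF.alS hlρ.alS).2
  have hp0 : ren (mv p w) (LL.FF x p b S h - lin x w * ρ) = 0 := by
    rw [map_sub, hFp, map_mul, LL.ren_lin, LL.mv_ne p w hwp, hρp, sub_self]
  change Zc M T (insert p S) C w (2 * M + 2 + β) (LL.FF x p b S h - lin x w * ρ)
  refine ⟨⟨(hD.2.1 _ _ _ hF.dg hlρ.dg).2, ((hS4 _ _ _).1 hF.sy hlρ.sy).2, hal,
    ((hS4 _ _ _).2.1 hF.alC hlρ.alC).2⟩, ?_, ?_⟩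
  · intro u hu
    rw [Finset.mem_insert] at hu
    rcases hu with rfl | hu
    · exact hp0
    · rw [LL.mv_q hal hS hu hwp hCf.wS, hp0, map_zero, neg_zero]
  · intro c hc
    have hwc : w ≠ c := by
      rintro rfl
      exact hCf.wC hc
    rw [map_sub, hFc x c hc, map_mul, hρc c hc, mul_zero, sub_zero]

end Pool.Agent.VOP
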