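import Pool.Agent.VOP.StmtsN

/-!
# The Ottaviani-Paoletti conjecture: module MSX

The symmetrised products are bicycles modulo `x(w)`.
-/

namespace Pool.Agent.VOP

open MvPolynomial Pool.Agent.VSY

namespace MSX

variable {K : Type} [Field K] {A : Type} {v : ℕ}

theorem ren_lin {B : Type} (φ : A → B) (x : Fin v → K) (p : A) :
    ren φ (lin x p : PX K A v) = lin x (φ p) := by
  simp only [lin, map_sum, map_mul, ren_C, ren_X]

theorem ren_atp {B : Type} (φ : A → B) (p : A) (b : MvPolynomial (Fin v) K) :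
    ren φ (atp p b : PX K A v) = atp (φ p) b := by
  simp only [ren, atp, rename_rename]
  rfl

theorem ren_xb (φ : A → A) (x : Fin v → K) (b : A → MvPolynomial (Fin v) K) (P : Finset A) :
    ren φ (xb x b P) = ∏ p ∈ P, (lin x (φ p) * atp (φ p) (b p)) := by
  simp only [xb, map_prod, map_mul, ren_lin, ren_atp]

theorem ren_xb_fix (φ : A → A) (x : Fin v → K) (b : A → MvPolynomial (Fin v) K) (P : Finset A)
    (h : ∀ p ∈ P, φ p = p) : ren φ (xb x b P) = xb x b P := by
  rw [ren_xb, xb]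
  exact Finset.prod_congr rfl fun p hp => by rw [h p hp]

theorem dvd_ren_xb (φ : A → A) (x : Fin v → K) (b : A → MvPolynomial (Fin v) K) (P : Finset A)
    {p w : A} (hp : p ∈ P) (h : φ p = w) : lin x w ∣ ren φ (xb x b P) := by
  rw [ren_xb]
  refine dvd_trans ?_ (Finset.dvd_prod_of_mem _ hp)
  rw [h]
  exact dvd_mul_right _ _

variable [DecidableEq A]

theorem dg_xb (hdg : Stmt_DG) [Fintype A] (x : Fin v → K) (b : A → MvPolynomial (Fin v) K)
    (M : ℕ) (hb : ∀ p, (b p).IsHomogeneous M) (P : Finset A) :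
    Dg (fun y => if y ∈ P then M + 1 else 0) (xb x b P : PX K A v) := by
  obtain ⟨-, -, -, -, hmul, hlin, hatp, -, -, -, -, hxS⟩ := hdg K A A v
  induction P using Finset.induction_on with
  | empty =>
    have h1 := hxS x ∅
    simp only [Finset.notMem_empty, if_false, xS, Finset.prod_empty] at h1 ⊢
    simpa only [xb, Finset.prod_empty] using h1
  | insert p P hp ih =>
    have h1 := hmul _ _ _ _ (hmul _ _ _ _ (hlin x p) (hatp M (b p) p (hb p))) ih
    have h2 : xb x b (insert p P) = lin x p * atp p (b p) * xb x b P := by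
      rw [xb, Finset.prod_insert hp, xb]
    rw [h2]
    convert h1 using 1
    funext y
    simp only [Finset.mem_insert, Pi.single_apply]
    by_cases h3 : y = p
    · subst h3
      simp [hp, Nat.add_comm]
    · simp [h3]

theorem mem_pS [Fintype A] {S : Finset A} {π : Equiv.Perm A} :
    π ∈ pS S ↔ ∀ x, x ∉ S → π x = x := by
  rw [pS, Finset.mem_filter]
  exact ⟨fun h => h.2, fun h => ⟨Finset.mem_univ _, h⟩⟩

theorem maps [Fintype A] {S : Finset A} {π : Equiv.Perm A} (h : π ∈ pS S) {x : A} (hx : x ∈ S) :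
    π x ∈ S := by
  by_contra h0
  have h1 := mem_pS.1 h (π x) h0
  have h2 := π.injective h1
  rw [h2] at h0
  exact h0 hx

theorem symm_maps [Fintype A] {S : Finset A} {π : Equiv.Perm A} (h : π ∈ pS S) {x : A}
    (hx : x ∈ S) : π.symm x ∈ S := by
  by_contra h0
  have h1 := mem_pS.1 h (π.symm x) h0
  rw [Equiv.apply_symm_apply] at h1
  rw [← h1] at h0
  exact h0 hx

/-- The key step. -/
theorem key [Fintype A] {T S C T₁ S₁ : Finset A} {w : A} (x : Fin v → K)
    (b : A → MvPolynomial (Fin v) K) (m : PX K A v) (hcf : Cf T S C w)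
    (h1 : Cy (S \ S₁) w m) (h2 : Cy C w m) {u : A} (hu : u ∈ S ∪ C) {π σ : Equiv.Perm A}
    (hπ : π ∈ pS T) (hσ : σ ∈ pS S) :
    lin x w ∣ ren (mv u w) (ren π (ren σ (xb x b (T₁ ∪ S₁) * m))) := by
  have hπu : π u = u := by
    apply mem_pS.1 hπ
    intro h
    rcases Finset.mem_union.1 hu with h' | h'
    · exact Finset.disjoint_left.1 hcf.TS h h'
    · exact Finset.disjoint_left.1 hcf.TC h h'
  have hw : π (σ w) = w := by
    rw [mem_pS.1 hσ w hcf.wS, mem_pS.1 hπ w hcf.wT]
  have hus : σ (σ.symm u) = u := Equiv.apply_symm_apply _ _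
  have hmv : mv u w ∘ ⇑π ∘ ⇑σ = (⇑π ∘ ⇑σ) ∘ mv (σ.symm u) w := by
    funext y
    simp only [Function.comp_apply, mv, Function.update_apply, id_eq]
    by_cases hy : y = σ.symm u
    · rw [if_pos hy, hy, hus, hπu, if_pos rfl, hw]
    · rw [if_neg hy, if_neg]
      intro h
      apply hy
      rw [← hπu] at h
      rw [← π.injective h, Equiv.symm_apply_apply]
  have hm : (σ.symm u ∈ S \ S₁ ∨ σ.symm u ∈ C) →
      ren (mv u w) (ren π (ren σ m)) = 0 := by
    intro h
    rw [ren_ren, ren_ren, Function.comp_assoc, hmv, ← ren_ren]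
    rcases h with h | h
    · rw [h1 _ h, map_zero]
    · rw [h2 _ h, map_zero]
  rw [map_mul, map_mul, map_mul]
  rcases Finset.mem_union.1 hu with h | h
  · have h3 := symm_maps hσ h
    by_cases h4 : σ.symm u ∈ S₁
    · apply dvd_mul_of_dvd_left
      rw [ren_ren, ren_ren]
      refine dvd_ren_xb _ x b _ (Finset.mem_union_right T₁ h4) ?_
      simp only [Function.comp_apply, hus, hπu, mv, Function.update_self]
    · rw [hm (Or.inl (Finset.mem_sdiff.2 ⟨h3, h4⟩)), mul_zero]
      exact dvd_zero _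
  · have h3 : σ.symm u = u := by
      rw [Equiv.symm_apply_eq]
      exact (mem_pS.1 hσ u fun h' => Finset.disjoint_left.1 hcf.SC h' h).symm
    rw [hm (Or.inr (by rw [h3]; exact h)), mul_zero]
    exact dvd_zero _

end MSX

open MSX in
theorem MSX_thm (h1 : Stmt_DG) (_h2 : Stmt_DIV) (h3 : Stmt_SYM) : Stmt_MSX := by
  intro K _ _ v M r A _ _ T S C T₁ S₁ w x b m hcf hT₁ hS₁ hb hm
  obtain ⟨-, -, hsy, hopS, -, hcomm, -, hdgS, -, -, -, -⟩ := h3 K A v
  have hmul := (h1 K A A v).2.2.2.2.1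
  have hPC : ∀ y ∈ C, y ∉ T₁ ∪ S₁ := by
    intro y hy h
    rcases Finset.mem_union.1 h with h | h
    · exact Finset.disjoint_left.1 hcf.TC (hT₁ h) hy
    · exact Finset.disjoint_left.1 hcf.SC (hS₁ h) hy
  -- degrees
  have hd : Dg (dgc M T S C w r) (xb x b (T₁ ∪ S₁) * m) := by
    have h := hmul _ _ _ _ (dg_xb h1 x b M hb (T₁ ∪ S₁)) hm.cg.dg
    convert h using 1
    funext y
    simp only [dgc, Finset.mem_union, Finset.mem_sdiff]
    by_cases hy : y ∈ T₁ ∨ y ∈ S₁
    · have hyTS : y ∈ T ∨ y ∈ S := hy.imp (fun h => hT₁ h) (fun h => hS₁ h)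
      have hyw : y ≠ w := by
        rintro rfl
        rcases hyTS with h | h
        · exact hcf.wT h
        · exact hcf.wS h
      have hyC : y ∉ C := by
        intro h
        exact hPC y h (Finset.mem_union.2 hy)
      have hno : ¬((y ∈ T ∧ y ∉ T₁) ∨ (y ∈ S ∧ y ∉ S₁)) := by
        rintro (⟨h, h'⟩ | ⟨h, h'⟩)
        · rcases hy with h'' | h''
          · exact h' h''
          · exact Finset.disjoint_left.1 hcf.TS h (hS₁ h'')
        · rcases hy with h'' | h''
          · exact Finset.disjoint_left.1 hcf.TS (hT₁ h'') h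
          · exact h' h''
      rw [if_pos hyTS, if_pos hy, if_neg hno, if_neg hyC, if_neg hyw]
    · have hiff : (y ∈ T ∨ y ∈ S) ↔ ((y ∈ T ∧ y ∉ T₁) ∨ (y ∈ S ∧ y ∉ S₁)) := by
        have h' : y ∉ T₁ ∧ y ∉ S₁ := not_or.1 hy
        simp only [h'.1, h'.2, not_false_eq_true, and_true]
      simp only [hiff, if_neg hy, zero_add]
  have hdS : ∀ y ∈ S, ∀ z ∈ S, dgc M T S C w r y = dgc M T S C w r z := by
    intro y hy z hz
    simp only [dgc, Finset.mem_union, hy, hz, or_true, if_true]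
  have hdT : ∀ y ∈ T, ∀ z ∈ T, dgc M T S C w r y = dgc M T S C w r z := by
    intro y hy z hz
    simp only [dgc, Finset.mem_union, hy, hz, true_or, if_true]
  have hd1 := (hdgS S _ _ hdS hd).1
  have hd2 := (hdgS T _ _ hdT hd1).2
  -- alternation in `C`
  have hC : Al C (xb x b (T₁ ∪ S₁) * m) := by
    refine (hopS C _ _).2.2.1 ?_ hm.cg.alC
    intro y hy z hz
    apply ren_xb_fix
    intro p hp
    apply Equiv.swap_apply_of_ne_of_ne
    · rintro rfl
      exact hPC _ hy hp
    · rintro rfl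
      exact hPC _ hz hp
  have hC1 := (hcomm C S _ hcf.SC.symm).2.1 hC
  have hC2 := (hcomm C T _ hcf.TC.symm).2.2.2 hC1
  have hS1 := (hsy S (xb x b (T₁ ∪ S₁) * m)).2
  have hS2 := (hcomm S T _ hcf.TS.symm).2.2.2 hS1
  refine ⟨⟨hd2, (hsy T _).1, hS2, hC2⟩, ?_⟩
  intro u hu
  rw [smz, map_sum]
  refine Finset.dvd_sum fun π hπ => ?_
  rw [alt, map_sum, map_sum]
  refine Finset.dvd_sum fun σ hσ => ?_
  rw [map_zsmul, map_zsmul]
  rw [zsmul_eq_mul]
  exact dvd_mul_of_dvd_right (key x b m hcf hm.cyS hm.cyC hu hπ hσ) _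

end Pool.Agent.VOP
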