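import Pool.Agent.VOP.StmtsN

/-!
# The Ottaviani-Paoletti conjecture (MP_deb8da_ag): N0C
-/

namespace Pool.Agent.VOP

open MvPolynomial Pool.Agent.VSY

namespace N0C

variable {K : Type} [Field K] {A : Type} {v : ℕ}

theorem lin_single (k : Fin v) (p : A) :
    (lin (Pi.single k 1) p : PX K A v) = X (p, k) := by
  classical
  rw [lin, Finset.sum_eq_single k]
  · simp
  · intro b _ hb
    simp [Pi.single_eq_of_ne hb]
  · intro h
    exact absurd (Finset.mem_univ k) h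

theorem coeff_of_dvd {f : PX K A v} {i : A × Fin v} (h : X i ∣ f) {m : A × Fin v →₀ ℕ}
    (hm : m i = 0) : coeff m f = 0 := by
  classical
  obtain ⟨q, rfl⟩ := h
  rw [coeff_X_mul', if_neg]
  rw [Finsupp.mem_support_iff]
  exact fun h => h hm

theorem coeff_eq_of_dvd {f g : PX K A v} {i : A × Fin v} (h : X i ∣ f - g)
    {m : A × Fin v →₀ ℕ} (hm : m i = 0) : coeff m f = coeff m g := by
  have := coeff_of_dvd h hm
  rw [coeff_sub] at this
  exact sub_eq_zero.1 this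

theorem mem_pS [Fintype A] [DecidableEq A] (S : Finset A) (π : Equiv.Perm A) :
    π ∈ pS S ↔ ∀ x, x ∉ S → π x = x := by
  classical
  unfold pS
  simp

/-- Monomials of a symmetrisation. -/
theorem mem_smz_alt [Fintype A] [DecidableEq A] (T S : Finset A) (g : PX K A v)
    {μ : A × Fin v →₀ ℕ} (h : μ ∈ (smz T (alt S g)).support) :
    ∃ π ∈ pS T, ∃ σ ∈ pS S, ∃ μ₀ ∈ g.support, ∀ p j, μ ((π * σ) p, j) = μ₀ (p, j) := by
  classical
  rw [mem_support_iff, smz, coeff_sum] at h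
  obtain ⟨π, hπ, h1⟩ := Finset.exists_ne_zero_of_sum_ne_zero h
  rw [alt, map_sum, coeff_sum] at h1
  obtain ⟨σ, hσ, h2⟩ := Finset.exists_ne_zero_of_sum_ne_zero h1
  rw [map_zsmul, ren_ren] at h2
  have h3 : μ ∈ (ren (⇑π ∘ ⇑σ) g).support := by
    rw [mem_support_iff]
    intro h0
    apply h2
    rw [coeff_smul, h0, smul_zero]
  obtain ⟨μ₀, hμ₀, h4⟩ := exists_of_mem_support_ren _ _ h3
  refine ⟨π, hπ, σ, hσ, μ₀, hμ₀, fun p j => ?_⟩
  rw [← h4]
  have hinj : Function.Injective (Prod.map (⇑π ∘ ⇑σ) (id : Fin v → Fin v)) :=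
    Function.Injective.prodMap (π.injective.comp σ.injective) Function.injective_id
  exact Finsupp.mapDomain_apply hinj μ₀ (p, j)

theorem dgc_eq_zero [DecidableEq A] {M : ℕ} {T S C : Finset A} {w : A} {r : ℕ} {p : A}
    (h : dgc M T S C w r p ≠ 0) : p ∈ T ∨ p ∈ S ∨ p ∈ C ∨ p = w := by
  by_contra hne
  push Not at hne
  obtain ⟨h1, h2, h3, h4⟩ := hne
  apply h
  have h5 : p ∉ T ∪ S := by
    rw [Finset.mem_union]
    rintro (h | h)
    · exact h1 h
    · exact h2 h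
  rw [dgc, if_neg h5, if_neg h3, if_neg h4]

/-- The key combinatorial step. -/
theorem supp_key [Fintype A] [DecidableEq A] {M r i : ℕ} {T S C T₁ S₁ : Finset A} {w : A}
    {k : Fin v} {b : A → MvPolynomial (Fin v) K} {m f : PX K A v} (hc : Cf T S C w)
    (hT : T₁ ⊆ T) (hS : S₁ ⊆ S) (hi : T₁.card + S₁.card = i)
    (hm : Zc M (T \ T₁) (S \ S₁) C w r m) (hmk : ∀ μ ∈ m.support, ∃ p, 1 ≤ μ (p, k))
    (hdvd : X (w, k) ∣ smz T (alt S (xb (Pi.single k 1) b (T₁ ∪ S₁) * m)) - f) :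
    ∀ μ ∈ f.support, μ (w, k) = 0 → (∃ c ∈ C, 1 ≤ μ (c, k)) ∨
      i + 1 ≤ ((T ∪ S).filter fun p => 1 ≤ μ (p, k)).card := by
  intro μ hμ hw
  have h1 : μ ∈ (smz T (alt S (xb (Pi.single k 1) b (T₁ ∪ S₁) * m))).support := by
    rw [mem_support_iff, coeff_eq_of_dvd hdvd hw]
    exact mem_support_iff.1 hμ
  obtain ⟨π, hπ, σ, hσ, μ₀, hμ₀, h2⟩ := mem_smz_alt T S _ h1
  rw [mem_pS] at hπ hσ
  have hfix : ∀ q, q ∉ T → q ∉ S → (π * σ) q = q := by
    intro q h3 h4
    rw [Equiv.Perm.mul_apply, hσ q h4, hπ q h3]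
  have hmap : ∀ q ∈ T ∪ S, (π * σ) q ∈ T ∪ S := by
    intro q hq
    by_contra h3
    rw [Finset.mem_union, not_or] at h3
    have h4 := hfix _ h3.1 h3.2
    have h5 := (π * σ).injective h4
    rw [h5] at h3
    rw [Finset.mem_union] at hq
    rcases hq with hq | hq
    · exact h3.1 hq
    · exact h3.2 hq
  have hw0 : μ₀ (w, k) = 0 := by
    rw [← h2 w k, hfix w hc.wT hc.wS, hw]
  obtain ⟨μ₁, hμ₁, μ₂, hμ₂, h3⟩ := Finset.mem_add.1 (support_mul _ _ hμ₀)
  have hP : ∀ p ∈ T₁ ∪ S₁, 1 ≤ μ₀ (p, k) := by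
    intro p hp
    have h4 : X (p, k) ∣ xb (Pi.single k 1) b (T₁ ∪ S₁) := by
      refine dvd_trans ?_ (Finset.dvd_prod_of_mem
        (fun p => (lin (Pi.single k 1) p : PX K A v) * atp p (b p)) hp)
      rw [lin_single]
      exact dvd_mul_right _ _
    have h5 : μ₁ (p, k) ≠ 0 := fun h => mem_support_iff.1 hμ₁ (coeff_of_dvd h4 h)
    rw [← h3, Finsupp.add_apply]
    omega
  obtain ⟨p, hp⟩ := hmk μ₂ hμ₂
  have hp0 : 1 ≤ μ₀ (p, k) := by
    rw [← h3, Finsupp.add_apply]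
    omega
  have hpw : p ≠ w := by
    rintro rfl
    omega
  have hδ : dgc M (T \ T₁) (S \ S₁) C w r p ≠ 0 := by
    rw [← hm.cg.dg μ₂ hμ₂ p]
    have h4 : μ₂ (p, k) ≤ ∑ j, μ₂ (p, j) :=
      Finset.single_le_sum (fun j _ => Nat.zero_le (μ₂ (p, j))) (Finset.mem_univ k)
    omega
  have hcase : p ∈ C ∨ (p ∈ T ∪ S ∧ p ∉ T₁ ∪ S₁) := by
    rcases dgc_eq_zero hδ with h | h | h | h
    · right
      rw [Finset.mem_sdiff] at h
      refine ⟨Finset.mem_union_left _ h.1, ?_⟩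
      rw [Finset.mem_union]
      rintro (h' | h')
      · exact h.2 h'
      · exact Finset.disjoint_left.1 hc.TS h.1 (hS h')
    · right
      rw [Finset.mem_sdiff] at h
      refine ⟨Finset.mem_union_right _ h.1, ?_⟩
      rw [Finset.mem_union]
      rintro (h' | h')
      · exact Finset.disjoint_left.1 hc.TS (hT h') h.1
      · exact h.2 h'
    · exact Or.inl h
    · exact absurd h hpw
  rcases hcase with hpC | ⟨hpTS, hpn⟩
  · left
    refine ⟨p, hpC, ?_⟩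
    have h4 := hfix p (fun h => Finset.disjoint_left.1 hc.TC h hpC)
      (fun h => Finset.disjoint_left.1 hc.SC h hpC)
    rw [← h4, h2]
    exact hp0
  · right
    have hdis : Disjoint T₁ S₁ := Finset.disjoint_of_subset_left hT
      (Finset.disjoint_of_subset_right hS hc.TS)
    have hcard : ((insert p (T₁ ∪ S₁)).map (π * σ).toEmbedding).card = i + 1 := by
      rw [Finset.card_map, Finset.card_insert_of_notMem hpn, Finset.card_union_of_disjoint hdis,
        hi]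
    rw [← hcard]
    apply Finset.card_le_card
    intro q hq
    rw [Finset.mem_map] at hq
    obtain ⟨q', hq', rfl⟩ := hq
    rw [Finset.mem_filter]
    have h5 : 1 ≤ μ₀ (q', k) := by
      rcases Finset.mem_insert.1 hq' with rfl | h
      · exact hp0
      · exact hP _ h
    have h6 : q' ∈ T ∪ S := by
      rcases Finset.mem_insert.1 hq' with rfl | h
      · exact hpTS
      · exact Finset.union_subset_union hT hS h
    refine ⟨hmap _ h6, ?_⟩
    have h7 := h2 q' k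
    rw [Equiv.coe_toEmbedding, h7]
    exact h5

/-- Sums of bicycles. -/
theorem Zc_add [Fintype A] [DecidableEq A] (h1 : Stmt_DG) (h3 : Stmt_SYM) {M r : ℕ}
    {T S C : Finset A} {w : A} {f g : PX K A v} (hf : Zc M T S C w r f)
    (hg : Zc M T S C w r g) : Zc M T S C w r (f + g) := by
  obtain ⟨-, d2, -⟩ := h1 K A A v
  obtain ⟨-, -, -, s4, -⟩ := h3 K A v
  refine ⟨⟨(d2 _ f g hf.cg.dg hg.cg.dg).1, ((s4 T f g).1 hf.cg.sy hg.cg.sy).1,
    ((s4 S f g).2.1 hf.cg.alS hg.cg.alS).1, ((s4 C f g).2.1 hf.cg.alC hg.cg.alC).1⟩, ?_, ?_⟩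
  · intro u hu
    rw [map_add, hf.cyS u hu, hg.cyS u hu, add_zero]
  · intro u hu
    rw [map_add, hf.cyC u hu, hg.cyC u hu, add_zero]

theorem swap_inter [DecidableEq A] {D : Finset A} {x y : A}
    (h : (x ∈ D ∧ y ∈ D) ∨ (x ∉ D ∧ y ∉ D)) (J : Finset A) :
    ((J.map (Equiv.swap x y).toEmbedding ∩ D).Nonempty ↔ (J ∩ D).Nonempty) := by
  have hD : ∀ z, Equiv.swap x y z ∈ D ↔ z ∈ D := by
    intro z
    by_cases hx : z = x
    · subst hx
      rw [Equiv.swap_apply_left]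
      tauto
    · by_cases hy : z = y
      · subst hy
        rw [Equiv.swap_apply_right]
        tauto
      · rw [Equiv.swap_apply_of_ne_of_ne hx hy]
  constructor
  · rintro ⟨z, hz⟩
    rw [Finset.mem_inter, Finset.mem_map] at hz
    obtain ⟨⟨z', hz', rfl⟩, hzD⟩ := hz
    exact ⟨z', Finset.mem_inter.2 ⟨hz', (hD z').1 hzD⟩⟩
  · rintro ⟨z, hz⟩
    rw [Finset.mem_inter] at hz
    exact ⟨Equiv.swap x y z, Finset.mem_inter.2 ⟨Finset.mem_map.2 ⟨z, hz.1, rfl⟩, (hD z).2 hz.2⟩⟩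

/-- The parts of a bicycle are chains. -/
theorem Cg_pr [Fintype A] [DecidableEq A] (h5 : Stmt_PR) {M r : ℕ}
    {T S C : Finset A} {w : A} {k : Fin v} {f : PX K A v} (hc : Cf T S C w)
    (hf : Zc M T S C w r f) (Q : Finset A → Prop)
    (hQ : ∀ x y : A, ((x ∈ C ∧ y ∈ C) ∨ (x ∉ C ∧ y ∉ C)) → ∀ J : Finset A,
      Q (J.map (Equiv.swap x y).toEmbedding) ↔ Q J) :
    Cg (dgc M T S C w r) T S C (pr k w Q f) ∧
      ∀ u ∈ S ∪ C, X (w, k) ∣ ren (mv u w) (pr k w Q f) := by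
  obtain ⟨-, p2, p3, -, -, -, p7, -, p9, -⟩ := h5 K A v k w
  have hcomm : ∀ x y : A, x ≠ w → y ≠ w → ((x ∈ C ∧ y ∈ C) ∨ (x ∉ C ∧ y ∉ C)) →
      ren (Equiv.swap x y) (pr k w Q f) = pr k w Q (ren (Equiv.swap x y) f) := by
    intro x y hx hy hxy
    have h := p7 Q (Equiv.swap x y) f (Equiv.swap_apply_of_ne_of_ne hx.symm hy.symm)
    have hP : (fun J : Finset A => Q (J.map (Equiv.swap x y).toEmbedding)) = Q := by
      funext J
      exact propext (hQ x y hxy J)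
    rw [hP] at h
    exact h.symm
  have hneg : pr k w Q (-f) = -pr k w Q f := by
    have h := (p2 Q f f (-1)).2.2
    rw [neg_one_smul, neg_one_smul] at h
    exact h
  refine ⟨⟨p3 Q _ f hf.cg.dg, ?_, ?_, ?_⟩, ?_⟩
  · intro x hx y hy
    rw [hcomm x y (fun h => hc.wT (h ▸ hx)) (fun h => hc.wT (h ▸ hy))
      (Or.inr ⟨Finset.disjoint_left.1 hc.TC hx, Finset.disjoint_left.1 hc.TC hy⟩),
      hf.cg.sy x hx y hy]
  · intro x hx y hy hxy
    rw [hcomm x y (fun h => hc.wS (h ▸ hx)) (fun h => hc.wS (h ▸ hy))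
      (Or.inr ⟨Finset.disjoint_left.1 hc.SC hx, Finset.disjoint_left.1 hc.SC hy⟩),
      hf.cg.alS x hx y hy hxy, hneg]
  · intro x hx y hy hxy
    rw [hcomm x y (fun h => hc.wC (h ▸ hx)) (fun h => hc.wC (h ▸ hy)) (Or.inl ⟨hx, hy⟩),
      hf.cg.alC x hx y hy hxy, hneg]
  · intro u hu
    have huw : u ≠ w := by
      rintro rfl
      rcases Finset.mem_union.1 hu with h | h
      · exact hc.wS h
      · exact hc.wC h
    refine (p9 Q u f huw ?_).1
    rcases Finset.mem_union.1 hu with h | h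
    · rw [hf.cyS u h]
      exact dvd_zero _
    · rw [hf.cyC u h]
      exact dvd_zero _

end N0C

open N0C in
theorem N0C_thm (h1 : Stmt_DG) (h2 : Stmt_DIV) (h3 : Stmt_SYM) (h4 : Stmt_GD0) (h5 : Stmt_PR)
    (h6 : Stmt_LFT) (h7 : Stmt_CP) : Stmt_N0C := by
  intro K _ _ v M β t s l i hTWO hALP hL1 hL2 hCH A _ _ T S C T₁ S₁ w k b m f hc hsp hT hS hC
    hT₁ hS₁ hi hb hm hmk hLR
  obtain ⟨hf, hdvd⟩ := hLR
  rw [lin_single] at hdvd
  have hx : (Pi.single k 1 : Fin v → K) ≠ 0 := by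
    intro h
    have := congrFun h k
    simp at this
  have hkey := supp_key hc hT₁ hS₁ hi hm hmk hdvd
  obtain ⟨p1, p2, p3, p4, p5, p6, p7, p8, p9, p10⟩ := h5 K A v k w
  obtain ⟨l1, l2⟩ := h6 K v M β t s l
  -- the two parts
  have hQ₁ := Cg_pr h5 (k := k) hc hf (fun J => (J ∩ C).Nonempty)
    (fun x y hxy J => swap_inter hxy J)
  have hQ₂ := Cg_pr h5 (k := k) hc hf (fun J => ¬(J ∩ C).Nonempty)
    (fun x y hxy J => not_congr (swap_inter hxy J))
  have hsum : X (w, k) ∣ f - (pr k w (fun J => (J ∩ C).Nonempty) f +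
      pr k w (fun J => ¬(J ∩ C).Nonempty) f) := by
    rw [← p5 (fun J => (J ∩ C).Nonempty) (fun J => ¬(J ∩ C).Nonempty) f
      (fun J h => h.2 h.1)]
    have : (fun J : Finset A => (J ∩ C).Nonempty ∨ ¬(J ∩ C).Nonempty) = fun _ => True := by
      funext J
      exact propext ⟨fun _ => trivial, fun _ => em _⟩
    rw [this]
    exact p4 f
  obtain ⟨F₁, hF₁, hd₁⟩ := l1 hL1 A T S C w (Pi.single k 1) _ hc hS hC hx hQ₁.1
    (fun u hu => by rw [lin_single]; exact hQ₁.2 u hu)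
  obtain ⟨F₂, hF₂, hd₂⟩ := l1 hL1 A T S C w (Pi.single k 1) _ hc hS hC hx hQ₂.1
    (fun u hu => by rw [lin_single]; exact hQ₂.2 u hu)
  have hG₁ : Good M β T (S ∪ C) w (xS (Pi.single k 1) S * F₁) := by
    refine h7 K v M β t s l hTWO hALP hL1 hL2 A T S C w k F₁ hc hsp hT hS hC hF₁ ?_
    intro μ hμ hw
    rw [lin_single] at hd₁
    have h8 := coeff_eq_of_dvd hd₁ hw
    by_contra hne
    have h9 : ¬(μ (w, k) = 0 ∧ (js k w μ ∩ C).Nonempty) := by
      rintro ⟨-, c, hc'⟩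
      apply hne
      rw [Finset.mem_inter, js, Finset.mem_filter] at hc'
      exact ⟨c, hc'.2, hc'.1.2.2⟩
    have h10 := (p1 (fun J => (J ∩ C).Nonempty) f μ).2 h9
    rw [h10] at h8
    exact mem_support_iff.1 hμ h8.symm
  have hG₂ : Good M β T (S ∪ C) w (xS (Pi.single k 1) S * F₂) := by
    have h8 := hCH A T S C w k F₂ hc hsp hT hS hC hF₂ ?_
    · have h9 : (xS (Pi.single k 1) S : PX K A v) = ∏ p ∈ S, X (p, k) := by
        rw [xS]
        exact Finset.prod_congr rfl fun p _ => lin_single k p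
      rw [h9]
      exact h8
    · intro μ hμ hw
      rw [lin_single] at hd₂
      have h8 := coeff_eq_of_dvd hd₂ hw
      have h9 : μ (w, k) = 0 ∧ ¬(js k w μ ∩ C).Nonempty := by
        by_contra hne
        have h10 := (p1 (fun J => ¬(J ∩ C).Nonempty) f μ).2 hne
        rw [h10] at h8
        exact mem_support_iff.1 hμ h8.symm
      have h10 := (p1 (fun J => ¬(J ∩ C).Nonempty) f μ).1 h9
      have h11 : μ ∈ f.support := by
        rw [mem_support_iff, ← h10, h8]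
        exact mem_support_iff.1 hμ
      rcases hkey μ h11 hw with ⟨c, hcC, hc1⟩ | h
      · exfalso
        apply h9.2
        refine ⟨c, Finset.mem_inter.2 ⟨?_, hcC⟩⟩
        rw [js, Finset.mem_filter]
        exact ⟨Finset.mem_univ _, fun h => hc.wC (h ▸ hcC), hc1⟩
      · exact h
  have hcf : Cf T ∅ (S ∪ C) w := by
    refine ⟨Finset.disjoint_empty_right _, ?_, Finset.disjoint_empty_left _, hc.wT,
      Finset.notMem_empty _, ?_⟩
    · rw [Finset.disjoint_union_right]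
      exact ⟨hc.TS, hc.TC⟩
    · rw [Finset.mem_union]
      rintro (h | h)
      · exact hc.wS h
      · exact hc.wC h
  obtain ⟨-, -, -, g4, -⟩ := h4 K A v M β T (S ∪ C) w hcf
  refine l2 hALP A T S C w (Pi.single k 1) f (F₁ + F₂) hc hsp hT hS hC hx hf
    (Zc_add h1 h3 hF₁ hF₂) ?_ ?_
  · rw [lin_single] at hd₁ hd₂ ⊢
    have h8 := dvd_add (dvd_add hsum hd₁) hd₂
    have h9 : f - (pr k w (fun J => (J ∩ C).Nonempty) f +
        pr k w (fun J => ¬(J ∩ C).Nonempty) f) +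
        (pr k w (fun J => (J ∩ C).Nonempty) f - F₁) +
        (pr k w (fun J => ¬(J ∩ C).Nonempty) f - F₂) = f - (F₁ + F₂) := by ring
    rw [h9] at h8
    exact h8
  · rw [mul_add]
    exact (g4 _ _ hG₁ hG₂).1

end Pool.Agent.VOP
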