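import Pool.Agent.VOP.StmtsN

/-!
# The Ottaviani-Paoletti conjecture (MP_deb8da_ag): N0G
-/

set_option autoImplicit false

namespace Pool.Agent.VOP

open MvPolynomial Pool.Agent.VSY

namespace N0G

theorem lin_single {K : Type} [Field K] {A : Type} {v : ℕ} (k : Fin v) (p : A) :
    (lin (Pi.single k 1) p : PX K A v) = X (p, k) := by
  unfold lin
  rw [Finset.sum_eq_single k]
  · simp
  · intro j _ hj
    rw [Pi.single_eq_of_ne hj]
    simp
  · intro h
    exact absurd (Finset.mem_univ k) h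

end N0G

theorem N0G_thm (_h1 : Stmt_DG) (h2 : Stmt_SBT) : Stmt_N0G := by
  intro K _ _ v M β t s l i hN A _ _ T S C T₁ S₁ w x b m f hcf hsp hT hS hC hT1 hS1 hi hx hb hz
    hm hLR
  obtain ⟨-, -, h3, h4, -, h6⟩ := h2 K v
  obtain ⟨k, g, g', hk, hgg⟩ := h6 x hx
  have hg1 : ∀ p : A, sb g (lin (Pi.single k 1) p : PX K A v) = lin x p := by
    intro p
    rw [(h4 A g (Pi.single k 1) p 0 0).1]
    congr 1
    funext j
    rw [Finset.sum_eq_single k]
    · rw [Pi.single_eq_same, one_mul, hk]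
    · intro j' _ hj
      rw [Pi.single_eq_of_ne hj, zero_mul]
    · intro h
      exact absurd (Finset.mem_univ k) h
  have hg2 : ∀ p : A, sb g' (lin x p : PX K A v) = lin (Pi.single k 1) p := by
    intro p
    rw [← hg1 p]
    exact (hgg A _).1
  have hgood := hN A T S C T₁ S₁ w k
    (fun p => aeval (fun i => ∑ j, MvPolynomial.C (g' i j) * X j) (b p)) (sb g' m) (sb g' f) hcf hsp hT hS hC
    hT1 hS1 hi (fun p => (h4 A g' x p M (b p)).2.2 (hb p))
    ((h3 A M β _ (T \ T₁) (S \ S₁) C w g' m).1 hz) ?_ ?_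
  · have h5 := (h3 A M β (2 * M + 2 + β) T S (S ∪ C) w g
      (xS (Pi.single k 1) S * sb g' f)).2.2.1 hgood
    rw [map_mul, (hgg A f).2, xS, map_prod, Finset.prod_congr rfl fun p _ => hg1 p] at h5
    exact h5
  · have h5 := Ideal.mem_map_of_mem (sb g' : PX K A v →ₐ[K] PX K A v).toRingHom hm
    rw [Ideal.map_span, ← Set.range_comp] at h5
    have e : ((sb g' : PX K A v →ₐ[K] PX K A v).toRingHom ∘ fun p : A => (lin x p : PX K A v)) =
        fun p : A => (X (p, k) : PX K A v) := by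
      funext p
      exact (hg2 p).trans (N0G.lin_single k p)
    rw [e] at h5
    have e2 : Set.range (fun p : A => (X (p, k) : PX K A v)) =
        (X : A × Fin v → PX K A v) '' (Set.range fun p : A => (p, k)) := by
      rw [← Set.range_comp]
      rfl
    rw [e2, mem_ideal_span_X_image] at h5
    intro μ hμ
    obtain ⟨y, ⟨p, rfl⟩, hp⟩ := h5 μ hμ
    exact ⟨p, Nat.one_le_iff_ne_zero.mpr hp⟩
  · refine ⟨(h3 A M β _ T S C w g' f).1 hLR.1, ?_⟩
    have h5 := map_dvd (sb g' : PX K A v →ₐ[K] PX K A v) hLR.2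
    rw [hg2, map_sub] at h5
    have e1 := (h3 A M β 0 T S C w g' (alt S (xb x b (T₁ ∪ S₁) * m))).2.2.2.1
    have e2 := (h3 A M β 0 T S C w g' (xb x b (T₁ ∪ S₁) * m)).2.2.2.2
    rw [← e1, ← e2, map_mul] at h5
    have e3 : sb g' (xb x b (T₁ ∪ S₁) : PX K A v) = xb (Pi.single k 1)
        (fun p => aeval (fun i => ∑ j, MvPolynomial.C (g' i j) * X j) (b p)) (T₁ ∪ S₁) := by
      rw [xb, xb, map_prod]
      refine Finset.prod_congr rfl fun p _ => ?_
      rw [map_mul, hg2, (h4 A g' x p M (b p)).2.1]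
    rw [e3] at h5
    exact h5

end Pool.Agent.VOP
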