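import Pool.Agent.VOP.StmtsN

/-!
# VOP, N1: `FCm` is stable under invertible substitutions
-/

namespace Pool.Agent.VOP

open MvPolynomial Pool.Agent.VSY

namespace N1

theorem lin_inj {K : Type} [Field K] {A : Type} {v : ℕ} (x : Fin v → K) (p : A)
    (h : (lin x p : PX K A v) = 0) : x = 0 := by
  classical
  funext k
  have h1 := congrArg (coeff (Finsupp.single (p, k) 1)) h
  simp only [lin, coeff_sum, coeff_C_mul, coeff_zero] at h1
  rw [Finset.sum_eq_single k] at h1
  · simpa using h1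
  · intro i _ hi
    rw [coeff_X, if_neg, mul_zero]
    intro h2
    have h3 := Finsupp.single_left_injective one_ne_zero h2
    exact hi (Prod.ext_iff.1 h3).2
  · intro hk
    exact absurd (Finset.mem_univ k) hk

end N1

open N1 in
theorem N1_thm (h1 : Stmt_DG) (h2 : Stmt_SBT) : Stmt_N1 := by
  intro K _ _ v M β A _ _ T S C T₁ S₁ w m g g' hg hg' hF x b f hx hb hL
  obtain ⟨-, -, hs3, hs4, -, -⟩ := h2 K v
  have hlin : ∀ p : A, sb g' (lin x p : PX K A v) = lin (fun j => ∑ i, x i * g' i j) p :=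
    fun p => (hs4 A g' x p 0 0).1
  have hatp : ∀ p : A, sb g' (atp p (b p) : PX K A v) =
      atp p (aeval (fun i => ∑ j, MvPolynomial.C (g' i j) * X j) (b p)) :=
    fun p => (hs4 A g' x p 0 (b p)).2.1
  have hx' : (fun j => ∑ i, x i * g' i j) ≠ 0 := by
    intro h0
    apply hx
    apply lin_inj (A := A) x w
    have h3 := hg' (lin x w)
    rw [hlin, h0] at h3
    rw [← h3]
    have h4 : (lin (0 : Fin v → K) w : PX K A v) = 0 := by simp [lin]
    rw [h4, map_zero]
  have hxb : sb g' (xb x b (T₁ ∪ S₁) : PX K A v) = xb (fun j => ∑ i, x i * g' i j)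
      (fun p => aeval (fun i => ∑ j, MvPolynomial.C (g' i j) * X j) (b p)) (T₁ ∪ S₁) := by
    simp only [xb, map_prod, map_mul, hlin, hatp]
  have hsa : ∀ F : PX K A v, sb g' (smz T (alt S F)) = smz T (alt S (sb g' F)) := by
    intro F
    rw [← (hs3 A M β 0 T S C w g' (alt S F)).2.2.2.1, ← (hs3 A M β 0 T S C w g' F).2.2.2.2]
  have hxS : sb g (xS (fun j => ∑ i, x i * g' i j) S : PX K A v) = xS x S := by
    have h3 : (xS (fun j => ∑ i, x i * g' i j) S : PX K A v) = sb g' (xS x S) := by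
      simp only [xS, map_prod, hlin]
    rw [h3, hg']
  have hG := hF (fun j => ∑ i, x i * g' i j)
    (fun p => aeval (fun i => ∑ j, MvPolynomial.C (g' i j) * X j) (b p)) (sb g' f) hx'
    (fun p => (hs4 A g' x p M (b p)).2.2 (hb p)) ⟨(hs3 A M β _ T S C w g' f).1 hL.1, ?_⟩
  · have h5 := (hs3 A M β 0 T S (S ∪ C) w g _).2.2.1 hG
    rw [map_mul, hxS, hg'] at h5
    exact h5
  · obtain ⟨q, hq⟩ := hL.2
    refine ⟨sb g' q, ?_⟩
    have h6 := congrArg (sb g') hq
    rw [map_sub, hsa, map_mul, map_mul, hxb, hg, hlin] at h6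
    exact h6

end Pool.Agent.VOP
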