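import Pool.Agent.VOP.StmtsN
import Pool.Agent.VOP.SYM

/-!
# Module N2: symmetric products satisfy `FCm`
-/

namespace Pool.Agent.VOP

open MvPolynomial Pool.Agent.VSY

namespace N2

variable {K : Type} [Field K] {A : Type} [Fintype A] [DecidableEq A] {v : ℕ}

theorem sum_inv {M : Type*} [AddCommMonoid M] {S : Finset A}
    (F : Equiv.Perm A → M) : ∑ π ∈ pS S, F π⁻¹ = ∑ π ∈ pS S, F π := by
  refine Finset.sum_nbij' (fun π => π⁻¹) (fun π => π⁻¹) (fun π hπ => SYM.inv_mem hπ)
    (fun π hπ => SYM.inv_mem hπ) (fun π _ => inv_inv π) (fun π _ => inv_inv π) (fun π _ => rfl)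

theorem sum_insert' {M : Type*} [AddCommMonoid M] {S : Finset A} {u : A} (hu : u ∉ S)
    (F : Equiv.Perm A → M) : ∑ π ∈ pS (insert u S), F π =
      ∑ b ∈ insert u S, ∑ σ ∈ pS S, F (σ * Equiv.swap u b) := by
  rw [← sum_inv, SYM.sum_insert hu]
  refine Finset.sum_congr rfl fun b _ => ?_
  rw [← sum_inv (S := S)]
  refine Finset.sum_congr rfl fun σ _ => ?_
  rw [mul_inv_rev, Equiv.swap_inv, inv_inv]

omit [Fintype A] in
/-- `mv a w` commutes with the permutations that fix `a` and `w` -/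
theorem mv_comm {a w : A} {π : Equiv.Perm A} (ha : π a = a) (hw : π w = w) (f : PX K A v) :
    ren (mv a w) (ren π f) = ren π (ren (mv a w) f) := by
  rw [ren_ren, ren_ren]
  refine ren_congr (fun x => ?_) f
  simp only [Function.comp_apply, mv]
  by_cases hx : x = a
  · rw [hx, ha, Function.update_self, hw]
  · have h1 : π x ≠ a := by
      intro h
      exact hx (π.injective (h.trans ha.symm))
    rw [Function.update_of_ne h1, Function.update_of_ne hx]
    rfl

theorem mv_alt {S : Finset A} {a w : A} (ha : a ∉ S) (hw : w ∉ S) (f : PX K A v) :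
    ren (mv a w) (alt S f) = alt S (ren (mv a w) f) := by
  rw [SYM.alt_def, SYM.alt_def, map_sum]
  refine Finset.sum_congr rfl fun π hπ => ?_
  rw [map_zsmul, mv_comm (SYM.mem_pS.1 hπ a ha) (SYM.mem_pS.1 hπ w hw)]

omit [Fintype A] in
/-- renaming of the product `xb` by a map that fixes the points of `P` -/
theorem ren_xb (x : Fin v → K) (b : A → MvPolynomial (Fin v) K) (P : Finset A) (φ : A → A)
    (h : ∀ p ∈ P, φ p = p) : ren φ (xb x b P : PX K A v) = xb x b P := by
  unfold xb
  rw [map_prod]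
  refine Finset.prod_congr rfl fun p hp => ?_
  rw [map_mul]
  congr 1
  · unfold lin
    rw [map_sum]
    refine Finset.sum_congr rfl fun i _ => ?_
    rw [map_mul, ren_C, ren_X, h p hp]
  · unfold ren atp
    rw [rename_rename]
    congr 2
    funext j
    simp [Prod.map, h p hp]

end N2

open N2 in
theorem N2_thm (h1 : Stmt_DG) (h2 : Stmt_DIV) (h3 : Stmt_SYM) (h4 : Stmt_GD0) (h5 : Stmt_MSX) :
    Stmt_N2 := by
  intro K _ _ v M β t s l hTh A _ _ T S C T₁ S₁ w a η hcf hT hS hC hT₁ hS₁ haT haS haC haw hη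
  intro x b f hx hb hLR
  obtain ⟨hf, hdiv⟩ := hLR
  obtain ⟨D1, D2, D3, D4, D5, D6, D7⟩ := h2 K A A v x hx
  obtain ⟨Y1, Y2, Y3, Y4, Y5, Y6, Y7, Y8, Y9, Y10, Y11, Y12⟩ := h3 K A v
  have hDG := h1 K A A v
  have haT₁ : a ∉ T₁ := fun h => haT (hT₁ h)
  have haS₁ : a ∉ S₁ := fun h => haS (hS₁ h)
  have hwT : w ∉ T := hcf.wT
  have hwT' : w ∉ insert a T := by
    rw [Finset.mem_insert, not_or]
    exact ⟨fun h => haw h.symm, hwT⟩
  -- the configuration with one more point
  have hcf' : Cf (insert a T) S C w := by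
    refine ⟨?_, ?_, hcf.SC, hwT', hcf.wS, hcf.wC⟩
    · rw [Finset.disjoint_insert_left]
      exact ⟨haS, hcf.TS⟩
    · rw [Finset.disjoint_insert_left]
      exact ⟨haC, hcf.TC⟩
  have hsd : insert a T \ T₁ = insert a (T \ T₁) := by
    rw [Finset.insert_sdiff_of_notMem _ haT₁]
  have hη' : Zc M (insert a T \ T₁) (S \ S₁) C w (M + 1 + β) η := by
    rw [hsd]
    exact hη
  obtain ⟨hcg, hd⟩ := h5 K v M (M + 1 + β) A (insert a T) S C T₁ S₁ w x b η hcf'
    (hT₁.trans (Finset.subset_insert _ _)) hS₁ hb hη'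
  set P : PX K A v := xb x b (T₁ ∪ S₁) with hP
  set g : PX K A v := alt S (P * η) with hg
  set k : ℕ := (T \ T₁).card + 1 with hk
  -- the points of `insert a (T \ T₁)`
  have hdisS : Disjoint (insert a (T \ T₁)) S := by
    rw [Finset.disjoint_insert_left]
    exact ⟨haS, hcf.TS.mono_left Finset.sdiff_subset⟩
  have hPsy : Sy (insert a (T \ T₁)) P := by
    intro y hy z hz
    refine ren_xb x b _ _ fun p hp => ?_
    have hne : ∀ u ∈ insert a (T \ T₁), p ≠ u := by
      rintro u hu rfl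
      rcases Finset.mem_union.1 hp with h | h
      · rcases Finset.mem_insert.1 hu with h' | h'
        · exact haT₁ (h' ▸ h)
        · exact (Finset.mem_sdiff.1 h').2 h
      · exact Finset.disjoint_left.1 hdisS hu (hS₁ h)
    exact Equiv.swap_apply_of_ne_of_ne (hne y hy) (hne z hz)
  have hgsy : Sy (insert a (T \ T₁)) g :=
    ((Y6 _ _ (P * η) hdisS).1) ((Y4 _ P η).2.2.2.1 hPsy hη.cg.sy)
  -- the points of `T₁`
  have hgdiv : ∀ y ∈ T₁, lin x y ∣ g := by
    intro y hy
    have hyS : y ∉ S := Finset.disjoint_left.1 hcf.TS (hT₁ hy)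
    have hfac : P * η = lin x y * (atp y (b y) * xb x b ((T₁ ∪ S₁).erase y) * η) := by
      rw [hP]
      unfold xb
      rw [← Finset.mul_prod_erase (T₁ ∪ S₁) _ (Finset.mem_union_left _ hy)]
      ring
    have hsy : Sy S (lin x y : PX K A v) := by
      intro p hp q hq
      rw [D6, Equiv.swap_apply_of_ne_of_ne]
      · rintro rfl
        exact hyS hp
      · rintro rfl
        exact hyS hq
    rw [hg, hfac, ((Y9 S (atp y (b y) * xb x b ((T₁ ∪ S₁).erase y) * η) (lin x y) 1).2.2.2.2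
      hsy).1]
    exact Dvd.intro _ rfl
  -- symmetrisation preserves divisibility
  have hsmz : ∀ h : PX K A v, lin x w ∣ h → lin x w ∣ smz T h := by
    intro h hh
    rw [SYM.smz_def]
    refine Finset.dvd_sum fun π hπ => ?_
    exact D5 w w π h (SYM.mem_pS.1 hπ w hwT) hh
  -- the main computation
  have hmain : ren (mv a w) (smz (insert a T) g) =
      ∑ y ∈ insert a T, smz T (ren (mv a w) (ren (Equiv.swap a y) g)) := by
    rw [SYM.smz_def, sum_insert' haT, map_sum]
    refine Finset.sum_congr rfl fun y _ => ?_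
    rw [SYM.smz_def, map_sum]
    refine Finset.sum_congr rfl fun π hπ => ?_
    rw [SYM.ren_mul, mv_comm (SYM.mem_pS.1 hπ a haT) (SYM.mem_pS.1 hπ w hwT)]
  have hT1 : ∀ y ∈ T₁, lin x w ∣ smz T (ren (mv a w) (ren (Equiv.swap a y) g)) := by
    intro y hy
    refine hsmz _ (D5 a w _ _ (by simp [mv]) ?_)
    exact D5 y a _ _ (Equiv.swap_apply_right _ _) (hgdiv y hy)
  have hPfix : ren (mv a w) P = P := by
    refine ren_xb x b _ _ fun p hp => ?_
    have hpa : p ≠ a := by
      rintro rfl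
      rcases Finset.mem_union.1 hp with h | h
      · exact haT₁ h
      · exact haS₁ h
    simp [mv, Function.update_of_ne hpa]
  have hT2 : ∀ y ∈ insert a (T \ T₁), smz T (ren (mv a w) (ren (Equiv.swap a y) g)) =
      smz T (alt S (P * ren (mv a w) η)) := by
    intro y hy
    rw [hgsy a (Finset.mem_insert_self _ _) y hy, hg, mv_alt haS hcf.wS, map_mul, hPfix]
  have hsplit : insert a T = T₁ ∪ insert a (T \ T₁) := by
    rw [Finset.union_insert, Finset.union_sdiff_of_subset hT₁]
  have hdisT : Disjoint T₁ (insert a (T \ T₁)) := by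
    rw [Finset.disjoint_insert_right]
    exact ⟨haT₁, Finset.disjoint_sdiff⟩
  have hcard : (insert a (T \ T₁)).card = k := by
    rw [Finset.card_insert_of_notMem]
    intro h
    exact haT (Finset.mem_sdiff.1 h).1
  have hclaim : lin x w ∣ ren (mv a w) (smz (insert a T) g) -
      (k : K) • smz T (alt S (P * ren (mv a w) η)) := by
    rw [hmain, hsplit, Finset.sum_union hdisT, Finset.sum_congr rfl hT2, Finset.sum_const, hcard]
    rw [← Nat.cast_smul_eq_nsmul K k, add_sub_cancel_right]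
    exact Finset.dvd_sum hT1
  have hk0 : (k : K) ≠ 0 := Nat.cast_ne_zero.2 (by omega)
  have hfk : Zc M T S C w (2 * M + 2 + β) ((k : K) • f) := by
    refine ⟨⟨((hDG.2.2.1) _ (k : K) 0 f hf.cg.dg).1, ((Y4 T f f).2.2.2.2 (k : K)).1 hf.cg.sy,
      ((Y4 S f f).2.2.2.2 (k : K)).2 hf.cg.alS, ((Y4 C f f).2.2.2.2 (k : K)).2 hf.cg.alC⟩,
      fun u hu => ?_, fun u hu => ?_⟩
    · rw [map_smul, hf.cyS u hu, smul_zero]
    · rw [map_smul, hf.cyC u hu, smul_zero]
  have hdiv2 : lin x w ∣ ren (mv a w) (smz (insert a T) g) - (k : K) • f := by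
    have h6 : lin x w ∣ (k : K) • (smz T (alt S (P * ren (mv a w) η)) - f) := by
      rw [smul_eq_C_mul]
      exact dvd_mul_of_dvd_right hdiv _
    have h7 := dvd_add hclaim h6
    have h8 : ren (mv a w) (smz (insert a T) g) - (k : K) • smz T (alt S (P * ren (mv a w) η)) +
        (k : K) • (smz T (alt S (P * ren (mv a w) η)) - f) =
        ren (mv a w) (smz (insert a T) g) - (k : K) • f := by
      rw [smul_sub]
      ring
    rw [h8] at h7
    exact h7
  have hgood := hTh A T S C w a x (smz (insert a T) g) ((k : K) • f) hcf hT hS hC hx haT haS haC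
    haw hcg hd hfk hdiv2
  have hcf0 : Cf T ∅ (S ∪ C) w := by
    refine ⟨Finset.disjoint_empty_right _, ?_, Finset.disjoint_empty_left _, hcf.wT,
      Finset.notMem_empty _, ?_⟩
    · rw [Finset.disjoint_union_right]
      exact ⟨hcf.TS, hcf.TC⟩
    · rw [Finset.mem_union, not_or]
      exact ⟨hcf.wS, hcf.wC⟩
  obtain ⟨G1, G2, G3, G4, G5, G6, G7, G8⟩ := h4 K A v M β T (S ∪ C) w hcf0
  rw [mul_smul_comm] at hgood
  exact G6 (k : K) _ hk0 hgood

end Pool.Agent.VOP
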