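import Pool.Agent.VOP.StmtsS

/-!
# The Ottaviani-Paoletti conjecture (MP_deb8da_ag): module OMC
-/

namespace Pool.Agent.VOP

open MvPolynomial Pool.Agent.VSY

namespace OMC

variable {K : Type} [Field K] {A : Type} [DecidableEq A] {v : ℕ}

/-- the map `none ↦ c`, `some c ↦ w` -/
def ph (c w : A) : Option A → A := fun o => (Equiv.swap none (some c) o : Option A).getD w

theorem ph_none (c w : A) : ph c w none = c := by
  rw [ph, Equiv.swap_apply_left]
  rfl

theorem ph_self (c w : A) : ph c w (some c) = w := by
  rw [ph, Equiv.swap_apply_right]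
  rfl

theorem ph_ne {c w x : A} (h : x ≠ c) : ph c w (some x) = x := by
  rw [ph, Equiv.swap_apply_of_ne_of_ne (by simp) (by simpa using h)]
  rfl

theorem swap_some (x y z : A) : Equiv.swap (some x) (some y) (some z) =
    some (Equiv.swap x y z) := by
  simp only [Equiv.swap_apply_def, Option.some.injEq]
  split_ifs <;> rfl

theorem swap_none (x y : A) : Equiv.swap (some x) (some y) (none : Option A) = none :=
  Equiv.swap_apply_of_ne_of_ne (by simp) (by simp)

/-- swaps away from `c`, `w` -/
theorem ph_swap {c w x y : A} (hxc : x ≠ c) (hyc : y ≠ c) (hxw : x ≠ w) (hyw : y ≠ w)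
    (f : PX K (Option A) v) :
    ren (Equiv.swap x y) (ren (ph c w) f) = ren (ph c w) (ren (Equiv.swap (some x) (some y)) f) := by
  rw [ren_ren, ren_ren]
  refine ren_congr (fun o => ?_) f
  rw [Function.comp_apply, Function.comp_apply]
  cases o with
  | none =>
    rw [swap_none, ph_none, Equiv.swap_apply_of_ne_of_ne hxc.symm hyc.symm]
  | some z =>
    rw [swap_some]
    by_cases hz : z = c
    · subst hz
      rw [ph_self, Equiv.swap_apply_of_ne_of_ne hxw.symm hyw.symm,
        Equiv.swap_apply_of_ne_of_ne hxc.symm hyc.symm, ph_self]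
    · rw [ph_ne hz, ph_ne]
      intro h
      have h2 : z = Equiv.swap x y c := by
        rw [← h, Equiv.swap_apply_self]
      rw [Equiv.swap_apply_of_ne_of_ne hxc.symm hyc.symm] at h2
      exact hz h2

/-- the swap of `c` and a point of `S` -/
theorem ph_swap_c {c w y : A} (hyc : y ≠ c) (hcw : c ≠ w) (hyw : y ≠ w)
    (f : PX K (Option A) v) :
    ren (Equiv.swap c y) (ren (ph c w) f) = ren (ph c w) (ren (Equiv.swap none (some y)) f) := by
  rw [ren_ren, ren_ren]
  refine ren_congr (fun o => ?_) f
  rw [Function.comp_apply, Function.comp_apply]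
  cases o with
  | none =>
    rw [ph_none, Equiv.swap_apply_left, Equiv.swap_apply_left, ph_ne hyc]
  | some z =>
    by_cases hz : z = c
    · subst hz
      rw [ph_self, Equiv.swap_apply_of_ne_of_ne hcw.symm hyw.symm,
        Equiv.swap_apply_of_ne_of_ne (by simp) (by simpa using hyc.symm), ph_self]
    · rw [ph_ne hz]
      by_cases hy : z = y
      · subst hy
        rw [Equiv.swap_apply_right, Equiv.swap_apply_right, ph_none]
      · rw [Equiv.swap_apply_of_ne_of_ne hz hy,
          Equiv.swap_apply_of_ne_of_ne (by simp) (by simpa using hy), ph_ne hz]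

/-- the swap of two points `c`, `c'` of `C` -/
theorem ph_swap_cc {c c' w : A} (hc : c' ≠ c) (hcw : c ≠ w) (hcw' : c' ≠ w)
    (f : PX K (Option A) v) :
    ren (Equiv.swap c c') (ren (ph c w) f) = ren (ph c' w) (ren (Equiv.swap (some c) (some c')) f) := by
  rw [ren_ren, ren_ren]
  refine ren_congr (fun o => ?_) f
  rw [Function.comp_apply, Function.comp_apply]
  cases o with
  | none =>
    rw [ph_none, swap_none, Equiv.swap_apply_left, ph_none]
  | some z =>
    rw [swap_some]
    by_cases hz : z = c
    · subst hz
      rw [ph_self, Equiv.swap_apply_of_ne_of_ne hcw.symm hcw'.symm, Equiv.swap_apply_left, ph_self]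
    · rw [ph_ne hz]
      by_cases hy : z = c'
      · subst hy
        rw [Equiv.swap_apply_right, ph_ne (Ne.symm hz)]
      · rw [Equiv.swap_apply_of_ne_of_ne hz hy, ph_ne hy]

theorem mv_self (u w : A) : mv u w u = w := by
  rw [mv, Function.update_self]

theorem mv_ne {u w x : A} (h : x ≠ u) : mv u w x = x := by
  rw [mv, Function.update_of_ne h]
  rfl

theorem ph_mv (c w : A) (f : PX K (Option A) v) :
    ren (mv c w) (ren (ph c w) f) = ren (mv c w) (rn w f) := by
  rw [rn, ren_ren, ren_ren]
  refine ren_congr (fun o => ?_) f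
  rw [Function.comp_apply, Function.comp_apply]
  cases o with
  | none =>
    rw [ph_none, mv_self]
    change w = mv c w w
    by_cases h : w = c
    · rw [h, mv_self]
    · rw [mv_ne h]
  | some z =>
    change _ = mv c w z
    by_cases hz : z = c
    · subst hz
      rw [ph_self, mv_self]
      by_cases h : w = z
      · rw [h, mv_self]
      · rw [mv_ne h]
    · rw [ph_ne hz]

theorem ph_mv_swap {c c' w : A} (hc : c' ≠ c) (hcw' : c' ≠ w)
    (f : PX K (Option A) v) :
    ren (mv c' w) (ren (ph c w) (ren (Equiv.swap (some c) (some c')) f)) =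
      ren (mv c' w) (ren (ph c w) f) := by
  rw [ren_ren, ren_ren, ren_ren]
  refine ren_congr (fun o => ?_) f
  simp only [Function.comp_apply]
  cases o with
  | none => rw [swap_none]
  | some z =>
    rw [swap_some]
    by_cases hz : z = c
    · subst hz
      rw [Equiv.swap_apply_left, ph_self, ph_ne hc, mv_self, mv_ne hcw'.symm]
    · by_cases hy : z = c'
      · subst hy
        rw [Equiv.swap_apply_right, ph_self, ph_ne hz, mv_self, mv_ne hcw'.symm]
      · rw [Equiv.swap_apply_of_ne_of_ne hz hy]

theorem mem_sm {S : Finset A} {x : A} : some x ∈ sm S ↔ x ∈ S := by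
  simp [sm]

theorem none_mem_sm {S : Finset A} : none ∉ sm S := by
  simp [sm]

theorem mem_isn {S : Finset A} {x : A} : some x ∈ isn S ↔ x ∈ S := by
  rw [isn, Finset.mem_insert, mem_sm]
  simp

theorem none_mem_isn {S : Finset A} : none ∈ isn S := by
  rw [isn]
  exact Finset.mem_insert_self _ _

theorem deg_eq [Fintype A] (M β : ℕ) (T S C : Finset A) (w c : A) (hcf : Cf T S C w) (hc : c ∈ C) :
    (fun b => ∑ a ∈ Finset.univ.filter (fun a => ph c w a = b),
      dgc M (sm T) (isn S) (sm C) (some w) (M + β) a) =
    dgc M T (insert c S) (C.erase c) w (2 * M + 2 + β) := by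
  have hcw : c ≠ w := by
    rintro rfl
    exact hcf.wC hc
  have hcT : c ∉ T := fun h => Finset.disjoint_left.1 hcf.TC h hc
  have hcS : c ∉ S := fun h => Finset.disjoint_left.1 hcf.SC h hc
  have d1 : dgc M (sm T) (isn S) (sm C) (some w) (M + β) none = M + 1 := by
    rw [dgc, if_pos]
    rw [Finset.mem_union]
    exact Or.inr none_mem_isn
  have d2 : ∀ x : A, dgc M (sm T) (isn S) (sm C) (some w) (M + β) (some x) =
      if x ∈ T ∪ S then M + 1 else if x ∈ C then M + 2 else if x = w then M + β else 0 := by
    intro x
    simp only [dgc, Finset.mem_union, mem_sm, mem_isn, Option.some.injEq]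
  funext b
  by_cases hb : b = c
  · subst hb
    have h1 : Finset.univ.filter (fun a => ph b w a = b) = {none} := by
      ext o
      rw [Finset.mem_filter, Finset.mem_singleton]
      constructor
      · rintro ⟨-, h⟩
        cases o with
        | none => rfl
        | some z =>
          exfalso
          by_cases hz : z = b
          · rw [hz, ph_self] at h
            exact hcw h.symm
          · rw [ph_ne hz] at h
            exact hz h
      · rintro rfl
        exact ⟨Finset.mem_univ _, ph_none _ _⟩
    rw [h1, Finset.sum_singleton, d1, dgc, if_pos]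
    rw [Finset.mem_union]
    exact Or.inr (Finset.mem_insert_self _ _)
  · by_cases hbw : b = w
    · subst hbw
      have h1 : Finset.univ.filter (fun a => ph c b a = b) = {some b, some c} := by
        ext o
        rw [Finset.mem_filter, Finset.mem_insert, Finset.mem_singleton]
        constructor
        · rintro ⟨-, h⟩
          cases o with
          | none =>
            rw [ph_none] at h
            exact absurd h hcw
          | some z =>
            by_cases hz : z = c
            · right; rw [hz]
            · rw [ph_ne hz] at h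
              left; rw [h]
        · rintro (rfl | rfl)
          · exact ⟨Finset.mem_univ _, ph_ne hb⟩
          · exact ⟨Finset.mem_univ _, ph_self _ _⟩
      rw [h1, Finset.sum_pair (by simpa using hb), d2, d2]
      have e1 : b ∉ T ∪ S := by
        rw [Finset.mem_union]
        rintro (h | h)
        · exact hcf.wT h
        · exact hcf.wS h
      have e2 : c ∉ T ∪ S := by
        rw [Finset.mem_union]
        rintro (h | h)
        · exact hcT h
        · exact hcS h
      rw [if_neg e1, if_neg hcf.wC, if_pos rfl, if_neg e2, if_pos hc, dgc, if_neg, if_neg, if_pos rfl]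
      · ring
      · rw [Finset.mem_erase]
        exact fun h => hcf.wC h.2
      · rw [Finset.mem_union, Finset.mem_insert]
        rintro (h | h | h)
        · exact hcf.wT h
        · exact hb h
        · exact hcf.wS h
    · have h1 : Finset.univ.filter (fun a => ph c w a = b) = {some b} := by
        ext o
        rw [Finset.mem_filter, Finset.mem_singleton]
        constructor
        · rintro ⟨-, h⟩
          cases o with
          | none =>
            rw [ph_none] at h
            exact absurd h.symm hb
          | some z =>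
            by_cases hz : z = c
            · rw [hz, ph_self] at h
              exact absurd h.symm hbw
            · rw [ph_ne hz] at h
              rw [h]
        · rintro rfl
          exact ⟨Finset.mem_univ _, ph_ne hb⟩
      rw [h1, Finset.sum_singleton, d2]
      simp only [dgc, Finset.mem_union, Finset.mem_insert, Finset.mem_erase, hb, hbw, false_or,
        ne_eq, not_false_eq_true, true_and, if_false]

end OMC

theorem OMC_thm (h1 : Stmt_DG) (_h2 : Stmt_SYM) : Stmt_OMC := by
  intro K _ _ v M β A _ _ T S C w Ω hcf hΩ c hc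
  have hcw : c ≠ w := by
    rintro rfl
    exact hcf.wC hc
  have hcT : c ∉ T := fun h => Finset.disjoint_left.1 hcf.TC h hc
  have hcS : c ∉ S := fun h => Finset.disjoint_left.1 hcf.SC h hc
  change Cg (dgc M T (insert c S) (C.erase c) w (2 * M + 2 + β)) T (insert c S) (C.erase c)
        (ren (OMC.ph c w) Ω) ∧
      ren (mv c w) (ren (OMC.ph c w) Ω) = ren (mv c w) (rn w Ω) ∧
      (∀ c' ∈ C, c' ≠ c → ren (mv c' w) (ren (OMC.ph c w) Ω) = 0 ∧
        ren (Equiv.swap c c') (ren (OMC.ph c w) Ω) = -ren (OMC.ph c' w) Ω)
  have hTw : ∀ x ∈ T, x ≠ w ∧ x ≠ c := by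
    intro x hx
    refine ⟨?_, ?_⟩
    · rintro rfl
      exact hcf.wT hx
    · rintro rfl
      exact hcT hx
  have hSw : ∀ x ∈ S, x ≠ w ∧ x ≠ c := by
    intro x hx
    refine ⟨?_, ?_⟩
    · rintro rfl
      exact hcf.wS hx
    · rintro rfl
      exact hcS hx
  have hCw : ∀ x ∈ C, x ≠ w := by
    rintro x hx rfl
    exact hcf.wC hx
  refine ⟨⟨?_, ?_, ?_, ?_⟩, OMC.ph_mv c w Ω, ?_⟩
  · have h := (h1 K (Option A) A v).2.2.2.2.2.2.2.1 _ (OMC.ph c w) Ω hΩ.dg
    rwa [OMC.deg_eq M β T S C w c hcf hc] at h
  · intro x hx y hy
    rw [OMC.ph_swap (hTw x hx).2 (hTw y hy).2 (hTw x hx).1 (hTw y hy).1,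
      hΩ.sy (some x) (OMC.mem_sm.2 hx) (some y) (OMC.mem_sm.2 hy)]
  · intro x hx y hy hxy
    rw [Finset.mem_insert] at hx hy
    rcases hx with rfl | hx
    · rcases hy with rfl | hy
      · exact absurd rfl hxy
      · rw [OMC.ph_swap_c (hSw y hy).2 hcw (hSw y hy).1,
          hΩ.alS none OMC.none_mem_isn (some y) (OMC.mem_isn.2 hy) (by simp), map_neg]
    · rcases hy with rfl | hy
      · rw [Equiv.swap_comm, OMC.ph_swap_c (hSw x hx).2 hcw (hSw x hx).1,
          hΩ.alS none OMC.none_mem_isn (some x) (OMC.mem_isn.2 hx) (by simp), map_neg]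
      · rw [OMC.ph_swap (hSw x hx).2 (hSw y hy).2 (hSw x hx).1 (hSw y hy).1,
          hΩ.alS (some x) (OMC.mem_isn.2 hx) (some y) (OMC.mem_isn.2 hy) (by simpa using hxy),
          map_neg]
  · intro x hx y hy hxy
    rw [Finset.mem_erase] at hx hy
    rw [OMC.ph_swap hx.1 hy.1 (hCw x hx.2) (hCw y hy.2),
      hΩ.alC (some x) (OMC.mem_sm.2 hx.2) (some y) (OMC.mem_sm.2 hy.2) (by simpa using hxy),
      map_neg]
  · intro c' hc' hne
    have hal : ren (Equiv.swap (some c) (some c')) Ω = -Ω :=
      hΩ.alC (some c) (OMC.mem_sm.2 hc) (some c') (OMC.mem_sm.2 hc') (by simpa using hne.symm)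
    constructor
    · have h := OMC.ph_mv_swap (K := K) (v := v) hne (hCw c' hc') Ω
      rw [hal, map_neg, map_neg] at h
      exact self_eq_neg.1 h.symm
    · rw [OMC.ph_swap_cc hne hcw (hCw c' hc'), hal, map_neg]

end Pool.Agent.VOP
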