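import Pool.Agent.VOP.StmtsS

/-!
# The Ottaviani-Paoletti conjecture (MP_deb8da_ag): the relation OMG
-/

namespace Pool.Agent.VOP

open MvPolynomial Pool.Agent.VSY

namespace OMG

variable {K : Type} [Field K] {v : ℕ}

theorem ren_lin {A B : Type} (φ : A → B) (x : Fin v → K) (p : A) :
    ren φ (lin x p : PX K A v) = lin x (φ p) := by
  simp [lin]

theorem ren_xS {A B : Type} (φ : A → B) (x : Fin v → K) (S : Finset A) :
    ren φ (xS x S : PX K A v) = ∏ p ∈ S, lin x (φ p) := by
  simp only [xS, map_prod, ren_lin]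

variable {A : Type} [DecidableEq A]

omit [DecidableEq A] in
theorem none_notMem_sm (S : Finset A) : (none : Option A) ∉ sm S := by
  simp [sm]

theorem prod_isn {R : Type} [CommMonoid R] (S : Finset A) (F : Option A → R) :
    ∏ p ∈ isn S, F p = F none * ∏ p ∈ S, F (some p) := by
  rw [isn, Finset.prod_insert (none_notMem_sm S), sm, Finset.prod_map]
  rfl

/-- The product of the forms is symmetric. -/
theorem swap_xS (x : Fin v → K) (S : Finset A) (a b : A) (ha : a ∈ S) (hb : b ∈ S) :
    ren (Equiv.swap a b) (xS x S : PX K A v) = xS x S := by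
  rw [ren_xS, xS]
  refine Finset.prod_nbij (Equiv.swap a b) ?_ (Equiv.injective _).injOn ?_ (fun p _ => rfl)
  · intro p hp
    rcases eq_or_ne p a with rfl | h1
    · rwa [Equiv.swap_apply_left]
    rcases eq_or_ne p b with rfl | h2
    · rwa [Equiv.swap_apply_right]
    rwa [Equiv.swap_apply_of_ne_of_ne h1 h2]
  · intro p hp
    refine ⟨Equiv.swap a b p, ?_, Equiv.swap_apply_self a b p⟩
    rw [Finset.mem_coe] at hp ⊢
    rcases eq_or_ne p a with rfl | h1
    · rwa [Equiv.swap_apply_left]
    rcases eq_or_ne p b with rfl | h2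
    · rwa [Equiv.swap_apply_right]
    rwa [Equiv.swap_apply_of_ne_of_ne h1 h2]

end OMG

open OMG in
theorem OMG_thm (h1 : Stmt_DG) (h2 : Stmt_SYM) (h3 : Stmt_GD0) (h4 : Stmt_GD2) : Stmt_OMG := by
  intro K _ _ v M β A _ _ T S C w x Ω hcf hΩ
  obtain ⟨-, -, -, -, hmul, -, -, -, -, -, -, hxS⟩ := h1 K (Option A) (Option A) v
  have hcf' : Cf T ∅ (S ∪ C) w :=
    ⟨by simp, Finset.disjoint_union_right.2 ⟨hcf.TS, hcf.TC⟩, by simp, hcf.wT, by simp, by
      simp only [Finset.mem_union, not_or]
      exact ⟨hcf.wS, hcf.wC⟩⟩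
  have hdg : Dg (dgc M (sm T) ∅ (isn (S ∪ C)) (some w) (M + β))
      ((xS x (isn S) : PX K (Option A) v) * Ω) := by
    have := hmul _ _ _ _ (hxS x (isn S)) hΩ.dg
    convert this using 1
    funext p
    have hTS := Finset.disjoint_left.1 hcf.TS
    have hTC := Finset.disjoint_left.1 hcf.TC
    have hSC := Finset.disjoint_left.1 hcf.SC
    cases p with
    | none =>
      simp [dgc, isn]
      ring
    | some p =>
      have e1 : ∀ D : Finset A, (some p ∈ sm D) ↔ p ∈ D := by simp [sm]
      have e2 : ∀ D : Finset A, (some p ∈ isn D) ↔ p ∈ D := by simp [isn]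
      simp only [dgc, Finset.mem_union, e1, e2, Finset.notMem_empty, or_false, Option.some.injEq]
      by_cases hT : p ∈ T
      · simp [hT, hTS hT]
      · by_cases hS : p ∈ S
        · simp [hT, hS]
          ring
        · simp [hT, hS]
  have key := h4 K A v M β T (S ∪ C) w _ hcf' hdg
  convert key using 1
  have hrn : rn w ((xS x (isn S) : PX K (Option A) v) * Ω) = lin x w * xS x S * rn w Ω := by
    rw [map_mul]
    congr 1
    rw [rn, ren_xS, prod_isn]
    rfl
  rw [Finset.sum_union hcf.SC]
  have hS : ∑ c ∈ S, ren (fun o => (Equiv.swap none (some c) o : Option A).getD w)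
      ((xS x (isn S) : PX K (Option A) v) * Ω) =
      ∑ c ∈ S, -rn w ((xS x (isn S) : PX K (Option A) v) * Ω) := by
    refine Finset.sum_congr rfl fun c hc => ?_
    have hn : (none : Option A) ∈ isn S := by simp [isn]
    have hs : (some c : Option A) ∈ isn S := by simp [isn, hc]
    have e := ren_ren (Equiv.swap none (some c) : Option A → Option A)
      (fun o : Option A => o.getD w) ((xS x (isn S) : PX K (Option A) v) * Ω)
    have e' : (fun o : Option A => (Equiv.swap none (some c) o : Option A).getD w) =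
      (fun o : Option A => o.getD w) ∘ (Equiv.swap none (some c) : Option A → Option A) := rfl
    rw [e', ← e, map_mul, swap_xS x (isn S) _ _ hn hs, hΩ.alS _ hn _ hs (by simp), mul_neg,
      map_neg, rn]
  have hC : ∑ c ∈ C, ren (fun o => (Equiv.swap none (some c) o : Option A).getD w)
      ((xS x (isn S) : PX K (Option A) v) * Ω) =
      ∑ c ∈ C, xS x (insert c S) *
        ren (fun o => (Equiv.swap none (some c) o : Option A).getD w) Ω := by
    refine Finset.sum_congr rfl fun c hc => ?_
    rw [map_mul]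
    congr 1
    have hcS : c ∉ S := fun h => Finset.disjoint_left.1 hcf.SC h hc
    rw [ren_xS, prod_isn, xS, Finset.prod_insert hcS]
    refine congrArg₂ (· * ·) ?_ ?_
    · rw [Equiv.swap_apply_left]
      rfl
    · refine Finset.prod_congr rfl fun p hp => ?_
      have hpc : (some p : Option A) ≠ some c := by
        intro h
        rw [Option.some.injEq] at h
        exact hcS (h ▸ hp)
      rw [Equiv.swap_apply_of_ne_of_ne (by simp) hpc]
      rfl
  rw [hS, hC, Finset.sum_const, hrn, Nat.cast_add, Nat.cast_one, add_smul, one_smul, smul_neg,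
    Nat.cast_smul_eq_nsmul]
  ring

end Pool.Agent.VOP
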