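import Pool.Agent.VOP.StmtsN

/-!
# Module ORT: over an ordered field a stable subspace containing all highest weight vectors is
everything
-/

namespace Pool.Agent.VOP

open MvPolynomial Pool.Agent.VSY

namespace ORT

section form

variable (K : Type) [Field K] (σ : Type) [Fintype σ]

variable {σ} in
/-- product of the factorials of the exponents -/
noncomputable def fac (m : σ →₀ ℕ) : K := ∏ y : σ, ((m y).factorial : K)

/-- the Fischer form -/
noncomputable def bf : LinearMap.BilinForm K (MvPolynomial σ K) :=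
  (basisMonomials σ K).constr K (fun m => fac K m • lcoeff K m)

variable {K σ}

theorem fac_add (m : σ →₀ ℕ) (y : σ) :
    fac K (m + Finsupp.single y 1) = fac K m * (m y + 1) := by
  classical
  rw [fac, fac, ← Finset.mul_prod_erase _ _ (Finset.mem_univ y),
    ← Finset.mul_prod_erase Finset.univ (fun z => ((m z).factorial : K)) (Finset.mem_univ y)]
  have h : ∏ z ∈ Finset.univ.erase y, (((m + Finsupp.single y 1 : σ →₀ ℕ) z).factorial : K) =
      ∏ z ∈ Finset.univ.erase y, ((m z).factorial : K) := by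
    refine Finset.prod_congr rfl fun z hz => ?_
    rw [Finsupp.add_apply, Finsupp.single_apply, if_neg (Finset.ne_of_mem_erase hz).symm,
      add_zero]
  rw [h, Finsupp.add_apply, Finsupp.single_eq_same, Nat.factorial_succ]
  push_cast
  ring

theorem bf_monomial (m : σ →₀ ℕ) (c : K) (g : MvPolynomial σ K) :
    bf K σ (monomial m c) g = c * (fac K m * coeff m g) := by
  have h : monomial m c = c • (basisMonomials σ K) m := by
    rw [coe_basisMonomials, smul_monomial, smul_eq_mul, mul_one]
  rw [h, map_smul, bf, Module.Basis.constr_basis]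
  rfl

theorem bf_sum (f g : MvPolynomial σ K) (s : Finset (σ →₀ ℕ)) (hs : f.support ⊆ s) :
    bf K σ f g = ∑ m ∈ s, fac K m * coeff m f * coeff m g := by
  have h : ∑ m ∈ s, fac K m * coeff m f * coeff m g =
      ∑ m ∈ f.support, fac K m * coeff m f * coeff m g := by
    symm
    refine Finset.sum_subset hs fun m _ hm => ?_
    rw [notMem_support_iff.1 hm, mul_zero, zero_mul]
  rw [h]
  conv_lhs => rw [f.as_sum]
  rw [map_sum, LinearMap.sum_apply]
  refine Finset.sum_congr rfl fun m _ => ?_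
  rw [bf_monomial]
  ring

theorem bf_symm (f g : MvPolynomial σ K) : bf K σ f g = bf K σ g f := by
  classical
  rw [bf_sum f g _ (Finset.subset_union_left (s₂ := g.support)),
    bf_sum g f _ (Finset.subset_union_right (s₁ := f.support))]
  refine Finset.sum_congr rfl fun m _ => ?_
  ring

theorem bf_X (y : σ) (f g : MvPolynomial σ K) :
    bf K σ (X y * f) g = bf K σ f (pderiv y g) := by
  induction f using MvPolynomial.induction_on' with
  | monomial m c =>
    rw [X, monomial_mul, one_mul, bf_monomial, bf_monomial, coeff_pderiv,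
      add_comm (Finsupp.single y 1), fac_add]
    ring
  | add p q hp hq => rw [mul_add, map_add, map_add, LinearMap.add_apply, LinearMap.add_apply, hp, hq]

end form

section pos

variable {K : Type} [Field K] [LinearOrder K] [IsStrictOrderedRing K] {σ : Type} [Fintype σ]

theorem fac_pos (m : σ →₀ ℕ) : 0 < fac K m :=
  Finset.prod_pos fun y _ => Nat.cast_pos.2 (Nat.factorial_pos _)

theorem bf_self {f : MvPolynomial σ K} (h : bf K σ f f = 0) : f = 0 := by
  rw [bf_sum f f f.support (Finset.Subset.refl _), Finset.sum_eq_zero_iff_of_nonneg] at h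
  · ext m
    rw [coeff_zero]
    by_contra h0
    have h1 := h m (mem_support_iff.2 h0)
    rw [mul_assoc] at h1
    rcases mul_eq_zero.1 h1 with h2 | h2
    · exact (fac_pos (K := K) m).ne' h2
    · exact h0 (mul_self_eq_zero.1 h2)
  · intro m _
    rw [mul_assoc]
    exact mul_nonneg (fac_pos m).le (mul_self_nonneg _)

end pos

section ops

variable {K : Type} [Field K] {A : Type} [Fintype A] [DecidableEq A] {v : ℕ}

theorem Eij_eq (i j : Fin v) (f : PX K A v) :
    Eij i j f = ∑ x : A, X (x, i) * pderiv (x, j) f := by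
  rw [Eij, LinearMap.sum_apply]
  rfl

theorem bf_E (i j : Fin v) (f g : PX K A v) :
    bf K (A × Fin v) (Eij i j f) g = bf K (A × Fin v) f (Eij j i g) := by
  rw [Eij_eq, Eij_eq, map_sum, LinearMap.sum_apply, map_sum]
  refine Finset.sum_congr rfl fun x _ => ?_
  rw [bf_X, bf_symm f, bf_X, bf_symm]

theorem coeff_Eii (hWB : Stmt_WB) (i : Fin v) (f : PX K A v) (m : A × Fin v →₀ ℕ) :
    coeff m (Eij i i f) = ((∑ x, m (x, i) : ℕ) : K) * coeff m f := by
  obtain ⟨-, -, -, -, hW5, -⟩ := hWB K A A v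
  induction f using MvPolynomial.induction_on' with
  | monomial n c =>
    have h : HasW (fun j => ∑ x, n (x, j)) (monomial n c : PX K A v) := by
      intro m' hm' j
      classical
      have h1 := Finset.mem_of_subset support_monomial_subset hm'
      rw [Finset.mem_singleton] at h1
      rw [h1]
    rw [hW5 _ _ i h, coeff_smul, smul_eq_mul, coeff_monomial]
    by_cases hn : n = m
    · rw [hn]
    · rw [if_neg hn, mul_zero, mul_zero]
  | add p q hp hq => rw [map_add, coeff_add, hp, hq, coeff_add, mul_add]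

theorem exists_weight (hWB : Stmt_WB) [CharZero K] (Z : Submodule K (PX K A v))
    (hst : ∀ i, ∀ f ∈ Z, Eij i i f ∈ Z) (n : ℕ) : ∀ f ∈ Z, f ≠ 0 → f.support.card ≤ n →
    ∃ g ∈ Z, g ≠ 0 ∧ ∃ ν : Fin v → ℕ, HasW ν g := by
  induction n with
  | zero =>
    intro f _ hf0 hc
    exfalso
    apply hf0
    rw [← support_eq_empty, ← Finset.card_eq_zero]
    omega
  | succ n ih =>
    intro f hf hf0 hc
    obtain ⟨m, hm⟩ : f.support.Nonempty := by
      rw [Finset.nonempty_iff_ne_empty, Ne, support_eq_empty]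
      exact hf0
    by_cases hall : ∀ m' ∈ f.support, ∀ j, ∑ x, m' (x, j) = ∑ x, m (x, j)
    · exact ⟨f, hf, hf0, _, hall⟩
    · push Not at hall
      obtain ⟨m', hm', j, hj⟩ := hall
      have hco : ∀ k, coeff k (Eij j j f - ((∑ x, m (x, j) : ℕ) : K) • f) =
          (((∑ x, k (x, j) : ℕ) : K) - ((∑ x, m (x, j) : ℕ) : K)) * coeff k f := by
        intro k
        rw [coeff_sub, coeff_Eii hWB, coeff_smul, smul_eq_mul]
        ring
      refine ih (Eij j j f - ((∑ x, m (x, j) : ℕ) : K) • f)
        (Z.sub_mem (hst j f hf) (Z.smul_mem _ hf)) ?_ ?_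
      · intro h0
        have h1 := hco m'
        rw [h0, coeff_zero] at h1
        rcases mul_eq_zero.1 h1.symm with h2 | h2
        · rw [sub_eq_zero, Nat.cast_inj] at h2
          exact hj h2
        · exact mem_support_iff.1 hm' h2
      · have h1 : (Eij j j f - ((∑ x, m (x, j) : ℕ) : K) • f).support ⊆ f.support.erase m := by
          intro k hk
          rw [mem_support_iff, hco] at hk
          rw [Finset.mem_erase]
          refine ⟨?_, mem_support_iff.2 (right_ne_zero_of_mul hk)⟩
          rintro rfl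
          rw [sub_self, zero_mul] at hk
          exact hk rfl
        have h2 := Finset.card_le_card h1
        rw [Finset.card_erase_of_mem hm] at h2
        omega

/-- the height of a weight -/
def ht (ν : Fin v → ℕ) : ℕ := ∑ j : Fin v, (v - (j : ℕ)) * ν j

theorem ht_le {B : ℕ} {ν : Fin v → ℕ} {f : PX K A v} (hν : HasW ν f) (hf : f ≠ 0)
    (hB : ∀ m ∈ f.support, ∑ y, m y ≤ B) : ht ν ≤ v * B := by
  obtain ⟨m, hm⟩ : f.support.Nonempty := by
    rw [Finset.nonempty_iff_ne_empty, Ne, support_eq_empty]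
    exact hf
  have h1 : ∑ j, ν j ≤ B := by
    refine le_trans (le_of_eq ?_) (hB m hm)
    rw [Fintype.sum_prod_type_right]
    exact Finset.sum_congr rfl fun j _ => (hν m hm j).symm
  calc ht ν ≤ ∑ j : Fin v, v * ν j :=
        Finset.sum_le_sum fun j _ => Nat.mul_le_mul_right _ (Nat.sub_le _ _)
    _ = v * ∑ j, ν j := by rw [Finset.mul_sum]
    _ ≤ v * B := Nat.mul_le_mul_left _ h1

theorem exists_highest (hWB : Stmt_WB) (B : ℕ) (Z : Submodule K (PX K A v))
    (hst : ∀ i j, ∀ f ∈ Z, Eij i j f ∈ Z) (hB : ∀ f ∈ Z, ∀ m ∈ f.support, ∑ y, m y ≤ B)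
    (n : ℕ) : ∀ f ∈ Z, f ≠ 0 → ∀ ν : Fin v → ℕ, HasW ν f → v * B - ht ν ≤ n →
    ∃ g ∈ Z, g ≠ 0 ∧ ∃ ν : Fin v → ℕ, HasW ν g ∧ ∀ i j : Fin v, i < j → Eij i j g = 0 := by
  obtain ⟨-, -, -, -, -, hW6, hW7, -⟩ := hWB K A A v
  have step : ∀ f ∈ Z, f ≠ 0 → ∀ ν : Fin v → ℕ, HasW ν f →
      ¬(∀ i j : Fin v, i < j → Eij i j f = 0) →
      ∃ g ∈ Z, g ≠ 0 ∧ ∃ ν' : Fin v → ℕ, HasW ν' g ∧ ht ν < ht ν' := by
    intro f hf hf0 ν hν h
    push Not at h
    obtain ⟨i, j, hij, h0⟩ := h
    have hνj : ν j ≠ 0 := fun h1 => h0 (hW7 ν f i j hν h1)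
    have hne : i ≠ j := hij.ne
    let ν' : Fin v → ℕ := fun l => ν l + (if l = i then 1 else 0) - (if l = j then 1 else 0)
    have hν' : ∀ l, ν' l + (if l = j then 1 else 0) = ν l + (if l = i then 1 else 0) := by
      intro l
      change ν l + (if l = i then 1 else 0) - (if l = j then 1 else 0) + _ = _
      by_cases hl : l = j
      · rw [if_pos hl, hl, if_neg hne.symm]
        omega
      · rw [if_neg hl]
        omega
    refine ⟨Eij i j f, hst i j f hf, h0, ν', hW6 ν ν' f i j hν hν', ?_⟩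
    have h1 : ∑ l : Fin v, (v - (l : ℕ)) * (ν' l + (if l = j then 1 else 0)) =
        ∑ l : Fin v, (v - (l : ℕ)) * (ν l + (if l = i then 1 else 0)) :=
      Finset.sum_congr rfl fun l _ => by rw [hν']
    simp only [mul_add, Finset.sum_add_distrib, mul_ite, mul_one, mul_zero,
      Finset.sum_ite_eq', Finset.mem_univ, if_true] at h1
    have h2 : (v - (j : ℕ)) < v - (i : ℕ) := by
      have := j.2
      have : (i : ℕ) < j := hij
      omega
    change ∑ l : Fin v, (v - (l : ℕ)) * ν l < ∑ l : Fin v, (v - (l : ℕ)) * ν' l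
    omega
  induction n with
  | zero =>
    intro f hf hf0 ν hν hn
    by_cases h : ∀ i j : Fin v, i < j → Eij i j f = 0
    · exact ⟨f, hf, hf0, ν, hν, h⟩
    · exfalso
      obtain ⟨g, hg, hg0, ν', hν', hlt⟩ := step f hf hf0 ν hν h
      have := ht_le hν' hg0 (hB g hg)
      omega
  | succ n ih =>
    intro f hf hf0 ν hν hn
    by_cases h : ∀ i j : Fin v, i < j → Eij i j f = 0
    · exact ⟨f, hf, hf0, ν, hν, h⟩
    · obtain ⟨g, hg, hg0, ν', hν', hlt⟩ := step f hf hf0 ν hν h
      have := ht_le hν' hg0 (hB g hg)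
      exact ih g hg hg0 ν' hν' (by omega)

end ops

end ORT

open ORT in
/-- A stable subspace containing all highest weight vectors is everything. -/
theorem ORT_thm (h1 : Pool.Agent.VSY.Stmt_WB) : Stmt_ORT := by
  intro K _ _ _ A _ _ v B Z N hNZ hZ hN hB hhw
  classical
  have hfd : FiniteDimensional K Z := by
    have h2 : Z ≤ restrictTotalDegree (A × Fin v) K B := by
      intro f hf
      rw [mem_restrictTotalDegree, totalDegree, Finset.sup_le_iff]
      intro m hm
      refine le_trans (le_of_eq ?_) (hB f hf m hm)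
      exact Finsupp.sum_fintype _ _ fun _ => rfl
    exact Submodule.finiteDimensional_of_le h2
  have hsym : (bf K (A × Fin v)).IsSymm := ⟨fun x y => bf_symm x y⟩
  let BZ : LinearMap.BilinForm K Z := (bf K (A × Fin v)).restrict Z
  have hBZ : BZ.IsRefl := by
    intro x y hxy
    exact hsym.isRefl _ _ hxy
  let W : Submodule K Z := N.comap Z.subtype
  have hdis : Disjoint W (BZ.orthogonal W) := by
    rw [Submodule.disjoint_def]
    intro x hx hx'
    have h2 : bf K (A × Fin v) (x : PX K A v) (x : PX K A v) = 0 := hx' x hx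
    exact Subtype.ext (bf_self h2)
  have hcompl : IsCompl W (BZ.orthogonal W) :=
    (LinearMap.BilinForm.isCompl_orthogonal_iff_disjoint hBZ).2 hdis
  by_contra hne
  rw [SetLike.not_le_iff_exists] at hne
  obtain ⟨f, hfZ, hfN⟩ := hne
  have hmem : (⟨f, hfZ⟩ : Z) ∈ W ⊔ BZ.orthogonal W := by
    rw [hcompl.sup_eq_top]
    exact Submodule.mem_top
  obtain ⟨a, ha, b, hb, hab⟩ := Submodule.mem_sup.1 hmem
  let Z' : Submodule K (PX K A v) := Z ⊓ (bf K (A × Fin v)).orthogonal N
  have hbZ' : (b : PX K A v) ∈ Z' := by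
    refine ⟨b.2, ?_⟩
    intro n hn
    exact hb ⟨n, hNZ hn⟩ hn
  have hb0 : (b : PX K A v) ≠ 0 := by
    intro h0
    have h2 : (a : PX K A v) + (b : PX K A v) = f := congrArg Subtype.val hab
    rw [h0, add_zero] at h2
    apply hfN
    rw [← h2]
    exact ha
  have hst : ∀ i j, ∀ g ∈ Z', Eij i j g ∈ Z' := by
    intro i j g hg
    refine ⟨hZ i j g hg.1, ?_⟩
    intro n hn
    change bf K (A × Fin v) n (Eij i j g) = 0
    rw [← bf_E]
    exact hg.2 _ (hN j i n hn)
  obtain ⟨g, hg, hg0, ν, hν⟩ := exists_weight h1 Z' (fun i => hst i i) _ _ hbZ' hb0 le_rfl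
  obtain ⟨z, hz, hz0, μ, hμ, hzE⟩ := exists_highest h1 B Z' hst (fun f hf => hB f hf.1) _ g hg
    hg0 ν hν le_rfl
  have hzN : z ∈ N := hhw μ z hz.1 hμ hzE
  exact hz0 (bf_self (hz.2 z hzN))

end Pool.Agent.VOP
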