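import Pool.Agent.VOP.StmtsS

/-!
# Module PP0 (MP_deb8da_ag): `PP` for `j = 0`
-/

namespace Pool.Agent.VOP

open MvPolynomial Pool.Agent.VSY

namespace PP0

variable {K : Type} [Field K] {A : Type} {v : ℕ}

theorem exCh (α : Fin v → ℕ) (n : ℕ) (h : n ≤ ∑ j, α j) :
    ∃ α' : Fin v → ℕ, (∀ j, α' j ≤ α j) ∧ ∑ j, α' j = n := by
  induction n with
  | zero => exact ⟨0, fun j => Nat.zero_le _, by simp⟩
  | succ n ih =>
    obtain ⟨α', h1, h2⟩ := ih (by omega)
    have h3 : ∃ j, α' j < α j := by
      by_contra hcon
      push Not at hcon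
      have h4 : ∑ j, α j ≤ ∑ j, α' j := Finset.sum_le_sum fun j _ => hcon j
      omega
    obtain ⟨j, hj⟩ := h3
    refine ⟨α' + Pi.single j 1, ?_, ?_⟩
    · intro i
      by_cases hi : i = j
      · subst hi
        rw [Pi.add_apply, Pi.single_eq_same]
        omega
      · rw [Pi.add_apply, Pi.single_eq_of_ne hi, add_zero]
        exact h1 i
    · simp only [Pi.add_apply]
      rw [Finset.sum_add_distrib, h2, Finset.sum_pi_single']
      simp

open Classical in
/-- the chosen part of size `n` of an exponent -/
noncomputable def ch (n : ℕ) (α : Fin v → ℕ) : Fin v → ℕ :=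
  if h : n ≤ ∑ j, α j then (exCh α n h).choose else 0

theorem ch_le (n : ℕ) (α : Fin v → ℕ) (j : Fin v) : ch n α j ≤ α j := by
  unfold ch
  split_ifs with h
  · exact (exCh α n h).choose_spec.1 j
  · exact Nat.zero_le _

theorem ch_sum (n : ℕ) (α : Fin v → ℕ) (h : n ≤ ∑ j, α j) : ∑ j, ch n α j = n := by
  unfold ch
  rw [dif_pos h]
  exact (exCh α n h).choose_spec.2

variable [Fintype A] [DecidableEq A]

/-- the new exponent -/
noncomputable def ex (n : ℕ) (w : A) (m : A × Fin v →₀ ℕ) : Option A × Fin v →₀ ℕ :=
  Finsupp.equivFunOnFinite.symm fun y => match y.1 with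
    | none => ch n (fun j => m (w, j)) y.2
    | some x => if x = w then m (w, y.2) - ch n (fun j => m (w, j)) y.2 else m (x, y.2)

theorem ex_none (n : ℕ) (w : A) (m : A × Fin v →₀ ℕ) (j : Fin v) :
    ex n w m (none, j) = ch n (fun j => m (w, j)) j := rfl

theorem ex_w (n : ℕ) (w : A) (m : A × Fin v →₀ ℕ) (j : Fin v) :
    ex n w m (some w, j) = m (w, j) - ch n (fun j => m (w, j)) j := by
  change (if w = w then m (w, j) - ch n (fun j => m (w, j)) j else m (w, j)) = _
  rw [if_pos rfl]

theorem ex_some (n : ℕ) (w : A) (m : A × Fin v →₀ ℕ) {x : A} (hx : x ≠ w) (j : Fin v) :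
    ex n w m (some x, j) = m (x, j) := by
  change (if x = w then m (w, j) - ch n (fun j => m (w, j)) j else m (x, j)) = _
  rw [if_neg hx]

/-- moving the new point back -/
theorem ex_back (n : ℕ) (w : A) (m : A × Fin v →₀ ℕ) :
    (ex n w m).mapDomain (Prod.map (fun o : Option A => o.getD w) id) = m := by
  ext ⟨b, j⟩
  rw [mapDomain_deg, Finset.sum_filter, Fintype.sum_option]
  have h1 : (∑ x : A, if (some x : Option A).getD w = b then ex n w m (some x, j) else 0) =
      ex n w m (some b, j) := by
    rw [Finset.sum_eq_single b]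
    · rw [if_pos]
      rfl
    · intro x _ hx
      rw [if_neg]
      exact hx
    · intro h
      exact absurd (Finset.mem_univ _) h
  rw [h1]
  by_cases hb : b = w
  · subst hb
    rw [if_pos (by rfl), ex_none, ex_w]
    have h2 := ch_le n (fun j => m (b, j)) j
    have h3 : ch n (fun j => m (b, j)) j ≤ m (b, j) := h2
    omega
  · rw [if_neg, ex_some n w m hb, zero_add]
    intro h
    exact hb h.symm

/-- equivariance of the new exponent -/
theorem ex_perm (n : ℕ) (w : A) (π : Equiv.Perm A) (hπ : π w = w) (m : A × Fin v →₀ ℕ) :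
    ex n w (m.mapDomain (Prod.map π id)) =
      (ex n w m).mapDomain (Prod.map (Option.map π) id) := by
  have hinj : Function.Injective (Prod.map π (id : Fin v → Fin v)) :=
    Function.Injective.prodMap π.injective Function.injective_id
  have hinj' : Function.Injective (Prod.map (Option.map π) (id : Fin v → Fin v)) :=
    Function.Injective.prodMap (Option.map_injective π.injective) Function.injective_id
  have hm : ∀ x j, m.mapDomain (Prod.map π id) (π x, j) = m (x, j) := fun x j =>
    Finsupp.mapDomain_apply hinj m (x, j)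
  have he : ∀ o j, (ex n w m).mapDomain (Prod.map (Option.map π) id) (Option.map π o, j) =
      ex n w m (o, j) := fun o j => Finsupp.mapDomain_apply hinj' (ex n w m) (o, j)
  have hw : ∀ j, m.mapDomain (Prod.map π id) (w, j) = m (w, j) := by
    intro j
    have h := hm w j
    rwa [hπ] at h
  have hw' : (fun j => m.mapDomain (Prod.map π id) (w, j)) = fun j => m (w, j) := funext hw
  ext ⟨o, j⟩
  cases o with
  | none =>
    have h := he none j
    rw [Option.map_none] at h
    rw [h, ex_none, ex_none, hw']
  | some b =>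
    have h := he (some (π.symm b)) j
    rw [Option.map_some, Equiv.apply_symm_apply] at h
    rw [h]
    by_cases hb : b = w
    · subst hb
      have h2 : π.symm b = b := by rw [Equiv.symm_apply_eq, hπ]
      rw [h2, ex_w, ex_w, hw', hw]
    · have hb' : π.symm b ≠ w := by
        intro h2
        apply hb
        rw [← hπ, ← h2, Equiv.apply_symm_apply]
      rw [ex_some n w _ hb, ex_some n w m hb']
      have h3 := hm (π.symm b) j
      rwa [Equiv.apply_symm_apply] at h3

/-- the linear map on polynomials -/
noncomputable def Psi (K : Type) [Field K] (n : ℕ) (w : A) :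
    PX K A v →ₗ[K] PX K (Option A) v :=
  (basisMonomials (A × Fin v) K).constr K fun m => monomial (ex n w m) 1

theorem Psi_monomial (n : ℕ) (w : A) (m : A × Fin v →₀ ℕ) (c : K) :
    Psi K n w (monomial m c : PX K A v) = monomial (ex n w m) c := by
  have h1 : (monomial m c : PX K A v) = c • basisMonomials (A × Fin v) K m := by
    rw [coe_basisMonomials, smul_monomial, smul_eq_mul, mul_one]
  rw [h1, map_smul, Psi, Module.Basis.constr_basis, smul_monomial, smul_eq_mul, mul_one]

theorem Psi_sum (n : ℕ) (w : A) (f : PX K A v) :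
    Psi K n w f = ∑ m ∈ f.support, monomial (ex n w m) (coeff m f) := by
  conv_lhs => rw [f.as_sum]
  rw [map_sum]
  exact Finset.sum_congr rfl fun m _ => Psi_monomial n w m _

theorem Psi_back (n : ℕ) (w : A) (f : PX K A v) : rn w (Psi K n w f) = f := by
  conv_rhs => rw [f.as_sum]
  rw [Psi_sum, map_sum]
  refine Finset.sum_congr rfl fun m _ => ?_
  rw [rn, ren_monomial, ex_back]

theorem Psi_perm (n : ℕ) (w : A) (π : Equiv.Perm A) (hπ : π w = w) (f : PX K A v) :
    ren (Option.map π) (Psi K n w f) = Psi K n w (ren π f) := by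
  conv_lhs => rw [f.as_sum]
  conv_rhs => rw [f.as_sum]
  rw [map_sum, map_sum, map_sum, map_sum]
  refine Finset.sum_congr rfl fun m _ => ?_
  rw [Psi_monomial, ren_monomial, ren_monomial, Psi_monomial, ex_perm n w π hπ]

theorem swap_eq (x y : A) : ∀ o : Option A,
    (Equiv.swap (some x) (some y) : Equiv.Perm (Option A)) o = Option.map (Equiv.swap x y) o := by
  intro o
  cases o with
  | none => rw [Option.map_none, Equiv.swap_apply_of_ne_of_ne] <;> simp
  | some z =>
    rw [Option.map_some, Equiv.swap_apply_def, Equiv.swap_apply_def]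
    simp only [Option.some.injEq]
    split_ifs <;> rfl

end PP0

theorem PP0_thm (h1 : Stmt_DG) : Stmt_PP0 := by
  intro K _ _ v M β t A _ _ T C w f hCf _ hC hZ
  have hC0 : C = ∅ := Finset.card_eq_zero.mp hC
  subst hC0
  have hz0 : ∀ (δ : Option A → ℕ) (T' S' C' : Finset (Option A)),
      Cg δ T' S' C' (0 : PX K (Option A) v) := by
    intro δ T' S' C'
    refine ⟨?_, ?_, ?_, ?_⟩
    · intro m hm
      simp at hm
    · intro x _ y _
      rw [map_zero]
    · intro x _ y _ _
      rw [map_zero, neg_zero]
    · intro x _ y _ _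
      rw [map_zero, neg_zero]
  refine ⟨0, PP0.Psi K (M + 2) w f, ⟨hz0 _ _ _ _, ?_, ?_⟩, ⟨?_, ?_, ?_, ?_⟩, ?_⟩
  · intro u _
    rw [map_zero]
  · intro u _
    rw [map_zero]
  · rw [PP0.Psi_sum]
    refine (h1 K (Option A) (Option A) v).2.2.2.1 _ _ _ _ ?_
    intro m hm m' hm' x
    have h2 : m' = PP0.ex (M + 2) w m := by
      have h3 := support_monomial_subset hm'
      rwa [Finset.mem_singleton] at h3
    subst h2
    have h4 := hZ.cg.dg m hm
    have hw : ∑ j, m (w, j) = 2 * M + 2 + β := by
      rw [h4 w, dgc]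
      simp [hCf.wT]
    cases x with
    | none =>
      have h5 : ∑ j, PP0.ex (M + 2) w m (none, j) = M + 2 :=
        PP0.ch_sum (M + 2) (fun j => m (w, j)) (by
          rw [hw]
          omega)
      rw [h5, dgc]
      simp [isn, sm]
    | some y =>
      by_cases hy : y = w
      · subst hy
        have h5 : ∑ j, PP0.ex (M + 2) y m (some y, j) = M + β := by
          have h6 : ∑ j, PP0.ex (M + 2) y m (some y, j) +
              ∑ j, PP0.ch (M + 2) (fun j => m (y, j)) j = ∑ j, m (y, j) := by
            rw [← Finset.sum_add_distrib]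
            refine Finset.sum_congr rfl fun j _ => ?_
            rw [PP0.ex_w]
            have h7 : PP0.ch (M + 2) (fun j => m (y, j)) j ≤ m (y, j) := PP0.ch_le _ _ j
            omega
          rw [PP0.ch_sum (M + 2) (fun j => m (y, j)) (by
            rw [hw]
            omega), hw] at h6
          omega
        rw [h5, dgc]
        have hwT := hCf.wT
        simp [isn, sm, hwT]
      · have h5 : ∑ j, PP0.ex (M + 2) w m (some y, j) = ∑ j, m (y, j) :=
          Finset.sum_congr rfl fun j _ => PP0.ex_some _ _ _ hy j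
        rw [h5, h4 y, dgc, dgc]
        simp [isn, sm, hy]
  · intro x hx y hy
    rw [sm, Finset.mem_map] at hx hy
    obtain ⟨x', hx', rfl⟩ := hx
    obtain ⟨y', hy', rfl⟩ := hy
    have h2 : ren (Equiv.swap (some x') (some y')) (PP0.Psi K (M + 2) w f) =
        ren (Option.map (Equiv.swap x' y')) (PP0.Psi K (M + 2) w f) :=
      ren_congr (PP0.swap_eq x' y') _
    have h3 : (Equiv.swap x' y') w = w := by
      apply Equiv.swap_apply_of_ne_of_ne
      · rintro rfl
        exact hCf.wT hx'
      · rintro rfl
        exact hCf.wT hy'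
    change ren (Equiv.swap (some x') (some y')) (PP0.Psi K (M + 2) w f) = _
    rw [h2, PP0.Psi_perm _ _ _ h3, hZ.cg.sy x' hx' y' hy']
  · intro x hx
    simp at hx
  · intro x hx y hy hne
    simp only [isn, sm, Finset.map_empty, insert_empty_eq, Finset.mem_singleton] at hx hy
    exact absurd (hx.trans hy.symm) hne
  · rw [map_zero, zero_add, PP0.Psi_back]

end Pool.Agent.VOP
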