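import Pool.Agent.VOP.StmtsS

/-!
# Module PPC: `CLAIM(j)` gives `PP`
-/

namespace Pool.Agent.VOP

open MvPolynomial Pool.Agent.VSY

namespace PPC

/-- The two new points are identified. -/
def ph {A : Type} (o : Option (Option A)) : Option A := o.join

/-- The section of `ph`. -/
def io {A : Type} (o : Option A) : Option (Option A) := o.map some

theorem ph_io {A : Type} (z : Option A) : ph (io z) = z := by
  cases z <;> rfl

theorem io_inj {A : Type} : Function.Injective (io : Option A → Option (Option A)) :=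
  Function.LeftInverse.injective ph_io

theorem exists_io {A : Type} (o : Option (Option A)) (h : o ≠ some none) : ∃ z, o = io z := by
  match o, h with
  | none, _ => exact ⟨none, rfl⟩
  | some (some x), _ => exact ⟨some x, rfl⟩
  | some none, h => exact absurd rfl h

variable {K : Type} [Field K] {A : Type} {v : ℕ} [Fintype A] [DecidableEq A]

theorem ren_ph (h1 : Stmt_DG) (δ' : Option (Option A) → ℕ) (h0 : δ' (some none) = 0)
    (G : PX K (Option (Option A)) v) (hG : Dg δ' G) (ψ : Option A → Option A)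
    (ψ' : Option (Option A) → Option (Option A)) (hψ : ∀ z, ψ' (io z) = io (ψ z)) :
    ren ψ (ren ph G) = ren ph (ren ψ' G) := by
  obtain ⟨-, -, -, -, -, -, -, -, -, h10, -⟩ := h1 K (Option (Option A)) (Option A) v
  rw [ren_ren, ren_ren]
  refine h10 δ' _ _ G (fun x hx => ?_) hG
  obtain ⟨z, rfl⟩ := exists_io x (by rintro rfl; exact hx h0)
  simp only [Function.comp_apply, hψ, ph_io]

theorem swap_io (x y z : Option A) :
    Equiv.swap (io x) (io y) (io z) = io (Equiv.swap x y z) :=
  (io_inj.map_swap x y z).symm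

theorem mv_io (x y z : Option A) : mv (io x) (io y) (io z) = io (mv x y z) := by
  unfold mv
  by_cases h : z = x
  · subst h
    simp
  · rw [Function.update_of_ne h, Function.update_of_ne (fun hh => h (io_inj hh))]
    rfl

theorem dg_ph (h1 : Stmt_DG) (δ : Option A → ℕ) (δ' : Option (Option A) → ℕ)
    (h0 : δ' (some none) = 0) (hδ : ∀ b, δ' (io b) = δ b)
    (G : PX K (Option (Option A)) v) (hG : Dg δ' G) : Dg δ (ren ph G) := by
  obtain ⟨-, -, -, -, -, -, -, h8, -⟩ := h1 K (Option (Option A)) (Option A) v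
  have h := h8 δ' ph G hG
  have e : (fun b => ∑ a ∈ Finset.univ.filter (fun a => ph a = b), δ' a) = δ := by
    funext b
    rw [Finset.sum_eq_single (io b), hδ]
    · intro a ha hab
      rw [Finset.mem_filter] at ha
      by_contra hne
      obtain ⟨z, rfl⟩ := exists_io a (by rintro rfl; exact hne h0)
      rw [ph_io] at ha
      exact hab (by rw [ha.2])
    · intro hb
      refine absurd ?_ hb
      rw [Finset.mem_filter]
      exact ⟨Finset.mem_univ _, ph_io b⟩
  rw [e] at h
  exact h

theorem io_mem_sm (C : Finset A) (b : Option A) : io b ∈ sm (sm C) ↔ b ∈ sm C := by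
  cases b with
  | none => simp [io, sm]
  | some x => simp [io, sm]

theorem io_mem_isn (C : Finset A) (b : Option A) : io b ∈ isn (sm C) ↔ b ∈ isn C := by
  cases b with
  | none => simp [io, isn]
  | some x => simp [io, isn, sm]

theorem io_eq (w : A) (b : Option A) : io b = some (some w) ↔ b = some w := by
  cases b with
  | none => simp [io]
  | some x => simp [io]

theorem dgc_io (M : ℕ) (T S C : Finset (Option A)) (T' S' C' : Finset (Option (Option A)))
    (w : A) (r : ℕ) (hT : ∀ b, io b ∈ T' ↔ b ∈ T) (hS : ∀ b, io b ∈ S' ↔ b ∈ S)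
    (hC : ∀ b, io b ∈ C' ↔ b ∈ C) (b : Option A) :
    dgc M T' S' C' (some (some w)) r (io b) = dgc M T S C (some w) r b := by
  unfold dgc
  simp only [Finset.mem_union, hT, hS, hC, io_eq]

theorem sy_ph (h1 : Stmt_DG) (δ' : Option (Option A) → ℕ) (h0 : δ' (some none) = 0)
    (G : PX K (Option (Option A)) v) (hG : Dg δ' G) (T : Finset (Option A))
    (T' : Finset (Option (Option A))) (hT : ∀ b, b ∈ T → io b ∈ T') (hs : Sy T' G) :
    Sy T (ren ph G) := by
  intro x hx y hy
  rw [ren_ph h1 δ' h0 G hG _ (Equiv.swap (io x) (io y)) (swap_io x y)]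
  rw [hs _ (hT x hx) _ (hT y hy)]

theorem al_ph (h1 : Stmt_DG) (δ' : Option (Option A) → ℕ) (h0 : δ' (some none) = 0)
    (G : PX K (Option (Option A)) v) (hG : Dg δ' G) (T : Finset (Option A))
    (T' : Finset (Option (Option A))) (hT : ∀ b, b ∈ T → io b ∈ T') (hs : Al T' G) :
    Al T (ren ph G) := by
  intro x hx y hy hxy
  rw [ren_ph h1 δ' h0 G hG _ (Equiv.swap (io x) (io y)) (swap_io x y)]
  rw [hs _ (hT x hx) _ (hT y hy) (fun h => hxy (io_inj h)), map_neg]

theorem cy_ph (h1 : Stmt_DG) (δ' : Option (Option A) → ℕ) (h0 : δ' (some none) = 0)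
    (G : PX K (Option (Option A)) v) (hG : Dg δ' G) (T : Finset (Option A)) (w : A)
    (T' : Finset (Option (Option A))) (hT : ∀ b, b ∈ T → io b ∈ T')
    (hs : Cy T' (some (some w)) G) : Cy T (some w) (ren ph G) := by
  intro x hx
  rw [ren_ph h1 δ' h0 G hG _ (mv (io x) (io (some w))) (mv_io x (some w))]
  have := hs _ (hT x hx)
  rw [show (io (some w) : Option (Option A)) = some (some w) from rfl, this, map_zero]

theorem al_empty (f : PX K A v) : Al (∅ : Finset A) f := by
  intro x hx
  simp at hx

theorem cy_empty (w : A) (f : PX K A v) : Cy (∅ : Finset A) w f := by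
  intro x hx
  simp at hx

/-- Old configurations in `Option A`. -/
theorem zc_some (h1 : Stmt_DG) (M r : ℕ) (T C : Finset A) (w : A) (f : PX K A v)
    (hf : Zc M T ∅ C w r f) : Zc M (sm T) ∅ (sm C) (some w) r (ren some f) := by
  obtain ⟨-, -, -, -, -, -, -, h8, -⟩ := h1 K A (Option A) v
  have hmem : ∀ (S : Finset A) (x : Option A), x ∈ sm S ↔ ∃ y ∈ S, some y = x := by
    intro S x
    simp [sm]
  refine ⟨⟨?_, ?_, al_empty _, ?_⟩, cy_empty _ _, ?_⟩
  · have h := h8 _ some f hf.cg.dg
    have e : (fun b : Option A => ∑ a ∈ Finset.univ.filter (fun a => some a = b),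
        dgc M T ∅ C w r a) = dgc M (sm T) ∅ (sm C) (some w) r := by
      funext b
      cases b with
      | none => simp [dgc]
      | some x =>
        rw [Finset.sum_eq_single x]
        · simp [dgc]
        · intro a ha hax
          rw [Finset.mem_filter] at ha
          exact absurd (Option.some_injective _ ha.2) hax
        · intro hb
          refine absurd ?_ hb
          rw [Finset.mem_filter]
          exact ⟨Finset.mem_univ _, rfl⟩
    rw [e] at h
    exact h
  · intro x0 hx0 y0 hy0
    obtain ⟨x, hx, rfl⟩ := (hmem _ _).1 hx0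
    obtain ⟨y, hy, rfl⟩ := (hmem _ _).1 hy0
    have h2 := hf.cg.sy x hx y hy
    conv_rhs => rw [← h2]
    rw [ren_ren, ren_ren]
    refine ren_congr (fun z => ?_) f
    exact ((Option.some_injective A).map_swap x y z).symm
  · intro x0 hx0 y0 hy0 hxy
    obtain ⟨x, hx, rfl⟩ := (hmem _ _).1 hx0
    obtain ⟨y, hy, rfl⟩ := (hmem _ _).1 hy0
    have h2 := hf.cg.alC x hx y hy (fun h => hxy (by rw [h]))
    rw [← map_neg, ← h2, ren_ren, ren_ren]
    refine ren_congr (fun z => ?_) f
    exact ((Option.some_injective A).map_swap x y z).symm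
  · intro x0 hx0
    obtain ⟨x, hx, rfl⟩ := (hmem _ _).1 hx0
    have h2 := hf.cyC x hx
    have h3 : ren (mv (some x) (some w)) (ren some f) = ren some (ren (mv x w) f) := by
      rw [ren_ren, ren_ren]
      refine ren_congr (fun z => ?_) f
      simp only [Function.comp_apply, mv]
      by_cases hz : z = x
      · subst hz
        simp
      · rw [Function.update_of_ne hz, Function.update_of_ne (fun hh => hz (Option.some_injective _ hh))]
        rfl
    rw [h3, h2, map_zero]

/-- `TT` comes back from `Option A` to `A`. -/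
theorem tt_back (h1 : Stmt_DG) (M β : ℕ) (T C : Finset A) (w : A) (f : PX K A v)
    (h : TT M β (sm T) (sm C) (some w) (ren some f)) : TT M β T C w f := by
  obtain ⟨G, g, hG, hg, hf⟩ := h
  have hz : ∀ S : Finset A, (some none : Option (Option A)) ∉ sm (sm S) := by
    intro S
    simp [sm]
  have hz' : ∀ S : Finset A, (some none : Option (Option A)) ∉ isn (sm S) := by
    intro S
    simp [isn, sm]
  have h0 : dgc M (isn (sm T)) ∅ (sm (sm C)) (some (some w)) (M + 1 + β)
      (some none : Option (Option A)) = 0 := by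
    unfold dgc
    simp [hz, hz']
  have h0' : dgc M (sm (sm T)) ∅ (isn (sm C)) (some (some w)) (M + β)
      (some none : Option (Option A)) = 0 := by
    unfold dgc
    simp [hz, hz']
  refine ⟨ren ph G, ren ph g, ?_, ?_, ?_⟩
  · refine ⟨⟨?_, ?_, al_empty _, ?_⟩, cy_empty _ _, ?_⟩
    · refine dg_ph h1 _ _ h0 (fun b => ?_) G hG.cg.dg
      exact dgc_io M (isn T) ∅ (sm C) _ _ _ w _ (io_mem_isn T) (by simp) (io_mem_sm C) b
    · exact sy_ph h1 _ h0 G hG.cg.dg _ _ (fun b hb => (io_mem_isn T b).2 hb) hG.cg.sy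
    · exact al_ph h1 _ h0 G hG.cg.dg _ _ (fun b hb => (io_mem_sm C b).2 hb) hG.cg.alC
    · exact cy_ph h1 _ h0 G hG.cg.dg _ w _ (fun b hb => (io_mem_sm C b).2 hb) hG.cyC
  · refine ⟨?_, ?_, al_empty _, ?_⟩
    · refine dg_ph h1 _ _ h0' (fun b => ?_) g hg.dg
      exact dgc_io M (sm T) ∅ (isn C) _ _ _ w _ (io_mem_sm T) (by simp) (io_mem_isn C) b
    · exact sy_ph h1 _ h0' g hg.dg _ _ (fun b hb => (io_mem_sm T b).2 hb) hg.sy
    · exact al_ph h1 _ h0' g hg.dg _ _ (fun b hb => (io_mem_isn C b).2 hb) hg.alC
  · have h2 := congrArg (ren fun o : Option A => o.getD w) hf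
    rw [map_add, ren_ren] at h2
    have e1 : (fun o : Option A => o.getD w) ∘ some = id := by
      funext x
      rfl
    rw [e1, ren_id] at h2
    have e2 : ∀ q : PX K (Option (Option A)) v,
        ren (fun o : Option A => o.getD w) (rn (some w) q) = rn w (ren ph q) := by
      intro q
      unfold rn
      rw [ren_ren, ren_ren]
      refine ren_congr (fun o => ?_) q
      match o with
      | none => rfl
      | some none => rfl
      | some (some x) => rfl
    rw [e2, e2] at h2
    exact h2

end PPC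

open PPC

theorem PPC_thm (h1 : Stmt_DG) (_h2 : Stmt_SYM) (h3 : Stmt_GD0) : Stmt_PPC := by
  intro K _ _ v M β t j hv hCL A _ _ T C w f hcf hT hC hf
  have hcf' : Cf (sm T) ∅ (sm C) (some w) := by
    refine ⟨by simp, ?_, by simp, ?_, by simp, ?_⟩
    · rw [Finset.disjoint_map]
      exact hcf.TC
    · simpa [sm] using hcf.wT
    · simpa [sm] using hcf.wC
  have hsp : Sp (sm T) ∅ (sm C) (some w) := ⟨none, by simp [sm], by simp, by simp [sm], by simp⟩
  have hz := zc_some h1 M (2 * M + 2 + β) T C w f hf
  have hx : (fun _ => 1 : Fin v → K) ≠ 0 := by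
    intro h
    have := congrFun h ⟨0, hv⟩
    simp at this
  have hgood := hCL (Option A) (sm T) ∅ (sm C) (some w) (fun _ => 1) (ren some f) hcf' hsp
    (by simpa [sm] using hT) (by simpa [sm] using hC) (by simpa [sm] using hC) hx hz
  have e1 : (xS (fun _ => 1 : Fin v → K) (∅ : Finset (Option A)) : PX K (Option A) v) = 1 := by
    simp [xS]
  rw [e1, one_mul, Finset.empty_union] at hgood
  obtain ⟨-, -, -, -, -, -, -, h8⟩ := h3 K (Option A) v M β (sm T) (sm C) (some w) hcf'
  exact tt_back h1 M β T C w f ((h8 _ hz).1 hgood)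

end Pool.Agent.VOP
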