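import Pool.Agent.VOP.StmtsN

/-!
# Module PR: the parts of a polynomial
-/

namespace Pool.Agent.VOP

open MvPolynomial Pool.Agent.VSY

namespace PR

section

variable {K : Type} [Field K] {σ : Type} [DecidableEq σ]

theorem X_dvd_of {y : σ} {g : MvPolynomial σ K} (h : ∀ m ∈ g.support, m y ≠ 0) : X y ∣ g := by
  rw [g.as_sum]
  refine Finset.dvd_sum fun m hm => ⟨monomial (m - Finsupp.single y 1) (coeff m g), ?_⟩
  rw [X, monomial_mul, one_mul, add_tsub_cancel_of_le]
  rw [Finsupp.single_le_iff]
  exact Nat.one_le_iff_ne_zero.2 (h m hm)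

theorem of_X_dvd {y : σ} {f : MvPolynomial σ K} (h : X y ∣ f) {m : σ →₀ ℕ} (hm : m y = 0) :
    coeff m f = 0 := by
  obtain ⟨g, rfl⟩ := h
  rw [coeff_X_mul', if_neg]
  rw [Finsupp.mem_support_iff, not_not]
  exact hm

end

variable {K : Type} [Field K] {A : Type} [Fintype A] [DecidableEq A] {v : ℕ}

theorem mem_js {k : Fin v} {w : A} {m : A × Fin v →₀ ℕ} {p : A} :
    p ∈ js k w m ↔ p ≠ w ∧ m (p, k) ≠ 0 := by
  rw [js, Finset.mem_filter, Nat.one_le_iff_ne_zero]
  exact ⟨fun h => h.2, fun h => ⟨Finset.mem_univ _, h⟩⟩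

open Classical in
theorem coeff_pr (k : Fin v) (w : A) (P : Finset A → Prop) (f : PX K A v)
    (m : A × Fin v →₀ ℕ) : coeff m (pr k w P f) =
      if m (w, k) = 0 ∧ P (js k w m) then coeff m f else 0 := by
  rw [pr, coeff_sum]
  simp only [coeff_monomial]
  rw [Finset.sum_ite_eq']
  simp only [Finset.mem_filter]
  split_ifs with h1 h2 h2
  · rfl
  · exact absurd h1.2 h2
  · by_contra h3
    exact h1 ⟨mem_support_iff.2 (Ne.symm h3), h2⟩
  · rfl

theorem pr_add (k : Fin v) (w : A) (P : Finset A → Prop) (f g : PX K A v) :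
    pr k w P (f + g) = pr k w P f + pr k w P g := by
  classical
  ext m
  rw [coeff_add, coeff_pr, coeff_pr, coeff_pr]
  split_ifs
  · rw [coeff_add]
  · rw [add_zero]

theorem pr_sub (k : Fin v) (w : A) (P : Finset A → Prop) (f g : PX K A v) :
    pr k w P (f - g) = pr k w P f - pr k w P g := by
  classical
  ext m
  rw [coeff_sub, coeff_pr, coeff_pr, coeff_pr]
  split_ifs
  · rw [coeff_sub]
  · rw [sub_zero]

theorem pr_smul (k : Fin v) (w : A) (P : Finset A → Prop) (a : K) (f : PX K A v) :
    pr k w P (a • f) = a • pr k w P f := by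
  classical
  ext m
  rw [coeff_smul, coeff_pr, coeff_pr]
  split_ifs
  · rw [coeff_smul]
  · rw [smul_zero]

open Classical in
theorem pr_monomial (k : Fin v) (w : A) (P : Finset A → Prop) (m : A × Fin v →₀ ℕ) (a : K) :
    pr k w P (monomial m a) = if m (w, k) = 0 ∧ P (js k w m) then monomial m a else 0 := by
  ext n
  rw [coeff_pr, coeff_monomial]
  by_cases h : m = n
  · subst h
    rw [if_pos rfl]
    split_ifs with h1
    · rw [coeff_monomial, if_pos rfl]
    · rw [coeff_zero]
  · rw [if_neg h, ite_self]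
    split_ifs
    · rw [coeff_monomial, if_neg h]
    · rw [coeff_zero]

theorem supp_pr {k : Fin v} {w : A} {P : Finset A → Prop} {f : PX K A v}
    {m : A × Fin v →₀ ℕ} (h : m ∈ (pr k w P f).support) :
    m ∈ f.support ∧ m (w, k) = 0 ∧ P (js k w m) := by
  classical
  rw [mem_support_iff, coeff_pr] at h
  split_ifs at h with h1
  · exact ⟨mem_support_iff.2 h, h1⟩
  · exact absurd rfl h

theorem pr_split (k : Fin v) (w : A) (P Q : Finset A → Prop) (f : PX K A v)
    (h : ∀ J, ¬(P J ∧ Q J)) :
    pr k w (fun J => P J ∨ Q J) f = pr k w P f + pr k w Q f := by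
  classical
  ext m
  rw [coeff_add, coeff_pr, coeff_pr, coeff_pr]
  have h0 := h (js k w m)
  by_cases h1 : m (w, k) = 0
  · by_cases h2 : P (js k w m)
    · have h3 : ¬ Q (js k w m) := fun h3 => h0 ⟨h2, h3⟩
      rw [if_pos ⟨h1, Or.inl h2⟩, if_pos ⟨h1, h2⟩, if_neg (fun h4 => h3 h4.2), add_zero]
    · by_cases h3 : Q (js k w m)
      · rw [if_pos ⟨h1, Or.inr h3⟩, if_neg (fun h4 => h2 h4.2), if_pos ⟨h1, h3⟩, zero_add]
      · rw [if_neg (fun h4 => h4.2.elim h2 h3), if_neg (fun h4 => h2 h4.2),
          if_neg (fun h4 => h3 h4.2), add_zero]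
  · rw [if_neg (fun h4 => h1 h4.1), if_neg (fun h4 => h1 h4.1), if_neg (fun h4 => h1 h4.1),
      add_zero]

theorem pr_dvd (k : Fin v) (w : A) (P : Finset A → Prop) {f : PX K A v} (h : X (w, k) ∣ f) :
    pr k w P f = 0 := by
  classical
  ext m
  rw [coeff_pr, coeff_zero]
  split_ifs with h1
  · exact of_X_dvd h h1.1
  · rfl

theorem pr_X_dvd (k : Fin v) (w : A) (P : Finset A → Prop) (u : A) (f : PX K A v)
    (h : ∀ J, P J → u ∈ J) : X (u, k) ∣ pr k w P f :=
  X_dvd_of fun _ hm => (mem_js.1 (h _ (supp_pr hm).2.2)).2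

theorem pr_perm (k : Fin v) (w : A) (P : Finset A → Prop) (π : Equiv.Perm A) (f : PX K A v)
    (hπ : π w = w) :
    pr k w P (ren π f) = ren π (pr k w (fun J => P (J.map π.toEmbedding)) f) := by
  classical
  induction f using MvPolynomial.induction_on' with
  | add p q hp hq => rw [map_add, pr_add, hp, hq, pr_add, map_add]
  | monomial m a =>
    rw [ren_monomial, pr_monomial, pr_monomial]
    have hinj : Function.Injective (Prod.map π (id : Fin v → Fin v)) :=
      Function.Injective.prodMap π.injective Function.injective_id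
    have h0 : ∀ p : A, m.mapDomain (Prod.map π id) (π p, k) = m (p, k) := fun p =>
      Finsupp.mapDomain_apply hinj m (p, k)
    have h1 : m.mapDomain (Prod.map π id) (w, k) = m (w, k) := by
      conv_lhs => rw [← hπ]
      exact h0 w
    have h2 : js k w (m.mapDomain (Prod.map π id)) = (js k w m).map π.toEmbedding := by
      ext p
      obtain ⟨r, rfl⟩ := π.surjective p
      rw [mem_js, h0, Finset.mem_map]
      constructor
      · intro h
        refine ⟨r, mem_js.2 ⟨?_, h.2⟩, rfl⟩
        rintro rfl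
        exact h.1 hπ
      · rintro ⟨r', hr', hrr⟩
        have h3 : r' = r := π.injective hrr
        rw [h3, mem_js] at hr'
        refine ⟨fun h4 => hr'.1 (π.injective (h4.trans hπ.symm)), hr'.2⟩
    rw [h1, h2]
    split_ifs
    · rw [ren_monomial]
    · rw [map_zero]

theorem pr_mv (k : Fin v) (w : A) (Q : Finset A → Prop) (u : A) (f : PX K A v) (hu : u ≠ w) :
    pr k w Q (ren (mv u w) f) = ren (mv u w) (pr k w (fun J => Q J ∧ u ∉ J) f) := by
  classical
  induction f using MvPolynomial.induction_on' with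
  | add p q hp hq => rw [map_add, pr_add, hp, hq, pr_add, map_add]
  | monomial m a =>
    rw [ren_monomial, pr_monomial, pr_monomial]
    have hmvu : mv u w u = w := Function.update_self _ _ _
    have hmv : ∀ a, a ≠ u → mv u w a = a := fun a ha => Function.update_of_ne ha _ _
    have h1 : m.mapDomain (Prod.map (mv u w) id) (w, k) = m (u, k) + m (w, k) := by
      rw [mapDomain_deg]
      have h2 : Finset.univ.filter (fun a => mv u w a = w) = {u, w} := by
        ext a
        rw [Finset.mem_filter, Finset.mem_insert, Finset.mem_singleton]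
        constructor
        · rintro ⟨-, ha⟩
          by_cases hau : a = u
          · exact Or.inl hau
          · rw [hmv a hau] at ha
            exact Or.inr ha
        · rintro (rfl | rfl)
          · exact ⟨Finset.mem_univ _, hmvu⟩
          · exact ⟨Finset.mem_univ _, hmv _ hu.symm⟩
      rw [h2, Finset.sum_pair hu]
    have h3 : m.mapDomain (Prod.map (mv u w) id) (u, k) = 0 := by
      rw [mapDomain_deg]
      refine Finset.sum_eq_zero fun a ha => ?_
      rw [Finset.mem_filter] at ha
      exfalso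
      by_cases hau : a = u
      · rw [hau, hmvu] at ha
        exact hu ha.2.symm
      · rw [hmv a hau] at ha
        exact hau ha.2
    have h4 : ∀ b, b ≠ u → b ≠ w → m.mapDomain (Prod.map (mv u w) id) (b, k) = m (b, k) := by
      intro b hbu hbw
      rw [mapDomain_deg]
      have h2 : Finset.univ.filter (fun a => mv u w a = b) = {b} := by
        ext a
        rw [Finset.mem_filter, Finset.mem_singleton]
        constructor
        · rintro ⟨-, ha⟩
          by_cases hau : a = u
          · rw [hau, hmvu] at ha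
            exact absurd ha.symm hbw
          · rwa [hmv a hau] at ha
        · rintro rfl
          exact ⟨Finset.mem_univ _, hmv _ hbu⟩
      rw [h2, Finset.sum_singleton]
    have h5 : (m.mapDomain (Prod.map (mv u w) id) (w, k) = 0 ∧
        Q (js k w (m.mapDomain (Prod.map (mv u w) id)))) ↔
        (m (w, k) = 0 ∧ Q (js k w m) ∧ u ∉ js k w m) := by
      have h6 : m (u, k) = 0 → js k w (m.mapDomain (Prod.map (mv u w) id)) = js k w m := by
        intro h0
        ext b
        rw [mem_js, mem_js]
        by_cases hbu : b = u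
        · rw [hbu, h3, h0]
        · by_cases hbw : b = w
          · rw [hbw]
            exact ⟨fun h => absurd rfl h.1, fun h => absurd rfl h.1⟩
          · rw [h4 b hbu hbw]
      rw [h1]
      constructor
      · rintro ⟨h7, h8⟩
        have h9 : m (u, k) = 0 := by omega
        rw [h6 h9] at h8
        exact ⟨by omega, h8, fun h10 => (mem_js.1 h10).2 h9⟩
      · rintro ⟨h7, h8, h9⟩
        have h10 : m (u, k) = 0 := by
          by_contra h10
          exact h9 (mem_js.2 ⟨hu, h10⟩)
        rw [h6 h10]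
        exact ⟨by omega, h8⟩
    by_cases h6 : m (w, k) = 0 ∧ Q (js k w m) ∧ u ∉ js k w m
    · rw [if_pos h6, if_pos (h5.2 h6), ren_monomial]
    · rw [if_neg h6, if_neg (fun h => h6 (h5.1 h)), map_zero]

end PR

open PR in
/-- The parts of a polynomial. -/
theorem PR_thm : Stmt_PR := by
  intro K _ A _ _ v k w
  refine ⟨?_, ?_, ?_, ?_, ?_, ?_, ?_, ?_, ?_, ?_⟩
  · intro P f m
    classical
    exact ⟨fun h => by rw [coeff_pr, if_pos h], fun h => by rw [coeff_pr, if_neg h]⟩
  · intro P f g a
    exact ⟨pr_add k w P f g, pr_sub k w P f g, pr_smul k w P a f⟩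
  · intro P δ f hf m hm
    exact hf m (supp_pr hm).1
  · intro f
    classical
    refine X_dvd_of fun m hm h0 => ?_
    rw [mem_support_iff, coeff_sub, coeff_pr, if_pos ⟨h0, trivial⟩, sub_self] at hm
    exact hm rfl
  · intro P Q f h
    exact pr_split k w P Q f h
  · intro P f h
    exact pr_dvd k w P h
  · intro P π f h
    exact pr_perm k w P π f h
  · intro Q u f hu
    exact pr_mv k w Q u f hu
  · intro Q u f hu h
    have h1 : ren (mv u w) (pr k w (fun J => Q J ∧ u ∉ J) f) = 0 := by
      rw [← pr_mv k w Q u f hu]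
      exact pr_dvd k w Q h
    constructor
    · have h2 : pr k w Q f = pr k w (fun J => Q J ∧ u ∈ J) f + pr k w (fun J => Q J ∧ u ∉ J) f := by
        rw [← pr_split k w _ _ f fun J hJ => hJ.2.2 hJ.1.2]
        congr 1
        funext J
        rw [← and_or_left]
        exact propext ⟨fun h => ⟨h, Classical.em _⟩, fun h => h.1⟩
      rw [h2, map_add, h1, add_zero]
      obtain ⟨g, hg⟩ := pr_X_dvd k w (fun J => Q J ∧ u ∈ J) u f fun J hJ => hJ.2
      refine ⟨ren (mv u w) g, ?_⟩
      rw [hg, map_mul, ren_X]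
      congr 2
      rw [mv, Function.update_self]
    · intro hQ
      have h2 : (fun J => Q J ∧ u ∉ J) = Q := by
        funext J
        exact propext ⟨fun h => h.1, fun h => ⟨h, hQ J h⟩⟩
      rwa [h2] at h1
  · intro P u f h
    exact pr_X_dvd k w P u f h

end Pool.Agent.VOP
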