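import Pool.Agent.VOP.StmtsG
import Pool.Agent.VSY.L2M

/-!
# SBT: substitution of the coordinates
-/

set_option autoImplicit false

namespace Pool.Agent.VOP

open MvPolynomial Pool.Agent.VSY

namespace SBT

open Pool.Agent.VSY.L2M

variable {K : Type} [Field K]

section one

variable {A B : Type} {v : ℕ}

theorem sb_X (g : Fin v → Fin v → K) (p : A) (i : Fin v) :
    sb g (X (p, i) : PX K A v) = lin (g i) p := by
  simp [sb]

theorem sb_C (g : Fin v → Fin v → K) (a : K) : sb g (C a : PX K A v) = C a := by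
  simp [sb]

theorem ren_lin (φ : A → B) (x : Fin v → K) (p : A) :
    ren φ (lin x p : PX K A v) = lin x (φ p) := by
  simp [lin]

theorem ren_sb (φ : A → B) (g : Fin v → Fin v → K) (f : PX K A v) :
    ren φ (sb g f) = sb g (ren φ f) := by
  have h : (ren φ).comp (sb g : PX K A v →ₐ[K] PX K A v) = (sb g).comp (ren φ) := by
    apply MvPolynomial.algHom_ext
    rintro ⟨p, i⟩
    rw [AlgHom.comp_apply, AlgHom.comp_apply, sb_X, ren_lin, ren_X, sb_X]
  exact AlgHom.congr_fun h f

theorem sb_lin (g : Fin v → Fin v → K) (x : Fin v → K) (p : A) :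
    sb g (lin x p : PX K A v) = lin (fun j => ∑ i, x i * g i j) p := by
  rw [lin, map_sum]
  simp only [map_mul, sb_C, sb_X, lin, map_sum, Finset.mul_sum, Finset.sum_mul]
  rw [Finset.sum_comm]
  refine Finset.sum_congr rfl fun i _ => Finset.sum_congr rfl fun j _ => ?_
  ring

theorem sb_atp (g : Fin v → Fin v → K) (p : A) (b : MvPolynomial (Fin v) K) :
    sb g (atp p b : PX K A v) =
      atp p (aeval (fun i => ∑ j, C (g i j) * X j : Fin v → MvPolynomial (Fin v) K) b) := by
  have h : (sb g).comp (atp p : MvPolynomial (Fin v) K →ₐ[K] PX K A v) =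
      (atp p).comp (aeval (fun i => ∑ j, C (g i j) * X j : Fin v → MvPolynomial (Fin v) K)) := by
    apply MvPolynomial.algHom_ext
    intro i
    rw [AlgHom.comp_apply, AlgHom.comp_apply, aeval_X]
    have h1 : (atp p (X i) : PX K A v) = X (p, i) := by simp [atp]
    rw [h1, sb_X]
    simp [lin, atp]
  exact AlgHom.congr_fun h b

theorem sb_sb (g g' : Fin v → Fin v → K) (f : PX K A v) :
    sb g' (sb g f) = sb (fun i j => ∑ l, g i l * g' l j) f := by
  have h : (sb g').comp (sb g : PX K A v →ₐ[K] PX K A v) =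
      sb (fun i j => ∑ l, g i l * g' l j) := by
    apply MvPolynomial.algHom_ext
    rintro ⟨p, i⟩
    rw [AlgHom.comp_apply, sb_X, sb_lin, sb_X]
  exact AlgHom.congr_fun h f

theorem sb_one (f : PX K A v) : sb (fun i j => if i = j then (1 : K) else 0) f = f := by
  have h : (sb (fun i j => if i = j then (1 : K) else 0) : PX K A v →ₐ[K] PX K A v) =
      AlgHom.id K _ := by
    apply MvPolynomial.algHom_ext
    rintro ⟨p, i⟩
    rw [sb_X, AlgHom.id_apply, lin]
    simp [Finset.sum_ite_eq]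
  exact AlgHom.congr_fun h f

end one

section deg

variable {A : Type} [Fintype A] [DecidableEq A] {v : ℕ}

theorem DS_pow {δ : A → ℕ} {f : PX K A v} (hf : f ∈ DS K v δ) (n : ℕ) :
    f ^ n ∈ DS K v (n • δ) := by
  induction n with
  | zero => simpa using DS_one
  | succ n ih =>
    rw [pow_succ, add_smul, one_smul]
    exact DS_mul ih hf

theorem Dg_sb (h : Stmt_DG) (δ : A → ℕ) (g : Fin v → Fin v → K) (f : PX K A v) (hf : Dg δ f) :
    Dg δ (sb g f) := by
  obtain ⟨-, -, -, -, -, h6, -⟩ := h K A A v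
  have h1 : sb g f ∈ DS K v δ := by
    rw [f.as_sum, map_sum]
    refine Submodule.sum_mem _ fun m hm => ?_
    rw [sb, aeval_monomial, Finsupp.prod_fintype _ _ (fun _ => pow_zero _), ← Algebra.smul_def]
    refine Submodule.smul_mem _ _ ?_
    have h2 := DS_prod (K := K) (v := v) (Finset.univ : Finset (A × Fin v))
      (fun y => m y • (Pi.single y.1 1 : A → ℕ)) (fun y => (lin (g y.2) y.1 : PX K A v) ^ m y)
      (fun y _ => DS_pow (h6 _ _) _)
    have h3 : (∑ y : A × Fin v, m y • (Pi.single y.1 1 : A → ℕ)) = δ := by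
      funext x
      rw [Finset.sum_apply, Fintype.sum_prod_type, ← hf m hm x]
      rw [Finset.sum_eq_single x]
      · simp
      · intro b _ hb
        refine Finset.sum_eq_zero fun j _ => ?_
        simp [Pi.single_apply, Ne.symm hb]
      · simp
    rw [h3] at h2
    exact h2
  exact h1

theorem Zc_sb (h : Stmt_DG) (M r : ℕ) (T S C : Finset A) (w : A) (g : Fin v → Fin v → K)
    (f : PX K A v) (hf : Zc M T S C w r f) : Zc M T S C w r (sb g f) := by
  refine ⟨⟨Dg_sb h _ g f hf.cg.dg, ?_, ?_, ?_⟩, ?_, ?_⟩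
  · intro x hx y hy
    rw [ren_sb, hf.cg.sy x hx y hy]
  · intro x hx y hy hxy
    rw [ren_sb, hf.cg.alS x hx y hy hxy, map_neg]
  · intro x hx y hy hxy
    rw [ren_sb, hf.cg.alC x hx y hy hxy, map_neg]
  · intro u hu
    rw [ren_sb, hf.cyS u hu, map_zero]
  · intro u hu
    rw [ren_sb, hf.cyC u hu, map_zero]

theorem Cg_sb (h : Stmt_DG) (δ : A → ℕ) (T S C : Finset A) (g : Fin v → Fin v → K)
    (f : PX K A v) (hf : Cg δ T S C f) : Cg δ T S C (sb g f) := by
  refine ⟨Dg_sb h _ g f hf.dg, ?_, ?_, ?_⟩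
  · intro x hx y hy
    rw [ren_sb, hf.sy x hx y hy]
  · intro x hx y hy hxy
    rw [ren_sb, hf.alS x hx y hy hxy, map_neg]
  · intro x hx y hy hxy
    rw [ren_sb, hf.alC x hx y hy hxy, map_neg]

theorem rn_sb (w : A) (g : Fin v → Fin v → K) (f : PX K (Option A) v) :
    rn w (sb g f) = sb g (rn w f) := ren_sb _ g f

theorem TT_sb (h : Stmt_DG) (M β : ℕ) (T C : Finset A) (w : A) (g : Fin v → Fin v → K)
    (f : PX K A v) (hf : TT M β T C w f) : TT M β T C w (sb g f) := by
  obtain ⟨G, γ, h1, h2, h3⟩ := hf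
  refine ⟨sb g G, sb g γ, Zc_sb h _ _ _ _ _ _ g G h1, Cg_sb h _ _ _ _ g γ h2, ?_⟩
  rw [rn_sb, rn_sb, ← map_add, h3]

theorem smz_sb (T : Finset A) (g : Fin v → Fin v → K) (f : PX K A v) :
    smz T (sb g f) = sb g (smz T f) := by
  rw [smz, smz, map_sum]
  exact Finset.sum_congr rfl fun π _ => ren_sb _ g f

theorem alt_sb (T : Finset A) (g : Fin v → Fin v → K) (f : PX K A v) :
    alt T (sb g f) = sb g (alt T f) := by
  rw [alt, alt, map_sum]
  refine Finset.sum_congr rfl fun π _ => ?_
  rw [map_zsmul, ren_sb]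

theorem Good_sb (h : Stmt_DG) (M β : ℕ) (T C : Finset A) (w : A) (g : Fin v → Fin v → K)
    (f : PX K A v) (hf : Good M β T C w f) : Good M β T C w (sb g f) := by
  refine ⟨Dg_sb h _ g f hf.1, ?_⟩
  rw [alt_sb, smz_sb]
  exact TT_sb h _ _ _ _ _ g _ hf.2

end deg

/-- The elementary matrices. -/
theorem mat {v : ℕ} (k : Fin v) (y d : Fin v → K) (h : ∀ j, d j + y j + y k * d j = 0) :
    (fun i j => ∑ l, ((if i = l then (1 : K) else 0) + if i = k then y l else 0) *
      ((if l = j then (1 : K) else 0) + if l = k then d j else 0)) =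
    fun i j => if i = j then (1 : K) else 0 := by
  funext i j
  simp only [add_mul, mul_add, Finset.sum_add_distrib, ite_mul, mul_ite, one_mul, zero_mul,
    mul_one, mul_zero, Finset.sum_ite_eq, Finset.sum_ite_eq', Finset.mem_univ, if_true]
  by_cases hi : i = k
  · subst hi
    simp only [if_true, Finset.sum_ite_eq, Finset.sum_ite_eq', Finset.mem_univ]
    linear_combination h j
  · simp [hi]

theorem inv {v : ℕ} (x : Fin v → K) (hx : x ≠ 0) :
    ∃ (k : Fin v) (g g' : Fin v → Fin v → K), g k = x ∧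
      (∀ (A : Type) (f : PX K A v), sb g' (sb g f) = f ∧ sb g (sb g' f) = f) := by
  obtain ⟨k, hk⟩ := Function.ne_iff.1 hx
  have hk' : x k ≠ 0 := hk
  let y : Fin v → K := fun j => x j - if k = j then 1 else 0
  let d : Fin v → K := fun j => - (y j / x k)
  have hyk : y k = x k - 1 := by simp [y]
  have h1 : ∀ j, d j + y j + y k * d j = 0 := by
    intro j
    rw [hyk]
    simp only [d]
    field_simp
    ring
  have h2 : ∀ j, y j + d j + d k * y j = 0 := by
    intro j
    have : d k = - ((x k - 1) / x k) := by simp only [d, hyk]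
    rw [this]
    simp only [d]
    field_simp
    ring
  refine ⟨k, fun i l => (if i = l then 1 else 0) + if i = k then y l else 0,
    fun i l => (if i = l then 1 else 0) + if i = k then d l else 0, ?_, fun A f => ⟨?_, ?_⟩⟩
  · funext j
    simp [y]
  · rw [sb_sb, mat k y d h1, sb_one]
  · rw [sb_sb, mat k d y h2, sb_one]

end SBT

open SBT in
theorem SBT_thm (h1 : Stmt_DG) : Stmt_SBT := by
  intro K _ _ v
  refine ⟨fun A B φ g f => ren_sb φ g f, fun A _ _ δ g f hf => Dg_sb h1 δ g f hf,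
    fun A _ _ M β r T S C w g f => ⟨Zc_sb h1 _ _ _ _ _ _ g f, TT_sb h1 _ _ _ _ _ g f,
      Good_sb h1 _ _ _ _ _ g f, smz_sb T g f, alt_sb S g f⟩,
    fun A g x p n b => ⟨sb_lin g x p, sb_atp g p b, fun hb => ?_⟩,
    fun A g g' f => sb_sb g g' f, fun x hx => SBT.inv x hx⟩
  have h := hb.aeval (fun i => ∑ j, C (g i j) * X j : Fin v → MvPolynomial (Fin v) K) (n := 1)
    (fun i => IsHomogeneous.sum _ _ _ fun j _ => by
      simpa using (isHomogeneous_C (Fin v) (g i j)).mul (isHomogeneous_X K j))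
  rwa [one_mul] at h

end Pool.Agent.VOP
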