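import Pool.Agent.VOP.StmtsS

set_option autoImplicit false

namespace Pool.Agent.VOP

open MvPolynomial Pool.Agent.VSY

namespace THRM

variable {K : Type} [Field K] {A : Type} [DecidableEq A] {v : ℕ}

theorem mv_apply (u w x : A) : mv u w x = if x = u then w else x := by
  simp [mv, Function.update_apply]

theorem perm_mv (π : Equiv.Perm A) (u w : A) (f : PX K A v) :
    ren π (ren (mv u w) f) = ren (mv (π u) (π w)) (ren π f) := by
  rw [ren_ren, ren_ren]
  refine ren_congr (fun x => ?_) f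
  simp only [Function.comp_apply, mv_apply, EmbeddingLike.apply_eq_iff_eq]
  split_ifs <;> rfl

theorem mv_mv {u w u' w' : A} (h1 : u ≠ u') (h2 : w' ≠ u) (h3 : w ≠ u') (f : PX K A v) :
    ren (mv u w) (ren (mv u' w') f) = ren (mv u' w') (ren (mv u w) f) := by
  rw [ren_ren, ren_ren]
  refine ren_congr (fun x => ?_) f
  simp only [Function.comp_apply, mv_apply]
  by_cases hx : x = u
  · subst hx
    simp [h1, h3]
  · by_cases hx' : x = u'
    · subst hx'
      simp [hx, h2]
    · simp [hx, hx']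

theorem mv_mv_same (u u' w : A) (hu : u ≠ w) (hu' : u' ≠ w) (f : PX K A v) :
    ren (mv u w) (ren (mv u' w) f) = ren (mv u' w) (ren (mv u w) f) := by
  rw [ren_ren, ren_ren]
  refine ren_congr (fun x => ?_) f
  simp only [Function.comp_apply, mv_apply]
  split_ifs <;> simp_all

theorem swap_out {T : Finset A} {u x y : A} (hu : u ∉ T) (hx : x ∈ T) (hy : y ∈ T) :
    Equiv.swap x y u = u :=
  Equiv.swap_apply_of_ne_of_ne (fun h => hu (h ▸ hx)) (fun h => hu (h ▸ hy))

theorem Sy_mv {T : Finset A} {u w : A} {f : PX K A v} (hu : u ∉ T) (hw : w ∉ T) (h : Sy T f) :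
    Sy T (ren (mv u w) f) := by
  intro x hx y hy
  rw [perm_mv, swap_out hu hx hy, swap_out hw hx hy, h x hx y hy]

theorem Al_mv {T : Finset A} {u w : A} {f : PX K A v} (hu : u ∉ T) (hw : w ∉ T) (h : Al T f) :
    Al T (ren (mv u w) f) := by
  intro x hx y hy hxy
  rw [perm_mv, swap_out hu hx hy, swap_out hw hx hy, h x hx y hy hxy, map_neg]

theorem ren_lin {B : Type} (φ : A → B) (x : Fin v → K) (p : A) :
    ren φ (lin x p : PX K A v) = lin x (φ p) := by
  simp [lin, map_sum]

theorem ren_xS_of_fix (φ : A → A) (x : Fin v → K) (S : Finset A) (h : ∀ p ∈ S, φ p = p) :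
    ren φ (xS x S : PX K A v) = xS x S := by
  rw [xS, map_prod]
  refine Finset.prod_congr rfl fun p hp => ?_
  rw [ren_lin, h p hp]

theorem xS_insert (x : Fin v → K) {S : Finset A} {p : A} (h : p ∉ S) :
    (xS x (insert p S) : PX K A v) = lin x p * xS x S := by
  rw [xS, Finset.prod_insert h, xS]

theorem xS_erase (x : Fin v → K) {S : Finset A} {p : A} (h : p ∈ S) :
    (lin x p * xS x (S.erase p) : PX K A v) = xS x S := by
  rw [xS, Finset.mul_prod_erase S (fun p => (lin x p : PX K A v)) h, xS]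

theorem ren_xS_swap (x : Fin v → K) {S : Finset A} {p r : A} (hp : p ∈ S) (hr : r ∈ S) :
    ren (Equiv.swap p r) (xS x S : PX K A v) = xS x S := by
  rw [xS, map_prod]
  have h : ∀ q ∈ S, Equiv.swap p r q ∈ S := by
    intro q hq
    rw [Equiv.swap_apply_def]
    split_ifs <;> assumption
  refine Finset.prod_bij' (fun q _ => Equiv.swap p r q) (fun q _ => Equiv.swap p r q) h h
    (fun q _ => by simp) (fun q _ => by simp) (fun q _ => by rw [ren_lin])

theorem Sy_cancel {T : Finset A} {w : A} {x : Fin v → K} {q : PX K A v} (hw : w ∉ T)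
    (hcan : ∀ f g : PX K A v, lin x w * f = lin x w * g → f = g) (h : Sy T (lin x w * q)) :
    Sy T q := by
  intro p hp r hr
  apply hcan
  have := h p hp r hr
  rwa [map_mul, ren_lin, swap_out hw hp hr] at this

theorem Al_cancel {T : Finset A} {w : A} {x : Fin v → K} {q : PX K A v} (hw : w ∉ T)
    (hcan : ∀ f g : PX K A v, lin x w * f = lin x w * g → f = g) (h : Al T (lin x w * q)) :
    Al T q := by
  intro p hp r hr hpr
  apply hcan
  have := h p hp r hr hpr
  rw [map_mul, ren_lin, swap_out hw hp hr] at this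
  rw [this, mul_neg]

theorem Al_mono {S T : Finset A} {f : PX K A v} (h : S ⊆ T) (hf : Al T f) : Al S f :=
  fun x hx y hy hxy => hf x (h hx) y (h hy) hxy

theorem Sy_mono {S T : Finset A} {f : PX K A v} (h : S ⊆ T) (hf : Sy T f) : Sy S f :=
  fun x hx y hy => hf x (h hx) y (h hy)

theorem perm_swap (π : Equiv.Perm A) {c b : A} (hc : π c = c) (hb : π b = b) (f : PX K A v) :
    ren π (ren (Equiv.swap c b) f) = ren (Equiv.swap c b) (ren π f) := by
  rw [ren_ren, ren_ren]
  refine ren_congr (fun q => ?_) f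
  simp only [Function.comp_apply]
  by_cases hqc : q = c
  · subst hqc
    rw [hc, Equiv.swap_apply_left, hb]
  · by_cases hqb : q = b
    · subst hqb
      rw [hb, Equiv.swap_apply_right, hc]
    · rw [Equiv.swap_apply_of_ne_of_ne hqc hqb, Equiv.swap_apply_of_ne_of_ne]
      · intro h
        exact hqc (π.injective (h.trans hc.symm))
      · intro h
        exact hqb (π.injective (h.trans hb.symm))

theorem Sy_swap {T : Finset A} {c b : A} {f : PX K A v} (hc : c ∉ T) (hb : b ∉ T)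
    (h : Sy T f) : Sy T (ren (Equiv.swap c b) f) := by
  intro x hx y hy
  rw [perm_swap _ (swap_out hc hx hy) (swap_out hb hx hy), h x hx y hy]

theorem Al_swap {T : Finset A} {c b : A} {f : PX K A v} (hc : c ∉ T) (hb : b ∉ T)
    (h : Al T f) : Al T (ren (Equiv.swap c b) f) := by
  intro x hx y hy hxy
  rw [perm_swap _ (swap_out hc hx hy) (swap_out hb hx hy), h x hx y hy hxy, map_neg]

theorem Sy_sub {T : Finset A} {f g : PX K A v} (hf : Sy T f) (hg : Sy T g) : Sy T (f - g) :=
  fun x hx y hy => by rw [map_sub, hf x hx y hy, hg x hx y hy]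

theorem Al_sub {T : Finset A} {f g : PX K A v} (hf : Al T f) (hg : Al T g) : Al T (f - g) :=
  fun x hx y hy h => by rw [map_sub, hf x hx y hy h, hg x hx y hy h]; abel

theorem Sy_sum {T : Finset A} {ι : Type} (s : Finset ι) (f : ι → PX K A v)
    (h : ∀ i ∈ s, Sy T (f i)) : Sy T (∑ i ∈ s, f i) := fun x hx y hy => by
  rw [map_sum]
  exact Finset.sum_congr rfl fun i hi => h i hi x hx y hy

theorem Al_sum {T : Finset A} {ι : Type} (s : Finset ι) (f : ι → PX K A v)
    (h : ∀ i ∈ s, Al T (f i)) : Al T (∑ i ∈ s, f i) := fun x hx y hy hxy => by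
  rw [map_sum, ← Finset.sum_neg_distrib]
  exact Finset.sum_congr rfl fun i hi => h i hi x hx y hy hxy

section dgc

variable {M r : ℕ} {T S C : Finset A} {w p : A}

theorem dgc_T (h : p ∈ T) : dgc M T S C w r p = M + 1 := by
  simp [dgc, h]

theorem dgc_S (h : p ∈ S) : dgc M T S C w r p = M + 1 := by
  simp [dgc, h]

theorem dgc_C (hT : p ∉ T) (hS : p ∉ S) (h : p ∈ C) : dgc M T S C w r p = M + 2 := by
  simp [dgc, h, hT, hS]

theorem dgc_w (hT : w ∉ T) (hS : w ∉ S) (hC : w ∉ C) : dgc M T S C w r w = r := by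
  simp [dgc, hT, hS, hC]

theorem dgc_0 (hT : p ∉ T) (hS : p ∉ S) (hC : p ∉ C) (hw : p ≠ w) :
    dgc M T S C w r p = 0 := by
  simp [dgc, hT, hS, hC, hw]

theorem dgc_update (hc : Cf T S C w) (r' : ℕ) :
    Function.update (dgc M T S C w r) w r' = dgc M T S C w r' := by
  funext p
  by_cases hp : p = w
  · subst hp
    rw [Function.update_self, dgc_w hc.wT hc.wS hc.wC]
  · rw [Function.update_of_ne hp]
    simp [dgc, hp]

/-- The five kinds of points. -/
theorem kinds (hc : Cf T S C w) (p : A) :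
    (p ∈ T ∧ p ∉ S ∧ p ∉ C ∧ p ≠ w) ∨ (p ∉ T ∧ p ∈ S ∧ p ∉ C ∧ p ≠ w) ∨
      (p ∉ T ∧ p ∉ S ∧ p ∈ C ∧ p ≠ w) ∨ (p ∉ T ∧ p ∉ S ∧ p ∉ C ∧ p = w) ∨
      (p ∉ T ∧ p ∉ S ∧ p ∉ C ∧ p ≠ w) := by
  have h1 : p ∈ T → p ∉ S := fun h => Finset.disjoint_left.1 hc.TS h
  have h2 : p ∈ T → p ∉ C := fun h => Finset.disjoint_left.1 hc.TC h
  have h3 : p ∈ S → p ∉ C := fun h => Finset.disjoint_left.1 hc.SC h
  have h4 : p ∈ T → p ≠ w := fun h e => hc.wT (e ▸ h)
  have h5 : p ∈ S → p ≠ w := fun h e => hc.wS (e ▸ h)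
  have h6 : p ∈ C → p ≠ w := fun h e => hc.wC (e ▸ h)
  tauto

end dgc

theorem Dg_mv [Fintype A] (h1 : Stmt_DG) {u w : A} (huw : u ≠ w) {δ δ' : A → ℕ} {f : PX K A v}
    (hf : Dg δ f) (hu : δ' u = 0) (hw : δ' w = δ w + δ u)
    (ho : ∀ b, b ≠ u → b ≠ w → δ' b = δ b) : Dg δ' (ren (mv u w) f) := by
  have h := (h1 K A A v).2.2.2.2.2.2.2.1 δ (mv u w) f hf
  have e : (fun b => ∑ a ∈ Finset.univ.filter (fun a => mv u w a = b), δ a) = δ' := by
    funext b
    by_cases hb : b = u
    · subst hb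
      rw [hu]
      apply Finset.sum_eq_zero
      intro c hc
      rw [Finset.mem_filter, mv_apply] at hc
      exfalso
      have := hc.2
      split_ifs at this with h2
      · exact huw this.symm
      · exact h2 this
    · by_cases hb2 : b = w
      · subst hb2
        have e2 : Finset.univ.filter (fun a => mv u b a = b) = {b, u} := by
          ext c
          simp only [Finset.mem_filter, Finset.mem_univ, true_and, mv_apply, Finset.mem_insert,
            Finset.mem_singleton]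
          split_ifs with h2
          · simp [h2]
          · simp [h2]
        rw [e2, Finset.sum_pair hb, hw]
      · have e2 : Finset.univ.filter (fun a => mv u w a = b) = {b} := by
          ext c
          simp only [Finset.mem_filter, Finset.mem_univ, true_and, mv_apply,
            Finset.mem_singleton]
          split_ifs with h2
          · subst h2
            constructor
            · intro h3
              exact absurd h3.symm hb2
            · intro h3
              exact absurd h3.symm hb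
          · rfl
        rw [e2, Finset.sum_singleton, ho b hb hb2]
  rwa [e] at h

section yf

variable [Fintype A] [CharZero K] {M β : ℕ} {T S C : Finset A} {w : A} {x : Fin v → K}
  {η : PX K A v} {y : A → PX K A v}

theorem eq_zero_of_neg {f : PX K A v} (h : f = -f) : f = 0 := by
  have h2 : (2 : K) • f = 0 := by
    rw [two_smul]
    nth_rewrite 2 [h]
    exact add_neg_cancel f
  exact (smul_eq_zero.1 h2).resolve_left two_ne_zero

theorem y_S (h1 : Stmt_DG) (h2 : Stmt_DIV) (hcf : Cf T S C w) (hx : x ≠ 0)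
    (hη : Cg (dgc M T S C w (M + 1 + β)) T S C η)
    (hy : ∀ u ∈ S ∪ C, ren (mv u w) η = lin x w * y u) {u : A} (hu : u ∈ S) :
    Cg (dgc M T (S.erase u) C w (2 * M + 1 + β)) T (S.erase u) C (y u) := by
  have hcan := (h2 K A A v x hx).1 w
  have hyu := hy u (Finset.mem_union_left _ hu)
  have huw : u ≠ w := fun h => hcf.wS (h ▸ hu)
  have huT : u ∉ T := fun h => Finset.disjoint_left.1 hcf.TS h hu
  have huC : u ∉ C := fun h => Finset.disjoint_left.1 hcf.SC hu h
  have hwS' : w ∉ S.erase u := fun h => hcf.wS (Finset.mem_of_mem_erase h)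
  refine ⟨?_, ?_, ?_, ?_⟩
  · have hd : Dg (dgc M T (S.erase u) C w (2 * M + 2 + β)) (lin x w * y u) := by
      rw [← hyu]
      refine Dg_mv h1 huw hη.dg ?_ ?_ ?_
      · exact dgc_0 huT (Finset.notMem_erase _ _) huC huw
      · rw [dgc_w hcf.wT hwS' hcf.wC, dgc_w hcf.wT hcf.wS hcf.wC, dgc_S hu]
        omega
      · intro b hb hbw
        simp [dgc, hb, hbw]
    have hd2 := (h2 K A A v x hx).2.1 _ w (2 * M + 1 + β) (y u)
      (by rw [dgc_w hcf.wT hwS' hcf.wC]; omega) hd
    rwa [dgc_update ⟨?_, hcf.TC, ?_, hcf.wT, hwS', hcf.wC⟩] at hd2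
    · exact Finset.disjoint_of_subset_right (Finset.erase_subset _ _) hcf.TS
    · exact Finset.disjoint_of_subset_left (Finset.erase_subset _ _) hcf.SC
  · refine Sy_cancel hcf.wT hcan ?_
    rw [← hyu]
    exact Sy_mv huT hcf.wT hη.sy
  · refine Al_cancel hwS' hcan ?_
    rw [← hyu]
    exact Al_mv (Finset.notMem_erase _ _) hwS' (Al_mono (Finset.erase_subset _ _) hη.alS)
  · refine Al_cancel hcf.wC hcan ?_
    rw [← hyu]
    exact Al_mv huC hcf.wC hη.alC

theorem y_C (h1 : Stmt_DG) (h2 : Stmt_DIV) (hcf : Cf T S C w) (hx : x ≠ 0)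
    (hη : Cg (dgc M T S C w (M + 1 + β)) T S C η)
    (hy : ∀ u ∈ S ∪ C, ren (mv u w) η = lin x w * y u) {u : A} (hu : u ∈ C) :
    Cg (dgc M T S (C.erase u) w (2 * M + 2 + β)) T S (C.erase u) (y u) := by
  have hcan := (h2 K A A v x hx).1 w
  have hyu := hy u (Finset.mem_union_right _ hu)
  have huw : u ≠ w := fun h => hcf.wC (h ▸ hu)
  have huT : u ∉ T := fun h => Finset.disjoint_left.1 hcf.TC h hu
  have huS : u ∉ S := fun h => Finset.disjoint_left.1 hcf.SC h hu
  have hwC' : w ∉ C.erase u := fun h => hcf.wC (Finset.mem_of_mem_erase h)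
  refine ⟨?_, ?_, ?_, ?_⟩
  · have hd : Dg (dgc M T S (C.erase u) w (2 * M + 3 + β)) (lin x w * y u) := by
      rw [← hyu]
      refine Dg_mv h1 huw hη.dg ?_ ?_ ?_
      · exact dgc_0 huT huS (Finset.notMem_erase _ _) huw
      · rw [dgc_w hcf.wT hcf.wS hwC', dgc_w hcf.wT hcf.wS hcf.wC, dgc_C huT huS hu]
        omega
      · intro b hb hbw
        simp [dgc, hb, hbw]
    have hd2 := (h2 K A A v x hx).2.1 _ w (2 * M + 2 + β) (y u)
      (by rw [dgc_w hcf.wT hcf.wS hwC']; omega) hd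
    rwa [dgc_update ⟨hcf.TS, ?_, ?_, hcf.wT, hcf.wS, hwC'⟩] at hd2
    · exact Finset.disjoint_of_subset_right (Finset.erase_subset _ _) hcf.TC
    · exact Finset.disjoint_of_subset_right (Finset.erase_subset _ _) hcf.SC
  · refine Sy_cancel hcf.wT hcan ?_
    rw [← hyu]
    exact Sy_mv huT hcf.wT hη.sy
  · refine Al_cancel hcf.wS hcan ?_
    rw [← hyu]
    exact Al_mv huS hcf.wS hη.alS
  · refine Al_cancel hwC' hcan ?_
    rw [← hyu]
    exact Al_mv (Finset.notMem_erase _ _) hwC' (Al_mono (Finset.erase_subset _ _) hη.alC)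

theorem y_mv (h2 : Stmt_DIV) (hx : x ≠ 0) {P : Finset A} (hwP : w ∉ P)
    (hy : ∀ u ∈ P, ren (mv u w) η = lin x w * y u) {u u' : A} (hu : u ∈ P) (hu' : u' ∈ P) :
    ren (mv u' w) (y u) = ren (mv u w) (y u') := by
  have hcan := (h2 K A A v x hx).1 w
  have huw : u ≠ w := fun h => hwP (h ▸ hu)
  have huw' : u' ≠ w := fun h => hwP (h ▸ hu')
  apply hcan
  have e1 : ren (mv u' w) (lin x w * y u) = lin x w * ren (mv u' w) (y u) := by
    rw [map_mul, ren_lin, mv_apply, if_neg huw'.symm]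
  have e2 : ren (mv u w) (lin x w * y u') = lin x w * ren (mv u w) (y u') := by
    rw [map_mul, ren_lin, mv_apply, if_neg huw.symm]
  rw [← e1, ← e2, ← hy u hu, ← hy u' hu', mv_mv_same u' u w huw' huw]

theorem y_zero (h2 : Stmt_DIV) (hx : x ≠ 0) {P : Finset A} (hwP : w ∉ P) (hal : Al P η)
    (hy : ∀ u ∈ P, ren (mv u w) η = lin x w * y u) {u u' : A} (hu : u ∈ P) (hu' : u' ∈ P)
    (huu : u ≠ u') : ren (mv u' w) (y u) = 0 := by
  have hcan := (h2 K A A v x hx).1 w
  have huw : u ≠ w := fun h => hwP (h ▸ hu)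
  have huw' : u' ≠ w := fun h => hwP (h ▸ hu')
  apply hcan
  have e1 : ren (mv u' w) (lin x w * y u) = lin x w * ren (mv u' w) (y u) := by
    rw [map_mul, ren_lin, mv_apply, if_neg huw'.symm]
  rw [← e1, ← hy u hu, mul_zero]
  apply eq_zero_of_neg
  have e3 : ren (mv u' w) (ren (mv u w) η) =
      ren (mv u' w) (ren (mv u w) (ren (Equiv.swap u u') η)) := by
    rw [ren_ren, ren_ren, ren_ren]
    refine ren_congr (fun p => ?_) η
    simp only [Function.comp_apply, mv_apply, Equiv.swap_apply_def]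
    by_cases hp : p = u
    · subst hp
      simp [huw'.symm, huu.symm]
    · by_cases hp' : p = u'
      · subst hp'
        simp [huw'.symm, hp]
      · simp [hp, hp']
  conv_lhs => rw [e3]
  rw [hal u hu u' hu' huu, map_neg, map_neg]

theorem y_swap (h2 : Stmt_DIV) (hx : x ≠ 0) {P : Finset A} (hwP : w ∉ P) (hal : Al P η)
    (hy : ∀ u ∈ P, ren (mv u w) η = lin x w * y u) {u u' : A} (hu : u ∈ P) (hu' : u' ∈ P)
    (huu : u ≠ u') : ren (Equiv.swap u u') (y u) = - y u' := by
  have hcan := (h2 K A A v x hx).1 w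
  apply hcan
  have e1 : ren (Equiv.swap u u') (lin x w * y u) = lin x w * ren (Equiv.swap u u') (y u) := by
    rw [map_mul, ren_lin, swap_out hwP hu hu']
  rw [← e1, ← hy u hu, perm_mv, swap_out hwP hu hu', Equiv.swap_apply_left,
    hal u hu u' hu' huu, map_neg, hy u' hu', mul_neg]

theorem Cg_div (h2 : Stmt_DIV) {r : ℕ} (hcf : Cf T S C w) (hx : x ≠ 0) {q : PX K A v}
    (h : Cg (dgc M T S C w (r + 1)) T S C (lin x w * q)) : Cg (dgc M T S C w r) T S C q := by
  have hcan := (h2 K A A v x hx).1 w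
  refine ⟨?_, Sy_cancel hcf.wT hcan h.sy, Al_cancel hcf.wS hcan h.alS,
    Al_cancel hcf.wC hcan h.alC⟩
  have := (h2 K A A v x hx).2.1 _ w r q (dgc_w hcf.wT hcf.wS hcf.wC) h.dg
  rwa [dgc_update hcf] at this

theorem Cg_sub (h1 : Stmt_DG) {δ : A → ℕ} {f g : PX K A v} (hf : Cg δ T S C f)
    (hg : Cg δ T S C g) : Cg δ T S C (f - g) :=
  ⟨((h1 K A A v).2.1 δ f g hf.dg hg.dg).2,
    Sy_sub hf.sy hg.sy, Al_sub hf.alS hg.alS, Al_sub hf.alC hg.alC⟩

theorem Dg_ap (h1 : Stmt_DG) {a p : A} {r : ℕ} (haT : a ∉ T) (haS : a ∉ S) (haC : a ∉ C)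
    (haw : a ≠ w) (hap : a ≠ p) (hpT : p ∉ T) (hpS : p ∉ S) (hpC : p ∉ C) (hpw : p ≠ w)
    {f : PX K A v} (hf : Dg (dgc M (insert a T) S C w r) f) :
    Dg (dgc M T (insert p S) C w r) (ren (mv a p) f) := by
  refine Dg_mv h1 hap hf ?_ ?_ ?_
  · exact dgc_0 haT (by simp [hap, haS]) haC haw
  · rw [dgc_S (Finset.mem_insert_self _ _), dgc_0 (by simp [hap.symm, hpT]) hpS hpC hpw,
      dgc_T (Finset.mem_insert_self _ _), zero_add]
  · intro b hb hbp
    simp [dgc, hb, hbp]

theorem Dg_aw (h1 : Stmt_DG) {a : A} {r r' : ℕ} (haT : a ∉ T) (haS : a ∉ S) (haC : a ∉ C)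
    (haw : a ≠ w) (hwT : w ∉ T) (hwS : w ∉ S) (hwC : w ∉ C) (hr : r' = r + (M + 1))
    {f : PX K A v} (hf : Dg (dgc M (insert a T) S C w r) f) :
    Dg (dgc M T S C w r') (ren (mv a w) f) := by
  refine Dg_mv h1 haw hf ?_ ?_ ?_
  · exact dgc_0 haT haS haC haw
  · rw [dgc_w hwT hwS hwC, dgc_w (by simp [haw.symm, hwT]) hwS hwC,
      dgc_T (Finset.mem_insert_self _ _), hr]
  · intro b hb hbp
    simp [dgc, hb, hbp]

theorem ren_of_dg (h1 : Stmt_DG) {δ : A → ℕ} {φ ψ : A → A} {f : PX K A v} (hf : Dg δ f) {p : A}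
    (hp : δ p = 0) (h : ∀ q, q ≠ p → φ q = ψ q) : ren φ f = ren ψ f := by
  refine (h1 K A A v).2.2.2.2.2.2.2.2.2.1 δ φ ψ f (fun q hq => h q fun hqp => ?_) hf
  subst hqp
  exact hq hp

/-- `b ↦ w` after `a ↦ b`. -/
theorem mv_ab (h1 : Stmt_DG) {δ : A → ℕ} {a b : A} {f : PX K A v} (hf : Dg δ f) (hb : δ b = 0) :
    ren (mv b w) (ren (mv a b) f) = ren (mv a w) f := by
  rw [ren_ren]
  refine ren_of_dg h1 hf hb fun q hq => ?_
  simp only [Function.comp_apply, mv_apply]
  by_cases hqa : q = a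
  · simp [hqa]
  · simp [hqa, hq]

/-- `c ↦ w` after the exchange of `c`, `b` after `a ↦ c`. -/
theorem mv_acb (h1 : Stmt_DG) {δ : A → ℕ} {a b c : A} {f : PX K A v} (hf : Dg δ f)
    (hc : δ c = 0) (hab : a ≠ b) (hac : a ≠ c) (hbc : b ≠ c) (haw : a ≠ w) :
    ren (mv c w) (ren (Equiv.swap c b) (ren (mv a c) f)) =
      ren (mv a b) (ren (mv b w) f) := by
  rw [ren_ren, ren_ren, ren_ren]
  refine ren_of_dg h1 hf hc fun q hq => ?_
  simp only [Function.comp_apply, mv_apply]
  by_cases hqa : q = a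
  · subst hqa
    simp [hbc, hab]
  · by_cases hqb : q = b
    · subst hqb
      simp [hqa, haw.symm]
    · simp [hqa, hq, hqb, Equiv.swap_apply_of_ne_of_ne]

theorem rho1_alt {a : A} (haS : a ∉ S)
    (hys : ∀ u ∈ S, ∀ u' ∈ S, u ≠ u' → ren (Equiv.swap u u') (y u) = - y u')
    (hyal : ∀ u ∈ S, Al (S.erase u) (y u)) : Al S (∑ b ∈ S, ren (mv a b) (y b)) := by
  intro p hp r hr hpr
  have hperm : ∀ b ∈ S, ren (Equiv.swap p r) (y b) = - y (Equiv.swap p r b) := by
    intro b hb
    by_cases hbp : b = p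
    · rw [hbp, Equiv.swap_apply_left]
      exact hys p hp r hr hpr
    · by_cases hbr : b = r
      · rw [hbr, Equiv.swap_apply_right, Equiv.swap_comm]
        exact hys r hr p hp (Ne.symm hpr)
      · rw [Equiv.swap_apply_of_ne_of_ne hbp hbr]
        exact hyal b hb p (Finset.mem_erase.2 ⟨fun h => hbp h.symm, hp⟩) r
          (Finset.mem_erase.2 ⟨fun h => hbr h.symm, hr⟩) hpr
  have h : ∀ q ∈ S, Equiv.swap p r q ∈ S := by
    intro q hq
    rw [Equiv.swap_apply_def]
    split_ifs <;> assumption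
  rw [map_sum, ← Finset.sum_neg_distrib]
  refine Finset.sum_bij' (fun q _ => Equiv.swap p r q) (fun q _ => Equiv.swap p r q) h h
    (fun q _ => by simp) (fun q _ => by simp) (fun b hb => ?_)
  rw [perm_mv, swap_out haS hp hr, hperm b hb, map_neg]

/-- The bicycle `θ_c`. -/
theorem theta (h1 : Stmt_DG) (h3 : Stmt_SYM) (hcf : Cf T S C w) {a c : A} (haT : a ∉ T)
    (haS : a ∉ S) (haC : a ∉ C) (haw : a ≠ w) (hc : c ∈ C) {yc Ωc : PX K A v}
    (hyc : Cg (dgc M (insert a T) S (C.erase c) w (2 * M + 2 + β)) (insert a T) S (C.erase c) yc)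
    (hyc0 : ∀ c' ∈ C.erase c, ren (mv c' w) yc = 0)
    (hΩ : Cg (dgc M T (insert c S) (C.erase c) w (2 * M + 2 + β)) T (insert c S) (C.erase c) Ωc)
    (hΩ0 : ∀ c' ∈ C.erase c, ren (mv c' w) Ωc = 0)
    (hΩc : ren (mv c w) Ωc = ren (mv a w) yc - ∑ b ∈ S, ren (mv a b) (ren (mv b w) yc)) :
    Zc M T (insert c S) (C.erase c) w (2 * M + 2 + β)
      (ren (mv a c) yc - ∑ b ∈ S, ren (Equiv.swap c b) (ren (mv a c) yc) - Ωc) := by
  have hcw : c ≠ w := fun h => hcf.wC (h ▸ hc)
  have hcT : c ∉ T := fun h => Finset.disjoint_left.1 hcf.TC h hc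
  have hcS : c ∉ S := fun h => Finset.disjoint_left.1 hcf.SC h hc
  have hac : a ≠ c := fun h => haC (h ▸ hc)
  have haC' : a ∉ C.erase c := fun h => haC (Finset.mem_of_mem_erase h)
  have hcC' : c ∉ C.erase c := Finset.notMem_erase _ _
  have hd : Dg (dgc M T (insert c S) (C.erase c) w (2 * M + 2 + β)) (ren (mv a c) yc) :=
    Dg_ap h1 haT haS haC' haw hac hcT hcS hcC' hcw hyc.dg
  have hd0 : dgc M (insert a T) S (C.erase c) w (2 * M + 2 + β) c = 0 :=
    dgc_0 (by simp [hac.symm, hcT]) hcS hcC' hcw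
  have hsy : Sy T (ren (mv a c) yc) := Sy_mv haT hcT (Sy_mono (Finset.subset_insert _ _) hyc.sy)
  have halS : Al S (ren (mv a c) yc) := Al_mv haS hcS hyc.alS
  have halC : Al (C.erase c) (ren (mv a c) yc) := Al_mv haC' hcC' hyc.alC
  have hbC' : ∀ b ∈ S, b ∉ C.erase c := fun b hb h =>
    Finset.disjoint_left.1 hcf.SC hb (Finset.mem_of_mem_erase h)
  have hbT : ∀ b ∈ S, b ∉ T := fun b hb h => Finset.disjoint_left.1 hcf.TS h hb
  have hbw : ∀ b ∈ S, b ≠ w := fun b hb h => hcf.wS (h ▸ hb)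
  have hcg1 : Cg (dgc M T (insert c S) (C.erase c) w (2 * M + 2 + β)) T (insert c S) (C.erase c)
      (ren (mv a c) yc - ∑ b ∈ S, ren (Equiv.swap c b) (ren (mv a c) yc)) := by
    refine ⟨?_, ?_, ?_, ?_⟩
    · refine ((h1 K A A v).2.1 _ _ _ hd ((h1 K A A v).2.2.2.1 _ _ _ _ fun b hb => ?_)).2
      refine (h1 K A A v).2.2.2.2.2.2.2.2.1 _ _ _ (fun p => ?_) hd
      by_cases hpc : p = c
      · subst hpc
        rw [Equiv.swap_apply_left, dgc_S (Finset.mem_insert_of_mem hb),
          dgc_S (Finset.mem_insert_self _ _)]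
      · by_cases hpb : p = b
        · subst hpb
          rw [Equiv.swap_apply_right, dgc_S (Finset.mem_insert_of_mem hb),
            dgc_S (Finset.mem_insert_self _ _)]
        · rw [Equiv.swap_apply_of_ne_of_ne hpc hpb]
    · exact Sy_sub hsy (Sy_sum _ _ fun b hb => Sy_swap hcT (hbT b hb) hsy)
    · exact (h3 K A v).2.2.2.2.2.2.2.2.2.2.1 S c _ hcS halS
    · exact Al_sub halC (Al_sum _ _ fun b hb => Al_swap hcC' (hbC' b hb) halC)
  have hcgθ := Cg_sub h1 hcg1 hΩ
  have hc0 : ren (mv c w) (ren (mv a c) yc - ∑ b ∈ S, ren (Equiv.swap c b) (ren (mv a c) yc) -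
      Ωc) = 0 := by
    rw [map_sub, map_sub, map_sum, hΩc, mv_ab h1 hyc.dg hd0]
    rw [sub_eq_zero]
    congr 1
    refine Finset.sum_congr rfl fun b hb => ?_
    exact mv_acb h1 hyc.dg hd0 (fun h => haS (h ▸ hb)) hac (fun h => hcS (h ▸ hb)) haw
  refine ⟨hcgθ, ?_, ?_⟩
  · intro u hu
    rcases Finset.mem_insert.1 hu with rfl | hu
    · exact hc0
    · have huc : u ≠ c := fun h => hcS (h ▸ hu)
      have h6 := hcgθ.alS u (Finset.mem_insert_of_mem hu) c (Finset.mem_insert_self _ _) huc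
      have h7 := congrArg (ren (mv u w)) h6
      have h8 := perm_mv (Equiv.swap u c) c w (ren (mv a c) yc -
        ∑ b ∈ S, ren (Equiv.swap c b) (ren (mv a c) yc) - Ωc)
      rw [hc0, map_zero, Equiv.swap_apply_right,
        Equiv.swap_apply_of_ne_of_ne (hbw u hu).symm hcw.symm, h7, map_neg] at h8
      exact neg_eq_zero.1 h8.symm
  · intro c' hc'
    have hcc' : c' ≠ c := (Finset.mem_erase.1 hc').1
    have hc'C : c' ∈ C := (Finset.mem_erase.1 hc').2
    have hc'w : c' ≠ w := fun h => hcf.wC (h ▸ hc'C)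
    have hc'a : c' ≠ a := fun h => haC (h ▸ hc'C)
    have h6 : ren (mv c' w) (ren (mv a c) yc) = 0 := by
      rw [mv_mv hc'a hcc'.symm haw.symm, hyc0 c' hc', map_zero]
    rw [map_sub, map_sub, hΩ0 c' hc', h6, map_sum, sub_zero, zero_sub, neg_eq_zero]
    refine Finset.sum_eq_zero fun b hb => ?_
    have hc'b : c' ≠ b := fun h => hbC' b hb (h ▸ hc')
    have h7 := perm_mv (Equiv.swap c b) c' w (ren (mv a c) yc)
    rw [h6, map_zero, Equiv.swap_apply_of_ne_of_ne hcc' hc'b,
      Equiv.swap_apply_of_ne_of_ne hcw.symm (hbw b hb).symm] at h7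
    exact h7.symm

/-- The relation `(★)`. -/
theorem star (h1 : Stmt_DG) (h2 : Stmt_DIV) (h6 : Stmt_CHI') (hcf : Cf T S C w) {a : A}
    {t : ℕ} (haT : a ∉ T) (haS : a ∉ S) (haC : a ∉ C) (haw : a ≠ w) (hx : x ≠ 0)
    (hsl : 1 ≤ S.card + C.card) (ht : T.card = t)
    (hPP : PP K v M β (t + 1) (S.card + C.card - 1))
    (hη : Cg (dgc M (insert a T) S C w (M + 1 + β)) (insert a T) S C η)
    (hy : ∀ u ∈ S ∪ C, ren (mv u w) η = lin x w * y u) :
    Good M β T (S ∪ C) w (xS x S * ren (mv a w) η -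
      lin x w * xS x S * (∑ b ∈ S, ren (mv a b) (y b)) -
      ∑ c ∈ C, xS x (insert c S) * ren (mv a c) (y c)) := by
  have hcf' : Cf (insert a T) S C w := ⟨by
    rw [Finset.disjoint_insert_left]; exact ⟨haS, hcf.TS⟩, by
    rw [Finset.disjoint_insert_left]; exact ⟨haC, hcf.TC⟩, hcf.SC, by
    rw [Finset.mem_insert, not_or]; exact ⟨haw.symm, hcf.wT⟩, hcf.wS, hcf.wC⟩
  have hyS := fun u (hu : u ∈ S) => y_S h1 h2 hcf' hx hη hy hu
  have hyC := fun u (hu : u ∈ C) => y_C h1 h2 hcf' hx hη hy hu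
  have hSC : ∀ u, u ∈ S → u ∉ C := fun u h h' => Finset.disjoint_left.1 hcf.SC h h'
  have hTS : ∀ u, u ∈ T → u ∉ S := fun u h h' => Finset.disjoint_left.1 hcf.TS h h'
  have hTC : ∀ u, u ∈ T → u ∉ C := fun u h h' => Finset.disjoint_left.1 hcf.TC h h'
  have hcfG : Cf T ∅ (S ∪ C) w := ⟨Finset.disjoint_empty_right _, by
    rw [Finset.disjoint_union_right]; exact ⟨hcf.TS, hcf.TC⟩, Finset.disjoint_empty_left _,
    hcf.wT, Finset.notMem_empty _, by
    rw [Finset.mem_union, not_or]; exact ⟨hcf.wS, hcf.wC⟩⟩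
  set κ : A → PX K A v := fun c => if c ∈ S then lin x w * xS x (S.erase c) * y c
    else xS x S * y c with hκ
  have hκS : ∀ c ∈ S, κ c = lin x w * xS x (S.erase c) * y c := fun c hc => by
    rw [hκ]; simp only [hc, if_true]
  have hκC : ∀ c ∈ C, κ c = xS x S * y c := fun c hc => by
    have : c ∉ S := fun h => hSC c h hc
    rw [hκ]; simp only [this, if_false]
  have hchi := h6 K v M β t (S.card + C.card - 1) hPP A T (S ∪ C) w a x (xS x S * η) κ hcfG ht
    (by rw [Finset.card_union_of_disjoint hcf.SC]; omega) hx haT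
    (by rw [Finset.mem_union, not_or]; exact ⟨haS, haC⟩) haw ?_ ?_ ?_ ?_
  · -- conclusion
    have e1 : ren (mv a w) (xS x S * η) - ∑ c ∈ S ∪ C, lin x c * ren (mv a c) (κ c) =
        xS x S * ren (mv a w) η - lin x w * xS x S * (∑ b ∈ S, ren (mv a b) (y b)) -
          ∑ c ∈ C, xS x (insert c S) * ren (mv a c) (y c) := by
      rw [Finset.sum_union hcf.SC, map_mul, ren_xS_of_fix (mv a w) x S, sub_sub, Finset.mul_sum]
      · congr 1
        congr 1
        · refine Finset.sum_congr rfl fun c hc => ?_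
          have hac : a ≠ c := fun h => haS (h ▸ hc)
          rw [hκS c hc, map_mul, map_mul, ren_lin, ren_xS_of_fix (mv a c) x (S.erase c),
            mv_apply, if_neg haw.symm, ← xS_erase x hc]
          · ring
          · intro p hp
            rw [mv_apply, if_neg]
            rintro rfl
            exact haS (Finset.mem_of_mem_erase hp)
        · refine Finset.sum_congr rfl fun c hc => ?_
          have hcS : c ∉ S := fun h => hSC c h hc
          rw [hκC c hc, map_mul, ren_xS_of_fix (mv a c) x S, xS_insert x hcS]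
          · ring
          · intro p hp
            rw [mv_apply, if_neg]
            rintro rfl
            exact haS hp
      · intro p hp
        rw [mv_apply, if_neg]
        rintro rfl
        exact haS hp
    rwa [e1] at hchi
  · -- degrees
    have hd := (h1 K A A v).2.2.2.2.1 _ _ _ _
      ((h1 K A A v).2.2.2.2.2.2.2.2.2.2.2 x S) hη.dg
    have e : (fun p => (if p ∈ S then 1 else 0) + dgc M (insert a T) S C w (M + 1 + β) p) =
        dgc M (insert a T) ∅ (S ∪ C) w (M + 1 + β) := by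
      funext p
      have k1 := hTS p
      have k2 := hSC p
      have k3 := hTC p
      by_cases hpa : p = a
      · subst hpa
        simp [dgc, haS]
      · by_cases hpT : p ∈ T
        · simp [dgc, hpT, k1 hpT]
        · by_cases hpS : p ∈ S
          · simp [dgc, hpT, hpS, hpa]
            omega
          · simp [dgc, hpT, hpS, hpa]
    rwa [e] at hd
  · -- symmetry
    intro p hp r hr
    rw [map_mul, hη.sy p hp r hr]
    congr 1
    refine ren_xS_of_fix _ x S fun q hq => swap_out ?_ hp hr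
    exact fun h => Finset.disjoint_left.1 hcf'.TS h hq
  · -- the quotients
    intro c hc
    rcases Finset.mem_union.1 hc with hcS | hcC
    · have hcw : c ≠ w := fun h => hcf.wS (h ▸ hcS)
      rw [map_mul, hy c hc, hκS c hcS, ← xS_erase x hcS, map_mul, ren_lin, mv_apply, if_pos rfl,
        ren_xS_of_fix (mv c w) x (S.erase c)]
      · ring
      · intro p hp
        rw [mv_apply, if_neg (Finset.mem_erase.1 hp).1]
    · have hcS : c ∉ S := fun h => hSC c h hcC
      rw [map_mul, hy c hc, hκC c hcC, ren_xS_of_fix (mv c w) x S]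
      · ring
      · intro p hp
        rw [mv_apply, if_neg]
        rintro rfl
        exact hcS hp
  · -- degrees of the quotients
    intro c hc
    rcases Finset.mem_union.1 hc with hcS | hcC
    · have hcw : c ≠ w := fun h => hcf.wS (h ▸ hcS)
      rw [hκS c hcS]
      have hd := (h1 K A A v).2.2.2.2.1 _ _ _ _
        ((h1 K A A v).2.2.2.2.1 _ _ _ _ ((h1 K A A v).2.2.2.2.2.1 x w)
        ((h1 K A A v).2.2.2.2.2.2.2.2.2.2.2 x (S.erase c))) (hyS c hcS).dg
      have e : (fun p => ((Pi.single w 1 : A → ℕ) p + (if p ∈ S.erase c then 1 else 0)) +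
          dgc M (insert a T) (S.erase c) C w (2 * M + 1 + β) p) =
          Function.update (dgc M (insert a T) ∅ (S ∪ C) w (2 * M + 2 + β)) c 0 := by
        funext p
        have hE : p ∉ (∅ : Finset A) := Finset.notMem_empty p
        by_cases hpc : p = c
        · subst hpc
          rw [Function.update_self, Pi.single_eq_of_ne hcw, if_neg (Finset.notMem_erase _ _),
            dgc_0 (fun h => Finset.disjoint_left.1 hcf'.TS h hcS) (Finset.notMem_erase _ _)
              (hSC p hcS) hcw]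
        · rw [Function.update_of_ne hpc]
          rcases kinds hcf' p with ⟨k1, k2, k3, k4⟩ | ⟨k1, k2, k3, k4⟩ | ⟨k1, k2, k3, k4⟩ |
            ⟨k1, k2, k3, k4⟩ | ⟨k1, k2, k3, k4⟩
          · rw [dgc_T k1, dgc_T k1, Pi.single_eq_of_ne k4,
              if_neg fun h => k2 (Finset.mem_of_mem_erase h)]
            omega
          · have k5 : p ∈ S.erase c := Finset.mem_erase.2 ⟨hpc, k2⟩
            rw [dgc_S k5, dgc_C k1 hE (Finset.mem_union_left _ k2), Pi.single_eq_of_ne k4,
              if_pos k5]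
            omega
          · have k5 : p ∉ S.erase c := fun h => k2 (Finset.mem_of_mem_erase h)
            rw [dgc_C k1 k5 k3, dgc_C k1 hE (Finset.mem_union_right _ k3),
              Pi.single_eq_of_ne k4, if_neg k5]
            omega
          · subst k4
            have k5 : p ∉ S.erase c := fun h => k2 (Finset.mem_of_mem_erase h)
            rw [dgc_w k1 k5 k3, dgc_w k1 hE (by rw [Finset.mem_union, not_or]; exact ⟨k2, k3⟩),
              Pi.single_eq_same, if_neg k5]
            omega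
          · have k5 : p ∉ S.erase c := fun h => k2 (Finset.mem_of_mem_erase h)
            rw [dgc_0 k1 k5 k3 k4, dgc_0 k1 hE
              (by rw [Finset.mem_union, not_or]; exact ⟨k2, k3⟩) k4,
              Pi.single_eq_of_ne k4, if_neg k5]
      rwa [e] at hd
    · have hcw : c ≠ w := fun h => hcf.wC (h ▸ hcC)
      have hcS : c ∉ S := fun h => hSC c h hcC
      rw [hκC c hcC]
      have hd := (h1 K A A v).2.2.2.2.1 _ _ _ _
        ((h1 K A A v).2.2.2.2.2.2.2.2.2.2.2 x S) (hyC c hcC).dg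
      have e : (fun p => (if p ∈ S then 1 else 0) +
          dgc M (insert a T) S (C.erase c) w (2 * M + 2 + β) p) =
          Function.update (dgc M (insert a T) ∅ (S ∪ C) w (2 * M + 2 + β)) c 0 := by
        funext p
        have hE : p ∉ (∅ : Finset A) := Finset.notMem_empty p
        by_cases hpc : p = c
        · subst hpc
          rw [Function.update_self, if_neg hcS,
            dgc_0 (fun h => Finset.disjoint_left.1 hcf'.TC h hcC) hcS
              (Finset.notMem_erase _ _) hcw]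
        · rw [Function.update_of_ne hpc]
          rcases kinds hcf' p with ⟨k1, k2, k3, k4⟩ | ⟨k1, k2, k3, k4⟩ | ⟨k1, k2, k3, k4⟩ |
            ⟨k1, k2, k3, k4⟩ | ⟨k1, k2, k3, k4⟩
          · rw [dgc_T k1, dgc_T k1, if_neg k2]
            omega
          · rw [dgc_S k2, dgc_C k1 hE (Finset.mem_union_left _ k2), if_pos k2]
            omega
          · have k5 : p ∈ C.erase c := Finset.mem_erase.2 ⟨hpc, k3⟩
            rw [dgc_C k1 k2 k5, dgc_C k1 hE (Finset.mem_union_right _ k3), if_neg k2]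
            omega
          · subst k4
            have k5 : p ∉ C.erase c := fun h => k3 (Finset.mem_of_mem_erase h)
            rw [dgc_w k1 k2 k5, dgc_w k1 hE (by rw [Finset.mem_union, not_or]; exact ⟨k2, k3⟩),
              if_neg k2]
            omega
          · have k5 : p ∉ C.erase c := fun h => k3 (Finset.mem_of_mem_erase h)
            rw [dgc_0 k1 k2 k5 k4, dgc_0 k1 hE
              (by rw [Finset.mem_union, not_or]; exact ⟨k2, k3⟩) k4, if_neg k2]
      rwa [e] at hd

/-- The polynomials `ρ`, `ρ₂` and `Ω`. -/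
theorem omega (h1 : Stmt_DG) (h2 : Stmt_DIV) (hcf : Cf T S C w) {a : A}
    (haT : a ∉ T) (haS : a ∉ S) (haC : a ∉ C) (haw : a ≠ w) (hx : x ≠ 0)
    (hPV : PV K v (M + 1) S.card (M + β))
    (hη : Cg (dgc M (insert a T) S C w (M + 1 + β)) (insert a T) S C η)
    (hy : ∀ u ∈ S ∪ C, ren (mv u w) η = lin x w * y u) {f ρ : PX K A v}
    (hf : Zc M T S C w (2 * M + 2 + β) f) (hρ : lin x w * ρ = ren (mv a w) η - f) :
    ∃ Ω : PX K (Option A) v,
      Cg (dgc M (sm T) (isn S) (sm C) (some w) (M + β)) (sm T) (isn S) (sm C) Ω ∧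
      rn w Ω = ρ - ∑ b ∈ S, ren (mv a b) (y b) ∧
      ∀ c ∈ C, ren (mv c w) (rn w Ω) =
        ren (mv a w) (y c) - ∑ b ∈ S, ren (mv a b) (ren (mv b w) (y c)) := by
  have hcf' : Cf (insert a T) S C w := ⟨by
    rw [Finset.disjoint_insert_left]; exact ⟨haS, hcf.TS⟩, by
    rw [Finset.disjoint_insert_left]; exact ⟨haC, hcf.TC⟩, hcf.SC, by
    rw [Finset.mem_insert, not_or]; exact ⟨haw.symm, hcf.wT⟩, hcf.wS, hcf.wC⟩
  have hcan := (h2 K A A v x hx).1 w
  have hyS := fun u (hu : u ∈ S) => y_S h1 h2 hcf' hx hη hy hu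
  have hSC : ∀ u, u ∈ S → u ∉ C := fun u h h' => Finset.disjoint_left.1 hcf.SC h h'
  have hyS' : ∀ u ∈ S, ren (mv u w) η = lin x w * y u := fun u hu =>
    hy u (Finset.mem_union_left _ hu)
  have hwSC : w ∉ S ∪ C := by
    rw [Finset.mem_union, not_or]; exact ⟨hcf.wS, hcf.wC⟩
  have haSC : a ∉ S ∪ C := by
    rw [Finset.mem_union, not_or]; exact ⟨haS, haC⟩
  -- `ρ`
  have hρcg : Cg (dgc M T S C w (2 * M + 1 + β)) T S C ρ := by
    refine Cg_div h2 hcf hx ?_
    rw [hρ]
    have e : 2 * M + 1 + β + 1 = 2 * M + 2 + β := by omega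
    rw [e]
    refine Cg_sub h1 ⟨?_, ?_, ?_, ?_⟩ hf.cg
    · exact Dg_aw h1 haT haS haC haw hcf.wT hcf.wS hcf.wC (by omega) hη.dg
    · exact Sy_mv haT hcf.wT (Sy_mono (Finset.subset_insert _ _) hη.sy)
    · exact Al_mv haS hcf.wS hη.alS
    · exact Al_mv haC hcf.wC hη.alC
  -- `ρ₁`
  have hρ1cg : Cg (dgc M T S C w (2 * M + 1 + β)) T S C (∑ b ∈ S, ren (mv a b) (y b)) := by
    refine ⟨(h1 K A A v).2.2.2.1 _ _ _ _ fun b hb => ?_, Sy_sum _ _ fun b hb => ?_, ?_,
      Al_sum _ _ fun b hb => ?_⟩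
    · have hd := Dg_ap h1 haT (fun h => haS (Finset.mem_of_mem_erase h)) haC haw
        (fun h => haS (h ▸ hb)) (fun h => Finset.disjoint_left.1 hcf.TS h hb)
        (Finset.notMem_erase b S) (hSC b hb) (fun h => hcf.wS (h ▸ hb)) (hyS b hb).dg
      rwa [Finset.insert_erase hb] at hd
    · exact Sy_mv haT (fun h => Finset.disjoint_left.1 hcf.TS h hb)
        (Sy_mono (Finset.subset_insert _ _) (hyS b hb).sy)
    · exact rho1_alt haS (fun u hu u' hu' huu => y_swap h2 hx hcf.wS hη.alS hyS' hu hu' huu)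
        fun u hu => (hyS u hu).alS
    · exact Al_mv haC (hSC b hb) (hyS b hb).alC
  have hmvρ : ∀ u ∈ S ∪ C, ren (mv u w) ρ = ren (mv a w) (y u) := by
    intro u hu
    have huw : u ≠ w := fun h => hwSC (h ▸ hu)
    have hua : u ≠ a := fun h => haSC (h ▸ hu)
    have hfu : ren (mv u w) f = 0 := by
      rcases Finset.mem_union.1 hu with h | h
      · exact hf.cyS u h
      · exact hf.cyC u h
    apply hcan
    have e1 : ren (mv u w) (lin x w * ρ) = lin x w * ren (mv u w) ρ := by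
      rw [map_mul, ren_lin, mv_apply, if_neg huw.symm]
    have e2 : ren (mv a w) (lin x w * y u) = lin x w * ren (mv a w) (y u) := by
      rw [map_mul, ren_lin, mv_apply, if_neg haw.symm]
    rw [← e1, ← e2, hρ, map_sub, hfu, sub_zero, ← hy u hu, mv_mv hua huw.symm haw.symm]
  have hcyS : Cy S w (ρ - ∑ b ∈ S, ren (mv a b) (y b)) := by
    intro b hb
    have hba : b ≠ a := fun h => haS (h ▸ hb)
    have hdb : dgc M (insert a T) (S.erase b) C w (2 * M + 1 + β) b = 0 :=
      dgc_0 (fun h => Finset.disjoint_left.1 hcf'.TS h hb) (Finset.notMem_erase _ _) (hSC b hb)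
        (fun h => hcf.wS (h ▸ hb))
    rw [map_sub, hmvρ b (Finset.mem_union_left _ hb), map_sum, Finset.sum_eq_single b]
    · rw [mv_ab h1 (hyS b hb).dg hdb, sub_self]
    · intro b' hb' hbb
      rw [mv_mv hba hbb haw.symm, y_zero h2 hx hcf.wS hη.alS hyS' hb' hb hbb, map_zero]
    · intro h
      exact absurd hb h
  -- `Ω`
  obtain ⟨Ω, hΩ, hΩρ⟩ := hPV A (dgc M T S C w (2 * M + 1 + β)) T C S w
    (ρ - ∑ b ∈ S, ren (mv a b) (y b))
    ⟨hcf.TC, hcf.TS, hcf.SC.symm, hcf.wT, hcf.wC, hcf.wS⟩ rfl (fun p hp => dgc_S hp)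
    (by rw [dgc_w hcf.wT hcf.wS hcf.wC]; omega)
    (by
      have h := Cg_sub h1 hρcg hρ1cg
      exact ⟨h.dg, h.sy, h.alC, h.alS⟩) hcyS
  refine ⟨Ω, ?_, hΩρ, ?_⟩
  · have e : ext (dgc M T S C w (2 * M + 1 + β)) (M + 1) w (M + β) =
        dgc M (sm T) (isn S) (sm C) (some w) (M + β) := by
      funext o
      rcases o with _ | p
      · have hn : (none : Option A) ∈ isn S := Finset.mem_insert_self _ _
        rw [dgc_S hn]
        rfl
      · by_cases hp : p = w
        · subst hp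
          rw [dgc_w (by simp [sm, hcf.wT]) (by simp [isn, sm, hcf.wS]) (by simp [sm, hcf.wC])]
          simp [ext]
        · simp [ext, hp, dgc, sm, isn]
    rw [e] at hΩ
    exact ⟨hΩ.dg, hΩ.sy, hΩ.alC, hΩ.alS⟩
  · intro c hc
    rw [hΩρ, map_sub, hmvρ c (Finset.mem_union_right _ hc), map_sum]
    congr 1
    refine Finset.sum_congr rfl fun b hb => ?_
    have hca : c ≠ a := fun h => haC (h ▸ hc)
    have hbc : b ≠ c := fun h => hSC b hb (h ▸ hc)
    rw [mv_mv hca hbc haw.symm, y_mv h2 hx hwSC hy (Finset.mem_union_left _ hb)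
      (Finset.mem_union_right _ hc)]

/-- The symmetrisation in `insert c S`. -/
theorem sym_c (h1 : Stmt_DG) (h4 : Stmt_GD0) (h5 : Stmt_GD1) (hcf : Cf T S C w) {c : A}
    (hc : c ∈ C) {g : PX K A v}
    (hg : Dg (dgc M T (insert c S) (C.erase c) w (2 * M + 2 + β)) g) :
    Good M β T (S ∪ C) w (((S.card + 1 : ℕ) : K) • (xS x (insert c S) * g) -
      xS x (insert c S) * (g - ∑ b ∈ S, ren (Equiv.swap c b) g)) := by
  have hcw : c ≠ w := fun h => hcf.wC (h ▸ hc)
  have hSC : ∀ u, u ∈ S → u ∉ C := fun u h h' => Finset.disjoint_left.1 hcf.SC h h'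
  have hcS : c ∉ S := fun h => hSC c h hc
  have hcfG : Cf T ∅ (S ∪ C) w := ⟨Finset.disjoint_empty_right _, by
    rw [Finset.disjoint_union_right]; exact ⟨hcf.TS, hcf.TC⟩, Finset.disjoint_empty_left _,
    hcf.wT, Finset.notMem_empty _, by
    rw [Finset.mem_union, not_or]; exact ⟨hcf.wS, hcf.wC⟩⟩
  have hd : Dg (dgc M T ∅ (S ∪ C) w (2 * M + 2 + β)) (xS x (insert c S) * g) := by
    have h := (h1 K A A v).2.2.2.2.1 _ _ _ _
      ((h1 K A A v).2.2.2.2.2.2.2.2.2.2.2 x (insert c S)) hg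
    have e : (fun p => (if p ∈ insert c S then 1 else 0) +
        dgc M T (insert c S) (C.erase c) w (2 * M + 2 + β) p) =
        dgc M T ∅ (S ∪ C) w (2 * M + 2 + β) := by
      funext p
      have hE : p ∉ (∅ : Finset A) := Finset.notMem_empty p
      rcases kinds hcf p with ⟨k1, k2, k3, k4⟩ | ⟨k1, k2, k3, k4⟩ | ⟨k1, k2, k3, k4⟩ |
        ⟨k1, k2, k3, k4⟩ | ⟨k1, k2, k3, k4⟩
      · have k5 : p ∉ insert c S := by
          rw [Finset.mem_insert, not_or]
          exact ⟨fun h => k3 (h ▸ hc), k2⟩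
        rw [dgc_T k1, dgc_T k1, if_neg k5]
        omega
      · rw [dgc_S (Finset.mem_insert_of_mem k2), dgc_C k1 hE (Finset.mem_union_left _ k2),
          if_pos (Finset.mem_insert_of_mem k2)]
        omega
      · by_cases hpc : p = c
        · subst hpc
          rw [dgc_S (Finset.mem_insert_self _ _), dgc_C k1 hE (Finset.mem_union_right _ k3),
            if_pos (Finset.mem_insert_self _ _)]
          omega
        · have k5 : p ∉ insert c S := by
            rw [Finset.mem_insert, not_or]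
            exact ⟨hpc, k2⟩
          rw [dgc_C k1 k5 (Finset.mem_erase.2 ⟨hpc, k3⟩),
            dgc_C k1 hE (Finset.mem_union_right _ k3), if_neg k5]
          omega
      · subst k4
        have k5 : p ∉ insert c S := by
          rw [Finset.mem_insert, not_or]
          exact ⟨hcw.symm, k2⟩
        rw [dgc_w k1 k5 fun h => k3 (Finset.mem_of_mem_erase h),
          dgc_w k1 hE (by rw [Finset.mem_union, not_or]; exact ⟨k2, k3⟩), if_neg k5]
        omega
      · have k5 : p ∉ insert c S := by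
          rw [Finset.mem_insert, not_or]
          exact ⟨fun h => k3 (h ▸ hc), k2⟩
        rw [dgc_0 k1 k5 (fun h => k3 (Finset.mem_of_mem_erase h)) k4,
          dgc_0 k1 hE (by rw [Finset.mem_union, not_or]; exact ⟨k2, k3⟩) k4, if_neg k5]
    rwa [e] at h
  have hgd := (h4 K A v M β T (S ∪ C) w hcfG).2.2.2.2.2.2.1 A S
    (fun b => xS x (insert c S) * g + ren (Equiv.swap c b) (xS x (insert c S) * g))
    (fun b hb => (h5 K A v M β T (S ∪ C) w _ hcfG hd).2 c (Finset.mem_union_right _ hc) b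
      (Finset.mem_union_left _ hb) fun h => hcS (h ▸ hb))
  have e : ∑ b ∈ S, (xS x (insert c S) * g + ren (Equiv.swap c b) (xS x (insert c S) * g)) =
      ((S.card + 1 : ℕ) : K) • (xS x (insert c S) * g) -
      xS x (insert c S) * (g - ∑ b ∈ S, ren (Equiv.swap c b) g) := by
    rw [Finset.sum_add_distrib, Finset.sum_const, Nat.cast_smul_eq_nsmul, mul_sub,
      Finset.mul_sum, add_smul, one_smul]
    have e2 : ∑ b ∈ S, ren (Equiv.swap c b) (xS x (insert c S) * g) =
        ∑ b ∈ S, xS x (insert c S) * ren (Equiv.swap c b) g := by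
      refine Finset.sum_congr rfl fun b hb => ?_
      rw [map_mul, ren_xS_swap x (Finset.mem_insert_self _ _) (Finset.mem_insert_of_mem hb)]
    rw [e2]
    abel
  rwa [e] at hgd

end yf

end THRM

open THRM in
theorem THRM_thm (h1 : Stmt_DG) (h2 : Stmt_DIV) (h3 : Stmt_SYM) (h4 : Stmt_GD0) (h5 : Stmt_GD1)
    (h6 : Stmt_CHI') (h7 : Stmt_OMG) (h8 : Stmt_OMC) : Stmt_THRM := by
  intro K _ _ v M β t s l hsl hPV hCL hPP A _ _ T S C w a x η f hcf ht hs hl hx haT haS haC haw
    hη hdiv hf hρ0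
  subst hs
  subst hl
  obtain ⟨ρ, hρ⟩ := hρ0
  have hex : ∀ u, ∃ q, u ∈ S ∪ C → ren (mv u w) η = lin x w * q := by
    intro u
    by_cases hu : u ∈ S ∪ C
    · obtain ⟨q, hq⟩ := hdiv u hu
      exact ⟨q, fun _ => hq⟩
    · exact ⟨0, fun h => absurd h hu⟩
  choose y hy using hex
  have hcf' : Cf (insert a T) S C w := ⟨by
    rw [Finset.disjoint_insert_left]; exact ⟨haS, hcf.TS⟩, by
    rw [Finset.disjoint_insert_left]; exact ⟨haC, hcf.TC⟩, hcf.SC, by
    rw [Finset.mem_insert, not_or]; exact ⟨haw.symm, hcf.wT⟩, hcf.wS, hcf.wC⟩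
  have hcfG : Cf T ∅ (S ∪ C) w := ⟨Finset.disjoint_empty_right _, by
    rw [Finset.disjoint_union_right]; exact ⟨hcf.TS, hcf.TC⟩, Finset.disjoint_empty_left _,
    hcf.wT, Finset.notMem_empty _, by
    rw [Finset.mem_union, not_or]; exact ⟨hcf.wS, hcf.wC⟩⟩
  have hSC : ∀ u, u ∈ S → u ∉ C := fun u h h' => Finset.disjoint_left.1 hcf.SC h h'
  obtain ⟨g1, g2, g3, g4, g5, g6, g7, g8⟩ := h4 K A v M β T (S ∪ C) w hcfG
  have hstar := star h1 h2 h6 hcf haT haS haC haw hx hsl ht hPP hη hy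
  obtain ⟨Ω, hΩ, hΩρ, hΩc⟩ := omega h1 h2 hcf haT haS haC haw hx hPV hη hy hf hρ.symm
  have homg := h7 K v M β A T S C w x Ω hcf hΩ
  have homc := h8 K v M β A T S C w Ω hcf hΩ
  set Ωc : A → PX K A v := fun c =>
    ren (fun o => (Equiv.swap none (some c) o : Option A).getD w) Ω with hΩcdef
  set hh : A → PX K A v := fun c => ren (mv a c) (y c) with hhdef
  have hyC := fun u (hu : u ∈ C) => y_C h1 h2 hcf' hx hη hy hu
  have hθ : ∀ c ∈ C, Good M β T (S ∪ C) w
      (xS x (insert c S) * (hh c - ∑ b ∈ S, ren (Equiv.swap c b) (hh c) - Ωc c)) := by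
    intro c hc
    have hcS : c ∉ S := fun h => hSC c h hc
    have hZ := theta h1 h3 hcf haT haS haC haw hc (hyC c hc)
      (fun c' hc' => y_zero h2 hx hcf.wC hη.alC (fun u hu => hy u (Finset.mem_union_right _ hu))
        hc (Finset.mem_of_mem_erase hc') (Finset.mem_erase.1 hc').1.symm)
      (homc c hc).1
      (fun c' hc' => ((homc c hc).2.2 c' (Finset.mem_of_mem_erase hc')
        (Finset.mem_erase.1 hc').1).1)
      ((homc c hc).2.1.trans (hΩc c hc))
    rcases hCL with h0 | hCL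
    · rw [Finset.card_eq_zero.1 h0] at hc
      exact absurd hc (Finset.notMem_empty _)
    · have hcard : 1 ≤ C.card := Finset.card_pos.2 ⟨c, hc⟩
      have hcfc : Cf T (insert c S) (C.erase c) w := ⟨by
        rw [Finset.disjoint_insert_right]
        exact ⟨fun h => Finset.disjoint_left.1 hcf.TC h hc, hcf.TS⟩,
        Finset.disjoint_of_subset_right (Finset.erase_subset _ _) hcf.TC, by
        rw [Finset.disjoint_insert_left]
        exact ⟨Finset.notMem_erase _ _,
          Finset.disjoint_of_subset_right (Finset.erase_subset _ _) hcf.SC⟩, hcf.wT, by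
        rw [Finset.mem_insert, not_or]
        exact ⟨fun h => hcf.wC (h ▸ hc), hcf.wS⟩,
        fun h => hcf.wC (Finset.mem_of_mem_erase h)⟩
      have hsp : Sp T (insert c S) (C.erase c) w := ⟨a, haT, by
        rw [Finset.mem_insert, not_or]
        exact ⟨fun h => haC (h ▸ hc), haS⟩,
        fun h => haC (Finset.mem_of_mem_erase h), haw⟩
      have h := hCL A T (insert c S) (C.erase c) w x _ hcfc hsp ht
        (by rw [Finset.card_insert_of_notMem hcS, Finset.card_erase_of_mem hc]; omega)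
        (Finset.card_erase_of_mem hc) hx hZ
      have e : insert c S ∪ C.erase c = S ∪ C := by
        ext p
        simp only [Finset.mem_union, Finset.mem_insert, Finset.mem_erase]
        by_cases hp : p = c
        · subst hp
          simp [hc]
        · simp [hp]
      rwa [e] at h
  have hsym : ∀ c ∈ C, Good M β T (S ∪ C) w (((S.card + 1 : ℕ) : K) • (xS x (insert c S) * hh c) -
      xS x (insert c S) * (hh c - ∑ b ∈ S, ren (Equiv.swap c b) (hh c))) := by
    intro c hc
    refine sym_c h1 h4 h5 hcf hc ?_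
    exact Dg_ap h1 haT haS (fun h => haC (Finset.mem_of_mem_erase h)) haw
      (fun h => haC (h ▸ hc)) (fun h => Finset.disjoint_left.1 hcf.TC h hc)
      (fun h => hSC c h hc) (Finset.notMem_erase _ _) (fun h => hcf.wC (h ▸ hc)) (hyC c hc).dg
  refine g6 ((S.card + 1 : ℕ) : K) _ (by exact_mod_cast Nat.succ_ne_zero S.card) ?_
  have hfin := (g4 _ _ ((g4 _ _ ((g4 _ _ (g5 ((S.card + 1 : ℕ) : K) _ hstar) homg).2)
    (g7 A C _ hsym)).1) (g7 A C _ hθ)).1
  have hfeq : f = ren (mv a w) η - lin x w * ρ := by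
    rw [← hρ]; ring
  have hρeq : ρ = (∑ b ∈ S, ren (mv a b) (y b)) + rn w Ω := by
    rw [hΩρ]; ring
  have e : ((S.card + 1 : ℕ) : K) • (xS x S * f) =
      ((S.card + 1 : ℕ) : K) • (xS x S * ren (mv a w) η -
        lin x w * xS x S * (∑ b ∈ S, ren (mv a b) (y b)) -
        ∑ c ∈ C, xS x (insert c S) * ren (mv a c) (y c)) -
      (((S.card + 1 : ℕ) : K) • (lin x w * xS x S * rn w Ω) -
        ∑ c ∈ C, xS x (insert c S) * Ωc c) +
      (∑ c ∈ C, (((S.card + 1 : ℕ) : K) • (xS x (insert c S) * hh c) -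
        xS x (insert c S) * (hh c - ∑ b ∈ S, ren (Equiv.swap c b) (hh c)))) +
      ∑ c ∈ C, xS x (insert c S) * (hh c - ∑ b ∈ S, ren (Equiv.swap c b) (hh c) - Ωc c) := by
    rw [hfeq, hρeq]
    simp only [Finset.sum_sub_distrib, mul_sub, smul_sub, Finset.smul_sum, mul_add, smul_add]
    have e1 : ∀ z : PX K A v, xS x S * (lin x w * z) = lin x w * xS x S * z := fun z => by ring
    rw [e1, e1]
    abel
  rw [e]
  exact hfin

end Pool.Agent.VOP
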