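import Pool.Agent.VOP.StmtsT

/-!
# The Ottaviani-Paoletti conjecture (MP_deb8da_ag): module TCD

The component of a super cycle at the tuple `(w, u_1, ..., u_v)` is a bicycle.
-/

set_option autoImplicit false

namespace Pool.Agent.VOP

open MvPolynomial Pool.Agent.VSY

namespace TCD

section pts

variable {v q : ℕ}

theorem qv_zero : qv v q 0 = none := rfl

theorem qv_succ (i : Fin v) : qv v q i.succ = some (Sum.inl i) := rfl

theorem qv_ne_inr (i : Fin (v + 1)) (j : Fin q) : qv v q i ≠ some (Sum.inr j) := by
  refine Fin.cases ?_ (fun i => ?_) i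
  · rw [qv_zero]
    exact fun h => by simp at h
  · rw [qv_succ]
    exact fun h => by simp at h

theorem qv_eq_none {i : Fin (v + 1)} (h : qv v q i = none) : i = 0 := by
  revert h
  refine Fin.cases ?_ (fun i => ?_) i
  · intro _
    rfl
  · rw [qv_succ]
    intro h
    simp at h

theorem qv_inj : Function.Injective (qv v q) := by
  intro i j
  refine Fin.cases ?_ (fun i => ?_) i
  · intro h
    exact (qv_eq_none h.symm).symm
  · refine Fin.cases ?_ (fun j => ?_) j
    · intro h
      exact qv_eq_none h
    · intro h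
      rw [qv_succ, qv_succ] at h
      rw [Sum.inl.inj (Option.some.inj h)]

/-- The tuple. -/
def t1 (v q : ℕ) {k : ℕ} (hk : k = v + 1) : Fin k → Option (QV v q) :=
  fun i => qv v q (Fin.cast hk i)

theorem t1_inj {k : ℕ} (hk : k = v + 1) : Function.Injective (t1 v q hk) :=
  fun _ _ h => Fin.cast_injective hk (qv_inj h)

theorem count {k : ℕ} (hk : k = v + 1) (i : Fin (v + 1)) :
    (Finset.univ.filter fun j : Fin k => t1 v q hk j = qv v q i).card = 1 := by
  rw [Finset.card_eq_one]
  refine ⟨Fin.cast hk.symm i, ?_⟩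
  ext j
  simp only [Finset.mem_filter, Finset.mem_univ, true_and, Finset.mem_singleton]
  constructor
  · intro h
    rw [← qv_inj h]
    rfl
  · rintro rfl
    rfl

theorem count_none {k : ℕ} (hk : k = v + 1) :
    (Finset.univ.filter fun j : Fin k => t1 v q hk j = none).card = 1 :=
  count (q := q) hk 0

theorem count_inr {k : ℕ} (hk : k = v + 1) (i : Fin q) :
    (Finset.univ.filter fun j : Fin k => t1 v q hk j = some (Sum.inr i)).card = 0 := by
  rw [Finset.card_eq_zero, Finset.filter_eq_empty_iff]
  intro j _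
  exact qv_ne_inr _ _

end pts

section maps

variable {K : Type} [Field K] {U : Type} [Fintype U] [DecidableEq U] {n k : ℕ}

theorem zsmul_sq (s : ℤˣ) (f : PX K (Option U) n) : (s : ℤ) • ((s : ℤ) • f) = f := by
  rw [smul_smul]
  rcases Int.units_eq_one_or s with h | h <;> simp [h]

theorem c_map (c : SA K (Option U) n k)
    (hc : ∀ π : Equiv.Perm U, push (Option.map π) c = ((Equiv.Perm.sign π : ℤˣ) : ℤ) • c)
    (π : Equiv.Perm U) (s : Fin k → Option U) :
    c (sgl K (Option.map π ∘ s)) =
      ((Equiv.Perm.sign π : ℤˣ) : ℤ) • ren (Option.map π) (c (sgl K s)) := by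
  have hinj : Function.Injective (Option.map π : Option U → Option U) :=
    Option.map_injective π.injective
  have h1 : push (Option.map π) c (sgl K (Option.map π ∘ s)) =
      ren (Option.map π) (c (sgl K s)) := by
    rw [push_sgl]
    have : (Finset.univ.filter fun s' : Fin k → Option U =>
        Option.map π ∘ s' = Option.map π ∘ s) = {s} := by
      ext s'
      simp only [Finset.mem_filter, Finset.mem_univ, true_and, Finset.mem_singleton]
      constructor
      · intro h
        funext i
        exact hinj (congrFun h i)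
      · intro h
        rw [h]
    rw [this, Finset.sum_singleton]
  rw [hc] at h1
  rw [← h1, AlternatingMap.smul_apply, zsmul_sq]

theorem map_swap (x y : U) (o : Option U) :
    Option.map (Equiv.swap x y) o = Equiv.swap (some x) (some y) o := by
  rcases o with _ | z
  · rw [Option.map_none, Equiv.swap_apply_of_ne_of_ne (by simp) (by simp)]
  · rw [Option.map_some]
    exact (Option.some_injective U).map_swap x y z

/-- A transposition of two points of the tuple: symmetric. -/
theorem sy_swap (c : SA K (Option U) n k)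
    (hc : ∀ π : Equiv.Perm U, push (Option.map π) c = ((Equiv.Perm.sign π : ℤˣ) : ℤ) • c)
    (t : Fin k → Option U) (ht : Function.Injective t) {x y : U} (hxy : x ≠ y) {i j : Fin k}
    (hi : t i = some x) (hj : t j = some y) :
    ren (Equiv.swap (some x) (some y)) (c (sgl K t)) = c (sgl K t) := by
  have hij : i ≠ j := by
    rintro rfl
    exact hxy (Option.some.inj (hi.symm.trans hj))
  have h1 := c_map c hc (Equiv.swap x y) t
  have h2 : Option.map (Equiv.swap x y) ∘ t = t ∘ Equiv.swap i j := by
    funext l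
    rw [Function.comp_apply, Function.comp_apply, map_swap, ht.map_swap, hi, hj]
  rw [h2, sgl_perm, Equiv.Perm.sign_swap hxy, Equiv.Perm.sign_swap hij] at h1
  rw [← ren_congr (map_swap x y)]
  simp only [Units.val_neg, Units.val_one, neg_smul, one_smul, neg_inj] at h1
  exact h1.symm

/-- A transposition of two points outside the tuple: alternating. -/
theorem al_swap (c : SA K (Option U) n k)
    (hc : ∀ π : Equiv.Perm U, push (Option.map π) c = ((Equiv.Perm.sign π : ℤˣ) : ℤ) • c)
    (t : Fin k → Option U) {x y : U} (hxy : x ≠ y) (hx : ∀ i, t i ≠ some x)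
    (hy : ∀ i, t i ≠ some y) :
    ren (Equiv.swap (some x) (some y)) (c (sgl K t)) = -c (sgl K t) := by
  have h1 := c_map c hc (Equiv.swap x y) t
  have h2 : Option.map (Equiv.swap x y) ∘ t = t := by
    funext l
    rw [Function.comp_apply, map_swap, Equiv.swap_apply_of_ne_of_ne (hx l) (hy l)]
  rw [h2, Equiv.Perm.sign_swap hxy] at h1
  rw [← ren_congr (map_swap x y)]
  simp only [Units.val_neg, Units.val_one, neg_smul, one_smul] at h1
  exact neg_eq_iff_eq_neg.1 h1.symm

end maps

section main

variable {K : Type} [Field K] {v q M β k : ℕ}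

theorem mem_TV {x : Option (QV v q)} : x ∈ TV v q ↔ ∃ i, some (Sum.inl i) = x := by
  simp [TV]

theorem mem_CV {x : Option (QV v q)} : x ∈ CV v q ↔ ∃ i, some (Sum.inr i) = x := by
  simp [CV]

theorem deg (hk : k = v + 1) (c : SA K (Option (QV v q)) (v + 1) k)
    (hc : KZ (QV v q) (v + 1) (M + 2) (2 * M + 3 + β) k c) :
    Dg (dgc M (TV v q) ∅ (CV v q) none (2 * M + 2 + β)) (c (sgl K (t1 v q hk))) := by
  intro m hm x
  have h1 := hc.1.deg (t1 v q hk) m hm
  unfold dgc
  rcases x with _ | (i | i)
  · have n1 : (none : Option (QV v q)) ∉ TV v q ∪ ∅ := by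
      rw [Finset.union_empty, mem_TV]
      rintro ⟨i, hi⟩
      simp at hi
    have n2 : (none : Option (QV v q)) ∉ CV v q := by
      rw [mem_CV]
      rintro ⟨i, hi⟩
      simp at hi
    rw [if_neg n1, if_neg n2, if_pos rfl]
    have h2 := h1.2
    rw [count_none hk] at h2
    omega
  · have n1 : some (Sum.inl i) ∈ TV v q ∪ ∅ := by
      rw [Finset.union_empty, mem_TV]
      exact ⟨i, rfl⟩
    rw [if_pos n1]
    have h2 := h1.1 (Sum.inl i)
    rw [← qv_succ, count hk] at h2
    rw [← qv_succ]
    omega
  · have n1 : some (Sum.inr i) ∉ TV v q ∪ ∅ := by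
      rw [Finset.union_empty, mem_TV]
      rintro ⟨j, hj⟩
      simp at hj
    have n2 : some (Sum.inr i) ∈ CV v q := by
      rw [mem_CV]
      exact ⟨i, rfl⟩
    rw [if_neg n1, if_pos n2]
    have h2 := h1.1 (Sum.inr i)
    rw [count_inr hk] at h2
    omega

theorem cyc (hk : k = v + 1) (c : SA K (Option (QV v q)) (v + 1) k)
    (hc : KZ (QV v q) (v + 1) (M + 2) (2 * M + 3 + β) k c)
    (h0 : ∀ t : Fin k → Option (QV v q), (∀ i, t i ≠ none) → c (sgl K t) = 0) (i : Fin q) :
    ren (mv (some (Sum.inr i)) none) (c (sgl K (t1 v q hk))) = 0 := by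
  classical
  change ren (mg (Sum.inr i)) (c (sgl K (t1 v q hk))) = 0
  have h1 := congrArg (fun a : SA K (Option (QV v q)) (v + 1) k => a (sgl K (t1 v q hk)))
    (hc.2 (Sum.inr i))
  simp only [push_sgl, AlternatingMap.zero_apply] at h1
  have h2 : mg (Sum.inr i) ∘ t1 v q hk = t1 v q hk := by
    funext j
    rw [Function.comp_apply]
    unfold mg
    rw [Function.update_of_ne (show t1 v q hk j ≠ some (Sum.inr i) from qv_ne_inr _ _)]
    rfl
  have hmem : t1 v q hk ∈ Finset.univ.filter
      (fun s : Fin k → Option (QV v q) => mg (Sum.inr i) ∘ s = t1 v q hk) :=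
    Finset.mem_filter.2 ⟨Finset.mem_univ _, h2⟩
  refine Eq.trans (Eq.symm (Finset.sum_eq_single_of_mem (t1 v q hk) hmem ?_)) h1
  intro s hs hne
  have h3 := (Finset.mem_filter.1 hs).2
  have h4 : ∀ j, s j = some (Sum.inr i) ∨ s j = t1 v q hk j := by
    intro j
    by_cases h5 : s j = some (Sum.inr i)
    · exact Or.inl h5
    · right
      rw [← h3, Function.comp_apply]
      unfold mg
      rw [Function.update_of_ne h5]
      rfl
  have h5 : ∀ j, s j ≠ none := by
    intro j hj
    apply hne
    funext j'
    rcases h4 j' with h6 | h6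
    · exfalso
      have h7 : t1 v q hk j' = none := by
        rw [← h3, Function.comp_apply, h6]
        unfold mg
        rw [Function.update_self]
      have h8 : t1 v q hk j = none := by
        rw [← h3, Function.comp_apply, hj]
        unfold mg
        rw [Function.update_of_ne (by simp)]
        rfl
      have h9 : j = j' := t1_inj hk (h8.trans h7.symm)
      rw [h9, h6] at hj
      simp at hj
    · exact h6
  rw [h0 s h5, map_zero]

end main

end TCD

/-- **module TCD** -/
theorem TCD_thm : Stmt_TCD := by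
  intro K _ v q M β k hk c hc h0
  have halt := hc.1.alt
  have hinj := TCD.t1_inj (q := q) hk
  change Zc M (TV v q) ∅ (CV v q) none (2 * M + 2 + β) (c (sgl K (TCD.t1 v q hk)))
  refine ⟨⟨TCD.deg hk c hc, ?_, ?_, ?_⟩, ?_, ?_⟩
  · intro x hx y hy
    obtain ⟨a, rfl⟩ := TCD.mem_TV.1 hx
    obtain ⟨b, rfl⟩ := TCD.mem_TV.1 hy
    by_cases hab : a = b
    · subst hab
      rw [Equiv.swap_self]
      exact ren_id _
    · refine TCD.sy_swap c halt _ hinj (fun h => hab (Sum.inl.inj h))
        (i := Fin.cast hk.symm a.succ) (j := Fin.cast hk.symm b.succ) ?_ ?_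
      · rfl
      · rfl
  · intro x hx
    exact absurd hx (Finset.notMem_empty x)
  · intro x hx y hy hxy
    obtain ⟨a, rfl⟩ := TCD.mem_CV.1 hx
    obtain ⟨b, rfl⟩ := TCD.mem_CV.1 hy
    exact TCD.al_swap c halt _ (fun h => hxy (congrArg some h)) (fun i => TCD.qv_ne_inr _ _)
      (fun i => TCD.qv_ne_inr _ _)
  · intro u hu
    exact absurd hu (Finset.notMem_empty u)
  · intro u hu
    obtain ⟨i, rfl⟩ := TCD.mem_CV.1 hu
    exact TCD.cyc hk c hc h0 i

end Pool.Agent.VOP
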