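import Pool.Agent.VOP.StmtsT
import Pool.Agent.VSY.ASM
import Pool.Agent.VSY.L1M

set_option autoImplicit false

namespace Pool.Agent.VOP

open MvPolynomial Pool.Agent.VSY

namespace TL1

variable {K : Type} [Field K] {A B : Type}

theorem ren_dtn {n : ℕ} (φ : A → B) (p : Fin n → A) : ren φ (dtn K p) = dtn K (φ ∘ p) := by
  rw [dtn, dtn, AlgHom.map_det]
  congr 1
  ext1 i j
  simp [AlgHom.mapMatrix_apply, Matrix.map_apply]

theorem dtn_eq_zero {n : ℕ} (p : Fin n → A) {i j : Fin n} (hij : i ≠ j) (h : p i = p j) :
    dtn K p = 0 := by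
  refine Matrix.det_zero_of_row_eq hij ?_
  funext k
  simp [h]

theorem Dg_dtn [DecidableEq A] {n : ℕ} (x : A) (p : Fin n → A) :
    L1M.Dg x (∑ i, if p i = x then 1 else 0) (dtn K p) := by
  rw [dtn, Matrix.det_apply']
  refine L1M.Dg.sum _ _ fun σ _ => ?_
  have h1 : ((Equiv.Perm.sign σ : ℤˣ) : ℤ) • ∏ i, (X (p (σ i), i) : PX K A n) =
      (((Equiv.Perm.sign σ : ℤˣ) : ℤ) : PX K A n) *
        ∏ i, (Matrix.of fun i j : Fin n => (X (p i, j) : PX K A n)) (σ i) i := by
    rw [zsmul_eq_mul]
    rfl
  rw [← h1, ← Equiv.sum_comp σ]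
  exact (L1M.Dg.prod _ _ _ fun i _ => L1M.Dg_X _ _ _).zsmul _

variable {v q : ℕ}

theorem qv_zero : qv v q 0 = none := rfl

theorem qv_succ (i : Fin v) : qv v q i.succ = some (Sum.inl i) := by
  simp [qv]

theorem Dg_none : L1M.Dg none 1 (DV K v q) := by
  have h := Dg_dtn (K := K) (none : Option (QV v q)) (qv v q)
  rw [Fin.sum_univ_succ] at h
  unfold DV
  simpa only [qv_zero, qv_succ, if_true, reduceCtorEq, if_false, Finset.sum_const_zero,
    add_zero] using h

theorem Dg_inl (i : Fin v) : L1M.Dg (some (Sum.inl i)) 1 (DV K v q) := by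
  have h := Dg_dtn (K := K) (some (Sum.inl i) : Option (QV v q)) (qv v q)
  rw [Fin.sum_univ_succ] at h
  unfold DV
  simpa only [qv_zero, qv_succ, reduceCtorEq, if_false, Option.some.injEq, Sum.inl.injEq,
    Finset.sum_ite_eq', Finset.mem_univ, if_true, zero_add] using h

theorem Dg_inr (j : Fin q) : L1M.Dg (some (Sum.inr j)) 0 (DV K v q) := by
  have h := Dg_dtn (K := K) (some (Sum.inr j) : Option (QV v q)) (qv v q)
  rw [Fin.sum_univ_succ] at h
  unfold DV
  simpa only [qv_zero, qv_succ, reduceCtorEq, if_false, Option.some.injEq,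
    Finset.sum_const_zero, add_zero] using h

theorem mem_CV (j : Fin q) : some (Sum.inr j) ∈ CV v q := by
  simp [CV]

theorem mem_TV (i : Fin v) : some (Sum.inl i) ∈ TV v q := by
  simp [TV]

theorem inl_notMem_CV (i : Fin v) : some (Sum.inl i) ∉ CV v q := by
  simp [CV]

theorem inr_notMem_TV (j : Fin q) : some (Sum.inr j) ∉ TV v q := by
  simp [TV]

theorem none_notMem_CV : none ∉ CV v q := by
  simp [CV]

theorem none_notMem_TV : none ∉ TV v q := by
  simp [TV]

end TL1

open TL1 in
theorem TL1_thm : Stmt_TL1 := by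
  classical
  intro K _ _ v q M β g hg
  have hrn : (rn none g : PX K (Option (QV v q)) (v + 1)) = ren Option.join g :=
    ren_congr (by rintro (_ | _ | x) <;> rfl) g
  rw [hrn]
  set κ : Equiv.Perm (Option (Option (QV v q))) := Equiv.swap none (some none) with hκ
  have κn : κ none = some none := Equiv.swap_apply_left _ _
  have κw : κ (some none) = none := Equiv.swap_apply_right _ _
  have κs : ∀ x, κ (some (some x)) = some (some x) := fun x =>
    Equiv.swap_apply_of_ne_of_ne (by simp) (by simp)
  have hsomeinj : Function.Injective (Option.map (some : QV v q → Option (QV v q))) :=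
    Option.map_injective (Option.some_injective _)
  -- degrees of `g`
  have gn : L1M.Dg none (M + 2) g := by
    intro m hm
    rw [hg.dg m hm none]
    simp [dgc, isn, sm]
  have gw : L1M.Dg (some none) (M + β) g := by
    intro m hm
    rw [hg.dg m hm (some none)]
    simp [dgc, isn, sm, none_notMem_CV, none_notMem_TV]
  have gl : ∀ i : Fin v, L1M.Dg (some (some (Sum.inl i))) (M + 1) g := by
    intro i m hm
    rw [hg.dg m hm (some (some (Sum.inl i)))]
    simp [dgc, sm, mem_TV]
  have gr : ∀ j : Fin q, L1M.Dg (some (some (Sum.inr j))) (M + 2) g := by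
    intro j m hm
    rw [hg.dg m hm (some (some (Sum.inr j)))]
    simp [dgc, isn, sm, inr_notMem_TV, mem_CV]
  set F : PX K (Option (Option (QV v q))) (v + 1) :=
    ren (Option.map some) (DV K v q) * ren κ g with hF
  have hFdeg : ∀ m ∈ F.support, (∀ u : Option (QV v q), ∑ j, m (some u, j) = M + 2) ∧
      ∑ j, m (none, j) + (M + 2) = 2 * M + 3 + β := by
    intro m hm
    constructor
    · intro u
      rcases u with _ | (i | j)
      · have h1 : L1M.Dg (some none) 0
            (ren (Option.map (some : QV v q → Option (QV v q))) (DV K v q)) :=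
          L1M.Dg_ren_zero (by rintro (_ | x) h <;> simp at h) _
        have h2 := L1M.Dg_ren κ.injective gn
        rw [κn] at h2
        have := h1.mul h2 m hm
        omega
      · have h1 : L1M.Dg (some (some (Sum.inl i))) 1
            (ren (Option.map (some : QV v q → Option (QV v q))) (DV K v q)) :=
          L1M.Dg_ren hsomeinj (Dg_inl (K := K) (q := q) i)
        have h2 := L1M.Dg_ren κ.injective (gl i)
        rw [κs] at h2
        have := h1.mul h2 m hm
        omega
      · have h1 : L1M.Dg (some (some (Sum.inr j))) 0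
            (ren (Option.map (some : QV v q → Option (QV v q))) (DV K v q)) :=
          L1M.Dg_ren hsomeinj (Dg_inr (K := K) (v := v) j)
        have h2 := L1M.Dg_ren κ.injective (gr j)
        rw [κs] at h2
        have := h1.mul h2 m hm
        omega
    · have h1 : L1M.Dg none 1
            (ren (Option.map (some : QV v q → Option (QV v q))) (DV K v q)) :=
          L1M.Dg_ren hsomeinj (Dg_none (K := K) (v := v) (q := q))
      have h2 := L1M.Dg_ren κ.injective gw
      rw [κw] at h2
      have := h1.mul h2 m hm
      omega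
  have hG := (ASM_thm K (Option (QV v q)) (v + 1)).1 (M + 2) (M + 2) (2 * M + 3 + β) F hFdeg
  have hJ := (ASM_thm K (QV v q) (v + 1)).2 F
  have v0 : ren Option.join F = DV K v q * ren Option.join g := by
    rw [hF, map_mul, ren_ren, ren_ren]
    congr 1
    · rw [ren_congr (ψ := id) (by rintro (_ | x) <;> rfl), ren_id]
    · refine ren_congr ?_ g
      rintro (_ | _ | x)
      · simp [κn]
      · simp [κw]
      · simp [κs]
  have vl : ∀ i : Fin v, ren (Option.join ∘ Option.map
      (Equiv.swap none (some (Sum.inl i : QV v q)))) F = 0 := by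
    intro i
    rw [hF, map_mul, ren_ren, DV, ren_dtn, dtn_eq_zero (i := 0) (j := i.succ) _
      (Fin.succ_ne_zero i).symm, zero_mul]
    simp [qv_succ, qv_zero]
  have vr : ∀ j : Fin q, ren (Option.join ∘ Option.map
      (Equiv.swap none (some (Sum.inr j : QV v q)))) F =
        - (DV K v q * ren Option.join g) := by
    intro j
    have hsg := hg.alC none (by simp [isn]) (some (some (Sum.inr j)))
      (by simp [isn, sm, mem_CV]) (by simp)
    rw [hF, map_mul, ren_ren, ren_ren]
    have e1 : ren ((Option.join ∘ Option.map (Equiv.swap none (some (Sum.inr j : QV v q)))) ∘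
        Option.map some) (DV K v q) = DV K v q := by
      rw [DV, ren_dtn]
      congr 1
      funext i
      refine Fin.cases ?_ (fun i => ?_) i
      · rfl
      · simp [qv_succ, Equiv.swap_apply_of_ne_of_ne]
    have e2 : ren ((Option.join ∘ Option.map (Equiv.swap none (some (Sum.inr j : QV v q)))) ∘ κ) g =
        ren Option.join (ren (Equiv.swap none (some (some (Sum.inr j)))) g) := by
      rw [ren_ren]
      refine ren_congr ?_ g
      rintro (_ | _ | x)
      · simp [κn]
      · simp [κw, Equiv.swap_apply_of_ne_of_ne]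
      · by_cases hx : x = Sum.inr j
        · subst hx
          simp [κs]
        · simp only [Function.comp_apply, κs, Option.map_some]
          rw [Equiv.swap_apply_of_ne_of_ne (by simp) (by simpa using hx),
            Equiv.swap_apply_of_ne_of_ne (by simp) (by simpa using hx)]
    rw [e1, e2, hsg, map_neg, mul_neg]
  have hsum : ren Option.join F - ∑ u : QV v q, ren (Option.join ∘ Option.map
      (Equiv.swap none (some u))) F =
        ((q : K) + 1) • (DV K v q * ren Option.join g) := by
    rw [Fintype.sum_sum_type, v0]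
    simp only [vl, vr, Finset.sum_const_zero, zero_add, Finset.sum_const, Finset.card_univ,
      Fintype.card_fin]
    rw [add_smul, one_smul, Nat.cast_smul_eq_nsmul, smul_neg, sub_neg_eq_add]
    exact add_comm _ _
  have hlam : ren Option.join (∑ π : Equiv.Perm (Option (QV v q)),
      ((Equiv.Perm.sign π : ℤˣ) : ℤ) • ren (Option.map π) F) =
        ((q : K) + 1) • AS (DV K v q * ren Option.join g) := by
    rw [hJ, hsum, AS, Finset.smul_sum]
    refine Finset.sum_congr rfl fun σ _ => ?_
    rw [map_smul, smul_comm]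
  have hne : ((q : K) + 1) ≠ 0 := by
    exact_mod_cast Nat.succ_ne_zero q
  have hfin : InB (QV v q) (v + 1) (M + 2) (2 * M + 3 + β)
      (((q : K) + 1) • AS (DV K v q * ren Option.join g)) := ⟨_, hG, hlam⟩
  have := hfin.smul ((q : K) + 1)⁻¹
  rwa [smul_smul, inv_mul_cancel₀ hne, one_smul] at this

end Pool.Agent.VOP
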