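import Pool.Agent.VOP.StmtsT
import Pool.Agent.VSY.ASM
import Pool.Agent.VSY.L2M

/-!
# TL2: the alternating sum of `det(w, u_1, ..., u_v) * G|_{a₀ → w}` is a boundary
-/

set_option autoImplicit false

namespace Pool.Agent.VOP

open MvPolynomial Pool.Agent.VSY

namespace TL2

open Pool.Agent.VSY.L2M

variable {K : Type} [Field K]

section det

variable {A B : Type} {n : ℕ}

theorem ren_dtn (φ : A → B) (p : Fin n → A) : ren φ (dtn K p) = dtn K (φ ∘ p) := by
  unfold dtn
  rw [AlgHom.map_det]
  congr 1
  ext i j : 2
  simp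

theorem dtn_perm (p : Fin n → A) (σ : Equiv.Perm (Fin n)) :
    dtn K (p ∘ σ) = ((Equiv.Perm.sign σ : ℤˣ) : ℤ) • dtn K p := by
  have h := Matrix.det_permute σ (Matrix.of fun i j : Fin n => (X (p i, j) : PX K A n))
  rw [zsmul_eq_mul]
  exact h

theorem dtn_swap {m : ℕ} (p : Fin (m + 1) → A) (i : Fin (m + 1)) (hi : 0 ≠ i) :
    dtn K (p ∘ Equiv.swap 0 i) = - dtn K p := by
  rw [dtn_perm, Equiv.Perm.sign_swap hi]
  simp

theorem DS_dtn [DecidableEq A] (p : Fin n → A) :
    dtn K p ∈ DS K n (∑ i, Pi.single (p i) 1) := by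
  rw [dtn, Matrix.det_apply]
  refine Submodule.sum_mem _ fun σ _ => ?_
  rw [Units.smul_def]
  refine zsmul_mem ?_ _
  have h := DS_prod Finset.univ (fun i : Fin n => (Pi.single (p (σ i)) 1 : A → ℕ))
    (fun i => (X (p (σ i), i) : PX K A n)) (fun i _ => DS_X _ _)
  rw [Equiv.sum_comp σ (fun i => (Pi.single (p i) 1 : A → ℕ))] at h
  exact h

end det

variable (v q : ℕ)

/-- The substitution `u ↔ none`. -/
def ph (u : QV v q) : Option (Option (QV v q)) → Option (QV v q) :=
  Option.join ∘ Option.map (Equiv.swap none (some u))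

/-- The exchange of `none` and `some none`. -/
def kp : Option (Option (QV v q)) → Option (Option (QV v q)) := Equiv.swap none (some none)

theorem ph_some (u : QV v q) : ph v q u ∘ some = Equiv.swap none (some u) := by
  funext x
  rfl

theorem ph_none (u : QV v q) : ph v q u none = none := rfl

theorem kp_none : kp v q none = some none := Equiv.swap_apply_left _ _

theorem kp_some_none : kp v q (some none) = none := Equiv.swap_apply_right _ _

theorem kp_some (x : QV v q) : kp v q (some (some x)) = some (some x) :=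
  Equiv.swap_apply_of_ne_of_ne (by simp) (by simp)

theorem ph_some_none (u : QV v q) : ph v q u (some none) = some u := by
  simp [ph]

theorem ph_self (u : QV v q) : ph v q u (some (some u)) = none := by
  simp [ph]

theorem ph_ne (u x : QV v q) (h : x ≠ u) : ph v q u (some (some x)) = some x := by
  simp only [ph, Function.comp_apply, Option.map_some]
  rw [Equiv.swap_apply_of_ne_of_ne]
  · rfl
  · simp
  · simpa using h

theorem swap_qv (i : Fin v) :
    (Equiv.swap none (some (Sum.inl i)) : Option (QV v q) → Option (QV v q)) ∘ qv v q =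
      qv v q ∘ Equiv.swap 0 i.succ := by
  funext l
  refine Fin.cases ?_ (fun l => ?_) l
  · simp only [Function.comp_apply, Equiv.swap_apply_left]
    exact Equiv.swap_apply_left _ _
  · simp only [Function.comp_apply]
    by_cases h : l = i
    · subst h
      rw [Equiv.swap_apply_right]
      exact Equiv.swap_apply_right _ _
    · rw [Equiv.swap_apply_of_ne_of_ne (Fin.succ_ne_zero l) (fun h' => h (Fin.succ_injective _ h'))]
      refine Equiv.swap_apply_of_ne_of_ne (by simp [qv]) ?_
      intro h'
      exact h (Sum.inl_injective (Option.some_injective _ h'))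

theorem ren_ph_DV (i : Fin v) : ren (ph v q (Sum.inl i)) (ren some (DV K v q)) = - DV K v q := by
  rw [ren_ren, ph_some, DV, ren_dtn, swap_qv, dtn_swap _ _ (Fin.succ_ne_zero i).symm]

theorem rn_eq (G : PX K (Option (Option (QV v q))) (v + 1)) : rn none G = ren Option.join G := by
  rw [rn]
  exact ren_congr (fun x => by cases x <;> rfl) G

theorem join_kp : Option.join ∘ kp v q = Option.join := by
  funext x
  rcases x with _ | _ | x
  · rw [Function.comp_apply, kp_none]; rfl
  · rw [Function.comp_apply, kp_some_none]; rfl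
  · rw [Function.comp_apply, kp_some]

theorem mem_sm (j : Fin q) : (some (some (Sum.inr j)) : Option (Option (QV v q))) ∈ sm (CV v q) := by
  simp [CV]

theorem mem_isn (i : Fin v) : (some (some (Sum.inl i)) : Option (Option (QV v q))) ∈ isn (TV v q) := by
  simp [isn, TV]

theorem ren_inl (i : Fin v) (G : PX K (Option (Option (QV v q))) (v + 1)) (h : Sy (isn (TV v q)) G) :
    ren (ph v q (Sum.inl i)) (ren (kp v q) G) = ren Option.join G := by
  have h1 := h none (by simp [isn]) _ (mem_isn v q i)
  conv_lhs => rw [← h1]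
  rw [ren_ren, ren_ren]
  refine ren_congr (fun x => ?_) G
  simp only [Function.comp_apply]
  rcases x with _ | _ | x
  · rw [Equiv.swap_apply_left, kp_some, ph_self]; rfl
  · rw [Equiv.swap_apply_of_ne_of_ne (by simp) (by simp), kp_some_none]; rfl
  · by_cases hx : x = Sum.inl i
    · subst hx
      rw [Equiv.swap_apply_right, kp_none, ph_some_none]; rfl
    · rw [Equiv.swap_apply_of_ne_of_ne (by simp) (by simpa using hx), kp_some, ph_ne _ _ _ _ hx]
      rfl

theorem ren_inr (j : Fin q) (G : PX K (Option (Option (QV v q))) (v + 1))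
    (h : Cy (sm (CV v q)) (some none) G) :
    ren (ph v q (Sum.inr j)) (ren (kp v q) G) = 0 := by
  have h1 := h _ (mem_sm v q j)
  have h2 : ren (ph v q (Sum.inr j)) (ren (kp v q) G) =
      ren (ph v q (Sum.inr j) ∘ kp v q) (ren (mv (some (some (Sum.inr j))) (some none)) G) := by
    rw [ren_ren, ren_ren]
    refine ren_congr (fun x => ?_) G
    simp only [Function.comp_apply, mv]
    by_cases hx : x = some (some (Sum.inr j))
    · subst hx
      rw [Function.update_self, kp_some, kp_some_none, ph_self]; rfl
    · rw [Function.update_of_ne hx]; rfl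
  rw [h2, h1, map_zero]

theorem deg (M β : ℕ) (G : PX K (Option (Option (QV v q))) (v + 1))
    (h : Dg (dgc M (isn (TV v q)) ∅ (sm (CV v q)) (some none) (M + 1 + β)) G) :
    ∀ m ∈ (ren some (DV K v q) * ren (kp v q) G).support,
      (∀ u : Option (QV v q), ∑ j, m (some u, j) = M + 2) ∧
        ∑ j, m (none, j) + (M + 2) = 2 * M + 3 + β := by
  classical
  have h1 : ren some (DV K v q) ∈ DS K (v + 1) (∑ i, Pi.single (some (qv v q i)) 1) := by
    rw [DV, ren_dtn]
    exact DS_dtn _
  have h2 := DS_mul h1 (DS_ren (kp v q) (show G ∈ DS K (v + 1) _ from h))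
  have hk : ∀ x y, kp v q x = y ↔ x = kp v q y := by
    intro x y
    unfold kp
    rw [Equiv.swap_apply_eq_iff]
  have hf : ∀ y, (Finset.univ.filter fun x => kp v q x = y) = {kp v q y} := by
    intro y
    ext x
    rw [Finset.mem_filter, Finset.mem_singleton, hk]
    simp
  intro m hm
  have h0 := h2 m hm
  simp only [Pi.add_apply, Finset.sum_apply] at h0
  have hs : ∀ y : Option (Option (QV v q)),
      ∑ i, (Pi.single (some (qv v q i)) 1 : Option (Option (QV v q)) → ℕ) y =
        (Pi.single (some none) 1 : Option (Option (QV v q)) → ℕ) y +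
          ∑ i : Fin v, (Pi.single (some (some (Sum.inl i))) 1 : Option (Option (QV v q)) → ℕ) y := by
    intro y
    rw [Fin.sum_univ_succ]
    rfl
  refine ⟨fun u => ?_, ?_⟩
  · rw [h0 (some u), hs, hf, Finset.sum_singleton]
    rcases u with _ | (i | j)
    · rw [kp_some_none]
      simp [dgc, isn]
      omega
    · rw [kp_some]
      simp [Pi.single_apply, dgc, isn, TV, Finset.sum_ite_eq]
      omega
    · rw [kp_some]
      simp [dgc, isn, TV, CV]
  · rw [h0 none, hs, hf, Finset.sum_singleton, kp_none]
    simp [dgc, isn, TV, CV]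
    omega

end TL2

open TL2 in
theorem TL2_thm : Stmt_TL2 := by
  intro K _ _ v q M β G hG
  obtain ⟨h11, -⟩ := ASM_thm K (Option (QV v q)) (v + 1)
  obtain ⟨-, h13⟩ := ASM_thm K (QV v q) (v + 1)
  have hB : InB (QV v q) (v + 1) (M + 2) (2 * M + 3 + β)
      (((1 + v : ℕ) : K) • AS (DV K v q * rn none G)) := by
    refine ⟨_, h11 (M + 2) (M + 2) (2 * M + 3 + β) (ren some (DV K v q) * ren (kp v q) G)
      (TL2.deg v q M β G hG.cg.dg), ?_⟩
    rw [h13]
    have e0 : ren Option.join (ren some (DV K v q) * ren (kp v q) G) = DV K v q * rn none G := by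
      rw [map_mul, ren_ren, ren_ren, join_kp, rn_eq]
      congr 1
      have : (Option.join ∘ some : Option (QV v q) → Option (QV v q)) = id := by
        funext x; rfl
      rw [this, ren_id]
    have e1 : ∀ u : QV v q, ren (Option.join ∘ Option.map (Equiv.swap none (some u)))
        (ren some (DV K v q) * ren (kp v q) G) = ren (ph v q u)
          (ren some (DV K v q) * ren (kp v q) G) := fun u => rfl
    have e2 : ∑ u : QV v q, ren (Option.join ∘ Option.map (Equiv.swap none (some u)))
        (ren some (DV K v q) * ren (kp v q) G) = - ((v : K) • (DV K v q * rn none G)) := by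
      simp only [e1, Fintype.sum_sum_type, map_mul, ren_ph_DV, ren_inl v q _ G hG.cg.sy,
        ren_inr v q _ G hG.cyC, mul_zero, Finset.sum_const_zero, add_zero, Finset.sum_const,
        Finset.card_univ, Fintype.card_fin, rn_eq]
      rw [Nat.cast_smul_eq_nsmul]
      simp
    rw [e0, e2, AS, Finset.smul_sum]
    refine Finset.sum_congr rfl fun π _ => ?_
    have e3 : ren (Option.map π) (DV K v q * rn none G - -((v : K) • (DV K v q * rn none G))) =
        ((1 + v : ℕ) : K) • ren (Option.map π) (DV K v q * rn none G) := by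
      rw [sub_neg_eq_add, map_add, map_smul, Nat.cast_add, Nat.cast_one, add_smul, one_smul]
    rw [e3, smul_comm]
  have h2 := hB.smul (((1 + v : ℕ) : K)⁻¹)
  rwa [smul_smul, inv_mul_cancel₀ (by
    have : (1 + v : ℕ) ≠ 0 := by omega
    exact_mod_cast this), one_smul] at h2

end Pool.Agent.VOP
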