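import Pool.Agent.VOP.StmtsT
import Pool.Agent.VSY.L0M
import Pool.Agent.VSY.TB
import Pool.Agent.VSY.TR

/-!
# The Ottaviani-Paoletti conjecture (MP_deb8da_ag): block T, from `v` to `v + 1` variables
-/

set_option autoImplicit false

namespace Pool.Agent.VOP

open MvPolynomial Pool.Agent.VSY

namespace TRS

variable {K : Type} [Field K]

theorem card_TV (v q : ℕ) : (TV v q).card = v := by
  unfold TV
  rw [Finset.card_image_of_injective]
  · simp
  · intro a b h
    simpa using h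

theorem card_CV (v q : ℕ) : (CV v q).card = q := by
  unfold CV
  rw [Finset.card_image_of_injective]
  · simp
  · intro a b h
    simpa using h

theorem cf (v q : ℕ) : Cf (TV v q) ∅ (CV v q) none := by
  refine ⟨Finset.disjoint_empty_right _, ?_, Finset.disjoint_empty_left _, ?_, ?_, ?_⟩
  · rw [Finset.disjoint_left]
    intro x hx hy
    simp only [TV, CV, Finset.mem_image, Finset.mem_univ, true_and] at hx hy
    obtain ⟨i, rfl⟩ := hx
    obtain ⟨j, hj⟩ := hy
    simp at hj
  · simp [TV]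
  · simp
  · simp [CV]

theorem AS_add {U : Type} [Fintype U] [DecidableEq U] {v : ℕ} (F G : PX K (Option U) v) :
    AS (F + G) = AS F + AS G := by
  unfold AS
  rw [← Finset.sum_add_distrib]
  refine Finset.sum_congr rfl fun π _ => ?_
  rw [map_add, smul_add]

/-- The Capelli element is a boundary. -/
theorem cap (hCB : Stmt_TCB) (hCD : Stmt_TCD) (hL1 : Stmt_TL1) (hL2 : Stmt_TL2)
    (hO : Stmt_OPS) (hE : Stmt_EXA) (hP : Stmt_PAR) [CharZero K] (v q M β : ℕ)
    (hPP : PP K (v + 1) M β v q)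
    (hV : v + 1 ≤ v + q → Van K (v + 1) (M + 2) (v + q - (v + 1)) (2 * M + 3 + β))
    (f : PX K (Option (QV v q)) (v + 1))
    (hf : InZ (QV v q) (v + 1) (M + 2) (2 * M + 3 + β) f) :
    InB (QV v q) (v + 1) (M + 2) (2 * M + 3 + β)
      (capL (List.finRange (v + 1)) (yL (List.finRange (v + 1)) f)) := by
  have hlen : (List.finRange (v + 1)).length = v + 1 := List.length_finRange
  have hcard : Fintype.card (QV v q) = v + q := by
    rw [Fintype.card_sum, Fintype.card_fin, Fintype.card_fin]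
  obtain ⟨_, _, o3, o4, _⟩ := hO K (QV v q) (v + 1) (M + 2) (2 * M + 3 + β)
  have hy := o3 (List.finRange (v + 1)) f hf
  obtain ⟨c, hc, hb, h0⟩ := hE K (v + 1) (M + 2) (v + q) (2 * M + 3 + β)
    (List.finRange (v + 1)).length (by omega) (by omega)
    (fun h => by
      rw [hlen] at h ⊢
      exact hP K _ _ _ _ (hV h)) (QV v q) hcard _ hy
  have hsplit : capL (List.finRange (v + 1)) (yL (List.finRange (v + 1)) f) =
      capL (List.finRange (v + 1)) (yL (List.finRange (v + 1)) f - c) +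
        capL (List.finRange (v + 1)) c := by
    rw [← L0M.capL_add, sub_add_cancel]
  rw [hsplit]
  refine (o4 (List.finRange (v + 1)) _ hb).add ?_
  obtain ⟨a, ha⟩ := hCB K v q c hc.1.alt h0
  rw [ha]
  refine InB.smul a ?_
  have hz := hCD K v q M β _ hlen c hc h0
  obtain ⟨G, g, hG, hg, hH⟩ := hPP (Option (QV v q)) (TV v q) (CV v q) none _ (cf v q)
    (card_TV v q) (card_CV v q) hz
  rw [hH, mul_add, AS_add]
  exact (hL2 K v q M β G hG).add (hL1 K v q M β g hg)

theorem main (hCB : Stmt_TCB) (hCD : Stmt_TCD) (hL1 : Stmt_TL1) (hL2 : Stmt_TL2)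
    (hO : Stmt_OPS) (hE : Stmt_EXA) (hP : Stmt_PAR) (hW : Stmt_WT) (hVA : Stmt_VAR)
    (hVU : Stmt_VU) [CharZero K] (v q M β : ℕ)
    (hv : Van K v (M + 2) (v + q) (2 * M + 3 + β))
    (hPP : PP K (v + 1) M β v q)
    (hV : v + 1 ≤ v + q → Van K (v + 1) (M + 2) (v + q - (v + 1)) (2 * M + 3 + β)) :
    Van K (v + 1) (M + 2) (v + q) (2 * M + 3 + β) := by
  have hcard : Fintype.card (QV v q) = v + q := by
    rw [Fintype.card_sum, Fintype.card_fin, Fintype.card_fin]
  refine hVU K (v + 1) (M + 2) (v + q) (2 * M + 3 + β) (QV v q) hcard fun f hf => ?_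
  obtain ⟨o1, o2, _, _, o5⟩ := hO K (QV v q) (v + 1) (M + 2) (2 * M + 3 + β)
  have hle : ZZ K (QV v q) (v + 1) (M + 2) (2 * M + 3 + β) ≤
      BB K (QV v q) (v + 1) (M + 2) (2 * M + 3 + β) := by
    refine hW K (Option (QV v q)) v (Fintype.card (QV v q) * (M + 2) + (2 * M + 3 + β)) _ _
      (fun g hg ν => o5 g ν hg) (fun i j g hg => o1 i j g hg) (fun i j g hg => o2 i j g hg)
      (fun g hg m hm => TB.total_deg (hg : InZ _ _ _ _ g).1 m hm) (fun g hg hl => ?_)
      (fun g hg => cap hCB hCD hL1 hL2 hO hE hP v q M β hPP hV g hg)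
    obtain ⟨_, v2, _, _, v5⟩ := hVA K v (v + 1) (Nat.le_succ v)
    obtain ⟨_, w2, w3, _⟩ := v5 (QV v q) (M + 2) (2 * M + 3 + β)
    have hup : up (Nat.le_succ v) (down (v := v) g) = g := by
      refine v2 _ g fun μ hμ x j hj => ?_
      have hjl : j = Fin.last v := by
        apply Fin.ext
        have := j.isLt
        simp only [Fin.val_last]
        omega
      rw [hjl]
      exact hl μ hμ x
    have hz : InZ (QV v q) v (M + 2) (2 * M + 3 + β) (down g) := w3 g hg
    have hb' := w2 _ (hv (QV v q) hcard _ hz)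
    rw [hup] at hb'
    exact hb'
  exact hle hf

end TRS

theorem TRS_of (hCB : Stmt_TCB) (hCD : Stmt_TCD) (hL1 : Stmt_TL1) (hL2 : Stmt_TL2)
    (hO : Stmt_OPS) (hE : Stmt_EXA) (hP : Stmt_PAR) (hW : Stmt_WT) (hVA : Stmt_VAR)
    (hVU : Stmt_VU) (hTR : Stmt_TR) : Stmt_TRS := by
  intro K _ _ v M β p hv1 hv hPP hV
  by_cases h : v ≤ p
  · obtain ⟨q, rfl⟩ := Nat.exists_eq_add_of_le h
    have e : v + q - v = q := by omega
    rw [e] at hPP
    exact TRS.main hCB hCD hL1 hL2 hO hE hP hW hVA hVU v q M β hv (hPP (by omega)) hV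
  · refine hTR K (M + 2) v p (2 * M + 3 + β) (by omega) hv (fun v' hv' => ⟨fun hp => ?_,
      fun hp => ?_⟩) (v + 1) (by omega)
    · omega
    · omega

end Pool.Agent.VOP
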