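import Pool.Agent.VOP.TCB
import Pool.Agent.VOP.TCD
import Pool.Agent.VOP.TL1
import Pool.Agent.VOP.TL2
import Pool.Agent.VOP.TRS
import Pool.Agent.VSY.MAIN

/-!
# The Ottaviani-Paoletti conjecture (MP_deb8da_ag): block T, assembly
-/

set_option autoImplicit false

namespace Pool.Agent.VOP

open Pool.Agent.VSY

theorem TRS_thm : Stmt_TRS :=
  TRS_of TCB_thm TCD_thm TL1_thm TL2_thm ops (EXA_thm IND_thm UNI_thm) PAR_thm wt VAR_thm VU_thm tr

end Pool.Agent.VOP
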