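import Pool.Agent.VOP.StmtsS

/-!
# The Ottaviani-Paoletti conjecture (MP_deb8da_ag): module TWOM, the step (2')
-/

namespace Pool.Agent.VOP

open MvPolynomial Pool.Agent.VSY

namespace TWOM

variable {K : Type} [Field K] {A : Type} [DecidableEq A] {v : ℕ}

theorem mv_self (u w : A) : mv u w u = w := by
  rw [mv, Function.update_self]

theorem mv_ne {u w x : A} (h : x ≠ u) : mv u w x = x := by
  rw [mv, Function.update_of_ne h]
  rfl

/-- conjugation of a swap -/
theorem ren_swap_comm (π : Equiv.Perm A) (a b : A) (f : PX K A v) :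
    ren π (ren (Equiv.swap a b) f) = ren (Equiv.swap (π a) (π b)) (ren π f) := by
  rw [ren_ren, ren_ren]
  refine ren_congr (fun z => ?_) f
  have h := Equiv.mul_swap_eq_swap_mul π a b
  have h2 := congrArg (fun e : Equiv.Perm A => e z) h
  simpa using h2

/-- disjoint swaps commute -/
theorem swap_swap {a b x y : A} (hax : a ≠ x) (hay : a ≠ y) (hbx : b ≠ x) (hby : b ≠ y)
    (f : PX K A v) : ren (Equiv.swap x y) (ren (Equiv.swap a b) f) =
      ren (Equiv.swap a b) (ren (Equiv.swap x y) f) := by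
  rw [ren_swap_comm, Equiv.swap_apply_of_ne_of_ne hax hay, Equiv.swap_apply_of_ne_of_ne hbx hby]

theorem mv_swap {b c w : A} (hb : b ≠ w) (hc : c ≠ w) (f : PX K A v) :
    ren (mv b w) (ren (Equiv.swap b c) f) = ren (Equiv.swap b c) (ren (mv c w) f) := by
  rw [ren_ren, ren_ren]
  refine ren_congr (fun x => ?_) f
  simp only [Function.comp_apply]
  by_cases h1 : x = c
  · subst h1
    rw [Equiv.swap_apply_right, mv_self, mv_self, Equiv.swap_apply_of_ne_of_ne hb.symm hc.symm]
  · rw [mv_ne h1]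
    by_cases h2 : x = b
    · subst h2
      rw [Equiv.swap_apply_left, mv_ne (fun h => h1 h.symm)]
    · rw [Equiv.swap_apply_of_ne_of_ne h2 h1, mv_ne h2]

theorem mv_swap_ne {a b e w : A} (ha : a ≠ w) (hb : b ≠ w) (hae : a ≠ e) (hbe : b ≠ e)
    (f : PX K A v) :
    ren (mv e w) (ren (Equiv.swap a b) f) = ren (Equiv.swap a b) (ren (mv e w) f) := by
  rw [ren_ren, ren_ren]
  refine ren_congr (fun x => ?_) f
  simp only [Function.comp_apply]
  by_cases h1 : x = e
  · subst h1
    rw [Equiv.swap_apply_of_ne_of_ne hae.symm hbe.symm, mv_self,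
      Equiv.swap_apply_of_ne_of_ne ha.symm hb.symm]
  · rw [mv_ne h1, mv_ne]
    intro h
    have h2 : x = Equiv.swap a b e := by
      rw [← h, Equiv.swap_apply_self]
    rw [Equiv.swap_apply_of_ne_of_ne hae.symm hbe.symm] at h2
    exact h1 h2

theorem sy_sum {ι : Type} (T : Finset A) (s : Finset ι) (f : ι → PX K A v)
    (h : ∀ i ∈ s, Sy T (f i)) : Sy T (∑ i ∈ s, f i) := by
  intro x hx y hy
  rw [map_sum]
  exact Finset.sum_congr rfl fun i hi => h i hi x hx y hy

theorem al_sum {ι : Type} (T : Finset A) (s : Finset ι) (f : ι → PX K A v)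
    (h : ∀ i ∈ s, Al T (f i)) : Al T (∑ i ∈ s, f i) := by
  intro x hx y hy hxy
  rw [map_sum, ← Finset.sum_neg_distrib]
  exact Finset.sum_congr rfl fun i hi => h i hi x hx y hy hxy

theorem sy_sub {T : Finset A} {f g : PX K A v} (hf : Sy T f) (hg : Sy T g) : Sy T (f - g) := by
  intro x hx y hy
  rw [map_sub, hf x hx y hy, hg x hx y hy]

theorem al_sub {T : Finset A} {f g : PX K A v} (hf : Al T f) (hg : Al T g) : Al T (f - g) := by
  intro x hx y hy hxy
  rw [map_sub, hf x hx y hy hxy, hg x hx y hy hxy]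
  ring

theorem sy_swap {T : Finset A} {a b : A} (ha : a ∉ T) (hb : b ∉ T) {f : PX K A v} (hf : Sy T f) :
    Sy T (ren (Equiv.swap a b) f) := by
  intro x hx y hy
  rw [swap_swap (ne_of_mem_of_not_mem hx ha).symm (ne_of_mem_of_not_mem hy ha).symm
    (ne_of_mem_of_not_mem hx hb).symm (ne_of_mem_of_not_mem hy hb).symm, hf x hx y hy]

theorem al_swap {T : Finset A} {a b : A} (ha : a ∉ T) (hb : b ∉ T) {f : PX K A v} (hf : Al T f) :
    Al T (ren (Equiv.swap a b) f) := by
  intro x hx y hy hxy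
  rw [swap_swap (ne_of_mem_of_not_mem hx ha).symm (ne_of_mem_of_not_mem hy ha).symm
    (ne_of_mem_of_not_mem hx hb).symm (ne_of_mem_of_not_mem hy hb).symm, hf x hx y hy hxy,
    map_neg]

theorem ren_lin {B : Type} (φ : A → B) (x : Fin v → K) (p : A) :
    ren φ (lin x p : PX K A v) = lin x (φ p) := by
  simp only [lin, map_sum, map_mul, ren_C, ren_X]

theorem sy_lin {T : Finset A} {u : A} (hu : u ∉ T) (x : Fin v → K) : Sy T (lin x u : PX K A v) := by
  intro a ha b hb
  rw [ren_lin, Equiv.swap_apply_of_ne_of_ne (ne_of_mem_of_not_mem ha hu).symm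
    (ne_of_mem_of_not_mem hb hu).symm]

theorem sy_mul {T : Finset A} {f g : PX K A v} (hf : Sy T f) (hg : Sy T g) : Sy T (f * g) := by
  intro x hx y hy
  rw [map_mul, hf x hx y hy, hg x hx y hy]

theorem al_mul {T : Finset A} {f g : PX K A v} (hf : Sy T f) (hg : Al T g) : Al T (f * g) := by
  intro x hx y hy hxy
  rw [map_mul, hf x hx y hy, hg x hx y hy hxy, mul_neg]

theorem ren_xS (π : Equiv.Perm A) (x : Fin v → K) (S : Finset A) :
    ren π (xS x S : PX K A v) = xS x (S.image π) := by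
  rw [xS, xS, map_prod, Finset.prod_image (fun a _ b _ h => π.injective h)]
  exact Finset.prod_congr rfl fun p _ => ren_lin _ _ _

theorem ren_xS_fix {a b : A} {S : Finset A} (ha : a ∉ S) (hb : b ∉ S) (x : Fin v → K) :
    ren (Equiv.swap a b) (xS x S : PX K A v) = xS x S := by
  rw [ren_xS]
  congr 1
  ext z
  rw [Finset.mem_image]
  constructor
  · rintro ⟨y, hy, rfl⟩
    rwa [Equiv.swap_apply_of_ne_of_ne (ne_of_mem_of_not_mem hy ha) (ne_of_mem_of_not_mem hy hb)]
  · intro hz
    exact ⟨z, hz, Equiv.swap_apply_of_ne_of_ne (ne_of_mem_of_not_mem hz ha)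
      (ne_of_mem_of_not_mem hz hb)⟩

theorem ren_xS_mem {a b : A} {S : Finset A} (ha : a ∈ S) (hb : b ∈ S) (x : Fin v → K) :
    ren (Equiv.swap a b) (xS x S : PX K A v) = xS x S := by
  rw [ren_xS]
  congr 1
  have key : ∀ z ∈ S, Equiv.swap a b z ∈ S := by
    intro z hz
    rw [Equiv.swap_apply_def]
    split_ifs
    · exact hb
    · exact ha
    · exact hz
  ext z
  rw [Finset.mem_image]
  constructor
  · rintro ⟨y, hy, rfl⟩
    exact key y hy
  · intro hz
    exact ⟨_, key z hz, Equiv.swap_apply_self _ _ _⟩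

theorem ren_xS_insert {a b : A} {S : Finset A} (ha : a ∉ S) (hb : b ∉ S) (x : Fin v → K) :
    ren (Equiv.swap a b) (xS x (insert a S) : PX K A v) = xS x (insert b S) := by
  rw [xS, Finset.prod_insert ha, map_mul, ren_lin, Equiv.swap_apply_left]
  have h := ren_xS_fix (K := K) (v := v) ha hb x
  rw [xS] at h
  rw [h, xS, Finset.prod_insert hb]

theorem ext_eq {M : ℕ} {T S C : Finset A} {w : A} (hcf : Cf T S C w) (r e : ℕ) :
    ext (dgc M T S C w r) (M + 1) w e = dgc M (sm T) (isn S) (sm C) (some w) e := by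
  funext o
  cases o with
  | none =>
    show M + 1 = _
    rw [dgc, if_pos]
    exact Finset.mem_union_right _ (Finset.mem_insert_self _ _)
  | some x =>
    show (if x = w then e else dgc M T S C w r x) = _
    have m1 : ∀ S' : Finset A, some x ∈ sm S' ↔ x ∈ S' := by
      intro S'
      exact Finset.mem_map' _
    have m2 : some x ∈ isn S ↔ x ∈ S := by
      rw [isn, Finset.mem_insert, m1]
      simp
    have m3 : some x ∈ sm T ∪ isn S ↔ x ∈ T ∪ S := by
      rw [Finset.mem_union, Finset.mem_union, m1, m2]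
    by_cases hx : x = w
    · subst hx
      have n1 : x ∉ T ∪ S := by
        rw [Finset.mem_union, not_or]
        exact ⟨hcf.wT, hcf.wS⟩
      rw [if_pos rfl, dgc, if_neg (by rw [m3]; exact n1), if_neg (by rw [m1]; exact hcf.wC),
        if_pos rfl]
    · rw [if_neg hx, dgc, dgc]
      have n2 : ¬ (some x = some w) := fun h => hx (Option.some.inj h)
      simp only [m3, m1, if_neg hx, if_neg n2]

end TWOM

open TWOM in
theorem TWOM_thm (h1 : Stmt_DG) (h2 : Stmt_DIV) (h3 : Stmt_SYM) (h4 : Stmt_GD0)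
    (h5 : Stmt_GD1) (h6 : Stmt_OMG) (h7 : Stmt_OMC) : Stmt_TWOM := by
  intro K _ _ v M β t s l hPV hCL A _ _ T S C w u x η f hcf hsp hT hS hC hu hx hη hηS hηC hf hdvd
  obtain ⟨-, dgsub, -, dgsum, dgmul, dglin, -, -, dgperm, -, -, dgxS⟩ := h1 K A A v
  obtain ⟨cancel, divdeg, -, -, -, -, -⟩ := h2 K A A v x hx
  obtain ⟨-, -, -, -, -, -, -, -, -, -, s11, -⟩ := h3 K A v
  -- basic facts on the points
  have huT : u ∉ T := Finset.disjoint_right.1 hcf.TC hu
  have huS : u ∉ S := Finset.disjoint_right.1 hcf.SC hu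
  have huw : u ≠ w := fun h => hcf.wC (h ▸ hu)
  have hwTS : w ∉ T ∪ S := by
    rw [Finset.mem_union, not_or]
    exact ⟨hcf.wT, hcf.wS⟩
  have hins : insert u (C.erase u) = C := Finset.insert_erase hu
  have hcC : ∀ c ∈ C.erase u, c ∈ C ∧ c ≠ u := fun c hc =>
    ⟨Finset.mem_of_mem_erase hc, Finset.ne_of_mem_erase hc⟩
  have hcT : ∀ c ∈ C, c ∉ T := fun c hc => Finset.disjoint_right.1 hcf.TC hc
  have hcS : ∀ c ∈ C, c ∉ S := fun c hc => Finset.disjoint_right.1 hcf.SC hc
  have hcw : ∀ c ∈ C, c ≠ w := fun c hc h => hcf.wC (h ▸ hc)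
  have hbw : ∀ b ∈ S, b ≠ w := fun b hb h => hcf.wS (h ▸ hb)
  have hbu : ∀ b ∈ S, b ≠ u := fun b hb h => huS (h ▸ hb)
  have hbT : ∀ b ∈ S, b ∉ T := fun b hb => Finset.disjoint_right.1 hcf.TS hb
  have hbC : ∀ b ∈ S, b ∉ C := fun b hb => Finset.disjoint_left.1 hcf.SC hb
  have hU : insert u S ∪ C.erase u = S ∪ C := by
    ext y
    simp only [Finset.mem_union, Finset.mem_insert, Finset.mem_erase]
    by_cases hy : y = u
    · subst hy
      simp [hu]
    · simp [hy]
  -- the degrees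
  set D : A → ℕ := dgc M T S C w (2 * M + 2 + β) with hD
  set D' : A → ℕ := dgc M T (insert u S) (C.erase u) w (2 * M + 2 + β) with hD'
  set D2 : A → ℕ := dgc M T ∅ (S ∪ C) w (2 * M + 2 + β) with hD2
  have hDu : D u = M + 2 := by
    rw [hD, dgc, if_neg, if_pos hu]
    rw [Finset.mem_union, not_or]
    exact ⟨huT, huS⟩
  have hupd : Function.update D u (M + 1) = D' := by
    funext z
    by_cases hz : z = u
    · subst hz
      rw [Function.update_self, hD', dgc, if_pos (by simp)]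
    · rw [Function.update_of_ne hz, hD, hD', dgc, dgc]
      have e1 : z ∈ T ∪ insert u S ↔ z ∈ T ∪ S := by simp [hz]
      have e2 : z ∈ C.erase u ↔ z ∈ C := by simp [hz]
      simp only [e1, e2]
  rw [hupd] at hη
  have hH0 : (fun z => (Pi.single u 1 : A → ℕ) z + D' z) = D := by
    funext z
    rw [← hupd]
    by_cases hz : z = u
    · subst hz
      rw [Pi.single_eq_same, Function.update_self, hDu]
      ring
    · rw [Pi.single_eq_of_ne hz, Function.update_of_ne hz, zero_add]
  have hDswap : ∀ c ∈ C, ∀ z, D (Equiv.swap u c z) = D z := by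
    intro c hc z
    have hDc : D c = M + 2 := by
      rw [hD, dgc, if_neg, if_pos hc]
      rw [Finset.mem_union, not_or]
      exact ⟨hcT c hc, hcS c hc⟩
    rw [Equiv.swap_apply_def]
    split_ifs with g1 g2
    · rw [g1, hDu, hDc]
    · rw [g2, hDu, hDc]
    · rfl
  have hD'swap : ∀ b ∈ S, ∀ z, D' (Equiv.swap u b z) = D' z := by
    intro b hb z
    have e1 : D' u = M + 1 := by rw [hD', dgc, if_pos (by simp)]
    have e2 : D' b = M + 1 := by rw [hD', dgc, if_pos (by simp [hb])]
    rw [Equiv.swap_apply_def]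
    split_ifs with g1 g2
    · rw [g1, e1, e2]
    · rw [g2, e1, e2]
    · rfl
  have hD2eq : (fun z => (if z ∈ insert u S then 1 else 0) + D' z) = D2 := by
    funext z
    rw [hD', hD2, dgc, dgc]
    by_cases hz : z ∈ insert u S
    · have e1 : z ∈ T ∪ insert u S := Finset.mem_union_right _ hz
      have e2 : z ∉ T ∪ ∅ := by
        rw [Finset.union_empty]
        rcases Finset.mem_insert.1 hz with rfl | h
        · exact huT
        · exact hbT z h
      have e3 : z ∈ S ∪ C := by
        rcases Finset.mem_insert.1 hz with rfl | h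
        · exact Finset.mem_union_right _ hu
        · exact Finset.mem_union_left _ h
      rw [if_pos hz, if_pos e1, if_neg e2, if_pos e3]
      ring
    · rw [if_neg hz, zero_add]
      have e1 : z ∈ T ∪ insert u S ↔ z ∈ T ∪ ∅ := by
        rw [Finset.mem_union, Finset.union_empty]
        exact ⟨fun h => h.resolve_right hz, Or.inl⟩
      rw [Finset.mem_insert, not_or] at hz
      have e2 : z ∈ C.erase u ↔ z ∈ S ∪ C := by
        rw [Finset.mem_erase, Finset.mem_union]
        exact ⟨fun h => Or.inr h.2, fun h => ⟨hz.1, h.resolve_left hz.2⟩⟩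
      simp only [e1, e2]
  -- the polynomials `H`, `F`
  set H : PX K A v := lin x u * η with hHdef
  have hHd : Dg D H := by
    have := dgmul (Pi.single u 1) D' (lin x u) η (dglin x u) hη.dg
    rwa [hH0] at this
  have hHT : Sy T H := sy_mul (sy_lin huT x) hη.sy
  have hHS : Al S H := al_mul (sy_lin huS x) hη.alS
  have hHC : Al (C.erase u) H := al_mul (sy_lin (Finset.notMem_erase _ _) x) hη.alC
  set F : PX K A v := H - ∑ c ∈ C.erase u, ren (Equiv.swap u c) H with hFdef
  have hFd : Dg D F := by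
    refine (dgsub D _ _ hHd (dgsum D A _ _ fun c hc => ?_)).2
    exact dgperm D (Equiv.swap u c) H (hDswap c (hcC c hc).1) hHd
  have hFT : Sy T F := sy_sub hHT (sy_sum _ _ _ fun c hc => sy_swap huT (hcT c (hcC c hc).1) hHT)
  have hFS : Al S F := al_sub hHS (al_sum _ _ _ fun c hc => al_swap huS (hcS c (hcC c hc).1) hHS)
  have hFC : Al C F := by
    have := s11 (C.erase u) u H (Finset.notMem_erase _ _) hHC
    rwa [hins] at this
  -- cycles
  have hHb : ∀ b ∈ S, ren (mv b w) H = 0 := by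
    intro b hb
    rw [hHdef, map_mul, hηS b hb, mul_zero]
  have hFb : ∀ b ∈ S, ren (mv b w) F = 0 := by
    intro b hb
    rw [hFdef, map_sub, map_sum, hHb b hb, zero_sub, neg_eq_zero]
    refine Finset.sum_eq_zero fun c hc => ?_
    rw [mv_swap_ne huw (hcw c (hcC c hc).1) (hbu b hb).symm
      (fun h => hbC b hb (h ▸ (hcC c hc).1)), hHb b hb, map_zero]
  have hFu : ren (mv u w) F = lin x w * ren (mv u w) η := by
    rw [hFdef, map_sub, map_sum, hHdef, map_mul, ren_lin, mv_self]
    have : ∑ c ∈ C.erase u, ren (mv u w) (ren (Equiv.swap u c) (lin x u * η)) = 0 := by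
      refine Finset.sum_eq_zero fun c hc => ?_
      rw [mv_swap huw (hcw c (hcC c hc).1), map_mul (ren (mv c w)), hηC c hc, mul_zero, map_zero]
    rw [this, sub_zero]
  -- the quotient `ρ`
  obtain ⟨ρ, hρ⟩ := hdvd
  have hρ' : lin x w * ρ = F - f := hρ.symm
  have hρd : Dg (dgc M T S C w (2 * M + 1 + β)) ρ := by
    have e1 : Dg D (lin x w * ρ) := by
      rw [hρ']
      exact (dgsub D _ _ hFd hf.cg.dg).2
    have e2 : D w = (2 * M + 1 + β) + 1 := by
      rw [hD, dgc, if_neg hwTS, if_neg hcf.wC, if_pos rfl]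
      ring
    have e3 := divdeg D w (2 * M + 1 + β) ρ e2 e1
    have e4 : Function.update D w (2 * M + 1 + β) = dgc M T S C w (2 * M + 1 + β) := by
      funext z
      by_cases hz : z = w
      · subst hz
        rw [Function.update_self, dgc, if_neg hwTS, if_neg hcf.wC, if_pos rfl]
      · rw [Function.update_of_ne hz, hD, dgc, dgc]
        simp only [if_neg hz]
    rwa [e4] at e3
  have hρT : Sy T ρ := by
    intro a ha b hb
    apply cancel w
    have e1 := (sy_sub hFT hf.cg.sy) a ha b hb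
    rw [← hρ', map_mul, ren_lin, Equiv.swap_apply_of_ne_of_ne
      (ne_of_mem_of_not_mem ha hcf.wT).symm (ne_of_mem_of_not_mem hb hcf.wT).symm] at e1
    exact e1
  have hρal : ∀ S' : Finset A, w ∉ S' → Al S' F → Al S' f → Al S' ρ := by
    intro S' hw hF' hf' a ha b hb hab
    apply cancel w
    have e1 := (al_sub hF' hf') a ha b hb hab
    rw [← hρ', map_mul, ren_lin, Equiv.swap_apply_of_ne_of_ne
      (ne_of_mem_of_not_mem ha hw).symm (ne_of_mem_of_not_mem hb hw).symm] at e1
    rw [e1, mul_neg]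
  have hρS : Al S ρ := hρal S hcf.wS hFS hf.cg.alS
  have hρC : Al C ρ := hρal C hcf.wC hFC hf.cg.alC
  have hρcy : Cy S w ρ := by
    intro b hb
    apply cancel w
    have e1 : ren (mv b w) (lin x w * ρ) = 0 := by
      rw [hρ', map_sub, hFb b hb, hf.cyS b hb, sub_zero]
    rw [map_mul, ren_lin, mv_ne (hbw b hb).symm] at e1
    rw [e1, mul_zero]
  have hρu : ren (mv u w) ρ = ren (mv u w) η := by
    apply cancel w
    have e1 : ren (mv u w) (lin x w * ρ) = lin x w * ren (mv u w) η := by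
      rw [hρ', map_sub, hFu, hf.cyC u hu, sub_zero]
    rw [map_mul, ren_lin, mv_ne huw.symm] at e1
    exact e1
  -- `Ω`
  obtain ⟨Ω, hΩ, hΩρ⟩ := hPV A (dgc M T S C w (2 * M + 1 + β)) T C S w ρ
    ⟨hcf.TC, hcf.TS, hcf.SC.symm, hcf.wT, hcf.wC, hcf.wS⟩ hS
    (fun y hy => by rw [dgc, if_pos (Finset.mem_union_right _ hy)])
    (by rw [dgc, if_neg hwTS, if_neg hcf.wC, if_pos rfl]; ring)
    ⟨hρd, hρT, hρC, hρS⟩ hρcy
  rw [ext_eq hcf] at hΩ
  have hΩ' : Cg (dgc M (sm T) (isn S) (sm C) (some w) (M + β)) (sm T) (isn S) (sm C) Ω :=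
    ⟨hΩ.dg, hΩ.sy, hΩ.alC, hΩ.alS⟩
  have hcf' : Cf T ∅ (S ∪ C) w := by
    refine ⟨Finset.disjoint_empty_right _, ?_, Finset.disjoint_empty_left _, hcf.wT,
      Finset.notMem_empty _, ?_⟩
    · rw [Finset.disjoint_union_right]
      exact ⟨hcf.TS, hcf.TC⟩
    · rw [Finset.mem_union, not_or]
      exact ⟨hcf.wS, hcf.wC⟩
  obtain ⟨-, -, -, gadd, gsmul, gdiv, gsum, -⟩ := h4 K A v M β T (S ∪ C) w hcf'
  have hG := h6 K v M β A T S C w x Ω hcf hΩ'
  have hO := h7 K v M β A T S C w Ω hcf hΩ'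
  set Ωc : A → PX K A v := fun c =>
    ren (fun o => (Equiv.swap none (some c) o : Option A).getD w) Ω with hΩc
  have hOu := hO u hu
  -- degrees of `xS x (insert u S) * (something)`
  have hdeg2 : ∀ g : PX K A v, Dg D' g → Dg D2 (xS x (insert u S) * g) := by
    intro g hg
    have := dgmul _ _ _ _ (dgxS x (insert u S)) hg
    rwa [hD2eq] at this
  have huSC : u ∈ S ∪ C := Finset.mem_union_right _ hu
  -- relation A: the sum over `C` of the `Ωc`
  set P1 : PX K A v := xS x (insert u S) * Ωc u with hP1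
  set h2' : PX K A v := xS x (insert u S) * η with hh2
  have hP1d : Dg D2 P1 := hdeg2 _ hOu.1.dg
  have hh2d : Dg D2 h2' := hdeg2 _ hη.dg
  have gd1 : ∀ h : PX K A v, Dg D2 h → ∀ y ∈ S ∪ C, u ≠ y →
      Good M β T (S ∪ C) w (h + ren (Equiv.swap u y) h) := by
    intro h hh y hy hne
    exact (h5 K A v M β T (S ∪ C) w h hcf' hh).2 u huSC y hy hne
  have hA1 : ∀ c ∈ C, Good M β T (S ∪ C) w (P1 - xS x (insert c S) * Ωc c) := by
    intro c hc
    by_cases hcu : c = u
    · subst hcu
      rw [hP1, sub_self]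
      exact (h4 K A v M β T (S ∪ C) w hcf').2.2.1
    · have e1 := gd1 P1 hP1d c (Finset.mem_union_right _ hc) (Ne.symm hcu)
      rw [hP1, map_mul, ren_xS_insert huS (hcS c hc)] at e1
      have e2 : ren (Equiv.swap u c) (Ωc u) = -Ωc c := (hOu.2.2 c hc hcu).2
      rw [e2] at e1
      rw [hP1, sub_eq_add_neg, ← mul_neg]
      exact e1
  have hA : Good M β T (S ∪ C) w ((l : K) • P1 - ∑ c ∈ C, xS x (insert c S) * Ωc c) := by
    have e1 := gsum A C _ hA1
    rw [Finset.sum_sub_distrib, Finset.sum_const, hC] at e1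
    rw [Nat.cast_smul_eq_nsmul K]
    exact e1
  -- relation B: `xS x S * F ≡ l • h2'`
  have hxH : xS x S * H = h2' := by
    rw [hHdef, hh2, xS, xS, Finset.prod_insert huS]
    ring
  have hB : Good M β T (S ∪ C) w ((l : K) • h2' - xS x S * F) := by
    have e1 : ∀ c ∈ C.erase u, Good M β T (S ∪ C) w (h2' + ren (Equiv.swap u c) h2') := fun c hc =>
      gd1 h2' hh2d c (Finset.mem_union_right _ (hcC c hc).1) (hcC c hc).2.symm
    have e2 := gsum A (C.erase u) _ e1
    have e3 : xS x S * F = h2' - ∑ c ∈ C.erase u, ren (Equiv.swap u c) h2' := by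
      rw [hFdef, mul_sub, hxH, Finset.mul_sum]
      congr 1
      refine Finset.sum_congr rfl fun c hc => ?_
      have e5 : ren (Equiv.swap u c) (xS x S * H) =
          xS x S * ren (Equiv.swap u c) H := by
        rw [map_mul, ren_xS_fix huS (hcS c (hcC c hc).1)]
      rw [← hxH]
      exact e5.symm
    have e4 : (l : K) • h2' - xS x S * F =
        ∑ c ∈ C.erase u, (h2' + ren (Equiv.swap u c) h2') := by
      rw [e3, Finset.sum_add_distrib, Finset.sum_const, Finset.card_erase_of_mem hu, hC,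
        Nat.cast_smul_eq_nsmul K]
      have hl : 1 ≤ l := by
        rw [← hC]
        exact Finset.card_pos.2 ⟨u, hu⟩
      obtain ⟨l', rfl⟩ : ∃ l', l = l' + 1 := ⟨l - 1, by omega⟩
      rw [Nat.add_sub_cancel, succ_nsmul]
      abel
    rw [e4]
    exact e2
  -- relation C: `(s + 1) • h2' ≡ xS x (insert u S) * η'`
  set η' : PX K A v := η - ∑ b ∈ S, ren (Equiv.swap u b) η with hη'
  have hCc : Good M β T (S ∪ C) w (((s + 1 : ℕ) : K) • h2' - xS x (insert u S) * η') := by
    have e1 : ∀ b ∈ S, Good M β T (S ∪ C) w (h2' + ren (Equiv.swap u b) h2') := fun b hb =>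
      gd1 h2' hh2d b (Finset.mem_union_left _ hb) (hbu b hb).symm
    have e2 := gsum A S _ e1
    have e3 : xS x (insert u S) * η' = h2' - ∑ b ∈ S, ren (Equiv.swap u b) h2' := by
      rw [hη', mul_sub, Finset.mul_sum]
      congr 1
      refine Finset.sum_congr rfl fun b hb => ?_
      rw [hh2, map_mul, ren_xS_mem (Finset.mem_insert_self _ _) (Finset.mem_insert_of_mem hb)]
    have e4 : ((s + 1 : ℕ) : K) • h2' - xS x (insert u S) * η' =
        ∑ b ∈ S, (h2' + ren (Equiv.swap u b) h2') := by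
      rw [e3, Finset.sum_add_distrib, Finset.sum_const, hS, Nat.cast_smul_eq_nsmul K, succ_nsmul]
      abel
    rw [e4]
    exact e2
  -- the bicycle `θ`
  set θ : PX K A v := η' - Ωc u with hθ
  have hη'd : Dg D' η' := by
    refine (dgsub D' _ _ hη.dg (dgsum D' A _ _ fun b hb => ?_)).2
    exact dgperm D' (Equiv.swap u b) η (hD'swap b hb) hη.dg
  have hθd : Dg D' θ := (dgsub D' _ _ hη'd hOu.1.dg).2
  have hθT : Sy T θ := by
    refine sy_sub (sy_sub hη.sy (sy_sum _ _ _ fun b hb => sy_swap huT (hbT b hb) hη.sy)) ?_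
    exact hOu.1.sy
  have hθS : Al (insert u S) θ := al_sub (s11 S u η huS hη.alS) hOu.1.alS
  have hθC : Al (C.erase u) θ := by
    refine al_sub (al_sub hη.alC (al_sum _ _ _ fun b hb => al_swap (Finset.notMem_erase _ _)
      (fun h => hbC b hb (Finset.mem_of_mem_erase h)) hη.alC)) ?_
    exact hOu.1.alC
  have hθu : ren (mv u w) θ = 0 := by
    have e1 : ren (mv u w) (Ωc u) = ren (mv u w) η := by
      rw [← hρu, ← hΩρ]
      exact hOu.2.1
    rw [hθ, map_sub, e1, hη', map_sub, map_sum]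
    have e2 : ∑ b ∈ S, ren (mv u w) (ren (Equiv.swap u b) η) = 0 := by
      refine Finset.sum_eq_zero fun b hb => ?_
      rw [mv_swap huw (hbw b hb), hηS b hb, map_zero]
    rw [e2, sub_zero, sub_self]
  have hθcyS : Cy (insert u S) w θ := by
    intro b hb
    rcases Finset.mem_insert.1 hb with rfl | hbS
    · exact hθu
    · have e1 := hθS b hb u (Finset.mem_insert_self _ _) (hbu b hbS)
      have e2 : ren (mv b w) (ren (Equiv.swap b u) θ) = 0 := by
        rw [mv_swap (hbw b hbS) huw, hθu, map_zero]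
      rw [e1, map_neg, neg_eq_zero] at e2
      exact e2
  have hθcyC : Cy (C.erase u) w θ := by
    intro c hc
    have hc' := hcC c hc
    have e1 : ren (mv c w) (Ωc u) = 0 := (hOu.2.2 c hc'.1 hc'.2).1
    rw [hθ, map_sub, e1, sub_zero, hη', map_sub, map_sum, hηC c hc, zero_sub, neg_eq_zero]
    refine Finset.sum_eq_zero fun b hb => ?_
    rw [mv_swap_ne huw (hbw b hb) hc'.2.symm (fun h => hbC b hb (h ▸ hc'.1)), hηC c hc, map_zero]
  have hzc : Zc M T (insert u S) (C.erase u) w (2 * M + 2 + β) θ :=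
    ⟨⟨hθd, hθT, hθS, hθC⟩, hθcyS, hθcyC⟩
  have hl : 1 ≤ l := by
    rw [← hC]
    exact Finset.card_pos.2 ⟨u, hu⟩
  have hce : (C.erase u).card = l - 1 := by rw [Finset.card_erase_of_mem hu, hC]
  have hcfu : Cf T (insert u S) (C.erase u) w := by
    refine ⟨?_, ?_, ?_, hcf.wT, ?_, ?_⟩
    · rw [Finset.disjoint_insert_right]
      exact ⟨huT, hcf.TS⟩
    · exact Finset.disjoint_of_subset_right (Finset.erase_subset _ _) hcf.TC
    · rw [Finset.disjoint_insert_left]
      exact ⟨Finset.notMem_erase _ _,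
        Finset.disjoint_of_subset_right (Finset.erase_subset _ _) hcf.SC⟩
    · rw [Finset.mem_insert, not_or]
      exact ⟨huw.symm, hcf.wS⟩
    · intro h
      exact hcf.wC (Finset.mem_of_mem_erase h)
  have hspu : Sp T (insert u S) (C.erase u) w := by
    obtain ⟨a, a1, a2, a3, a4⟩ := hsp
    refine ⟨a, a1, ?_, fun h => a3 (Finset.mem_of_mem_erase h), a4⟩
    rw [Finset.mem_insert, not_or]
    exact ⟨fun h => a3 (h ▸ hu), a2⟩
  have hfin := hCL A T (insert u S) (C.erase u) w x θ hcfu hspu hT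
    (by rw [Finset.card_insert_of_notMem huS, hce, hS]; omega) hce hx hzc
  rw [hU] at hfin
  -- assembly
  refine gdiv ((s + 1 : ℕ) : K) _ (Nat.cast_ne_zero.2 (Nat.succ_ne_zero _)) ?_
  have hGG : Good M β T (S ∪ C) w (((s + 1 : ℕ) : K) • (lin x w * xS x S * ρ) -
      ∑ c ∈ C, xS x (insert c S) * Ωc c) := by
    rw [← hS, ← hΩρ]
    exact hG
  -- `(s+1) • xS f = - [(s+1) • (l • h2' - xS F)] - [G] + [l • P1 - sum] + l • [C] + l • fin`
  have key : ((s + 1 : ℕ) : K) • (xS x S * f) =
      ((l : K) • (xS x (insert u S) * θ) +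
        (l : K) • (((s + 1 : ℕ) : K) • h2' - xS x (insert u S) * η') +
        ((l : K) • P1 - ∑ c ∈ C, xS x (insert c S) * Ωc c)) -
      (((s + 1 : ℕ) : K) • ((l : K) • h2' - xS x S * F)) -
      (((s + 1 : ℕ) : K) • (lin x w * xS x S * ρ) - ∑ c ∈ C, xS x (insert c S) * Ωc c) := by
    have e1 : f = F - lin x w * ρ := by rw [hρ']; ring
    have e2 : xS x (insert u S) * θ = xS x (insert u S) * η' - P1 := by
      rw [hθ, mul_sub, hP1]
    rw [e2, e1]
    simp only [smul_sub, mul_sub, smul_smul]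
    rw [mul_comm (l : K) ((s + 1 : ℕ) : K), mul_left_comm (xS x S) (lin x w) ρ,
      mul_assoc (lin x w) (xS x S) ρ]
    abel
  rw [key]
  refine (gadd _ _ (gadd _ _ (gadd _ _ (gadd _ _ ?_ ?_).1 hA).1 ?_).2 hGG).2
  · exact gsmul _ _ hfin
  · exact gsmul _ _ hCc
  · exact gsmul _ _ hB

end Pool.Agent.VOP
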