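import Pool.Agent.VOP.StmtsN

/-! Module VDM: Vandermonde. -/

namespace Pool.Agent.VOP

open MvPolynomial Pool.Agent.VSY

theorem VDM_thm : Stmt_VDM := by
  intro K _ _ W _ _ U n z F₀ h i hi
  classical
  -- distinct elements
  have hinf : (((F₀ : Set K)ᶜ) : Set K).Infinite := F₀.finite_toSet.infinite_compl
  obtain ⟨s, hs, hcard⟩ := hinf.exists_subset_card_eq (n + 1)
  let c : Fin (n + 1) → K := fun j => (s.equivFin.symm (Fin.cast hcard.symm j) : K)
  have hinj : Function.Injective c := by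
    intro a b hab
    have h1 := s.equivFin.symm.injective (Subtype.ext hab)
    exact Fin.cast_injective hcard.symm h1
  have hc : ∀ j, c j ∉ F₀ := by
    intro j
    have h1 : c j ∈ (s : Set K) := (s.equivFin.symm (Fin.cast hcard.symm j)).2
    exact hs h1
  set V : Matrix (Fin (n + 1)) (Fin (n + 1)) K := Matrix.vandermonde c with hV
  have hdet : IsUnit V.det := isUnit_iff_ne_zero.2 (Matrix.det_vandermonde_ne_zero_iff.2 hinj)
  have hmul : V⁻¹ * V = 1 := Matrix.nonsing_inv_mul V hdet
  let i' : Fin (n + 1) := ⟨i, by omega⟩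
  have h1 : z i = ∑ j : Fin (n + 1), V⁻¹ i' j • ∑ l ∈ Finset.range (n + 1), c j ^ l • z l := by
    have h2 : ∀ j : Fin (n + 1), V⁻¹ i' j • ∑ l ∈ Finset.range (n + 1), c j ^ l • z l =
        ∑ l : Fin (n + 1), (V⁻¹ i' j * V j l) • z l := by
      intro j
      rw [Finset.smul_sum, ← Fin.sum_univ_eq_sum_range (fun l => V⁻¹ i' j • c j ^ l • z l)]
      refine Finset.sum_congr rfl fun l _ => ?_
      rw [smul_smul]
      rfl
    simp only [h2]
    rw [Finset.sum_comm]
    simp only [← Finset.sum_smul]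
    have h3 : ∀ l : Fin (n + 1), ∑ j, V⁻¹ i' j * V j l = (1 : Matrix (Fin (n + 1)) (Fin (n + 1)) K) i' l := by
      intro l
      rw [← hmul]
      rfl
    simp only [h3, Matrix.one_apply]
    simp [i']
  rw [h1]
  refine U.sum_mem fun j _ => U.smul_mem _ ?_
  exact h (c j) (hc j)

end Pool.Agent.VOP
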