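import Pool.Agent.VOP.Iface
import Pool.Agent.VSY.MAIN

/-!
# The Ottaviani-Paoletti conjecture (MP_deb8da_ag): the top level induction (section 1)
-/

namespace Pool.Agent.VOP

open MvPolynomial Pool.Agent.VSY

namespace VTH

variable {K : Type} [Field K] [CharZero K]

/-- Monotonicity in the level. -/
theorem mono_one {d r P : ℕ} (hd : 1 ≤ d) (hr : d ≤ r + 1)
    (h : ∀ v p, p ≤ P → Van K v d p r) : ∀ p, p ≤ P → ∀ v, Van K v d p (r + 1) := by
  intro p
  induction p using Nat.strong_induction_on with
  | _ p ih =>
    intro hp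
    have h1 : Van K 1 d p (r + 1) :=
      tg K 0 d p (r + 1) hd (by omega) (Or.inl (by omega))
    have h2 : ∀ v, 1 ≤ v → Van K v d p (r + 1) := by
      refine tr K d 1 p (r + 1) hd h1 ?_
      intro v hv
      refine ⟨fun hvp => ih (p - v) (by omega) (by omega) v, fun hvp r' hr' => ?_⟩
      have : r' = r := by omega
      subst this
      exact h v (p + 1 - v) (by omega)
    intro v
    rcases Nat.eq_zero_or_pos v with hv | hv
    · subst hv
      exact red K 0 1 d p (r + 1) (by omega) h1
    · exact h2 v hv

theorem mono {d r P : ℕ} (hd : 1 ≤ d) (hr : d ≤ r + 1)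
    (h : ∀ v p, p ≤ P → Van K v d p r) (n : ℕ) : ∀ v p, p ≤ P → Van K v d p (r + n) := by
  induction n with
  | zero => simpa using h
  | succ n ih =>
    intro v p hp
    have := mono_one (K := K) (r := r + n) hd (by omega) ih p hp v
    rwa [show r + (n + 1) = r + n + 1 by omega]

theorem mono' {d r P r' : ℕ} (hd : 1 ≤ d) (hr : d ≤ r + 1)
    (h : ∀ v p, p ≤ P → Van K v d p r) (hr' : r ≤ r') : ∀ v p, p ≤ P → Van K v d p r' := by
  obtain ⟨n, rfl⟩ := Nat.exists_eq_add_of_le hr'
  exact mono hd hr h n

end VTH

namespace VTH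

variable {K : Type} [Field K] [LinearOrder K] [IsStrictOrderedRing K]

/-- The plane case. -/
theorem base (M β p : ℕ) (hβ : β ≤ 1) (hp : p ≤ (2 + β) * (M + 1)) :
    Van K (2 + β) (M + 2) p (2 * M + 3 + β) := by
  obtain rfl | rfl : β = 0 ∨ β = 1 := by omega
  · exact tg K 1 (M + 2) p (2 * M + 3 + 0) (by omega) (by omega) (Or.inl (by omega))
  · refine tg K 2 (M + 2) p (2 * M + 3 + 1) (by omega) (by omega) ?_
    rcases Nat.eq_zero_or_pos M with hM | hM
    · subst hM
      exact Or.inl (by omega)
    · obtain ⟨M, rfl⟩ : ∃ m, M = m + 1 := ⟨M - 1, by omega⟩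
      refine Or.inr ⟨M, by omega, ?_⟩
      have e1 : ∀ n : ℕ, (n + 2).choose 2 * 2 = (n + 2) * (n + 1) := by
        intro n
        induction n with
        | zero => decide
        | succ n ih =>
          rw [show n + 1 + 2 = (n + 2) + 1 by omega, Nat.choose_succ_succ' (n + 2) 1]
          rw [Nat.choose_one_right, add_mul, ih]
          ring
      have h1 := e1 M
      have h2 := e1 (M + 1 + 2)
      nlinarith

/-- The step for given `M` and `β`. -/
theorem step (hTRS : Stmt_TRS) (hPPM : Stmt_PPM) (hNUM : Stmt_NUM) (M β : ℕ) (hβ : β ≤ 1)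
    (h2 : ∀ v s, s ≤ (2 + β) * M → Van K v (M + 1) s (2 * M + 1 + β))
    (hL : ∀ p, p ≤ (2 + β) * (M + 1) →
      (∀ v p', p' < p → Van K v (M + 2) p' (2 * M + 3 + β)) →
      ∀ v, 1 ≤ v → ∀ s l, s + l + (2 + β) ≤ p → LIFT K v (M + 1) (M + 2) s l (2 * M + 1 + β)) :
    ∀ p, p ≤ (2 + β) * (M + 1) → ∀ v, Van K v (M + 2) p (2 * M + 3 + β) := by
  intro p
  induction p using Nat.strong_induction_on with
  | _ p ih =>
    intro hp
    have hb := base (K := K) M β p hβ hp
    have ih' : ∀ v p', p' < p → Van K v (M + 2) p' (2 * M + 3 + β) :=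
      fun v p' hp' => ih p' hp' (by omega) v
    have hPP : ∀ j v t, 1 ≤ v → v ≤ t + 1 → 2 + β ≤ t → t + j = p → PP K v M β t j := by
      intro j
      induction j with
      | zero =>
        intro v t hv hvt ht hp'
        refine hPPM K v M β t 0 hv ?_ ?_ ?_ (Or.inl rfl)
        · intro s hs
          exact h2 v s (by omega)
        · intro s l hs
          exact hL p hp ih' v hv s l (by omega)
        · intro k g l hk hkt hgl
          exact hNUM K v M β t 0 k g l hβ ht (by omega) hvt hk hkt hgl
      | succ j ihj =>
        intro v t hv hvt ht hp'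
        refine hPPM K v M β t (j + 1) hv ?_ ?_ ?_ (Or.inr ?_)
        · intro s hs
          refine h2 v s ?_
          have : (2 + β) * (M + 1) = (2 + β) * M + (2 + β) := by ring
          omega
        · intro s l hs
          exact hL p hp ih' v hv s l (by omega)
        · intro k g l hk hkt hgl
          exact hNUM K v M β t (j + 1) k g l hβ ht (by omega) hvt hk hkt hgl
        · rw [Nat.add_sub_cancel]
          exact ihj v (t + 1) hv (by omega) (by omega) (by omega)
    have hup : ∀ n, Van K (2 + β + n) (M + 2) p (2 * M + 3 + β) := by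
      intro n
      induction n with
      | zero => exact hb
      | succ n ihn =>
        refine hTRS K (2 + β + n) M β p (by omega) ihn ?_ ?_
        · intro hvp
          exact hPP (p - (2 + β + n)) (2 + β + n + 1) (2 + β + n) (by omega) (by omega)
            (by omega) (by omega)
        · intro hvp
          exact ih' _ _ (by omega)
    intro v
    rcases Nat.lt_or_ge v (2 + β) with hv | hv
    · exact red K v (2 + β) (M + 2) p _ (by omega) hb
    · obtain ⟨n, rfl⟩ := Nat.exists_eq_add_of_le hv
      exact hup n

end VTH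

/-- The top level induction. -/
theorem VTH_thm (hTRS : Stmt_TRS) (hPPM : Stmt_PPM) (hLIFTM : Stmt_LIFTM) (hNUM : Stmt_NUM) :
    Stmt_VTH := by
  intro K _ _ _
  have main : ∀ M : ℕ, (∀ v p, p ≤ 2 * (M + 1) → Van K v (M + 2) p (2 * M + 3)) ∧
      (∀ v p, p ≤ 3 * (M + 1) → Van K v (M + 2) p (2 * M + 4)) := by
    intro M
    induction M with
    | zero =>
      have hA : ∀ v p, p ≤ 2 * (0 + 1) → Van K v (0 + 2) p (2 * 0 + 3) := by
        have h := VTH.step (K := K) hTRS hPPM hNUM 0 0 (by omega) ?_ ?_
        · intro v p hp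
          simpa using h p (by simpa using hp) v
        · intro v s hs
          exact low K v (0 + 1) s (2 * 0 + 1 + 0) (by omega) (by omega)
        · intro p hp _ v hv s l hsl
          refine hLIFTM K v (0 + 1) (0 + 2) s l (2 * 0 + 1 + 0) 1 hv (by omega) (by omega)
            le_rfl (by omega) ?_ ?_
          · intro p' e' hp' _
            omega
          · intro p' q hq
            omega
      refine ⟨hA, ?_⟩
      have h := VTH.step (K := K) hTRS hPPM hNUM 0 1 (by omega) ?_ ?_
      · intro v p hp
        simpa using h p (by simpa using hp) v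
      · intro v s hs
        exact low K v (0 + 1) s (2 * 0 + 1 + 1) (by omega) (by omega)
      · intro p hp _ v hv s l hsl
        refine hLIFTM K v (0 + 1) (0 + 2) s l (2 * 0 + 1 + 1) 1 hv (by omega) (by omega)
          le_rfl (by omega) ?_ ?_
        · intro p' e' hp' _
          omega
        · intro p' q hq
          omega
    | succ M ih =>
      obtain ⟨ihA, ihB⟩ := ih
      have hA : ∀ v p, p ≤ 2 * (M + 1 + 1) → Van K v (M + 1 + 2) p (2 * (M + 1) + 3) := by
        have h := VTH.step (K := K) hTRS hPPM hNUM (M + 1) 0 (by omega) ?_ ?_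
        · intro v p hp
          exact h p (by simpa using hp) v
        · intro v s hs
          exact ihA v s (by omega)
        · intro p hp _ v hv s l hsl
          refine hLIFTM K v (M + 1 + 1) (M + 1 + 2) s l (2 * (M + 1) + 1 + 0) (max s 1) hv
            (by omega) (by omega) (le_max_right _ _) (by omega) ?_ ?_
          · intro p' e' hp' he'
            exact low K v _ p' _ (by omega) (by omega)
          · intro p' q hq
            exact low K v _ p' _ (by omega) (by omega)
      refine ⟨hA, ?_⟩
      have h := VTH.step (K := K) hTRS hPPM hNUM (M + 1) 1 (by omega) ?_ ?_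
      · intro v p hp
        exact h p (by simpa using hp) v
      · intro v s hs
        exact ihB v s (by omega)
      · intro p hp hH v hv s l hsl
        have hAm : ∀ r', 2 * (M + 1) + 3 ≤ r' → ∀ v p, p ≤ 2 * (M + 1 + 1) →
            Van K v (M + 1 + 2) p r' := fun r' hr' =>
          VTH.mono' (K := K) (r := 2 * (M + 1) + 3) (by omega) (by omega) hA hr'
        have hHm : ∀ r', 2 * (M + 1) + 3 + 1 ≤ r' → ∀ v p', p' ≤ p - 1 →
            Van K v (M + 1 + 2) p' r' := fun r' hr' =>
          VTH.mono' (K := K) (r := 2 * (M + 1) + 3 + 1) (by omega) (by omega)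
            (fun v p' hp' => hH v p' (by omega)) hr'
        have ihAm : ∀ r', 2 * M + 3 ≤ r' → ∀ v p, p ≤ 2 * (M + 1) → Van K v (M + 2) p r' :=
          fun r' hr' => VTH.mono' (K := K) (r := 2 * M + 3) (by omega) (by omega) ihA hr'
        have ihBm : ∀ r', 2 * M + 4 ≤ r' → ∀ v p, p ≤ 3 * (M + 1) → Van K v (M + 2) p r' :=
          fun r' hr' => VTH.mono' (K := K) (r := 2 * M + 4) (by omega) (by omega) ihB hr'
        rcases Nat.lt_or_ge s (M + 2) with hs | hs
        · refine hLIFTM K v (M + 1 + 1) (M + 1 + 2) s l (2 * (M + 1) + 1 + 1) (max s 1) hv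
            (by omega) (by omega) (le_max_right _ _) (by omega) ?_ ?_
          · intro p' e' hp' he'
            exact low K v _ p' _ (by omega) (by omega)
          · intro p' q hq
            refine hHm _ ?_ v p' (by omega)
            have : q ≤ q * (M + 1 + 2 - 1) := Nat.le_mul_of_pos_right q (by omega)
            omega
        · rcases Nat.lt_or_ge s (2 * M + 4) with hs' | hs'
          · refine hLIFTM K v (M + 1 + 1) (M + 1 + 2) s l (2 * (M + 1) + 1 + 1) (M + 2) hv
              (by omega) (by omega) (by omega) (by omega) ?_ ?_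
            · intro p' e' hp' he'
              exact ihAm _ (by omega) v p' (by omega)
            · intro p' q hq
              refine hAm _ ?_ v p' (by omega)
              have : q ≤ q * (M + 1 + 2 - 1) := Nat.le_mul_of_pos_right q (by omega)
              omega
          · refine hLIFTM K v (M + 1 + 1) (M + 1 + 2) s l (2 * (M + 1) + 1 + 1) (M + 3) hv
              (by omega) (by omega) (by omega) (by omega) ?_ ?_
            · intro p' e' hp' he'
              exact ihBm _ (by omega) v p' (by omega)
            · intro p' q hq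
              exact low K v _ p' _ (by omega) (by omega)
  intro v M p
  exact ⟨fun hp => (main M).1 v p hp, fun hp => (main M).2 v p hp⟩

end Pool.Agent.VOP
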