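import Pool.Agent.VOP.PPM
import Pool.Agent.VOP.DG
import Pool.Agent.VOP.DIV
import Pool.Agent.VOP.SYM
import Pool.Agent.VOP.GD0
import Pool.Agent.VOP.GD1
import Pool.Agent.VOP.GD2
import Pool.Agent.VOP.GD2P
import Pool.Agent.VOP.GD3
import Pool.Agent.VOP.SBT
import Pool.Agent.VOP.CHI
import Pool.Agent.VOP.CHIP
import Pool.Agent.VOP.OMG
import Pool.Agent.VOP.OMC
import Pool.Agent.VOP.ALPM
import Pool.Agent.VOP.TWOM
import Pool.Agent.VOP.THRM
import Pool.Agent.VOP.CHB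
import Pool.Agent.VOP.CLCH
import Pool.Agent.VOP.PPC
import Pool.Agent.VOP.PP0
import Pool.Agent.VOP.PR
import Pool.Agent.VOP.LFT
import Pool.Agent.VOP.CP
import Pool.Agent.VOP.EXP
import Pool.Agent.VOP.MSX
import Pool.Agent.VOP.FP
import Pool.Agent.VOP.HF
import Pool.Agent.VOP.N0C
import Pool.Agent.VOP.N0G
import Pool.Agent.VOP.N1
import Pool.Agent.VOP.N2
import Pool.Agent.VOP.LL
import Pool.Agent.VOP.FAS
import Pool.Agent.VOP.FAM
import Pool.Agent.VOP.VDM
import Pool.Agent.VOP.N3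
import Pool.Agent.VOP.EST
import Pool.Agent.VOP.ORT
import Pool.Agent.VOP.FCA
import Pool.Agent.VOP.TMAIN
import Pool.Agent.VOP.VTH

/-!
# The Ottaviani-Paoletti conjecture (MP_deb8da_ag): assembly of the blocks G, S, N, T
-/

namespace Pool.Agent.VOP

open Pool.Agent.VSY

theorem sym : Stmt_SYM := SYM_thm DG_thm

theorem div : Stmt_DIV := DIV_thm DG_thm

theorem gd0 : Stmt_GD0 := GD0_thm DG_thm sym

theorem gd1 : Stmt_GD1 := GD1_thm DG_thm sym gd0

theorem gd2 : Stmt_GD2 := GD2_thm DG_thm sym gd0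

theorem gd2' : Stmt_GD2' := GD2P_thm DG_thm gd2

theorem gd3 : Stmt_GD3 := GD3_thm DG_thm sym gd0

theorem sbt : Stmt_SBT := SBT_thm DG_thm

theorem chi : Stmt_CHI := CHI_thm DG_thm div sym gd0 gd1 gd2' gd3

theorem chi' : Stmt_CHI' := CHIP_thm DG_thm div sym gd0 gd1 chi

theorem omg : Stmt_OMG := OMG_thm DG_thm sym gd0 gd2

theorem omc : Stmt_OMC := OMC_thm DG_thm sym

theorem alpm : Stmt_ALPM := ALPM_thm DG_thm div sym gd0 omg omc

theorem twom : Stmt_TWOM := TWOM_thm DG_thm div sym gd0 gd1 omg omc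

theorem thrm : Stmt_THRM := THRM_thm DG_thm div sym gd0 gd1 chi' omg omc

theorem lft : Stmt_LFT := LFT_thm DG_thm div sym gd0

theorem cp : Stmt_CP := CP_thm DG_thm div sym gd0 PR_thm lft

theorem exp : Stmt_EXP := EXP_thm DG_thm PR_thm

theorem msx : Stmt_MSX := MSX_thm DG_thm div sym

theorem fp : Stmt_FP := FP_thm DG_thm div sym gd0 PR_thm lft exp msx

theorem hf : Stmt_HF := HF_thm DG_thm div sym gd0 PR_thm lft cp fp

theorem n0c : Stmt_N0C := N0C_thm DG_thm div sym gd0 PR_thm lft cp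

theorem n2 : Stmt_N2 := N2_thm DG_thm div sym gd0 msx

theorem fam : Stmt_FAM := FAM_thm DG_thm div sym (FAS_thm DG_thm div sym (LL_thm DG_thm div sym))

theorem n3 : Stmt_N3 := N3_thm DG_thm div sym gd0 sbt lft fam VDM_thm

theorem est : Stmt_EST := EST_thm DG_thm div sym gd0 sbt msx lft (N1_thm DG_thm sbt) VDM_thm

/-- `Stmt_PPM` from the interfaces of the blocks L and H. -/
theorem ppm_of (hPV : Stmt_PV) (hN4 : Stmt_N4) : Stmt_PPM :=
  PPM_thm hPV alpm twom thrm (CHB_thm DG_thm div) (CLCH_thm DG_thm sbt) (PPC_thm DG_thm sym gd0)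
    (PP0_thm DG_thm) hf n0c (N0G_thm DG_thm sbt)
    (FCA_thm DG_thm sym gd0 n2 n3 hN4 est (ORT_thm WB_thm) WB_thm)

/-- The vanishing theorem from the interfaces of the blocks L, H and the numbers. -/
theorem vth_of (hPV : Stmt_PV) (hLIFTM : Stmt_LIFTM) (hN4 : Stmt_N4) (hNUM : Stmt_NUM) :
    Stmt_VTH :=
  VTH_thm TRS_thm (ppm_of hPV hN4) hLIFTM hNUM

end Pool.Agent.VOP
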