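import Pool.Agent.VOP.HGS2

/-!
# Block H: the interface statements `HG0`, `HGS`, `N4`
-/

namespace Pool.Agent.VOP

open MvPolynomial Pool.Agent.VSY

namespace HGBH

variable {K : Type} [Field K] {v : ℕ}

/-- No letters. -/
theorem empty (N e D : ℕ) : HG K v N 0 e D := by
  intro A _ _ δ Λ w ν x _ hΛ _ _ _ _ _ _ _ _
  rw [Finset.card_eq_zero] at hΛ
  subst hΛ
  refine ⟨0, DG.zero δ, ?_, fun i j _ => map_zero _, ?_⟩
  · intro m hm
    simp at hm
  · intro u hu
    simp at hu

/-- One letter, degree `0` at `w`. -/
theorem one (N D : ℕ) : HG K v N 1 0 D := by
  intro A _ _ δ Λ w ν x hw hΛ _ hδw _ _ hdg _ hwt hhw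
  obtain ⟨u, rfl⟩ := Finset.card_eq_one.1 hΛ
  have hu : u ∈ ({u} : Finset A) := Finset.mem_singleton_self u
  have huw : u ≠ w := by
    rintro rfl
    exact hw hu
  refine ⟨ren (mv w u) (x u), ?_, (WB_thm K A A v).2.2.2.1 ν (mv w u) _ (hwt u hu),
    fun i j hij => ?_, ?_⟩
  · have h1 := DG.ren_push _ (mv w u) (x u) (hdg u hu)
    have h2 : (fun b => ∑ a ∈ Finset.univ.filter (fun a => mv w u a = b),
        Function.update (Function.update δ u 0) w (0 + δ u) a) = δ := by
      funext b
      by_cases hb : b = u
      · subst hb
        have h3 : (Finset.univ.filter fun a => mv w b a = b) = {w, b} := by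
          ext a
          simp only [Finset.mem_filter, Finset.mem_univ, true_and, Finset.mem_insert,
            Finset.mem_singleton, mv]
          constructor
          · intro h
            by_cases haw : a = w
            · exact Or.inl haw
            · rw [Function.update_of_ne haw] at h
              exact Or.inr h
          · rintro (rfl | rfl)
            · rw [Function.update_self]
            · rw [Function.update_of_ne huw]
              rfl
        rw [h3, Finset.sum_pair huw.symm, Function.update_self, Function.update_of_ne huw,
          Function.update_self]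
        omega
      · by_cases hbw : b = w
        · subst hbw
          rw [hδw]
          refine Finset.sum_eq_zero fun a ha => ?_
          exfalso
          rw [Finset.mem_filter] at ha
          have h4 := ha.2
          by_cases hab : a = b
          · subst hab
            rw [mv, Function.update_self] at h4
            exact huw h4
          · rw [mv, Function.update_of_ne hab] at h4
            exact hab h4
        · have h3 : (Finset.univ.filter fun a => mv w u a = b) = {b} := by
            ext a
            simp only [Finset.mem_filter, Finset.mem_univ, true_and, Finset.mem_singleton, mv]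
            constructor
            · intro h
              by_cases haw : a = w
              · subst haw
                rw [Function.update_self] at h
                exact absurd h.symm hb
              · rw [Function.update_of_ne haw] at h
                exact h
            · rintro rfl
              rw [Function.update_of_ne hbw]
              rfl
          rw [h3, Finset.sum_singleton, Function.update_of_ne hbw, Function.update_of_ne hb]
    rwa [h2] at h1
  · rw [← (NAT_thm K A A v (mv w u)).1, hhw u hu i j hij, map_zero]
  · intro u' hu'
    rw [Finset.mem_singleton] at hu'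
    subst hu'
    rw [ren_ren]
    have h1 := DG.ren_eq _ (mv u' w ∘ mv w u') id (x u') (fun p hp => ?_) (hdg u' hu)
    · rw [h1, ren_id]
    · by_cases hpw : p = w
      · subst hpw
        simp [mv]
      · by_cases hpu : p = u'
        · subst hpu
          rw [Function.update_of_ne hpw, Function.update_self] at hp
          exact absurd rfl hp
        · simp [mv, Function.update_of_ne hpw, Function.update_of_ne hpu]

end HGBH

/-- `HG0` from the step. -/
theorem HG0_thm (h : Stmt_HGS2) : Stmt_HG0 := by
  intro K _ _ _ v N κ e D hN
  induction κ using Nat.strong_induction_on generalizing e D with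
  | _ κ ih =>
    intro hκ
    rcases Nat.eq_zero_or_pos e with he | he
    · subst he
      rcases Nat.eq_zero_or_pos κ with h0 | h0
      · subst h0
        exact HGBH.empty N 0 D
      · obtain rfl : κ = 1 := by omega
        exact HGBH.one N D
    · refine h K v N κ e D hN he fun ρ h2 _ _ => ⟨fun h3 => ?_, fun h3 => ?_⟩
      · exact ih (κ - ρ) (by omega) e (D - 1) (by omega)
      · exact ih (κ + 1 - ρ) (by omega) (e - 1) (D - 1) (by omega)

/-- `HGS` from the step. -/
theorem HGS_thm (h : Stmt_HGS2) : Stmt_HGS := by
  intro K _ _ _ v N κ e D hN he hyp
  exact h K v N κ e D hN he fun ρ h2 h3 h4 => hyp ρ (by omega) h3 h4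

/-- `N4`. -/
theorem N4_thm (hA : Stmt_N4A) (hB : Stmt_N4B) : Stmt_N4 := by
  intro K _ _ v M β D A _ _ T S C w a ν m hC ha1 ha2 ha3 ha4 hG hZ hW hE hν
  obtain ⟨y, h1, h2, h3⟩ := hA K v M β D A T S C w a ν m hC ha1 ha2 ha3 ha4 hG hZ hW hE hν
  exact hB K v M β A T S C w a m y hC ha1 ha2 ha3 ha4 hZ h1 h2 h3

end Pool.Agent.VOP
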