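import Pool.Agent.VOP.StmtsX

/-!
# Highest weight gluing for large `N` (MP_deb8da_ag)
-/

namespace Pool.Agent.VOP

open MvPolynomial Pool.Agent.VSY

namespace HGCX

variable {K : Type} [Field K] [LinearOrder K] [IsStrictOrderedRing K]

/-- the claim for fixed `e₀` -/
theorem claim (h1 : Stmt_HG0) (h2 : Stmt_HGS) {v N C e₀ : ℕ} (hC : 1 ≤ C)
    (hN : 4 * C * C ≤ N) : ∀ (n e κ D : ℕ), e + κ ≤ n → D ≤ C * e₀ →
      κ ≤ e + 1 + (C - 1) * (2 * e - e₀) → HG K v N κ e D := by
  have hN1 : 1 ≤ N := by nlinarith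
  intro n
  induction n with
  | zero =>
    intro e κ D hn _ _
    exact h1 K v N κ e D hN1 (by omega)
  | succ n ih =>
    intro e κ D hn hD hκ
    by_cases hk : κ ≤ e + 1
    · exact h1 K v N κ e D hN1 hk
    have he0 : e₀ + 1 ≤ 2 * e := by
      by_contra hc
      have h3 : 2 * e - e₀ = 0 := by omega
      rw [h3, Nat.mul_zero] at hκ
      omega
    have he : 1 ≤ e := by omega
    refine h2 K v N κ e D hN1 he ?_
    intro ρ hρ1 _ hρD
    constructor
    · intro _
      refine ih e (κ - ρ) (D - 1) (by omega) (by omega) (by omega)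
    · intro _
      refine ih (e - 1) (κ + 1 - ρ) (D - 1) (by omega) (by omega) ?_
      have hρ : 2 * C ≤ ρ := by
        by_contra hc
        have h3 : ρ + 1 ≤ 2 * C := by omega
        have h4 : (e + 2) * (4 * C * C) ≤ κ * N := Nat.mul_le_mul (by omega) hN
        have h5 : ρ * D ≤ ρ * (C * e₀) := Nat.mul_le_mul_left ρ hD
        have h6 : ρ * (C * e₀) ≤ (2 * C) * (C * (2 * e)) :=
          Nat.mul_le_mul (by omega) (Nat.mul_le_mul_left C (by omega))
        have h7 : 1 ≤ C * C := Nat.mul_pos hC hC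
        nlinarith
      have h8 : (C - 1) * (2 * e - e₀) ≤ (C - 1) * (2 * (e - 1) - e₀) + (C - 1) * 2 := by
        rw [← Nat.mul_add]
        exact Nat.mul_le_mul_left _ (by omega)
      omega

end HGCX

open HGCX in
theorem HGC_thm (h1 : Stmt_HG0) (h2 : Stmt_HGS) : Stmt_HGC := by
  intro K _ _ _ v N κ e D C hC hN h
  refine claim h1 h2 (e₀ := e) hC hN (e + κ) e κ D le_rfl (by omega) ?_
  have h3 : 2 * e - e = e := by omega
  rw [h3]
  have h4 : (C - 1) * e + e = C * e := by
    obtain ⟨c, rfl⟩ : ∃ c, C = c + 1 := ⟨C - 1, by omega⟩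
    rw [Nat.add_sub_cancel]
    ring
  omega

end Pool.Agent.VOP
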