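import Pool.Agent.VOP.StmtsX

/-!
# Highest weight gluing if `D < C N` (MP_deb8da_ag)
-/

namespace Pool.Agent.VOP

open MvPolynomial Pool.Agent.VSY

namespace HGFX

variable {K : Type} [Field K] [LinearOrder K] [IsStrictOrderedRing K]

/-- the arithmetic of the second family -/
theorem arith {C F κ ρ : ℕ} (hC : 2 ≤ C) (hκ : κ ≤ F + F / (C - 1)) (hρ : κ < ρ * C) :
    κ + 1 - ρ ≤ F := by
  obtain ⟨c, rfl⟩ : ∃ c, C = c + 2 := ⟨C - 2, by omega⟩
  have h0 : c + 2 - 1 = c + 1 := by omega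
  rw [h0] at hκ
  by_contra hcon
  have h1 : F + ρ ≤ κ := by omega
  -- `F / (c + 1) ≥ κ - F ≥ ρ`
  have h2 : ρ ≤ F / (c + 1) := by omega
  have h3 : κ - F ≤ F / (c + 1) := by omega
  have h4 : (κ - F) * (c + 1) ≤ F := (Nat.le_div_iff_mul_le (by omega)).1 h3
  obtain ⟨x, rfl⟩ : ∃ x, κ = F + x := ⟨κ - F, by omega⟩
  have h5 : F + x - F = x := by omega
  rw [h5] at h4
  have h6 : ρ ≤ x := by omega
  have h7 : ρ * (c + 2) ≤ x * (c + 2) := Nat.mul_le_mul_right _ h6
  nlinarith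

theorem claim (h1 : Stmt_HG0) (h2 : Stmt_HGS) {v N C : ℕ} (hN1 : 1 ≤ N) (hC : 2 ≤ C) :
    ∀ (n e κ D : ℕ), e + κ ≤ n → D < C * N → κ ≤ FF C e → HG K v N κ e D := by
  intro n
  induction n with
  | zero =>
    intro e κ D hn _ _
    exact h1 K v N κ e D hN1 (by omega)
  | succ n ih =>
    intro e κ D hn hD hκ
    by_cases hk : κ ≤ e + 1
    · exact h1 K v N κ e D hN1 hk
    rcases e with _ | e
    · simp only [FF] at hκ
      omega
    have hκ2 : κ ≤ FF C e + FF C e / (C - 1) := by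
      simp only [FF] at hκ
      rcases le_max_iff.1 hκ with h | h
      · omega
      · exact h
    refine h2 K v N κ (e + 1) D hN1 (by omega) ?_
    intro ρ hρ1 _ hρD
    constructor
    · intro _
      exact ih (e + 1) (κ - ρ) (D - 1) (by omega) (by omega) (by omega)
    · intro _
      rw [Nat.add_sub_cancel]
      refine ih e (κ + 1 - ρ) (D - 1) (by omega) (by omega) ?_
      refine arith hC hκ2 ?_
      have h3 : ρ * D ≤ ρ * (C * N) := Nat.mul_le_mul_left ρ hD.le
      have h4 : κ * N < (ρ * C) * N := by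
        have h5 : ρ * (C * N) = (ρ * C) * N := by ring
        omega
      exact lt_of_mul_lt_mul_right h4 (Nat.zero_le N)

end HGFX

open HGFX in
theorem HGF_thm (h1 : Stmt_HG0) (h2 : Stmt_HGS) : Stmt_HGF := by
  intro K _ _ _ v N C hN hC e κ D hD hκ
  exact claim h1 h2 hN hC (e + κ) e κ D le_rfl hD hκ

end Pool.Agent.VOP
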