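import Pool.Agent.VOP.StmtsH
import Pool.Agent.VOP.DG
import Pool.Agent.VSY.DEG
import Pool.Agent.VSY.NAT
import Pool.Agent.VSY.WB

/-!
# Module HGPM: highest weight gluing with parameter points
-/

set_option autoImplicit false

namespace Pool.Agent.VOP

open MvPolynomial Pool.Agent.VSY

namespace HGPMH

variable {K : Type} [Field K] {A : Type} {v : ℕ}

theorem mv_self [DecidableEq A] (u w : A) : mv u w u = w := by
  simp [mv]

theorem mv_ne [DecidableEq A] {u w p : A} (h : p ≠ u) : mv u w p = p := by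
  simp [mv, h]

theorem mv_comm [DecidableEq A] {u u' w : A} (h : u ≠ w) (h' : u' ≠ w) :
    mv u' w ∘ mv u w = mv u w ∘ mv u' w := by
  funext p
  show mv u' w (mv u w p) = mv u w (mv u' w p)
  by_cases h1 : p = u
  · subst h1
    rw [mv_self, mv_ne h'.symm]
    by_cases h2 : p = u'
    · subst h2
      rw [mv_self, mv_ne h.symm]
    · rw [mv_ne h2, mv_self]
  · rw [mv_ne h1]
    by_cases h2 : p = u'
    · subst h2
      rw [mv_self, mv_ne h.symm]
    · rw [mv_ne h2, mv_ne h1]

/-- The degrees after the substitution. -/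
theorem push_mv [Fintype A] [DecidableEq A] {u w : A} (h : u ≠ w) (δ : A → ℕ) :
    (fun b => ∑ a ∈ Finset.univ.filter (fun a => mv u w a = b), δ a) =
      Function.update (Function.update δ u 0) w (δ w + δ u) := by
  funext b
  by_cases hb : b = w
  · subst hb
    rw [Function.update_self]
    have h1 : (Finset.univ.filter fun a => mv u b a = b) = {b, u} := by
      ext a
      simp only [Finset.mem_filter, Finset.mem_univ, true_and, Finset.mem_insert,
        Finset.mem_singleton]
      constructor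
      · intro ha
        by_cases h2 : a = u
        · exact Or.inr h2
        · rw [mv_ne h2] at ha
          exact Or.inl ha
      · rintro (rfl | rfl)
        · exact mv_ne h.symm
        · exact mv_self _ _
    rw [h1, Finset.sum_pair h.symm]
  · rw [Function.update_of_ne hb]
    by_cases hu : b = u
    · subst hu
      rw [Function.update_self]
      refine Finset.sum_eq_zero fun a ha => ?_
      rw [Finset.mem_filter] at ha
      exfalso
      by_cases h2 : a = b
      · rw [h2, mv_self] at ha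
        exact h ha.2.symm
      · rw [mv_ne h2] at ha
        exact h2 ha.2
    · rw [Function.update_of_ne hu]
      have h1 : (Finset.univ.filter fun a => mv u w a = b) = {b} := by
        ext a
        simp only [Finset.mem_filter, Finset.mem_univ, true_and, Finset.mem_singleton]
        constructor
        · intro ha
          by_cases h2 : a = u
          · rw [h2, mv_self] at ha
            exact absurd ha.symm hb
          · rwa [mv_ne h2] at ha
        · rintro rfl
          exact mv_ne hu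
      rw [h1, Finset.sum_singleton]

theorem dg_mv [Fintype A] [DecidableEq A] {u w : A} (h : u ≠ w) {δ : A → ℕ} {f : PX K A v}
    (hf : Dg δ f) :
    Dg (Function.update (Function.update δ u 0) w (δ w + δ u)) (ren (mv u w) f) := by
  rw [← push_mv h δ]
  exact (DG_thm K A A v).2.2.2.2.2.2.2.1 δ (mv u w) f hf

theorem dg_Eij [Fintype A] [DecidableEq A] {δ : A → ℕ} {f : PX K A v} (hf : Dg δ f)
    (i j : Fin v) : Dg δ (Eij i j f) := by
  have h1 := (DEG_thm K A v (fun _ => 0) δ).1 i j f (fun m hm x => by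
    rw [add_zero]
    exact hf m hm x)
  intro m hm x
  have h2 := h1 m hm x
  rwa [add_zero] at h2

theorem dg_monomial (α : A × Fin v →₀ ℕ) :
    Dg (fun p => ∑ j, α (p, j)) (monomial α (1 : K) : PX K A v) := by
  classical
  intro m hm p
  have h1 : m = α := by
    have h2 := support_monomial_subset hm
    simpa using h2
  rw [h1]

theorem ren_mono [DecidableEq A] (α : A × Fin v →₀ ℕ) (u w : A) (h : ∀ j, α (u, j) = 0) :
    ren (mv u w) (monomial α (1 : K) : PX K A v) = monomial α 1 := by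
  rw [ren_monomial]
  congr 1
  have h1 : α.mapDomain (Prod.map (mv u w) id) = α.mapDomain id := by
    refine Finsupp.mapDomain_congr fun y hy => ?_
    obtain ⟨p, j⟩ := y
    have h2 : p ≠ u := by
      rintro rfl
      rw [Finsupp.mem_support_iff] at hy
      exact hy (h j)
    simp [mv_ne h2]
  rw [h1, Finsupp.mapDomain_id]

/-- The height of a monomial. -/
def ht [Fintype A] (α : A × Fin v →₀ ℕ) : ℕ := ∑ y : A × Fin v, (v - y.2.val) * α y

theorem ht_add [Fintype A] (α β : A × Fin v →₀ ℕ) : ht (α + β) = ht α + ht β := by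
  unfold ht
  rw [← Finset.sum_add_distrib]
  refine Finset.sum_congr rfl fun y _ => ?_
  rw [Finsupp.add_apply, mul_add]

theorem ht_single [Fintype A] [DecidableEq A] (p : A) (i : Fin v) :
    ht (Finsupp.single (p, i) 1 : A × Fin v →₀ ℕ) = v - i.val := by
  unfold ht
  rw [Finset.sum_eq_single (p, i)]
  · simp
  · intro y _ hy
    rw [Finsupp.single_apply, if_neg (fun h => hy h.symm), mul_zero]
  · intro h
    exact absurd (Finset.mem_univ _) h

end HGPMH

open HGPMH in
/-- **HGPM** -/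
theorem HGPM_thm (h1 : Stmt_FSH) (h2 : Stmt_PRJ) (h3 : Stmt_CFO) (h4 : Stmt_HWY) :
    Stmt_HGPM := by
  intro K _ _ _ v N κ e D hHG A _ _ δ Λ w ν x hw hκ hN he hD hfam
  classical
  obtain ⟨fadd, fsmul, fsymm, fpos, fE, fmono, fwt⟩ := h1 K A v
  obtain ⟨dzero, dadd, dsmul, -, dmul, -, -, -, -, -, -, -⟩ := DG_thm K A A v
  have hne : ∀ u ∈ Λ, u ≠ w := fun u hu h => hw (h ▸ hu)
  -- the projection
  let φ : PX K A v →ₗ[K] ({u // u ∈ Λ} → PX K A v) :=
    LinearMap.pi fun u => (ren (mv u.1 w)).toLinearMap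
  let DS : Submodule K (PX K A v) :=
    { carrier := {f | Dg δ f}
      add_mem' := fun ha hb => (dadd δ _ _ ha hb).1
      zero_mem' := dzero δ
      smul_mem' := fun a f hf => (dsmul δ a 0 f hf).1 }
  have hφ : ∀ (f : PX K A v) (u : {u // u ∈ Λ}), φ f u = ren (mv u.1 w) f := fun _ _ => rfl
  have hB : ∀ z ∈ DS.map φ, ∀ i, ∀ m ∈ (z i).support, ∑ y, m y ≤ ∑ p, δ p := by
    rintro z ⟨f, hf, rfl⟩ u m hm
    rw [hφ] at hm
    have h5 := (DG_thm K A A v).2.2.2.2.2.2.2.1 δ (mv u.1 w) f hf m hm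
    rw [Fintype.sum_prod_type]
    have h6 : ∑ p, ∑ j, m (p, j) =
        ∑ b, ∑ a ∈ Finset.univ.filter (fun a => mv u.1 w a = b), δ a :=
      Finset.sum_congr rfl fun p _ => h5 p
    rw [h6, Finset.sum_fiberwise]
  obtain ⟨z, ⟨y1, hy1, rfl⟩, horth0⟩ := h2 K A {u // u ∈ Λ} v (∑ p, δ p) (DS.map φ) hB
    (fun u => x u.1)
  have hy1' : Dg δ y1 := hy1
  obtain ⟨x2, hx2⟩ : ∃ x2 : A → PX K A v, ∀ u, x2 u = x u - ren (mv u w) y1 :=
    ⟨_, fun _ => rfl⟩
  have horth : ∀ z' : PX K A v, Dg δ z' → ∑ u ∈ Λ, fis (x2 u) (ren (mv u w) z') = 0 := by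
    intro z' hz'
    have h5 := horth0 (φ z') ⟨z', hz', rfl⟩
    rw [← Finset.sum_coe_sort Λ (fun u => fis (x2 u) (ren (mv u w) z'))]
    rw [← h5]
    refine Finset.sum_congr rfl fun u _ => ?_
    rw [hx2]
    rfl
  -- the key lemma
  have hkey : ∀ (T Ts : PX K A v → PX K A v) (y' : PX K A v),
      (∀ u ∈ Λ, T (x2 u) = ren (mv u w) y') → (∀ f g, fis (T f) g = fis f (Ts g)) →
      (∀ u f, Ts (ren (mv u w) f) = ren (mv u w) (Ts f)) → Dg δ (Ts y') →
      ∀ u ∈ Λ, T (x2 u) = 0 := by
    intro T Ts y' hT hadj hcom hd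
    have h5 : ∑ u ∈ Λ, fis (T (x2 u)) (T (x2 u)) = 0 := by
      rw [← horth (Ts y') hd]
      refine Finset.sum_congr rfl fun u hu => ?_
      rw [hadj, hT u hu, hcom]
    rw [Finset.sum_eq_zero_iff_of_nonneg (fun u _ => (fpos _).1)] at h5
    intro u hu
    exact (fpos _).2 (h5 u hu)
  have hnat : ∀ (φ : A → A) (i j : Fin v) (f : PX K A v),
      ren φ (Eij i j f) = Eij i j (ren φ f) := fun φ i j f => (NAT_thm K A A v φ).1 i j f
  have hE0 : ∀ i j : Fin v, i < j → ∀ u ∈ Λ, Eij i j (x2 u) = 0 := by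
    intro i j hij
    refine hkey (fun f => Eij i j f) (fun f => Eij j i f) (-(Eij i j y1)) ?_ ?_ ?_ ?_
    · intro u hu
      show Eij i j (x2 u) = _
      rw [hx2, map_sub, hfam.hw u hu i j hij, map_neg, hnat, zero_sub]
    · intro f g
      exact fE i j f g
    · intro u f
      exact (hnat _ _ _ _).symm
    · exact dg_Eij ((dsmul δ 0 0 _ (dg_Eij hy1' i j)).2.1) j i
  have hEi : ∀ i : Fin v, ∀ u ∈ Λ, Eij i i (x2 u) = (ν i : K) • x2 u := by
    intro i
    have h5 := hkey (fun f => Eij i i f - (ν i : K) • f) (fun f => Eij i i f - (ν i : K) • f)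
      (-(Eij i i y1 - (ν i : K) • y1)) ?_ ?_ ?_ ?_
    · intro u hu
      exact sub_eq_zero.1 (h5 u hu)
    · intro u hu
      show Eij i i (x2 u) - (ν i : K) • x2 u = _
      have h6 : Eij i i (x u) = (ν i : K) • x u :=
        (WB_thm K A A v).2.2.2.2.1 ν (x u) i (hfam.wt u hu)
      rw [hx2, map_sub, h6, map_neg, map_sub, map_smul, hnat, smul_sub]
      abel
    · intro f g
      show fis (Eij i i f - (ν i : K) • f) g = fis f (Eij i i g - (ν i : K) • g)
      rw [(fadd _ _ _).2, fsmul, fE, fsymm f (Eij i i g - (ν i : K) • g), (fadd _ _ _).2, fsmul,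
        fsymm (Eij i i g) f, fsymm g f]
    · intro u f
      show Eij i i (ren (mv u w) f) - (ν i : K) • ren (mv u w) f =
        ren (mv u w) (Eij i i f - (ν i : K) • f)
      rw [map_sub, map_smul, hnat]
    · have h7 : Dg δ (-(Eij i i y1 - (ν i : K) • y1)) :=
        (dsmul δ 0 0 _ (dadd δ _ _ (dg_Eij hy1' i i) (dsmul δ (ν i : K) 0 _ hy1').1).2).2.1
      exact (dadd δ _ _ (dg_Eij h7 i i) (dsmul δ (ν i : K) 0 _ h7).1).2
  have hW2 : ∀ u ∈ Λ, HasW ν (x2 u) := by
    intro u hu m hm i
    exact fwt i (ν i) (x2 u) (hEi i u hu) m hm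
  have hD2 : ∀ u ∈ Λ,
      Dg (Function.update (Function.update δ u 0) w (δ w + δ u)) (x2 u) := by
    intro u hu
    rw [hx2]
    exact (dadd _ _ _ (hfam.dg u hu) (dg_mv (hne u hu) hy1')).2
  have hC2 : ∀ u ∈ Λ, ∀ u' ∈ Λ, u ≠ u' → ren (mv u' w) (x2 u) = ren (mv u w) (x2 u') := by
    intro u hu u' hu' huu
    rw [hx2, hx2, map_sub, map_sub, hfam.cp u hu u' hu' huu, ren_ren, ren_ren,
      mv_comm (hne u hu) (hne u' hu')]
  -- the claim
  have hzero : ∀ u ∈ Λ, x2 u = 0 := by
    by_contra hcon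
    push Not at hcon
    obtain ⟨u1, hu1, hu1'⟩ := hcon
    obtain ⟨P, hP⟩ : ∃ P : Finset A, P = Finset.univ \ insert w Λ := ⟨_, rfl⟩
    have hPm : ∀ p, p ∈ P ↔ p ≠ w ∧ p ∉ Λ := by
      intro p
      rw [hP]
      simp only [Finset.mem_sdiff, Finset.mem_univ, true_and, Finset.mem_insert]
      tauto
    have hwP : w ∉ P := fun h => ((hPm w).1 h).1 rfl
    have hΛP : ∀ u ∈ Λ, u ∉ P := fun u hu h => ((hPm u).1 h).2 hu
    obtain ⟨c1, c2, c3, c4, c5, c6, c7, c8⟩ := h3 K A v P
    have hex : ∃ n : ℕ, ∃ α : A × Fin v →₀ ℕ, ht α = n ∧ (∀ y, y.1 ∉ P → α y = 0) ∧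
        ∃ u ∈ Λ, cfo P α (x2 u) ≠ 0 := by
      obtain ⟨α, hα1, hα2⟩ := c7 (x2 u1) hu1'
      exact ⟨_, α, rfl, hα1, u1, hu1, hα2⟩
    obtain ⟨α, hαn, hαP, u0, hu0, hu0'⟩ := Nat.find_spec hex
    have hmin : ∀ β : A × Fin v →₀ ℕ, (∀ y, y.1 ∉ P → β y = 0) → ht β < ht α →
        ∀ u ∈ Λ, cfo P β (x2 u) = 0 := by
      intro β hβ hlt u hu
      by_contra hne0
      rw [hαn] at hlt
      exact Nat.find_min hex hlt ⟨β, rfl, hβ, u, hu, hne0⟩
    obtain ⟨c, hc⟩ : ∃ c : A → PX K A v, ∀ u, c u = cfo P α (x2 u) := ⟨_, fun _ => rfl⟩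
    have hchw : ∀ u ∈ Λ, ∀ i j : Fin v, i < j → Eij i j (c u) = 0 := by
      intro u hu i j hij
      rw [hc, c8 α i j (x2 u) hαP hij.ne, hE0 i j hij u hu, (c3 α 0 0 0).2.2]
      intro p hp β hβ
      refine hmin β ?_ ?_ u hu
      · intro y hy
        have h5 := DFunLike.congr_fun hβ y
        have hyp : y.1 ≠ p := fun h => hy (h ▸ hp)
        have h6 : ∀ l : Fin v, (p, l) ≠ y := by
          rintro l rfl
          exact hyp rfl
        rw [Finsupp.add_apply, Finsupp.add_apply, Finsupp.single_apply, Finsupp.single_apply,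
          if_neg (h6 i), if_neg (h6 j), add_zero, add_zero, hαP y hy] at h5
        exact h5
      · have h5 := congrArg ht hβ
        rw [ht_add, ht_add, ht_single, ht_single] at h5
        have h6 := i.2
        have h7 := j.2
        have h8 : i.val < j.val := hij
        omega
    obtain ⟨δ', hδ'⟩ : ∃ δ' : A → ℕ, ∀ p, δ' p = if p ∈ P then 0 else δ p := ⟨_, fun _ => rfl⟩
    have hδΛ : ∀ u ∈ Λ, δ' u = δ u := fun u hu => by rw [hδ', if_neg (hΛP u hu)]
    have hδw : δ' w = δ w := by rw [hδ', if_neg hwP]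
    obtain ⟨y0, hy0, -, -, hy0'⟩ := hHG A δ' Λ w (fun j => ν j - ∑ p, α (p, j)) c hw hκ
      (fun u hu => by rw [hδΛ u hu]; exact hN u hu) (by rw [hδw]; exact he)
      (fun p hp hpw => by rw [hδ', if_pos ((hPm p).2 ⟨hpw, hp⟩)])
      (fun j => (Nat.sub_le _ _).trans (hD j))
      (fun u hu => by
        have h5 := (c5 α _ (x2 u) hαP (hD2 u hu)).1
        rw [← hc] at h5
        have h6 : (fun p => if p ∈ P then 0 else
            Function.update (Function.update δ u 0) w (δ w + δ u) p) =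
            Function.update (Function.update δ' u 0) w (e + δ' u) := by
          funext p
          by_cases hpw : p = w
          · subst hpw
            rw [if_neg hwP, Function.update_self, Function.update_self, hδΛ u hu, he]
          · rw [Function.update_of_ne hpw, Function.update_of_ne hpw]
            by_cases hpu : p = u
            · subst hpu
              rw [Function.update_self, Function.update_self]
              split_ifs <;> rfl
            · rw [Function.update_of_ne hpu, Function.update_of_ne hpu, hδ']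
        rw [h6] at h5
        exact h5)
      (fun u hu u' hu' huu => by
        rw [hc, hc, ← c4 α u' w (x2 u) hαP (hΛP u' hu') hwP,
          ← c4 α u w (x2 u') hαP (hΛP u hu) hwP, hC2 u hu u' hu' huu])
      (fun u hu => by
        rw [hc]
        exact c6 α ν (x2 u) (hW2 u hu))
      hchw
    -- the orthogonality
    have hαδ : ∀ p ∈ P, ∑ j, α (p, j) = δ p := by
      intro p hp
      have h5 := (c5 α _ (x2 u0) hαP (hD2 u0 hu0)).2 hu0' p hp
      have e1 : p ≠ w := fun h => hwP (by rw [← h]; exact hp)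
      have e2 : p ≠ u0 := fun h => hΛP u0 hu0 (by rw [← h]; exact hp)
      rw [h5, Function.update_of_ne e1, Function.update_of_ne e2]
    have hdm : Dg δ (monomial α 1 * y0) := by
      have h5 := dmul _ _ _ _ (dg_monomial (K := K) α) hy0
      have h6 : (fun p => ∑ j, α (p, j) + δ' p) = δ := by
        funext p
        rw [hδ']
        by_cases hp : p ∈ P
        · rw [if_pos hp, hαδ p hp, add_zero]
        · rw [if_neg hp, Finset.sum_eq_zero (fun j _ => hαP (p, j) hp), zero_add]
      rw [h6] at h5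
      exact h5
    have h5 := horth _ hdm
    have h6 : ∑ u ∈ Λ, fis (x2 u) (monomial α 1 * c u) = 0 := by
      rw [← h5]
      refine Finset.sum_congr rfl fun u hu => ?_
      rw [map_mul, ren_mono α u w (fun j => hαP (u, j) (hΛP u hu)), hy0' u hu]
    have h7 : ∀ u, 0 ≤ fis (x2 u) (monomial α 1 * c u) ∧
        (fis (x2 u) (monomial α 1 * c u) = 0 → c u = 0) := by
      intro u
      refine fmono α (x2 u) (c u) fun m hm => ?_
      rw [hc] at hm ⊢
      have h8 : ∀ y, y.1 ∈ P → m y = 0 := by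
        intro y hy
        by_contra hmy
        rw [mem_support_iff] at hm
        exact hm (c2 α m (x2 u) ⟨y, hy, hmy⟩)
      exact (c1 α m (x2 u) h8).symm
    rw [Finset.sum_eq_zero_iff_of_nonneg (fun u _ => (h7 u).1)] at h6
    have h8 := (h7 u0).2 (h6 u0 hu0)
    rw [hc] at h8
    exact hu0' h8
  refine h4 K A v δ Λ w ν x hfam.wt hfam.hw ⟨y1, hy1', fun u hu => ?_⟩
  have h5 := hzero u hu
  rw [hx2] at h5
  exact (sub_eq_zero.1 h5).symm

end Pool.Agent.VOP
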