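import Pool.Agent.VOP.StmtsH
import Pool.Agent.VOP.DG
import Pool.Agent.VSY.DEG
import Pool.Agent.VSY.NAT
import Pool.Agent.VSY.WB
import Pool.Agent.VSY.CAPM
import Pool.Agent.VSY.REL

/-!
# Module HGS2: the step
-/

namespace Pool.Agent.VOP

open MvPolynomial Pool.Agent.VSY

namespace HGS2H

variable {K : Type} [Field K] {A : Type} [Fintype A] [DecidableEq A] {v : ℕ}

/-- The coordinates that occur. -/
def LL (ν : Fin v → ℕ) : List (Fin v) := (List.finRange v).filter fun j => ν j ≠ 0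

theorem mem_LL {ν : Fin v → ℕ} {j : Fin v} : j ∈ LL ν ↔ ν j ≠ 0 := by
  simp [LL]

theorem pw_LL (ν : Fin v → ℕ) : (LL ν).Pairwise (· < ·) :=
  (List.pairwise_lt_finRange v).filter _

theorem nodup_LL (ν : Fin v → ℕ) : (LL ν).Nodup :=
  (List.nodup_finRange v).filter _

theorem length_LL_le (ν : Fin v → ℕ) : (LL ν).length ≤ v := by
  have h := List.length_filter_le (fun j => decide (ν j ≠ 0)) (List.finRange v)
  rw [List.length_finRange] at h
  exact h

theorem sum_le (ν : Fin v → ℕ) (D : ℕ) (hν : ∀ j, ν j ≤ D) : ∑ j, ν j ≤ (LL ν).length * D := by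
  classical
  have h1 : (LL ν).toFinset = Finset.univ.filter fun j => ν j ≠ 0 := by
    ext j
    rw [List.mem_toFinset, mem_LL]
    simp
  have h2 : ∑ j, ν j = ∑ j ∈ (LL ν).toFinset, ν j := by
    rw [h1, Finset.sum_filter_ne_zero]
  rw [h2, ← List.toFinset_card_of_nodup (nodup_LL ν)]
  refine (Finset.sum_le_card_nsmul _ _ D fun j _ => hν j).trans ?_
  rw [smul_eq_mul]

theorem capc_ne (ν : Fin v → ℕ) : ∀ L : List (Fin v), (∀ j ∈ L, ν j ≠ 0) → capc ν L ≠ 0
  | [], _ => one_ne_zero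
  | j :: L, h => by
    rw [capc]
    refine mul_ne_zero ?_ (capc_ne ν L fun j' hj' => h j' (List.mem_cons_of_mem _ hj'))
    have := h j List.mem_cons_self
    omega

theorem total {δ : A → ℕ} {Λ : Finset A} {w u₀ : A} {ν : Fin v → ℕ} {N : ℕ} {f : PX K A v}
    (hw : w ∉ Λ) (hN : ∀ u ∈ Λ, N ≤ δ u) (hu : u₀ ∈ Λ) (hf : f ≠ 0)
    (hdg : Dg (Function.update (Function.update δ u₀ 0) w (δ w + δ u₀)) f) (hwt : HasW ν f) :
    Λ.card * N + δ w ≤ ∑ j, ν j := by
  obtain ⟨m, hm⟩ := support_nonempty.2 hf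
  have h1 : ∑ j, ν j = ∑ p, Function.update (Function.update δ u₀ 0) w (δ w + δ u₀) p := by
    rw [← Finset.sum_congr rfl fun j _ => hwt m hm j, Finset.sum_comm]
    exact Finset.sum_congr rfl fun p _ => hdg m hm p
  have hwu : w ∉ Λ.erase u₀ := fun h => hw (Finset.mem_of_mem_erase h)
  have h2 : ∑ p ∈ insert w (Λ.erase u₀), Function.update (Function.update δ u₀ 0) w (δ w + δ u₀) p ≤
      ∑ p, Function.update (Function.update δ u₀ 0) w (δ w + δ u₀) p :=
    Finset.sum_le_sum_of_subset (Finset.subset_univ _)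
  rw [Finset.sum_insert hwu, Function.update_self] at h2
  have h3 : ∑ p ∈ Λ.erase u₀, Function.update (Function.update δ u₀ 0) w (δ w + δ u₀) p =
      ∑ p ∈ Λ.erase u₀, δ p := by
    refine Finset.sum_congr rfl fun p hp => ?_
    have hpw : p ≠ w := by
      rintro rfl
      exact hwu hp
    rw [Function.update_of_ne hpw, Function.update_of_ne (Finset.ne_of_mem_erase hp)]
  have h4 : δ u₀ + ∑ p ∈ Λ.erase u₀, δ p = ∑ p ∈ Λ, δ p := Finset.add_sum_erase _ _ hu
  have h5 : Λ.card * N ≤ ∑ p ∈ Λ, δ p := by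
    have := Finset.card_nsmul_le_sum Λ δ N hN
    rwa [smul_eq_mul] at this
  omega

/-- The super family. -/
theorem sfam (hD : Stmt_YLD) [CharZero K] {δ : A → ℕ} {Λ : Finset A} {w : A} {ν : Fin v → ℕ}
    {x : A → PX K A v} (hx : Fam δ Λ w ν x) :
    SFam δ Λ w (fun j => ν j - 1) fun u => (yL (LL ν) (x u) : SA K A v (LL ν).length) := by
  refine ⟨fun u hu => ?_, fun u hu u' hu' hne => ?_, fun u hu => ⟨fun t m hm l => ?_, ?_⟩⟩
  · intro t m hm p
    have h1 := (DEG_thm K A v (fun _ => 0)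
      (Function.update (Function.update δ u 0) w (δ w + δ u))).2.1 (LL ν) (x u)
      (fun m hm x => by
        rw [add_zero]
        exact hx.dg u hu m hm x) t m hm p
    rwa [add_zero] at h1
  · rw [(NAT_thm K A A v (mv u' w)).2.2.2.2.1, (NAT_thm K A A v (mv u w)).2.2.2.2.1,
      hx.cp u hu u' hu' hne]
  · have h1 := (hD K A v (LL ν) (x u) (pw_LL ν)).2 ν (hx.wt u hu) t m hm l
    by_cases h2 : ν l = 0
    · omega
    · have h3 : (LL ν).count l = 1 := List.count_eq_one_of_mem (nodup_LL ν) (mem_LL.2 h2)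
      omega
  · intro i j hij
    refine (hD K A v (LL ν) (x u) (pw_LL ν)).1 i j hij (hx.hw u hu i j hij) ?_
    by_cases h2 : ν j = 0
    · right
      intro p
      rw [(x u).as_sum, map_sum]
      refine Finset.sum_eq_zero fun m hm => ?_
      have h3 := hx.wt u hu m hm j
      rw [h2, Finset.sum_eq_zero_iff] at h3
      rw [pderiv_monomial, h3 p (Finset.mem_univ _), Nat.cast_zero, mul_zero, monomial_zero]
    · left
      exact mem_LL.2 h2

/-- The end: from the super polynomial `h` to the polynomial `y`. -/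
theorem final [CharZero K] {δ : A → ℕ} {Λ : Finset A} {w : A} {ν : Fin v → ℕ}
    {x : A → PX K A v} (hx : Fam δ Λ w ν x) (h : SA K A v (LL ν).length) (hh : SDg δ h)
    (hp : ∀ u ∈ Λ, push (mv u w) h = yL (LL ν) (x u)) : Glu δ Λ w x := by
  have hc : (capc ν (LL ν) : K) ≠ 0 := by
    rw [Nat.cast_ne_zero]
    exact capc_ne ν _ fun j hj => mem_LL.1 hj
  refine ⟨(capc ν (LL ν) : K)⁻¹ • capL (LL ν) h, ?_, fun u hu => ?_⟩
  · refine DG.smul _ fun m hm p => ?_
    have h1 := (DEG_thm K A v (fun _ => 0) δ).2.2 (LL ν) h (fun t m hm x => by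
      rw [add_zero]
      exact hh t m hm x) m hm p
    rwa [add_zero] at h1
  · rw [map_smul, (NAT_thm K A A v (mv u w)).2.2.2.2.2, hp u hu]
    have h1 := CAPM_thm REL_thm K A v ⊥
      (fun i j f hf => by
        rw [Submodule.mem_bot] at hf ⊢
        rw [hf, map_zero])
      ν (x u) (fun i => (WB_thm K A A v).2.2.2.2.1 ν (x u) i (hx.wt u hu))
      (fun i j hij => by
        rw [Submodule.mem_bot]
        exact hx.hw u hu i j hij) (LL ν) (pw_LL ν)
    rw [Submodule.mem_bot, sub_eq_zero] at h1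
    rw [h1, smul_smul, inv_mul_cancel₀ hc, one_smul]

end HGS2H

open HGS2H in
/-- HGS2: the step. -/
theorem HGS2_thm (hP : Stmt_HGPM) (hY : Stmt_HWY) (hD : Stmt_YLD) (hA : Stmt_STA)
    (hB : Stmt_STB) (hS : Stmt_SPU) (hR : Stmt_R1) : Stmt_HGS2 := by
  intro K _ _ _ v N κ e D hN he hyp A _ _ δ Λ w ν x hw hΛ hNδ hδw hδ0 hν hdg hcp hwt hhw
  subst hδw
  subst hΛ
  have hF : Fam δ Λ w ν x := ⟨hdg, hcp, hwt, hhw⟩
  suffices hG : Glu δ Λ w x by
    obtain ⟨y, h1, h2, h3, h4⟩ := hY K A v δ Λ w ν x hwt hhw hG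
    exact ⟨y, h1, h2, h3, h4⟩
  by_cases h0 : ∀ u ∈ Λ, x u = 0
  · refine ⟨0, DG.zero δ, fun u hu => ?_⟩
    rw [map_zero, h0 u hu]
  push Not at h0
  obtain ⟨u₀, hu₀, hxu⟩ := h0
  have htot := total hw hNδ hu₀ hxu (hdg u₀ hu₀) (hwt u₀ hu₀)
  have hsz := htot.trans (sum_le ν D hν)
  have hρv := length_LL_le ν
  obtain h1 | h1 | h1 : (LL ν).length = 0 ∨ (LL ν).length = 1 ∨ 2 ≤ (LL ν).length := by omega
  · rw [h1, zero_mul] at hsz
    omega
  · obtain ⟨j₀, hj₀⟩ := List.length_eq_one_iff.1 h1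
    refine hR K A v δ Λ w ν j₀ x hw (fun j hj => ?_) hdg hcp hwt
    by_contra h2
    have h3 := mem_LL.2 h2
    rw [hj₀, List.mem_singleton] at h3
    exact hj h3
  · obtain ⟨H1, H2⟩ := hyp (LL ν).length h1 hρv hsz
    have hν' : ∀ j, (fun j => ν j - 1) j ≤ D - 1 := fun j => Nat.sub_le_sub_right (hν j) 1
    obtain ⟨a, ha1, -, ha3, ha4⟩ := hA K v N (LL ν).length (D - 1) A δ Λ w (fun j => ν j - 1)
      (fun u => yL (LL ν) (x u)) hN hw hNδ hδ0 hν' (fun h => hP K v N _ _ _ (H1 h)) (sfam hD hF)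
    obtain ⟨b, hb1, hb2⟩ := hB K v N (LL ν).length (D - 1) A δ Λ w (fun j => ν j - 1)
      (fun u => yL (LL ν) (x u) - push (mv u w) a) hN hw hNδ hδ0 hν' he
      (fun h => hP K v N _ _ _ (H2 h)) ha3 ha4
    refine final hF (a + b) ?_ fun u hu => ?_
    · have hwu : u₀ ≠ w := by
        rintro rfl
        exact hw hu₀
      exact ((hS K A v (LL ν).length δ u₀ w hwu).2.2.2.2.2.2.2.1 a b ha1 hb1).1
    · rw [push_add, hb2 u hu, add_sub_cancel]

end Pool.Agent.VOP
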