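import Pool.Agent.VOP.StmtsX

/-!
HGT: highest weight gluing from the recursions.
-/

set_option autoImplicit false

namespace Pool.Agent.VOP

open MvPolynomial Pool.Agent.VSY

namespace HGT

section

variable {K : Type} [Field K] {v N κ e D D' : ℕ}

/-- monotonicity in `D` -/
lemma mono (h : D' ≤ D) (hG : HG K v N κ e D) : HG K v N κ e D' := by
  intro A _ _ δ Λ w ν x h1 h2 h3 h4 h5 h6
  exact hG A δ Λ w ν x h1 h2 h3 h4 h5 (fun j => (h6 j).trans h)

end

variable {K : Type} [Field K] [LinearOrder K] [IsStrictOrderedRing K] {v N : ℕ}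

lemma small (h1 : Stmt_HG0) (h2 : Stmt_HGS) (hN : 1 ≤ N) {e' D : ℕ} (hD : D ≤ N) (κ : ℕ) :
    HG K v N κ (e' + 1) D := by
  refine h2 K v N κ (e' + 1) D hN (by omega) fun ρ _ _ hle => ?_
  have h3 : κ < ρ := by
    by_contra hcon
    have h4 : ρ * D ≤ κ * N := Nat.mul_le_mul (not_lt.mp hcon) hD
    omega
  refine ⟨fun h => absurd h (by omega), fun _ => ?_⟩
  have h4 : κ + 1 - ρ = 0 := by omega
  rw [h4]
  exact h1 K v N 0 _ _ hN (by omega)

lemma big (h1 : Stmt_HG0) (h2 : Stmt_HGS) (hN : 1 ≤ N) {e' D f : ℕ} (hD : N < D)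
    (ih : ∀ κ ≤ f, HG K v N κ e' (D - 1)) :
    ∀ κ, κ ≤ max (e' + 2) ((e' + f * D) / (D - N)) → HG K v N κ (e' + 1) D := by
  intro κ
  induction κ using Nat.strong_induction_on with
  | _ κ ihκ =>
    intro hκ
    by_cases hs : κ ≤ e' + 2
    · exact h1 K v N κ _ _ hN (by omega)
    have h3 : κ ≤ (e' + f * D) / (D - N) := by
      rcases le_max_iff.mp hκ with h | h
      · exact absurd h hs
      · exact h
    have h4 : κ * (D - N) ≤ e' + f * D := by
      have h5 := Nat.div_mul_le_self (e' + f * D) (D - N)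
      exact (Nat.mul_le_mul_right _ h3).trans h5
    refine h2 K v N κ (e' + 1) D hN (by omega) fun ρ hρ1 _ hle => ⟨fun hρ => ?_, fun hρ => ?_⟩
    · exact mono (Nat.sub_le D 1) (ihκ (κ - ρ) (by omega) (by omega))
    · rw [Nat.add_sub_cancel]
      apply ih
      by_contra hcon
      obtain ⟨a, ha⟩ : ∃ a, κ = ρ + f + a := ⟨κ - ρ - f, by omega⟩
      obtain ⟨b, rfl⟩ : ∃ b, D = N + b := ⟨D - N, by omega⟩
      have h6 : N + b - N = b := by omega
      rw [h6] at h4
      subst ha
      nlinarith [Nat.zero_le (a * (N + b))]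

end HGT

open HGT in
theorem HGT_thm (h1 : Stmt_HG0) (h2 : Stmt_HGS) : Stmt_HGT := by
  intro K _ _ _ v N hN
  constructor
  · intro e
    induction e with
    | zero =>
      intro D κ hκ
      exact h1 K v N κ 0 D hN hκ
    | succ e' ih =>
      intro D κ hκ
      by_cases hD : D ≤ N
      · exact small h1 h2 hN hD κ
      · have h3 : GN N (e' + 1) D = max (e' + 2) ((e' + GN N e' (D - 1) * D) / (D - N)) := by
          rw [GN, if_neg hD]
        rw [h3] at hκ
        exact big h1 h2 hN (not_le.mp hD) (fun κ' h => ih (D - 1) κ' h) κ hκ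
  · intro v' hv e
    induction e with
    | zero =>
      intro D κ hκ
      exact h1 K v N κ 0 D hN hκ
    | succ e' ih =>
      intro D κ hκ
      by_cases hD : D ≤ N
      · exact small h1 h2 hN hD κ
      · have hb := big h1 h2 hN (not_le.mp hD) (fun κ' h => ih (D - 1) κ' h)
        by_cases hx : κ ≤ max (e' + 2) ((e' + GR N v' e' (D - 1) * D) / (D - N))
        · exact hb κ hx
        · rw [GR, if_neg hD] at hκ
          split_ifs at hκ with hc
          · refine h2 K v N κ (e' + 1) D hN (by omega) fun ρ _ hρv hle => ?_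
            exfalso
            have h4 : ρ * D ≤ v' * D := Nat.mul_le_mul_right _ (hρv.trans hv)
            have h5 : (max (e' + 2) ((e' + GR N v' e' (D - 1) * D) / (D - N)) + 1) * N ≤ κ * N :=
              Nat.mul_le_mul_right _ (by omega)
            omega
          · exact absurd hκ hx

end Pool.Agent.VOP
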