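import Pool.Agent.VOP.StmtsH
import Pool.Agent.VOP.DG
import Pool.Agent.VSY.DEG
import Pool.Agent.VSY.NAT
import Pool.Agent.VSY.WB

namespace Pool.Agent.VOP

open MvPolynomial Pool.Agent.VSY

/-- **HWY** -/
theorem HWY_thm (h1 : Stmt_FSH) (h2 : Stmt_PRJ) : Stmt_HWY := by
  intro K _ _ _ A _ _ v δ Λ w ν x hwt hhw hglu
  obtain ⟨y, hyD, hy⟩ := hglu
  obtain ⟨fadd, fsmul, fsymm, fpos, fE, -, fwt⟩ := h1 K A v
  obtain ⟨dzero, dadd, dsmul, -⟩ := DG_thm K A A v
  have hED : ∀ (i j : Fin v) (f : PX K A v), Dg δ f → Dg δ (Eij i j f) := by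
    intro i j f hf m hm p
    have h5 := (DEG_thm K A v (fun _ => 0) δ).1 i j f (fun m hm p => by
      rw [add_zero]; exact hf m hm p) m hm p
    rwa [add_zero] at h5
  have hren : ∀ (u : A) (i j : Fin v) (f : PX K A v),
      ren (mv u w) (Eij i j f) = Eij i j (ren (mv u w) f) := fun u i j f =>
    (NAT_thm K A A v (mv u w)).1 i j f
  obtain ⟨-, -, -, -, hW5, -⟩ := WB_thm K A A v
  -- the space
  let US : Submodule K (PX K A v) :=
    { carrier := {z | Dg δ z ∧ ∀ u ∈ Λ, ren (mv u w) z = 0}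
      add_mem' := fun {a b} ha hb => ⟨(dadd δ _ _ ha.1 hb.1).1, fun u hu => by
        rw [map_add, ha.2 u hu, hb.2 u hu, add_zero]⟩
      zero_mem' := ⟨dzero δ, fun u _ => map_zero _⟩
      smul_mem' := fun a f hf => ⟨(dsmul δ a 0 f hf.1).1, fun u hu => by
        rw [map_smul, hf.2 u hu, smul_zero]⟩ }
  have hUS : ∀ f, f ∈ US ↔ (Dg δ f ∧ ∀ u ∈ Λ, ren (mv u w) f = 0) := fun _ => Iff.rfl
  have hUE : ∀ (i j : Fin v) (f : PX K A v), f ∈ US → Eij i j f ∈ US := by
    intro i j f hf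
    exact ⟨hED i j f hf.1, fun u hu => by rw [hren, hf.2 u hu, map_zero]⟩
  obtain ⟨z, hz, horth⟩ := h2 K A Unit v (∑ p, δ p)
    (US.comap (LinearMap.proj () : (Unit → PX K A v) →ₗ[K] PX K A v)) (by
      intro f hf i m hm
      have h5 : Dg δ (f ()) := hf.1
      have h6 : ∑ y, m y = ∑ p, δ p := by
        rw [Fintype.sum_prod_type]
        exact Finset.sum_congr rfl fun p _ => h5 m hm p
      exact h6.le) (fun _ => y)
  have hz' : z () ∈ US := hz
  have horth' : ∀ f ∈ US, fis (y - z ()) f = 0 := by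
    intro f hf
    have h5 := horth (fun _ => f) hf
    simpa using h5
  set y' := y - z () with hy'
  have hyD' : Dg δ y' := (dadd δ _ _ hyD hz'.1).2
  have hyx : ∀ u ∈ Λ, ren (mv u w) y' = x u := by
    intro u hu
    rw [hy', map_sub, hy u hu, hz'.2 u hu, sub_zero]
  refine ⟨y', hyD', ?_, ?_, hyx⟩
  · -- the weight
    have key : ∀ i : Fin v, Eij i i y' = (ν i : K) • y' := by
      intro i
      have hm : Eij i i y' - (ν i : K) • y' ∈ US := by
        refine ⟨(dadd δ _ _ (hED i i y' hyD') (dsmul δ _ 0 y' hyD').1).2, fun u hu => ?_⟩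
        rw [map_sub, map_smul, hren, hyx u hu, hW5 ν (x u) i (hwt u hu), sub_self]
      have h5 : fis (Eij i i y' - (ν i : K) • y') (Eij i i y' - (ν i : K) • y') = 0 := by
        rw [(fadd _ _ _).2, fE, fsmul, horth' _ (hUE i i _ hm), horth' _ hm, mul_zero, sub_zero]
      exact sub_eq_zero.1 ((fpos _).2 h5)
    intro m hm i
    exact fwt i (ν i) y' (key i) m hm
  · intro i j hij
    have hm : Eij i j y' ∈ US := by
      refine ⟨hED i j y' hyD', fun u hu => ?_⟩
      rw [hren, hyx u hu, hhw u hu i j hij]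
    have h5 : fis (Eij i j y') (Eij i j y') = 0 := by
      rw [fE, horth' _ (hUE j i _ hm)]
    exact (fpos _).2 h5

end Pool.Agent.VOP
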