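import Pool.Agent.VOP.StmtsH
import Pool.Agent.VOP.DG
import Pool.Agent.VSY.NAT
import Pool.Agent.VSY.WB

/-!
# Module N4A: the glueing of the family of the transposed copies of `m`
-/

namespace Pool.Agent.VOP

open MvPolynomial Pool.Agent.VSY

namespace N4AH

variable {K : Type} [Field K] {A : Type} {v : ℕ}

theorem mv_self [DecidableEq A] (u w : A) : mv u w u = w := by
  rw [mv, Function.update_self]

theorem mv_ne [DecidableEq A] (u w : A) {x : A} (h : x ≠ u) : mv u w x = x := by
  rw [mv, Function.update_of_ne h, id]

theorem ren_sym [Fintype A] [DecidableEq A] (δ : A → ℕ) (π : Equiv.Perm A) (f : PX K A v)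
    (h : Dg δ f) : Dg (fun b => δ (π.symm b)) (ren π f) := by
  have h1 := DG.ren_push δ π f h
  have h2 : (fun b => ∑ a ∈ Finset.univ.filter (fun a => π a = b), δ a) =
      fun b => δ (π.symm b) := by
    funext b
    have h3 : (Finset.univ.filter fun a => π a = b) = {π.symm b} := by
      ext a
      rw [Finset.mem_filter, Finset.mem_singleton]
      constructor
      · rintro ⟨-, rfl⟩
        rw [Equiv.symm_apply_apply]
      · rintro rfl
        exact ⟨Finset.mem_univ _, π.apply_symm_apply b⟩
    rw [h3, Finset.sum_singleton]
  rwa [h2] at h1

end N4AH

open N4AH in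
theorem N4A_thm : Stmt_N4A := by
  intro K _ _ v M β D A _ _ T S C w a ν m hcf haT haS haC haw hHG hm hW hE hν
  obtain ⟨hTS, hTC, hSC, hwT, hwS, hwC⟩ := hcf
  have hdm : Dg (dgc M T S C w (2 * M + 2 + β)) m := hm.cg.dg
  have hsy := hm.cg.sy
  have hcyS := hm.cyS
  have hcyC := hm.cyC
  have hda : dgc M T S C w (2 * M + 2 + β) a = 0 := by
    rw [dgc, if_neg, if_neg haC, if_neg haw]
    rw [Finset.mem_union]
    rintro (h | h)
    · exact haT h
    · exact haS h
  have hnotT : ∀ u, u ∈ S ∪ C → u ∉ insert a T := by
    intro u hu h
    rw [Finset.mem_insert] at h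
    rw [Finset.mem_union] at hu
    rcases h with rfl | h
    · rcases hu with hu | hu
      · exact haS hu
      · exact haC hu
    · rcases hu with hu | hu
      · exact (Finset.disjoint_left.1 hTS) h hu
      · exact (Finset.disjoint_left.1 hTC) h hu
  have hwa : w ≠ a := fun h => haw h.symm
  -- killing
  have hkill : ∀ u ∈ insert a T, ∀ b ∈ S ∪ C,
      ren (mv b w) (ren (Equiv.swap a u) m) = 0 := by
    intro u hu b hb
    have hbT := hnotT b hb
    have hbu : b ≠ u := fun h => hbT (h ▸ hu)
    have hba : b ≠ a := fun h => hbT (h ▸ Finset.mem_insert_self _ _)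
    have hwu : w ≠ u := by
      rintro rfl
      rcases Finset.mem_insert.1 hu with h | h
      · exact hwa h
      · exact hwT h
    have h0 : ren (mv b w) m = 0 := by
      rcases Finset.mem_union.1 hb with h | h
      · exact hcyS b h
      · exact hcyC b h
    have h1 : ren (mv b w) (ren (Equiv.swap a u) m) =
        ren (Equiv.swap a u) (ren (mv b w) m) := by
      rw [ren_ren, ren_ren]
      refine ren_congr (fun x => ?_) m
      rw [Function.comp_apply, Function.comp_apply]
      by_cases hx : x = b
      · subst hx
        rw [Equiv.swap_apply_of_ne_of_ne hba hbu, mv_self, Equiv.swap_apply_of_ne_of_ne hwa hwu]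
      · rw [mv_ne b w hx, mv_ne]
        intro h
        have h2 : x = Equiv.swap a u b := by
          rw [← h, Equiv.swap_apply_self]
        rw [Equiv.swap_apply_of_ne_of_ne hba hbu] at h2
        exact hx h2
    rw [h1, h0, map_zero]
  -- the case `u = a`
  have hca : ∀ u' ∈ T, ren (mv u' w) (ren (Equiv.swap a a) m) =
      ren (mv a w) (ren (Equiv.swap a u') m) := by
    intro u' hu'
    have hu'a : u' ≠ a := fun h => haT (h ▸ hu')
    have hu'w : u' ≠ w := fun h => hwT (h ▸ hu')
    rw [ren_ren, ren_ren]
    refine DG.ren_eq _ _ _ m (fun x hx => ?_) hdm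
    have hxa : x ≠ a := by
      rintro rfl
      exact hx hda
    rw [Function.comp_apply, Function.comp_apply, Equiv.swap_self, Equiv.refl_apply]
    by_cases hx' : x = u'
    · subst hx'
      rw [Equiv.swap_apply_right, mv_self, mv_self]
    · rw [Equiv.swap_apply_of_ne_of_ne hxa hx', mv_ne u' w hx', mv_ne a w hxa]
  have hcomp : ∀ u ∈ insert a T, ∀ u' ∈ insert a T, u ≠ u' →
      ren (mv u' w) (ren (Equiv.swap a u) m) = ren (mv u w) (ren (Equiv.swap a u') m) := by
    intro u hu u' hu' hne
    rcases Finset.mem_insert.1 hu with rfl | huT
    · rcases Finset.mem_insert.1 hu' with rfl | hu'T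
      · exact absurd rfl hne
      · exact hca u' hu'T
    · rcases Finset.mem_insert.1 hu' with rfl | hu'T
      · exact (hca u huT).symm
      · have hua : u ≠ a := fun h => haT (h ▸ huT)
        have hu'a : u' ≠ a := fun h => haT (h ▸ hu'T)
        have h1 : ren (Equiv.swap u u') m = m := hsy u huT u' hu'T
        have h2 : ren (mv u w) (ren (Equiv.swap a u') m) =
            ren (mv u w) (ren (Equiv.swap a u') (ren (Equiv.swap u u') m)) := by
          rw [h1]
        rw [h2, ren_ren, ren_ren, ren_ren]
        refine DG.ren_eq _ _ _ m (fun x hx => ?_) hdm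
        have hxa : x ≠ a := by
          rintro rfl
          exact hx hda
        simp only [Function.comp_apply]
        by_cases hx1 : x = u
        · subst hx1
          rw [Equiv.swap_apply_right, Equiv.swap_apply_left, Equiv.swap_apply_right,
            mv_ne u' w hu'a.symm, mv_ne x w hua.symm]
        · by_cases hx2 : x = u'
          · subst hx2
            rw [Equiv.swap_apply_of_ne_of_ne hxa hx1, mv_self, Equiv.swap_apply_right,
              Equiv.swap_apply_of_ne_of_ne hua hne, mv_self]
          · rw [Equiv.swap_apply_of_ne_of_ne hxa hx1, Equiv.swap_apply_of_ne_of_ne hx1 hx2,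
              Equiv.swap_apply_of_ne_of_ne hxa hx2, mv_ne u' w hx2, mv_ne u w hx1]
  obtain ⟨y, hy1, -, -, hy4⟩ := hHG A (dgc M (insert a T) S C w (M + 1 + β))
    (insert a T ∪ S ∪ C) w ν (fun u => if u ∈ insert a T then ren (Equiv.swap a u) m else 0)
    (by
      simp only [Finset.mem_union, Finset.mem_insert, not_or]
      exact ⟨⟨⟨hwa, hwT⟩, hwS⟩, hwC⟩)
    (by
      have h1 : Disjoint (insert a T) S := by
        rw [Finset.disjoint_left]
        intro x hx hxS
        exact hnotT x (Finset.mem_union_left _ hxS) hx
      have h2 : Disjoint (insert a T ∪ S) C := by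
        rw [Finset.disjoint_left]
        intro x hx hxC
        rcases Finset.mem_union.1 hx with h | h
        · exact hnotT x (Finset.mem_union_right _ hxC) h
        · exact Finset.disjoint_left.1 hSC h hxC
      rw [Finset.card_union_of_disjoint h2, Finset.card_union_of_disjoint h1,
        Finset.card_insert_of_notMem haT])
    (by
      intro u hu
      rw [dgc]
      split_ifs with h1 h2 h3
      · exact le_rfl
      · exact Nat.le_succ _
      · exact Nat.le_add_right _ _
      · exfalso
        rcases Finset.mem_union.1 hu with h | h
        · exact h1 h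
        · exact h2 h)
    (by
      rw [dgc, if_neg, if_neg hwC, if_pos rfl]
      simp only [Finset.mem_union, Finset.mem_insert, not_or]
      exact ⟨⟨hwa, hwT⟩, hwS⟩)
    (by
      intro p hp hpw
      rw [Finset.mem_union, not_or] at hp
      rw [dgc, if_neg hp.1, if_neg hp.2, if_neg hpw])
    hν
    (by
      intro u hu
      by_cases huT : u ∈ insert a T
      · rw [if_pos huT]
        have h1 := ren_sym _ (Equiv.swap a u) m hdm
        have h2 : (fun b => dgc M T S C w (2 * M + 2 + β) ((Equiv.swap a u).symm b)) =
            Function.update (Function.update (dgc M (insert a T) S C w (M + 1 + β)) u 0) w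
              (M + 1 + β + dgc M (insert a T) S C w (M + 1 + β) u) := by
          have hwu : w ≠ u := by
            rintro rfl
            rcases Finset.mem_insert.1 huT with h | h
            · exact hwa h
            · exact hwT h
          have hdu : dgc M (insert a T) S C w (M + 1 + β) u = M + 1 := by
            rw [dgc, if_pos (Finset.mem_union_left _ huT)]
          funext x
          rw [Equiv.symm_swap, hdu]
          by_cases hxw : x = w
          · subst hxw
            rw [Function.update_self, Equiv.swap_apply_of_ne_of_ne hwa hwu, dgc, if_neg,
              if_neg hwC, if_pos rfl]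
            · omega
            · rw [Finset.mem_union, not_or]
              exact ⟨hwT, hwS⟩
          · rw [Function.update_of_ne hxw]
            by_cases hxu : x = u
            · subst hxu
              rw [Function.update_self, Equiv.swap_apply_right, hda]
            · rw [Function.update_of_ne hxu]
              by_cases hxa : x = a
              · subst hxa
                have huT' : u ∈ T := by
                  rcases Finset.mem_insert.1 huT with h | h
                  · exact absurd h.symm hxu
                  · exact h
                rw [Equiv.swap_apply_left, dgc, if_pos (Finset.mem_union_left _ huT'), dgc,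
                  if_pos (Finset.mem_union_left _ (Finset.mem_insert_self _ _))]
              · rw [Equiv.swap_apply_of_ne_of_ne hxa hxu, dgc, dgc]
                have h3 : x ∈ insert a T ∪ S ↔ x ∈ T ∪ S := by
                  simp only [Finset.mem_union, Finset.mem_insert, hxa, false_or]
                simp only [h3, if_neg hxw]
        rwa [h2] at h1
      · rw [if_neg huT]
        exact DG.zero _)
    (by
      intro u hu u' hu' hne
      by_cases huT : u ∈ insert a T
      · rw [if_pos huT]
        by_cases hu'T : u' ∈ insert a T
        · rw [if_pos hu'T]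
          exact hcomp u huT u' hu'T hne
        · rw [if_neg hu'T, map_zero]
          refine hkill u huT u' ?_
          rcases Finset.mem_union.1 hu' with h | h
          · rcases Finset.mem_union.1 h with h | h
            · exact absurd h hu'T
            · exact Finset.mem_union_left _ h
          · exact Finset.mem_union_right _ h
      · rw [if_neg huT, map_zero]
        by_cases hu'T : u' ∈ insert a T
        · rw [if_pos hu'T]
          refine (hkill u' hu'T u ?_).symm
          rcases Finset.mem_union.1 hu with h | h
          · rcases Finset.mem_union.1 h with h | h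
            · exact absurd h huT
            · exact Finset.mem_union_left _ h
          · exact Finset.mem_union_right _ h
        · rw [if_neg hu'T, map_zero])
    (by
      intro u hu
      by_cases huT : u ∈ insert a T
      · rw [if_pos huT]
        exact (WB_thm K A A v).2.2.2.1 ν _ m hW
      · rw [if_neg huT]
        intro m' hm'
        simp at hm')
    (by
      intro u hu i j hij
      by_cases huT : u ∈ insert a T
      · rw [if_pos huT, ← (NAT_thm K A A v (Equiv.swap a u)).1 i j m, hE i j hij, map_zero]
      · rw [if_neg huT, map_zero])
  refine ⟨y, hy1, ?_, ?_⟩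
  · intro a' ha'
    rw [hy4 a' (Finset.mem_union_left _ (Finset.mem_union_left _ ha')), if_pos ha']
  · intro b hb
    have hb' : b ∈ insert a T ∪ S ∪ C := by
      rcases Finset.mem_union.1 hb with h | h
      · exact Finset.mem_union_left _ (Finset.mem_union_right _ h)
      · exact Finset.mem_union_right _ h
    rw [hy4 b hb', if_neg (hnotT b hb)]

end Pool.Agent.VOP
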