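import Pool.Agent.VOP.StmtsH
import Pool.Agent.VOP.DG
import Pool.Agent.VOP.SYM

/-!
# Module N4B: symmetrisation of the result of N4A
-/

namespace Pool.Agent.VOP

open MvPolynomial Pool.Agent.VSY

namespace N4BH

variable {K : Type} [Field K] {A : Type} [Fintype A] [DecidableEq A] {v : ℕ}

theorem mv_ren (b w : A) (ρ : Equiv.Perm A) (hw : ρ w = w) (f : PX K A v) :
    ren (mv b w) (ren ρ f) = ren ρ (ren (mv (ρ⁻¹ b) w) f) := by
  rw [ren_ren, ren_ren]
  refine ren_congr (fun x => ?_) f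
  simp only [Function.comp_apply, mv, Function.update_apply, id]
  by_cases h : ρ x = b
  · have h1 : x = ρ⁻¹ b := by
      rw [← h]
      exact (ρ.symm_apply_apply x).symm
    rw [if_pos h, if_pos h1, hw]
  · have h1 : ¬ x = ρ⁻¹ b := by
      intro h2
      apply h
      rw [h2]
      exact ρ.apply_symm_apply b
    rw [if_neg h, if_neg h1]

theorem mv_smz (S : Finset A) (b w : A) (hw : w ∉ S) (f : PX K A v) :
    ren (mv b w) (smz S f) = ∑ π ∈ pS S, ren π (ren (mv (π⁻¹ b) w) f) := by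
  rw [SYM.smz_def, map_sum]
  exact Finset.sum_congr rfl fun π hπ => mv_ren b w π (SYM.mem_pS.1 hπ w hw) f

theorem mv_alt (S : Finset A) (b w : A) (hw : w ∉ S) (f : PX K A v) :
    ren (mv b w) (alt S f) = ∑ π ∈ pS S, SYM.sg π • ren π (ren (mv (π⁻¹ b) w) f) := by
  rw [SYM.alt_def, map_sum]
  refine Finset.sum_congr rfl fun π hπ => ?_
  rw [map_zsmul, mv_ren b w π (SYM.mem_pS.1 hπ w hw) f]

theorem mv_smz_out (S : Finset A) (b w : A) (hw : w ∉ S) (hb : b ∉ S) (f : PX K A v) :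
    ren (mv b w) (smz S f) = smz S (ren (mv b w) f) := by
  rw [mv_smz S b w hw, SYM.smz_def]
  refine Finset.sum_congr rfl fun π hπ => ?_
  rw [SYM.mem_pS.1 (SYM.inv_mem hπ) b hb]

theorem mv_alt_out (S : Finset A) (b w : A) (hw : w ∉ S) (hb : b ∉ S) (f : PX K A v) :
    ren (mv b w) (alt S f) = alt S (ren (mv b w) f) := by
  rw [mv_alt S b w hw, SYM.alt_def]
  refine Finset.sum_congr rfl fun π hπ => ?_
  rw [SYM.mem_pS.1 (SYM.inv_mem hπ) b hb]

theorem alt_zero (S : Finset A) : alt S (0 : PX K A v) = 0 := by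
  rw [SYM.alt_def]
  refine Finset.sum_eq_zero fun π _ => ?_
  rw [map_zero, smul_zero]

theorem smz_zero (S : Finset A) : smz S (0 : PX K A v) = 0 := by
  rw [SYM.smz_def]
  refine Finset.sum_eq_zero fun π _ => ?_
  rw [map_zero]

/-- A cycle at all points of `S` stays one after alternation. -/
theorem mv_alt_in (S : Finset A) (b w : A) (hw : w ∉ S) (hb : b ∈ S) (f : PX K A v)
    (h : ∀ c ∈ S, ren (mv c w) f = 0) : ren (mv b w) (alt S f) = 0 := by
  rw [mv_alt S b w hw]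
  refine Finset.sum_eq_zero fun π hπ => ?_
  rw [h _ (SYM.maps (SYM.inv_mem hπ) hb), map_zero, smul_zero]

/-- The permutation `π * swap a (π⁻¹ a)`. -/
theorem mem_T (T : Finset A) (a : A) (π : Equiv.Perm A)
    (hπ : π ∈ pS (insert a T)) : π * Equiv.swap a (π⁻¹ a) ∈ pS T := by
  rw [SYM.mem_pS]
  intro x hx
  rw [Equiv.Perm.mul_apply]
  by_cases hxa : x = a
  · rw [hxa, Equiv.swap_apply_left]
    exact π.apply_symm_apply a
  · have h1 : x ∉ insert a T := by
      rw [Finset.mem_insert, not_or]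
      exact ⟨hxa, hx⟩
    have h2 : π⁻¹ a ∈ insert a T := SYM.maps (SYM.inv_mem hπ) (Finset.mem_insert_self _ _)
    have h3 : x ≠ π⁻¹ a := by
      intro h
      rw [← h] at h2
      exact h1 h2
    rw [Equiv.swap_apply_of_ne_of_ne hxa h3, SYM.mem_pS.1 hπ x h1]

end N4BH

open N4BH in
/-- Symmetrisation of the result of N4A. -/
theorem N4B_thm : Stmt_N4B := by
  intro K _ _ v M β A _ _ T S C w a m y hc haT haS haC haw hm hy hyU hyS
  obtain ⟨-, -, -, hS4, -, hS6, -, hS8, -⟩ := SYM_thm DG_thm K A v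
  have hUS : Disjoint (insert a T) S := by
    rw [Finset.disjoint_insert_left]
    exact ⟨haS, hc.TS⟩
  have hUC : Disjoint (insert a T) C := by
    rw [Finset.disjoint_insert_left]
    exact ⟨haC, hc.TC⟩
  have hwU : w ∉ insert a T := by
    rw [Finset.mem_insert, not_or]
    exact ⟨fun h => haw h.symm, hc.wT⟩
  set U : Finset A := insert a T with hU
  have haU : a ∈ U := Finset.mem_insert_self _ _
  have hdU : ∀ x ∈ U, ∀ z ∈ U, dgc M U S C w (M + 1 + β) x = dgc M U S C w (M + 1 + β) z := by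
    intro x hx z hz
    rw [dgc, dgc, if_pos (Finset.mem_union_left _ hx), if_pos (Finset.mem_union_left _ hz)]
  have hdS : ∀ x ∈ S, ∀ z ∈ S, dgc M U S C w (M + 1 + β) x = dgc M U S C w (M + 1 + β) z := by
    intro x hx z hz
    rw [dgc, dgc, if_pos (Finset.mem_union_right _ hx), if_pos (Finset.mem_union_right _ hz)]
  have hdC : ∀ x ∈ C, ∀ z ∈ C, dgc M U S C w (M + 1 + β) x = dgc M U S C w (M + 1 + β) z := by
    have h1 : ∀ x ∈ C, x ∉ U ∪ S := by
      intro x hx h
      rcases Finset.mem_union.1 h with h | h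
      · exact Finset.disjoint_left.1 hUC h hx
      · exact Finset.disjoint_left.1 hc.SC h hx
    intro x hx z hz
    rw [dgc, dgc, if_neg (h1 x hx), if_neg (h1 z hz), if_pos hx, if_pos hz]
  set η₀ : PX K A v := smz U (alt S (alt C y)) with hη₀
  have hdg : Dg (dgc M U S C w (M + 1 + β)) η₀ :=
    (hS8 U _ _ hdU (hS8 S _ _ hdS (hS8 C _ _ hdC hy).1).1).2
  have hsy : Sy U η₀ := SYM.sy_smz _ _
  have halS : Al S η₀ := (hS6 S U _ hUS.symm).2.2.2 (SYM.al_alt S _)
  have halC : Al C η₀ :=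
    (hS6 C U _ hUC.symm).2.2.2 ((hS6 C S _ hc.SC.symm).2.1 (SYM.al_alt C _))
  have hcS : Cy S w η₀ := by
    intro b hb
    rw [hη₀, mv_smz_out U b w hwU (fun h => Finset.disjoint_left.1 hUS h hb),
      mv_alt_in S b w hc.wS hb, smz_zero]
    intro c hcS
    rw [mv_alt_out C c w hc.wC (fun h => Finset.disjoint_left.1 hc.SC hcS h),
      hyS c (Finset.mem_union_left _ hcS), alt_zero]
  have hcC : Cy C w η₀ := by
    intro b hb
    rw [hη₀, mv_smz_out U b w hwU (fun h => Finset.disjoint_left.1 hUC h hb),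
      mv_alt_out S b w hc.wS (fun h => Finset.disjoint_left.1 hc.SC h hb),
      mv_alt_in C b w hc.wC hb, alt_zero, smz_zero]
    intro c hcC
    exact hyS c (Finset.mem_union_right _ hcC)
  set n : ℕ := U.card.factorial * S.card.factorial * C.card.factorial with hn
  have hn0 : ((n : ℕ) : K) ≠ 0 := by
    rw [Nat.cast_ne_zero, hn]
    exact Nat.mul_ne_zero (Nat.mul_ne_zero (Nat.factorial_ne_zero _) (Nat.factorial_ne_zero _))
      (Nat.factorial_ne_zero _)
  have hva : ren (mv a w) η₀ = ((n : ℕ) : K) • m := by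
    rw [hη₀, mv_smz U a w hwU]
    have h1 : ∀ π ∈ pS U, ren π (ren (mv (π⁻¹ a) w) (alt S (alt C y))) =
        ((S.card.factorial * C.card.factorial : ℕ) : K) • m := by
      intro π hπ
      have h2 : π⁻¹ a ∈ U := SYM.maps (SYM.inv_mem hπ) haU
      have hsw : Equiv.swap a (π⁻¹ a) ∈ pS U := SYM.swap_mem haU h2
      rw [mv_alt_out S _ w hc.wS (fun h => Finset.disjoint_left.1 hUS h2 h),
        mv_alt_out C _ w hc.wC (fun h => Finset.disjoint_left.1 hUC h2 h), hyU _ h2,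
        ← SYM.ren_alt (SYM.comm hUC hsw), ← SYM.ren_alt (SYM.comm hUS hsw),
        SYM.alt_al hm.cg.alC, SYM.alt_zsmul, SYM.alt_al hm.cg.alS, map_zsmul, map_zsmul,
        map_zsmul, map_zsmul, ← SYM.ren_mul,
        SYM.perm_sy hm.cg.sy (mem_T T a π hπ), smul_smul, ← Int.cast_smul_eq_zsmul K]
      congr 1
      push_cast
      ring
    rw [Finset.sum_congr rfl h1, Finset.sum_const, SYM.card_pS, ← Nat.cast_smul_eq_nsmul K,
      smul_smul, hn]
    congr 1
    push_cast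
    ring
  refine ⟨((n : ℕ) : K)⁻¹ • η₀, ⟨⟨DG.smul _ hdg, ((hS4 U η₀ η₀).2.2.2.2 _).1 hsy,
    ((hS4 S η₀ η₀).2.2.2.2 _).2 halS, ((hS4 C η₀ η₀).2.2.2.2 _).2 halC⟩, ?_, ?_⟩, ?_⟩
  · intro b hb
    rw [map_smul, hcS b hb, smul_zero]
  · intro b hb
    rw [map_smul, hcC b hb, smul_zero]
  · rw [map_smul, hva, smul_smul, inv_mul_cancel₀ hn0, one_smul]

end Pool.Agent.VOP
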