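import Pool.Agent.VOP.StmtsH

/-!
# The Ottaviani-Paoletti conjecture (MP_deb8da_ag): module PRJ (orthogonal projection)
-/

namespace Pool.Agent.VOP

open MvPolynomial Pool.Agent.VSY

namespace PRJH

/-- the spaces of families of bounded degree are finite-dimensional -/
theorem fin_dim {K : Type} [Field K] {A ι : Type} [Fintype A] [Fintype ι] {v B : ℕ}
    (U : Submodule K (ι → PX K A v))
    (hU : ∀ x ∈ U, ∀ i, ∀ m ∈ (x i).support, ∑ y, m y ≤ B) : FiniteDimensional K U := by
  classical
  set g : A × Fin v →₀ ℕ := Finsupp.equivFunOnFinite.symm fun _ => B with hg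
  have hfin : Finite (Set.Iic g) := (Set.finite_Iic g).to_subtype
  let L : U →ₗ[K] (ι → Set.Iic g → K) :=
    { toFun := fun x i m => coeff m.1 (x.1 i)
      map_add' := fun x y => by
        funext i m
        change coeff m.1 (x.1 i + y.1 i) = coeff m.1 (x.1 i) + coeff m.1 (y.1 i)
        rw [coeff_add]
      map_smul' := fun a x => by
        funext i m
        change coeff m.1 (a • x.1 i) = a * coeff m.1 (x.1 i)
        rw [coeff_smul, smul_eq_mul] }
  have hL : Function.Injective L := by
    intro x y hxy
    apply Subtype.ext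
    funext i
    ext m
    by_cases hm : m ≤ g
    · exact congrFun (congrFun hxy i) ⟨m, hm⟩
    · have h0 : ∀ z : U, coeff m (z.1 i) = 0 := by
        intro z
        by_contra hne
        apply hm
        have h1 := hU z.1 z.2 i m (mem_support_iff.2 hne)
        intro y
        rw [hg]
        exact (Finset.single_le_sum (f := fun y => m y) (fun _ _ => Nat.zero_le _)
          (Finset.mem_univ y)).trans h1
      rw [h0 x, h0 y]
  exact Module.Finite.of_injective L hL

end PRJH

/-- PRJ: orthogonal projection to a finite-dimensional space of families. -/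
theorem PRJ_thm (h1 : Stmt_FSH) : Stmt_PRJ := by
  intro K _ _ _ A ι _ _ _ v B U hU x
  obtain ⟨f1, f2, f3, f4, -⟩ := h1 K A v
  have hfd := PRJH.fin_dim U hU
  have f1r : ∀ f g h : PX K A v, fis f (g + h) = fis f g + fis f h := fun f g h => by
    rw [f3, (f1 g h f).1, f3 g f, f3 h f]
  have f2r : ∀ (a : K) (f g : PX K A v), fis f (a • g) = a * fis f g := fun a f g => by
    rw [f3, f2, f3 g f]
  let Φ : U →ₗ[K] U →ₗ[K] K := LinearMap.mk₂ K (fun z z' : U => ∑ i, fis (z.1 i) (z'.1 i))
    (fun z z' y => by
      rw [← Finset.sum_add_distrib]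
      exact Finset.sum_congr rfl fun i _ => (f1 _ _ _).1)
    (fun a z y => by
      rw [smul_eq_mul, Finset.mul_sum]
      exact Finset.sum_congr rfl fun i _ => f2 _ _ _)
    (fun z y y' => by
      rw [← Finset.sum_add_distrib]
      exact Finset.sum_congr rfl fun i _ => f1r _ _ _)
    (fun a z y => by
      rw [smul_eq_mul, Finset.mul_sum]
      exact Finset.sum_congr rfl fun i _ => f2r _ _ _)
  have hΦ : Function.Injective Φ := by
    rw [injective_iff_map_eq_zero]
    intro z hz
    have h2 : ∑ i, fis (z.1 i) (z.1 i) = 0 := LinearMap.congr_fun hz z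
    rw [Finset.sum_eq_zero_iff_of_nonneg fun i _ => (f4 (z.1 i)).1] at h2
    apply Subtype.ext
    funext i
    exact (f4 (z.1 i)).2 (h2 i (Finset.mem_univ i))
  have hsurj : Function.Surjective Φ :=
    (LinearMap.injective_iff_surjective_of_finrank_eq_finrank
      (Subspace.dual_finrank_eq (K := K) (V := U)).symm).1 hΦ
  let ψ : U →ₗ[K] K :=
    { toFun := fun z' => ∑ i, fis (x i) (z'.1 i)
      map_add' := fun y y' => by
        rw [← Finset.sum_add_distrib]
        exact Finset.sum_congr rfl fun i _ => f1r _ _ _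
      map_smul' := fun a y => by
        rw [RingHom.id_apply, smul_eq_mul, Finset.mul_sum]
        exact Finset.sum_congr rfl fun i _ => f2r _ _ _ }
  obtain ⟨z, hz⟩ := hsurj ψ
  refine ⟨z.1, z.2, fun z' hz' => ?_⟩
  have h3 : ∑ i, fis (z.1 i) (z' i) = ∑ i, fis (x i) (z' i) := LinearMap.congr_fun hz ⟨z', hz'⟩
  rw [Finset.sum_congr rfl fun i _ => (f1 (x i) (z.1 i) (z' i)).2, Finset.sum_sub_distrib, h3,
    sub_self]

end Pool.Agent.VOP
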