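import Pool.Agent.VOP.StmtsH

/-!
# The Ottaviani-Paoletti conjecture (MP_deb8da_ag): families with only one coordinate (R1)
-/

namespace Pool.Agent.VOP

open MvPolynomial Pool.Agent.VSY

namespace R1H

variable {K : Type} [Field K] {A : Type} [Fintype A] [DecidableEq A] {v : ℕ}

/-- the exponent with the degrees `d` in the coordinate `j₀` -/
noncomputable def ex (j₀ : Fin v) (d : A → ℕ) : A × Fin v →₀ ℕ :=
  Finsupp.equivFunOnFinite.symm fun y => if y.2 = j₀ then d y.1 else 0

theorem ex_apply (j₀ : Fin v) (d : A → ℕ) (y : A × Fin v) :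
    ex j₀ d y = if y.2 = j₀ then d y.1 else 0 := by
  unfold ex
  rw [Finsupp.coe_equivFunOnFinite_symm]

theorem ex_sum (j₀ : Fin v) (d : A → ℕ) (p : A) : ∑ j, ex j₀ d (p, j) = d p := by
  simp only [ex_apply]
  rw [Finset.sum_ite_eq' Finset.univ j₀ fun _ => d p]
  simp

theorem ex_inj (j₀ : Fin v) {d d' : A → ℕ} (h : ex j₀ d = ex j₀ d') : d = d' := by
  funext p
  rw [← ex_sum j₀ d p, h, ex_sum]

/-- a polynomial with only one coordinate and fixed degrees is a monomial -/
theorem eq_mono (j₀ : Fin v) (d : A → ℕ) (ν : Fin v → ℕ) (hν : ∀ j, j ≠ j₀ → ν j = 0)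
    (f : PX K A v) (hd : Dg d f) (hw : HasW ν f) :
    f = monomial (ex j₀ d) (coeff (ex j₀ d) f) := by
  have hsupp : ∀ m ∈ f.support, m = ex j₀ d := by
    intro m hm
    have h0 : ∀ j, j ≠ j₀ → ∀ p, m (p, j) = 0 := by
      intro j hj p
      have h1 := hw m hm j
      rw [hν j hj] at h1
      exact (Finset.sum_eq_zero_iff.1 h1) p (Finset.mem_univ p)
    ext ⟨p, j⟩
    rw [ex_apply]
    show m (p, j) = if j = j₀ then d p else 0
    split_ifs with h
    · rw [← hd m hm p, Finset.sum_eq_single j₀]
      · rw [h]
      · intro i _ hi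
        exact h0 i hi p
      · intro h'
        exact absurd (Finset.mem_univ _) h'
    · exact h0 j h p
  ext m
  rw [coeff_monomial]
  split_ifs with h
  · rw [h]
  · by_contra hne
    exact h (hsupp m (mem_support_iff.2 hne)).symm

theorem filter_w {u w : A} (huw : u ≠ w) :
    (Finset.univ.filter fun a => mv u w a = w) = {w, u} := by
  ext a
  simp only [Finset.mem_filter, Finset.mem_univ, true_and, Finset.mem_insert,
    Finset.mem_singleton]
  unfold mv
  constructor
  · intro h
    by_cases hau : a = u
    · exact Or.inr hau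
    · left
      rwa [Function.update_of_ne hau, id] at h
  · rintro (h | h)
    · rw [h, Function.update_of_ne huw.symm, id]
    · rw [h, Function.update_self]

theorem filter_u {u w : A} (huw : u ≠ w) :
    (Finset.univ.filter fun a => mv u w a = u) = ∅ := by
  ext a
  simp only [Finset.mem_filter, Finset.mem_univ, true_and, Finset.notMem_empty, iff_false]
  unfold mv
  intro h
  by_cases hau : a = u
  · rw [hau, Function.update_self] at h
    exact huw h.symm
  · rw [Function.update_of_ne hau, id] at h
    exact hau h

theorem filter_o {u w b : A} (hbu : b ≠ u) (hbw : b ≠ w) :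
    (Finset.univ.filter fun a => mv u w a = b) = {b} := by
  ext a
  simp only [Finset.mem_filter, Finset.mem_univ, true_and, Finset.mem_singleton]
  unfold mv
  constructor
  · intro h
    by_cases hau : a = u
    · rw [hau, Function.update_self] at h
      exact absurd h.symm hbw
    · rwa [Function.update_of_ne hau, id] at h
  · intro h
    rw [h, Function.update_of_ne hbu, id]

theorem ex_map (j₀ : Fin v) (d : A → ℕ) {u w : A} (huw : u ≠ w) :
    (ex j₀ d).mapDomain (Prod.map (mv u w) id) =
      ex j₀ (Function.update (Function.update d u 0) w (d w + d u)) := by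
  ext ⟨b, j⟩
  rw [mapDomain_deg, ex_apply]
  show _ = if j = j₀ then Function.update (Function.update d u 0) w (d w + d u) b else 0
  by_cases hbw : b = w
  · rw [hbw, filter_w huw, Function.update_self, Finset.sum_pair huw.symm, ex_apply, ex_apply]
    show (if j = j₀ then d w else 0) + (if j = j₀ then d u else 0) = _
    split_ifs <;> rfl
  · rw [Function.update_of_ne hbw]
    by_cases hbu : b = u
    · rw [hbu, filter_u huw, Function.update_self, Finset.sum_empty]
      split_ifs <;> rfl
    · rw [Function.update_of_ne hbu, filter_o hbu hbw, Finset.sum_singleton, ex_apply]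

theorem ren_mono (j₀ : Fin v) (d : A → ℕ) {u w : A} (huw : u ≠ w) (a : K) :
    ren (mv u w) (monomial (ex j₀ d) a) =
      monomial (ex j₀ (Function.update (Function.update d u 0) w (d w + d u))) a := by
  rw [ren_monomial, ex_map j₀ d huw]

theorem upd_comm (δ : A → ℕ) {u u' w : A} (huw : u ≠ w) (huw' : u' ≠ w) (h : u ≠ u') :
    Function.update (Function.update (Function.update (Function.update δ u 0) w (δ w + δ u)) u' 0)
      w (Function.update (Function.update δ u 0) w (δ w + δ u) w +
        Function.update (Function.update δ u 0) w (δ w + δ u) u') =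
    Function.update (Function.update (Function.update (Function.update δ u' 0) w (δ w + δ u')) u 0)
      w (Function.update (Function.update δ u' 0) w (δ w + δ u') w +
        Function.update (Function.update δ u' 0) w (δ w + δ u') u) := by
  rw [Function.update_self, Function.update_of_ne huw', Function.update_of_ne h.symm,
    Function.update_self, Function.update_of_ne huw, Function.update_of_ne h]
  funext b
  by_cases hbw : b = w
  · rw [hbw, Function.update_self, Function.update_self]
    omega
  · rw [Function.update_of_ne hbw, Function.update_of_ne hbw]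
    by_cases hbu : b = u
    · rw [hbu, Function.update_of_ne h, Function.update_self, Function.update_of_ne huw,
        Function.update_self]
    · by_cases hbu' : b = u'
      · rw [hbu', Function.update_self, Function.update_of_ne h.symm,
          Function.update_of_ne huw', Function.update_self]
      · rw [Function.update_of_ne hbu', Function.update_of_ne hbw, Function.update_of_ne hbu,
          Function.update_of_ne hbu, Function.update_of_ne hbw, Function.update_of_ne hbu']

end R1H

theorem R1_thm : Stmt_R1 := by
  intro K _ A _ _ v δ Λ w ν j₀ x hw hν hdg hcp hwt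
  have hne : ∀ u ∈ Λ, u ≠ w := fun u hu h => hw (h ▸ hu)
  have hx : ∀ u ∈ Λ, ∃ a : K, x u = monomial (R1H.ex j₀
      (Function.update (Function.update δ u 0) w (δ w + δ u))) a := fun u hu =>
    ⟨_, R1H.eq_mono j₀ _ ν hν (x u) (hdg u hu) (hwt u hu)⟩
  have hdgm : ∀ a : K, Dg δ (monomial (R1H.ex j₀ δ) a : PX K A v) := by
    intro a m hm p
    have h1 : m ∈ ({R1H.ex j₀ δ} : Finset (A × Fin v →₀ ℕ)) :=
      (support_monomial_subset) hm
    rw [Finset.mem_singleton.1 h1]
    exact R1H.ex_sum j₀ δ p
  rcases Λ.eq_empty_or_nonempty with h | ⟨u₀, hu₀⟩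
  · refine ⟨monomial (R1H.ex j₀ δ) 0, hdgm 0, ?_⟩
    intro u hu
    rw [h] at hu
    exact absurd hu (Finset.notMem_empty u)
  · obtain ⟨a, ha⟩ := hx u₀ hu₀
    refine ⟨monomial (R1H.ex j₀ δ) a, hdgm a, ?_⟩
    intro u hu
    rw [R1H.ren_mono j₀ δ (hne u hu)]
    by_cases huu : u = u₀
    · rw [huu, ha]
    · obtain ⟨b, hb⟩ := hx u hu
      have hc := hcp u hu u₀ hu₀ huu
      rw [hb, ha, R1H.ren_mono j₀ _ (hne u₀ hu₀), R1H.ren_mono j₀ _ (hne u hu),
        R1H.upd_comm δ (hne u hu) (hne u₀ hu₀) huu] at hc
      have hab : b = a := by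
        have h1 := congrArg (coeff (R1H.ex j₀
          (Function.update (Function.update (Function.update (Function.update δ u₀ 0) w
            (δ w + δ u₀)) u 0) w
            (Function.update (Function.update δ u₀ 0) w (δ w + δ u₀) w +
              Function.update (Function.update δ u₀ 0) w (δ w + δ u₀) u)))) hc
        rwa [coeff_monomial, coeff_monomial, if_pos rfl, if_pos rfl] at h1
      rw [hb, hab]

end Pool.Agent.VOP
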