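import Pool.Agent.VOP.StmtsH
import Pool.Agent.VSY.NAT
import Pool.Agent.VSY.WB

/-! Module SPU: the substitution `mv u w` in super polynomials. -/

set_option autoImplicit false

namespace Pool.Agent.VOP

open MvPolynomial Pool.Agent.VSY

namespace SPUH

variable {K : Type} [Field K] {A : Type} [Fintype A] [DecidableEq A] {v k : ℕ}

omit [Fintype A] in
theorem mv_self (u w : A) : mv u w u = w := by simp [mv]

omit [Fintype A] in
theorem mv_of_ne {u w x : A} (h : x ≠ u) : mv u w x = x := by simp [mv, h]

omit [Fintype A] in
theorem mv_ne {u w : A} (huw : u ≠ w) (x : A) : mv u w x ≠ u := by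
  by_cases h : x = u
  · rw [h, mv_self]
    exact fun e => huw e.symm
  · rw [mv_of_ne h]
    exact h

omit [Fintype A] in
theorem mv_comm (u u' w : A) (h : u ≠ w) (h' : u' ≠ w) : mv u' w ∘ mv u w = mv u w ∘ mv u' w := by
  funext x
  simp only [Function.comp_apply]
  by_cases h1 : x = u
  · rw [h1, mv_self]
    by_cases h2 : u = u'
    · rw [h2, mv_self]
    · rw [mv_of_ne h'.symm, mv_of_ne h2, mv_self]
  · rw [mv_of_ne h1]
    by_cases h2 : x = u'
    · rw [h2, mv_self, mv_of_ne h.symm]
    · rw [mv_of_ne h2, mv_of_ne h1]

theorem filter_w {u w : A} (huw : u ≠ w) :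
    (Finset.univ.filter fun a : A => mv u w a = w) = {u, w} := by
  ext x
  simp only [Finset.mem_filter, Finset.mem_univ, true_and, Finset.mem_insert,
    Finset.mem_singleton]
  constructor
  · intro h
    by_cases h1 : x = u
    · exact Or.inl h1
    · rw [mv_of_ne h1] at h
      exact Or.inr h
  · rintro (rfl | rfl)
    · exact mv_self _ _
    · exact mv_of_ne huw.symm

theorem filter_u {u w : A} (huw : u ≠ w) :
    (Finset.univ.filter fun a : A => mv u w a = u) = ∅ := by
  ext x
  simp [mv_ne huw x]

theorem filter_x {u w x : A} (h1 : x ≠ u) (h2 : x ≠ w) :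
    (Finset.univ.filter fun a : A => mv u w a = x) = {x} := by
  ext y
  simp only [Finset.mem_filter, Finset.mem_univ, true_and, Finset.mem_singleton]
  constructor
  · intro h
    by_cases h3 : y = u
    · rw [h3, mv_self] at h
      exact absurd h.symm h2
    · rwa [mv_of_ne h3] at h
  · rintro rfl
    exact mv_of_ne h1

theorem supp_push (φ : A → A) (h : SA K A v k) (t : Fin k → A) (m : A × Fin v →₀ ℕ)
    (hm : m ∈ (push φ h (sgl K t)).support) :
    ∃ s : Fin k → A, (∀ i, φ (s i) = t i) ∧ ∃ m' ∈ (h (sgl K s)).support,
      m'.mapDomain (Prod.map φ id) = m := by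
  rw [push_sgl] at hm
  obtain ⟨s, hs, hm1⟩ := Finset.mem_biUnion.1 (MvPolynomial.support_sum hm)
  rw [Finset.mem_filter] at hs
  exact ⟨s, fun i => congrFun hs.2 i, exists_of_mem_support_ren _ _ hm1⟩

theorem part1 {δ : A → ℕ} {u w : A} (huw : u ≠ w) (h : SA K A v k) (hh : SDg δ h) :
    SDg (Function.update (Function.update δ u 0) w (δ w + δ u)) (push (mv u w) h) := by
  intro t m hm x
  obtain ⟨s, hs, m', hm', rfl⟩ := supp_push _ _ _ _ hm
  have hd := hh s m' hm'
  rw [mapDomain_sum]
  by_cases hxw : x = w
  · subst hxw
    rw [Function.update_self, filter_w huw, Finset.sum_pair huw]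
    have h3 : (Finset.univ.filter fun i => t i = x) =
        (Finset.univ.filter fun i => s i = u) ∪ (Finset.univ.filter fun i => s i = x) := by
      ext i
      simp only [Finset.mem_filter, Finset.mem_univ, true_and, Finset.mem_union]
      rw [← hs i]
      constructor
      · intro h
        by_cases h1 : s i = u
        · exact Or.inl h1
        · rw [mv_of_ne h1] at h
          exact Or.inr h
      · rintro (h | h)
        · rw [h, mv_self]
        · rw [h, mv_of_ne huw.symm]
    have h4 : Disjoint (Finset.univ.filter fun i => s i = u)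
        (Finset.univ.filter fun i => s i = x) := by
      rw [Finset.disjoint_filter]
      intro i _ h1 h2
      exact huw (h1.symm.trans h2)
    rw [h3, Finset.card_union_of_disjoint h4]
    have h5 := hd x
    have h6 := hd u
    omega
  · rw [Function.update_of_ne hxw]
    by_cases hxu : x = u
    · subst hxu
      rw [Function.update_self, filter_u huw, Finset.sum_empty, zero_add]
      rw [Finset.card_eq_zero, Finset.filter_eq_empty_iff]
      intro i _
      rw [← hs i]
      exact mv_ne huw _
    · rw [Function.update_of_ne hxu, filter_x hxu hxw, Finset.sum_singleton]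
      have h3 : (Finset.univ.filter fun i => t i = x) =
          Finset.univ.filter fun i => s i = x := by
        ext i
        simp only [Finset.mem_filter, Finset.mem_univ, true_and]
        rw [← hs i]
        constructor
        · intro h
          by_cases h1 : s i = u
          · rw [h1, mv_self] at h
            exact absurd h.symm hxw
          · rwa [mv_of_ne h1] at h
        · rintro h
          rw [h, mv_of_ne hxu]
      rw [h3]
      exact hd x

theorem part2 (ν : Fin v → ℕ) (φ : A → A) (h : SA K A v k) (hh : SHw ν h) :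
    SHw ν (push φ h) := by
  refine ⟨fun t m hm j => ?_, fun i j hij => ?_⟩
  · obtain ⟨s, hs, m', hm', rfl⟩ := supp_push _ _ _ _ hm
    simp only [mapDomain_deg]
    rw [← hh.wt s m' hm' j]
    exact Finset.sum_fiberwise _ _ _
  · rw [← NAT.push_EA, hh.hw i j hij, push_zero]

theorem filter_t {u w : A} (t : Fin k → A) (h1 : ∀ i, t i ≠ w) (h2 : ∀ i, t i ≠ u) :
    (Finset.univ.filter fun s : Fin k → A => mv u w ∘ s = t) = {t} := by
  ext s
  simp only [Finset.mem_filter, Finset.mem_univ, true_and, Finset.mem_singleton]
  constructor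
  · intro h
    funext i
    have h3 := congrFun h i
    simp only [Function.comp_apply] at h3
    by_cases h4 : s i = u
    · rw [h4, mv_self] at h3
      exact absurd h3.symm (h1 i)
    · rwa [mv_of_ne h4] at h3
  · rintro rfl
    funext i
    exact mv_of_ne (h2 i)

end SPUH

open SPUH in
theorem SPU_thm : Stmt_SPU := by
  intro K _ A _ _ v k δ u w huw
  refine ⟨fun h hh => part1 huw h hh, fun ν h hh => part2 ν _ h hh, ?_, ?_, ?_, ?_, ?_, ?_, ?_⟩
  · intro h t h1 h2
    rw [push_sgl, filter_t t h1 h2, Finset.sum_singleton]
  · rintro h t ⟨i, hi⟩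
    rw [push_sgl]
    apply Finset.sum_eq_zero
    intro s hs
    exfalso
    have h1 := congrFun (Finset.mem_filter.1 hs).2 i
    simp only [Function.comp_apply] at h1
    rw [hi] at h1
    exact mv_ne huw _ h1
  · intro h t h0 h2 hinj
    rw [push_sgl, Finset.sum_eq_single t]
    · intro s hs hne
      have h1 : ∀ i, mv u w (s i) = t i := fun i => congrFun (Finset.mem_filter.1 hs).2 i
      have h3 : ∃ i, s i ≠ t i := by
        by_contra hcon
        push Not at hcon
        exact hne (funext hcon)
      obtain ⟨i, hi⟩ := h3
      have h4 : s i = u := by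
        by_contra hc
        exact hi ((mv_of_ne hc).symm.trans (h1 i))
      have h5 : t i = w := by rw [← h1 i, h4, mv_self]
      rw [h0 s ?_, map_zero]
      intro i' hi'
      have h6 : t i' = w := by rw [← h1 i', hi', mv_of_ne huw.symm]
      have h7 : i' = i := hinj (h6.trans h5.symm)
      rw [h7, h4] at hi'
      exact huw hi'
    · intro hn
      exfalso
      apply hn
      rw [Finset.mem_filter]
      refine ⟨Finset.mem_univ _, ?_⟩
      funext i
      exact mv_of_ne (h2 i)
  · intro h u' hu'
    rw [push_push, push_push, mv_comm u u' w huw hu']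
  · rintro h t hh ⟨i, hi⟩
    by_contra hne
    obtain ⟨m, hm⟩ := Finset.nonempty_iff_ne_empty.2 (fun e => hne (MvPolynomial.support_eq_empty.1 e))
    have h1 := hh t m hm (t i)
    rw [hi] at h1
    have h2 : 0 < (Finset.univ.filter fun i' => t i' = t i).card :=
      Finset.card_pos.2 ⟨i, by simp⟩
    omega
  · intro h h' hh hh'
    constructor
    · intro t m hm
      have h1 : (h + h') (sgl K t) = h (sgl K t) + h' (sgl K t) := rfl
      rw [h1] at hm
      rcases Finset.mem_union.1 (MvPolynomial.support_add hm) with h2 | h2
      · exact hh t m h2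
      · exact hh' t m h2
    · intro t m hm
      have h1 : (h - h') (sgl K t) = h (sgl K t) - h' (sgl K t) := rfl
      rw [h1] at hm
      rcases Finset.mem_union.1 (MvPolynomial.support_sub _ _ _ hm) with h2 | h2
      · exact hh t m h2
      · exact hh' t m h2
  · intro ν h h' hh hh'
    constructor
    · refine ⟨fun t m hm => ?_, fun i j hij => ?_⟩
      · have h1 : (h + h') (sgl K t) = h (sgl K t) + h' (sgl K t) := rfl
        rw [h1] at hm
        rcases Finset.mem_union.1 (MvPolynomial.support_add hm) with h2 | h2
        · exact hh.wt t m h2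
        · exact hh'.wt t m h2
      · have h1 : EA i j (h + h') = EA i j h + EA i j h' := by
          ext1 ξ
          exact map_add (Eij i j) (h ξ) (h' ξ)
        rw [h1, hh.hw i j hij, hh'.hw i j hij, add_zero]
    · refine ⟨fun t m hm => ?_, fun i j hij => ?_⟩
      · have h1 : (h - h') (sgl K t) = h (sgl K t) - h' (sgl K t) := rfl
        rw [h1] at hm
        rcases Finset.mem_union.1 (MvPolynomial.support_sub _ _ _ hm) with h2 | h2
        · exact hh.wt t m h2
        · exact hh'.wt t m h2
      · have h1 : EA i j (h - h') = EA i j h - EA i j h' := by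
          ext1 ξ
          exact map_sub (Eij i j) (h ξ) (h' ξ)
        rw [h1, hh.hw i j hij, hh'.hw i j hij, sub_zero]

end Pool.Agent.VOP
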