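import Pool.Agent.VOP.StmtsH

/-!
# The Ottaviani-Paoletti conjecture (MP_deb8da_ag), module STA: the components without `w`
-/

namespace Pool.Agent.VOP

open MvPolynomial Pool.Agent.VSY

namespace STAH

section

variable {A : Type} [DecidableEq A] {k : ℕ}

/-- the number of the entries `p` of `t` -/
def nu (t : Fin k → A) (p : A) : ℕ := (Finset.univ.filter fun i => t i = p).card

theorem nu_comp (t : Fin k → A) (σ : Equiv.Perm (Fin k)) (p : A) : nu (t ∘ σ) p = nu t p := by
  unfold nu
  refine Finset.card_bij (fun i _ => σ i) ?_ ?_ ?_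
  · intro i hi
    simpa using hi
  · intro i _ j _ h
    exact σ.injective h
  · intro j hj
    refine ⟨σ.symm j, ?_, by simp⟩
    simpa using hj

theorem nu_eq_zero {t : Fin k → A} {p : A} (h : ∀ i, t i ≠ p) : nu t p = 0 := by
  unfold nu
  rw [Finset.card_eq_zero, Finset.filter_eq_empty_iff]
  exact fun i _ => h i

theorem nu_le_one {t : Fin k → A} (ht : Function.Injective t) (p : A) : nu t p ≤ 1 := by
  unfold nu
  rw [Finset.card_le_one]
  intro a ha b hb
  simp only [Finset.mem_filter, Finset.mem_univ, true_and] at ha hb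
  exact ht (ha.trans hb.symm)

end

variable {K : Type} [Field K] {A : Type} [Fintype A] [DecidableEq A] {v k : ℕ}

/-- the target spaces -/
def QQ (δ : A → ℕ) (ν : Fin v → ℕ) (t : Fin k → A) : Submodule K (PX K A v) where
  carrier := {f | (∀ m ∈ f.support, ∀ p, ∑ l, m (p, l) + nu t p = δ p) ∧ HasW ν f ∧ Hw f}
  add_mem' := by
    classical
    rintro f g ⟨hf1, hf2, hf3⟩ ⟨hg1, hg2, hg3⟩
    refine ⟨fun m hm => ?_, fun m hm => ?_, fun i j hij => ?_⟩
    · rcases Finset.mem_union.1 (support_add hm) with h | h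
      · exact hf1 m h
      · exact hg1 m h
    · rcases Finset.mem_union.1 (support_add hm) with h | h
      · exact hf2 m h
      · exact hg2 m h
    · rw [map_add, hf3 i j hij, hg3 i j hij, add_zero]
  zero_mem' := by
    refine ⟨fun m hm => ?_, fun m hm => ?_, fun i j hij => ?_⟩
    · simp at hm
    · simp at hm
    · rw [map_zero]
  smul_mem' := by
    rintro a f ⟨hf1, hf2, hf3⟩
    refine ⟨fun m hm => hf1 m (support_smul hm), fun m hm => hf2 m (support_smul hm),
      fun i j hij => ?_⟩
    rw [map_smul, hf3 i j hij, smul_zero]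

theorem mem_QQ {δ : A → ℕ} {ν : Fin v → ℕ} {t : Fin k → A} {f : PX K A v} :
    f ∈ QQ δ ν t ↔ (∀ m ∈ f.support, ∀ p, ∑ l, m (p, l) + nu t p = δ p) ∧ HasW ν f ∧ Hw f :=
  Iff.rfl

theorem QQ_comp (δ : A → ℕ) (ν : Fin v → ℕ) (t : Fin k → A) (σ : Equiv.Perm (Fin k)) :
    (QQ δ ν (t ∘ σ) : Submodule K (PX K A v)) = QQ δ ν t := by
  ext f
  rw [mem_QQ, mem_QQ]
  simp only [nu_comp]

end STAH

open STAH in
theorem STA_thm (h1 : Stmt_CST) (h2 : Stmt_SPU) : Stmt_STA := by
  intro K _ _ _ v N k D A _ _ δ Λ w ν c hN hw hΛ hδ hν hG hc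
  have hcz : CharZero K := IsStrictOrderedRing.toCharZero
  have hnw : ∀ u ∈ Λ, u ≠ w := fun u hu h => hw (h ▸ hu)
  -- the solutions for the single tuples
  have hex : ∀ t : Fin k → A, ∃ y : PX K A v,
      (Function.Injective t → (∀ i, t i ∈ Λ) → y ∈ QQ δ ν t ∧
        ∀ u ∈ Λ, (∀ i, t i ≠ u) → ren (mv u w) y = c u (sgl K t)) ∧
      (¬ (Function.Injective t ∧ ∀ i, t i ∈ Λ) → y = 0) := by
    intro t
    by_cases h : Function.Injective t ∧ ∀ i, t i ∈ Λ
    swap
    · exact ⟨0, fun h3 h4 => absurd ⟨h3, h4⟩ h, fun _ => rfl⟩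
    obtain ⟨hinj, hmem⟩ := h
    have htw : ∀ i, t i ≠ w := fun i => hnw _ (hmem i)
    have himg : Finset.univ.image t ⊆ Λ := by
      intro z hz
      obtain ⟨i, _, rfl⟩ := Finset.mem_image.1 hz
      exact hmem i
    have hcard : (Finset.univ.image t).card = k := by
      rw [Finset.card_image_of_injective _ hinj, Finset.card_univ, Fintype.card_fin]
    have hk : k ≤ Λ.card := by
      rw [← hcard]
      exact Finset.card_le_card himg
    have hfil : Λ.filter (fun u => ∀ i, t i ≠ u) = Λ \ Finset.univ.image t := by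
      ext u
      simp only [Finset.mem_filter, Finset.mem_sdiff, Finset.mem_image, Finset.mem_univ,
        true_and, not_exists, ne_eq]
    have hmL : ∀ u, u ∈ Λ.filter (fun u => ∀ i, t i ≠ u) ↔ u ∈ Λ ∧ ∀ i, t i ≠ u := fun u => by
      rw [Finset.mem_filter]
    have hfam : Fam (fun p => δ p - nu t p) (Λ.filter (fun u => ∀ i, t i ≠ u)) w ν
        (fun u => c u (sgl K t)) := by
      refine ⟨?_, ?_, ?_, ?_⟩
      · intro u hu m hm p
        rw [hmL] at hu
        have h3 := hc.dg u hu.1 t m hm p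
        change _ + nu t p = _ at h3
        have hnw' := hnw u hu.1
        by_cases hpw : p = w
        · subst hpw
          rw [Function.update_self] at h3 ⊢
          rw [nu_eq_zero htw, nu_eq_zero hu.2]
          rw [nu_eq_zero htw] at h3
          omega
        · rw [Function.update_of_ne hpw] at h3 ⊢
          by_cases hpu : p = u
          · subst hpu
            rw [Function.update_self] at h3 ⊢
            omega
          · rw [Function.update_of_ne hpu] at h3 ⊢
            omega
      · intro u hu u' hu' huu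
        rw [hmL] at hu hu'
        have h3 := (h2 K A v k δ u' w (hnw u' hu'.1)).2.2.1 (c u) t htw hu'.2
        have h4 := (h2 K A v k δ u w (hnw u hu.1)).2.2.1 (c u') t htw hu.2
        rw [← h3, ← h4, hc.cp u hu.1 u' hu'.1 huu]
      · intro u hu
        rw [hmL] at hu
        exact (hc.hw u hu.1).wt t
      · intro u hu i j hij
        rw [hmL] at hu
        have h3 := (hc.hw u hu.1).hw i j hij
        have h4 := congrArg (fun g : SA K A v k => g (sgl K t)) h3
        exact h4
    obtain ⟨y, hy1, hy2, hy3, hy4⟩ := hG hk A (fun p => δ p - nu t p)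
      (Λ.filter (fun u => ∀ i, t i ≠ u)) w ν (fun u => c u (sgl K t))
      (fun h => hw (Finset.mem_of_mem_filter _ h))
      (by rw [hfil, Finset.card_sdiff_of_subset himg, hcard])
      (fun u hu => by
        rw [hmL] at hu
        rw [nu_eq_zero hu.2, Nat.sub_zero]
        exact hΛ u hu.1)
      (by simp only [nu_eq_zero htw, Nat.sub_zero]) hν hfam
    refine ⟨y, fun _ _ => ⟨⟨fun m hm p => ?_, hy2, hy3⟩, fun u hu hut => ?_⟩, fun h => ?_⟩
    · rw [hy1 m hm p]
      change δ p - nu t p + nu t p = δ p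
      by_cases hp : p ∈ Λ
      · have h3 := nu_le_one hinj p
        have h4 := hΛ p hp
        omega
      · have h3 : nu t p = 0 := nu_eq_zero fun i hi => hp (hi ▸ hmem i)
        rw [h3, Nat.sub_zero, add_zero]
    · exact hy4 u ((hmL u).2 ⟨hu, hut⟩)
    · exact absurd ⟨hinj, hmem⟩ h
  choose y hy1 hy2 using hex
  obtain ⟨h, hQ, hsum⟩ := h1 K A v k (QQ δ ν) y (fun t σ => QQ_comp δ ν t σ)
    (fun t => by
      by_cases ht : Function.Injective t ∧ ∀ i, t i ∈ Λ
      · exact (hy1 t ht.1 ht.2).1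
      · rw [hy2 t ht]
        exact Submodule.zero_mem _)
    (fun t ht => hy2 t fun h => ht h.1)
  have hSD : SDg δ h := fun t m hm p => (hQ t).1 m hm p
  have hSH : SHw ν h := by
    refine ⟨fun t => (hQ t).2.1, fun i j hij => ?_⟩
    refine SA_ext fun t => ?_
    exact (hQ t).2.2 i j hij
  refine ⟨h, hSD, hSH, ⟨?_, ?_, ?_⟩, ?_⟩
  · intro u hu
    exact ((h2 K A v k (Function.update (Function.update δ u 0) w (δ w + δ u)) u w
      (hnw u hu)).2.2.2.2.2.2.2.1 _ _ (hc.dg u hu)
      ((h2 K A v k δ u w (hnw u hu)).1 h hSD)).2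
  · intro u hu u' hu' huu
    rw [push_sub, push_sub, hc.cp u hu u' hu' huu,
      (h2 K A v k δ u w (hnw u hu)).2.2.2.2.2.1 h u' (hnw u' hu')]
  · intro u hu
    exact ((h2 K A v k δ u w (hnw u hu)).2.2.2.2.2.2.2.2 ν _ _ (hc.hw u hu)
      ((h2 K A v k δ u w (hnw u hu)).2.1 ν h hSH)).2
  · intro u hu t htw
    have huw := hnw u hu
    have hS := h2 K A v k δ u w huw
    have hS' := h2 K A v k (Function.update (Function.update δ u 0) w (δ w + δ u)) u w huw
    rw [AlternatingMap.sub_apply, sub_eq_zero]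
    by_cases hinj : Function.Injective t
    swap
    · rw [sgl_eq_zero _ t hinj, sgl_eq_zero _ t hinj]
    by_cases htu : ∃ i, t i = u
    · rw [hS.2.2.2.1 h t htu]
      obtain ⟨i, hi⟩ := htu
      refine hS'.2.2.2.2.2.2.1 (c u) t (hc.dg u hu) ⟨i, ?_⟩
      rw [hi, Function.update_of_ne huw, Function.update_self]
    · have htu' : ∀ i, t i ≠ u := fun i hi => htu ⟨i, hi⟩
      rw [hS.2.2.1 h t htw htu']
      by_cases hmem : ∀ i, t i ∈ Λ
      · have h3 : (k.factorial : K) • ren (mv u w) (h (sgl K t)) =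
            (k.factorial : K) • c u (sgl K t) := by
          rw [← map_smul, hsum t, map_sum]
          have h4 : ∀ σ : Equiv.Perm (Fin k),
              ren (mv u w) (((Equiv.Perm.sign σ : ℤˣ) : ℤ) • y (t ∘ σ)) = c u (sgl K t) := by
            intro σ
            have h5 := (hy1 (t ∘ σ) (hinj.comp σ.injective) (fun i => hmem (σ i))).2 u hu
              (fun i => htu' (σ i))
            rw [map_zsmul, h5, sgl_perm, smul_smul]
            have h6 : ((Equiv.Perm.sign σ : ℤˣ) : ℤ) * ((Equiv.Perm.sign σ : ℤˣ) : ℤ) = 1 := by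
              rw [← Units.val_mul, Int.units_mul_self, Units.val_one]
            rw [h6, one_smul]
          rw [Finset.sum_congr rfl fun σ _ => h4 σ, Finset.sum_const, Finset.card_univ,
            Fintype.card_perm, Fintype.card_fin, Nat.cast_smul_eq_nsmul]
        have h7 : (k.factorial : K) ≠ 0 := by exact_mod_cast k.factorial_ne_zero
        exact (smul_right_injective _ h7 h3).symm
      · push Not at hmem
        obtain ⟨i, hi⟩ := hmem
        have h3 : δ (t i) = 0 := hδ _ hi (htw i)
        rw [hS.2.2.2.2.2.2.1 h t hSD ⟨i, h3⟩, map_zero]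
        refine hS'.2.2.2.2.2.2.1 (c u) t (hc.dg u hu) ⟨i, ?_⟩
        rw [Function.update_of_ne (htw i), Function.update_of_ne (htu' i), h3]

end Pool.Agent.VOP
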