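import Pool.Agent.VOP.StmtsH

/-!
# The Ottaviani-Paoletti conjecture (MP_deb8da_ag): module STB
-/

namespace Pool.Agent.VOP

open MvPolynomial Pool.Agent.VSY

namespace STBH

variable {K : Type} [Field K] {A : Type} [Fintype A] [DecidableEq A] {v k : ℕ}

/-- the number of the indices `i` with `t i = p` -/
def cnt (t : Fin k → A) (p : A) : ℕ := (Finset.univ.filter fun i => t i = p).card

theorem cnt_comp (t : Fin k → A) (σ : Equiv.Perm (Fin k)) (p : A) : cnt (t ∘ σ) p = cnt t p := by
  unfold cnt
  refine Finset.card_bij' (fun i _ => σ i) (fun i _ => σ.symm i) ?_ ?_ ?_ ?_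
  · intro i hi
    rw [Finset.mem_filter] at hi ⊢
    exact ⟨Finset.mem_univ _, hi.2⟩
  · intro i hi
    rw [Finset.mem_filter] at hi ⊢
    refine ⟨Finset.mem_univ _, ?_⟩
    rw [Function.comp_apply, Equiv.apply_symm_apply]
    exact hi.2
  · intro i _
    exact σ.symm_apply_apply i
  · intro i _
    exact σ.apply_symm_apply i

theorem cnt_zero {t : Fin k → A} {p : A} (h : ∀ i, t i ≠ p) : cnt t p = 0 := by
  unfold cnt
  rw [Finset.card_eq_zero, Finset.filter_eq_empty_iff]
  intro i _
  exact h i

theorem cnt_one {t : Fin k → A} (ht : Function.Injective t) {p : A} (h : ∃ i, t i = p) :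
    cnt t p = 1 := by
  obtain ⟨i, rfl⟩ := h
  unfold cnt
  rw [Finset.card_eq_one]
  refine ⟨i, ?_⟩
  ext j
  rw [Finset.mem_filter, Finset.mem_singleton]
  constructor
  · rintro ⟨-, h⟩
    exact ht h
  · rintro rfl
    exact ⟨Finset.mem_univ _, rfl⟩

/-- good tuples -/
structure Gd (Λ : Finset A) (w : A) (t : Fin k → A) : Prop where
  inj : Function.Injective t
  hw : ∃ i, t i = w
  sub : ∀ i, t i ∈ insert w Λ

theorem Gd.comp {Λ : Finset A} {w : A} {t : Fin k → A} (h : Gd Λ w t) (σ : Equiv.Perm (Fin k)) :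
    Gd Λ w (t ∘ σ) := by
  refine ⟨h.inj.comp σ.injective, ?_, fun i => h.sub (σ i)⟩
  obtain ⟨i, hi⟩ := h.hw
  exact ⟨σ.symm i, by rw [Function.comp_apply, Equiv.apply_symm_apply, hi]⟩

/-- the remaining points -/
def Lt (Λ : Finset A) (t : Fin k → A) : Finset A := Λ.filter fun u => ∀ i, t i ≠ u

theorem mem_Lt {Λ : Finset A} {t : Fin k → A} {u : A} : u ∈ Lt Λ t ↔ u ∈ Λ ∧ ∀ i, t i ≠ u := by
  rw [Lt, Finset.mem_filter]

theorem card_Lt {Λ : Finset A} {w : A} {t : Fin k → A} (hw : w ∉ Λ) (h : Gd Λ w t) :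
    k ≤ Λ.card + 1 ∧ (Lt Λ t).card = Λ.card + 1 - k := by
  have h1 : Lt Λ t = insert w Λ \ Finset.univ.image t := by
    ext u
    rw [mem_Lt, Finset.mem_sdiff, Finset.mem_insert, Finset.mem_image]
    constructor
    · rintro ⟨h2, h3⟩
      refine ⟨Or.inr h2, ?_⟩
      rintro ⟨i, -, hi⟩
      exact h3 i hi
    · rintro ⟨h2, h3⟩
      have h4 : ∀ i, t i ≠ u := fun i hi => h3 ⟨i, Finset.mem_univ _, hi⟩
      refine ⟨?_, h4⟩
      rcases h2 with rfl | h2
      · obtain ⟨i, hi⟩ := h.hw
        exact absurd hi (h4 i)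
      · exact h2
  have h2 : Finset.univ.image t ⊆ insert w Λ := by
    intro u hu
    rw [Finset.mem_image] at hu
    obtain ⟨i, -, rfl⟩ := hu
    exact h.sub i
  have h3 : (Finset.univ.image t).card = k := by
    rw [Finset.card_image_of_injective _ h.inj, Finset.card_univ, Fintype.card_fin]
  have h4 : (insert w Λ).card = Λ.card + 1 := Finset.card_insert_of_notMem hw
  constructor
  · rw [← h3, ← h4]
    exact Finset.card_le_card h2
  · rw [h1, Finset.card_sdiff_of_subset h2, h3, h4]

/-- the space of the component at `t` -/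
def Qs (K : Type) [Field K] {A : Type} [Fintype A] [DecidableEq A] {v k : ℕ} (δ : A → ℕ)
    (t : Fin k → A) : Submodule K (PX K A v) where
  carrier := {f | ∀ m ∈ f.support, ∀ p, ∑ l, m (p, l) + cnt t p = δ p}
  zero_mem' := by
    intro m hm
    simp at hm
  add_mem' := by
    classical
    intro f g hf hg m hm
    rcases Finset.mem_union.1 (support_add hm) with h | h
    · exact hf m h
    · exact hg m h
  smul_mem' := by
    intro a f hf m hm
    exact hf m (support_smul hm)

theorem mem_Qs {δ : A → ℕ} {t : Fin k → A} {f : PX K A v} :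
    f ∈ Qs K δ t ↔ ∀ m ∈ f.support, ∀ p, ∑ l, m (p, l) + cnt t p = δ p := Iff.rfl

theorem Qs_comp (δ : A → ℕ) (t : Fin k → A) (σ : Equiv.Perm (Fin k)) :
    (Qs K δ (t ∘ σ) : Submodule K (PX K A v)) = Qs K δ t := by
  ext f
  rw [mem_Qs, mem_Qs]
  simp only [cnt_comp]

end STBH

open STBH in
theorem STB_thm (h1 : Stmt_CST) (h2 : Stmt_SPU) : Stmt_STB := by
  intro K _ _ _ v N k D A _ _ δ Λ w ν c hN1 hw hN h0 hD hdw hHG hS hz
  classical
  -- the degrees
  have hdeg : ∀ u ∈ Λ, ∀ t : Fin k → A, ∀ m ∈ (c u (sgl K t)).support, ∀ x,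
      ∑ l, m (x, l) + cnt t x = Function.update (Function.update δ u 0) w (δ w + δ u) x := by
    intro u hu t m hm x
    exact hS.dg u hu t m hm x
  have huw : ∀ u ∈ Λ, u ≠ w := by
    rintro u hu rfl
    exact hw hu
  -- the components
  have hex : ∀ t : Fin k → A, Gd Λ w t → ∃ y : PX K A v,
      Dg (fun p => δ p - cnt t p) y ∧ ∀ u ∈ Lt Λ t, ren (mv u w) y = c u (sgl K t) := by
    intro t ht
    obtain ⟨hk, hcard⟩ := card_Lt hw ht
    have hcw : cnt t w = 1 := cnt_one ht.inj ht.hw
    have hfam : Fam (fun p => δ p - cnt t p) (Lt Λ t) w ν (fun u => c u (sgl K t)) := by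
      refine ⟨?_, ?_, ?_, ?_⟩
      · intro u hu m hm x
        rw [mem_Lt] at hu
        have h3 := hdeg u hu.1 t m hm x
        have hcu : cnt t u = 0 := cnt_zero hu.2
        by_cases hxw : x = w
        · subst hxw
          rw [Function.update_self] at h3 ⊢
          rw [hcw] at h3 ⊢
          rw [hcu]
          omega
        · rw [Function.update_of_ne hxw] at h3 ⊢
          by_cases hxu : x = u
          · subst hxu
            rw [Function.update_self] at h3 ⊢
            omega
          · rw [Function.update_of_ne hxu] at h3 ⊢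
            omega
      · intro u hu u' hu' hne
        rw [mem_Lt] at hu hu'
        have h3 := hS.cp u hu.1 u' hu'.1 hne
        have h4 := (h2 K A v k δ u' w (huw u' hu'.1)).2.2.2.2.1 (c u) t (hz u hu.1) hu'.2 ht.inj
        have h5 := (h2 K A v k δ u w (huw u hu.1)).2.2.2.2.1 (c u') t (hz u' hu'.1) hu.2 ht.inj
        rw [← h4, ← h5, h3]
      · intro u hu
        rw [mem_Lt] at hu
        exact (hS.hw u hu.1).wt t
      · intro u hu i j hij
        rw [mem_Lt] at hu
        have h3 := (hS.hw u hu.1).hw i j hij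
        have h4 := congrArg (fun z : SA K A v k => z (sgl K t)) h3
        exact h4
    obtain ⟨y, hy1, -, -, hy4⟩ := hHG hk A (fun p => δ p - cnt t p) (Lt Λ t) w ν
      (fun u => c u (sgl K t)) (fun h => hw (mem_Lt.1 h).1) hcard
      (by
        intro u hu
        rw [mem_Lt] at hu
        change N ≤ δ u - cnt t u
        rw [cnt_zero hu.2]
        exact hN u hu.1)
      (by
        change δ w - cnt t w = δ w - 1
        rw [hcw]) hD hfam
    exact ⟨y, hy1, hy4⟩
  -- the family
  let y : (Fin k → A) → PX K A v := fun t => if ht : Gd Λ w t then (hex t ht).choose else 0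
  have hy0 : ∀ t, ¬ Gd Λ w t → y t = 0 := fun t ht => dif_neg ht
  have hy1 : ∀ t, Gd Λ w t → Dg (fun p => δ p - cnt t p) (y t) ∧
      ∀ u ∈ Lt Λ t, ren (mv u w) (y t) = c u (sgl K t) := by
    intro t ht
    have h3 : y t = (hex t ht).choose := dif_pos ht
    rw [h3]
    exact (hex t ht).choose_spec
  have hyQ : ∀ t, y t ∈ Qs K δ t := by
    intro t
    by_cases ht : Gd Λ w t
    · rw [mem_Qs]
      intro m hm p
      have h3 : ∑ l, m (p, l) = δ p - cnt t p := (hy1 t ht).1 m hm p
      rw [h3]
      by_cases hp : ∃ i, t i = p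
      · rw [cnt_one ht.inj hp]
        obtain ⟨i, rfl⟩ := hp
        have h4 := ht.sub i
        rw [Finset.mem_insert] at h4
        rcases h4 with h4 | h4
        · rw [h4]
          omega
        · have := hN _ h4
          omega
      · push Not at hp
        rw [cnt_zero hp]
        omega
    · rw [hy0 t ht]
      exact Submodule.zero_mem _
  obtain ⟨h, hh1, hh2⟩ := h1 K A v k (Qs K δ) y (fun t σ => Qs_comp δ t σ) hyQ
    (fun t ht => hy0 t fun hg => ht hg.inj)
  have hfac : ((k.factorial : ℕ) : K) ≠ 0 := Nat.cast_ne_zero.2 (Nat.factorial_ne_zero k)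
  have hSDg : SDg δ h := fun t m hm x => hh1 t m hm x
  have hnw : ∀ t : Fin k → A, (∀ i, t i ≠ w) → h (sgl K t) = 0 := by
    intro t ht
    have h3 := hh2 t
    rw [Finset.sum_eq_zero] at h3
    · exact (smul_eq_zero.1 h3).resolve_left hfac
    · intro σ _
      rw [hy0 (t ∘ σ), smul_zero]
      intro hg
      obtain ⟨i, hi⟩ := hg.hw
      exact ht (σ i) hi
  refine ⟨h, hSDg, ?_⟩
  intro u hu
  have huw' := huw u hu
  refine SA_ext fun t => ?_
  by_cases hti : Function.Injective t
  · by_cases htu : ∃ i, t i = u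
    · rw [(h2 K A v k δ u w huw').2.2.2.1 h t htu]
      symm
      refine (h2 K A v k (Function.update (Function.update δ u 0) w (δ w + δ u)) u w
        huw').2.2.2.2.2.2.1 (c u) t (hS.dg u hu) ?_
      obtain ⟨i, hi⟩ := htu
      refine ⟨i, ?_⟩
      rw [hi, Function.update_of_ne huw', Function.update_self]
    · push Not at htu
      rw [(h2 K A v k δ u w huw').2.2.2.2.1 h t hnw htu hti]
      by_cases htw : ∃ i, t i = w
      · by_cases hsub : ∀ i, t i ∈ insert w Λ
        · have hg : Gd Λ w t := ⟨hti, htw, hsub⟩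
          have h3 := congrArg (ren (mv u w)) (hh2 t)
          rw [map_smul, map_sum] at h3
          have h4 : ∀ σ : Equiv.Perm (Fin k),
              ren (mv u w) (((Equiv.Perm.sign σ : ℤˣ) : ℤ) • y (t ∘ σ)) = c u (sgl K t) := by
            intro σ
            rw [map_zsmul, (hy1 (t ∘ σ) (hg.comp σ)).2 u, sgl_perm, smul_smul]
            · have h5 : ((Equiv.Perm.sign σ : ℤˣ) : ℤ) * ((Equiv.Perm.sign σ : ℤˣ) : ℤ) = 1 := by
                rw [← Units.val_mul, Int.units_mul_self]
                rfl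
              rw [h5, one_smul]
            · rw [mem_Lt]
              exact ⟨hu, fun i => htu (σ i)⟩
          rw [Finset.sum_congr rfl fun σ _ => h4 σ, Finset.sum_const, Finset.card_univ,
            Fintype.card_perm, Fintype.card_fin, ← Nat.cast_smul_eq_nsmul K] at h3
          exact smul_right_injective _ hfac h3
        · push Not at hsub
          obtain ⟨i, hi⟩ := hsub
          rw [Finset.mem_insert] at hi
          push Not at hi
          have hd0 : δ (t i) = 0 := h0 _ hi.2 hi.1
          have h3 : h (sgl K t) = 0 :=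
            (h2 K A v k δ u w huw').2.2.2.2.2.2.1 h t hSDg ⟨i, hd0⟩
          have h4 : c u (sgl K t) = 0 :=
            (h2 K A v k (Function.update (Function.update δ u 0) w (δ w + δ u)) u w
              huw').2.2.2.2.2.2.1 (c u) t (hS.dg u hu)
              ⟨i, by rw [Function.update_of_ne hi.1, Function.update_of_ne (htu i), hd0]⟩
          rw [h3, h4, map_zero]
      · push Not at htw
        rw [hnw t htw, hz u hu t htw, map_zero]
  · rw [sgl_eq_zero _ _ hti, sgl_eq_zero _ _ hti]

end Pool.Agent.VOP
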