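import Pool.Agent.VOP.StmtsH
import Pool.Agent.VSY.REL
import Pool.Agent.VSY.CAPM
import Pool.Agent.VSY.OPS

/-!
# The Ottaviani-Paoletti conjecture (MP_deb8da_ag): YLD, `yL L g` is a highest weight vector
-/

set_option autoImplicit false
set_option linter.unusedSectionVars false

namespace Pool.Agent.VOP

open MvPolynomial Pool.Agent.VSY

namespace YLDH

variable {K : Type} [Field K] {A : Type} [Fintype A] [DecidableEq A] {v : ℕ}

theorem dd_comm (i j : Fin v) (ξ η : A → K) (f : PX K A v) :
    dd i ξ (dd j η f) = dd j η (dd i ξ f) := by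
  rw [REL.dd_apply, REL.dd_apply, REL.dd_apply, REL.dd_apply]
  simp only [map_sum, Finset.smul_sum]
  rw [Finset.sum_comm]
  refine Finset.sum_congr rfl fun x _ => Finset.sum_congr rfl fun y _ => ?_
  rw [Derivation.map_smul, Derivation.map_smul, smul_comm, REL.pd_comm]

/-- the bilinear map `(ξ, η) ↦ dd i ξ (dd j η c)` -/
noncomputable def D2 {k : ℕ} (i j : Fin v) (c : SA K A v k) :
    (A → K) →ₗ[K] (A → K) →ₗ[K] SA K A v k where
  toFun := fun ξ =>
    { toFun := fun η => (dd i ξ).compAlternatingMap ((dd j η).compAlternatingMap c)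
      map_add' := fun η ζ => by ext; simp
      map_smul' := fun a η => by ext; simp }
  map_add' := fun ξ ζ => by ext; simp
  map_smul' := fun a ξ => by ext; simp

theorem D2_apply {k : ℕ} (i j : Fin v) (c : SA K A v k) (ξ η : A → K) (s : Fin k → A → K) :
    D2 i j c ξ η s = dd i ξ (dd j η (c s)) := rfl

theorem Dop_Dop {k : ℕ} (i j : Fin v) (c : SA K A v k) :
    Dop i (Dop j c) = AlternatingMap.alternatizeUncurryFin
      (AlternatingMap.alternatizeUncurryFinLM ∘ₗ D2 i j c) := by
  ext1 s
  rw [REL.Dop_apply, AlternatingMap.alternatizeUncurryFin_apply]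
  refine Finset.sum_congr rfl fun p _ => ?_
  rw [REL.Dop_apply]
  congr 1
  rw [map_sum]
  change _ = (AlternatingMap.alternatizeUncurryFin (D2 i j c (s p))) (p.removeNth s)
  rw [AlternatingMap.alternatizeUncurryFin_apply]
  refine Finset.sum_congr rfl fun q _ => ?_
  rw [map_zsmul]
  rfl

theorem Dop_anti {k : ℕ} (i j : Fin v) (c : SA K A v k) :
    Dop i (Dop j c) + Dop j (Dop i c) = 0 := by
  have h := AlternatingMap.alternatizeUncurryFin_alternatizeUncurryFinLM_comp_of_symmetric
    (f := D2 i j c + D2 j i c) (by
      intro ξ η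
      ext1 s
      change D2 i j c ξ η s + D2 j i c ξ η s = D2 i j c η ξ s + D2 j i c η ξ s
      rw [D2_apply, D2_apply, D2_apply, D2_apply, dd_comm i j ξ η, dd_comm j i ξ η, add_comm])
  rw [LinearMap.comp_add, AlternatingMap.alternatizeUncurryFin_add] at h
  rw [Dop_Dop, Dop_Dop]
  exact h

theorem Dop_zero {k : ℕ} (j : Fin v) : Dop j (0 : SA K A v k) = 0 := by
  have h := OPS.Dop_zsmul (K := K) (A := A) (k := k) j 0 0
  rwa [zero_smul, zero_smul] at h

theorem Dop_yL [CharZero K] (j : Fin v) (g : PX K A v) : ∀ L : List (Fin v),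
    (j ∈ L ∨ ∀ x : A, pderiv (x, j) g = 0) → Dop j (yL L g) = 0 := by
  intro L
  induction L with
  | nil =>
    intro h
    have h' : ∀ x : A, pderiv (x, j) g = 0 := by
      rcases h with h | h
      · exact absurd h List.not_mem_nil
      · exact h
    ext1 s
    rw [REL.Dop_apply]
    refine Finset.sum_eq_zero fun p _ => ?_
    have e : (yL ([] : List (Fin v)) g) (p.removeNth s) = g := rfl
    rw [e, REL.dd_apply, Finset.sum_eq_zero, smul_zero]
    intro x _
    rw [h' x, smul_zero]
  | cons l L ih =>
    intro h
    change Dop j (Dop l (yL L g)) = 0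
    by_cases hjl : j = l
    · subst hjl
      have h1 := Dop_anti j j (yL L g)
      have h2 : (2 : K) • Dop j (Dop j (yL L g)) = 0 := by
        rw [two_smul]
        exact h1
      exact (smul_eq_zero.mp h2).resolve_left two_ne_zero
    · have h1 := Dop_anti j l (yL L g)
      rw [ih (h.imp_left fun h => (List.mem_cons.mp h).resolve_left hjl), Dop_zero, add_zero] at h1
      exact h1

theorem part1 [CharZero K] (i j : Fin v) (hij : i < j) (g : PX K A v) (hg : Eij i j g = 0) :
    ∀ L : List (Fin v), L.Pairwise (· < ·) → (j ∈ L ∨ ∀ x : A, pderiv (x, j) g = 0) →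
      EA i j (yL L g) = 0 := by
  intro L
  induction L with
  | nil =>
    intro _ _
    rw [CAPM.EA_yL REL_thm i j g [] List.not_mem_nil, hg]
    exact OPS.yL_zero []
  | cons l L ih =>
    intro hL hj
    rw [List.pairwise_cons] at hL
    by_cases hi : i ∈ l :: L
    · have h4 := (REL_thm K A v i j l).2.2.2 L.length (yL L g)
      change EA i j (Dop l (yL L g)) = 0
      by_cases hl : l = i
      · have hi' : i ∉ L := fun h => by
          have := hL.1 i h
          rw [hl] at this
          exact lt_irrefl _ this
        have h5 : EA i j (yL L g) = 0 := by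
          rw [CAPM.EA_yL REL_thm i j g L hi', hg]
          exact OPS.yL_zero L
        have h6 : Dop j (yL L g) = 0 := by
          refine Dop_yL j g L (hj.imp_left fun h => ?_)
          rcases List.mem_cons.mp h with h | h
          · exact absurd (h.trans hl) hij.ne'
          · exact h
        rw [h5, h6, Dop_zero, smul_zero, add_zero] at h4
        exact h4.symm
      · have hi' : i ∈ L := (List.mem_cons.mp hi).resolve_left fun h => hl h.symm
        have hli := hL.1 i hi'
        have h5 : EA i j (yL L g) = 0 := by
          refine ih hL.2 (hj.imp_left fun h => ?_)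
          rcases List.mem_cons.mp h with h | h
          · exact absurd h (hli.trans hij).ne'
          · exact h
        rw [h5, Dop_zero, if_neg hl, zero_smul, add_zero] at h4
        exact h4.symm
    · rw [CAPM.EA_yL REL_thm i j g (l :: L) hi, hg]
      exact OPS.yL_zero (l :: L)

theorem part2 (ν : Fin v → ℕ) (g : PX K A v) (hg : HasW ν g) : ∀ L : List (Fin v),
    ∀ t, ∀ m ∈ (yL L g (sgl K t)).support, ∀ l, ∑ x, m (x, l) + L.count l = ν l := by
  intro L
  induction L with
  | nil =>
    intro t m hm l
    have e : (yL ([] : List (Fin v)) g) (sgl K t) = g := rfl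
    rw [e] at hm
    rw [List.count_nil, add_zero]
    exact hg m hm l
  | cons j L ih =>
    intro t m hm l
    change m ∈ (Dop j (yL L g) (sgl K t)).support at hm
    rw [REL.Dop_apply, mem_support_iff, coeff_sum] at hm
    obtain ⟨p, -, hp⟩ := Finset.exists_ne_zero_of_sum_ne_zero hm
    have e1 : (p.removeNth (sgl K t) : Fin L.length → A → K) = sgl K (p.removeNth t) := rfl
    have e2 : sgl K t p = Pi.single (t p) (1 : K) := rfl
    rw [e1, e2, REL.dd_single, coeff_smul] at hp
    have hp2 : coeff m (pderiv (t p, j) (yL L g (sgl K (p.removeNth t)))) ≠ 0 := by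
      intro h
      apply hp
      rw [h, smul_zero]
    rw [coeff_pderiv] at hp2
    have hm' : m + Finsupp.single (t p, j) 1 ∈ (yL L g (sgl K (p.removeNth t))).support := by
      rw [mem_support_iff]
      intro h
      apply hp2
      rw [h, zero_mul]
    have h1 := ih (p.removeNth t) _ hm' l
    have h2 : ∑ x, ((m + Finsupp.single (t p, j) 1 : A × Fin v →₀ ℕ) (x, l)) =
        ∑ x, m (x, l) + if j = l then 1 else 0 := by
      simp only [Finsupp.add_apply, Finset.sum_add_distrib]
      congr 1
      by_cases hjl : j = l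
      · subst hjl
        rw [if_pos rfl, Finset.sum_eq_single (t p)]
        · rw [Finsupp.single_eq_same]
        · intro x _ hx
          rw [Finsupp.single_apply, if_neg]
          intro h
          exact hx (Prod.ext_iff.mp h).1.symm
        · intro h
          exact absurd (Finset.mem_univ _) h
      · rw [if_neg hjl]
        refine Finset.sum_eq_zero fun x _ => ?_
        rw [Finsupp.single_apply, if_neg]
        intro h
        exact hjl (Prod.ext_iff.mp h).2
    rw [h2] at h1
    rw [List.count_cons, ← h1]
    by_cases hjl : j = l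
    · subst hjl
      simp
      omega
    · simp [hjl]

end YLDH

theorem YLD_thm : Stmt_YLD := by
  intro K _ _ A _ _ v L g hL
  exact ⟨fun i j hij hg hj => YLDH.part1 i j hij g hg L hL hj,
    fun ν hν => YLDH.part2 ν g hν L⟩

end Pool.Agent.VOP
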