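import Pool.Agent.VOP.CFO
import Pool.Agent.VOP.CST
import Pool.Agent.VOP.FSH
import Pool.Agent.VOP.HGB
import Pool.Agent.VOP.HGPM
import Pool.Agent.VOP.HWY
import Pool.Agent.VOP.N4A
import Pool.Agent.VOP.N4B
import Pool.Agent.VOP.PRJ
import Pool.Agent.VOP.R1
import Pool.Agent.VOP.SPU
import Pool.Agent.VOP.STA
import Pool.Agent.VOP.STB
import Pool.Agent.VOP.YLD

/-!
# Block H, assembly: the interface statements `HG0`, `HGS`, `N4` without hypotheses
-/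

namespace Pool.Agent.VOP

theorem hwy : Stmt_HWY := HWY_thm FSH_thm (PRJ_thm FSH_thm)

theorem hgs2 : Stmt_HGS2 :=
  HGS2_thm (HGPM_thm FSH_thm (PRJ_thm FSH_thm) CFO_thm hwy) hwy YLD_thm (STA_thm CST_thm SPU_thm)
    (STB_thm CST_thm SPU_thm) SPU_thm R1_thm

theorem hg0 : Stmt_HG0 := HG0_thm hgs2

theorem hgs : Stmt_HGS := HGS_thm hgs2

theorem n4 : Stmt_N4 := N4_thm N4A_thm N4B_thm

end Pool.Agent.VOP
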