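import Pool.Agent.VOP.StmtsW
import Pool.Agent.VOP.DG
import Pool.Agent.VOP.DIV
import Pool.Agent.VOP.SYM

/-!
# Module HVA: highest weight cycles of small weight are boundaries
-/

set_option autoImplicit false

namespace Pool.Agent.VOP

open MvPolynomial Pool.Agent.VSY

namespace HVA

variable {K : Type} [Field K] {A : Type} [Fintype A] [DecidableEq A] {v : ℕ}

theorem ap_inv (π : Equiv.Perm A) (x : A) : π (π⁻¹ x) = x := π.apply_symm_apply x

theorem inv_ap (π : Equiv.Perm A) (x : A) : π⁻¹ (π x) = x := π.symm_apply_apply x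

theorem mv_self (u w : A) : mv u w u = w := by simp [mv]

theorem mv_ne (u w : A) {x : A} (h : x ≠ u) : mv u w x = x := by simp [mv, h]

/-- `mv u w ∘ swap u u₀ = swap u u₀ ∘ mv u₀ w`. -/
theorem mv_swap {u u₀ w : A} (h1 : w ≠ u) (h2 : w ≠ u₀) (x : A) :
    mv u w (Equiv.swap u u₀ x) = Equiv.swap u u₀ (mv u₀ w x) := by
  by_cases hx0 : x = u₀
  · subst hx0
    rw [Equiv.swap_apply_right, mv_self, mv_self, Equiv.swap_apply_of_ne_of_ne h1 h2]
  · rw [mv_ne u₀ w hx0]
    by_cases hxu : x = u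
    · subst hxu
      rw [Equiv.swap_apply_left, mv_ne]
      exact fun h => hx0 h.symm
    · rw [Equiv.swap_apply_of_ne_of_ne hxu hx0, mv_ne u w hxu]

/-- `mv u' w ∘ swap u u₀ = swap u u₀ ∘ mv u' w`. -/
theorem mv_swap' {u u₀ u' w : A} (h1 : w ≠ u) (h2 : w ≠ u₀) (h3 : u' ≠ u) (h4 : u' ≠ u₀)
    (x : A) : mv u' w (Equiv.swap u u₀ x) = Equiv.swap u u₀ (mv u' w x) := by
  by_cases hx : x = u'
  · subst hx
    rw [Equiv.swap_apply_of_ne_of_ne h3 h4, mv_self, Equiv.swap_apply_of_ne_of_ne h1 h2]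
  · rw [mv_ne u' w hx]
    by_cases hxu : x = u
    · subst hxu
      rw [Equiv.swap_apply_left, mv_ne u' w (fun h => h4 h.symm)]
    · by_cases hx0 : x = u₀
      · subst hx0
        rw [Equiv.swap_apply_right, mv_ne u' w (fun h => h3 h.symm)]
      · rw [Equiv.swap_apply_of_ne_of_ne hxu hx0, mv_ne u' w hx]

/-- `mv u₀ w ∘ π = π ∘ mv (π⁻¹ u₀) w`. -/
theorem mv_perm (π : Equiv.Perm A) {u₀ w : A} (h : π w = w) (x : A) :
    mv u₀ w (π x) = π (mv (π⁻¹ u₀) w x) := by
  by_cases hx : x = π⁻¹ u₀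
  · subst hx
    rw [mv_self, ap_inv, mv_self, h]
  · rw [mv_ne _ w hx, mv_ne]
    intro h1
    apply hx
    rw [← h1, inv_ap]

theorem dg_swap (δ δ' : A → ℕ) (u u₀ : A) (f : PX K A v) (hf : Dg δ f)
    (h : ∀ b, δ (Equiv.swap u u₀ b) = δ' b) : Dg δ' (ren (Equiv.swap u u₀) f) := by
  have h1 := DG.ren_push δ (Equiv.swap u u₀) f hf
  have h2 : (fun b => ∑ a ∈ Finset.univ.filter (fun a => Equiv.swap u u₀ a = b), δ a) = δ' := by
    funext b
    have h3 : (Finset.univ.filter fun a => Equiv.swap u u₀ a = b) = {Equiv.swap u u₀ b} := by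
      ext a
      rw [Finset.mem_filter, Finset.mem_singleton]
      constructor
      · rintro ⟨-, rfl⟩
        rw [Equiv.swap_apply_self]
      · rintro rfl
        exact ⟨Finset.mem_univ _, Equiv.swap_apply_self _ _ _⟩
    rw [h3, Finset.sum_singleton, h]
  rwa [h2] at h1

/-- The family. -/
noncomputable def fam (u₀ : A) (f : PX K A v) (u : A) : PX K A v :=
  if u = u₀ then f else -ren (Equiv.swap u u₀) f

theorem fam_self (u₀ : A) (f : PX K A v) : fam u₀ f u₀ = f := by simp [fam]

theorem fam_ne {u₀ u : A} (f : PX K A v) (h : u ≠ u₀) :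
    fam u₀ f u = -ren (Equiv.swap u u₀) f := by simp [fam, h]

/-- The new degrees. -/
theorem dl_u₀ (δ : A → ℕ) (N : ℕ) (u₀ w : A) :
    Function.update (Function.update δ w (N - 2)) u₀ (N + 1) u₀ = N + 1 := by simp

theorem dl_w (δ : A → ℕ) (N : ℕ) {u₀ w : A} (h : u₀ ≠ w) :
    Function.update (Function.update δ w (N - 2)) u₀ (N + 1) w = N - 2 := by
  rw [Function.update_of_ne (Ne.symm h)]; simp

theorem dl_ne (δ : A → ℕ) (N : ℕ) {u₀ w x : A} (h : x ≠ u₀) (h' : x ≠ w) :
    Function.update (Function.update δ w (N - 2)) u₀ (N + 1) x = δ x := by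
  rw [Function.update_of_ne h, Function.update_of_ne h']

/-- Compatibility. -/
theorem compat (δ : A → ℕ) (C : Finset A) (w u₀ : A) (f : PX K A v) (hwC : w ∉ C)
    (hu₀ : u₀ ∉ C) (hne : u₀ ≠ w) (hδ : δ u₀ = 0) (hD : Dg δ f) (hCy : Cy C w f) :
    ∀ u ∈ C, ren (mv u₀ w) (fam u₀ f u) = 0 := by
  intro u hu
  have huu₀ : u ≠ u₀ := fun h => hu₀ (h ▸ hu)
  have huw : u ≠ w := fun h => hwC (h ▸ hu)
  rw [fam_ne f huu₀, map_neg, ren_ren, neg_eq_zero]
  rw [DG.ren_eq δ (mv u₀ w ∘ Equiv.swap u u₀) (mv u w) f ?_ hD]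
  · exact hCy u hu
  · intro x hx
    have hx0 : x ≠ u₀ := fun h => hx (h ▸ hδ)
    rw [Function.comp_apply]
    by_cases hxu : x = u
    · subst hxu
      rw [Equiv.swap_apply_left, mv_self, mv_self]
    · rw [Equiv.swap_apply_of_ne_of_ne hxu hx0, mv_ne _ w hxu, mv_ne _ w hx0]

theorem compat' (C : Finset A) (w u₀ : A) (f : PX K A v) (hwC : w ∉ C)
    (hu₀ : u₀ ∉ C) (hne : u₀ ≠ w) (hCy : Cy C w f) :
    ∀ u ∈ insert u₀ C, ∀ u' ∈ C, u ≠ u' → ren (mv u' w) (fam u₀ f u) = 0 := by
  intro u hu u' hu' huu'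
  by_cases h0 : u = u₀
  · subst h0
    rw [fam_self]
    exact hCy u' hu'
  · have huC : u ∈ C := by
      rcases Finset.mem_insert.1 hu with h | h
      · exact absurd h h0
      · exact h
    have h1 : w ≠ u := fun h => hwC (h ▸ huC)
    rw [fam_ne f h0, map_neg, ren_ren, neg_eq_zero]
    have h2 : ren (v := v) (K := K) (mv u' w ∘ Equiv.swap u u₀) f =
        ren (Equiv.swap u u₀) (ren (mv u' w) f) := by
      rw [ren_ren]
      refine ren_congr (fun x => ?_) f
      exact mv_swap' h1 (Ne.symm hne) (Ne.symm huu') (fun h => hu₀ (h ▸ hu')) x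
    rw [h2, hCy u' hu', map_zero]

/-- Gluing on a line. -/
theorem glul (δ' : A → ℕ) (C : Finset A) (w u₀ : A) (f Y : PX K A 3) (y : Fin 3 → K)
    (hwC : w ∉ C) (hne : u₀ ≠ w) (hAl : Al (insert u₀ C) Y) (hD : Dg δ' Y)
    (hdv : lin y w ∣ ren (mv u₀ w) Y - f) : GluL δ' (insert u₀ C) w (fam u₀ f) y := by
  refine ⟨Y, hD, ?_⟩
  intro u hu
  by_cases h0 : u = u₀
  · subst h0
    rw [fam_self]
    exact hdv
  · have huC : u ∈ C := by
      rcases Finset.mem_insert.1 hu with h | h
      · exact absurd h h0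
      · exact h
    have h1 : w ≠ u := fun h => hwC (h ▸ huC)
    have h2 : Y = -ren (Equiv.swap u u₀) Y := by
      rw [hAl u hu u₀ (Finset.mem_insert_self _ _) h0, neg_neg]
    have h3 : ren (mv u w) Y = -ren (Equiv.swap u u₀) (ren (mv u₀ w) Y) := by
      conv_lhs => rw [h2]
      rw [map_neg, ren_ren, ren_ren]
      congr 1
      refine ren_congr (fun x => ?_) Y
      exact mv_swap h1 (Ne.symm hne) x
    obtain ⟨q, hq⟩ := hdv
    refine ⟨-ren (Equiv.swap u u₀) q, ?_⟩
    have h4 : ren (Equiv.swap u u₀) (ren (mv u₀ w) Y) - ren (Equiv.swap u u₀) f =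
        lin y w * ren (Equiv.swap u u₀) q := by
      rw [← map_sub, hq, map_mul, DIV.ren_lin,
        Equiv.swap_apply_of_ne_of_ne h1 (Ne.symm hne)]
    rw [h3, fam_ne f h0]
    linear_combination -h4

/-- The sum over the permutations. -/
theorem sum_perm (C : Finset A) (w u₀ : A) (f Y : PX K A v) (hwC : w ∉ C) (hu₀ : u₀ ∉ C)
    (hne : u₀ ≠ w) (hAl : Al C f) (hY : ∀ u ∈ insert u₀ C, ren (mv u w) Y = fam u₀ f u)
    (π : Equiv.Perm A) (hπ : π ∈ pS (insert u₀ C)) :
    SYM.sg π • ren (mv u₀ w) (ren π Y) = f := by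
  have hw : π w = w := SYM.mem_pS.1 hπ w (fun h => by
    rcases Finset.mem_insert.1 h with h | h
    · exact hne h.symm
    · exact hwC h)
  have h1 : ren (mv u₀ w) (ren π Y) = ren π (ren (mv (π⁻¹ u₀) w) Y) := by
    rw [ren_ren, ren_ren]
    refine ren_congr (fun x => ?_) Y
    exact mv_perm π hw x
  have hu : π⁻¹ u₀ ∈ insert u₀ C := SYM.maps (SYM.inv_mem hπ) (Finset.mem_insert_self _ _)
  rw [h1, hY _ hu]
  by_cases h0 : π⁻¹ u₀ = u₀
  · rw [h0, fam_self]
    have hC : π ∈ pS C := by
      rw [SYM.mem_pS]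
      intro x hx
      by_cases hx0 : x = u₀
      · subst hx0
        conv_lhs => rw [← h0]
        rw [ap_inv]
      · exact SYM.mem_pS.1 hπ x (fun h => by
          rcases Finset.mem_insert.1 h with h | h
          · exact hx0 h
          · exact hx h)
    rw [SYM.perm_al hAl hC, smul_smul, SYM.sg_sq, one_smul]
  · rw [fam_ne f h0, map_neg, ← SYM.ren_mul]
    set u := π⁻¹ u₀ with hudef
    have hπu : π u = u₀ := by rw [hudef, ap_inv]
    have hC : π * Equiv.swap u u₀ ∈ pS C := by
      rw [SYM.mem_pS]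
      intro x hx
      rw [Equiv.Perm.mul_apply]
      by_cases hx0 : x = u₀
      · subst hx0
        rw [Equiv.swap_apply_right, hπu]
      · have hxu : x ≠ u := by
          rintro rfl
          rcases Finset.mem_insert.1 hu with h | h
          · exact hx0 h
          · exact hx h
        rw [Equiv.swap_apply_of_ne_of_ne hxu hx0]
        exact SYM.mem_pS.1 hπ x (fun h => by
          rcases Finset.mem_insert.1 h with h | h
          · exact hx0 h
          · exact hx h)
    rw [SYM.perm_al hAl hC, SYM.sg_mul, SYM.sg_swap h0, mul_neg_one, neg_smul, neg_neg, smul_smul,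
      SYM.sg_sq, one_smul]

end HVA

open HVA in
theorem HVA_thm (h1 : Stmt_LNF) (h2 : Stmt_UPL) (h3 : Stmt_D1F) : Stmt_HVA := by
  intro K _ _ A _ _ δ N C w u₀ ν f hN hwC hu₀ hne hcard hδC hδw hδ0 hDg hAl hCy hW hHw hν
  obtain ⟨Y₀, hY₀A, hY₀D, hY₀d⟩ := h1 K A δ N C w u₀ ν f hN hwC hu₀ hne hδC hδw hδ0 hDg hAl hCy
    hW (hHw 0 1 (by decide)) hν
  set δ' : A → ℕ := Function.update (Function.update δ w (N - 2)) u₀ (N + 1) with hδ'
  have d0 : δ' u₀ = N + 1 := dl_u₀ δ N u₀ w
  have dw : δ' w = N - 2 := dl_w δ N hne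
  have dn : ∀ x, x ≠ u₀ → x ≠ w → δ' x = δ x := fun x hx hx' => dl_ne δ N hx hx'
  have hwΛ : w ∉ insert u₀ C := by
    intro h
    rcases Finset.mem_insert.1 h with h | h
    · exact hne h.symm
    · exact hwC h
  have hcΛ : (insert u₀ C).card = C.card + 1 := Finset.card_insert_of_notMem hu₀
  have dΛ : ∀ u ∈ insert u₀ C, δ' u = N + 1 := by
    intro u hu
    by_cases h0 : u = u₀
    · rw [h0]; exact d0
    · have huC : u ∈ C := by
        rcases Finset.mem_insert.1 hu with h | h
        · exact absurd h h0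
        · exact h
      rw [dn u h0 (fun h => hwC (h ▸ huC)), hδC u huC]
  obtain ⟨Y, hYD, hY⟩ := h3 K A δ' (insert u₀ C) w (fam u₀ f) hwΛ
    (by rw [hcΛ, dw]; omega)
    (by intro u hu; rw [hcΛ, dw, dΛ u hu]; omega)
    (by
      intro u hu
      by_cases h0 : u = u₀
      · subst h0
        rw [fam_self]
        have e : Function.update (Function.update δ' u 0) w (δ' w + δ' u) = δ := by
          funext x
          by_cases hxw : x = w
          · subst hxw
            rw [Function.update_self, dw, d0, hδw]; omega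
          · rw [Function.update_of_ne hxw]
            by_cases hxu : x = u
            · subst hxu
              rw [Function.update_self, hδ0]
            · rw [Function.update_of_ne hxu, dn x hxu hxw]
        rw [e]; exact hDg
      · have huC : u ∈ C := by
          rcases Finset.mem_insert.1 hu with h | h
          · exact absurd h h0
          · exact h
        have huw : u ≠ w := fun h => hwC (h ▸ huC)
        rw [fam_ne f h0]
        apply DG.neg
        apply dg_swap δ _ u u₀ f hDg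
        intro b
        by_cases hbw : b = w
        · subst hbw
          rw [Equiv.swap_apply_of_ne_of_ne (Ne.symm huw) (Ne.symm hne), Function.update_self, dw,
            dΛ u hu, hδw]; omega
        · rw [Function.update_of_ne hbw]
          by_cases hbu : b = u
          · subst hbu
            rw [Equiv.swap_apply_left, Function.update_self, hδ0]
          · rw [Function.update_of_ne hbu]
            by_cases hb0 : b = u₀
            · subst hb0
              rw [Equiv.swap_apply_right, d0, hδC u huC]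
            · rw [Equiv.swap_apply_of_ne_of_ne hbu hb0, dn b hb0 hbw])
    (by
      intro u hu u' hu' huu'
      by_cases h0 : u = u₀
      · subst h0
        have hu'C : u' ∈ C := by
          rcases Finset.mem_insert.1 hu' with h | h
          · exact absurd h.symm huu'
          · exact h
        rw [compat' C w u f hwC hu₀ hne hCy u hu u' hu'C huu',
          compat δ C w u f hwC hu₀ hne hδ0 hDg hCy u' hu'C]
      · have huC : u ∈ C := by
          rcases Finset.mem_insert.1 hu with h | h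
          · exact absurd h h0
          · exact h
        by_cases h0' : u' = u₀
        · subst h0'
          rw [compat δ C w u' f hwC hu₀ hne hδ0 hDg hCy u huC,
            compat' C w u' f hwC hu₀ hne hCy u' hu' u huC (Ne.symm huu')]
        · have hu'C : u' ∈ C := by
            rcases Finset.mem_insert.1 hu' with h | h
            · exact absurd h h0'
            · exact h
          rw [compat' C w u₀ f hwC hu₀ hne hCy u hu u' hu'C huu',
            compat' C w u₀ f hwC hu₀ hne hCy u' hu' u huC (Ne.symm huu')])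
    (by
      intro y hy
      obtain ⟨Y', hA', hD', hd'⟩ := h2 K A δ' (insert u₀ C) w u₀ f Y₀ hHw hY₀A hY₀D hY₀d y hy
      exact glul δ' C w u₀ f Y' y hwC hne hA' hD' hd')
  have hfac : ((insert u₀ C).card.factorial : K) ≠ 0 := by
    exact_mod_cast Nat.factorial_ne_zero _
  refine ⟨((insert u₀ C).card.factorial : K)⁻¹ • alt (insert u₀ C) Y, ?_, ?_, ?_⟩
  · intro x hx y hy hxy
    rw [map_smul, SYM.al_alt (insert u₀ C) Y x hx y hy hxy, smul_neg]
  · apply DG.smul
    rw [SYM.alt_def]
    apply DG.sum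
    intro π hπ
    apply DG.zsmul
    apply DG.ren_perm δ' π Y _ hYD
    intro a
    by_cases ha : a ∈ insert u₀ C
    · rw [dΛ a ha, dΛ _ (SYM.maps hπ ha)]
    · rw [SYM.mem_pS.1 hπ a ha]
  · rw [map_smul, SYM.alt_def, map_sum]
    have h5 : ∀ π ∈ pS (insert u₀ C), ren (mv u₀ w) (SYM.sg π • ren π Y) = f := by
      intro π hπ
      rw [map_zsmul]
      exact sum_perm C w u₀ f Y hwC hu₀ hne hAl hY π hπ
    rw [Finset.sum_congr rfl h5, Finset.sum_const, SYM.card_pS, ← Nat.cast_smul_eq_nsmul K,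
      smul_smul, inv_mul_cancel₀ hfac, one_smul]

end Pool.Agent.VOP
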