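import Pool.Agent.VOP.StmtsW
import Pool.Agent.VOP.DG
import Pool.Agent.VOP.SYM
import Pool.Agent.VSY.WB
import Pool.Agent.VSY.NAT

/-!
# Veronese syzygies (MP_deb8da_ag): HVT, highest weight cycles of small weight in the Koszul complex
-/

namespace Pool.Agent.VOP

open MvPolynomial Pool.Agent.VSY

namespace HVT

variable {U : Type}

/-- The embedding of the points. -/
def emb : Option U → Option (Option U) := Option.map some

/-- The letters. -/
def CC [Fintype U] [DecidableEq U] : Finset (Option (Option U)) :=
  Finset.univ.image fun u : U => some (some u)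

/-- The degrees. -/
def dl (N : ℕ) : Option (Option U) → ℕ
  | none => 2 * N - 1
  | some none => 0
  | some (some _) => N + 1

theorem mem_CC [Fintype U] [DecidableEq U] {x : Option (Option U)} :
    x ∈ (CC : Finset (Option (Option U))) ↔ ∃ u : U, some (some u) = x := by
  simp [CC]

theorem em_injective : Function.Injective (emb : Option U → Option (Option U)) :=
  Option.map_injective (Option.some_injective _)

theorem em_swap [DecidableEq U] (u u' : U) (o : Option U) :
    Equiv.swap (some (some u)) (some (some u')) (emb o) = emb (Option.map (Equiv.swap u u') o) := by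
  cases o with
  | none =>
    have h : Equiv.swap (some (some u)) (some (some u')) (none : Option (Option U)) = none :=
      Equiv.swap_apply_of_ne_of_ne (by simp) (by simp)
    exact h
  | some a =>
    change Equiv.swap (some (some u)) (some (some u')) (some (some a)) =
      some (some (Equiv.swap u u' a))
    rw [Equiv.swap_apply_def, Equiv.swap_apply_def]
    by_cases h1 : a = u
    · subst h1; simp
    · by_cases h2 : a = u'
      · subst h2; simp [h1]
      · simp [h1, h2]

theorem em_mv [DecidableEq U] (u : U) (o : Option U) :
    mv (some (some u)) (none : Option (Option U)) (emb o) = emb (mg u o) := by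
  cases o with
  | none => simp [mv, mg, emb]
  | some a =>
    by_cases h1 : a = u
    · subst h1; simp [mv, mg, emb]
    · simp [mv, mg, emb, h1]

theorem join_mv [DecidableEq U] (x : Option (Option U)) :
    Option.join (mv (some none) none x) = Option.join x := by
  rcases x with _ | _ | a
  · simp [mv]
  · simp [mv]
  · simp [mv]

theorem join_em (o : Option U) : Option.join (emb o) = o := by
  cases o <;> rfl

end HVT

open HVT in
theorem HVT_thm (h1 : Stmt_HVA) : Stmt_HVT := by
  intro K _ _ U _ _ N ν f hN hcard hf hν hw hlt
  obtain ⟨hc, hz⟩ := hf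
  have hWB := WB_thm K (Option U) (Option (Option U)) 3
  have hNAT := NAT_thm K (Option U) (Option (Option U)) 3 emb
  have hCcard : (CC : Finset (Option (Option U))).card = Fintype.card U := by
    rw [CC, Finset.card_image_of_injective _ (fun a b h => by simpa using h), Finset.card_univ]
  have hDg : Dg (dl N) (ren emb f) := by
    intro m hm x
    obtain ⟨n, hn, rfl⟩ := exists_of_mem_support_ren emb f hm
    rw [mapDomain_sum]
    obtain ⟨hn1, hn2⟩ := hc.deg n hn
    rcases x with _ | _ | a
    · have h2 : (Finset.univ.filter fun a : Option U => emb a = none) = {none} := by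
        ext a
        cases a <;> simp [emb]
      rw [h2, Finset.sum_singleton]
      simpa [dl] using hn2
    · have h2 : (Finset.univ.filter fun a : Option U => emb a = some none) = ∅ := by
        ext a
        cases a <;> simp [emb]
      rw [h2, Finset.sum_empty]
      rfl
    · have h2 : (Finset.univ.filter fun b : Option U => emb b = some (some a)) = {some a} := by
        ext b
        cases b <;> simp [emb]
      rw [h2, Finset.sum_singleton]
      exact hn1 a
  obtain ⟨H, hal, hdg, hren⟩ := h1 K (Option (Option U)) (dl N) N CC none (some none) ν (ren emb f)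
    hN (by rw [mem_CC]; rintro ⟨u, hu⟩; exact absurd hu (by simp))
    (by rw [mem_CC]; rintro ⟨u, hu⟩; exact absurd hu (by simp)) (by simp)
    (by rw [hCcard]; exact hcard)
    (by
      intro x hx
      obtain ⟨u, rfl⟩ := mem_CC.1 hx
      rfl) rfl rfl hDg
    (by
      intro x hx y hy hxy
      obtain ⟨u, rfl⟩ := mem_CC.1 hx
      obtain ⟨u', rfl⟩ := mem_CC.1 hy
      have huu : u ≠ u' := fun h => hxy (by rw [h])
      have h2 := hc.alt (Equiv.swap u u')
      rw [Equiv.Perm.sign_swap huu] at h2
      have h3 : ren (Equiv.swap (some (some u)) (some (some u'))) (ren emb f) =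
          ren emb (ren (Option.map (Equiv.swap u u')) f) := by
        rw [ren_ren, ren_ren]
        exact ren_congr (em_swap u u') f
      rw [h3, h2]
      simp)
    (by
      intro x hx
      obtain ⟨u, rfl⟩ := mem_CC.1 hx
      have h3 : ren (mv (some (some u)) none) (ren emb f) = ren emb (ren (mg u) f) := by
        rw [ren_ren, ren_ren]
        exact ren_congr (em_mv u) f
      rw [h3, hz u, map_zero])
    (hWB.2.2.2.1 ν emb f hν)
    (by
      intro i j hij
      rw [← hNAT.1 i j f, hw i j hij, map_zero])
    hlt
  refine ⟨H, ⟨fun π => ?_, fun m hm => ⟨fun o => ?_, ?_⟩⟩, ?_⟩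
  · have h2 := SYM.perm_al hal (π := π.optionCongr) (SYM.mem_pS.2 fun x hx => ?_)
    · have h3 : SYM.sg π.optionCongr = ((Equiv.Perm.sign π : ℤˣ) : ℤ) := by
        unfold SYM.sg
        rw [Equiv.optionCongr_sign]
      rw [h3] at h2
      exact h2
    · rcases x with _ | _ | a
      · rfl
      · exact absurd (Finset.mem_insert_self _ _) hx
      · exact absurd (Finset.mem_insert_of_mem (mem_CC.2 ⟨a, rfl⟩)) hx
  · have h2 := hdg m hm (some o)
    rw [h2]
    rcases o with _ | a
    · simp
    · rw [Function.update_of_ne (by simp), Function.update_of_ne (by simp)]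
      rfl
  · have h2 := hdg m hm none
    rw [h2, Function.update_of_ne (by simp), Function.update_self]
    omega
  · have h2 : ren Option.join H = ren Option.join (ren (mv (some none) none) H) := by
      rw [ren_ren]
      exact ren_congr (fun x => (join_mv x).symm) H
    rw [h2, hren, ren_ren]
    have h3 : ren (Option.join ∘ emb) f = ren id f := ren_congr join_em f
    rw [h3, ren_id]

end Pool.Agent.VOP
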