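import Pool.Agent.VOP.StmtsW
import Pool.Agent.VOP.PR
import Pool.Agent.VSY.WT

/-!
# LNA: gluing of the part with prescribed letters (MP_deb8da_ag)
-/

set_option autoImplicit false

namespace Pool.Agent.VOP

open MvPolynomial Pool.Agent.VSY

namespace LNA

variable {K : Type} [Field K] {A : Type} [Fintype A] [DecidableEq A]

lemma pr_coeff_pos {v : ℕ} (k : Fin v) (w : A) (P : Finset A → Prop) (f : PX K A v)
    (m : A × Fin v →₀ ℕ) (h : m (w, k) = 0 ∧ P (js k w m)) :
    coeff m (pr k w P f) = coeff m f := ((PR_thm K A v k w).1 P f m).1 h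

lemma pr_coeff_neg {v : ℕ} (k : Fin v) (w : A) (P : Finset A → Prop) (f : PX K A v)
    (m : A × Fin v →₀ ℕ) (h : ¬(m (w, k) = 0 ∧ P (js k w m))) :
    coeff m (pr k w P f) = 0 := ((PR_thm K A v k w).1 P f m).2 h

lemma mem_pr {v : ℕ} {k : Fin v} {w : A} {P : Finset A → Prop} {f : PX K A v}
    {m : A × Fin v →₀ ℕ} (h : m ∈ (pr k w P f).support) :
    m ∈ f.support ∧ m (w, k) = 0 ∧ P (js k w m) := by
  rw [mem_support_iff] at h
  by_cases hc : m (w, k) = 0 ∧ P (js k w m)
  · rw [pr_coeff_pos k w P f m hc] at h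
    exact ⟨mem_support_iff.2 h, hc⟩
  · exact (h (pr_coeff_neg k w P f m hc)).elim

lemma pr_add {v : ℕ} (k : Fin v) (w : A) (P : Finset A → Prop) (f g : PX K A v) :
    pr k w P (f + g) = pr k w P f + pr k w P g := ((PR_thm K A v k w).2.1 P f g 0).1

lemma pr_zero {v : ℕ} (k : Fin v) (w : A) (P : Finset A → Prop) :
    pr k w P (0 : PX K A v) = 0 := by
  have := ((PR_thm K A v k w).2.1 P 0 0 0).2.2
  simpa using this

lemma pr_neg {v : ℕ} (k : Fin v) (w : A) (P : Finset A → Prop) (f : PX K A v) :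
    pr k w P (-f) = -pr k w P f := by
  have := ((PR_thm K A v k w).2.1 P f 0 (-1)).2.2
  simpa using this

lemma pr_sum {v : ℕ} {ι : Type} (s : Finset ι) (k : Fin v) (w : A) (P : Finset A → Prop)
    (f : ι → PX K A v) : pr k w P (∑ i ∈ s, f i) = ∑ i ∈ s, pr k w P (f i) := by
  classical
  induction s using Finset.induction_on with
  | empty => simp [pr_zero]
  | insert a s ha ih => rw [Finset.sum_insert ha, Finset.sum_insert ha, pr_add, ih]

lemma pr_monomial {v : ℕ} (k : Fin v) (w : A) (P : Finset A → Prop) (m : A × Fin v →₀ ℕ) (a : K) :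
    ((m (w, k) = 0 ∧ P (js k w m)) → pr k w P (monomial m a) = monomial m a) ∧
    (¬(m (w, k) = 0 ∧ P (js k w m)) → pr k w P (monomial m a) = 0) := by
  constructor
  · intro h
    ext n
    by_cases hn : m = n
    · subst hn
      rw [pr_coeff_pos k w P _ _ h]
    · by_cases hc : n (w, k) = 0 ∧ P (js k w n)
      · rw [pr_coeff_pos k w P _ _ hc]
      · rw [pr_coeff_neg k w P _ _ hc, coeff_monomial, if_neg hn]
  · intro h
    ext n
    rw [coeff_zero]
    by_cases hc : n (w, k) = 0 ∧ P (js k w n)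
    · rw [pr_coeff_pos k w P _ _ hc, coeff_monomial]
      rw [if_neg]
      rintro rfl
      exact h hc
    · rw [pr_coeff_neg k w P _ _ hc]

/-- `E_01` preserves the parts with respect to the coordinate `2`. -/
lemma Eij_pr (w : A) (P : Finset A → Prop) (f : PX K A 3) :
    Eij (0 : Fin 3) 1 (pr (2 : Fin 3) w P f) = pr (2 : Fin 3) w P (Eij (0 : Fin 3) 1 f) := by
  induction f using MvPolynomial.induction_on' with
  | monomial m a =>
    -- exponents of the coordinate 2 do not change
    have h2 : ∀ x y : A, (Finsupp.single (x, (0 : Fin 3)) 1 + (m - Finsupp.single (x, (1 : Fin 3)) 1) :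
        A × Fin 3 →₀ ℕ) (y, 2) = m (y, 2) := by
      intro x y
      rw [Finsupp.add_apply, Finsupp.tsub_apply, Finsupp.single_apply, Finsupp.single_apply,
        if_neg (by simp), if_neg (by simp)]
      simp
    have h3 : ∀ x : A, js (2 : Fin 3) w (Finsupp.single (x, (0 : Fin 3)) 1
        + (m - Finsupp.single (x, (1 : Fin 3)) 1)) = js (2 : Fin 3) w m := by
      intro x
      unfold js
      ext y
      simp only [Finset.mem_filter, Finset.mem_univ, true_and]
      rw [h2]
    rw [WT.Eij_monomial, pr_sum]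
    by_cases hc : m (w, 2) = 0 ∧ P (js 2 w m)
    · rw [(pr_monomial 2 w P m a).1 hc, WT.Eij_monomial]
      apply Finset.sum_congr rfl
      intro x _
      rw [(pr_monomial 2 w P _ _).1]
      rw [h2, h3]
      exact hc
    · rw [(pr_monomial 2 w P m a).2 hc, map_zero]
      symm
      apply Finset.sum_eq_zero
      intro x _
      rw [(pr_monomial 2 w P _ _).2]
      rw [h2, h3]
      exact hc
  | add p q hp hq =>
    rw [pr_add, map_add, map_add, pr_add, hp, hq]

lemma Al_pr {w : A} {P : Finset A → Prop} {Λ : Finset A} {f : PX K A 3} (hf : Al Λ f)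
    (hw : w ∉ Λ) (hP : ∀ x ∈ Λ, ∀ y ∈ Λ, x ≠ y → ∀ J : Finset A,
      (P (J.map (Equiv.swap x y).toEmbedding) ↔ P J)) : Al Λ (pr (2 : Fin 3) w P f) := by
  intro x hx y hy hxy
  have h1 := (PR_thm K A 3 2 w).2.2.2.2.2.2.1 P (Equiv.swap x y) f
    (Equiv.swap_apply_of_ne_of_ne (fun h => hw (h ▸ hx)) (fun h => hw (h ▸ hy)))
  have h2 : (fun J : Finset A => P (J.map (Equiv.swap x y).toEmbedding)) = P := by
    funext J
    exact propext (hP x hx y hy hxy J)
  rw [h2, hf x hx y hy hxy, pr_neg] at h1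
  exact h1.symm

end LNA

open LNA in
theorem LNA_thm (h1 : Stmt_P1L) : Stmt_LNA := by
  intro K _ _ A _ _ δ N C S w u₀ ν f hN hwC huC huw hSC hδC hδw hδu hDg hAl hCy hW hE hν
  set P : Finset A → Prop := fun J => J ∩ C = S with hP
  set F := pr (2 : Fin 3) w P f with hF
  set J₀ := C \ S with hJ₀
  have hJC : J₀ ⊆ C := Finset.sdiff_subset
  have hmem : ∀ m ∈ F.support, m ∈ f.support ∧ m (w, 2) = 0 ∧ js 2 w m ∩ C = S := by
    intro m hm
    exact mem_pr hm
  -- swaps of points outside `S`
  have mapS : ∀ x y : A, x ∉ S → y ∉ S → ∀ z, z ∈ S → Equiv.swap x y z = z := by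
    intro x y hx hy z hz
    exact Equiv.swap_apply_of_ne_of_ne (fun h => hx (h ▸ hz)) (fun h => hy (h ▸ hz))
  have mem_map : ∀ (x y : A) (J : Finset A) (z : A), z ∈ J.map (Equiv.swap x y).toEmbedding ↔
      Equiv.swap x y z ∈ J := by
    intro x y J z
    rw [Finset.mem_map_equiv, Equiv.symm_swap]
  have hAlF : Al J₀ F := by
    apply Al_pr (fun x hx y hy hxy => hAl x (hJC hx) y (hJC hy) hxy) (fun h => hwC (hJC h))
    intro x hx y hy hxy J
    have hxC := hJC hx
    have hyC := hJC hy
    have hxS : x ∉ S := (Finset.mem_sdiff.1 hx).2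
    have hyS : y ∉ S := (Finset.mem_sdiff.1 hy).2
    have key : ∀ I : Finset A, I ∩ C = S → I.map (Equiv.swap x y).toEmbedding ∩ C = S := by
      intro I hI
      have hxI : x ∉ I := fun h => hxS (hI ▸ Finset.mem_inter.2 ⟨h, hxC⟩)
      have hyI : y ∉ I := fun h => hyS (hI ▸ Finset.mem_inter.2 ⟨h, hyC⟩)
      have : I.map (Equiv.swap x y).toEmbedding = I := by
        ext z
        rw [mem_map]
        by_cases hzx : z = x
        · subst hzx
          rw [Equiv.swap_apply_left]
          exact ⟨fun h => (hyI h).elim, fun h => (hxI h).elim⟩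
        · by_cases hzy : z = y
          · subst hzy
            rw [Equiv.swap_apply_right]
            exact ⟨fun h => (hxI h).elim, fun h => (hyI h).elim⟩
          · rw [Equiv.swap_apply_of_ne_of_ne hzx hzy]
      rw [this, hI]
    constructor
    · intro h
      have h2 := key _ h
      have e : (J.map (Equiv.swap x y).toEmbedding).map (Equiv.swap x y).toEmbedding = J := by
        ext z
        rw [mem_map, mem_map, Equiv.swap_apply_self]
      rwa [e] at h2
    · exact key J
  have hNC : NC (insert w J₀) F := by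
    intro m hm x hx
    obtain ⟨_, h2, h3⟩ := hmem m hm
    rcases Finset.mem_insert.1 hx with rfl | hx
    · exact h2
    · have hxC := hJC hx
      have hxS : x ∉ S := (Finset.mem_sdiff.1 hx).2
      by_contra hcon
      apply hxS
      rw [← h3]
      refine Finset.mem_inter.2 ⟨?_, hxC⟩
      unfold js
      simp only [Finset.mem_filter, Finset.mem_univ, true_and]
      exact ⟨fun h => hwC (h ▸ hxC), by omega⟩
  have hCyF : Cy J₀ w F := by
    intro u hu
    have huC' := hJC hu
    have huS : u ∉ S := (Finset.mem_sdiff.1 hu).2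
    have h0 := hCy u huC'
    refine ((PR_thm K A 3 2 w).2.2.2.2.2.2.2.2.1 P u f (fun h => hwC (h ▸ huC'))
      (by rw [h0]; exact dvd_zero _)).2 ?_
    intro J hJ huJ
    apply huS
    rw [← (show J ∩ C = S from hJ)]
    exact Finset.mem_inter.2 ⟨huJ, huC'⟩
  have hEF : Eij (0 : Fin 3) 1 F = 0 := by
    rw [hF, Eij_pr, hE, pr_zero]
  obtain ⟨H, hH1, hH2, hH3, hH4⟩ := h1 K A δ N J₀ w u₀ ν F hN (fun h => hwC (hJC h))
    (fun h => huC (hJC h)) huw (fun u hu => hδC u (hJC hu)) hδw hδu
    ((PR_thm K A 3 2 w).2.2.1 P δ f hDg) hAlF hCyF hNC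
    (fun m hm j => hW m (hmem m hm).1 j) hEF hν
  set Q : Finset A → Prop := fun J => S ⊆ J with hQ
  refine ⟨pr (2 : Fin 3) w Q H, ?_, (PR_thm K A 3 2 w).2.2.1 Q _ H hH3, ?_, ?_⟩
  · apply Al_pr hH1
    · intro h
      rcases Finset.mem_insert.1 h with h | h
      · exact huw h.symm
      · exact hwC (hJC h)
    · intro x hx y hy hxy J
      have out : ∀ z ∈ insert u₀ (C \ S), z ∉ S := by
        intro z hz hzS
        rcases Finset.mem_insert.1 hz with rfl | hz
        · exact huC (hSC hzS)
        · exact (Finset.mem_sdiff.1 hz).2 hzS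
      have hs := mapS x y (out x hx) (out y hy)
      constructor
      · intro h z hz
        have := h hz
        rwa [mem_map, hs z hz] at this
      · intro h z hz
        rw [mem_map, hs z hz]
        exact h hz
  · intro m hm p hp
    obtain ⟨_, _, h3⟩ := mem_pr hm
    have := h3 hp
    unfold js at this
    simp only [Finset.mem_filter, Finset.mem_univ, true_and] at this
    exact this.2
  · have h8 := (PR_thm K A 3 2 w).2.2.2.2.2.2.2.1 Q u₀ H huw
    rw [hH4] at h8
    have e1 : pr (2 : Fin 3) w (fun J => Q J ∧ u₀ ∉ J) H = pr (2 : Fin 3) w Q H := by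
      ext m
      by_cases hm : m ∈ H.support
      · have hu : u₀ ∉ js (2 : Fin 3) w m := by
          have := hH2 m hm u₀ (by simp)
          unfold js
          simp only [Finset.mem_filter, Finset.mem_univ, true_and]
          omega
        by_cases hc : m (w, 2) = 0 ∧ Q (js 2 w m)
        · rw [pr_coeff_pos 2 w Q H m hc, pr_coeff_pos 2 w _ H m ⟨hc.1, hc.2, hu⟩]
        · rw [pr_coeff_neg 2 w Q H m hc, pr_coeff_neg 2 w _ H m (fun h => hc ⟨h.1, h.2.1⟩)]
      · have h0 : ∀ R : Finset A → Prop, coeff m (pr (2 : Fin 3) w R H) = 0 := by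
          intro R
          by_contra hcon
          exact hm (mem_pr (mem_support_iff.2 hcon)).1
        rw [h0, h0]
    rw [e1] at h8
    rw [← h8]
    -- the part of `F`
    ext m
    by_cases hm : m ∈ F.support
    · obtain ⟨_, h2, h3⟩ := hmem m hm
      rw [pr_coeff_pos 2 w Q F m ⟨h2, ?_⟩]
      intro z hz
      rw [← h3] at hz
      exact (Finset.mem_inter.1 hz).1
    · have h0 : coeff m (pr (2 : Fin 3) w Q F) = 0 := by
        by_contra hcon
        exact hm (mem_pr (mem_support_iff.2 hcon)).1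
      rw [h0]
      exact (notMem_support_iff.1 hm).symm

end Pool.Agent.VOP
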