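import Pool.Agent.VOP.StmtsW
import Pool.Agent.VOP.DG
import Pool.Agent.VOP.SYM

/-!
# Module LNB: the parts are put together
-/

namespace Pool.Agent.VOP

open MvPolynomial Pool.Agent.VSY

namespace LNB

variable {K : Type} [Field K] {A : Type} [Fintype A] [DecidableEq A]

/-- The operator `T`. -/
noncomputable def T (C : Finset A) (u₀ w : A) : PX K A 3 →ₗ[K] PX K A 3 :=
  (ren (mv u₀ w)).toLinearMap ∘ₗ
    (LinearMap.id - ∑ b ∈ C, (ren (Equiv.swap u₀ b)).toLinearMap)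

omit [Fintype A] in
theorem T_apply (C : Finset A) (u₀ w : A) (G : PX K A 3) :
    T C u₀ w G = ren (mv u₀ w) (G - ∑ b ∈ C, ren (Equiv.swap u₀ b) G) := by
  simp only [T, LinearMap.comp_apply, LinearMap.sub_apply, LinearMap.id_apply,
    LinearMap.sum_apply, AlgHom.toLinearMap_apply]

theorem comm_mv {C : Finset A} {u₀ w : A} (hw : w ∉ C) (hu : u₀ ∉ C) {π : Equiv.Perm A}
    (hπ : π ∈ pS C) (G : PX K A 3) :
    ren (mv u₀ w) (ren π G) = ren π (ren (mv u₀ w) G) := by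
  rw [ren_ren, ren_ren]
  refine ren_congr (fun x => ?_) G
  rw [Function.comp_apply, Function.comp_apply]
  have h1 : π u₀ = u₀ := SYM.mem_pS.1 hπ u₀ hu
  have h2 : π w = w := SYM.mem_pS.1 hπ w hw
  by_cases hx : x = u₀
  · rw [hx, h1, mv, Function.update_self, h2]
  · have h3 : π x ≠ u₀ := by
      intro h
      rw [← h1] at h
      exact hx (π.injective h)
    rw [mv, Function.update_of_ne h3, Function.update_of_ne hx]
    rfl

theorem comm_sum {C : Finset A} {u₀ : A} (hu : u₀ ∉ C) {π : Equiv.Perm A}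
    (hπ : π ∈ pS C) (G : PX K A 3) :
    ∑ b ∈ C, ren (Equiv.swap u₀ b) (ren π G) = ren π (∑ b ∈ C, ren (Equiv.swap u₀ b) G) := by
  rw [map_sum]
  symm
  refine Finset.sum_nbij' (fun b => π b) (fun b => π⁻¹ b) (fun b hb => SYM.maps hπ hb)
    (fun b hb => SYM.maps (SYM.inv_mem hπ) hb) (fun b _ => ?_) (fun b _ => ?_)
    (fun b _ => ?_)
  · exact π.symm_apply_apply b
  · exact π.apply_symm_apply b
  · rw [← SYM.ren_mul, ← SYM.ren_mul]
    have h1 : π u₀ = u₀ := SYM.mem_pS.1 hπ u₀ hu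
    have h2 : π * Equiv.swap u₀ b = Equiv.swap u₀ (π b) * π := by
      have h3 := Equiv.mul_swap_eq_swap_mul π u₀ b
      rw [h1] at h3
      exact h3
    rw [h2]

theorem comm_T {C : Finset A} {u₀ w : A} (hw : w ∉ C) (hu : u₀ ∉ C) {π : Equiv.Perm A}
    (hπ : π ∈ pS C) (G : PX K A 3) : T C u₀ w (ren π G) = ren π (T C u₀ w G) := by
  rw [T_apply, T_apply, comm_sum hu hπ, ← map_sub, comm_mv hw hu hπ]

theorem T_alt {C : Finset A} {u₀ w : A} (hw : w ∉ C) (hu : u₀ ∉ C) (G : PX K A 3) :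
    T C u₀ w (alt C G) = alt C (T C u₀ w G) := by
  rw [SYM.alt_def, SYM.alt_def, map_sum]
  refine Finset.sum_congr rfl fun π hπ => ?_
  rw [map_zsmul, comm_T hw hu hπ]

omit [Fintype A] [DecidableEq A] in
/-- Divisibility from the monomials. -/
theorem dvd_of_mon {p : A} {G : PX K A 3} (h : ∀ m ∈ G.support, 1 ≤ m (p, 2)) :
    (X (p, 2) : PX K A 3) ∣ G := by
  rw [G.as_sum]
  refine Finset.dvd_sum fun m hm => ?_
  rw [X_dvd_monomial]
  right
  have := h m hm
  omega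

theorem dvd_term {u₀ w b : A} {G : PX K A 3} (h : ∀ m ∈ G.support, 1 ≤ m (b, 2)) :
    (X (w, 2) : PX K A 3) ∣ ren (mv u₀ w) (ren (Equiv.swap u₀ b) G) := by
  obtain ⟨q, hq⟩ := dvd_of_mon h
  refine ⟨ren (mv u₀ w) (ren (Equiv.swap u₀ b) q), ?_⟩
  rw [hq, map_mul, map_mul, ren_X, ren_X, Equiv.swap_apply_right, mv, Function.update_self]

theorem T_part {C S : Finset A} {u₀ w : A} (hu : u₀ ∉ C) (hS : S ⊆ C) {G : PX K A 3}
    (hal : Al (insert u₀ (C \ S)) G) (hm : ∀ m ∈ G.support, ∀ p ∈ S, 1 ≤ m (p, 2)) :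
    (X (w, 2) : PX K A 3) ∣
      T C u₀ w G - ((1 + (C \ S).card : ℕ) : K) • ren (mv u₀ w) G := by
  have h1 : ∑ b ∈ C \ S, ren (mv u₀ w) (ren (Equiv.swap u₀ b) G) =
      -(((C \ S).card : K) • ren (mv u₀ w) G) := by
    have h2 : ∀ b ∈ C \ S, ren (mv u₀ w) (ren (Equiv.swap u₀ b) G) = -ren (mv u₀ w) G := by
      intro b hb
      have hb' : u₀ ≠ b := by
        rintro rfl
        exact hu (Finset.mem_sdiff.1 hb).1
      rw [hal u₀ (Finset.mem_insert_self _ _) b (Finset.mem_insert_of_mem hb) hb', map_neg]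
    rw [Finset.sum_congr rfl h2, Finset.sum_neg_distrib, Finset.sum_const, Nat.cast_smul_eq_nsmul]
  have h3 : T C u₀ w G - ((1 + (C \ S).card : ℕ) : K) • ren (mv u₀ w) G =
      -∑ b ∈ S, ren (mv u₀ w) (ren (Equiv.swap u₀ b) G) := by
    rw [T_apply, map_sub, map_sum, ← Finset.sum_sdiff hS, h1, Nat.cast_add, Nat.cast_one,
      add_smul, one_smul]
    abel
  rw [h3, dvd_neg]
  exact Finset.dvd_sum fun b hb => dvd_term fun m hmm => hm m hmm b hb

theorem alt_dvd {C : Finset A} {w : A} (hw : w ∉ C) {G : PX K A 3}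
    (h : (X (w, 2) : PX K A 3) ∣ G) : (X (w, 2) : PX K A 3) ∣ alt C G := by
  rw [SYM.alt_def]
  refine Finset.dvd_sum fun π hπ => ?_
  obtain ⟨q, hq⟩ := h
  refine Dvd.intro (SYM.sg π • ren π q) ?_
  rw [hq, map_mul, ren_X, SYM.mem_pS.1 hπ w hw, mul_smul_comm]

end LNB

open LNB in
/-- The parts are put together. -/
theorem LNB_thm : Stmt_LNB := by
  intro K _ _ A _ _ δ C w u₀ f h hw hu hne hδ hf hh hdvd
  have hDG := DG_thm K A A 3
  set H : PX K A 3 := ∑ S ∈ C.powerset, ((1 + (C \ S).card : ℕ) : K)⁻¹ • h S with hH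
  have hHdg : Dg δ H := by
    refine DG.sum _ _ fun S hS => ?_
    exact DG.smul _ (hh S (Finset.mem_powerset.1 hS)).2.1
  -- `T H` is congruent to `f`
  have hT : (X (w, 2) : PX K A 3) ∣ T C u₀ w H - f := by
    have h1 : T C u₀ w H - f =
        (∑ S ∈ C.powerset, ((1 + (C \ S).card : ℕ) : K)⁻¹ •
          (T C u₀ w (h S) - ((1 + (C \ S).card : ℕ) : K) • ren (mv u₀ w) (h S))) -
        (f - ∑ S ∈ C.powerset, ren (mv u₀ w) (h S)) := by
      have h2 : ∀ S ∈ C.powerset, ((1 + (C \ S).card : ℕ) : K)⁻¹ •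
          (T C u₀ w (h S) - ((1 + (C \ S).card : ℕ) : K) • ren (mv u₀ w) (h S)) =
          T C u₀ w (((1 + (C \ S).card : ℕ) : K)⁻¹ • h S) - ren (mv u₀ w) (h S) := by
        intro S _
        have h3 : ((1 + (C \ S).card : ℕ) : K) ≠ 0 := by
          rw [Nat.cast_ne_zero]
          omega
        rw [smul_sub, smul_smul, inv_mul_cancel₀ h3, one_smul, map_smul]
      rw [Finset.sum_congr rfl h2, Finset.sum_sub_distrib, hH, map_sum]
      abel
    rw [h1]
    refine dvd_sub (Finset.dvd_sum fun S hS => ?_) hdvd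
    have hS' := Finset.mem_powerset.1 hS
    obtain ⟨q, hq⟩ := T_part (w := w) hu hS' (hh S hS').1 (hh S hS').2.2
    refine Dvd.intro (((1 + (C \ S).card : ℕ) : K)⁻¹ • q) ?_
    rw [hq, mul_smul_comm]
  have hfac : ((C.card.factorial : ℕ) : K) ≠ 0 := Nat.cast_ne_zero.2 (Nat.factorial_ne_zero _)
  set H' : PX K A 3 := ((C.card.factorial : ℕ) : K)⁻¹ • alt C H with hH'
  have hSYM := SYM_thm DG_thm K A 3
  have hal : Al C H' := by
    intro x hx y hy hxy
    rw [hH', map_smul, SYM.al_alt C H x hx y hy hxy, smul_neg]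
  have hδC : ∀ x ∈ insert u₀ C, δ x = δ u₀ := by
    intro x hx
    rcases Finset.mem_insert.1 hx with rfl | hx
    · rfl
    · exact hδ x hx
  have hdg : Dg δ H' := by
    refine DG.smul _ ?_
    exact (hSYM.2.2.2.2.2.2.2.1 C δ H (fun x hx y hy => by rw [hδ x hx, hδ y hy]) hHdg).1
  refine ⟨H' - ∑ b ∈ C, ren (Equiv.swap u₀ b) H', SYM.al_insert hu hal, ?_, ?_⟩
  · refine DG.sub hdg (DG.sum _ _ fun b hb => ?_)
    refine hDG.2.2.2.2.2.2.2.2.1 δ (Equiv.swap u₀ b) H' (fun a => ?_) hdg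
    by_cases h1 : a = u₀
    · rw [h1, Equiv.swap_apply_left, hδ b hb]
    · by_cases h2 : a = b
      · rw [h2, Equiv.swap_apply_right, hδ b hb]
      · rw [Equiv.swap_apply_of_ne_of_ne h1 h2]
  · rw [← T_apply, hH', map_smul, T_alt hw hu]
    have h1 : f = ((C.card.factorial : ℕ) : K)⁻¹ • alt C f := by
      rw [SYM.alt_al hf, ← Int.cast_smul_eq_zsmul K, smul_smul, Int.cast_natCast,
        inv_mul_cancel₀ hfac, one_smul]
    have h2 : ((C.card.factorial : ℕ) : K)⁻¹ • alt C (T C u₀ w H) - f =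
        ((C.card.factorial : ℕ) : K)⁻¹ • alt C (T C u₀ w H - f) := by
      have h3 : alt C (T C u₀ w H - f) = alt C (T C u₀ w H) - alt C f := by
        have h4 := SYM.alt_add C (T C u₀ w H - f) f
        rw [sub_add_cancel] at h4
        rw [h4, add_sub_cancel_right]
      rw [h3, smul_sub, ← h1]
    rw [h2]
    obtain ⟨q, hq⟩ := alt_dvd hw hT
    refine Dvd.intro (((C.card.factorial : ℕ) : K)⁻¹ • q) ?_
    rw [hq, mul_smul_comm]

end Pool.Agent.VOP
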