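import Pool.Agent.VOP.StmtsW
import Pool.Agent.VOP.PR

/-!
# LNF: gluing on the line `X (·, 2) = 0` (MP_deb8da_ag, block D1 in points)
-/

namespace Pool.Agent.VOP

open MvPolynomial Pool.Agent.VSY

namespace LNF

theorem sum_pr {K : Type} [Field K] {A : Type} [Fintype A] [DecidableEq A] (C : Finset A)
    (w : A) (f : PX K A 3) :
    ∑ S ∈ C.powerset, pr (2 : Fin 3) w (fun J => J ∩ C = S) f =
      pr (2 : Fin 3) w (fun _ => True) f := by
  have hPR := (PR_thm K A 3 (2 : Fin 3) w).1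
  refine MvPolynomial.ext _ _ fun m => ?_
  rw [coeff_sum]
  by_cases hm : m (w, 2) = 0
  · rw [(hPR (fun _ => True) f m).1 ⟨hm, trivial⟩]
    rw [Finset.sum_eq_single (js (2 : Fin 3) w m ∩ C)]
    · exact (hPR (fun J => J ∩ C = js (2 : Fin 3) w m ∩ C) f m).1 ⟨hm, rfl⟩
    · intro S _ hS
      exact (hPR (fun J => J ∩ C = S) f m).2 fun h => hS h.2.symm
    · intro h
      exact absurd (Finset.mem_powerset.2 Finset.inter_subset_right) h
  · rw [(hPR (fun _ => True) f m).2 fun h => hm h.1]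
    refine Finset.sum_eq_zero fun S _ => ?_
    exact (hPR (fun J => J ∩ C = S) f m).2 fun h => hm h.1

end LNF

theorem LNF_thm (h1 : Stmt_LNA) (h2 : Stmt_LNB) : Stmt_LNF := by
  intro K _ _ A _ _ δ N C w u₀ ν f hN hw hu hne hδC hδw hδu hDg hAl hCy hW hE hν
  have key := fun (S : Finset A) (hS : S ⊆ C) =>
    h1 K A δ N C S w u₀ ν f hN hw hu hne hS hδC hδw hδu hDg hAl hCy hW hE hν
  choose! h hh using key
  refine h2 K A (Function.update (Function.update δ w (N - 2)) u₀ (N + 1)) C w u₀ f h hw hu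
    hne ?_ hAl ?_ ?_
  · intro u huC
    have hu1 : u ≠ u₀ := fun h => hu (h ▸ huC)
    have hu2 : u ≠ w := fun h => hw (h ▸ huC)
    rw [Function.update_of_ne hu1, Function.update_of_ne hu2, Function.update_self, hδC u huC]
  · intro S hS
    exact ⟨(hh S hS).1, (hh S hS).2.1, (hh S hS).2.2.1⟩
  · have h3 : ∑ S ∈ C.powerset, ren (mv u₀ w) (h S) = pr (2 : Fin 3) w (fun _ => True) f := by
      rw [← LNF.sum_pr C w f]
      exact Finset.sum_congr rfl fun S hS => (hh S (Finset.mem_powerset.1 hS)).2.2.2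
    rw [h3]
    exact (PR_thm K A 3 (2 : Fin 3) w).2.2.2.1 f

end Pool.Agent.VOP
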