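import Pool.Agent.VOP.StmtsW
import Pool.Agent.VOP.DG
import Pool.Agent.VOP.SYM
import Pool.Agent.VOP.PR

/-!
# Module P1B: boundaries in two coordinates
-/

namespace Pool.Agent.VOP

open MvPolynomial Pool.Agent.VSY

namespace P1B

section nc

variable {K : Type} [Field K] {A : Type}

theorem nc_zero (J : Finset A) : NC J (0 : PX K A 3) := fun m hm => by simp at hm

theorem nc_add {J : Finset A} {f g : PX K A 3} (hf : NC J f) (hg : NC J g) : NC J (f + g) := by
  classical
  intro m hm x hx
  rcases Finset.mem_union.1 (support_add hm) with h | h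
  · exact hf m h x hx
  · exact hg m h x hx

theorem nc_smul {J : Finset A} (a : K) {f : PX K A 3} (hf : NC J f) : NC J (a • f) :=
  fun m hm x hx => hf m (support_smul hm) x hx

theorem nc_neg {J : Finset A} {f : PX K A 3} (hf : NC J f) : NC J (-f) := by
  intro m hm x hx
  rw [support_neg] at hm
  exact hf m hm x hx

theorem nc_sub {J : Finset A} {f g : PX K A 3} (hf : NC J f) (hg : NC J g) : NC J (f - g) := by
  rw [sub_eq_add_neg]
  exact nc_add hf (nc_neg hg)

theorem nc_sum {J : Finset A} {ι : Type} (s : Finset ι) (f : ι → PX K A 3)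
    (h : ∀ i ∈ s, NC J (f i)) : NC J (∑ i ∈ s, f i) := by
  classical
  induction s using Finset.induction_on with
  | empty => rw [Finset.sum_empty]; exact nc_zero J
  | insert a s ha ih =>
    rw [Finset.sum_insert ha]
    exact nc_add (h a (Finset.mem_insert_self _ _))
      (ih fun i hi => h i (Finset.mem_insert_of_mem hi))

theorem nc_mul {J : Finset A} {f g : PX K A 3} (hf : NC J f) (hg : NC J g) : NC J (f * g) := by
  classical
  intro m hm x hx
  obtain ⟨a, ha, b, hb, rfl⟩ := Finset.mem_add.1 (support_mul f g hm)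
  rw [Finsupp.add_apply, hf a ha x hx, hg b hb x hx]

theorem nc_one (J : Finset A) : NC J (1 : PX K A 3) := by
  classical
  intro m hm x _
  rw [mem_support_iff, coeff_one] at hm
  have : (0 : A × Fin 3 →₀ ℕ) = m := by
    by_contra h
    exact hm (if_neg h)
  rw [← this]
  rfl

theorem nc_prod {J : Finset A} {ι : Type} (s : Finset ι) (f : ι → PX K A 3)
    (h : ∀ i ∈ s, NC J (f i)) : NC J (∏ i ∈ s, f i) := by
  classical
  induction s using Finset.induction_on with
  | empty => rw [Finset.prod_empty]; exact nc_one J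
  | insert a s ha ih =>
    rw [Finset.prod_insert ha]
    exact nc_mul (h a (Finset.mem_insert_self _ _))
      (ih fun i hi => h i (Finset.mem_insert_of_mem hi))

theorem nc_var (J : Finset A) (p : A) {i : Fin 3} (hi : i ≠ 2) :
    NC J (X (p, i) : PX K A 3) := by
  classical
  intro m hm x _
  rw [support_X, Finset.mem_singleton] at hm
  subst hm
  rw [Finsupp.single_apply, if_neg]
  intro h2
  exact hi (congrArg Prod.snd h2)

theorem cr2 (p q : A) : cr K p q 2 = X (p, 0) * X (q, 1) - X (p, 1) * X (q, 0) := rfl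

theorem nc_cr (J : Finset A) (p q : A) : NC J (cr K p q 2) := by
  rw [cr2]
  exact nc_sub (nc_mul (nc_var J p (by decide)) (nc_var J q (by decide)))
    (nc_mul (nc_var J p (by decide)) (nc_var J q (by decide)))

theorem ren_cr {B : Type} (φ : A → B) (p q : A) :
    ren φ (cr K p q 2) = cr K (φ p) (φ q) 2 := by
  simp only [cr2, map_sub, map_mul, ren_X]

theorem cr_self (p : A) : cr K p p 2 = 0 := by
  rw [cr2]
  ring

theorem cr_neg (p q : A) : cr K p q 2 = -cr K q p 2 := by
  rw [cr2, cr2]
  ring

theorem nc_ren [Fintype A] {B : Type} [DecidableEq B] {J : Finset A} {J' : Finset B} (φ : A → B)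
    {f : PX K A 3} (hf : NC J f) (h : ∀ y, φ y ∈ J' → y ∈ J) : NC J' (ren φ f) := by
  intro m hm x hx
  obtain ⟨m', hm', rfl⟩ := exists_of_mem_support_ren φ f hm
  rw [mapDomain_deg]
  refine Finset.sum_eq_zero fun a ha => ?_
  have ha' : φ a = x := (Finset.mem_filter.1 ha).2
  exact hf m' hm' a (h a (by rw [ha']; exact hx))

/-- a point of degree zero can be added -/
theorem nc_insert [DecidableEq A] {J : Finset A} {δ : A → ℕ} {u : A} {f : PX K A 3} (hf : NC J f)
    (hd : Dg δ f) (hu : δ u = 0) : NC (insert u J) f := by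
  intro m hm x hx
  rcases Finset.mem_insert.1 hx with rfl | hx
  · have h1 := hd m hm x
    rw [hu] at h1
    exact Finset.sum_eq_zero_iff.1 h1 2 (Finset.mem_univ _)
  · exact hf m hm x hx

theorem nc_mono {J J' : Finset A} (h : J' ⊆ J) {f : PX K A 3} (hf : NC J f) : NC J' f :=
  fun m hm x hx => hf m hm x (h hx)

/-- monomials of a derivative -/
theorem mem_pderiv {σ : Type} [DecidableEq σ] {y : σ} {f : MvPolynomial σ K} {m : σ →₀ ℕ}
    (hm : m ∈ (pderiv y f).support) : m + Finsupp.single y 1 ∈ f.support := by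
  rw [mem_support_iff] at hm ⊢
  intro h0
  apply hm
  rw [f.as_sum, map_sum, coeff_sum]
  refine Finset.sum_eq_zero fun a ha => ?_
  rw [pderiv_monomial, coeff_monomial]
  split_ifs with h1
  · by_cases h2 : a y = 0
    · rw [h2]
      simp
    · exfalso
      apply mem_support_iff.1 ha
      have : m + Finsupp.single y 1 = a := by
        rw [← h1]
        apply tsub_add_cancel_of_le
        rw [Finsupp.single_le_iff]
        exact Nat.one_le_iff_ne_zero.2 h2
      rw [← this]
      exact h0
  · rfl

theorem nc_pderiv [DecidableEq A] {J : Finset A} {f : PX K A 3} (hf : NC J f) (y : A × Fin 3) :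
    NC J (pderiv y f) := by
  intro m hm x hx
  have h := hf _ (mem_pderiv hm) x hx
  rw [Finsupp.add_apply] at h
  omega

theorem pderiv_two [DecidableEq A] {J : Finset A} {f : PX K A 3} (hf : NC J f) {w : A} (hw : w ∈ J) :
    pderiv (w, (2 : Fin 3)) f = 0 := by
  by_contra h
  obtain ⟨m, hm⟩ := support_nonempty.2 h
  have h2 := hf _ (mem_pderiv hm) w hw
  rw [Finsupp.add_apply, Finsupp.single_eq_same] at h2
  omega

end nc

section split

variable {K : Type} [Field K] {A : Type} [Fintype A] [DecidableEq A]

/-- polarisation -/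
noncomputable def Pol (u w : A) (f : PX K A 3) : PX K A 3 := ∑ c, X (u, c) * pderiv (w, c) f

theorem single_deg (x : A) (j : Fin 3) (y : A) :
    ∑ l, (Finsupp.single (x, j) 1 : A × Fin 3 →₀ ℕ) (y, l) = if x = y then 1 else 0 := by
  classical
  simp only [Finsupp.single_apply, Prod.mk.injEq]
  by_cases h : x = y
  · simp [h]
  · simp [h]

theorem dg_pderiv {δ : A → ℕ} {f : PX K A 3} (hf : Dg δ f) (w : A) (c : Fin 3) {e : ℕ}
    (he : δ w = e + 1) : Dg (Function.update δ w e) (pderiv (w, c) f) := by
  intro m hm x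
  have h := hf _ (mem_pderiv hm) x
  simp only [Finsupp.add_apply, Finset.sum_add_distrib] at h
  rw [single_deg] at h
  by_cases hx : x = w
  · subst hx
    rw [Function.update_self]
    rw [if_pos rfl] at h
    omega
  · rw [Function.update_of_ne hx]
    rw [if_neg (Ne.symm hx)] at h
    omega

theorem pol_dg {δ : A → ℕ} {f : PX K A 3} (hf : Dg δ f) {u w : A} (huw : u ≠ w) {e k : ℕ}
    (he : δ w = e + 1) (hk : δ u = k) :
    Dg (Function.update (Function.update δ w e) u (k + 1)) (Pol u w f) := by
  refine DG.sum _ _ fun c _ => ?_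
  have h := DG.mul (DG.var u c) (dg_pderiv hf w c he)
  convert h using 1
  funext x
  by_cases hx : x = u
  · subst hx
    rw [Function.update_self, Pi.single_eq_same, Function.update_of_ne huw, hk]
    ring
  · rw [Function.update_of_ne hx, Pi.single_eq_of_ne hx, zero_add]

theorem pol_nc {J : Finset A} {f : PX K A 3} (hf : NC J f) {u w : A} (hw : w ∈ J) :
    NC J (Pol u w f) := by
  refine nc_sum _ _ fun c _ => ?_
  by_cases hc : c = 2
  · subst hc
    rw [pderiv_two hf hw, mul_zero]
    exact nc_zero J
  · exact nc_mul (nc_var J u hc) (nc_pderiv hf _)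

/-- Euler's relation at the point `w` -/
theorem euler {w : A} {t : ℕ} {f : PX K A 3} (hf : ∀ m ∈ f.support, ∑ j, m (w, j) = t) :
    ∑ c, X (w, c) * pderiv (w, c) f = (t : K) • f := by
  classical
  conv_lhs => rw [f.as_sum]
  conv_rhs => rw [f.as_sum]
  simp only [map_sum, Finset.mul_sum, Finset.smul_sum]
  rw [Finset.sum_comm]
  refine Finset.sum_congr rfl fun m hm => ?_
  have h1 : ∀ c : Fin 3, X (w, c) * pderiv (w, c) (monomial m (coeff m f)) =
      ((m (w, c) : ℕ) : K) • monomial m (coeff m f) := by
    intro c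
    rw [pderiv_monomial]
    by_cases h0 : m (w, c) = 0
    · rw [h0]
      simp
    · rw [X, monomial_mul, one_mul, add_tsub_cancel_of_le, smul_monomial, smul_eq_mul, mul_comm]
      rw [Finsupp.single_le_iff]
      exact Nat.one_le_iff_ne_zero.2 h0
  rw [Finset.sum_congr rfl fun c _ => h1 c, ← Finset.sum_smul, ← Nat.cast_sum, hf m hm]

theorem pol_mv {δ : A → ℕ} {f : PX K A 3} (hf : Dg δ f) (u w : A) :
    ren (mv u w) (Pol u w f) = (δ w : K) • ren (mv u w) f := by
  have h1 : ren (mv u w) (Pol u w f) = ren (mv u w) (∑ c, X (w, c) * pderiv (w, c) f) := by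
    rw [Pol, map_sum, map_sum]
    refine Finset.sum_congr rfl fun c _ => ?_
    rw [map_mul, map_mul, ren_X, ren_X]
    congr 2
    have h2 : mv u w u = w := Function.update_self _ _ _
    have h3 : mv u w w = w := by
      by_cases h : w = u
      · rw [h]
        exact Function.update_self _ _ _
      · exact Function.update_of_ne h _ _
    rw [h2, h3]
  rw [h1, euler fun m hm => hf m hm w, map_smul]

theorem pderiv_perm (π : Equiv.Perm A) (f : PX K A 3) (b : A) (j : Fin 3) :
    pderiv (π b, j) (ren π f) = ren π (pderiv (b, j) f) := by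
  rw [pderiv_ren]
  have : (Finset.univ.filter fun a => π a = π b) = {b} := by
    ext a
    simp
  rw [this, Finset.sum_singleton]

theorem pol_swap {u w x y : A} (hxu : u ≠ x) (hxw : w ≠ x) (hyu : u ≠ y) (hyw : w ≠ y)
    (f : PX K A 3) :
    ren (Equiv.swap x y) (Pol u w f) = Pol u w (ren (Equiv.swap x y) f) := by
  rw [Pol, Pol, map_sum]
  refine Finset.sum_congr rfl fun c _ => ?_
  have h1 : Equiv.swap x y u = u := Equiv.swap_apply_of_ne_of_ne hxu hyu
  have h2 : Equiv.swap x y w = w := Equiv.swap_apply_of_ne_of_ne hxw hyw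
  rw [map_mul, ren_X, h1, ← pderiv_perm, h2]

theorem pol_neg (u w : A) (f : PX K A 3) : Pol u w (-f) = -Pol u w f := by
  simp only [Pol, map_neg, mul_neg, Finset.sum_neg_distrib]

theorem pol_al {J : Finset A} {u w : A} (hu : u ∉ J) (hw : w ∉ J) {f : PX K A 3} (hf : Al J f) :
    Al J (Pol u w f) := by
  intro x hx y hy hxy
  have ne : ∀ {a b : A}, a ∉ J → b ∈ J → a ≠ b := by
    rintro a b ha hb rfl
    exact ha hb
  rw [pol_swap (ne hu hx) (ne hw hx) (ne hu hy) (ne hw hy), hf x hx y hy hxy, pol_neg]

/-- splitting of the exponents at `w` -/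
theorem split [CharZero K] {δ : A → ℕ} {J : Finset A} {u w : A} (huw : u ≠ w) (hu : u ∉ J)
    (hw : w ∉ J) {g : PX K A 3} (hd : Dg δ g) (hδ : δ u = 0) (ha : Al J g)
    (hn : NC (insert w (insert u J)) g) {s : ℕ} (hs : δ w = s) :
    ∀ k ≤ s, ∃ G : PX K A 3, Dg (Function.update (Function.update δ w (s - k)) u k) G ∧ Al J G ∧
      NC (insert w (insert u J)) G ∧ ren (mv u w) G = g := by
  have hmv : ren (mv u w) g = g := by
    have := DG.ren_eq δ (mv u w) id g (by
      intro x hx
      have : x ≠ u := by
        rintro rfl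
        exact hx hδ
      exact Function.update_of_ne this _ _) hd
    rw [this, ren_id]
  intro k
  induction k with
  | zero =>
    intro _
    refine ⟨g, ?_, ha, hn, hmv⟩
    convert hd using 1
    funext x
    by_cases hx : x = u
    · subst hx
      rw [Function.update_self, hδ]
    · rw [Function.update_of_ne hx]
      by_cases hxw : x = w
      · subst hxw
        rw [Function.update_self, hs]
        simp
      · rw [Function.update_of_ne hxw]
  | succ k ih =>
    intro hk
    obtain ⟨G, h1, h2, h3, h4⟩ := ih (by omega)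
    have hc : ((s - k : ℕ) : K) ≠ 0 := by
      have : s - k ≠ 0 := by omega
      exact_mod_cast this
    refine ⟨((s - k : ℕ) : K)⁻¹ • Pol u w G, ?_, ?_, ?_, ?_⟩
    · have h5 := pol_dg h1 huw (e := s - (k + 1)) (k := k) (by
        rw [Function.update_of_ne (Ne.symm huw), Function.update_self]
        omega) (by rw [Function.update_self])
      refine DG.smul _ ?_
      convert h5 using 1
      funext x
      by_cases hx : x = u
      · subst hx
        simp only [Function.update_self]
      · simp only [Function.update_of_ne hx]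
        by_cases hxw : x = w
        · subst hxw
          simp only [Function.update_self]
        · simp only [Function.update_of_ne hxw, Function.update_of_ne hx]
    · have := pol_al hu hw h2
      intro x hx y hy hxy
      rw [map_smul, this x hx y hy hxy, smul_neg]
    · exact nc_smul _ (pol_nc h3 (Finset.mem_insert_self _ _))
    · rw [map_smul, pol_mv h1, h4, Function.update_of_ne (Ne.symm huw), Function.update_self,
        smul_smul, inv_mul_cancel₀ hc, one_smul]

end split

section prod

variable {K : Type} [Field K] {A : Type} [Fintype A] [DecidableEq A]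

theorem mv_self (u w : A) : mv u w u = w := Function.update_self _ _ _

theorem mv_ne {u w x : A} (h : x ≠ u) : mv u w x = x := Function.update_of_ne h _ _

theorem dg_congr {δ δ' : A → ℕ} {f : PX K A 3} (h : ∀ x, δ x = δ' x) (hf : Dg δ f) : Dg δ' f := by
  rwa [← funext h]

theorem dg_cr (p q : A) :
    Dg (fun x => (Pi.single p 1 : A → ℕ) x + (Pi.single q 1 : A → ℕ) x) (cr K p q 2) := by
  rw [cr2]
  exact DG.sub (DG.mul (DG.var p 0) (DG.var q 1)) (DG.mul (DG.var p 1) (DG.var q 0))

theorem dg_prod (w : A) (J : Finset A) :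
    Dg (fun x => (if x ∈ J then 1 else 0) + (if x = w then J.card else 0))
      (∏ u ∈ J, cr K u w 2) := by
  induction J using Finset.induction_on with
  | empty =>
    rw [Finset.prod_empty]
    exact dg_congr (by simp) (DG.one : Dg (fun _ => 0) (1 : PX K A 3))
  | insert a s ha ih =>
    rw [Finset.prod_insert ha]
    refine dg_congr (fun x => ?_) (DG.mul (dg_cr a w) ih)
    rw [Finset.card_insert_of_notMem ha]
    simp only [Pi.single_apply]
    by_cases h1 : x = a
    · subst h1
      simp only [ha, if_true, if_false, Finset.mem_insert_self]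
      split_ifs <;> omega
    · have h2 : (x ∈ insert a s) ↔ x ∈ s := by simp [h1]
      simp only [h1, h2, if_false]
      split_ifs <;> omega

theorem ren_prod {B : Type} (φ : A → B) (w : A) (J : Finset A) :
    ren φ (∏ u ∈ J, cr K u w 2) = ∏ u ∈ J, cr K (φ u) (φ w) 2 := by
  rw [map_prod]
  exact Finset.prod_congr rfl fun u _ => ren_cr φ u w

theorem sy_prod {w : A} {J : Finset A} (hw : w ∉ J) : Sy J (∏ u ∈ J, cr K u w 2) := by
  intro x hx y hy
  have ne : ∀ {b : A}, b ∈ J → w ≠ b := by
    rintro b hb rfl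
    exact hw hb
  rw [ren_prod, Equiv.swap_apply_of_ne_of_ne (ne hx) (ne hy)]
  refine Finset.prod_nbij' (Equiv.swap x y) (Equiv.swap x y)
    (fun b hb => SYM.maps (SYM.swap_mem hx hy) hb) (fun b hb => SYM.maps (SYM.swap_mem hx hy) hb)
    (fun b _ => ?_) (fun b _ => ?_) (fun b _ => rfl)
  · exact Equiv.swap_apply_self x y b
  · exact Equiv.swap_apply_self x y b

end prod


section main

variable {K : Type} [Field K] {A : Type} [Fintype A] [DecidableEq A]

/-- the antisymmetrisation of a chain -/
theorem bd_of [CharZero K] {δ : A → ℕ} {N e : ℕ} {J : Finset A} {w u₀ : A} (hw : w ∉ J) (hu : u₀ ∉ J)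
    (huw : u₀ ≠ w) (hδ : ∀ u ∈ J, δ u = N + 1) {E F : PX K A 3} (ha : Al J E)
    (hn : NC (insert w (insert u₀ J)) E)
    (hd : Dg (Function.update (Function.update δ w e) u₀ (N + 1)) E) {c : K} (hc : c ≠ 0)
    (hF : ren (mv u₀ w) E - ∑ b ∈ J, ren (mv u₀ w) (ren (Equiv.swap u₀ b) E) = c • F) :
    BdN δ N e J w u₀ F := by
  have hal := SYM.al_insert hu ha
  refine ⟨c⁻¹ • (E - ∑ b ∈ J, ren (Equiv.swap u₀ b) E), ?_, ?_, ?_, ?_⟩
  · intro x hx y hy hxy
    rw [map_smul, hal x hx y hy hxy, smul_neg]
  · refine nc_smul _ (nc_sub hn (nc_sum _ _ fun b hb => nc_ren _ hn fun y hy => ?_))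
    by_contra hy2
    have h1 : y ≠ u₀ := by
      rintro rfl
      exact hy2 (by simp)
    have h2 : y ≠ b := by
      rintro rfl
      exact hy2 (by simp [hb])
    rw [Equiv.swap_apply_of_ne_of_ne h1 h2] at hy
    exact hy2 hy
  · refine DG.smul _ (DG.sub hd (DG.sum _ _ fun b hb => DG.ren_perm _ _ _ (fun a => ?_) hd))
    have hbu : b ≠ u₀ := by
      rintro rfl
      exact hu hb
    have hbw : b ≠ w := by
      rintro rfl
      exact hw hb
    by_cases h1 : a = u₀
    · subst h1
      rw [Equiv.swap_apply_left, Function.update_self, Function.update_of_ne hbu,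
        Function.update_of_ne hbw, hδ b hb]
    · by_cases h2 : a = b
      · subst h2
        rw [Equiv.swap_apply_right, Function.update_self, Function.update_of_ne hbu,
          Function.update_of_ne hbw, hδ a hb]
      · rw [Equiv.swap_apply_of_ne_of_ne h1 h2]
  · rw [map_smul, map_sub, map_sum, hF, smul_smul, inv_mul_cancel₀ hc, one_smul]

theorem case_big [CharZero K] {δ : A → ℕ} {N e : ℕ} {J : Finset A} {w u₀ : A} (hw : w ∉ J)
    (hu : u₀ ∉ J) (huw : u₀ ≠ w) (hδ : ∀ u ∈ J, δ u = N + 1) (hu0 : δ u₀ = 0) {s : ℕ}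
    {g : PX K A 3} (hs : s + J.card = e + N + 1) (ha : Al J g) (hn : NC (insert w J) g)
    (hd : Dg (fun x => if x ∈ J then N else if x = w then s else δ x) g) (hN : N + 1 ≤ s) :
    BdN δ N e J w u₀ ((∏ u ∈ J, cr K u w 2) * g) := by
  have hz : (fun x => if x ∈ J then N else if x = w then s else δ x) u₀ = 0 := by
    simp only
    rw [if_neg hu, if_neg huw, hu0]
  have hn' : NC (insert w (insert u₀ J)) g := by
    rw [Finset.insert_comm]
    exact nc_insert hn hd hz
  obtain ⟨G, h1, h2, h3, h4⟩ := split huw hu hw hd hz ha hn'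
    (by simp [hw]) (N + 1) hN
  refine bd_of (E := (∏ u ∈ J, cr K u w 2) * G) (c := 1) hw hu huw hδ ?_ ?_ ?_ one_ne_zero ?_
  · intro x hx y hy hxy
    rw [map_mul, sy_prod hw x hx y hy, h2 x hx y hy hxy, mul_neg]
  · exact nc_mul (nc_prod _ _ fun u _ => nc_cr _ u w) h3
  · refine dg_congr (fun x => ?_) (DG.mul (dg_prod w J) h1)
    by_cases hx : x = u₀
    · subst hx
      rw [if_neg hu, if_neg huw, Function.update_self, Function.update_self]
      omega
    · rw [Function.update_of_ne hx, Function.update_of_ne hx]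
      by_cases hxw : x = w
      · subst hxw
        rw [if_neg hw, if_pos rfl, Function.update_self, Function.update_self]
        omega
      · rw [Function.update_of_ne hxw, Function.update_of_ne hxw, if_neg hxw, if_neg hxw]
        by_cases hxJ : x ∈ J
        · rw [if_pos hxJ, if_pos hxJ, hδ x hxJ]
          ring
        · rw [if_neg hxJ, if_neg hxJ]
          ring
  · have h5 : ren (mv u₀ w) ((∏ u ∈ J, cr K u w 2) * G) = (∏ u ∈ J, cr K u w 2) * g := by
      rw [map_mul, h4, ren_prod, mv_ne (Ne.symm huw)]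
      congr 1
      refine Finset.prod_congr rfl fun u hu' => ?_
      rw [mv_ne]
      rintro rfl
      exact hu hu'
    have h6 : ∀ b ∈ J, ren (mv u₀ w) (ren (Equiv.swap u₀ b) ((∏ u ∈ J, cr K u w 2) * G)) = 0 := by
      intro b hb
      have hwb : w ≠ b := by
        rintro rfl
        exact hw hb
      rw [ren_ren, map_mul, ren_prod, Finset.prod_eq_zero hb, zero_mul]
      simp only [Function.comp_apply]
      rw [Equiv.swap_apply_right, mv_self, Equiv.swap_apply_of_ne_of_ne (Ne.symm huw) hwb,
        mv_ne (Ne.symm huw), cr_self]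
    rw [h5, Finset.sum_eq_zero h6, sub_zero, one_smul]

theorem case_eq [CharZero K] {δ : A → ℕ} {N e : ℕ} {J : Finset A} {w u₀ : A} (hw : w ∉ J)
    (hu : u₀ ∉ J) (huw : u₀ ≠ w) (hδ : ∀ u ∈ J, δ u = N + 1) (hu0 : δ u₀ = 0)
    {g : PX K A 3} (hs : N + J.card = e + N + 1) (ha : Al J g) (hn : NC (insert w J) g)
    (hd : Dg (fun x => if x ∈ J then N else if x = w then N else δ x) g)
    (hg : g = ∑ u ∈ J, ren (Equiv.swap u w) g) :
    BdN δ N e J w u₀ ((∏ u ∈ J, cr K u w 2) * g) := by
  have hz : (fun x => if x ∈ J then N else if x = w then N else δ x) u₀ = 0 := by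
    simp only
    rw [if_neg hu, if_neg huw, hu0]
  have hwJ : ∀ b ∈ J, w ≠ b := by
    rintro b hb rfl
    exact hw hb
  have huJ : ∀ b ∈ J, u₀ ≠ b := by
    rintro b hb rfl
    exact hu hb
  -- the moved polynomial
  set g' : PX K A 3 := ren (mv w u₀) g with hg'
  have hn' : NC (insert w (insert u₀ J)) g := by
    rw [Finset.insert_comm]
    exact nc_insert hn hd hz
  have hng : NC (insert w (insert u₀ J)) g' := nc_ren _ hn' fun y hy => by
    by_cases h : y = w
    · rw [h]
      exact Finset.mem_insert_self _ _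
    · rwa [mv_ne h] at hy
  have hag : Al J g' := by
    intro x hx y hy hxy
    rw [hg', ren_ren]
    have h1 : (Equiv.swap x y : A → A) ∘ mv w u₀ = mv w u₀ ∘ (Equiv.swap x y : A → A) := by
      funext z
      simp only [Function.comp_apply]
      by_cases hz1 : z = w
      · subst hz1
        rw [mv_self, Equiv.swap_apply_of_ne_of_ne (huJ x hx) (huJ y hy),
          Equiv.swap_apply_of_ne_of_ne (hwJ x hx) (hwJ y hy), mv_self]
      · rw [mv_ne hz1, mv_ne]
        intro h2
        have h3 : z = Equiv.swap x y w := by rw [← h2, Equiv.swap_apply_self]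
        rw [Equiv.swap_apply_of_ne_of_ne (hwJ x hx) (hwJ y hy)] at h3
        exact hz1 h3
    rw [h1, ← ren_ren, ha x hx y hy hxy, map_neg]
  have hdg : Dg (fun x => if x ∈ J then N else if x = w then 0 else if x = u₀ then N else δ x)
      g' := by
    refine dg_congr (fun x => ?_) (DG.ren_push _ (mv w u₀) g hd)
    by_cases hx : x = u₀
    · subst hx
      have h1 : (Finset.univ.filter fun a => mv w x a = x) = {w, x} := by
        ext a
        simp only [Finset.mem_filter, Finset.mem_univ, true_and, Finset.mem_insert,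
          Finset.mem_singleton]
        by_cases h : a = w
        · subst h
          simp [mv_self]
        · rw [mv_ne h]
          simp [h]
      rw [h1, Finset.sum_pair (Ne.symm huw)]
      simp [hw, hu, huw, hu0]
    · by_cases hxw : x = w
      · subst hxw
        have h1 : (Finset.univ.filter fun a => mv x u₀ a = x) = ∅ := by
          ext a
          simp only [Finset.mem_filter, Finset.mem_univ, true_and, Finset.notMem_empty, iff_false]
          by_cases h : a = x
          · subst h
            rw [mv_self]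
            exact huw
          · rw [mv_ne h]
            exact h
        rw [h1, Finset.sum_empty, if_neg hw, if_pos rfl]
      · have h1 : (Finset.univ.filter fun a => mv w u₀ a = x) = {x} := by
          ext a
          simp only [Finset.mem_filter, Finset.mem_univ, true_and, Finset.mem_singleton]
          by_cases h : a = w
          · subst h
            rw [mv_self]
            exact ⟨fun h => absurd h.symm hx, fun h => absurd h.symm hxw⟩
          · rw [mv_ne h]
        rw [h1, Finset.sum_singleton, if_neg hxw, if_neg hxw, if_neg hx]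
  set E : PX K A 3 := ∑ i ∈ J, cr K i u₀ 2 * (∏ j ∈ J.erase i, cr K j w 2) * g' with hE
  have hJe : J.card = e + 1 := by omega
  have hcc : ((J.card + 1 : ℕ) : K) ≠ 0 := Nat.cast_ne_zero.2 (Nat.succ_ne_zero _)
  refine bd_of (E := E) (c := ((J.card + 1 : ℕ) : K)) hw hu huw hδ ?_ ?_ ?_ hcc ?_
  · -- alternating
    intro x hx y hy hxy
    rw [hE, map_sum, ← Finset.sum_neg_distrib]
    have h1 : ∀ i ∈ J, ren (Equiv.swap x y) (cr K i u₀ 2 * (∏ j ∈ J.erase i, cr K j w 2) * g') =
        -(cr K (Equiv.swap x y i) u₀ 2 * (∏ j ∈ J.erase (Equiv.swap x y i), cr K j w 2) * g') := by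
      intro i hi
      rw [map_mul, map_mul, ren_cr, ren_prod, hag x hx y hy hxy,
        Equiv.swap_apply_of_ne_of_ne (huJ x hx) (huJ y hy),
        Equiv.swap_apply_of_ne_of_ne (hwJ x hx) (hwJ y hy)]
      have h2 : ∏ u ∈ J.erase i, cr K (Equiv.swap x y u) w 2 =
          ∏ j ∈ J.erase (Equiv.swap x y i), cr K j w 2 := by
        refine Finset.prod_nbij' (Equiv.swap x y) (Equiv.swap x y) (fun b hb => ?_) (fun b hb => ?_)
          (fun b _ => Equiv.swap_apply_self x y b) (fun b _ => Equiv.swap_apply_self x y b)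
          (fun b _ => rfl)
        · rw [Finset.mem_erase] at hb ⊢
          exact ⟨fun h => hb.1 ((Equiv.swap x y).injective h), SYM.maps (SYM.swap_mem hx hy) hb.2⟩
        · rw [Finset.mem_erase] at hb ⊢
          refine ⟨fun h => hb.1 ?_, SYM.maps (SYM.swap_mem hx hy) hb.2⟩
          rw [← h, Equiv.swap_apply_self]
      rw [h2, mul_neg]
    rw [Finset.sum_congr rfl h1]
    exact Finset.sum_nbij' (Equiv.swap x y) (Equiv.swap x y)
      (fun b hb => SYM.maps (SYM.swap_mem hx hy) hb) (fun b hb => SYM.maps (SYM.swap_mem hx hy) hb)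
      (fun b _ => Equiv.swap_apply_self x y b) (fun b _ => Equiv.swap_apply_self x y b)
      (fun b _ => rfl)
  · exact nc_sum _ _ fun i _ => nc_mul (nc_mul (nc_cr _ _ _) (nc_prod _ _ fun j _ => nc_cr _ _ _)) hng
  · refine DG.sum _ _ fun i hi => ?_
    refine dg_congr (fun x => ?_) (DG.mul (DG.mul (dg_cr i u₀) (dg_prod w (J.erase i))) hdg)
    simp only [Pi.single_apply, Finset.mem_erase, Finset.card_erase_of_mem hi]
    by_cases hx : x = u₀
    · subst hx
      rw [Function.update_self]
      simp [hu, huw, huJ i hi]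
      omega
    · rw [Function.update_of_ne hx]
      by_cases hxw : x = w
      · subst hxw
        rw [Function.update_self]
        simp [hw, hx, hwJ i hi]
        omega
      · rw [Function.update_of_ne hxw]
        by_cases hxi : x = i
        · subst hxi
          simp [hi, hx, hxw, hδ x hi]
          omega
        · by_cases hxJ : x ∈ J
          · simp [hxJ, hx, hxw, hxi, hδ x hxJ]
            omega
          · simp [hxJ, hx, hxw, hxi]
  · -- the value
    have h1 : ren (mv u₀ w) E = (J.card : K) • ((∏ u ∈ J, cr K u w 2) * g) := by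
      rw [hE, map_sum]
      have h2 : ∀ i ∈ J, ren (mv u₀ w) (cr K i u₀ 2 * (∏ j ∈ J.erase i, cr K j w 2) * g') =
          (∏ u ∈ J, cr K u w 2) * g := by
        intro i hi
        rw [map_mul, map_mul, ren_cr, ren_prod, mv_self, mv_ne (Ne.symm huw), mv_ne (huJ i hi).symm,
          hg', ren_ren]
        have h3 : ∏ u ∈ J.erase i, cr K (mv u₀ w u) w 2 = ∏ u ∈ J.erase i, cr K u w 2 := by
          refine Finset.prod_congr rfl fun u hu' => ?_
          rw [mv_ne (huJ u (Finset.mem_of_mem_erase hu')).symm]
        have h4 : ren (mv u₀ w ∘ mv w u₀) g = g := by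
          have := DG.ren_eq _ (mv u₀ w ∘ mv w u₀) id g (by
            intro x hx
            have hx0 : x ≠ u₀ := by
              rintro rfl
              exact hx hz
            by_cases hxw : x = w
            · subst hxw
              simp only [Function.comp_apply, mv_self, id]
            · simp only [Function.comp_apply, id]
              rw [mv_ne hxw, mv_ne hx0]) hd
          rw [this, ren_id]
        rw [h3, h4, Finset.mul_prod_erase J (fun u => cr K u w 2) hi]
      rw [Finset.sum_congr rfl h2, Finset.sum_const, Nat.cast_smul_eq_nsmul]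
    have h5 : ∀ u ∈ J, ren (mv u₀ w) (ren (Equiv.swap u₀ u) E) =
        -((∏ u ∈ J, cr K u w 2) * ren (Equiv.swap u w) g) := by
      intro u huu
      have e1 : (mv u₀ w ∘ (Equiv.swap u₀ u : A → A)) u = w := by
        simp only [Function.comp_apply]
        rw [Equiv.swap_apply_right, mv_self]
      have e2 : (mv u₀ w ∘ (Equiv.swap u₀ u : A → A)) u₀ = u := by
        simp only [Function.comp_apply]
        rw [Equiv.swap_apply_left, mv_ne (huJ u huu).symm]
      have e3 : ∀ x, x ≠ u → x ≠ u₀ → (mv u₀ w ∘ (Equiv.swap u₀ u : A → A)) x = x := by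
        intro x hx1 hx2
        simp only [Function.comp_apply]
        rw [Equiv.swap_apply_of_ne_of_ne hx2 hx1, mv_ne hx2]
      rw [ren_ren, hE, map_sum]
      have h6 : ∀ i ∈ J, i ≠ u → ren (mv u₀ w ∘ (Equiv.swap u₀ u : A → A))
          (cr K i u₀ 2 * (∏ j ∈ J.erase i, cr K j w 2) * g') = 0 := by
        intro i hi hiu
        rw [map_mul, map_mul, ren_prod, Finset.prod_eq_zero (i := u), mul_zero, zero_mul]
        · exact Finset.mem_erase.2 ⟨Ne.symm hiu, huu⟩
        · rw [e1, e3 w (hwJ u huu) (Ne.symm huw), cr_self]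
      rw [Finset.sum_eq_single_of_mem u huu h6, map_mul, map_mul, ren_cr, ren_prod, e1, e2,
        e3 w (hwJ u huu) (Ne.symm huw), cr_neg w u, hg', ren_ren]
      have h7 : ∏ j ∈ J.erase u, cr K ((mv u₀ w ∘ (Equiv.swap u₀ u : A → A)) j) w 2 =
          ∏ j ∈ J.erase u, cr K j w 2 := by
        refine Finset.prod_congr rfl fun j hj => ?_
        rw [e3 j (Finset.ne_of_mem_erase hj) (huJ j (Finset.mem_of_mem_erase hj)).symm]
      have h8 : ren ((mv u₀ w ∘ (Equiv.swap u₀ u : A → A)) ∘ mv w u₀) g =
          ren (Equiv.swap u w) g := by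
        refine DG.ren_eq _ _ _ g ?_ hd
        intro x hx
        have hx0 : x ≠ u₀ := by
          rintro rfl
          exact hx hz
        by_cases hxw : x = w
        · subst hxw
          rw [Function.comp_apply, mv_self, e2, Equiv.swap_apply_right]
        · rw [Function.comp_apply, mv_ne hxw]
          by_cases hxu : x = u
          · subst hxu
            rw [e1, Equiv.swap_apply_left]
          · rw [e3 x hxu hx0, Equiv.swap_apply_of_ne_of_ne hxu hxw]
      rw [h7, h8, ← Finset.mul_prod_erase J (fun u => cr K u w 2) huu]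
      ring
    rw [h1, Finset.sum_congr rfl h5, Finset.sum_neg_distrib, ← Finset.mul_sum, ← hg, sub_neg_eq_add]
    push_cast
    rw [add_smul, one_smul]

theorem X_cancel {y : A × Fin 3} {f g : PX K A 3} (h : X y * f = X y * g) : f = g :=
  mul_left_cancel₀ (X_ne_zero _) h

theorem part_two [CharZero K] (hP : Stmt_PDV) {δ : A → ℕ} {N e : ℕ} {J : Finset A} {w u₀ : A}
    (hw : w ∉ J) (hu : u₀ ∉ J) (huw : u₀ ≠ w) {F : PX K A 3} (hJ : e + 2 ≤ J.card)
    (hF : ∀ c : Fin 3, c ≠ 2 →
      BdN (Function.update δ w (δ w + 1)) N (e + 1) J w u₀ (X (w, c) * F)) :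
    BdN δ N e J w u₀ F := by
  classical
  obtain ⟨H0, a0, n0, d0, r0⟩ := hF 0 (by decide)
  obtain ⟨H1, a1, n1, d1, r1⟩ := hF 1 (by decide)
  rw [Function.update_idem] at d0 d1
  have hwJ : w ∉ insert u₀ J := by
    rw [Finset.mem_insert]
    rintro (h | h)
    · exact huw h.symm
    · exact hw h
  have symX : ∀ x ∈ insert u₀ J, ∀ y ∈ insert u₀ J, ∀ c : Fin 3,
      ren (Equiv.swap x y) (X (w, c) : PX K A 3) = X (w, c) := by
    intro x hx y hy c
    rw [ren_X, Equiv.swap_apply_of_ne_of_ne]
    · rintro rfl
      exact hwJ hx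
    · rintro rfl
      exact hwJ hy
  -- the difference
  set Δ : PX K A 3 := X (w, 1) * H0 - X (w, 0) * H1 with hΔ
  have aΔ : Al (insert u₀ J) Δ := by
    intro x hx y hy hxy
    rw [hΔ, map_sub, map_mul, map_mul, symX x hx y hy, symX x hx y hy, a0 x hx y hy hxy,
      a1 x hx y hy hxy]
    ring
  have nΔ : NC (insert w (insert u₀ J)) Δ :=
    nc_sub (nc_mul (nc_var _ _ (by decide)) n0) (nc_mul (nc_var _ _ (by decide)) n1)
  have dΔ : Dg (Function.update (Function.update δ w (e + 2)) u₀ (N + 1)) Δ := by
    have key : ∀ (c : Fin 3) (H : PX K A 3),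
        Dg (Function.update (Function.update δ w (e + 1)) u₀ (N + 1)) H →
        Dg (Function.update (Function.update δ w (e + 2)) u₀ (N + 1)) (X (w, c) * H) := by
      intro c H hH
      refine dg_congr (fun x => ?_) (DG.mul (DG.var w c) hH)
      by_cases hx : x = u₀
      · subst hx
        rw [Function.update_self, Function.update_self, Pi.single_eq_of_ne huw, zero_add]
      · rw [Function.update_of_ne hx, Function.update_of_ne hx]
        by_cases hxw : x = w
        · subst hxw
          rw [Function.update_self, Function.update_self, Pi.single_eq_same]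
          ring
        · rw [Function.update_of_ne hxw, Function.update_of_ne hxw, Pi.single_eq_of_ne hxw, zero_add]
    exact DG.sub (key 1 H0 d0) (key 0 H1 d1)
  have z0 : ren (mv u₀ w) Δ = 0 := by
    rw [hΔ, map_sub, map_mul, map_mul, r0, r1, ren_X, ren_X, mv_ne (Ne.symm huw)]
    ring
  have cΔ : Cy (insert u₀ J) w Δ := by
    intro u hu'
    rcases Finset.mem_insert.1 hu' with rfl | huJ
    · exact z0
    · have hne : u ≠ u₀ := by
        rintro rfl
        exact hu huJ
      have hwu : w ≠ u := by
        rintro rfl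
        exact hw huJ
      have h1 : Δ = -ren (Equiv.swap u u₀) Δ := by
        rw [aΔ u hu' u₀ (Finset.mem_insert_self _ _) hne, neg_neg]
      have h2 : mv u w ∘ (Equiv.swap u u₀ : A → A) = (Equiv.swap u u₀ : A → A) ∘ mv u₀ w := by
        funext x
        simp only [Function.comp_apply]
        by_cases hx0 : x = u₀
        · subst hx0
          rw [Equiv.swap_apply_right, mv_self, mv_self,
            Equiv.swap_apply_of_ne_of_ne hwu (Ne.symm huw)]
        · rw [mv_ne hx0]
          by_cases hxu : x = u
          · subst hxu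
            rw [Equiv.swap_apply_left, mv_ne (Ne.symm hne)]
          · rw [Equiv.swap_apply_of_ne_of_ne hxu hx0, mv_ne hxu]
      rw [h1, map_neg, ren_ren, h2, ← ren_ren, z0, map_zero, neg_zero]
  have hΔ0 : Δ = 0 := by
    by_contra hne
    have h1 := ((hP K A _ (insert u₀ J) w Δ hwJ dΔ nΔ cΔ).1 hne).1
    rw [Finset.card_insert_of_notMem hu, Function.update_of_ne (Ne.symm huw),
      Function.update_self] at h1
    omega
  have hrel : X (w, 1) * H0 = X (w, 0) * H1 := sub_eq_zero.1 hΔ0
  have hdvd : (X (w, 0) : PX K A 3) ∣ H0 := by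
    refine PR.X_dvd_of fun m hm h0 => ?_
    have h1 := PR.of_X_dvd (f := X (w, 1) * H0) (y := (w, (0 : Fin 3))) ⟨H1, hrel⟩
      (m := Finsupp.single (w, (1 : Fin 3)) 1 + m) (by
        rw [Finsupp.add_apply, h0, Finsupp.single_apply, if_neg]
        intro h
        have h10 : (1 : Fin 3) = 0 := congrArg Prod.snd h
        exact Fin.zero_ne_one h10.symm)
    rw [coeff_X_mul] at h1
    exact mem_support_iff.1 hm h1
  obtain ⟨H, rfl⟩ := hdvd
  have hsup : ∀ m ∈ H.support, Finsupp.single (w, (0 : Fin 3)) 1 + m ∈ (X (w, 0) * H).support := by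
    intro m hm
    rw [mem_support_iff, coeff_X_mul]
    exact mem_support_iff.1 hm
  refine ⟨H, ?_, ?_, ?_, ?_⟩
  · intro x hx y hy hxy
    have h1 := a0 x hx y hy hxy
    rw [map_mul, symX x hx y hy, ← mul_neg] at h1
    exact X_cancel h1
  · intro m hm x hx
    have h1 := n0 _ (hsup m hm) x hx
    rw [Finsupp.add_apply] at h1
    omega
  · intro m hm x
    have h1 := d0 _ (hsup m hm) x
    simp only [Finsupp.add_apply, Finset.sum_add_distrib] at h1
    rw [single_deg] at h1
    by_cases hx : x = u₀
    · subst hx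
      rw [Function.update_self] at h1 ⊢
      rw [if_neg (Ne.symm huw)] at h1
      omega
    · rw [Function.update_of_ne hx] at h1 ⊢
      by_cases hxw : x = w
      · subst hxw
        rw [Function.update_self] at h1 ⊢
        rw [if_pos rfl] at h1
        omega
      · rw [Function.update_of_ne hxw] at h1 ⊢
        rw [if_neg (Ne.symm hxw)] at h1
        omega
  · rw [map_mul, ren_X, mv_ne (Ne.symm huw)] at r0
    exact X_cancel r0

end main

end P1B

theorem P1B_thm (h1 : Stmt_PDV) : Stmt_P1B := by
  intro K _ _ A _ _ δ N e J w u₀ hw hu huw hδ hδw hδu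
  refine ⟨?_, ?_⟩
  · rintro s g hs ha hn hd (hN | ⟨rfl, hg⟩)
    · exact P1B.case_big hw hu huw hδ hδu hs ha hn hd hN
    · exact P1B.case_eq hw hu huw hδ hδu hs ha hn hd hg
  · intro F hJ _ hF
    exact P1B.part_two h1 hw hu huw hJ hF

end Pool.Agent.VOP
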