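import Pool.Agent.VOP.StmtsW
import Pool.Agent.VOP.DG
import Pool.Agent.VOP.SYM
import Pool.Agent.VSY.WB
import Pool.Agent.VSY.NAT

/-!
# P1L: cycles in two coordinates of small weight are boundaries (MP_deb8da_ag)
-/

namespace Pool.Agent.VOP

open MvPolynomial Pool.Agent.VSY

namespace P1L

variable {K : Type} [Field K] {A : Type}

theorem nc_zero (S : Finset A) : NC S (0 : PX K A 3) := by
  intro m hm
  simp at hm

theorem nc_sub {S : Finset A} {f g : PX K A 3} (hf : NC S f) (hg : NC S g) : NC S (f - g) := by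
  classical
  intro m hm x hx
  rcases Finset.mem_union.1 (support_sub _ f g hm) with h | h
  · exact hf m h x hx
  · exact hg m h x hx

theorem nc_sum {ι : Type} {S : Finset A} (s : Finset ι) (f : ι → PX K A 3)
    (hf : ∀ i ∈ s, NC S (f i)) : NC S (∑ i ∈ s, f i) := by
  classical
  intro m hm x hx
  obtain ⟨i, hi, hmi⟩ := Finset.mem_biUnion.1 (support_sum hm)
  exact hf i hi m hmi x hx

theorem nc_mul {S : Finset A} {f g : PX K A 3} (hf : NC S f) (hg : NC S g) : NC S (f * g) := by
  classical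
  intro m hm x hx
  obtain ⟨a, ha, b, hb, rfl⟩ := Finset.mem_add.1 (support_mul f g hm)
  rw [Finsupp.add_apply, hf a ha x hx, hg b hb x hx]

theorem nc_ren_swap [Fintype A] [DecidableEq A] {S : Finset A} {f : PX K A 3} (p q : A)
    (hp : p ∈ S) (hq : q ∈ S) (hf : NC S f) : NC S (ren (Equiv.swap p q) f) := by
  intro m hm x hx
  obtain ⟨m', hm', rfl⟩ := exists_of_mem_support_ren _ _ hm
  rw [mapDomain_deg]
  refine Finset.sum_eq_zero fun a ha => ?_
  refine hf m' hm' a ?_
  have h1 : Equiv.swap p q a = x := (Finset.mem_filter.1 ha).2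
  have h2 : a = Equiv.swap p q x := by
    rw [← h1, Equiv.swap_apply_self]
  rw [h2]
  by_cases h3 : x = p
  · rw [h3, Equiv.swap_apply_left]
    exact hq
  · by_cases h4 : x = q
    · rw [h4, Equiv.swap_apply_right]
      exact hp
    · rw [Equiv.swap_apply_of_ne_of_ne h3 h4]
      exact hx

theorem nc_one (S : Finset A) : NC S (1 : PX K A 3) := by
  classical
  intro m hm x _
  rw [mem_support_iff, coeff_one] at hm
  have h : (0 : A × Fin 3 →₀ ℕ) = m := by
    by_contra hne
    exact hm (if_neg hne)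
  rw [← h]
  rfl

theorem nc_X (S : Finset A) (w : A) (c : Fin 3) (hc : c ≠ 2) :
    NC S (X (w, c) : PX K A 3) := by
  classical
  intro m hm x _
  rw [support_X, Finset.mem_singleton] at hm
  rw [hm, Finsupp.single_apply, if_neg]
  intro h
  exact hc (Prod.mk.inj h).2

theorem dg_one [DecidableEq A] (w : A) : Dg (Pi.single w 0) (1 : PX K A 3) := by
  classical
  intro m hm x
  rw [mem_support_iff, coeff_one] at hm
  have h : (0 : A × Fin 3 →₀ ℕ) = m := by
    by_contra hne
    exact hm (if_neg hne)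
  rw [← h]
  simp

theorem dg_X [DecidableEq A] (w : A) (c : Fin 3) :
    Dg (Pi.single w 1) (X (w, c) : PX K A 3) := by
  classical
  intro m hm x
  rw [support_X, Finset.mem_singleton] at hm
  subst hm
  simp only [Finsupp.single_apply, Prod.mk.injEq, Pi.single_apply]
  by_cases hx : x = w
  · subst hx
    simp
  · have hx' : w ≠ x := fun h => hx h.symm
    simp [hx, hx']

theorem hw_one [Fintype A] : HasW (0 : Fin 3 → ℕ) (1 : PX K A 3) := by
  classical
  intro m hm j
  rw [mem_support_iff, coeff_one] at hm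
  have h : (0 : A × Fin 3 →₀ ℕ) = m := by
    by_contra hne
    exact hm (if_neg hne)
  rw [← h]
  simp

theorem hw_X [Fintype A] [DecidableEq A] (w : A) (c : Fin 3) :
    HasW (Pi.single c 1 : Fin 3 → ℕ) (X (w, c) : PX K A 3) := by
  classical
  intro m hm j
  rw [support_X, Finset.mem_singleton] at hm
  subst hm
  simp only [Finsupp.single_apply, Prod.mk.injEq, Pi.single_apply]
  by_cases hj : j = c
  · subst hj
    simp
  · have hj' : c ≠ j := fun h => hj h.symm
    simp [hj, hj']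

section mult

variable [Fintype A] [DecidableEq A]

/-- The multiplier `x` of degree `c` at `w`. -/
theorem mult (δ : A → ℕ) (N s c : ℕ) (J : Finset A) (w : A) (x g : PX K A 3) (hw : w ∉ J)
    (hsc : s + c = N) (hx1 : Dg (Pi.single w c) x)
    (hx2 : ∀ a ∈ J, ∀ b ∈ J, ren (Equiv.swap a b) x = x) (hx3 : NC (insert w J) x)
    (hg1 : Dg (fun y => if y ∈ J then N else if y = w then s else δ y) g) (hg2 : Al J g)
    (hg3 : NC (insert w J) g) :
    Al J (x * g) ∧ NC (insert w J) (x * g) ∧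
    Dg (fun y => if y ∈ J then N else if y = w then N else δ y) (x * g) ∧
    Al (insert w J) (x * g - ∑ u ∈ J, ren (Equiv.swap w u) (x * g)) ∧
    NC (insert w J) (x * g - ∑ u ∈ J, ren (Equiv.swap w u) (x * g)) ∧
    Dg (fun y => if y ∈ insert w J then N else δ y)
      (x * g - ∑ u ∈ J, ren (Equiv.swap w u) (x * g)) := by
  obtain ⟨-, -, -, -, -, -, -, -, -, -, s11, -⟩ := SYM_thm DG_thm K A 3
  obtain ⟨-, d2, -, d4, d5, -, -, -, d9, -, -, -⟩ := DG_thm K A A 3
  have hAl : Al J (x * g) := by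
    intro a ha b hb hab
    rw [map_mul, hx2 a ha b hb, hg2 a ha b hb hab, mul_neg]
  have hNC : NC (insert w J) (x * g) := nc_mul hx3 hg3
  have hDg : Dg (fun y => if y ∈ J then N else if y = w then N else δ y) (x * g) := by
    have h := d5 _ _ _ _ hx1 hg1
    refine (congrArg (fun d => Dg d (x * g)) (funext fun y => ?_)).mp h
    by_cases hyJ : y ∈ J
    · have hyw : y ≠ w := fun h => hw (h ▸ hyJ)
      simp [hyJ, hyw]
    · by_cases hyw : y = w
      · subst hyw
        simp only [hyJ, if_false, if_true, Pi.single_eq_same]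
        omega
      · simp [hyJ, hyw]
  have hDg' : Dg (fun y => if y ∈ insert w J then N else δ y) (x * g) := by
    refine (congrArg (fun d => Dg d (x * g)) (funext fun y => ?_)).mp hDg
    by_cases hyJ : y ∈ J
    · simp [hyJ]
    · by_cases hyw : y = w
      · simp [hyw]
      · simp [hyJ, hyw]
  refine ⟨hAl, hNC, hDg, s11 J w (x * g) hw hAl, ?_, ?_⟩
  · refine nc_sub hNC (nc_sum J _ fun u hu => ?_)
    exact nc_ren_swap w u (Finset.mem_insert_self w J) (Finset.mem_insert_of_mem hu) hNC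
  · refine (d2 _ _ _ hDg' (d4 _ _ J _ fun u hu => ?_)).2
    refine d9 _ _ _ (fun a => ?_) hDg'
    have huS : u ∈ insert w J := Finset.mem_insert_of_mem hu
    have hwS : w ∈ insert w J := Finset.mem_insert_self w J
    by_cases h3 : a = w
    · rw [h3, Equiv.swap_apply_left, if_pos huS, if_pos hwS]
    · by_cases h4 : a = u
      · rw [h4, Equiv.swap_apply_right, if_pos huS, if_pos hwS]
      · rw [Equiv.swap_apply_of_ne_of_ne h3 h4]

/-- The weight of `G_x`. -/
theorem mult_w (J : Finset A) (w : A) (x g : PX K A 3) (κ μ : Fin 3 → ℕ) (hx : HasW κ x)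
    (hg : HasW μ g) :
    HasW (κ + μ) (x * g - ∑ u ∈ J, ren (Equiv.swap w u) (x * g)) := by
  obtain ⟨w1, w2, w3, w4, -, -, -, -, -, -, -, -, -⟩ := WB_thm K A A 3
  have h0 : HasW (κ + μ) (x * g) := w3 _ _ _ _ hx hg
  have hS : ∀ T : Finset A, HasW (κ + μ) (∑ u ∈ T, ren (Equiv.swap w u) (x * g)) := by
    intro T
    induction T using Finset.induction_on with
    | empty =>
      intro m hm
      simp at hm
    | insert a T ha ih =>
      rw [Finset.sum_insert ha]
      exact w1 _ _ _ (w4 _ _ _ h0) ih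
  have h1 : HasW (κ + μ) ((-1 : K) • ∑ u ∈ J, ren (Equiv.swap w u) (x * g)) := w2 _ _ _ (hS J)
  have h2 := w1 _ _ _ h0 h1
  rwa [neg_one_smul, ← sub_eq_add_neg] at h2

/-- If `G_x = 0` then `x * F` is a boundary. -/
theorem bd [CharZero K] (h3 : Stmt_P1B) (δ : A → ℕ) (N s c : ℕ) (J : Finset A) (w u₀ : A)
    (x g F : PX K A 3) (hN : 2 ≤ N) (hw : w ∉ J) (hu₀ : u₀ ∉ J) (huw : u₀ ≠ w)
    (hδJ : ∀ u ∈ J, δ u = N + 1) (hδu : δ u₀ = 0)
    (hsc : s + c = N) (hsJ : s + J.card = 2 * N - 1) (hx1 : Dg (Pi.single w c) x)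
    (hx2 : ∀ a ∈ J, ∀ b ∈ J, ren (Equiv.swap a b) x = x) (hx3 : NC (insert w J) x)
    (hg1 : Dg (fun y => if y ∈ J then N else if y = w then s else δ y) g) (hg2 : Al J g)
    (hg3 : NC (insert w J) g) (hF : F = (∏ u ∈ J, cr K u w 2) * g)
    (hG : x * g - ∑ u ∈ J, ren (Equiv.swap w u) (x * g) = 0) :
    BdN (Function.update δ w (2 * N - 1 + c)) N (N - 2 + c) J w u₀ (x * F) := by
  obtain ⟨hAl, hNC, hDg, -, -, -⟩ := mult δ N s c J w x g hw hsc hx1 hx2 hx3 hg1 hg2 hg3
  have key := (h3 K A (Function.update δ w (2 * N - 1 + c)) N (N - 2 + c) J w u₀ hw hu₀ huw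
    (fun u hu => by
      have : u ≠ w := fun h => hw (h ▸ hu)
      rw [Function.update_of_ne this, hδJ u hu])
    (by rw [Function.update_self]; omega)
    (by rw [Function.update_of_ne huw, hδu])).1 N (x * g) (by omega) hAl hNC ?_ (Or.inr ⟨rfl, ?_⟩)
  · have e : (∏ u ∈ J, cr K u w 2) * (x * g) = x * F := by
      rw [hF]
      ring
    rw [← e]
    exact key
  · refine (congrArg (fun d => Dg d (x * g)) (funext fun y => ?_)).mp hDg
    by_cases hyJ : y ∈ J
    · simp [hyJ]
    · by_cases hyw : y = w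
      · simp [hyw]
      · simp [hyJ, hyw]
  · have h := sub_eq_zero.1 hG
    rw [h]
    conv_rhs => rw [← h]
    refine Finset.sum_congr rfl fun u _ => ?_
    rw [Equiv.swap_comm]

end mult

theorem arith (N a b : ℕ) (h1 : N * (N + 1) / 2 ≤ a) (h2 : b + 2 < (N + 1) * (N + 2) / 2)
    (h3 : a + N + 1 ≤ b + 2) : False := by
  have e : (N + 1) * (N + 2) / 2 = N * (N + 1) / 2 + (N + 1) := by
    have : (N + 1) * (N + 2) = N * (N + 1) + (N + 1) * 2 := by ring
    rw [this, Nat.add_mul_div_right _ _ (by norm_num)]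
  omega

end P1L

open P1L in
theorem P1L_thm (h1 : Stmt_PDV) (h2 : Stmt_PV2) (h3 : Stmt_P1B) : Stmt_P1L := by
  intro K _ _ A _ _ δ N J w u₀ ν F hN hw hu₀ huw hδJ hδw hδu hDg hAl hCy hNC hWν hE hν
  by_cases hF0 : F = 0
  · refine ⟨0, ?_, nc_zero _, ?_, ?_⟩
    · intro a _ b _ _
      simp
    · intro m hm
      simp at hm
    · rw [map_zero, hF0]
  obtain ⟨hcard, g, hFg, hgNC, hgDg, hgAl, hgE, hgW⟩ := h1 K A δ J w F hw hDg hNC hCy
  obtain ⟨μ, hμ, hμν⟩ := hgW ν hWν hF0
  have hcard' := (hcard hF0).1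
  rw [hδw] at hcard'
  have hgAl' := hgAl hAl
  have hgE' := hgE hE
  have hg0 : g ≠ 0 := by
    intro h
    apply hF0
    rw [hFg, h, mul_zero]
  obtain ⟨s, hs⟩ : ∃ s, s + J.card = 2 * N - 1 := ⟨2 * N - 1 - J.card, by omega⟩
  have hgDg' : Dg (fun y => if y ∈ J then N else if y = w then s else δ y) g := by
    refine (congrArg (fun d => Dg d g) (funext fun y => ?_)).mp hgDg
    by_cases hyJ : y ∈ J
    · simp only [hyJ, if_true]
      rw [hδJ y hyJ]
      omega
    · by_cases hyw : y = w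
      · subst hyw
        simp only [hyJ, if_false, if_true]
        omega
      · simp [hyJ, hyw]
  have hcardI : (insert w J).card = J.card + 1 := Finset.card_insert_of_notMem hw
  obtain ⟨-, d2, -, d4, d5, -, -, -, d9, -, -, -⟩ := DG_thm K A A 3
  have hxX : ∀ c : Fin 3, ∀ a ∈ J, ∀ b ∈ J,
      ren (Equiv.swap a b) (X (w, c) : PX K A 3) = X (w, c) := by
    intro c a ha b hb
    have h1 : w ≠ a := fun h => hw (h ▸ ha)
    have h2 : w ≠ b := fun h => hw (h ▸ hb)
    rw [ren_X, Equiv.swap_apply_of_ne_of_ne h1 h2]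
  rcases Nat.lt_or_ge (J.card + 1) N with hm1 | hm1
  · -- `m ≤ N - 2`
    have key := (h3 K A δ N (N - 2) J w u₀ hw hu₀ huw hδJ (by omega) hδu).1 s g (by omega)
      hgAl' hgNC hgDg' (Or.inl (by omega))
    rw [hFg]
    exact key
  rcases Nat.eq_or_lt_of_le hm1 with hm2 | hm2
  · -- `m = N - 1`
    have hsc : s + 0 = N := by omega
    have hx2 : ∀ a ∈ J, ∀ b ∈ J, ren (Equiv.swap a b) (1 : PX K A 3) = 1 :=
      fun a _ b _ => map_one _
    obtain ⟨-, -, -, hG1, hG2, hG3⟩ :=
      mult δ N s 0 J w 1 g hw hsc (dg_one w) hx2 (nc_one _) hgDg' hgAl' hgNC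
    have hG4 := mult_w J w 1 g 0 μ hw_one hμ
    by_cases hG0 : 1 * g - ∑ u ∈ J, ren (Equiv.swap w u) (1 * g) = 0
    · have hb := bd h3 δ N s 0 J w u₀ 1 g F hN hw hu₀ huw hδJ hδu hsc hs (dg_one w) hx2
        (nc_one _) hgDg' hgAl' hgNC hFg hG0
      rw [Nat.add_zero, Nat.add_zero, one_mul, ← hδw, Function.update_eq_self] at hb
      exact hb
    · exfalso
      have hE1 : Eij (0 : Fin 3) 1 (1 * g - ∑ u ∈ J, ren (Equiv.swap w u) (1 * g)) = 0 := by
        rw [one_mul, map_sub, map_sum, hgE', zero_sub, neg_eq_zero]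
        refine Finset.sum_eq_zero fun u _ => ?_
        rw [← (NAT_thm K A A 3 (Equiv.swap w u)).1 0 1 g, hgE', map_zero]
      have h := (h2 K A _ (insert w J) N _ hG3 (fun x hx => if_pos hx) hG1 hG2).2.2 _ hG4 hG0
        (by omega) hE1
      simp only [Pi.add_apply, Pi.zero_apply, Nat.zero_add] at h
      exact arith N _ _ h hν (by omega)
  rcases Nat.eq_or_lt_of_le (Nat.succ_le_of_lt hm2) with hm3 | hm3
  · -- `m = N`
    have hmN : J.card = N := by omega
    have hsc : s + 1 = N := by omega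
    refine (h3 K A δ N (N - 2) J w u₀ hw hu₀ huw hδJ (by omega) hδu).2 F (by omega) hDg ?_
    intro c hc
    obtain ⟨-, -, -, hG1, hG2, hG3⟩ :=
      mult δ N s 1 J w (X (w, c)) g hw hsc (dg_X w c) (hxX c) (nc_X _ w c hc) hgDg' hgAl' hgNC
    have hG4 := mult_w J w (X (w, c)) g _ μ (hw_X w c) hμ
    by_cases hG0 : X (w, c) * g - ∑ u ∈ J, ren (Equiv.swap w u) (X (w, c) * g) = 0
    · have hb := bd h3 δ N s 1 J w u₀ (X (w, c)) g F hN hw hu₀ huw hδJ hδu hsc hs (dg_X w c)
        (hxX c) (nc_X _ w c hc) hgDg' hgAl' hgNC hFg hG0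
      rw [hδw]
      exact hb
    · exfalso
      have h := (h2 K A _ (insert w J) N _ hG3 (fun x hx => if_pos hx) hG1 hG2).2.1 _ hG4 hG0
        (by omega)
      have h' : (Pi.single c 1 : Fin 3 → ℕ) 0 ≤ 1 := by
        rw [Pi.single_apply]
        split_ifs <;> omega
      rw [Pi.add_apply] at h
      refine arith N (μ 0 + 1) (ν 0) (by omega) hν (by omega)
  rcases Nat.eq_or_lt_of_le (Nat.succ_le_of_lt hm3) with hm4 | hm4
  · -- `m = N + 1`
    have hmN : J.card = N + 1 := by omega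
    have hsc : s + 2 = N := by omega
    refine (h3 K A δ N (N - 2) J w u₀ hw hu₀ huw hδJ (by omega) hδu).2 F (by omega) hDg ?_
    intro c hc
    rw [hδw]
    have hδ1w : Function.update δ w (2 * N - 1 + 1) w = 2 * N - 1 + 1 := Function.update_self _ _ _
    have e1 : N - 2 + 1 = N - 1 := by omega
    rw [e1]
    refine (h3 K A (Function.update δ w (2 * N - 1 + 1)) N (N - 1) J w u₀ hw hu₀ huw
      (fun u hu => by
        have : u ≠ w := fun h => hw (h ▸ hu)
        rw [Function.update_of_ne this, hδJ u hu])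
      (by rw [Function.update_self]; omega)
      (by rw [Function.update_of_ne huw, hδu])).2 (X (w, c) * F) (by omega) ?_ ?_
    · have h := d5 _ _ _ _ (dg_X (K := K) w c) hDg
      refine (congrArg (fun d => Dg d (X (w, c) * F)) (funext fun y => ?_)).mp h
      by_cases hyw : y = w
      · subst hyw
        rw [Pi.single_eq_same, Function.update_self, hδw]
        omega
      · rw [Pi.single_eq_of_ne hyw, Function.update_of_ne hyw, Nat.zero_add]
    · intro c' hc'
      have hx1 : Dg (Pi.single w 2) (X (w, c') * X (w, c) : PX K A 3) := by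
        have h := d5 _ _ _ _ (dg_X (K := K) w c') (dg_X (K := K) w c)
        refine (congrArg (fun d => Dg d (X (w, c') * X (w, c) : PX K A 3))
          (funext fun y => ?_)).mp h
        by_cases hyw : y = w
        · subst hyw
          simp
        · rw [Pi.single_eq_of_ne hyw, Pi.single_eq_of_ne hyw, Nat.add_zero]
      have hx2 : ∀ a ∈ J, ∀ b ∈ J, ren (Equiv.swap a b) (X (w, c') * X (w, c) : PX K A 3) =
          X (w, c') * X (w, c) := by
        intro a ha b hb
        rw [map_mul, hxX c' a ha b hb, hxX c a ha b hb]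
      have hx3 : NC (insert w J) (X (w, c') * X (w, c) : PX K A 3) :=
        nc_mul (nc_X _ w c' hc') (nc_X _ w c hc)
      obtain ⟨-, -, -, hG1, hG2, hG3⟩ :=
        mult δ N s 2 J w (X (w, c') * X (w, c)) g hw hsc hx1 hx2 hx3 hgDg' hgAl' hgNC
      have hG0 := (h2 K A _ (insert w J) N _ hG3 (fun x hx => if_pos hx) hG1 hG2).1 (by omega)
      have hb := bd h3 δ N s 2 J w u₀ (X (w, c') * X (w, c)) g F hN hw hu₀ huw hδJ hδu hsc hs
        hx1 hx2 hx3 hgDg' hgAl' hgNC hFg hG0
      rw [Function.update_self, Function.update_idem]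
      have e2 : N - 1 + 1 = N - 2 + 2 := by omega
      have e3 : 2 * N - 1 + 1 + 1 = 2 * N - 1 + 2 := by omega
      rw [e2, e3, ← mul_assoc]
      exact hb
  · -- `m ≥ N + 2`
    exact absurd ((h2 K A _ J N g hgDg' (fun x hx => if_pos hx) hgAl'
      (fun m hm x hx => hgNC m hm x (Finset.mem_insert_of_mem hx))).1 (by omega)) hg0

end Pool.Agent.VOP
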