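import Pool.Agent.VOP.StmtsW
import Pool.Agent.VOP.DG
import Pool.Agent.VSY.WB

/-!
# Module PDV (MP_deb8da_ag): division by the `cr K u w 2`
-/

set_option autoImplicit false

namespace Pool.Agent.VOP

open MvPolynomial Pool.Agent.VSY

namespace PDV

variable {K : Type} [Field K] {A : Type}

section kill

variable [DecidableEq A]

/-- The third coordinates of the points of `S` are replaced by `0`. -/
noncomputable def kill (S : Finset A) : PX K A 3 →ₐ[K] PX K A 3 :=
  aeval fun y : A × Fin 3 => if y.1 ∈ S ∧ y.2 = 2 then (0 : PX K A 3) else X y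

theorem kill_X (S : Finset A) (y : A × Fin 3) :
    kill S (X y : PX K A 3) = if y.1 ∈ S ∧ y.2 = 2 then 0 else X y := by
  rw [kill, aeval_X]

open Classical in
theorem kill_monomial (S : Finset A) (m : A × Fin 3 →₀ ℕ) (a : K) :
    kill S (monomial m a) = if ∀ x ∈ S, m (x, 2) = 0 then monomial m a else 0 := by
  rw [kill, aeval_monomial]
  split_ifs with h
  · rw [monomial_eq, algebraMap_eq]
    congr 1
    refine Finset.prod_congr rfl fun y hy => ?_
    simp only
    rw [if_neg]
    rintro ⟨h1, h2⟩
    obtain ⟨x, j⟩ := y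
    simp only at h1 h2
    subst h2
    rw [Finsupp.mem_support_iff] at hy
    exact hy (h x h1)
  · push Not at h
    obtain ⟨x, hx, hm⟩ := h
    rw [Finsupp.prod, Finset.prod_eq_zero (i := (x, 2)), mul_zero]
    · exact Finsupp.mem_support_iff.2 hm
    · simp only [hx, and_self, if_true]
      exact zero_pow hm

open Classical in
theorem coeff_kill (S : Finset A) (f : PX K A 3) (n : A × Fin 3 →₀ ℕ) :
    coeff n (kill S f) = if ∀ x ∈ S, n (x, 2) = 0 then coeff n f else 0 := by
  induction f using MvPolynomial.induction_on' with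
  | monomial m a =>
    rw [kill_monomial]
    by_cases h : n = m
    · subst h
      split_ifs with h1
      · rfl
      · exact coeff_zero _
    · have h' : ¬ m = n := fun e => h e.symm
      split_ifs
      · rfl
      · rw [coeff_monomial, if_neg h']
      · rw [coeff_zero, coeff_monomial, if_neg h']
      · exact coeff_zero _
  | add p q hp hq =>
    rw [map_add, coeff_add, hp, hq, coeff_add]
    split_ifs
    · rfl
    · exact add_zero 0

theorem kill_eq {S : Finset A} {f : PX K A 3} (h : NC S f) : kill S f = f := by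
  classical
  ext n
  rw [coeff_kill]
  split_ifs with h1
  · rfl
  · by_contra h2
    exact h1 fun x hx => h n (mem_support_iff.2 (Ne.symm h2)) x hx

theorem kill_nc (S : Finset A) (f : PX K A 3) : NC S (kill S f) := by
  classical
  intro m hm x hx
  rw [mem_support_iff, coeff_kill] at hm
  by_contra h
  exact hm (if_neg fun h1 => h (h1 x hx))

theorem kill_dg (S : Finset A) {f : PX K A 3} {δ : A → ℕ} (h : Dg δ f) : Dg δ (kill S f) := by
  classical
  intro m hm
  refine h m ?_
  rw [mem_support_iff] at hm ⊢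
  intro h1
  rw [coeff_kill, h1] at hm
  exact hm (ite_self 0)

end kill

theorem cr2 (u w : A) : cr K u w 2 = X (u, 0) * X (w, 1) - X (u, 1) * X (w, 0) := by
  have h1 : (2 : Fin 3) + 1 = 0 := rfl
  have h2 : (2 : Fin 3) + 2 = 1 := rfl
  rw [cr, h1, h2]

theorem cr_ne {u w : A} (h : u ≠ w) : cr K u w 2 ≠ 0 := by
  classical
  intro h0
  have h1 := congrArg (coeff (Finsupp.single (u, (0 : Fin 3)) 1 +
    Finsupp.single (w, (1 : Fin 3)) 1)) h0
  rw [cr2, coeff_sub, coeff_zero] at h1
  have e1 : (X (u, (0 : Fin 3)) * X (w, 1) : PX K A 3) =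
      monomial (Finsupp.single (u, (0 : Fin 3)) 1 + Finsupp.single (w, (1 : Fin 3)) 1) 1 := by
    rw [X, X, monomial_mul, one_mul]
  have e2 : (X (u, (1 : Fin 3)) * X (w, 0) : PX K A 3) =
      monomial (Finsupp.single (u, (1 : Fin 3)) 1 + Finsupp.single (w, (0 : Fin 3)) 1) 1 := by
    rw [X, X, monomial_mul, one_mul]
  rw [e1, e2, coeff_monomial, coeff_monomial, if_pos rfl, if_neg, sub_zero] at h1
  · exact one_ne_zero h1
  · intro h2
    have h3 := DFunLike.congr_fun h2 (u, (0 : Fin 3))
    simp [Ne.symm h] at h3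

theorem ren_cr {B : Type} (φ : A → B) (u w : A) (i : Fin 3) :
    ren φ (cr K u w i) = cr K (φ u) (φ w) i := by
  rw [cr, cr, map_sub, map_mul, map_mul, ren_X, ren_X, ren_X, ren_X]

theorem prod_ne [DecidableEq A] {J : Finset A} {w : A} (hw : w ∉ J) :
    (∏ u ∈ J, cr K u w 2) ≠ 0 :=
  Finset.prod_ne_zero_iff.2 fun u hu => cr_ne fun h => hw (h ▸ hu)

/-- The division. -/
theorem core (h1 : Stmt_CRV) [CharZero K] [Fintype A] [DecidableEq A] (w : A) (J : Finset A) :
    ∀ (δ : A → ℕ) (F : PX K A 3) (S : Finset A), w ∉ J → insert w J ⊆ S → Dg δ F → NC S F →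
      Cy J w F →
      (F ≠ 0 → J.card ≤ δ w ∧ ∀ u ∈ J, 1 ≤ δ u) ∧
      ∃ g : PX K A 3, F = (∏ u ∈ J, cr K u w 2) * g ∧ NC S g ∧
        Dg (fun x => if x ∈ J then δ x - 1 else if x = w then δ w - J.card else δ x) g := by
  induction J using Finset.induction_on with
  | empty =>
    intro δ F S _ _ hF hS _
    refine ⟨fun _ => ⟨by simp, by simp⟩, F, by simp, hS, ?_⟩
    have : (fun x => if x ∈ (∅ : Finset A) then δ x - 1 else
        if x = w then δ w - (∅ : Finset A).card else δ x) = δ := by
      funext x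
      rw [if_neg (Finset.notMem_empty x), Finset.card_empty, Nat.sub_zero]
      split_ifs with h
      · rw [h]
      · rfl
    rw [this]
    exact hF
  | insert u J' hu ih =>
    intro δ F S hw hJS hF hS hcy
    have huw : u ≠ w := fun h => hw (h ▸ Finset.mem_insert_self u J')
    have hwJ' : w ∉ J' := fun h => hw (Finset.mem_insert_of_mem h)
    obtain ⟨hpos, h, hdg, hFh⟩ := h1 K A δ u w F huw hF (hcy u (Finset.mem_insert_self _ _))
    have huS : u ∈ S := hJS (Finset.mem_insert_of_mem (Finset.mem_insert_self _ _))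
    have hwS : w ∈ S := hJS (Finset.mem_insert_self _ _)
    obtain ⟨h', hh'⟩ : ∃ h' : PX K A 3, h' = kill S (h 2) := ⟨_, rfl⟩
    have hFh' : F = cr K u w 2 * h' := by
      have kw : kill S (X (w, 2) : PX K A 3) = 0 := by rw [kill_X, if_pos ⟨hwS, rfl⟩]
      have ku : kill S (X (u, 2) : PX K A 3) = 0 := by rw [kill_X, if_pos ⟨huS, rfl⟩]
      have kx : ∀ (x : A) (l : Fin 3), l ≠ 2 → kill S (X (x, l) : PX K A 3) = X (x, l) := by
        intro x l hl
        rw [kill_X, if_neg]
        exact fun h3 => hl h3.2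
      have e0 : kill S (cr K u w 0) = 0 := by
        have a1 : (0 : Fin 3) + 1 = 1 := rfl
        have a2 : (0 : Fin 3) + 2 = 2 := rfl
        rw [cr, a1, a2, map_sub, map_mul, map_mul, kw, ku, mul_zero, zero_mul, sub_zero]
      have e1 : kill S (cr K u w 1) = 0 := by
        have a1 : (1 : Fin 3) + 1 = 2 := rfl
        have a2 : (1 : Fin 3) + 2 = 0 := rfl
        rw [cr, a1, a2, map_sub, map_mul, map_mul, kw, ku, mul_zero, zero_mul, sub_zero]
      have e2 : kill S (cr K u w 2) = cr K u w 2 := by
        rw [cr2, map_sub, map_mul, map_mul, kx _ _ (by decide), kx _ _ (by decide),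
          kx _ _ (by decide), kx _ _ (by decide)]
      have e3 := congrArg (kill S) hFh
      rw [kill_eq hS, map_sum, Fin.sum_univ_three, map_mul, map_mul, map_mul, e0, e1, e2, zero_mul,
        zero_mul, zero_add, zero_add, ← hh'] at e3
      exact e3
    obtain ⟨δ1, hδ1⟩ : ∃ δ1 : A → ℕ, δ1 =
      Function.update (Function.update δ u (δ u - 1)) w (δ w - 1) := ⟨_, rfl⟩
    have hδw : δ1 w = δ w - 1 := by rw [hδ1, Function.update_self]
    have hδu : δ1 u = δ u - 1 := by
      rw [hδ1, Function.update_of_ne huw, Function.update_self]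
    have hδx : ∀ x, x ≠ u → x ≠ w → δ1 x = δ x := by
      intro x hx hx'
      rw [hδ1, Function.update_of_ne hx', Function.update_of_ne hx]
    have hdg' : Dg δ1 h' := by
      rw [hh', hδ1]
      exact kill_dg S (hdg 2)
    have hcy' : Cy J' w h' := by
      intro u' hu'
      have h3 := hcy u' (Finset.mem_insert_of_mem hu')
      rw [hFh', map_mul, ren_cr] at h3
      have h4 : mv u' w u = u := by
        rw [mv, Function.update_of_ne, id]
        exact fun e => hu (e ▸ hu')
      have h5 : mv u' w w = w := by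
        rw [mv, Function.update_of_ne, id]
        exact fun e => hwJ' (e ▸ hu')
      rw [h4, h5] at h3
      exact (mul_eq_zero.1 h3).resolve_left (cr_ne huw)
    obtain ⟨hA, g, hg1, hg2, hg3⟩ := ih δ1 h' S hwJ' (by
      intro x hx
      apply hJS
      rcases Finset.mem_insert.1 hx with hx | hx
      · exact Finset.mem_insert.2 (Or.inl hx)
      · exact Finset.mem_insert_of_mem (Finset.mem_insert_of_mem hx)) hdg'
      (by rw [hh']; exact kill_nc S _) hcy'
    constructor
    · intro hF0
      have hh0 : h' ≠ 0 := by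
        intro e
        rw [e, mul_zero] at hFh'
        exact hF0 hFh'
      obtain ⟨p1, p2⟩ := hpos hF0
      obtain ⟨q1, q2⟩ := hA hh0
      refine ⟨?_, ?_⟩
      · rw [Finset.card_insert_of_notMem hu]
        rw [hδw] at q1
        omega
      · intro x hx
        rcases Finset.mem_insert.1 hx with rfl | hx
        · exact p1
        · have := q2 x hx
          rwa [hδx x (fun e => hu (e ▸ hx)) (fun e => hwJ' (e ▸ hx))] at this
    · refine ⟨g, ?_, hg2, ?_⟩
      · rw [Finset.prod_insert hu, mul_assoc, ← hg1]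
        exact hFh'
      · have : (fun x => if x ∈ insert u J' then δ x - 1 else
            if x = w then δ w - (insert u J').card else δ x) =
            fun x => if x ∈ J' then δ1 x - 1 else if x = w then δ1 w - J'.card else δ1 x := by
          funext x
          rw [Finset.card_insert_of_notMem hu]
          by_cases hx : x ∈ J'
          · rw [if_pos (Finset.mem_insert_of_mem hx), if_pos hx,
              hδx x (fun e => hu (e ▸ hx)) (fun e => hwJ' (e ▸ hx))]
          · rw [if_neg hx]
            by_cases hxu : x = u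
            · subst hxu
              rw [if_pos (Finset.mem_insert_self _ _), if_neg huw, hδu]
            · rw [if_neg (by rw [Finset.mem_insert]; exact fun h => h.elim hxu hx)]
              by_cases hxw : x = w
              · rw [if_pos hxw, if_pos hxw, hδw]
                omega
              · rw [if_neg hxw, if_neg hxw, hδx x hxu hxw]
        rw [this]
        exact hg3

/-- The swaps of `J` fix the product. -/
theorem ren_prod [DecidableEq A] {J : Finset A} {w x y : A} (hw : w ∉ J) (hx : x ∈ J)
    (hy : y ∈ J) :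
    ren (Equiv.swap x y) (∏ u ∈ J, cr K u w 2) = ∏ u ∈ J, cr K u w 2 := by
  rw [map_prod]
  have h1 : ∀ u ∈ J, ren (Equiv.swap x y) (cr K u w 2) = cr K (Equiv.swap x y u) w 2 := by
    intro u _
    rw [ren_cr, Equiv.swap_apply_of_ne_of_ne (a := x) (b := y) (x := w)
      (fun e => hw (e ▸ hx)) (fun e => hw (e ▸ hy))]
  rw [Finset.prod_congr rfl h1]
  refine Finset.prod_nbij (fun u => Equiv.swap x y u) ?_ ?_ ?_ ?_
  · intro u hu
    rcases eq_or_ne u x with rfl | h2
    · rw [Equiv.swap_apply_left]
      exact hy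
    rcases eq_or_ne u y with rfl | h3
    · rw [Equiv.swap_apply_right]
      exact hx
    rw [Equiv.swap_apply_of_ne_of_ne h2 h3]
    exact hu
  · intro a _ b _ hab
    exact (Equiv.swap x y).injective hab
  · intro u hu
    refine ⟨Equiv.swap x y u, ?_, Equiv.swap_apply_self x y u⟩
    rcases eq_or_ne u x with rfl | h2
    · rw [Equiv.swap_apply_left]
      exact hy
    rcases eq_or_ne u y with rfl | h3
    · rw [Equiv.swap_apply_right]
      exact hx
    rw [Equiv.swap_apply_of_ne_of_ne h2 h3]
    exact hu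
  · intro u _
    rfl

/-- `Eij 0 1` kills the product. -/
theorem eij_prod [Fintype A] [DecidableEq A] (J : Finset A) (w : A) :
    Eij (0 : Fin 3) 1 (∏ u ∈ J, cr K u w 2) = 0 := by
  obtain ⟨-, -, -, -, -, -, -, -, -, hmul, hX, -⟩ := WB_thm K A A 3
  have h1 : ∀ u : A, Eij (0 : Fin 3) 1 (cr K u w 2) = 0 := by
    intro u
    rw [cr2, map_sub, hmul, hmul, hX, hX, hX, hX]
    simp
  have hone : Eij (0 : Fin 3) 1 (1 : PX K A 3) = 0 := by
    rw [VSY.WB.Eij_apply]
    simp
  induction J using Finset.induction_on with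
  | empty => rw [Finset.prod_empty]; exact hone
  | insert a s ha ih =>
    rw [Finset.prod_insert ha, hmul, ih, h1, mul_zero, zero_mul, add_zero]

/-- The weight of the product. -/
theorem hasW_prod [Fintype A] [DecidableEq A] (J : Finset A) (w : A) :
    HasW (fun j : Fin 3 => if j = 2 then 0 else J.card) (∏ u ∈ J, cr K u w 2) := by
  obtain ⟨hadd, hsmul, hmul, -⟩ := WB_thm K A A 3
  have hX : ∀ (x : A) (l : Fin 3), HasW (Pi.single l 1 : Fin 3 → ℕ) (X (x, l) : PX K A 3) := by
    intro x l
    rw [VSY.WB.hasW_iff]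
    exact isWeightedHomogeneous_X K (VSY.WB.wt A 3) (x, l)
  have hcr : ∀ u : A, HasW (fun j : Fin 3 => if j = 2 then 0 else 1) (cr K u w 2) := by
    intro u
    have e1 : (fun j : Fin 3 => if j = 2 then 0 else 1) =
        (Pi.single 0 1 : Fin 3 → ℕ) + Pi.single 1 1 := by
      funext j
      fin_cases j <;> rfl
    have e2 : (Pi.single 0 1 : Fin 3 → ℕ) + Pi.single 1 1 =
        (Pi.single 1 1 : Fin 3 → ℕ) + Pi.single 0 1 := add_comm _ _
    rw [cr2, sub_eq_add_neg, ← neg_one_smul K]
    refine hadd _ _ _ ?_ (hsmul _ _ _ ?_)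
    · rw [e1]
      exact hmul _ _ _ _ (hX u 0) (hX w 1)
    · rw [e1, e2]
      exact hmul _ _ _ _ (hX u 1) (hX w 0)
  induction J using Finset.induction_on with
  | empty =>
    rw [Finset.prod_empty]
    intro m hm j
    rw [mem_support_iff, coeff_one] at hm
    have : (0 : A × Fin 3 →₀ ℕ) = m := by
      by_contra h
      exact hm (if_neg h)
    rw [← this]
    simp
  | insert a s ha ih =>
    rw [Finset.prod_insert ha]
    have := hmul _ _ _ _ (hcr a) ih
    have e : (fun j : Fin 3 => if j = 2 then 0 else (insert a s).card) =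
        (fun j : Fin 3 => if j = 2 then 0 else 1) + fun j : Fin 3 => if j = 2 then 0 else s.card := by
      funext j
      rw [Pi.add_apply, Finset.card_insert_of_notMem ha]
      split_ifs
      · rfl
      · exact Nat.add_comm _ _
    rw [e]
    exact this

/-- The weight of a quotient. -/
theorem weight_div [Fintype A] {κ ν : Fin 3 → ℕ} {P g : PX K A 3} (hP : HasW κ P) (hP0 : P ≠ 0)
    (h : HasW ν (P * g)) {m : A × Fin 3 →₀ ℕ} (hm : m ∈ g.support) :
    κ + Finsupp.weight (VSY.WB.wt A 3) m = ν := by
  by_contra hne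
  let _ := weightedGradedAlgebra K (VSY.WB.wt A 3)
  have e : ∀ (p : PX K A 3) (m : Fin 3 → ℕ),
      ((DirectSum.decompose (weightedHomogeneousSubmodule K (VSY.WB.wt A 3)) p m :
        weightedHomogeneousSubmodule K (VSY.WB.wt A 3) m) : PX K A 3) =
        weightedHomogeneousComponent (VSY.WB.wt A 3) m p := fun p m =>
    MvPolynomial.decompose'_apply K (VSY.WB.wt A 3) p m
  have h1 := DirectSum.coe_decompose_mul_add_of_left_mem
    (𝒜 := weightedHomogeneousSubmodule K (VSY.WB.wt A 3)) (i := κ)
    (j := Finsupp.weight (VSY.WB.wt A 3) m) (a := P) (b := g) ((VSY.WB.hasW_iff κ P).1 hP)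
  rw [e, e, ((VSY.WB.hasW_iff ν _).1 h).weightedHomogeneousComponent_ne _ hne] at h1
  have h2 : weightedHomogeneousComponent (VSY.WB.wt A 3) (Finsupp.weight (VSY.WB.wt A 3) m) g ≠
      0 := by
    intro h3
    have h4 := congrArg (coeff m) h3
    rw [coeff_weightedHomogeneousComponent, if_pos rfl, coeff_zero] at h4
    exact mem_support_iff.1 hm h4
  exact mul_ne_zero hP0 h2 h1.symm

end PDV

open PDV in
theorem PDV_thm (h1 : Stmt_CRV) : Stmt_PDV := by
  intro K _ _ A _ _ δ J w F hw hF hNC hcy
  obtain ⟨hA, g, hg1, hg2, hg3⟩ := core h1 w J δ F (insert w J) hw (Finset.Subset.refl _) hF hNC hcy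
  have hP0 : (∏ u ∈ J, cr K u w 2) ≠ 0 := prod_ne (K := K) hw
  refine ⟨hA, g, hg1, hg2, hg3, ?_, ?_, ?_⟩
  · intro hal x hx y hy hxy
    have h2 := hal x hx y hy hxy
    rw [hg1, map_mul, ren_prod hw hx hy, ← mul_neg] at h2
    exact mul_left_cancel₀ hP0 h2
  · intro he
    obtain ⟨-, -, -, -, -, -, -, -, -, hmul, -⟩ := WB_thm K A A 3
    rw [hg1, hmul, eij_prod, zero_mul, add_zero] at he
    exact (mul_eq_zero.1 he).resolve_left hP0
  · intro ν hν hF0
    have hg0 : g ≠ 0 := by
      intro e
      rw [e, mul_zero] at hg1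
      exact hF0 hg1
    have hW := hasW_prod (K := K) J w
    rw [hg1] at hν
    have key : ∀ m ∈ g.support, (fun j : Fin 3 => if j = 2 then 0 else J.card) +
        Finsupp.weight (VSY.WB.wt A 3) m = ν := fun m hm => weight_div hW hP0 hν hm
    obtain ⟨m0, hm0⟩ := support_nonempty.2 hg0
    refine ⟨Finsupp.weight (VSY.WB.wt A 3) m0, ?_, ?_⟩
    · intro m hm j
      rw [← VSY.WB.weight_wt]
      have h2 := (key m hm).trans (key m0 hm0).symm
      exact congrFun (add_left_cancel h2) j
    · have h2 := congrFun (key m0 hm0) 0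
      rw [Pi.add_apply, if_neg (by decide)] at h2
      omega

end Pool.Agent.VOP
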