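import Pool.Agent.VOP.StmtsW
import Pool.Agent.VSY.WB

/-!
# Module PV2: alternating polynomials in two coordinates
-/

namespace Pool.Agent.VOP

open MvPolynomial Pool.Agent.VSY

namespace PV2

variable {K : Type} [Field K] [CharZero K] {A : Type} [DecidableEq A]

/-- Monomials with equal exponents at two alternating points do not occur. -/
theorem ne_of_al {J : Finset A} {G : PX K A 3} (hAl : Al J G) {m : A × Fin 3 →₀ ℕ}
    (hm : m ∈ G.support) {x y : A} (hx : x ∈ J) (hy : y ∈ J) (hxy : x ≠ y)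
    (h : ∀ i, m (x, i) = m (y, i)) : False := by
  have hinj : Function.Injective (Prod.map (Equiv.swap x y) (id : Fin 3 → Fin 3)) :=
    Function.Injective.prodMap (Equiv.swap x y).injective Function.injective_id
  have hmd : m.mapDomain (Prod.map (Equiv.swap x y) id) = m := by
    ext ⟨p, i⟩
    have h1 : m.mapDomain (Prod.map (Equiv.swap x y) id)
        (Prod.map (Equiv.swap x y) id (Equiv.swap x y p, i)) = m (Equiv.swap x y p, i) :=
      Finsupp.mapDomain_apply hinj m _
    simp only [Prod.map_apply, Equiv.swap_apply_self, id] at h1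
    rw [h1]
    by_cases hpx : p = x
    · subst hpx
      rw [Equiv.swap_apply_left]
      exact (h i).symm
    · by_cases hpy : p = y
      · subst hpy
        rw [Equiv.swap_apply_right]
        exact h i
      · rw [Equiv.swap_apply_of_ne_of_ne hpx hpy]
  have h1 : coeff m (ren (Equiv.swap x y) G) = coeff m G := by
    conv_lhs => rw [← hmd]
    exact coeff_rename_mapDomain _ hinj G m
  rw [hAl x hx y hy hxy, coeff_neg] at h1
  have h2 : coeff m G = 0 := by
    have h3 : (2 : K) * coeff m G = 0 := by linear_combination -h1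
    exact (mul_eq_zero.mp h3).resolve_left two_ne_zero
  exact (mem_support_iff.mp hm) h2

variable {δ : A → ℕ} {J : Finset A} {N : ℕ} {G : PX K A 3}

omit [CharZero K] [DecidableEq A] in
theorem sum_at (hD : Dg δ G) (hδ : ∀ x ∈ J, δ x = N) (hNC : NC J G) {m : A × Fin 3 →₀ ℕ}
    (hm : m ∈ G.support) {x : A} (hx : x ∈ J) : m (x, 0) + m (x, 1) = N ∧ m (x, 2) = 0 := by
  have h1 := hD m hm x
  have h2 := hNC m hm x hx
  rw [hδ x hx, Fin.sum_univ_three, h2, add_zero] at h1
  exact ⟨h1, h2⟩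

theorem injOn (hD : Dg δ G) (hδ : ∀ x ∈ J, δ x = N) (hAl : Al J G) (hNC : NC J G)
    {m : A × Fin 3 →₀ ℕ} (hm : m ∈ G.support) :
    Set.InjOn (fun x : A => m (x, 0)) J := by
  intro x hx y hy h
  by_contra hxy
  apply ne_of_al hAl hm hx hy hxy
  obtain ⟨h1, h2⟩ := sum_at hD hδ hNC hm (Finset.mem_coe.mp hx)
  obtain ⟨h3, h4⟩ := sum_at hD hδ hNC hm (Finset.mem_coe.mp hy)
  have h' : m (x, 0) = m (y, 0) := h
  intro i
  fin_cases i
  · exact h'
  · change m (x, 1) = m (y, 1)
    omega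
  · change m (x, 2) = m (y, 2)
    omega

omit [CharZero K] [DecidableEq A] in
theorem maps (hD : Dg δ G) (hδ : ∀ x ∈ J, δ x = N) (hNC : NC J G)
    {m : A × Fin 3 →₀ ℕ} (hm : m ∈ G.support) {x : A} (hx : x ∈ J) :
    m (x, 0) ∈ Finset.range (N + 1) := by
  have := (sum_at hD hδ hNC hm hx).1
  rw [Finset.mem_range]; omega

theorem card_le (hD : Dg δ G) (hδ : ∀ x ∈ J, δ x = N) (hAl : Al J G) (hNC : NC J G)
    {m : A × Fin 3 →₀ ℕ} (hm : m ∈ G.support) : J.card ≤ N + 1 := by
  have := Finset.card_le_card_of_injOn (fun x : A => m (x, 0))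
    (fun x hx => maps hD hδ hNC hm hx) (injOn hD hδ hAl hNC hm)
  rwa [Finset.card_range] at this

theorem image_eq (hD : Dg δ G) (hδ : ∀ x ∈ J, δ x = N) (hAl : Al J G) (hNC : NC J G)
    {m : A × Fin 3 →₀ ℕ} (hm : m ∈ G.support) {s : Finset ℕ}
    (hs : ∀ x ∈ J, m (x, 0) ∈ s) (hc : s.card ≤ J.card) :
    J.image (fun x : A => m (x, 0)) = s := by
  apply Finset.eq_of_subset_of_card_le
  · intro k hk
    obtain ⟨x, hx, rfl⟩ := Finset.mem_image.mp hk
    exact hs x hx
  · rw [Finset.card_image_of_injOn (injOn hD hδ hAl hNC hm)]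
    exact hc

theorem sum_eq (hD : Dg δ G) (hδ : ∀ x ∈ J, δ x = N) (hAl : Al J G) (hNC : NC J G)
    {m : A × Fin 3 →₀ ℕ} (hm : m ∈ G.support) {s : Finset ℕ}
    (hs : ∀ x ∈ J, m (x, 0) ∈ s) (hc : s.card ≤ J.card) :
    ∑ x ∈ J, m (x, 0) = ∑ k ∈ s, k := by
  rw [← image_eq hD hδ hAl hNC hm hs hc, Finset.sum_image (injOn hD hδ hAl hNC hm)]

omit [CharZero K] in
/-- The coefficients of `E_01 G`. -/
theorem coeff_Eij [Fintype A] (G : PX K A 3) (m : A × Fin 3 →₀ ℕ) :
    coeff m (Eij (0 : Fin 3) 1 G) = ∑ y : A, if m (y, 0) = 0 then 0 else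
      coeff (m - Finsupp.single (y, 0) 1 + Finsupp.single (y, 1) 1) G * ((m (y, 1) : K) + 1) := by
  rw [Eij, LinearMap.sum_apply, coeff_sum]
  refine Finset.sum_congr rfl fun y _ => ?_
  change coeff m (X (y, (0 : Fin 3)) * pderiv (y, (1 : Fin 3)) G) = _
  rw [coeff_X_mul']
  by_cases h : m (y, 0) = 0
  · rw [if_pos h, if_neg (by rw [Finsupp.mem_support_iff]; exact fun h' => h' h)]
  · rw [if_neg h, if_pos (by rw [Finsupp.mem_support_iff]; exact h), coeff_pderiv]
    congr 2
    rw [Finsupp.tsub_apply, Finsupp.single_apply, if_neg (by simp)]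
    simp

theorem exists_missing (hD : Dg δ G) (hδ : ∀ x ∈ J, δ x = N) (hAl : Al J G) (hNC : NC J G)
    {m : A × Fin 3 →₀ ℕ} (hm : m ∈ G.support) (hJ : J.card = N) :
    ∃ k < N + 1, ∀ x ∈ J, m (x, 0) ≠ k := by
  by_contra hcon
  push Not at hcon
  have h1 : Finset.range (N + 1) ⊆ J.image (fun x : A => m (x, 0)) := by
    intro k hk
    obtain ⟨x, hx, hxk⟩ := hcon k (Finset.mem_range.mp hk)
    exact Finset.mem_image.mpr ⟨x, hx, hxk⟩
  have h2 := Finset.card_le_card h1
  have h3 := Finset.card_image_le (s := J) (f := fun x : A => m (x, 0))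
  rw [Finset.card_range] at h2
  omega

/-- The missing value `0` occurs. -/
theorem missing_zero [Fintype A] (hD : Dg δ G) (hδ : ∀ x ∈ J, δ x = N) (hAl : Al J G)
    (hNC : NC J G) (hJ : J.card = N) (hE : Eij (0 : Fin 3) 1 G = 0) (hG : G ≠ 0) :
    ∃ m ∈ G.support, ∀ x ∈ J, m (x, 0) ≠ 0 := by
  classical
  have hex : ∃ k, ∃ m ∈ G.support, k < N + 1 ∧ ∀ x ∈ J, m (x, 0) ≠ k := by
    obtain ⟨m, hm⟩ := support_nonempty.mpr hG
    obtain ⟨k, hk, h⟩ := exists_missing hD hδ hAl hNC hm hJ
    exact ⟨k, m, hm, hk, h⟩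
  obtain ⟨m, hm, hk, hmiss⟩ := Nat.find_spec hex
  have hmin : ∀ k < Nat.find hex, ¬ ∃ m ∈ G.support, k < N + 1 ∧ ∀ x ∈ J, m (x, 0) ≠ k :=
    fun k hk => Nat.find_min hex hk
  set k := Nat.find hex with hkdef
  rcases Nat.eq_zero_or_pos k with h0 | hpos
  · exact ⟨m, hm, by rw [h0] at hmiss; exact hmiss⟩
  exfalso
  -- the image
  have himg : J.image (fun x : A => m (x, 0)) = (Finset.range (N + 1)).erase k := by
    apply image_eq hD hδ hAl hNC hm
    · intro x hx
      exact Finset.mem_erase.mpr ⟨hmiss x hx, maps hD hδ hNC hm hx⟩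
    · rw [Finset.card_erase_of_mem (Finset.mem_range.mpr hk), Finset.card_range, hJ]
      omega
  have hval : ∀ v, v ≠ k → v < N + 1 → ∃ z ∈ J, m (z, 0) = v := by
    intro v hv hvN
    have : v ∈ J.image (fun x : A => m (x, 0)) := by
      rw [himg]
      exact Finset.mem_erase.mpr ⟨hv, Finset.mem_range.mpr hvN⟩
    obtain ⟨z, hz, h⟩ := Finset.mem_image.mp this
    exact ⟨z, hz, h⟩
  obtain ⟨x, hx, hxk⟩ := hval (k - 1) (by omega) (by omega)
  have hinjm := injOn hD hδ hAl hNC hm
  have hx1 := (sum_at hD hδ hNC hm hx).1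
  have hm1 : 1 ≤ m (x, 1) := by omega
  -- the monomial `m'`
  set m' : A × Fin 3 →₀ ℕ := m - Finsupp.single (x, 1) 1 + Finsupp.single (x, 0) 1 with hm'
  have hm'0 : ∀ z : A, m' (z, 0) = if z = x then m (z, 0) + 1 else m (z, 0) := by
    intro z
    rw [hm', Finsupp.add_apply, Finsupp.tsub_apply, Finsupp.single_apply, Finsupp.single_apply]
    by_cases hz : z = x
    · subst hz; simp
    · have hz' : ¬ x = z := fun h => hz h.symm
      simp [hz, hz']
  have hcoeff := coeff_Eij G m'
  rw [hE, coeff_zero] at hcoeff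
  rw [Finset.sum_eq_single x] at hcoeff
  · have h1 : m' - Finsupp.single (x, 0) 1 + Finsupp.single (x, 1) 1 = m := by
      rw [hm', add_tsub_cancel_right]
      apply tsub_add_cancel_of_le
      rw [Finsupp.single_le_iff]
      exact hm1
    rw [if_neg (by rw [hm'0, if_pos rfl]; omega), h1] at hcoeff
    rcases mul_eq_zero.mp hcoeff.symm with h | h
    · exact (mem_support_iff.mp hm) h
    · exact (Nat.cast_add_one_ne_zero (R := K) (m' (x, 1))) h
  · intro y _ hyx
    by_cases hy0 : m' (y, 0) = 0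
    · rw [if_pos hy0]
    rw [if_neg hy0]
    suffices h : coeff (m' - Finsupp.single (y, 0) 1 + Finsupp.single (y, 1) 1) G = 0 by
      rw [h, zero_mul]
    by_contra hne
    set n : A × Fin 3 →₀ ℕ := m' - Finsupp.single (y, 0) 1 + Finsupp.single (y, 1) 1 with hn
    have hns : n ∈ G.support := mem_support_iff.mpr hne
    have hn0 : ∀ z : A, n (z, 0) = if z = y then m' (z, 0) - 1 else m' (z, 0) := by
      intro z
      rw [hn, Finsupp.add_apply, Finsupp.tsub_apply, Finsupp.single_apply, Finsupp.single_apply]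
      by_cases hz : z = y
      · subst hz; simp
      · have hz' : ¬ y = z := fun h => hz h.symm
        simp [hz, hz']
    have hinjn := injOn hD hδ hAl hNC hns
    have hmy : m' (y, 0) = m (y, 0) := by rw [hm'0, if_neg hyx]
    have hnx : n (x, 0) = k := by
      rw [hn0, if_neg (Ne.symm hyx), hm'0, if_pos rfl]
      omega
    by_cases hyJ : y ∈ J
    · -- `y ∈ J`
      have hny : n (y, 0) = m (y, 0) - 1 := by rw [hn0, if_pos rfl, hmy]
      have hyN := Finset.mem_range.mp (maps hD hδ hNC hm hyJ)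
      by_cases hvk : m (y, 0) - 1 = k
      · have := hinjn (Finset.mem_coe.mpr hyJ) (Finset.mem_coe.mpr hx)
          (show n (y, 0) = n (x, 0) by rw [hny, hnx, hvk])
        exact hyx this
      · obtain ⟨z, hz, hzv⟩ := hval (m (y, 0) - 1) hvk (by omega)
        have hzy : z ≠ y := by
          rintro rfl
          rw [hmy] at hy0
          omega
        have hzx : z ≠ x := by
          rintro rfl
          rw [hmy] at hy0
          have : m (y, 0) = k := by omega
          exact hmiss y hyJ this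
        have hnz : n (z, 0) = m (z, 0) := by
          rw [hn0, if_neg hzy, hm'0, if_neg hzx]
        exact hzy (hinjn (Finset.mem_coe.mpr hz) (Finset.mem_coe.mpr hyJ)
          (show n (z, 0) = n (y, 0) by rw [hnz, hny, hzv]))
    · -- `y ∉ J`
      apply hmin (k - 1) (by omega)
      refine ⟨n, hns, by omega, fun z hz => ?_⟩
      have hzy : z ≠ y := by rintro rfl; exact hyJ hz
      rw [hn0, if_neg hzy, hm'0]
      by_cases hzx : z = x
      · subst hzx
        rw [if_pos rfl, hxk]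
        omega
      · rw [if_neg hzx]
        intro h
        exact hzx (hinjm (Finset.mem_coe.mpr hz) (Finset.mem_coe.mpr hx)
          (show m (z, 0) = m (x, 0) by rw [h, hxk]))
  · intro h
    exact absurd (Finset.mem_univ x) h

end PV2

open PV2 in
theorem PV2_thm : Stmt_PV2 := by
  classical
  intro K _ _ A _ _ δ J N G hD hδ hAl hNC
  have hsum : ∑ k ∈ Finset.range (N + 1), k = N * (N + 1) / 2 := by
    rw [Finset.sum_range_id, Nat.add_sub_cancel, mul_comm]
  refine ⟨?_, ?_, ?_⟩
  · intro h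
    by_contra hG
    obtain ⟨m, hm⟩ := support_nonempty.mpr hG
    have := card_le hD hδ hAl hNC hm
    omega
  · intro μ hμ hG hJ
    obtain ⟨m, hm⟩ := support_nonempty.mpr hG
    rw [← hμ m hm 0, ← hsum]
    rw [← sum_eq hD hδ hAl hNC hm (fun x hx => maps hD hδ hNC hm hx)
      (by rw [Finset.card_range, hJ])]
    exact Finset.sum_le_sum_of_subset (Finset.subset_univ J)
  · intro μ hμ hG hJ hE
    obtain ⟨m, hm, hmiss⟩ := missing_zero hD hδ hAl hNC hJ hE hG
    rw [← hμ m hm 0, ← hsum]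
    have h1 : ∑ k ∈ Finset.range (N + 1), k = ∑ k ∈ (Finset.range (N + 1)).erase 0, k := by
      rw [← Finset.sum_erase]
      rfl
    rw [h1, ← sum_eq hD hδ hAl hNC hm
      (fun x hx => Finset.mem_erase.mpr ⟨hmiss x hx, maps hD hδ hNC hm hx⟩)
      (by rw [Finset.card_erase_of_mem (by simp), Finset.card_range, hJ]; omega)]
    exact Finset.sum_le_sum_of_subset (Finset.subset_univ J)

end Pool.Agent.VOP
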