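import Pool.Agent.VOP.StmtsW

/-!
# STAR: a cycle which vanishes when `w` and `e + 1` letters are on a line
-/

namespace Pool.Agent.VOP

open MvPolynomial Pool.Agent.VSY

namespace STAR

/-- The induction: `f` is in `I_b` for all `b ≤ a + 1`. -/
lemma mem_IB (h2 : Stmt_USB) {K : Type} [Field K] [CharZero K] {A : Type} [Fintype A]
    [DecidableEq A] {Λ : Finset A} {w : A} {e a : ℕ} {f : PX K A 3} (hw : w ∉ Λ)
    (ha : Λ.card = e + 1 + a) (hc : Λ.card ≤ e + 1 ∨ Λ.card ≤ 2 * e) (h0 : f ∈ IB K w 0 Λ)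
    (hps : ∀ J, J ⊆ Λ → e + 1 ≤ J.card → ps K (insert w J) f = 0) :
    ∀ b, b ≤ a + 1 → f ∈ IB K w b Λ := by
  intro b
  induction b with
  | zero => intro _; exact h0
  | succ b ih =>
    intro hb
    refine h2 K A Λ w b f hw ?_ (ih (by omega)) ?_
    · by_cases hb0 : b = 0
      · exact Or.inl ⟨hb0, by omega⟩
      · exact Or.inr (by omega)
    · intro I hI hIb
      refine hps _ Finset.sdiff_subset ?_
      rw [Finset.card_sdiff_of_subset hI]
      omega

end STAR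

theorem STAR_thm (h1 : Stmt_GEN) (h2 : Stmt_USB) (h3 : Stmt_EXT) : Stmt_STAR := by
  intro K _ _ A _ _ δ Λ w r e f hw hδ hcard hc hf hcy hps
  have h0 : f ∈ IB K w 0 Λ := h1 K A δ Λ w f hw (by rw [hδ]; exact hcard) hf hcy
  by_cases hle : Λ.card ≤ e
  · exact h3 K A δ Λ w 0 r e f hw hδ (by omega) hf h0
  · obtain ⟨a, ha⟩ : ∃ a, Λ.card = e + 1 + a := ⟨Λ.card - (e + 1), by omega⟩
    exact h3 K A δ Λ w (a + 1) r e f hw hδ (by omega) hf
      (STAR.mem_IB h2 hw ha hc h0 hps (a + 1) le_rfl)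

end Pool.Agent.VOP
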