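import Pool.Agent.VOP.StmtsU

/-!
# UCB: the decomposition of a symbol (MP_deb8da_ag)
-/

namespace Pool.Agent.VOP

open MvPolynomial Pool.Agent.VSY

namespace UCB

variable {K : Type} [Field K] [CharZero K] {A : Type} [Fintype A] [DecidableEq A]

/-- The homogeneous elements of degree `s`, as a subspace over the ground field. -/
noncomputable def HS (K : Type) [Field K] (A : Type) (s : ℕ) : Submodule K (PY K A) :=
  (homogeneousSubmodule (Fin 3) (PX K A 3) s).restrictScalars K

omit [CharZero K] [Fintype A] [DecidableEq A] in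
theorem mem_HS {s : ℕ} {f : PY K A} : f ∈ HS K A s ↔ f.IsHomogeneous s := by
  unfold HS
  rw [Submodule.restrictScalars_mem, mem_homogeneousSubmodule]

omit [CharZero K] [Fintype A] [DecidableEq A] in
/-- `y(x)` is homogeneous of degree one. -/
theorem av_hom (x : A) : (av K x).IsHomogeneous 1 := by
  unfold av
  refine IsHomogeneous.sum _ _ _ fun i _ => ?_
  have h := (isHomogeneous_C (Fin 3) (X (x, i) : PX K A 3)).mul
    (isHomogeneous_X (PX K A 3) i)
  simpa using h

omit [Fintype A] [DecidableEq A] in
/-- An antisymmetric double sum vanishes. -/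
theorem anti_sum (J : Finset A) (a : A → PY K A) (B : A → A → PY K A)
    (hB : ∀ x x', B x x' = -B x' x) :
    ∑ x ∈ J, a x * ∑ x' ∈ J, a x' * B x x' = 0 := by
  have h1 : ∑ x ∈ J, a x * ∑ x' ∈ J, a x' * B x x'
      = -∑ x ∈ J, a x * ∑ x' ∈ J, a x' * B x x' := by
    calc ∑ x ∈ J, a x * ∑ x' ∈ J, a x' * B x x'
        = ∑ x ∈ J, ∑ x' ∈ J, a x * (a x' * B x x') := by
          refine Finset.sum_congr rfl fun x _ => ?_
          rw [Finset.mul_sum]
      _ = ∑ x' ∈ J, ∑ x ∈ J, a x * (a x' * B x x') := Finset.sum_comm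
      _ = ∑ x' ∈ J, -(a x' * ∑ x ∈ J, a x * B x' x) := by
          refine Finset.sum_congr rfl fun x' _ => ?_
          rw [Finset.mul_sum, ← Finset.sum_neg_distrib]
          refine Finset.sum_congr rfl fun x _ => ?_
          rw [hB x x']
          ring
      _ = -∑ x ∈ J, a x * ∑ x' ∈ J, a x' * B x x' := by
          rw [Finset.sum_neg_distrib]
  have h2 : (2 : K) • ∑ x ∈ J, a x * ∑ x' ∈ J, a x' * B x x' = 0 := by
    rw [two_smul]
    nth_rewrite 1 [h1]
    exact neg_add_cancel _
  exact (smul_eq_zero.1 h2).resolve_left two_ne_zero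

end UCB

open UCB in
theorem UCB_thm (h1 : Stmt_UKX) (h2 : Stmt_UGOT) : Stmt_UCB := by
  intro K _ _ A _ _ Λ w b t P hw hP hPh hbt hps
  -- the first decomposition
  have hQ : ∀ I : Finset A, ∃ Q : A → PY K A, (∀ x, (Q x).IsHomogeneous t) ∧
      (I ⊆ Λ → I.card = b → P I = ∑ x ∈ insert w (Λ \ I), av K x * Q x) := by
    intro I
    by_cases hI : I ⊆ Λ ∧ I.card = b
    · obtain ⟨Q, hQ1, hQ2⟩ := (h1 K A (insert w (Λ \ I)) t).1 (P I) (hPh I) (hps I hI.1 hI.2)
      exact ⟨Q, hQ1, fun _ _ => hQ2⟩
    · exact ⟨fun _ => 0, fun _ => isHomogeneous_zero _ _ _,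
        fun ha hb => absurd ⟨ha, hb⟩ hI⟩
  choose Q hQh hQ using hQ
  rcases Nat.eq_zero_or_pos b with rfl | hbpos
  · -- no pairs
    have hspe : ∀ (L : Finset A) (x : A), Spe L 0 (fun I => if I = ∅ then Q ∅ x else 0) := by
      intro L x
      refine ⟨?_, ?_⟩
      · intro I hI
        by_cases h : I = ∅
        · subst h
          exact ⟨Finset.empty_subset _, rfl⟩
        · simp [h] at hI
      · intro I _ hI
        omega
    refine ⟨fun x I => if I = ∅ then Q ∅ x else 0, fun x _ => hspe _ x, hspe _ w, ?_, ?_⟩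
    · intro x I
      by_cases h : I = ∅
      · simp only [h, if_true]
        exact hQh ∅ x
      · simp only [h, if_false]
        exact isHomogeneous_zero _ _ _
    · intro I
      by_cases h : I = ∅
      · subst h
        simp only [if_true]
        have := hQ ∅ (Finset.empty_subset _) rfl
        rwa [Finset.sdiff_empty] at this
      · simp only [h, if_false, mul_zero, Finset.sum_const_zero]
        by_contra h0
        exact h (Finset.card_eq_zero.1 (hP.supp I h0).2)
  · obtain ⟨c, rfl⟩ : ∃ c, b = c + 1 := ⟨b - 1, by omega⟩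
    obtain ⟨ht, hcard⟩ : 1 ≤ t ∧ 2 * (c + 1) + 1 ≤ Λ.card := by
      rcases hbt with h | h
      · omega
      · exact h
    obtain ⟨s, rfl⟩ : ∃ s, t = s + 1 := ⟨t - 1, by omega⟩
    -- the index sets of the double sums
    have hidx : ∀ (I : Finset A) (i x : A), (i ∈ Λ \ I ∧ x ∈ insert w (Λ \ insert i I)) ↔
        (i ∈ (Λ \ I).erase x ∧ x ∈ insert w (Λ \ I)) := by
      intro I i x
      simp only [Finset.mem_sdiff, Finset.mem_insert, Finset.mem_erase, not_or]
      constructor
      · rintro ⟨⟨hi, hiI⟩, hx⟩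
        rcases hx with rfl | ⟨hx, hxi, hxI⟩
        · refine ⟨⟨?_, hi, hiI⟩, Or.inl rfl⟩
          rintro rfl
          exact hw hi
        · exact ⟨⟨fun h => hxi h.symm, hi, hiI⟩, Or.inr ⟨hx, hxI⟩⟩
      · rintro ⟨⟨hix, hi, hiI⟩, hx⟩
        refine ⟨⟨hi, hiI⟩, ?_⟩
        rcases hx with rfl | ⟨hx, hxI⟩
        · exact Or.inl rfl
        · exact Or.inr ⟨hx, fun h => hix h.symm, hxI⟩
    -- the second Koszul step
    have hA : ∀ I : Finset A, ∃ B : A → A → PY K A, (∀ x x', (B x x').IsHomogeneous s) ∧
        (∀ x x', B x x' = -B x' x) ∧ (I ⊆ Λ → I.card = c → ∀ x ∈ insert w (Λ \ I),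
          ∑ i ∈ (Λ \ I).erase x, Q (insert i I) x
            = ∑ x' ∈ insert w (Λ \ I), av K x' * B x x') := by
      intro I
      by_cases hI : I ⊆ Λ ∧ I.card = c
      · have hsum : ∑ x ∈ insert w (Λ \ I),
            av K x * ∑ i ∈ (Λ \ I).erase x, Q (insert i I) x = 0 := by
          have h0 := hP.sum I hI.1 (by omega)
          rw [← h0]
          have h3 : ∀ i ∈ Λ \ I, P (insert i I)
              = ∑ x ∈ insert w (Λ \ insert i I), av K x * Q (insert i I) x := by
            intro i hi
            rw [Finset.mem_sdiff] at hi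
            refine hQ (insert i I) ?_ ?_
            · exact Finset.insert_subset hi.1 hI.1
            · rw [Finset.card_insert_of_notMem hi.2, hI.2]
          rw [Finset.sum_congr rfl h3, Finset.sum_comm' (hidx I)]
          refine Finset.sum_congr rfl fun x _ => ?_
          rw [Finset.mul_sum]
        obtain ⟨B, hB1, hB2, hB3⟩ := (h1 K A (insert w (Λ \ I)) s).2
          (fun x => ∑ i ∈ (Λ \ I).erase x, Q (insert i I) x)
          (fun x => IsHomogeneous.sum _ _ _ fun i _ => hQh _ _) hsum
        exact ⟨B, hB1, hB2, fun _ _ => hB3⟩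
      · refine ⟨fun _ _ => 0, fun _ _ => isHomogeneous_zero _ _ _, fun _ _ => neg_zero.symm,
          fun ha hb => absurd ⟨ha, hb⟩ hI⟩
    choose A' hAh hAa hA using hA
    -- the inclusion maps
    have hG : ∀ x x' : A, ∃ G : Finset A → PY K A, (∀ I, (G I).IsHomogeneous s) ∧
        ∀ I, I ⊆ (Λ.erase x).erase x' → I.card = c →
          ∑ i ∈ ((Λ.erase x).erase x') \ I, G (insert i I) = A' I x x' := by
      intro x x'
      have hX : 2 * c + 1 ≤ ((Λ.erase x).erase x').card := by
        have e1 := Finset.pred_card_le_card_erase (s := Λ) (a := x)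
        have e2 := Finset.pred_card_le_card_erase (s := Λ.erase x) (a := x')
        omega
      obtain ⟨G, hG1, hG2⟩ := (h2 K A (PY K A) ((Λ.erase x).erase x') c).1 (HS K A s) hX
        (fun I => A' I x x') (fun I => mem_HS.2 (hAh I x x'))
      exact ⟨G, fun I => mem_HS.1 (hG1 I), hG2⟩
    choose G hGh hG using hG
    let B : A → A → Finset A → PY K A := fun x x' I => (2 : K)⁻¹ • (G x x' I - G x' x I)
    have hBh : ∀ x x' I, (B x x' I).IsHomogeneous s := by
      intro x x' I
      refine mem_HS.1 ((HS K A s).smul_mem _ ((HS K A s).sub_mem ?_ ?_))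
      · exact mem_HS.2 (hGh x x' I)
      · exact mem_HS.2 (hGh x' x I)
    have hBa : ∀ (I : Finset A) (x x' : A), B x x' I = -B x' x I := by
      intro I x x'
      simp only [B]
      rw [← smul_neg, neg_sub]
    have hBs : ∀ (x x' : A) (I : Finset A), I ⊆ (Λ.erase x).erase x' → I.card = c →
        ∑ i ∈ ((Λ.erase x).erase x') \ I, B x x' (insert i I) = A' I x x' := by
      intro x x' I hI hc
      simp only [B]
      rw [← Finset.smul_sum, Finset.sum_sub_distrib, hG x x' I hI hc]
      have e : (Λ.erase x).erase x' = (Λ.erase x').erase x := Finset.erase_right_comm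
      have e2 : ∑ i ∈ ((Λ.erase x).erase x') \ I, G x' x (insert i I) = A' I x' x := by
        rw [e]
        exact hG x' x I (e ▸ hI) hc
      rw [e2, hAa I x' x, sub_neg_eq_add, ← two_smul K, smul_smul,
        inv_mul_cancel₀ (two_ne_zero' K), one_smul]
    -- the result
    let P' : A → Finset A → PY K A := fun x I =>
      if I ⊆ Λ ∧ I.card = c + 1 ∧ x ∈ insert w (Λ \ I) then
        Q I x - ∑ x' ∈ insert w (Λ \ I), av K x' * B x x' I else 0
    have hspe : ∀ x ∈ insert w Λ, Spe (Λ.erase x) (c + 1) (P' x) := by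
      intro x hx
      refine ⟨?_, ?_⟩
      · intro I hI
        by_cases h : I ⊆ Λ ∧ I.card = c + 1 ∧ x ∈ insert w (Λ \ I)
        · refine ⟨?_, h.2.1⟩
          have hxI : x ∉ I := by
            have h3 := h.2.2
            rw [Finset.mem_insert, Finset.mem_sdiff] at h3
            rcases h3 with rfl | h3
            · exact fun h4 => hw (h.1 h4)
            · exact h3.2
          intro z hz
          rw [Finset.mem_erase]
          exact ⟨fun h4 => hxI (h4 ▸ hz), h.1 hz⟩
        · exfalso
          apply hI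
          simp only [P']
          rw [if_neg h]
      · intro I hI hc
        have hc' : I.card = c := by omega
        have hxI : x ∉ I := fun h => (Finset.mem_erase.1 (hI h)).1 rfl
        have hIΛ : I ⊆ Λ := hI.trans (Finset.erase_subset _ _)
        have hx' : x ∈ insert w (Λ \ I) := by
          rw [Finset.mem_insert, Finset.mem_sdiff]
          rcases Finset.mem_insert.1 hx with h | h
          · exact Or.inl h
          · exact Or.inr ⟨h, hxI⟩
        have hset : Λ.erase x \ I = (Λ \ I).erase x := by
          ext z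
          simp only [Finset.mem_sdiff, Finset.mem_erase]
          tauto
        rw [hset]
        have hval : ∀ i ∈ (Λ \ I).erase x, P' x (insert i I) = Q (insert i I) x
            - ∑ x' ∈ insert w (Λ \ insert i I), av K x' * B x x' (insert i I) := by
          intro i hi
          have hi' := (hidx I i x).2 ⟨hi, hx'⟩
          have hi2 := Finset.mem_sdiff.1 hi'.1
          simp only [P']
          rw [if_pos ⟨Finset.insert_subset hi2.1 hIΛ, by
            rw [Finset.card_insert_of_notMem hi2.2, hc'], hi'.2⟩]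
        rw [Finset.sum_congr rfl hval, Finset.sum_sub_distrib, hA I hIΛ hc' x hx', sub_eq_zero]
        have hidx2 : ∀ (i x' : A), (i ∈ (Λ \ I).erase x ∧ x' ∈ insert w (Λ \ insert i I)) ↔
            (i ∈ ((Λ.erase x).erase x') \ I ∧ x' ∈ insert w (Λ \ I)) := by
          intro i x'
          have h3 := hidx I i x'
          constructor
          · rintro ⟨ha, hb⟩
            have ha' := Finset.mem_erase.1 ha
            have h4 := h3.1 ⟨ha'.2, hb⟩
            have h5 := Finset.mem_erase.1 h4.1
            have h6 := Finset.mem_sdiff.1 h5.2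
            refine ⟨?_, h4.2⟩
            rw [Finset.mem_sdiff, Finset.mem_erase, Finset.mem_erase]
            exact ⟨⟨h5.1, ha'.1, h6.1⟩, h6.2⟩
          · rintro ⟨ha, hb⟩
            rw [Finset.mem_sdiff, Finset.mem_erase, Finset.mem_erase] at ha
            have h4 := h3.2 ⟨Finset.mem_erase.2 ⟨ha.1.1, Finset.mem_sdiff.2 ⟨ha.1.2.2, ha.2⟩⟩, hb⟩
            exact ⟨Finset.mem_erase.2 ⟨ha.1.2.1, h4.1⟩, h4.2⟩
        rw [Finset.sum_comm' hidx2]
        refine Finset.sum_congr rfl fun x' hx'2 => ?_
        rw [← Finset.mul_sum, hBs x x' I ?_ hc']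
        intro z hz
        rw [Finset.mem_erase, Finset.mem_erase]
        refine ⟨?_, fun h => hxI (h ▸ hz), hIΛ hz⟩
        rintro rfl
        rcases Finset.mem_insert.1 hx'2 with h | h
        · exact hw (h ▸ hIΛ hz)
        · exact (Finset.mem_sdiff.1 h).2 hz
    refine ⟨P', fun x hx => hspe x (Finset.mem_insert_of_mem hx), ?_, ?_, ?_⟩
    · have h := hspe w (Finset.mem_insert_self _ _)
      rwa [Finset.erase_eq_of_notMem hw] at h
    · intro x I
      simp only [P']
      split_ifs
      · refine (hQh I x).sub (IsHomogeneous.sum _ _ _ fun x' _ => ?_)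
        have h := (av_hom (K := K) x').mul (hBh x x' I)
        rwa [add_comm 1 s] at h
      · exact isHomogeneous_zero _ _ _
    · intro I
      by_cases hI : I ⊆ Λ ∧ I.card = c + 1
      · have hsub : insert w (Λ \ I) ⊆ insert w Λ :=
          Finset.insert_subset_insert _ Finset.sdiff_subset
        rw [← Finset.sum_subset hsub (fun x _ hx => ?_)]
        · have hval : ∀ x ∈ insert w (Λ \ I), av K x * P' x I = av K x * Q I x
              - av K x * ∑ x' ∈ insert w (Λ \ I), av K x' * B x x' I := by
            intro x hx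
            simp only [P']
            rw [if_pos ⟨hI.1, hI.2, hx⟩, mul_sub]
          rw [Finset.sum_congr rfl hval, Finset.sum_sub_distrib,
            anti_sum (insert w (Λ \ I)) (av K) (fun x x' => B x x' I) (hBa I), sub_zero]
          exact hQ I hI.1 hI.2
        · simp only [P']
          rw [if_neg (fun h => hx h.2.2), mul_zero]
      · have hPI : P I = 0 := by
          by_contra h0
          exact hI (hP.supp I h0)
        rw [hPI]
        symm
        refine Finset.sum_eq_zero fun x _ => ?_
        simp only [P']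
        rw [if_neg (fun h => hI ⟨h.1, h.2.1⟩), mul_zero]

end Pool.Agent.VOP
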