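import Pool.Agent.VOP.StmtsU

set_option autoImplicit false

namespace Pool.Agent.VOP

open MvPolynomial Pool.Agent.VSY

namespace UEV

variable {K : Type} [Field K] {A : Type} [DecidableEq A]

lemma ps_mem {J : Finset A} {s : A} (hs : s ∈ J) (k : Fin 3) :
    ps K J (X (s, k)) =
      if k = 2 then -(C (X (s, 0)) * X 0 + C (X (s, 1)) * X 1) else C (X (s, k)) * X 2 := by
  simp only [ps, aeval_X, hs, if_true]

lemma ps_not {J : Finset A} {s : A} (hs : s ∉ J) (k : Fin 3) :
    ps K J (X (s, k)) = C (X (s, k)) := by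
  simp only [ps, aeval_X, hs, if_false]

lemma ps_cr {J : Finset A} {s w : A} (hw : w ∈ J) (hs : s ∈ J) (i : Fin 3) :
    ps K J (cr K s w i) = lm K w s * X i := by
  have h0 : ∀ x ∈ J, ps K J (X (x, 0)) = C (X (x, 0)) * X 2 := fun x hx => by
    rw [ps_mem hx]; simp
  have h1 : ∀ x ∈ J, ps K J (X (x, 1)) = C (X (x, 1)) * X 2 := fun x hx => by
    rw [ps_mem hx]; simp
  have h2 : ∀ x ∈ J, ps K J (X (x, 2)) = -(C (X (x, 0)) * X 0 + C (X (x, 1)) * X 1) :=
    fun x hx => by rw [ps_mem hx]; simp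
  fin_cases i
  · show ps K J (X (s, 1) * X (w, 2) - X (s, 2) * X (w, 1)) = lm K w s * X 0
    rw [map_sub, map_mul, map_mul, h1 s hs, h2 w hw, h2 s hs, h1 w hw, lm]
    simp only [C_sub, C_mul]
    ring
  · show ps K J (X (s, 2) * X (w, 0) - X (s, 0) * X (w, 2)) = lm K w s * X 1
    rw [map_sub, map_mul, map_mul, h2 s hs, h0 w hw, h0 s hs, h2 w hw, lm]
    simp only [C_sub, C_mul]
    ring
  · show ps K J (X (s, 0) * X (w, 1) - X (s, 1) * X (w, 0)) = lm K w s * X 2
    rw [map_sub, map_mul, map_mul, h0 s hs, h1 w hw, h1 s hs, h0 w hw, lm]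
    simp only [C_sub, C_mul]
    ring

lemma ps_br {J : Finset A} {i j w : A} (hw : w ∈ J) (hj : j ∈ J) :
    ps K J (br K i j w) = lm K w j * ∑ k, ps K J (X (i, k)) * X k := by
  rw [br, map_sum, Finset.mul_sum]
  refine Finset.sum_congr rfl fun k _ => ?_
  rw [map_mul, ps_cr hw hj]
  ring

lemma ps_br_both {J : Finset A} {i j w : A} (hw : w ∈ J) (hi : i ∈ J) (hj : j ∈ J) :
    ps K J (br K i j w) = 0 := by
  rw [ps_br hw hj, Fin.sum_univ_three, ps_mem hi, ps_mem hi, ps_mem hi]
  have e0 : (0 : Fin 3) ≠ 2 := by decide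
  have e1 : (1 : Fin 3) ≠ 2 := by decide
  rw [if_neg e0, if_neg e1, if_pos rfl]
  ring

lemma ps_br_right {J : Finset A} {i j w : A} (hw : w ∈ J) (hi : i ∉ J) (hj : j ∈ J) :
    ps K J (br K i j w) = lm K w j * av K i := by
  rw [ps_br hw hj, av, Fin.sum_univ_three, Fin.sum_univ_three, ps_not hi, ps_not hi, ps_not hi]

lemma br_swap (i j w : A) : br K i j w = -br K j i w := by
  rw [br, br, Fin.sum_univ_three, Fin.sum_univ_three]
  simp only [cr]
  have e : (0 : Fin 3) + 1 = 1 ∧ (0 : Fin 3) + 2 = 2 ∧ (1 : Fin 3) + 1 = 2 ∧ (1 : Fin 3) + 2 = 0 ∧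
      (2 : Fin 3) + 1 = 0 ∧ (2 : Fin 3) + 2 = 1 := by decide
  obtain ⟨e1, e2, e3, e4, e5, e6⟩ := e
  rw [e1, e2, e3, e4, e5, e6]
  ring

lemma ps_br_left {J : Finset A} {i j w : A} (hw : w ∈ J) (hi : i ∈ J) (hj : j ∉ J) :
    ps K J (br K i j w) = -(lm K w i * av K j) := by
  rw [br_swap, map_neg, ps_br_right hw hj hi]

/-- The form `∑ X i * X i`. -/
noncomputable def L (K : Type) [Field K] (A : Type) : MvPolynomial (Fin 3) (PY K A) :=
  ∑ i, C (X i) * X i

/-- `ps K J` applied to the coefficients. -/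
noncomputable def mp (K : Type) [Field K] {A : Type} [DecidableEq A] (J : Finset A) :
    PY K A →+* MvPolynomial (Fin 3) (PY K A) :=
  MvPolynomial.map (ps K J : PX K A 3 →+* PY K A)

lemma mp_C {J : Finset A} (f : PX K A 3) : mp K J (C f) = C (ps K J f) := by
  rw [mp, MvPolynomial.map_C]; rfl

lemma mp_X {J : Finset A} (i : Fin 3) : mp K J (X i) = X i := by
  rw [mp, MvPolynomial.map_X]

lemma mp_el {J : Finset A} {s w : A} (hw : w ∈ J) (hs : s ∈ J) :
    mp K J (el K w s) = C (lm K w s) * L K A := by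
  rw [el, map_sum, L, Finset.mul_sum]
  refine Finset.sum_congr rfl fun i _ => ?_
  rw [map_mul, mp_C, ps_cr hw hs, C_mul, mul_assoc, mp_X]

lemma erase_sdiff {Λ J : Finset A} (i j : A) :
    ((Λ.erase i).erase j) \ J = ((Λ \ J).erase i).erase j := by
  ext x; simp only [Finset.mem_sdiff, Finset.mem_erase]; tauto

lemma erase_inter {Λ J : Finset A} (i j : A) :
    ((Λ.erase i).erase j) ∩ J = ((Λ ∩ J).erase i).erase j := by
  ext x; simp only [Finset.mem_inter, Finset.mem_erase]; tauto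

lemma card_erase2 {Λ : Finset A} {i j : A} (hi : i ∈ Λ) (hj : j ∈ Λ) (hij : i ≠ j) :
    ((Λ.erase i).erase j).card + 2 = Λ.card := by
  have h1 := Finset.card_erase_add_one hi
  have h2 := Finset.card_erase_add_one (Finset.mem_erase.2 ⟨hij.symm, hj⟩)
  omega

lemma key {J : Finset A} {w : A} (hw : w ∈ J) {b : ℕ} {Λ : Finset A}
    {p : Finset A → PX K A 3} {g : PY K A} (h : WP K w b Λ p g) :
    ((Λ \ J).card < b → mp K J g = 0) ∧
    ((Λ \ J).card = b → mp K J g = C ((∏ i ∈ Λ \ J, av K i) * (∏ j ∈ Λ ∩ J, lm K w j) *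
      ps K J (p (Λ \ J))) * L K A ^ (Λ.card - 2 * b)) := by
  induction h with
  | base Λ c =>
    refine ⟨fun h => absurd h (by omega), fun h => ?_⟩
    have h1 : Λ \ J = ∅ := Finset.card_eq_zero.1 h
    have h2 : Λ ⊆ J := Finset.sdiff_eq_empty_iff_subset.1 h1
    have h3 : Λ ∩ J = Λ := Finset.inter_eq_left.2 h2
    rw [h1, h3, map_mul, mp_C, map_prod, Finset.prod_congr rfl (fun s hs => mp_el hw (h2 hs)),
      Finset.prod_mul_distrib, Finset.prod_const, ← map_prod]
    simp only [Finset.prod_empty, one_mul, if_true, mul_zero, Nat.sub_zero, C_mul]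
    ring
  | pair b Λ i j p g hi hj hij h ih =>
    obtain ⟨ih1, ih2⟩ := ih
    rw [map_mul, mp_C]
    have hc := card_erase2 hi hj hij
    rw [erase_sdiff, erase_inter] at ih2
    rw [erase_sdiff] at ih1
    have hexp : Λ.card - 2 * (b + 1) = ((Λ.erase i).erase j).card - 2 * b := by omega
    by_cases hiJ : i ∈ J <;> by_cases hjJ : j ∈ J
    · rw [ps_br_both hw hiJ hjJ, map_zero, zero_mul]
      refine ⟨fun _ => rfl, fun _ => ?_⟩
      have h1 : um i j p (Λ \ J) = 0 := by
        have hi' : i ∉ Λ \ J := fun h => (Finset.mem_sdiff.1 h).2 hiJ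
        have hj' : j ∉ Λ \ J := fun h => (Finset.mem_sdiff.1 h).2 hjJ
        rw [um, if_neg (fun h => hi' h.1), if_neg (fun h => hj' h.1)]
      rw [h1, map_zero, mul_zero, map_zero, zero_mul]
    · have hi' : i ∉ Λ \ J := fun h => (Finset.mem_sdiff.1 h).2 hiJ
      have hj' : j ∈ Λ \ J := Finset.mem_sdiff.2 ⟨hj, hjJ⟩
      have hiI : i ∈ Λ ∩ J := Finset.mem_inter.2 ⟨hi, hiJ⟩
      have hjI : j ∉ (Λ ∩ J).erase i := fun h =>
        hjJ (Finset.mem_inter.1 (Finset.mem_of_mem_erase h)).2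
      rw [Finset.erase_eq_of_notMem hi', Finset.erase_eq_of_notMem hjI] at ih2
      rw [Finset.erase_eq_of_notMem hi'] at ih1
      have hcd := Finset.card_erase_add_one hj'
      refine ⟨fun h => by rw [ih1 (by omega), mul_zero], fun h => ?_⟩
      rw [ih2 (by omega), hexp, ps_br_left hw hiJ hjJ, um, if_neg (fun h => hi' h.1),
        if_pos ⟨hj', hi'⟩, ← Finset.mul_prod_erase (Λ \ J) (fun x => av K x) hj',
        ← Finset.mul_prod_erase (Λ ∩ J) (fun x => lm K w x) hiI, map_neg (ps K J)]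
      simp only [C_mul, C_neg]
      ring
    · have hj' : j ∉ Λ \ J := fun h => (Finset.mem_sdiff.1 h).2 hjJ
      have hi' : i ∈ Λ \ J := Finset.mem_sdiff.2 ⟨hi, hiJ⟩
      have hjI : j ∈ Λ ∩ J := Finset.mem_inter.2 ⟨hj, hjJ⟩
      have hiI : i ∉ Λ ∩ J := fun h => hiJ (Finset.mem_inter.1 h).2
      have hj'' : j ∉ (Λ \ J).erase i := fun h => hj' (Finset.mem_of_mem_erase h)
      rw [Finset.erase_eq_of_notMem hj'', Finset.erase_eq_of_notMem hiI] at ih2
      rw [Finset.erase_eq_of_notMem hj''] at ih1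
      have hcd := Finset.card_erase_add_one hi'
      refine ⟨fun h => by rw [ih1 (by omega), mul_zero], fun h => ?_⟩
      rw [ih2 (by omega), hexp, ps_br_right hw hiJ hjJ, um, if_pos ⟨hi', hj'⟩,
        ← Finset.mul_prod_erase (Λ \ J) (fun x => av K x) hi',
        ← Finset.mul_prod_erase (Λ ∩ J) (fun x => lm K w x) hjI]
      simp only [C_mul]
      ring
    · have hi' : i ∈ Λ \ J := Finset.mem_sdiff.2 ⟨hi, hiJ⟩
      have hj' : j ∈ Λ \ J := Finset.mem_sdiff.2 ⟨hj, hjJ⟩
      have hcd := card_erase2 hi' hj' hij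
      refine ⟨fun h => by rw [ih1 (by omega), mul_zero], fun h => ?_⟩
      rw [ih1 (by omega), mul_zero, um, if_neg (fun h => h.2 hj'), if_neg (fun h => h.2 hi'),
        map_zero, mul_zero, map_zero, zero_mul]
  | add b Λ p p' g g' h h' ih ih' =>
    refine ⟨fun hh => by rw [map_add, ih.1 hh, ih'.1 hh, add_zero], fun hh => ?_⟩
    rw [map_add, ih.2 hh, ih'.2 hh, map_add]
    simp only [C_mul, C_add]
    ring

lemma coeff_L (t : ℕ) (α : Fin 3 →₀ ℕ) (hα : ∑ i, α i = t) :
    ((∏ i, (α i).factorial : ℕ) : PY K A) * coeff α (L K A ^ t) =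
      (t.factorial : PY K A) * ∏ i, X i ^ α i := by
  classical
  rw [L, Finset.sum_pow_eq_sum_piAntidiag, coeff_sum]
  have h1 : ∀ k : Fin 3 → ℕ, ∏ i, (C (X i : PY K A) * X i : MvPolynomial (Fin 3) (PY K A)) ^ k i =
      monomial (Finsupp.equivFunOnFinite.symm k) (∏ i, X i ^ k i) := by
    intro k
    rw [monomial_eq, Finsupp.prod_fintype _ _ (fun i => pow_zero _)]
    simp only [mul_pow, Finset.prod_mul_distrib, map_prod, map_pow,
      Finsupp.equivFunOnFinite_symm_apply_apply]
  have h2 : ∀ k : Fin 3 → ℕ, coeff α (((Nat.multinomial Finset.univ k : ℕ) :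
      MvPolynomial (Fin 3) (PY K A)) * ∏ i, (C (X i : PY K A) * X i) ^ k i) =
      if k = α then ((Nat.multinomial Finset.univ k : ℕ) : PY K A) * ∏ i, X i ^ k i else 0 := by
    intro k
    rw [h1, ← map_natCast (C : PY K A →+* MvPolynomial (Fin 3) (PY K A)), coeff_C_mul,
      coeff_monomial]
    by_cases hk : k = α
    · rw [if_pos hk, if_pos]
      rw [hk]; exact Finsupp.equivFunOnFinite.symm_apply_apply α
    · rw [if_neg hk, if_neg, mul_zero]
      intro h; apply hk; rw [← h]; rfl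
  simp only [h2]
  rw [Finset.sum_ite_eq' , if_pos]
  · rw [← mul_assoc, ← Nat.cast_mul, Nat.multinomial_spec, hα]
  · rw [Finset.mem_piAntidiag]
    exact ⟨hα, fun i _ => Finset.mem_univ i⟩

end UEV

open Pool.Agent.VOP.UEV

theorem UEV_thm (_h1 : Stmt_UWP) : Stmt_UEV := by
  intro K _ _ A _ _ Λ J w hwΛ hw
  clear hwΛ
  refine ⟨?_, ?_⟩
  · intro b t P f hbt hhom hTh hcard
    obtain ⟨g, hg, hf⟩ := hTh
    have ht0 : ((t.factorial : ℕ) : K) ≠ 0 := Nat.cast_ne_zero.2 (Nat.factorial_ne_zero t)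
    have ht0' : ((t.factorial : ℕ) : PY K A) ≠ 0 := Nat.cast_ne_zero.2 (Nat.factorial_ne_zero t)
    set Q : PY K A := (∏ i ∈ Λ \ J, av K i) * (∏ j ∈ Λ ∩ J, lm K w j) with hQ
    have hcoef : ∀ α ∈ (Finset.univ : Finset (Fin 3)).finsuppAntidiag t,
        ((∏ i, (α i).factorial : ℕ) : PY K A) * ps K J (coeff α (g α)) =
        (t.factorial : PY K A) * (Q * (ps K J (coeff α (P (Λ \ J))) * ∏ i, X i ^ α i)) := by
      intro α hα
      have hα' : ∑ i, α i = t := (Finset.mem_finsuppAntidiag.1 hα).1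
      have h1 := (key hw (hg α)).2 hcard
      have h2 : ps K J (coeff α (g α)) = coeff α (mp K J (g α)) := by
        rw [mp, coeff_map]; rfl
      have h3 : Λ.card - 2 * b = t := by omega
      rw [h2, h1, h3, coeff_C_mul, ← hQ]
      have h4 := coeff_L (K := K) (A := A) t α hα'
      calc ((∏ i, (α i).factorial : ℕ) : PY K A) *
            (Q * ps K J (coeff α (P (Λ \ J))) * coeff α (L K A ^ t))
          = (Q * ps K J (coeff α (P (Λ \ J)))) *
            (((∏ i, (α i).factorial : ℕ) : PY K A) * coeff α (L K A ^ t)) := by ring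
        _ = _ := by rw [h4]; ring
    have hpsY : psY K J (P (Λ \ J)) =
        ∑ α ∈ (Finset.univ : Finset (Fin 3)).finsuppAntidiag t,
          ps K J (coeff α (P (Λ \ J))) * ∏ i, X i ^ α i := by
      rw [psY, coe_eval₂Hom, eval₂_eq']
      refine Finset.sum_subset_zero_on_sdiff ?_ ?_ (fun α _ => rfl)
      · intro α hα
        rw [Finset.mem_finsuppAntidiag]
        refine ⟨?_, fun i _ => Finset.mem_univ i⟩
        have := hhom (Λ \ J) (mem_support_iff.1 hα)
        rw [Finsupp.weight_apply, Finsupp.sum_fintype _ _ (by simp)] at this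
        simpa using this
      · intro α hα
        have := notMem_support_iff.1 (Finset.mem_sdiff.1 hα).2
        rw [this, map_zero, zero_mul]
    have hmain : (t.factorial : PY K A) * ps K J f =
        (t.factorial : PY K A) * (Q * psY K J (P (Λ \ J))) := by
      have e1 : (t.factorial : PY K A) * ps K J f = ps K J ((t.factorial : K) • f) := by
        rw [map_smul, Nat.cast_smul_eq_nsmul, nsmul_eq_mul]
      rw [e1, hf, map_sum, hpsY, Finset.mul_sum, Finset.mul_sum]
      refine Finset.sum_congr rfl fun α hα => ?_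
      rw [map_smul, ← hcoef α hα, Nat.cast_smul_eq_nsmul, nsmul_eq_mul]
    exact mul_left_cancel₀ ht0' hmain
  · intro b
    induction b generalizing Λ with
    | zero =>
      intro f hf hc
      have hJ : ∀ i ∈ Λ, i ∈ J := fun i hi => by
        by_contra h
        have : 0 < (Λ \ J).card := Finset.card_pos.2 ⟨i, Finset.mem_sdiff.2 ⟨hi, h⟩⟩
        omega
      have hle : IB K w (0 + 1) Λ ≤ RingHom.ker (ps K J : PX K A 3 →+* PY K A) := by
        rw [IB]
        refine iSup₂_le fun i hi => iSup₂_le fun j hj => Ideal.mul_le.2 fun r hr s _ => ?_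
        obtain ⟨c, rfl⟩ := Ideal.mem_span_singleton'.1 hr
        rw [RingHom.mem_ker]
        show ps K J (c * br K i j w * s) = 0
        rw [map_mul, map_mul, ps_br_both hw (hJ i hi) (hJ j (Finset.mem_of_mem_erase hj)),
          mul_zero, zero_mul]
      exact RingHom.mem_ker.1 (hle hf)
    | succ b ih =>
      intro f hf hc
      have hle : IB K w (b + 1 + 1) Λ ≤ RingHom.ker (ps K J : PX K A 3 →+* PY K A) := by
        rw [IB]
        refine iSup₂_le fun i hi => iSup₂_le fun j hj => Ideal.mul_le.2 fun r hr s hs => ?_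
        obtain ⟨c, rfl⟩ := Ideal.mem_span_singleton'.1 hr
        rw [RingHom.mem_ker]
        show ps K J (c * br K i j w * s) = 0
        by_cases hiJ : i ∈ J ∧ j ∈ J
        · rw [map_mul, map_mul, ps_br_both hw hiJ.1 hiJ.2, mul_zero, zero_mul]
        · have hcard : (((Λ.erase i).erase j) \ J).card ≤ b := by
            rw [erase_sdiff]
            have hj' := Finset.mem_of_mem_erase hj
            have hji := Finset.ne_of_mem_erase hj
            by_cases h1 : i ∈ J
            · have h2 : j ∉ J := fun h => hiJ ⟨h1, h⟩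
              have h3 : j ∈ (Λ \ J).erase i :=
                Finset.mem_erase.2 ⟨hji, Finset.mem_sdiff.2 ⟨hj', h2⟩⟩
              have h4 := Finset.card_erase_add_one h3
              have h5 := Finset.card_le_card (Finset.erase_subset i (Λ \ J))
              omega
            · have h3 : i ∈ Λ \ J := Finset.mem_sdiff.2 ⟨hi, h1⟩
              have h4 := Finset.card_erase_add_one h3
              have h5 := Finset.card_le_card (Finset.erase_subset j ((Λ \ J).erase i))
              omega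
          rw [map_mul, ih ((Λ.erase i).erase j) s hs hcard, mul_zero]
      exact RingHom.mem_ker.1 (hle hf)

end Pool.Agent.VOP
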