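import Pool.Agent.VOP.StmtsU

/-!
# UGOT: the inclusion maps (MP_deb8da_ag)
-/

set_option autoImplicit false

namespace Pool.Agent.VOP

namespace UGOT

variable {A : Type} [DecidableEq A] {M : Type} [AddCommGroup M]

/-- the map up -/
def U (F : Finset A → M) (I : Finset A) : M := ∑ i ∈ I, F (I.erase i)

/-- the map down -/
def D (X : Finset A) (F : Finset A → M) (I : Finset A) : M := ∑ i ∈ X \ I, F (insert i I)

lemma comm (X : Finset A) (F : Finset A → M) (I : Finset A) (hI : I ⊆ X) :
    D X (U F) I + (2 * I.card) • F I = U (D X F) I + X.card • F I := by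
  have h1 : D X (U F) I = (X \ I).card • F I + ∑ i ∈ X \ I, ∑ j ∈ I, F (insert i (I.erase j)) := by
    unfold D U
    rw [← Finset.sum_const, ← Finset.sum_add_distrib]
    apply Finset.sum_congr rfl
    intro i hi
    have hi' : i ∉ I := (Finset.mem_sdiff.1 hi).2
    rw [Finset.sum_insert hi', Finset.erase_insert hi']
    congr 1
    apply Finset.sum_congr rfl
    intro j hj
    rw [Finset.erase_insert_of_ne]
    rintro rfl
    exact hi' hj
  have h2 : U (D X F) I = I.card • F I + ∑ i ∈ X \ I, ∑ j ∈ I, F (insert i (I.erase j)) := by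
    unfold D U
    rw [Finset.sum_comm, ← Finset.sum_const, ← Finset.sum_add_distrib]
    apply Finset.sum_congr rfl
    intro j hj
    have e : X \ (I.erase j) = insert j (X \ I) := by
      ext x
      simp only [Finset.mem_sdiff, Finset.mem_erase, Finset.mem_insert, not_and]
      constructor
      · rintro ⟨hx, hx2⟩
        by_cases h : x = j
        · exact Or.inl h
        · exact Or.inr ⟨hx, hx2 h⟩
      · rintro (rfl | ⟨hx, hx2⟩)
        · exact ⟨hI hj, fun h => (h rfl).elim⟩
        · exact ⟨hx, fun _ => hx2⟩
    show ∑ i ∈ X \ I.erase j, F (insert i (I.erase j)) = _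
    rw [e, Finset.sum_insert (by simp [hj]), Finset.insert_erase hj]
  rw [h1, h2]
  have h3 : (X \ I).card + I.card = X.card := Finset.card_sdiff_add_card_eq_card hI
  rw [← h3, two_mul, add_nsmul, add_nsmul]
  abel

variable {K : Type} [Field K] [CharZero K] [Module K M]

lemma solve (X : Finset A) (N : Submodule K M) : ∀ b : ℕ, 2 * b ≤ X.card + 2 → ∀ n : ℕ, 0 < n →
    ∀ F : Finset A → M, (∀ I, F I ∈ N) → ∃ G : Finset A → M, (∀ I, G I ∈ N) ∧
      ∀ I, I ⊆ X → I.card = b → U (D X G) I + n • G I = F I := by
  intro b
  induction b with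
  | zero =>
    intro _ n hn F hF
    refine ⟨fun I => (n : K)⁻¹ • F I, fun I => N.smul_mem _ (hF I), ?_⟩
    intro I _ hc
    rw [Finset.card_eq_zero] at hc
    subst hc
    have hn' : (n : K) ≠ 0 := Nat.cast_ne_zero.2 hn.ne'
    have e : U (D X fun I => (n : K)⁻¹ • F I) ∅ = 0 := by unfold U; simp
    rw [e, zero_add, ← Nat.cast_smul_eq_nsmul K, smul_smul, mul_inv_cancel₀ hn', one_smul]
  | succ b ih =>
    intro hb n hn F hF
    have hn' : (n : K) ≠ 0 := Nat.cast_ne_zero.2 hn.ne'
    have hDF : ∀ I, D X F I ∈ N := fun I => N.sum_mem (fun i _ => hF _)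
    obtain ⟨H, hH, hH2⟩ := ih (by omega) (n + (X.card - 2 * b)) (by omega) (D X F) hDF
    have hUH : ∀ I, U H I ∈ N := fun I => N.sum_mem (fun i _ => hH _)
    refine ⟨fun I => (n : K)⁻¹ • (F I - U H I), fun I => N.smul_mem _ (N.sub_mem (hF I) (hUH I)), ?_⟩
    intro I hI hc
    -- the equation one level below
    have low : ∀ J, J ⊆ X → J.card = b → D X (U H) J + n • H J = D X F J := by
      intro J hJ hJc
      have h1 := comm X H J hJ
      have h2 := hH2 J hJ hJc
      rw [hJc] at h1
      have h3 : X.card • H J = (2 * b) • H J + (X.card - 2 * b) • H J := by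
        rw [← add_nsmul]
        congr 1
        omega
      rw [h3] at h1
      rw [add_nsmul] at h2
      have h4 : D X (U H) J = U (D X H) J + (X.card - 2 * b) • H J := by
        have : D X (U H) J + (2 * b) • H J
            = (U (D X H) J + (X.card - 2 * b) • H J) + (2 * b) • H J := by
          rw [h1]; abel
        exact add_right_cancel this
      rw [h4, ← h2]
      abel
    have e1 : U (D X fun I => (n : K)⁻¹ • (F I - U H I)) I
        = (n : K)⁻¹ • (U (D X F) I - U (D X (U H)) I) := by
      unfold U D
      simp only [Finset.smul_sum, smul_sub, Finset.sum_sub_distrib]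
    have e2 : U (D X F) I = U (D X (U H)) I + n • U H I := by
      have : ∀ i ∈ I, D X F (I.erase i) = D X (U H) (I.erase i) + n • H (I.erase i) := by
        intro i hi
        rw [low (I.erase i) ((Finset.erase_subset _ _).trans hI)
          (by rw [Finset.card_erase_of_mem hi, hc]; rfl)]
      show ∑ i ∈ I, D X F (I.erase i) = ∑ i ∈ I, D X (U H) (I.erase i) + n • ∑ i ∈ I, H (I.erase i)
      rw [Finset.sum_congr rfl this, Finset.sum_add_distrib, Finset.smul_sum]
    rw [e1, e2, ← Nat.cast_smul_eq_nsmul K, ← Nat.cast_smul_eq_nsmul K, smul_smul,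
      mul_inv_cancel₀ hn', one_smul, add_sub_cancel_left, smul_smul, inv_mul_cancel₀ hn', one_smul]
    abel

include K in
variable (K) in
lemma inj (X : Finset A) : ∀ d b : ℕ, b + d = X.card → X.card ≤ 2 * b + 2 → ∀ n : ℕ, 0 < n →
    ∀ p : Finset A → M, (∀ I, I ⊆ X → I.card = b → D X (U p) I + n • p I = 0) →
      ∀ I, I ⊆ X → I.card = b → p I = 0 := by
  intro d
  induction d with
  | zero =>
    intro b hb _ n hn p hp I hI hc
    have hIX : I = X := Finset.eq_of_subset_of_card_le hI (by omega)
    have := hp I hI hc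
    have e : D X (U p) I = 0 := by unfold D; rw [hIX]; simp
    rw [e, zero_add, ← Nat.cast_smul_eq_nsmul K] at this
    exact (smul_eq_zero.1 this).resolve_left (Nat.cast_ne_zero.2 hn.ne')
  | succ d ih =>
    intro b hb hX n hn p hp I hI hc
    have key : ∀ J, J ⊆ X → J.card = b + 1 → U p J = 0 := by
      apply ih (b + 1) (by omega) (by omega) (n + (2 * (b + 1) - X.card)) (by omega) (U p)
      intro J hJ hJc
      have h1 := comm X (U p) J hJ
      have h2 : U (D X (U p)) J + n • U p J = 0 := by
        have : U (D X (U p)) J + n • U p J = ∑ i ∈ J, (D X (U p) (J.erase i) + n • p (J.erase i)) := by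
          rw [Finset.sum_add_distrib, ← Finset.smul_sum]
          rfl
        rw [this]
        apply Finset.sum_eq_zero
        intro i hi
        exact hp (J.erase i) ((Finset.erase_subset _ _).trans hJ)
          (by rw [Finset.card_erase_of_mem hi, hJc]; rfl)
      rw [hJc] at h1
      have h3 : (2 * (b + 1)) • U p J = (2 * (b + 1) - X.card) • U p J + X.card • U p J := by
        rw [← add_nsmul]
        congr 1
        omega
      rw [h3, ← add_assoc] at h1
      have h4 := add_right_cancel h1
      rw [add_nsmul, ← h2, ← h4]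
      abel
    have h5 := hp I hI hc
    have h6 : D X (U p) I = 0 := by
      apply Finset.sum_eq_zero
      intro i hi
      obtain ⟨hiX, hiI⟩ := Finset.mem_sdiff.1 hi
      exact key (insert i I) (Finset.insert_subset hiX hI) (by rw [Finset.card_insert_of_notMem hiI, hc])
    rw [h6, zero_add, ← Nat.cast_smul_eq_nsmul K] at h5
    exact (smul_eq_zero.1 h5).resolve_left (Nat.cast_ne_zero.2 hn.ne')

end UGOT

open UGOT in
theorem UGOT_thm : Stmt_UGOT := by
  intro K _ _ A _ M _ _ X b
  constructor
  · intro N hX F hF
    obtain ⟨G, hG, hG2⟩ := solve (K := K) X N b (by omega) (X.card - 2 * b) (by omega) F hF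
    refine ⟨U G, fun I => N.sum_mem (fun i _ => hG _), ?_⟩
    intro I hI hc
    have h1 := comm X G I hI
    have h2 := hG2 I hI hc
    rw [hc] at h1
    have h3 : X.card • G I = (X.card - 2 * b) • G I + (2 * b) • G I := by
      rw [← add_nsmul]
      congr 1
      omega
    rw [h3, ← add_assoc] at h1
    have h4 := add_right_cancel h1
    rw [h2] at h4
    exact h4
  · intro hX p hp I
    by_cases hI : I ⊆ X ∧ I.card = b
    swap
    · by_contra hcon
      exact hI (hp.supp I hcon)
    obtain ⟨hI, hc⟩ := hI
    have hle : b ≤ X.card := by rw [← hc]; exact Finset.card_le_card hI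
    refine inj K X (X.card - b) b (by omega) (by omega) (2 * b - X.card) (by omega) p ?_ I hI hc
    intro J hJ hJc
    have h1 := comm X p J hJ
    have h2 : U (D X p) J = 0 := by
      apply Finset.sum_eq_zero
      intro i hi
      apply hp.sum (J.erase i) ((Finset.erase_subset _ _).trans hJ)
      rw [Finset.card_erase_of_mem hi, hJc]
      omega
    rw [h2, hJc] at h1
    have h3 : (2 * b) • p J = (2 * b - X.card) • p J + X.card • p J := by
      rw [← add_nsmul]
      congr 1
      omega
    rw [h3, ← add_assoc] at h1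
    exact add_right_cancel h1

end Pool.Agent.VOP
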