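import Pool.Agent.VOP.StmtsW
import Pool.Agent.VOP.SBT
import Pool.Agent.VOP.DG
import Pool.Agent.VSY.WB

/-!
# UPL: highest weight vectors and lines
-/

set_option autoImplicit false

namespace Pool.Agent.VOP

open MvPolynomial Pool.Agent.VSY

namespace UPL

variable {K : Type} [Field K] {A : Type} [Fintype A] [DecidableEq A]

/-- The substitution in the third coordinates. -/
def gy (y : Fin 3 → K) : Fin 3 → Fin 3 → K :=
  fun i => if i = 2 then fun j => y j / y 2 else Pi.single i 1

/-- The one parameter family of substitutions. -/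
noncomputable def Phi (a b : K) : PX K A 3 →ₐ[K] Polynomial (PX K A 3) :=
  aeval fun z : A × Fin 3 => if z.2 = 2 then
    Polynomial.C (X z) + Polynomial.X * Polynomial.C (C a * X (z.1, 0) + C b * X (z.1, 1))
    else Polynomial.C (X z)

omit [DecidableEq A] in
theorem Eij_mul (i j : Fin 3) (f g : PX K A 3) :
    Eij i j (f * g) = Eij i j f * g + f * Eij i j g := by
  rw [WB.Eij_apply, WB.Eij_apply, WB.Eij_apply, Finset.sum_mul, Finset.mul_sum,
    ← Finset.sum_add_distrib]
  refine Finset.sum_congr rfl fun x _ => ?_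
  rw [Derivation.leibniz, smul_eq_mul, smul_eq_mul]
  ring

omit [DecidableEq A] in
theorem Eij_C (i j : Fin 3) (c : K) : Eij i j (C c : PX K A 3) = 0 := by
  rw [WB.Eij_apply]
  refine Finset.sum_eq_zero fun x _ => ?_
  rw [pderiv_C, mul_zero]

theorem deriv_Phi (a b : K) (q : PX K A 3) :
    Polynomial.derivative (Phi a b q) = Phi a b (C a * Eij 0 2 q + C b * Eij 1 2 q) := by
  induction q using MvPolynomial.induction_on with
  | C c =>
    rw [Eij_C, Eij_C, mul_zero, mul_zero, add_zero, map_zero]
    have h : Phi a b (C c : PX K A 3) = Polynomial.C (C c) := by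
      rw [Phi, aeval_C]
      rfl
    rw [h, Polynomial.derivative_C]
  | add p q hp hq =>
    rw [map_add, map_add, hp, hq, ← map_add, map_add (Eij 0 2), map_add (Eij 1 2)]
    congr 1
    ring
  | mul_X p n hp =>
    rw [map_mul, Polynomial.derivative_mul, hp, Eij_mul, Eij_mul]
    have h : Polynomial.derivative (Phi a b (X n : PX K A 3)) =
        Phi a b (C a * Eij 0 2 (X n) + C b * Eij 1 2 (X n)) := by
      obtain ⟨x, l⟩ := n
      rw [WB.Eij_X, WB.Eij_X]
      by_cases hl : (2 : Fin 3) = l
      · subst hl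
        rw [if_pos rfl, if_pos rfl]
        have h0 : ∀ c : K, Phi a b (C c : PX K A 3) = Polynomial.C (C c) := by
          intro c
          rw [Phi, aeval_C]
          rfl
        have h1 : Phi a b (X (x, 0) : PX K A 3) = Polynomial.C (X (x, 0)) := by
          rw [Phi, aeval_X]
          exact if_neg (show ¬ ((0 : Fin 3) = 2) by decide)
        have h2 : Phi a b (X (x, 1) : PX K A 3) = Polynomial.C (X (x, 1)) := by
          rw [Phi, aeval_X]
          exact if_neg (show ¬ ((1 : Fin 3) = 2) by decide)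
        have h3 : Phi a b (X (x, 2) : PX K A 3) = Polynomial.C (X (x, 2)) + Polynomial.X *
            Polynomial.C (C a * X (x, 0) + C b * X (x, 1)) := by
          rw [Phi, aeval_X, if_pos rfl]
        rw [h3, map_add (Phi a b), map_mul (Phi a b), map_mul (Phi a b), h0, h0, h1, h2]
        simp only [Polynomial.derivative_C, Polynomial.derivative_mul,
          Polynomial.derivative_X, map_add, map_mul]
        ring
      · rw [if_neg hl, if_neg hl, mul_zero, mul_zero, add_zero, map_zero, Phi, aeval_X,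
          if_neg (fun e => hl e.symm), Polynomial.derivative_C]
    rw [h, ← map_mul, ← map_mul, ← map_add]
    congr 1
    ring

theorem sb_gy [CharZero K] (y : Fin 3 → K) (hy : y 2 ≠ 0) (f : PX K A 3) (hf : Hw f) :
    sb (gy y) f = f := by
  set a := y 0 / y 2 with ha
  set b := y 1 / y 2 with hb
  have h1 : Polynomial.derivative (Phi a b f) = 0 := by
    rw [deriv_Phi, hf 0 2 (by decide), hf 1 2 (by decide), mul_zero, mul_zero, add_zero, map_zero]
  have h2 : (Phi a b f).natDegree = 0 := Polynomial.derivative_eq_zero.1 h1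
  have h3 := Polynomial.eq_C_of_natDegree_eq_zero h2
  have h4 : ∀ t : PX K A 3, ((Polynomial.aeval t : Polynomial (PX K A 3) →ₐ[PX K A 3]
      PX K A 3).restrictScalars K) (Phi a b f) = (Phi a b f).coeff 0 := by
    intro t
    conv_lhs => rw [h3]
    simp
  have h5 : ((Polynomial.aeval (0 : PX K A 3) : Polynomial (PX K A 3) →ₐ[PX K A 3]
      PX K A 3).restrictScalars K).comp (Phi a b) = AlgHom.id K _ := by
    apply MvPolynomial.algHom_ext
    rintro ⟨p, i⟩
    rw [AlgHom.comp_apply, Phi, aeval_X]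
    split_ifs <;> simp
  have h6 : ((Polynomial.aeval (1 : PX K A 3) : Polynomial (PX K A 3) →ₐ[PX K A 3]
      PX K A 3).restrictScalars K).comp (Phi a b) = sb (gy y) := by
    apply MvPolynomial.algHom_ext
    rintro ⟨p, i⟩
    rw [AlgHom.comp_apply, Phi, aeval_X, SBT.sb_X, gy]
    by_cases hi : i = 2
    · subst hi
      rw [if_pos rfl, if_pos rfl, lin, Fin.sum_univ_three, div_self hy, ← ha, ← hb]
      simp
      ring
    · rw [if_neg hi, if_neg hi, lin, Finset.sum_eq_single i]
      · simp
      · intro j _ hj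
        rw [Pi.single_eq_of_ne hj, C_0, zero_mul]
      · simp
  have h7 := AlgHom.congr_fun h5 f
  have h8 := AlgHom.congr_fun h6 f
  rw [AlgHom.comp_apply, h4] at h7 h8
  rw [← h8, h7, AlgHom.id_apply]

end UPL

open UPL in
theorem UPL_thm : Stmt_UPL := by
  intro K _ _ A _ _ δ Λ w u₀ f Y hf hY hδ hd y hy
  refine ⟨sb (gy y) Y, ?_, SBT.Dg_sb DG_thm δ (gy y) Y hδ, ?_⟩
  · intro x hx x' hx' hne
    rw [SBT.ren_sb, hY x hx x' hx' hne, map_neg]
  · have h1 : ren (mv u₀ w) (sb (gy y) Y) - f = sb (gy y) (ren (mv u₀ w) Y - f) := by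
      rw [map_sub, SBT.ren_sb, sb_gy y hy f hf]
    obtain ⟨q, hq⟩ := hd
    rw [h1, hq, map_mul, SBT.sb_X]
    refine Dvd.dvd.mul_right ⟨C (y 2)⁻¹, ?_⟩ _
    rw [gy, if_pos rfl, lin, lin, Finset.sum_mul]
    refine Finset.sum_congr rfl fun j _ => ?_
    rw [div_eq_mul_inv, map_mul]
    ring

end Pool.Agent.VOP
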