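import Pool.Agent.VOP.StmtsU

/-!
# MP_deb8da_ag, module URP: every element of `I_b` has a symbol, modulo `I_(b+1)`
-/

namespace Pool.Agent.VOP

open MvPolynomial Pool.Agent.VSY

namespace URP

variable {K : Type} [Field K] {A : Type}

/-! ### the exchange identity -/

theorem exch (s s' w : A) (a b : Fin 3) : ∃ c : PX K A 3,
    cr K s w a * cr K s' w b - cr K s w b * cr K s' w a = c * br K s s' w := by
  unfold br cr
  fin_cases a <;> fin_cases b
  · exact ⟨0, by simp⟩
  · refine ⟨X (w, 2), ?_⟩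
    simp [Fin.sum_univ_three]
    ring
  · refine ⟨-X (w, 1), ?_⟩
    simp [Fin.sum_univ_three]
    ring
  · refine ⟨-X (w, 2), ?_⟩
    simp [Fin.sum_univ_three]
    ring
  · exact ⟨0, by simp⟩
  · refine ⟨X (w, 0), ?_⟩
    simp [Fin.sum_univ_three]
    ring
  · refine ⟨X (w, 1), ?_⟩
    simp [Fin.sum_univ_three]
    ring
  · refine ⟨-X (w, 0), ?_⟩
    simp [Fin.sum_univ_three]
    ring
  · exact ⟨0, by simp⟩

variable [DecidableEq A]

theorem prod_mem (w : A) (Λ : Finset A) (ι : A → Fin 3) :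
    ∏ s ∈ Λ, cr K s w (ι s) ∈ IB K w 0 Λ := by
  unfold IB
  refine Ideal.prod_mem_prod fun s _ => Ideal.subset_span ⟨ι s, rfl⟩

theorem pair_mem (w : A) (b : ℕ) (Λ : Finset A) (i j : A) (hi : i ∈ Λ) (hj : j ∈ Λ) (hij : i ≠ j)
    (c f : PX K A 3) (hf : f ∈ IB K w b ((Λ.erase i).erase j)) :
    c * br K i j w * f ∈ IB K w (b + 1) Λ := by
  rw [IB]
  refine Submodule.mem_iSup_of_mem i (Submodule.mem_iSup_of_mem hi
    (Submodule.mem_iSup_of_mem j (Submodule.mem_iSup_of_mem (Finset.mem_erase.2 ⟨hij.symm, hj⟩) ?_)))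
  refine Ideal.mul_mem_mul ?_ hf
  exact Ideal.mul_mem_left _ _ (Ideal.mem_span_singleton_self _)

theorem le_of_pairs (w : A) (b : ℕ) (Λ : Finset A) (G : Ideal (PX K A 3))
    (h : ∀ i ∈ Λ, ∀ j ∈ Λ, i ≠ j → ∀ f ∈ IB K w b ((Λ.erase i).erase j), br K i j w * f ∈ G) :
    IB K w (b + 1) Λ ≤ G := by
  rw [IB]
  refine iSup_le fun i => iSup_le fun hi => iSup_le fun j => iSup_le fun hj => ?_
  rw [Finset.mem_erase] at hj
  refine Ideal.mul_le.2 ?_
  intro r hr s hs
  obtain ⟨c, rfl⟩ := Ideal.mem_span_singleton'.1 hr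
  rw [mul_assoc]
  exact G.mul_mem_left c (h i hi j hj.2 (Ne.symm hj.1) s hs)

/-- multiplication by a coordinate of `q_s` -/
theorem cr_mul0 (w : A) (Λ : Finset A) (s : A) (hs : s ∈ Λ) (a : Fin 3) (f : PX K A 3)
    (hf : f ∈ IB K w 0 (Λ.erase s)) : cr K s w a * f ∈ IB K w 0 Λ := by
  unfold IB at hf ⊢
  rw [← Finset.mul_prod_erase Λ _ hs]
  exact Ideal.mul_mem_mul (Ideal.subset_span ⟨a, rfl⟩) hf

theorem cr_mul1 (w : A) (Λ : Finset A) (s : A) (hs : s ∈ Λ) (a : Fin 3) (f : PX K A 3)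
    (hf : f ∈ IB K w 1 (Λ.erase s)) : cr K s w a * f ∈ IB K w 1 Λ := by
  have h : IB K w 1 (Λ.erase s) ≤
      Submodule.comap (LinearMap.mulLeft (PX K A 3) (cr K s w a)) (IB K w 1 Λ) := by
    have := le_of_pairs w 0 (Λ.erase s) (K := K)
      (Submodule.comap (LinearMap.mulLeft (PX K A 3) (cr K s w a)) (IB K w 1 Λ)) ?_
    · exact this
    · intro i hi j hj hij g hg
      rw [Submodule.mem_comap, LinearMap.mulLeft_apply]
      rw [Finset.mem_erase] at hi hj
      have h2 : cr K s w a * g ∈ IB K w 0 ((Λ.erase i).erase j) := by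
        refine cr_mul0 w _ s ?_ a g ?_
        · rw [Finset.mem_erase, Finset.mem_erase]
          exact ⟨Ne.symm hj.1, Ne.symm hi.1, hs⟩
        · have e : ((Λ.erase i).erase j).erase s = ((Λ.erase s).erase i).erase j := by
            ext x
            simp only [Finset.mem_erase]
            tauto
          rw [e]
          exact hg
      have h3 := pair_mem w 0 Λ i j hi.2 hj.2 hij 1 _ h2
      have h4 : cr K s w a * (br K i j w * g) = 1 * br K i j w * (cr K s w a * g) := by ring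
      rw [h4]
      exact h3
  exact h hf

/-- (X) for one transposition -/
theorem swap_mem (w : A) (Λ : Finset A) (ι : A → Fin 3) (s s' : A) (hs : s ∈ Λ) (hs' : s' ∈ Λ) :
    ∏ r ∈ Λ, cr K r w (ι (Equiv.swap s s' r)) - ∏ r ∈ Λ, cr K r w (ι r) ∈ IB K w 1 Λ := by
  by_cases hss : s = s'
  · subst hss
    simp
  · have hs2 : s' ∈ Λ.erase s := Finset.mem_erase.2 ⟨Ne.symm hss, hs'⟩
    have e1 : ∏ r ∈ Λ, cr K r w (ι r) =
        cr K s w (ι s) * (cr K s' w (ι s') * ∏ r ∈ (Λ.erase s).erase s', cr K r w (ι r)) := by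
      rw [← Finset.mul_prod_erase Λ _ hs, ← Finset.mul_prod_erase (Λ.erase s) _ hs2]
    have e2 : ∏ r ∈ Λ, cr K r w (ι (Equiv.swap s s' r)) =
        cr K s w (ι s') * (cr K s' w (ι s) * ∏ r ∈ (Λ.erase s).erase s', cr K r w (ι r)) := by
      rw [← Finset.mul_prod_erase Λ _ hs, ← Finset.mul_prod_erase (Λ.erase s) _ hs2,
        Equiv.swap_apply_left, Equiv.swap_apply_right]
      congr 2
      refine Finset.prod_congr rfl fun r hr => ?_
      rw [Finset.mem_erase, Finset.mem_erase] at hr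
      rw [Equiv.swap_apply_of_ne_of_ne hr.2.1 hr.1]
    obtain ⟨c, hc⟩ := exch (K := K) s s' w (ι s') (ι s)
    have e3 : ∏ r ∈ Λ, cr K r w (ι (Equiv.swap s s' r)) - ∏ r ∈ Λ, cr K r w (ι r) =
        c * br K s s' w * ∏ r ∈ (Λ.erase s).erase s', cr K r w (ι r) := by
      rw [e1, e2, ← hc]
      ring
    rw [e3]
    exact pair_mem w 0 Λ s s' hs hs' hss c _ (prod_mem w _ ι)

/-! ### the coefficients of the product of the `el` -/

omit [DecidableEq A] in
theorem pderiv_el (w s : A) (a : Fin 3) :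
    pderiv a (el K w s) = C (cr K s w a) := by
  unfold el
  rw [map_sum, Finset.sum_eq_single a]
  · rw [pderiv_C_mul, pderiv_X_self, mul_one]
  · intro b _ hb
    rw [pderiv_C_mul, pderiv_X_of_ne hb, mul_zero]
  · intro h
    exact absurd (Finset.mem_univ a) h

theorem pderiv_prod (w : A) (a : Fin 3) (Λ : Finset A) :
    pderiv a (∏ s ∈ Λ, el K w s) =
      ∑ s ∈ Λ, C (cr K s w a) * ∏ r ∈ Λ.erase s, el K w r := by
  induction Λ using Finset.induction_on with
  | empty => simp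
  | insert x Λ hx ih =>
    rw [Finset.prod_insert hx, pderiv_mul, ih, pderiv_el, Finset.sum_insert hx,
      Finset.erase_insert hx, Finset.mul_sum]
    congr 1
    refine Finset.sum_congr rfl fun s hs => ?_
    have hsx : s ≠ x := fun h => hx (h ▸ hs)
    have hx2 : x ∉ Λ.erase s := fun h => hx (Finset.mem_of_mem_erase h)
    rw [Finset.erase_insert_of_ne (Ne.symm hsx), Finset.prod_insert hx2]
    ring

/-- the exponent of `∏ X (ι s)` -/
noncomputable def ty (Λ : Finset A) (ι : A → Fin 3) : Fin 3 →₀ ℕ :=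
  ∑ s ∈ Λ, Finsupp.single (ι s) 1

theorem ty_erase (Λ : Finset A) (ι : A → Fin 3) (s : A) (hs : s ∈ Λ) :
    ty Λ ι = ty (Λ.erase s) ι + Finsupp.single (ι s) 1 := by
  unfold ty
  rw [← Finset.add_sum_erase Λ _ hs, add_comm]

theorem ty_swap (Λ : Finset A) (ι : A → Fin 3) (s s' : A) (hs : s ∈ Λ) (hs' : s' ∈ Λ) :
    ty Λ (fun r => ι (Equiv.swap s s' r)) = ty Λ ι := by
  unfold ty
  refine Finset.sum_bij' (fun r _ => Equiv.swap s s' r) (fun r _ => Equiv.swap s s' r) ?_ ?_ ?_ ?_ ?_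
  · intro r hr
    rw [Equiv.swap_apply_def]
    split_ifs
    · exact hs'
    · exact hs
    · exact hr
  · intro r hr
    rw [Equiv.swap_apply_def]
    split_ifs
    · exact hs'
    · exact hs
    · exact hr
  · intro r _
    simp
  · intro r _
    simp
  · intro r _
    rfl

/-- (Y) -/
theorem coeff_mem (w : A) : ∀ (n : ℕ) (Λ : Finset A), Λ.card = n → ∀ (ι : A → Fin 3),
    ((∏ i, ((ty Λ ι) i).factorial : ℕ) : PX K A 3) * coeff (ty Λ ι) (∏ s ∈ Λ, el K w s) -
      (n.factorial : PX K A 3) * ∏ s ∈ Λ, cr K s w (ι s) ∈ IB K w 1 Λ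
  | 0, Λ, hΛ, ι => by
    rw [Finset.card_eq_zero] at hΛ
    subst hΛ
    simp [ty]
  | n + 1, Λ, hΛ, ι => by
    obtain ⟨s₀, hs₀⟩ : Λ.Nonempty := Finset.card_pos.1 (by omega)
    have ih := coeff_mem w n
    set a := ι s₀ with ha
    have hty : ∀ s ∈ Λ, ty Λ ι = ty (Λ.erase s) (fun r => ι (Equiv.swap s s₀ r)) +
        Finsupp.single a 1 := by
      intro s hs
      rw [← ty_swap Λ ι s s₀ hs hs₀, ty_erase Λ _ s hs, Equiv.swap_apply_left]
    obtain ⟨β, hβ⟩ : ∃ β, ty Λ ι = β + Finsupp.single a 1 := ⟨_, hty s₀ hs₀⟩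
    have hβs : ∀ s ∈ Λ, ty (Λ.erase s) (fun r => ι (Equiv.swap s s₀ r)) = β := by
      intro s hs
      have := hty s hs
      rw [hβ] at this
      exact (add_right_cancel this).symm
    have hfac : ((∏ i, ((ty Λ ι) i).factorial : ℕ) : PX K A 3) =
        ((∏ i, (β i).factorial : ℕ) : PX K A 3) * ((β a : PX K A 3) + 1) := by
      rw [hβ]
      have e1 : ∏ i, ((β + Finsupp.single a 1 : Fin 3 →₀ ℕ) i).factorial =
          (∏ i, (β i).factorial) * (β a + 1) := by
        rw [← Finset.mul_prod_erase Finset.univ _ (Finset.mem_univ a),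
          ← Finset.mul_prod_erase Finset.univ (fun i => (β i).factorial) (Finset.mem_univ a)]
        have e2 : ∏ i ∈ Finset.univ.erase a, ((β + Finsupp.single a 1 : Fin 3 →₀ ℕ) i).factorial =
            ∏ i ∈ Finset.univ.erase a, (β i).factorial := by
          refine Finset.prod_congr rfl fun i hi => ?_
          have : i ≠ a := (Finset.mem_erase.1 hi).1
          rw [Finsupp.add_apply, Finsupp.single_eq_of_ne this, add_zero]
        rw [e2, Finsupp.add_apply, Finsupp.single_eq_same, Nat.factorial_succ]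
        ring
      rw [e1]
      push_cast
      ring
    have hco : coeff (ty Λ ι) (∏ s ∈ Λ, el K w s) * ((β a : PX K A 3) + 1) =
        ∑ s ∈ Λ, cr K s w a * coeff β (∏ r ∈ Λ.erase s, el K w r) := by
      have h1 := coeff_pderiv (i := a) (∏ s ∈ Λ, el K w s) β
      rw [pderiv_prod, coeff_sum, ← hβ] at h1
      rw [← h1]
      exact Finset.sum_congr rfl fun s _ => coeff_C_mul _ _ _
    have hmain : ((∏ i, ((ty Λ ι) i).factorial : ℕ) : PX K A 3) *
          coeff (ty Λ ι) (∏ s ∈ Λ, el K w s) -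
        ((n + 1).factorial : PX K A 3) * ∏ s ∈ Λ, cr K s w (ι s) =
        ∑ s ∈ Λ, (cr K s w a * (((∏ i, (β i).factorial : ℕ) : PX K A 3) *
            coeff β (∏ r ∈ Λ.erase s, el K w r) -
          (n.factorial : PX K A 3) *
            ∏ r ∈ Λ.erase s, cr K r w (ι (Equiv.swap s s₀ r))) +
          (n.factorial : PX K A 3) * (∏ r ∈ Λ, cr K r w (ι (Equiv.swap s s₀ r)) -
            ∏ r ∈ Λ, cr K r w (ι r))) := by
      have e1 : ∀ s ∈ Λ, cr K s w a * ∏ r ∈ Λ.erase s, cr K r w (ι (Equiv.swap s s₀ r)) =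
          ∏ r ∈ Λ, cr K r w (ι (Equiv.swap s s₀ r)) := by
        intro s hs
        rw [← Finset.mul_prod_erase Λ _ hs, Equiv.swap_apply_left]
      have e2 : ∀ s ∈ Λ, (cr K s w a * (((∏ i, (β i).factorial : ℕ) : PX K A 3) *
            coeff β (∏ r ∈ Λ.erase s, el K w r) -
          (n.factorial : PX K A 3) *
            ∏ r ∈ Λ.erase s, cr K r w (ι (Equiv.swap s s₀ r))) +
          (n.factorial : PX K A 3) * (∏ r ∈ Λ, cr K r w (ι (Equiv.swap s s₀ r)) -
            ∏ r ∈ Λ, cr K r w (ι r))) =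
          ((∏ i, (β i).factorial : ℕ) : PX K A 3) *
            (cr K s w a * coeff β (∏ r ∈ Λ.erase s, el K w r)) -
          (n.factorial : PX K A 3) * ∏ r ∈ Λ, cr K r w (ι r) := by
        intro s hs
        rw [← e1 s hs]
        ring
      rw [Finset.sum_congr rfl e2, Finset.sum_sub_distrib, ← Finset.mul_sum, ← hco,
        Finset.sum_const, hΛ, hfac, Nat.factorial_succ, nsmul_eq_mul]
      push_cast
      ring
    rw [hmain]
    refine Ideal.sum_mem _ fun s hs => Ideal.add_mem _ ?_ (Ideal.mul_mem_left _ _ ?_)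
    · refine cr_mul1 w Λ s hs a _ ?_
      have h1 := ih (Λ.erase s) (by rw [Finset.card_erase_of_mem hs, hΛ]; rfl)
        (fun r => ι (Equiv.swap s s₀ r))
      rw [hβs s hs] at h1
      exact h1
    · exact swap_mem w Λ ι s s₀ hs hs₀

/-! ### symbols -/

theorem spe_of_coeff {Λ : Finset A} {b : ℕ} {P : Finset A → PY K A}
    (h : ∀ α, Spe Λ b (fun I => coeff α (P I))) : Spe Λ b P where
  supp I hI := by
    obtain ⟨α, hα⟩ := MvPolynomial.ne_zero_iff.1 hI
    exact (h α).supp I hα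
  sum I hI hc := by
    refine MvPolynomial.ext _ _ fun α => ?_
    rw [coeff_sum, coeff_zero]
    exact (h α).sum I hI hc

/-- the basic properties of the pairs, for a fixed field -/
def Bas (K : Type) [Field K] {A : Type} [DecidableEq A] (w : A) : Prop :=
  (∀ (b : ℕ) (Λ : Finset A) (p : Finset A → PX K A 3) (g : PY K A) (c : PX K A 3),
      WP K w b Λ p g → WP K w b Λ (fun I => c * p I) (C c * g)) ∧
    (∀ (b : ℕ) (Λ : Finset A) (p : Finset A → PX K A 3) (g : PY K A),
      WP K w b Λ p g → Spe Λ b p) ∧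
    (∀ (b : ℕ) (Λ : Finset A), 2 * b ≤ Λ.card → WP K w b Λ (fun _ => 0) 0) ∧
    (∀ (b t : ℕ) (Λ : Finset A) (P P' : Finset A → PY K A) (f f' : PX K A 3),
      Th K w b t Λ P f → Th K w b t Λ P' f' → Th K w b t Λ (fun I => P I + P' I) (f + f')) ∧
    (∀ (b t : ℕ) (Λ : Finset A) (i j : A) (P : Finset A → PY K A) (f : PX K A 3), i ∈ Λ →
      j ∈ Λ → i ≠ j → Th K w b t ((Λ.erase i).erase j) P f →
      Th K w (b + 1) t Λ (um i j P) (br K i j w * f))

theorem th_spe {w : A} (hB : Bas K w) {b t : ℕ} {Λ : Finset A} {P : Finset A → PY K A}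
    {f : PX K A 3} (h : Th K w b t Λ P f) : Spe Λ b P := by
  obtain ⟨g, hg, -⟩ := h
  exact spe_of_coeff fun α => hB.2.1 b Λ _ _ (hg α)

theorem th_mul {w : A} (hB : Bas K w) {b t : ℕ} {Λ : Finset A} {P : Finset A → PY K A}
    {f : PX K A 3} (h : Th K w b t Λ P f) (c : PX K A 3) :
    Th K w b t Λ (fun I => C c * P I) (c * f) := by
  obtain ⟨g, hg, hf⟩ := h
  refine ⟨fun α => C c * g α, fun α => ?_, ?_⟩
  · have := hB.1 b Λ _ _ c (hg α)
    have e : (fun I => coeff α (C c * P I)) = fun I => c * coeff α (P I) := by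
      funext I
      rw [coeff_C_mul]
    rw [e]
    exact this
  · rw [← mul_smul_comm, hf, Finset.mul_sum]
    refine Finset.sum_congr rfl fun α _ => ?_
    rw [coeff_C_mul, mul_smul_comm]

/-- the elements with a symbol modulo `I_(b+1)` -/
def Good (w : A) (b t : ℕ) (Λ : Finset A) (f : PX K A 3) : Prop :=
  ∃ (P : Finset A → PY K A) (h : PX K A 3), (∀ I, (P I).IsHomogeneous t) ∧
    h ∈ IB K w (b + 1) Λ ∧ Th K w b t Λ P (f - h)

theorem good_add {w : A} (hB : Bas K w) {b t : ℕ} {Λ : Finset A} {f f' : PX K A 3}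
    (h : Good w b t Λ f) (h' : Good w b t Λ f') : Good w b t Λ (f + f') := by
  obtain ⟨P, g, h1, h2, h3⟩ := h
  obtain ⟨P', g', h1', h2', h3'⟩ := h'
  refine ⟨fun I => P I + P' I, g + g', fun I => (h1 I).add (h1' I), Ideal.add_mem _ h2 h2', ?_⟩
  have := hB.2.2.2.1 b t Λ P P' _ _ h3 h3'
  have e : f - g + (f' - g') = f + f' - (g + g') := by ring
  rwa [e] at this

theorem good_mul {w : A} (hB : Bas K w) {b t : ℕ} {Λ : Finset A} {f : PX K A 3}
    (h : Good w b t Λ f) (c : PX K A 3) : Good w b t Λ (c * f) := by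
  obtain ⟨P, g, h1, h2, h3⟩ := h
  refine ⟨fun I => C c * P I, c * g, fun I => ?_, Ideal.mul_mem_left _ _ h2, ?_⟩
  · have := (isHomogeneous_C (Fin 3) c).mul (h1 I)
    rwa [zero_add] at this
  · have := th_mul hB h3 c
    have e : c * (f - g) = c * f - c * g := by ring
    rwa [e] at this

theorem good_zero {w : A} (hB : Bas K w) {b t : ℕ} {Λ : Finset A} (hc : 2 * b ≤ Λ.card) :
    Good (K := K) w b t Λ 0 := by
  refine ⟨fun _ => 0, 0, fun _ => isHomogeneous_zero _ _ _, Ideal.zero_mem _,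
    fun _ => 0, fun α => ?_, ?_⟩
  · have := hB.2.2.1 b Λ hc
    have e : (fun _ : Finset A => coeff α (0 : PY K A)) = fun _ => 0 := by
      funext I
      rw [coeff_zero]
    rw [e]
    exact this
  · simp

/-- the ideal of the elements with a symbol modulo `I_(b+1)` -/
def GI {w : A} (hB : Bas K w) (b t : ℕ) (Λ : Finset A) (hc : 2 * b ≤ Λ.card) :
    Ideal (PX K A 3) where
  carrier := {f | Good w b t Λ f}
  add_mem' h h' := good_add hB h h'
  zero_mem' := good_zero hB hc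
  smul_mem' c _ h := good_mul hB h c

omit [DecidableEq A] in
theorem X_prod (Λ : Finset A) (ι : A → Fin 3) :
    (∏ s ∈ Λ, X (ι s) : PY K A) = monomial (ty Λ ι) 1 := by
  unfold ty
  rw [monomial_sum_one]
  rfl

omit [DecidableEq A] in
theorem ty_sum (Λ : Finset A) (ι : A → Fin 3) : ∑ i, (ty Λ ι) i = Λ.card := by
  unfold ty
  have h : ∀ i, (∑ s ∈ Λ, Finsupp.single (ι s) 1 : Fin 3 →₀ ℕ) i =
      ∑ s ∈ Λ, (Finsupp.single (ι s) 1 : Fin 3 →₀ ℕ) i := fun i => Finsupp.finsetSum_apply _ _ _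
  rw [Finset.sum_congr rfl fun i _ => h i, Finset.sum_comm, Finset.card_eq_sum_ones]
  refine Finset.sum_congr rfl fun s _ => ?_
  rw [Finset.sum_eq_single (ι s)]
  · exact Finsupp.single_eq_same
  · intro i _ hi
    exact Finsupp.single_eq_of_ne hi
  · intro h
    exact absurd (Finset.mem_univ _) h

theorem good_prod [CharZero K] (w : A) (Λ : Finset A) (ι : A → Fin 3) :
    Good w 0 Λ.card Λ (∏ s ∈ Λ, cr K s w (ι s)) := by
  obtain ⟨P, hP⟩ : ∃ P : Finset A → PY K A,
      P = fun I => if I = ∅ then ∏ s ∈ Λ, X (ι s) else 0 := ⟨_, rfl⟩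
  obtain ⟨N, hN⟩ : ∃ N : PX K A 3, N = ((∏ i, ((ty Λ ι) i).factorial : ℕ) : K) •
      coeff (ty Λ ι) (∏ s ∈ Λ, el K w s) := ⟨_, rfl⟩
  have ht : (Λ.card.factorial : K) ≠ 0 := by exact_mod_cast Nat.factorial_ne_zero _
  refine ⟨P, ∏ s ∈ Λ, cr K s w (ι s) - (Λ.card.factorial : K)⁻¹ • N, fun I => ?_, ?_, ?_⟩
  · rw [hP]
    by_cases hI : I = ∅
    · simp only [hI, if_true]
      have := IsHomogeneous.prod Λ (fun s => (X (ι s) : PY K A)) (fun _ => 1)
        (fun s _ => isHomogeneous_X _ _)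
      rwa [← Finset.card_eq_sum_ones] at this
    · simp only [hI, if_false]
      exact isHomogeneous_zero _ _ _
  · have h1 := coeff_mem (K := K) w Λ.card Λ rfl ι
    have h2 : ∏ s ∈ Λ, cr K s w (ι s) - (Λ.card.factorial : K)⁻¹ • N =
        C (-(Λ.card.factorial : K)⁻¹) *
        (((∏ i, ((ty Λ ι) i).factorial : ℕ) : PX K A 3) *
          coeff (ty Λ ι) (∏ s ∈ Λ, el K w s) -
        (Λ.card.factorial : PX K A 3) * ∏ s ∈ Λ, cr K s w (ι s)) := by
      have e1 : ((∏ i, ((ty Λ ι) i).factorial : ℕ) : PX K A 3) *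
          coeff (ty Λ ι) (∏ s ∈ Λ, el K w s) = N := by
        rw [hN, Algebra.smul_def]
        congr 1
      have e2 : (Λ.card.factorial : PX K A 3) * ∏ s ∈ Λ, cr K s w (ι s) =
          (Λ.card.factorial : K) • ∏ s ∈ Λ, cr K s w (ι s) := by
        rw [Algebra.smul_def]
        congr 1
      rw [e1, e2, ← smul_eq_C_mul, smul_sub, neg_smul, neg_smul, smul_smul, inv_mul_cancel₀ ht,
        one_smul]
      ring
    rw [h2]
    exact Ideal.mul_mem_left _ _ h1
  · rw [sub_sub_cancel]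
    have hPα : ∀ α, coeff α (P ∅) = if ty Λ ι = α then 1 else 0 := by
      intro α
      rw [hP]
      simp only [if_true]
      rw [X_prod, coeff_monomial]
    refine ⟨fun α => C (coeff α (P ∅)) * ∏ s ∈ Λ, el K w s, fun α => ?_, ?_⟩
    · have e : (fun I => coeff α (P I)) = fun I => if I = ∅ then coeff α (P ∅) else 0 := by
        funext I
        by_cases hI : I = ∅
        · rw [hI, if_pos rfl]
        · rw [if_neg hI, hP]
          simp only [hI, if_false, coeff_zero]
      rw [e]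
      exact WP.base Λ _
    · rw [smul_smul, mul_inv_cancel₀ ht, one_smul, hN, Finset.sum_eq_single (ty Λ ι)]
      · simp only []
        rw [hPα, if_pos rfl, C_1, one_mul]
      · intro α _ hα
        simp only []
        rw [hPα, if_neg (Ne.symm hα), C_0, zero_mul, coeff_zero, smul_zero]
      · intro h
        exfalso
        apply h
        rw [Finset.mem_finsuppAntidiag]
        exact ⟨ty_sum Λ ι, Finset.subset_univ _⟩

theorem main [CharZero K] (w : A) (hB : Bas K w) : ∀ (b : ℕ) (t : ℕ) (Λ : Finset A)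
    (hc : 2 * b + t = Λ.card), IB K w b Λ ≤ GI hB b t Λ (by omega)
  | 0, t, Λ, hc => by
    have ht : t = Λ.card := by omega
    subst ht
    intro f hf
    unfold IB at hf
    rw [Ideal.prod_span] at hf
    refine (Ideal.span_le (I := GI hB 0 Λ.card Λ (by omega))).2 ?_ hf
    intro x hx
    obtain ⟨g, hg, rfl⟩ := (Set.mem_finsetProd _ _ _).1 hx
    have hch : ∀ s : A, ∃ i : Fin 3, s ∈ Λ → cr K s w i = g s := by
      intro s
      by_cases hs : s ∈ Λ
      · obtain ⟨i, hi⟩ := hg hs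
        exact ⟨i, fun _ => hi⟩
      · exact ⟨0, fun h => absurd h hs⟩
    choose ι hι using hch
    have h1 := good_prod (K := K) w Λ ι
    rw [Finset.prod_congr rfl (fun s hs => hι s hs)] at h1
    exact h1
  | b + 1, t, Λ, hc => by
    refine le_of_pairs w b Λ _ ?_
    intro i hi j hj hij f hf
    have hj2 : j ∈ Λ.erase i := Finset.mem_erase.2 ⟨Ne.symm hij, hj⟩
    have hcard : 2 * b + t = ((Λ.erase i).erase j).card := by
      rw [Finset.card_erase_of_mem hj2, Finset.card_erase_of_mem hi]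
      omega
    obtain ⟨P, h, h1, h2, h3⟩ := main w hB b t _ hcard hf
    refine ⟨um i j P, br K i j w * h, fun I => ?_, ?_, ?_⟩
    · unfold um
      split_ifs
      · exact h1 _
      · exact (h1 _).neg
      · exact isHomogeneous_zero _ _ _
    · have := pair_mem w (b + 1) Λ i j hi hj hij 1 h h2
      rwa [one_mul] at this
    · have := hB.2.2.2.2 b t Λ i j P _ hi hj hij h3
      rwa [mul_sub] at this

end URP

/-- **URP.** -/
theorem URP_thm (h1 : Stmt_UWP) : Stmt_URP := by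
  intro K _ _ A _ _ Λ w b t f _ hc hf
  obtain ⟨u1, u2, -, u4, -, u6, -, -, u9⟩ := h1 K A w
  have hB : URP.Bas K w := ⟨u1, u2, u4, u6, u9⟩
  obtain ⟨P, h, a1, a2, a3⟩ := URP.main w hB b t Λ hc hf
  exact ⟨P, h, URP.th_spe hB a3, a1, a2, a3⟩

end Pool.Agent.VOP
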