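import Pool.Agent.VOP.StmtsU

/-!
# USB: the step from `I_b` to `I_(b+1)`
-/

namespace Pool.Agent.VOP

open MvPolynomial Pool.Agent.VSY

namespace USB

variable {K : Type} [Field K] {A : Type}

lemma av_ne_zero (p : A) : av K p ≠ 0 := by
  classical
  intro h
  have h1 := congrArg (coeff (Finsupp.single (0 : Fin 3) 1)) h
  unfold av at h1
  rw [coeff_sum, Fin.sum_univ_three] at h1
  simp only [coeff_C_mul, coeff_X, coeff_zero] at h1
  have e0 : (Finsupp.single (1 : Fin 3) 1 : Fin 3 →₀ ℕ) ≠ Finsupp.single 0 1 := by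
    intro he
    have := (Finsupp.single_left_injective (one_ne_zero (α := ℕ)) he)
    exact absurd this (by decide)
  have e1 : (Finsupp.single (2 : Fin 3) 1 : Fin 3 →₀ ℕ) ≠ Finsupp.single 0 1 := by
    intro he
    have := (Finsupp.single_left_injective (one_ne_zero (α := ℕ)) he)
    exact absurd this (by decide)
  rw [if_pos trivial, if_neg e0, if_neg e1, mul_one, mul_zero, mul_zero, add_zero, add_zero] at h1
  exact X_ne_zero _ h1

lemma lm_ne_zero {w p : A} (hwp : p ≠ w) : lm K w p ≠ 0 := by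
  classical
  unfold lm
  refine mul_ne_zero (X_ne_zero _) ?_
  intro h
  rw [C_eq_zero] at h
  have h1 := congrArg (eval (fun x : A × Fin 3 =>
    if x = (p, 0) ∨ x = (w, 1) then (1 : K) else 0)) h
  have hne : w ≠ p := fun h => hwp h.symm
  simp [hwp, hne] at h1

end USB

theorem USB_thm (h1 : Stmt_UCB) (h2 : Stmt_UWP) (h3 : Stmt_URP) (h4 : Stmt_UTX)
    (h5 : Stmt_UEV) : Stmt_USB := by
  intro K _ _ A _ _ Λ w b f hw hcard hf hps
  obtain ⟨t, ht⟩ : ∃ t, 2 * b + (t + 1) = Λ.card := ⟨Λ.card - 2 * b - 1, by omega⟩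
  obtain ⟨P, h, hP, hPh, hh, hTh⟩ := h3 K A Λ w b (t + 1) f hw ht hf
  have hps0 : ∀ I, I ⊆ Λ → I.card = b → psY K (insert w (Λ \ I)) (P I) = 0 := by
    intro I hI hIb
    have e1 : Λ \ (insert w (Λ \ I)) = I := by
      ext x
      simp only [Finset.mem_sdiff, Finset.mem_insert, not_or, not_and, not_not]
      constructor
      · rintro ⟨h1, h2, h3⟩
        exact h3 h1
      · intro hx
        exact ⟨hI hx, fun h => hw (h ▸ hI hx), fun _ => hx⟩
    have e2 : Λ ∩ (insert w (Λ \ I)) = Λ \ I := by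
      ext x
      simp only [Finset.mem_sdiff, Finset.mem_insert, Finset.mem_inter]
      constructor
      · rintro ⟨h1, h2 | h2⟩
        · exact absurd (h2 ▸ h1) hw
        · exact h2
      · intro hx
        exact ⟨hx.1, Or.inr hx⟩
    obtain ⟨g1, g2⟩ := h5 K A Λ (insert w (Λ \ I)) w hw (Finset.mem_insert_self _ _)
    have a1 := g1 b (t + 1) P (f - h) ht hPh hTh (by rw [e1]; exact hIb)
    have a2 := g2 b h hh (by rw [e1]; exact hIb.le)
    rw [map_sub, hps I hI hIb, a2, sub_zero, e1, e2] at a1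
    rcases mul_eq_zero.1 a1.symm with a3 | a3
    · exfalso
      rcases mul_eq_zero.1 a3 with a4 | a4
      · obtain ⟨i, _, hi⟩ := Finset.prod_eq_zero_iff.1 a4
        exact USB.av_ne_zero i hi
      · obtain ⟨i, hi1, hi⟩ := Finset.prod_eq_zero_iff.1 a4
        refine USB.lm_ne_zero ?_ hi
        rintro rfl
        exact hw (Finset.mem_sdiff.1 hi1).1
    · exact a3
  obtain ⟨P', hP1, hP2, hP3, hP4⟩ := h1 K A Λ w b t P hw hP hPh (by omega) hps0
  have hfx : ∀ x ∈ insert w Λ, ∃ f ∈ IB K w (b + 1) Λ,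
      Th K w b (t + 1) Λ (fun I => av K x * P' x I) f := by
    intro x hx
    rcases Finset.mem_insert.1 hx with rfl | hx
    · exact ⟨0, Ideal.zero_mem _, (h4 K A Λ x b t (P' x) hw ht (hP3 x)).2 hP2⟩
    · exact (h4 K A Λ w b t (P' x) hw ht (hP3 x)).1 x hx (hP1 x hx)
  choose! F hF1 hF2 using hfx
  obtain ⟨-, -, -, -, -, -, u7, u8, -⟩ := h2 K A w
  have a5 := u8 b (t + 1) Λ (insert w Λ) (fun x I => av K x * P' x I) F (by omega) hF2
  have a6 : (fun I => ∑ x ∈ insert w Λ, av K x * P' x I) = P := by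
    funext I
    exact (hP4 I).symm
  rw [a6] at a5
  have a7 : f - h = ∑ x ∈ insert w Λ, F x := u7 b (t + 1) Λ P _ _ hw hTh a5
  have a8 : f = ∑ x ∈ insert w Λ, F x + h := by rw [← a7, sub_add_cancel]
  rw [a8]
  exact Ideal.add_mem _ (Ideal.sum_mem _ fun x hx => hF1 x hx) hh

end Pool.Agent.VOP
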