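import Pool.Agent.VOP.StmtsU

/-!
# UTX: multiplication of a symbol by `y(x)`
-/

set_option autoImplicit false

namespace Pool.Agent.VOP

open MvPolynomial Pool.Agent.VSY

namespace UTX

variable {K : Type} [Field K] {A : Type} [DecidableEq A]

/-- The derivation `∑ X (x, i) ∂_i`. -/
noncomputable def dd (K : Type) [Field K] {A : Type} (x : A) :
    Derivation (PX K A 3) (PY K A) (PY K A) :=
  ∑ i : Fin 3, (C (X (x, i)) : PY K A) • pderiv i

omit [DecidableEq A] in
theorem dd_apply (x : A) (h : PY K A) :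
    dd K x h = ∑ i : Fin 3, C (X (x, i)) * pderiv i h := by
  unfold dd
  rw [Fin.sum_univ_three, Fin.sum_univ_three]
  rfl

omit [DecidableEq A] in
theorem dd_C (x : A) (c : PX K A 3) : dd K x (C c) = 0 := by
  rw [dd_apply]
  simp

omit [DecidableEq A] in
theorem dd_Cmul (x : A) (c : PX K A 3) (h : PY K A) :
    dd K x (C c * h) = C c * dd K x h := by
  rw [Derivation.leibniz, dd_C, smul_zero, add_zero, smul_eq_mul]

omit [DecidableEq A] in
theorem dd_el (x w s : A) : dd K x (el K w s) = C (br K x s w) := by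
  unfold el br
  rw [dd_apply]
  simp only [map_sum, pderiv_C_mul, pderiv_X, Finset.mul_sum, map_mul]
  refine Finset.sum_congr rfl fun i _ => ?_
  rw [Finset.sum_eq_single i]
  · simp
  · intro j _ hj
    simp [Pi.single_apply, hj.symm]
  · simp

omit [DecidableEq A] in
theorem br_self (x w : A) : br K x x w = 0 := by
  unfold br cr
  rw [Fin.sum_univ_three]
  have e1 : (0 : Fin 3) + 1 = 1 := rfl
  have e2 : (0 : Fin 3) + 2 = 2 := rfl
  have e3 : (1 : Fin 3) + 1 = 2 := rfl
  have e4 : (1 : Fin 3) + 2 = 0 := rfl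
  have e5 : (2 : Fin 3) + 1 = 0 := rfl
  have e6 : (2 : Fin 3) + 2 = 1 := rfl
  rw [e1, e2, e3, e4, e5, e6]
  ring

omit [DecidableEq A] in
theorem br_w (s w : A) : br K w s w = 0 := by
  unfold br cr
  rw [Fin.sum_univ_three]
  have e1 : (0 : Fin 3) + 1 = 1 := rfl
  have e2 : (0 : Fin 3) + 2 = 2 := rfl
  have e3 : (1 : Fin 3) + 1 = 2 := rfl
  have e4 : (1 : Fin 3) + 2 = 0 := rfl
  have e5 : (2 : Fin 3) + 1 = 0 := rfl
  have e6 : (2 : Fin 3) + 2 = 1 := rfl
  rw [e1, e2, e3, e4, e5, e6]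
  ring

theorem dd_prod (x w : A) (Γ : Finset A) :
    dd K x (∏ s ∈ Γ, el K w s) =
      ∑ s ∈ Γ, C (br K x s w) * ∏ s' ∈ Γ.erase s, el K w s' := by
  classical
  induction Γ using Finset.induction_on with
  | empty =>
    rw [Finset.prod_empty, Finset.sum_empty]
    exact Derivation.map_one_eq_zero _
  | insert a S ha ih =>
    rw [Finset.prod_insert ha, Derivation.leibniz, ih, Finset.sum_insert ha,
      Finset.erase_insert ha, smul_eq_mul, smul_eq_mul, dd_el, Finset.mul_sum, add_comm]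
    congr 1
    · ring
    · refine Finset.sum_congr rfl fun s hs => ?_
      have hsa : s ≠ a := fun h => ha (h ▸ hs)
      rw [Finset.erase_insert_of_ne hsa.symm, Finset.prod_insert]
      · ring
      · exact fun h => ha (Finset.mem_of_mem_erase h)

omit [DecidableEq A] in
theorem el_mem (w s : A) :
    el K w s ∈ Ideal.map (C : PX K A 3 →+* PY K A) (Ideal.span (Set.range (cr K s w))) := by
  unfold el
  refine Ideal.sum_mem _ fun i _ => Ideal.mul_mem_right _ _ (Ideal.mem_map_of_mem _ ?_)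
  exact Ideal.subset_span ⟨i, rfl⟩

omit [DecidableEq A] in
theorem prod_mem (w : A) (Γ : Finset A) :
    ∏ s ∈ Γ, el K w s ∈
      Ideal.map (C : PX K A 3 →+* PY K A) (∏ s ∈ Γ, Ideal.span (Set.range (cr K s w))) := by
  classical
  induction Γ using Finset.induction_on with
  | empty =>
    rw [Finset.prod_empty, Finset.prod_empty, Ideal.one_eq_top, Ideal.map_top]
    trivial
  | insert a S ha ih =>
    rw [Finset.prod_insert ha, Finset.prod_insert ha, Ideal.map_mul]
    exact Ideal.mul_mem_mul (el_mem w a) ih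

theorem IB_step (w : A) (b : ℕ) (Λ : Finset A) (i j : A) (hi : i ∈ Λ) (hj : j ∈ Λ) (hij : i ≠ j)
    (h : PY K A) (hh : h ∈ Ideal.map (C : PX K A 3 →+* PY K A)
      (IB K w b ((Λ.erase i).erase j))) :
    C (br K i j w) * h ∈ Ideal.map (C : PX K A 3 →+* PY K A) (IB K w (b + 1) Λ) := by
  have h1 : Ideal.span {br K i j w} * IB K w b ((Λ.erase i).erase j) ≤ IB K w (b + 1) Λ := by
    show _ ≤ ⨆ i ∈ Λ, ⨆ j ∈ Λ.erase i, Ideal.span {br K i j w} * IB K w b ((Λ.erase i).erase j)
    refine le_trans ?_ (le_iSup₂_of_le i hi le_rfl)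
    exact le_iSup₂_of_le j (Finset.mem_erase.2 ⟨hij.symm, hj⟩) le_rfl
  refine Ideal.map_mono h1 ?_
  rw [Ideal.map_mul]
  exact Ideal.mul_mem_mul (Ideal.mem_map_of_mem _ (Ideal.mem_span_singleton_self _)) hh

/-- the key claim -/
theorem key (w x : A) : ∀ (b : ℕ) (Γ : Finset A) (p : Finset A → PX K A 3) (g : PY K A),
    WP K w b Γ p g → x ∉ Γ →
    el K w x * dd K x g ∈ Ideal.map (C : PX K A 3 →+* PY K A) (IB K w (b + 1) (insert x Γ)) := by
  intro b Γ p g h
  induction h with
  | base Λ c =>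
    intro hx
    rw [dd_Cmul, dd_prod, Finset.mul_sum, Finset.mul_sum]
    refine Ideal.sum_mem _ fun s hs => ?_
    have hxs : x ≠ s := fun h => hx (h ▸ hs)
    have e : el K w x * (C c * (C (br K x s w) * ∏ s' ∈ Λ.erase s, el K w s')) =
        C (br K x s w) * (C c * el K w x * ∏ s' ∈ Λ.erase s, el K w s') := by ring
    rw [e]
    refine IB_step w 0 (insert x Λ) x s (Finset.mem_insert_self _ _)
      (Finset.mem_insert_of_mem hs) hxs _ ?_
    rw [Finset.erase_insert hx]
    exact Ideal.mul_mem_left _ _ (prod_mem w _)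
  | pair b Λ i j p g hi hj hij _ ih =>
    intro hx
    have hxi : x ≠ i := fun h => hx (h ▸ hi)
    have hxj : x ≠ j := fun h => hx (h ▸ hj)
    have hx' : x ∉ (Λ.erase i).erase j := fun h =>
      hx (Finset.mem_of_mem_erase (Finset.mem_of_mem_erase h))
    have ih' := ih hx'
    rw [dd_Cmul]
    have e : el K w x * (C (br K i j w) * dd K x g) =
        C (br K i j w) * (el K w x * dd K x g) := by ring
    rw [e]
    refine IB_step w (b + 1) (insert x Λ) i j (Finset.mem_insert_of_mem hi)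
      (Finset.mem_insert_of_mem hj) hij _ ?_
    rw [Finset.erase_insert_of_ne hxi, Finset.erase_insert_of_ne hxj]
    exact ih'
  | add b Λ p p' g g' _ _ ih ih' =>
    intro hx
    rw [map_add, mul_add]
    exact Ideal.add_mem _ (ih hx) (ih' hx)

theorem kill (w : A) : ∀ (b : ℕ) (Γ : Finset A) (p : Finset A → PX K A 3) (g : PY K A),
    WP K w b Γ p g → dd K w g = 0 := by
  intro b Γ p g h
  induction h with
  | base Λ c =>
    rw [dd_Cmul, dd_prod]
    simp only [br_w, map_zero, zero_mul, Finset.sum_const_zero, mul_zero]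
  | pair b Λ i j p g hi hj hij _ ih => rw [dd_Cmul, ih, mul_zero]
  | add b Λ p p' g g' _ _ ih ih' => rw [map_add, ih, ih', add_zero]

omit [DecidableEq A] in
theorem coeff_av (x : A) (Q : PY K A) (β : Fin 3 →₀ ℕ) :
    coeff β (av K x * Q) =
      ∑ i : Fin 3, X (x, i) * (if i ∈ β.support then coeff (β - Finsupp.single i 1) Q else 0) := by
  unfold av
  rw [Finset.sum_mul, coeff_sum]
  refine Finset.sum_congr rfl fun i _ => ?_
  rw [mul_assoc, coeff_C_mul, coeff_X_mul']

/-- the new family -/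
noncomputable def gg (x : A) (h : (Fin 3 →₀ ℕ) → PY K A) (β : Fin 3 →₀ ℕ) : PY K A :=
  ∑ i : Fin 3, C (X (x, i)) * (if i ∈ β.support then h (β - Finsupp.single i 1) else 0)

theorem wp_gg (h1 : Stmt_UWP) [CharZero K] [Fintype A] (w x : A) (b : ℕ) (Λ : Finset A)
    (hb : 2 * b ≤ Λ.card) (P' : Finset A → PY K A) (h : (Fin 3 →₀ ℕ) → PY K A)
    (hh : ∀ γ, WP K w b Λ (fun I => coeff γ (P' I)) (h γ)) (β : Fin 3 →₀ ℕ) :
    WP K w b Λ (fun I => coeff β (av K x * P' I)) (gg x h β) := by
  obtain ⟨a1, -, -, a4, -⟩ := h1 K A w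
  have hi : ∀ i : Fin 3, WP K w b Λ
      (fun I => X (x, i) * (if i ∈ β.support then coeff (β - Finsupp.single i 1) (P' I) else 0))
      (C (X (x, i)) * (if i ∈ β.support then h (β - Finsupp.single i 1) else 0)) := by
    intro i
    refine a1 b Λ (fun I => if i ∈ β.support then coeff (β - Finsupp.single i 1) (P' I) else 0) _ _ ?_
    by_cases hs : i ∈ β.support
    · simp only [if_pos hs]
      exact hh _
    · simp only [if_neg hs]
      exact a4 b Λ hb
  have h3 := WP.add b Λ _ _ _ _ (WP.add b Λ _ _ _ _ (hi 0) (hi 1)) (hi 2)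
  unfold gg
  simp only [coeff_av, Fin.sum_univ_three]
  exact h3

omit [DecidableEq A] in
theorem sum_gg (x : A) (h : (Fin 3 →₀ ℕ) → PY K A) (t : ℕ) :
    ∑ β ∈ (Finset.univ : Finset (Fin 3)).finsuppAntidiag (t + 1),
      ((∏ i, (β i).factorial : ℕ) : K) • coeff β (gg x h β) =
    ∑ γ ∈ (Finset.univ : Finset (Fin 3)).finsuppAntidiag t,
      ((∏ i, (γ i).factorial : ℕ) : K) • coeff γ (dd K x (h γ)) := by
  classical
  have e1 : ∀ β, coeff β (gg x h β) = ∑ i : Fin 3, if i ∈ β.support then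
      X (x, i) * coeff β (h (β - Finsupp.single i 1)) else 0 := by
    intro β
    unfold gg
    rw [coeff_sum]
    refine Finset.sum_congr rfl fun i _ => ?_
    rw [coeff_C_mul]
    split_ifs
    · rfl
    · rw [coeff_zero, mul_zero]
  have e2 : ∀ γ, coeff γ (dd K x (h γ)) = ∑ i : Fin 3,
      X (x, i) * (coeff (γ + Finsupp.single i 1) (h γ) * (((γ i : ℕ) : PX K A 3) + 1)) := by
    intro γ
    rw [dd_apply, coeff_sum]
    refine Finset.sum_congr rfl fun i _ => ?_
    rw [coeff_C_mul, coeff_pderiv]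
  simp only [e1, e2, Finset.smul_sum]
  rw [Finset.sum_comm, Finset.sum_comm (s := (Finset.univ : Finset (Fin 3)).finsuppAntidiag t)]
  refine Finset.sum_congr rfl fun i _ => ?_
  simp only [smul_ite, smul_zero]
  rw [← Finset.sum_filter]
  symm
  refine Finset.sum_bij' (fun (γ : Fin 3 →₀ ℕ) _ => (γ + Finsupp.single i 1 : Fin 3 →₀ ℕ))
    (fun (β : Fin 3 →₀ ℕ) _ => (β - Finsupp.single i 1 : Fin 3 →₀ ℕ)) ?_ ?_ ?_ ?_ ?_
  · intro γ hγ
    rw [Finset.mem_finsuppAntidiag] at hγ
    rw [Finset.mem_filter, Finset.mem_finsuppAntidiag]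
    refine ⟨⟨?_, Finset.subset_univ _⟩, ?_⟩
    · have h6 : ∑ j, (γ + Finsupp.single i 1 : Fin 3 →₀ ℕ) j =
          ∑ j, γ j + ∑ j, (Finsupp.single i 1 : Fin 3 →₀ ℕ) j := by
        rw [← Finset.sum_add_distrib]
        rfl
      have h7 : ∑ j, (Finsupp.single i 1 : Fin 3 →₀ ℕ) j = 1 := by
        rw [Finset.sum_eq_single i]
        · simp
        · intro j _ hj
          simp [Finsupp.single_apply, hj.symm]
        · simp
      have h8 := hγ.1
      rw [h7] at h6
      rw [← h8]
      exact h6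
    · rw [Finsupp.mem_support_iff]
      simp
  · intro β hβ
    rw [Finset.mem_filter, Finset.mem_finsuppAntidiag] at hβ
    rw [Finset.mem_finsuppAntidiag]
    refine ⟨?_, Finset.subset_univ _⟩
    have hi : β i ≠ 0 := Finsupp.mem_support_iff.1 hβ.2
    have hle : Finsupp.single i 1 ≤ β := by
      rw [Finsupp.single_le_iff]
      omega
    have h3 : ∑ j, (β - Finsupp.single i 1 : Fin 3 →₀ ℕ) j + ∑ j, (Finsupp.single i 1 : Fin 3 →₀ ℕ) j =
        ∑ j, β j := by
      rw [← Finset.sum_add_distrib]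
      refine Finset.sum_congr rfl fun j _ => ?_
      rw [← Finsupp.add_apply, tsub_add_cancel_of_le hle]
    have h4 : ∑ j, (Finsupp.single i 1 : Fin 3 →₀ ℕ) j = 1 := by
      rw [Finset.sum_eq_single i]
      · simp
      · intro j _ hj
        simp [Finsupp.single_apply, hj.symm]
      · simp
    have h5 : ∑ j, β j = t + 1 := hβ.1.1
    show ∑ j, (β - Finsupp.single i 1 : Fin 3 →₀ ℕ) j = t
    omega
  · intro γ _
    simp
  · intro β hβ
    rw [Finset.mem_filter] at hβ
    have hi : β i ≠ 0 := Finsupp.mem_support_iff.1 hβ.2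
    have hle : Finsupp.single i 1 ≤ β := by
      rw [Finsupp.single_le_iff]
      omega
    exact tsub_add_cancel_of_le hle
  · intro γ _
    have e3 : γ + Finsupp.single i 1 - Finsupp.single i 1 = γ := by simp
    rw [e3]
    have e4 : (∏ j, ((γ + Finsupp.single i 1 : Fin 3 →₀ ℕ) j).factorial : ℕ) =
        (γ i + 1) * ∏ j, (γ j).factorial := by
      rw [← Finset.mul_prod_erase Finset.univ _ (Finset.mem_univ i),
        ← Finset.mul_prod_erase Finset.univ (fun j => (γ j).factorial) (Finset.mem_univ i)]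
      have e5 : ((γ + Finsupp.single i 1 : Fin 3 →₀ ℕ) i).factorial = (γ i + 1) * (γ i).factorial := by
        simp [Nat.factorial_succ]
      have e6 : ∏ j ∈ Finset.univ.erase i, ((γ + Finsupp.single i 1 : Fin 3 →₀ ℕ) j).factorial =
          ∏ j ∈ Finset.univ.erase i, (γ j).factorial := by
        refine Finset.prod_congr rfl fun j hj => ?_
        have : i ≠ j := (Finset.ne_of_mem_erase hj).symm
        simp [Finsupp.single_apply, this]
      rw [e5, e6]
      ring
    rw [e4, Algebra.smul_def, Algebra.smul_def]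
    push_cast
    ring

end UTX

open UTX in
theorem UTX_thm (h1 : Stmt_UWP) (h2 : Stmt_UWS) : Stmt_UTX := by
  intro K _ _ A _ _ Λ w b t P' hw hcard hhom
  obtain ⟨s1, -, s3⟩ := h2 K A w
  have hspe : ∀ (Γ : Finset A) (γ : Fin 3 →₀ ℕ), Spe Γ b P' →
      Spe Γ b (fun I => coeff γ (P' I)) := by
    intro Γ γ h
    refine ⟨fun I hI => h.supp I fun h0 => hI ?_, fun I hI hc => ?_⟩
    · simp only [h0, coeff_zero]
    · rw [← coeff_sum, h.sum I hI hc, coeff_zero]
  refine ⟨fun x hx hS => ?_, fun hS => ?_⟩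
  · have hc1 : 2 * b ≤ (Λ.erase x).card := by
      rw [Finset.card_erase_of_mem hx]
      omega
    choose g' hg' using fun γ => s1 b (Λ.erase x) (fun I => coeff γ (P' I)) hc1 (hspe _ γ hS)
    have hh : ∀ γ, WP K w b Λ (fun I => coeff γ (P' I)) (el K w x * g' γ) := by
      intro γ
      have h3 := s3 b (Λ.erase x) x _ _ (Finset.notMem_erase x Λ) (hg' γ)
      rwa [Finset.insert_erase hx] at h3
    have hS1 := sum_gg (K := K) x (fun γ => el K w x * g' γ) t
    refine ⟨((t + 1).factorial : K)⁻¹ •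
      ∑ β ∈ (Finset.univ : Finset (Fin 3)).finsuppAntidiag (t + 1),
      ((∏ i, (β i).factorial : ℕ) : K) • coeff β (gg x (fun γ => el K w x * g' γ) β), ?_,
      gg x (fun γ => el K w x * g' γ),
      wp_gg h1 w x b Λ (by omega) P' _ hh, ?_⟩
    · rw [hS1]
      refine Submodule.smul_of_tower_mem _ _ (Submodule.sum_mem _ fun γ _ =>
        Submodule.smul_of_tower_mem _ _ ?_)
      have h4 : dd K x (el K w x * g' γ) = el K w x * dd K x (g' γ) := by
        rw [Derivation.leibniz, dd_el, br_self, map_zero, smul_zero, add_zero, smul_eq_mul]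
      rw [h4]
      have h5 := key w x b (Λ.erase x) _ _ (hg' γ) (Finset.notMem_erase x Λ)
      rw [Finset.insert_erase hx] at h5
      exact mem_map_C_iff.1 h5 γ
    · rw [smul_smul, mul_inv_cancel₀, one_smul]
      exact_mod_cast (Nat.factorial_ne_zero (t + 1))
  · have hc1 : 2 * b ≤ Λ.card := by omega
    choose g' hg' using fun γ => s1 b Λ (fun I => coeff γ (P' I)) hc1 (hspe _ γ hS)
    refine ⟨gg w g', wp_gg h1 w w b Λ hc1 P' _ hg', ?_⟩
    rw [sum_gg, smul_zero]
    symm
    refine Finset.sum_eq_zero fun γ _ => ?_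
    rw [kill w b Λ _ _ (hg' γ), coeff_zero, smul_zero]

end Pool.Agent.VOP
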