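import Pool.Agent.VOP.StmtsU

/-!
# UWP: basic properties of the pairs `(p, g)` (MP_deb8da_ag, block D1 in points)
-/

namespace Pool.Agent.VOP

open MvPolynomial Pool.Agent.VSY

namespace UWP

variable {K : Type} [Field K] {A : Type} [DecidableEq A] {w : A}

theorem mul {b : ℕ} {Λ : Finset A} {p : Finset A → PX K A 3} {g : PY K A}
    (h : WP K w b Λ p g) (c : PX K A 3) : WP K w b Λ (fun I => c * p I) (C c * g) := by
  induction h with
  | base Λ d =>
    have h1 : (fun I : Finset A => c * (if I = ∅ then d else 0)) =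
        fun I : Finset A => if I = ∅ then c * d else 0 := by
      funext I
      by_cases hI : I = ∅
      · simp only [hI, if_true]
      · simp only [hI, if_false, mul_zero]
    have h2 : (C c * (C d * ∏ s ∈ Λ, el K w s) : PY K A) = C (c * d) * ∏ s ∈ Λ, el K w s := by
      rw [map_mul, mul_assoc]
    rw [h1, h2]
    exact WP.base Λ (c * d)
  | pair b Λ i j p g hi hj hij _ ih =>
    have h1 : (fun I : Finset A => c * um i j p I) = um i j (fun I => c * p I) := by
      funext I
      unfold um
      by_cases h : i ∈ I ∧ j ∉ I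
      · rw [if_pos h, if_pos h]
      · rw [if_neg h, if_neg h]
        by_cases h' : j ∈ I ∧ i ∉ I
        · rw [if_pos h', if_pos h', mul_neg]
        · rw [if_neg h', if_neg h', mul_zero]
    have h2 : (C c * (C (br K i j w) * g) : PY K A) = C (br K i j w) * (C c * g) := by
      ring
    rw [h1, h2]
    exact WP.pair b Λ i j _ _ hi hj hij ih
  | add b Λ p p' g g' _ _ ih ih' =>
    have h1 : (fun I : Finset A => c * (p I + p' I)) = fun I => c * p I + c * p' I := by
      funext I
      rw [mul_add]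
    rw [h1, mul_add]
    exact WP.add b Λ _ _ _ _ ih ih'

/-- `um` is antisymmetric in the two letters. -/
theorem um_swap {M : Type} [AddCommGroup M] (i j : A) (p : Finset A → M) (I : Finset A) :
    um j i p I = -um i j p I := by
  unfold um
  by_cases h : i ∈ I <;> by_cases h' : j ∈ I <;> simp [h, h']

section Spe

variable {M : Type} [AddCommGroup M]

theorem spe_aux {Λ : Finset A} {b : ℕ} {p : Finset A → M} {i j : A} (hj : j ∈ Λ)
    (hij : i ≠ j) (h : Spe ((Λ.erase i).erase j) b p) {I : Finset A} (hI : I ⊆ Λ)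
    (hc : I.card = b) (hiI : i ∈ I) (hjI : j ∉ I) :
    ∑ x ∈ Λ \ I, um i j p (insert x I) = 0 := by
  have hjm : j ∈ Λ \ I := Finset.mem_sdiff.2 ⟨hj, hjI⟩
  rw [← Finset.add_sum_erase _ _ hjm]
  have h0 : um i j p (insert j I) = 0 := by
    unfold um
    rw [if_neg (by simp [hiI]), if_neg (by simp [hiI])]
  rw [h0, zero_add]
  have hset : (Λ \ I).erase j = ((Λ.erase i).erase j) \ (I.erase i) := by
    ext x
    simp only [Finset.mem_erase, Finset.mem_sdiff]
    constructor
    · rintro ⟨h1, h2, h3⟩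
      refine ⟨⟨h1, ?_, h2⟩, fun h4 => h3 h4.2⟩
      rintro rfl
      exact h3 hiI
    · rintro ⟨⟨h1, h2, h3⟩, h4⟩
      exact ⟨h1, h3, fun h5 => h4 ⟨h2, h5⟩⟩
  rw [hset]
  have hs := h.sum (I.erase i) (by
      intro x hx
      have hx' := Finset.mem_erase.1 hx
      refine Finset.mem_erase.2 ⟨?_, Finset.mem_erase.2 ⟨hx'.1, hI hx'.2⟩⟩
      rintro rfl
      exact hjI hx'.2) (by
      rw [Finset.card_erase_of_mem hiI, hc]
      have : 1 ≤ b := by
        rw [← hc]
        exact Finset.card_pos.2 ⟨i, hiI⟩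
      omega)
  rw [← hs]
  refine Finset.sum_congr rfl fun x hx => ?_
  have hx' := Finset.mem_sdiff.1 hx
  have hxj : x ≠ j := (Finset.mem_erase.1 hx'.1).1
  have hxi : x ≠ i := (Finset.mem_erase.1 (Finset.mem_erase.1 hx'.1).2).1
  unfold um
  rw [if_pos ⟨Finset.mem_insert_of_mem hiI, by
    rw [Finset.mem_insert]
    rintro (h1 | h1)
    · exact hxj h1.symm
    · exact hjI h1⟩]
  rw [Finset.erase_insert_of_ne hxi]

theorem spe_pair {Λ : Finset A} {b : ℕ} {p : Finset A → M} {i j : A} (hi : i ∈ Λ) (hj : j ∈ Λ)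
    (hij : i ≠ j) (h : Spe ((Λ.erase i).erase j) b p) : Spe Λ (b + 1) (um i j p) where
  supp := by
    intro I hI
    unfold um at hI
    by_cases h1 : i ∈ I ∧ j ∉ I
    · rw [if_pos h1] at hI
      obtain ⟨h2, h3⟩ := h.supp _ hI
      constructor
      · intro x hx
        by_cases hxi : x = i
        · rw [hxi]; exact hi
        · exact (Finset.mem_erase.1 (Finset.mem_erase.1
            (h2 (Finset.mem_erase.2 ⟨hxi, hx⟩))).2).2
      · rw [← Finset.card_erase_add_one h1.1, h3]
    · rw [if_neg h1] at hI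
      by_cases h4 : j ∈ I ∧ i ∉ I
      · rw [if_pos h4] at hI
        obtain ⟨h2, h3⟩ := h.supp _ (fun h0 => hI (by rw [h0, neg_zero]))
        constructor
        · intro x hx
          by_cases hxj : x = j
          · rw [hxj]; exact hj
          · exact (Finset.mem_erase.1 (Finset.mem_erase.1
              (h2 (Finset.mem_erase.2 ⟨hxj, hx⟩))).2).2
        · rw [← Finset.card_erase_add_one h4.1, h3]
      · rw [if_neg h4] at hI
        exact absurd rfl hI
  sum := by
    intro I hI hc
    have hc' : I.card = b := by omega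
    by_cases hiI : i ∈ I
    · by_cases hjI : j ∈ I
      · refine Finset.sum_eq_zero fun x _ => ?_
        unfold um
        rw [if_neg (by simp [hjI]), if_neg (by simp [hiI])]
      · exact spe_aux hj hij h hI hc' hiI hjI
    · by_cases hjI : j ∈ I
      · have h' : Spe ((Λ.erase j).erase i) b p := by
          rw [Finset.erase_right_comm]
          exact h
        have h1 := spe_aux hi hij.symm h' hI hc' hjI hiI
        have h2 : ∑ x ∈ Λ \ I, um i j p (insert x I) =
            -∑ x ∈ Λ \ I, um j i p (insert x I) := by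
          rw [← Finset.sum_neg_distrib]
          exact Finset.sum_congr rfl fun x _ => um_swap j i p _
        rw [h2, h1, neg_zero]
      · have him : i ∈ Λ \ I := Finset.mem_sdiff.2 ⟨hi, hiI⟩
        have hjm : j ∈ (Λ \ I).erase i :=
          Finset.mem_erase.2 ⟨hij.symm, Finset.mem_sdiff.2 ⟨hj, hjI⟩⟩
        rw [← Finset.add_sum_erase _ _ him, ← Finset.add_sum_erase _ _ hjm]
        have h1 : um i j p (insert i I) = p I := by
          unfold um
          rw [if_pos ⟨Finset.mem_insert_self _ _, by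
            rw [Finset.mem_insert]
            rintro (h1 | h1)
            · exact hij h1.symm
            · exact hjI h1⟩, Finset.erase_insert hiI]
        have h2 : um i j p (insert j I) = -p I := by
          unfold um
          have h3 : i ∉ insert j I := by
            rw [Finset.mem_insert]
            rintro (h1 | h1)
            · exact hij h1
            · exact hiI h1
          rw [if_neg (fun h4 => h3 h4.1), if_pos ⟨Finset.mem_insert_self _ _, h3⟩,
            Finset.erase_insert hjI]
        have h3 : ∑ x ∈ ((Λ \ I).erase i).erase j, um i j p (insert x I) = 0 := by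
          refine Finset.sum_eq_zero fun x hx => ?_
          have hxj : x ≠ j := (Finset.mem_erase.1 hx).1
          have hxi : x ≠ i := (Finset.mem_erase.1 (Finset.mem_erase.1 hx).2).1
          have h4 : i ∉ insert x I := by
            rw [Finset.mem_insert]
            rintro (h1 | h1)
            · exact hxi h1.symm
            · exact hiI h1
          have h5 : j ∉ insert x I := by
            rw [Finset.mem_insert]
            rintro (h1 | h1)
            · exact hxj h1.symm
            · exact hjI h1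
          unfold um
          rw [if_neg (fun h6 => h4 h6.1), if_neg (fun h6 => h5 h6.1)]
        rw [h1, h2, h3, add_zero, add_neg_cancel]

theorem spe_add {Λ : Finset A} {b : ℕ} {p p' : Finset A → M} (h : Spe Λ b p)
    (h' : Spe Λ b p') : Spe Λ b (fun I => p I + p' I) where
  supp := by
    intro I hI
    by_cases h1 : p I = 0
    · refine h'.supp I fun h2 => hI ?_
      show p I + p' I = 0
      rw [h1, h2, add_zero]
    · exact h.supp I h1
  sum := by
    intro I hI hc
    rw [Finset.sum_add_distrib, h.sum I hI hc, h'.sum I hI hc, add_zero]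

end Spe

theorem spe {b : ℕ} {Λ : Finset A} {p : Finset A → PX K A 3} {g : PY K A}
    (h : WP K w b Λ p g) : Spe Λ b p := by
  induction h with
  | base Λ c =>
    refine ⟨?_, ?_⟩
    · intro I hI
      by_cases h1 : I = ∅
      · rw [h1]
        exact ⟨Finset.empty_subset _, Finset.card_empty⟩
      · simp only [if_neg h1] at hI
        exact absurd rfl hI
    · intro I _ hc
      omega
  | pair b Λ i j p g hi hj hij _ ih => exact spe_pair hi hj hij ih
  | add b Λ p p' g g' _ _ ih ih' => exact spe_add ih ih'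

theorem el_hom (w p : A) : (el K w p).IsHomogeneous 1 := by
  unfold el
  refine IsHomogeneous.sum _ _ _ fun i _ => ?_
  have := (isHomogeneous_C (Fin 3) (cr K p w i)).mul (isHomogeneous_X (PX K A 3) i)
  rwa [zero_add] at this

theorem card_erase2 {Λ : Finset A} {i j : A} (hi : i ∈ Λ) (hj : j ∈ Λ) (hij : i ≠ j) :
    ((Λ.erase i).erase j).card + 2 = Λ.card := by
  have h1 := Finset.card_erase_add_one hi
  have h2 := Finset.card_erase_add_one (s := Λ.erase i) (a := j)
    (Finset.mem_erase.2 ⟨hij.symm, hj⟩)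
  omega

theorem hom {b : ℕ} {Λ : Finset A} {p : Finset A → PX K A 3} {g : PY K A}
    (h : WP K w b Λ p g) : 2 * b ≤ Λ.card ∧ g.IsHomogeneous (Λ.card - 2 * b) := by
  induction h with
  | base Λ c =>
    refine ⟨by omega, ?_⟩
    have h1 : (∏ s ∈ Λ, el K w s : PY K A).IsHomogeneous (∑ _s ∈ Λ, 1) :=
      IsHomogeneous.prod _ _ _ fun s _ => el_hom w s
    have h2 := (isHomogeneous_C (Fin 3) c).mul h1
    have h3 : 0 + ∑ _s ∈ Λ, 1 = Λ.card - 2 * 0 := by
      rw [Finset.sum_const, smul_eq_mul]
      omega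
    rwa [h3] at h2
  | pair b Λ i j p g hi hj hij _ ih =>
    have hc := card_erase2 hi hj hij
    refine ⟨by omega, ?_⟩
    have h2 := (isHomogeneous_C (Fin 3) (br K i j w)).mul ih.2
    have h3 : 0 + (((Λ.erase i).erase j).card - 2 * b) = Λ.card - 2 * (b + 1) := by omega
    rwa [h3] at h2
  | add b Λ p p' g g' _ _ ih ih' => exact ⟨ih.1, ih.2.add ih'.2⟩

theorem um_zero {M : Type} [AddCommGroup M] (i j : A) (I : Finset A) :
    um i j (fun _ => (0 : M)) I = 0 := by
  unfold um
  by_cases h : i ∈ I ∧ j ∉ I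
  · rw [if_pos h]
  · rw [if_neg h]
    by_cases h' : j ∈ I ∧ i ∉ I
    · rw [if_pos h', neg_zero]
    · rw [if_neg h']

theorem zero (b : ℕ) (Λ : Finset A) (h : 2 * b ≤ Λ.card) :
    WP K w b Λ (fun _ => 0) 0 := by
  induction b generalizing Λ with
  | zero =>
    have h1 := WP.base (K := K) (w := w) Λ 0
    have h2 : (fun I : Finset A => if I = ∅ then (0 : PX K A 3) else 0) = fun _ => 0 := by
      funext I
      by_cases hI : I = ∅
      · rw [if_pos hI]
      · rw [if_neg hI]
    rw [h2, C_0, zero_mul] at h1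
    exact h1
  | succ b ih =>
    obtain ⟨i, hi, j, hj, hij⟩ := Finset.one_lt_card.1 (show 1 < Λ.card by omega)
    have hc := card_erase2 hi hj hij
    have h1 := WP.pair b Λ i j _ _ hi hj hij (ih ((Λ.erase i).erase j) (by omega))
    have h2 : um i j (fun _ => (0 : PX K A 3)) = fun _ => 0 := by
      funext I
      exact um_zero i j I
    rw [h2, mul_zero] at h1
    exact h1

/-- The form `z × ℓ` evaluated at `w`, `z = e₀`. -/
noncomputable def Z (K : Type) [Field K] {A : Type} (w : A) : PY K A :=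
  C (X (w, 2)) * X 1 - C (X (w, 1)) * X 2

theorem Z_ne (w : A) : Z K w ≠ 0 := by
  intro h
  have h1 : coeff (Finsupp.single 1 1) (Z K w) = X (w, 2) := by
    unfold Z
    have h4 : (Finsupp.single (2 : Fin 3) 1 : Fin 3 →₀ ℕ) ≠ Finsupp.single 1 1 := by
      intro h2
      have h3 := congrArg (fun f : Fin 3 →₀ ℕ => f 2) h2
      simp at h3
    rw [coeff_sub, coeff_C_mul, coeff_C_mul, coeff_X' (1 : Fin 3), coeff_X' (2 : Fin 3),
      if_pos rfl, if_neg h4, mul_one, mul_zero, sub_zero]
  rw [h, coeff_zero] at h1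
  exact X_ne_zero _ h1.symm

omit [DecidableEq A] in
theorem Z_br (w i j : A) : Z K w * C (br K i j w) =
    C (cr K i w 0) * el K w j - C (cr K j w 0) * el K w i := by
  unfold Z br el cr
  rw [Fin.sum_univ_three, Fin.sum_univ_three, Fin.sum_univ_three]
  simp only [show (0 : Fin 3) + 1 = 1 from rfl, show (0 : Fin 3) + 2 = 2 from rfl,
    show (1 : Fin 3) + 1 = 2 from rfl, show (1 : Fin 3) + 2 = 0 from rfl,
    show (2 : Fin 3) + 1 = 0 from rfl, show (2 : Fin 3) + 2 = 1 from rfl, map_add, map_sub,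
    map_mul]
  ring

theorem sum_one {M : Type} [AddCommMonoid M] {b : ℕ} {Λ : Finset A} {i j : A} (hi : i ∈ Λ)
    (hij : i ≠ j) (F : Finset A → M) :
    ∑ I ∈ Λ.powersetCard (b + 1), (if i ∈ I ∧ j ∉ I then F (I.erase i) else 0) =
      ∑ J ∈ ((Λ.erase i).erase j).powersetCard b, F J := by
  rw [← Finset.sum_filter]
  refine Finset.sum_bij' (fun I _ => I.erase i) (fun J _ => insert i J) ?_ ?_ ?_ ?_ ?_
  · intro I hI
    obtain ⟨h1, h2, h3⟩ := Finset.mem_filter.1 hI
    obtain ⟨h4, h5⟩ := Finset.mem_powersetCard.1 h1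
    refine Finset.mem_powersetCard.2 ⟨?_, ?_⟩
    · intro x hx
      have hx' := Finset.mem_erase.1 hx
      refine Finset.mem_erase.2 ⟨?_, Finset.mem_erase.2 ⟨hx'.1, h4 hx'.2⟩⟩
      rintro rfl
      exact h3 hx'.2
    · rw [Finset.card_erase_of_mem h2, h5, Nat.add_sub_cancel]
  · intro J hJ
    obtain ⟨h4, h5⟩ := Finset.mem_powersetCard.1 hJ
    have hiJ : i ∉ J := fun h => (Finset.mem_erase.1 (Finset.mem_erase.1 (h4 h)).2).1 rfl
    have hjJ : j ∉ J := fun h => (Finset.mem_erase.1 (h4 h)).1 rfl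
    refine Finset.mem_filter.2 ⟨Finset.mem_powersetCard.2 ⟨?_, ?_⟩,
      Finset.mem_insert_self _ _, ?_⟩
    · intro x hx
      rcases Finset.mem_insert.1 hx with h | h
      · rw [h]; exact hi
      · exact (Finset.mem_erase.1 (Finset.mem_erase.1 (h4 h)).2).2
    · rw [Finset.card_insert_of_notMem hiJ, h5]
    · rw [Finset.mem_insert]
      rintro (h | h)
      · exact hij h.symm
      · exact hjJ h
  · intro I hI
    obtain ⟨h1, h2, h3⟩ := Finset.mem_filter.1 hI
    exact Finset.insert_erase h2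
  · intro J hJ
    obtain ⟨h4, h5⟩ := Finset.mem_powersetCard.1 hJ
    have hiJ : i ∉ J := fun h => (Finset.mem_erase.1 (Finset.mem_erase.1 (h4 h)).2).1 rfl
    exact Finset.erase_insert hiJ
  · intro I _
    rfl

/-- The sum which determines `g` from `p`. -/
noncomputable def Phi (K : Type) [Field K] {A : Type} [DecidableEq A] (w : A) (b : ℕ)
    (Λ : Finset A) (p : Finset A → PX K A 3) : PY K A :=
  ∑ I ∈ Λ.powersetCard b, C (p I * ∏ i ∈ I, cr K i w 0) * ∏ j ∈ Λ \ I, el K w j

theorem phi_half {b : ℕ} {Λ : Finset A} {i j : A} (hi : i ∈ Λ) (hj : j ∈ Λ) (hij : i ≠ j)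
    (p : Finset A → PX K A 3) :
    Phi K w (b + 1) Λ (fun I => if i ∈ I ∧ j ∉ I then p (I.erase i) else 0) =
      C (cr K i w 0) * el K w j * Phi K w b ((Λ.erase i).erase j) p := by
  unfold Phi
  rw [Finset.mul_sum, ← sum_one (b := b) hi hij]
  refine Finset.sum_congr rfl fun I hI => ?_
  beta_reduce
  by_cases h : i ∈ I ∧ j ∉ I
  · rw [if_pos h, if_pos h]
    have h1 : ∏ x ∈ I, cr K x w 0 = cr K i w 0 * ∏ x ∈ I.erase i, cr K x w 0 :=
      (Finset.mul_prod_erase I (fun x => cr K x w 0) h.1).symm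
    have hjm : j ∈ Λ \ I := Finset.mem_sdiff.2 ⟨hj, h.2⟩
    have h2 : ∏ x ∈ Λ \ I, el K w x = el K w j * ∏ x ∈ (Λ \ I).erase j, el K w x :=
      (Finset.mul_prod_erase (Λ \ I) (fun x => el K w x) hjm).symm
    have hset : (Λ \ I).erase j = ((Λ.erase i).erase j) \ (I.erase i) := by
      ext x
      simp only [Finset.mem_erase, Finset.mem_sdiff]
      constructor
      · rintro ⟨h1, h2, h3⟩
        refine ⟨⟨h1, ?_, h2⟩, fun h4 => h3 h4.2⟩
        rintro rfl
        exact h3 h.1
      · rintro ⟨⟨h1, h2, h3⟩, h4⟩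
        exact ⟨h1, h3, fun h5 => h4 ⟨h2, h5⟩⟩
    rw [h1, h2, hset]
    simp only [map_mul]
    ring
  · rw [if_neg h, if_neg h, zero_mul, C_0, zero_mul]

theorem um_eq {i j : A} (p : Finset A → PX K A 3) (I : Finset A) :
    um i j p I = (if i ∈ I ∧ j ∉ I then p (I.erase i) else 0) -
      (if j ∈ I ∧ i ∉ I then p (I.erase j) else 0) := by
  unfold um
  by_cases h : i ∈ I ∧ j ∉ I
  · rw [if_pos h, if_pos h, if_neg (fun h' => h.2 h'.1), sub_zero]
  · rw [if_neg h, if_neg h, zero_sub]
    by_cases h' : j ∈ I ∧ i ∉ I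
    · rw [if_pos h', if_pos h']
    · rw [if_neg h', if_neg h', neg_zero]

theorem phi {b : ℕ} {Λ : Finset A} {p : Finset A → PX K A 3} {g : PY K A}
    (h : WP K w b Λ p g) : Phi K w b Λ p = Z K w ^ b * g := by
  induction h with
  | base Λ c =>
    unfold Phi
    rw [Finset.powersetCard_zero, Finset.sum_singleton]
    beta_reduce
    rw [if_pos rfl, Finset.prod_empty, mul_one,
      Finset.sdiff_empty, pow_zero, one_mul]
  | pair b Λ i j p g hi hj hij _ ih =>
    have h1 : Phi K w (b + 1) Λ (um i j p) =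
        Phi K w (b + 1) Λ (fun I => if i ∈ I ∧ j ∉ I then p (I.erase i) else 0) -
        Phi K w (b + 1) Λ (fun I => if j ∈ I ∧ i ∉ I then p (I.erase j) else 0) := by
      unfold Phi
      rw [← Finset.sum_sub_distrib]
      refine Finset.sum_congr rfl fun I _ => ?_
      rw [um_eq]
      simp only [sub_mul, map_sub]
    rw [h1, phi_half hi hj hij, phi_half hj hi hij.symm, Finset.erase_right_comm (a := j), ih]
    have h2 := Z_br (K := K) w i j
    calc C (cr K i w 0) * el K w j * (Z K w ^ b * g) -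
          C (cr K j w 0) * el K w i * (Z K w ^ b * g)
        = (C (cr K i w 0) * el K w j - C (cr K j w 0) * el K w i) * (Z K w ^ b * g) := by
          rw [sub_mul]
      _ = Z K w * C (br K i j w) * (Z K w ^ b * g) := by rw [h2]
      _ = Z K w ^ (b + 1) * (C (br K i j w) * g) := by
          rw [pow_succ]
          ring
  | add b Λ p p' g g' _ _ ih ih' =>
    rw [mul_add, ← ih, ← ih']
    unfold Phi
    rw [← Finset.sum_add_distrib]
    refine Finset.sum_congr rfl fun I _ => ?_
    simp only [add_mul, map_add]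

theorem uniq {b : ℕ} {Λ : Finset A} {p : Finset A → PX K A 3} {g g' : PY K A}
    (h : WP K w b Λ p g) (h' : WP K w b Λ p g') : g = g' := by
  have h1 : Z K w ^ b * g = Z K w ^ b * g' := by rw [← phi h, ← phi h']
  exact mul_left_cancel₀ (pow_ne_zero _ (Z_ne w)) h1

theorem th_add {b t : ℕ} {Λ : Finset A} {P P' : Finset A → PY K A} {f f' : PX K A 3}
    (h : Th K w b t Λ P f) (h' : Th K w b t Λ P' f') :
    Th K w b t Λ (fun I => P I + P' I) (f + f') := by
  obtain ⟨g, hg, hf⟩ := h
  obtain ⟨g', hg', hf'⟩ := h'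
  refine ⟨fun α => g α + g' α, fun α => ?_, ?_⟩
  · have h1 : (fun I => coeff α (P I + P' I)) = fun I => coeff α (P I) + coeff α (P' I) := by
      funext I
      rw [coeff_add]
    rw [h1]
    exact WP.add b Λ _ _ _ _ (hg α) (hg' α)
  · rw [smul_add, hf, hf', ← Finset.sum_add_distrib]
    refine Finset.sum_congr rfl fun α _ => ?_
    rw [coeff_add, smul_add]

theorem th_uniq [CharZero K] {b t : ℕ} {Λ : Finset A} {P : Finset A → PY K A}
    {f f' : PX K A 3} (h : Th K w b t Λ P f) (h' : Th K w b t Λ P f') : f = f' := by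
  obtain ⟨g, hg, hf⟩ := h
  obtain ⟨g', hg', hf'⟩ := h'
  have h1 : (t.factorial : K) • f = (t.factorial : K) • f' := by
    rw [hf, hf']
    refine Finset.sum_congr rfl fun α _ => ?_
    rw [uniq (hg α) (hg' α)]
  have h2 : (t.factorial : K) ≠ 0 := Nat.cast_ne_zero.2 (Nat.factorial_ne_zero t)
  exact smul_right_injective (PX K A 3) h2 h1

theorem th_zero {b t : ℕ} {Λ : Finset A} (h : 2 * b ≤ Λ.card) :
    Th K w b t Λ (fun _ => (0 : PY K A)) 0 := by
  refine ⟨fun _ => 0, fun α => ?_, ?_⟩
  · have h1 : (fun _ : Finset A => coeff α (0 : PY K A)) = fun _ => (0 : PX K A 3) := by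
      funext I
      exact coeff_zero α
    rw [h1]
    exact zero b Λ h
  · rw [smul_zero]
    refine (Finset.sum_eq_zero fun α _ => ?_).symm
    rw [coeff_zero, smul_zero]

theorem th_sum {b t : ℕ} {Λ : Finset A} (hc : 2 * b ≤ Λ.card) (S : Finset A)
    (P : A → Finset A → PY K A) (f : A → PX K A 3) (h : ∀ x ∈ S, Th K w b t Λ (P x) (f x)) :
    Th K w b t Λ (fun I => ∑ x ∈ S, P x I) (∑ x ∈ S, f x) := by
  induction S using Finset.induction_on with
  | empty =>
    simp only [Finset.sum_empty]
    exact th_zero hc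
  | insert a S ha ih =>
    have h1 := th_add (h a (Finset.mem_insert_self _ _))
      (ih fun x hx => h x (Finset.mem_insert_of_mem hx))
    simp only [Finset.sum_insert ha]
    exact h1

theorem th_pair {b t : ℕ} {Λ : Finset A} {i j : A} {P : Finset A → PY K A} {f : PX K A 3}
    (hi : i ∈ Λ) (hj : j ∈ Λ) (hij : i ≠ j) (h : Th K w b t ((Λ.erase i).erase j) P f) :
    Th K w (b + 1) t Λ (um i j P) (br K i j w * f) := by
  obtain ⟨g, hg, hf⟩ := h
  refine ⟨fun α => C (br K i j w) * g α, fun α => ?_, ?_⟩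
  · have h1 : (fun I => coeff α (um i j P I)) = um i j (fun I => coeff α (P I)) := by
      funext I
      unfold um
      by_cases h : i ∈ I ∧ j ∉ I
      · rw [if_pos h, if_pos h]
      · rw [if_neg h, if_neg h]
        by_cases h' : j ∈ I ∧ i ∉ I
        · rw [if_pos h', if_pos h', coeff_neg]
        · rw [if_neg h', if_neg h', coeff_zero]
    rw [h1]
    exact WP.pair b Λ i j _ _ hi hj hij (hg α)
  · rw [← mul_smul_comm, hf, Finset.mul_sum]
    refine Finset.sum_congr rfl fun α _ => ?_
    rw [coeff_C_mul, mul_smul_comm]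

end UWP

theorem UWP_thm : Stmt_UWP := by
  intro K _ _ A _ _ w
  refine ⟨fun b Λ p g c h => UWP.mul h c, fun b Λ p g h => UWP.spe h,
    fun b Λ p g h => UWP.hom h, fun b Λ h => UWP.zero b Λ h,
    fun b Λ p g g' _ h h' => UWP.uniq h h', fun b t Λ P P' f f' h h' => UWP.th_add h h',
    fun b t Λ P f f' _ h h' => UWP.th_uniq h h',
    fun b t Λ S P f hc h => UWP.th_sum hc S P f h,
    fun b t Λ i j P f hi hj hij h => UWP.th_pair hi hj hij h⟩

end Pool.Agent.VOP
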