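import Pool.Agent.VOP.StmtsU

/-!
# UWS: every Specht element is a symbol (MP_deb8da_ag, block D1 in points)
-/

namespace Pool.Agent.VOP

open MvPolynomial Pool.Agent.VSY

namespace UWS

variable {K : Type} [Field K] {A : Type} [DecidableEq A] {w : A}

theorem insEl {b : ℕ} {Λ : Finset A} {x : A} {p : Finset A → PX K A 3} {g : PY K A}
    (h : WP K w b Λ p g) (hx : x ∉ Λ) : WP K w b (insert x Λ) p (el K w x * g) := by
  induction h with
  | base Λ c =>
    have h1 : (el K w x * (C c * ∏ s ∈ Λ, el K w s) : PY K A) =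
        C c * ∏ s ∈ insert x Λ, el K w s := by
      rw [Finset.prod_insert hx]
      ring
    rw [h1]
    exact WP.base _ c
  | pair b Λ i j p g hi hj hij _ ih =>
    have hxi : x ≠ i := fun h => hx (h ▸ hi)
    have hxj : x ≠ j := fun h => hx (h ▸ hj)
    have hset : insert x ((Λ.erase i).erase j) = ((insert x Λ).erase i).erase j := by
      rw [Finset.erase_insert_of_ne hxi, Finset.erase_insert_of_ne hxj]
    have h1 : (el K w x * (C (br K i j w) * g) : PY K A) = C (br K i j w) * (el K w x * g) := by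
      ring
    rw [h1]
    refine WP.pair b _ i j p _ (Finset.mem_insert_of_mem hi) (Finset.mem_insert_of_mem hj) hij ?_
    rw [← hset]
    exact ih fun h => hx (Finset.mem_of_mem_erase (Finset.mem_of_mem_erase h))
  | add b Λ p p' g g' _ _ ih ih' =>
    rw [mul_add]
    exact WP.add b _ _ _ _ _ (ih hx) (ih' hx)

theorem card2 {Λ : Finset A} {i j : A} (hi : i ∈ Λ) (hj : j ∈ Λ) (hij : i ≠ j) :
    ((Λ.erase i).erase j).card + 2 = Λ.card := by
  have h1 := Finset.card_erase_add_one hi
  have h2 := Finset.card_erase_add_one (Finset.mem_erase.2 ⟨hij.symm, hj⟩ : j ∈ Λ.erase i)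
  omega

theorem sumWP {b : ℕ} {Λ : Finset A} {ι : Type*} (S : Finset ι) (p : ι → Finset A → PX K A 3)
    (g : ι → PY K A) (h0 : WP K w b Λ (fun _ => 0) 0) (h : ∀ j ∈ S, WP K w b Λ (p j) (g j)) :
    WP K w b Λ (fun I => ∑ j ∈ S, p j I) (∑ j ∈ S, g j) := by
  classical
  induction S using Finset.induction_on with
  | empty => simpa using h0
  | insert a S ha ih =>
    have h1 := WP.add b Λ _ _ _ _ (h a (Finset.mem_insert_self a S))
      (ih fun j hj => h j (Finset.mem_insert_of_mem hj))
    have h2 : (fun I => ∑ j ∈ insert a S, p j I) = fun I => p a I + ∑ j ∈ S, p j I := by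
      funext I
      rw [Finset.sum_insert ha]
    rw [h2, Finset.sum_insert ha]
    exact h1

theorem lift {c : ℕ} {Γ : Finset A} {p : Finset A → PX K A 3} {g : PY K A}
    (hz : ∀ (b : ℕ) (Λ : Finset A), 2 * b ≤ Λ.card → WP K w b Λ (fun _ => 0) 0)
    (h : WP K w c Γ p g) : ∀ x : A, x ∉ Γ → 2 * c < Γ.card →
    ∃ (p' : Finset A → PX K A 3) (g' : PY K A), WP K w (c + 1) (insert x Γ) p' g' ∧
      ∀ I, x ∈ I → p' I = (((Γ.card - 2 * c : ℕ) : K)) • p (I.erase x) := by
  induction h with
  | base Γ c₀ =>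
    intro x hx hc
    have hc2 : 2 * (0 + 1) ≤ (insert x Γ).card := by
      rw [Finset.card_insert_of_notMem hx]
      omega
    refine ⟨_, _, sumWP Γ
      (fun j => um x j (fun I : Finset A => if I = ∅ then c₀ else 0))
      (fun j => C (br K x j w) * (C c₀ * ∏ s ∈ ((insert x Γ).erase x).erase j, el K w s))
      (hz _ _ hc2) (fun j hj => WP.pair 0 _ x j _ _ (Finset.mem_insert_self x Γ)
        (Finset.mem_insert_of_mem hj) (fun h => hx (h ▸ hj)) (WP.base _ c₀)), ?_⟩
    intro I hI
    have h1 : ∀ j ∈ Γ, um x j (fun I : Finset A => if I = ∅ then c₀ else 0) I =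
        if I.erase x = ∅ then c₀ else 0 := by
      intro j hj
      have hxj : j ≠ x := fun h => hx (h ▸ hj)
      unfold um
      by_cases hjI : j ∈ I
      · have h2 : I.erase x ≠ ∅ := by
          intro h3
          have : j ∈ I.erase x := Finset.mem_erase.2 ⟨hxj, hjI⟩
          rw [h3] at this
          exact absurd this (Finset.notMem_empty j)
        rw [if_neg (fun h => h.2 hjI), if_neg (fun h => h.2 hI), if_neg h2]
      · rw [if_pos ⟨hI, hjI⟩]
    show ∑ j ∈ Γ, um x j (fun I : Finset A => if I = ∅ then c₀ else 0) I = _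
    rw [Finset.sum_congr rfl h1, Finset.sum_const, ← Nat.cast_smul_eq_nsmul K, Nat.mul_zero,
      Nat.sub_zero]
  | pair b Γ i j p g hi hj hij _ ih =>
    intro x hx hc
    have hxi : x ≠ i := fun h => hx (h ▸ hi)
    have hxj : x ≠ j := fun h => hx (h ▸ hj)
    have hcard := card2 hi hj hij
    obtain ⟨p', g', h1, h2⟩ := ih x
      (fun h => hx (Finset.mem_of_mem_erase (Finset.mem_of_mem_erase h))) (by omega)
    have hset : insert x ((Γ.erase i).erase j) = ((insert x Γ).erase i).erase j := by
      rw [Finset.erase_insert_of_ne hxi, Finset.erase_insert_of_ne hxj]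
    rw [hset] at h1
    refine ⟨_, _, WP.pair (b + 1) _ i j p' g' (Finset.mem_insert_of_mem hi)
      (Finset.mem_insert_of_mem hj) hij h1, ?_⟩
    intro I hI
    have hn : ((Γ.erase i).erase j).card - 2 * b = Γ.card - 2 * (b + 1) := by omega
    rw [hn] at h2
    have e1 : i ∈ I.erase x ↔ i ∈ I := by
      rw [Finset.mem_erase]
      exact ⟨fun h => h.2, fun h => ⟨hxi.symm, h⟩⟩
    have e2 : j ∈ I.erase x ↔ j ∈ I := by
      rw [Finset.mem_erase]
      exact ⟨fun h => h.2, fun h => ⟨hxj.symm, h⟩⟩
    unfold um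
    by_cases h3 : i ∈ I ∧ j ∉ I
    · have h3' : i ∈ I.erase x ∧ j ∉ I.erase x := ⟨e1.2 h3.1, fun h => h3.2 (e2.1 h)⟩
      rw [if_pos h3, if_pos h3', h2 _ (Finset.mem_erase.2 ⟨hxi, hI⟩), Finset.erase_right_comm]
    · have h3' : ¬(i ∈ I.erase x ∧ j ∉ I.erase x) :=
        fun h => h3 ⟨e1.1 h.1, fun h' => h.2 (e2.2 h')⟩
      rw [if_neg h3, if_neg h3']
      by_cases h4 : j ∈ I ∧ i ∉ I
      · have h4' : j ∈ I.erase x ∧ i ∉ I.erase x := ⟨e2.2 h4.1, fun h => h4.2 (e1.1 h)⟩
        rw [if_pos h4, if_pos h4', h2 _ (Finset.mem_erase.2 ⟨hxj, hI⟩), Finset.erase_right_comm,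
          smul_neg]
      · have h4' : ¬(j ∈ I.erase x ∧ i ∉ I.erase x) :=
          fun h => h4 ⟨e2.1 h.1, fun h' => h.2 (e1.2 h')⟩
        rw [if_neg h4, if_neg h4', smul_zero]
  | add b Γ p p' g g' _ _ ih ih' =>
    intro x hx hc
    obtain ⟨p₁, g₁, h1, h2⟩ := ih x hx hc
    obtain ⟨p₂, g₂, h3, h4⟩ := ih' x hx hc
    refine ⟨_, _, WP.add _ _ _ _ _ _ h1 h3, ?_⟩
    intro I hI
    show p₁ I + p₂ I = _
    rw [h2 I hI, h4 I hI, smul_add]

theorem main [CharZero K] (h1 : Stmt_UGOT)
    (hspe : ∀ (b : ℕ) (Λ : Finset A) (p : Finset A → PX K A 3) (g : PY K A),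
      WP K w b Λ p g → Spe Λ b p)
    (hmul : ∀ (b : ℕ) (Λ : Finset A) (p : Finset A → PX K A 3) (g : PY K A) (c : PX K A 3),
      WP K w b Λ p g → WP K w b Λ (fun I => c * p I) (C c * g))
    (hz : ∀ (b : ℕ) (Λ : Finset A), 2 * b ≤ Λ.card → WP K w b Λ (fun _ => 0) 0) :
    ∀ (n : ℕ) (Λ : Finset A), Λ.card = n → ∀ (b : ℕ) (p : Finset A → PX K A 3),
      2 * b ≤ Λ.card → Spe Λ b p → ∃ g, WP K w b Λ p g := by
  intro n
  induction n with
  | zero =>
    intro Λ hΛ b p hb hp
    have hb0 : b = 0 := by omega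
    subst hb0
    refine ⟨C (p ∅) * ∏ s ∈ Λ, el K w s, ?_⟩
    have h2 : p = fun I => if I = ∅ then p ∅ else 0 := by
      funext I
      by_cases hI : I = ∅
      · rw [if_pos hI, hI]
      · rw [if_neg hI]
        by_contra h3
        exact hI (Finset.card_eq_zero.1 (hp.supp I h3).2)
    rw [h2]
    simpa using WP.base (w := w) Λ (p ∅)
  | succ n ih =>
    intro Λ hΛ b p hb hp
    rcases Nat.eq_zero_or_pos b with hb0 | hb0
    · subst hb0
      refine ⟨C (p ∅) * ∏ s ∈ Λ, el K w s, ?_⟩
      have h2 : p = fun I => if I = ∅ then p ∅ else 0 := by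
        funext I
        by_cases hI : I = ∅
        · rw [if_pos hI, hI]
        · rw [if_neg hI]
          by_contra h3
          exact hI (Finset.card_eq_zero.1 (hp.supp I h3).2)
      rw [h2]
      simpa using WP.base (w := w) Λ (p ∅)
    · obtain ⟨c, rfl⟩ : ∃ c, b = c + 1 := ⟨b - 1, by omega⟩
      obtain ⟨x, hx⟩ : Λ.Nonempty := Finset.card_pos.1 (by omega)
      have hΓ : (Λ.erase x).card = n := by
        have := Finset.card_erase_add_one hx
        omega
      have hxΓ : x ∉ Λ.erase x := Finset.notMem_erase x Λ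
      have hins : insert x (Λ.erase x) = Λ := Finset.insert_erase hx
      set p₁ : Finset A → PX K A 3 := fun I => if x ∈ I then 0 else p (insert x I) with hp₁
      have hp1 : Spe (Λ.erase x) c p₁ := by
        constructor
        · intro I hI
          rw [hp₁] at hI
          by_cases hxI : x ∈ I
          · simp only [hxI, if_true] at hI
            exact absurd rfl hI
          · simp only [hxI, if_false] at hI
            obtain ⟨h2, h3⟩ := hp.supp _ hI
            rw [Finset.card_insert_of_notMem hxI] at h3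
            refine ⟨fun y hy => Finset.mem_erase.2 ⟨?_, h2 (Finset.mem_insert_of_mem hy)⟩, by omega⟩
            rintro rfl
            exact hxI hy
        · intro I hI hc
          have hxI : x ∉ I := fun h => hxΓ (hI h)
          have h2 := hp.sum (insert x I)
            (Finset.insert_subset hx (hI.trans (Finset.erase_subset _ _)))
            (by rw [Finset.card_insert_of_notMem hxI, hc])
          have hset : Λ \ insert x I = (Λ.erase x) \ I := by
            ext y
            simp only [Finset.mem_sdiff, Finset.mem_insert, Finset.mem_erase]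
            tauto
          rw [hset] at h2
          rw [← h2]
          refine Finset.sum_congr rfl fun y hy => ?_
          have hy1 := (Finset.mem_erase.1 (Finset.mem_sdiff.1 hy).1).1
          have hxy : x ∉ insert y I := by
            rw [Finset.mem_insert]
            rintro (h3 | h3)
            · exact hy1 h3.symm
            · exact hxI h3
          simp only [hp₁, hxy, if_false]
          rw [Finset.insert_comm]
      obtain ⟨g₁, hg₁⟩ := ih (Λ.erase x) hΓ c p₁ (by omega) hp1
      obtain ⟨p₂, g₂, hg₂, hp₂⟩ := lift hz hg₁ x hxΓ (by omega)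
      rw [hins] at hg₂
      set m : K := (((Λ.erase x).card - 2 * c : ℕ) : K) with hm
      have hm0 : m ≠ 0 := by
        rw [hm, Nat.cast_ne_zero]
        omega
      set p₃ : Finset A → PX K A 3 := fun I => p I - m⁻¹ • p₂ I with hp₃
      have hS2 := hspe _ _ _ _ hg₂
      have hx3 : ∀ I, x ∈ I → p₃ I = 0 := by
        intro I hI
        show p I - m⁻¹ • p₂ I = 0
        rw [hp₂ I hI, smul_smul, inv_mul_cancel₀ hm0, one_smul]
        have h2 : p₁ (I.erase x) = p I := by
          simp only [hp₁, Finset.notMem_erase, if_false]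
          rw [Finset.insert_erase hI]
        rw [h2, sub_self]
      have hp3 : Spe (Λ.erase x) (c + 1) p₃ := by
        constructor
        · intro I hI
          have hxI : x ∉ I := fun h => hI (hx3 I h)
          have h2 : I ⊆ Λ ∧ I.card = c + 1 := by
            by_cases h3 : p I = 0
            · refine hS2.supp I fun h4 => hI ?_
              show p I - m⁻¹ • p₂ I = 0
              rw [h3, h4, smul_zero, sub_zero]
            · exact hp.supp I h3
          refine ⟨fun y hy => Finset.mem_erase.2 ⟨?_, h2.1 hy⟩, h2.2⟩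
          rintro rfl
          exact hxI hy
        · intro I hI hc
          have hxI : x ∉ I := fun h => hxΓ (hI h)
          have hIΛ : I ⊆ Λ := hI.trans (Finset.erase_subset _ _)
          have h2 : ∑ i ∈ Λ \ I, p₃ (insert i I) = 0 := by
            show ∑ i ∈ Λ \ I, (p (insert i I) - m⁻¹ • p₂ (insert i I)) = 0
            rw [Finset.sum_sub_distrib, ← Finset.smul_sum, hp.sum I hIΛ hc, hS2.sum I hIΛ hc,
              smul_zero, sub_zero]
          have hxm : x ∈ Λ \ I := Finset.mem_sdiff.2 ⟨hx, hxI⟩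
          have h4 := Finset.add_sum_erase (Λ \ I) (fun i => p₃ (insert i I)) hxm
          rw [h2] at h4
          have h5 : p₃ (insert x I) = 0 := hx3 _ (Finset.mem_insert_self x I)
          have hset : (Λ \ I).erase x = (Λ.erase x) \ I := by
            ext y
            simp only [Finset.mem_sdiff, Finset.mem_erase]
            tauto
          rw [hset] at h4
          simp only [h5, zero_add] at h4
          exact h4
      have h3 : ∃ g₃, WP K w (c + 1) Λ p₃ g₃ := by
        by_cases hc : 2 * (c + 1) ≤ (Λ.erase x).card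
        · obtain ⟨g₃, hg₃⟩ := ih (Λ.erase x) hΓ (c + 1) p₃ hc hp3
          refine ⟨el K w x * g₃, ?_⟩
          have := insEl hg₃ hxΓ
          rwa [hins] at this
        · refine ⟨0, ?_⟩
          have h4 := (h1 K A (PX K A 3) (Λ.erase x) (c + 1)).2 (by omega) p₃ hp3
          have h5 : p₃ = fun _ => 0 := funext h4
          rw [h5]
          exact hz _ _ hb
      obtain ⟨g₃, hg₃⟩ := h3
      have h4 := WP.add _ _ _ _ _ _ (hmul _ _ _ _ (C m⁻¹) hg₂) hg₃
      have h5 : (fun I => C m⁻¹ * p₂ I + p₃ I) = p := by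
        funext I
        show C m⁻¹ * p₂ I + (p I - m⁻¹ • p₂ I) = p I
        rw [MvPolynomial.smul_eq_C_mul]
        ring
      rw [h5] at h4
      exact ⟨_, h4⟩

end UWS

theorem UWS_thm (h1 : Stmt_UWP) (h2 : Stmt_UGOT) : Stmt_UWS := by
  intro K _ _ A _ _ w
  obtain ⟨u1, u2, -, u4, -⟩ := h1 K A w
  have key : ∀ (b : ℕ) (Λ : Finset A) (p : Finset A → PX K A 3), 2 * b ≤ Λ.card → Spe Λ b p →
      ∃ g, WP K w b Λ p g := fun b Λ p hb hp => UWS.main h2 u2 u1 u4 Λ.card Λ rfl b p hb hp
  refine ⟨key, ?_, fun b Λ x p g hx h => UWS.insEl h hx⟩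
  intro b t Λ P hb hP
  have hα : ∀ α : Fin 3 →₀ ℕ, Spe Λ b (fun I => coeff α (P I)) := by
    intro α
    constructor
    · intro I hI
      refine hP.supp I fun h => hI ?_
      show coeff α (P I) = 0
      rw [h, coeff_zero]
    · intro I hI hc
      have := hP.sum I hI hc
      rw [← coeff_sum, this, coeff_zero]
  choose g hg using fun α => key b Λ _ hb (hα α)
  refine ⟨((t.factorial : K))⁻¹ • ∑ α ∈ (Finset.univ : Finset (Fin 3)).finsuppAntidiag t,
      ((∏ i, (α i).factorial : ℕ) : K) • coeff α (g α), g, hg, ?_⟩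
  rw [smul_smul, mul_inv_cancel₀ (Nat.cast_ne_zero.2 (Nat.factorial_ne_zero t)), one_smul]

end Pool.Agent.VOP
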