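import Pool.Agent.VOP.UKX
import Pool.Agent.VOP.UGOT
import Pool.Agent.VOP.UCB
import Pool.Agent.VOP.UWP
import Pool.Agent.VOP.UWS
import Pool.Agent.VOP.URP
import Pool.Agent.VOP.UTX
import Pool.Agent.VOP.UEV
import Pool.Agent.VOP.USB
import Pool.Agent.VOP.CRV
import Pool.Agent.VOP.CRX
import Pool.Agent.VOP.EXT
import Pool.Agent.VOP.GEN
import Pool.Agent.VOP.STAR
import Pool.Agent.VOP.PDV
import Pool.Agent.VOP.PV2
import Pool.Agent.VOP.P1B
import Pool.Agent.VOP.P1L
import Pool.Agent.VOP.LNV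
import Pool.Agent.VOP.D1F
import Pool.Agent.VOP.LNA
import Pool.Agent.VOP.LNB
import Pool.Agent.VOP.LNF
import Pool.Agent.VOP.UPL
import Pool.Agent.VOP.HVA
import Pool.Agent.VOP.HVT

/-!
# Theorem D1 and the first row bound (MP_deb8da_ag): assembly of block D1
-/

namespace Pool.Agent.VOP

theorem usb : Stmt_USB :=
  USB_thm (UCB_thm UKX_thm UGOT_thm) UWP_thm (URP_thm UWP_thm)
    (UTX_thm UWP_thm (UWS_thm UWP_thm UGOT_thm)) (UEV_thm UWP_thm)

theorem star : Stmt_STAR := STAR_thm (GEN_thm CRV_thm CRX_thm EXT_thm) usb EXT_thm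

/-- Theorem D1: a family which is glueable on the lines is glueable. -/
theorem d1f : Stmt_D1F := D1F_thm star (LNV_thm (PDV_thm CRV_thm))

theorem hva : Stmt_HVA :=
  HVA_thm (LNF_thm (LNA_thm (P1L_thm (PDV_thm CRV_thm) PV2_thm (P1B_thm (PDV_thm CRV_thm))))
    LNB_thm) UPL_thm d1f

/-- Highest weight cycles of small weight are boundaries. -/
theorem hvt : Stmt_HVT := HVT_thm hva

end Pool.Agent.VOP
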