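import Pool.Agent.VOP.Defs

/-!
# The Ottaviani-Paoletti conjecture (MP_deb8da_ag): the interface statements of the blocks
-/

namespace Pool.Agent.VOP

open MvPolynomial Pool.Agent.VSY

/-- Block L: vanishing with parameters and symmetries. -/
def Stmt_PV : Prop :=
  ∀ (K : Type) [Field K] [CharZero K] (v d p e : ℕ), 1 ≤ d → Van K v d p (e + d) → PV K v d p e

/-- Block L: `(LIFT)`, from the vanishing for letters of degree `N` (for all levels `≥ m - 1 + N`)
and the vanishing for letters of degree `d`.  See PAPER.md, section 5. -/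
def Stmt_LIFTM : Prop :=
  ∀ (K : Type) [Field K] [CharZero K] (v N d s l e m : ℕ), 1 ≤ v → 1 ≤ N → 1 ≤ d → 1 ≤ m →
    m ≤ e →
    (∀ p' e', p' < s → m ≤ e' + 1 → Van K v N p' (e' + N)) →
    (∀ p' q, p' + q + 1 = l → Van K v d p' (e - m + d + q * (d - 1))) →
    LIFT K v N d s l e

/-- Block H: families with `κ ≤ e + 1` letters are glueable. -/
def Stmt_HG0 : Prop :=
  ∀ (K : Type) [Field K] [LinearOrder K] [IsStrictOrderedRing K] (v N κ e D : ℕ), 1 ≤ N →
    κ ≤ e + 1 → HG K v N κ e D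

/-- Block H: the step. -/
def Stmt_HGS : Prop :=
  ∀ (K : Type) [Field K] [LinearOrder K] [IsStrictOrderedRing K] (v N κ e D : ℕ), 1 ≤ N →
    1 ≤ e →
    (∀ ρ, 1 ≤ ρ → ρ ≤ v → κ * N + e ≤ ρ * D →
      (ρ ≤ κ → HG K v N (κ - ρ) e (D - 1)) ∧ (ρ ≤ κ + 1 → HG K v N (κ + 1 - ρ) (e - 1) (D - 1))) →
    HG K v N κ e D

/-- Block H: highest weight bicycles of small weight are symmetric products. -/
def Stmt_N4 : Prop :=
  ∀ (K : Type) [Field K] [CharZero K] (v M β D : ℕ) (A : Type) [Fintype A] [DecidableEq A]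
    (T S C : Finset A) (w a : A) (ν : Fin v → ℕ) (m : PX K A v), Cf T S C w →
    a ∉ T → a ∉ S → a ∉ C → a ≠ w →
    HG K v (M + 1) (T.card + 1 + S.card + C.card) (M + 1 + β) D →
    Zc M T S C w (2 * M + 2 + β) m → HasW ν m → (∀ i j : Fin v, i < j → Eij i j m = 0) →
    (∀ j, ν j ≤ D) →
    ∃ η : PX K A v, Zc M (insert a T) S C w (M + 1 + β) η ∧ ren (mv a w) η = m

/-- Block T: from `v - 1` to `v` variables. -/
def Stmt_TRS : Prop :=
  ∀ (K : Type) [Field K] [CharZero K] (v M β p : ℕ), 1 ≤ v →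
    Van K v (M + 2) p (2 * M + 3 + β) →
    (v + 1 ≤ p + 1 → PP K (v + 1) M β v (p - v)) →
    (v + 1 ≤ p → Van K (v + 1) (M + 2) (p - (v + 1)) (2 * M + 3 + β)) →
    Van K (v + 1) (M + 2) p (2 * M + 3 + β)

/-- The main theorem: `PP(v, t, j)` from the inductive hypotheses.  `P N` is the bound. -/
def Stmt_PPM : Prop :=
  ∀ (K : Type) [Field K] [LinearOrder K] [IsStrictOrderedRing K] (v M β t j : ℕ), 1 ≤ v →
    -- `K^{(N)}_s[R - 1] = 0` for `s ≤ j`
    (∀ s ≤ j, Van K v (M + 1) s (2 * M + 1 + β)) →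
    -- `(LIFT)`
    (∀ s l, s + l ≤ j → LIFT K v (M + 1) (M + 2) s l (2 * M + 1 + β)) →
    -- highest weight gluing, `κ = k + g + l`, `D = 2 j - l + t + 1 - κ`
    (∀ k g l, 1 ≤ k → k ≤ t + 1 → g + l ≤ j →
      HG K v (M + 1) (k + g + l) (M + 1 + β) (t + 1 - k + (j - l - g) + (j - l))) →
    (j = 0 ∨ PP K v M β (t + 1) (j - 1)) →
    PP K v M β t j

/-- Numbers: highest weight gluing for `β = 0` and `β = 1`. -/
def Stmt_NUM : Prop :=
  ∀ (K : Type) [Field K] [LinearOrder K] [IsStrictOrderedRing K] (v M β t j k g l : ℕ),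
    β ≤ 1 → 2 + β ≤ t → t + j ≤ (2 + β) * (M + 1) → v ≤ t + 1 → 1 ≤ k → k ≤ t + 1 → g + l ≤ j →
    HG K v (M + 1) (k + g + l) (M + 1 + β) (t + 1 - k + (j - l - g) + (j - l))

/-- The vanishing theorem over an ordered field. -/
def Stmt_VTH : Prop :=
  ∀ (K : Type) [Field K] [LinearOrder K] [IsStrictOrderedRing K] (v M p : ℕ),
    (p ≤ 2 * (M + 1) → Van K v (M + 2) p (2 * M + 3)) ∧
    (p ≤ 3 * (M + 1) → Van K v (M + 2) p (2 * M + 4))

/-- Base change from `ℚ`. -/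
def Stmt_BC : Prop :=
  ∀ (K : Type) [Field K] [CharZero K] (v d p r : ℕ), Van ℚ v d p r → Van K v d p r

end Pool.Agent.VOP
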