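import Mathlib

/-!
# Generic linear forms (MP_deb8da_ag, the elementary proof of D1)

`a_l = ∑ i, p_{l,i} y_i` for letters `l` and variables `y_0, …, y_{n-1}`.
`K0`: the ideal of the `a_l`, `l ∈ C`, contains every polynomial which vanishes at all points
where these `a_l` vanish.
`K1`: syzygies of the `a_l` with coefficients in the ideal `(y_0, …, y_{n-1})` are Koszul.
-/

set_option autoImplicit false

namespace Pool.Agent.VOP.KK

open MvPolynomial

set_option linter.unusedSectionVars false

variable {K : Type} [Field K] {V I : Type} [DecidableEq V] [DecidableEq I]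

/-- The variables `p l i`, `y i` are different. -/
structure Gen {n : ℕ} (p : I → Fin n → V) (y : Fin n → V) : Prop where
  pp : ∀ l i l' i', p l i = p l' i' → l = l' ∧ i = i'
  yy : ∀ i j, y i = y j → i = j
  py : ∀ l i j, p l i ≠ y j

/-- The linear form `a_l`. -/
noncomputable def aF (K : Type) [Field K] {n : ℕ} (p : I → Fin n → V) (y : Fin n → V) (l : I) :
    MvPolynomial V K := ∑ i, X (p l i) * X (y i)

/-- The ideal of the variables `y`. -/
noncomputable def Yid (K : Type) [Field K] {n : ℕ} (y : Fin n → V) : Ideal (MvPolynomial V K) :=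
  Ideal.span (Set.range fun i => X (y i))

/-- `K0`. -/
def K0 (K : Type) [Field K] (V I : Type) [DecidableEq V] [DecidableEq I] (n : ℕ) : Prop :=
  ∀ (p : I → Fin n → V) (y : Fin n → V), Gen p y → ∀ (C : Finset I) (P : MvPolynomial V K),
    (∀ z : V → K, (∀ l ∈ C, ∑ i, z (p l i) * z (y i) = 0) → eval z P = 0) →
    ∃ c : I → MvPolynomial V K, P = ∑ l ∈ C, aF K p y l * c l

/-- `K1`. -/
def K1 (K : Type) [Field K] (V I : Type) [DecidableEq V] [DecidableEq I] (n : ℕ) : Prop :=
  ∀ (p : I → Fin n → V) (y : Fin n → V), Gen p y → ∀ (C : Finset I) (h : I → MvPolynomial V K),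
    (∀ l ∈ C, h l ∈ Yid K y) → ∑ l ∈ C, aF K p y l * h l = 0 →
    ∃ c : I → I → MvPolynomial V K, (∀ l l', c l l' = -c l' l) ∧ (∀ l, c l l = 0) ∧
      ∀ l ∈ C, h l = ∑ l' ∈ C, aF K p y l' * c l l'

theorem eval_aF {n : ℕ} (p : I → Fin n → V) (y : Fin n → V) (l : I) (z : V → K) :
    eval z (aF K p y l) = ∑ i, z (p l i) * z (y i) := by
  simp [aF]

theorem aF_mem {n : ℕ} (p : I → Fin n → V) (y : Fin n → V) (l : I) : aF K p y l ∈ Yid K y := by
  refine Ideal.sum_mem _ fun i _ => Ideal.mul_mem_left _ _ (Ideal.subset_span ⟨i, rfl⟩)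

/-- `K1` from `K0`. -/
theorem K1_of_K0 {n : ℕ} (h0 : K0 K V I n) : K1 K V I n := by
  intro p y hg C
  induction C using Finset.induction_on with
  | empty =>
    intro h _ _
    exact ⟨fun _ _ => 0, by simp, by simp, by simp⟩
  | @insert m C hm ih =>
    intro h hY hsum
    rw [Finset.sum_insert hm] at hsum
    -- `h m` vanishes where the other forms vanish
    obtain ⟨c0, hc0⟩ := h0 p y hg C (h m) (by
      intro z hz
      by_cases hy : ∀ i, z (y i) = 0
      · have : Yid K y ≤ RingHom.ker (eval z) := by
          rw [Yid, Ideal.span_le]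
          rintro _ ⟨i, rfl⟩
          simp [RingHom.mem_ker, hy i]
        exact this (hY m (Finset.mem_insert_self m C))
      · push Not at hy
        obtain ⟨i, hi⟩ := hy
        let φ : MvPolynomial V K →ₐ[K] Polynomial K :=
          aeval fun v => Polynomial.C (z v) + if v = p m i then Polynomial.X else 0
        have hφy : ∀ j, φ (X (y j)) = Polynomial.C (z (y j)) := by
          intro j
          have : y j ≠ p m i := fun h => hg.py m i j h.symm
          simp [φ, this]
        have hφa : ∀ l ∈ C, φ (aF K p y l) = 0 := by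
          intro l hl
          have hne : ∀ j, p l j ≠ p m i := by
            intro j hj
            exact hm ((hg.pp _ _ _ _ hj).1 ▸ hl)
          have : φ (aF K p y l) = Polynomial.C (∑ j, z (p l j) * z (y j)) := by
            rw [aF, map_sum, map_sum]
            refine Finset.sum_congr rfl fun j _ => ?_
            rw [map_mul, hφy, map_mul]
            congr 1
            simp [φ, hne j]
          rw [this, hz l hl, map_zero]
        have hφm : φ (aF K p y m) =
            Polynomial.C (∑ j, z (p m j) * z (y j)) + Polynomial.C (z (y i)) * Polynomial.X := by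
          rw [aF, map_sum, map_sum]
          have : ∀ j, φ (X (p m j) * X (y j)) = Polynomial.C (z (p m j) * z (y j)) +
              if j = i then Polynomial.C (z (y i)) * Polynomial.X else 0 := by
            intro j
            rw [map_mul, hφy]
            by_cases hj : j = i
            · subst hj
              simp [φ]
              ring
            · have : p m j ≠ p m i := fun h => hj (hg.pp _ _ _ _ h).2
              simp [φ, this, hj]
          simp_rw [this]
          rw [Finset.sum_add_distrib]
          simp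
        have hne : φ (aF K p y m) ≠ 0 := by
          rw [hφm]
          intro h
          have := congrArg (fun q => Polynomial.coeff q 1) h
          simp [Polynomial.coeff_C] at this
          exact hi this
        have hprod : φ (aF K p y m) * φ (h m) = 0 := by
          have := congrArg φ hsum
          rw [map_add, map_sum, map_zero, map_mul, Finset.sum_eq_zero, add_zero] at this
          · exact this
          · intro l hl
            rw [map_mul, hφa l hl, zero_mul]
        have hz0 := (mul_eq_zero.1 hprod).resolve_left hne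
        have := congrArg (Polynomial.eval 0) hz0
        rw [Polynomial.eval_zero] at this
        rw [← this]
        have hcomp : ∀ q : MvPolynomial V K, Polynomial.eval 0 (φ q) = eval z q := by
          intro q
          induction q using MvPolynomial.induction_on with
          | C a => simp [φ]
          | add q r hq hr => rw [map_add, Polynomial.eval_add, hq, hr, map_add]
          | mul_X q v hq =>
            rw [map_mul, Polynomial.eval_mul, hq, map_mul]
            congr 1
            simp only [φ, aeval_X, eval_X, Polynomial.eval_add, Polynomial.eval_C]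
            split_ifs <;> simp
        exact (hcomp _).symm)
    obtain ⟨c, hc1, hc2, hc3⟩ := ih (fun l => h l + aF K p y m * c0 l) (by
      intro l hl
      exact add_mem (hY l (Finset.mem_insert_of_mem hl))
        (Ideal.mul_mem_right _ _ (aF_mem p y m))) (by
      have : ∑ l ∈ C, aF K p y l * (h l + aF K p y m * c0 l) =
          aF K p y m * (∑ l ∈ C, aF K p y l * c0 l) + ∑ l ∈ C, aF K p y l * h l := by
        rw [Finset.mul_sum, ← Finset.sum_add_distrib]
        exact Finset.sum_congr rfl fun l _ => by ring
      rw [this, ← hc0]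
      exact hsum)
    refine ⟨fun l l' => if l = m then (if l' = m then 0 else c0 l') else
      if l' = m then -c0 l else c l l', ?_, ?_, ?_⟩
    · intro l l'
      by_cases h1 : l = m <;> by_cases h2 : l' = m
      · simp [h1, h2]
      · simp [h1, h2]
      · simp [h1, h2]
      · simp only [h1, h2, if_false]
        exact hc1 l l'
    · intro l
      by_cases h1 : l = m
      · simp [h1]
      · simp [h1, hc2]
    · intro l hl
      beta_reduce
      rw [Finset.sum_insert hm]
      rcases Finset.mem_insert.1 hl with rfl | hl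
      · rw [if_pos rfl, if_pos rfl, mul_zero, zero_add, hc0]
        refine Finset.sum_congr rfl fun l' hl' => ?_
        have : l' ≠ l := fun h => hm (h ▸ hl')
        rw [if_pos rfl, if_neg this]
      · have hlm : l ≠ m := fun h => hm (h ▸ hl)
        rw [if_neg hlm, if_pos rfl]
        have h3 := hc3 l hl
        have h4 : ∑ l' ∈ C, aF K p y l' * (if l = m then (if l' = m then 0 else c0 l') else
            if l' = m then -c0 l else c l l') = ∑ l' ∈ C, aF K p y l' * c l l' := by
          refine Finset.sum_congr rfl fun l' hl' => ?_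
          have : l' ≠ m := fun h => hm (h ▸ hl')
          rw [if_neg hlm, if_neg this]
        rw [h4, ← h3]
        ring

/-- Substitution of `0` for the variables in `S`. -/
noncomputable def rho (K : Type) [Field K] (S : V → Prop) [DecidablePred S] :
    MvPolynomial V K →ₐ[K] MvPolynomial V K := aeval fun v => if S v then 0 else X v

theorem rho_X (S : V → Prop) [DecidablePred S] (v : V) :
    rho K S (X v) = if S v then 0 else X v := by
  simp [rho]

/-- `P` is congruent to `rho P` modulo the variables which are set to `0`. -/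
theorem sub_rho_mem (S : V → Prop) [DecidablePred S] (P : MvPolynomial V K) :
    P - rho K S P ∈ Ideal.span (X '' {v | S v} : Set (MvPolynomial V K)) := by
  induction P using MvPolynomial.induction_on with
  | C a => simp [rho]
  | add p q hp hq =>
    have : p + q - rho K S (p + q) = (p - rho K S p) + (q - rho K S q) := by
      rw [map_add]
      ring
    rw [this]
    exact add_mem hp hq
  | mul_X p v hp =>
    rw [map_mul, rho_X]
    by_cases hv : S v
    · rw [if_pos hv, mul_zero, sub_zero]
      exact Ideal.mul_mem_left _ _ (Ideal.subset_span ⟨v, hv, rfl⟩)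
    · rw [if_neg hv, ← sub_mul]
      exact Ideal.mul_mem_right _ _ hp

theorem rho_rho (S : V → Prop) [DecidablePred S] (P : MvPolynomial V K) :
    rho K S (rho K S P) = rho K S P := by
  induction P using MvPolynomial.induction_on with
  | C a => simp [rho]
  | add p q hp hq => rw [map_add, map_add, hp, hq]
  | mul_X p v hp =>
    rw [map_mul, map_mul, hp, rho_X]
    by_cases hv : S v
    · simp [hv]
    · simp [hv, rho_X]

theorem eval_rho (S : V → Prop) [DecidablePred S] (z : V → K) (P : MvPolynomial V K) :
    eval z (rho K S P) = eval (fun v => if S v then 0 else z v) P := by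
  induction P using MvPolynomial.induction_on with
  | C a => simp [rho]
  | add p q hp hq => rw [map_add, map_add, hp, hq, map_add]
  | mul_X p v hp =>
    rw [map_mul, map_mul, hp, rho_X, map_mul]
    by_cases hv : S v
    · simp [hv]
    · simp [hv]

/-- Setting the variables `y` to `0` kills the ideal `Yid`. -/
theorem rho_Y {n : ℕ} (y : Fin n → V) {P : MvPolynomial V K} (hP : P ∈ Yid K y) :
    rho K (fun v => ∃ i, v = y i) P = 0 := by
  have : Yid K y ≤ RingHom.ker (rho K (fun v => ∃ i, v = y i)) := by
    rw [Yid, Ideal.span_le]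
    rintro _ ⟨i, rfl⟩
    simp [RingHom.mem_ker, rho_X]
  exact this hP

theorem sub_rho_Y {n : ℕ} (y : Fin n → V) (P : MvPolynomial V K) :
    P - rho K (fun v => ∃ i, v = y i) P ∈ Yid K y := by
  have h := sub_rho_mem (fun v => ∃ i, v = y i) P
  refine (Ideal.span_le.2 ?_ : _ ≤ Yid K y) h
  rintro _ ⟨v, ⟨i, rfl⟩, rfl⟩
  exact Ideal.subset_span ⟨i, rfl⟩

/-- A polynomial in `Y²` whose part of degree at most one is known. -/
theorem lin_zero {n : ℕ} {y : Fin n → V} (hy : ∀ i j, y i = y j → i = j)
    (b : Fin n → MvPolynomial V K) (hb : ∀ i, rho K (fun v => ∃ i, v = y i) (b i) = b i)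
    (h : ∑ i, X (y i) * b i ∈ Yid K y * Yid K y) : ∀ i, b i = 0 := by
  intro i
  have key : ∀ P : MvPolynomial V K, P ∈ Yid K y * Yid K y → pderiv (y i) P ∈ Yid K y := by
    intro P hP
    refine Submodule.mul_induction_on hP ?_ ?_
    · intro m hm n hn
      rw [Derivation.leibniz]
      exact add_mem (Ideal.mul_mem_right _ _ hm) (Ideal.mul_mem_right _ _ hn)
    · intro a b ha hb
      rw [map_add]
      exact add_mem ha hb
  have h1 := rho_Y y (key _ h)
  rw [map_sum, map_sum] at h1
  have h2 : ∀ j, rho K (fun v => ∃ i, v = y i) (pderiv (y i) (X (y j) * b j)) =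
      if j = i then b i else 0 := by
    intro j
    rw [Derivation.leibniz, smul_eq_mul, smul_eq_mul, map_add, map_mul, map_mul, rho_X,
      if_pos ⟨j, rfl⟩, zero_mul, zero_add, hb]
    by_cases hj : j = i
    · subst hj
      simp
    · have hne : y j ≠ y i := fun h => hj (hy _ _ h)
      rw [pderiv_X_of_ne hne, map_zero, mul_zero, if_neg hj]
  simp_rw [h2] at h1
  simpa using h1

/-- The ideal of the forms `a_l`, `l ∈ C`. -/
noncomputable def Aid (K : Type) [Field K] {n : ℕ} (p : I → Fin n → V) (y : Fin n → V)
    (C : Finset I) : Ideal (MvPolynomial V K) := Ideal.span ((fun l => aF K p y l) '' (C : Set I))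

theorem mem_Aid {n : ℕ} {p : I → Fin n → V} {y : Fin n → V} {C : Finset I}
    {P : MvPolynomial V K} : P ∈ Aid K p y C ↔ ∃ c : I → MvPolynomial V K,
      P = ∑ l ∈ C, aF K p y l * c l := by
  classical
  constructor
  · intro h
    induction h using Submodule.span_induction with
    | mem x hx =>
      obtain ⟨l, hl, rfl⟩ := hx
      refine ⟨fun l' => if l' = l then 1 else 0, ?_⟩
      simp [Finset.mem_coe.1 hl]
    | zero => exact ⟨fun _ => 0, by simp⟩
    | add x z _ _ hx hz =>
      obtain ⟨c, rfl⟩ := hx
      obtain ⟨c', rfl⟩ := hz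
      refine ⟨fun l => c l + c' l, ?_⟩
      rw [← Finset.sum_add_distrib]
      exact Finset.sum_congr rfl fun l _ => by ring
    | smul a x _ hx =>
      obtain ⟨c, rfl⟩ := hx
      refine ⟨fun l => a * c l, ?_⟩
      rw [smul_eq_mul, Finset.mul_sum]
      exact Finset.sum_congr rfl fun l _ => by ring
  · rintro ⟨c, rfl⟩
    exact Ideal.sum_mem _ fun l hl => Ideal.mul_mem_right _ _
      (Ideal.subset_span ⟨l, Finset.mem_coe.2 hl, rfl⟩)

/-- Elimination of the last coordinates of the letters in `C`. -/
theorem elim {n : ℕ} {p : I → Fin (n + 1) → V} {y : Fin (n + 1) → V} (hg : Gen p y)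
    (C : Finset I) (P : MvPolynomial V K) : ∃ (M : ℕ) (Q : MvPolynomial V K),
      X (y (Fin.last n)) ^ M * P - Q ∈ Aid K p y C ∧
      ∀ z z' : V → K, (∀ v, (∀ l ∈ C, v ≠ p l (Fin.last n)) → z v = z' v) →
        eval z Q = eval z' Q := by
  classical
  induction P using MvPolynomial.induction_on with
  | C a => exact ⟨0, MvPolynomial.C a, by simp, by simp⟩
  | add P1 P2 h1 h2 =>
    obtain ⟨M1, Q1, h1, h1'⟩ := h1
    obtain ⟨M2, Q2, h2, h2'⟩ := h2
    refine ⟨M1 + M2, X (y (Fin.last n)) ^ M2 * Q1 + X (y (Fin.last n)) ^ M1 * Q2, ?_, ?_⟩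
    · have : X (y (Fin.last n)) ^ (M1 + M2) * (P1 + P2) -
          (X (y (Fin.last n)) ^ M2 * Q1 + X (y (Fin.last n)) ^ M1 * Q2) =
          X (y (Fin.last n)) ^ M2 * (X (y (Fin.last n)) ^ M1 * P1 - Q1) +
          X (y (Fin.last n)) ^ M1 * (X (y (Fin.last n)) ^ M2 * P2 - Q2) := by
        rw [pow_add]
        ring
      rw [this]
      exact add_mem (Ideal.mul_mem_left _ _ h1) (Ideal.mul_mem_left _ _ h2)
    · intro z z' hz
      have hy : z (y (Fin.last n)) = z' (y (Fin.last n)) :=
        hz _ fun l _ h => hg.py _ _ _ h.symm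
      simp only [map_add, map_mul, map_pow, eval_X, hy, h1' z z' hz, h2' z z' hz]
  | mul_X P v hP =>
    obtain ⟨M, Q, hQ, hQ'⟩ := hP
    by_cases hv : ∃ l ∈ C, v = p l (Fin.last n)
    · obtain ⟨l, hl, rfl⟩ := hv
      refine ⟨M + 1, -(Q * ∑ i : Fin n, X (p l i.castSucc) * X (y i.castSucc)), ?_, ?_⟩
      · have ha : aF K p y l = ∑ i : Fin n, X (p l i.castSucc) * X (y i.castSucc) +
            X (p l (Fin.last n)) * X (y (Fin.last n)) := by
          rw [aF, Fin.sum_univ_castSucc]
        have : X (y (Fin.last n)) ^ (M + 1) * (P * X (p l (Fin.last n))) -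
            -(Q * ∑ i : Fin n, X (p l i.castSucc) * X (y i.castSucc)) =
            (X (y (Fin.last n)) * X (p l (Fin.last n))) * (X (y (Fin.last n)) ^ M * P - Q) +
            Q * aF K p y l := by
          rw [ha, pow_succ]
          ring
        rw [this]
        exact add_mem (Ideal.mul_mem_left _ _ hQ) (Ideal.mul_mem_left _ _
          (Ideal.subset_span ⟨l, Finset.mem_coe.2 hl, rfl⟩))
      · intro z z' hz
        have hy : ∀ i, z (y i) = z' (y i) := fun i => hz _ fun l _ h => hg.py _ _ _ h.symm
        have hp : ∀ i : Fin n, z (p l i.castSucc) = z' (p l i.castSucc) := fun i =>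
          hz _ fun l' _ h => (Fin.castSucc_lt_last i).ne (hg.pp _ _ _ _ h).2
        simp only [map_neg, map_mul, map_sum, eval_X, hy, hp, hQ' z z' hz]
    · push Not at hv
      refine ⟨M, Q * X v, ?_, ?_⟩
      · have : X (y (Fin.last n)) ^ M * (P * X v) - Q * X v =
            X v * (X (y (Fin.last n)) ^ M * P - Q) := by ring
        rw [this]
        exact Ideal.mul_mem_left _ _ hQ
      · intro z z' hz
        rw [map_mul, map_mul, hQ' z z' hz, eval_X, eval_X, hz v hv]

/-- A polynomial vanishing on the locus is in the saturation. -/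
theorem sat [Infinite K] {n : ℕ} {p : I → Fin (n + 1) → V} {y : Fin (n + 1) → V}
    (hg : Gen p y) (C : Finset I) (P : MvPolynomial V K)
    (hP : ∀ z : V → K, z (y (Fin.last n)) ≠ 0 →
      (∀ l ∈ C, ∑ i, z (p l i) * z (y i) = 0) → eval z P = 0) :
    ∃ M : ℕ, X (y (Fin.last n)) ^ M * P ∈ Aid K p y C := by
  classical
  obtain ⟨M, Q, h, h'⟩ := elim (K := K) hg C P
  have hQ : Q = 0 := by
    have hX : (X (y (Fin.last n)) : MvPolynomial V K) * Q = 0 := by
      refine MvPolynomial.funext fun z => ?_
      rw [map_mul, eval_X, map_zero]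
      by_cases hz : z (y (Fin.last n)) = 0
      · rw [hz, zero_mul]
      · -- the point on the locus
        let z' : V → K := fun v => if hv : ∃ l ∈ C, v = p l (Fin.last n) then
          -(∑ i : Fin n, z (p hv.choose i.castSucc) * z (y i.castSucc)) / z (y (Fin.last n))
          else z v
        have h1 : ∀ v, (∀ l ∈ C, v ≠ p l (Fin.last n)) → z v = z' v := by
          intro v hv
          have : ¬∃ l ∈ C, v = p l (Fin.last n) := by
            rintro ⟨l, hl, h⟩
            exact hv l hl h
          simp only [z', dif_neg this]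
        have h2 : ∀ l ∈ C, z' (p l (Fin.last n)) =
            -(∑ i : Fin n, z (p l i.castSucc) * z (y i.castSucc)) / z (y (Fin.last n)) := by
          intro l hl
          have hex : ∃ l' ∈ C, p l (Fin.last n) = p l' (Fin.last n) := ⟨l, hl, rfl⟩
          have hch : hex.choose = l := (hg.pp _ _ _ _ hex.choose_spec.2).1.symm
          simp only [z', dif_pos hex, hch]
        have hy : ∀ i, z' (y i) = z (y i) := fun i => (h1 _ fun l _ h => hg.py _ _ _ h.symm).symm
        have hp : ∀ l (i : Fin n), z' (p l i.castSucc) = z (p l i.castSucc) := fun l i =>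
          (h1 _ fun l' _ h => (Fin.castSucc_lt_last i).ne (hg.pp _ _ _ _ h).2).symm
        have h3 : ∀ l ∈ C, ∑ i, z' (p l i) * z' (y i) = 0 := by
          intro l hl
          rw [Fin.sum_univ_castSucc, h2 l hl]
          simp only [hy, hp]
          rw [div_mul_cancel₀ _ hz, add_neg_cancel]
        have h4 : Aid K p y C ≤ RingHom.ker (eval z') := by
          rw [Aid, Ideal.span_le]
          rintro _ ⟨l, hl, rfl⟩
          rw [SetLike.mem_coe, RingHom.mem_ker, eval_aF]
          exact h3 l (Finset.mem_coe.1 hl)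
        have h5 : eval z' (X (y (Fin.last n)) ^ M * P - Q) = 0 := h4 h
        rw [map_sub, map_mul, hP z' ((hy _).symm ▸ hz) h3, mul_zero, zero_sub,
          neg_eq_zero] at h5
        rw [h' z z' h1, h5, mul_zero]
    exact (mul_eq_zero.1 hX).resolve_left (X_ne_zero _)
  rw [hQ, sub_zero] at h
  exact ⟨M, h⟩

theorem dvd_of_rho {v0 : V} {P : MvPolynomial V K} (h : rho K (fun v => v = v0) P = 0) :
    ∃ g, P = X v0 * g := by
  have h1 := sub_rho_mem (fun v => v = v0) P
  rw [h, sub_zero] at h1
  have : ({v | v = v0} : Set V) = {v0} := rfl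
  rw [this, Set.image_singleton, Ideal.mem_span_singleton'] at h1
  obtain ⟨g, hg⟩ := h1
  exact ⟨g, by rw [← hg, mul_comm]⟩

/-- An antisymmetric double sum is zero. -/
theorem anti_sum [CharZero K] (C : Finset I) (a : I → MvPolynomial V K)
    (c : I → I → MvPolynomial V K) (hc : ∀ l l', c l l' = -c l' l) :
    ∑ l ∈ C, a l * ∑ l' ∈ C, a l' * c l l' = 0 := by
  have h : ∑ l ∈ C, a l * ∑ l' ∈ C, a l' * c l l' =
      -∑ l ∈ C, a l * ∑ l' ∈ C, a l' * c l l' := by
    conv_lhs =>
      simp only [Finset.mul_sum]
      rw [Finset.sum_comm]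
    rw [← Finset.sum_neg_distrib]
    refine Finset.sum_congr rfl fun l _ => ?_
    rw [Finset.mul_sum, ← Finset.sum_neg_distrib]
    refine Finset.sum_congr rfl fun l' _ => ?_
    rw [hc l' l]
    ring
  have h2 : (2 : MvPolynomial V K) * ∑ l ∈ C, a l * ∑ l' ∈ C, a l' * c l l' = 0 := by
    rw [two_mul]
    nth_rewrite 2 [h]
    rw [add_neg_cancel]
  exact (mul_eq_zero.1 h2).resolve_left two_ne_zero

theorem div_step [CharZero K] {n : ℕ} {p : I → Fin (n + 1) → V} {y : Fin (n + 1) → V}
    (hg : Gen p y) (h1 : K1 K V I n) (C : Finset I) (P : MvPolynomial V K) (M : ℕ)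
    (k : I → MvPolynomial V K) (hk : ∀ l, k l ∈ Yid K y)
    (h : X (y (Fin.last n)) ^ (M + 1) * P = ∑ l ∈ C, aF K p y l * k l) :
    X (y (Fin.last n)) ^ M * P ∈ Aid K p y C := by
  classical
  set ρ := rho K (fun v => v = y (Fin.last n)) with hρ
  set p' : I → Fin n → V := fun l i => p l i.castSucc with hp'
  set y' : Fin n → V := fun i => y i.castSucc with hy'
  have hg' : Gen p' y' := ⟨fun l i l' i' e => by
      have := hg.pp _ _ _ _ e
      exact ⟨this.1, Fin.castSucc_injective n this.2⟩,
    fun i j e => Fin.castSucc_injective n (hg.yy _ _ e), fun l i j => hg.py _ _ _⟩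
  have hρX : ρ (X (y (Fin.last n))) = 0 := by rw [hρ, rho_X, if_pos rfl]
  have hρa' : ∀ l, ρ (aF K p' y' l) = aF K p' y' l := by
    intro l
    rw [aF, map_sum]
    refine Finset.sum_congr rfl fun i _ => ?_
    rw [map_mul, hρ, rho_X, rho_X, if_neg (hg.py _ _ _),
      if_neg fun e => (Fin.castSucc_lt_last i).ne (hg.yy _ _ e)]
  have ha : ∀ l, aF K p y l = aF K p' y' l + X (p l (Fin.last n)) * X (y (Fin.last n)) := by
    intro l
    rw [aF, Fin.sum_univ_castSucc]
    rfl
  have hρa : ∀ l, ρ (aF K p y l) = aF K p' y' l := by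
    intro l
    rw [ha, map_add, map_mul, hρX, mul_zero, add_zero, hρa']
  have hρY : ∀ Q ∈ Yid K y, ρ Q ∈ Yid K y' := by
    intro Q hQ
    have : Yid K y ≤ (Yid K y').comap ρ := by
      rw [Yid, Ideal.span_le]
      rintro _ ⟨i, rfl⟩
      rw [SetLike.mem_coe, Ideal.mem_comap]
      refine Fin.lastCases ?_ (fun j => ?_) i
      · rw [hρX]
        exact zero_mem _
      · have : ρ (X (y j.castSucc)) = X (y' j) := by
          rw [hρ, rho_X, if_neg fun e => (Fin.castSucc_lt_last j).ne (hg.yy _ _ e)]
        rw [this]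
        exact Ideal.subset_span ⟨j, rfl⟩
    exact this hQ
  obtain ⟨c, hc1, hc2, hc3⟩ := h1 p' y' hg' C (fun l => ρ (k l)) (fun l _ => hρY _ (hk l)) (by
    have := congrArg ρ h
    rw [map_mul, map_pow, hρX, zero_pow (Nat.succ_ne_zero M), zero_mul, map_sum] at this
    rw [this]
    exact Finset.sum_congr rfl fun l _ => by rw [map_mul, hρa])
  have hdiv : ∀ l, ∃ g, l ∈ C → k l - ∑ l' ∈ C, aF K p y l' * ρ (c l l') =
      X (y (Fin.last n)) * g := by
    intro l
    by_cases hl : l ∈ C
    · have h0 : ρ (k l - ∑ l' ∈ C, aF K p y l' * ρ (c l l')) = 0 := by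
        rw [map_sub, map_sum]
        have h2 := congrArg ρ (hc3 l hl)
        have h3 : ρ (ρ (k l)) = ρ (k l) := by rw [hρ, rho_rho]
        rw [h3, map_sum] at h2
        rw [h2, sub_eq_zero]
        refine Finset.sum_congr rfl fun l' _ => ?_
        rw [map_mul, map_mul, hρa', hρa, hρ, rho_rho]
      obtain ⟨g, hg⟩ := dvd_of_rho h0
      exact ⟨g, fun _ => hg⟩
    · exact ⟨0, fun h => absurd h hl⟩
  choose g hgd using hdiv
  rw [mem_Aid]
  refine ⟨g, ?_⟩
  have hX : (X (y (Fin.last n)) : MvPolynomial V K) ≠ 0 := X_ne_zero _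
  refine mul_left_cancel₀ hX ?_
  have h4 : X (y (Fin.last n)) * (X (y (Fin.last n)) ^ M * P) =
      ∑ l ∈ C, aF K p y l * k l := by
    rw [← h, pow_succ]
    ring
  rw [h4, Finset.mul_sum]
  have h5 : ∀ l ∈ C, aF K p y l * k l = X (y (Fin.last n)) * (aF K p y l * g l) +
      aF K p y l * ∑ l' ∈ C, aF K p y l' * ρ (c l l') := by
    intro l hl
    rw [← sub_add_cancel (k l) (∑ l' ∈ C, aF K p y l' * ρ (c l l')), hgd l hl]
    ring
  rw [Finset.sum_congr rfl h5, Finset.sum_add_distrib,
    anti_sum C (fun l => aF K p y l) (fun l l' => ρ (c l l')) (fun l l' => by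
      rw [hc1 l l', map_neg]), add_zero]

/-- Strong form of `K0` from `K1` with one variable less. -/
theorem K0_strong [CharZero K] {n : ℕ} (h1 : K1 K V I n) {p : I → Fin (n + 1) → V}
    {y : Fin (n + 1) → V} (hg : Gen p y) (C : Finset I) (P : MvPolynomial V K)
    (hPY : P ∈ Yid K y)
    (hP : ∀ z : V → K, z (y (Fin.last n)) ≠ 0 →
      (∀ l ∈ C, ∑ i, z (p l i) * z (y i) = 0) → eval z P = 0) :
    ∃ c : I → MvPolynomial V K, P = ∑ l ∈ C, aF K p y l * c l := by
  classical
  have : Infinite K := CharZero.infinite K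
  obtain ⟨M, hM⟩ := sat hg C P hP
  rw [← mem_Aid]
  clear hP
  induction M with
  | zero => simpa using hM
  | succ M ih =>
    refine ih ?_
    clear ih
    obtain ⟨h, hh⟩ := mem_Aid.1 hM
    -- drop the part of degree `0` in `y` of the coefficients
    have hb : ∀ i, ∑ l ∈ C, X (p l i) * rho K (fun v => ∃ i, v = y i) (h l) = 0 := by
      refine lin_zero (y := y) hg.yy _ (fun i => ?_) ?_
      · rw [map_sum]
        refine Finset.sum_congr rfl fun l _ => ?_
        have : ¬∃ j, p l i = y j := by
          rintro ⟨j, hj⟩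
          exact hg.py _ _ _ hj
        rw [map_mul, rho_rho, rho_X, if_neg this]
      · have : ∑ i, X (y i) * ∑ l ∈ C, X (p l i) * rho K (fun v => ∃ i, v = y i) (h l) =
            X (y (Fin.last n)) ^ (M + 1) * P -
            ∑ l ∈ C, aF K p y l * (h l - rho K (fun v => ∃ i, v = y i) (h l)) := by
          rw [hh]
          simp_rw [mul_sub, Finset.sum_sub_distrib, sub_sub_cancel, Finset.mul_sum]
          rw [Finset.sum_comm]
          refine Finset.sum_congr rfl fun l _ => ?_
          rw [aF, Finset.sum_mul]
          exact Finset.sum_congr rfl fun i _ => by ring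
        rw [this]
        refine sub_mem ?_ (Ideal.sum_mem _ fun l _ => Ideal.mul_mem_mul (aF_mem p y l)
          (sub_rho_Y y (h l)))
        exact Ideal.mul_mem_mul (Ideal.pow_mem_of_mem _
          (Ideal.subset_span (Set.mem_range_self _)) _ (Nat.succ_pos _)) hPY
    have hh' : X (y (Fin.last n)) ^ (M + 1) * P =
        ∑ l ∈ C, aF K p y l * (h l - rho K (fun v => ∃ i, v = y i) (h l)) := by
      have h0 : ∑ l ∈ C, aF K p y l * rho K (fun v => ∃ i, v = y i) (h l) = 0 := by
        have : ∑ l ∈ C, aF K p y l * rho K (fun v => ∃ i, v = y i) (h l) =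
            ∑ i, X (y i) * ∑ l ∈ C, X (p l i) * rho K (fun v => ∃ i, v = y i) (h l) := by
          simp_rw [Finset.mul_sum]
          rw [Finset.sum_comm]
          refine Finset.sum_congr rfl fun l _ => ?_
          rw [aF, Finset.sum_mul]
          exact Finset.sum_congr rfl fun i _ => by ring
        rw [this]
        exact Finset.sum_eq_zero fun i _ => by rw [hb i, mul_zero]
      simp_rw [mul_sub, Finset.sum_sub_distrib]
      rw [h0, sub_zero, hh]
    have hkY : ∀ l, h l - rho K (fun v => ∃ i, v = y i) (h l) ∈ Yid K y := fun l =>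
      sub_rho_Y y (h l)
    exact div_step hg h1 C P M _ hkY hh'

/-- `K0` from `K1` with one variable less. -/
theorem K0_of_K1 [CharZero K] {n : ℕ} (h1 : K1 K V I n) : K0 K V I (n + 1) := by
  intro p y hg C P hP
  have : Infinite K := CharZero.infinite K
  have hPY : P ∈ Yid K y := by
    have h0 : rho K (fun v => ∃ i, v = y i) P = 0 := by
      refine MvPolynomial.funext fun z => ?_
      rw [eval_rho, map_zero]
      refine hP _ fun l _ => Finset.sum_eq_zero fun i _ => ?_
      rw [if_pos (⟨i, rfl⟩ : ∃ j, y i = y j), mul_zero]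
    have := sub_rho_Y y P
    rwa [h0, sub_zero] at this
  exact K0_strong h1 hg C P hPY fun z _ => hP z

theorem K0_zero [Infinite K] : K0 K V I 0 := by
  intro p y _ C P hP
  refine ⟨0, ?_⟩
  have : P = 0 := by
    refine MvPolynomial.funext fun z => ?_
    rw [map_zero]
    exact hP z fun l _ => by simp
  simp [this]

theorem K0_all [CharZero K] (n : ℕ) : K0 K V I n := by
  have : Infinite K := CharZero.infinite K
  induction n with
  | zero => exact K0_zero
  | succ n ih => exact K0_of_K1 (K1_of_K0 ih)

theorem K1_all [CharZero K] (n : ℕ) : K1 K V I n := K1_of_K0 (K0_all n)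

end Pool.Agent.VOP.KK
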