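import Pool.Agent.VOP.StmtsX

/-!
# MP_deb8da_ag: module LEMT (Lemma T)
-/

namespace Pool.Agent.VOP

open MvPolynomial Pool.Agent.VSY

namespace LEMT

variable {K : Type} [Field K] {v : ℕ}

theorem ren_lin {A B : Type} (φ : A → B) (x : Fin v → K) (p : A) :
    ren φ (lin x p : PX K A v) = lin x (φ p) := by
  simp [lin]

theorem ren_xS {A B : Type} (φ : A → B) (x : Fin v → K) (S : Finset A) :
    ren φ (xS x S : PX K A v) = ∏ p ∈ S, lin x (φ p) := by
  simp only [xS, map_prod, ren_lin]

variable {A : Type} [DecidableEq A]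

/-- The degrees of the product. -/
theorem deg_eq {M : ℕ} {T S C : Finset A} {w : A} (hcf : Cf T S C w) (r e : ℕ) :
    (fun p : Option A => (if p ∈ sm S then 1 else 0) +
      ext (dgc M T S C w r) (M + 2) w e p) =
      dgc M (sm T) ∅ (isn (S ∪ C)) (some w) e := by
  funext p
  have hTS := Finset.disjoint_left.1 hcf.TS
  have hTC := Finset.disjoint_left.1 hcf.TC
  have hSC := Finset.disjoint_left.1 hcf.SC
  cases p with
  | none => simp [dgc, isn, ext]
  | some p =>
    have e1 : ∀ D : Finset A, (some p ∈ sm D) ↔ p ∈ D := by simp [sm]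
    have e2 : ∀ D : Finset A, (some p ∈ isn D) ↔ p ∈ D := by simp [isn]
    simp only [dgc, ext, Finset.mem_union, e1, e2, Finset.notMem_empty, or_false,
      Option.some.injEq]
    by_cases hw : p = w
    · subst hw
      simp [hcf.wT, hcf.wS, hcf.wC]
    · by_cases hT : p ∈ T
      · simp [hT, hTS hT, hw]
      · by_cases hS : p ∈ S
        · simp [hT, hS, hw]
          ring
        · simp [hT, hS, hw]

end LEMT

open LEMT in
theorem LEMT_thm (h1 : Stmt_DG) (h2 : Stmt_GD0) (h3 : Stmt_GD2) : Stmt_LEMT := by
  intro K _ _ v M β t s l hMVB A _ _ T S C w x f hcf hsp hT hSC hC hx hz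
  have hS : S.card = s := by omega
  obtain ⟨-, -, -, -, hmul, -, -, -, -, -, -, hxS⟩ := h1 K (Option A) (Option A) v
  have hTS := Finset.disjoint_left.1 hcf.TS
  have hTC := Finset.disjoint_left.1 hcf.TC
  have hSC' := Finset.disjoint_left.1 hcf.SC
  obtain ⟨g, hg, hcy, hgf⟩ := hMVB A (dgc M T S C w (2 * M + 2 + β)) T S C w f hcf hS hC
    (fun u hu => by rw [dgc, if_pos (Finset.mem_union_right _ hu)])
    (fun u hu => by
      have n1 : u ∉ T ∪ S := by
        rw [Finset.mem_union, not_or]
        exact ⟨fun h => hTC h hu, fun h => hSC' h hu⟩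
      rw [dgc, if_neg n1, if_pos hu])
    (by
      have n1 : w ∉ T ∪ S := by
        rw [Finset.mem_union, not_or]
        exact ⟨hcf.wT, hcf.wS⟩
      rw [dgc, if_neg n1, if_neg hcf.wC, if_pos rfl]
      ring)
    hz.cg hz.cyS hz.cyC
  have hcf' : Cf T ∅ (S ∪ C) w :=
    ⟨by simp, Finset.disjoint_union_right.2 ⟨hcf.TS, hcf.TC⟩, by simp, hcf.wT, by simp, by
      simp only [Finset.mem_union, not_or]
      exact ⟨hcf.wS, hcf.wC⟩⟩
  have hdg : Dg (dgc M (sm T) ∅ (isn (S ∪ C)) (some w) (M + β))
      ((xS x (sm S) : PX K (Option A) v) * g) := by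
    have := hmul _ _ _ _ (hxS x (sm S)) hg.dg
    rwa [deg_eq hcf] at this
  have key := h3 K A v M β T (S ∪ C) w _ hcf' hdg
  have hrn : rn w ((xS x (sm S) : PX K (Option A) v) * g) = xS x S * f := by
    rw [map_mul, hgf]
    congr 1
    rw [rn, ren_xS, sm, Finset.prod_map]
    rfl
  have hSsum : ∑ c ∈ S, ren (fun o => (Equiv.swap none (some c) o : Option A).getD w)
      ((xS x (sm S) : PX K (Option A) v) * g) = 0 := by
    refine Finset.sum_eq_zero fun c hc => ?_
    have e : ∀ o : Option A, (Equiv.swap none (some c) o : Option A).getD w =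
        ((fun o : Option A => o.getD c) ∘ mv (some c) (some w)) o := by
      intro o
      simp only [Function.comp_apply, mv]
      cases o with
      | none =>
        rw [Equiv.swap_apply_left, Function.update_of_ne (by simp)]
        rfl
      | some y =>
        by_cases hy : y = c
        · subst hy
          rw [Equiv.swap_apply_right, Function.update_self]
          rfl
        · have hy' : (some y : Option A) ≠ some c := fun h => hy (Option.some.inj h)
          rw [Equiv.swap_apply_of_ne_of_ne (by simp) hy', Function.update_of_ne hy']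
          rfl
    rw [ren_congr e, ← ren_ren, map_mul, hcy (some c) (by simp [sm, hc]), mul_zero, map_zero]
  have hCsum : ∑ c ∈ C, ren (fun o => (Equiv.swap none (some c) o : Option A).getD w)
      ((xS x (sm S) : PX K (Option A) v) * g) = ∑ c ∈ C, -(xS x S * f) := by
    refine Finset.sum_congr rfl fun c hc => ?_
    have hn : (none : Option A) ∈ isn C := by simp [isn]
    have hs : (some c : Option A) ∈ isn C := by simp [isn, hc]
    have e := ren_ren (Equiv.swap none (some c) : Option A → Option A)
      (fun o : Option A => o.getD w) ((xS x (sm S) : PX K (Option A) v) * g)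
    have e' : (fun o : Option A => (Equiv.swap none (some c) o : Option A).getD w) =
      (fun o : Option A => o.getD w) ∘ (Equiv.swap none (some c) : Option A → Option A) := rfl
    have e3 : ren (Equiv.swap none (some c) : Option A → Option A)
        (xS x (sm S) : PX K (Option A) v) = xS x (sm S) := by
      rw [ren_xS, xS, sm, Finset.prod_map, Finset.prod_map]
      refine Finset.prod_congr rfl fun p hp => ?_
      have hpc : (some p : Option A) ≠ some c := by
        intro h
        rw [Option.some.injEq] at h
        exact hSC' hp (h ▸ hc)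
      show lin x (Equiv.swap none (some c) (some p)) = lin x (some p)
      rw [Equiv.swap_apply_of_ne_of_ne (by simp) hpc]
    rw [e', ← e, map_mul, e3, hg.alC _ hn _ hs (by simp), mul_neg, map_neg, ← hrn, rn]
  obtain ⟨-, -, -, -, -, gdiv, -, -⟩ := h2 K A v M β T (S ∪ C) w hcf'
  refine gdiv ((l : K) + 1) _ ?_ ?_
  · exact_mod_cast Nat.succ_ne_zero l
  · rw [hrn, Finset.sum_union hcf.SC, hSsum, hCsum, Finset.sum_const, hC, zero_add, smul_neg,
      sub_neg_eq_add] at key
    convert key using 1
    rw [add_smul, one_smul, Nat.cast_smul_eq_nsmul, add_comm]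

end Pool.Agent.VOP
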