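import Pool.Agent.VOP.StmtsW
import Pool.Agent.VOP.DG

/-!
# Module LNV: `f` vanishes when `w` and at least `e + 1` letters are on a line
-/

namespace Pool.Agent.VOP

open MvPolynomial Pool.Agent.VSY

namespace LNV

variable {K : Type} [Field K] {A : Type}

/-- Products of powers of forms of degree one at one point. -/
theorem dg_prod [DecidableEq A] {v : ℕ} (φ : A × Fin v → PX K A v)
    (hφ : ∀ x, Dg (Pi.single x.1 1) (φ x)) (m : A × Fin v → ℕ) (s : Finset (A × Fin v)) :
    Dg (fun p => ∑ x ∈ s, if x.1 = p then m x else 0) (∏ x ∈ s, φ x ^ m x) := by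
  classical
  have hpow : ∀ (x : A × Fin v) (k : ℕ), Dg (fun p => if x.1 = p then k else 0) (φ x ^ k) := by
    intro x k
    induction k with
    | zero =>
      rw [pow_zero]
      have := DG.one (K := K) (A := A) (v := v)
      intro n hn p
      rw [this n hn p]
      simp
    | succ k ih =>
      rw [pow_succ]
      have := DG.mul ih (hφ x)
      intro n hn p
      rw [this n hn p]
      dsimp only
      by_cases h : x.1 = p
      · subst h
        simp
      · rw [if_neg h, if_neg h, Pi.single_eq_of_ne (fun h' => h h'.symm), add_zero]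
  induction s using Finset.induction_on with
  | empty =>
    rw [Finset.prod_empty]
    have := DG.one (K := K) (A := A) (v := v)
    intro n hn p
    rw [this n hn p]
    simp
  | insert a s ha ih =>
    rw [Finset.prod_insert ha]
    have := DG.mul (hpow a (m a)) ih
    intro n hn p
    rw [this n hn p]
    dsimp only
    rw [Finset.sum_insert ha]

theorem dg_aeval [Fintype A] [DecidableEq A] {v : ℕ} (φ : A × Fin v → PX K A v)
    (hφ : ∀ x, Dg (Pi.single x.1 1) (φ x)) {δ : A → ℕ} {g : PX K A v} (hg : Dg δ g) :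
    Dg δ (aeval φ g) := by
  classical
  rw [aeval_def, eval₂_eq']
  refine DG.sum _ _ fun m hm => ?_
  rw [MvPolynomial.algebraMap_eq]
  refine DG.C_mul _ ?_
  have := dg_prod φ hφ m Finset.univ
  intro n hn p
  rw [this n hn p]
  dsimp only
  rw [Fintype.sum_prod_type, Finset.sum_eq_single p]
  · simp only [if_true]
    exact hg m hm p
  · intro b _ hb
    refine Finset.sum_eq_zero fun j _ => ?_
    rw [if_neg hb]
  · intro h
    exact absurd (Finset.mem_univ p) h

theorem aeval_mem {v : ℕ} (φ : A × Fin v → PX K A v) (s : Set (A × Fin v))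
    (hφ : ∀ x, φ x ∈ supported K s) (g : PX K A v) : aeval φ g ∈ supported K s := by
  induction g using MvPolynomial.induction_on with
  | C a =>
    rw [aeval_C]
    exact Subalgebra.algebraMap_mem _ a
  | add p q hp hq =>
    rw [map_add]
    exact add_mem hp hq
  | mul_X p n hp =>
    rw [map_mul, aeval_X]
    exact mul_mem hp (hφ n)

theorem nc_of_mem {I : Finset A} {g : PX K A 3}
    (h : g ∈ supported K {x : A × Fin 3 | ¬ (x.1 ∈ I ∧ x.2 = 2)}) : NC I g := by
  classical
  intro m hm x hx
  by_contra hne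
  have h1 : (x, (2 : Fin 3)) ∈ g.vars := by
    rw [mem_vars_iff_mem_support]
    exact ⟨m, hm, by rw [Finsupp.mem_support_iff]; exact hne⟩
  have h2 := (mem_supported.1 h) h1
  exact h2 ⟨hx, rfl⟩

/-- The images of the variables. -/
noncomputable def im [DecidableEq A] (I : Finset A) (y : Fin 3 → K) (x : A × Fin 3) : PX K A 3 :=
  if x.1 ∈ I then
    (if x.2 = 2 then -(C (y 0) * X (x.1, 0) + C (y 1) * X (x.1, 1)) else C (y 2) * X x)
  else X x

/-- The points of `I` are moved to the line `y`. -/
noncomputable def pr [DecidableEq A] (I : Finset A) (y : Fin 3 → K) : PX K A 3 →ₐ[K] PX K A 3 :=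
  aeval (im I y)

theorem im_dg [DecidableEq A] (I : Finset A) (y : Fin 3 → K) (x : A × Fin 3) :
    Dg (Pi.single x.1 1) (im I y x) := by
  unfold im
  obtain ⟨p, i⟩ := x
  split_ifs
  · exact DG.neg (DG.add (DG.C_mul _ (DG.var p 0)) (DG.C_mul _ (DG.var p 1)))
  · exact DG.C_mul _ (DG.var p i)
  · exact DG.var p i

theorem im_mem [DecidableEq A] (I : Finset A) (y : Fin 3 → K) (x : A × Fin 3) :
    im I y x ∈ supported K {x : A × Fin 3 | ¬ (x.1 ∈ I ∧ x.2 = 2)} := by
  have hX : ∀ z : A × Fin 3, ¬ (z.1 ∈ I ∧ z.2 = 2) →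
      (X z : PX K A 3) ∈ supported K {x : A × Fin 3 | ¬ (x.1 ∈ I ∧ x.2 = 2)} := by
    intro z hz
    exact X_mem_supported.2 hz
  have hC : ∀ a : K,
      (C a : PX K A 3) ∈ supported K {x : A × Fin 3 | ¬ (x.1 ∈ I ∧ x.2 = 2)} :=
    fun a => Subalgebra.algebraMap_mem _ a
  unfold im
  obtain ⟨p, i⟩ := x
  split_ifs with h1 h2
  · refine neg_mem (add_mem (mul_mem (hC _) (hX _ ?_)) (mul_mem (hC _) (hX _ ?_)))
    · rintro ⟨_, h⟩
      exact absurd (show (0 : Fin 3) = 2 from h) (by decide)
    · rintro ⟨_, h⟩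
      exact absurd (show (1 : Fin 3) = 2 from h) (by decide)
  · exact mul_mem (hC _) (hX _ fun h => h2 h.2)
  · exact hX _ fun h => h1 h.1

theorem pr_lin [DecidableEq A] (I : Finset A) (y : Fin 3 → K) {p : A} (hp : p ∈ I) :
    pr I y (lin y p) = 0 := by
  have e0 : pr I y (X (p, 0)) = C (y 2) * X (p, 0) := by
    simp [pr, im, hp]
  have e1 : pr I y (X (p, 1)) = C (y 2) * X (p, 1) := by
    simp [pr, im, hp]
  have e2 : pr I y (X (p, 2)) = -(C (y 0) * X (p, 0) + C (y 1) * X (p, 1)) := by
    simp [pr, im, hp]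
  have hC : ∀ a : K, pr I y (C a) = C a := by
    intro a
    simp [pr]
  unfold lin
  rw [Fin.sum_univ_three]
  simp only [map_add, map_mul, e0, e1, e2, hC]
  ring

theorem ren_X {B : Type} {v : ℕ} (φ : A → B) (p : A) (i : Fin v) :
    ren φ (X (p, i) : PX K A v) = X (φ p, i) := by
  simp [ren]

theorem pr_mv [DecidableEq A] (I : Finset A) (y : Fin 3 → K) {u w : A} (hu : u ∈ I) (hw : w ∈ I)
    (g : PX K A 3) : pr I y (ren (mv u w) g) = ren (mv u w) (pr I y g) := by
  have : (pr I y).comp (ren (mv u w)) = (ren (mv u w)).comp (pr I y) := by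
    refine MvPolynomial.algHom_ext fun x => ?_
    obtain ⟨p, i⟩ := x
    rw [AlgHom.comp_apply, AlgHom.comp_apply, ren_X]
    simp only [pr, aeval_X]
    by_cases hp : p = u
    · subst hp
      have h1 : mv p w p = w := by simp [mv]
      rw [h1]
      by_cases h2 : i = 2
      · simp [im, hu, hw, h2, h1, ren]
      · simp [im, hu, hw, h2, h1, ren]
    · have h1 : mv u w p = p := by simp [mv, hp]
      rw [h1]
      by_cases hpI : p ∈ I
      · by_cases h2 : i = 2
        · simp [im, hpI, h2, h1, ren]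
        · simp [im, hpI, h2, h1, ren]
      · simp [im, hpI, h1, ren]
  exact AlgHom.congr_fun this g

theorem pr_mv0 [DecidableEq A] (I : Finset A) (y : Fin 3 → K) {u w : A} (hu : u ∉ I)
    (g : PX K A 3) (hg : pr I y g = 0) : pr I y (ren (mv u w) g) = 0 := by
  have : (pr I y).comp (ren (mv u w)) =
      (aeval fun x : A × Fin 3 => if x.1 = u then pr I y (X (w, x.2)) else X x :
        PX K A 3 →ₐ[K] PX K A 3).comp (pr I y) := by
    refine MvPolynomial.algHom_ext fun x => ?_
    obtain ⟨p, i⟩ := x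
    rw [AlgHom.comp_apply, AlgHom.comp_apply, ren_X]
    by_cases hp : p = u
    · subst hp
      have h1 : mv p w p = w := by simp [mv]
      rw [h1]
      simp [pr, im, hu]
    · have h1 : mv u w p = p := by simp [mv, hp]
      rw [h1]
      by_cases hpI : p ∈ I
      · by_cases h2 : i = 2
        · simp [pr, im, hpI, h2, hp]
        · simp [pr, im, hpI, h2, hp]
      · simp [pr, im, hpI, hp]
  have h2 := AlgHom.congr_fun this g
  rw [AlgHom.comp_apply, AlgHom.comp_apply, hg, map_zero] at h2
  exact h2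

theorem eval_ps [DecidableEq A] (I : Finset A) (y : Fin 3 → K) (g : PX K A 3) :
    eval (fun i => (C (y i) : PX K A 3)) (ps K I g) = pr I y g := by
  have : (eval (fun i => (C (y i) : PX K A 3))).comp ((ps K I : PX K A 3 →ₐ[K] PY K A) :
      PX K A 3 →+* PY K A) = ((pr I y : PX K A 3 →ₐ[K] PX K A 3) : PX K A 3 →+* PX K A 3) := by
    refine MvPolynomial.ringHom_ext (fun a => ?_) fun x => ?_
    · simp [ps, pr, MvPolynomial.algebraMap_apply]
    · obtain ⟨p, i⟩ := x
      by_cases hpI : p ∈ I
      · by_cases h2 : i = 2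
        · simp [ps, pr, im, hpI, h2, mul_comm]
        · simp [ps, pr, im, hpI, h2, mul_comm]
      · simp [ps, pr, im, hpI]
  exact RingHom.congr_fun this g

end LNV

theorem LNV_thm (h1 : Stmt_PDV) : Stmt_LNV := by
  classical
  intro K _ _ A _ _ δ J w u₀ f hwJ hu₀ hu₀w hcard hex
  have hpr : ∀ y : Fin 3 → K, y 2 ≠ 0 → LNV.pr (insert w J) y f = 0 := by
    intro y hy
    obtain ⟨Z, hZ, hZu, hZf⟩ := hex y hy
    have hwI : w ∈ insert w J := Finset.mem_insert_self _ _
    have hlin := LNV.pr_lin (insert w J) y hwI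
    have hcy : Cy J w (LNV.pr (insert w J) y Z) := by
      intro u hu
      rw [← LNV.pr_mv (insert w J) y (Finset.mem_insert_of_mem hu) hwI Z]
      obtain ⟨q, hq⟩ := hZu u hu
      rw [hq, map_mul, hlin, zero_mul]
    have hdg : Dg δ (LNV.pr (insert w J) y Z) :=
      LNV.dg_aeval _ (LNV.im_dg (insert w J) y) hZ
    have hnc : NC (insert w J) (LNV.pr (insert w J) y Z) :=
      LNV.nc_of_mem (LNV.aeval_mem _ _ (LNV.im_mem (insert w J) y) Z)
    have hz : LNV.pr (insert w J) y Z = 0 := by
      by_contra hne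
      have := ((h1 K A δ J w _ hwJ hdg hnc hcy).1 hne).1
      omega
    have hu₀I : u₀ ∉ insert w J := by
      rw [Finset.mem_insert, not_or]
      exact ⟨hu₀w, hu₀⟩
    have h3 := LNV.pr_mv0 (insert w J) y (w := w) hu₀I Z hz
    obtain ⟨q, hq⟩ := hZf
    have h4 : LNV.pr (insert w J) y (f - ren (mv u₀ w) Z) = 0 := by
      rw [hq, map_mul, hlin, zero_mul]
    rw [map_sub, h3, sub_zero] at h4
    exact h4
  refine MvPolynomial.funext_set
    (fun i : Fin 3 => if i = 2 then (C '' {a : K | a ≠ 0} : Set (PX K A 3)) else Set.range C)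
    ?_ ?_
  · intro i
    have hinj : Function.Injective (C : K → PX K A 3) := C_injective _ _
    split_ifs
    · refine Set.Infinite.image hinj.injOn ?_
      exact (Set.finite_singleton (0 : K)).infinite_compl
    · exact Set.infinite_range_of_injective hinj
  · intro x hx
    have hx' : ∀ i, ∃ a : K, C a = x i ∧ (i = 2 → a ≠ 0) := by
      intro i
      have := hx i (Set.mem_univ i)
      dsimp only at this
      split_ifs at this with h
      · obtain ⟨a, ha, hax⟩ := this
        exact ⟨a, hax, fun _ => ha⟩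
      · obtain ⟨a, hax⟩ := this
        exact ⟨a, hax, fun h' => absurd h' h⟩
    choose y hy using hx'
    have hxy : x = fun i => C (y i) := by
      funext i
      exact (hy i).1.symm
    rw [hxy, LNV.eval_ps, map_zero]
    exact hpr y ((hy 2).2 rfl)

end Pool.Agent.VOP
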