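import Pool.Agent.VOP.StmtsR
import Pool.Agent.VOP.DG
import Pool.Agent.VOP.SYM
import Pool.Agent.VOP.SBT
import Pool.Agent.VSY.NAT
import Pool.Agent.VSY.DEG

/-!
# RBD: basic properties of boundaries (MP_deb8da_ag)
-/

namespace Pool.Agent.VOP

open MvPolynomial Pool.Agent.VSY

namespace RBD

variable {K : Type} [Field K] {A : Type} [Fintype A] [DecidableEq A] {v : ℕ}

theorem zero (M e : ℕ) (Λ : Finset A) (w c : A) : BdR M e Λ w c (0 : PX K A v) := by
  refine ⟨0, (DG_thm K A A v).1 _, ?_, map_zero _⟩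
  intro x _ y _ _
  rw [map_zero, neg_zero]

theorem add (M e : ℕ) (Λ : Finset A) (w c : A) (f g : PX K A v) (hf : BdR M e Λ w c f)
    (hg : BdR M e Λ w c g) : BdR M e Λ w c (f + g) := by
  obtain ⟨F, hF1, hF2, rfl⟩ := hf
  obtain ⟨G, hG1, hG2, rfl⟩ := hg
  refine ⟨F + G, ((DG_thm K A A v).2.1 _ _ _ hF1 hG1).1, ?_, map_add _ _ _⟩
  exact (((SYM_thm DG_thm K A v).2.2.2.1 Λ F G).2.1 hF2 hG2).1

theorem smul (M e : ℕ) (Λ : Finset A) (w c : A) (a : K) (f : PX K A v)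
    (hf : BdR M e Λ w c f) : BdR M e Λ w c (a • f) := by
  obtain ⟨F, hF1, hF2, rfl⟩ := hf
  refine ⟨a • F, ((DG_thm K A A v).2.2.1 _ a 0 _ hF1).1, ?_, map_smul _ _ _⟩
  exact ((((SYM_thm DG_thm K A v).2.2.2.1 Λ F F).2.2.2.2 a).2) hF2

theorem sub (M e : ℕ) (Λ : Finset A) (w c : A) (f g : PX K A v) (hf : BdR M e Λ w c f)
    (hg : BdR M e Λ w c g) : BdR M e Λ w c (f - g) := by
  have h := add M e Λ w c f _ hf (smul M e Λ w c (-1) g hg)
  rwa [neg_one_smul, ← sub_eq_add_neg] at h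

end RBD

open RBD in
theorem RBD_thm : Stmt_RBD := by
  intro K _ _ A _ _ v M e Λ w c
  refine ⟨zero M e Λ w c, fun f g hf hg => ⟨add M e Λ w c f g hf hg, sub M e Λ w c f g hf hg⟩,
    smul M e Λ w c, ?_, ?_, ?_, ?_⟩
  · intro ι s f hf
    classical
    induction s using Finset.induction_on with
    | empty =>
      rw [Finset.sum_empty]
      exact zero M e Λ w c
    | insert a s ha ih =>
      rw [Finset.sum_insert ha]
      exact add M e Λ w c _ _ (hf a (Finset.mem_insert_self a s))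
        (ih fun i hi => hf i (Finset.mem_insert_of_mem hi))
  · rintro i j f ⟨F, hF1, hF2, rfl⟩
    refine ⟨Eij i j F, ?_, ?_, ?_⟩
    · have h := (DEG_thm K A v (fun _ => 0) (dgc M ∅ ∅ Λ w e)).1 i j F
        (fun m hm x => by
          rw [Nat.add_zero]
          exact hF1 m hm x)
      intro m hm x
      have h2 := h m hm x
      rwa [Nat.add_zero] at h2
    · intro x hx y hy hxy
      rw [(NAT_thm K A A v (Equiv.swap x y)).1 i j F, hF2 x hx y hy hxy, map_neg]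
    · exact (NAT_thm K A A v (mv c w)).1 i j F
  · rintro g f ⟨F, hF1, hF2, rfl⟩
    obtain ⟨s1, s2, -⟩ := SBT_thm DG_thm K v
    refine ⟨sb g F, s2 A _ g F hF1, ?_, s1 A A _ g F⟩
    intro x hx y hy hxy
    rw [s1 A A _ g F, hF2 x hx y hy hxy, map_neg]
  · intro g _ hg
    obtain ⟨-, -, s3, -, -, -, -, s8, -⟩ := SYM_thm DG_thm K A v
    refine ⟨alt Λ g, (s8 Λ _ g (fun x hx y hy => ?_) hg).1, (s3 Λ g).2, rfl⟩
    simp [dgc, hx, hy]

end Pool.Agent.VOP
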