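import Pool.Agent.VOP.StmtsR
import Pool.Agent.VOP.GD2
import Pool.Agent.VOP.DG
import Pool.Agent.VOP.DIV
import Pool.Agent.VOP.SYM

/-!
# The first row criterion (MP_deb8da_ag): `Θ` of a boundary is a boundary
-/

set_option autoImplicit false

namespace Pool.Agent.VOP

open MvPolynomial Pool.Agent.VSY

namespace RBI

variable {K : Type} [Field K] {A : Type} [Fintype A] [DecidableEq A] {v : ℕ}

omit [Fintype A] in
theorem mv_self (u w : A) : mv u w u = w := by
  rw [mv, Function.update_self]

omit [Fintype A] in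
theorem mv_ne {u w a : A} (h : a ≠ u) : mv u w a = a := by
  rw [mv, Function.update_of_ne h, id]

omit [Fintype A] in
theorem getD_swap_some (u w a : A) :
    ((Equiv.swap none (some u) (some a) : Option A).getD w) = mv u w a := by
  by_cases h : a = u
  · subst h
    rw [Equiv.swap_apply_right, Option.getD_none, mv_self]
  · rw [Equiv.swap_apply_of_ne_of_ne (by simp) (by simpa using h), Option.getD_some, mv_ne h]

omit [Fintype A] in
theorem dgc0_none (M : ℕ) (C : Finset A) (w : A) (r : ℕ) :
    dgc M ∅ ∅ (isn C) (some w) r none = M + 2 := by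
  unfold dgc
  rw [if_neg (by simp), if_pos (GD2.none_mem_isn C)]

omit [Fintype A] in
theorem dgc0_some (M : ℕ) (C : Finset A) (w : A) (r : ℕ) (x : A) :
    dgc M ∅ ∅ (isn C) (some w) r (some x) = dgc M ∅ ∅ C w r x := by
  unfold dgc
  simp only [Finset.union_empty, Finset.notMem_empty, GD2.some_mem_isn, Option.some.injEq]

omit [Fintype A] in
theorem dgc0 (M : ℕ) (C : Finset A) (w : A) (r : ℕ) (x : A) :
    dgc M ∅ ∅ C w r x = if x ∈ C then M + 2 else if x = w then r else 0 := by
  unfold dgc
  rw [if_neg (by simp)]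

/-- an alternating polynomial vanishes when two of its points are identified -/
theorem ren_eq_zero [CharZero K] {B : Type} {S : Finset A} {g : PX K A v} (hg : Al S g) {x y : A}
    (hx : x ∈ S) (hy : y ∈ S) (hxy : x ≠ y) (φ : A → B) (h : φ x = φ y) : ren φ g = 0 := by
  have h1 := hg x hx y hy hxy
  have h2 : ren φ (ren (Equiv.swap x y) g) = ren φ g := by
    rw [ren_ren]
    apply ren_congr
    intro a
    rw [Function.comp_apply]
    by_cases ha : a = x
    · rw [ha, Equiv.swap_apply_left, h]
    · by_cases hb : a = y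
      · rw [hb, Equiv.swap_apply_right, h]
      · rw [Equiv.swap_apply_of_ne_of_ne ha hb]
  rw [h1, map_neg] at h2
  have h3 : (2 : K) • ren φ g = 0 := by
    rw [two_smul]
    nth_rewrite 1 [← h2]
    rw [neg_add_cancel]
  rcases smul_eq_zero.1 h3 with h4 | h4
  · exact absurd h4 two_ne_zero
  · exact h4

end RBI

open RBI in
theorem RBI_thm (h1 : Stmt_RBD) (h2 : Stmt_RTH) : Stmt_RBI := by
  intro K _ _ v M e e' he A _ _ S C w c x b μ hcf hx hb hμ
  have hDG := DG_thm
  have hDIV := DIV_thm DG_thm
  have hSYM := SYM_thm DG_thm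
  obtain ⟨hSC, hwS, hwC, hc⟩ := hcf
  have hwΛ : w ∉ S ∪ C := by
    rw [Finset.mem_union]
    rintro (h | h)
    · exact hwS h
    · exact hwC h
  have hcw : c ≠ w := by
    rintro rfl
    exact hwΛ hc
  obtain ⟨-, -, b3, b4, -, -, b7⟩ := h1 K A v M e (S ∪ C) w c
  obtain ⟨t1, -⟩ := h2 K A v S C w c ⟨hSC, hwS, hwC, hc⟩
  obtain ⟨-, -, -, -, -, -, -, -, -, d10, -⟩ := hDG K (Option A) A v
  obtain ⟨-, -, -, -, d5, -, -, -, -, d10', -, d12⟩ := hDG K A A v
  obtain ⟨-, -, -, -, -, -, -, d8, -⟩ := hDG K (Option A) A v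
  obtain ⟨-, -, -, -, -, -, -, d8', -⟩ := hDG K A A v
  obtain ⟨v1, -, -, -, -, v6, -⟩ := hDIV K A A v x hx
  obtain ⟨-, -, s3, -, -, -, -, -, s9, -⟩ := hSYM K A v
  obtain ⟨-, -, s3', -⟩ := hSYM K (Option A) v
  -- the polynomial on the bigger set
  have hφ : ∀ u : A, ren (fun o => (Equiv.swap none (some u) o : Option A).getD w)
      (ren some (xS x S * b) * μ) = ren (mv u w) (xS x S * b) *
        ren (fun o => (Equiv.swap none (some u) o : Option A).getD w) μ := by
    intro u
    rw [map_mul, ren_ren]
    congr 1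
    exact ren_congr (fun a => getD_swap_some u w a) _
  have hrnw : rn w (ren some (xS x S * b) * μ) = xS x S * (b * rn w μ) := by
    rw [map_mul, rn, ren_ren]
    have h3 : ren ((fun o : Option A => o.getD w) ∘ some) (xS x S * b) = xS x S * b := by
      conv_rhs => rw [← ren_id (xS x S * b)]
      exact ren_congr (fun a => rfl) _
    rw [h3, mul_assoc]
  have hxSmv : ∀ u : A, u ∈ S → ren (mv u w) (xS x S : PX K A v) =
      lin x w * xS x (S.erase u) := by
    intro u hu
    unfold xS
    rw [← Finset.mul_prod_erase S _ hu, map_mul, v6, mv_self, map_prod]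
    congr 1
    refine Finset.prod_congr rfl fun q hq => ?_
    rw [v6, mv_ne (Finset.ne_of_mem_erase hq)]
  have hxSmv' : ∀ u : A, u ∉ S → ren (mv u w) (xS x S : PX K A v) = xS x S := by
    intro u hu
    unfold xS
    rw [map_prod]
    refine Finset.prod_congr rfl fun q hq => ?_
    rw [v6, mv_ne (by rintro rfl; exact hu hq)]
  -- the summands
  have hS : ∀ u ∈ S, ren (fun o => (Equiv.swap none (some u) o : Option A).getD w)
      (ren some (xS x S * b) * μ) =
        lin x w * (xS x (S.erase u) * ren (mv u w) b * rn u μ) := by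
    intro u hu
    have h3 : ren (fun o => (Equiv.swap none (some u) o : Option A).getD w) μ = rn u μ := by
      unfold rn
      refine d10 _ _ _ μ ?_ hμ.dg
      intro o ho
      cases o with
      | none => rw [Equiv.swap_apply_left, Option.getD_some, Option.getD_none]
      | some a =>
        rw [getD_swap_some, Option.getD_some]
        apply mv_ne
        rintro rfl
        apply ho
        rw [dgc0_some, dgc0, if_neg (Finset.disjoint_left.1 hSC hu), if_neg]
        rintro rfl
        exact hwS hu
    rw [hφ, h3, map_mul, hxSmv u hu]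
    ring
  have hC : ∀ u ∈ C, ren (fun o => (Equiv.swap none (some u) o : Option A).getD w)
      (ren some (xS x S * b) * μ) = -(xS x S * (b * rn w μ)) := by
    intro u hu
    have huS : u ∉ S := fun h => Finset.disjoint_left.1 hSC h hu
    have h3 : ren (fun o => (Equiv.swap none (some u) o : Option A).getD w) μ = -rn w μ := by
      have h4 := hμ.alC none (GD2.none_mem_isn C) (some u) ((GD2.some_mem_isn C u).2 hu) (by simp)
      rw [← map_neg, ← h4, rn, ren_ren]
      rfl
    have h5 : ren (mv u w) b = b := by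
      conv_rhs => rw [← ren_id b]
      refine d10' _ _ _ b ?_ hb
      intro a ha
      apply mv_ne
      rintro rfl
      apply ha
      unfold dgs
      rw [if_neg huS]
    rw [hφ, h3, map_mul, hxSmv' u huS, h5]
    ring
  -- the main identity
  have hkey := GD2.rn_alt (S ∪ C) w hwΛ (ren some (xS x S * b) * μ)
  rw [hrnw, Finset.sum_union hSC, Finset.sum_congr rfl hS, Finset.sum_congr rfl hC,
    Finset.sum_const, ← Finset.mul_sum] at hkey
  have hkey2 : xS x S * (b * rn w μ) - (lin x w * ∑ u ∈ S, xS x (S.erase u) * ren (mv u w) b *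
      rn u μ + C.card • -(xS x S * (b * rn w μ))) =
      (1 + (C.card : K)) • (xS x S * (b * rn w μ)) +
        (-1 : K) • (lin x w * ∑ u ∈ S, xS x (S.erase u) * ren (mv u w) b * rn u μ) := by
    rw [← Nat.cast_smul_eq_nsmul K, add_smul, one_smul, smul_neg, neg_one_smul]
    ring
  have hsy : Sy (S ∪ C) (lin x w : PX K A v) := by
    intro p hp q hq
    rw [v6, Equiv.swap_apply_of_ne_of_ne (by rintro rfl; exact hwΛ hp)
      (by rintro rfl; exact hwΛ hq)]
  have halt0 : ∀ (F : PX K A v), alt (S ∪ C) (lin x w * F) = lin x w * alt (S ∪ C) F := by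
    intro F
    exact ((s9 (S ∪ C) F (lin x w) 0).2.2.2.2 hsy).1
  have haltS : alt (S ∪ C) (∑ u ∈ S, xS x (S.erase u) * ren (mv u w) b * rn u μ) =
      ∑ u ∈ S, alt (S ∪ C) (xS x (S.erase u) * ren (mv u w) b * rn u μ) := by
    unfold alt
    rw [Finset.sum_comm]
    refine Finset.sum_congr rfl fun π _ => ?_
    rw [map_sum, Finset.smul_sum]
  rw [hkey2, (s9 (S ∪ C) _ _ 0).1, (s9 (S ∪ C) _ 0 _).2.2.1, (s9 (S ∪ C) _ 0 _).2.2.1, halt0,
    haltS] at hkey
  have hzero : ren (mv c w) (rn w (alt (isn (S ∪ C)) (ren some (xS x S * b) * μ))) = 0 := by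
    rw [rn, ren_ren]
    refine ren_eq_zero (s3' (isn (S ∪ C)) _).2 (GD2.none_mem_isn _)
      ((GD2.some_mem_isn (S ∪ C) c).2 hc) (by simp) _ ?_
    rw [Function.comp_apply, Function.comp_apply, Option.getD_none, Option.getD_some, mv_self,
      mv_ne hcw.symm]
  have hcy : Cy C w (b * rn w μ) := by
    intro u hu
    rw [map_mul, rn, ren_ren]
    have h3 : ren (mv u w ∘ fun o : Option A => o.getD w) μ = 0 := by
      refine ren_eq_zero hμ.alC (GD2.none_mem_isn _)
        ((GD2.some_mem_isn C u).2 hu) (by simp) _ ?_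
      rw [Function.comp_apply, Function.comp_apply, Option.getD_none, Option.getD_some, mv_self,
        mv_ne (by rintro rfl; exact hwC hu)]
    rw [h3, mul_zero]
  rw [hkey, map_add, map_smul, map_smul, t1 x _ hcy, map_mul, v6, mv_ne hcw.symm, neg_one_smul,
    ← sub_eq_add_neg, sub_eq_zero, ← mul_smul_comm] at hzero
  have hfin := v1 w _ _ hzero
  have hne : (1 + (C.card : K)) ≠ 0 := by
    have : (1 + (C.card : K)) = ((1 + C.card : ℕ) : K) := by push_cast; rfl
    rw [this, Nat.cast_ne_zero]
    omega
  have hThR : ThR S C w c x (b * rn w μ) = (1 + (C.card : K))⁻¹ •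
      ren (mv c w) (∑ u ∈ S, alt (S ∪ C) (xS x (S.erase u) * ren (mv u w) b * rn u μ)) := by
    rw [← hfin, smul_smul, inv_mul_cancel₀ hne, one_smul]
  rw [hThR]
  refine b3 _ _ ?_
  rw [map_sum]
  refine b4 A S _ fun u hu => b7 _ hwΛ ?_
  -- degrees
  have huC : u ∉ C := Finset.disjoint_left.1 hSC hu
  have huw : u ≠ w := by rintro rfl; exact hwS hu
  have g1 := d12 x (S.erase u)
  have g2 := d8' _ (mv u w) b hb
  have g3 : Dg _ (rn u μ) := d8 _ (fun o : Option A => o.getD u) μ hμ.dg
  have g4 := d5 _ _ _ _ (d5 _ _ _ _ g1 g2) g3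
  have hδ : (fun y => (if y ∈ S.erase u then 1 else 0) +
      (∑ a ∈ Finset.univ.filter (fun a => mv u w a = y), dgs M S a) +
      ∑ o ∈ Finset.univ.filter (fun o : Option A => o.getD u = y),
        dgc M ∅ ∅ (isn C) (some w) e' o) = dgc M ∅ ∅ (S ∪ C) w e := by
    funext y
    rw [Finset.sum_filter, Finset.sum_filter, Fintype.sum_option]
    simp only [Option.getD_none, Option.getD_some, dgc0_none, dgc0_some]
    rw [Finset.sum_ite_eq' Finset.univ y, if_pos (Finset.mem_univ y), dgc0, dgc0]
    have h5 : ∑ a, (if mv u w a = y then dgs M S a else 0) =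
        (if y = w then M + 1 else 0) + (if y ∈ S.erase u then M + 1 else 0) := by
      rw [← Finset.add_sum_erase Finset.univ _ (Finset.mem_univ u), mv_self]
      congr 1
      · unfold dgs
        rw [if_pos hu]
        by_cases h : w = y
        · rw [if_pos h, if_pos h.symm]
        · rw [if_neg h, if_neg (fun h' => h h'.symm)]
      · have h6 : ∀ a ∈ Finset.univ.erase u, (if mv u w a = y then dgs M S a else 0) =
            if a = y then dgs M S a else 0 := by
          intro a ha
          rw [mv_ne (Finset.ne_of_mem_erase ha)]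
        rw [Finset.sum_congr rfl h6, Finset.sum_ite_eq' (Finset.univ.erase u) y]
        unfold dgs
        by_cases h : y = u
        · rw [if_neg (by simp [h]), if_neg (by simp [h])]
        · rw [if_pos (by simp [h])]
          by_cases h7 : y ∈ S
          · rw [if_pos h7, if_pos (by simp [h, h7])]
          · rw [if_neg h7, if_neg (by simp [h7])]
    rw [h5]
    by_cases hyw : y = w
    · subst hyw
      rw [if_neg (by simp [hwS]), if_pos rfl, if_neg (by simp [hwS]), if_neg huw, if_neg hwC,
        if_pos rfl, if_neg hwΛ, if_pos rfl]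
      omega
    · rw [if_neg hyw, if_neg hyw, if_neg hyw]
      by_cases hyu : y = u
      · subst hyu
        rw [if_neg (by simp), if_neg (by simp), if_pos rfl, if_neg huC,
          if_pos (Finset.mem_union_left C hu)]
        omega
      · rw [if_neg (fun h : u = y => hyu h.symm)]
        by_cases hyS : y ∈ S
        · have hyC : y ∉ C := Finset.disjoint_left.1 hSC hyS
          rw [if_pos (by simp [hyS, hyu]), if_pos (by simp [hyS, hyu]), if_neg hyC,
            if_pos (Finset.mem_union_left C hyS)]
          omega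
        · rw [if_neg (by simp [hyS]), if_neg (by simp [hyS])]
          by_cases hyC : y ∈ C
          · rw [if_pos hyC, if_pos (Finset.mem_union_right S hyC)]
            omega
          · rw [if_neg hyC, if_neg (by simp [hyS, hyC])]
            rfl
  rw [← hδ]
  exact g4

end Pool.Agent.VOP
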