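import Pool.Agent.VOP.StmtsR

/-!
# The first row criterion (MP_deb8da_ag): assembly
-/

set_option autoImplicit false

namespace Pool.Agent.VOP

open MvPolynomial Pool.Agent.VSY

theorem RCR_thm (h1 : Stmt_RFN) (h2 : Stmt_RCS) (h3 : Stmt_RCV) : Stmt_RCR := by
  intro K _ _ _ v M e p hV hH
  obtain ⟨f0, f1⟩ := h1 K v M e p
  obtain ⟨c1, c2⟩ := h3 K v M e p
  refine c2 ?_ hV
  have key : ∀ k n : ℕ, n + k = p + 2 → CHR K v M e p n := by
    intro k
    induction k with
    | zero =>
      intro n hn
      rw [Nat.add_zero] at hn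
      rw [hn]
      exact c1
    | succ k ih =>
      intro n hn
      have hc : CHR K v M e p (n + 1) := ih (n + 1) (by omega)
      refine h2 K v M e p n (by omega) ?_ hc
      rcases Nat.eq_zero_or_pos n with h0 | h0
      · rw [h0]
        exact f0
      · obtain ⟨D, rfl⟩ : ∃ D, n = D + 1 := ⟨n - 1, by omega⟩
        have hl : (p - D) + D = p := by omega
        exact f1 (p - D) D hl hc (hH (p - D) D hl)
  exact key (p + 2) 0 (by omega)

end Pool.Agent.VOP
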