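import Pool.Agent.VOP.StmtsR
import Pool.Agent.VOP.DG
import Pool.Agent.VOP.DIV
import Pool.Agent.VOP.SYM
import Pool.Agent.VOP.PR

/-!
# Module RCS (MP_deb8da_ag): the step `CHR(n + 1), FNR(n) → CHR(n)`

Instead of one set `S` of `n` letters we sum over all of them: `∑_S alt Λ g_S = |Λ|! • g_n`,
because the part `g_n` of `g` with exactly `n` letters divisible by the last coordinate is
alternating.
-/

namespace Pool.Agent.VOP

open MvPolynomial Pool.Agent.VSY

namespace RCS

variable {K : Type} [Field K] {A : Type} [Fintype A] [DecidableEq A] {v : ℕ}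

omit [Fintype A] [DecidableEq A] in
theorem lin_single (k : Fin v) (p : A) : (lin (Pi.single k 1) p : PX K A v) = X (p, k) := by
  unfold lin
  rw [Finset.sum_eq_single k]
  · rw [Pi.single_eq_same, C_1, one_mul]
  · intro i _ hi
    rw [Pi.single_eq_of_ne hi, C_0, zero_mul]
  · intro h
    exact absurd (Finset.mem_univ k) h

theorem single_ne (k : Fin v) : (Pi.single k 1 : Fin v → K) ≠ 0 := by
  intro h
  have := congrFun h k
  rw [Pi.single_eq_same, Pi.zero_apply] at this
  exact one_ne_zero this

/-- The exponent of the product of the `X (p, k)`, `p ∈ S`. -/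
noncomputable def ee (k : Fin v) (S : Finset A) : A × Fin v →₀ ℕ :=
  ∑ p ∈ S, Finsupp.single (p, k) 1

omit [Fintype A] in
theorem ee_apply (k : Fin v) (S : Finset A) (p : A) (j : Fin v) :
    ee k S (p, j) = if p ∈ S ∧ j = k then 1 else 0 := by
  classical
  rw [ee, Finsupp.finsetSum_apply]
  by_cases hj : j = k
  · subst hj
    rw [Finset.sum_congr rfl (g := fun q => if q = p then 1 else 0) fun q _ => by
      rw [Finsupp.single_apply]
      by_cases hq : q = p
      · subst hq
        simp
      · rw [if_neg hq, if_neg]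
        intro h
        exact hq (Prod.mk.inj h).1]
    rw [Finset.sum_ite_eq']
    simp
  · rw [if_neg fun h => hj h.2]
    refine Finset.sum_eq_zero fun q _ => ?_
    rw [Finsupp.single_apply, if_neg]
    intro h
    exact hj (Prod.mk.inj h).2.symm

omit [Fintype A] [DecidableEq A] in
theorem xS_eq (k : Fin v) (S : Finset A) :
    (xS (Pi.single k 1) S : PX K A v) = monomial (ee k S) 1 := by
  rw [xS, ee, monomial_sum_one]
  exact Finset.prod_congr rfl fun p _ => lin_single k p

omit [Fintype A] [DecidableEq A] in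
theorem xS_ne (k : Fin v) (S : Finset A) : (xS (Pi.single k 1) S : PX K A v) ≠ 0 := by
  rw [xS_eq]
  intro h
  rw [monomial_eq_zero] at h
  exact one_ne_zero h

omit [Fintype A] in
/-- division by the product -/
theorem div_ex {k : Fin v} {S : Finset A} {F : PX K A v}
    (hF : ∀ m ∈ F.support, ∀ u ∈ S, m (u, k) ≠ 0) :
    ∃ h : PX K A v, F = xS (Pi.single k 1) S * h ∧ ∀ m ∈ h.support, ee k S + m ∈ F.support := by
  classical
  refine ⟨F.divMonomial (ee k S), ?_, ?_⟩
  · ext m
    rw [xS_eq, coeff_monomial_mul']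
    split_ifs with hm
    · rw [one_mul, coeff_divMonomial, add_tsub_cancel_of_le hm]
    · by_contra hc
      refine hm ?_
      rintro ⟨p, j⟩
      rw [ee_apply]
      split_ifs with hp
      · rw [hp.2]
        exact Nat.one_le_iff_ne_zero.2 (hF m (mem_support_iff.2 hc) p hp.1)
      · exact Nat.zero_le _
  · intro m hm
    rw [mem_support_iff, coeff_divMonomial] at hm
    exact mem_support_iff.2 hm

omit [Fintype A] in
/-- the sum of the exponents of `ee` at a point -/
theorem ee_sum (k : Fin v) (S : Finset A) (p : A) :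
    ∑ j, ee k S (p, j) = if p ∈ S then 1 else 0 := by
  rw [Finset.sum_congr rfl (g := fun j => if j = k then (if p ∈ S then 1 else 0) else 0)
    fun j _ => by
      rw [ee_apply]
      by_cases h1 : j = k
      · by_cases h2 : p ∈ S
        · rw [if_pos ⟨h2, h1⟩, if_pos h1, if_pos h2]
        · rw [if_neg fun h => h2 h.1, if_pos h1, if_neg h2]
      · rw [if_neg fun h => h1 h.2, if_neg h1]]
  rw [Finset.sum_ite_eq']
  rw [if_pos (Finset.mem_univ k)]

omit [Fintype A] in
/-- (a): divisibility for all letters -/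
theorem dvd_all {Λ : Finset A} {w c : A} {k : Fin v} {g f : PX K A v} (hw : w ∉ Λ)
    (hc : c ∈ Λ) (hg : Al Λ g) (hf : X (w, k) * f = ren (mv c w) g) :
    ∀ u ∈ Λ, X (w, k) ∣ ren (mv u w) g := by
  intro u hu
  by_cases huc : u = c
  · rw [huc]
    exact ⟨f, hf.symm⟩
  · have huw : w ≠ u := fun h => hw (h ▸ hu)
    have hcw : c ≠ w := fun h => hw (h ▸ hc)
    have h1 : ren (Equiv.swap u c) g = -g := hg u hu c hc huc
    have h2 : g = -ren (Equiv.swap u c) g := by rw [h1, neg_neg]
    have h3 : ren (mv u w) (ren (Equiv.swap u c) g) = ren (mv u c) (ren (mv c w) g) := by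
      rw [ren_ren, ren_ren]
      refine ren_congr (fun x => ?_) g
      rw [Function.comp_apply, Function.comp_apply]
      by_cases hxc : x = c
      · rw [hxc, Equiv.swap_apply_right]
        unfold mv
        rw [Function.update_self, Function.update_self, Function.update_of_ne huw, id]
      · by_cases hxu : x = u
        · rw [hxu, Equiv.swap_apply_left]
          unfold mv
          rw [Function.update_of_ne (Ne.symm huc), id, Function.update_of_ne huc, id,
            Function.update_self]
        · rw [Equiv.swap_apply_of_ne_of_ne hxu hxc]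
          unfold mv
          rw [Function.update_of_ne hxu, id, Function.update_of_ne hxc, id,
            Function.update_of_ne hxu, id]
    rw [h2, map_neg, h3, ← hf, map_mul, ren_X]
    have h4 : mv u c w = w := by
      unfold mv
      rw [Function.update_of_ne huw, id]
    rw [h4]
    exact (Dvd.intro _ rfl : X (w, k) ∣ X (w, k) * ren (mv u c) f).neg_right

/-- the cardinality is invariant under permutations -/
theorem pr_card_swap (k : Fin v) (w : A) (n : ℕ) (x y : A) (hxw : x ≠ w) (hyw : y ≠ w)
    (f : PX K A v) :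
    ren (Equiv.swap x y) (pr k w (fun J => J.card = n) f) =
      pr k w (fun J => J.card = n) (ren (Equiv.swap x y) f) := by
  have h7 := (PR_thm K A v k w).2.2.2.2.2.2.1 (fun J => J.card = n) (Equiv.swap x y) f
    (Equiv.swap_apply_of_ne_of_ne hxw.symm hyw.symm)
  rw [h7]
  congr 2
  funext J
  rw [Finset.card_map]

theorem pr_neg (k : Fin v) (w : A) (P : Finset A → Prop) (f : PX K A v) :
    pr k w P (-f) = -pr k w P f := by
  have h := ((PR_thm K A v k w).2.1 P f f (-1)).2.2
  rwa [neg_one_smul, neg_one_smul] at h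

omit [Fintype A] [DecidableEq A] in
/-- `S` is stable under a permutation -/
theorem map_eq {S : Finset A} {π : Equiv.Perm A} (h : ∀ a, a ∈ S → π a ∈ S) (J : Finset A) :
    (J.map π.toEmbedding = S) = (J = S) := by
  have hS : S.map π.toEmbedding = S := by
    refine Finset.eq_of_subset_of_card_le ?_ (by rw [Finset.card_map])
    intro b hb
    rw [Finset.mem_map] at hb
    obtain ⟨a, ha, rfl⟩ := hb
    exact h a ha
  apply propext
  constructor
  · intro h1
    rw [← hS] at h1
    exact Finset.map_injective _ h1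
  · intro h1
    rw [h1, hS]

/-- the part with the set `S` under a permutation which preserves `S` and fixes `w` -/
theorem pr_perm_eq (k : Fin v) (w : A) (S : Finset A) (π : Equiv.Perm A)
    (h : ∀ a, a ∈ S → π a ∈ S) (hw : π w = w) (f : PX K A v) :
    ren π (pr k w (fun J => J = S) f) = pr k w (fun J => J = S) (ren π f) := by
  have h7 := (PR_thm K A v k w).2.2.2.2.2.2.1 (fun J => J = S) π f hw
  rw [h7]
  congr 2
  funext J
  exact (map_eq h J).symm

/-- permutations which preserve `S` preserve the product -/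
theorem xS_perm (k : Fin v) (S : Finset A) (π : Equiv.Perm A) (h : ∀ a, a ∈ S → π a ∈ S) :
    ren π (xS (Pi.single k 1) S : PX K A v) = xS (Pi.single k 1) S := by
  rw [(DIV_thm DG_thm K A A v (Pi.single k 1) (single_ne k)).2.2.2.2.2.2 π S π.injective.injOn]
  congr 1
  refine Finset.eq_of_subset_of_card_le ?_ (by rw [Finset.card_image_of_injective _ π.injective])
  intro b hb
  rw [Finset.mem_image] at hb
  obtain ⟨a, ha, rfl⟩ := hb
  exact h a ha

/-- The part of `g` for one set `S`. -/
theorem part [CharZero K] {M e p n : ℕ} (h2 : Stmt_RTH) (hF : FNR K v M e p n) {Λ : Finset A}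
    {w c : A} {g f : PX K A (v + 1)} (hw : w ∉ Λ) (hc : c ∈ Λ) (hcard : Λ.card = p + 1)
    (hd : Dg (dgc M ∅ ∅ Λ w (e + 1)) g) (hg : Al Λ g)
    (hf : X (w, Fin.last v) * f = ren (mv c w) g) {S : Finset A} (hS : S ⊆ Λ)
    (hSn : S.card = n) :
    ∃ T : PX K A (v + 1), BdR M e Λ w c T ∧
      ren (mv c w) (alt Λ (pr (Fin.last v) w (fun J => J = S) g)) = X (w, Fin.last v) * T := by
  set k : Fin (v + 1) := Fin.last v with hk
  obtain ⟨p1, p2, p3, p4, p5, p6, p7, p8, p9, p10⟩ := PR_thm K A (v + 1) k w
  set gS : PX K A (v + 1) := pr k w (fun J => J = S) g with hgS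
  -- monomials of `gS`
  have hm : ∀ m ∈ gS.support, m (w, k) = 0 ∧ js k w m = S ∧ m ∈ g.support := by
    intro m hm
    have h := PR.supp_pr hm
    exact ⟨h.2.1, h.2.2, h.1⟩
  have hSu : ∀ m ∈ gS.support, ∀ u ∈ S, m (u, k) ≠ 0 := by
    intro m h u hu
    have h' := hm m h
    rw [← h'.2.1] at hu
    exact (PR.mem_js.1 hu).2
  obtain ⟨h, hh, hs⟩ := div_ex hSu
  set C : Finset A := Λ \ S with hC
  have hSC : S ∪ C = Λ := Finset.union_sdiff_of_subset hS
  have hcf : CfR S C w c :=
    { SC := Finset.disjoint_sdiff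
      wS := fun h => hw (hS h)
      wC := fun h => hw (Finset.mem_sdiff.1 h).1
      mem := by rw [hSC]; exact hc }
  have hcan : ∀ a b : PX K A (v + 1), xS (Pi.single k 1) S * a = xS (Pi.single k 1) S * b →
      a = b := fun a b hab => mul_left_cancel₀ (xS_ne k S) hab
  -- alternation
  have hal : ∀ x ∈ Λ, ∀ y ∈ Λ, x ≠ y → (∀ a, a ∈ S → Equiv.swap x y a ∈ S) →
      ren (Equiv.swap x y) h = -h := by
    intro x hx y hy hxy hst
    have hxw : w ≠ x := fun h => hw (h ▸ hx)
    have hyw : w ≠ y := fun h => hw (h ▸ hy)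
    apply hcan
    have e1 := pr_perm_eq k w S (Equiv.swap x y) hst (Equiv.swap_apply_of_ne_of_ne hxw hyw) g
    rw [hg x hx y hy hxy, pr_neg, ← hgS, hh, map_mul, xS_perm k S _ hst] at e1
    rw [e1, mul_neg]
  have hcy : Cy C w h := by
    intro u hu
    rw [Finset.mem_sdiff] at hu
    have huw : u ≠ w := fun h => hw (h ▸ hu.1)
    have e1 := (p9 (fun J => J = S) u g huw (dvd_all hw hc hg hf u hu.1)).2 (by
      rintro J rfl
      exact hu.2)
    rw [← hgS, hh, map_mul] at e1
    have e2 : ren (mv u w) (xS (Pi.single k 1) S : PX K A (v + 1)) = xS (Pi.single k 1) S := by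
      have hid : ∀ a ∈ S, mv u w a = a := by
        intro a ha
        have hau : a ≠ u := fun h => hu.2 (h ▸ ha)
        unfold mv
        rw [Function.update_of_ne hau, id]
      rw [(DIV_thm DG_thm K A A (v + 1) (Pi.single k 1) (single_ne k)).2.2.2.2.2.2 (mv u w) S
        (fun a ha b hb hab => by
          rw [hid a ha, hid b hb] at hab
          exact hab)]
      congr 1
      rw [Finset.image_congr (g := id) fun a ha => hid a ha, Finset.image_id]
    rw [e2] at e1
    apply hcan
    rw [e1, mul_zero]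
  have hB : BdR M e (S ∪ C) w c (ThR S C w c (Pi.single k 1) h) := by
    refine hF A S C w c h hcf hSn ?_ ?_ ?_ ?_ ?_ ?_
    · rw [hC, Finset.card_sdiff_of_subset hS, hcard]
      have := Finset.card_le_card hS
      omega
    · intro m hm' x
      have e1 := hd _ (hm _ (hs m hm')).2.2 x
      simp only [Finsupp.add_apply] at e1
      rw [Finset.sum_add_distrib, ee_sum] at e1
      unfold dgc at e1 ⊢
      rw [Finset.empty_union] at e1 ⊢
      rw [if_neg (Finset.notMem_empty x)] at e1
      by_cases hxS : x ∈ S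
      · rw [if_pos hxS, if_pos (hS hxS)] at e1
        rw [if_pos hxS]
        omega
      · rw [if_neg hxS, zero_add] at e1
        rw [if_neg hxS]
        by_cases hxL : x ∈ Λ
        · rw [if_pos hxL] at e1
          rw [if_pos (Finset.mem_sdiff.2 ⟨hxL, hxS⟩)]
          exact e1
        · rw [if_neg hxL] at e1
          rw [if_neg fun h => hxL (Finset.mem_sdiff.1 h).1]
          exact e1
    · intro x hx y hy hxy
      refine hal x (hS hx) y (hS hy) hxy fun a ha => ?_
      rcases eq_or_ne a x with rfl | hax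
      · rw [Equiv.swap_apply_left]
        exact hy
      · rcases eq_or_ne a y with rfl | hay
        · rw [Equiv.swap_apply_right]
          exact hx
        · rw [Equiv.swap_apply_of_ne_of_ne hax hay]
          exact ha
    · intro x hx y hy hxy
      rw [Finset.mem_sdiff] at hx hy
      refine hal x hx.1 y hy.1 hxy fun a ha => ?_
      have hax : a ≠ x := fun h => hx.2 (h ▸ ha)
      have hay : a ≠ y := fun h => hy.2 (h ▸ ha)
      rw [Equiv.swap_apply_of_ne_of_ne hax hay]
      exact ha
    · exact hcy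
    · intro m hm' u hu
      have e1 := hm _ (hs m hm')
      by_cases huw : u = w
      · have e2 := e1.1
        rw [Finsupp.add_apply] at e2
        rw [huw]
        exact (Nat.add_eq_zero_iff.1 e2).2
      · by_contra h0
        refine hu ?_
        rw [← e1.2.1]
        refine PR.mem_js.2 ⟨huw, ?_⟩
        rw [Finsupp.add_apply]
        exact fun h => h0 (Nat.add_eq_zero_iff.1 h).2
  refine ⟨ThR S C w c (Pi.single k 1) h, by rwa [hSC] at hB, ?_⟩
  have e1 := (h2 K A (v + 1) S C w c hcf).1 (Pi.single k 1) h hcy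
  rw [hSC, lin_single, ← hh] at e1
  exact e1

/-- for monomials of `g` which do not contain `X (w, k)` the set `js` is in `Λ` -/
theorem js_eq {M e : ℕ} {Λ : Finset A} {w : A} {k : Fin v} {g : PX K A v} (hw : w ∉ Λ)
    (hd : Dg (dgc M ∅ ∅ Λ w (e + 1)) g) {m : A × Fin v →₀ ℕ} (hm : m ∈ g.support) :
    js k w m = Λ.filter fun u => 1 ≤ m (u, k) := by
  ext q
  rw [PR.mem_js, Finset.mem_filter]
  constructor
  · rintro ⟨hqw, hq⟩
    refine ⟨?_, Nat.one_le_iff_ne_zero.2 hq⟩
    by_contra hqL
    have e1 := hd m hm q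
    unfold dgc at e1
    rw [Finset.empty_union, if_neg (Finset.notMem_empty q), if_neg hqL, if_neg hqw] at e1
    exact hq (Finset.sum_eq_zero_iff.1 e1 k (Finset.mem_univ k))
  · rintro ⟨hqL, hq⟩
    exact ⟨fun h => hw (h ▸ hqL), Nat.one_le_iff_ne_zero.1 hq⟩

end RCS

/-- RCS: the step `CHR(n + 1), FNR(n) → CHR(n)`. -/
theorem RCS_thm (h1 : Stmt_RBD) (h2 : Stmt_RTH) : Stmt_RCS := by
  intro K _ _ v M e p n _ hF hN A _ _ Λ w c g f hw hc hcard hd hg hmon hf
  set k : Fin (v + 1) := Fin.last v with hk
  obtain ⟨p1, p2, p3, p4, p5, p6, p7, p8, p9, p10⟩ := PR_thm K A (v + 1) k w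
  obtain ⟨b1, b2, b3, b4, b5, b6, b7⟩ := h1 K A (v + 1) M e Λ w c
  have hpart : ∀ S : {S : Finset A // S ∈ Λ.powersetCard n}, ∃ T : PX K A (v + 1),
      BdR M e Λ w c T ∧
      ren (mv c w) (alt Λ (pr k w (fun J => J = S.1) g)) = X (w, k) * T := by
    intro S
    obtain ⟨hS1, hS2⟩ := Finset.mem_powersetCard.1 S.2
    exact RCS.part h2 hF hw hc hcard hd hg hf hS1 hS2
  choose T hT1 hT2 using hpart
  set gn : PX K A (v + 1) := pr k w (fun J => J.card = n) g with hgn
  have hsum : gn = ∑ S : {S : Finset A // S ∈ Λ.powersetCard n}, pr k w (fun J => J = S.1) g := by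
    ext m
    rw [coeff_sum]
    by_cases hmg : m ∈ g.support
    · by_cases hmc : m (w, k) = 0 ∧ (js k w m).card = n
      · have hmem : js k w m ∈ Λ.powersetCard n := by
          rw [Finset.mem_powersetCard]
          refine ⟨?_, hmc.2⟩
          rw [RCS.js_eq hw hd hmg]
          exact Finset.filter_subset _ _
        rw [hgn, (p1 (fun J => J.card = n) g m).1 hmc]
        rw [Finset.sum_eq_single (⟨js k w m, hmem⟩ : {S : Finset A // S ∈ Λ.powersetCard n})]
        · exact ((p1 (fun J => J = js k w m) g m).1 ⟨hmc.1, rfl⟩).symm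
        · intro S _ hS
          refine (p1 (fun J => J = S.1) g m).2 ?_
          rintro ⟨_, h⟩
          exact hS (Subtype.ext h.symm)
        · intro h
          exact absurd (Finset.mem_univ _) h
      · rw [hgn, (p1 (fun J => J.card = n) g m).2 hmc]
        symm
        refine Finset.sum_eq_zero fun S _ => (p1 (fun J => J = S.1) g m).2 ?_
        rintro ⟨h3, h4⟩
        refine hmc ⟨h3, ?_⟩
        rw [h4]
        exact (Finset.mem_powersetCard.1 S.2).2
    · have h0 : ∀ P : Finset A → Prop, coeff m (pr k w P g) = 0 := by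
        intro P
        by_cases hc' : m (w, k) = 0 ∧ P (js k w m)
        · rw [(p1 P g m).1 hc']
          exact notMem_support_iff.1 hmg
        · exact (p1 P g m).2 hc'
      rw [hgn, h0]
      symm
      exact Finset.sum_eq_zero fun S _ => h0 _
  have halt : Al Λ gn := by
    intro x hx y hy hxy
    rw [hgn, RCS.pr_card_swap k w n x y (fun h => hw (h ▸ hx)) (fun h => hw (h ▸ hy)),
      hg x hx y hy hxy, RCS.pr_neg]
  -- `|Λ|! • g_n`
  set N : K := (Λ.card.factorial : K) with hNdef
  have hN0 : N ≠ 0 := Nat.cast_ne_zero.2 (Nat.factorial_ne_zero _)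
  have hren : N • ren (mv c w) gn =
      X (w, k) * ∑ S : {S : Finset A // S ∈ Λ.powersetCard n}, T S := by
    have e1 : alt Λ gn = N • gn := by
      rw [SYM.alt_al halt, hNdef, natCast_zsmul, Nat.cast_smul_eq_nsmul]
    rw [← map_smul, ← e1, hsum, SYM.alt_sum, map_sum, Finset.mul_sum]
    exact Finset.sum_congr rfl fun S _ => hT2 S
  have hB : BdR M e Λ w c (f - N⁻¹ • ∑ S : {S : Finset A // S ∈ Λ.powersetCard n}, T S) := by
    refine hN A Λ w c (g - gn) _ hw hc hcard ?_ ?_ ?_ ?_
    · exact DG.sub hd (p3 _ _ g hd)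
    · exact (SYM.al_add hg halt).2
    · intro m hm hmw
      have hmn : (js k w m).card ≠ n := by
        intro h
        rw [mem_support_iff, coeff_sub, hgn, (p1 (fun J => J.card = n) g m).1 ⟨hmw, h⟩,
          sub_self] at hm
        exact hm rfl
      have hmg : m ∈ g.support := by
        rw [mem_support_iff, coeff_sub, hgn,
          (p1 (fun J => J.card = n) g m).2 (fun h => hmn h.2), sub_zero] at hm
        exact mem_support_iff.2 hm
      have e1 := hmon m hmg hmw
      rw [RCS.js_eq hw hd hmg] at hmn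
      exact lt_of_le_of_ne e1 (Ne.symm hmn)
    · rw [mul_sub, mul_smul_comm, ← hk, hf, ← hren, smul_smul, inv_mul_cancel₀ hN0, one_smul,
        ← map_sub]
  have hB2 := b3 N⁻¹ _ (b4 _ Finset.univ T fun S _ => hT1 S)
  have hB3 := (b2 _ _ hB hB2).1
  rwa [sub_add_cancel] at hB3

end Pool.Agent.VOP
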