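import Pool.Agent.VOP.StmtsN

/-!
# VOP, module N3: the `c`-trick
-/

namespace Pool.Agent.VOP

open MvPolynomial Pool.Agent.VSY

namespace N3

variable {K : Type} [Field K] {A : Type} {v : ℕ}

theorem lin_single (j : Fin v) (p : A) : (lin (Pi.single j (1 : K)) p : PX K A v) = X (p, j) := by
  classical
  unfold lin
  rw [Finset.sum_eq_single j]
  · simp
  · intro i _ hi
    rw [Pi.single_eq_of_ne hi]
    simp
  · intro h
    exact absurd (Finset.mem_univ j) h

theorem lin_add_smul (x y : Fin v → K) (c : K) (p : A) :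
    (lin (x + c • y) p : PX K A v) = lin x p + C c * lin y p := by
  unfold lin
  rw [Finset.mul_sum, ← Finset.sum_add_distrib]
  apply Finset.sum_congr rfl
  intro i _
  simp only [Pi.add_apply, Pi.smul_apply, smul_eq_mul, C_add, C_mul]
  ring

/-- Bicycles form a subspace. -/
def ZS [DecidableEq A] (M : ℕ) (T S C : Finset A) (w : A) (r : ℕ) :
    Submodule K (PX K A v) where
  carrier := {f | Zc M T S C w r f}
  zero_mem' := by
    refine ⟨⟨fun m hm => by simp at hm, fun x _ y _ => map_zero _, fun x _ y _ _ => ?_,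
      fun x _ y _ _ => ?_⟩, fun u _ => map_zero _, fun u _ => map_zero _⟩
    · rw [map_zero, neg_zero]
    · rw [map_zero, neg_zero]
  add_mem' := by
    intro f g hf hg
    refine ⟨⟨fun m hm x => ?_, fun x hx y hy => ?_, fun x hx y hy h => ?_,
      fun x hx y hy h => ?_⟩, fun u hu => ?_, fun u hu => ?_⟩
    · classical
      rcases Finset.mem_union.1 (support_add hm) with h | h
      · exact hf.cg.dg m h x
      · exact hg.cg.dg m h x
    · rw [map_add, hf.cg.sy x hx y hy, hg.cg.sy x hx y hy]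
    · rw [map_add, hf.cg.alS x hx y hy h, hg.cg.alS x hx y hy h, neg_add]
    · rw [map_add, hf.cg.alC x hx y hy h, hg.cg.alC x hx y hy h, neg_add]
    · rw [map_add, hf.cyS u hu, hg.cyS u hu, add_zero]
    · rw [map_add, hf.cyC u hu, hg.cyC u hu, add_zero]
  smul_mem' := by
    intro a f hf
    refine ⟨⟨fun m hm x => ?_, fun x hx y hy => ?_, fun x hx y hy h => ?_,
      fun x hx y hy h => ?_⟩, fun u hu => ?_, fun u hu => ?_⟩
    · exact hf.cg.dg m (support_smul hm) x
    · rw [map_smul, hf.cg.sy x hx y hy]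
    · rw [map_smul, hf.cg.alS x hx y hy h, smul_neg]
    · rw [map_smul, hf.cg.alC x hx y hy h, smul_neg]
    · rw [map_smul, hf.cyS u hu, smul_zero]
    · rw [map_smul, hf.cyC u hu, smul_zero]

theorem mem_ZS [DecidableEq A] {M : ℕ} {T S C : Finset A} {w : A} {r : ℕ} {f : PX K A v} :
    f ∈ ZS (K := K) (v := v) M T S C w r ↔ Zc M T S C w r f := Iff.rfl

/-- An algebra homomorphism congruent to the identity. -/
theorem congr_ideal (I : Ideal (PX K A v)) (φ : PX K A v →ₐ[K] PX K A v)
    (h : ∀ y, X y - φ (X y) ∈ I) (f : PX K A v) : f - φ f ∈ I := by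
  have h1 : (Ideal.Quotient.mkₐ K I) = (Ideal.Quotient.mkₐ K I).comp φ := by
    apply MvPolynomial.algHom_ext
    intro y
    rw [AlgHom.comp_apply, Ideal.Quotient.mkₐ_eq_mk, Ideal.Quotient.eq]
    exact h y
  have h2 := congrArg (fun ψ : PX K A v →ₐ[K] (PX K A v ⧸ I) => ψ f) h1
  rw [← Ideal.Quotient.eq]
  exact h2

/-- The substitution `X (p, k) ↦ a x(p)`. -/
noncomputable def sg [DecidableEq A] (k : Fin v) (x : Fin v → K) (a : K) :
    PX K A v →ₐ[K] PX K A v :=
  aeval fun y : A × Fin v => if y.2 = k then C a * lin x y.1 else X y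

theorem sg_eq [Fintype A] [DecidableEq A] (k : Fin v) (x : Fin v → K) (a : K) (M₀ : ℕ)
    (m : PX K A v) (hm : ∀ μ ∈ m.support, ∑ p, μ (p, k) = M₀) :
    sg k x a m = a ^ M₀ • sb (Function.update (fun j => Pi.single j 1) k x) m := by
  have hfun : (fun y : A × Fin v => if y.2 = k then C a * lin x y.1 else X y) =
      fun y : A × Fin v => (if y.2 = k then C a else 1) *
        (lin ((Function.update (fun j => Pi.single j (1 : K)) k x : Fin v → Fin v → K) y.2) y.1 :
          PX K A v) := by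
    funext y
    by_cases h : y.2 = k
    · rw [if_pos h, if_pos h, h, Function.update_self]
    · rw [if_neg h, if_neg h, Function.update_of_ne h, lin_single, one_mul]
  conv_lhs => rw [← support_sum_monomial_coeff m]
  conv_rhs => rw [← support_sum_monomial_coeff m]
  rw [map_sum, map_sum, Finset.smul_sum]
  apply Finset.sum_congr rfl
  intro μ hμ
  rw [sg, sb, hfun, aeval_monomial, aeval_monomial]
  simp only [mul_pow]
  rw [Finsupp.prod_mul]
  have h1 : (μ.prod fun (y : A × Fin v) n => (if y.2 = k then C a else 1 : PX K A v) ^ n) =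
      C (a ^ M₀) := by
    rw [Finsupp.prod_fintype _ _ (fun y => by rw [pow_zero]), Fintype.prod_prod_type]
    have h2 : ∀ p : A, ∏ j : Fin v, (if j = k then C a else 1 : PX K A v) ^ μ (p, j) =
        C a ^ μ (p, k) := by
      intro p
      rw [Finset.prod_eq_single k]
      · rw [if_pos rfl]
      · intro j _ hj
        rw [if_neg hj, one_pow]
      · intro h
        exact absurd (Finset.mem_univ k) h
    simp only [h2]
    rw [Finset.prod_pow_eq_pow_sum, hm μ hμ, C_pow]
  rw [h1, smul_eq_C_mul]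
  ring

/-- Expansion of a product in powers of `c`. -/
theorem expd [DecidableEq A] (x y : Fin v → K) (S : Finset A) (G : ℕ → PX K A v) (N : ℕ) :
    ∃ P : ℕ → PX K A v, P 0 = xS x S * G 0 ∧ ∀ c : K,
      xS (x + c • y) S * ∑ n ∈ Finset.range (N + 1), c ^ n • G n =
        ∑ n ∈ Finset.range (S.card + N + 1), c ^ n • P n := by
  set Q : Polynomial (PX K A v) :=
    (∏ p ∈ S, (Polynomial.C (lin x p) + Polynomial.C (lin y p) * Polynomial.X)) *
      ∑ n ∈ Finset.range (N + 1), Polynomial.C (G n) * Polynomial.X ^ n with hQ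
  have hdeg : Q.natDegree < S.card + N + 1 := by
    have h1 : (∏ p ∈ S, (Polynomial.C (lin x p : PX K A v) +
        Polynomial.C (lin y p) * Polynomial.X)).natDegree ≤ S.card := by
      refine (Polynomial.natDegree_prod_le _ _).trans ?_
      calc _ ≤ ∑ _p ∈ S, 1 := by
            apply Finset.sum_le_sum
            intro p _
            refine (Polynomial.natDegree_add_le _ _).trans (max_le ?_ ?_)
            · rw [Polynomial.natDegree_C]
              exact Nat.zero_le _
            · exact (Polynomial.natDegree_C_mul_le _ _).trans Polynomial.natDegree_X_le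
        _ = S.card := by simp
    have h2 : (∑ n ∈ Finset.range (N + 1), Polynomial.C (G n) * Polynomial.X ^ n).natDegree ≤
        N := by
      apply Polynomial.natDegree_sum_le_of_forall_le
      intro n hn
      have := Finset.mem_range.1 hn
      exact (Polynomial.natDegree_C_mul_X_pow_le _ _).trans (by omega)
    have h3 := Polynomial.natDegree_mul_le (p := ∏ p ∈ S, (Polynomial.C (lin x p : PX K A v) +
        Polynomial.C (lin y p) * Polynomial.X))
      (q := ∑ n ∈ Finset.range (N + 1), Polynomial.C (G n) * Polynomial.X ^ n)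
    rw [hQ]
    omega
  have hev : ∀ e : PX K A v, Q.eval e = (∏ p ∈ S, (lin x p + lin y p * e)) *
      ∑ n ∈ Finset.range (N + 1), G n * e ^ n := by
    intro e
    rw [hQ, Polynomial.eval_mul, Polynomial.eval_prod, Polynomial.eval_finsetSum]
    simp only [Polynomial.eval_add, Polynomial.eval_C, Polynomial.eval_mul, Polynomial.eval_X,
      Polynomial.eval_pow]
  refine ⟨fun n => Q.coeff n, ?_, ?_⟩
  · change Q.coeff 0 = _
    rw [Polynomial.coeff_zero_eq_eval_zero, hev]
    have h1 : ∑ n ∈ Finset.range (N + 1), G n * (0 : PX K A v) ^ n = G 0 := by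
      rw [Finset.sum_eq_single 0]
      · simp
      · intro n _ hn
        rw [zero_pow hn, mul_zero]
      · intro h
        simp at h
    rw [h1]
    simp only [mul_zero, add_zero]
    rfl
  · intro c
    have h1 := hev (C c)
    rw [Polynomial.eval_eq_sum_range' hdeg] at h1
    have h2 : ∀ n, c ^ n • Q.coeff n = Q.coeff n * C c ^ n := by
      intro n
      rw [smul_eq_C_mul, C_pow, mul_comm]
    have h3 : ∀ n, c ^ n • G n = G n * C c ^ n := by
      intro n
      rw [smul_eq_C_mul, C_pow, mul_comm]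
    simp only [h2, h3]
    rw [h1]
    congr 1
    unfold xS
    apply Finset.prod_congr rfl
    intro p _
    rw [lin_add_smul]
    ring

theorem main (h3 : Stmt_SYM) (h4 : Stmt_GD0) (h5 : Stmt_SBT) (h6 : Stmt_LFT) (h7 : Stmt_FAM)
    (h8 : Stmt_VDM) : Stmt_N3 := by
  intro K _ _ v M β t s l i hv hN0 hLIFT hALP A _ _ T S Cc T₁ S₁ w k m M₀ hCf hSp hT hS hCl hT₁
    hS₁ hi hm hM₀ hlt x b f hx hb hLR
  classical
  -- good polynomials
  have hCf' : Cf T ∅ (S ∪ Cc) w := by
    refine ⟨Finset.disjoint_empty_right _, ?_, Finset.disjoint_empty_left _, hCf.wT,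
      Finset.notMem_empty _, ?_⟩
    · rw [Finset.disjoint_union_right]
      exact ⟨hCf.TS, hCf.TC⟩
    · rw [Finset.mem_union, not_or]
      exact ⟨hCf.wS, hCf.wC⟩
  obtain ⟨-, -, hG0, hGadd, hGsmul, -, -, -⟩ := h4 K A v M β T (S ∪ Cc) w hCf'
  let U : Submodule K (PX K A v) :=
    { carrier := {f | Good M β T (S ∪ Cc) w f}
      zero_mem' := hG0
      add_mem' := fun {f g} hf hg => (hGadd f g hf hg).1
      smul_mem' := fun a f hf => hGsmul a f hf }
  set y : Fin v → K := Pi.single k 1 with hy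
  set g₀ : Fin v → Fin v → K := Function.update (fun j => Pi.single j 1) k x with hg₀
  set m' : PX K A v := sb g₀ m with hm'def
  have hm' : Zc M (T \ T₁) (S \ S₁) Cc w (2 * M + 2 + β) m' :=
    ((h5 K v).2.2.1 A M β (2 * M + 2 + β) (T \ T₁) (S \ S₁) Cc w g₀ m).1 hm
  obtain ⟨F, hF1, -, hF3⟩ := h7 K v M β s l hv hLIFT A T S Cc T₁ S₁ w x y b m hCf hS hCl hT₁ hS₁
    hb hm
  obtain ⟨F', hF1', -, hF3'⟩ := h7 K v M β s l hv hLIFT A T S Cc T₁ S₁ w x y b m' hCf hS hCl hT₁
    hS₁ hb hm'
  rw [hi] at hF3 hF3'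
  obtain ⟨P, hP0, hP⟩ := expd x y S F i
  obtain ⟨P', -, hP'⟩ := expd x y S F' i
  rw [hS] at hP hP'
  -- linearity
  have hlin : ∀ (q m m' : PX K A v) (a : K), smz T (alt S (q * (m - a • m'))) =
      smz T (alt S (q * m)) - a • smz T (alt S (q * m')) := by
    intro q m m' a
    obtain ⟨-, -, -, -, -, -, -, -, hsl, -⟩ := h3 K A v
    have e1 : q * (m - a • m') = q * m + (-a) • (q * m') := by
      rw [mul_sub, mul_smul_comm, neg_smul, sub_eq_add_neg]
    rw [e1, (hsl S (q * m) ((-a) • (q * m')) 0).1, (hsl S (q * m') 0 (-a)).2.2.1,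
      (hsl T (alt S (q * m)) ((-a) • alt S (q * m')) 0).2.1,
      (hsl T (alt S (q * m')) 0 (-a)).2.2.2.1, neg_smul, ← sub_eq_add_neg]
  -- the sequence for the Vandermonde argument
  set zz : ℕ → PX K A v := fun j =>
    (if j < s + i + 1 then -((-1 : K) ^ M₀ • P' j) else 0) +
      (if M₀ ≤ j then P (j - M₀) else 0) with hzz
  have hsum : ∀ c : K, ∑ j ∈ Finset.range (M₀ + (s + i + 1)), c ^ j • zz j =
      c ^ M₀ • (∑ n ∈ Finset.range (s + i + 1), c ^ n • P n) -
        (-1 : K) ^ M₀ • ∑ n ∈ Finset.range (s + i + 1), c ^ n • P' n := by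
    intro c
    have e1 : ∑ j ∈ Finset.range (M₀ + (s + i + 1)), c ^ j • zz j =
        ∑ j ∈ Finset.range ((s + i + 1) + M₀),
          c ^ j • (if j < s + i + 1 then -((-1 : K) ^ M₀ • P' j) else 0) +
        ∑ j ∈ Finset.range (M₀ + (s + i + 1)), c ^ j • (if M₀ ≤ j then P (j - M₀) else 0) := by
      rw [add_comm (s + i + 1) M₀, ← Finset.sum_add_distrib]
      apply Finset.sum_congr rfl
      intro j _
      rw [hzz, ← smul_add]
    rw [e1, Finset.sum_range_add _ (s + i + 1) M₀, Finset.sum_range_add _ M₀ (s + i + 1)]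
    have e2 : ∑ j ∈ Finset.range M₀,
        c ^ (s + i + 1 + j) • (if s + i + 1 + j < s + i + 1 then
          -((-1 : K) ^ M₀ • P' (s + i + 1 + j)) else 0) = 0 := by
      apply Finset.sum_eq_zero
      intro j _
      rw [if_neg (by omega), smul_zero]
    have e3 : ∑ j ∈ Finset.range M₀, c ^ j • (if M₀ ≤ j then P (j - M₀) else 0) = 0 := by
      apply Finset.sum_eq_zero
      intro j hj
      have := Finset.mem_range.1 hj
      rw [if_neg (by omega), smul_zero]
    have e4 : ∑ j ∈ Finset.range (s + i + 1),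
        c ^ j • (if j < s + i + 1 then -((-1 : K) ^ M₀ • P' j) else 0) =
        -((-1 : K) ^ M₀ • ∑ n ∈ Finset.range (s + i + 1), c ^ n • P' n) := by
      rw [Finset.smul_sum, ← Finset.sum_neg_distrib]
      apply Finset.sum_congr rfl
      intro j hj
      rw [if_pos (Finset.mem_range.1 hj), smul_neg, smul_comm]
    have e5 : ∑ j ∈ Finset.range (s + i + 1),
        c ^ (M₀ + j) • (if M₀ ≤ M₀ + j then P (M₀ + j - M₀) else 0) =
        c ^ M₀ • ∑ n ∈ Finset.range (s + i + 1), c ^ n • P n := by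
      rw [Finset.smul_sum]
      apply Finset.sum_congr rfl
      intro j _
      rw [if_pos (by omega), Nat.add_sub_cancel_left, smul_smul, pow_add]
    rw [e2, e3, e4, e5, add_zero, zero_add, sub_eq_add_neg, add_comm]
  have hgood : ∀ c : K, c ∉ ({0, -(x k)} : Finset K) →
      ∑ j ∈ Finset.range (M₀ + (s + i) + 1), c ^ j • zz j ∈ U := by
    intro c hc
    rw [Finset.mem_insert, Finset.mem_singleton, not_or] at hc
    obtain ⟨hc0, hck⟩ := hc
    set z : Fin v → K := x + c • y with hz
    have hzk : z k = x k + c := by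
      rw [hz, hy]
      simp
    have hz0 : z ≠ 0 := by
      intro h0
      apply hck
      have e1 := congrFun h0 k
      rw [hzk] at e1
      exact eq_neg_of_add_eq_zero_right e1
    set a : K := -c⁻¹ with ha
    have hac : c ^ M₀ * a ^ M₀ = (-1) ^ M₀ := by
      rw [← mul_pow, ha, mul_neg, mul_inv_cancel₀ hc0]
    -- the ideal
    have hid : m - a ^ M₀ • m' ∈ Ideal.span (Set.range fun p : A => (lin z p : PX K A v)) := by
      rw [hm'def, hg₀, ← sg_eq k x a M₀ m hM₀]
      apply congr_ideal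
      rintro ⟨p, j⟩
      rw [sg, aeval_X]
      by_cases hj : j = k
      · rw [if_pos hj, hj]
        have e2 : (X (p, k) - C a * lin x p : PX K A v) = C c⁻¹ * lin z p := by
          rw [hz, lin_add_smul, hy, lin_single, ha, mul_add, ← mul_assoc (C c⁻¹) (C c), ← C_mul,
            inv_mul_cancel₀ hc0, C_1, C_neg]
          ring
        rw [e2]
        exact Ideal.mul_mem_left _ _ (Ideal.subset_span ⟨p, rfl⟩)
      · rw [if_neg hj, sub_self]
        exact Ideal.zero_mem _
    have hμ : Zc M (T \ T₁) (S \ S₁) Cc w (2 * M + 2 + β) (m - a ^ M₀ • m') :=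
      mem_ZS.1 (Submodule.sub_mem _ (mem_ZS.2 hm) (Submodule.smul_mem _ _ (mem_ZS.2 hm')))
    set fc : PX K A v := (∑ n ∈ Finset.range (i + 1), c ^ n • F n) -
      a ^ M₀ • ∑ n ∈ Finset.range (i + 1), c ^ n • F' n with hfc
    have hfcZ : Zc M T S Cc w (2 * M + 2 + β) fc := by
      apply mem_ZS.1
      apply Submodule.sub_mem
      · exact Submodule.sum_mem _ fun n _ => Submodule.smul_mem _ _ (mem_ZS.2 (hF1 n))
      · exact Submodule.smul_mem _ _
          (Submodule.sum_mem _ fun n _ => Submodule.smul_mem _ _ (mem_ZS.2 (hF1' n)))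
    have hLRc : LR M β T S Cc T₁ S₁ w z b (m - a ^ M₀ • m') fc := by
      refine ⟨hfcZ, ?_⟩
      rw [hlin, hfc]
      have e3 := dvd_sub (hF3 c) ((hF3' c).mul_left (C (a ^ M₀)))
      have e4 : smz T (alt S (xb z b (T₁ ∪ S₁) * m)) -
          a ^ M₀ • smz T (alt S (xb z b (T₁ ∪ S₁) * m')) -
          ((∑ n ∈ Finset.range (i + 1), c ^ n • F n) -
            a ^ M₀ • ∑ n ∈ Finset.range (i + 1), c ^ n • F' n) =
          smz T (alt S (xb z b (T₁ ∪ S₁) * m)) - (∑ n ∈ Finset.range (i + 1), c ^ n • F n) -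
            C (a ^ M₀) * (smz T (alt S (xb z b (T₁ ∪ S₁) * m')) -
              ∑ n ∈ Finset.range (i + 1), c ^ n • F' n) := by
        rw [smul_eq_C_mul, smul_eq_C_mul]
        ring
      rw [e4]
      exact e3
    have hGc := hN0 A T S Cc T₁ S₁ w z b (m - a ^ M₀ • m') fc hCf hSp hT hS hCl hT₁ hS₁ hi hz0 hb
      hμ hid hLRc
    have hGc' := hGsmul (c ^ M₀) _ hGc
    have e5 : ∑ j ∈ Finset.range (M₀ + (s + i) + 1), c ^ j • zz j = c ^ M₀ • (xS z S * fc) := by
      have e6 := hsum c
      rw [← add_assoc M₀ (s + i) 1] at e6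
      rw [e6, ← hP c, ← hP' c, hfc, mul_sub, smul_sub, mul_smul_comm, smul_smul, hac]
    rw [e5]
    exact hGc'
  have hP0U : zz M₀ ∈ U := h8 K (PX K A v) U (M₀ + (s + i)) zz {0, -(x k)} hgood M₀ (by omega)
  have hzM : zz M₀ = P 0 := by
    rw [hzz]
    change (if M₀ < s + i + 1 then -((-1 : K) ^ M₀ • P' M₀) else 0) +
      (if M₀ ≤ M₀ then P (M₀ - M₀) else 0) = P 0
    rw [if_neg (by omega), if_pos le_rfl, Nat.sub_self, zero_add]
  rw [hzM, hP0] at hP0U
  -- the value at zero
  have hd0 := hF3 0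
  rw [zero_smul, add_zero] at hd0
  have hs0 : ∑ n ∈ Finset.range (i + 1), (0 : K) ^ n • F n = F 0 := by
    rw [Finset.sum_eq_single 0]
    · rw [pow_zero, one_smul]
    · intro n _ hn
      rw [zero_pow hn, zero_smul]
    · intro h
      simp at h
  rw [hs0] at hd0
  have hd : lin x w ∣ f - F 0 := by
    have h9 := dvd_sub hd0 hLR.2
    have h10 : smz T (alt S (xb x b (T₁ ∪ S₁) * m)) - F 0 -
        (smz T (alt S (xb x b (T₁ ∪ S₁) * m)) - f) = f - F 0 := by ring
    rwa [h10] at h9
  exact (h6 K v M β t s l).2 hALP A T S Cc w x f (F 0) hCf hSp hT hS hCl hx hLR.1 (hF1 0) hd hP0U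

end N3

theorem N3_thm (_h1 : Stmt_DG) (_h2 : Stmt_DIV) (h3 : Stmt_SYM) (h4 : Stmt_GD0) (h5 : Stmt_SBT)
    (h6 : Stmt_LFT) (h7 : Stmt_FAM) (h8 : Stmt_VDM) : Stmt_N3 :=
  N3.main h3 h4 h5 h6 h7 h8

end Pool.Agent.VOP
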