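import Pool.Agent.VOP.StmtsR
import Pool.Agent.VOP.N3
import Pool.Agent.VOP.DG
import Pool.Agent.VOP.SBT
import Pool.Agent.VOP.VDM
import Pool.Agent.VSY.VAR

/-!
# VOP, module RCT: the `c`-trick for the first row criterion
-/

namespace Pool.Agent.VOP

open MvPolynomial Pool.Agent.VSY

namespace RCT

variable {K : Type} [Field K] {A : Type}

/-- More coordinates: degrees. -/
theorem dg_up {v m : ℕ} (h : v ≤ m) {δ : A → ℕ} {f : PX K A v} (hf : Dg δ f) :
    Dg δ (up h f) := by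
  intro μ hμ x
  rw [mem_support_iff, up] at hμ
  obtain ⟨μ', rfl, h2⟩ := coeff_rename_ne_zero _ _ _ hμ
  rw [VAR.sum_mapDomain]
  exact hf μ' (mem_support_iff.2 h2) x

/-- More coordinates: bicycles. -/
theorem zc_up [DecidableEq A] {v m : ℕ} (h : v ≤ m) {M r : ℕ} {T S C : Finset A} {w : A}
    {f : PX K A v} (hf : Zc M T S C w r f) : Zc M T S C w r (up h f) := by
  refine ⟨⟨dg_up h hf.cg.dg, fun x hx y hy => ?_, fun x hx y hy hne => ?_,
    fun x hx y hy hne => ?_⟩, fun u hu => ?_, fun u hu => ?_⟩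
  · rw [VAR.ren_up, hf.cg.sy x hx y hy]
  · rw [VAR.ren_up, hf.cg.alS x hx y hy hne, map_neg]
  · rw [VAR.ren_up, hf.cg.alC x hx y hy hne, map_neg]
  · rw [VAR.ren_up, hf.cyS u hu, map_zero]
  · rw [VAR.ren_up, hf.cyC u hu, map_zero]

/-- Two algebra homomorphisms which agree modulo an ideal. -/
theorem congr_two {v : ℕ} (I : Ideal (PX K A v)) (φ ψ : PX K A v →ₐ[K] PX K A v)
    (h : ∀ y, φ (X y) - ψ (X y) ∈ I) (f : PX K A v) : φ f - ψ f ∈ I := by
  have h1 : (Ideal.Quotient.mkₐ K I).comp φ = (Ideal.Quotient.mkₐ K I).comp ψ := by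
    apply MvPolynomial.algHom_ext
    intro y
    rw [AlgHom.comp_apply, AlgHom.comp_apply, Ideal.Quotient.mkₐ_eq_mk, Ideal.Quotient.eq]
    exact h y
  have h2 := congrArg (fun χ : PX K A v →ₐ[K] (PX K A v ⧸ I) => χ f) h1
  rw [← Ideal.Quotient.eq]
  exact h2

theorem sb_id {v : ℕ} (f : PX K A v) : sb (fun j => Pi.single j (1 : K)) f = f := by
  have h1 : (sb (fun j => Pi.single j (1 : K)) : PX K A v →ₐ[K] PX K A v) = AlgHom.id K _ := by
    apply MvPolynomial.algHom_ext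
    rintro ⟨p, i⟩
    rw [sb, aeval_X, AlgHom.id_apply]
    exact N3.lin_single i p
  rw [h1, AlgHom.id_apply]

/-- The exponents of the coordinate `castSucc j`. -/
theorem up_exp [Fintype A] {v : ℕ} {j : Fin v} {M₀ : ℕ} {κ : PX K A v}
    (hM₀ : ∀ μ ∈ κ.support, ∑ q, μ (q, j) = M₀) :
    ∀ μ ∈ (up (Nat.le_succ v) κ).support, ∑ q, μ (q, Fin.castSucc j) = M₀ := by
  intro μ hμ
  rw [mem_support_iff, up] at hμ
  obtain ⟨μ', rfl, h2⟩ := coeff_rename_ne_zero _ _ _ hμ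
  rw [← hM₀ μ' (mem_support_iff.2 h2)]
  refine Finset.sum_congr rfl fun q _ => ?_
  exact Finsupp.mapDomain_apply (VAR.iota_inj (Nat.le_succ v)) μ' (q, j)

/-- The ideal of the `z(q)`. -/
theorem mem_ideal [Fintype A] [DecidableEq A] {v : ℕ} (j : Fin v) (M₀ : ℕ) (t : K)
    (κ₁ : PX K A (v + 1)) (hM₀ : ∀ μ ∈ κ₁.support, ∑ q, μ (q, Fin.castSucc j) = M₀) :
    sb (Function.update (fun i => Pi.single i (1 : K)) (Fin.castSucc j)
      (Pi.single (Fin.last v) 1)) κ₁ - (-t) ^ M₀ • κ₁ ∈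
      Ideal.span (Set.range fun q : A => (lin (zt v j t) q : PX K A (v + 1))) := by
  have h1 : (-t) ^ M₀ • κ₁ = N3.sg (Fin.castSucc j) (Pi.single (Fin.castSucc j) (1 : K)) (-t) κ₁ := by
    rw [N3.sg_eq _ _ _ M₀ _ hM₀, Function.update_eq_self_iff.2 rfl, sb_id]
  rw [h1]
  apply congr_two
  rintro ⟨q, i⟩
  rw [sb, N3.sg, aeval_X, aeval_X]
  by_cases hi : i = Fin.castSucc j
  · subst hi
    rw [if_pos rfl, Function.update_self, N3.lin_single, N3.lin_single]
    have : (X (q, Fin.last v) - C (-t) * X (q, Fin.castSucc j) : PX K A (v + 1)) =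
        lin (zt v j t) q := by
      rw [zt, N3.lin_add_smul, N3.lin_single, N3.lin_single, C_neg]
      ring
    rw [this]
    exact Ideal.subset_span ⟨q, rfl⟩
  · rw [if_neg hi]
    simp only [Function.update_of_ne hi, N3.lin_single, sub_self]
    exact Ideal.zero_mem _

end RCT

open RCT in
theorem RCT_thm (h1 : Stmt_RBD) (h2 : Stmt_RTH) (h3 : Stmt_RN0) : Stmt_RCT := by
  intro K _ _ v M e p n hCHR A _ _ S C w c j M₀ b κ hCf hSn hcard hb hκ hM₀ hn
  set κ₁ : PX K A (v + 1) := up (Nat.le_succ v) κ with hκ₁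
  set g₀ : Fin (v + 1) → Fin (v + 1) → K := Function.update (fun i => Pi.single i (1 : K))
    (Fin.castSucc j) (Pi.single (Fin.last v) 1) with hg₀
  set κ' : PX K A (v + 1) := sb g₀ κ₁ with hκ'
  have hZ₁ : Zc M ∅ ∅ C w (e + 1) κ₁ := zc_up _ hκ
  have hZ' : Zc M ∅ ∅ C w (e + 1) κ' := ((SBT_thm DG_thm K (v + 1)).2.2.1 A M 0 (e + 1) ∅ ∅ C w g₀ κ₁).1 hZ₁
  obtain ⟨-, hlin, hexp, -, -⟩ := h2 K A (v + 1) S C w c hCf
  obtain ⟨P, hP0, hPz, hP⟩ := hexp (Pi.single (Fin.last v) 1) (Pi.single (Fin.castSucc j) 1) (b * κ₁)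
  obtain ⟨P', -, hPz', hP'⟩ := hexp (Pi.single (Fin.last v) 1) (Pi.single (Fin.castSucc j) 1) (b * κ')
  rw [hSn] at hPz hP hPz' hP'
  obtain ⟨hB0, hBa, hBs, -⟩ := h1 K A (v + 1) M e (S ∪ C) w c
  let U : Submodule K (PX K A (v + 1)) :=
    { carrier := {f | BdR M e (S ∪ C) w c f}
      zero_mem' := hB0
      add_mem' := fun {f g} hf hg => (hBa f g hf hg).1
      smul_mem' := fun a f hf => hBs a f hf }
  let Z : ℕ → PX K A (v + 1) := fun i =>
    P' i - if M₀ ≤ i then (-1 : K) ^ M₀ • P (i - M₀) else 0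
  have key : ∀ t : K, t ∉ (∅ : Finset K) →
      ∑ i ∈ Finset.range (M₀ + n + 1), t ^ i • Z i ∈ U := by
    intro t _
    have hR := h3 K v M e p n hCHR A S C w c j t b (κ' - (-t) ^ M₀ • κ₁) hCf hSn hcard hb
      (N3.mem_ZS.1 (Submodule.sub_mem _ (N3.mem_ZS.2 hZ')
        (Submodule.smul_mem _ _ (N3.mem_ZS.2 hZ₁))))
      (mem_ideal j M₀ t κ₁ (up_exp hM₀))
    have e1 : b * (κ' - (-t) ^ M₀ • κ₁) = b * κ' - (-t) ^ M₀ • (b * κ₁) := by
      rw [mul_sub, mul_smul_comm]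
    rw [e1, (hlin (zt v j t) (b * κ') ((-t) ^ M₀ • (b * κ₁)) 0).2.1,
      (hlin (zt v j t) (b * κ₁) 0 ((-t) ^ M₀)).2.2.1] at hR
    have e2 : ThR S C w c (zt v j t) (b * κ') = ∑ i ∈ Finset.range n, t ^ i • P' i := hP' t
    have e3 : ThR S C w c (zt v j t) (b * κ₁) = ∑ i ∈ Finset.range n, t ^ i • P i := hP t
    rw [e2, e3] at hR
    have e4 : ∑ i ∈ Finset.range (M₀ + n + 1), t ^ i • Z i =
        ∑ i ∈ Finset.range n, t ^ i • P' i - (-t) ^ M₀ • ∑ i ∈ Finset.range n, t ^ i • P i := by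
      have f1 : ∑ i ∈ Finset.range (M₀ + n + 1), t ^ i • P' i =
          ∑ i ∈ Finset.range n, t ^ i • P' i := by
        symm
        refine Finset.sum_subset (fun i hi => ?_) fun i _ hi => ?_
        · rw [Finset.mem_range] at hi ⊢
          omega
        · rw [Finset.mem_range, not_lt] at hi
          rw [hPz' i hi, smul_zero]
      have f2 : ∑ i ∈ Finset.range (M₀ + n + 1),
          t ^ i • (if M₀ ≤ i then (-1 : K) ^ M₀ • P (i - M₀) else 0) =
          (-t) ^ M₀ • ∑ i ∈ Finset.range n, t ^ i • P i := by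
        rw [add_assoc, Finset.sum_range_add]
        have f3 : ∑ i ∈ Finset.range M₀,
            t ^ i • (if M₀ ≤ i then (-1 : K) ^ M₀ • P (i - M₀) else 0) = 0 := by
          refine Finset.sum_eq_zero fun i hi => ?_
          have := Finset.mem_range.1 hi
          rw [if_neg (by omega), smul_zero]
        rw [f3, zero_add, Finset.sum_range_succ, Finset.smul_sum]
        have f4 : t ^ (M₀ + n) • (if M₀ ≤ M₀ + n then (-1 : K) ^ M₀ • P (M₀ + n - M₀) else 0) =
            0 := by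
          rw [if_pos (by omega), Nat.add_sub_cancel_left, hPz n le_rfl, smul_zero, smul_zero]
        rw [f4, add_zero]
        refine Finset.sum_congr rfl fun i _ => ?_
        rw [if_pos (by omega), Nat.add_sub_cancel_left, smul_smul, smul_smul]
        congr 1
        rw [neg_pow t, pow_add]
        ring
      have f5 : ∀ i, t ^ i • Z i = t ^ i • P' i -
          t ^ i • (if M₀ ≤ i then (-1 : K) ^ M₀ • P (i - M₀) else 0) := fun i => smul_sub _ _ _
      simp_rw [f5]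
      rw [Finset.sum_sub_distrib, f1, f2]
    rw [e4]
    exact hR
  have hZM : Z M₀ ∈ U := VDM_thm K (PX K A (v + 1)) U (M₀ + n) Z ∅ key M₀ (by omega)
  have e5 : Z M₀ = -((-1 : K) ^ M₀ • P 0) := by
    simp only [Z]
    rw [if_pos le_rfl, Nat.sub_self, hPz' M₀ hn, zero_sub]
  have e6 : P 0 = (-((-1 : K) ^ M₀)) • Z M₀ := by
    rw [e5, smul_neg, neg_smul, neg_neg, smul_smul, ← mul_pow, neg_one_mul, neg_neg, one_pow,
      one_smul]
  have e7 : P 0 ∈ U := by
    rw [e6]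
    exact Submodule.smul_mem _ _ hZM
  rw [hP0] at e7
  exact e7

end Pool.Agent.VOP
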