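import Pool.Agent.VOP.StmtsR
import Pool.Agent.VOP.DG
import Pool.Agent.VOP.EXP
import Pool.Agent.VSY.VAR

/-!
# Module REX: expansion with respect to the letters of `S`
-/

namespace Pool.Agent.VOP

open MvPolynomial Pool.Agent.VSY

namespace REX

variable {K : Type} [Field K] {A : Type} {v : ℕ}

/-- The monomials of a coefficient are restrictions of monomials. -/
theorem supp_EE (S : Finset A) (α : A × Fin v →₀ ℕ) (f : PX K A v) {μ : A × Fin v →₀ ℕ}
    (hμ : μ ∈ (EXP.EE K S α f).support) :
    ∃ m ∈ f.support, ∀ y, (y.1 ∈ S → μ y = 0) ∧ (y.1 ∉ S → μ y = m y) := by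
  classical
  rw [f.as_sum, map_sum] at hμ
  obtain ⟨m, hm, h1⟩ := Finset.mem_biUnion.1 (support_sum hμ)
  rw [EXP.EE_monomial] at h1
  refine ⟨m, hm, ?_⟩
  split_ifs at h1 with h2
  · have h3 := support_monomial_subset h1
    rw [Finset.mem_singleton] at h3
    subst h3
    exact fun y => ⟨fun h => Finsupp.filter_apply_neg _ _ (fun h' => h' h),
      fun h => Finsupp.filter_apply_pos _ _ h⟩
  · rw [support_zero] at h1
    exact absurd h1 (Finset.notMem_empty μ)

theorem dg_down {δ : A → ℕ} {f : PX K A (v + 1)} (hf : Dg δ f) :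
    Dg δ (down (v := v) f) := by
  intro μ hμ x
  rw [mem_support_iff, VAR.coeff_down (Nat.le_succ v)] at hμ
  have h1 := hf _ (mem_support_iff.2 hμ) x
  rwa [VAR.sum_mapDomain] at h1

end REX

open REX in
theorem REX_thm : Stmt_REX := by
  intro K _ _ v M r A _ _ S C w h hSC hwS hwC hdg hal hcy hlast
  obtain ⟨S0, hS0, hf⟩ := EXP.decomp S h
  have hCS : ∀ x ∈ C, x ∉ S := fun x hx hxS => Finset.disjoint_left.1 hSC hxS hx
  have hren : ∀ (α : A × Fin (v + 1) →₀ ℕ) (φ : A → A), (∀ a ∈ S, φ a = a) →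
      (∀ a, a ∉ S → φ a ∉ S) → ren φ (EXP.EE K S α h) = EXP.EE K S α (ren φ h) :=
    fun α φ a1 a2 => EXP.ren_EE S α φ a1 a2 h
  refine ⟨S0, inferInstance, fun α => monomial α.1 1, fun α => down (v := v) (EXP.EE K S α.1 h),
    ?_, ?_, ?_⟩
  · rintro ⟨α, hα⟩ m' hm' x
    obtain ⟨m, hm, hαm⟩ := hS0 α hα
    have h3 := support_monomial_subset hm'
    rw [Finset.mem_singleton] at h3
    rw [h3]
    show ∑ j, α (x, j) = dgs M S x
    by_cases hx : x ∈ S
    · have e2 := hdg m hm x
      rw [dgc, if_pos (Finset.mem_union_right _ hx)] at e2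
      rw [dgs, if_pos hx, ← e2]
      exact Finset.sum_congr rfl fun j _ => (hαm (x, j)).1 hx
    · rw [dgs, if_neg hx]
      exact Finset.sum_eq_zero fun j _ => (hαm (x, j)).2 hx
  · rintro ⟨α, hα⟩
    show Zc M ∅ ∅ C w r (down (v := v) (EXP.EE K S α h))
    refine ⟨⟨?_, ?_, ?_, ?_⟩, ?_, ?_⟩
    · refine dg_down (EXP.EE_dg (fun δ ι s f => DG.sum s f) (fun δ => DG.zero δ) hdg ?_ ?_)
      · intro p hp
        rw [dgc, if_neg (by simp), if_neg (fun h' => hCS p h' hp),
          if_neg (show ¬ (p = w) from fun h' => hwS (h' ▸ hp))]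
      · intro p hp
        have e1 : p ∈ (∅ : Finset A) ∪ ∅ ↔ p ∈ ∅ ∪ S := by
          simp [hp]
        rw [dgc, dgc]
        simp only [e1]
    · intro x hx
      exact absurd hx (Finset.notMem_empty x)
    · intro x hx
      exact absurd hx (Finset.notMem_empty x)
    · intro x hx y hy hxy
      have a1 : ∀ a ∈ S, Equiv.swap x y a = a := fun a ha =>
        Equiv.swap_apply_of_ne_of_ne (fun h' => hCS x hx (h' ▸ ha)) (fun h' => hCS y hy (h' ▸ ha))
      have a2 : ∀ a, a ∉ S → Equiv.swap x y a ∉ S := by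
        intro a ha
        by_cases e1 : a = x
        · rw [e1, Equiv.swap_apply_left]
          exact hCS y hy
        · by_cases e2 : a = y
          · rw [e2, Equiv.swap_apply_right]
            exact hCS x hx
          · rwa [Equiv.swap_apply_of_ne_of_ne e1 e2]
      rw [VAR.ren_down, hren α _ a1 a2, hal x hx y hy hxy, map_neg, map_neg]
    · intro x hx
      exact absurd hx (Finset.notMem_empty x)
    · intro u hu
      have a1 : ∀ a ∈ S, mv u w a = a := by
        intro a ha
        rw [mv, Function.update_of_ne (show a ≠ u from fun h' => hCS u hu (h' ▸ ha))]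
        rfl
      have a2 : ∀ a, a ∉ S → mv u w a ∉ S := by
        intro a ha
        by_cases e1 : a = u
        · rw [mv, e1, Function.update_self]
          exact hwS
        · rw [mv, Function.update_of_ne e1]
          exact ha
      rw [VAR.ren_down, hren α _ a1 a2, hcy u hu, map_zero, map_zero]
  · have e0 : ∑ α : S0, monomial α.1 (1 : K) * up (Nat.le_succ v)
        (down (v := v) (EXP.EE K S α.1 h)) =
        ∑ α ∈ S0, monomial α (1 : K) * up (Nat.le_succ v) (down (v := v) (EXP.EE K S α h)) :=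
      Finset.sum_coe_sort S0 (fun α => monomial α (1 : K) * up (Nat.le_succ v)
        (down (v := v) (EXP.EE K S α h)))
    refine Eq.trans ?_ e0.symm
    conv_lhs => rw [hf]
    refine Finset.sum_congr rfl fun α _ => ?_
    rw [VAR.up_down (Nat.le_succ v)]
    intro μ hμ x j hj
    obtain ⟨m, hm, h1⟩ := supp_EE S α h hμ
    have hjl : j = Fin.last v := by
      apply Fin.ext
      have := j.isLt
      rw [Fin.val_last]
      omega
    by_cases hx : x ∈ S
    · exact (h1 (x, j)).1 hx
    · rw [(h1 (x, j)).2 hx, hjl]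
      exact hlast m hm x hx

end Pool.Agent.VOP
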