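import Pool.Agent.VOP.StmtsR
import Pool.Agent.VOP.DG
import Pool.Agent.VOP.SYM
import Pool.Agent.VOP.ORT
import Pool.Agent.VSY.NAT
import Pool.Agent.VSY.DEG
import Pool.Agent.VSY.WB
import Pool.Agent.VSY.VAR

/-!
# The first row criterion (MP_deb8da_ag), module RFN: the claim `FNR(n)`
-/

namespace Pool.Agent.VOP

open MvPolynomial Pool.Agent.VSY

namespace RFN

variable {K : Type} [Field K] {A : Type} {v : ℕ}

theorem Eij_C [Fintype A] (i j : Fin v) (a : K) : Eij i j (C a : PX K A v) = 0 := by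
  classical
  rw [Pool.Agent.VSY.NAT.Eij_apply]
  simp

theorem castLE_eq (j : Fin v) : Fin.castLE (Nat.le_succ v) j = Fin.castSucc j := rfl

/-- `up` commutes with the polarisation operators. -/
theorem up_Eij [Fintype A] [DecidableEq A] (i j : Fin v) (f : PX K A v) :
    up (Nat.le_succ v) (Eij i j f) =
      Eij (Fin.castSucc i) (Fin.castSucc j) (up (Nat.le_succ v) f) := by
  obtain ⟨-, -, -, -, -, -, -, -, -, hmul, hX, -, -⟩ := WB_thm K A A v
  obtain ⟨-, -, -, -, -, -, -, -, -, hmul', hX', -, -⟩ := WB_thm K A A (v + 1)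
  induction f using MvPolynomial.induction_on with
  | C a =>
    have h1 : up (Nat.le_succ v) (C a : PX K A v) = C a := by
      rw [up, rename_C]
    rw [Eij_C, map_zero, h1, Eij_C]
  | add p q hp hq => rw [map_add, map_add, map_add, map_add, hp, hq]
  | mul_X p y hp =>
    obtain ⟨x, l⟩ := y
    rw [hmul, map_add, map_mul, map_mul, map_mul, hmul', hp, VAR.up_X, hX, hX', castLE_eq]
    congr 2
    by_cases h : j = l
    · subst h
      rw [if_pos rfl, if_pos rfl, VAR.up_X, castLE_eq]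
    · rw [if_neg h, if_neg (fun h' => h (Fin.castSucc_injective _ h')), map_zero]

theorem dg_up {m : ℕ} (h : v ≤ m) {δ : A → ℕ} {f : PX K A v} (hf : Dg δ f) :
    Dg δ (up h f) := by
  intro μ hμ x
  rw [mem_support_iff, up] at hμ
  obtain ⟨μ', rfl, h2⟩ := coeff_rename_ne_zero _ _ _ hμ
  rw [VAR.sum_mapDomain]
  exact hf μ' (mem_support_iff.2 h2) x

theorem dg_Eij [Fintype A] [DecidableEq A] {δ : A → ℕ} {f : PX K A v} (hf : Dg δ f)
    (i j : Fin v) : Dg δ (Eij i j f) := by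
  have h := (DEG_thm K A v (fun _ => 0) δ).1 i j f (fun m hm x => by
    rw [Nat.add_zero]; exact hf m hm x)
  intro m hm x
  have := h m hm x
  rwa [Nat.add_zero] at this

theorem zc_Eij [Fintype A] [DecidableEq A] {M r : ℕ} {C : Finset A} {w : A} {f : PX K A v}
    (hf : Zc M ∅ ∅ C w r f) (i j : Fin v) : Zc M ∅ ∅ C w r (Eij i j f) := by
  refine ⟨⟨dg_Eij hf.cg.dg i j, ?_, ?_, ?_⟩, ?_, ?_⟩
  · intro x hx
    exact absurd hx (Finset.notMem_empty x)
  · intro x hx
    exact absurd hx (Finset.notMem_empty x)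
  · intro x hx y hy hxy
    rw [Pool.Agent.VSY.NAT.ren_Eij, hf.cg.alC x hx y hy hxy, map_neg]
  · intro u hu
    exact absurd hu (Finset.notMem_empty u)
  · intro u hu
    rw [Pool.Agent.VSY.NAT.ren_Eij, hf.cyC u hu, map_zero]

theorem zc_zero [Fintype A] [DecidableEq A] (M r : ℕ) (C : Finset A) (w : A) :
    Zc M ∅ ∅ C w r (0 : PX K A v) := by
  refine ⟨⟨(DG_thm K A A v).1 _, ?_, ?_, ?_⟩, ?_, ?_⟩
  · intro x _ y _
    simp
  · intro x _ y _ _
    simp
  · intro x _ y _ _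
    simp
  · intro u _
    simp
  · intro u _
    simp

theorem zc_add [Fintype A] [DecidableEq A] {M : ℕ} {C : Finset A} {w : A} {r : ℕ}
    {f g : PX K A v} (hf : Zc M ∅ ∅ C w r f) (hg : Zc M ∅ ∅ C w r g) :
    Zc M ∅ ∅ C w r (f + g) := by
  obtain ⟨-, -, -, h4, -⟩ := SYM_thm DG_thm K A v
  refine ⟨⟨((DG_thm K A A v).2.1 _ f g hf.cg.dg hg.cg.dg).1, ((h4 ∅ f g).1 hf.cg.sy hg.cg.sy).1,
    ((h4 ∅ f g).2.1 hf.cg.alS hg.cg.alS).1, ((h4 C f g).2.1 hf.cg.alC hg.cg.alC).1⟩, ?_, ?_⟩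
  · intro u hu
    rw [map_add, hf.cyS u hu, hg.cyS u hu, add_zero]
  · intro u hu
    rw [map_add, hf.cyC u hu, hg.cyC u hu, add_zero]

theorem zc_smul [Fintype A] [DecidableEq A] {M : ℕ} {C : Finset A} {w : A} {r : ℕ}
    (a : K) {f : PX K A v} (hf : Zc M ∅ ∅ C w r f) : Zc M ∅ ∅ C w r (a • f) := by
  obtain ⟨-, -, -, h4, -⟩ := SYM_thm DG_thm K A v
  refine ⟨⟨((DG_thm K A A v).2.2.1 _ a 0 f hf.cg.dg).1, ((h4 ∅ f f).2.2.2.2 a).1 hf.cg.sy,
    ((h4 ∅ f f).2.2.2.2 a).2 hf.cg.alS, ((h4 C f f).2.2.2.2 a).2 hf.cg.alC⟩, ?_, ?_⟩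
  · intro u hu
    rw [map_smul, hf.cyS u hu, smul_zero]
  · intro u hu
    rw [map_smul, hf.cyC u hu, smul_zero]

theorem cg_up [Fintype A] [DecidableEq A] {m : ℕ} (h : v ≤ m) {δ : A → ℕ} {T S C : Finset A}
    {f : PX K A v} (hf : Cg δ T S C f) : Cg δ T S C (up h f) := by
  refine ⟨dg_up h hf.dg, ?_, ?_, ?_⟩
  · intro x hx y hy
    rw [VAR.ren_up, hf.sy x hx y hy]
  · intro x hx y hy hxy
    rw [VAR.ren_up, hf.alS x hx y hy hxy, map_neg]
  · intro x hx y hy hxy
    rw [VAR.ren_up, hf.alC x hx y hy hxy, map_neg]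

end RFN

open RFN in
theorem RFN_thm (h1 : Stmt_RBD) (h2 : Stmt_RTH) (h3 : Stmt_RCT) (h4 : Stmt_RBI) (h5 : Stmt_REX)
    (h6 : Stmt_RHA) : Stmt_RFN := by
  intro K _ _ _ v M e p
  have hcz : CharZero K := IsStrictOrderedRing.toCharZero
  refine ⟨?_, ?_⟩
  · intro A _ _ S C w c h _ hS _ _ _ _ _ _
    rw [Finset.card_eq_zero] at hS
    subst hS
    have h0 : ThR ∅ C w c (Pi.single (Fin.last v) 1) h = 0 := by
      unfold ThR
      rw [Finset.filter_false_of_mem fun π _ => Finset.notMem_empty _, Finset.sum_empty]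
    rw [h0]
    exact (h1 K A (v + 1) M e (∅ ∪ C) w c).1
  · intro l D hlD hCH hHV A _ _ S C w c h hCf hS hSC hdg hAS hAC hCy hlast
    obtain ⟨B0, B1, B2, B3, B4, -, -⟩ := h1 K A (v + 1) M e (S ∪ C) w c
    obtain ⟨-, T2, -, -, T5⟩ := h2 K A (v + 1) S C w c hCf
    obtain ⟨-, -, -, -, -, -, -, -, -, hmul, -, -, -⟩ := WB_thm K A A (v + 1)
    have hCl : C.card = l := by omega
    obtain ⟨x, hx⟩ : ∃ x : Fin (v + 1) → K, x = Pi.single (Fin.last v) 1 := ⟨_, rfl⟩
    have hx0 : x ≠ 0 := by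
      intro h0
      have := congrFun h0 (Fin.last v)
      rw [hx, Pi.single_eq_same] at this
      exact one_ne_zero this
    have hxs : ∀ j : Fin v, x (Fin.castSucc j) = 0 := by
      intro j
      rw [hx, Pi.single_eq_of_ne (Fin.castSucc_lt_last j).ne]
    rw [← hx]
    let Z : Submodule K (PX K A v) :=
      { carrier := {κ | Zc M ∅ ∅ C w (e + 1) κ}
        add_mem' := fun hf hg => zc_add hf hg
        zero_mem' := zc_zero _ _ _ _
        smul_mem' := fun a _ hf => zc_smul a hf }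
    have hThz : ∀ b : PX K A (v + 1), BdR M e (S ∪ C) w c
        (ThR S C w c x (b * up (Nat.le_succ v) (0 : PX K A v))) := by
      intro b
      rw [map_zero, mul_zero]
      have h7 := (T2 x 0 0 0).2.2.1
      rw [smul_zero, zero_smul] at h7
      rw [h7]
      exact B0
    let N : Submodule K (PX K A v) :=
      { carrier := {κ | Zc M ∅ ∅ C w (e + 1) κ ∧ ∀ b : PX K A (v + 1), Dg (dgs M S) b →
          BdR M e (S ∪ C) w c (ThR S C w c x (b * up (Nat.le_succ v) κ))}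
        add_mem' := by
          rintro κ κ' ⟨hz, hb⟩ ⟨hz', hb'⟩
          refine ⟨zc_add hz hz', fun b hbd => ?_⟩
          rw [map_add, mul_add, (T2 x _ _ 0).1]
          exact (B1 _ _ (hb b hbd) (hb' b hbd)).1
        zero_mem' := ⟨zc_zero _ _ _ _, fun b _ => hThz b⟩
        smul_mem' := by
          rintro a κ ⟨hz, hb⟩
          refine ⟨zc_smul a hz, fun b hbd => ?_⟩
          rw [map_smul, mul_smul_comm, (T2 x _ 0 a).2.2.1]
          exact B2 a _ (hb b hbd) }
    have key : Z ≤ N := by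
      refine ORT_thm WB_thm K A v (∑ x, dgc M ∅ ∅ C w (e + 1) x) Z N (fun f hf => hf.1)
        (fun i j f hf => zc_Eij hf i j) ?_ ?_ ?_
      · rintro i j κ ⟨hz, hb⟩
        refine ⟨zc_Eij hz i j, fun b hbd => ?_⟩
        have e1 : b * up (Nat.le_succ v) (Eij i j κ) =
            Eij (Fin.castSucc i) (Fin.castSucc j) (b * up (Nat.le_succ v) κ) -
              Eij (Fin.castSucc i) (Fin.castSucc j) b * up (Nat.le_succ v) κ := by
          rw [hmul, up_Eij]
          ring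
        rw [e1, (T2 x _ _ 0).2.1, ← T5 _ _ _ _ (hxs j)]
        exact (B1 _ _ (B4 _ _ _ (hb b hbd)) (hb _ (dg_Eij hbd _ _))).2
      · intro f hf μ hμ
        rw [Fintype.sum_prod_type]
        exact (Finset.sum_congr rfl fun x _ => hf.cg.dg μ hμ x).le
      · intro ν κ hκ hW hE
        refine ⟨hκ, fun b hbd => ?_⟩
        by_cases hk : ∃ j, D + 1 ≤ ν j
        · obtain ⟨j, hj⟩ := hk
          rw [hx]
          exact h3 K v M e p (D + 1) hCH A S C w c j (ν j) b κ hCf hS hSC hbd hκ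
            (fun μ hμ => hW μ hμ j) hj
        · push Not at hk
          rcases h6 K v M l (e + 1) D hHV A C w ν κ hCf.wC hCl hκ hW hE
            (fun j => by have := hk j; omega) with h0 | ⟨e', μ, he', hμ, hrn⟩
          · rw [h0]
            exact hThz b
          · have h8 := h4 K (v + 1) M e e' he' A S C w c x b (up (Nat.le_succ v) μ) hCf hx0 hbd
              (cg_up _ hμ)
            have h9 : rn w (up (Nat.le_succ v) μ) = up (Nat.le_succ v) κ := by
              rw [← hrn, rn, rn, VAR.ren_up]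
            rwa [h9] at h8
    obtain ⟨ι, _, b, κ, hb, hκ, hh⟩ := h5 K v M (e + 1) A S C w h hCf.SC hCf.wS hCf.wC hdg hAC
      hCy hlast
    rw [hh, (T2 x 0 0 0).2.2.2 ι Finset.univ (fun i => b i * up (Nat.le_succ v) (κ i))]
    exact B3 ι Finset.univ _ fun i _ => (key (hκ i)).2 (b i) (hb i)

end Pool.Agent.VOP
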