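import Pool.Agent.VOP.StmtsR
import Pool.Agent.VOP.DG
import Pool.Agent.VOP.SYM
import Pool.Agent.VSY.WB
import Pool.Agent.VSY.NAT

/-!
# Module RHA: `HVR` for points of `A`
-/

namespace Pool.Agent.VOP

open MvPolynomial Pool.Agent.VSY

namespace RHA

variable {K : Type} [Field K] {A : Type} [Fintype A] [DecidableEq A] {v : ℕ}

/-- points of `C` to themselves, all other points to `none` -/
def ph (C : Finset A) (a : A) : Option {x // x ∈ C} :=
  if h : a ∈ C then some ⟨a, h⟩ else none

/-- `none` to `w` -/
def ps' (C : Finset A) (w : A) (o : Option {x // x ∈ C}) : A :=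
  o.elim w fun u => u.1

/-- `none` to `w`, `some none` to `none` -/
def pq (C : Finset A) (w : A) (o : Option (Option {x // x ∈ C})) : Option A :=
  o.elim (some w) fun o' => o'.map fun u => u.1

omit [Fintype A] in
theorem ph_mem {C : Finset A} {a : A} (h : a ∈ C) : ph C a = some ⟨a, h⟩ := dif_pos h

omit [Fintype A] in
theorem ph_not {C : Finset A} {a : A} (h : a ∉ C) : ph C a = none := dif_neg h

omit [Fintype A] in
theorem ph_eq {C : Finset A} {a : A} {u : {x // x ∈ C}} : ph C a = some u ↔ a = u.1 := by
  by_cases h : a ∈ C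
  · rw [ph_mem h, Option.some.injEq, Subtype.ext_iff]
  · rw [ph_not h]
    constructor
    · intro h'
      exact absurd h' (by simp)
    · intro h'
      exact absurd (h' ▸ u.2) h

omit [Fintype A] [DecidableEq A] in
theorem pq_inj {C : Finset A} {w : A} (hw : w ∉ C) : Function.Injective (pq C w) := by
  rintro (_ | _ | ⟨x, hx⟩) (_ | _ | ⟨y, hy⟩) h
  · rfl
  · exact absurd h (by simp [pq])
  · simp only [pq, Option.elim_none, Option.elim_some, Option.map_some, Option.some.injEq] at h
    exact absurd (h ▸ hy) hw
  · exact absurd h (by simp [pq])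
  · rfl
  · exact absurd h (by simp [pq])
  · simp only [pq, Option.elim_none, Option.elim_some, Option.map_some, Option.some.injEq] at h
    exact absurd (h ▸ hx) hw
  · exact absurd h (by simp [pq])
  · simp only [pq, Option.elim_some, Option.map_some, Option.some.injEq] at h
    subst h
    rfl

/-- the image of `κ` is a chain -/
theorem inC (M : ℕ) {C : Finset A} {w : A} {r : ℕ} {κ : PX K A v} (hw : w ∉ C)
    (hd : Dg (dgc M ∅ ∅ C w r) κ) (ha : Al C κ) :
    InC {x // x ∈ C} v (M + 2) 0 r (ren (ph C) κ) := by
  constructor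
  · intro π
    have hmem : Equiv.Perm.ofSubtype π ∈ pS C := by
      rw [SYM.mem_pS]
      intro x hx
      exact Equiv.Perm.ofSubtype_apply_of_not_mem π hx
    have h1 := (SYM.perm_aux C κ _ (Equiv.Perm.ofSubtype π) le_rfl hmem).2 ha
    have h2 : Equiv.Perm.sign (Equiv.Perm.ofSubtype π) = Equiv.Perm.sign π :=
      Equiv.Perm.sign_ofSubtype π
    rw [SYM.sg, h2] at h1
    rw [← map_zsmul, ← h1, ren_ren, ren_ren]
    refine ren_congr (fun a => ?_) κ
    simp only [Function.comp_apply]
    by_cases h : a ∈ C
    · rw [ph_mem h, Option.map_some, Equiv.Perm.ofSubtype_apply_of_mem π h, ph_mem (π ⟨a, h⟩).2]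
    · rw [ph_not h, Option.map_none, Equiv.Perm.ofSubtype_apply_of_not_mem π h, ph_not h]
  · intro m hm
    have h1 := DG.ren_push (dgc M ∅ ∅ C w r) (ph C) κ hd m hm
    constructor
    · intro u
      rw [h1 (some u)]
      have h2 : (Finset.univ.filter fun a => ph C a = some u) = {u.1} := by
        ext a
        rw [Finset.mem_filter, Finset.mem_singleton, ph_eq]
        simp
      beta_reduce
      rw [h2, Finset.sum_singleton]
      simp [dgc, u.2]
    · rw [h1 none]
      beta_reduce
      rw [add_zero, Finset.sum_eq_single w]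
      · simp [dgc, hw]
      · intro b hb hbw
        have h3 : b ∉ C := by
          intro h
          rw [Finset.mem_filter, ph_mem h] at hb
          exact absurd hb.2 (by simp)
        simp [dgc, h3, hbw]
      · intro h
        refine absurd ?_ h
        exact Finset.mem_filter.2 ⟨Finset.mem_univ _, ph_not hw⟩

omit [Fintype A] in
theorem cyc {C : Finset A} {w : A} {κ : PX K A v} (hw : w ∉ C) (hc : Cy C w κ)
    (u : {x // x ∈ C}) : ren (mg u) (ren (ph C) κ) = 0 := by
  have h1 : ren (mg u) (ren (ph C) κ) = ren (ph C) (ren (mv u.1 w) κ) := by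
    rw [ren_ren, ren_ren]
    refine ren_congr (fun a => ?_) κ
    simp only [Function.comp_apply, mg, mv]
    by_cases h : a = u.1
    · subst h
      rw [ph_mem u.2, Function.update_self, Function.update_self, ph_not hw]
    · rw [Function.update_of_ne h, Function.update_of_ne (fun h' => h (ph_eq.1 h'))]
      rfl
  rw [h1, hc u.1 u.2, map_zero]

omit [Fintype A] in
/-- the new chain -/
theorem cg {M r e' : ℕ} {C : Finset A} {w : A} (hw : w ∉ C)
    {g : PX K (Option (Option {x // x ∈ C})) v}
    (hg : InC (Option {x // x ∈ C}) v (M + 2) (M + 2) r g) (he : e' + (M + 2) = r) :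
    Cg (dgc M ∅ ∅ (isn C) (some w) e') ∅ ∅ (isn C) (ren (pq C w) g) := by
  refine ⟨?_, ?_, ?_, ?_⟩
  · have h0 : Dg (fun o => if o = none then e' else M + 2) g := by
      intro m hm x
      have h1 := hg.deg m hm
      cases x with
      | none =>
        beta_reduce
        rw [if_pos rfl]
        omega
      | some u =>
        beta_reduce
        rw [if_neg (by simp)]
        exact h1.1 u
    have h1 := DG.ren_push _ (pq C w) g h0
    have h2 : (fun b => ∑ a ∈ Finset.univ.filter (fun a => pq C w a = b),
        (if a = none then e' else M + 2)) = dgc M ∅ ∅ (isn C) (some w) e' := by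
      funext b
      have e0 : ∑ a ∈ Finset.univ.filter (fun a => pq C w a = b),
          (if a = none then e' else M + 2) = (if some w = b then e' else 0) +
          ((if none = b then M + 2 else 0) +
            ∑ u : {x // x ∈ C}, (if some u.1 = b then M + 2 else 0)) := by
        rw [Finset.sum_filter, Fintype.sum_option, Fintype.sum_option]
        rfl
      rw [e0]
      unfold dgc
      rw [if_neg (show ¬ b ∈ (∅ ∪ ∅ : Finset (Option A)) by simp)]
      cases b with
      | none =>
        have h3 : (none : Option A) ∈ isn C := Finset.mem_insert_self _ _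
        rw [if_pos h3]
        simp
      | some a =>
        rw [if_neg (show ¬ (none : Option A) = some a by simp), zero_add]
        by_cases ha : a ∈ C
        · have h3 : some a ∈ isn C := by simp [isn, ha]
          have h4 : ¬ some w = some a := by
            intro h
            exact hw ((Option.some.inj h) ▸ ha)
          rw [if_pos h3, if_neg h4, zero_add, Finset.sum_eq_single (⟨a, ha⟩ : {x // x ∈ C})]
          · rw [if_pos rfl]
          · intro u _ hu
            rw [if_neg]
            intro h5
            exact hu (Subtype.ext (Option.some.inj h5))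
          · intro h
            exact absurd (Finset.mem_univ _) h
        · have h3 : some a ∉ isn C := by simp [isn, ha]
          have h5 : ∑ u : {x // x ∈ C}, (if some u.1 = some a then M + 2 else 0) = 0 := by
            refine Finset.sum_eq_zero fun u _ => if_neg ?_
            intro h6
            exact ha ((Option.some.inj h6) ▸ u.2)
          rw [if_neg h3, h5, add_zero]
          by_cases haw : some w = some a
          · rw [if_pos haw, if_pos haw.symm]
          · rw [if_neg haw, if_neg (fun h => haw h.symm)]
    rwa [h2] at h1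
  · intro x hx
    exact absurd hx (Finset.notMem_empty x)
  · intro x hx
    exact absurd hx (Finset.notMem_empty x)
  · have hex : ∀ x ∈ isn C, ∃ o : Option {x // x ∈ C}, pq C w (some o) = x := by
      intro x hx
      rcases Finset.mem_insert.1 hx with h | h
      · exact ⟨none, h.symm⟩
      · obtain ⟨a, ha, rfl⟩ := Finset.mem_map.1 h
        exact ⟨some ⟨a, ha⟩, rfl⟩
    intro x hx y hy hxy
    obtain ⟨o₁, rfl⟩ := hex x hx
    obtain ⟨o₂, rfl⟩ := hex y hy
    have ho : o₁ ≠ o₂ := fun h => hxy (by rw [h])
    have h1 : ren (Equiv.swap (pq C w (some o₁)) (pq C w (some o₂))) (ren (pq C w) g) =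
        ren (pq C w) (ren (Option.map (Equiv.swap o₁ o₂)) g) := by
      rw [ren_ren, ren_ren]
      refine ren_congr (fun z => ?_) g
      simp only [Function.comp_apply]
      rw [← (pq_inj hw).map_swap]
      congr 1
      cases z with
      | none => rw [Equiv.swap_apply_of_ne_of_ne (by simp) (by simp)]; rfl
      | some z => rw [← (Option.some_injective _).map_swap]; rfl
    rw [h1, hg.alt, Equiv.Perm.sign_swap ho, map_zsmul]
    simp

end RHA

theorem RHA_thm : Stmt_RHA := by
  intro K _ _ v M l r D hH A _ _ C w ν κ hw hC hZ hν hE hD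
  have hd := hZ.cg.dg
  have h1 : ren (RHA.ps' C w) (ren (RHA.ph C) κ) = κ := by
    rw [ren_ren]
    conv_rhs => rw [← ren_id κ]
    refine DG.ren_eq _ _ _ κ ?_ hd
    intro a ha
    simp only [Function.comp_apply, id]
    by_cases h : a ∈ C
    · rw [RHA.ph_mem h]
      rfl
    · rw [RHA.ph_not h]
      have h2 : a = w := by
        by_contra h3
        apply ha
        simp [dgc, h, h3]
      exact h2.symm
  have hWB := WB_thm K A (Option {x // x ∈ C}) v
  obtain ⟨g, hg, hgj⟩ := hH {x // x ∈ C} (by rw [Fintype.card_coe, hC]) ν (ren (RHA.ph C) κ)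
    ⟨RHA.inC M hw hd hZ.cg.alC, RHA.cyc hw hZ.cyC⟩ (hWB.2.2.2.1 ν (RHA.ph C) κ hν)
    (fun i j hij => by rw [← NAT.ren_Eij, hE i j hij, map_zero]) hD
  have hcomp : ∀ x, RHA.ps' C w (Option.join x) =
      (fun o : Option A => o.getD w) (RHA.pq C w x) := by
    rintro (_ | _ | u) <;> rfl
  have hrn : rn w (ren (RHA.pq C w) g) = κ := by
    rw [rn, ren_ren]
    rw [← h1, ← hgj, ren_ren]
    exact ren_congr (fun x => (hcomp x).symm) g
  by_cases hg0 : g = 0
  · left
    rw [← hrn, hg0, map_zero, map_zero]
  · right
    obtain ⟨m, hm⟩ := support_nonempty.2 hg0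
    have h2 := (hg.deg m hm).2
    refine ⟨r - (M + 2), ren (RHA.pq C w) g, by omega, RHA.cg hw hg (by omega), hrn⟩

end Pool.Agent.VOP
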