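import Pool.Agent.VOP.StmtsR
import Pool.Agent.VOP.DG
import Pool.Agent.VOP.SYM
import Pool.Agent.VOP.SBT
import Pool.Agent.VOP.N0C

/-!
# The first row criterion (MP_deb8da_ag): RN0
-/

namespace Pool.Agent.VOP

open MvPolynomial Pool.Agent.VSY

namespace RN0

variable {K : Type} [Field K] {A : Type} {v : ℕ}

/-- The substitution `X (q, last) ↦ X (q, last) + t X (q, j)`. -/
def gm (v : ℕ) (j : Fin v) (t : K) : Fin (v + 1) → Fin (v + 1) → K :=
  fun i => if i = Fin.last v then zt v j t else Pi.single i 1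

theorem gm_last (j : Fin v) (t : K) : gm v j t (Fin.last v) = zt v j t := by
  simp [gm]

theorem gm_ne (j : Fin v) (t : K) {i : Fin (v + 1)} (h : i ≠ Fin.last v) :
    gm v j t i = Pi.single i 1 := by
  simp [gm, h]

theorem cast_ne (j : Fin v) : (Fin.castSucc j : Fin (v + 1)) ≠ Fin.last v :=
  (Fin.castSucc_lt_last j).ne

theorem zt_mul (j : Fin v) (t : K) (F : Fin (v + 1) → K) :
    ∑ i, zt v j t i * F i = F (Fin.last v) + t * F (Fin.castSucc j) := by
  unfold zt
  simp only [Pi.add_apply, Pi.smul_apply, smul_eq_mul, add_mul, Finset.sum_add_distrib]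
  congr 1
  · rw [Finset.sum_eq_single (Fin.last v)]
    · simp
    · intro i _ hi
      rw [Pi.single_eq_of_ne hi, zero_mul]
    · intro h
      exact absurd (Finset.mem_univ _) h
  · rw [Finset.sum_eq_single (Fin.castSucc j)]
    · simp
    · intro i _ hi
      rw [Pi.single_eq_of_ne hi]
      ring
    · intro h
      exact absurd (Finset.mem_univ _) h

theorem single_mul' (k : Fin (v + 1)) (F : Fin (v + 1) → K) :
    ∑ i, (Pi.single k 1 : Fin (v + 1) → K) i * F i = F k := by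
  rw [Finset.sum_eq_single k]
  · simp
  · intro i _ hi
    rw [Pi.single_eq_of_ne hi, zero_mul]
  · intro h
    exact absurd (Finset.mem_univ _) h

theorem zt_gm (j : Fin v) (t : K) (l : Fin (v + 1)) :
    ∑ i, zt v j t i * gm v j (-t) i l = (Pi.single (Fin.last v) 1 : Fin (v + 1) → K) l := by
  rw [zt_mul j t (fun i => gm v j (-t) i l), gm_last, gm_ne j (-t) (cast_ne j)]
  unfold zt
  simp only [Pi.add_apply, Pi.smul_apply, smul_eq_mul]
  ring

theorem gm_gm (j : Fin v) (t : K) :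
    (fun i l => ∑ m, gm v j t i m * gm v j (-t) m l) = fun i l => if i = l then (1 : K) else 0 := by
  funext i l
  by_cases hi : i = Fin.last v
  · subst hi
    rw [gm_last, zt_gm, Pi.single_apply]
    simp only [eq_comm]
  · rw [gm_ne j t hi, single_mul' i (fun m => gm v j (-t) m l), gm_ne j (-t) hi, Pi.single_apply]
    simp only [eq_comm]

theorem sb_inv [CharZero K] (h : Stmt_SBT) (j : Fin v) (t : K) (f : PX K A (v + 1)) :
    sb (gm v j (-t)) (sb (gm v j t) f) = f := by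
  obtain ⟨-, -, -, -, h5, -⟩ := h K (v + 1)
  rw [h5 A (gm v j t) (gm v j (-t)) f, gm_gm]
  exact SBT.sb_one f

theorem sb_lin' [CharZero K] (h : Stmt_SBT) (j : Fin v) (t : K) (q : A) :
    sb (gm v j (-t)) (lin (zt v j t) q : PX K A (v + 1)) = X (q, Fin.last v) := by
  obtain ⟨-, -, -, h4, -⟩ := h K (v + 1)
  rw [(h4 A (gm v j (-t)) (zt v j t) q 0 0).1]
  have e : (fun l => ∑ i, zt v j t i * gm v j (-t) i l) =
      (Pi.single (Fin.last v) 1 : Fin (v + 1) → K) := funext fun l => zt_gm j t l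
  rw [e, N0C.lin_single]

/-- Monomials of an alternating sum. -/
theorem mem_alt [Fintype A] [DecidableEq A] (S : Finset A) (g : PX K A v)
    {μ : A × Fin v →₀ ℕ} (h : μ ∈ (alt S g).support) :
    ∃ π ∈ pS S, ∃ μ₀ ∈ g.support, ∀ p l, μ (π p, l) = μ₀ (p, l) := by
  classical
  rw [mem_support_iff, alt, coeff_sum] at h
  obtain ⟨π, hπ, h1⟩ := Finset.exists_ne_zero_of_sum_ne_zero h
  have h3 : μ ∈ (ren (⇑π) g).support := by
    rw [mem_support_iff]
    intro h0
    apply h1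
    rw [coeff_smul, h0, smul_zero]
  obtain ⟨μ₀, hμ₀, h4⟩ := exists_of_mem_support_ren _ _ h3
  refine ⟨π, hπ, μ₀, hμ₀, fun p l => ?_⟩
  rw [← h4]
  have hinj : Function.Injective (Prod.map (⇑π) (id : Fin v → Fin v)) :=
    Function.Injective.prodMap π.injective Function.injective_id
  exact Finsupp.mapDomain_apply hinj μ₀ (p, l)

/-- The combinatorial step. -/
theorem supp_key [Fintype A] [DecidableEq A] {M r n : ℕ} {S C : Finset A} {w c : A}
    {k : Fin v} {b κ : PX K A v} (hc : CfR S C w c) (hS : S.card = n)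
    (hκ : Dg (dgc M ∅ ∅ C w r) κ) (hk : ∀ μ ∈ κ.support, ∃ p, 1 ≤ μ (p, k)) :
    ∀ μ ∈ (alt (S ∪ C) (xS (Pi.single k 1) S * (b * κ))).support, μ (w, k) = 0 →
      n + 1 ≤ ((S ∪ C).filter fun u => 1 ≤ μ (u, k)).card := by
  intro μ hμ hw
  obtain ⟨π, hπ, μ₀, hμ₀, h2⟩ := mem_alt (S ∪ C) _ hμ
  have hπ' : ∀ x, x ∉ S ∪ C → π x = x := (N0C.mem_pS _ _).1 hπ
  have hwn : w ∉ S ∪ C := by
    rw [Finset.mem_union]
    rintro (h | h)
    · exact hc.wS h
    · exact hc.wC h
  have hw0 : μ₀ (w, k) = 0 := by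
    rw [← h2 w k, hπ' w hwn, hw]
  obtain ⟨μ₁, hμ₁, μ₂, hμ₂, h3⟩ := Finset.mem_add.1 (support_mul _ _ hμ₀)
  obtain ⟨μ₃, -, μ₄, hμ₄, h4⟩ := Finset.mem_add.1 (support_mul _ _ hμ₂)
  have hP : ∀ p ∈ S, 1 ≤ μ₀ (p, k) := by
    intro p hp
    have h6 : (X (p, k) : PX K A v) ∣ xS (Pi.single k (1 : K)) S := by
      unfold xS
      rw [← N0C.lin_single k p]
      exact Finset.dvd_prod_of_mem (fun p => (lin (Pi.single k (1 : K)) p : PX K A v)) hp
    have h5 : μ₁ (p, k) ≠ 0 := fun h => mem_support_iff.1 hμ₁ (N0C.coeff_of_dvd h6 h)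
    rw [← h3, Finsupp.add_apply]
    omega
  obtain ⟨q, hq⟩ := hk μ₄ hμ₄
  have hq0 : 1 ≤ μ₀ (q, k) := by
    rw [← h3, ← h4, Finsupp.add_apply, Finsupp.add_apply]
    omega
  have hqw : q ≠ w := by
    rintro rfl
    omega
  have hδ : dgc M ∅ ∅ C w r q ≠ 0 := by
    rw [← hκ μ₄ hμ₄ q]
    have h4 : μ₄ (q, k) ≤ ∑ l, μ₄ (q, l) :=
      Finset.single_le_sum (fun l _ => Nat.zero_le (μ₄ (q, l))) (Finset.mem_univ k)
    omega
  have hqC : q ∈ C := by
    rcases N0C.dgc_eq_zero hδ with h | h | h | h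
    · exact absurd h (Finset.notMem_empty _)
    · exact absurd h (Finset.notMem_empty _)
    · exact h
    · exact absurd h hqw
  have hqS : q ∉ S := fun h => Finset.disjoint_left.1 hc.SC h hqC
  have hcard : ((insert q S).map π.toEmbedding).card = n + 1 := by
    rw [Finset.card_map, Finset.card_insert_of_notMem hqS, hS]
  rw [← hcard]
  apply Finset.card_le_card
  intro u hu
  rw [Finset.mem_map] at hu
  obtain ⟨u', hu', rfl⟩ := hu
  rw [Finset.mem_filter]
  have h5 : 1 ≤ μ₀ (u', k) := by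
    rcases Finset.mem_insert.1 hu' with rfl | h
    · exact hq0
    · exact hP _ h
  have h6 : u' ∈ S ∪ C := by
    rcases Finset.mem_insert.1 hu' with rfl | h
    · exact Finset.mem_union_right _ hqC
    · exact Finset.mem_union_left _ h
  refine ⟨?_, ?_⟩
  · by_contra h7
    have h8 := hπ' _ h7
    rw [Equiv.coe_toEmbedding] at h7 h8
    have h9 := π.injective h8
    rw [h9] at h7
    exact h7 h6
  · rw [Equiv.coe_toEmbedding, h2]
    exact h5

end RN0

open RN0 in
theorem RN0_thm (h1 : Stmt_RBD) (h2 : Stmt_RTH) : Stmt_RN0 := by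
  intro K _ _ v M e p n hCH A _ _ S C w c j t b κ hc hS hSC hb hκ hI
  have hSB : Stmt_SBT := SBT_thm DG_thm
  have hSYM : Stmt_SYM := SYM_thm DG_thm
  set k : Fin (v + 1) := Fin.last v with hk
  set g := gm v j t with hg
  set g' := gm v j (-t) with hg'
  have hgg : ∀ f : PX K A (v + 1), sb g (sb g' f) = f := by
    intro f
    have h := sb_inv (A := A) hSB j (-t) f
    rw [neg_neg] at h
    exact h
  obtain ⟨-, s2, s3, s4, -, -⟩ := hSB K (v + 1)
  obtain ⟨-, -, -, -, d5, -, -, -, -, -, -, d12⟩ := DG_thm K A A (v + 1)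
  obtain ⟨-, -, y3, -, -, -, -, y8, -⟩ := hSYM K A (v + 1)
  obtain ⟨t1, -, -, t4, -⟩ := h2 K A (v + 1) S C w c hc
  obtain ⟨-, -, -, -, -, b6, -⟩ := h1 K A (v + 1) M e (S ∪ C) w c
  have hb' : Dg (dgs M S) (sb g' b) := s2 A _ g' b hb
  have hκ' : Zc M ∅ ∅ C w (e + 1) (sb g' κ) := (s3 A M 0 (e + 1) ∅ ∅ C w g' κ).1 hκ
  have hmono : ∀ μ ∈ (sb g' κ).support, ∃ q, 1 ≤ μ (q, k) := by
    have h5 := Ideal.mem_map_of_mem (sb g' : PX K A (v + 1) →ₐ[K] PX K A (v + 1)).toRingHom hI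
    rw [Ideal.map_span, ← Set.range_comp] at h5
    have e1 : ((sb g' : PX K A (v + 1) →ₐ[K] PX K A (v + 1)).toRingHom ∘
        fun q : A => (lin (zt v j t) q : PX K A (v + 1))) =
        fun q : A => (X (q, k) : PX K A (v + 1)) := by
      funext q
      exact sb_lin' hSB j t q
    rw [e1] at h5
    have e2 : Set.range (fun q : A => (X (q, k) : PX K A (v + 1))) =
        (X : A × Fin (v + 1) → PX K A (v + 1)) '' (Set.range fun q : A => (q, k)) := by
      rw [← Set.range_comp]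
      rfl
    rw [e2, mem_ideal_span_X_image] at h5
    intro μ hμ
    obtain ⟨y, ⟨q, rfl⟩, hq⟩ := h5 μ hμ
    exact ⟨q, Nat.one_le_iff_ne_zero.mpr hq⟩
  have hwn : w ∉ S ∪ C := by
    rw [Finset.mem_union]
    rintro (h | h)
    · exact hc.wS h
    · exact hc.wC h
  -- the degrees
  have hF : Dg (dgc M ∅ ∅ (S ∪ C) w (e + 1))
      (xS (Pi.single k 1) S * (sb g' b * sb g' κ) : PX K A (v + 1)) := by
    have h5 := d5 _ _ _ _ (d12 (Pi.single k 1) S) (d5 _ _ _ _ hb' hκ'.cg.dg)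
    have e1 : (fun x => (fun p => if p ∈ S then 1 else 0) x +
        (fun x => dgs M S x + dgc M ∅ ∅ C w (e + 1) x) x) = dgc M ∅ ∅ (S ∪ C) w (e + 1) := by
      funext q
      simp only [dgs, dgc, Finset.union_empty, Finset.notMem_empty, if_false, Finset.mem_union]
      by_cases hqS : q ∈ S
      · have hqC : q ∉ C := Finset.disjoint_left.1 hc.SC hqS
        have hqw : q ≠ w := fun h => hc.wS (h ▸ hqS)
        simp only [hqS, hqC, hqw, if_true, if_false, true_or]
        omega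
      · by_cases hqC : q ∈ C
        · simp [hqS, hqC]
        · simp [hqS, hqC]
    rw [← e1]
    exact h5
  have hG : Dg (dgc M ∅ ∅ (S ∪ C) w (e + 1))
      (alt (S ∪ C) (xS (Pi.single k 1) S * (sb g' b * sb g' κ) : PX K A (v + 1))) := by
    refine (y8 (S ∪ C) _ _ ?_ hF).1
    intro x hx y hy
    simp only [dgc, Finset.union_empty, Finset.notMem_empty, if_false, hx, hy, if_true]
  have hAl : Al (S ∪ C)
      (alt (S ∪ C) (xS (Pi.single k 1) S * (sb g' b * sb g' κ) : PX K A (v + 1))) :=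
    (y3 (S ∪ C) _).2
  have hCy : Cy C w (sb g' b * sb g' κ) := by
    intro u hu
    rw [map_mul, hκ'.cyC u hu, mul_zero]
  have hren := t1 (Pi.single k 1) (sb g' b * sb g' κ) hCy
  rw [N0C.lin_single] at hren
  have hcard : (S ∪ C).card = p + 1 := by
    rw [Finset.card_union_of_disjoint hc.SC, hSC]
  have hBd := hCH A (S ∪ C) w c _ (ThR S C w c (Pi.single k 1) (sb g' b * sb g' κ)) hwn hc.mem hcard hG hAl
    (supp_key hc hS hκ'.cg.dg hmono) hren.symm
  have h6 := b6 g _ hBd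
  rw [t4, map_mul, hgg, hgg] at h6
  have e3 : (fun l => ∑ i, (Pi.single k 1 : Fin (v + 1) → K) i * g i l) = zt v j t := by
    funext l
    rw [single_mul' k (fun i => g i l), hg, hk, gm_last]
  rw [e3] at h6
  exact h6

end Pool.Agent.VOP
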