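import Pool.Agent.VOP.StmtsR

/-!
# The first row criterion (MP_deb8da_ag): numbers
-/

set_option autoImplicit false

namespace Pool.Agent.VOP

open MvPolynomial Pool.Agent.VSY

namespace RNM

variable {K : Type} [Field K]

theorem of_van {v d l r D : ℕ} (h : Van K v d l r) : HVR K v d l r D := by
  intro U _ _ hU ν f hf _ _ _
  exact h U hU f hf

/-- The total degree of a cycle. -/
theorem deg_eq {U : Type} [Fintype U] [DecidableEq U] {v d l r : ℕ} (hU : Fintype.card U = l)
    {f : PX K (Option U) v} (hf : InZ U v d r f) {m : Option U × Fin v →₀ ℕ}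
    (hm : m ∈ f.support) : ∑ x, m x = l * d + r := by
  have h := hf.1.deg m hm
  rw [Fintype.sum_prod_type, Fintype.sum_option, Finset.sum_congr rfl fun u _ => h.1 u,
    Finset.sum_const, Finset.card_univ, hU, smul_eq_mul]
  have h2 := h.2
  omega

theorem inB_zero {U : Type} [Fintype U] [DecidableEq U] {v d r : ℕ} :
    InB U v d r (0 : PX K (Option U) v) := by
  refine ⟨0, ⟨fun π => ?_, fun m hm => ?_⟩, map_zero _⟩
  · rw [map_zero, smul_zero]
  · simp at hm

/-- There are no highest weight vectors of too small weight. -/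
theorem vac {v d l r D : ℕ} (h : v * D < l * d + r) : HVR K v d l r D := by
  intro U _ _ hU ν f hf hW _ hD
  have h0 : f = 0 := by
    by_contra hne
    obtain ⟨m, hm⟩ := MvPolynomial.support_nonempty.2 hne
    have e1 := deg_eq hU hf hm
    have e2 := hW m hm
    have e3 : ∑ x, m x = ∑ j, ν j := by
      rw [Fintype.sum_prod_type_right]
      exact Finset.sum_congr rfl fun j _ => e2 j
    have e4 : ∑ j, ν j ≤ v * D := by
      have := Finset.sum_le_card_nsmul (Finset.univ : Finset (Fin v)) ν D (fun j _ => hD j)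
      simpa using this
    omega
  rw [h0]
  exact inB_zero

end RNM

theorem RNM_thm (hTG : Stmt_TG) (hLOW : Stmt_LOW) (hCR : Stmt_RCR) : Stmt_RNM := by
  intro K _ _ _ M hM hW p hp
  have c1 : (M + 4).choose 2 = (M + 3) + (M + 3).choose 2 := by
    have := Nat.choose_succ_succ (M + 3) 1
    rwa [Nat.choose_one_right] at this
  have c2 : (M + 3).choose 2 * 2 = (M + 3) * (M + 2) := by
    have := Nat.choose_two_right (M + 3)
    rw [this]
    exact Nat.div_mul_cancel (Nat.even_mul_pred_self (M + 3)).two_dvd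
  have hV : Van K (3 + 1) (M + 2) p (2 * M + 1 + (M + 2)) := by
    refine hTG K 3 (M + 2) p _ (by omega) (by omega) (Or.inr ⟨M + 1, by omega, ?_⟩)
    have c3 : (M + 2 + 3).choose 3 = (M + 4).choose 2 + (M + 4).choose 3 :=
      Nat.choose_succ_succ (M + 4) 2
    have c4 : M + 1 + 3 = M + 4 := by omega
    rw [c3, c4]
    omega
  have h := hCR K 3 M (2 * M) p hV ?_
  · have e : 2 * M + (M + 2) = 3 * M + 2 := by omega
    rwa [e] at h
  · intro l D hlD
    rcases Nat.lt_or_ge l M with h1 | h1
    · exact RNM.of_van (hLOW K 3 (M + 2) l (2 * M + 1) (by omega) (by omega))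
    · obtain ⟨i, rfl⟩ := Nat.exists_eq_add_of_le h1
      rcases Nat.lt_or_ge M (i + 2) with h2 | h2
      · refine RNM.vac ?_
        have h3 : D + M + i + 6 ≤ (M + 3) + (M + 3).choose 2 := by omega
        have h4 : 2 * (D + i) + 6 ≤ (M + 3) * (M + 2) := by omega
        nlinarith
      · exact hW i D h2 (by omega)

end Pool.Agent.VOP
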