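import Pool.Agent.VOP.StmtsR
import Pool.Agent.VOP.SBT
import Pool.Agent.VOP.SYM
import Pool.Agent.VSY.NAT
import Pool.Agent.VSY.WB

/-!
# RTH: basic properties of `Θ`
-/

set_option autoImplicit false

namespace Pool.Agent.VOP

open MvPolynomial Pool.Agent.VSY

namespace RTH

variable {K : Type} [Field K] {A : Type} {v : ℕ}

/-- The sum of the products of `i` forms `y` and the other forms `x`. -/
noncomputable def Qf [DecidableEq A] (x y : Fin v → K) (T : Finset A) (i : ℕ) : PX K A v :=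
  ∑ Q ∈ T.powersetCard i, (∏ q ∈ Q, lin y q) * ∏ q ∈ T \ Q, lin x q

theorem Qf_zero [DecidableEq A] (x y : Fin v → K) (T : Finset A) :
    (Qf x y T 0 : PX K A v) = xS x T := by
  simp [Qf, xS]

theorem Qf_big [DecidableEq A] (x y : Fin v → K) (T : Finset A) (i : ℕ) (h : T.card < i) :
    (Qf x y T i : PX K A v) = 0 := by
  rw [Qf, Finset.powersetCard_eq_empty.2 h, Finset.sum_empty]

theorem lin_add_smul (x y : Fin v → K) (t : K) (q : A) :
    (lin (x + t • y) q : PX K A v) = t • lin y q + lin x q := by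
  simp only [lin, Pi.add_apply, Pi.smul_apply, smul_eq_mul, C_add, C_mul, add_mul,
    Finset.sum_add_distrib, MvPolynomial.smul_eq_C_mul, Finset.mul_sum]
  rw [add_comm]
  congr 1
  exact Finset.sum_congr rfl fun i _ => mul_assoc _ _ _

theorem xS_expand [DecidableEq A] (x y : Fin v → K) (t : K) (T : Finset A) :
    (xS (x + t • y) T : PX K A v) = ∑ i ∈ Finset.range (T.card + 1), t ^ i • Qf x y T i := by
  rw [xS, Finset.prod_congr rfl fun q _ => lin_add_smul x y t q, Finset.prod_add,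
    Finset.sum_powerset]
  refine Finset.sum_congr rfl fun i _ => ?_
  rw [Qf, Finset.smul_sum]
  refine Finset.sum_congr rfl fun Q hQ => ?_
  have h1 : (∏ q ∈ Q, t • (lin y q : PX K A v)) = t ^ i • ∏ q ∈ Q, (lin y q : PX K A v) := by
    simp only [MvPolynomial.smul_eq_C_mul]
    rw [Finset.prod_mul_distrib, Finset.prod_const, (Finset.mem_powersetCard.1 hQ).2, C_pow]
  rw [h1, smul_mul_assoc]

theorem ap_inv (π : Equiv.Perm A) (a : A) : π (π⁻¹ a) = a := by simp

section thr

variable [Fintype A] [DecidableEq A] (S C : Finset A) (w c : A) (x : Fin v → K)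

/-- `ThR` with general factors. -/
noncomputable def Tg (F : A → PX K A v) : PX K A v →ₗ[K] PX K A v :=
  ∑ π ∈ (pS (S ∪ C)).filter (fun π => π⁻¹ c ∈ S),
    ((Equiv.Perm.sign π : ℤˣ) : ℤ) • ((ren (mv c w) : PX K A v →ₐ[K] PX K A v).toLinearMap ∘ₗ
      ((ren π : PX K A v →ₐ[K] PX K A v).toLinearMap ∘ₗ LinearMap.mulLeft K (F (π⁻¹ c))))

theorem Tg_apply (F : A → PX K A v) (h : PX K A v) :
    Tg S C w c F h = ∑ π ∈ (pS (S ∪ C)).filter (fun π => π⁻¹ c ∈ S),
      ((Equiv.Perm.sign π : ℤˣ) : ℤ) • ren (mv c w) (ren π (F (π⁻¹ c) * h)) := by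
  rw [Tg, LinearMap.sum_apply]
  rfl

theorem ThR_eq (h : PX K A v) :
    ThR S C w c x h = Tg S C w c (fun j => xS x (S.erase j)) h := by
  rw [Tg_apply]
  rfl

theorem Tg_congr (F G : A → PX K A v) (h : PX K A v) (hFG : ∀ j ∈ S, F j = G j) :
    Tg S C w c F h = Tg S C w c G h := by
  rw [Tg_apply, Tg_apply]
  refine Finset.sum_congr rfl fun π hπ => ?_
  rw [hFG _ (Finset.mem_filter.1 hπ).2]

theorem Tg_sum (n : ℕ) (a : ℕ → K) (F : ℕ → A → PX K A v) (h : PX K A v) :
    Tg S C w c (fun j => ∑ i ∈ Finset.range n, a i • F i j) h =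
      ∑ i ∈ Finset.range n, a i • Tg S C w c (F i) h := by
  simp only [Tg_apply, Finset.smul_sum]
  rw [Finset.sum_comm]
  refine Finset.sum_congr rfl fun π _ => ?_
  rw [Finset.sum_mul, map_sum, map_sum, Finset.smul_sum]
  refine Finset.sum_congr rfl fun i _ => ?_
  rw [smul_mul_assoc, map_smul, map_smul, smul_comm]

theorem mv_perm {π : Equiv.Perm A} (hw : π w = w) :
    mv c w ∘ π = π ∘ mv (π⁻¹ c) w := by
  funext a
  rw [Function.comp_apply, Function.comp_apply]
  by_cases h : a = π⁻¹ c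
  · subst h
    simp [mv, hw]
  · have h1 : π a ≠ c := by
      intro h2
      apply h
      rw [← h2]
      simp
    rw [mv, mv, Function.update_of_ne h1, Function.update_of_ne h]
    rfl

theorem one (hcf : CfR S C w c) (h : PX K A v) (hh : Cy C w h) :
    ren (mv c w) (alt (S ∪ C) (xS x S * h)) = lin x w * ThR S C w c x h := by
  rw [alt, map_sum, ThR, ← Finset.sum_filter_add_sum_filter_not (pS (S ∪ C)) (fun π => π⁻¹ c ∈ S),
    Finset.mul_sum]
  have h0 : ∑ π ∈ (pS (S ∪ C)).filter (fun π => ¬ π⁻¹ c ∈ S),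
      ren (mv c w) (((Equiv.Perm.sign π : ℤˣ) : ℤ) • ren π (xS x S * h)) = 0 := by
    refine Finset.sum_eq_zero fun π hπ => ?_
    obtain ⟨h1, h2⟩ := Finset.mem_filter.1 hπ
    have h3 := SYM.mem_pS.1 h1
    have hw : π w = w := h3 w (by
      rw [Finset.mem_union]
      rintro (h | h)
      · exact hcf.wS h
      · exact hcf.wC h)
    have h4 : π⁻¹ c ∈ S ∪ C := by
      by_contra h5
      have h6 := h3 _ h5
      rw [ap_inv] at h6
      rw [← h6] at h5
      exact h5 hcf.mem
    have h5 : π⁻¹ c ∈ C := (Finset.mem_union.1 h4).resolve_left h2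
    rw [map_zsmul, ren_ren, mv_perm w c hw, ← ren_ren, map_mul, hh _ h5, mul_zero, map_zero,
      smul_zero]
  rw [h0, add_zero]
  refine Finset.sum_congr rfl fun π hπ => ?_
  obtain ⟨h1, h2⟩ := Finset.mem_filter.1 hπ
  have h3 : (xS x S : PX K A v) = lin x (π⁻¹ c) * xS x (S.erase (π⁻¹ c)) :=
    (Finset.mul_prod_erase S (fun q => (lin x q : PX K A v)) h2).symm
  have h4 : ren (mv c w) (ren π (lin x (π⁻¹ c) : PX K A v)) = lin x w := by
    rw [SBT.ren_lin, SBT.ren_lin, ap_inv]
    simp [mv]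
  rw [map_zsmul, h3, mul_assoc, map_mul, map_mul, h4, mul_smul_comm]

theorem Eij_lin (i j : Fin v) (q : A) (hx : x j = 0) : Eij i j (lin x q : PX K A v) = 0 := by
  obtain ⟨-, -, -, -, -, -, -, -, -, -, h11, -⟩ := WB_thm K A A v
  rw [lin, map_sum]
  refine Finset.sum_eq_zero fun l _ => ?_
  rw [← MvPolynomial.smul_eq_C_mul, map_smul, h11]
  by_cases h : j = l
  · rw [← h, hx, zero_smul]
  · rw [if_neg h, smul_zero]

theorem Eij_mul_xS (i j : Fin v) (hx : x j = 0) (T : Finset A) (f : PX K A v) :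
    Eij i j (xS x T * f) = xS x T * Eij i j f := by
  obtain ⟨-, -, -, -, -, -, -, -, -, h10, -⟩ := WB_thm K A A v
  induction T using Finset.induction_on with
  | empty => simp [xS]
  | insert a T ha ih =>
    have h1 : (xS x (insert a T) : PX K A v) = lin x a * xS x T := Finset.prod_insert ha
    rw [h1, mul_assoc, h10, Eij_lin x i j a hx, zero_mul, add_zero, ih, mul_assoc]

end thr

end RTH

open RTH in
theorem RTH_thm : Stmt_RTH := by
  intro K _ _ A _ _ v S C w c hcf
  refine ⟨fun x h hh => one S C w c x hcf h hh, ?_, ?_, ?_, ?_⟩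
  · intro x h h' a
    simp only [ThR_eq]
    exact ⟨map_add _ _ _, map_sub _ _ _, map_smul _ _ _, fun ι s F => map_sum _ _ _⟩
  · intro x y h
    refine ⟨fun i => Tg S C w c (fun j => Qf x y (S.erase j) i) h, ?_, ?_, ?_⟩
    · show Tg S C w c (fun j => Qf x y (S.erase j) 0) h = _
      rw [ThR_eq]
      simp only [Qf_zero]
    · intro i hi
      show Tg S C w c (fun j => Qf x y (S.erase j) i) h = 0
      rw [Tg_congr S C w c _ (fun _ => 0) h, Tg_apply]
      · simp
      · intro j hj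
        refine Qf_big x y _ i ?_
        have := Finset.card_erase_lt_of_mem hj
        omega
    · intro t
      rw [ThR_eq, ← Tg_sum S C w c S.card (fun i => t ^ i) (fun i j => Qf x y (S.erase j) i) h]
      refine Tg_congr S C w c _ _ h fun j hj => ?_
      have h1 : (S.erase j).card + 1 = S.card := Finset.card_erase_add_one hj
      rw [xS_expand, h1]
  · intro g x h
    rw [ThR, ThR, map_sum]
    refine Finset.sum_congr rfl fun π _ => ?_
    rw [map_zsmul, ← SBT.ren_sb, ← SBT.ren_sb, map_mul]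
    congr 4
    rw [xS, xS, map_prod]
    exact Finset.prod_congr rfl fun q _ => SBT.sb_lin g x q
  · intro i j x h hx
    obtain ⟨hN, -⟩ := NAT_thm K A A v (mv c w)
    rw [ThR, ThR, map_sum]
    refine Finset.sum_congr rfl fun π _ => ?_
    obtain ⟨hP, -⟩ := NAT_thm K A A v π
    rw [map_zsmul, ← hN, ← hP, Eij_mul_xS x i j hx]

end Pool.Agent.VOP
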