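import Pool.Agent.VOP.StmtsG

/-!
# The Ottaviani-Paoletti conjecture (MP_deb8da_ag): block H (highest weight gluing, section 6)

Plan.  `HGP` is `HG` with parameter points (arbitrary degrees outside `Λ ∪ {w}`).
`HG → HGP` by the Fischer form (HGPM).  The step (HGS2): `c u := yL L (x u)`, where `L` is the list of
the coordinates `j` with `ν j ≠ 0`; STA glues the components of the super family at the tuples without
`w`, STB those at the tuples containing `w`; then `y := capL L h / capc ν L`, made a highest weight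
vector by HWY.  No dominance of `ν` is needed.  `HG0` follows from the step by induction on `κ`.
-/

namespace Pool.Agent.VOP

open MvPolynomial Pool.Agent.VSY

/-! ### Definitions -/

section defs

variable {K : Type} [Field K] {A : Type} {v k : ℕ}

/-- The product of the factorials of the exponents. -/
noncomputable def mfac (K : Type) [Field K] {A : Type} {v : ℕ} (m : A × Fin v →₀ ℕ) : K :=
  m.prod fun _ n => (n.factorial : K)

/-- The Fischer form. -/
noncomputable def fis (f g : PX K A v) : K :=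
  ∑ m ∈ f.support, mfac K m * (coeff m f * coeff m g)

/-- The coefficient (a polynomial in the coordinates of the points outside `P`) of the monomial `α`
in the coordinates of the points of `P`. -/
noncomputable def cfo [DecidableEq A] (P : Finset A) (α : A × Fin v →₀ ℕ) (f : PX K A v) :
    PX K A v :=
  aeval (fun y : A × Fin v => if y.1 ∈ P then (0 : PX K A v) else X y) (f.divMonomial α)

/-- Highest weight vectors. -/
def Hw [Fintype A] (f : PX K A v) : Prop :=
  ∀ i j : Fin v, i < j → Eij i j f = 0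

/-- Compatible families of highest weight vectors of weight `ν`. -/
structure Fam [Fintype A] [DecidableEq A] (δ : A → ℕ) (Λ : Finset A) (w : A) (ν : Fin v → ℕ)
    (x : A → PX K A v) : Prop where
  dg : ∀ u ∈ Λ, Dg (Function.update (Function.update δ u 0) w (δ w + δ u)) (x u)
  cp : ∀ u ∈ Λ, ∀ u' ∈ Λ, u ≠ u' → ren (mv u' w) (x u) = ren (mv u w) (x u')
  wt : ∀ u ∈ Λ, HasW ν (x u)
  hw : ∀ u ∈ Λ, Hw (x u)

/-- The family `x` is glueable. -/
def Glu [DecidableEq A] (δ : A → ℕ) (Λ : Finset A) (w : A) (x : A → PX K A v) : Prop :=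
  ∃ y : PX K A v, Dg δ y ∧ ∀ u ∈ Λ, ren (mv u w) y = x u

/-- The degrees of a super polynomial. -/
def SDg [Fintype A] [DecidableEq A] (δ : A → ℕ) (c : SA K A v k) : Prop :=
  ∀ t : Fin k → A, ∀ m ∈ (c (sgl K t)).support, ∀ x,
    ∑ l, m (x, l) + (Finset.univ.filter fun i => t i = x).card = δ x

/-- Super polynomials which are highest weight vectors of weight `ν` (of the group `GL_v`). -/
structure SHw [Fintype A] [DecidableEq A] (ν : Fin v → ℕ) (c : SA K A v k) : Prop where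
  wt : ∀ t : Fin k → A, HasW ν (c (sgl K t))
  hw : ∀ i j : Fin v, i < j → EA i j c = 0

/-- Compatible families of super polynomials, highest weight vectors of weight `ν`. -/
structure SFam [Fintype A] [DecidableEq A] (δ : A → ℕ) (Λ : Finset A) (w : A) (ν : Fin v → ℕ)
    (c : A → SA K A v k) : Prop where
  dg : ∀ u ∈ Λ, SDg (Function.update (Function.update δ u 0) w (δ w + δ u)) (c u)
  cp : ∀ u ∈ Λ, ∀ u' ∈ Λ, u ≠ u' → push (mv u' w) (c u) = push (mv u w) (c u')
  hw : ∀ u ∈ Λ, SHw ν (c u)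

end defs

/-- `HG` with parameter points. -/
def HGP (K : Type) [Field K] (v N κ e D : ℕ) : Prop :=
  ∀ (A : Type) [Fintype A] [DecidableEq A] (δ : A → ℕ) (Λ : Finset A) (w : A)
    (ν : Fin v → ℕ) (x : A → PX K A v), w ∉ Λ → Λ.card = κ → (∀ u ∈ Λ, N ≤ δ u) →
    δ w = e → (∀ j, ν j ≤ D) → Fam δ Λ w ν x →
    ∃ y : PX K A v, Dg δ y ∧ HasW ν y ∧ Hw y ∧ ∀ u ∈ Λ, ren (mv u w) y = x u

/-! ### The Fischer form -/

/-- FSH: the Fischer form.
Proofs.  (1)-(3): `fis f g = ∑ m ∈ s, mfac m * (coeff m f * coeff m g)` for every finite `s ⊇ f.support`, or `s ⊇ f.support ∩ g.support`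
(the other terms are zero).  (4) all terms are `≥ 0` and `mfac m > 0` (a product of factorials, `K` ordered).  (5) `⟪X y * f, g⟫ = ⟪f, pderiv y g⟫`: by bilinearity both sides for monomials `f = X^a`, `g = X^b`: both are zero unless
`b = a + single y 1`, then `b! = a! * (a y + 1)`, `pderiv y X^b = (a y + 1) X^a`.  So `⟪X (x,i) * pderiv (x,j) f, g⟫ = ⟪pderiv (x,j) f, pderiv (x,i) g⟫ = ⟪f, X (x,j) * pderiv (x,i) g⟫`; sum over `x`.
(6) `fis f (monomial α 1 * c) = fis (monomial α 1 * c) f = ∑_{m ∈ c.support} mfac (α + m) * (coeff m c * coeff (α + m) f) = ∑ mfac (α + m) * (coeff m c)^2`.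
(7) `coeff m (Eij i i f) = (∑ x, m (x, i)) * coeff m f` (`VSY.WT.Eij_monomial`, or: `X y * pderiv y` multiplies the monomial `m` by `m y`), `K` of characteristic zero. -/
def Stmt_FSH : Prop :=
  ∀ (K : Type) [Field K] [LinearOrder K] [IsStrictOrderedRing K] (A : Type) [Fintype A]
    [DecidableEq A] (v : ℕ),
    (∀ f g h : PX K A v, fis (f + g) h = fis f h + fis g h ∧
      fis (f - g) h = fis f h - fis g h) ∧
    (∀ (a : K) (f g : PX K A v), fis (a • f) g = a * fis f g) ∧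
    (∀ f g : PX K A v, fis f g = fis g f) ∧
    (∀ f : PX K A v, 0 ≤ fis f f ∧ (fis f f = 0 → f = 0)) ∧
    (∀ (i j : Fin v) (f g : PX K A v), fis (Eij i j f) g = fis f (Eij j i g)) ∧
    (∀ (α : A × Fin v →₀ ℕ) (f c : PX K A v), (∀ m ∈ c.support, coeff (α + m) f = coeff m c) →
      0 ≤ fis f (monomial α 1 * c) ∧ (fis f (monomial α 1 * c) = 0 → c = 0)) ∧
    (∀ (i : Fin v) (n : ℕ) (f : PX K A v), Eij i i f = (n : K) • f →
      ∀ m ∈ f.support, ∑ x, m (x, i) = n)

/-- PRJ: orthogonal projection to a finite-dimensional space of families.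
Proof.  `B x y := ∑ i, fis (x i) (y i)` is bilinear, symmetric and anisotropic (`B x x = 0 → x = 0`, a sum of terms `≥ 0`) on `W := ι → PX K A v` (FSH).  `U` is finite-dimensional: it is contained in the space of all families of polynomials
of total degree `≤ B` (finitely many monomials: `MvPolynomial.restrictTotalDegree`, or `Finsupp.supported` by a finite set; `Submodule.finiteDimensional_of_le`).  The linear map `U → Module.Dual K U`, `z ↦ B z ·`, is injective, hence surjective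
(`LinearMap.injective_iff_surjective_of_finrank_eq_finrank`, `Subspace.dual_finrank_eq`); choose `z` with `B z z' = B x z'` for all `z' ∈ U`. -/
def Stmt_PRJ : Prop :=
  ∀ (K : Type) [Field K] [LinearOrder K] [IsStrictOrderedRing K] (A ι : Type) [Fintype A]
    [DecidableEq A] [Fintype ι] (v B : ℕ) (U : Submodule K (ι → PX K A v)),
    (∀ x ∈ U, ∀ i, ∀ m ∈ (x i).support, ∑ y, m y ≤ B) →
    ∀ x : ι → PX K A v, ∃ z ∈ U, ∀ z' ∈ U, ∑ i, fis (x i - z i) (z' i) = 0

/-- CFO: the coefficient operator.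
Proofs.  (1), (2): `coeff_divMonomial`; the algebra homomorphism kills the monomials containing a coordinate of a point of `P` and fixes the others (`f` as a sum of monomials).  (3) linear.  (4): on monomials `m = m' + m''`, `m'` supported in `P`; `mv u w` fixes the points of `P` and
maps the other points to points outside `P`; both sides are zero for `m' ≠ α`, and `ren (mv u w) (monomial m'')` for `m' = α`.  (5), (6): if `m` is a monomial of `cfo P α f` then `m` vanishes on `P` and `α + m` is a monomial of `f`; for `p ∈ P` the degree of `α + m` at `p` is that of `α`, for `p ∉ P` it is that of `m`.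
(7) choose a monomial `m` of `f`, `α` := its restriction to `P`, then `coeff (m - α) (cfo P α f) = coeff m f`.  (8): for `i ≠ j`: `coeff m (Eij i j g) = ∑_{x : 1 ≤ m (x,i)} (m (x,j) + 1) * coeff (m - single (x,i) 1 + single (x,j) 1) g`.  Let `m` vanish on `P`
(otherwise both coefficients vanish: a monomial of `Eij i j (cfo P α f)` vanishes on `P` since those of `cfo P α f` do).  `coeff m (Eij i j (cfo P α f))`: only `x ∉ P` contribute, with `coeff (α + m - (x,i) + (x,j)) f`.  `coeff m (cfo P α (Eij i j f)) = coeff (α + m) (Eij i j f)`: the terms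
`x ∉ P` are the same; for `p ∈ P` with `1 ≤ α (p,i)` put `β := α - single (p,i) 1 + single (p,j) 1` (supported in `P`): the term is a multiple of `coeff (β + m) f = coeff m (cfo P β f) = 0`. -/
def Stmt_CFO : Prop :=
  ∀ (K : Type) [Field K] (A : Type) [Fintype A] [DecidableEq A] (v : ℕ) (P : Finset A),
    (∀ (α m : A × Fin v →₀ ℕ) (f : PX K A v), (∀ y, y.1 ∈ P → m y = 0) →
      coeff m (cfo P α f) = coeff (α + m) f) ∧
    (∀ (α m : A × Fin v →₀ ℕ) (f : PX K A v), (∃ y, y.1 ∈ P ∧ m y ≠ 0) →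
      coeff m (cfo P α f) = 0) ∧
    (∀ (α : A × Fin v →₀ ℕ) (f g : PX K A v) (a : K), cfo P α (f + g) = cfo P α f + cfo P α g ∧
      cfo P α (a • f) = a • cfo P α f ∧ cfo P α (0 : PX K A v) = 0) ∧
    (∀ (α : A × Fin v →₀ ℕ) (u w : A) (f : PX K A v), (∀ y, y.1 ∉ P → α y = 0) → u ∉ P →
      w ∉ P → cfo P α (ren (mv u w) f) = ren (mv u w) (cfo P α f)) ∧
    (∀ (α : A × Fin v →₀ ℕ) (δ : A → ℕ) (f : PX K A v), (∀ y, y.1 ∉ P → α y = 0) → Dg δ f →
      Dg (fun p => if p ∈ P then 0 else δ p) (cfo P α f) ∧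
      (cfo P α f ≠ 0 → ∀ p ∈ P, ∑ j, α (p, j) = δ p)) ∧
    (∀ (α : A × Fin v →₀ ℕ) (ν : Fin v → ℕ) (f : PX K A v), HasW ν f →
      HasW (fun j => ν j - ∑ p, α (p, j)) (cfo P α f)) ∧
    (∀ f : PX K A v, f ≠ 0 → ∃ α : A × Fin v →₀ ℕ, (∀ y, y.1 ∉ P → α y = 0) ∧
      cfo P α f ≠ 0) ∧
    (∀ (α : A × Fin v →₀ ℕ) (i j : Fin v) (f : PX K A v), (∀ y, y.1 ∉ P → α y = 0) → i ≠ j →
      (∀ p ∈ P, ∀ β : A × Fin v →₀ ℕ,
        β + Finsupp.single (p, i) 1 = α + Finsupp.single (p, j) 1 → cfo P β f = 0) →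
      Eij i j (cfo P α f) = cfo P α (Eij i j f))

/-- HWY: if a family of highest weight vectors is glueable then it is glueable by a highest weight
vector.  (Parameter points are allowed.)
Proof.  `U := {z | Dg δ z ∧ ∀ u ∈ Λ, ren (mv u w) z = 0}` (total degrees are `∑ p, δ p`).  PRJ (with `ι = Unit`): `y = z₀ + y'`, `z₀ ∈ U`, `fis y' z = 0` for all `z ∈ U`.  `Dg δ y'`, `ren (mv u w) y' = ren (mv u w) y =: x u`.
`U` is stable under all `Eij i j` (DEG (1) with `sh = 0`, `e = δ`; NAT (1)).  Let `i < j`, `z₁ := Eij i j y'`: `ren (mv u w) z₁ = Eij i j (x u) = 0`, so `z₁ ∈ U`; `fis z₁ z₁ = fis y' (Eij j i z₁) = 0` (FSH (5)), so `z₁ = 0`.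
The same for `z₁ := Eij i i y' - (ν i : K) • y'`: in `U` as `Eij i i (x u) = (ν i : K) • x u` (WB (5)), `fis z₁ z₁ = fis y' (Eij i i z₁ - (ν i : K) • z₁) = 0`.  So `Eij i i y' = (ν i : K) • y'` and `HasW ν y'` by FSH (7). -/
def Stmt_HWY : Prop :=
  ∀ (K : Type) [Field K] [LinearOrder K] [IsStrictOrderedRing K] (A : Type) [Fintype A]
    [DecidableEq A] (v : ℕ) (δ : A → ℕ) (Λ : Finset A) (w : A) (ν : Fin v → ℕ)
    (x : A → PX K A v), (∀ u ∈ Λ, HasW ν (x u)) → (∀ u ∈ Λ, Hw (x u)) → Glu δ Λ w x →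
    ∃ y : PX K A v, Dg δ y ∧ HasW ν y ∧ Hw y ∧ ∀ u ∈ Λ, ren (mv u w) y = x u

/-- HGPM: `HG` implies `HG` with parameter points (section 6.2).
Proof.  `P := univ \ insert w Λ`, `ι := {u // u ∈ Λ}`, `φ y := (ren (mv u w) y)_{u ∈ Λ}`, `U := {φ y | Dg δ y}` (a submodule of `ι → PX K A v`; total degrees `∑ p, δ p`: DG (8)).  PRJ: `y₁` with `Dg δ y₁` and `x₂ := x - φ y₁` orthogonal to `U`.
Claim: `x₂ = 0`; then `Glu δ Λ w x`, and HWY gives the result.
(a) `x₂` is a compatible family with the degrees of `Fam` (`x` is one; `φ y₁` is one: DG (8) and `mv u' w ∘ mv u w = mv u w ∘ mv u' w`).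
(b) For `i < j`: `E x₂ = E x - φ (E y₁) = - φ (E y₁) ∈ U` (`E = Eij i j` at every `u`; NAT (1); `Dg δ (E y₁)`: DEG (1)), and `E x₂` is orthogonal to `U`: `fis (Eij i j (x₂ u)) (φ z u) = fis (x₂ u) (φ (Eij j i z) u)`.  So `∑_u fis (E x₂ u) (E x₂ u) = 0` and `E x₂ = 0` (FSH (4)).
In the same way `Eij i i (x₂ u) = (ν i : K) • x₂ u` (WB (5) for `x u`), so `HasW ν (x₂ u)` (FSH (7)).
(c) Suppose `x₂ u ≠ 0` for some `u ∈ Λ`.  By CFO (7) there are `α` (supported in `P`) and `u ∈ Λ` with `cfo P α (x₂ u) ≠ 0`; choose such an `α` with `h α := ∑_{p,j} (v - j) * α (p,j)` minimal.  For `i < j`, `p ∈ P` and `β + single (p,i) 1 = α + single (p,j) 1`: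
`β` is supported in `P` and `h β + (v - i) = h α + (v - j)`, so `h β < h α` and `cfo P β (x₂ u') = 0` for all `u' ∈ Λ`.  CFO (8): `Eij i j (cfo P α (x₂ u')) = cfo P α (Eij i j (x₂ u')) = 0`.  So `c u' := cfo P α (x₂ u')` is a compatible family (CFO (4)) of highest weight vectors of weight
`ν - wt α ≤ D` (CFO (6)), with degrees for `δ' := fun p => if p ∈ P then 0 else δ p` (CFO (5); `u', w ∉ P`).  `HG` for `δ'`: `y₀` with `Dg δ' y₀`, `ren (mv u' w) y₀ = c u'`.
(d) `∑ j, α (p,j) = δ p` for `p ∈ P` (CFO (5)), so `Dg δ (monomial α 1 * y₀)`, and `ren (mv u' w) (monomial α 1 * y₀) = monomial α 1 * c u'` (`mv u' w` fixes `P`), so `∑_{u' ∈ Λ} fis (x₂ u') (monomial α 1 * c u') = 0`; all terms are `≥ 0` by FSH (6) (`coeff (α + m) (x₂ u') = coeff m (c u')` for the monomials `m` of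
`c u'`, CFO (1), (2)), so all are zero and `c u' = 0` for all `u' ∈ Λ`: a contradiction. -/
def Stmt_HGPM : Prop :=
  ∀ (K : Type) [Field K] [LinearOrder K] [IsStrictOrderedRing K] (v N κ e D : ℕ),
    HG K v N κ e D → HGP K v N κ e D

/-! ### Super polynomials -/

/-- YLD: `yL L g` is a highest weight vector.
Proof.  (i) `Dop i (Dop j c) + Dop j (Dop i c) = 0` for every `c : SA K A v k`: Mathlib's `AlternatingMap.alternatizeUncurryFin_alternatizeUncurryFinLM_comp_of_symmetric` (`f x y = f y x → alternatizeUncurryFin (alternatizeUncurryFinLM ∘ₗ f) = 0`) for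
`f ξ η := (dd i ξ ∘ dd j η + dd j ξ ∘ dd i η).compAlternatingMap c`, symmetric because `dd i ξ` and `dd j η` commute (constant combinations of partial derivatives, `MvPolynomial.pderiv` commute); or directly with the formula
`Dop j c ξ = ∑ i, (-1)^i • dd j (ξ i) (c (i.removeNth ξ))` (`VSY.OPS.Dop_apply`).  (ii) So `Dop j (yL L g) = 0` if `j ∈ L` (`2 • Dop j (Dop j c) = 0`, move `Dop j` to the right), and also if `pderiv (x,j) g = 0` for all `x` (`Dop j` of the constant form `g` is zero, move `Dop j` to the right).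
(iii) First part, by induction on `L`: if `i ∉ L`: `EA i j (yL L g) = yL L (Eij i j g) = 0` (`VSY.CAPM.EA_yL`, `yL L 0 = 0`: `VSY.OPS.yL_zero`).  If `L = l :: L'` with `i ∈ L`, REL (4): `EA i j (Dop l c) = Dop l (EA i j c) - (if l = i then 1 else 0) • Dop j c`, `c = yL L' g`.
If `l = i`: `i ∉ L'` (sorted), so `EA i j c = 0` as before, and `Dop j c = 0` by (ii) (`j ∈ L`, `j ≠ i` gives `j ∈ L'`).  If `l ≠ i`: `i ∈ L'`, so `l < i < j`, `j ≠ l`, and `EA i j c = 0` by induction.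
(iv) Second part: induction on `L`; `Dop j c (sgl t) = ∑_i ± pderiv (t i, j) (c (sgl (t without i)))`; a monomial `m` of `pderiv y f` gives the monomial `m + single y 1` of `f`. -/
def Stmt_YLD : Prop :=
  ∀ (K : Type) [Field K] [CharZero K] (A : Type) [Fintype A] [DecidableEq A] (v : ℕ)
    (L : List (Fin v)) (g : PX K A v), L.Pairwise (· < ·) →
    (∀ i j : Fin v, i < j → Eij i j g = 0 → (j ∈ L ∨ ∀ x : A, pderiv (x, j) g = 0) →
      EA i j (yL L g) = 0) ∧
    (∀ ν : Fin v → ℕ, HasW ν g → ∀ t, ∀ m ∈ (yL L g (sgl K t)).support, ∀ l,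
      ∑ x, m (x, l) + L.count l = ν l)

/-- CST: construction of super polynomials from their components.
Proof.  `F t := (k! : K)⁻¹ • ∑ σ, sign σ • y (t ∘ σ)`.  `F (t ∘ τ) = sign τ • F t` (reindex), `F t = 0` for `t` not injective (then all `t ∘ σ` are not injective), `F t ∈ Q t`.  `h ξ := ∑ t, (∏ i, ξ i (t i)) • F t` is multilinear in `ξ`; it is alternating: if `ξ a = ξ b`, `a ≠ b`, then the terms of
`t` and `t ∘ swap a b` cancel (`Finset.sum_involution`; if `t ∘ swap a b = t` then `t a = t b` and `F t = 0`).  `h (sgl K t) = F t` (only one term is non-zero).  (`VSY.IND.c0` is a similar construction for one tuple.) -/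
def Stmt_CST : Prop :=
  ∀ (K : Type) [Field K] [CharZero K] (A : Type) [Fintype A] [DecidableEq A] (v k : ℕ)
    (Q : (Fin k → A) → Submodule K (PX K A v)) (y : (Fin k → A) → PX K A v),
    (∀ (t : Fin k → A) (σ : Equiv.Perm (Fin k)), Q (t ∘ σ) = Q t) → (∀ t, y t ∈ Q t) →
    (∀ t, ¬ Function.Injective t → y t = 0) →
    ∃ h : SA K A v k, (∀ t, h (sgl K t) ∈ Q t) ∧
      ∀ t, (k.factorial : K) • h (sgl K t) =
        ∑ σ : Equiv.Perm (Fin k), ((Equiv.Perm.sign σ : ℤˣ) : ℤ) • y (t ∘ σ)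

/-- SPU: substitution `mv u w` in super polynomials.
Proofs.  `VSY.push_sgl`: `push φ h (sgl K t) = ∑_{s : φ ∘ s = t} ren φ (h (sgl K s))`; `mv u w (s i) = t i` means: `t i ≠ u`, and `s i = t i` if `t i ≠ w`, `s i ∈ {u, w}` if `t i = w`.  (1): for such `s` and a monomial `m'` of `h (sgl K s)` the degree of its image at `w` is that at `w` plus that at `u`
(`VSY.mapDomain_sum`), `#{i | t i = w} = #{i | s i = w} + #{i | s i = u}`; at `u`: `0`; at the others: unchanged (compare `VSY.EX.BND`).  (2): WB (1), (4) and NAT (2), `push φ 0 = 0`.  (3): only `s = t`.  (4): no `s`.  (5): `s = t`, or `s` has no entry `w`: if `t i = w` then `t i' ≠ w` for `i' ≠ i`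
(`t` injective), so `s i' = t i' ≠ w`, and `s i = u ≠ w`.  (6): `mv u' w ∘ mv u w = mv u w ∘ mv u' w`, `VSY.push_push`.  (7): a monomial of `h (sgl K t)` has `∑ + #{i | t i = x} = δ x = 0` for `x = t i`, impossible.  (8), (9) direct. -/
def Stmt_SPU : Prop :=
  ∀ (K : Type) [Field K] (A : Type) [Fintype A] [DecidableEq A] (v k : ℕ) (δ : A → ℕ) (u w : A),
    u ≠ w →
    (∀ h : SA K A v k, SDg δ h →
      SDg (Function.update (Function.update δ u 0) w (δ w + δ u)) (push (mv u w) h)) ∧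
    (∀ (ν : Fin v → ℕ) (h : SA K A v k), SHw ν h → SHw ν (push (mv u w) h)) ∧
    (∀ (h : SA K A v k) (t : Fin k → A), (∀ i, t i ≠ w) → (∀ i, t i ≠ u) →
      push (mv u w) h (sgl K t) = ren (mv u w) (h (sgl K t))) ∧
    (∀ (h : SA K A v k) (t : Fin k → A), (∃ i, t i = u) → push (mv u w) h (sgl K t) = 0) ∧
    (∀ (h : SA K A v k) (t : Fin k → A), (∀ s : Fin k → A, (∀ i, s i ≠ w) → h (sgl K s) = 0) →
      (∀ i, t i ≠ u) → Function.Injective t →
      push (mv u w) h (sgl K t) = ren (mv u w) (h (sgl K t))) ∧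
    (∀ (h : SA K A v k) (u' : A), u' ≠ w →
      push (mv u' w) (push (mv u w) h) = push (mv u w) (push (mv u' w) h)) ∧
    (∀ (h : SA K A v k) (t : Fin k → A), SDg δ h → (∃ i, δ (t i) = 0) → h (sgl K t) = 0) ∧
    (∀ h h' : SA K A v k, SDg δ h → SDg δ h' → SDg δ (h + h') ∧ SDg δ (h - h')) ∧
    (∀ (ν : Fin v → ℕ) (h h' : SA K A v k), SHw ν h → SHw ν h' → SHw ν (h + h') ∧
      SHw ν (h - h'))

/-- STA: the components at the tuples without `w`.
Proof.  For an injective `t : Fin k → A` with all `t i ∈ Λ` put `Λ_t := Λ.filter (∀ i, t i ≠ u)` (`Λ.card - k` points, `k ≤ Λ.card`), `δ_t p := δ p - #{i | t i = p}`.  The family `x_u := c u (sgl K t)`, `u ∈ Λ_t`, is a `Fam δ_t Λ_t w ν`: degrees: `SDg` gives `∑ m (p,l) + #{i | t i = p} = ..`, and `#{i | t i = p} ≤ 1 ≤ N ≤ δ p`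
for `p ∈ Λ`, `= 0` for `p = w`, `p = u` and the other points; compatibility: SPU (3) for `push (mv u' w) (c u) = push (mv u w) (c u')` at `sgl K t` (`t` has no entries `u`, `u'`, `w`); weights; `Eij i j (c u (sgl K t)) = EA i j (c u) (sgl K t) = 0`.  `HGP` gives `y t` with `Dg δ_t (y t)`, `HasW ν`, `Hw`, `ren (mv u w) (y t) = c u (sgl K t)` for `u ∈ Λ_t`.
For all other `t` put `y t := 0`.  CST with `Q t := {f | (∀ m ∈ f.support, ∀ p, ∑ m (p,l) + #{i | t i = p} = δ p) ∧ HasW ν f ∧ Hw f}` (a submodule, invariant under `t ↦ t ∘ σ`): `h` with `SDg δ h`, `SHw ν h`, `k! • h (sgl K t) = ∑ σ, sign σ • y (t ∘ σ)`.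
Last claim, for `u ∈ Λ`, `t` without `w`: if `t` is not injective both values are zero (`VSY.sgl_eq_zero`).  If some `t i = u`: `push = 0` by SPU (4), `c u (sgl K t) = 0` by SPU (7) (the degree at `u` is `0`).  Otherwise `push (mv u w) h (sgl K t) = ren (mv u w) (h (sgl K t))` (SPU (3)); if some `t i ∉ Λ` (and `≠ w`) then `δ (t i) = 0`, both are
zero by SPU (7).  If all `t i ∈ Λ`: `k! • ren (mv u w) (h (sgl K t)) = ∑ σ, sign σ • c u (sgl K (t ∘ σ)) = ∑ σ, c u (sgl K t) = k! • c u (sgl K t)` (`VSY.sgl_perm`; `u ∈ Λ_{t ∘ σ} = Λ_t`).  `K` has characteristic zero.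
The family `c u - push (mv u w) h` is an `SFam`: SPU (1), (2), (6), (8), (9). -/
def Stmt_STA : Prop :=
  ∀ (K : Type) [Field K] [LinearOrder K] [IsStrictOrderedRing K] (v N k D : ℕ) (A : Type)
    [Fintype A] [DecidableEq A] (δ : A → ℕ) (Λ : Finset A) (w : A) (ν : Fin v → ℕ)
    (c : A → SA K A v k), 1 ≤ N → w ∉ Λ → (∀ u ∈ Λ, N ≤ δ u) →
    (∀ p, p ∉ Λ → p ≠ w → δ p = 0) → (∀ j, ν j ≤ D) →
    (k ≤ Λ.card → HGP K v N (Λ.card - k) (δ w) D) → SFam δ Λ w ν c →
    ∃ h : SA K A v k, SDg δ h ∧ SHw ν h ∧ SFam δ Λ w ν (fun u => c u - push (mv u w) h) ∧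
      ∀ u ∈ Λ, ∀ t : Fin k → A, (∀ i, t i ≠ w) → (c u - push (mv u w) h) (sgl K t) = 0

/-- STB: the components at the tuples containing `w`.
Proof.  As STA, for the injective `t : Fin k → A` with `∃ i, t i = w` and all `t i ∈ insert w Λ`: `Λ_t := Λ.filter (∀ i, t i ≠ u)` has `Λ.card + 1 - k` points (and `k ≤ Λ.card + 1`), `δ_t p := δ p - #{i | t i = p}`, `δ_t w = δ w - 1`.  The family `x_u := c u (sgl K t)`, `u ∈ Λ_t`, is a `Fam δ_t Λ_t w ν`:
at `w` the degree is `δ w + δ u - 1 = δ_t w + δ_t u`; compatibility: SPU (5) for `push (mv u' w) (c u) = push (mv u w) (c u')` at `sgl K t` (`c u`, `c u'` vanish at the tuples without `w`).  `HGP` gives `y t`.  For all other `t`: `y t := 0`.  CST with `Q t := {f | (∀ m ∈ f.support, ∀ p, ∑ m (p,l) + #{i | t i = p} = δ p)}`: `h`, `SDg δ h`,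
`k! • h (sgl K t) = ∑ σ, sign σ • y (t ∘ σ)`; `h (sgl K t) = 0` if `t` has no entry `w`.  Claim: `push (mv u w) h = c u` for `u ∈ Λ` (`VSY.SA_ext`).  At `t` not injective: both zero.  If some `t i = u`: SPU (4), (7): both zero.  Otherwise SPU (5): `push (mv u w) h (sgl K t) = ren (mv u w) (h (sgl K t))`; if `t` has no entry `w`: both zero;
if some `t i ∉ insert w Λ`: both zero by SPU (7) (`δ (t i) = 0`); otherwise as in STA. -/
def Stmt_STB : Prop :=
  ∀ (K : Type) [Field K] [LinearOrder K] [IsStrictOrderedRing K] (v N k D : ℕ) (A : Type)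
    [Fintype A] [DecidableEq A] (δ : A → ℕ) (Λ : Finset A) (w : A) (ν : Fin v → ℕ)
    (c : A → SA K A v k), 1 ≤ N → w ∉ Λ → (∀ u ∈ Λ, N ≤ δ u) →
    (∀ p, p ∉ Λ → p ≠ w → δ p = 0) → (∀ j, ν j ≤ D) → 1 ≤ δ w →
    (k ≤ Λ.card + 1 → HGP K v N (Λ.card + 1 - k) (δ w - 1) D) → SFam δ Λ w ν c →
    (∀ u ∈ Λ, ∀ t : Fin k → A, (∀ i, t i ≠ w) → c u (sgl K t) = 0) →
    ∃ h : SA K A v k, SDg δ h ∧ ∀ u ∈ Λ, push (mv u w) h = c u

/-! ### The step and `HG0` -/

/-- R1: families with only one coordinate.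
Proof.  All monomials of `x u` only involve the coordinate `j₀` (`HasW`, `ν j = 0` for `j ≠ j₀`), and the degrees are fixed: `x u = a u • monomial (m u) 1` with `m u (p, j₀) = (update (update δ u 0) w (δ w + δ u)) p`, `m u (p, j) = 0` for `j ≠ j₀`.  If `Λ = ∅`: `y = 0`.  Otherwise choose `u₀ ∈ Λ`, `y := a u₀ • monomial m₀ 1`, `m₀ (p, j₀) = δ p`,
`m₀ (p, j) = 0` for `j ≠ j₀`.  `ren (mv u w)` sends `monomial m₀ 1` to `monomial (m u) 1`.  For `u ≠ u₀` in `Λ`: `ren (mv u₀ w) (x u) = a u • monomial m' 1` and `ren (mv u w) (x u₀) = a u₀ • monomial m' 1` with the same `m'` (the degrees of both are the same), so `a u = a u₀`. -/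
def Stmt_R1 : Prop :=
  ∀ (K : Type) [Field K] (A : Type) [Fintype A] [DecidableEq A] (v : ℕ) (δ : A → ℕ)
    (Λ : Finset A) (w : A) (ν : Fin v → ℕ) (j₀ : Fin v) (x : A → PX K A v), w ∉ Λ →
    (∀ j, j ≠ j₀ → ν j = 0) →
    (∀ u ∈ Λ, Dg (Function.update (Function.update δ u 0) w (δ w + δ u)) (x u)) →
    (∀ u ∈ Λ, ∀ u' ∈ Λ, u ≠ u' → ren (mv u' w) (x u) = ren (mv u w) (x u')) →
    (∀ u ∈ Λ, HasW ν (x u)) → Glu δ Λ w x

/-- HGS2: the step, only `ρ ≥ 2` is needed.
Proof.  If all `x u` (`u ∈ Λ`) are zero then `y = 0`.  Otherwise a monomial of some `x u` has total degree `∑ j, ν j = δ w + ∑_{u ∈ Λ} δ u ≥ κ N + e ≥ 1`.  `L := (List.finRange v).filter (ν j ≠ 0)`, `ρ := L.length`, `1 ≤ ρ ≤ v`, `∑ j, ν j ≤ ρ * D`.  If `ρ = 1`: R1 and HWY.  If `ρ ≥ 2`: `c u := yL L (x u)`, `ν' j := ν j - 1 ≤ D - 1`, is an `SFam δ Λ w ν'`: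
degrees DEG (2) (`sh = 0`), compatibility NAT (5), weights YLD (2) (`L.count l` is `1` if `ν l ≠ 0`, and `0` otherwise), highest weight YLD (1) (if `j ∉ L` then `ν j = 0` and `pderiv (x,j) (x u) = 0`).  HGPM, STA, STB: `h := h₁ + h₂`, `push (mv u w) h = c u`, `SDg δ h`.  `y := (capc ν L : K)⁻¹ • capL L h`: `Dg δ y` (DEG (3)),
`ren (mv u w) y = (capc ν L)⁻¹ • capL L (yL L (x u)) = x u` (NAT (6), CAPM with `M = ⊥`, WB (5)); `capc ν L ≠ 0` since all `ν j ≠ 0` for `j ∈ L`.  HWY. -/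
def Stmt_HGS2 : Prop :=
  ∀ (K : Type) [Field K] [LinearOrder K] [IsStrictOrderedRing K] (v N κ e D : ℕ), 1 ≤ N →
    1 ≤ e →
    (∀ ρ, 2 ≤ ρ → ρ ≤ v → κ * N + e ≤ ρ * D →
      (ρ ≤ κ → HG K v N (κ - ρ) e (D - 1)) ∧ (ρ ≤ κ + 1 → HG K v N (κ + 1 - ρ) (e - 1) (D - 1))) →
    HG K v N κ e D

/-! ### The case `(N4)` -/

/-- N4A: the glueing of the family `x_a = m`, `x_{a'} = ren (swap a a') m` (`a' ∈ T`), `x_b = 0` (`b ∈ S ∪ C`).
Proof.  Apply `HG` with `δ := dgc M (insert a T) S C w (M + 1 + β)`, `Λ := insert a T ∪ S ∪ C`, `x u := if u ∈ insert a T then ren (swap a u) m else 0` (`ren (swap a a) m = m`).  Degrees: `m` has degree `0` at `a` and `2M+2+β = (M+1+β) + (M+1)` at `w`.  `HasW`, `Hw`: WB (4), NAT (1).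
Compatibility, `u ≠ u'`: both in `insert a T`: `ren (mv u' w) (ren (swap a u) m) = ren (mv u w) (ren (swap a u') m)`: if `u = a`: the two maps `mv u' w` and `mv a w ∘ swap a u'` agree except at the point `a`, where `m` has degree `0` (DG (10)); the same if `u' = a`; if `u, u' ∈ T`: `mv u' w ∘ swap a u` and `mv u w ∘ swap a u' ∘ swap u u'`
agree except at `a` (`u ↦ a`, `u' ↦ w`), and `ren (swap u u') m = m`.  `u ∈ insert a T`, `u' ∈ S ∪ C`: `ren (mv u' w) (ren (swap a u) m) = ren (swap a u) (ren (mv u' w) m) = 0`.  Both in `S ∪ C`: `0 = 0`. -/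
def Stmt_N4A : Prop :=
  ∀ (K : Type) [Field K] [CharZero K] (v M β D : ℕ) (A : Type) [Fintype A] [DecidableEq A]
    (T S C : Finset A) (w a : A) (ν : Fin v → ℕ) (m : PX K A v), Cf T S C w →
    a ∉ T → a ∉ S → a ∉ C → a ≠ w →
    HG K v (M + 1) (T.card + 1 + S.card + C.card) (M + 1 + β) D →
    Zc M T S C w (2 * M + 2 + β) m → HasW ν m → (∀ i j : Fin v, i < j → Eij i j m = 0) →
    (∀ j, ν j ≤ D) →
    ∃ y : PX K A v, Dg (dgc M (insert a T) S C w (M + 1 + β)) y ∧
      (∀ a' ∈ insert a T, ren (mv a' w) y = ren (Equiv.swap a a') m) ∧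
      ∀ b ∈ S ∪ C, ren (mv b w) y = 0

/-- N4B: symmetrisation of the result of N4A.
Proof.  `η := (((T.card + 1)! * S.card! * C.card! : ℕ) : K)⁻¹ • smz (insert a T) (alt S (alt C y))`.  Degrees, symmetries: SYM (3), (6), (8) (`insert a T`, `S`, `C` are disjoint).  Let `ρ = π * σ * τ`, `π ∈ pS (insert a T)`, `σ ∈ pS S`, `τ ∈ pS C`; `ρ w = w`, so `mv b w ∘ ρ = ρ ∘ mv (ρ⁻¹ b) w` and
`ren (mv b w) (ren ρ y) = ren ρ (ren (mv (ρ⁻¹ b) w) y)`.  For `b ∈ S`: `ρ⁻¹ b = σ⁻¹ b ∈ S`, so this is `0`; the same for `b ∈ C`: `Cy`.  For `b = a`: `a' := ρ⁻¹ a = π⁻¹ a ∈ insert a T`: it is `ren ρ (ren (swap a a') m) = ren (π * swap a a') (ren (σ * τ) m)` (`σ`, `τ` commute with `swap a a'`) `= sign σ * sign τ • ren (π * swap a a') m = sign σ * sign τ • m`,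
since `π * swap a a'` fixes `a` and lies in `pS T` (SYM (2)).  So `ren (mv a w) (smz (insert a T) (alt S (alt C y))) = ∑_{π, σ, τ} m = ((T.card + 1)! * S.card! * C.card!) • m` (`SYM.card_pS`). -/
def Stmt_N4B : Prop :=
  ∀ (K : Type) [Field K] [CharZero K] (v M β : ℕ) (A : Type) [Fintype A] [DecidableEq A]
    (T S C : Finset A) (w a : A) (m y : PX K A v), Cf T S C w →
    a ∉ T → a ∉ S → a ∉ C → a ≠ w → Zc M T S C w (2 * M + 2 + β) m →
    Dg (dgc M (insert a T) S C w (M + 1 + β)) y →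
    (∀ a' ∈ insert a T, ren (mv a' w) y = ren (Equiv.swap a a') m) →
    (∀ b ∈ S ∪ C, ren (mv b w) y = 0) →
    ∃ η : PX K A v, Zc M (insert a T) S C w (M + 1 + β) η ∧ ren (mv a w) η = m

end Pool.Agent.VOP
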