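import Pool.Agent.VOP.StmtsU
import Pool.Agent.VOP.StmtsH

/-!
# Theorem D1 in points, and the first row bound for `K_l(k³)[2N-1]` (MP_deb8da_ag), part 2

The definitions (`cr`, `br`, `IB`, `ps`, `NC`, `GluL`, `GluA`, `BdN`) are in `StmtsU.lean`.  All points
have three coordinates.  Every statement carries its complete proof.

* Theorem D1 (`Stmt_D1F`): a family of polynomials which is glueable on every line `y = 0`, `y₂ ≠ 0`, is
  glueable.
* `Stmt_HVT`: a highest weight cycle in `Λ^l S_{N+1} ⊗ S_{2N-1}` (three variables) of weight `ν` with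
  `ν₀ < (N+1)(N+2)/2 - 2` is a boundary, for `l + 1 ≤ N` or `l + 4 ≤ 2N`.
-/

namespace Pool.Agent.VOP

open MvPolynomial Pool.Agent.VSY

/-! ### Cross products -/

/-- CRV: a polynomial which vanishes for `u = w` is in the ideal of the coordinates of `u × w`.
Proof.  Only the variables at `u` and `w` matter.  Exchange: for `i ≠ j`, `X (u,i) X (w,j) - X (u,j) X (w,i) = ± cr K u w k` (`k` the third index).  So if `m`, `m'` are monomials with the same degrees at all points, the same exponents outside `u, w`, and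
`m (u,l) + m (w,l) = m' (u,l) + m' (w,l)` for all `l`, then `monomial m 1 - monomial m' 1 = ∑ cr K u w i * h i` with `h i` of degrees `δ - 1` at `u` and `w`: induction on `∑_l |m (u,l) - m' (u,l)|` (if not zero there are `i ≠ j` with `m (u,i) > m' (u,i)`, `m (u,j) < m' (u,j)`, so `m (w,j) > m' (w,j) ≥ 0`: replace
`X (u,i) X (w,j)` by `X (u,j) X (w,i)`).  The `f` of the form `∑ cr * h` (with these degrees) form a subspace.  Choose for every monomial `n` in the image of `mapDomain` (`u ↦ w`) one preimage `m_n` with degrees `δ`; `f = ∑_m coeff m f • monomial m 1 ≡ ∑_n (∑_{m ↦ n} coeff m f) • monomial (m_n) 1`, and the inner sum is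
`coeff n (ren (mv u w) f) = 0`.
Second proof (characteristic zero): `D := ∑ X (w,i) ∂/∂X (u,i)`, `D' := ∑ X (u,i) ∂/∂X (w,i)`, `Ω := ∂_u × ∂_w`; Capelli: `∑ cr K u w i * Ω_i f = a (b+1) f - D' (D f)`, `a = δ u`, `b = δ w`; induction on `k` for `D^k f = 0` (`D' (cr K u w i) = 0`); `D^a f = a! ren (mv u w) f`.
If `δ u = 0` then `f = ren (mv u w) f = 0`; if `δ w = 0` then `ren (mv u w) f` is an injective renaming of `f`, so `f = 0`. -/
def Stmt_CRV : Prop :=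
  ∀ (K : Type) [Field K] [CharZero K] (A : Type) [Fintype A] [DecidableEq A] (δ : A → ℕ)
    (u w : A) (f : PX K A 3), u ≠ w → Dg δ f → ren (mv u w) f = 0 →
    (f ≠ 0 → 1 ≤ δ u ∧ 1 ≤ δ w) ∧
    ∃ h : Fin 3 → PX K A 3,
      (∀ i, Dg (Function.update (Function.update δ u (δ u - 1)) w (δ w - 1)) (h i)) ∧
      f = ∑ i, cr K u w i * h i

/-- CRX: the relations between the coordinates of `u × w`.
Proof.  Write `u`, `w`, `h`, `m` for vectors with three entries.  (F1) `∑ X (u,i) m_i = 0` implies `m = u × n`: put `X (u,1) = X (u,2) = 0` in `m_0`: `X (u,0) m_0 = 0` there, so `m_0 = X (u,1) n_2 - X (u,2) n_1`; then `X (u,1) (m_1 + X (u,0) n_2) + X (u,2) (m_2 - X (u,0) n_1) = 0`, so (`X (u,2)` is a prime which does not divide `X (u,1)`)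
`m_1 + X (u,0) n_2 = X (u,2) n_0`, `m_2 - X (u,0) n_1 = - X (u,1) n_0`.  (F2) `w × m = 0` implies `m = c w`: `X (w,0) m_1 = X (w,1) m_0`, so `X (w,0) ∣ m_0`, `m_0 = X (w,0) c`, `m_j = X (w,j) c`.
Claim: if `det (u, w, h) = 0` (`= ± ∑ cr K u w i * h i`) and all monomials of `h` have degree `≤ a` at `u` then `h = α w + β u`.  Induction on `a`.  `u · (w × h) = 0`, (F1): `w × h = u × m`, where `m` has degree `≤ a - 1` at `u` (take components with respect to the degree at `u`; for `a = 0`: `w × h = 0` and (F2)).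
`w · (u × m) = w · (w × h) = 0`, so `det (u, w, m) = 0`, induction: `m = α' w + β' u`, `w × h = u × m = α' (u × w)`, `w × (h + α' u) = 0`, (F2): `h = α w - α' u`.
Degrees: replace `α` by its component of degrees `δ - 1` at `w` (zero if `δ w = 0`), and `β` by its component of degrees `δ - 1` at `u` (zero if `δ u = 0`): take the component of degrees `δ` of `h i = α X (w,i) + β X (u,i)` (`DIV.lean` treats multihomogeneous components). -/
def Stmt_CRX : Prop :=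
  ∀ (K : Type) [Field K] [CharZero K] (A : Type) [Fintype A] [DecidableEq A] (δ : A → ℕ)
    (u w : A) (h : Fin 3 → PX K A 3), u ≠ w → (∀ i, Dg δ (h i)) →
    ∑ i, cr K u w i * h i = 0 →
    ∃ α β : PX K A 3, Dg (Function.update δ w (δ w - 1)) α ∧
      Dg (Function.update δ u (δ u - 1)) β ∧ (δ w = 0 → α = 0) ∧ (δ u = 0 → β = 0) ∧
      ∀ i, h i = α * X (w, i) + β * X (u, i)

/-- EXT: extension of the elements of `I_b` to a new point.
Proof.  `IB K w b Λ` is the ideal generated by the products `g` of `b` determinants `br K i j w` over disjoint pairs of `Λ` and of one `cr K s w (ι s)` for every other letter `s` (induction on `b`; `b = 0`: `Ideal.prod_span`, or induction on `Λ`); it is convenient to define these products inductively.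
`g` has degree `1` at every letter of `Λ`, `|Λ| - b` at `w`, `0` elsewhere (`2 b ≤ |Λ|` if there is such a `g`).  So `f = ∑_k c_k g_k`; take the component of degrees `δ`: one may assume that `c_k` has degrees `δ - 1` on `Λ`, `δ w - (|Λ| - b) ≥ r` at `w` (as `|Λ| - b ≤ e`), `δ` elsewhere, so that also
`c_k` is a linear combination of monomials `m` of these degrees.  For such a monomial choose exponents `α ≤ m (w, ·)` with `|α| = r` and let `m'` be the monomial on `Option A` with exponents `α` at `none`, `m (w, ·) - α` at `some w`, and `m (x, ·)` at `some x`; `rn w (X^m') = X^m`.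
`Y := ∑ coeff • X^m' * ren some g_k`; `ren (mv (some s) (some w)) (ren some g_k) = 0` for `s ∈ Λ`: the factor which contains `s` becomes `cr K w w i = 0`, `br K w j w = 0` or `br K i w w = 0`. -/
def Stmt_EXT : Prop :=
  ∀ (K : Type) [Field K] [CharZero K] (A : Type) [Fintype A] [DecidableEq A] (δ : A → ℕ)
    (Λ : Finset A) (w : A) (b r e : ℕ) (f : PX K A 3), w ∉ Λ → δ w = r + e →
    Λ.card ≤ e + b → Dg δ f → f ∈ IB K w b Λ →
    ∃ Y : PX K (Option A) 3, Dg (ext δ r w e) Y ∧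
      (∀ s ∈ Λ, ren (mv (some s) (some w)) Y = 0) ∧ rn w Y = f

/-- GEN: cycles are in `I_0`.
Proof.  Induction on `|Λ|`, for all `δ`, `f`.  `Λ = ∅`: the ideal is the whole ring.  Let `u ∈ Λ`, `Λ' := Λ.erase u`.  `u ≠ w`.  Claim, for `Γ ⊆ Λ'`, by induction on `Γ`: `f = ∑ cr K u w i * h i` with `h i` of degrees `δ' := δ - 1` at `u` and `w` (as in CRV), and `ren (mv t w) (h i) = 0` for `t ∈ Γ`.  `Γ = ∅`: CRV.  `Γ ∪ {s}`, `s ∈ Λ' \ Γ`:
`|Λ| ≥ 2`, so `δ w ≥ 2`.  `0 = ren (mv s w) f = ∑ cr K u w i * ren (mv s w) (h i)`; `h' i := ren (mv s w) (h i)` has degree `0` at `s`, `δ w - 1 + δ s` at `w`.  CRX: `h' i = α * X (w,i) + β * X (u,i)`.  For `t ∈ Γ`: `ren (mv t w) (h' i) = ren (mv s w) (ren (mv t w) (h i)) = 0` for all `i`, so `ren (mv t w) α = 0 = ren (mv t w) β`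
(`α' w + β' u = 0` for the vectors implies `α' = β' = 0`: `α' * cr K u w i = 0`).  The degree of `α` at `w` is `(δ w - 2) + δ s`, that of `β` is `(δ w - 1) + δ s` (and `δ u - 2` at `u`; `β = 0` if `δ u ≤ 1`).  `|Γ| ≤ |Λ| - 2 ≤ δ w - 2`: the induction hypothesis for `Γ` gives `α, β ∈ IB K w 0 Γ`, and EXT with `b = 0`,
`r = δ s`, `e = δ w - 2` resp. `e = δ w - 1` gives `Y` with `rn w Y = α`; `a := ren (fun o => o.getD s) Y` (the points `s` of `α` and `some s` of `Y` have degree `0`): degrees `δ s` at `s`, `δ w - 2` at `w`, `ren (mv s w) a = α` (DG (10)), `ren (mv t w) a = 0` for `t ∈ Γ`.  In the same way `b` for `β`.  Replace `h i` by `h i - a * X (w,i) - b * X (u,i)`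
(`∑ cr K u w i * X (w,i) = 0 = ∑ cr K u w i * X (u,i)`).  So for `Γ = Λ'` all `h i` are cycles for `Λ'`, `|Λ'| ≤ δ w - 1`: `h i ∈ IB K w 0 Λ'` by induction, and `f ∈ Ideal.span (Set.range (cr K u w)) * IB K w 0 Λ' = IB K w 0 Λ`. -/
def Stmt_GEN : Prop :=
  ∀ (K : Type) [Field K] [CharZero K] (A : Type) [Fintype A] [DecidableEq A] (δ : A → ℕ)
    (Λ : Finset A) (w : A) (f : PX K A 3), w ∉ Λ → Λ.card ≤ δ w → Dg δ f → Cy Λ w f →
    f ∈ IB K w 0 Λ

/-- STAR: a cycle which vanishes when `w` and `e + 1` letters are on a line comes from a chain of degree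
`e` at `w`.
Proof.  GEN: `f ∈ IB K w 0 Λ`.  If `|Λ| ≤ e`: EXT with `b = 0`.  Otherwise `|Λ| = e + 1 + a`.  For `b = 0, ..., a`: `f ∈ IB K w b Λ` implies `f ∈ IB K w (b+1) Λ` by USB: `|Λ \ I| = e + 1 + a - b ≥ e + 1`; if `b ≥ 1` then `a ≥ 1`, so `|Λ| ≤ 2 e` and `2 b + 2 ≤ 2 a + 2 ≤ |Λ|` (`a + 1 ≤ e`).  So `f ∈ IB K w (a+1) Λ`, EXT with `b = a + 1`. -/
def Stmt_STAR : Prop :=
  ∀ (K : Type) [Field K] [CharZero K] (A : Type) [Fintype A] [DecidableEq A] (δ : A → ℕ)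
    (Λ : Finset A) (w : A) (r e : ℕ) (f : PX K A 3), w ∉ Λ → δ w = r + e →
    Λ.card ≤ r + e → (Λ.card ≤ e + 1 ∨ Λ.card ≤ 2 * e) → Dg δ f → Cy Λ w f →
    (∀ J, J ⊆ Λ → e + 1 ≤ J.card → ps K (insert w J) f = 0) →
    ∃ Y : PX K (Option A) 3, Dg (ext δ r w e) Y ∧
      (∀ s ∈ Λ, ren (mv (some s) (some w)) Y = 0) ∧ rn w Y = f

/-! ### Two coordinates -/

/-- PDV: division by the `cr K u w 2 = X (u,0) X (w,1) - X (u,1) X (w,0)`.
Proof.  Induction on `J`, for all `δ`, `F`.  `u ∈ J`: CRV: `F = ∑ cr K u w i * h i`; apply the algebra homomorphism `X (u,2), X (w,2) ↦ 0` (other variables fixed): `F` is unchanged (NC), `cr K u w 0` and `cr K u w 1` become `0`, so `F = cr K u w 2 * h'`, `h'` of degrees `δ - 1` at `u` and `w`; `NC (insert w J) h'`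
(apply also `X (p,2) ↦ 0` for the other `p ∈ J`: one may replace `h'` by its image).  `ren (mv u' w) F = 0 = cr K u w 2 * ren (mv u' w) h'` for `u' ∈ J.erase u`, so `Cy (J.erase u) w h'`; induction.  `F ≠ 0`: `1 ≤ δ u`, `1 ≤ δ w` (CRV), induction for `h' ≠ 0`: `|J| - 1 ≤ δ w - 1`.
(Al) `∏ u ∈ J, cr K u w 2` is fixed by the swaps of `J`; cancel.  (Eij) `Eij 0 1 (cr K u w 2) = 0` (WB (10), (11)), so `Eij 0 1 F = (∏ ..) * Eij 0 1 g`; cancel.  (HasW) `Q := ∏ u ∈ J, cr K u w 2` has the weight `|J| (e_0 + e_1)`; `g` is a sum of its weight components `g_μ` (WB (8), (9)) and `Q * g_μ` has weight `μ + |J| (e_0 + e_1)`, so only one `μ`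
contributes (`Q * g_μ = 0` for the others), `g = g_μ`; `μ 0 + |J| = ν 0` because `F ≠ 0`. -/
def Stmt_PDV : Prop :=
  ∀ (K : Type) [Field K] [CharZero K] (A : Type) [Fintype A] [DecidableEq A] (δ : A → ℕ)
    (J : Finset A) (w : A) (F : PX K A 3), w ∉ J → Dg δ F → NC (insert w J) F → Cy J w F →
    (F ≠ 0 → J.card ≤ δ w ∧ ∀ u ∈ J, 1 ≤ δ u) ∧
    ∃ g : PX K A 3, F = (∏ u ∈ J, cr K u w 2) * g ∧ NC (insert w J) g ∧
      Dg (fun x => if x ∈ J then δ x - 1 else if x = w then δ w - J.card else δ x) g ∧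
      (Al J F → Al J g) ∧ (Eij (0 : Fin 3) 1 F = 0 → Eij (0 : Fin 3) 1 g = 0) ∧
      ∀ ν : Fin 3 → ℕ, HasW ν F → F ≠ 0 → ∃ μ : Fin 3 → ℕ, HasW μ g ∧ μ 0 + J.card = ν 0

/-- PV2: alternating polynomials in two coordinates.
Proof.  Let `m` be a monomial of `G` and `a x := m (x, 0)`, so `m (x, 1) = N - a x`, `m (x, 2) = 0` for `x ∈ J`.  `a` is injective on `J`: if `a x = a y`, `x ≠ y`, then `m` is invariant under `swap x y` and `coeff m G = - coeff m G` (characteristic `≠ 2`).  So `|J| ≤ N + 1`: (1).  (2): `a` is a bijection of `J` onto `{0, ..., N}`, so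
`μ 0 = ∑_x m (x,0) ≥ ∑_{x ∈ J} a x = N (N+1) / 2`.  (3): `a` misses exactly one value `k m` of `{0, ..., N}`.  If `k m = 0` for some monomial then `μ 0 ≥ N (N+1) / 2`.  Otherwise let `m` be a monomial of `G` with `k := k m ≥ 1` minimal, `x ∈ J` with `a x = k - 1`, `m' := m - single (x,1) 1 + single (x,0) 1` (`m (x,1) = N - k + 1 ≥ 1`).
`0 = coeff m' (Eij 0 1 G) = ∑_y (m' (y,1) + 1) * coeff (m' - single (y,0) 1 + single (y,1) 1) G` (sum over the points `y` with `m' (y,0) ≥ 1`; `WT.Eij_monomial`).  The values of `m'` on `J` are all of `{0, ..., N}` except `k - 1`.  The term `y = x` is `(N - k + 1) * coeff m G ≠ 0`.  `y ∈ J`, `y ≠ x`: the value at `y` becomes `m' (y,0) - 1`, which is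
again a value at another point of `J`, unless `m' (y,0) - 1 = k - 1`, i.e. `y = x`; so the coefficient is `0`.  `y ∉ J`: the missing value is `k - 1 < k`, so the coefficient is `0`.  A contradiction. -/
def Stmt_PV2 : Prop :=
  ∀ (K : Type) [Field K] [CharZero K] (A : Type) [Fintype A] [DecidableEq A] (δ : A → ℕ)
    (J : Finset A) (N : ℕ) (G : PX K A 3), Dg δ G → (∀ x ∈ J, δ x = N) → Al J G → NC J G →
    (N + 2 ≤ J.card → G = 0) ∧
    (∀ μ : Fin 3 → ℕ, HasW μ G → G ≠ 0 → J.card = N + 1 → N * (N + 1) / 2 ≤ μ 0) ∧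
    (∀ μ : Fin 3 → ℕ, HasW μ G → G ≠ 0 → J.card = N → Eij (0 : Fin 3) 1 G = 0 →
      N * (N + 1) / 2 ≤ μ 0)

/-- P1B: boundaries in two coordinates.
Proofs.  Write `λ_u := cr K u w 2`, `m := |J|`.  (1), `s ≥ N + 1`: split the exponents at `w`: choose for every `α : Fin 3 → ℕ` with `|α| = s`, `α 2 = 0` some `α' ≤ α` with `|α'| = N + 1`; `G` := `g` with `X_w^α` replaced by `X_{u₀}^α' X_w^(α - α')`; `G` is alternating in `J`, `ren (mv u₀ w) G = g`, of degree `N + 1` at `u₀`, `s - N - 1` at `w`.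
`E := (∏_{u ∈ J} λ_u) * G` has degree `m + s - N - 1 = e` at `w`.  `H := E - ∑_{u ∈ J} ren (swap u₀ u) E` is alternating in `insert u₀ J` (SYM (11)).  `ren (mv u₀ w) (ren (swap u₀ u) E) = 0`: `u` goes to `w` and `λ_u` becomes `cr K w w 2 = 0`.  So `ren (mv u₀ w) H = F`.
(1), `s = N` (`m = e + 1`): `g' := ren (mv w u₀) g` (degree `N` at `u₀`, `0` at `w`), `E := ∑_{i ∈ J} cr K i u₀ 2 * (∏_{j ∈ J.erase i} λ_j) * g'`: alternating in `J`, degree `N + 1` at `u₀`, `m - 1 = e` at `w`, `ren (mv u₀ w) E = m (∏ λ) g`.  `ren (mv u₀ w) (ren (swap u₀ u) E)` (`u ↦ w`, `u₀ ↦ u`, `w ↦ w`): the terms `i ≠ u` vanish (factor `cr K w w 2`);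
the term `i = u` is `cr K w u 2 * (∏_{j ≠ u} λ_j) * ren (swap u w) g = - (∏ λ) * ren (swap u w) g`.  So for `H := E - ∑_{u ∈ J} ren (swap u₀ u) E`: `ren (mv u₀ w) H = (∏ λ) * (m g + ∑_u ren (swap u w) g) = (m + 1) (∏ λ) g`; divide by `m + 1`.
(2) `H_c` for `X (w,c) * F`, `c = 0, 1`.  `Δ := X (w,1) * H_0 - X (w,0) * H_1`: alternating in `insert u₀ J`, `NC`, degree `e + 2` at `w`, `ren (mv u₀ w) Δ = 0`, hence `Cy (insert u₀ J) w Δ` (`ren (mv u w) Δ = - ren (mv u w) (ren (swap u u₀) Δ) = - ren (swap u u₀) (ren (mv u₀ w) Δ)`).  PDV: if `Δ ≠ 0` then `m + 1 ≤ e + 2`, contradiction.  `Δ = 0`: `X (w,0) ∣ H_0`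
(`X (w,0)` is prime), `H_0 = X (w,0) * H`, `H_1 = X (w,1) * H`; `H` is alternating, `NC`, of degree `e` at `w`, `ren (mv u₀ w) H = F` (cancel `X (w,0)`). -/
def Stmt_P1B : Prop :=
  ∀ (K : Type) [Field K] [CharZero K] (A : Type) [Fintype A] [DecidableEq A] (δ : A → ℕ)
    (N e : ℕ) (J : Finset A) (w u₀ : A), w ∉ J → u₀ ∉ J → u₀ ≠ w → (∀ u ∈ J, δ u = N + 1) →
    δ w = e + N + 1 → δ u₀ = 0 →
    (∀ (s : ℕ) (g : PX K A 3), s + J.card = e + N + 1 → Al J g → NC (insert w J) g →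
      Dg (fun x => if x ∈ J then N else if x = w then s else δ x) g →
      (N + 1 ≤ s ∨ (s = N ∧ g = ∑ u ∈ J, ren (Equiv.swap u w) g)) →
      BdN δ N e J w u₀ ((∏ u ∈ J, cr K u w 2) * g)) ∧
    (∀ F : PX K A 3, e + 2 ≤ J.card → Dg δ F →
      (∀ c : Fin 3, c ≠ 2 →
        BdN (Function.update δ w (δ w + 1)) N (e + 1) J w u₀ (X (w, c) * F)) →
      BdN δ N e J w u₀ F)

/-- P1L: cycles in two coordinates of small weight are boundaries.
Proof.  `m := |J|`, `e := N - 2`.  If `F = 0`: `H = 0`.  PDV: `F = (∏ λ_u) * g`, `m ≤ 2 N - 1`, `g` of degree `N` on `J` and `s := 2 N - 1 - m` at `w`, `Al J g`, `NC (insert w J) g`, `Eij 0 1 g = 0`, `HasW μ g`, `μ 0 + m = ν 0`; `g ≠ 0`.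
For `c ≥ 0` and a monomial `x` of degree `c` in `X (w,0), X (w,1)` with `s + c = N` let `g_x := x * g`, `G_x := g_x - ∑_{u ∈ J} ren (swap u w) g_x`: alternating in `insert w J` (SYM (11)), `NC`, of degree `N` on `insert w J`, of weight `μ + wt x`.  If `G_x = 0` then `x * F = (∏ λ_u) * g_x` is in `BdN` at `e + c` by P1B (1) (with `δ` replaced by
`Function.update δ w (2 N - 1 + c)`).
`m ≤ N - 2`: `s ≥ N + 1`, P1B (1).  `m = N - 1`: `s = N`, `x = 1`: if `G_1 ≠ 0` then PV2 (3) (`|insert w J| = N`, `Eij 0 1 G_1 = 0` by NAT) gives `N (N+1)/2 ≤ μ 0 = ν 0 - (N - 1)`, so `ν 0 ≥ N(N+1)/2 + N - 1 = (N+1)(N+2)/2 - 2`, a contradiction; P1B (1).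
`m = N`: `s = N - 1`, `x = X (w,c)`: if `G_x ≠ 0` then PV2 (2) (`|insert w J| = N + 1`) gives `N (N+1)/2 ≤ μ 0 + 1 = ν 0 - N + 1`, so `ν 0 ≥ N(N+1)/2 + N - 1`, a contradiction.  So `X (w,0) F`, `X (w,1) F` are in `BdN` at `e + 1`, P1B (2) (`e + 2 = N ≤ m`).
`m = N + 1`: `s = N - 2`, `x = X (w,c) X (w,c')`: `G_x = 0` by PV2 (1) (`N + 2` points).  So all `X (w,c) X (w,c') F` are in `BdN` at `e + 2`; P1B (2) for `X (w,c) F` (`e + 3 = N + 1 ≤ m`), then for `F`.  `m ≥ N + 2`: `g = 0` by PV2 (1) for `J`. -/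
def Stmt_P1L : Prop :=
  ∀ (K : Type) [Field K] [CharZero K] (A : Type) [Fintype A] [DecidableEq A] (δ : A → ℕ)
    (N : ℕ) (J : Finset A) (w u₀ : A) (ν : Fin 3 → ℕ) (F : PX K A 3), 2 ≤ N → w ∉ J →
    u₀ ∉ J → u₀ ≠ w → (∀ u ∈ J, δ u = N + 1) → δ w = 2 * N - 1 → δ u₀ = 0 → Dg δ F → Al J F →
    Cy J w F → NC (insert w J) F → HasW ν F → Eij (0 : Fin 3) 1 F = 0 →
    ν 0 + 2 < (N + 1) * (N + 2) / 2 → BdN δ N (N - 2) J w u₀ F

/-! ### Lines -/

/-- LNV: `f` vanishes when `w` and at least `e + 1` letters are on a line.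
Proof.  Let `y` with `y 2 ≠ 0`, and `π` the algebra homomorphism `PX K A 3 → PX K A 3` which is `ps K (insert w J)` followed by the evaluation `X i ↦ y i`: it fixes the coordinates of the points outside `insert w J`, and for `p ∈ insert w J`: `X (p,0) ↦ y 2 • X (p,0)`, `X (p,1) ↦ y 2 • X (p,1)`, `X (p,2) ↦ - (y 0 • X (p,0) + y 1 • X (p,1))`.
`π` preserves `Dg`; `π (lin y p) = 0` for `p ∈ insert w J`; `NC (insert w J) (π g)` for all `g`; `π (ren (mv u w) g) = ren (mv u w) (π g)` for `u ∈ J` (check on variables).  Choose `Z` for `y`, `z := π Z`.  `ren (mv u w) z = π (ren (mv u w) Z) = 0` for `u ∈ J` (`lin y w` divides `ren (mv u w) Z`).  PDV: if `z ≠ 0` then `|J| ≤ δ w`, a contradiction: `z = 0`.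
`π (ren (mv u₀ w) Z) = σ (π Z) = 0` with `σ : X (u₀, i) ↦ π (X (w, i))`, other variables fixed (check on variables: `u₀ ∉ insert w J`).  So `π f = 0` (`lin y w ∣ f - ren (mv u₀ w) Z`).  Hence the polynomial `ps K (insert w J) f` over `PX K A 3` vanishes at all `y ∈ K³` with `y 2 ≠ 0`, so it is zero (`K` is infinite: `MvPolynomial.funext_set` or induction on the number of variables). -/
def Stmt_LNV : Prop :=
  ∀ (K : Type) [Field K] [CharZero K] (A : Type) [Fintype A] [DecidableEq A] (δ : A → ℕ)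
    (J : Finset A) (w u₀ : A) (f : PX K A 3), w ∉ J → u₀ ∉ J → u₀ ≠ w → δ w + 1 ≤ J.card →
    (∀ y : Fin 3 → K, y 2 ≠ 0 → ∃ Z : PX K A 3, Dg δ Z ∧
      (∀ u ∈ J, lin y w ∣ ren (mv u w) Z) ∧ lin y w ∣ f - ren (mv u₀ w) Z) →
    ps K (insert w J) f = 0

/-- D1F: a family which is glueable on the lines is glueable.
Proof.  Induction on `|Λ|`.  `Λ = ∅`: `Y = 0`.  Choose `u₀ ∈ Λ`, `Λ' := Λ.erase u₀`.  Induction for `Λ'`: `Y₀` with `Dg δ Y₀`, `ren (mv u w) Y₀ = x u` for `u ∈ Λ'`.  `f := x u₀ - ren (mv u₀ w) Y₀`: degree `0` at `u₀`, `δ w + δ u₀` at `w`, `δ` elsewhere (DG (8)); for `u ∈ Λ'`: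
`ren (mv u w) f = ren (mv u₀ w) (x u) - ren (mv u₀ w) (ren (mv u w) Y₀) = 0`.  STAR for `Λ'`, `r := δ u₀`, `e := δ w` (`|Λ'| ≤ r + e`; `|Λ'| ≤ e + 1` or `|Λ'| ≤ 2 e`): the last hypothesis is LNV for `J ⊆ Λ'`, with `Z := Y_y - Y₀`, `Y_y` the gluing on the line `y`: `ren (mv u w) Z = ren (mv u w) Y_y - x u` for `u ∈ J`, and
`f - ren (mv u₀ w) Z = x u₀ - ren (mv u₀ w) Y_y`.  STAR gives `Y'` on `Option A`; `Y₁ := ren (fun o => o.getD u₀) Y'`: degrees `δ` (the point `some u₀` has degree `0` in `Y'`, DG (8)), `ren (mv u w) Y₁ = 0` for `u ∈ Λ'`, `ren (mv u₀ w) Y₁ = rn w Y' = f` (DG (10)).  `Y := Y₀ + Y₁`. -/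
def Stmt_D1F : Prop :=
  ∀ (K : Type) [Field K] [CharZero K] (A : Type) [Fintype A] [DecidableEq A] (δ : A → ℕ)
    (Λ : Finset A) (w : A) (x : A → PX K A 3), w ∉ Λ →
    (Λ.card ≤ δ w + 2 ∨ Λ.card ≤ 2 * δ w + 1) → (∀ u ∈ Λ, Λ.card ≤ δ u + δ w + 1) →
    (∀ u ∈ Λ, Dg (Function.update (Function.update δ u 0) w (δ w + δ u)) (x u)) →
    (∀ u ∈ Λ, ∀ u' ∈ Λ, u ≠ u' → ren (mv u' w) (x u) = ren (mv u w) (x u')) →
    (∀ y : Fin 3 → K, y 2 ≠ 0 → GluL δ Λ w x y) → GluA δ Λ w x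

/-- LNA: gluing of the part of `f` in which exactly the letters of `S` involve the coordinate `2`.
Proof.  `F := pr 2 w (fun J => J ∩ C = S) f`, `J₀ := C \ S`.  Every monomial `m` of `F` has `m (w,2) = 0`, `m (p,2) = 0` for `p ∈ J₀`, `m (p,2) ≥ 1` for `p ∈ S`.  `Dg δ F`, `HasW ν F` (the monomials of `F` are monomials of `f`), `Al J₀ F` (PR (7): a swap `π` of two points of `J₀` preserves the condition `J ∩ C = S`), `Cy J₀ w F` (PR (9), second part, for `u ∈ J₀`: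
`u ∉ J` if `J ∩ C = S`), `NC (insert w J₀) F`; `Eij 0 1 F = pr .. (Eij 0 1 f) = 0`: `Eij 0 1` does not change the exponents of the coordinate `2` (on monomials).  P1L for `J₀`: `H` with `Al (insert u₀ J₀) H`, the degrees, `ren (mv u₀ w) H = F`.  Let `h` be the sum of the terms of `H` whose monomials satisfy `m (p,2) ≥ 1` for all `p ∈ S`.  `h` is alternating in
`insert u₀ J₀` (this set is disjoint from `S`), has the same degrees, and `ren (mv u₀ w) h` is the sum of the terms of `ren (mv u₀ w) H = F` with the same property (`mv u₀ w` does not change the exponents at `S`), so it is `F`. -/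
def Stmt_LNA : Prop :=
  ∀ (K : Type) [Field K] [CharZero K] (A : Type) [Fintype A] [DecidableEq A] (δ : A → ℕ)
    (N : ℕ) (C S : Finset A) (w u₀ : A) (ν : Fin 3 → ℕ) (f : PX K A 3), 2 ≤ N → w ∉ C →
    u₀ ∉ C → u₀ ≠ w → S ⊆ C → (∀ u ∈ C, δ u = N + 1) → δ w = 2 * N - 1 → δ u₀ = 0 → Dg δ f →
    Al C f → Cy C w f → HasW ν f → Eij (0 : Fin 3) 1 f = 0 →
    ν 0 + 2 < (N + 1) * (N + 2) / 2 →
    ∃ h : PX K A 3, Al (insert u₀ (C \ S)) h ∧
      Dg (Function.update (Function.update δ w (N - 2)) u₀ (N + 1)) h ∧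
      (∀ m ∈ h.support, ∀ p ∈ S, 1 ≤ m (p, 2)) ∧
      ren (mv u₀ w) h = pr (2 : Fin 3) w (fun J => J ∩ C = S) f

/-- LNB: the parts are put together.
Proof.  `T G := ren (mv u₀ w) (G - ∑_{u ∈ C} ren (swap u₀ u) G)`, `≡`: modulo `X (w,2)`.  `T (h S) ≡ (1 + |C \ S|) ren (mv u₀ w) (h S)`: for `u ∈ C \ S`: `ren (swap u₀ u) (h S) = - h S`; for `u ∈ S`: `ren (mv u₀ w) (ren (swap u₀ u) (h S))` is divisible by `X (w,2)` (`u ↦ w`, every monomial of `h S` is divisible by `X (u,2)`).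
`H := ∑_{S ⊆ C} (1 + |C \ S|)⁻¹ • h S`, so `T H ≡ f`.  `H' := (|C|!)⁻¹ • alt C H` is alternating in `C` with the same degrees (`δ` is constant on `C`).  For `π ∈ pS C`: `T (ren π H) = ren π (T H)` (`π ∘ swap u₀ u = swap u₀ (π u) ∘ π`, `mv u₀ w ∘ π = π ∘ mv u₀ w`, as `π` fixes `u₀`, `w`), so `T H' = (|C|!)⁻¹ • alt C (T H) ≡ (|C|!)⁻¹ • alt C f = f`
(`X (w,2) ∣ g` implies `X (w,2) ∣ ren π g`; SYM (5)).  `Y := H' - ∑_{u ∈ C} ren (swap u₀ u) H'` is alternating in `insert u₀ C` (SYM (11)), `Dg δ Y` (`δ` is constant on `insert u₀ C`), `ren (mv u₀ w) Y = T H'`. -/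
def Stmt_LNB : Prop :=
  ∀ (K : Type) [Field K] [CharZero K] (A : Type) [Fintype A] [DecidableEq A] (δ : A → ℕ)
    (C : Finset A) (w u₀ : A) (f : PX K A 3) (h : Finset A → PX K A 3), w ∉ C → u₀ ∉ C →
    u₀ ≠ w → (∀ u ∈ C, δ u = δ u₀) → Al C f →
    (∀ S, S ⊆ C → Al (insert u₀ (C \ S)) (h S) ∧ Dg δ (h S) ∧
      ∀ m ∈ (h S).support, ∀ p ∈ S, 1 ≤ m (p, 2)) →
    (X (w, 2) : PX K A 3) ∣ f - ∑ S ∈ C.powerset, ren (mv u₀ w) (h S) →
    ∃ Y : PX K A 3, Al (insert u₀ C) Y ∧ Dg δ Y ∧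
      (X (w, 2) : PX K A 3) ∣ ren (mv u₀ w) Y - f

/-- LNF: gluing on the line `X (·, 2) = 0`.
Proof.  LNA gives `h S` for `S ⊆ C`.  `X (w,2) ∣ f - ∑_{S ⊆ C} pr 2 w (fun J => J ∩ C = S) f`: PR (4) and `pr 2 w (fun _ => True) f = ∑_{S ⊆ C} pr 2 w (fun J => J ∩ C = S) f` (coefficientwise, PR (1): for a monomial `m` with `m (w,2) = 0` exactly the term `S = js 2 w m ∩ C` contributes).  LNB with the degrees
`Function.update (Function.update δ w (N - 2)) u₀ (N + 1)`. -/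
def Stmt_LNF : Prop :=
  ∀ (K : Type) [Field K] [CharZero K] (A : Type) [Fintype A] [DecidableEq A] (δ : A → ℕ)
    (N : ℕ) (C : Finset A) (w u₀ : A) (ν : Fin 3 → ℕ) (f : PX K A 3), 2 ≤ N → w ∉ C →
    u₀ ∉ C → u₀ ≠ w → (∀ u ∈ C, δ u = N + 1) → δ w = 2 * N - 1 → δ u₀ = 0 → Dg δ f →
    Al C f → Cy C w f → HasW ν f → Eij (0 : Fin 3) 1 f = 0 →
    ν 0 + 2 < (N + 1) * (N + 2) / 2 →
    ∃ Y : PX K A 3, Al (insert u₀ C) Y ∧
      Dg (Function.update (Function.update δ w (N - 2)) u₀ (N + 1)) Y ∧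
      (X (w, 2) : PX K A 3) ∣ ren (mv u₀ w) Y - f

/-- UPL: highest weight vectors and lines.
Proof.  `g i := Pi.single i 1` for `i ≠ 2`, `g 2 := fun j => y j / y 2`.  Claim: `sb g f = f`.  Let `Φ : PX K A 3 →ₐ[K] Polynomial (PX K A 3)`, `X (p,2) ↦ C (X (p,2)) + X * C (a • X (p,0) + b • X (p,1))`, `X (p,i) ↦ C (X (p,i))` for `i ≠ 2`, `a = y 0 / y 2`, `b = y 1 / y 2`.  `derivative (Φ q) = Φ (a • Eij 0 2 q + b • Eij 1 2 q)` for all `q`: both sides are additive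
and satisfy the Leibniz rule over `Φ`, check on the variables (induction on `q`).  So `derivative (Φ f) = 0`, `Φ f` is constant (characteristic zero), and its values at `0` and at `1` are `f` and `sb g f`.  `Y' := sb g Y`: SBT (1), (2).  `ren (mv u₀ w) Y' - f = sb g (ren (mv u₀ w) Y - f)` is divisible by `sb g (X (w,2)) = lin (g 2) w`, and `lin y w = C (y 2) * lin (g 2) w`. -/
def Stmt_UPL : Prop :=
  ∀ (K : Type) [Field K] [CharZero K] (A : Type) [Fintype A] [DecidableEq A] (δ : A → ℕ)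
    (Λ : Finset A) (w u₀ : A) (f Y : PX K A 3), Hw f → Al Λ Y → Dg δ Y →
    (X (w, 2) : PX K A 3) ∣ ren (mv u₀ w) Y - f →
    ∀ y : Fin 3 → K, y 2 ≠ 0 → ∃ Y' : PX K A 3, Al Λ Y' ∧ Dg δ Y' ∧
      lin y w ∣ ren (mv u₀ w) Y' - f

/-- HVA: highest weight cycles of small weight are boundaries.
Proof.  LNF (`Eij 0 1 f = 0` from `Hw f`) and UPL: for every `y` with `y 2 ≠ 0` there is `Y_y`, alternating in `Λ := insert u₀ C`, with `Dg δ' Y_y`, `δ' := Function.update (Function.update δ w (N - 2)) u₀ (N + 1)`, `lin y w ∣ ren (mv u₀ w) Y_y - f`.  `x u₀ := f`, `x u := - ren (swap u u₀) f` for `u ∈ C`.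
Degrees: as required in D1F (`N - 2 + (N + 1) = 2 N - 1`).  Compatibility: `ren (mv u w) f = 0` for `u ∈ C`; `ren (mv u₀ w) (ren (swap u u₀) f) = ren (mv u w) f = 0` (`u ↦ u₀ ↦ w`; the point `u₀` has degree `0` in `f`, DG (10)); for `u' ∈ C`, `u' ≠ u`: `ren (mv u' w) (ren (swap u u₀) f) = ren (swap u u₀) (ren (mv u' w) f) = 0`.
`GluL`: for `u ∈ C`: `ren (mv u w) Y_y = - ren (mv u w) (ren (swap u u₀) Y_y) = - ren (swap u u₀) (ren (mv u₀ w) Y_y)`, so `ren (mv u w) Y_y - x u = - ren (swap u u₀) (ren (mv u₀ w) Y_y - f)`, divisible by `lin y w` (DIV (5), (6)).  `|Λ| = |C| + 1 ≤ N = δ' w + 2` or `≤ 2 N - 3 = 2 δ' w + 1`, and `|Λ| ≤ 2 N = δ' u + δ' w + 1`.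
D1F: `Y` with `Dg δ' Y`, `ren (mv u w) Y = x u` for `u ∈ Λ`.  `H := (|Λ|!)⁻¹ • alt Λ Y`.  For `π ∈ pS Λ`: `mv u₀ w ∘ π = π ∘ mv (π⁻¹ u₀) w`, so `ren (mv u₀ w) (ren π Y) = ren π (x u)`, `u := π⁻¹ u₀`.  If `u = u₀` then `π ∈ pS C` and this is `sign π • f`.  Otherwise `u ∈ C`, it is `- ren (π * swap u u₀) f`, and `π * swap u u₀` fixes `u₀`, lies in `pS C`:
`= - sign (π * swap u u₀) • f = sign π • f` (SYM (2)).  So `ren (mv u₀ w) (alt Λ Y) = |Λ|! • f` (`SYM.card_pS`). -/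
def Stmt_HVA : Prop :=
  ∀ (K : Type) [Field K] [CharZero K] (A : Type) [Fintype A] [DecidableEq A] (δ : A → ℕ)
    (N : ℕ) (C : Finset A) (w u₀ : A) (ν : Fin 3 → ℕ) (f : PX K A 3), 2 ≤ N → w ∉ C →
    u₀ ∉ C → u₀ ≠ w → (C.card + 1 ≤ N ∨ C.card + 4 ≤ 2 * N) → (∀ u ∈ C, δ u = N + 1) →
    δ w = 2 * N - 1 → δ u₀ = 0 → Dg δ f → Al C f → Cy C w f → HasW ν f → Hw f →
    ν 0 + 2 < (N + 1) * (N + 2) / 2 →
    ∃ H : PX K A 3, Al (insert u₀ C) H ∧
      Dg (Function.update (Function.update δ w (N - 2)) u₀ (N + 1)) H ∧ ren (mv u₀ w) H = f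

/-- HVT: the same for the Koszul complex.
Proof.  `A := Option (Option U)`, `w := none`, `u₀ := some none`, `C := Finset.univ.image (fun o => some (some o))`, `f' := ren (Option.map some) f`, `δ none = 2 N - 1`, `δ (some none) = 0`, `δ (some (some o)) = N + 1`.  `Al C f'`, `Cy C w f'` from `InZ` (`Option.map some ∘ Option.map (swap u u') = swap (some (some u)) (some (some u')) ∘ Option.map some`,
`mv (some (some u)) none ∘ Option.map some = Option.map some ∘ mg u`); `HasW`: WB (4); `Hw`: NAT (1).  HVA: `H`.  `g := H`: for a permutation `π` of `Option U` the renaming `Option.map π` is in `pS (insert u₀ C)`, with the same sign (`Equiv.Perm.sign_optionCongr` or SYM (2) and swaps), so `InC (Option U) 3 (N+1) (N+1) (2 N - 1) g` (`(N - 2) + (N + 1) = 2 N - 1`).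
`ren (mv u₀ w) H = f' = ren (Option.map some) f`; `Option.join ∘ mv u₀ w = Option.join` on `A`, and `Option.join ∘ Option.map some = id`, so `ren Option.join g = f`. -/
def Stmt_HVT : Prop :=
  ∀ (K : Type) [Field K] [CharZero K] (U : Type) [Fintype U] [DecidableEq U] (N : ℕ)
    (ν : Fin 3 → ℕ) (f : PX K (Option U) 3), 2 ≤ N →
    (Fintype.card U + 1 ≤ N ∨ Fintype.card U + 4 ≤ 2 * N) → InZ U 3 (N + 1) (2 * N - 1) f →
    HasW ν f → Hw f → ν 0 + 2 < (N + 1) * (N + 2) / 2 → InB U 3 (N + 1) (2 * N - 1) f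

end Pool.Agent.VOP
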