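import Pool.Agent.VOP.V3F
import Pool.Agent.VOP.RBD
import Pool.Agent.VOP.RTH
import Pool.Agent.VOP.RN0
import Pool.Agent.VOP.RCT
import Pool.Agent.VOP.RBI
import Pool.Agent.VOP.REX
import Pool.Agent.VOP.RHA
import Pool.Agent.VOP.RFN
import Pool.Agent.VOP.RCS
import Pool.Agent.VOP.RCV
import Pool.Agent.VOP.RCR
import Pool.Agent.VOP.RNM
import Pool.Agent.VOP.StmtsW

/-!
# MP_deb8da_ag: the end of the linear strand of the Veronese threefolds, from `Stmt_HVT`
-/

set_option autoImplicit false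

namespace Pool.Agent.VOP.V3F

open MvPolynomial Pool.Agent.VSY Pool.Agent.VOP

theorem rn0 : Stmt_RN0 := RN0_thm RBD_thm RTH_thm

theorem rct : Stmt_RCT := RCT_thm RBD_thm RTH_thm rn0

theorem rfn : Stmt_RFN :=
  RFN_thm RBD_thm RTH_thm rct (RBI_thm RBD_thm RTH_thm) REX_thm RHA_thm

theorem rcr : Stmt_RCR := RCR_thm rfn (RCS_thm RBD_thm RTH_thm) RCV_thm

theorem rnm : Stmt_RNM := RNM_thm tg low rcr

/-- The hypothesis of the first row criterion. -/
theorem hvr_of (hHVT : Stmt_HVT) (K : Type) [Field K] [CharZero K] (M i D : ℕ) (hi : i + 2 ≤ M)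
    (hD : D + i + 3 ≤ (M + 3).choose 2) : HVR K 3 (M + 2) (M + i) (2 * M + 1) D := by
  intro U _ _ hU ν f hf hW hH hν
  have e1 : M + 2 = (M + 1) + 1 := by omega
  have e2 : 2 * M + 1 = 2 * (M + 1) - 1 := by omega
  rw [e2] at hf ⊢
  rw [e1] at hf ⊢
  refine hHVT K U (M + 1) ν f (by omega) (Or.inr (by omega)) hf hW hH ?_
  have h0 := hν 0
  have e3 : (M + 3).choose 2 = (M + 1 + 1) * (M + 1 + 2) / 2 := by
    rw [Nat.choose_two_right]
    have : M + 3 - 1 = M + 1 + 1 := by omega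
    rw [this, show M + 3 = M + 1 + 2 from rfl, Nat.mul_comm]
  omega

/-- The lower end of the dual place, over all fields of characteristic zero. -/
theorem van3 (hHVT : Stmt_HVT) (K : Type) [Field K] [CharZero K] {M p : ℕ} (hM : 3 ≤ M)
    (hp : p + 6 ≤ (M + 4).choose 2) : Van K 4 (M + 2) p (3 * M + 2) := by
  apply BC_thm
  exact rnm ℚ M hM (fun i D hi hD => hvr_of hHVT ℚ M i D hi hD) p hp

/-- The end of the linear strand of the Veronese threefolds. -/
theorem ls3_of_hvt (hHVT : Stmt_HVT) (K : Type) [Field K] [CharZero K] : LS3 K := by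
  refine ls3_of_six K (fun d p hd hp => ?_)
  refine ls3_of_van K (by omega) (fun l hl => ?_) hp
  obtain ⟨M, rfl⟩ := Nat.exists_eq_add_of_le' (show 2 ≤ d by omega)
  have e : 3 * (M + 2) - 4 = 3 * M + 2 := by omega
  rw [e]
  exact van3 hHVT K (by omega) hl

end Pool.Agent.VOP.V3F
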