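import Pool.Agent.VOP.StmtsX

/-!
# MVBI: `MVB` from the vanishing of Koszul homology
-/

namespace Pool.Agent.VOP

open MvPolynomial Pool.Agent.VSY

theorem MVBI_thm (h1 : Stmt_PV) (h2 : Stmt_MVT) : Stmt_MVBI := by
  intro K _ _ v N s l e hN hNe hVN hVd
  induction l generalizing s e with
  | zero =>
    refine h2 K v N s 0 e hN hNe (h1 K v N s (e + 1) hN ?_) (h1 K v (N + 1) 0 (e - N) (by omega) ?_)
      (Or.inl rfl)
    · have h := hVN 0 le_rfl
      rwa [Nat.add_zero, Nat.add_zero] at h
    · have h := hVd 0 le_rfl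
      have e1 : e - N + (N + 1) = e + 0 + 1 := by omega
      rw [e1]
      exact h
  | succ l ih =>
    refine h2 K v N s (l + 1) e hN hNe (h1 K v N s (e + 1) hN ?_)
      (h1 K v (N + 1) (l + 1) (e - N) (by omega) ?_) (Or.inr ?_)
    · have h := hVN 0 (Nat.zero_le _)
      rwa [Nat.add_zero, Nat.add_zero] at h
    · have h := hVd 0 (Nat.zero_le _)
      have e1 : e - N + (N + 1) = e + 0 + 1 := by omega
      rw [e1]
      exact h
    · refine ih (s + 1) (e + 1) (by omega) (fun i hi => ?_) (fun i hi => ?_)
      · have h := hVN (i + 1) (by omega)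
        have e1 : s + 1 + i = s + (i + 1) := by omega
        have e2 : e + 1 + 1 + i + N = e + 1 + (i + 1) + N := by omega
        rw [e1, e2]
        exact h
      · have h := hVd (i + 1) (by omega)
        have e1 : l - i = l + 1 - (i + 1) := by omega
        have e2 : e + 1 + i + 1 = e + (i + 1) + 1 := by omega
        rw [e1, e2]
        exact h

end Pool.Agent.VOP
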