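import Pool.Agent.VOP.StmtsX

/-!
# Module MVT: the inductive step for `MVB`, letters of degree `N + 1`
-/

namespace Pool.Agent.VOP

open MvPolynomial Pool.Agent.VSY

namespace MVTx

variable {K : Type} [Field K] {A : Type} [Fintype A] [DecidableEq A] {v : ℕ}

theorem ne_of {S : Finset A} {w u : A} (hw : w ∉ S) (hu : u ∈ S) : u ≠ w := by
  rintro rfl
  exact hw hu

theorem cf_swap {T S C : Finset A} {w : A} (h : Cf T S C w) : Cf T C S w :=
  ⟨h.TC, h.TS, h.SC.symm, h.wT, h.wC, h.wS⟩

theorem cf_erase {T S C : Finset A} {w b : A} (h : Cf T S C w) : Cf T S (C.erase b) w :=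
  ⟨h.TS, h.TC.mono_right (Finset.erase_subset _ _), h.SC.mono_right (Finset.erase_subset _ _),
    h.wT, h.wS, fun h' => h.wC (Finset.mem_of_mem_erase h')⟩

theorem cg_swap {δ : A → ℕ} {T S C : Finset A} {f : PX K A v} (h : Cg δ T S C f) :
    Cg δ T C S f := ⟨h.dg, h.sy, h.alC, h.alS⟩

theorem cg_zero {δ : A → ℕ} {T S C : Finset A} : Cg δ T S C (0 : PX K A v) :=
  ⟨DG.zero δ, fun _ _ _ _ => map_zero _, fun _ _ _ _ _ => by rw [map_zero, neg_zero],
    fun _ _ _ _ _ => by rw [map_zero, neg_zero]⟩

theorem cg_sub {δ : A → ℕ} {T S C : Finset A} {f g : PX K A v} (h : Cg δ T S C f)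
    (h' : Cg δ T S C g) : Cg δ T S C (f - g) := by
  refine ⟨DG.sub h.dg h'.dg, fun p hp q hq => ?_, fun p hp q hq hpq => ?_,
    fun p hp q hq hpq => ?_⟩
  · rw [map_sub, h.sy p hp q hq, h'.sy p hp q hq]
  · rw [map_sub, h.alS p hp q hq hpq, h'.alS p hp q hq hpq]; ring
  · rw [map_sub, h.alC p hp q hq hpq, h'.alC p hp q hq hpq]; ring

theorem some_mem_sm {S : Finset A} {y : A} : some y ∈ sm S ↔ y ∈ S := by
  rw [sm, Finset.mem_map]
  constructor
  · rintro ⟨z, hz, h⟩
    have h' : some z = some y := h
    rw [Option.some.injEq] at h'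
    exact h' ▸ hz
  · exact fun h => ⟨y, h, rfl⟩

theorem none_notMem_sm {S : Finset A} : (none : Option A) ∉ sm S := by
  rw [sm, Finset.mem_map]
  rintro ⟨z, -, h⟩
  exact absurd (show some z = none from h) (Option.some_ne_none z)

theorem some_mem_isn {S : Finset A} {y : A} : some y ∈ isn S ↔ y ∈ S := by
  rw [isn, Finset.mem_insert, some_mem_sm]
  exact ⟨fun h => h.resolve_left (Option.some_ne_none y), Or.inr⟩

theorem none_mem_isn {S : Finset A} : (none : Option A) ∈ isn S := Finset.mem_insert_self _ _

theorem mem_sm {S : Finset A} {u : Option A} (h : u ∈ sm S) : ∃ y ∈ S, u = some y := by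
  rw [sm, Finset.mem_map] at h
  obtain ⟨y, hy, h⟩ := h
  exact ⟨y, hy, h.symm⟩

theorem mem_isn {S : Finset A} {u : Option A} (h : u ∈ isn S) :
    u = none ∨ ∃ y ∈ S, u = some y := by
  rw [isn, Finset.mem_insert] at h
  exact h.imp_right mem_sm

theorem card_sm {S : Finset A} : (sm S).card = S.card := Finset.card_map _

theorem card_isn {S : Finset A} : (isn S).card = S.card + 1 := by
  rw [isn, Finset.card_insert_of_notMem none_notMem_sm, card_sm]

/-- the configuration with the new point in `S` -/
theorem cf_isn {T S C : Finset A} {w : A} (h : Cf T S C w) :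
    Cf (sm T) (isn S) (sm C) (some w) := by
  refine ⟨?_, ?_, ?_, ?_, ?_, ?_⟩
  · rw [Finset.disjoint_left]
    intro a ha hb
    obtain ⟨y, hy, rfl⟩ := mem_sm ha
    exact Finset.disjoint_left.1 h.TS hy (some_mem_isn.1 hb)
  · rw [Finset.disjoint_left]
    intro a ha hb
    obtain ⟨y, hy, rfl⟩ := mem_sm ha
    exact Finset.disjoint_left.1 h.TC hy (some_mem_sm.1 hb)
  · rw [Finset.disjoint_right]
    intro a ha hb
    obtain ⟨y, hy, rfl⟩ := mem_sm ha
    exact Finset.disjoint_left.1 h.SC (some_mem_isn.1 hb) hy
  · exact fun h' => h.wT (some_mem_sm.1 h')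
  · exact fun h' => h.wS (some_mem_isn.1 h')
  · exact fun h' => h.wC (some_mem_sm.1 h')

theorem mv_none (w : A) (f : PX K (Option A) v) :
    ren (mv none (some w)) f = ren some (rn w f) := by
  rw [rn, ren_ren]
  refine ren_congr (fun o => ?_) f
  rcases o with _ | a
  · simp [mv]
  · rw [mv, Function.update_of_ne (Option.some_ne_none a)]
    rfl

theorem rn_mv_none (w : A) (f : PX K (Option A) v) :
    rn w (ren (mv none (some w)) f) = rn w f := by
  rw [mv_none, rn, ren_ren]
  exact ren_id _

theorem mv_some (c w : A) (f : PX K A v) :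
    ren (mv (some c) (some w)) (ren some f) = ren some (ren (mv c w) f) := by
  rw [ren_ren, ren_ren]
  refine ren_congr (fun a => ?_) f
  by_cases ha : a = c
  · subst ha
    simp [mv]
  · simp only [Function.comp_apply, mv]
    rw [Function.update_of_ne ha, Function.update_of_ne (fun h => ha (Option.some.inj h))]
    rfl

/-- the map which moves `some none` to `w` -/
def th (w : A) : Option (Option A) → Option A := Option.map fun o => o.getD w

theorem th_none (w : A) : th w none = none := rfl
theorem th_sn (w : A) : th w (some none) = some w := rfl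
theorem th_ss (w a : A) : th w (some (some a)) = some a := rfl

theorem th_swap (w : A) (p q : Option A) (hp : p ≠ some w) (hq : q ≠ some w)
    (o : Option (Option A)) :
    Equiv.swap p q (th w o) = th w (Equiv.swap (p.map some) (q.map some) o) := by
  have key : ∀ r : Option A, th w (r.map some) = r := by
    intro r
    rcases r with _ | a
    · rfl
    · rfl
  by_cases h1 : o = p.map some
  · rw [h1, Equiv.swap_apply_left, key, key, Equiv.swap_apply_left]
  · by_cases h2 : o = q.map some
    · rw [h2, Equiv.swap_apply_right, key, key, Equiv.swap_apply_right]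
    · rw [Equiv.swap_apply_of_ne_of_ne h1 h2]
      have h3 : ∀ r : Option A, r ≠ some w → o ≠ r.map some → th w o ≠ r := by
        intro r hr ho
        rcases o with _ | _ | a
        · rintro h
          rw [th_none] at h
          subst h
          exact ho rfl
        · rw [th_sn]
          exact hr.symm
        · rintro h
          rw [th_ss] at h
          subst h
          exact ho rfl
      rw [Equiv.swap_apply_of_ne_of_ne (h3 p hp h1) (h3 q hq h2)]

theorem th_ren_swap (w : A) (p q : Option A) (hp : p ≠ some w) (hq : q ≠ some w)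
    (Y : PX K (Option (Option A)) v) :
    ren (Equiv.swap p q) (ren (th w) Y) =
      ren (th w) (ren (Equiv.swap (p.map some) (q.map some)) Y) := by
  rw [ren_ren, ren_ren]
  exact ren_congr (fun o => th_swap w p q hp hq o) Y

theorem rn_th (w : A) (Y : PX K (Option (Option A)) v) :
    rn w (ren (th w) Y) = rn w (rn (some w) Y) := by
  rw [rn, rn, ren_ren, ren_ren]
  refine ren_congr (fun o => ?_) Y
  rcases o with _ | _ | a
  · rfl
  · rfl
  · rfl

end MVTx

open MVTx in
theorem MVT_thm (h1 : Stmt_DG) (h2 : SV_MVL) (h3 : SV_RNB) : Stmt_MVT := by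
  have _h1 := h1
  intro K _ _ v N s p e hN hNe hP1 hP2 hM A _ _ δ T S C w f hcf hs hp hS hC hw hcg hyS hyC
  -- (1)
  obtain ⟨Ω, o1, o2⟩ := hP1 A δ T C S w f (cf_swap hcf) hs hS (by rw [hw]; ring)
    (cg_swap hcg) hyS
  have o1' := cg_swap o1
  have hcf1 := cf_isn hcf
  set δ1 : Option A → ℕ := ext δ N w (e + 1) with hδ1
  have d_none : δ1 none = N := rfl
  have d_w : δ1 (some w) = e + 1 := by
    rw [hδ1]
    simp [ext]
  have d_ne : ∀ y, y ≠ w → δ1 (some y) = δ y := by
    intro y hy
    rw [hδ1]
    simp [ext, hy]
  have d_C : ∀ u ∈ sm C, δ1 u = N + 1 := by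
    intro u hu
    obtain ⟨y, hy, rfl⟩ := mem_sm hu
    rw [d_ne y (ne_of hcf.wC hy), hC y hy]
  have d_S : ∀ u ∈ isn S, δ1 u = N := by
    intro u hu
    rcases mem_isn hu with rfl | ⟨y, hy, rfl⟩
    · rfl
    · rw [d_ne y (ne_of hcf.wS hy), hS y hy]
  -- (2)
  obtain ⟨Ω', q1, q2, q3⟩ : ∃ Ω' : PX K (Option A) v, Cg δ1 (sm T) (isn S) (sm C) Ω' ∧
      (∀ u ∈ sm C, ren (mv u (some w)) (Ω - Ω') = 0) ∧ rn w Ω' = 0 := by
    rcases C.eq_empty_or_nonempty with h0 | ⟨c₀, hc₀⟩
    · refine ⟨0, cg_zero, fun u hu => ?_, map_zero _⟩
      obtain ⟨y, hy, -⟩ := mem_sm hu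
      rw [h0] at hy
      exact absurd hy (Finset.notMem_empty y)
    · have hp1 : p ≠ 0 := by
        rw [← hp]
        exact (Finset.card_pos.2 ⟨c₀, hc₀⟩).ne'
      have hM' := hM.resolve_left hp1
      have hcm : some c₀ ∈ sm C := some_mem_sm.2 hc₀
      obtain ⟨m1, m2, m3, -⟩ := h2 K (Option A) v δ1 (sm T) (isn S) (sm C) (some w) (some c₀) Ω
        hcf1 hcm o1'
      set κ := ren (mv (some c₀) (some w)) Ω with hκ
      rw [d_w, d_C _ hcm] at m1
      have k0 : ren (mv none (some w)) κ = 0 := by
        rw [m3 none none_mem_isn, mv_none, o2, mv_some, hyC c₀ hc₀, map_zero]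
      have k1 : Cy (isn S) (some w) κ := by
        obtain ⟨-, -, -, n4⟩ := h2 K (Option A) v _ (sm T) ((sm C).erase (some c₀)) (isn S)
          (some w) none κ (cf_swap (cf_erase hcf1)) none_mem_isn (cg_swap m1)
        exact n4 k0
      obtain ⟨Y, y1, y2, y3⟩ := hM' (Option A)
        (Function.update (Function.update δ1 (some c₀) 0) (some w) (e + 1 + (N + 1))) (sm T)
        (isn S) ((sm C).erase (some c₀)) (some w) κ (cf_erase hcf1)
        (by rw [card_isn, hs]) (by rw [Finset.card_erase_of_mem hcm, card_sm, hp])
        (fun u hu => by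
          rw [Function.update_of_ne (ne_of hcf1.wS hu), Function.update_of_ne]
          · exact d_S u hu
          · rintro rfl
            exact Finset.disjoint_left.1 hcf1.SC hu hcm)
        (fun u hu => by
          rw [Function.update_of_ne (ne_of hcf1.wC (Finset.mem_of_mem_erase hu)),
            Function.update_of_ne (Finset.ne_of_mem_erase hu)]
          exact d_C u (Finset.mem_of_mem_erase hu))
        (by rw [Function.update_self]) m1 k1 m2
      have he : ext (Function.update (Function.update δ1 (some c₀) 0) (some w) (e + 1 + (N + 1)))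
          (N + 1) (some w) (e + 1) =
          ext (Function.update δ1 (some c₀) 0) (δ1 (some c₀)) (some w) (e + 1) := by
        funext o
        rcases o with _ | y
        · exact (d_C _ hcm).symm
        · by_cases hy : y = some w
          · simp only [ext, if_pos hy]
          · simp only [ext, if_neg hy, Function.update_of_ne hy]
      rw [he] at y1
      obtain ⟨r1, r2, r3⟩ := h3 K (Option A) v δ1 (sm T) (isn S) (sm C) (some w) (some c₀)
        (e + 1) Y hcf1 hcm y1
      have hu : Function.update δ1 (some w) (e + 1) = δ1 := by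
        rw [← d_w]
        exact Function.update_eq_self _ _
      rw [hu] at r1
      obtain ⟨-, -, -, n4⟩ := h2 K (Option A) v δ1 (sm T) (isn S) (sm C) (some w) (some c₀)
        (Ω - rn (some c₀) Y) hcf1 hcm (cg_sub o1' r1)
      refine ⟨rn (some c₀) Y, r1, n4 ?_, ?_⟩
      · rw [map_sub, r2, y3, ← hκ, sub_self]
      · rw [← rn_mv_none, r3 none none_mem_isn (y2 (some none) (some_mem_sm.2 none_mem_isn)),
          map_zero]
  -- (3)
  obtain ⟨Y', z1, z2⟩ := hP2 (Option A) δ1 (sm T) (isn S) (sm C) (some w) (Ω - Ω') hcf1
    (by rw [card_sm, hp]) d_C (by rw [d_w]; omega) (cg_sub o1' q1) q2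
  -- (4)
  refine ⟨ren (th w) Y', ⟨?_, ?_, ?_, ?_⟩, ?_, ?_⟩
  · have h4 := DG.ren_push _ (th w) Y' z1.dg
    have h5 : (fun b => ∑ a ∈ Finset.univ.filter (fun a => th w a = b),
        ext δ1 (N + 1) (some w) (e - N) a) = ext δ (N + 1) w e := by
      funext b
      rcases b with _ | y
      · have h6 : Finset.univ.filter (fun a => th w a = none) = {none} := by
          ext a
          rw [Finset.mem_filter, Finset.mem_singleton]
          rcases a with _ | _ | a
          · simp [th]
          · simp [th]
          · simp [th]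
        rw [h6, Finset.sum_singleton]
        rfl
      · by_cases hy : y = w
        · subst hy
          have h6 : Finset.univ.filter (fun a => th y a = some y) =
              {some none, some (some y)} := by
            ext a
            rw [Finset.mem_filter, Finset.mem_insert, Finset.mem_singleton]
            rcases a with _ | _ | a
            · simp [th]
            · simp [th]
            · simp [th]
          rw [h6, Finset.sum_pair (by simp)]
          have h7 : ext δ1 (N + 1) (some y) (e - N) (some none) = N := by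
            simp only [ext]
            rw [if_neg (by simp)]
            exact d_none
          have h8 : ext δ1 (N + 1) (some y) (e - N) (some (some y)) = e - N := by
            simp only [ext, if_true]
          rw [h7, h8]
          simp only [ext, if_true]
          omega
        · have h6 : Finset.univ.filter (fun a => th w a = some y) = {some (some y)} := by
            ext a
            rw [Finset.mem_filter, Finset.mem_singleton]
            rcases a with _ | _ | a
            · simp [th]
            · simp only [th_sn, Option.some.injEq, Finset.mem_univ, true_and]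
              constructor
              · exact fun h => absurd h.symm hy
              · intro h
                exact absurd h (by simp)
            · simp [th]
          rw [h6, Finset.sum_singleton]
          simp only [ext]
          rw [if_neg (fun h => hy (Option.some.inj h)), if_neg hy]
          exact d_ne y hy
    rwa [h5] at h4
  · intro x hx y hy
    obtain ⟨a, ha, rfl⟩ := mem_sm hx
    obtain ⟨b, hb, rfl⟩ := mem_sm hy
    rw [th_ren_swap w _ _ (fun h => ne_of hcf.wT ha (Option.some.inj h))
      (fun h => ne_of hcf.wT hb (Option.some.inj h))]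
    exact congrArg (ren (th w)) (z1.sy _ (some_mem_sm.2 hx) _ (some_mem_sm.2 hy))
  · intro x hx y hy hxy
    obtain ⟨a, ha, rfl⟩ := mem_sm hx
    obtain ⟨b, hb, rfl⟩ := mem_sm hy
    rw [th_ren_swap w _ _ (fun h => ne_of hcf.wS ha (Option.some.inj h))
      (fun h => ne_of hcf.wS hb (Option.some.inj h)), ← map_neg]
    exact congrArg (ren (th w)) (z1.alS _ (some_mem_sm.2 (some_mem_isn.2 ha)) _
      (some_mem_sm.2 (some_mem_isn.2 hb)) (fun h => hxy (Option.some.inj h)))
  · intro x hx y hy hxy
    have hl : ∀ z ∈ isn C, z ≠ some w ∧ z.map some ∈ isn (sm C) := by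
      intro z hz
      rcases mem_isn hz with rfl | ⟨a, ha, rfl⟩
      · exact ⟨(Option.some_ne_none w).symm, none_mem_isn⟩
      · exact ⟨fun h => ne_of hcf.wC ha (Option.some.inj h),
          some_mem_isn.2 (some_mem_sm.2 ha)⟩
    rw [th_ren_swap w _ _ (hl x hx).1 (hl y hy).1, ← map_neg]
    refine congrArg (ren (th w)) (z1.alC _ (hl x hx).2 _ (hl y hy).2 (fun h => hxy ?_))
    exact Option.map_injective (Option.some_injective _) h
  · intro u hu
    obtain ⟨y, hy, rfl⟩ := mem_sm hu
    have hyw : y ≠ w := ne_of hcf.wS hy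
    have h4 := z1.alS (some none) (some_mem_sm.2 none_mem_isn) (some (some y))
      (some_mem_sm.2 (some_mem_isn.2 hy)) (by simp)
    have h5 : ren (mv (some y) (some w)) (ren (th w) Y') =
        ren (mv (some y) (some w)) (ren (th w)
          (ren (Equiv.swap (some none) (some (some y))) Y')) := by
      rw [ren_ren, ren_ren, ren_ren]
      refine ren_congr (fun o => ?_) Y'
      simp only [Function.comp_apply]
      by_cases h6 : o = some none
      · subst h6
        rw [Equiv.swap_apply_left, th_sn, th_ss, mv, Function.update_self,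
          Function.update_of_ne (fun h => hyw (Option.some.inj h).symm), id]
      · by_cases h7 : o = some (some y)
        · subst h7
          rw [Equiv.swap_apply_right, th_sn, th_ss, mv, Function.update_self,
            Function.update_of_ne (fun h => hyw (Option.some.inj h).symm), id]
        · rw [Equiv.swap_apply_of_ne_of_ne h6 h7]
    rw [h4, map_neg, map_neg] at h5
    exact self_eq_neg.1 h5
  · rw [rn_th, z2, map_sub, o2, q3, sub_zero]

end Pool.Agent.VOP
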