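import Pool.Agent.VOP.Iface

/-!
# The numbers of the highest weight gluing (MP_deb8da_ag)
-/

namespace Pool.Agent.VOP

open MvPolynomial Pool.Agent.VSY

/-- The numerical heart for `β = 1` (`m = D - N`). -/
theorem NUM_core (N m x2 r1 x1 r0 : ℤ) (hN : 1 ≤ N) (hx2 : 2 ≤ x2) (hx1 : 2 ≤ x1)
    (hr1 : 1 ≤ r1) (hr0 : 1 ≤ r0) (h12 : x2 + r1 - 2 ≤ x1)
    (h2 : N * N - 1 ≤ x2 * (m - 2)) (h1 : x2 * N + N * N - N ≤ r1 * (m - 1))
    (h0 : x1 * N + N * N + 1 ≤ r0 * m)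
    (hA : m ≤ 4 * N + 3 - 2 * r0 - x1) (hB : m ≤ 4 * N - 1 - r0 - x1) : False := by
  rcases le_or_gt 10 N with hbig | hsmall
  · have hm3 : 3 ≤ m := by
      by_contra hc
      have hm2 : m - 2 ≤ 0 := by omega
      have h3 : x2 * (m - 2) ≤ 0 := mul_nonpos_of_nonneg_of_nonpos (by omega) hm2
      nlinarith
    have hmu : m ≤ 4 * N - 1 := by omega
    have e1 : x1 * (2 * N + m) ≤ m * (4 * N + 3 - m) - 2 * (N * N) - 2 := by
      have hh := mul_le_mul_of_nonneg_left hA (by omega : (0 : ℤ) ≤ m)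
      linarith
    have e2 : x2 * ((2 * N + m) * (m - 1 + N)) + (N * N - N) * (2 * N + m)
        - 2 * ((m - 1) * (2 * N + m)) ≤ (m - 1) * (m * (4 * N + 3 - m) - 2 * (N * N) - 2) := by
      have a1 := mul_le_mul_of_nonneg_left e1 (by omega : (0 : ℤ) ≤ m - 1)
      have a2 := mul_le_mul_of_nonneg_left h12
        (mul_nonneg (by omega : (0 : ℤ) ≤ m - 1) (by omega : (0 : ℤ) ≤ 2 * N + m))
      have a3 := mul_le_mul_of_nonneg_left h1 (by omega : (0 : ℤ) ≤ 2 * N + m)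
      linarith
    have e3 : (N * N - 1) * ((2 * N + m) * (m - 1 + N)) + (m - 2) * ((N * N - N) * (2 * N + m)
        - 2 * ((m - 1) * (2 * N + m))) ≤
        (m - 2) * ((m - 1) * (m * (4 * N + 3 - m) - 2 * (N * N) - 2)) := by
      have a1 := mul_le_mul_of_nonneg_left e2 (by omega : (0 : ℤ) ≤ m - 2)
      have a2 := mul_le_mul_of_nonneg_right h2
        (mul_nonneg (by omega : (0 : ℤ) ≤ 2 * N + m) (by omega : (0 : ℤ) ≤ m - 1 + N))
      linarith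
    have c1 : 0 ≤ (m * (m - 2 * N - 4)) ^ 2 := sq_nonneg _
    have c2 : 0 ≤ 9 * (N * m) * (4 * N - 1 - m) := by
      apply mul_nonneg
      · apply mul_nonneg (by norm_num)
        exact mul_nonneg (by omega) (by omega)
      · omega
    have c3 : 0 < m * (5 * N ^ 3 - 47 * N ^ 2 + 12 * N - 15) := by
      apply mul_pos (by omega)
      nlinarith [mul_nonneg (sq_nonneg N) (by omega : (0 : ℤ) ≤ N - 10), sq_nonneg N]
    have c4 : 0 ≤ 2 * N ^ 3 * (N - 3) := by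
      apply mul_nonneg
      · apply mul_nonneg (by norm_num)
        exact pow_nonneg (by omega) 3
      · omega
    have c5 : 0 ≤ 6 * N * (N - 1) := mul_nonneg (by omega) (by omega)
    have c6 : 0 ≤ m ^ 2 := sq_nonneg m
    linarith
  · have hm : 3 ≤ m ∨ m ≤ 2 := by omega
    rcases hm with hm | hm
    · have hmu : m ≤ 4 * N - 4 := by omega
      interval_cases N <;> norm_num at hmu <;> interval_cases m <;> omega
    · have h3 : x2 * (m - 2) ≤ 0 := mul_nonpos_of_nonneg_of_nonpos (by omega) (by omega)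
      have h4 : N = 1 := by nlinarith
      subst h4
      have h5 : r0 * m ≤ 0 := mul_nonpos_of_nonneg_of_nonpos (by omega) (by omega)
      omega

variable {K : Type} [Field K] [LinearOrder K] [IsStrictOrderedRing K]

theorem NUM_bad (h1 : Stmt_HG0) {v N κ e D : ℕ} (hN : 1 ≤ N) (hn : ¬ HG K v N κ e D) :
    e + 2 ≤ κ := by
  by_contra hc
  exact hn (h1 K v N κ e D hN (by omega))

theorem NUM_step (h1 : Stmt_HG0) (h2 : Stmt_HGS) {v N κ e D : ℕ} (hN : 1 ≤ N) (he : 1 ≤ e)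
    (hn : ¬ HG K v N κ e D) :
    ∃ ρ κ' e', 1 ≤ ρ ∧ ρ ≤ v ∧ κ * N + e ≤ ρ * D ∧ e + 2 ≤ κ ∧ e' + 2 ≤ κ' ∧
      ¬ HG K v N κ' e' (D - 1) ∧ ((κ' + ρ = κ ∧ e' = e) ∨ (κ' + ρ = κ + 1 ∧ e' + 1 = e)) := by
  have hk := NUM_bad h1 hN hn
  by_contra hc
  apply hn
  refine h2 K v N κ e D hN he ?_
  intro ρ h3 h4 h5
  constructor
  · intro h6
    by_contra h7
    exact hc ⟨ρ, κ - ρ, e, h3, h4, h5, hk, NUM_bad h1 hN h7, h7, Or.inl ⟨by omega, rfl⟩⟩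
  · intro h6
    by_contra h7
    exact hc ⟨ρ, κ + 1 - ρ, e - 1, h3, h4, h5, hk, NUM_bad h1 hN h7, h7,
      Or.inr ⟨by omega, by omega⟩⟩

theorem NUM_zero (h1 : Stmt_HG0) (h2 : Stmt_HGS) {v N κ D t j : ℕ} (hN : 1 ≤ N) (ht : 2 ≤ t)
    (htj : t + j ≤ 2 * N) (hv : v ≤ t + 1) (hD : D + κ ≤ t + 1 + 2 * j) :
    HG K v N κ N D := by
  by_contra hn
  obtain ⟨ρ, κ', e', a1, a2, a3, a4, a5, -, a7⟩ := NUM_step h1 h2 hN hN hn
  have hκ : N + ρ ≤ κ := by omega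
  have hD2 : D + ρ + 1 ≤ 3 * N := by omega
  have b1 : (N + ρ) * N ≤ κ * N := Nat.mul_le_mul_right N hκ
  have b2 : ρ * (D + ρ + 1) ≤ ρ * (3 * N) := Nat.mul_le_mul_left ρ hD2
  nlinarith [mul_self_nonneg ((N : ℤ) - ρ)]

theorem NUM_one (h1 : Stmt_HG0) (h2 : Stmt_HGS) {v N κ D t j : ℕ} (hN : 1 ≤ N) (ht : 3 ≤ t)
    (htj : t + j ≤ 3 * N) (hv : v ≤ t + 1) (hD : D + κ ≤ t + 1 + 2 * j) :
    HG K v N κ (N + 1) D := by
  by_contra hn
  obtain ⟨ρ0, κ1, e1, a1, a2, a3, a4, a5, a6, a7⟩ := NUM_step h1 h2 hN (by omega) hn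
  rcases Nat.lt_or_ge N 2 with hlt | hge
  · have hN1 : N = 1 := by omega
    subst hN1
    have hD0 : D = 0 := by omega
    subst hD0
    omega
  obtain ⟨ρ1, κ2, e2, b1, b2, b3, b4, b5, b6, b7⟩ := NUM_step h1 h2 hN (by omega) a6
  obtain ⟨ρ2, κ3, e3, c1, c2, c3, c4, c5, -, c7⟩ := NUM_step h1 h2 hN (by omega) b6
  have hD1 : 3 ≤ D := by
    by_contra hc
    have h0 : D - 1 - 1 = 0 := by omega
    rw [h0] at c3
    omega
  obtain ⟨m, hm⟩ : ∃ m : ℤ, m = (D : ℤ) - N := ⟨_, rfl⟩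
  obtain ⟨x2, hx2⟩ : ∃ x : ℤ, x = (κ2 : ℤ) - e2 := ⟨_, rfl⟩
  obtain ⟨x1, hx1⟩ : ∃ x : ℤ, x = (κ1 : ℤ) - e1 := ⟨_, rfl⟩
  obtain ⟨x0, hx0⟩ : ∃ x : ℤ, x = (κ : ℤ) - (N + 1) := ⟨_, rfl⟩
  have q1 : (ρ2 : ℤ) ≤ x2 := by omega
  have q2 : x2 + ρ1 - 2 ≤ x1 := by omega
  have q3 : x1 + ρ0 - 2 ≤ x0 := by omega
  have q4 : (N : ℤ) ≤ e1 := by omega
  have q5 : (N : ℤ) - 1 ≤ e2 := by omega
  have q6 : m ≤ 4 * (N : ℤ) + 3 - 2 * ρ0 - x1 := by
    clear a3 b3 c3 a6 b6 hn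
    omega
  have q7 : m ≤ 4 * (N : ℤ) - 1 - ρ0 - x1 := by
    clear a3 b3 c3 a6 b6 hn
    omega
  have q8 : 2 ≤ x2 := by omega
  have q9 : 2 ≤ x1 := by omega
  have a3' : (κ : ℤ) * N + (N + 1) ≤ ρ0 * D := by exact_mod_cast a3
  have b3' : (κ1 : ℤ) * N + e1 ≤ ρ1 * (D - 1) := by
    have h := b3
    have hc : ((D - 1 : ℕ) : ℤ) = (D : ℤ) - 1 := by omega
    have h' : ((κ1 * N + e1 : ℕ) : ℤ) ≤ ((ρ1 * (D - 1) : ℕ) : ℤ) := by exact_mod_cast h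
    rw [Nat.cast_mul, hc, Nat.cast_add, Nat.cast_mul] at h'
    exact h'
  have c3' : (κ2 : ℤ) * N + e2 ≤ ρ2 * (D - 2) := by
    have hc : ((D - 1 - 1 : ℕ) : ℤ) = (D : ℤ) - 2 := by omega
    have h' : ((κ2 * N + e2 : ℕ) : ℤ) ≤ ((ρ2 * (D - 1 - 1) : ℕ) : ℤ) := by exact_mod_cast c3
    rw [Nat.cast_mul, hc, Nat.cast_add, Nat.cast_mul] at h'
    exact h'
  have hNz : (0 : ℤ) ≤ N := by omega
  refine NUM_core N m x2 ρ1 x1 ρ0 (by exact_mod_cast hN) q8 q9 (by exact_mod_cast b1)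
    (by exact_mod_cast a1) q2 ?_ ?_ ?_ q6 q7
  · have d1 : (ρ2 : ℤ) * (D - 2) ≤ x2 * (D - 2) :=
      mul_le_mul_of_nonneg_right q1 (by omega)
    have d2 : ((N : ℤ) - 1) * (N + 1) ≤ e2 * (N + 1) :=
      mul_le_mul_of_nonneg_right q5 (by omega)
    have d3 : (κ2 : ℤ) = x2 + e2 := by omega
    rw [d3] at c3'
    rw [hm]
    linarith
  · have d2 : (N : ℤ) * (N + 1) ≤ e1 * (N + 1) := mul_le_mul_of_nonneg_right q4 (by omega)
    have d3 : (κ1 : ℤ) = x1 + e1 := by omega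
    have d4 : (x2 + ρ1 - 2) * (N : ℤ) ≤ x1 * N := mul_le_mul_of_nonneg_right q2 hNz
    rw [d3] at b3'
    rw [hm]
    linarith
  · have d3 : (κ : ℤ) = x0 + (N + 1) := by omega
    have d4 : (x1 + ρ0 - 2) * (N : ℤ) ≤ x0 * N := mul_le_mul_of_nonneg_right q3 hNz
    rw [d3] at a3'
    rw [hm]
    linarith

theorem NUM_thm (h1 : Stmt_HG0) (h2 : Stmt_HGS) : Stmt_NUM := by
  intro K _ _ _ v M β t j k g l hβ ht htj hv hk1 hk2 hgl
  have hD : (t + 1 - k + (j - l - g) + (j - l)) + (k + g + l) ≤ t + 1 + 2 * j := by omega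
  have hβ' : β = 0 ∨ β = 1 := by omega
  rcases hβ' with rfl | rfl
  · have h := NUM_zero (K := K) h1 h2 (v := v) (N := M + 1) (t := t) (j := j) (by omega) (by omega)
      (by omega) hv hD
    exact h
  · have h := NUM_one (K := K) h1 h2 (v := v) (N := M + 1) (t := t) (j := j) (by omega) (by omega)
      (by omega) hv hD
    exact h

end Pool.Agent.VOP
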