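import Pool.Agent.VOP.STEP

/-!
# MP_deb8da_ag, `b > 0`: the ranges (general lemmas)
-/

namespace Pool.Agent.VOP

open Pool.Agent.VSY

/-- `VB`: the vanishing at the level `2 N + β + 1`, letters of degree `N + 1`, for `p ≤ P`. -/
def VB (K : Type) [Field K] (N β P : ℕ) : Prop :=
  ∀ v p, p ≤ P → Van K v (N + 1) p (2 * N + β + 1)

namespace VB

section char

variable {K : Type} [Field K] [CharZero K]

/-- From the level `r` to the level `r + 1`: the range grows by `m` (if it is true in `m`
variables). -/
theorem slope {d m r P Q : ℕ} (hd : 1 ≤ d) (hQ : Q ≤ P + m)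
    (h : ∀ v p, p ≤ P → Van K v d p r)
    (hb : ∀ p, p ≤ Q → Van K m d p (r + 1)) : ∀ v p, p ≤ Q → Van K v d p (r + 1) := by
  have key : ∀ p, p ≤ Q → ∀ v, Van K v d p (r + 1) := by
    intro p
    induction p using Nat.strong_induction_on with
    | _ p ih =>
      intro hp v
      rcases Nat.lt_or_ge v m with hv | hv
      · exact red K v m d p (r + 1) hv.le (hb p hp)
      · refine tr K d m p (r + 1) hd (hb p hp) ?_ v hv
        intro v hv
        refine ⟨fun hvp => ih (p - v) (by omega) (by omega) v, fun hvp r' hr' => ?_⟩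
        obtain rfl : r' = r := by omega
        exact h v (p + 1 - v) (by omega)
  exact fun v p hp => key p hp v

/-- Monotonicity. -/
theorem mono {N β β' P P' : ℕ} (h : VB K N β P) (hβ : β ≤ β') (hP : P' ≤ P) :
    VB K N β' P' := by
  intro v p hp
  exact VTH.mono' (K := K) (r := 2 * N + β + 1) (P := P) (by omega) (by omega) h (by omega) v p
    (by omega)

/-- Three variables. -/
theorem three {N β p : ℕ} (hN : 1 ≤ N) (h : N ≤ β ∨ 2 * p + β * (β - 1) ≤ 2 * ((β + 2) * N)) :
    Van K 3 (N + 1) p (2 * N + β + 1) := by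
  rcases Nat.lt_or_ge β N with hβ | hβ
  · refine tg K 2 (N + 1) p _ (by omega) (by omega) (Or.inr ⟨N - 1 - β, by omega, ?_⟩)
    have h' : 2 * p + β * (β - 1) ≤ 2 * ((β + 2) * N) := by
      rcases h with h | h
      · omega
      · exact h
    obtain ⟨m, rfl⟩ := Nat.exists_eq_add_of_lt hβ
    have e1 : ∀ n : ℕ, (n + 1).choose 2 * 2 = (n + 1) * n := by
      intro n
      induction n with
      | zero => decide
      | succ n ih =>
        rw [show n + 1 + 1 = (n + 1) + 1 by omega, Nat.choose_succ_succ' (n + 1) 1]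
        rw [Nat.choose_one_right, add_mul, ih]
        ring
    have h1 := e1 (m + 1)
    have h2 := e1 (β + m + 1 + 2)
    have e2 : β + m + 1 - 1 - β + 2 = m + 1 + 1 := by omega
    have e3 : β + m + 1 + 1 + 2 = β + m + 1 + 2 + 1 := by omega
    rw [e2, e3]
    rcases Nat.eq_zero_or_pos β with hb | hb
    · subst hb
      simp only [zero_add, zero_mul, add_zero] at h' h2 ⊢
      nlinarith
    · obtain ⟨c, rfl⟩ : ∃ c, β = c + 1 := ⟨β - 1, by omega⟩
      rw [Nat.add_sub_cancel] at h'
      nlinarith
  · exact tg K 2 (N + 1) p _ (by omega) (by omega) (Or.inl (by omega))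

/-- Slope 3 for the levels `2 N + β + 1`. -/
theorem slope3 {N β P Q : ℕ} (hN : 1 ≤ N) (h : VB K N β P) (hQ : Q ≤ P + 3)
    (h3 : N ≤ β + 1 ∨ 2 * Q + (β + 1) * β ≤ 2 * ((β + 3) * N)) : VB K N (β + 1) Q := by
  refine slope (K := K) (m := 3) (r := 2 * N + β + 1) (P := P) (by omega) hQ h ?_
  intro p hp
  refine three (β := β + 1) hN ?_
  rw [Nat.add_sub_cancel]
  rcases h3 with h3 | h3
  · exact Or.inl h3
  · right
    have : β + 1 + 2 = β + 3 := by omega
    rw [this]
    omega

/-- The lines: vanishing for `p + 1 + m (m + 1) N / 2 ≤ m r`. -/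
theorem lines {N : ℕ} (hN : 1 ≤ N) (m : ℕ) : ∀ r v p : ℕ,
    2 * p + 2 + m * (m + 1) * N ≤ 2 * (m * r) → Van K v (N + 1) p r := by
  induction m with
  | zero =>
    intro r v p h
    rw [zero_mul] at h
    omega
  | succ m ihm =>
    intro r
    induction r with
    | zero =>
      intro v p h
      rw [mul_zero] at h
      omega
    | succ r ihr =>
      intro v p h
      rcases Nat.lt_or_ge ((m + 1) * N) (r + 1) with hr | hr
      · rcases Nat.lt_or_ge p (m + 1) with hp | hp
        · refine low K v (N + 1) p (r + 1) (by omega) ?_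
          have : m ≤ m * N := Nat.le_mul_of_pos_right m hN
          have e : (m + 1) * N = m * N + N := by ring
          omega
        · refine slope (K := K) (m := m + 1) (r := r) (P := p - (m + 1)) (Q := p) (by omega)
            (by omega) ?_ ?_ v p le_rfl
          · intro v' p' hp'
            refine ihr v' p' ?_
            have e : 2 * ((m + 1) * (r + 1)) = 2 * ((m + 1) * r) + 2 * (m + 1) := by ring
            omega
          · intro p' _
            refine tg K m (N + 1) p' (r + 1) (by omega) ?_ (Or.inl ?_)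
            · rw [Nat.add_sub_cancel]
              omega
            · rw [Nat.add_sub_cancel]
              exact hr
      · refine ihm (r + 1) v p ?_
        have e1 : 2 * ((m + 1) * (r + 1)) = 2 * (m * (r + 1)) + 2 * (r + 1) := by ring
        have e2 : (m + 1) * (m + 1 + 1) * N = m * (m + 1) * N + 2 * ((m + 1) * N) := by ring
        omega

end char

section ord

variable {K : Type} [Field K] [LinearOrder K] [IsStrictOrderedRing K]

/-- The climb: the range `p ≤ P` for `(M + 1, β)` from smaller cases. -/
theorem climb (hSTEP : Stmt_STEP) {M β P q : ℕ} (hβ : 1 ≤ β)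
    (h3 : M + 1 ≤ β ∨ 2 * P + β * (β - 1) ≤ 2 * ((β + 2) * (M + 1)))
    (hA : ∀ s, s + 3 ≤ P → VB K M (β + 1) s)
    (hB : ∀ s, s + 3 + β ≤ P → VB K M β s)
    (hq : VB K (M + 1) (β - 1) q) (hP : P ≤ q + M + 5)
    (hHG : ∀ v t κ D, 3 ≤ t → v ≤ t + 1 → t + q < P → D + κ + β + t ≤ 2 * P + 1 →
      HG K v (M + 1) κ (M + 1 + β) D) : VB K (M + 1) β P := by
  have e : 2 * (M + 1) + β + 1 = 2 * M + 3 + β := by ring
  have key : ∀ p, p ≤ P → ∀ v, Van K v (M + 2) p (2 * M + 3 + β) := by
    intro p
    induction p using Nat.strong_induction_on with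
    | _ p ih =>
      intro hp
      refine hSTEP K M β p q hβ ?_ ?_ ?_ ?_ ?_ (by omega) ?_
      · have h := three (K := K) (N := M + 1) (β := β) (p := p) (by omega) (by omega)
        rwa [e] at h
      · intro v p' hp'
        exact ih p' hp' (by omega) v
      · intro v s hs
        have h := hA s (by omega) v s le_rfl
        rwa [show 2 * M + (β + 1) + 1 = 2 * M + 2 + β by ring] at h
      · intro v s hs
        have h := hB s (by omega) v s le_rfl
        rwa [show 2 * M + β + 1 = 2 * M + 1 + β by ring] at h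
      · intro v p' hp'
        have h := hq v p' hp'
        rwa [show 2 * (M + 1) + (β - 1) + 1 = 2 * M + 2 + β by omega] at h
      · intro v t κ D ht hv hq' hD
        exact hHG v t κ D ht hv (by omega) (by omega)
  intro v p hp
  rw [e]
  exact key p hp v

end ord

end VB

end Pool.Agent.VOP
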