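import Pool.Agent.VOP.NUM2
import Pool.Agent.VOP.CHK

/-!
# MP_deb8da_ag: the row `q = 2`, `b = 1` (`d ≥ 10`) and `b = 2` (`d ≥ 16`)
-/

namespace Pool.Agent.VOP

open Pool.Agent.VSY

namespace VB

variable {K : Type} [Field K] [LinearOrder K] [IsStrictOrderedRing K]

theorem ff_step (C e : ℕ) : FF C e + FF C e / (C - 1) ≤ FF C (e + 1) := le_max_right _ _

theorem ff7_ge (n : ℕ) : 8 * (n + 30) ≤ FF 7 (n + 32) := by
  induction n with
  | zero =>
    rw [Nat.zero_add, Nat.zero_add, ff7]
    omega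
  | succ n ih =>
    have h := ff_step 7 (n + 32)
    rw [show 7 - 1 = 6 by norm_num] at h
    have e : n + 1 + 32 = n + 32 + 1 := by omega
    rw [e]
    omega

theorem ff9_ge (n : ℕ) : 10 * (n + 41) ≤ FF 9 (n + 44) := by
  induction n with
  | zero =>
    rw [Nat.zero_add, Nat.zero_add, ff9]
  | succ n ih =>
    have h := ff_step 9 (n + 44)
    rw [show 9 - 1 = 8 by norm_num] at h
    have e : n + 1 + 44 = n + 44 + 1 := by omega
    rw [e]
    omega

/-- From a check to the highest weight gluing. -/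
theorem hg_ck (hHG0 : Stmt_HG0) (hHGT : Stmt_HGT) {N β tot v κ D : ℕ} (hN : 1 ≤ N)
    (h : ckN N β tot (tot + 1) = true) (hD : D + κ ≤ tot) : HG K v N κ (N + β) D := by
  have h1 := ckN_spec (tot + 1) h D (by omega)
  rcases h1 with h1 | h1
  · exact hHG0 K v N κ (N + β) D hN (by omega)
  · exact (hHGT K v N hN).1 (N + β) D κ (by omega)

theorem hg_ckR (hHG0 : Stmt_HG0) (hHGT : Stmt_HGT) {N β tot v v' κ D : ℕ} (hN : 1 ≤ N)
    (hv : v ≤ v') (h : ckR N v' β tot (tot + 1) = true) (hD : D + κ ≤ tot) :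
    HG K v N κ (N + β) D := by
  have h1 := ckR_spec (tot + 1) h D (by omega)
  rcases h1 with h1 | h1
  · exact hHG0 K v N κ (N + β) D hN (by omega)
  · exact (hHGT K v N hN).2 v' hv (N + β) D κ (by omega)

/-- The numbers for `b = 1`. -/
theorem hg1 (hHG0 : Stmt_HG0) (hHGF : Stmt_HGF) (hHGT : Stmt_HGT) {N : ℕ} (hN : 9 ≤ N) :
    ∀ v t κ D, 3 ≤ t → v ≤ t + 1 → t + 3 * N < 4 * N - 1 → D + κ + 2 + t ≤ 2 * (4 * N - 1) + 1 →
      HG K v N κ (N + 2) D := by
  intro v t κ D ht hv hq hD
  rcases Nat.lt_or_ge N 30 with h30 | h30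
  · rcases Nat.lt_or_ge N 10 with h10 | h10
    · obtain rfl : N = 9 := by omega
      have h := ck_9 t (by omega) ht
      rw [show 70 - t = 69 - t + 1 by omega] at h
      exact hg_ckR hHG0 hHGT (by omega) hv h (by omega)
    · have h := ck_10 N h30 h10
      rw [show 8 * N - 5 = 8 * N - 6 + 1 by omega] at h
      exact hg_ck hHG0 hHGT (by omega) h (by omega)
  · rcases Nat.lt_or_ge (N + 3) κ with hκ | hκ
    · obtain ⟨n, rfl⟩ : ∃ n, N = n + 30 := ⟨N - 30, by omega⟩
      have h := ff7_ge n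
      rw [show n + 32 = n + 30 + 2 by omega] at h
      exact hHGF K v (n + 30) 7 (by omega) (by omega) (n + 30 + 2) κ D (by omega) (by omega)
    · exact hHG0 K v N κ (N + 2) D (by omega) (by omega)

/-- The numbers for `b = 2`, `N ≥ 15`. -/
theorem hg2 (hHG0 : Stmt_HG0) (hHGF : Stmt_HGF) (hHGT : Stmt_HGT) {N : ℕ} (hN : 15 ≤ N) :
    ∀ v t κ D, 3 ≤ t → D + κ + 3 + t ≤ 2 * (5 * N - 3) + 1 → HG K v N κ (N + 3) D := by
  intro v t κ D ht hD
  rcases Nat.lt_or_ge N 41 with h41 | h41
  · have h := ck_b2_15 N h41 hN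
    rw [show 10 * N - 10 = 10 * N - 11 + 1 by omega] at h
    exact hg_ck hHG0 hHGT (by omega) h (by omega)
  · rcases Nat.lt_or_ge (N + 4) κ with hκ | hκ
    · obtain ⟨n, rfl⟩ : ∃ n, N = n + 41 := ⟨N - 41, by omega⟩
      have h := ff9_ge n
      rw [show n + 44 = n + 41 + 3 by omega] at h
      exact hHGF K v (n + 41) 9 (by omega) (by omega) (n + 41 + 3) κ D (by omega) (by omega)
    · exact hHG0 K v N κ (N + 3) D (by omega) (by omega)

/-- `b = 1`, `d = 7, 8, 9`, one less. -/
theorem two_less (hSTEP : Stmt_STEP) (hHG0 : Stmt_HG0) (hHGT : Stmt_HGT)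
    (h1 : ∀ N, 1 ≤ N → VB K N 1 (3 * N)) : VB K 6 2 22 ∧ VB K 7 2 26 ∧ VB K 8 2 30 := by
  have s5 : VB K 5 2 18 := slope3 (β := 1) (by omega) (h1 5 (by omega)) (by omega) (by omega)
  have s53 : VB K 5 3 21 := slope3 (β := 2) (by omega) s5 (by omega) (by omega)
  have s6 : VB K 6 2 22 := by
    refine climb hSTEP (M := 5) (q := 18) (by omega) (by omega) ?_ ?_ (h1 6 (by omega))
      (by omega) ?_
    · exact fun s hs => mono s53 le_rfl (by omega)
    · exact fun s hs => mono s5 le_rfl (by omega)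
    · intro v t κ D ht _ _ hD
      exact hg_ck hHG0 hHGT (by omega) ck_6 (by omega)
  have s63 : VB K 6 3 25 := slope3 (β := 2) (by omega) s6 (by omega) (by omega)
  have s7 : VB K 7 2 26 := by
    refine climb hSTEP (M := 6) (q := 21) (by omega) (by omega) ?_ ?_ (h1 7 (by omega))
      (by omega) ?_
    · exact fun s hs => mono s63 le_rfl (by omega)
    · exact fun s hs => mono s6 le_rfl (by omega)
    · intro v t κ D ht _ _ hD
      exact hg_ck hHG0 hHGT (by omega) ck_7 (by omega)
  have s73 : VB K 7 3 28 := slope3 (β := 2) (by omega) s7 (by omega) (by omega)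
  refine ⟨s6, s7, ?_⟩
  refine climb hSTEP (M := 7) (q := 24) (by omega) (by omega) ?_ ?_ (h1 8 (by omega))
    (by omega) ?_
  · exact fun s hs => mono s73 le_rfl (by omega)
  · exact fun s hs => mono s7 le_rfl (by omega)
  · intro v t κ D ht _ _ hD
    exact hg_ck hHG0 hHGT (by omega) ck_8 (by omega)

/-- The whole lower end for `b = 1`, `d ≥ 10`. -/
theorem two (hSTEP : Stmt_STEP) (hHG0 : Stmt_HG0) (hHGF : Stmt_HGF) (hHGT : Stmt_HGT)
    (h1 : ∀ N, 1 ≤ N → VB K N 1 (3 * N)) : ∀ N, 9 ≤ N → VB K N 2 (4 * N - 1) := by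
  have s8 : VB K 8 2 30 := (two_less hSTEP hHG0 hHGT h1).2.2
  have s83 : VB K 8 3 33 := slope3 (β := 2) (by omega) s8 (by omega) (by omega)
  intro N
  induction N with
  | zero => intro h; omega
  | succ M ih =>
    intro hM
    have hprev : VB K M 2 (4 * M - 2) ∧ VB K M 3 (4 * M + 1) := by
      rcases Nat.lt_or_ge M 9 with h9 | h9
      · obtain rfl : M = 8 := by omega
        exact ⟨mono s8 le_rfl (by omega), mono s83 le_rfl (by omega)⟩
      · have h := ih h9
        exact ⟨mono h le_rfl (by omega),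
          slope3 (β := 2) (by omega) h (by omega) (Or.inr (by omega))⟩
    refine climb hSTEP (M := M) (q := 3 * (M + 1)) (by omega) (Or.inr (by omega)) ?_ ?_
      (h1 (M + 1) (by omega)) (by omega) ?_
    · exact fun s hs => mono hprev.2 le_rfl (by omega)
    · exact fun s hs => mono hprev.1 le_rfl (by omega)
    · intro v t κ D ht hv hq hD
      exact hg1 hHG0 hHGF hHGT hM v t κ D ht hv hq hD

/-- `b = 2`, `d = 12, ..., 15`. -/
theorem three_mid (hSTEP : Stmt_STEP) (hHG0 : Stmt_HG0) (hHGT : Stmt_HGT)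
    (h2 : ∀ N, 9 ≤ N → VB K N 2 (4 * N - 1)) :
    VB K 11 3 48 ∧ VB K 12 3 54 ∧ VB K 13 3 60 ∧ VB K 14 3 66 := by
  have s10 : VB K 10 3 42 := slope3 (β := 2) (by omega) (h2 10 (by omega)) (by omega) (by omega)
  have s104 : VB K 10 4 45 := slope3 (β := 3) (by omega) s10 (by omega) (by omega)
  have s11 : VB K 11 3 48 := by
    refine climb hSTEP (M := 10) (q := 43) (by omega) (by omega) ?_ ?_ (h2 11 (by omega))
      (by omega) ?_
    · exact fun s hs => mono s104 le_rfl (by omega)
    · exact fun s hs => mono s10 le_rfl (by omega)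
    · intro v t κ D ht _ _ hD
      exact hg_ck hHG0 hHGT (by omega) ck_b2_11 (by omega)
  have s114 : VB K 11 4 51 := slope3 (β := 3) (by omega) s11 (by omega) (by omega)
  have s12 : VB K 12 3 54 := by
    refine climb hSTEP (M := 11) (q := 47) (by omega) (by omega) ?_ ?_ (h2 12 (by omega))
      (by omega) ?_
    · exact fun s hs => mono s114 le_rfl (by omega)
    · exact fun s hs => mono s11 le_rfl (by omega)
    · intro v t κ D ht hv hq hD
      have h := ck_b2_12 t (by omega) ht
      rw [show 107 - t = 106 - t + 1 by omega] at h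
      exact hg_ckR hHG0 hHGT (by omega) hv h (by omega)
  have s124 : VB K 12 4 57 := slope3 (β := 3) (by omega) s12 (by omega) (by omega)
  have s13 : VB K 13 3 60 := by
    refine climb hSTEP (M := 12) (q := 51) (by omega) (by omega) ?_ ?_ (h2 13 (by omega))
      (by omega) ?_
    · exact fun s hs => mono s124 le_rfl (by omega)
    · exact fun s hs => mono s12 le_rfl (by omega)
    · intro v t κ D ht hv hq hD
      have h := ck_b2_13 t (by omega) ht
      rw [show 119 - t = 118 - t + 1 by omega] at h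
      exact hg_ckR hHG0 hHGT (by omega) hv h (by omega)
  have s134 : VB K 13 4 63 := slope3 (β := 3) (by omega) s13 (by omega) (by omega)
  have s14 : VB K 14 3 66 := by
    refine climb hSTEP (M := 13) (q := 55) (by omega) (by omega) ?_ ?_ (h2 14 (by omega))
      (by omega) ?_
    · exact fun s hs => mono s134 le_rfl (by omega)
    · exact fun s hs => mono s13 le_rfl (by omega)
    · intro v t κ D ht hv hq hD
      have h := ck_b2_14 t (by omega) ht
      rw [show 131 - t = 130 - t + 1 by omega] at h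
      exact hg_ckR hHG0 hHGT (by omega) hv h (by omega)
  exact ⟨s11, s12, s13, s14⟩

/-- The whole lower end for `b = 2`, `d ≥ 16`. -/
theorem bthree (hSTEP : Stmt_STEP) (hHG0 : Stmt_HG0) (hHGF : Stmt_HGF) (hHGT : Stmt_HGT)
    (h2 : ∀ N, 9 ≤ N → VB K N 2 (4 * N - 1)) : ∀ N, 15 ≤ N → VB K N 3 (5 * N - 3) := by
  have s14 : VB K 14 3 66 := (three_mid hSTEP hHG0 hHGT h2).2.2.2
  have s144 : VB K 14 4 69 := slope3 (β := 3) (by omega) s14 (by omega) (by omega)
  intro N
  induction N with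
  | zero => intro h; omega
  | succ M ih =>
    intro hM
    have hprev : VB K M 3 (5 * M - 4) ∧ VB K M 4 (5 * M - 1) := by
      rcases Nat.lt_or_ge M 15 with h9 | h9
      · obtain rfl : M = 14 := by omega
        exact ⟨mono s14 le_rfl (by omega), mono s144 le_rfl (by omega)⟩
      · have h := ih h9
        exact ⟨mono h le_rfl (by omega),
          slope3 (β := 3) (by omega) h (by omega) (Or.inr (by omega))⟩
    refine climb hSTEP (M := M) (q := 4 * (M + 1) - 1) (by omega) (Or.inr (by omega)) ?_ ?_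
      (h2 (M + 1) (by omega)) (by omega) ?_
    · exact fun s hs => mono hprev.2 le_rfl (by omega)
    · exact fun s hs => mono hprev.1 le_rfl (by omega)
    · intro v t κ D ht hv hq hD
      exact hg2 hHG0 hHGF hHGT hM v t κ D ht hD

/-- `b = 1`, `d = 4, 5`. -/
theorem two_small (h1 : ∀ N, 1 ≤ N → VB K N 1 (3 * N)) {N : ℕ} (hN : N = 3 ∨ N = 4) :
    VB K N 2 (4 * N - 1) := by
  rcases hN with rfl | rfl
  · exact slope3 (β := 1) (by omega) (h1 3 (by omega)) (by omega) (by omega)
  · exact slope3 (β := 1) (by omega) (h1 4 (by omega)) (by omega) (by omega)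

/-- `b = 2`, `d = 5`. -/
theorem three_small (h1 : ∀ N, 1 ≤ N → VB K N 1 (3 * N)) : VB K 4 3 17 :=
  slope3 (β := 2) (by omega) (two_small h1 (Or.inr rfl)) (by omega) (by omega)

end VB

end Pool.Agent.VOP
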