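import Pool.Agent.VOP.NUM2

/-!
# MP_deb8da_ag: the whole lower end of the row `q = 2` for `d ≥ 16 (b + 4)^4`
-/

namespace Pool.Agent.VOP

open Pool.Agent.VSY

namespace VB

variable {K : Type} [Field K] [LinearOrder K] [IsStrictOrderedRing K]

/-- The highest weight gluing for `N ≥ 16 (k + 2)^2`. -/
theorem hgk (hHG0 : Stmt_HG0) (hHGC : Stmt_HGC) {M β P k : ℕ}
    (hM : 16 * (k + 2) ^ 2 ≤ M + 1) (hP : P ≤ (k + 2) * (M + 1) + (k - 1) * β) (hk : 1 ≤ k) :
    ∀ v t κ D, 3 ≤ t → v ≤ t + 1 → D + κ + β + t ≤ 2 * P + 1 →
      HG K v (M + 1) κ (M + 1 + β) D := by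
  intro v t κ D ht _ hD
  refine hHGC K v (M + 1) κ (M + 1 + β) D (2 * k + 4) (by omega) ?_ ?_
  · have e : 4 * (2 * k + 4) * (2 * k + 4) = 16 * (k + 2) ^ 2 := by ring
    omega
  · obtain ⟨c, rfl⟩ : ∃ c, k = c + 1 := ⟨k - 1, by omega⟩
    rw [Nat.add_sub_cancel] at hP
    have e1 : (2 * (c + 1) + 4) * (M + 1 + β) =
        2 * ((c + 1 + 2) * (M + 1) + c * β) + 6 * β := by ring
    omega

/-- The ranges `p + 8 (k + 2)^4 ≤ (k + 2) N + (k - 1) β`. -/
theorem crude (hSTEP : Stmt_STEP) (hHG0 : Stmt_HG0) (hHGC : Stmt_HGC)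
    (h1 : ∀ N, 1 ≤ N → VB K N 1 (3 * N)) (k : ℕ) : ∀ N β P : ℕ, 16 * (k + 3) ^ 2 ≤ N →
      k + 1 ≤ β → P + 8 * (k + 3) ^ 4 ≤ (k + 3) * N + k * β → VB K N β P := by
  induction k with
  | zero =>
    intro N β P hN hβ hP
    refine mono (h1 N (by omega)) (by omega) (by omega)
  | succ k ihk =>
    intro N
    induction N with
    | zero =>
      intro β P hN
      have : 0 < (k + 1 + 3) ^ 2 := by positivity
      omega
    | succ M ihM =>
      intro β
      induction β with
      | zero =>
        intro P hN hβ
        omega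
      | succ β ihβ =>
        intro P hN hβ hP
        have e4 : (k + 1 + 3) ^ 4 = (k + 1 + 3) ^ 2 * (k + 1 + 3) ^ 2 := by ring
        have e2 : (k + 1 + 3) ^ 2 = k * k + 8 * k + 16 := by ring
        rcases Nat.lt_or_ge M (16 * (k + 1 + 3) ^ 2) with hM | hM
        · -- the base, from the lines
          have hN' : M + 1 = 16 * (k + 1 + 3) ^ 2 := by omega
          intro v p hp
          refine lines (K := K) (by omega) (k + 1) _ v p ?_
          have hp' : p + 8 * (k + 1 + 3) ^ 4 ≤ (k + 1 + 3) * (M + 1) + (k + 1) * (β + 1) := by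
            omega
          have h8 : 16 * (k + 1 + 3) ^ 4 = (k * k + 8 * k + 16) * (M + 1) := by
            rw [hN', e4, e2]
            ring
          have h9 : 2 * p + (k * k + 8 * k + 16) * (M + 1) ≤
              2 * ((k + 1 + 3) * (M + 1) + (k + 1) * (β + 1)) := by omega
          have h10 : 16 ≤ M + 1 := by
            rw [hN', e2]
            nlinarith
          nlinarith [Nat.zero_le (k * (M + 1)), Nat.zero_le k]
        · -- the step
          have hPk : P ≤ (k + 1 + 3) * (M + 1) + (k + 1) * (β + 1) := by omega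
          refine climb hSTEP (q := P - (M + 5)) (by omega) ?_ ?_ ?_ ?_ (by omega) ?_
          · rcases Nat.lt_or_ge (β + 1) (M + 1) with hβM | hβM
            · right
              rw [Nat.add_sub_cancel]
              obtain ⟨a, rfl⟩ : ∃ a, M = β + 1 + a := ⟨M - (β + 1), by omega⟩
              obtain ⟨c, rfl⟩ : ∃ c, β = k + 1 + c := ⟨β - (k + 1), by omega⟩
              rw [e4, e2] at hP
              have h5 : (k * k + 8 * k + 16) * (k * k + 8 * k + 16) =
                  k * k * (k * k) + 16 * (k * k * k) + 96 * (k * k) + 256 * k + 256 := by ring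
              rw [h5] at hP
              have h6 : c * k ≤ c * c + k * k := by nlinarith [sq_nonneg ((c : ℤ) - k)]
              have h7 : 0 ≤ k * k * (k * k) := Nat.zero_le _
              have h8 : 0 ≤ k * k * k := Nat.zero_le _
              nlinarith [Nat.zero_le (c * a), Nat.zero_le (k * a), Nat.zero_le (c * c)]
            · exact Or.inl hβM
          · intro s hs
            refine ihM (β + 1 + 1) s hM (by omega) ?_
            have e : (k + 1 + 3) * (M + 1) + (k + 1) * (β + 1) + 0 =
                (k + 1 + 3) * M + (k + 1) * (β + 1 + 1) + 3 := by ring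
            omega
          · intro s hs
            refine ihM (β + 1) s hM hβ ?_
            have e : (k + 1 + 3) * (M + 1) + (k + 1) * (β + 1) + 0 =
                (k + 1 + 3) * M + (k + 1) * (β + 1) + (k + 4) := by ring
            omega
          · rw [Nat.add_sub_cancel]
            rcases Nat.lt_or_ge P (M + 5) with hPM | hPM
            · intro v p hp
              exact low K v (M + 1 + 1) p _ (by omega) (by omega)
            · obtain ⟨Q, rfl⟩ : ∃ Q, P = Q + (M + 5) := ⟨P - (M + 5), by omega⟩
              rw [Nat.add_sub_cancel]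
              rcases Nat.lt_or_ge β (k + 2) with hβk | hβk
              · obtain rfl : β = k + 1 := by omega
                refine ihk (M + 1) (k + 1) Q ?_ (by omega) ?_
                · have : (k + 3) ^ 2 ≤ (k + 1 + 3) ^ 2 := Nat.pow_le_pow_left (by omega) 2
                  omega
                · have h5 : (k + 3) ^ 4 + (k + 4) ≤ (k + 1 + 3) ^ 4 := by
                    have e5 : (k + 1 + 3) ^ 4 = (k + 3) ^ 4 + 4 * (k + 3) ^ 3 +
                        6 * (k + 3) ^ 2 + 4 * (k + 3) + 1 := by ring
                    rw [e5]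
                    have : 0 < (k + 3) ^ 3 := by positivity
                    omega
                  have e : (k + 1 + 3) * (M + 1) + (k + 1) * (k + 1 + 1) =
                    (k + 3) * (M + 1) + k * (k + 1) + (M + 1) + 2 * (k + 1) := by ring
                  omega
              · refine ihβ Q hN (by omega) ?_
                have e : (k + 1 + 3) * (M + 1) + (k + 1) * (β + 1) =
                    (k + 1 + 3) * (M + 1) + (k + 1) * β + (k + 1) := by ring
                have h5 : k ≤ M := by
                  have : k ≤ (k + 1 + 3) ^ 2 := by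
                    rw [e2]
                    nlinarith
                  omega
                omega
          · intro v t κ D ht hv _ hD
            refine hgk hHG0 hHGC (k := k + 2) (P := P) ?_ ?_ (by omega) v t κ D ht hv hD
            · have e : k + 2 + 2 = k + 1 + 3 := by omega
              rw [e]
              exact hN
            · have e : k + 2 + 2 = k + 1 + 3 := by omega
              have e' : k + 2 - 1 = k + 1 := by omega
              rw [e, e']
              exact hPk

/-- The exact range, for large `N`. -/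
theorem exact (hSTEP : Stmt_STEP) (hHG0 : Stmt_HG0) (hHGC : Stmt_HGC)
    (h1 : ∀ N, 1 ≤ N → VB K N 1 (3 * N)) (k : ℕ) : ∀ N P : ℕ, 8 * (k + 4) ^ 4 ≤ N →
      2 * P + (k + 1) * k ≤ 2 * ((k + 3) * N) →
      P + 8 * (k + 3) ^ 4 + 8 * (k + 4) ^ 4 ≤ (k + 4) * N → VB K N (k + 1) P := by
  induction k with
  | zero =>
    intro N P hN h2 _
    refine mono (h1 N ?_) le_rfl ?_
    · omega
    · omega
  | succ k ihk =>
    intro N
    induction N with
    | zero =>
      intro P hN
      have : 0 < (k + 1 + 4) ^ 4 := by positivity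
      omega
    | succ M ihM =>
      intro P hN h2 h3
      have p3 : 16 * (k + 1 + 4) ^ 2 ≤ 8 * (k + 1 + 4) ^ 4 := by
        have e : 8 * (k + 1 + 4) ^ 4 = 8 * ((k + 1 + 4) ^ 2 * (k + 1 + 4) ^ 2) := by ring
        have e' : 2 ≤ (k + 1 + 4) ^ 2 := by nlinarith
        rw [e]
        nlinarith
      have p4 : (k + 1 + 3) ^ 2 ≤ (k + 1 + 4) ^ 2 := Nat.pow_le_pow_left (by omega) 2
      rcases Nat.lt_or_ge M (8 * (k + 1 + 4) ^ 4) with hM | hM
      · have hN' : M + 1 = 8 * (k + 1 + 4) ^ 4 := by omega
        refine crude hSTEP hHG0 hHGC h1 (k + 1) (M + 1) (k + 1 + 1) P (by omega) (by omega) ?_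
        have e : (k + 1 + 4) * (M + 1) = (k + 1 + 3) * (M + 1) + (M + 1) := by ring
        omega
      · have hPk : P ≤ (k + 1 + 3) * (M + 1) := by omega
        refine climb hSTEP (q := P - (M + 5)) (by omega) (Or.inr ?_) ?_ ?_ ?_ (by omega) ?_
        · have e : k + 1 + 1 + 2 = k + 1 + 3 := by omega
          rw [Nat.add_sub_cancel, e]
          exact h2
        · intro s hs
          refine crude hSTEP hHG0 hHGC h1 (k + 2) M (k + 1 + 1 + 1) s ?_ (by omega) ?_
          · have e : k + 2 + 3 = k + 1 + 4 := by omega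
            rw [e]
            omega
          · have e : k + 2 + 3 = k + 1 + 4 := by omega
            rw [e]
            have e1 : (k + 1 + 4) * M = (k + 1 + 3) * M + M := by ring
            have e2 : (k + 1 + 3) * (M + 1) = (k + 1 + 3) * M + (k + 4) := by ring
            have e3 : (k + 2) * (k + 1 + 1 + 1) = k * k + 5 * k + 6 := by ring
            nlinarith [Nat.zero_le (k * k)]
        · intro s hs
          refine ihM s hM ?_ ?_
          · have e2 : (k + 1 + 3) * (M + 1) = (k + 1 + 3) * M + (k + 4) := by ring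
            omega
          · have e2 : (k + 1 + 4) * (M + 1) = (k + 1 + 4) * M + (k + 5) := by ring
            omega
        · rw [Nat.add_sub_cancel]
          rcases Nat.lt_or_ge P (M + 5) with hPM | hPM
          · intro v p hp
            exact low K v (M + 1 + 1) p _ (by omega) (by omega)
          · obtain ⟨Q, rfl⟩ : ∃ Q, P = Q + (M + 5) := ⟨P - (M + 5), by omega⟩
            rw [Nat.add_sub_cancel]
            have p5 : (k + 4) ^ 4 ≤ (k + 1 + 4) ^ 4 := Nat.pow_le_pow_left (by omega) 4
            have p6 : (k + 3) ^ 4 ≤ (k + 1 + 3) ^ 4 := Nat.pow_le_pow_left (by omega) 4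
            refine ihk (M + 1) Q (by omega) ?_ ?_
            · have e1 : (k + 1 + 3) * (M + 1) = (k + 3) * (M + 1) + (M + 1) := by ring
              have e2 : (k + 1 + 1) * (k + 1) = (k + 1) * k + 2 * (k + 1) := by ring
              omega
            · have e1 : (k + 1 + 4) * (M + 1) = (k + 4) * (M + 1) + (M + 1) := by ring
              have e7 : k + 4 = k + 1 + 3 := by omega
              rw [← e7] at h3 p6
              omega
        · intro v t κ D ht hv _ hD
          refine hgk hHG0 hHGC (k := k + 2) (P := P) ?_ ?_ (by omega) v t κ D ht hv hD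
          · have e : k + 2 + 2 = k + 1 + 3 := by omega
            rw [e]
            omega
          · have e : k + 2 + 2 = k + 1 + 3 := by omega
            rw [e]
            exact hPk.trans (Nat.le_add_right _ _)

/-- The whole lower end, `β = k + 1`, `N ≥ 8 (k + 3)^4 + 8 (k + 4)^4`. -/
theorem whole (hSTEP : Stmt_STEP) (hHG0 : Stmt_HG0) (hHGC : Stmt_HGC)
    (h1 : ∀ N, 1 ≤ N → VB K N 1 (3 * N)) (k N P : ℕ)
    (hN : 8 * (k + 3) ^ 4 + 8 * (k + 4) ^ 4 ≤ N)
    (hP : 2 * P + (k + 1) * k ≤ 2 * ((k + 3) * N)) : VB K N (k + 1) P := by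
  refine exact hSTEP hHG0 hHGC h1 k N P (by omega) hP ?_
  have e : (k + 4) * N = (k + 3) * N + N := by ring
  omega

end VB

end Pool.Agent.VOP
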