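import Pool.Agent.VOP.StmtsV

/-!
# The Ottaviani-Paoletti conjecture (MP_deb8da_ag): module VAL (alternating functions)
-/

set_option autoImplicit false

namespace Pool.Agent.VOP

open MvPolynomial Pool.Agent.VSY

namespace VAL

theorem cons_comp {p : ℕ} {M : Type} (α : M) (t : Fin p → M) (σ : Equiv.Perm (Fin p)) :
    (Fin.cons α (t ∘ σ) : Fin (p + 1) → M) =
      (Fin.cons α t : Fin (p + 1) → M) ∘ Equiv.Perm.decomposeFin.symm (0, σ) := by
  funext i
  refine Fin.cases ?_ (fun j => ?_) i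
  · rw [Function.comp_apply, Equiv.Perm.decomposeFin_symm_apply_zero, Fin.cons_zero, Fin.cons_zero]
  · rw [Function.comp_apply, Equiv.Perm.decomposeFin_symm_apply_succ, Equiv.swap_self,
      Equiv.refl_apply, Fin.cons_succ, Fin.cons_succ, Function.comp_apply]

theorem bd_alt {K : Type} [Field K] {v : ℕ} {W : Type} [AddCommGroup W] [Module K W]
    (X : Fin v → (W →ₗ[K] W)) {δ p : ℕ} (c : (Fin (p + 1) → Mn v δ) → W) (hc : AltF c) :
    AltF fun t => bdF X c t := by
  intro σ t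
  show bdF X c (t ∘ σ) = ((Equiv.Perm.sign σ : ℤˣ) : ℤ) • bdF X c t
  unfold bdF
  rw [Finset.smul_sum]
  refine Finset.sum_congr rfl fun α _ => ?_
  have h1 := hc (Equiv.Perm.decomposeFin.symm (0, σ)) (Fin.cons α t)
  rw [← cons_comp, Equiv.Perm.decomposeFin.symm_sign, if_pos rfl, one_mul] at h1
  rw [h1, map_zsmul]

end VAL

theorem t_VAL : SV_AL := by
  intro K _ v W W' _ _ _ _ X δ p
  refine ⟨fun c c' hc hc' => ⟨fun σ t => ?_, fun σ t => ?_⟩, fun c a hc σ t => ?_,
    fun c f hc σ t => ?_, fun c c' t => ⟨?_, ?_⟩, fun c a t => ?_, fun c hc => VAL.bd_alt X c hc⟩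
  · show c (t ∘ σ) + c' (t ∘ σ) = _
    rw [hc, hc', ← smul_add]
  · show c (t ∘ σ) - c' (t ∘ σ) = _
    rw [hc, hc', ← smul_sub]
  · show a • c (t ∘ σ) = _
    rw [hc, smul_comm]
  · show f (c (t ∘ σ)) = _
    rw [hc, map_zsmul]
  · unfold bdF
    rw [← Finset.sum_add_distrib]
    exact Finset.sum_congr rfl fun α _ => map_add _ _ _
  · unfold bdF
    rw [← Finset.sum_sub_distrib]
    exact Finset.sum_congr rfl fun α _ => map_sub _ _ _
  · unfold bdF
    rw [Finset.smul_sum]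
    exact Finset.sum_congr rfl fun α _ => map_smul _ _ _

end Pool.Agent.VOP
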