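import Pool.Agent.VOP.StmtsV

/-!
# The Ottaviani-Paoletti conjecture (MP_deb8da_ag): alternating lifts
-/

namespace Pool.Agent.VOP

open MvPolynomial Pool.Agent.VSY

theorem t_VALL : SV_ALL := by
  intro K _ _ v W W' _ _ _ _ f Y δ p c hc hl
  choose C₀ hC₀ hfC₀ using hl
  have hp : (p.factorial : K) ≠ 0 := by
    exact_mod_cast p.factorial_ne_zero
  refine ⟨fun t => (p.factorial : K)⁻¹ •
    ∑ σ : Equiv.Perm (Fin p), ((Equiv.Perm.sign σ : ℤˣ) : ℤ) • C₀ (t ∘ σ), ?_, ?_, ?_⟩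
  · intro τ t
    change (p.factorial : K)⁻¹ •
        ∑ σ : Equiv.Perm (Fin p), ((Equiv.Perm.sign σ : ℤˣ) : ℤ) • C₀ ((t ∘ τ) ∘ σ) =
      ((Equiv.Perm.sign τ : ℤˣ) : ℤ) • ((p.factorial : K)⁻¹ •
        ∑ σ : Equiv.Perm (Fin p), ((Equiv.Perm.sign σ : ℤˣ) : ℤ) • C₀ (t ∘ σ))
    rw [smul_comm ((Equiv.Perm.sign τ : ℤˣ) : ℤ) ((p.factorial : K)⁻¹)]
    congr 1
    rw [Finset.smul_sum]
    refine Fintype.sum_equiv (Equiv.mulLeft τ)
      (fun σ : Equiv.Perm (Fin p) => ((Equiv.Perm.sign σ : ℤˣ) : ℤ) • C₀ ((t ∘ τ) ∘ σ))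
      (fun σ : Equiv.Perm (Fin p) => ((Equiv.Perm.sign τ : ℤˣ) : ℤ) •
        (((Equiv.Perm.sign σ : ℤˣ) : ℤ) • C₀ (t ∘ σ))) fun σ => ?_
    have e1 : t ∘ ⇑((Equiv.mulLeft τ) σ) = (t ∘ τ) ∘ σ := by
      funext i
      rfl
    have e2 : ((Equiv.Perm.sign τ : ℤˣ) : ℤ) *
        ((Equiv.Perm.sign ((Equiv.mulLeft τ) σ) : ℤˣ) : ℤ) =
        ((Equiv.Perm.sign σ : ℤˣ) : ℤ) := by
      rw [Equiv.coe_mulLeft, Equiv.Perm.sign_mul, Units.val_mul, ← mul_assoc,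
        Int.units_coe_mul_self, one_mul]
    rw [e1, smul_smul, e2]
  · intro t
    exact Y.smul_mem _ (Submodule.sum_mem _ fun σ _ => by
      rw [← Int.cast_smul_eq_zsmul K]
      exact Y.smul_mem _ (hC₀ _))
  · intro t
    rw [map_smul, map_sum]
    have e : ∀ σ : Equiv.Perm (Fin p),
        f (((Equiv.Perm.sign σ : ℤˣ) : ℤ) • C₀ (t ∘ σ)) = c t := by
      intro σ
      rw [map_zsmul, hfC₀, hc σ t, smul_smul, Int.units_coe_mul_self, one_smul]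
    rw [Finset.sum_congr rfl fun σ _ => e σ, Finset.sum_const, Finset.card_univ,
      Fintype.card_perm, Fintype.card_fin, ← Nat.cast_smul_eq_nsmul K, smul_smul,
      inv_mul_cancel₀ hp, one_smul]

end Pool.Agent.VOP
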