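import Pool.Agent.VOP.StmtsV

/-!
# MP_deb8da_ag, block V+L: the boundary of a boundary is zero
-/

namespace Pool.Agent.VOP

open MvPolynomial Pool.Agent.VSY

namespace VBB

theorem cons_swap {α : Type} {p : ℕ} (a b : α) (t : Fin p → α) :
    (Fin.cons b (Fin.cons a t : Fin (p + 1) → α) : Fin (p + 1 + 1) → α) =
      (Fin.cons a (Fin.cons b t : Fin (p + 1) → α) : Fin (p + 1 + 1) → α) ∘
        (Equiv.swap (0 : Fin (p + 1 + 1)) 1) := by
  funext i
  refine Fin.cases ?_ (fun j => ?_) i
  · rw [Function.comp_apply, Equiv.swap_apply_left]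
    rfl
  · refine Fin.cases ?_ (fun k => ?_) j
    · have : (Fin.succ (0 : Fin (p + 1)) : Fin (p + 1 + 1)) = 1 := rfl
      rw [Function.comp_apply, this, Equiv.swap_apply_right]
      rfl
    · rw [Function.comp_apply, Equiv.swap_apply_of_ne_of_ne]
      · rfl
      · exact Fin.succ_ne_zero _
      · intro h
        have : (Fin.succ (Fin.succ k)) = Fin.succ (0 : Fin (p + 1)) := h
        exact Fin.succ_ne_zero _ (Fin.succ_injective _ this)

end VBB

theorem t_VBB (hMO : SV_MO) : SV_BB := by
  intro K _ _ v W _ _ X δ p y hX hy t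
  obtain ⟨-, -, hM, -⟩ := hMO K v W X
  obtain ⟨-, hM⟩ := hM hX
  have hcomm : ∀ α β w, mo X α (mo X β w) = mo X β (mo X α w) := by
    intro α β w
    rw [← hM, ← hM, add_comm]
  have hsw : ∀ α β : Mn v δ, y (Fin.cons β (Fin.cons α t : Fin (p + 1) → Mn v δ)) =
      -y (Fin.cons α (Fin.cons β t : Fin (p + 1) → Mn v δ)) := by
    intro α β
    rw [VBB.cons_swap, hy, Equiv.Perm.sign_swap (by simp)]
    simp
  have key : bdF X (fun s => bdF X y s) t = -bdF X (fun s => bdF X y s) t := by
    unfold bdF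
    simp only [map_sum]
    conv_rhs => rw [Finset.sum_comm]
    rw [← Finset.sum_neg_distrib]
    refine Finset.sum_congr rfl fun α _ => ?_
    rw [← Finset.sum_neg_distrib]
    refine Finset.sum_congr rfl fun β _ => ?_
    rw [hsw, map_neg, map_neg, hcomm]
  have h2 : (2 : K) • bdF X (fun s => bdF X y s) t = 0 := by
    rw [two_smul]
    nth_rewrite 1 [key]
    exact neg_add_cancel _
  rcases smul_eq_zero.1 h2 with h | h
  · exact absurd h two_ne_zero
  · exact h

end Pool.Agent.VOP
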