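import Pool.Agent.VOP.StmtsV

/-!
# Module VBRM: from tuples of monomials to polynomials
-/

namespace Pool.Agent.VOP

open MvPolynomial Pool.Agent.VSY

namespace VBRM

variable {K : Type} [Field K] {A B : Type} {v : ℕ}

theorem dg_pow {δ : A → ℕ} {f : PX K A v} (hf : Dg δ f) (n : ℕ) :
    Dg (fun x => n * δ x) (f ^ n) := by
  induction n with
  | zero =>
    rw [pow_zero]
    simpa using (DG.one : Dg (fun _ => 0) (1 : PX K A v))
  | succ n ih =>
    have h := DG.mul ih hf
    rw [pow_succ]
    have h1 : (fun x => n * δ x + δ x) = fun x => (n + 1) * δ x := by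
      funext x
      ring
    rwa [h1] at h

theorem dg_prod {ι : Type} (s : Finset ι) (δ : ι → A → ℕ) (f : ι → PX K A v)
    (h : ∀ i ∈ s, Dg (δ i) (f i)) : Dg (fun x => ∑ i ∈ s, δ i x) (∏ i ∈ s, f i) := by
  classical
  induction s using Finset.induction_on with
  | empty =>
    rw [Finset.prod_empty]
    simpa using (DG.one : Dg (fun _ => 0) (1 : PX K A v))
  | insert a s ha ih =>
    rw [Finset.prod_insert ha]
    have h1 := DG.mul (h a (Finset.mem_insert_self _ _))
      (ih fun i hi => h i (Finset.mem_insert_of_mem hi))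
    have h2 : (fun x => δ a x + ∑ i ∈ s, δ i x) = fun x => ∑ i ∈ insert a s, δ i x := by
      funext x
      rw [Finset.sum_insert ha]
    rwa [h2] at h1

theorem dg_mc [DecidableEq A] {p : ℕ} (c : Fin p → A) (t : Fin p → Fin v → ℕ) :
    Dg (fun x => ∑ i, ∑ j, t i j * (Pi.single (c i) 1 : A → ℕ) x) (mc c t : PX K A v) :=
  dg_prod _ _ _ fun i _ => dg_prod _ _ _ fun j _ => dg_pow (DG.var (c i) j) (t i j)

theorem mn_sum {d : ℕ} (α : Mn v d) : ∑ j, α.1 j = d :=
  (Finset.mem_piAntidiag.1 α.2).1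

theorem mc_deg_mem [DecidableEq A] {p d : ℕ} {c : Fin p → A} (hc : Function.Injective c)
    (t : Fin p → Mn v d) (i : Fin p) :
    ∑ k, ∑ j, (t k).1 j * (Pi.single (c k) 1 : A → ℕ) (c i) = d := by
  rw [Finset.sum_eq_single i]
  · refine Eq.trans (Finset.sum_congr rfl fun j _ => ?_) (mn_sum (t i))
    rw [Pi.single_eq_same, mul_one]
  · intro k _ hk
    refine Finset.sum_eq_zero fun j _ => ?_
    rw [Pi.single_eq_of_ne (fun h => hk (hc h).symm), mul_zero]
  · intro h
    exact absurd (Finset.mem_univ _) h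

theorem mc_deg_notMem [DecidableEq A] {p d : ℕ} {c : Fin p → A}
    (t : Fin p → Mn v d) {x : A} (hx : ∀ i, c i ≠ x) :
    ∑ k, ∑ j, (t k).1 j * (Pi.single (c k) 1 : A → ℕ) x = 0 := by
  refine Finset.sum_eq_zero fun k _ => Finset.sum_eq_zero fun j _ => ?_
  rw [Pi.single_eq_of_ne (hx k).symm, mul_zero]

theorem ren_mc {p : ℕ} (φ : A → B) (c : Fin p → A) (t : Fin p → Fin v → ℕ) :
    ren φ (mc c t : PX K A v) = mc (φ ∘ c) t := by
  rw [mc, mc, map_prod]
  refine Finset.prod_congr rfl fun i _ => ?_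
  rw [map_prod]
  refine Finset.prod_congr rfl fun j _ => ?_
  rw [map_pow, ren_X]
  rfl

theorem mc_perm {p : ℕ} (c : Fin p → A) (σ : Equiv.Perm (Fin p)) (t : Fin p → Fin v → ℕ) :
    (mc (c ∘ σ) t : PX K A v) = mc c (t ∘ σ.symm) := by
  rw [mc, mc]
  refine Fintype.prod_equiv σ _ _ fun i => ?_
  rw [Function.comp_apply, Function.comp_apply, Equiv.symm_apply_apply]

theorem mc_succ {p : ℕ} (c : Fin (p + 1) → A) (t : Fin (p + 1) → Fin v → ℕ) :
    (mc c t : PX K A v) =
      (∏ j, X (c 0, j) ^ t 0 j) * mc (fun i => c i.succ) (fun i => t i.succ) := by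
  rw [mc, mc, Fin.prod_univ_succ]

/-- The new enumeration. -/
def nc {p : ℕ} (c : Fin p → A) : Fin (p + 1) → Option A :=
  Fin.cons none fun i => some (c i)

theorem nc_zero {p : ℕ} (c : Fin p → A) : nc c 0 = none := rfl

theorem nc_succ {p : ℕ} (c : Fin p → A) (i : Fin p) : nc c i.succ = some (c i) := rfl

theorem nc_inj {p : ℕ} {c : Fin p → A} (hc : Function.Injective c) :
    Function.Injective (nc c) := by
  intro i j
  refine Fin.cases ?_ (fun i => ?_) i <;> refine Fin.cases ?_ (fun j => ?_) j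
  · intro _
    rfl
  · intro h
    rw [nc_zero, nc_succ] at h
    cases h
  · intro h
    rw [nc_zero, nc_succ] at h
    cases h
  · intro h
    rw [nc_succ, nc_succ] at h
    rw [hc (Option.some.inj h)]

theorem nc_ne {p : ℕ} {c : Fin p → A} {x : A} (h : ∀ i, c i ≠ x) (i : Fin (p + 1)) :
    nc c i ≠ some x := by
  refine Fin.cases ?_ (fun i => ?_) i
  · rw [nc_zero]
    exact fun h => by cases h
  · rw [nc_succ]
    exact fun h1 => h i (Option.some.inj h1)

theorem nc_mem [DecidableEq A] {p : ℕ} {c : Fin p → A} {C : Finset A}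
    (h : ∀ x ∈ C, ∃ i, c i = x) {o : Option A} (ho : o ∈ isn C) : ∃ i, nc c i = o := by
  rw [isn, Finset.mem_insert] at ho
  rcases ho with rfl | ho
  · exact ⟨0, rfl⟩
  · rw [sm, Finset.mem_map] at ho
    obtain ⟨x, hx, rfl⟩ := ho
    obtain ⟨i, hi⟩ := h x hx
    refine ⟨i.succ, ?_⟩
    rw [nc_succ, hi]
    rfl

/-- The polynomial of a function on tuples. -/
noncomputable def G {p d : ℕ} (c : Fin p → A) (y : (Fin (p + 1) → Mn v d) → PX K A v) :
    PX K (Option A) v :=
  ∑ s : Fin (p + 1) → Mn v d, mc (nc c) (fun i => (s i).1) * ren some (y s)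

/-- The permutation of the points. -/
theorem perm_exists [Fintype A] [DecidableEq A] {p : ℕ} {c : Fin p → A}
    (hc : Function.Injective c) (σ : Equiv.Perm (Fin p)) :
    ∃ π : Equiv.Perm A, (∀ i, π (c i) = c (σ i)) ∧ (∀ x, (∀ i, c i ≠ x) → π x = x) ∧
      Equiv.Perm.sign π = Equiv.Perm.sign σ := by
  refine ⟨σ.extendDomain (Equiv.ofInjective c hc), fun i => ?_, fun x hx => ?_, ?_⟩
  · exact Equiv.Perm.extendDomain_apply_image σ (Equiv.ofInjective c hc) i
  · refine Equiv.Perm.extendDomain_apply_not_subtype σ (Equiv.ofInjective c hc) ?_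
    rintro ⟨i, hi⟩
    exact hx i hi
  · exact Equiv.Perm.sign_extendDomain σ _

theorem ren_G {p d : ℕ} (c : Fin p → A) (y : (Fin (p + 1) → Mn v d) → PX K A v)
    (ψ : Option A → Option B) (c' : Fin (p + 1) → Option B) (φ : A → B)
    (h1 : ∀ i, ψ (nc c i) = c' i) (h2 : ∀ s, ren (fun a => ψ (some a)) (y s) =
      ren (fun a => some (φ a)) (y s)) :
    ren ψ (G c y) = ∑ s : Fin (p + 1) → Mn v d,
      mc c' (fun i => (s i).1) * ren some (ren φ (y s)) := by
  rw [G, map_sum]
  refine Finset.sum_congr rfl fun s _ => ?_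
  rw [map_mul, ren_mc, ren_ren, ren_ren]
  have h3 : ψ ∘ nc c = c' := funext h1
  rw [h3]
  have h4 := h2 s
  rw [show (ψ ∘ some : A → Option B) = fun a => ψ (some a) from rfl, h4]
  rfl

theorem swap_some [DecidableEq A] (a b x : A) :
    Equiv.swap (some a) (some b) (some x) = some (Equiv.swap a b x) := by
  rw [Equiv.swap_apply_def, Equiv.swap_apply_def]
  by_cases h1 : x = a
  · rw [if_pos h1, if_pos (congrArg some h1)]
  · rw [if_neg h1, if_neg (fun h => h1 (Option.some.inj h))]
    by_cases h2 : x = b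
    · rw [if_pos h2, if_pos (congrArg some h2)]
    · rw [if_neg h2, if_neg (fun h => h2 (Option.some.inj h))]

theorem mv_some [DecidableEq A] (a b x : A) :
    mv (some a) (some b) (some x) = some (mv a b x) := by
  rw [mv, mv]
  by_cases h : x = a
  · subst h
    rw [Function.update_self, Function.update_self]
  · rw [Function.update_of_ne (fun h1 => h (Option.some.inj h1)), Function.update_of_ne h]
    rfl

theorem mem_sm [DecidableEq A] {S : Finset A} {o : Option A} (h : o ∈ sm S) :
    ∃ x ∈ S, some x = o := by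
  rw [sm, Finset.mem_map] at h
  exact h

theorem main [CharZero K] (h1 : SV_COE) (v N d s p e : ℕ)
    (h2 : ∀ (A : Type) [Fintype A] [DecidableEq A] (δ : A → ℕ) (T S : Finset A) (w : A),
      Disjoint T S → w ∉ T → w ∉ S → S.card = s → (∀ u ∈ S, δ u = N) →
      KE (wX (K := K) w) (ES (v := v) δ T S w) d p e) :
    MVB K v N d s p e := by
  intro A _ _ δ T S C w f hf hS hC hN hd hw hg hyS hyC
  -- enumeration
  obtain ⟨c, hc, hr1, hr2⟩ : ∃ c : Fin p → A, Function.Injective c ∧ (∀ i, c i ∈ C) ∧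
      ∀ x ∈ C, ∃ i, c i = x := by
    refine ⟨fun i => ((C.equivFin.symm (Fin.cast hC.symm i) : C) : A), ?_, ?_, ?_⟩
    · intro i j hij
      have h3 := Subtype.ext hij
      have h4 := C.equivFin.symm.injective h3
      exact Fin.cast_injective _ h4
    · intro i
      exact (C.equivFin.symm (Fin.cast hC.symm i)).2
    · intro x hx
      refine ⟨Fin.cast hC (C.equivFin ⟨x, hx⟩), ?_⟩
      have h3 : Fin.cast hC.symm (Fin.cast hC (C.equivFin ⟨x, hx⟩)) = C.equivFin ⟨x, hx⟩ := by
        ext
        rfl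
      show ((C.equivFin.symm (Fin.cast hC.symm (Fin.cast hC (C.equivFin ⟨x, hx⟩))) : C) : A) = x
      rw [h3, Equiv.symm_apply_apply]
  have hcw : ∀ i, c i ≠ w := fun i h => hf.wC (h ▸ hr1 i)
  have hcT : ∀ x ∈ T, ∀ i, c i ≠ x := fun x hx i h =>
    Finset.disjoint_left.1 hf.TC hx (h ▸ hr1 i)
  have hcS : ∀ x ∈ S, ∀ i, c i ≠ x := fun x hx i h =>
    Finset.disjoint_left.1 hf.SC hx (h ▸ hr1 i)
  have hcd : ∀ i, δ (c i) = d := fun i => hd _ (hr1 i)
  obtain ⟨co, co1, co2, -, co4, co5, co6, co7⟩ := h1 K A v p d c hc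
  set δ₀ : A → ℕ := fun x => if ∃ i, c i = x then 0 else δ x with hδ₀
  have hδ0 : ∀ i, δ₀ (c i) = 0 := fun i => if_pos ⟨i, rfl⟩
  have hδn : ∀ x, (∀ i, c i ≠ x) → δ₀ x = δ x := fun x hx =>
    if_neg fun ⟨i, hi⟩ => hx i hi
  have hδw : δ₀ w = e + d := by rw [hδn w hcw, hw]
  have hup : Function.update δ₀ w (e + d) = δ₀ := by
    rw [← hδw, Function.update_eq_self]
  set F : (Fin p → Mn v d) → PX K A v := fun t => co t f with hF
  -- the maps commute
  have hcom : ∀ (φ : A → A) (t : Fin p → Mn v d), (∀ i, φ (c i) = c i) →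
      (∀ x, (∀ i, c i ≠ x) → ∀ i, c i ≠ φ x) → co t (ren φ f) = ren φ (co t f) :=
    fun φ t h h' => co4 t δ f φ hg.dg hcd h h'
  have hsw : ∀ (x y : A), (∀ i, c i ≠ x) → (∀ i, c i ≠ y) → ∀ t,
      co t (ren (Equiv.swap x y) f) = ren (Equiv.swap x y) (co t f) := by
    intro x y hx hy t
    refine hcom _ t (fun i => Equiv.swap_apply_of_ne_of_ne (hx i) (hy i)) fun z hz i h => ?_
    have h3 : Equiv.swap x y (c i) = z := by rw [h, Equiv.swap_apply_self]
    rw [Equiv.swap_apply_of_ne_of_ne (hx i) (hy i)] at h3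
    exact hz i h3
  have hES : ∀ t, F t ∈ ES (K := K) (v := v) δ₀ T S w (e + d) := by
    intro t
    refine ⟨⟨?_, ?_, ?_⟩, ?_⟩
    · rw [hup]
      exact co1 t δ f hg.dg
    · intro x hx y hy
      have h3 := hsw x y (hcT x hx) (hcT y hy) t
      rw [hg.sy x hx y hy] at h3
      exact h3.symm
    · intro x hx y hy hxy
      have h3 := hsw x y (hcS x hx) (hcS y hy) t
      rw [hg.alS x hx y hy hxy, map_neg] at h3
      exact h3.symm
    · intro u hu
      have h3 : co t (ren (mv u w) f) = ren (mv u w) (co t f) := by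
        refine hcom _ t (fun i => ?_) fun x hx i => ?_
        · rw [mv, Function.update_of_ne (hcS u hu i)]
          rfl
        · rw [mv]
          by_cases hxu : x = u
          · rw [hxu, Function.update_self]
            exact hcw i
          · rw [Function.update_of_ne hxu]
            exact hx i
      rw [hyS u hu, map_zero] at h3
      exact h3.symm
  have hAlt : AltF F := by
    intro σ t
    obtain ⟨π, hπ1, hπ2, hπ3⟩ := perm_exists hc σ
    have h3 := co5 t δ f σ π hg.dg hcd hπ1 hπ2
    have h4 : π ∈ pS C := by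
      rw [SYM.mem_pS]
      intro x hx
      exact hπ2 x fun i hi => hx (hi ▸ hr1 i)
    rw [SYM.perm_al hg.alC h4, map_zsmul] at h3
    rw [hF]
    simp only
    rw [← h3, SYM.sg, hπ3]
  have hCyc : CycF (wX (K := K) w) F := by
    intro i t
    exact co6 t δ f i w hg.dg hcd hcw (hyC _ (hr1 i))
  obtain ⟨y, hy1, hy2, hy3⟩ := h2 A δ₀ T S w hf.TS hf.wT hf.wS hS
    (fun u hu => by rw [hδn u (hcS u hu)]; exact hN u hu) F hAlt hES hCyc
  have hyd : ∀ s, Dg (Function.update δ₀ w e) (y s) := fun s => (hy2 s).1.1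
  refine ⟨G c y, ⟨?_, ?_, ?_, ?_⟩, ?_, ?_⟩
  · -- degrees
    refine DG.sum _ _ fun s _ => ?_
    have h3 := DG.mul (dg_mc (K := K) (nc c) fun i => (s i).1)
      (DG.ren_push (Function.update δ₀ w e) (some : A → Option A) (y s) (hyd s))
    have h4 : (fun x => ∑ i, ∑ j, (s i).1 j * (Pi.single (nc c i) 1 : Option A → ℕ) x +
        ∑ a ∈ Finset.univ.filter (fun a => some a = x), Function.update δ₀ w e a) =
        ext δ d w e := by
      funext x
      cases x with
      | none =>
        have h5 := mc_deg_mem (nc_inj hc) s 0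
        rw [nc_zero] at h5
        rw [h5]
        have h6 : (Finset.univ.filter fun a : A => some a = none) = ∅ := by
          refine Finset.filter_eq_empty_iff.2 fun a _ h => ?_
          cases h
        rw [h6, Finset.sum_empty]
        rfl
      | some x =>
        have h6 : (Finset.univ.filter fun a : A => some a = some x) = {x} := by
          ext a
          rw [Finset.mem_filter, Finset.mem_singleton]
          exact ⟨fun h => Option.some.inj h.2, fun h => ⟨Finset.mem_univ _, congrArg some h⟩⟩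
        rw [h6, Finset.sum_singleton]
        by_cases hx : ∃ i, c i = x
        · obtain ⟨i, rfl⟩ := hx
          have h5 := mc_deg_mem (nc_inj hc) s i.succ
          rw [nc_succ] at h5
          rw [h5, Function.update_of_ne (hcw i), hδ0, add_zero]
          show d = if c i = w then e else δ (c i)
          rw [if_neg (hcw i), hcd]
        · push Not at hx
          rw [mc_deg_notMem s (nc_ne hx), zero_add]
          show _ = if x = w then e else δ x
          by_cases hxw : x = w
          · rw [if_pos hxw, hxw, Function.update_self]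
          · rw [if_neg hxw, Function.update_of_ne hxw, hδn x hx]
    rwa [h4] at h3
  · -- symmetric
    intro x hx z hz
    obtain ⟨a, ha, rfl⟩ := mem_sm hx
    obtain ⟨b, hb, rfl⟩ := mem_sm hz
    rw [ren_G c y _ (nc c) (Equiv.swap a b)]
    · rw [G]
      refine Finset.sum_congr rfl fun s _ => ?_
      rw [(hy2 s).1.2.1 a ha b hb]
    · intro i
      exact Equiv.swap_apply_of_ne_of_ne (nc_ne (hcT a ha) i) (nc_ne (hcT b hb) i)
    · intro s
      exact ren_congr (fun x => swap_some a b x) _
  · -- alternating in `S`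
    intro x hx z hz hxz
    obtain ⟨a, ha, rfl⟩ := mem_sm hx
    obtain ⟨b, hb, rfl⟩ := mem_sm hz
    have hab : a ≠ b := fun h => hxz (congrArg some h)
    rw [ren_G c y _ (nc c) (Equiv.swap a b)]
    · rw [G, ← Finset.sum_neg_distrib]
      refine Finset.sum_congr rfl fun s _ => ?_
      rw [(hy2 s).1.2.2 a ha b hb hab, map_neg, mul_neg]
    · intro i
      exact Equiv.swap_apply_of_ne_of_ne (nc_ne (hcS a ha) i) (nc_ne (hcS b hb) i)
    · intro s
      exact ren_congr (fun x => swap_some a b x) _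
  · -- alternating in `C`
    intro x hx z hz hxz
    obtain ⟨i, rfl⟩ := nc_mem hr2 hx
    obtain ⟨j, rfl⟩ := nc_mem hr2 hz
    have hij : i ≠ j := fun h => hxz (by rw [h])
    rw [ren_G c y _ (nc c ∘ Equiv.swap i j) id]
    · rw [G, ← Finset.sum_neg_distrib]
      refine Fintype.sum_equiv ((Equiv.swap i j).arrowCongr (Equiv.refl (Mn v d))) _ _
        fun s => ?_
      rw [ren_id, mc_perm]
      have h3 : ((Equiv.swap i j).arrowCongr (Equiv.refl (Mn v d))) s = s ∘ Equiv.swap i j := by
        funext k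
        rfl
      rw [h3, hy1 (Equiv.swap i j) s, Equiv.Perm.sign_swap hij]
      rw [Units.val_neg, Units.val_one, neg_smul, one_smul, map_neg, mul_neg, neg_neg]
      rfl
    · intro k
      rw [Function.comp_apply, Equiv.swap_apply_def, Equiv.swap_apply_def]
      by_cases h3 : k = i
      · rw [if_pos h3, if_pos (by rw [h3])]
      · rw [if_neg h3, if_neg (fun h => h3 (nc_inj hc h))]
        by_cases h4 : k = j
        · rw [if_pos h4, if_pos (by rw [h4])]
        · rw [if_neg h4, if_neg (fun h => h4 (nc_inj hc h))]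
    · intro s
      refine DG.ren_eq _ _ _ _ (fun x hx => ?_) (hyd s)
      have h3 : ∀ k, c k ≠ x := by
        rintro k rfl
        rw [Function.update_of_ne (hcw k), hδ0] at hx
        exact hx rfl
      exact Equiv.swap_apply_of_ne_of_ne (nc_ne h3 i).symm (nc_ne h3 j).symm
  · -- cycle
    intro x hx
    obtain ⟨a, ha, rfl⟩ := mem_sm hx
    rw [ren_G c y _ (nc c) (mv a w)]
    · refine Finset.sum_eq_zero fun s _ => ?_
      rw [(hy2 s).2 a ha, map_zero, mul_zero]
    · intro i
      rw [mv, Function.update_of_ne (nc_ne (hcS a ha) i)]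
      rfl
    · intro s
      exact ren_congr (fun x => mv_some a w x) _
  · -- the value
    have h3 : rn w (G c y) = ∑ s : Fin (p + 1) → Mn v d,
        (∏ j, X (w, j) ^ (s 0).1 j) * mc c (fun i => (s i.succ).1) * y s := by
      rw [rn, G, map_sum]
      refine Finset.sum_congr rfl fun s _ => ?_
      rw [map_mul, ren_mc, ren_ren, mc_succ]
      have h4 : ren ((fun o : Option A => o.getD w) ∘ some) (y s) = y s := by
        have h5 := ren_id (y s)
        exact h5
      rw [h4]
      rfl
    rw [h3]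
    have h4 : (∑ s : Fin (p + 1) → Mn v d,
        (∏ j, X (w, j) ^ (s 0).1 j) * mc c (fun i => (s i.succ).1) * y s : PX K A v) =
        ∑ x : Mn v d × (Fin p → Mn v d),
          (∏ j, X (w, j) ^ x.1.1 j) * mc c (fun i => (x.2 i).1) * y (Fin.cons x.1 x.2) := by
      refine (Fintype.sum_equiv (Fin.consEquiv fun _ => Mn v d) _ _ fun x => ?_).symm
      rfl
    rw [h4, Fintype.sum_prod_type_right]
    have h5 : ∀ t : Fin p → Mn v d, (∑ α : Mn v d,
        (∏ j, X (w, j) ^ α.1 j) * mc c (fun i => (t i).1) * y (Fin.cons α t) : PX K A v) =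
        mc c (fun i => (t i).1) * co t f := by
      intro t
      have h6 := hy3 t
      rw [bdF] at h6
      have h7 : F t = co t f := rfl
      rw [← h7, ← h6, Finset.mul_sum]
      refine Finset.sum_congr rfl fun α _ => ?_
      rw [co7]
      ring
    rw [Finset.sum_congr rfl fun t _ => h5 t]
    exact (co2 δ f hg.dg hcd).symm

end VBRM

theorem t_VBRM (h1 : SV_COE) : SV_BRM := by
  intro K _ _ v N d s p e h2
  exact VBRM.main h1 v N d s p e h2

end Pool.Agent.VOP
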