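import Pool.Agent.VOP.StmtsV

/-!
# The Ottaviani-Paoletti conjecture (MP_deb8da_ag): coefficients at given points
-/

namespace Pool.Agent.VOP

open MvPolynomial Pool.Agent.VSY

namespace VCOE

variable {K : Type} [Field K] {A : Type} [Fintype A] [DecidableEq A] {v p d : ℕ}

/-- the exponent of `mc c t` -/
noncomputable def tau (c : Fin p → A) (t : Fin p → Fin v → ℕ) : A × Fin v →₀ ℕ :=
  ∑ i, ∑ j, Finsupp.single (c i, j) (t i j)

omit [Fintype A] [DecidableEq A] in
theorem mc_eq (c : Fin p → A) (t : Fin p → Fin v → ℕ) :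
    (mc c t : PX K A v) = monomial (tau c t) 1 := by
  unfold mc tau
  rw [monomial_sum_one]
  refine Finset.prod_congr rfl fun i _ => ?_
  rw [monomial_sum_one]
  refine Finset.prod_congr rfl fun j _ => ?_
  rw [X_pow_eq_monomial]

omit [Fintype A] in
theorem tau_in (c : Fin p → A) (hc : Function.Injective c) (t : Fin p → Fin v → ℕ) (i : Fin p)
    (j : Fin v) : tau c t (c i, j) = t i j := by
  unfold tau
  rw [Finsupp.finsetSum_apply, Finset.sum_eq_single i]
  · rw [Finsupp.finsetSum_apply, Finset.sum_eq_single j]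
    · rw [Finsupp.single_eq_same]
    · intro j' _ hj
      rw [Finsupp.single_apply, if_neg]
      intro h
      exact hj (Prod.ext_iff.1 h).2
    · intro h
      exact absurd (Finset.mem_univ _) h
  · intro i' _ hi
    rw [Finsupp.finsetSum_apply]
    refine Finset.sum_eq_zero fun j' _ => ?_
    rw [Finsupp.single_apply, if_neg]
    intro h
    exact hi (hc (Prod.ext_iff.1 h).1)
  · intro h
    exact absurd (Finset.mem_univ _) h

omit [Fintype A] in
theorem tau_out (c : Fin p → A) (t : Fin p → Fin v → ℕ) (x : A) (hx : ∀ i, c i ≠ x)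
    (j : Fin v) : tau c t (x, j) = 0 := by
  unfold tau
  rw [Finsupp.finsetSum_apply]
  refine Finset.sum_eq_zero fun i _ => ?_
  rw [Finsupp.finsetSum_apply]
  refine Finset.sum_eq_zero fun j' _ => ?_
  rw [Finsupp.single_apply, if_neg]
  intro h
  exact hx i (Prod.ext_iff.1 h).1

open Classical in
/-- the coefficient -/
noncomputable def co (c : Fin p → A) (t : Fin p → Fin v → ℕ) : PX K A v →ₗ[K] PX K A v :=
  (basisMonomials (A × Fin v) K).constr K fun m =>
    if ∀ i j, m (c i, j) = t i j then monomial (m - tau c t) 1 else 0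

/-- no point of `c` -/
def Out (c : Fin p → A) (μ : A × Fin v →₀ ℕ) : Prop := ∀ i j, μ (c i, j) = 0

omit [Fintype A] in
theorem pred_iff (c : Fin p → A) (hc : Function.Injective c) (t : Fin p → Fin v → ℕ)
    (m μ : A × Fin v →₀ ℕ) :
    ((∀ i j, m (c i, j) = t i j) ∧ m - tau c t = μ) ↔ (Out c μ ∧ μ + tau c t = m) := by
  constructor
  · rintro ⟨h1, rfl⟩
    refine ⟨fun i j => ?_, ?_⟩
    · rw [Finsupp.tsub_apply, tau_in c hc, h1, Nat.sub_self]
    · refine tsub_add_cancel_of_le fun y => ?_
      obtain ⟨x, j⟩ := y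
      by_cases hx : ∃ i, c i = x
      · obtain ⟨i, rfl⟩ := hx
        rw [tau_in c hc, h1]
      · push Not at hx
        rw [tau_out c t x hx]
        exact Nat.zero_le _
  · rintro ⟨h1, rfl⟩
    refine ⟨fun i j => ?_, ?_⟩
    · rw [Finsupp.add_apply, h1, tau_in c hc, zero_add]
    · rw [add_tsub_cancel_right]

open Classical in
omit [Fintype A] in
theorem coeff_co (c : Fin p → A) (hc : Function.Injective c) (t : Fin p → Fin v → ℕ)
    (f : PX K A v) (μ : A × Fin v →₀ ℕ) :
    coeff μ (co c t f) = if Out c μ then coeff (μ + tau c t) f else 0 := by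
  induction f using MvPolynomial.induction_on' with
  | monomial m a =>
    have h1 : (monomial m a : PX K A v) = a • basisMonomials (A × Fin v) K m := by
      rw [coe_basisMonomials, smul_monomial, smul_eq_mul, mul_one]
    have h2 : co c t (monomial m a : PX K A v) =
        a • (if ∀ i j, m (c i, j) = t i j then monomial (m - tau c t) (1 : K) else 0) := by
      rw [h1, map_smul]
      unfold co
      rw [Module.Basis.constr_basis]
    rw [h2, coeff_smul, coeff_monomial, smul_eq_mul]
    have h3 := pred_iff c hc t m μ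
    by_cases ha : ∀ i j, m (c i, j) = t i j
    · rw [if_pos ha, coeff_monomial]
      by_cases hb : m - tau c t = μ
      · obtain ⟨h4, h5⟩ := h3.1 ⟨ha, hb⟩
        rw [if_pos hb, if_pos h4, if_pos h5.symm, mul_one]
      · rw [if_neg hb, mul_zero]
        by_cases h4 : Out c μ
        · rw [if_pos h4, if_neg]
          intro h5
          exact hb (h3.2 ⟨h4, h5.symm⟩).2
        · rw [if_neg h4]
    · rw [if_neg ha, coeff_zero, mul_zero]
      by_cases h4 : Out c μ
      · rw [if_pos h4, if_neg]
        intro h5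
        exact ha (h3.2 ⟨h4, h5.symm⟩).1
      · rw [if_neg h4]
  | add f g hf hg =>
    rw [map_add, coeff_add, hf, hg]
    split_ifs
    · rw [coeff_add]
    · rw [add_zero]

omit [Fintype A] in
/-- item 1 -/
theorem dg_co (c : Fin p → A) (hc : Function.Injective c) (t : Fin p → Fin v → ℕ) (δ : A → ℕ)
    (f : PX K A v) (hf : Dg δ f) :
    Dg (fun x => if ∃ i, c i = x then 0 else δ x) (co c t f) := by
  classical
  intro μ hμ x
  rw [mem_support_iff, coeff_co c hc] at hμ
  have hO : Out c μ := by
    by_contra h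
    rw [if_neg h] at hμ
    exact hμ rfl
  rw [if_pos hO] at hμ
  by_cases hx : ∃ i, c i = x
  · obtain ⟨i, rfl⟩ := hx
    dsimp only
    rw [if_pos ⟨i, rfl⟩]
    exact Finset.sum_eq_zero fun j _ => hO i j
  · dsimp only
    rw [if_neg hx]
    push Not at hx
    have h1 := hf _ (mem_support_iff.2 hμ) x
    rw [← h1]
    refine Finset.sum_congr rfl fun j _ => ?_
    rw [Finsupp.add_apply, tau_out c t x hx, add_zero]

omit [Fintype A] in
/-- item 2 -/
theorem expand (c : Fin p → A) (hc : Function.Injective c) (δ : A → ℕ) (f : PX K A v)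
    (hf : Dg δ f) (hd : ∀ i, δ (c i) = d) :
    f = ∑ t : Fin p → Mn v d, mc c (fun i => (t i).1) * co c (fun i => (t i).1) f := by
  classical
  ext m
  rw [coeff_sum]
  have h1 : ∀ t : Fin p → Mn v d, coeff m (mc c (fun i => (t i).1) *
      co c (fun i => (t i).1) f) =
      if ∀ i j, m (c i, j) = (t i).1 j then coeff m f else 0 := by
    intro t
    rw [mc_eq, coeff_monomial_mul', coeff_co c hc, one_mul]
    have h3 := pred_iff c hc (fun i => (t i).1) m (m - tau c fun i => (t i).1)
    by_cases ha : ∀ i j, m (c i, j) = (t i).1 j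
    · obtain ⟨h4, h5⟩ := h3.1 ⟨ha, rfl⟩
      rw [if_pos ha, if_pos h4, h5, if_pos]
      rw [← h5]
      exact le_add_self
    · rw [if_neg ha]
      by_cases h6 : (tau c fun i => (t i).1) ≤ m
      · rw [if_pos h6, if_neg]
        intro h4
        exact ha (h3.2 ⟨h4, tsub_add_cancel_of_le h6⟩).1
      · rw [if_neg h6]
  simp only [h1]
  by_cases hm : m ∈ f.support
  · have h2 : ∀ i, (fun j => m (c i, j)) ∈
        Finset.piAntidiag (Finset.univ : Finset (Fin v)) d := by
      intro i
      rw [Finset.mem_piAntidiag]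
      exact ⟨by rw [← hd i]; exact hf m hm (c i), fun j _ => Finset.mem_univ j⟩
    rw [Finset.sum_eq_single (fun i => (⟨fun j => m (c i, j), h2 i⟩ : Mn v d))]
    · rw [if_pos]
      intro i j
      rfl
    · intro t _ ht
      rw [if_neg]
      intro h
      apply ht
      funext i
      apply Subtype.ext
      funext j
      exact (h i j).symm
    · intro h
      exact absurd (Finset.mem_univ _) h
  · rw [notMem_support_iff] at hm
    rw [hm]
    exact (Finset.sum_eq_zero fun t _ => by split_ifs <;> rfl).symm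

omit [Fintype A] [DecidableEq A] in
theorem out_of_dg (c : Fin p → A) (δ : A → ℕ) (g : PX K A v) (hg : Dg δ g)
    (hd : ∀ i, δ (c i) = 0) (μ : A × Fin v →₀ ℕ) (hμ : ¬ Out c μ) : coeff μ g = 0 := by
  by_contra h
  apply hμ
  intro i j
  have h1 := hg μ (mem_support_iff.2 h) (c i)
  rw [hd i] at h1
  exact (Finset.sum_eq_zero_iff.1 h1) j (Finset.mem_univ j)

omit [Fintype A] in
/-- item 3 -/
theorem co_mul (c : Fin p → A) (hc : Function.Injective c) (t s : Fin p → Mn v d)
    (g : PX K A v) (hout : ∀ μ, ¬ Out c μ → coeff μ g = 0) :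
    co c (fun i => (t i).1) (mc c (fun i => (s i).1) * g) = if t = s then g else 0 := by
  classical
  ext μ
  rw [coeff_co c hc, mc_eq, coeff_monomial_mul', one_mul]
  by_cases hts : t = s
  · subst hts
    rw [if_pos rfl]
    by_cases hO : Out c μ
    · rw [if_pos hO, if_pos le_add_self, add_tsub_cancel_right]
    · rw [if_neg hO, hout μ hO]
  · rw [if_neg hts, coeff_zero]
    by_cases hO : Out c μ
    · rw [if_pos hO, if_neg]
      intro hle
      apply hts
      funext i
      apply Subtype.ext
      have h1 : ∀ j, (s i).1 j ≤ (t i).1 j := by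
        intro j
        have h2 := hle (c i, j)
        rw [tau_in c hc, Finsupp.add_apply, hO i j, tau_in c hc, zero_add] at h2
        exact h2
      have h3 : ∑ j, (s i).1 j = ∑ j, (t i).1 j := by
        rw [(Finset.mem_piAntidiag.1 (s i).2).1, (Finset.mem_piAntidiag.1 (t i).2).1]
      funext j
      exact (((Finset.sum_eq_sum_iff_of_le fun j _ => h1 j).1 h3) j (Finset.mem_univ j)).symm
    · rw [if_neg hO]

omit [Fintype A] [DecidableEq A] in
theorem ren_mc (φ : A → A) (c : Fin p → A) (s : Fin p → Fin v → ℕ) :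
    ren φ (mc c s : PX K A v) = mc (fun i => φ (c i)) s := by
  unfold mc
  rw [map_prod]
  refine Finset.prod_congr rfl fun i _ => ?_
  rw [map_prod]
  refine Finset.prod_congr rfl fun j _ => ?_
  rw [map_pow, ren_X]

omit [Fintype A] in
theorem ren_expand (c : Fin p → A) (hc : Function.Injective c) (δ : A → ℕ) (f : PX K A v)
    (hf : Dg δ f) (hd : ∀ i, δ (c i) = d) (φ : A → A) :
    ren φ f = ∑ s : Fin p → Mn v d, mc (fun i => φ (c i)) (fun i => (s i).1) *
      ren φ (co c (fun i => (s i).1) f) := by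
  conv_lhs => rw [expand c hc δ f hf hd]
  rw [map_sum]
  refine Finset.sum_congr rfl fun s _ => ?_
  rw [map_mul, ren_mc]

/-- item 4 -/
theorem item4 (c : Fin p → A) (hc : Function.Injective c) (t : Fin p → Mn v d) (δ : A → ℕ)
    (f : PX K A v) (φ : A → A) (hf : Dg δ f) (hd : ∀ i, δ (c i) = d) (h1 : ∀ i, φ (c i) = c i)
    (h2 : ∀ x, (∀ i, c i ≠ x) → ∀ i, c i ≠ φ x) :
    co c (fun i => (t i).1) (ren φ f) = ren φ (co c (fun i => (t i).1) f) := by
  classical
  have h3 : ∀ s : Fin p → Mn v d, ∀ μ, ¬ Out c μ →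
      coeff μ (ren φ (co c (fun i => (s i).1) f)) = 0 := by
    intro s
    refine out_of_dg c _ _ ((DG_thm K A A v).2.2.2.2.2.2.2.1 _ φ _
      (dg_co c hc (fun i => (s i).1) δ f hf)) ?_
    intro i
    refine Finset.sum_eq_zero fun a ha => ?_
    rw [Finset.mem_filter] at ha
    rw [if_pos]
    by_contra h4
    push Not at h4
    exact h2 a h4 i ha.2.symm
  rw [ren_expand c hc δ f hf hd φ, map_sum]
  have h5 : (fun i => φ (c i)) = c := funext h1
  rw [h5, Finset.sum_congr rfl fun s _ => co_mul c hc t s _ (h3 s), Finset.sum_ite_eq,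
    if_pos (Finset.mem_univ _)]

/-- `co` does not involve the points of `c` -/
theorem ren_co (c : Fin p → A) (hc : Function.Injective c) (t : Fin p → Fin v → ℕ) (δ : A → ℕ)
    (f : PX K A v) (φ : A → A) (hf : Dg δ f) (h : ∀ x, (∀ i, c i ≠ x) → φ x = x) :
    ren φ (co c t f) = co c t f := by
  classical
  have h1 := (DG_thm K A A v).2.2.2.2.2.2.2.2.2.1 _ φ id (co c t f) ?_ (dg_co c hc t δ f hf)
  · rw [h1, ren_id]
  · intro x hx
    have h2 : ∀ i, c i ≠ x := by
      intro i hi
      apply hx
      rw [if_pos ⟨i, hi⟩]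
    rw [h x h2]
    rfl

omit [Fintype A] [DecidableEq A] in
theorem mc_perm (c : Fin p → A) (s : Fin p → Fin v → ℕ) (σ : Equiv.Perm (Fin p)) :
    (mc (fun i => c (σ i)) s : PX K A v) = mc c (s ∘ σ.symm) := by
  unfold mc
  rw [← Equiv.prod_comp σ fun i => ∏ j, X (c i, j) ^ (s ∘ σ.symm) i j]
  refine Finset.prod_congr rfl fun i _ => ?_
  refine Finset.prod_congr rfl fun j _ => ?_
  rw [Function.comp_apply, Equiv.symm_apply_apply]

/-- item 5 -/
theorem item5 (c : Fin p → A) (hc : Function.Injective c) (t : Fin p → Mn v d) (δ : A → ℕ)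
    (f : PX K A v) (σ : Equiv.Perm (Fin p)) (π : Equiv.Perm A) (hf : Dg δ f)
    (hd : ∀ i, δ (c i) = d) (h1 : ∀ i, π (c i) = c (σ i))
    (h2 : ∀ x, (∀ i, c i ≠ x) → π x = x) :
    co c (fun i => (t i).1) (ren π f) = co c (fun i => ((t ∘ σ) i).1) f := by
  classical
  rw [ren_expand c hc δ f hf hd π, map_sum]
  have h5 : (fun i => π (c i)) = fun i => c (σ i) := funext h1
  have h6 : ∀ s : Fin p → Mn v d,
      co c (fun i => (t i).1) (mc (fun i => π (c i)) (fun i => (s i).1) *
        ren π (co c (fun i => (s i).1) f)) =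
      if t ∘ σ = s then co c (fun i => (s i).1) f else 0 := by
    intro s
    rw [h5, mc_perm, ren_co c hc _ δ f π hf h2]
    have h7 := co_mul c hc t (s ∘ σ.symm) (co c (fun i => (s i).1) f)
      (out_of_dg c _ _ (dg_co c hc (fun i => (s i).1) δ f hf) (fun i => if_pos ⟨i, rfl⟩))
    have h8 : ((fun i => (s i).1) ∘ σ.symm : Fin p → Fin v → ℕ) =
        fun i => ((s ∘ σ.symm) i).1 := rfl
    rw [h8, h7]
    have h9 : t = s ∘ σ.symm ↔ t ∘ σ = s := by
      constructor
      · rintro rfl
        funext i
        simp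
      · rintro rfl
        funext i
        simp
    by_cases h : t ∘ σ = s
    · rw [if_pos h, if_pos (h9.2 h)]
    · rw [if_neg h, if_neg fun h' => h (h9.1 h')]
  rw [Finset.sum_congr rfl fun s _ => h6 s, Finset.sum_ite_eq, if_pos (Finset.mem_univ _)]

omit [Fintype A] [DecidableEq A] in
/-- item 7 -/
theorem item7 (w : A) (α : Fin v → ℕ) (f : PX K A v) :
    mo (wX w) α f = (∏ j, X (w, j) ^ α j) * f := by
  have h1 : ∀ L : List (Fin v), ((L.map fun i =>
      (wX (K := K) w i : Module.End K (PX K A v)) ^ α i).prod) =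
      LinearMap.mulLeft K ((L.map fun i => (X (w, i) : PX K A v) ^ α i).prod) := by
    intro L
    induction L with
    | nil =>
      ext x
      simp
    | cons a L ih =>
      rw [List.map_cons, List.prod_cons, ih, List.map_cons, List.prod_cons]
      unfold wX
      rw [LinearMap.pow_mulLeft, LinearMap.mulLeft_mul]
      rfl
  unfold mo
  rw [h1, Fin.prod_univ_def]
  rfl

/-- item 6 -/
theorem item6 (c : Fin p → A) (hc : Function.Injective c) (t : Fin p → Mn v d) (δ : A → ℕ)
    (f : PX K A v) (i : Fin p) (w : A) (hf : Dg δ f) (hd : ∀ i, δ (c i) = d)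
    (hw : ∀ i, c i ≠ w) (h0 : ren (mv (c i) w) f = 0) :
    ∑ α : Mn v d, mo (wX w) α.1 (co c (fun i' => (Function.update t i α i').1) f) = 0 := by
  classical
  have hmv : ∀ i', i' ≠ i → mv (c i) w (c i') = c i' := by
    intro i' hi'
    unfold mv
    rw [Function.update_of_ne fun h => hi' (hc h)]
    rfl
  have hmvi : mv (c i) w (c i) = w := by
    unfold mv
    rw [Function.update_self]
  have hmvx : ∀ x, (∀ i', c i' ≠ x) → mv (c i) w x = x := by
    intro x hx
    unfold mv
    rw [Function.update_of_ne (hx i).symm]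
    rfl
  -- the terms
  have key : ∀ s : Fin p → Mn v d,
      (∏ j, X (c i, j) ^ (t i).1 j : PX K A v) *
        (mc (fun i' => mv (c i) w (c i')) (fun i' => (s i').1) *
          ren (mv (c i) w) (co c (fun i' => (s i').1) f)) =
      mc c (fun i' => (Function.update s i (t i) i').1) *
        (mo (wX w) (s i).1 (co c (fun i' => (s i').1) f)) := by
    intro s
    rw [item7, ren_co c hc _ δ f _ hf hmvx]
    unfold mc
    rw [← Finset.mul_prod_erase Finset.univ _ (Finset.mem_univ i),
      ← Finset.mul_prod_erase Finset.univ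
        (fun i' => ∏ j, X (c i', j) ^ (Function.update s i (t i) i').1 j) (Finset.mem_univ i)]
    dsimp only
    rw [hmvi, Function.update_self]
    have h1 : ∏ i' ∈ Finset.univ.erase i,
        ∏ j, (X (mv (c i) w (c i'), j) : PX K A v) ^ (s i').1 j =
        ∏ i' ∈ Finset.univ.erase i,
          ∏ j, X (c i', j) ^ (Function.update s i (t i) i').1 j := by
      refine Finset.prod_congr rfl fun i' hi' => ?_
      rw [Finset.mem_erase] at hi'
      rw [hmv i' hi'.1, Function.update_of_ne hi'.1]
    rw [h1]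
    ring
  have h1 := ren_expand c hc δ f hf hd (mv (c i) w)
  rw [h0] at h1
  have h2 : (0 : PX K A v) = ∑ s : Fin p → Mn v d,
      mc c (fun i' => (Function.update s i (t i) i').1) *
        (mo (wX w) (s i).1 (co c (fun i' => (s i').1) f)) := by
    rw [← Finset.sum_congr rfl fun s _ => key s, ← Finset.mul_sum, ← h1, mul_zero]
  have h3 := congrArg (co c fun i' => (t i').1) h2
  rw [map_zero, map_sum] at h3
  have h4 : ∀ s : Fin p → Mn v d,
      co c (fun i' => (t i').1) (mc c (fun i' => (Function.update s i (t i) i').1) *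
        (mo (wX w) (s i).1 (co c (fun i' => (s i').1) f))) =
      if t = Function.update s i (t i) then
        mo (wX w) (s i).1 (co c (fun i' => (s i').1) f) else 0 := by
    intro s
    refine co_mul c hc t (Function.update s i (t i)) _ ?_
    intro μ hμ
    have h5 : (mo (wX w) (s i).1 (co c (fun i' => (s i').1) f) : PX K A v) =
        monomial (tau (fun _ : Fin 1 => w) fun _ => (s i).1) 1 *
          co c (fun i' => (s i').1) f := by
      rw [item7, ← mc_eq]
      unfold mc
      rw [Fin.prod_univ_one]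
    rw [h5, coeff_monomial_mul', one_mul]
    split_ifs
    · rw [coeff_co c hc, if_neg]
      intro h6
      apply hμ
      intro i' j
      have h7 := h6 i' j
      rw [Finsupp.tsub_apply, tau_out (fun _ : Fin 1 => w) _ (c i')
        (fun _ h => hw i' h.symm), Nat.sub_zero] at h7
      exact h7
    · rfl
  rw [Finset.sum_congr rfl fun s _ => h4 s, ← Finset.sum_filter] at h3
  rw [h3]
  refine Finset.sum_bij' (fun α _ => Function.update t i α) (fun s _ => s i) ?_ ?_ ?_ ?_ ?_
  · intro α _
    rw [Finset.mem_filter]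
    refine ⟨Finset.mem_univ _, ?_⟩
    rw [Function.update_idem, Function.update_eq_self]
  · intro s _
    exact Finset.mem_univ _
  · intro α _
    rw [Function.update_self]
  · intro s hs
    rw [Finset.mem_filter] at hs
    rw [hs.2, Function.update_idem, Function.update_eq_self]
  · intro α _
    rw [Function.update_self]

end VCOE

theorem t_VCOE : SV_COE := by
  intro K _ A _ _ v p d c hc
  refine ⟨fun t => VCOE.co c fun i => (t i).1,
    fun t δ f hf => VCOE.dg_co c hc _ δ f hf,
    fun δ f hf hd => VCOE.expand c hc δ f hf hd,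
    fun t s δ g hg hd => ?_,
    fun t δ f φ hf hd h1 h2 => VCOE.item4 c hc t δ f φ hf hd h1 h2,
    fun t δ f σ π hf hd h1 h2 => VCOE.item5 c hc t δ f σ π hf hd h1 h2,
    fun t δ f i w hf hd hw h0 => VCOE.item6 c hc t δ f i w hf hd hw h0,
    fun w α f => VCOE.item7 w α f⟩
  rw [VCOE.co_mul c hc t s g (VCOE.out_of_dg c δ g hg hd)]

end Pool.Agent.VOP
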