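import Pool.Agent.VOP.StmtsV

/-!
# The Ottaviani-Paoletti conjecture: module VCYC
-/

namespace Pool.Agent.VOP

open MvPolynomial Pool.Agent.VSY

namespace VCYC

theorem upd {M : Type} {p : ℕ} (t : Fin (p + 1) → M) (i : Fin (p + 1)) (α : M) :
    Function.update t i α ∘ (Equiv.swap 0 i) =
      (Fin.cons α (Fin.tail (t ∘ Equiv.swap 0 i)) : Fin (p + 1) → M) := by
  rw [Function.update_comp_equiv, Equiv.symm_swap, Equiv.swap_apply_right]
  have h : (t ∘ Equiv.swap 0 i) = (Fin.cons ((t ∘ Equiv.swap 0 i) 0)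
      (Fin.tail (t ∘ Equiv.swap 0 i)) : Fin (p + 1) → M) := (Fin.cons_self_tail _).symm
  conv_lhs => rw [h]
  rw [Fin.update_cons_zero]

end VCYC

theorem t_VCYC : SV_CYC := by
  intro K _ v W _ _ X δ p c hc
  constructor
  · intro h t
    rw [bdF]
    by_cases hne : Nonempty (Mn v δ)
    · obtain ⟨α₀⟩ := hne
      have h1 := h 0 (Fin.cons α₀ t)
      simpa only [Fin.update_cons_zero] using h1
    · rw [not_nonempty_iff] at hne
      exact Finset.sum_eq_zero fun α _ => (hne.false α).elim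
  · intro h i t
    have h1 : ∀ α : Mn v δ, mo X α.1 (c (Function.update t i α)) =
        ((Equiv.Perm.sign (Equiv.swap 0 i) : ℤˣ) : ℤ) •
          mo X α.1 (c (Fin.cons α (Fin.tail (t ∘ Equiv.swap 0 i)))) := by
      intro α
      have h2 := hc (Equiv.swap 0 i) (Function.update t i α)
      rw [VCYC.upd] at h2
      rw [h2, map_zsmul, smul_smul]
      rw [← Units.val_mul, Int.units_mul_self, Units.val_one, one_smul]
    rw [Finset.sum_congr rfl fun α _ => h1 α, ← Finset.smul_sum]
    have h3 := h (Fin.tail (t ∘ Equiv.swap 0 i))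
    rw [bdF] at h3
    rw [h3, smul_zero]

end Pool.Agent.VOP
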