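import Pool.Agent.VOP.StmtsV

/-!
# The Ottaviani-Paoletti conjecture (MP_deb8da_ag), block V+L: free modules with coefficients
-/

namespace Pool.Agent.VOP

open MvPolynomial Pool.Agent.VSY

namespace VFR2

variable {K : Type} [Field K] {v : ℕ} {W W' : Type} [AddCommGroup W] [Module K W]
  [AddCommGroup W'] [Module K W']

/-- A linear map on the coefficients. -/
noncomputable def mr (v : ℕ) (f : W →ₗ[K] W') : FR v W →ₗ[K] FR v W' :=
  Finsupp.mapRange.linearMap f

theorem mr_apply (f : W →ₗ[K] W') (F : FR v W) (α : Fin v → ℕ) : mr v f F α = f (F α) := by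
  simp [mr]

theorem mr_frX (f : W →ₗ[K] W') (i : Fin v) (F : FR v W) :
    mr v f (frX K v W i F) = frX K v W' i (mr v f F) := by
  induction F using Finsupp.induction_linear with
  | zero => simp only [map_zero]
  | add F G hF hG => rw [map_add, map_add, map_add, map_add, hF, hG]
  | single α w => simp [mr, frX]

theorem bdF_sum {ι : Type} (s : Finset ι) (X : Fin v → (W →ₗ[K] W)) {δ p : ℕ}
    (c : ι → (Fin (p + 1) → Mn v δ) → W) (t : Fin p → Mn v δ) :
    bdF X (fun u => ∑ i ∈ s, c i u) t = ∑ i ∈ s, bdF X (c i) t := by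
  unfold bdF
  simp only [map_sum]
  exact Finset.sum_comm

end VFR2

open VFR2 in
theorem t_VFR2 (h1 : SV_NAT) (h2 : SV_AL) : SV_FR2 := by
  intro K _ _ v δ p e hK W _ _ Y c hca hcY hcc
  classical
  let B : Finset W := Finset.univ.biUnion fun t : Fin p → Mn v δ => (c t).support.image (c t)
  let Y' : Submodule K W := Submodule.span K (B : Set W)
  have hY' : Y' ≤ Y := by
    rw [Submodule.span_le]
    intro w hw
    rw [Finset.mem_coe, Finset.mem_biUnion] at hw
    obtain ⟨t, -, hw⟩ := hw
    obtain ⟨α, -, rfl⟩ := Finset.mem_image.1 hw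
    exact (hcY t α).1
  have hmem : ∀ t α, c t α ∈ Y' := by
    intro t α
    by_cases h : c t α = 0
    · rw [h]
      exact zero_mem _
    · apply Submodule.subset_span
      rw [Finset.mem_coe, Finset.mem_biUnion]
      exact ⟨t, Finset.mem_univ _, Finset.mem_image.2 ⟨α, Finsupp.mem_support_iff.2 h, rfl⟩⟩
  have : FiniteDimensional K Y' := FiniteDimensional.span_finset K B
  let b := Module.finBasis K Y'
  have hext := fun i => LinearMap.exists_extend (b.coord i)
  choose ℓ hℓ using hext
  have hsum : ∀ w ∈ Y', ∑ i, ℓ i w • (b i : W) = w := by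
    intro w hw
    have h3 := congrArg (Y'.subtype) (b.sum_repr ⟨w, hw⟩)
    rw [map_sum] at h3
    have h5 : (Y'.subtype) ⟨w, hw⟩ = w := rfl
    rw [h5] at h3
    refine Eq.trans (Finset.sum_congr rfl fun i _ => ?_) h3
    have h4 := LinearMap.congr_fun (hℓ i) ⟨w, hw⟩
    rw [map_smul]
    have h6 : ℓ i w = b.repr ⟨w, hw⟩ i := h4
    rw [h6]
    rfl
  have hex : ∀ i, ∃ y : (Fin (p + 1) → Mn v δ) → FR v K, AltF y ∧
      (∀ t, y t ∈ FE v (⊤ : Submodule K K) e) ∧
      ∀ t, bdF (frX K v K) y t = mr v (ℓ i) (c t) := by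
    intro i
    refine hK (fun t => mr v (ℓ i) (c t)) ?_ ?_ ?_
    · exact (h2 K v (FR v W) (FR v K) (frX K v W) δ p).2.2.1 c (mr v (ℓ i)) hca
    · intro t α
      refine ⟨Submodule.mem_top, fun h => (hcY t α).2 fun h' => h ?_⟩
      rw [mr_apply, h', map_zero]
    · exact (h1 K v (FR v W) (FR v K) (frX K v W) (frX K v K) (mr v (ℓ i))
        fun j F => mr_frX _ _ _).2.2 δ p c hcc
  choose y hya hyE hyb using hex
  let ins : ∀ _ : Fin (Module.finrank K Y'), FR v K →ₗ[K] FR v W := fun i =>
    mr v (LinearMap.toSpanSingleton K W (b i : W))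
  have hins : ∀ i F α, ins i F α = F α • (b i : W) := by
    intro i F α
    show mr v _ F α = _
    rw [mr_apply, LinearMap.toSpanSingleton_apply]
  refine ⟨fun t => ∑ i, ins i (y i t), ?_, ?_, ?_⟩
  · intro σ t
    show ∑ i, ins i (y i (t ∘ σ)) = _ • ∑ i, ins i (y i t)
    rw [Finset.smul_sum]
    refine Finset.sum_congr rfl fun i _ => ?_
    rw [hya i σ t, map_zsmul]
  · intro t
    refine Submodule.sum_mem _ fun i _ => ?_
    intro α
    refine ⟨?_, fun h => (hyE i t α).2 fun h' => h ?_⟩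
    · rw [hins]
      exact hY' (Submodule.smul_mem _ _ (b i).2)
    · rw [hins, h', zero_smul]
  · intro t
    rw [bdF_sum]
    have h3 : ∀ i, bdF (frX K v W) (fun u => ins i (y i u)) t = ins i (mr v (ℓ i) (c t)) := by
      intro i
      rw [← hyb i t]
      exact ((h1 K v (FR v K) (FR v W) (frX K v K) (frX K v W) (ins i)
        fun j F => mr_frX _ _ _).2.1 δ p (y i) t).symm
    rw [Finset.sum_congr rfl fun i _ => h3 i]
    ext α
    rw [Finsupp.finsetSum_apply]
    refine Eq.trans (Finset.sum_congr rfl fun i _ => ?_) (hsum (c t α) (hmem t α))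
    rw [hins, mr_apply]

end Pool.Agent.VOP
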