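import Pool.Agent.VOP.StmtsV

/-!
# VOP, module VFRL: the free module
-/

namespace Pool.Agent.VOP

open MvPolynomial Pool.Agent.VSY

namespace VFRL

section

variable {v : ℕ}

theorem e_sub_add (α : Fin v → ℕ) (i : Fin v) (h : 1 ≤ α i) :
    α - Pi.single i 1 + Pi.single i 1 = α := by
  funext j
  simp only [Pi.add_apply, Pi.sub_apply]
  by_cases hj : j = i
  · subst hj
    rw [Pi.single_eq_same]
    omega
  · rw [Pi.single_eq_of_ne hj]
    omega

theorem e_add_sub (α : Fin v → ℕ) (i : Fin v) : α + Pi.single i 1 - Pi.single i 1 = α := by
  funext j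
  simp only [Pi.add_apply, Pi.sub_apply]
  omega

theorem e_sum_add (α : Fin v → ℕ) (i : Fin v) :
    ∑ j, (α + Pi.single i 1 : Fin v → ℕ) j = ∑ j, α j + 1 := by
  simp only [Pi.add_apply]
  rw [Finset.sum_add_distrib, Finset.sum_pi_single']
  simp

variable {K : Type} [Field K] {W : Type} [AddCommGroup W] [Module K W]

theorem frX_apply (i : Fin v) (F : FR v W) (α : Fin v → ℕ) :
    frX K v W i F α = if 1 ≤ α i then F (α - Pi.single i 1) else 0 := by
  have hinj : Function.Injective fun α : Fin v → ℕ => α + Pi.single i 1 :=
    fun a b hab => add_right_cancel hab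
  change Finsupp.mapDomain (fun α : Fin v → ℕ => α + Pi.single i 1) F α = _
  split_ifs with h
  · have h1 := Finsupp.mapDomain_apply hinj F (α - Pi.single i 1)
    simp only [e_sub_add α i h] at h1
    exact h1
  · apply Finsupp.mapDomain_of_notMem_range
    rintro ⟨β, hβ⟩
    apply h
    rw [← hβ]
    change 1 ≤ β i + (Pi.single i 1 : Fin v → ℕ) i
    rw [Pi.single_eq_same]
    omega

/-- the derivatives -/
noncomputable def dD (K : Type) [Field K] (v : ℕ) (W : Type) [AddCommGroup W] [Module K W]
    (i : Fin v) : FR v W →ₗ[K] FR v W :=
  Finsupp.lsum K fun α : Fin v → ℕ => ((α i : ℕ) : K) • Finsupp.lsingle (α - Pi.single i 1)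

theorem dD_single (i : Fin v) (β : Fin v → ℕ) (w : W) :
    dD K v W i (Finsupp.single β w) =
      ((β i : ℕ) : K) • Finsupp.single (β - Pi.single i 1) w := by
  rw [dD, Finsupp.lsum_single]
  rfl

theorem dD_apply (i : Fin v) (F : FR v W) (α : Fin v → ℕ) :
    dD K v W i F α = ((α i + 1 : ℕ) : K) • F (α + Pi.single i 1) := by
  classical
  induction F using Finsupp.induction_linear with
  | zero => simp
  | add F G hF hG => rw [map_add, Finsupp.add_apply, hF, hG, Finsupp.add_apply, smul_add]
  | single β w =>
    rw [dD_single, Finsupp.smul_apply, Finsupp.single_apply, Finsupp.single_apply]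
    by_cases h : β = α + Pi.single i 1
    · have h1 : β - Pi.single i 1 = α := by rw [h, e_add_sub]
      have h2 : β i = α i + 1 := by
        rw [h]
        change α i + (Pi.single i 1 : Fin v → ℕ) i = α i + 1
        rw [Pi.single_eq_same]
      rw [if_pos h1, if_pos h, h2]
    · rw [if_neg h, smul_zero]
      by_cases h1 : β - Pi.single i 1 = α
      · have h2 : β i = 0 := by
          by_contra h3
          apply h
          rw [← h1, e_sub_add β i (by omega)]
        rw [h2, Nat.cast_zero, zero_smul]
      · rw [if_neg h1, smul_zero]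

end

end VFRL

open VFRL in
theorem t_VFRL (h : SV_HOM) : SV_FRL := by
  intro K _ _ v W _ _ Y
  classical
  refine ⟨⟨?_, ?_⟩, ?_⟩
  · intro i j
    apply Finsupp.lhom_ext'
    intro α
    apply LinearMap.ext
    intro w
    change Finsupp.mapDomain (fun α : Fin v → ℕ => α + Pi.single i 1)
      (Finsupp.mapDomain (fun α : Fin v → ℕ => α + Pi.single j 1) (Finsupp.single α w)) =
      Finsupp.mapDomain (fun α : Fin v → ℕ => α + Pi.single j 1)
      (Finsupp.mapDomain (fun α : Fin v → ℕ => α + Pi.single i 1) (Finsupp.single α w))
    rw [Finsupp.mapDomain_single, Finsupp.mapDomain_single, Finsupp.mapDomain_single,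
      Finsupp.mapDomain_single, add_right_comm]
  · intro k i F hF α
    rw [frX_apply]
    split_ifs with h1
    · refine ⟨(hF _).1, fun h2 => ?_⟩
      have h3 := (hF _).2 h2
      have h4 := e_sum_add (α - Pi.single i 1) i
      rw [e_sub_add α i h1, h3] at h4
      exact h4
    · exact ⟨zero_mem _, fun h2 => absurd rfl h2⟩
  · apply h K v (FR v W) (frX K v W) (dD K v W) (FE v Y)
    · intro i j F
      ext α
      rw [dD_apply, frX_apply, Finsupp.add_apply, frX_apply]
      by_cases hij : i = j
      · subst hij
        have e1 : 1 ≤ (α + Pi.single i 1 : Fin v → ℕ) i := by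
          change 1 ≤ α i + (Pi.single i 1 : Fin v → ℕ) i
          rw [Pi.single_eq_same]
          omega
        rw [if_pos e1, e_add_sub, if_pos rfl]
        split_ifs with h1
        · rw [dD_apply, e_sub_add α i h1]
          have e2 : (α - Pi.single i 1 : Fin v → ℕ) i + 1 = α i := by
            change α i - (Pi.single i 1 : Fin v → ℕ) i + 1 = α i
            rw [Pi.single_eq_same]
            omega
          rw [e2, Nat.cast_add, add_smul, Nat.cast_one, one_smul]
        · have e3 : α i = 0 := by omega
          rw [e3, zero_add, Nat.cast_one, one_smul, zero_add]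
      · have e1 : (α + Pi.single i 1 : Fin v → ℕ) j = α j := by
          change α j + (Pi.single i 1 : Fin v → ℕ) j = α j
          rw [Pi.single_eq_of_ne (Ne.symm hij)]
          rfl
        rw [e1, if_neg hij, Finsupp.zero_apply, add_zero]
        split_ifs with h1
        · rw [dD_apply]
          have e2 : (α - Pi.single j 1 : Fin v → ℕ) i = α i := by
            change α i - (Pi.single j 1 : Fin v → ℕ) i = α i
            rw [Pi.single_eq_of_ne hij]
            rfl
          have e3 : α + Pi.single i 1 - Pi.single j 1 = α - Pi.single j 1 + Pi.single i 1 := by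
            funext l
            simp only [Pi.add_apply, Pi.sub_apply]
            by_cases hl : l = j
            · subst hl
              rw [Pi.single_eq_of_ne (Ne.symm hij), Pi.single_eq_same]
              omega
            · rw [Pi.single_eq_of_ne hl]
              omega
          rw [e2, e3]
        · rw [smul_zero]
    · intro k i F hF α
      rw [dD_apply]
      refine ⟨Submodule.smul_mem _ _ (hF _).1, fun h2 => ?_⟩
      have h3 : F (α + Pi.single i 1) ≠ 0 := by
        intro h4
        apply h2
        rw [h4, smul_zero]
      have h5 := (hF _).2 h3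
      rw [e_sum_add] at h5
      omega
    · intro k F hF
      ext α
      rw [Finsupp.finsetSum_apply, Finsupp.smul_apply]
      have e1 : ∀ j, (frX K v W j (dD K v W j F)) α = ((α j : ℕ) : K) • F α := by
        intro j
        rw [frX_apply]
        split_ifs with h1
        · rw [dD_apply, e_sub_add α j h1]
          have e2 : (α - Pi.single j 1 : Fin v → ℕ) j + 1 = α j := by
            change α j - (Pi.single j 1 : Fin v → ℕ) j + 1 = α j
            rw [Pi.single_eq_same]
            omega
          rw [e2]
        · have e3 : α j = 0 := by omega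
          rw [e3, Nat.cast_zero, zero_smul]
      simp only [e1]
      rw [← Finset.sum_smul, ← Nat.cast_sum]
      by_cases h1 : F α = 0
      · rw [h1, smul_zero, smul_zero]
      · rw [(hF α).2 h1]

end Pool.Agent.VOP
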