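import Pool.Agent.VOP.StmtsV

/-!
# The Ottaviani-Paoletti conjecture: GEN
-/

namespace Pool.Agent.VOP

open MvPolynomial Pool.Agent.VSY

namespace VGEN

variable {K : Type} [Field K] {v : ℕ} {W : Type} [AddCommGroup W] [Module K W]

theorem eps_single (X : Fin v → (W →ₗ[K] W)) (α : Fin v → ℕ) (w : W) :
    eps X (Finsupp.single α w) = mo X α w := by
  unfold eps
  rw [Finsupp.lsum_single]

theorem frX_single (i : Fin v) (α : Fin v → ℕ) (w : W) :
    frX K v W i (Finsupp.single α w) = Finsupp.single (α + Pi.single i 1) w := by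
  unfold frX
  rw [Finsupp.lmapDomain_apply, Finsupp.mapDomain_single]

/-- the shift by a monomial -/
noncomputable def sh (α : Fin v → ℕ) (F : FR v W) : FR v W :=
  Finsupp.mapDomain (fun β => α + β) F

theorem sh_mem {Y : Submodule K W} {k : ℕ} (α : Fin v → ℕ) {F : FR v W} (hF : F ∈ FE v Y k) :
    sh α F ∈ FE v Y (k + ∑ j, α j) := by
  have hi : Function.Injective (fun β : Fin v → ℕ => α + β) := fun a b h => add_left_cancel h
  intro γ
  by_cases h : γ ∈ Set.range (fun β : Fin v → ℕ => α + β)
  · obtain ⟨β, rfl⟩ := h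
    have h1 : sh α F (α + β) = F β := Finsupp.mapDomain_apply hi F β
    show sh α F (α + β) ∈ Y ∧ (sh α F (α + β) ≠ 0 → ∑ j, (α + β) j = k + ∑ j, α j)
    rw [h1]
    refine ⟨(hF β).1, fun h2 => ?_⟩
    have h3 : ∑ j, (α + β) j = ∑ j, α j + ∑ j, β j := by
      rw [← Finset.sum_add_distrib]
      rfl
    rw [h3, (hF β).2 h2, add_comm]
  · have h1 : sh α F γ = 0 := Finsupp.mapDomain_notin_range F γ h
    rw [h1]
    exact ⟨zero_mem _, fun h2 => absurd rfl h2⟩

theorem eps_sh (h1 : SV_MO) (X : Fin v → (W →ₗ[K] W)) (hX : ∀ i j, X i ∘ₗ X j = X j ∘ₗ X i)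
    (α : Fin v → ℕ) (F : FR v W) : eps X (sh α F) = mo X α (eps X F) := by
  induction F using Finsupp.induction_linear with
  | zero =>
    unfold sh
    rw [Finsupp.mapDomain_zero, map_zero, map_zero]
  | add F G hF hG =>
    unfold sh at hF hG ⊢
    rw [Finsupp.mapDomain_add, map_add, map_add, map_add, hF, hG]
  | single β w =>
    unfold sh
    rw [Finsupp.mapDomain_single, eps_single, eps_single]
    exact ((h1 K v W X).2.2.1 hX).2 α β w

end VGEN

open VGEN in
theorem t_VGEN (h1 : SV_MO) (h2 : SV_ALL) : SV_GEN := by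
  intro K _ _ v W _ _ X E m hG
  have hmo := h1 K v W X
  have hitem2 : ∀ j, ∀ F ∈ FE v (E m) j, eps X F ∈ E (m + j) := by
    intro j F hF
    unfold eps
    rw [Finsupp.lsum_apply, Finsupp.sum]
    apply Submodule.sum_mem
    intro α hα
    have h3 := hmo.2.2.2 E hG m α (F α) (hF α).1
    rw [(hF α).2 (Finsupp.mem_support_iff.1 hα)] at h3
    exact h3
  refine ⟨?_, hitem2, ?_⟩
  · intro i F
    induction F using Finsupp.induction_linear with
    | zero => simp only [map_zero]
    | add F G hF hG => rw [map_add, map_add, map_add, map_add, hF, hG]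
    | single α w =>
      rw [frX_single, eps_single, eps_single]
      have h3 := (hmo.2.2.1 hG.1).2 α (Pi.single i 1) w
      rw [h3, hmo.2.1, (hmo.2.2.1 hG.1).1]
  · intro hL
    have hitem3 : ∀ k, m ≤ k → ∀ x ∈ E k, ∃ F ∈ FE v (E m) (k - m), eps X F = x := by
      intro k hk
      induction k, hk using Nat.le_induction with
      | base =>
        intro x hx
        refine ⟨Finsupp.single 0 x, ?_, ?_⟩
        · intro α
          by_cases h0 : α = 0
          · subst h0
            rw [Finsupp.single_eq_same]
            refine ⟨hx, fun _ => ?_⟩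
            simp
          · rw [Finsupp.single_eq_of_ne h0]
            exact ⟨zero_mem _, fun h => absurd rfl h⟩
        · rw [eps_single, hmo.1]
      | succ k hk ih =>
        intro x hx
        obtain ⟨y, -, hy2, hy3⟩ := hL 0 k hk (fun _ => x)
          (fun σ t => by
            have : σ = 1 := Subsingleton.elim _ _
            rw [this]
            simp)
          (fun _ => hx) (fun i => Fin.elim0 i)
        choose G hG1 hG2 using fun t : Fin 1 → Mn v 1 => ih (y t) (hy2 t)
        refine ⟨∑ α : Mn v 1, sh α.1 (G (Fin.cons α Fin.elim0)), ?_, ?_⟩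
        · apply Submodule.sum_mem
          intro α _
          have h3 := sh_mem α.1 (hG1 (Fin.cons α Fin.elim0))
          have h4 : ∑ j, α.1 j = 1 := (Finset.mem_piAntidiag.1 α.2).1
          rw [h4] at h3
          have h5 : k - m + 1 = k + 1 - m := by omega
          rw [h5] at h3
          exact h3
        · rw [map_sum]
          have h3 := hy3 Fin.elim0
          unfold bdF at h3
          rw [← h3]
          apply Finset.sum_congr rfl
          intro α _
          rw [eps_sh h1 X hG.1, hG2]
    refine ⟨hitem3, ?_⟩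
    intro δ p k c hk hc hcE
    exact h2 K v (FR v W) W (eps X) (FE v (E m) (k - m)) δ p c hc
      (fun t => hitem3 k hk (c t) (hcE t))

end Pool.Agent.VOP
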