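import Pool.Agent.VOP.StmtsV

/-!
# The Ottaviani-Paoletti conjecture (MP_deb8da_ag): block V+L, the homotopy (module VHOM)
-/

namespace Pool.Agent.VOP

open MvPolynomial Pool.Agent.VSY

namespace HOM

variable {K : Type} [Field K] {W : Type} [AddCommGroup W] [Module K W]

/-- The homotopy for operators indexed by a finite type. -/
theorem hom_gen [CharZero K] {I : Type} [Fintype I] [DecidableEq I] (A B : I → (W →ₗ[K] W))
    (F G : Submodule K W) (r q : ℕ)
    (h1 : ∀ i j w, B i (A j w) = A j (B i w) + if i = j then w else 0)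
    (hB : ∀ i, ∀ x ∈ G, B i x ∈ F)
    (h3 : ∀ x ∈ G, ∑ j, A j (B j x) = ((r + 1 : ℕ) : K) • x)
    (c : (Fin q → I) → W)
    (hc : ∀ (σ : Equiv.Perm (Fin q)) (t : Fin q → I),
      c (t ∘ σ) = ((Equiv.Perm.sign σ : ℤˣ) : ℤ) • c t)
    (hG : ∀ t, c t ∈ G)
    (hcyc : ∀ (i : Fin q) (t : Fin q → I), ∑ α, A α (c (Function.update t i α)) = 0) :
    ∃ y : (Fin (q + 1) → I) → W,
      (∀ (σ : Equiv.Perm (Fin (q + 1))) (t : Fin (q + 1) → I),
        y (t ∘ σ) = ((Equiv.Perm.sign σ : ℤˣ) : ℤ) • y t) ∧
      (∀ t, y t ∈ F) ∧ ∀ t, ∑ α, A α (y (Fin.cons α t)) = c t := by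
  classical
  set y0 : (Fin (q + 1) → I) → W := fun s => B (s 0) (c (Fin.tail s)) with hy0
  set z : (Fin (q + 1) → I) → W := fun t => ∑ σ : Equiv.Perm (Fin (q + 1)),
    ((Equiv.Perm.sign σ : ℤˣ) : ℤ) • y0 (t ∘ σ) with hz
  have hzalt : ∀ (τ : Equiv.Perm (Fin (q + 1))) (t : Fin (q + 1) → I),
      z (t ∘ τ) = ((Equiv.Perm.sign τ : ℤˣ) : ℤ) • z t := by
    intro τ t
    simp only [hz]
    rw [Finset.smul_sum, ← Equiv.sum_comp (Equiv.mulLeft τ) (fun σ : Equiv.Perm (Fin (q + 1)) =>
      ((Equiv.Perm.sign τ : ℤˣ) : ℤ) • ((Equiv.Perm.sign σ : ℤˣ) : ℤ) • y0 (t ∘ σ))]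
    apply Finset.sum_congr rfl
    intro σ _
    rw [Equiv.coe_mulLeft, Equiv.Perm.sign_mul, Units.val_mul, smul_smul, ← mul_assoc,
      ← Units.val_mul, Int.units_mul_self, Units.val_one, one_mul]
    rfl
  have hzF : ∀ t, z t ∈ F := by
    intro t
    apply Submodule.sum_mem
    intro σ _
    exact F.toAddSubgroup.zsmul_mem (hB _ _ (hG _)) _
  -- the terms of the boundary
  have hterm : ∀ (t : Fin q → I) (p : Fin (q + 1)) (e : Equiv.Perm (Fin q)),
      ((Equiv.Perm.sign (Equiv.Perm.decomposeFin.symm (p, e)) : ℤˣ) : ℤ) •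
        ∑ α, A α (y0 ((Fin.cons α t : Fin (q + 1) → I) ∘ (Equiv.Perm.decomposeFin.symm (p, e)))) =
      (if p = 0 then ((r + 1 : ℕ) : K) else 1) • c t := by
    intro t p e
    refine Fin.cases ?_ (fun j => ?_) p
    · have h4 : ∀ α : I, y0 ((Fin.cons α t : Fin (q + 1) → I) ∘
          (Equiv.Perm.decomposeFin.symm (0, e))) =
          ((Equiv.Perm.sign e : ℤˣ) : ℤ) • B α (c t) := by
        intro α
        have h5 : Fin.tail ((Fin.cons α t : Fin (q + 1) → I) ∘
            (Equiv.Perm.decomposeFin.symm (0, e))) = t ∘ e := by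
          funext x
          simp only [Fin.tail, Function.comp_apply,
            Equiv.Perm.decomposeFin_symm_apply_succ, Equiv.swap_self, Equiv.refl_apply,
            Fin.cons_succ]
        simp only [hy0]
        rw [h5, hc, map_zsmul]
        simp only [Function.comp_apply, Equiv.Perm.decomposeFin_symm_apply_zero, Fin.cons_zero]
      simp only [h4, map_zsmul]
      rw [← Finset.smul_sum, h3 _ (hG t), Equiv.Perm.decomposeFin.symm_sign, if_pos rfl, one_mul,
        smul_smul, ← Units.val_mul, Int.units_mul_self, Units.val_one, one_smul, if_pos trivial]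
    · have h4 : ∀ α : I, y0 ((Fin.cons α t : Fin (q + 1) → I) ∘
          (Equiv.Perm.decomposeFin.symm (j.succ, e))) =
          B (t j) (c (Function.update (t ∘ e) (e.symm j) α)) := by
        intro α
        have h5 : Fin.tail ((Fin.cons α t : Fin (q + 1) → I) ∘
            (Equiv.Perm.decomposeFin.symm (j.succ, e))) =
            Function.update (t ∘ e) (e.symm j) α := by
          funext x
          simp only [Fin.tail, Function.comp_apply, Equiv.Perm.decomposeFin_symm_apply_succ]
          by_cases hx : e x = j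
          · have hx' : x = e.symm j := by rw [← hx, Equiv.symm_apply_apply]
            rw [hx, Equiv.swap_apply_right, Fin.cons_zero, hx', Function.update_self]
          · have hx' : x ≠ e.symm j := fun h => hx (by rw [h, Equiv.apply_symm_apply])
            rw [Equiv.swap_apply_of_ne_of_ne (Fin.succ_ne_zero _)
              (fun h => hx (Fin.succ_injective _ h)), Fin.cons_succ,
              Function.update_of_ne hx']
            rfl
        simp only [hy0]
        rw [h5]
        simp only [Function.comp_apply, Equiv.Perm.decomposeFin_symm_apply_zero, Fin.cons_succ]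
      simp only [h4]
      have h6 : ∀ α : I, A α (B (t j) (c (Function.update (t ∘ e) (e.symm j) α))) =
          B (t j) (A α (c (Function.update (t ∘ e) (e.symm j) α))) -
            if t j = α then c (Function.update (t ∘ e) (e.symm j) α) else 0 := by
        intro α
        rw [h1]
        abel
      simp only [h6]
      rw [Finset.sum_sub_distrib, ← map_sum, hcyc, map_zero, zero_sub, Finset.sum_ite_eq,
        if_pos (Finset.mem_univ _)]
      have h7 : Function.update (t ∘ e) (e.symm j) (t j) = t ∘ e := by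
        rw [Function.update_eq_self_iff]
        simp
      rw [h7, hc, Equiv.Perm.decomposeFin.symm_sign, if_neg (Fin.succ_ne_zero j),
        if_neg (Fin.succ_ne_zero j), one_smul, smul_neg, smul_smul, ← Units.val_mul, neg_mul,
        one_mul, neg_mul, Int.units_mul_self, Units.val_neg, Units.val_one, neg_smul, one_smul,
        neg_neg]
  have hbd : ∀ t : Fin q → I, ∑ α, A α (z (Fin.cons α t)) =
      ((Nat.factorial q : K) * ((r + 1 + q : ℕ) : K)) • c t := by
    intro t
    have h8 : ∀ α : I, A α (z (Fin.cons α t)) = ∑ σ : Equiv.Perm (Fin (q + 1)),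
        ((Equiv.Perm.sign σ : ℤˣ) : ℤ) • A α (y0 ((Fin.cons α t : Fin (q + 1) → I) ∘ σ)) := by
      intro α
      simp only [hz]
      rw [map_sum]
      apply Finset.sum_congr rfl
      intro σ _
      rw [map_zsmul]
    simp only [h8]
    rw [Finset.sum_comm]
    simp only [← Finset.smul_sum]
    rw [← Equiv.sum_comp Equiv.Perm.decomposeFin.symm, Fintype.sum_prod_type]
    simp only [hterm]
    rw [← Finset.sum_comm]
    simp only [← Finset.sum_smul]
    congr 1
    rw [Finset.sum_const, Finset.card_univ, Fintype.card_perm, Fintype.card_fin,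
      Fin.sum_univ_succ, if_pos rfl]
    simp only [Fin.succ_ne_zero, if_false, Finset.sum_const, Finset.card_univ, Fintype.card_fin]
    simp only [nsmul_eq_mul]
    push_cast
    ring
  have hne : (Nat.factorial q : K) * ((r + 1 + q : ℕ) : K) ≠ 0 := by
    apply mul_ne_zero
    · exact_mod_cast Nat.factorial_ne_zero q
    · exact_mod_cast (by omega : r + 1 + q ≠ 0)
  refine ⟨fun t => ((Nat.factorial q : K) * ((r + 1 + q : ℕ) : K))⁻¹ • z t, ?_, ?_, ?_⟩
  · intro σ t
    simp only []
    rw [hzalt, smul_comm]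
  · exact fun t => F.smul_mem _ (hzF t)
  · intro t
    simp only [map_smul]
    rw [← Finset.smul_sum, hbd, smul_smul, inv_mul_cancel₀ hne, one_smul]

/-- The letters of degree one. -/
theorem exists_equiv (v : ℕ) : ∃ e : Fin v ≃ Mn v 1, ∀ i, (e i).1 = Pi.single i 1 := by
  classical
  have h1 : ∀ i : Fin v, (Pi.single i 1 : Fin v → ℕ) ∈
      (Finset.piAntidiag (Finset.univ : Finset (Fin v)) 1 : Finset (Fin v → ℕ)) := by
    intro i
    rw [Finset.mem_piAntidiag]
    refine ⟨?_, fun _ _ => Finset.mem_univ _⟩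
    rw [Finset.sum_pi_single']
    simp
  refine ⟨Equiv.ofBijective (fun i => ⟨Pi.single i 1, h1 i⟩) ⟨?_, ?_⟩, fun i => rfl⟩
  · intro i j h
    have h2 : (Pi.single i 1 : Fin v → ℕ) = Pi.single j 1 := congrArg Subtype.val h
    by_contra hij
    have h3 := congrFun h2 i
    rw [Pi.single_eq_same, Pi.single_eq_of_ne hij] at h3
    exact one_ne_zero h3
  · rintro ⟨α, hα⟩
    have h2 := (Finset.mem_piAntidiag.1 hα).1
    have h3 : ∃ i, α i ≠ 0 := by
      by_contra h
      push Not at h
      rw [Finset.sum_eq_zero fun i _ => h i] at h2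
      exact zero_ne_one h2
    obtain ⟨i, hi⟩ := h3
    refine ⟨i, Subtype.ext ?_⟩
    have h4 := Finset.add_sum_erase Finset.univ α (Finset.mem_univ i)
    rw [h2] at h4
    have h5 : ∑ x ∈ Finset.univ.erase i, α x = 0 := by omega
    have h6 : α i = 1 := by omega
    rw [Finset.sum_eq_zero_iff] at h5
    funext x
    by_cases hx : x = i
    · subst hx
      show (Pi.single x 1 : Fin v → ℕ) x = α x
      rw [Pi.single_eq_same, h6]
    · show (Pi.single i 1 : Fin v → ℕ) x = α x
      rw [Pi.single_eq_of_ne hx, h5 x (Finset.mem_erase.2 ⟨hx, Finset.mem_univ _⟩)]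

end HOM

open HOM in
theorem t_VHOM (h : SV_MO) : SV_HOM := by
  classical
  intro K _ _ v W _ _ X D E h1 h2 h3 q e _ c hc hcE hcyc
  obtain ⟨-, hmo, -, -⟩ := h K v W X
  obtain ⟨ε, hε⟩ := exists_equiv v
  have hX : ∀ α : Mn v 1, ∀ w, mo X α.1 w = X (ε.symm α) w := by
    intro α w
    rw [← hmo, ← hε, Equiv.apply_symm_apply]
  obtain ⟨y, hy1, hy2, hy3⟩ := hom_gen (fun α : Mn v 1 => mo X α.1)
    (fun α : Mn v 1 => D (ε.symm α)) (E e) (E (e + 1)) e q
    (by
      intro α β w
      simp only [hX]
      rw [h1]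
      congr 1
      by_cases hab : α = β
      · rw [if_pos hab, if_pos (by rw [hab])]
      · rw [if_neg hab, if_neg (fun h' => hab (ε.symm.injective h'))])
    (fun α x hx => h2 e _ x hx)
    (by
      intro x hx
      simp only [hX]
      rw [← h3 (e + 1) x hx]
      exact Equiv.sum_comp ε.symm fun j => X j (D j x))
    c hc hcE hcyc
  exact ⟨y, hy1, hy2, hy3⟩

end Pool.Agent.VOP
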