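import Pool.Agent.VOP.StmtsV

/-!
# The Ottaviani-Paoletti conjecture (MP_deb8da_ag): block V+L, assembly from the module statements
-/

namespace Pool.Agent.VOP

open MvPolynomial Pool.Agent.VSY

theorem LIFTM_of (hPV : Stmt_PV) (hLC : SV_LC) (hLB : SV_LB) (hF1 : SV_FR1) (hF2 : SV_FR2)
    (hBR : SV_BRM) (hLF : SV_VLF) : Stmt_LIFTM := by
  intro K _ _ v N d s l e m hv hN hd hm hme h1 h2
  apply hLF K v N d s l e hN hd
  · intro hs
    exact hPV K v N (s - 1) e hN (h1 (s - 1) e (by omega) (by omega))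
  · intro hl
    apply hBR K v N d s (l - 1) e
    intro A _ _ δ T S w hTS hwT hwS hS hδ
    obtain ⟨g1, g2⟩ := hLC K v N m s hN hm
      (fun p' e' hp he => hPV K v N p' e' hN (h1 p' e' hp he)) A δ T S w hTS hwT hwS hS hδ
    apply hLB K v d (l - 1) hd _ _ _ m e g1 g2 hme
    intro q hq W' _ _ Y
    apply hF2 K v d (l - 1 - q) (e - m + q * (d - 1))
    apply hF1
    have h3 := h2 (l - 1 - q) q (by omega)
    have e1 : e - m + q * (d - 1) + d = e - m + d + q * (d - 1) := by ring
    rw [e1]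
    exact h3

end Pool.Agent.VOP
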