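import Pool.Agent.VOP.StmtsV

/-!
# VOP, module VLA: Lemma A
-/

namespace Pool.Agent.VOP

open MvPolynomial Pool.Agent.VSY

namespace VLA

variable {K : Type} [Field K] {v : ℕ} {W : Type} [AddCommGroup W] [Module K W]

theorem mem_ER {X : Fin v → (W →ₗ[K] W)} {E : ℕ → Submodule K W} {m j : ℕ} {F : FR v W} :
    F ∈ ER X E m (m + j) ↔ F ∈ FE v (E m) j ∧ eps X F = 0 := by
  constructor
  · rintro ⟨h1, h2⟩
    exact ⟨fun α => ⟨(h1 α).1, fun h => by have := (h1 α).2 h; omega⟩, h2⟩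
  · rintro ⟨h1, h2⟩
    exact ⟨fun α => ⟨(h1 α).1, fun h => by have := (h1 α).2 h; omega⟩, h2⟩

theorem ER_low {X : Fin v → (W →ₗ[K] W)} {E : ℕ → Submodule K W} {m k : ℕ} {F : FR v W}
    (hk : k < m) (h : F ∈ ER X E m k) : F = 0 := by
  obtain ⟨h1, -⟩ := h
  ext α
  by_contra hne
  have := (h1 α).2 hne
  omega

theorem sum_one (α : Mn v 1) : ∑ j, α.1 j = 1 := by
  have h := α.2
  rw [Finset.mem_piAntidiag] at h
  exact h.1

end VLA

theorem t_VLA (h1 : SV_NAT) (h2 : SV_AL) (h3 : SV_CYC) (h4 : SV_BB) (h5 : SV_FRL) (h6 : SV_GEN)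
    (h7 : SV_MO) : SV_LA := by
  intro K _ _ v W _ _ X E m hG hL
  obtain ⟨hGF, hLF⟩ := h5 K v W (E m)
  obtain ⟨hg1, hg2, hg3⟩ := h6 K v W X E m hG
  obtain ⟨-, hg4⟩ := hg3 hL
  have hcomm : ∀ i w, eps X (frX K v W i w) = X i (eps X w) := hg1
  constructor
  · refine ⟨hGF.1, ?_⟩
    intro k i F hF
    rcases lt_or_ge k m with hk | hk
    · rw [VLA.ER_low hk hF, map_zero]
      exact zero_mem _
    · obtain ⟨j, rfl⟩ := Nat.exists_eq_add_of_le hk
      rw [VLA.mem_ER] at hF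
      have h : m + j + 1 = m + (j + 1) := by ring
      rw [h, VLA.mem_ER]
      refine ⟨hGF.2 j i F hF.1, ?_⟩
      rw [hg1, hF.2, map_zero]
  · intro q e he c hcA hcE hcC
    obtain ⟨j, rfl⟩ := Nat.exists_eq_add_of_le he
    have hcE' : ∀ t, c t ∈ FE v (E m) (j + 1 + 1) ∧ eps X (c t) = 0 := by
      intro t
      have h := hcE t
      have h' : m + 1 + j + 1 = m + (j + 1 + 1) := by ring
      rw [h', VLA.mem_ER] at h
      exact h
    obtain ⟨y, hyA, hyE, hyb⟩ := hLF q (j + 1) (Nat.zero_le _) c hcA (fun t => (hcE' t).1) hcC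
    obtain ⟨-, hnb, -⟩ := h1 K v (FR v W) W (frX K v W) X (eps X) hcomm
    obtain ⟨hadd, -, -, hbl, -, hbA⟩ := h2 K v (FR v W) W (frX K v W) 1 (q + 1)
    have hmap : AltF fun t => eps X (y t) := by
      obtain ⟨-, -, h, -⟩ := h2 K v (FR v W) W (frX K v W) 1 (q + 1)
      exact h y (eps X) hyA
    have hyC : CycF X fun t => eps X (y t) := by
      rw [h3 K v W X 1 q _ hmap]
      intro t
      rw [← hnb, hyb, (hcE' t).2]
    obtain ⟨y', hy'A, hy'E, hy'b⟩ := hL (q + 1) (m + j) (Nat.le_add_right _ _)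
      (fun t => eps X (y t)) hmap (fun t => by
        have h := hg2 (j + 1) (y t) (hyE t)
        exact h) hyC
    obtain ⟨z, hzA, hzE, hze⟩ := hg4 1 (q + 1 + 1) (m + j) y' (Nat.le_add_right _ _) hy'A hy'E
    have hzE' : ∀ t, z t ∈ FE v (E m) j := by
      intro t
      have h := hzE t
      rwa [Nat.add_sub_cancel_left] at h
    have hbz : AltF fun t => bdF (frX K v W) z t := hbA z hzA
    have hbzE : ∀ t, bdF (frX K v W) z t ∈ FE v (E m) (j + 1) := by
      intro t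
      unfold bdF
      refine Submodule.sum_mem _ fun α _ => ?_
      obtain ⟨-, -, -, hmo⟩ := h7 K v (FR v W) (frX K v W)
      have h := hmo (FE v (E m)) hGF j α.1 _ (hzE' (Fin.cons α t))
      rwa [VLA.sum_one α] at h
    refine ⟨fun t => y t - bdF (frX K v W) z t, (hadd y _ hyA hbz).2, ?_, ?_⟩
    · intro t
      have h : m + 1 + j = m + (j + 1) := by ring
      rw [h, VLA.mem_ER]
      refine ⟨sub_mem (hyE t) (hbzE t), ?_⟩
      rw [map_sub, hnb]
      have h8 : (fun s => eps X (z s)) = y' := funext hze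
      rw [h8, hy'b, sub_self]
    · intro t
      obtain ⟨-, -, -, hbl', -, -⟩ := h2 K v (FR v W) W (frX K v W) 1 q
      rw [(hbl' y (fun s => bdF (frX K v W) z s) t).2, hyb,
        h4 K v (FR v W) (frX K v W) 1 q z hGF.1 hzA t, sub_zero]

end Pool.Agent.VOP
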