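import Pool.Agent.VOP.StmtsV

/-!
# Module VLB: Lemma B
-/

namespace Pool.Agent.VOP

open MvPolynomial Pool.Agent.VSY

namespace VLBx

variable {K : Type} [Field K] {v : ℕ} {W : Type} [AddCommGroup W] [Module K W]

theorem bd_mem (hMO : SV_MO) {X : Fin v → (W →ₗ[K] W)} {E : ℕ → Submodule K W} (hE : GrM X E)
    {δ p k : ℕ} (c : (Fin (p + 1) → Mn v δ) → W) (hc : ∀ t, c t ∈ E k) (t : Fin p → Mn v δ) :
    bdF X c t ∈ E (k + δ) := by
  obtain ⟨-, -, -, h⟩ := hMO K v W X
  refine Submodule.sum_mem _ fun α _ => ?_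
  have e := h E hE k α.1 _ (hc (Fin.cons α t))
  have e2 : ∑ j, α.1 j = δ := by
    have := α.2
    rw [Finset.mem_piAntidiag] at this
    exact this.1
  rwa [e2] at e

theorem er_of_fe {X : Fin v → (W →ₗ[K] W)} {E : ℕ → Submodule K W} {m k l : ℕ} {F : FR v W}
    (hF : F ∈ FE v (E m) k) (h0 : eps X F = 0) (hk : k + m = l) : F ∈ ER X E m l :=
  ⟨fun α => ⟨(hF α).1, fun h => by rw [(hF α).2 h, hk]⟩, h0⟩

theorem fe_of_er {X : Fin v → (W →ₗ[K] W)} {E : ℕ → Submodule K W} {m k l : ℕ} {F : FR v W}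
    (hF : F ∈ ER X E m l) (hk : k + m = l) : F ∈ FE v (E m) k :=
  fun α => ⟨(hF.1 α).1, fun h => by
    have := (hF.1 α).2 h
    omega⟩

end VLBx

open VLBx in
theorem t_VLB (h1 : SV_NAT) (h2 : SV_AL) (h3 : SV_CYC) (h4 : SV_BB) (h5 : SV_GEN)
    (h6 : SV_LA) (h7 : SV_MO) (h8 : SV_FRL) : SV_LB := by
  intro K _ _ v δ p hδ
  induction p with
  | zero =>
    intro W _ _ X E m e hG hL hme hyp c hc hcE _
    obtain ⟨g1, g2, g3⟩ := h5 K v W X E m hG
    obtain ⟨-, hlift⟩ := g3 hL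
    obtain ⟨C, hCa, hCv, hCe⟩ := hlift δ 0 (e + δ) c (by omega) hc hcE
    have hk : e + δ - m = e - m + 0 * (δ - 1) + δ := by omega
    obtain ⟨y, hya, hyv, hyb⟩ := hyp 0 le_rfl W (E m) C hCa
      (fun t => by rw [← hk]; exact hCv t) (fun i => i.elim0)
    obtain ⟨-, hnat, -⟩ := h1 K v (FR v W) W (frX K v W) X (eps X) g1
    refine ⟨fun s => eps X (y s), (h2 K v (FR v W) W (frX K v W) δ 1).2.2.1 y (eps X) hya, ?_, ?_⟩
    · intro t
      have e1 := g2 _ _ (hyv t)
      have e2 : m + (e - m + 0 * (δ - 1)) = e := by omega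
      rwa [e2] at e1
    · intro t
      rw [← hnat δ 0 y t, hyb, hCe]
  | succ p ih =>
    intro W _ _ X E m e hG hL hme hyp c hc hcE hcyc
    obtain ⟨g1, g2, g3⟩ := h5 K v W X E m hG
    obtain ⟨-, hlift⟩ := g3 hL
    obtain ⟨C, hCa, hCv, hCe⟩ := hlift δ (p + 1) (e + δ) c (by omega) hc hcE
    obtain ⟨hFG, -⟩ := h8 K v W (E m)
    obtain ⟨hEG, hEL⟩ := h6 K v W X E m hG hL
    obtain ⟨-, hnat, -⟩ := h1 K v (FR v W) W (frX K v W) X (eps X) g1
    have hcomm : ∀ i j, frX K v W i ∘ₗ frX K v W j = frX K v W j ∘ₗ frX K v W i := hFG.1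
    -- the boundary of `C`
    have hbv : ∀ t, bdF (frX K v W) C t ∈ ER X E m (e + δ + δ) := by
      intro t
      refine er_of_fe (bd_mem h7 hFG C hCv t) ?_ (by omega)
      rw [hnat δ p C t]
      have e1 : (fun s => eps X (C s)) = c := funext hCe
      rw [e1]
      exact (h3 K v W X δ p c hc).1 hcyc t
    have hba : AltF fun t => bdF (frX K v W) C t :=
      (h2 K v (FR v W) (FR v W) (frX K v W) δ p).2.2.2.2.2 C hCa
    have hbc : CycF (frX K v W) fun t => bdF (frX K v W) C t := by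
      cases p with
      | zero => exact fun i => i.elim0
      | succ p =>
        refine (h3 K v (FR v W) (frX K v W) δ p _ hba).2 ?_
        exact h4 K v (FR v W) (frX K v W) δ p C hcomm hCa
    obtain ⟨z, hza, hzv, hzb⟩ := ih (FR v W) (frX K v W) (ER X E m) (m + 1) (e + δ) hEG hEL
      (by omega) (fun q hq W' _ _ Y => by
        have e1 := hyp (q + 1) (by omega) W' Y
        have e2 : p + 1 - (q + 1) = p - q := by omega
        have e3 : e - m + (q + 1) * (δ - 1) = e + δ - (m + 1) + q * (δ - 1) := by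
          rw [add_mul, one_mul]
          omega
        rwa [e2, e3] at e1) _ hba hbv hbc
    have hda : AltF fun t => C t - z t :=
      ((h2 K v (FR v W) (FR v W) (frX K v W) δ (p + 1)).1 C z hCa hza).2
    have hdb : ∀ t, bdF (frX K v W) (fun s => C s - z s) t = 0 := by
      intro t
      rw [((h2 K v (FR v W) (FR v W) (frX K v W) δ p).2.2.2.1 C z t).2, hzb, sub_self]
    have hk : e - m + 0 * (δ - 1) + δ = e + δ - m := by omega
    obtain ⟨y, hya, hyv, hyb⟩ := hyp 0 (by omega) W (E m) (fun t => C t - z t) hda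
      (fun t => by
        rw [hk]
        exact sub_mem (hCv t) (fe_of_er (hzv t) (by omega)))
      ((h3 K v (FR v W) (frX K v W) δ p _ hda).2 hdb)
    refine ⟨fun s => eps X (y s), (h2 K v (FR v W) W (frX K v W) δ (p + 1 + 1)).2.2.1 y (eps X) hya,
      ?_, ?_⟩
    · intro t
      have e1 := g2 _ _ (hyv t)
      have e2 : m + (e - m + 0 * (δ - 1)) = e := by omega
      rwa [e2] at e1
    · intro t
      rw [← hnat δ (p + 1) y t]
      have e1 := hyb t
      rw [e1, map_sub, hCe, (hzv t).2, sub_zero]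

end Pool.Agent.VOP
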