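import Pool.Agent.VOP.StmtsV

/-!
# MP_deb8da_ag, block V+L: Lemma C
-/

namespace Pool.Agent.VOP

open MvPolynomial Pool.Agent.VSY

namespace VLC

section Mod

variable {K : Type} [Field K] {v : ℕ} {W : Type} [AddCommGroup W] [Module K W]

theorem pow_mem {X : Fin v → (W →ₗ[K] W)} {E : ℕ → Submodule K W} (h : GrM X E) (i : Fin v)
    (n k : ℕ) (x : W) (hx : x ∈ E k) : ((X i : Module.End K W) ^ n) x ∈ E (k + n) := by
  induction n generalizing k x with
  | zero => simpa using hx
  | succ n ih =>
    rw [pow_succ, Module.End.mul_apply]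
    have := ih (k + 1) (X i x) (h.2 k i x hx)
    rwa [show k + 1 + n = k + (n + 1) by ring] at this

theorem list_mem {X : Fin v → (W →ₗ[K] W)} {E : ℕ → Submodule K W} (h : GrM X E)
    (α : Fin v → ℕ) (l : List (Fin v)) (k : ℕ) (x : W) (hx : x ∈ E k) :
    ((l.map fun i => (X i : Module.End K W) ^ α i).prod) x ∈ E (k + (l.map α).sum) := by
  induction l with
  | nil => simpa using hx
  | cons a l ih =>
    have h1 := pow_mem h a (α a) _ _ ih
    rw [show k + (l.map α).sum + α a = k + (α a + (l.map α).sum) by ring] at h1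
    simp only [List.map_cons, List.sum_cons]
    exact h1

theorem mo_mem {X : Fin v → (W →ₗ[K] W)} {E : ℕ → Submodule K W} (h : GrM X E)
    (α : Fin v → ℕ) (k : ℕ) (x : W) (hx : x ∈ E k) : mo X α x ∈ E (k + ∑ j, α j) := by
  have := list_mem h α (List.finRange v) k x hx
  rw [Fin.sum_univ_def]
  exact this

theorem bdF_mem {X : Fin v → (W →ₗ[K] W)} {E : ℕ → Submodule K W} (h : GrM X E) {δ p k : ℕ}
    (c : (Fin (p + 1) → Mn v δ) → W) (hc : ∀ t, c t ∈ E k) (t : Fin p → Mn v δ) :
    bdF X c t ∈ E (k + δ) := by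
  unfold bdF
  refine Submodule.sum_mem _ fun α _ => ?_
  have := mo_mem h α.1 k _ (hc (Fin.cons α t))
  rwa [(Finset.mem_piAntidiag.1 α.2).1] at this

end Mod

section Pt

variable {K : Type} [Field K] {A : Type} [DecidableEq A] {v : ℕ}

/-- the move as a linear map -/
noncomputable def dl (K : Type) [Field K] (v : ℕ) (b w : A) : PX K A v →ₗ[K] PX K A v :=
  (ren (K := K) (v := v) (mv b w)).toLinearMap

theorem dl_apply (b w : A) (f : PX K A v) : dl K v b w f = ren (mv b w) f := rfl

theorem ren_wX (b w : A) (i : Fin v) (f : PX K A v) :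
    ren (mv b w) (wX w i f) = wX w i (ren (mv b w) f) := by
  have h : mv b w w = w := by
    by_cases h : w = b
    · subst h; simp [mv]
    · simp [mv, Function.update_of_ne h]
  simp only [wX, LinearMap.mulLeft_apply, map_mul]
  congr 1
  simp [ren, h]

theorem upd (δ : A → ℕ) (w b : A) (k n : ℕ) (hbw : b ≠ w) (hn : δ b = n) :
    Function.update (Function.update (Function.update δ w k) b 0) w
      ((Function.update δ w k) w + (Function.update δ w k) b) =
      Function.update (Function.update δ b 0) w (k + n) := by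
  funext x
  by_cases hx : x = w
  · subst hx
    rw [Function.update_self, Function.update_self, Function.update_self,
      Function.update_of_ne hbw, hn]
  · rw [Function.update_of_ne hx, Function.update_of_ne hx]
    by_cases hx' : x = b
    · subst hx'; simp
    · rw [Function.update_of_ne hx', Function.update_of_ne hx', Function.update_of_ne hx]

end Pt

end VLC

open VLC in
theorem t_VLC (h1 : SV_NAT) (h2 : SV_AL) (h3 : SV_CYC) (h4 : SV_BB) (h5 : SV_ALL) (h6 : SV_PFL)
    (h7 : SV_MVL) (h8 : SV_RNB) : SV_LC := by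
  intro K _ _ v N m s hN hm
  induction s with
  | zero =>
    intro hPV A _ _ δ T S w hTS hwT hwS hS hSN
    obtain ⟨hG, hL⟩ := h6 K A v δ T S w hwT hwS
    have hS' : S = ∅ := Finset.card_eq_zero.1 hS
    have hE : (ES (K := K) (v := v) δ T S w) = FS δ T S w := by
      funext k
      ext f
      constructor
      · intro h; exact h.1
      · intro h
        refine ⟨h, fun u hu => ?_⟩
        rw [hS'] at hu
        exact absurd hu (Finset.notMem_empty u)
    rw [hE]
    exact ⟨hG, fun q e _ => hL q e (Nat.zero_le e)⟩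
  | succ s' ih =>
    intro hPV A _ _ δ T S w hTS hwT hwS hS hSN
    obtain ⟨hG, hL⟩ := h6 K A v δ T S w hwT hwS
    refine ⟨⟨hG.1, fun k i f hf => ⟨hG.2 k i f hf.1, fun u hu => ?_⟩⟩, ?_⟩
    · rw [ren_wX, hf.2 u hu, map_zero]
    obtain ⟨b, hb⟩ : S.Nonempty := Finset.card_pos.1 (by omega)
    have hbw : b ≠ w := fun h => hwS (h ▸ hb)
    have hbN : δ b = N := hSN b hb
    have hbS' : b ∉ S.erase b := Finset.notMem_erase b S
    have hwS' : w ∉ S.erase b := fun h => hwS (Finset.mem_of_mem_erase h)
    have hTS' : Disjoint T (S.erase b) := hTS.mono_right (Finset.erase_subset b S)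
    have hcard : (S.erase b).card = s' := by rw [Finset.card_erase_of_mem hb, hS]; rfl
    have hSN' : ∀ u ∈ S.erase b, (Function.update δ b 0) u = N := by
      intro u hu
      rw [Function.update_of_ne (Finset.ne_of_mem_erase hu)]
      exact hSN u (Finset.mem_of_mem_erase hu)
    have hcf : Cf T ∅ S w :=
      ⟨by simp, hTS, by simp, hwT, by simp, hwS⟩
    have hcf' : Cf T ∅ (S.erase b) w :=
      ⟨by simp, hTS', by simp, hwT, by simp, hwS'⟩
    obtain ⟨-, hL'⟩ := ih (fun p' e' hp he => hPV p' e' (by omega) he) A (Function.update δ b 0) T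
      (S.erase b) w hTS' hwT hwS' hcard hSN'
    -- the three facts
    have hcg : ∀ k f, f ∈ FS (K := K) (v := v) δ T S w k →
        Cg (Function.update δ w k) T ∅ S f := fun k f hf =>
      ⟨hf.1, hf.2.1, fun x hx => absurd hx (Finset.notMem_empty x), hf.2.2⟩
    have f1 : ∀ k f, f ∈ FS (K := K) (v := v) δ T S w k →
        ren (mv b w) f ∈ ES (K := K) (v := v) (Function.update δ b 0) T (S.erase b) w (k + N) := by
      intro k f hf
      obtain ⟨g1, g2, -, -⟩ := h7 K A v _ T ∅ S w b f hcf hb (hcg k f hf)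
      rw [upd δ w b k N hbw hbN] at g1
      exact ⟨⟨g1.dg, g1.sy, g1.alC⟩, g2⟩
    have f2 : ∀ k f, f ∈ FS (K := K) (v := v) δ T S w k → ren (mv b w) f = 0 →
        f ∈ ES (K := K) (v := v) δ T S w k := by
      intro k f hf h0
      obtain ⟨-, -, -, g4⟩ := h7 K A v _ T ∅ S w b f hcf hb (hcg k f hf)
      exact ⟨hf, g4 h0⟩
    have f3 : ∀ e' g, m ≤ e' + 1 →
        g ∈ ES (K := K) (v := v) (Function.update δ b 0) T (S.erase b) w (e' + N) →
        ∃ y ∈ FS (K := K) (v := v) δ T S w e', ren (mv b w) y = g := by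
      intro e' g he hg
      obtain ⟨G, hG1, hG2⟩ := hPV s' e' (by omega) he A
        (Function.update (Function.update δ b 0) w (e' + N)) T ∅ (S.erase b) w g hcf' hcard
        (fun x hx => by
          have hxw : x ≠ w := by
            rintro rfl
            exact hwS' hx
          rw [Function.update_of_ne hxw]
          exact hSN' x hx) (by rw [Function.update_self])
        ⟨hg.1.1, hg.1.2.1, fun x hx => absurd hx (Finset.notMem_empty x), hg.1.2.2⟩ hg.2
      have hext : ext (Function.update (Function.update δ b 0) w (e' + N)) N w e' =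
          ext (Function.update δ b 0) (δ b) w e' := by
        funext o
        cases o with
        | none => simp [ext, hbN]
        | some x =>
          simp only [ext]
          split_ifs with hx
          · rfl
          · rw [Function.update_of_ne hx]
      rw [hext] at hG1
      obtain ⟨k1, k2, -⟩ := h8 K A v δ T ∅ S w b e' G hcf hb hG1
      exact ⟨rn b G, ⟨k1.dg, k1.sy, k1.alC⟩, k2.trans hG2⟩
    intro q e he c hc hcE hcyc
    obtain ⟨y, hy, hyE, hyc⟩ := hL q e (Nat.zero_le e) c hc (fun t => (hcE t).1) hcyc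
    have hcomm : ∀ i f, dl K v b w (wX w i f) = wX w i (dl K v b w f) := fun i f => ren_wX b w i f
    obtain ⟨-, hnat, -⟩ := h1 K v (PX K A v) (PX K A v) (wX w) (wX w) (dl K v b w) hcomm
    have hdy : AltF fun t => dl K v b w (y t) :=
      (h2 K v (PX K A v) (PX K A v) (wX w) 1 (q + 1)).2.2.1 y (dl K v b w) hy
    have hdyc : CycF (wX w) fun t => dl K v b w (y t) := by
      refine (h3 K v (PX K A v) (wX w) 1 q _ hdy).2 fun t => ?_
      rw [← hnat 1 q y t, hyc t, dl_apply]
      exact (hcE t).2 b hb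
    have hN1 : e + N - 1 + 1 = e + N := by omega
    obtain ⟨y', hy', hyE', hyc'⟩ := hL' (q + 1) (e + N - 1) (by omega) _ hdy
      (fun t => by rw [hN1]; exact f1 e (y t) (hyE t)) hdyc
    have hN2 : e + N - 1 = e - 1 + N := by omega
    obtain ⟨y'', hy'', hyE'', hyc''⟩ := h5 K v (PX K A v) (PX K A v) (dl K v b w)
      (FS (K := K) (v := v) δ T S w (e - 1)) 1 (q + 1 + 1) y' hy' (fun t => by
        have := hyE' t
        rw [hN2] at this
        exact f3 (e - 1) (y' t) (by omega) this)
    obtain ⟨hal1, -, -, hal4, -, -⟩ := h2 K v (PX K A v) (PX K A v) (wX w) 1 q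
    obtain ⟨hal1', -, -, -, -, hal6'⟩ := h2 K v (PX K A v) (PX K A v) (wX w) 1 (q + 1)
    have hbd : AltF fun t => bdF (wX w) y'' t := hal6' y'' hy''
    have he1 : e - 1 + 1 = e := by omega
    refine ⟨fun t => y t - bdF (wX w) y'' t, (hal1' _ _ hy hbd).2, fun t => ?_, fun t => ?_⟩
    · refine f2 e _ (Submodule.sub_mem _ (hyE t) ?_) ?_
      · have := bdF_mem hG y'' hyE'' t
        rwa [he1] at this
      · rw [map_sub, sub_eq_zero]
        have g1 := (h1 K v (PX K A v) (PX K A v) (wX w) (wX w) (dl K v b w) hcomm).2.1 1 (q + 1)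
          y'' t
        rw [dl_apply] at g1
        rw [g1]
        have g2 : (fun s => dl K v b w (y'' s)) = y' := funext hyc''
        rw [g2, hyc' t]
        rfl
    · rw [(hal4 y (fun s => bdF (wX w) y'' s) t).2, hyc t,
        h4 K v (PX K A v) (wX w) 1 q y'' hG.1 hy'' t, sub_zero]

end Pool.Agent.VOP
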