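import Pool.Agent.VOP.StmtsV

/-!
# Module VLF: lifting of bicycles modulo `x(w)` from `PV` and `MVB`
-/

namespace Pool.Agent.VOP

open MvPolynomial Pool.Agent.VSY

namespace VLF

variable {K : Type} [Field K] {A : Type} [Fintype A] [DecidableEq A] {v : ℕ}

theorem swap_lin {p q w : A} (hp : p ≠ w) (hq : q ≠ w) (x : Fin v → K) :
    ren (Equiv.swap p q) (lin x w : PX K A v) = lin x w := by
  rw [DIV.ren_lin, Equiv.swap_apply_of_ne_of_ne hp.symm hq.symm]

theorem mv_lin {u w : A} (hu : u ≠ w) (x : Fin v → K) :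
    ren (mv u w) (lin x w : PX K A v) = lin x w := by
  rw [DIV.ren_lin, mv, Function.update_of_ne hu.symm, id]

theorem ne_of {S : Finset A} {w u : A} (hw : w ∉ S) (hu : u ∈ S) : u ≠ w := by
  rintro rfl
  exact hw hu

theorem cf_swap {T S C : Finset A} {w : A} (h : Cf T S C w) : Cf T C S w :=
  ⟨h.TC, h.TS, h.SC.symm, h.wT, h.wC, h.wS⟩

theorem cf_erase {T S C : Finset A} {w b : A} (h : Cf T S C w) : Cf T S (C.erase b) w :=
  ⟨h.TS, h.TC.mono_right (Finset.erase_subset _ _), h.SC.mono_right (Finset.erase_subset _ _),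
    h.wT, h.wS, fun h' => h.wC (Finset.mem_of_mem_erase h')⟩

theorem cg_swap {δ : A → ℕ} {T S C : Finset A} {f : PX K A v} (h : Cg δ T S C f) :
    Cg δ T C S f := ⟨h.dg, h.sy, h.alC, h.alS⟩

theorem cg_zero {δ : A → ℕ} {T S C : Finset A} : Cg δ T S C (0 : PX K A v) :=
  ⟨DG.zero δ, fun _ _ _ _ => map_zero _, fun _ _ _ _ _ => by rw [map_zero, neg_zero],
    fun _ _ _ _ _ => by rw [map_zero, neg_zero]⟩

theorem cg_add {δ : A → ℕ} {T S C : Finset A} {f g : PX K A v} (h : Cg δ T S C f)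
    (h' : Cg δ T S C g) : Cg δ T S C (f + g) := by
  refine ⟨DG.add h.dg h'.dg, fun p hp q hq => ?_, fun p hp q hq hpq => ?_,
    fun p hp q hq hpq => ?_⟩
  · rw [map_add, h.sy p hp q hq, h'.sy p hp q hq]
  · rw [map_add, h.alS p hp q hq hpq, h'.alS p hp q hq hpq, neg_add]
  · rw [map_add, h.alC p hp q hq hpq, h'.alC p hp q hq hpq, neg_add]

theorem cg_sub {δ : A → ℕ} {T S C : Finset A} {f g : PX K A v} (h : Cg δ T S C f)
    (h' : Cg δ T S C g) : Cg δ T S C (f - g) := by
  refine ⟨DG.sub h.dg h'.dg, fun p hp q hq => ?_, fun p hp q hq hpq => ?_,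
    fun p hp q hq hpq => ?_⟩
  · rw [map_sub, h.sy p hp q hq, h'.sy p hp q hq]
  · rw [map_sub, h.alS p hp q hq hpq, h'.alS p hp q hq hpq]; ring
  · rw [map_sub, h.alC p hp q hq hpq, h'.alC p hp q hq hpq]; ring

/-- Division by `x(w)`. -/
theorem quot {δ : A → ℕ} {T S C : Finset A} {w : A} {x : Fin v → K} {q : PX K A v} {k : ℕ}
    (hx : x ≠ 0) (hcf : Cf T S C w) (hw : δ w = k + 1) (h : Cg δ T S C (lin x w * q)) :
    Cg (Function.update δ w k) T S C q := by
  obtain ⟨d1, d2, -⟩ := DIV_thm DG_thm K A A v x hx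
  refine ⟨d2 δ w k q hw h.dg, fun p hp p' hp' => ?_, fun p hp p' hp' hne => ?_,
    fun p hp p' hp' hne => ?_⟩
  · apply d1 w
    have h1 := h.sy p hp p' hp'
    rwa [map_mul, swap_lin (ne_of hcf.wT hp) (ne_of hcf.wT hp')] at h1
  · apply d1 w
    have h1 := h.alS p hp p' hp' hne
    rwa [map_mul, swap_lin (ne_of hcf.wS hp) (ne_of hcf.wS hp'), ← mul_neg] at h1
  · apply d1 w
    have h1 := h.alC p hp p' hp' hne
    rwa [map_mul, swap_lin (ne_of hcf.wC hp) (ne_of hcf.wC hp'), ← mul_neg] at h1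

/-- Multiplication by `x(w)`. -/
theorem mulin {δ : A → ℕ} {T S C : Finset A} {w : A} {x : Fin v → K} {ρ : PX K A v} {e : ℕ}
    (hcf : Cf T S C w) (hw : δ w = e + 1) (h : Cg (Function.update δ w e) T S C ρ) :
    Cg δ T S C (lin x w * ρ) := by
  refine ⟨?_, fun p hp p' hp' => ?_, fun p hp p' hp' hne => ?_, fun p hp p' hp' hne => ?_⟩
  · have h1 := DG.mul (DG.lin x w) h.dg
    have h2 : (fun y => (Pi.single w 1 : A → ℕ) y + Function.update δ w e y) = δ := by
      funext y
      by_cases hy : y = w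
      · subst hy
        rw [Pi.single_eq_same, Function.update_self, hw, add_comm]
      · rw [Pi.single_eq_of_ne hy, Function.update_of_ne hy, zero_add]
    rwa [h2] at h1
  · rw [map_mul, swap_lin (ne_of hcf.wT hp) (ne_of hcf.wT hp'), h.sy p hp p' hp']
  · rw [map_mul, swap_lin (ne_of hcf.wS hp) (ne_of hcf.wS hp'), h.alS p hp p' hp' hne, mul_neg]
  · rw [map_mul, swap_lin (ne_of hcf.wC hp) (ne_of hcf.wC hp'), h.alC p hp p' hp' hne, mul_neg]

theorem mv_mul {u w : A} (hu : u ≠ w) (x : Fin v → K) (q : PX K A v) :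
    ren (mv u w) (lin x w * q) = lin x w * ren (mv u w) q := by
  rw [map_mul, mv_lin hu]

theorem mv_zero {u w : A} {x : Fin v → K} {q : PX K A v} (hx : x ≠ 0) (hu : u ≠ w)
    (h : ren (mv u w) (lin x w * q) = 0) : ren (mv u w) q = 0 := by
  rw [mv_mul hu] at h
  exact (mul_eq_zero.1 h).resolve_left (DIV.lin_ne_zero hx w)

/-- The part of the active letters `C` (`b ∈ C`), given a filling of the quotient. -/
theorem step (h1 : SV_MVL) (h2 : SV_RNB) [CharZero K] {δ : A → ℕ} {T S C : Finset A} {w b : A}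
    {x : Fin v → K} {f : PX K A v} {e d : ℕ} (hx : x ≠ 0) (hcf : Cf T S C w)
    (hb : b ∈ C) (hC : ∀ u ∈ C, δ u = d) (hw : δ w = e + 1) (hcg : Cg δ T S C f)
    (hdv : lin x w ∣ ren (mv b w) f)
    (P : PX K (Option A) v → Prop)
    (hfill : ∀ q : PX K A v,
      Cg (Function.update (Function.update δ b 0) w (e + d)) T S (C.erase b) q →
      Cy (C.erase b) w q → (∀ u ∈ S, ren (mv u w) f = 0 → ren (mv u w) q = 0) →
      ∃ g : PX K (Option A) v,
        Cg (ext (Function.update (Function.update δ b 0) w (e + d)) d w e) (sm T) (sm S)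
          (isn (C.erase b)) g ∧ P g ∧ rn w g = q) :
    ∃ g : PX K (Option A) v, P g ∧ Cg (Function.update δ w e) T S C (rn b g) ∧
      (∀ u ∈ S, ren (mv (some u) (some w)) g = 0 → ren (mv u w) (rn b g) = 0) ∧
      ∀ u ∈ C, ren (mv u w) (f - lin x w * rn b g) = 0 := by
  obtain ⟨q, hq⟩ := hdv
  obtain ⟨m1, m2, m3, -⟩ := h1 K A v δ T S C w b f hcf hb hcg
  have hbw : b ≠ w := ne_of hcf.wC hb
  rw [hq] at m1 m2 m3
  have q1 : Cg (Function.update (Function.update δ b 0) w (e + d)) T S (C.erase b) q := by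
    have h3 := quot (k := e + d) hx (cf_erase hcf)
      (by rw [Function.update_self, hw, hC b hb]; ring) m1
    rwa [Function.update_idem] at h3
  have q2 : Cy (C.erase b) w q := fun u hu =>
    mv_zero hx (ne_of hcf.wC (Finset.mem_of_mem_erase hu)) (m2 u hu)
  have q3 : ∀ u ∈ S, ren (mv u w) f = 0 → ren (mv u w) q = 0 := fun u hu h0 => by
    apply mv_zero hx (ne_of hcf.wS hu)
    rw [m3 u hu, h0, map_zero]
  obtain ⟨g, g1, g2, g3⟩ := hfill q q1 q2 q3
  have he : ext (Function.update (Function.update δ b 0) w (e + d)) d w e =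
      ext (Function.update δ b 0) (δ b) w e := by
    funext o
    rcases o with _ | y
    · exact (hC b hb).symm
    · by_cases hy : y = w
      · simp only [ext, if_pos hy]
      · simp only [ext, if_neg hy, Function.update_of_ne hy]
  rw [he] at g1
  obtain ⟨r1, r2, r3⟩ := h2 K A v δ T S C w b e g hcf hb g1
  refine ⟨g, g2, r1, r3, ?_⟩
  obtain ⟨-, -, -, n4⟩ := h1 K A v δ T S C w b (f - lin x w * rn b g) hcf hb
    (cg_sub hcg (mulin hcf hw r1))
  apply n4
  rw [map_sub, mv_mul hbw, r2, g3, hq, sub_self]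

end VLF

open VLF in
theorem t_VLF (h1 : SV_MVL) (h2 : SV_RNB) : SV_VLF := by
  intro K _ _ v N d s l e hN hd hP hM A _ _ δ T S C w x f hcf hs hl hx hS hC hw hcg hdv
  -- the `S`-part
  obtain ⟨ρ₁, a1, a2⟩ : ∃ ρ₁ : PX K A v, Cg (Function.update δ w e) T S C ρ₁ ∧
      ∀ u ∈ S, ren (mv u w) (f - lin x w * ρ₁) = 0 := by
    rcases S.eq_empty_or_nonempty with h0 | ⟨b, hb⟩
    · refine ⟨0, cg_zero, fun u hu => ?_⟩
      rw [h0] at hu
      exact absurd hu (Finset.notMem_empty u)
    · have hs1 : 1 ≤ s := by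
        rw [← hs]
        exact Finset.card_pos.2 ⟨b, hb⟩
      obtain ⟨g, -, b1, -, b2⟩ := step h1 h2 hx (cf_swap hcf) hb hS hw (cg_swap hcg)
        (hdv b (Finset.mem_union_left _ hb)) (fun _ => True) (fun q q1 q2 _ => by
          obtain ⟨g, g1, g2⟩ := hP hs1 A (Function.update (Function.update δ b 0) w (e + N)) T C
            (S.erase b) w q (cf_erase (cf_swap hcf)) (by rw [Finset.card_erase_of_mem hb, hs])
            (fun u hu => by
              rw [Function.update_of_ne (ne_of hcf.wS (Finset.mem_of_mem_erase hu)),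
                Function.update_of_ne (Finset.ne_of_mem_erase hu)]
              exact hS u (Finset.mem_of_mem_erase hu))
            (by rw [Function.update_self]) q1 q2
          exact ⟨g, g1, trivial, g2⟩)
      exact ⟨rn b g, cg_swap b1, b2⟩
  -- the `C`-part
  have hcg1 : Cg δ T S C (f - lin x w * ρ₁) := cg_sub hcg (mulin hcf hw a1)
  obtain ⟨ρ₂, c1, c2, c3⟩ : ∃ ρ₂ : PX K A v, Cg (Function.update δ w e) T S C ρ₂ ∧
      (∀ u ∈ S, ren (mv u w) ρ₂ = 0) ∧
      ∀ u ∈ C, ren (mv u w) (f - lin x w * ρ₁ - lin x w * ρ₂) = 0 := by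
    rcases C.eq_empty_or_nonempty with h0 | ⟨c, hc⟩
    · refine ⟨0, cg_zero, fun u _ => map_zero _, fun u hu => ?_⟩
      rw [h0] at hu
      exact absurd hu (Finset.notMem_empty u)
    · have hl1 : 1 ≤ l := by
        rw [← hl]
        exact Finset.card_pos.2 ⟨c, hc⟩
      have hdc : lin x w ∣ ren (mv c w) (f - lin x w * ρ₁) := by
        rw [map_sub, mv_mul (ne_of hcf.wC hc)]
        exact dvd_sub (hdv c (Finset.mem_union_right _ hc)) (Dvd.intro _ rfl)
      obtain ⟨g, b0, b1, b2, b3⟩ := step h1 h2 hx hcf hc hC hw hcg1 hdc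
        (fun g => Cy (sm S) (some w) g) (fun q q1 q2 q3 => by
          obtain ⟨g, g1, g2, g3⟩ := hM hl1 A
            (Function.update (Function.update δ c 0) w (e + d)) T S
            (C.erase c) w q (cf_erase hcf) hs (by rw [Finset.card_erase_of_mem hc, hl])
            (fun u hu => by
              rw [Function.update_of_ne (ne_of hcf.wS hu), Function.update_of_ne]
              · exact hS u hu
              · rintro rfl
                exact Finset.disjoint_left.1 hcf.SC hu hc)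
            (fun u hu => by
              rw [Function.update_of_ne (ne_of hcf.wC (Finset.mem_of_mem_erase hu)),
                Function.update_of_ne (Finset.ne_of_mem_erase hu)]
              exact hC u (Finset.mem_of_mem_erase hu))
            (by rw [Function.update_self]) q1 (fun u hu => q3 u hu (a2 u hu)) q2
          exact ⟨g, g1, g2, g3⟩)
      refine ⟨rn c g, b1, fun u hu => b2 u hu (b0 (some u) ?_), b3⟩
      exact Finset.mem_map.2 ⟨u, hu, rfl⟩
  refine ⟨ρ₁ + ρ₂, cg_add a1 c1, fun u hu => ?_⟩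
  have he : f - lin x w * (ρ₁ + ρ₂) = f - lin x w * ρ₁ - lin x w * ρ₂ := by ring
  rw [he]
  rcases Finset.mem_union.1 hu with h | h
  · rw [map_sub, a2 u h, mv_mul (ne_of hcf.wS h), c2 u h, mul_zero, sub_zero]
  · exact c3 u h

end Pool.Agent.VOP
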