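import Pool.Agent.VOP.StmtsV

/-!
# The Ottaviani-Paoletti conjecture (MP_deb8da_ag): VMO (the operators `mo X α`)
-/

namespace Pool.Agent.VOP

open MvPolynomial Pool.Agent.VSY

namespace VMO

variable {K : Type} [Field K] {v : ℕ} {W : Type} [AddCommGroup W] [Module K W]

/-- The product over a list. -/
noncomputable def ml (X : Fin v → (W →ₗ[K] W)) (α : Fin v → ℕ) (L : List (Fin v)) :
    Module.End K W :=
  (L.map fun i => (X i : Module.End K W) ^ α i).prod

theorem mo_eq (X : Fin v → (W →ₗ[K] W)) (α : Fin v → ℕ) :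
    mo X α = ml X α (List.finRange v) := rfl

theorem ml_cons (X : Fin v → (W →ₗ[K] W)) (α : Fin v → ℕ) (i : Fin v) (L : List (Fin v)) :
    ml X α (i :: L) = (X i : Module.End K W) ^ α i * ml X α L := by
  unfold ml
  rw [List.map_cons, List.prod_cons]

theorem ml_nil (X : Fin v → (W →ₗ[K] W)) (α : Fin v → ℕ) : ml X α [] = 1 := rfl

theorem ml_zero (X : Fin v → (W →ₗ[K] W)) (L : List (Fin v)) : ml X 0 L = 1 := by
  induction L with
  | nil => rfl
  | cons i L ih => rw [ml_cons, ih, Pi.zero_apply, pow_zero, mul_one]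

theorem ml_single_of_notMem (X : Fin v → (W →ₗ[K] W)) (i : Fin v) (L : List (Fin v))
    (h : i ∉ L) : ml X (Pi.single i 1) L = 1 := by
  induction L with
  | nil => rfl
  | cons j L ih =>
    rw [List.mem_cons, not_or] at h
    rw [ml_cons, ih h.2, Pi.single_eq_of_ne (Ne.symm h.1), pow_zero, mul_one]

theorem ml_single_of_mem (X : Fin v → (W →ₗ[K] W)) (i : Fin v) (L : List (Fin v))
    (h : i ∈ L) (hL : L.Nodup) : ml X (Pi.single i 1) L = X i := by
  induction L with
  | nil => exact absurd h (List.not_mem_nil)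
  | cons j L ih =>
    rw [List.nodup_cons] at hL
    rw [ml_cons]
    by_cases hij : i = j
    · subst hij
      rw [ml_single_of_notMem X i L hL.1, Pi.single_eq_same, pow_one, mul_one]
    · have h' : i ∈ L := by
        rcases List.mem_cons.1 h with h | h
        · exact absurd h hij
        · exact h
      rw [ih h' hL.2, Pi.single_eq_of_ne (Ne.symm hij), pow_zero, one_mul]

theorem commute_ml (X : Fin v → (W →ₗ[K] W)) (hX : ∀ i j, X i ∘ₗ X j = X j ∘ₗ X i)
    (α : Fin v → ℕ) (i : Fin v) (L : List (Fin v)) :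
    Commute (ml X α L) (X i : Module.End K W) := by
  induction L with
  | nil => exact Commute.one_left _
  | cons j L ih =>
    rw [ml_cons]
    have h1 : Commute (X j : Module.End K W) (X i : Module.End K W) := hX j i
    exact (h1.pow_left (α j)).mul_left ih

theorem ml_add (X : Fin v → (W →ₗ[K] W)) (hX : ∀ i j, X i ∘ₗ X j = X j ∘ₗ X i)
    (α β : Fin v → ℕ) (L : List (Fin v)) : ml X (α + β) L = ml X α L * ml X β L := by
  induction L with
  | nil => rw [ml_nil, ml_nil, ml_nil, mul_one]
  | cons j L ih =>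
    have h1 : Commute (ml X α L) ((X j : Module.End K W) ^ β j) :=
      (commute_ml X hX α j L).pow_right _
    rw [ml_cons, ml_cons, ml_cons, ih, Pi.add_apply, pow_add, mul_assoc, mul_assoc]
    rw [← mul_assoc ((X j : Module.End K W) ^ β j) (ml X α L), ← h1.eq, mul_assoc]

theorem pow_mem (X : Fin v → (W →ₗ[K] W)) (E : ℕ → Submodule K W)
    (hE : ∀ k i, ∀ x ∈ E k, X i x ∈ E (k + 1)) (i : Fin v) (n : ℕ) :
    ∀ k, ∀ x ∈ E k, ((X i : Module.End K W) ^ n) x ∈ E (k + n) := by
  induction n with
  | zero =>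
    intro k x hx
    rw [pow_zero, Module.End.one_apply, add_zero]
    exact hx
  | succ n ih =>
    intro k x hx
    rw [pow_succ', Module.End.mul_apply]
    exact hE (k + n) i _ (ih k x hx)

theorem ml_mem (X : Fin v → (W →ₗ[K] W)) (E : ℕ → Submodule K W)
    (hE : ∀ k i, ∀ x ∈ E k, X i x ∈ E (k + 1)) (α : Fin v → ℕ) (L : List (Fin v)) :
    ∀ k, ∀ x ∈ E k, ml X α L x ∈ E (k + (L.map α).sum) := by
  induction L with
  | nil =>
    intro k x hx
    rw [ml_nil, Module.End.one_apply, List.map_nil, List.sum_nil, add_zero]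
    exact hx
  | cons j L ih =>
    intro k x hx
    rw [ml_cons, Module.End.mul_apply, List.map_cons, List.sum_cons]
    have h1 := pow_mem X E hE j (α j) _ _ (ih k x hx)
    rw [add_comm (α j), ← add_assoc]
    exact h1

theorem map_pow {W' : Type} [AddCommGroup W'] [Module K W'] (X : Fin v → (W →ₗ[K] W))
    (X' : Fin v → (W' →ₗ[K] W')) (f : W →ₗ[K] W') (hf : ∀ i w, f (X i w) = X' i (f w))
    (i : Fin v) (n : ℕ) (w : W) :
    f (((X i : Module.End K W) ^ n) w) = ((X' i : Module.End K W') ^ n) (f w) := by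
  induction n with
  | zero => rw [pow_zero, pow_zero, Module.End.one_apply, Module.End.one_apply]
  | succ n ih =>
    rw [pow_succ', pow_succ', Module.End.mul_apply, Module.End.mul_apply, hf, ih]

theorem map_ml {W' : Type} [AddCommGroup W'] [Module K W'] (X : Fin v → (W →ₗ[K] W))
    (X' : Fin v → (W' →ₗ[K] W')) (f : W →ₗ[K] W') (hf : ∀ i w, f (X i w) = X' i (f w))
    (α : Fin v → ℕ) (L : List (Fin v)) (w : W) : f (ml X α L w) = ml X' α L (f w) := by
  induction L with
  | nil => rw [ml_nil, ml_nil, Module.End.one_apply, Module.End.one_apply]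
  | cons j L ih =>
    rw [ml_cons, ml_cons, Module.End.mul_apply, Module.End.mul_apply, map_pow X X' f hf, ih]

end VMO

theorem t_VMO : SV_MO := by
  intro K _ v W _ _ X
  refine ⟨fun w => ?_, fun i w => ?_, fun hX => ⟨fun α i w => ?_, fun α β w => ?_⟩,
    fun E hE k α x hx => ?_⟩
  · rw [VMO.mo_eq, VMO.ml_zero, Module.End.one_apply]
  · rw [VMO.mo_eq, VMO.ml_single_of_mem X i _ (List.mem_finRange i) (List.nodup_finRange v)]
  · have h := VMO.commute_ml X hX α i (List.finRange v)
    exact congrArg (fun g : Module.End K W => g w) h.eq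
  · have h := VMO.ml_add X hX α β (List.finRange v)
    exact congrArg (fun g : Module.End K W => g w) h
  · have h := VMO.ml_mem X E hE.2 α (List.finRange v) k x hx
    rw [Fin.sum_univ_def]
    exact h

theorem t_VNAT : SV_NAT := by
  intro K _ v W W' _ _ _ _ X X' f hf
  have hmo : ∀ α w, f (mo X α w) = mo X' α (f w) := fun α w =>
    VMO.map_ml X X' f hf α (List.finRange v) w
  refine ⟨hmo, fun δ p c t => ?_, fun δ p c hc i t => ?_⟩
  · unfold bdF
    rw [map_sum]
    exact Finset.sum_congr rfl fun α _ => hmo _ _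
  · have h := congrArg f (hc i t)
    rw [map_sum, map_zero] at h
    rw [← h]
    exact Finset.sum_congr rfl fun α _ => (hmo _ _).symm

end Pool.Agent.VOP
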