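import Pool.Agent.VOP.StmtsV

/-!
# Module VMVL: a point of `C` is moved to `w`
-/

namespace Pool.Agent.VOP

open MvPolynomial Pool.Agent.VSY

namespace VMVL

variable {K : Type} [Field K] {A : Type} [DecidableEq A] {v : ℕ}

theorem mv_self (u w : A) : mv u w u = w := Function.update_self _ _ _

theorem mv_ne {u w a : A} (h : a ≠ u) : mv u w a = a := Function.update_of_ne h _ _

theorem ren_comm {b w : A} {σ : Equiv.Perm A} (hb : σ b = b) (hw : σ w = w) (f : PX K A v) :
    ren σ (ren (mv b w) f) = ren (mv b w) (ren σ f) := by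
  rw [ren_ren, ren_ren]
  refine ren_congr (fun a => ?_) f
  rw [Function.comp_apply, Function.comp_apply]
  by_cases ha : a = b
  · rw [ha, mv_self, hb, mv_self, hw]
  · rw [mv_ne ha, mv_ne]
    intro h
    exact ha (σ.injective (h.trans hb.symm))

theorem dg [Fintype A] {b w : A} (hbw : b ≠ w) {δ : A → ℕ} {f : PX K A v} (hf : Dg δ f) :
    Dg (Function.update (Function.update δ b 0) w (δ w + δ b)) (ren (mv b w) f) := by
  intro m hm x
  obtain ⟨m', hm', rfl⟩ := exists_of_mem_support_ren _ _ hm
  rw [mapDomain_sum]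
  have h1 : ∑ a ∈ Finset.univ.filter (fun a => mv b w a = x), ∑ j, m' (a, j) =
      ∑ a ∈ Finset.univ.filter (fun a => mv b w a = x), δ a :=
    Finset.sum_congr rfl fun a _ => hf m' hm' a
  rw [h1]
  by_cases hxw : x = w
  · rw [hxw, Function.update_self]
    have h2 : Finset.univ.filter (fun a => mv b w a = w) = {w, b} := by
      ext a
      rw [Finset.mem_filter, Finset.mem_insert, Finset.mem_singleton]
      constructor
      · rintro ⟨-, ha⟩
        by_cases hab : a = b
        · exact Or.inr hab
        · rw [mv_ne hab] at ha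
          exact Or.inl ha
      · rintro (rfl | rfl)
        · exact ⟨Finset.mem_univ _, mv_ne hbw.symm⟩
        · exact ⟨Finset.mem_univ _, mv_self _ _⟩
    rw [h2, Finset.sum_pair hbw.symm]
  · rw [Function.update_of_ne hxw]
    by_cases hxb : x = b
    · rw [hxb, Function.update_self]
      refine Finset.sum_eq_zero fun a ha => ?_
      rw [Finset.mem_filter] at ha
      exfalso
      by_cases hab : a = b
      · rw [hab, mv_self] at ha
        exact hbw ha.2.symm
      · rw [mv_ne hab] at ha
        exact hab ha.2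
    · rw [Function.update_of_ne hxb]
      have h2 : Finset.univ.filter (fun a => mv b w a = x) = {x} := by
        ext a
        rw [Finset.mem_filter, Finset.mem_singleton]
        constructor
        · rintro ⟨-, ha⟩
          by_cases hab : a = b
          · rw [hab, mv_self] at ha
            exact absurd ha.symm hxw
          · rwa [mv_ne hab] at ha
        · rintro rfl
          exact ⟨Finset.mem_univ _, mv_ne hxb⟩
      rw [h2, Finset.sum_singleton]

theorem self_neg [CharZero K] {f : PX K A v} (h : f = -f) : f = 0 := by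
  have h1 : (2 : K) • f = 0 := by
    rw [two_smul]
    nth_rewrite 1 [h]
    exact neg_add_cancel f
  exact (smul_eq_zero.1 h1).resolve_left two_ne_zero

end VMVL

open VMVL in
/-- A point `b ∈ C` is moved to `w`. -/
theorem t_VMVL : SV_MVL := by
  intro K _ _ A _ _ v δ T S C w b f hc hb hf
  have hbw : b ≠ w := fun h => hc.wC (h ▸ hb)
  have hbT : b ∉ T := fun h => Finset.disjoint_left.1 hc.TC h hb
  have hbS : b ∉ S := fun h => Finset.disjoint_left.1 hc.SC h hb
  have hsw : ∀ {R : Finset A}, b ∉ R → w ∉ R → ∀ x ∈ R, ∀ y ∈ R,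
      ren (Equiv.swap x y) (ren (mv b w) f) = ren (mv b w) (ren (Equiv.swap x y) f) := by
    intro R h1 h2 x hx y hy
    refine ren_comm (Equiv.swap_apply_of_ne_of_ne ?_ ?_) (Equiv.swap_apply_of_ne_of_ne ?_ ?_) f
    · rintro rfl
      exact h1 hx
    · rintro rfl
      exact h1 hy
    · rintro rfl
      exact h2 hx
    · rintro rfl
      exact h2 hy
  refine ⟨⟨dg hbw hf.dg, ?_, ?_, ?_⟩, ?_, ?_, ?_⟩
  · intro x hx y hy
    rw [hsw hbT hc.wT x hx y hy, hf.sy x hx y hy]
  · intro x hx y hy hxy
    rw [hsw hbS hc.wS x hx y hy, hf.alS x hx y hy hxy, map_neg]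
  · intro x hx y hy hxy
    rw [hsw (Finset.notMem_erase b C) (fun h => hc.wC (Finset.mem_of_mem_erase h)) x hx y hy,
      hf.alC x (Finset.mem_of_mem_erase hx) y (Finset.mem_of_mem_erase hy) hxy, map_neg]
  · intro u hu
    have huC := Finset.mem_of_mem_erase hu
    have hub : u ≠ b := Finset.ne_of_mem_erase hu
    have huw : u ≠ w := fun h => hc.wC (h ▸ huC)
    apply self_neg
    rw [← map_neg, ← map_neg, ← hf.alC b hb u huC hub.symm, ren_ren, ren_ren, ren_ren]
    refine ren_congr (fun a => ?_) f
    simp only [Function.comp_apply]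
    by_cases hab : a = b
    · rw [hab, Equiv.swap_apply_left, mv_self, mv_ne hub, mv_self, mv_ne huw.symm]
    · by_cases hau : a = u
      · rw [hau, Equiv.swap_apply_right, mv_self, mv_ne hub, mv_self, mv_ne huw.symm]
      · rw [Equiv.swap_apply_of_ne_of_ne hab hau]
  · intro u hu
    have hub : u ≠ b := fun h => hbS (h ▸ hu)
    have huw : u ≠ w := fun h => hc.wS (h ▸ hu)
    rw [ren_ren, ren_ren]
    refine ren_congr (fun a => ?_) f
    rw [Function.comp_apply, Function.comp_apply]
    by_cases hab : a = b
    · rw [hab, mv_self, mv_ne huw.symm, mv_ne hub.symm, mv_self]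
    · rw [mv_ne hab]
      by_cases hau : a = u
      · rw [hau, mv_self, mv_ne hbw.symm]
      · rw [mv_ne hau, mv_ne hab]
  · intro h0 u hu
    by_cases hub : u = b
    · rw [hub, h0]
    · have h1 : ren (mv u w) f = -ren (mv u w) (ren (Equiv.swap b u) f) := by
        rw [hf.alC b hb u hu (Ne.symm hub), map_neg, neg_neg]
      have h2 : ren (mv u w) (ren (Equiv.swap b u) f) = ren (mv u b) (ren (mv b w) f) := by
        rw [ren_ren, ren_ren]
        refine ren_congr (fun a => ?_) f
        rw [Function.comp_apply, Function.comp_apply]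
        have huw : u ≠ w := fun h => hc.wC (h ▸ hu)
        by_cases hab : a = b
        · rw [hab, Equiv.swap_apply_left, mv_self, mv_self, mv_ne huw.symm]
        · rw [mv_ne hab]
          by_cases hau : a = u
          · rw [hau, Equiv.swap_apply_right, mv_self, mv_ne (Ne.symm hub)]
          · rw [Equiv.swap_apply_of_ne_of_ne hab hau, mv_ne hau, mv_ne hau]
      rw [h1, h2, h0, map_zero, neg_zero]

end Pool.Agent.VOP
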