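import Pool.Agent.VOP.StmtsV

/-!
# VOP, module VPFL: polynomials in the coordinates of the point `w`
-/

namespace Pool.Agent.VOP

open MvPolynomial Pool.Agent.VSY

namespace VPFL

variable {K : Type} [Field K] {A : Type} [DecidableEq A] {v : ℕ}

theorem ren_X {B : Type} (φ : A → B) (a : A) (i : Fin v) :
    ren φ (X (a, i) : PX K A v) = X (φ a, i) := by
  unfold ren
  rw [rename_X]
  rfl

/-- multiplication by a variable at `w` raises the degree -/
theorem dg_mul (δ : A → ℕ) (w : A) (k : ℕ) (i : Fin v) {f : PX K A v}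
    (hf : Dg (Function.update δ w k) f) :
    Dg (Function.update δ w (k + 1)) (X (w, i) * f) := by
  have h := DG.mul (DG.var (K := K) w i) hf
  have e : (fun x => (Pi.single w 1 : A → ℕ) x + Function.update δ w k x) =
      Function.update δ w (k + 1) := by
    funext x
    by_cases hx : x = w
    · subst hx
      simp only [Pi.single_eq_same, Function.update_self]
      omega
    · rw [Pi.single_eq_of_ne hx, Function.update_of_ne hx, Function.update_of_ne hx, zero_add]
  rwa [e] at h

/-- the derivative lowers the degree -/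
theorem dg_der (δ : A → ℕ) (w : A) (k : ℕ) (i : Fin v) {f : PX K A v}
    (hf : Dg (Function.update δ w (k + 1)) f) :
    Dg (Function.update δ w k) (pderiv (w, i) f) := by
  classical
  intro m hm x
  rw [mem_support_iff, coeff_pderiv] at hm
  have h1 : m + Finsupp.single (w, i) 1 ∈ f.support := by
    rw [mem_support_iff]
    intro h
    exact hm (by rw [h, zero_mul])
  have h2 := hf _ h1 x
  simp only [Finsupp.add_apply, Finset.sum_add_distrib] at h2
  by_cases hx : x = w
  · subst hx
    have h3 : ∑ j, (Finsupp.single ((x, i) : A × Fin v) 1 : A × Fin v →₀ ℕ) (x, j) = 1 := by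
      simp [Finsupp.single_apply]
    rw [h3, Function.update_self] at h2
    rw [Function.update_self]
    omega
  · have h3 : ∑ j, (Finsupp.single ((w, i) : A × Fin v) 1 : A × Fin v →₀ ℕ) (x, j) = 0 := by
      refine Finset.sum_eq_zero fun j _ => ?_
      rw [Finsupp.single_apply, if_neg]
      intro h4
      exact hx (congrArg Prod.fst h4).symm
    rw [h3, Function.update_of_ne hx] at h2
    rw [Function.update_of_ne hx]
    omega

theorem swap_fix {T : Finset A} {w : A} (hw : w ∉ T) {x y : A} (hx : x ∈ T) (hy : y ∈ T) :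
    Equiv.swap x y w = w := by
  refine Equiv.swap_apply_of_ne_of_ne ?_ ?_
  · rintro rfl
    exact hw hx
  · rintro rfl
    exact hw hy

/-- renaming by a permutation fixing `w` commutes with the derivative -/
theorem ren_der (π : Equiv.Perm A) (w : A) (h : π w = w) (i : Fin v) (f : PX K A v) :
    ren π (pderiv (w, i) f) = pderiv (w, i) (ren π f) := by
  unfold ren
  have hinj : Function.Injective (Prod.map (π : A → A) (id : Fin v → Fin v)) :=
    π.injective.prodMap Function.injective_id
  have := pderiv_rename hinj (w, i) f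
  rw [← this]
  simp only [Prod.map_apply, id_eq, h]

/-- Euler's identity at the point `w` -/
theorem euler [Fintype A] (w : A) (k : ℕ) (δ : A → ℕ) {f : PX K A v}
    (hf : Dg (Function.update δ w k) f) :
    ∑ j : Fin v, X (w, j) * pderiv (w, j) f = k • f := by
  classical
  have h : f.IsWeightedHomogeneous (fun p : A × Fin v => if p.1 = w then 1 else 0) k := by
    intro m hm
    have h1 := hf m (mem_support_iff.2 hm) w
    rw [Function.update_self] at h1
    rw [Finsupp.weight_apply, Finsupp.sum_fintype _ _ (fun p => by simp), Fintype.sum_prod_type]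
    rw [Finset.sum_eq_single w]
    · simp only [if_true, smul_eq_mul, mul_one]
      exact h1
    · intro x _ hx
      simp [hx]
    · intro h
      exact absurd (Finset.mem_univ _) h
  have h2 := h.sum_weight_X_mul_pderiv
  rw [Fintype.sum_prod_type, Finset.sum_eq_single w] at h2
  · simpa using h2
  · intro x _ hx
    simp [hx]
  · intro h
    exact absurd (Finset.mem_univ _) h

/-- the derivative by a coordinate of `w` -/
noncomputable def dX (w : A) (i : Fin v) : PX K A v →ₗ[K] PX K A v :=
  (pderiv (w, i)).toLinearMap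

theorem dX_apply (w : A) (i : Fin v) (f : PX K A v) : dX w i f = pderiv (w, i) f := rfl

theorem wX_apply (w : A) (i : Fin v) (f : PX K A v) : wX w i f = X (w, i) * f := rfl

theorem wX_mem (δ : A → ℕ) (T S : Finset A) (w : A) (hT : w ∉ T) (hS : w ∉ S) (k : ℕ)
    (i : Fin v) (f : PX K A v) (hf : f ∈ FS (K := K) (v := v) δ T S w k) :
    wX w i f ∈ FS (K := K) (v := v) δ T S w (k + 1) := by
  obtain ⟨h1, h2, h3⟩ := hf
  rw [wX_apply]
  refine ⟨dg_mul δ w k i h1, fun x hx y hy => ?_, fun x hx y hy hxy => ?_⟩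
  · rw [map_mul, VPFL.ren_X, swap_fix hT hx hy, h2 x hx y hy]
  · rw [map_mul, VPFL.ren_X, swap_fix hS hx hy, h3 x hx y hy hxy, mul_neg]

theorem dX_mem (δ : A → ℕ) (T S : Finset A) (w : A) (hT : w ∉ T) (hS : w ∉ S) (k : ℕ)
    (i : Fin v) (f : PX K A v) (hf : f ∈ FS (K := K) (v := v) δ T S w (k + 1)) :
    dX w i f ∈ FS (K := K) (v := v) δ T S w k := by
  obtain ⟨h1, h2, h3⟩ := hf
  rw [dX_apply]
  refine ⟨dg_der δ w k i h1, fun x hx y hy => ?_, fun x hx y hy hxy => ?_⟩
  · rw [ren_der _ w (swap_fix hT hx hy), h2 x hx y hy]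
  · rw [ren_der _ w (swap_fix hS hx hy), h3 x hx y hy hxy, map_neg]

theorem comm_wX (w : A) (i j : Fin v) :
    (wX w i : PX K A v →ₗ[K] PX K A v) ∘ₗ wX w j = wX w j ∘ₗ wX w i := by
  refine LinearMap.ext fun f => ?_
  rw [LinearMap.comp_apply, LinearMap.comp_apply, wX_apply, wX_apply, wX_apply, wX_apply,
    mul_left_comm]

theorem dX_wX (w : A) (i j : Fin v) (f : PX K A v) :
    dX w i (wX w j f) = wX w j (dX w i f) + if i = j then f else 0 := by
  rw [dX_apply, dX_apply, wX_apply, wX_apply, pderiv_mul, add_comm, pderiv_X]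
  by_cases hij : i = j
  · subst hij
    rw [Pi.single_eq_same, one_mul, if_pos rfl]
  · rw [Pi.single_eq_of_ne, zero_mul, if_neg hij]
    intro e
    exact hij (congrArg Prod.snd e).symm

theorem euler' [Fintype A] (δ : A → ℕ) (T S : Finset A) (w : A) (k : ℕ) (f : PX K A v)
    (hf : f ∈ FS (K := K) (v := v) δ T S w k) :
    ∑ j : Fin v, wX w j (dX w j f) = (k : K) • f := by
  obtain ⟨h1, -, -⟩ := hf
  have h2 := euler w k δ h1
  rw [Nat.cast_smul_eq_nsmul, ← h2]
  exact Finset.sum_congr rfl fun j _ => rfl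

end VPFL

theorem t_VPFL (h : SV_HOM) : SV_PFL := by
  intro K _ _ A _ _ v δ T S w hT hS
  exact ⟨⟨VPFL.comm_wX w, fun k i f hf => VPFL.wX_mem δ T S w hT hS k i f hf⟩,
    h K v (PX K A v) (wX w) (VPFL.dX w) (FS (v := v) δ T S w) (VPFL.dX_wX w)
      (fun k i f hf => VPFL.dX_mem δ T S w hT hS k i f hf)
      (fun k f hf => VPFL.euler' δ T S w k f hf)⟩

end Pool.Agent.VOP
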