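import Pool.Agent.VOP.StmtsV
import Pool.Agent.VOP.GD2

/-!
# The Ottaviani-Paoletti conjecture (MP_deb8da_ag): vanishing with parameters (PVM)
-/

namespace Pool.Agent.VOP

open MvPolynomial Pool.Agent.VSY

namespace VPVM

variable {K : Type} [Field K] {A : Type} [Fintype A] [DecidableEq A] {v : ℕ}

/-- alternation over the old points commutes with `rn w` -/
theorem rn_altS (S : Finset A) (w : A) (hw : w ∉ S) (g : PX K (Option A) v) :
    rn w (alt (sm S) g) = alt S (rn w g) := by
  unfold alt
  rw [map_sum]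
  symm
  refine Finset.sum_bij (fun σ _ => Equiv.optionCongr σ) ?_ ?_ ?_ ?_
  · intro σ hσ
    rw [GD2.mem_pS] at hσ ⊢
    intro o ho
    cases o with
    | none => simp
    | some x =>
      rw [GD2.some_mem_sm] at ho
      simp [hσ x ho]
  · intro σ _ τ _ h
    exact Equiv.optionCongr_injective h
  · intro π hπ
    obtain ⟨σ, h1, h2⟩ := GD2.pS_sm S π hπ
    exact ⟨σ, h1, h2⟩
  · intro σ hσ
    rw [GD2.mem_pS] at hσ
    rw [Equiv.optionCongr_sign, map_zsmul, rn, ren_ren, ren_ren]
    congr 1
    apply ren_congr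
    intro o
    rw [Function.comp_apply, Function.comp_apply]
    cases o with
    | none => simp [hσ w hw]
    | some a => simp

/-- the degrees of an alternating polynomial are constant -/
theorem deg_const (δ : A → ℕ) (S : Finset A) (f : PX K A v) (hf0 : f ≠ 0) (hf : Dg δ f)
    (ha : Al S f) (x : A) (hx : x ∈ S) (y : A) (hy : y ∈ S) : δ x = δ y := by
  by_cases hxy : x = y
  · rw [hxy]
  · obtain ⟨m, hm⟩ := support_nonempty.2 hf0
    have hm' : m ∈ (ren (Equiv.swap x y) f).support := by
      rw [ha x hx y hy hxy, support_neg]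
      exact hm
    obtain ⟨m', hm1, hm2⟩ := exists_of_mem_support_ren _ f hm'
    have h1 := hf m hm y
    rw [← hm2, mapDomain_sum] at h1
    have h2 : (Finset.univ.filter fun a => Equiv.swap x y a = y) = {x} := by
      ext a
      rw [Finset.mem_filter, Finset.mem_singleton]
      constructor
      · rintro ⟨_, h⟩
        have h' := congrArg (Equiv.swap x y) h
        rwa [Equiv.swap_apply_self, Equiv.swap_apply_right] at h'
      · intro h
        exact ⟨Finset.mem_univ _, by rw [h, Equiv.swap_apply_left]⟩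
    rw [h2, Finset.sum_singleton, hf m' hm1 x] at h1
    exact h1

end VPVM

theorem t_VPVM : SV_PVM := by
  intro K _ _ v d p e _ hvan A _ _ δ T S C w f hcf hCp hCd hw hcg hcy
  by_cases hf0 : f = 0
  · refine ⟨0, ⟨?_, ?_, ?_, ?_⟩, ?_⟩
    · exact (DG_thm K (Option A) (Option A) v).1 _
    · intro x _ y _
      rw [map_zero]
    · intro x _ y _ _
      rw [map_zero, neg_zero]
    · intro x _ y _ _
      rw [map_zero, neg_zero]
    · rw [map_zero, hf0]
  have hSYM : Stmt_SYM := SYM_thm DG_thm
  have hpv := PAR_thm K v d p (e + d) hvan A w C hcf.wC hCp f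
    (fun π hπ => ((hSYM K A v).2.1 C f π ((GD2.mem_pS C π).2 hπ)).2 hcg.alC)
    (fun m hm => ⟨fun x hx => by rw [hcg.dg m hm x, hCd x hx], by rw [hcg.dg m hm w, hw]⟩)
    (fun u hu => hcy u hu)
  obtain ⟨G, hG1, hG2, hG3, hG4, hG5⟩ := hpv
  have hwne : ∀ x ∈ C, x ≠ w := fun x hx h => hcf.wC (h ▸ hx)
  -- degrees of G
  have hGd : Dg (ext δ d w e) G := by
    intro m hm o
    obtain ⟨h1, h2, h3⟩ := hG2 m hm
    cases o with
    | none => exact h1
    | some x =>
      show _ = if x = w then e else δ x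
      by_cases hxw : x = w
      · rw [if_pos hxw, hxw]
        omega
      · rw [if_neg hxw]
        by_cases hxC : x ∈ C
        · rw [h2 x hxC, hCd x hxC]
        · exact hG3 x hxC hxw (δ x) (fun m' hm' => hcg.dg m' hm' x) m hm
  -- alternation in isn C
  have hGC : Al (isn C) G := by
    intro x hx y hy hxy
    have h := hG1 (Equiv.swap x y) (by
      intro z hz
      refine Equiv.swap_apply_of_ne_of_ne ?_ ?_
      · intro h
        rw [← h, GD2.some_mem_isn] at hx
        exact hz hx
      · intro h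
        rw [← h, GD2.some_mem_isn] at hy
        exact hz hy)
    rw [Equiv.Perm.sign_swap hxy, Units.val_neg, Units.val_one, neg_one_smul] at h
    exact h
  -- symmetry in sm T
  have hGT : Sy (sm T) G := by
    intro x hx y hy
    rw [Finset.mem_map] at hx hy
    obtain ⟨a, ha, rfl⟩ := hx
    obtain ⟨b, hb, rfl⟩ := hy
    have h := hG4 (Equiv.swap a b) (by
      intro z hz
      refine Equiv.swap_apply_of_ne_of_ne ?_ ?_
      · intro h
        exact Finset.disjoint_left.1 hcf.TC ha (h ▸ hz)
      · intro h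
        exact Finset.disjoint_left.1 hcf.TC hb (h ▸ hz))
      (Equiv.swap_apply_of_ne_of_ne (fun h => hcf.wT (h ▸ ha)) (fun h => hcf.wT (h ▸ hb)))
      (hcg.sy a ha b hb)
    have h2 : (Option.map (Equiv.swap a b) : Option A → Option A) =
        Equiv.swap (some a) (some b) := by
      rw [← Equiv.optionCongr_swap]
      funext o
      exact (Equiv.optionCongr_apply _ o).symm
    rw [h2] at h
    exact h
  obtain ⟨s1, s2, s3, s4, s5, s6, s7, s8, s9, s10, s11, s12⟩ := hSYM K (Option A) v
  have hdST : Disjoint (sm T) (sm S) := by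
    refine Finset.disjoint_left.2 ?_
    intro o h1 h2
    cases o with
    | none => exact GD2.none_notMem_sm T h1
    | some x =>
      rw [GD2.some_mem_sm] at h1 h2
      exact Finset.disjoint_left.1 hcf.TS h1 h2
  have hdSC : Disjoint (isn C) (sm S) := by
    refine Finset.disjoint_left.2 ?_
    intro o h1 h2
    cases o with
    | none => exact GD2.none_notMem_sm S h2
    | some x =>
      rw [GD2.some_mem_sm] at h2
      rw [GD2.some_mem_isn] at h1
      exact Finset.disjoint_left.1 hcf.SC h2 h1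
  have hconst : ∀ x ∈ sm S, ∀ y ∈ sm S, ext δ d w e x = ext δ d w e y := by
    intro x hx y hy
    rw [Finset.mem_map] at hx hy
    obtain ⟨a, ha, rfl⟩ := hx
    obtain ⟨b, hb, rfl⟩ := hy
    show (if a = w then e else δ a) = if b = w then e else δ b
    have haw : a ≠ w := fun h => hcf.wS (h ▸ ha)
    have hbw : b ≠ w := fun h => hcf.wS (h ▸ hb)
    rw [if_neg haw, if_neg hbw]
    exact VPVM.deg_const δ S f hf0 hcg.dg hcg.alS a ha b hb
  have hnz : ((S.card.factorial : ℕ) : K) ≠ 0 := Nat.cast_ne_zero.2 (Nat.factorial_ne_zero _)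
  set c : K := ((S.card.factorial : ℕ) : K)⁻¹ with hc
  refine ⟨c • alt (sm S) G, ⟨?_, ?_, ?_, ?_⟩, ?_⟩
  · exact ((DG_thm K (Option A) (Option A) v).2.2.1 _ c 0 _ (s8 (sm S) _ G hconst hGd).1).1
  · exact ((s4 (sm T) (alt (sm S) G) (alt (sm S) G)).2.2.2.2 c).1
      ((s6 (sm T) (sm S) G hdST).1 hGT)
  · exact ((s4 (sm S) (alt (sm S) G) (alt (sm S) G)).2.2.2.2 c).2 (s3 (sm S) G).2
  · exact ((s4 (isn C) (alt (sm S) G) (alt (sm S) G)).2.2.2.2 c).2
      ((s6 (isn C) (sm S) G hdSC).2.1 hGC)
  · have h5 : rn w G = f := hG5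
    rw [map_smul, VPVM.rn_altS S w hcf.wS, h5, ((hSYM K A v).2.2.2.2.1 S f).2 hcg.alS,
      natCast_zsmul, ← Nat.cast_smul_eq_nsmul K, smul_smul, hc, inv_mul_cancel₀ hnz, one_smul]

end Pool.Agent.VOP
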