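import Pool.Agent.VOP.StmtsV

/-!
# VRNB: the new point becomes a point of `C`
-/

namespace Pool.Agent.VOP

open MvPolynomial Pool.Agent.VSY

namespace VRNB

variable {K : Type} [Field K] {A : Type} [Fintype A] [DecidableEq A] {v : ℕ}

theorem dg_fun (δ : A → ℕ) {w b : A} (hbw : b ≠ w) (e : ℕ) :
    (fun y : A => ∑ o ∈ Finset.univ.filter (fun o : Option A => o.getD b = y),
      ext (Function.update δ b 0) (δ b) w e o) = Function.update δ w e := by
  funext y
  by_cases hy : y = b
  · subst hy
    have h1 : (Finset.univ.filter fun o : Option A => o.getD y = y) = {none, some y} := by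
      ext o
      cases o with
      | none => simp
      | some z => simp
    rw [h1, Finset.sum_pair (by simp), Function.update_of_ne hbw]
    simp [ext, hbw]
  · have h1 : (Finset.univ.filter fun o : Option A => o.getD b = y) = {some y} := by
      ext o
      cases o with
      | none =>
        simp
        exact fun h => hy h.symm
      | some z => simp
    rw [h1, Finset.sum_singleton]
    by_cases hw : y = w
    · subst hw
      simp [ext]
    · simp [ext, hw, hy]

omit [Fintype A] [DecidableEq A] in
theorem ren_comp_eq (δ : Option A → ℕ) {φ : Option A → A} {ψ : A → A} {χ : Option A → Option A}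
    {φ' : Option A → A} {g : PX K (Option A) v} (hg : Dg δ g)
    (h : ∀ o, δ o ≠ 0 → ψ (φ o) = φ' (χ o)) : ren ψ (ren φ g) = ren φ' (ren χ g) := by
  rw [ren_ren, ren_ren]
  exact DG.ren_eq δ _ _ g h hg

omit [Fintype A] in
theorem swap_some {b x y : A} (hx : x ≠ b) (hy : y ≠ b) (o : Option A) :
    Equiv.swap x y (o.getD b) = (Equiv.swap (some x) (some y) o).getD b := by
  cases o with
  | none =>
    rw [Equiv.swap_apply_of_ne_of_ne (a := some x) (b := some y) (x := none) (by simp) (by simp)]
    exact Equiv.swap_apply_of_ne_of_ne hx.symm hy.symm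
  | some z =>
    show Equiv.swap x y z = _
    by_cases h1 : z = x
    · subst h1
      rw [Equiv.swap_apply_left, Equiv.swap_apply_left]
      rfl
    · by_cases h2 : z = y
      · subst h2
        rw [Equiv.swap_apply_right, Equiv.swap_apply_right]
        rfl
      · rw [Equiv.swap_apply_of_ne_of_ne h1 h2,
          Equiv.swap_apply_of_ne_of_ne (by simpa using h1) (by simpa using h2)]
        rfl

omit [Fintype A] in
theorem swap_none {b y : A} (o : Option A) (ho : o ≠ some b) :
    Equiv.swap b y (o.getD b) = (Equiv.swap none (some y) o).getD b := by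
  cases o with
  | none =>
    rw [Equiv.swap_apply_left]
    exact Equiv.swap_apply_left _ _
  | some z =>
    have hz : z ≠ b := fun h => ho (by rw [h])
    show Equiv.swap b y z = _
    by_cases h2 : z = y
    · subst h2
      rw [Equiv.swap_apply_right, Equiv.swap_apply_right]
      rfl
    · rw [Equiv.swap_apply_of_ne_of_ne hz h2,
        Equiv.swap_apply_of_ne_of_ne (by simp) (by simpa using h2)]
      rfl

end VRNB

open VRNB in
theorem t_VRNB : SV_RNB := by
  intro K _ _ A _ _ v δ T S C w b e g hcf hb hg
  have hbw : b ≠ w := fun h => hcf.wC (h ▸ hb)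
  have hbT : ∀ x ∈ T, x ≠ b := fun x hx h => Finset.disjoint_left.1 hcf.TC hx (h ▸ hb)
  have hbS : ∀ x ∈ S, x ≠ b := fun x hx h => Finset.disjoint_left.1 hcf.SC hx (h ▸ hb)
  have h0 : ext (Function.update δ b 0) (δ b) w e (some b) = 0 := by
    simp [ext, hbw]
  have hsome : ∀ x y : A, x ≠ b → y ≠ b → ren (Equiv.swap x y) (rn b g) =
      rn b (ren (Equiv.swap (some x) (some y)) g) := fun x y hx hy =>
    ren_comp_eq _ hg.dg fun o _ => swap_some hx hy o
  have hnone : ∀ y : A, ren (Equiv.swap b y) (rn b g) =
      rn b (ren (Equiv.swap none (some y)) g) := fun y =>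
    ren_comp_eq _ hg.dg fun o ho => swap_none o fun h => ho (by rw [h]; exact h0)
  have hneg : rn b (-g) = -rn b g := map_neg _ _
  refine ⟨⟨?_, ?_, ?_, ?_⟩, ?_, ?_⟩
  · have h1 := DG.ren_push _ (fun o : Option A => o.getD b) g hg.dg
    rw [dg_fun δ hbw e] at h1
    exact h1
  · intro x hx y hy
    rw [hsome x y (hbT x hx) (hbT y hy),
      hg.sy (some x) (Finset.mem_map_of_mem _ hx) (some y) (Finset.mem_map_of_mem _ hy)]
  · intro x hx y hy hxy
    rw [hsome x y (hbS x hx) (hbS y hy),
      hg.alS (some x) (Finset.mem_map_of_mem _ hx) (some y) (Finset.mem_map_of_mem _ hy)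
        (fun h => hxy (Option.some.inj h)), hneg]
  · have hmem : ∀ x ∈ C, x ≠ b → some x ∈ isn (C.erase b) := fun x hx hxb =>
      Finset.mem_insert_of_mem (Finset.mem_map_of_mem _ (Finset.mem_erase.2 ⟨hxb, hx⟩))
    have hn : ∀ y ∈ C, y ≠ b → ren (Equiv.swap b y) (rn b g) = -rn b g := by
      intro y hy hyb
      rw [hnone y, hg.alC none (Finset.mem_insert_self _ _) (some y) (hmem y hy hyb)
        (by simp), hneg]
    intro x hx y hy hxy
    by_cases hxb : x = b
    · subst hxb
      exact hn y hy fun h => hxy h.symm
    · by_cases hyb : y = b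
      · subst hyb
        rw [Equiv.swap_comm]
        exact hn x hx hxb
      · rw [hsome x y hxb hyb, hg.alC (some x) (hmem x hx hxb) (some y) (hmem y hy hyb)
          (fun h => hxy (Option.some.inj h)), hneg]
  · have h1 : ren (mv b w) (rn b g) = rn w (ren id g) := by
      refine ren_comp_eq _ hg.dg fun o ho => ?_
      cases o with
      | none => exact Function.update_self _ _ _
      | some z =>
        have hz : z ≠ b := fun h => ho (by rw [h]; exact h0)
        exact Function.update_of_ne hz _ _
    rw [h1, ren_id]
  · intro u hu hgu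
    have h1 : ren (mv u w) (rn b g) = rn b (ren (mv (some u) (some w)) g) := by
      refine ren_comp_eq _ hg.dg fun o _ => ?_
      cases o with
      | none =>
        show mv u w b = (mv (some u) (some w) none).getD b
        have h2 : mv (some u) (some w) (none : Option A) = none :=
          Function.update_of_ne (by simp) _ _
        rw [h2]
        exact Function.update_of_ne (hbS u hu).symm _ _
      | some z =>
        show mv u w z = (mv (some u) (some w) (some z)).getD b
        by_cases hz : z = u
        · subst hz
          have h2 : mv (some z) (some w) (some z) = some w := Function.update_self _ _ _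
          rw [h2]
          exact Function.update_self _ _ _
        · have h2 : mv (some u) (some w) (some z) = some z :=
            Function.update_of_ne (by simpa using hz) _ _
          rw [h2]
          exact Function.update_of_ne hz _ _
    rw [h1, hgu, map_zero]

end Pool.Agent.VOP
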