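import Pool.Agent.VOP.GSN
import Pool.Agent.VOP.HMAIN
import Pool.Agent.VOP.NUM
import Pool.Agent.VOP.BC
import Pool.Agent.VOP.FINN
import Pool.Agent.VOP.VL0
import Pool.Agent.VOP.VMO
import Pool.Agent.VOP.VAL
import Pool.Agent.VOP.VCYC
import Pool.Agent.VOP.VBB
import Pool.Agent.VOP.VALL
import Pool.Agent.VOP.VHOM
import Pool.Agent.VOP.VFRL
import Pool.Agent.VOP.VPFL
import Pool.Agent.VOP.VGEN
import Pool.Agent.VOP.VLA
import Pool.Agent.VOP.VCOE
import Pool.Agent.VOP.VFR1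
import Pool.Agent.VOP.VFR2
import Pool.Agent.VOP.VLB
import Pool.Agent.VOP.VMVL
import Pool.Agent.VOP.VRNB
import Pool.Agent.VOP.VLC
import Pool.Agent.VOP.VBRM
import Pool.Agent.VOP.VLF
import Pool.Agent.VOP.VPVM

/-!
# The Ottaviani-Paoletti conjecture (MP_deb8da_ag): final assembly
-/

namespace Pool.Agent.VOP

open Pool.Agent.VSY

theorem vbb : SV_BB := t_VBB t_VMO

theorem vhom : SV_HOM := t_VHOM t_VMO

theorem vfrl : SV_FRL := t_VFRL vhom

theorem vpfl : SV_PFL := t_VPFL vhom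

theorem vgen : SV_GEN := t_VGEN t_VMO t_VALL

theorem vla : SV_LA := t_VLA t_VNAT t_VAL t_VCYC vbb vfrl vgen t_VMO

theorem vlb : SV_LB := t_VLB t_VNAT t_VAL t_VCYC vbb vgen vla t_VMO vfrl

theorem vlc : SV_LC := t_VLC t_VNAT t_VAL t_VCYC vbb t_VALL vpfl t_VMVL t_VRNB

theorem liftm : Stmt_LIFTM :=
  LIFTM_of t_VPVM vlc vlb (t_VFR1 t_VCOE t_VMO) (t_VFR2 t_VNAT t_VAL) (t_VBRM t_VCOE)
    (t_VLF t_VMVL t_VRNB)

theorem num : Stmt_NUM := NUM_thm hg0 hgs

/-- The vanishing theorem over ordered fields. -/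
theorem vth : Stmt_VTH := vth_of t_VPVM liftm n4 num

/-- `K_{p,2}(n,0;d) = 0` for `p ≤ 3 d - 3`, in all numbers of variables. -/
theorem van_two (K : Type) [Field K] [CharZero K] (v d p : ℕ) (hp : p + 3 ≤ 3 * d) :
    Van K v d p (2 * d) := by
  rcases Nat.lt_or_ge d 2 with hd | hd
  · exact low K v d p (2 * d) (by omega) (by omega)
  · obtain ⟨M, rfl⟩ := Nat.exists_eq_add_of_le' hd
    apply BC_thm
    have h := (vth ℚ v M p).2 (by omega)
    rwa [show 2 * M + 4 = 2 * (M + 2) by ring] at h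

/-- `K_p[2 d - 1] = 0` for `p ≤ 2 d - 2`, in all numbers of variables. -/
theorem van_one (K : Type) [Field K] [CharZero K] (v d p : ℕ) (hp : p + 2 ≤ 2 * d) :
    Van K v d p (2 * d - 1) := by
  rcases Nat.lt_or_ge d 2 with hd | hd
  · exact low K v d p (2 * d - 1) (by omega) (by omega)
  · obtain ⟨M, rfl⟩ := Nat.exists_eq_add_of_le' hd
    apply BC_thm
    have h := (vth ℚ v M p).1 (by omega)
    rwa [show 2 * M + 3 = 2 * (M + 2) - 1 by omega] at h

end Pool.Agent.VOP
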