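import Pool.Agent.VOP.StmtsS

/-!
# The Ottaviani-Paoletti conjecture (MP_deb8da_ag): block N (leading terms, section 4)

`R = 2M+2+β`.  `x = Pi.single k 1` corresponds to the coordinate `k`: `lin (Pi.single k 1) p = X (p, k)`.
-/

namespace Pool.Agent.VOP

open MvPolynomial Pool.Agent.VSY

/-- The points `p ≠ w` such that `X (p, k)` divides the monomial `m`. -/
def js {A : Type} [Fintype A] [DecidableEq A] {v : ℕ} (k : Fin v) (w : A)
    (m : A × Fin v →₀ ℕ) : Finset A :=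
  Finset.univ.filter fun p => p ≠ w ∧ 1 ≤ m (p, k)

/-- The part of `f` consisting of the monomials `m` which are not divisible by `X (w, k)` and
satisfy `P (js k w m)`. -/
noncomputable def pr {K : Type} [Field K] {A : Type} [Fintype A] [DecidableEq A] {v : ℕ}
    (k : Fin v) (w : A) (P : Finset A → Prop) (f : PX K A v) : PX K A v := by
  classical
  exact ∑ m ∈ f.support.filter (fun m => m (w, k) = 0 ∧ P (js k w m)), monomial m (coeff m f)

/-- PR: the parts of a polynomial.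
Proofs.  (1) coefficients of a sum of monomials.  (2), (3), (4), (5) from (1).  (4): `f - pr k w (fun _ => True) f` has only monomials with `1 ≤ m (w, k)` (`MvPolynomial.X_dvd_iff_modMonomial_eq_zero` or sum of monomials divisible by `X (w, k)`).
(6) if `X (w, k) ∣ f` no monomial of `f` has `m (w, k) = 0`.  (7) `ren π` is injective on monomials; `js k w (m.mapDomain ..) = (js k w m).map π`.
(8) key: for all `Q`: `pr k w Q (ren (mv u w) f) = ren (mv u w) (pr k w (fun J => Q J ∧ u ∉ J) f)`: the monomial `m` of `f` becomes `m'` with `m' (w, k) = m (w, k) + m (u, k)`, `m' (u, k) = 0`, and `js k w m' = js k w m` if `m (u, k) = 0 ` (compare both sides as sums over the monomials of `f`: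
write `f` as a sum of monomials, both sides are additive).  (9) so, by (6), `ren (mv u w) (pr k w (fun J => Q J ∧ u ∉ J) f) = 0` for all `Q`; and `ren (mv u w) (pr k w (fun J => Q J ∧ u ∈ J) f)` is divisible by `X (w, k)`.  (10) `pr k w P f` is a sum of monomials with `1 ≤ m (u, k)`. -/
def Stmt_PR : Prop :=
  ∀ (K : Type) [Field K] (A : Type) [Fintype A] [DecidableEq A] (v : ℕ) (k : Fin v) (w : A),
    (∀ (P : Finset A → Prop) (f : PX K A v) (m : A × Fin v →₀ ℕ),
      ((m (w, k) = 0 ∧ P (js k w m)) → coeff m (pr k w P f) = coeff m f) ∧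
      (¬(m (w, k) = 0 ∧ P (js k w m)) → coeff m (pr k w P f) = 0)) ∧
    (∀ (P : Finset A → Prop) (f g : PX K A v) (a : K), pr k w P (f + g) = pr k w P f + pr k w P g ∧
      pr k w P (f - g) = pr k w P f - pr k w P g ∧ pr k w P (a • f) = a • pr k w P f) ∧
    (∀ (P : Finset A → Prop) (δ : A → ℕ) (f : PX K A v), Dg δ f → Dg δ (pr k w P f)) ∧
    (∀ f : PX K A v, X (w, k) ∣ f - pr k w (fun _ => True) f) ∧
    (∀ (P Q : Finset A → Prop) (f : PX K A v), (∀ J, ¬(P J ∧ Q J)) →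
      pr k w (fun J => P J ∨ Q J) f = pr k w P f + pr k w Q f) ∧
    (∀ (P : Finset A → Prop) (f : PX K A v), X (w, k) ∣ f → pr k w P f = 0) ∧
    (∀ (P : Finset A → Prop) (π : Equiv.Perm A) (f : PX K A v), π w = w →
      pr k w P (ren π f) = ren π (pr k w (fun J => P (J.map π.toEmbedding)) f)) ∧
    (∀ (Q : Finset A → Prop) (u : A) (f : PX K A v), u ≠ w →
      pr k w Q (ren (mv u w) f) = ren (mv u w) (pr k w (fun J => Q J ∧ u ∉ J) f)) ∧
    (∀ (Q : Finset A → Prop) (u : A) (f : PX K A v), u ≠ w → X (w, k) ∣ ren (mv u w) f →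
      X (w, k) ∣ ren (mv u w) (pr k w Q f) ∧
      ((∀ J, Q J → u ∉ J) → ren (mv u w) (pr k w Q f) = 0)) ∧
    (∀ (P : Finset A → Prop) (u : A) (f : PX K A v), (∀ J, P J → u ∈ J) →
      X (u, k) ∣ pr k w P f)

/-- LFT: lifting of bicycles modulo `x(w)`; differences.
Proofs.  (1) LIFT gives `ρ`, `f := h - lin x w * ρ`.  (2) `f - f' = lin x w * g`; `g` is a bicycle of degree `2M+1+β` at `w` (DIV: cancel `lin x w` in `ren (swap ..)`, `ren (mv u w)`, which fix `w`), `(α')`, GD0. -/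
def Stmt_LFT : Prop :=
  ∀ (K : Type) [Field K] [CharZero K] (v M β t s l : ℕ),
    (LIFT K v (M + 1) (M + 2) s l (2 * M + 1 + β) →
      ∀ (A : Type) [Fintype A] [DecidableEq A] (T S C : Finset A) (w : A) (x : Fin v → K)
        (h : PX K A v), Cf T S C w → S.card = s → C.card = l → x ≠ 0 →
        Cg (dgc M T S C w (2 * M + 2 + β)) T S C h →
        (∀ u ∈ S ∪ C, lin x w ∣ ren (mv u w) h) →
        ∃ f : PX K A v, Zc M T S C w (2 * M + 2 + β) f ∧ lin x w ∣ h - f) ∧
    (ALP K v M β t s l →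
      ∀ (A : Type) [Fintype A] [DecidableEq A] (T S C : Finset A) (w : A) (x : Fin v → K)
        (f f' : PX K A v), Cf T S C w → Sp T S C w → T.card = t → S.card = s → C.card = l →
        x ≠ 0 → Zc M T S C w (2 * M + 2 + β) f → Zc M T S C w (2 * M + 2 + β) f' →
        lin x w ∣ f - f' → Good M β T (S ∪ C) w (xS x S * f') →
        Good M β T (S ∪ C) w (xS x S * f))

/-- CP: `CLAIM^H` for `f` all of whose monomials modulo `X (w, k)` are divisible by some `X (c, k)`, `c ∈ C`.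
Proof.  `x := Pi.single k 1`.  For `q = 1..l` let `f_q := pr k w (fun J => (J ∩ C).card = q) f`; `X (w,k) ∣ f - ∑_q f_q` (hypothesis, PR).  `f_q` is symmetric / alternating (PR (7), the condition is invariant) and `X (w,k) ∣ ren (mv u w) f_q` (PR (9)): LFT gives a bicycle `F_q ≡ f_q` modulo `X (w,k)`.
It is enough that `xS x S * F_q` is good for `1 ≤ q ≤ l` (LFT (2), GD0; `F := ∑ F_q`).  Fix `u ∈ C` (`l ≥ 1`).  Let `pr k w (fun J => (J ∩ C).card = q ∧ u ∈ J) f = X (u, k) * η` (PR (10)).  `η`: degree `M+1` at `u`, symmetric in `T`, alternating in `S` and `C.erase u` (cancel `X (u,k)`),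
`X (w,k) ∣ ren (mv c w) η` for `c ∈ S ∪ C.erase u` (PR (9), DIV (4): `X (w,k) ∣ X (u,k) * ..`).  LIFT for `(S, C.erase u)` and `δ := Function.update (dgc ..) u (M+1)`: `η' := η - X (w,k) * ρ` is a bicycle for `S ∪ C.erase u`.  TWO for `η'` and `q • F_q`: `∑_{c ∈ C}` of the `c`-parts:
`X (u,k) * η - ∑_{c ∈ C.erase u} ren (swap u c) (X (u,k) * η) = ∑_{c ∈ C} pr k w (fun J => (J ∩ C).card = q ∧ c ∈ J) f = q • f_q` (PR (7): `ren (swap u c)` of the `u`-part is `-` the `c`-part, as `f` is alternating; every `J` is counted `q` times).  So `Good (xS x S * q • F_q)`; divide by `q` (GD0).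
If `l = 0` then `X (w,k) ∣ f`: LFT (2) with `f' = 0`. -/
def Stmt_CP : Prop :=
  ∀ (K : Type) [Field K] [CharZero K] (v M β t s l : ℕ), TWO K v M β t s l → ALP K v M β t s l →
    LIFT K v (M + 1) (M + 2) s l (2 * M + 1 + β) →
    LIFT K v (M + 1) (M + 2) s (l - 1) (2 * M + 1 + β) →
    ∀ (A : Type) [Fintype A] [DecidableEq A] (T S C : Finset A) (w : A) (k : Fin v)
      (f : PX K A v), Cf T S C w → Sp T S C w → T.card = t → S.card = s → C.card = l →
      Zc M T S C w (2 * M + 2 + β) f →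
      (∀ m ∈ f.support, m (w, k) = 0 → ∃ c ∈ C, 1 ≤ m (c, k)) →
      Good M β T (S ∪ C) w (xS (Pi.single k 1) S * f)

/-- EXP: expansion of a part `f` with a fixed set `J` of divisible points.
Proof.  `δ` of a point outside `T ∪ S ∪ C ∪ {w}` is `0`.  For an exponent `α : A × Fin v →₀ ℕ` supported on `J` let `f_α := ∑_{m ∈ supp f, m|_J = α} coeff m f • monomial (m - α)` (`Finsupp.filter`), so `f = ∑_α monomial α 1 * f_α` over the finitely many restrictions `α = m|_J`, and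
`monomial α 1 = ∏_{p ∈ J} X (p,k) * atp p (b_α p)`, `b_α p` = the monomial with exponent `α (p, ·) - single k 1` of degree `M` (`α (p,k) ≥ 1`, `∑_j α (p,j) = M+1`); for `p ∉ J` put `b_α p = 0` (homogeneous).  `f_α`: degree `0` at `J`; symmetric in `T \ J`, alternating in `S \ J`, in `C`: renamings which fix the
points of `J` act coefficientwise (uniqueness of the decomposition: `monomial α 1 * f_α` is the part of `f` with `m|_J = α`); the same for `mv u w`, `u ∉ J`. -/
def Stmt_EXP : Prop :=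
  ∀ (K : Type) [Field K] (v M β : ℕ) (A : Type) [Fintype A] [DecidableEq A]
    (T S C J : Finset A) (w : A) (k : Fin v) (f : PX K A v), Cf T S C w → J ⊆ T ∪ S →
    Dg (dgc M T S C w (2 * M + 2 + β)) f → (∀ m ∈ f.support, ∀ p ∈ J, 1 ≤ m (p, k)) →
    Sy (T \ J) f → Al (S \ J) f → Al C f → (∀ u ∈ (S \ J) ∪ C, ren (mv u w) f = 0) →
    ∃ (ι : Type) (_ : Fintype ι) (b : ι → A → MvPolynomial (Fin v) K) (m : ι → PX K A v),
      (∀ i p, (b i p).IsHomogeneous M) ∧
      (∀ i, Zc M (T \ J) (S \ J) C w (2 * M + 2 + β) (m i)) ∧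
      f = ∑ i, xb (Pi.single k 1) (b i) J * m i

/-- MSX: the symmetrised products are bicycles modulo `x(w)`.
Proof.  `h := xb x b (T₁ ∪ S₁) * m` has the degrees of the configuration (`1 + M` at `T₁ ∪ S₁`, `m` has degree `0` there), DG, SYM: `Cg`; alternation in `C`: `m` is alternating in `C`, the other factors do not involve `C`, and `alt`, `smz` commute with the swaps of `C` (SYM (6)).
Divisibility: `ren (mv u w) (ren π h)` for `π ∈ pS S` (or `pS T`): `= ren π' ..`: put `u' := π⁻¹ u`.  `u ∈ S`, `u' ∈ S₁`: the factor `lin x u'` becomes `lin x w`.  `u' ∈ S \ S₁`: `mv u w ∘ π = π ∘ mv u' w`, `ren (mv u' w) m = 0`.  `u ∈ C`: `π` fixes `u`: `ren (mv u w) m = 0`.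
More generally the statement is formulated for all `u ∈ S ∪ C`. -/
def Stmt_MSX : Prop :=
  ∀ (K : Type) [Field K] [CharZero K] (v M r : ℕ) (A : Type) [Fintype A] [DecidableEq A]
    (T S C T₁ S₁ : Finset A) (w : A) (x : Fin v → K) (b : A → MvPolynomial (Fin v) K)
    (m : PX K A v), Cf T S C w → T₁ ⊆ T → S₁ ⊆ S → (∀ p, (b p).IsHomogeneous M) →
    Zc M (T \ T₁) (S \ S₁) C w r m →
    Cg (dgc M T S C w r) T S C (smz T (alt S (xb x b (T₁ ∪ S₁) * m))) ∧
    ∀ u ∈ S ∪ C, lin x w ∣ ren (mv u w) (smz T (alt S (xb x b (T₁ ∪ S₁) * m)))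

/-- FP: `CLAIM^H(i)` for `f` all of whose monomials modulo `X (w, k)` are divisible by `X (p, k)` for exactly `i` points of `T ∪ S` and for no point of `C`.
Proof.  `x := Pi.single k 1`.  `X (w,k) ∣ f - ∑_J f_J`, `J ⊆ T ∪ S`, `J.card = i`, `f_J := pr k w (fun J' => J' = J) f`; EXP applies to `f_J` (PR (7) for permutations preserving `J`, PR (9) second part for `u ∉ J`; `u ∈ (S \ J) ∪ C`), so `f_J = ∑_{ι} xb x b J * m`.  As `f` is symmetric in `T` and alternating in `S`,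
`t! s! • f = smz T (alt S f)`, so `X (w,k) ∣ t! s! • f - ∑_J ∑_ι smz T (alt S (xb x b J * m))` (DIV (5): `ren π` fixes `w`).  Put `T₁ := J ∩ T`, `S₁ := J ∩ S` (`J = T₁ ∪ S₁`, `T \ J = T \ T₁`, `S \ J = S \ S₁`).  MSX and LFT give `F_{J,ι}` with `LR M β T S C T₁ S₁ w x b m F_{J,ι}`, and `FC a b` (`a = T₁.card`, `b = S₁.card`) gives
`Good (xS x S * F_{J,ι})`.  LFT (2) for `t! s! • f` and `∑ F_{J,ι}`; divide by `t! s!`. -/
def Stmt_FP : Prop :=
  ∀ (K : Type) [Field K] [CharZero K] (v M β t s l i : ℕ), ALP K v M β t s l →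
    LIFT K v (M + 1) (M + 2) s l (2 * M + 1 + β) →
    (∀ a b, a + b = i → a ≤ t → b ≤ s → FC K v M β t s l a b) →
    ∀ (A : Type) [Fintype A] [DecidableEq A] (T S C : Finset A) (w : A) (k : Fin v)
      (f : PX K A v), Cf T S C w → Sp T S C w → T.card = t → S.card = s → C.card = l →
      Zc M T S C w (2 * M + 2 + β) f →
      (∀ m ∈ f.support, m (w, k) = 0 → (∀ c ∈ C, m (c, k) = 0) ∧
        ((T ∪ S).filter fun p => 1 ≤ m (p, k)).card = i) →
      Good M β T (S ∪ C) w (xS (Pi.single k 1) S * f)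

/-- HF: the step `CLAIM^H(i+1) → CLAIM^H(i)`.
Proof.  `f₁ := pr k w (fun J => (J ∩ C).Nonempty) f`, `f₂ := pr k w (fun J => J ∩ C = ∅ ∧ i + 1 ≤ (J ∩ (T ∪ S)).card) f`, `f₃ := pr k w (fun J => J ∩ C = ∅ ∧ (J ∩ (T ∪ S)).card = i) f`; `X (w,k) ∣ f - f₁ - f₂ - f₃` (hypothesis of CH, PR).  All are `Cg` and `X (w,k) ∣ ren (mv u w) f_n` (PR (7), (9)):
LFT: bicycles `F_n ≡ f_n`; the monomials `m` of `F_n` with `m (w,k) = 0` are those of `f_n` (PR (1), (6)).  CP for `F₁`, CH (i+1) for `F₂` (`∏ X (p,k) = xS (Pi.single k 1) S`), FP for `F₃`; LFT (2) for `f` and `F₁ + F₂ + F₃`. -/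
def Stmt_HF : Prop :=
  ∀ (K : Type) [Field K] [CharZero K] (v M β t s l i : ℕ), TWO K v M β t s l →
    ALP K v M β t s l → LIFT K v (M + 1) (M + 2) s l (2 * M + 1 + β) →
    LIFT K v (M + 1) (M + 2) s (l - 1) (2 * M + 1 + β) → CH K v M β t s l (i + 1) →
    (∀ a b, a + b = i → a ≤ t → b ≤ s → FC K v M β t s l a b) → CH K v M β t s l i

/-- N0C: `(N0)` for a coordinate `k`.
Proof.  `x := Pi.single k 1`, `h := smz T (alt S (xb x b (T₁ ∪ S₁) * m))`, `X (w,k) ∣ h - f`.  Every monomial of `h` with exponent `0` at `(w,k)` is (after a permutation of `T` and `S`) a monomial of `xb x b (T₁ ∪ S₁) * m`, so it is divisible by `X (p,k)` for `i` points of `T ∪ S` (the images of `T₁ ∪ S₁`) and for one more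
point `p` (from `m`; `p ≠ w`, and `p ∈ (T \ T₁) ∪ (S \ S₁) ∪ C` because `m` has degree `0` elsewhere): either `p ∈ C` or at least `i + 1` points of `T ∪ S`.  The same holds for the monomials of `f` with exponent `0` at `(w,k)`.  `f₁ := pr k w (fun J => (J ∩ C).Nonempty) f`, `f₂ := pr k w (fun J => J ∩ C = ∅) f`; as in HF:
LFT, CP for `F₁`, CH (i+1) for `F₂`, LFT (2). -/
def Stmt_N0C : Prop :=
  ∀ (K : Type) [Field K] [CharZero K] (v M β t s l i : ℕ), TWO K v M β t s l →
    ALP K v M β t s l → LIFT K v (M + 1) (M + 2) s l (2 * M + 1 + β) →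
    LIFT K v (M + 1) (M + 2) s (l - 1) (2 * M + 1 + β) → CH K v M β t s l (i + 1) →
    N0K K v M β t s l i

/-- N0G: `(N0)` for all `x ≠ 0`.
Proof.  SBT (6): `g k = x`, inverse `g'`.  `f' := sb g' f`, `m' := sb g' m`, `b' p := aeval (fun i => ∑ j, C (g' i j) * X j) (b p)`.  `sb g' (lin x p) = X (p,k)` (`lin x p = sb g (X (p,k))`).  So `m'` is in the ideal of the `X (p,k)`: every monomial of `m'` is divisible by some `X (p,k)` (`MvPolynomial.mem_ideal_span_X_image` or directly);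
`LR M β T S C T₁ S₁ w (Pi.single k 1) b' m' f'` (apply `sb g'`, SBT (3), (4)).  N0K: `Good (xS (Pi.single k 1) S * f')`; apply `sb g`. -/
def Stmt_N0G : Prop :=
  ∀ (K : Type) [Field K] [CharZero K] (v M β t s l i : ℕ), N0K K v M β t s l i →
    N0P K v M β t s l i

/-- N1: `FCm` is stable under invertible substitutions.
Proof.  Given `x ≠ 0`, `b`, `f` with `LR .. x b (sb g m) f`: apply `sb g'`: `LR .. x' b' m (sb g' f)`, `x' j := ∑ i, x i * g' i j` (non-zero because `g'` is invertible: `sb g (lin x' p) = lin x p`), `b'` as in N0G; so `Good (xS x' S * sb g' f)`; apply `sb g`. -/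
def Stmt_N1 : Prop :=
  ∀ (K : Type) [Field K] [CharZero K] (v M β : ℕ) (A : Type) [Fintype A] [DecidableEq A]
    (T S C T₁ S₁ : Finset A) (w : A) (m : PX K A v) (g g' : Fin v → Fin v → K),
    (∀ f : PX K A v, sb g' (sb g f) = f) → (∀ f : PX K A v, sb g (sb g' f) = f) →
    FCm M β T S C T₁ S₁ w m → FCm M β T S C T₁ S₁ w (sb g m)

/-- N2: symmetric products satisfy `FCm`.
Proof.  Let `LR M β T S C T₁ S₁ w x b (ren (mv a w) η) f`.  `T' := insert a T`, `η' := smz T' (alt S (xb x b (T₁ ∪ S₁) * η))`.  MSX for `(T', S, C, T₁, S₁)` and `η` (`T' \ T₁ = insert a (T \ T₁)`): `Cg (dgc M T' S C w (M+1+β)) T' S C η'` and `lin x w ∣ ren (mv u w) η'` for `u ∈ S ∪ C`.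
`lin x w ∣ ren (mv a w) η' - k • smz T (alt S (xb x b (T₁ ∪ S₁) * ren (mv a w) η))`, `k := (T \ T₁).card + 1`: write `smz T' = ∑_{y ∈ T'} ∑_{π ∈ pS T} ren π ∘ ren (swap a y)` (every element of `pS T'` is uniquely `π * swap a y`, `π ∈ pS T`).  `y ∈ T₁`: `ren (swap a y) (alt S (xb ..))` contains the factor `lin x a`, which becomes
`lin x w`.  `y ∈ insert a (T \ T₁)`: `ren (swap a y)` fixes `alt S (xb x b (T₁ ∪ S₁) * η)` (`η` is symmetric in `insert a (T \ T₁)`), `ren (mv a w)` commutes with `ren π`, `π ∈ pS T`, and with `alt S`, and fixes `xb x b (T₁ ∪ S₁)`.  THREE for `η'` and `k • f`; divide by `k`. -/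
def Stmt_N2 : Prop :=
  ∀ (K : Type) [Field K] [CharZero K] (v M β t s l : ℕ), THREE K v M β t s l →
    ∀ (A : Type) [Fintype A] [DecidableEq A] (T S C T₁ S₁ : Finset A) (w a : A)
      (η : PX K A v), Cf T S C w → T.card = t → S.card = s → C.card = l → T₁ ⊆ T → S₁ ⊆ S →
      a ∉ T → a ∉ S → a ∉ C → a ≠ w →
      Zc M (insert a (T \ T₁)) (S \ S₁) C w (M + 1 + β) η →
      FCm M β T S C T₁ S₁ w (ren (mv a w) η)

/-- LL: adding one letter `p` to `S`; the correction does not depend on `x`.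
Proof.  `F_x := lin x p * atp p b * h - ∑ q ∈ S, ren (swap p q) (lin x p * atp p b * h)`: alternating in `insert p S` (SYM (11)), in `C`, symmetric in `T`.  `ren (mv p w) F_x = lin x w * atp w b * h` (`ren (mv p w) (ren (swap p q) (..)) = lin x q * atp q b * ren (..) h` with `p ↦ q`, `q ↦ w`, and `h` does not involve `p`, so it is
`ren (mv q w) h = 0` up to renaming); `ren (mv c w) F_x = 0` for `c ∈ C`.  LIFT for `x₀ := Pi.single k 1` (`1 ≤ v`) and `F_{x₀}`: `ρ` in `Cg (dgc M T (insert p S) C w (2M+1+β)) ..` with `ren (mv u w) (F_{x₀} - lin x₀ w * ρ) = 0`; cancel `lin x₀ w`: `ren (mv p w) ρ = atp w b * h`, `ren (mv c w) ρ = 0`.  So for every `x`: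
`ren (mv p w) (F_x - lin x w * ρ) = 0`, `ren (mv c w) (..) = 0`; the other points of `insert p S` by alternation. -/
def Stmt_LL : Prop :=
  ∀ (K : Type) [Field K] [CharZero K] (v M β s l : ℕ), 1 ≤ v →
    LIFT K v (M + 1) (M + 2) (s + 1) l (2 * M + 1 + β) →
    ∀ (A : Type) [Fintype A] [DecidableEq A] (T S C : Finset A) (w p : A)
      (b : MvPolynomial (Fin v) K) (h : PX K A v), Cf T S C w → S.card = s → C.card = l →
      p ∉ T → p ∉ S → p ∉ C → p ≠ w → b.IsHomogeneous M → Zc M T S C w (2 * M + 2 + β) h →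
      ∃ ρ : PX K A v, Cg (dgc M T (insert p S) C w (2 * M + 1 + β)) T (insert p S) C ρ ∧
        ∀ x : Fin v → K, Zc M T (insert p S) C w (2 * M + 2 + β)
          (lin x p * atp p b * h - (∑ q ∈ S, ren (Equiv.swap p q) (lin x p * atp p b * h)) -
            lin x w * ρ)

/-- FAS: polynomial families of lifts, letters of `S`.
Proof.  Induction on `S₁` (insert a point `p`): put `S' := S \ insert p S₁'`.. : let `G' n` be the family for `(S.erase p, S₁' = S₁.erase p)`: bicycles of `(T; S.erase p, C)` with `lin (x + c•y) w ∣ alt (S.erase p) (xb (x + c•y) b S₁' * m) - ∑ c^n • G' n` (`m` does not change: `S.erase p \ S₁' = S \ S₁`).  LL for `h := G' n`: `ρ n`.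
`G n := s' • [F_x(G' n) - lin x w * ρ n] + s' • [F_y(G' (n-1)) - lin y w * ρ (n-1)]` (second bracket absent for `n = 0`), `F_x(h) := lin x p * atp p (b p) * h - ∑_{q ∈ S.erase p} ren (swap p q) (..)`, `s' := (S.erase p).card !`.  `F` is linear in `x` and `h`, so `∑ c^n • G n = s' • (F_{x+c•y}(∑ c^n • G' n) - lin (x+c•y) w * ρ_c)`, and
`s' • F_z(h) = alt S (lin z p * atp p (b p) * h)` for `h` alternating in `S.erase p` (SYM (12)).  Modulo `lin z w`, `z = x + c•y`: `alt S (lin z p * atp p (b p) * alt (S.erase p) (xb z b S₁' * m)) = (S.erase p).card ! • alt S (xb z b S₁ * m)` (SYM: `alt S (g * alt S' h) = |S'|! • alt S (g * h)` for `S' ⊆ S`, `g` invariant under `pS S'`).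
To get rid of the factor, divide: define `G n` with the factor `1` instead of `s'`.  (The base `S₁ = ∅`: `G 0 := alt S m = s! • m`, `G n = 0` for `n > 0`.) -/
def Stmt_FAS : Prop :=
  ∀ (K : Type) [Field K] [CharZero K] (v M β s l : ℕ), 1 ≤ v →
    (∀ s' ≤ s, LIFT K v (M + 1) (M + 2) s' l (2 * M + 1 + β)) →
    ∀ (A : Type) [Fintype A] [DecidableEq A] (T S C S₁ : Finset A) (w : A) (x y : Fin v → K)
      (b : A → MvPolynomial (Fin v) K) (m : PX K A v), Cf T S C w → S.card = s → C.card = l →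
      S₁ ⊆ S → (∀ p, (b p).IsHomogeneous M) → Zc M T (S \ S₁) C w (2 * M + 2 + β) m →
      ∃ G : ℕ → PX K A v, (∀ n, Zc M T S C w (2 * M + 2 + β) (G n)) ∧
        (∀ n, S₁.card < n → G n = 0) ∧
        ∀ c : K, lin (x + c • y) w ∣ alt S (xb (x + c • y) b S₁ * m) -
          ∑ n ∈ Finset.range (S₁.card + 1), c ^ n • G n

/-- FAM: polynomial families of lifts.
Proof.  FAS for `(T \ T₁, S, C)` (`Cf` is inherited): `G n`, bicycles of `(T \ T₁; S, C)`.  `∏_{p ∈ T₁} (lin (x + c•y) p * atp p (b p)) = ∑_{Q ⊆ T₁} c^{|Q|} P_Q`, `P_Q := ∏_{p ∈ Q} lin y p * ∏_{p ∈ T₁ \ Q} lin x p * ∏_{p ∈ T₁} atp p (b p)` (`Finset.prod_add`).  `F n := ∑_{Q ⊆ T₁, n' : |Q| + n' = n} smz T (P_Q * G n')`: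
symmetric in `T`, bicycle for `S`, `C` (the factors do not involve `S`, `C`, `w`; `smz T` commutes with `ren (mv u w)`, `u ∉ T`, and with the swaps of `S`, `C`), degrees `M+1` on `T`.  `∑_n c^n • F n = smz T (∏ .. * ∑ c^n • G n)` and `smz T` of a multiple of `lin (x+c•y) w` is a multiple of it. -/
def Stmt_FAM : Prop :=
  ∀ (K : Type) [Field K] [CharZero K] (v M β s l : ℕ), 1 ≤ v →
    (∀ s' ≤ s, LIFT K v (M + 1) (M + 2) s' l (2 * M + 1 + β)) →
    ∀ (A : Type) [Fintype A] [DecidableEq A] (T S C T₁ S₁ : Finset A) (w : A)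
      (x y : Fin v → K) (b : A → MvPolynomial (Fin v) K) (m : PX K A v), Cf T S C w →
      S.card = s → C.card = l → T₁ ⊆ T → S₁ ⊆ S → (∀ p, (b p).IsHomogeneous M) →
      Zc M (T \ T₁) (S \ S₁) C w (2 * M + 2 + β) m →
      ∃ F : ℕ → PX K A v, (∀ n, Zc M T S C w (2 * M + 2 + β) (F n)) ∧
        (∀ n, T₁.card + S₁.card < n → F n = 0) ∧
        ∀ c : K, lin (x + c • y) w ∣ smz T (alt S (xb (x + c • y) b (T₁ ∪ S₁) * m)) -
          ∑ n ∈ Finset.range (T₁.card + S₁.card + 1), c ^ n • F n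

/-- VDM: Vandermonde.
Proof.  In the quotient `W ⧸ U`: `∑ c^i • z̄ i = 0` for infinitely many `c`; choose `n + 1` distinct ones, the Vandermonde matrix is invertible (`Matrix.det_vandermonde_ne_zero_iff`), or: apply a linear functional to get a polynomial with infinitely many roots. -/
def Stmt_VDM : Prop :=
  ∀ (K : Type) [Field K] [CharZero K] (W : Type) [AddCommGroup W] [Module K W]
    (U : Submodule K W) (n : ℕ) (z : ℕ → W) (F₀ : Finset K),
    (∀ c : K, c ∉ F₀ → ∑ i ∈ Finset.range (n + 1), c ^ i • z i ∈ U) → ∀ i ≤ n, z i ∈ U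

/-- N3: the `c`-trick.
Proof.  `i := T₁.card + S₁.card`.  Let `x ≠ 0`, `b`, `f` with `LR .. x b m f`.  `y := Pi.single k 1`; `m' := sb g₀ m`, `g₀ k = x`, `g₀ j = Pi.single j 1` for `j ≠ k` (a bicycle, SBT (3)).  FAM for `m`, `m'` (and `x`, `y`, `b`): `F`, `F'`.  For `c ≠ 0` with `z := x + c•y ≠ 0`: `μ_c := m - (-1/c)^M₀ • m'` is in the ideal of the `lin z p`:
`m = m (X (p,k) ↦ X (p,k))` and `(-1/c)^M₀ • m' = m (X (p,k) ↦ - lin x p / c)` (all monomials have total exponent `M₀` in the coordinate `k`), `X (p,k) - (- lin x p / c) = lin z p / c`; two algebra homomorphisms which agree modulo an ideal.  `f_c := ∑ c^n • F n - (-1/c)^M₀ • ∑ c^n • F' n`: `LR .. z b μ_c f_c`.  N0P: `Good (xS z S * f_c)`; times `c^M₀`.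
`xS z S = ∑_{Q ⊆ S} c^{|Q|} ..` so `xS z S * ∑_{n ≤ i} c^n • F n = ∑_{n ≤ s+i} c^n • P n`, the same with `F'`: `P' n`; `P 0 = xS x S * F 0`.  So `∑_{n ≤ s+i} c^{M₀+n} • P n - (-1)^M₀ ∑_{n ≤ s+i} c^n • P' n` is good for all but finitely many `c`, and `s + i < M₀`: VDM with `U` = the good polynomials (GD0): `P 0` is good.
`c = 0` in FAM: `lin x w ∣ smz T (alt S (xb x b .. * m)) - F 0`, so `lin x w ∣ f - F 0`: LFT (2) (needs `(α')`). -/
def Stmt_N3 : Prop :=
  ∀ (K : Type) [Field K] [CharZero K] (v M β t s l i : ℕ), 1 ≤ v → N0P K v M β t s l i →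
    (∀ s' ≤ s, LIFT K v (M + 1) (M + 2) s' l (2 * M + 1 + β)) → ALP K v M β t s l →
    ∀ (A : Type) [Fintype A] [DecidableEq A] (T S C T₁ S₁ : Finset A) (w : A) (k : Fin v)
      (m : PX K A v) (M₀ : ℕ), Cf T S C w → Sp T S C w → T.card = t → S.card = s →
      C.card = l → T₁ ⊆ T → S₁ ⊆ S → T₁.card + S₁.card = i →
      Zc M (T \ T₁) (S \ S₁) C w (2 * M + 2 + β) m →
      (∀ μ ∈ m.support, ∑ p, μ (p, k) = M₀) → s + i < M₀ → FCm M β T S C T₁ S₁ w m

/-- EST: the `m` satisfying `FCm` form a subspace stable under the `E_ij`.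
Proof.  Existence (EXL): for `x ≠ 0`, `b`, `m` there is `f` with `LR .. x b m f` (MSX and LFT (1)).  Sum: given `LR x b (m + m') f` choose `f₁` for `m`; `f - f₁` is one for `m'` (`smz`, `alt` additive); `Good` is additive.  Scalars: `a = 0`: `LR x b 0 f`: `lin x w ∣ f`, `(α')` (LFT (2) with `f' = 0`).
`E_ij`: for `c` in `K` let `g_c := 1 + c e`, i.e. `sb g_c : X (p,j) ↦ X (p,j) + c X (p,i)`, `X (p,l) ↦ X (p,l)` (`l ≠ j`); invertible if `i ≠ j`, or `i = j` and `c ≠ -1`.  `sb g_c m = ∑_{n ≤ B} c^n • m_n` with `m_0 = m`, `m_1 = Eij i j m` (induction on `m`: constants, sums, `m * X (p,l)`; or for monomials), `m_n = 0` for `n > B`.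
`sb g_c m` is a bicycle for all `c` (SBT (3)), so all `m_n` are (VDM for the subspace of bicycles; choose the sequence `m_n` first).  N1: `FCm (sb g_c m)` for all but one `c`.  Given `LR x b m_1 f`, choose `f_n` with `LR x b m_n f_n` (`f_1 := f`): `LR x b (sb g_c m) (∑ c^n • f_n)`, so `Good (∑ c^n • (xS x S * f_n))`: VDM: `Good (xS x S * f)`. -/
def Stmt_EST : Prop :=
  ∀ (K : Type) [Field K] [CharZero K] (v M β t s l : ℕ),
    LIFT K v (M + 1) (M + 2) s l (2 * M + 1 + β) → ALP K v M β t s l →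
    ∀ (A : Type) [Fintype A] [DecidableEq A] (T S C T₁ S₁ : Finset A) (w : A), Cf T S C w →
      Sp T S C w → T.card = t → S.card = s → C.card = l → T₁ ⊆ T → S₁ ⊆ S →
      (∀ m m' : PX K A v, Zc M (T \ T₁) (S \ S₁) C w (2 * M + 2 + β) m →
        Zc M (T \ T₁) (S \ S₁) C w (2 * M + 2 + β) m' → FCm M β T S C T₁ S₁ w m →
        FCm M β T S C T₁ S₁ w m' → FCm M β T S C T₁ S₁ w (m + m')) ∧
      (∀ (a : K) (m : PX K A v), Zc M (T \ T₁) (S \ S₁) C w (2 * M + 2 + β) m →
        FCm M β T S C T₁ S₁ w m → FCm M β T S C T₁ S₁ w (a • m)) ∧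
      (∀ (i j : Fin v) (m : PX K A v), Zc M (T \ T₁) (S \ S₁) C w (2 * M + 2 + β) m →
        Zc M (T \ T₁) (S \ S₁) C w (2 * M + 2 + β) (Eij i j m) ∧
        (FCm M β T S C T₁ S₁ w m → FCm M β T S C T₁ S₁ w (Eij i j m)))

/-- ORT: over an ordered field a stable subspace containing all highest weight vectors is everything.
Proof.  Fischer form `⟪f, g⟫ := ∑_m m! coeff m f * coeff m g` (`m! = ∏_y (m y)!`, finite sum over the support), symmetric, bilinear, positive definite; `⟪X y * f, g⟫ = ⟪f, pderiv y g⟫`, so `⟪Eij i j f, g⟫ = ⟪f, Eij j i g⟫`.  Suppose `f ∈ Z`, `f ∉ 𝒩`.  `Z` is finite-dimensional (total degree `≤ B`, finitely many variables), so there is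
`n ∈ 𝒩` with `f - n` orthogonal to `𝒩` (orthogonal projection to the finite-dimensional `𝒩`: the form is anisotropic, hence `𝒩 → Dual 𝒩` is bijective).  `Z' := {z ∈ Z | ⟪z, n⟫ = 0 for all n ∈ 𝒩}` is non-zero and stable under all `Eij i j` (adjoint of `Eij j i`).  `Eij i i` acts on the weight components by the weight (WB (5)), so `Z'` contains the
weight components of its elements (Lagrange interpolation / VDM; weights are bounded by `B`).  Take a non-zero weight vector `z ∈ Z'`, weight `ν`, with `∑_j (v - j) ν_j` maximal (bounded by `v B`): `Eij i j z = 0` for `i < j` (its weight has a larger value, WB (6), (7)), so `z ∈ 𝒩` by hypothesis, `⟪z, z⟫ = 0`, contradiction. -/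
def Stmt_ORT : Prop :=
  ∀ (K : Type) [Field K] [LinearOrder K] [IsStrictOrderedRing K] (A : Type) [Fintype A]
    [DecidableEq A] (v B : ℕ) (Z 𝒩 : Submodule K (PX K A v)), 𝒩 ≤ Z →
    (∀ i j, ∀ f ∈ Z, Eij i j f ∈ Z) → (∀ i j, ∀ f ∈ 𝒩, Eij i j f ∈ 𝒩) →
    (∀ f ∈ Z, ∀ m ∈ f.support, ∑ y, m y ≤ B) →
    (∀ (ν : Fin v → ℕ), ∀ f ∈ Z, HasW ν f → (∀ i j : Fin v, i < j → Eij i j f = 0) → f ∈ 𝒩) →
    Z ≤ 𝒩

/-- FCA: `FCLAIM`.
Proof.  `Z` := the bicycles of `(T \ T₁; S \ S₁, C)`, `𝒩 := {m ∈ Z | FCm m}` (EST: a submodule, stable).  ORT with `B` = the total degree.  A highest weight vector `m ∈ Z` of weight `ν`: if `ν k ≥ s + a + b + 1` for some `k`: N3 with `M₀ = ν k` (`HasW`).  Otherwise `ν j ≤ s + a + b` for all `j`: N4 with the spare point `c₀` given by `Sp`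
(outside `T \ T₁` too), `D := s + a + b`, letters `(T \ T₁).card + 1 + (S \ S₁).card + C.card = (t - a) + 1 + (s - b) + l`: `m = ren (mv c₀ w) η`, N2. -/
def Stmt_FCA : Prop :=
  ∀ (K : Type) [Field K] [LinearOrder K] [IsStrictOrderedRing K] (v M β t s l a b : ℕ), 1 ≤ v →
    a ≤ t → b ≤ s → N0P K v M β t s l (a + b) →
    (∀ s' ≤ s, LIFT K v (M + 1) (M + 2) s' l (2 * M + 1 + β)) → ALP K v M β t s l →
    THREE K v M β t s l →
    HG K v (M + 1) (t - a + 1 + (s - b) + l) (M + 1 + β) (s + a + b) → FC K v M β t s l a b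

end Pool.Agent.VOP
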