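import Pool.Agent.VOP.StmtsX

/-!
# Module PPV (MP_deb8da_ag): `PP` from the vanishing of the Koszul homology
-/

namespace Pool.Agent.VOP

open MvPolynomial Pool.Agent.VSY

namespace PPV

variable {A : Type} [DecidableEq A]

lemma ext_eq {M : ℕ} {T C : Finset A} {w : A} (hcf : Cf T ∅ C w) (r e : ℕ) :
    ext (dgc M T ∅ C w r) (M + 2) w e = dgc M (sm T) ∅ (isn C) (some w) e := by
  funext o
  cases o with
  | none =>
    show M + 2 = _
    rw [dgc, if_neg, if_pos]
    · exact Finset.mem_insert_self _ _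
    · simp [sm]
  | some x =>
    show (if x = w then e else dgc M T ∅ C w r x) = _
    have m1 : ∀ S' : Finset A, some x ∈ sm S' ↔ x ∈ S' := by
      intro S'
      exact Finset.mem_map' _
    have m2 : some x ∈ isn C ↔ x ∈ C := by
      rw [isn, Finset.mem_insert, m1]
      simp
    have m3 : some x ∈ sm T ∪ ∅ ↔ x ∈ T ∪ ∅ := by
      rw [Finset.mem_union, Finset.mem_union, m1]
      simp
    by_cases hx : x = w
    · subst hx
      have n1 : x ∉ T ∪ ∅ := by
        rw [Finset.mem_union, not_or]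
        exact ⟨hcf.wT, hcf.wS⟩
      rw [if_pos rfl, dgc, if_neg (by rw [m3]; exact n1), if_neg (by rw [m2]; exact hcf.wC),
        if_pos rfl]
    · rw [if_neg hx, dgc, dgc]
      have n2 : ¬ (some x = some w) := fun h => hx (Option.some.inj h)
      simp only [m3, m2, if_neg hx, if_neg n2]

end PPV

open PPV in
theorem PPV_thm : Stmt_PPV := by
  intro K _ _ v M β t j hPV A _ _ T C w f hcf _ hC hz
  have hwT : w ∉ T ∪ (∅ : Finset A) := by
    rw [Finset.mem_union, not_or]
    exact ⟨hcf.wT, hcf.wS⟩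
  obtain ⟨g, hg, hgf⟩ := hPV A (dgc M T ∅ C w (2 * M + 2 + β)) T ∅ C w f hcf hC
    (fun y hy => by
      have hy' : y ∉ T ∪ (∅ : Finset A) := by
        rw [Finset.mem_union, not_or]
        exact ⟨fun h => Finset.disjoint_left.mp hcf.TC h hy, Finset.notMem_empty _⟩
      rw [dgc, if_neg hy', if_pos hy])
    (by rw [dgc, if_neg hwT, if_neg hcf.wC, if_pos rfl]; ring)
    hz.cg hz.cyC
  rw [ext_eq hcf] at hg
  have hz0 : ∀ (δ : Option A → ℕ) (T' S' C' : Finset (Option A)),
      Cg δ T' S' C' (0 : PX K (Option A) v) := by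
    intro δ T' S' C'
    refine ⟨?_, ?_, ?_, ?_⟩
    · intro m hm
      simp at hm
    · intro x _ y _
      rw [map_zero]
    · intro x _ y _ _
      rw [map_zero, neg_zero]
    · intro x _ y _ _
      rw [map_zero, neg_zero]
  have he : sm (∅ : Finset A) = ∅ := by simp [sm]
  rw [he] at hg
  refine ⟨0, g, ⟨hz0 _ _ _ _, ?_, ?_⟩, hg, ?_⟩
  · intro u _
    rw [map_zero]
  · intro u _
    rw [map_zero]
  · rw [map_zero, zero_add, hgf]

end Pool.Agent.VOP
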