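import Pool.Agent.VOP.OP
import Pool.Agent.VOP.LEMT
import Pool.Agent.VOP.MVT
import Pool.Agent.VOP.MVBI
import Pool.Agent.VOP.PPV
import Pool.Agent.VOP.PPM2
import Pool.Agent.VOP.HGC
import Pool.Agent.VOP.HGF
import Pool.Agent.VOP.HGT
import Pool.Agent.VOP.NUMB
import Pool.Agent.VOP.NUMG

/-!
# MP_deb8da_ag, row `q = 2`, `b > 0`: final assembly
-/

namespace Pool.Agent.VOP

open Pool.Agent.VSY

theorem lemt : Stmt_LEMT := LEMT_thm DG_thm gd0 gd2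

theorem mvt : Stmt_MVT := MVT_thm DG_thm t_VMVL t_VRNB

theorem mvbi : Stmt_MVBI := MVBI_thm t_VPVM mvt

theorem ppm2 : Stmt_PPM2 :=
  PPM2_thm t_VPVM lemt alpm twom thrm (CHB_thm DG_thm div) (CLCH_thm DG_thm sbt)
    (PPC_thm DG_thm sym gd0) (PP0_thm DG_thm) hf n0c (N0G_thm DG_thm sbt)
    (FCA_thm DG_thm sym gd0 n2 n3 n4 est (ORT_thm WB_thm) WB_thm)

theorem stepx : Stmt_STEP :=
  STEP_thm TRS_thm ppm2 liftm t_VPVM PPV_thm mvbi (t_VLF t_VMVL t_VRNB)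

theorem hgc : Stmt_HGC := HGC_thm hg0 hgs

theorem hgf : Stmt_HGF := HGF_thm hg0 hgs

theorem hgt : Stmt_HGT := HGT_thm hg0 hgs

section ord

variable (K : Type) [Field K] [LinearOrder K] [IsStrictOrderedRing K]

theorem vb1 (N : ℕ) (hN : 1 ≤ N) : VB K N 1 (3 * N) := by
  obtain ⟨M, rfl⟩ := Nat.exists_eq_add_of_le' hN
  intro v p hp
  have h := (vth K v M p).2 hp
  rwa [show 2 * M + 4 = 2 * (M + 1) + 1 + 1 by ring] at h

theorem vb2 (N : ℕ) (hN : 9 ≤ N) : VB K N 2 (4 * N - 1) :=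
  VB.two stepx hg0 hgf hgt (vb1 K) N hN

theorem vb3 (N : ℕ) (hN : 15 ≤ N) : VB K N 3 (5 * N - 3) :=
  VB.bthree stepx hg0 hgf hgt (vb2 K) N hN

theorem vbw (k N P : ℕ) (hN : 8 * (k + 3) ^ 4 + 8 * (k + 4) ^ 4 ≤ N)
    (hP : 2 * P + (k + 1) * k ≤ 2 * ((k + 3) * N)) : VB K N (k + 1) P :=
  VB.whole stepx hg0 hgc (vb1 K) k N P hN hP

end ord

end Pool.Agent.VOP
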