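import Pool.Agent.VOP.StmtsN

/-!
# The Ottaviani-Paoletti conjecture (MP_deb8da_ag): assembly of `Stmt_PPM`
-/

namespace Pool.Agent.VOP

open MvPolynomial Pool.Agent.VSY

/-- The assembly of the main theorem from the blocks G, S, N. -/
theorem PPM_thm (hPV : Stmt_PV) (hALPM : Stmt_ALPM) (hTWOM : Stmt_TWOM) (hTHRM : Stmt_THRM)
    (hCHB : Stmt_CHB) (hCLCH : Stmt_CLCH) (hPPC : Stmt_PPC) (hPP0 : Stmt_PP0)
    (hHF : Stmt_HF) (hN0C : Stmt_N0C) (hN0G : Stmt_N0G) (hFCA : Stmt_FCA) : Stmt_PPM := by
  intro K _ _ _ v M β t j hv hVan hLIFT hHG hPP
  rcases Nat.eq_zero_or_pos j with hj | hj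
  · subst hj
    exact hPP0 K v M β t
  · have hPP' : PP K v M β (t + 1) (j - 1) := by
      rcases hPP with h | h
      · omega
      · exact h
    have key : ∀ l, l ≤ j → CL K v M β t j l := by
      intro l
      induction l with
      | zero =>
        intro _
        have hPVs : PV K v (M + 1) j (M + β) := by
          refine hPV K v (M + 1) j (M + β) (by omega) ?_
          have h := hVan j le_rfl
          rwa [show M + β + (M + 1) = 2 * M + 1 + β by omega]
        have hA : ALP K v M β t j 0 := hALPM K v M β t j 0 hPVs (Or.inl rfl)
        have hT : THREE K v M β t j 0 :=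
          hTHRM K v M β t j 0 (by omega) hPVs (Or.inl rfl) (by simpa using hPP')
        have hTwo : TWO K v M β t j 0 := by
          intro A _ _ T S C w u x η f _ _ _ _ hC hu
          rw [Finset.card_eq_zero] at hC
          subst hC
          simp at hu
        have hL : ∀ s' ≤ j, LIFT K v (M + 1) (M + 2) s' 0 (2 * M + 1 + β) := by
          intro s' hs'
          exact hLIFT s' 0 (by omega)
        have hCH : ∀ n i, t + j + 1 ≤ i + n → CH K v M β t j 0 i := by
          intro n
          induction n with
          | zero =>
            intro i hi
            exact hCHB K v M β t j 0 i hA (by omega)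
          | succ n ih =>
            intro i hi
            have h1 := ih (i + 1) (by omega)
            refine hHF K v M β t j 0 i hTwo hA (hL j le_rfl) (hL j le_rfl) h1 ?_
            intro a b hab ha hb
            have hN : N0P K v M β t j 0 (a + b) := by
              rw [hab]
              exact hN0G K v M β t j 0 i (hN0C K v M β t j 0 i hTwo hA (hL j le_rfl)
                (hL j le_rfl) h1)
            refine hFCA K v M β t j 0 a b hv ha hb hN hL hA hT ?_
            have h2 := hHG (t - a + 1) (j - b) 0 (by omega) (by omega) (by omega)
            rwa [show t + 1 - (t - a + 1) + (j - 0 - (j - b)) + (j - 0) = j + a + b by omega]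
              at h2
        have := hCLCH K v M β t j 0 (hCH (t + j + 1) 0 (by omega))
        simpa using this
      | succ l ihl =>
        intro hl
        have hC0 : CL K v M β t j l := ihl (by omega)
        obtain ⟨s, rfl⟩ : ∃ s, j = s + (l + 1) := ⟨j - (l + 1), by omega⟩
        have hPVs : PV K v (M + 1) s (M + β) := by
          refine hPV K v (M + 1) s (M + β) (by omega) ?_
          have h := hVan s (by omega)
          rwa [show M + β + (M + 1) = 2 * M + 1 + β by omega]
        have hC1 : CL K v M β t (s + (l + 1)) (l + 1 - 1) := by simpa using hC0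
        have hA : ALP K v M β t s (l + 1) := hALPM K v M β t s (l + 1) hPVs (Or.inr hC1)
        have hT : THREE K v M β t s (l + 1) :=
          hTHRM K v M β t s (l + 1) (by omega) hPVs (Or.inr hC1) hPP'
        have hTwo : TWO K v M β t s (l + 1) := hTWOM K v M β t s (l + 1) hPVs hC1
        have hL : ∀ s' ≤ s, LIFT K v (M + 1) (M + 2) s' (l + 1) (2 * M + 1 + β) := by
          intro s' hs'
          exact hLIFT s' (l + 1) (by omega)
        have hL1 : LIFT K v (M + 1) (M + 2) s (l + 1 - 1) (2 * M + 1 + β) :=
          hLIFT s (l + 1 - 1) (by omega)
        have hCH : ∀ n i, t + s + 1 ≤ i + n → CH K v M β t s (l + 1) i := by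
          intro n
          induction n with
          | zero =>
            intro i hi
            exact hCHB K v M β t s (l + 1) i hA (by omega)
          | succ n ih =>
            intro i hi
            have h1 := ih (i + 1) (by omega)
            refine hHF K v M β t s (l + 1) i hTwo hA (hL s le_rfl) hL1 h1 ?_
            intro a b hab ha hb
            have hN : N0P K v M β t s (l + 1) (a + b) := by
              rw [hab]
              exact hN0G K v M β t s (l + 1) i (hN0C K v M β t s (l + 1) i hTwo hA
                (hL s le_rfl) hL1 h1)
            refine hFCA K v M β t s (l + 1) a b hv ha hb hN hL hA hT ?_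
            have h2 := hHG (t - a + 1) (s - b) (l + 1) (by omega) (by omega) (by omega)
            rwa [show t + 1 - (t - a + 1) + (s + (l + 1) - (l + 1) - (s - b)) +
              (s + (l + 1) - (l + 1)) = s + a + b by omega] at h2
        exact hCLCH K v M β t s (l + 1) (hCH (t + s + 1) 0 (by omega))
    exact hPPC K v M β t j hv (key j le_rfl)

end Pool.Agent.VOP
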