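import Pool.Agent.VOP.FIN4
import Pool.Agent.VOP.QRS

/-!
# MP_deb8da_ag, weight `q = 2`: the ranges below the tangent lines of `(N + β)² / (4 λ)`

`VB N β P`: vanishing at the level `2 N + β + 1` for `p ≤ P` (letters of degree `N + 1`).
`λ ≥ 2`, `1 + log (N + 1) ≤ λ + log λ`, `P ≤ w (N + β + 2) - λ w²`, `0 ≤ w ≤ β + 3`,
`P ≤ P_β(N)`.
-/

set_option autoImplicit false

namespace Pool.Agent.VOP

open Pool.Agent.VSY Pool.Agent.VSY.CH

namespace QRT

section ord

variable (K : Type) [Field K] [LinearOrder K] [IsStrictOrderedRing K]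

/-- Gluing for `κ + D < y (e + 2)`. -/
theorem hg_lin {v N κ e D : ℕ} {y : ℝ} (hN : 1 ≤ N) (he : 1 ≤ e) (hy : 1 ≤ y)
    (hyN : y * (1 + Real.log y) ≤ (N : ℝ) + 1) (h : (κ : ℝ) + D < y * (e + 2)) :
    HG K v N κ e D := by
  rcases Nat.lt_or_ge N D with hD | hD
  swap
  · exact QRE.hg_small K v N κ e D hN he hD
  have hN0 : (0 : ℝ) < N := by exact_mod_cast hN
  have hy0 : 0 < y := by linarith
  obtain ⟨C, hC⟩ : ∃ C : ℝ, C = D / N := ⟨_, rfl⟩
  have hCN : C * N = D := by
    rw [hC]
    field_simp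
  have hC1 : 1 < C := by
    rw [hC, one_lt_div hN0]
    exact_mod_cast hD
  obtain ⟨E, hE⟩ : ∃ E : ℝ, E = (e : ℝ) + 2 := ⟨_, rfl⟩
  rw [← hE] at h
  have hE3 : 3 ≤ E := by
    have : (1 : ℝ) ≤ e := by exact_mod_cast he
    linarith
  rcases le_or_gt (2 * C) E with h2 | h2
  · refine QRE.hg_exp K hN hC1 (by rw [hCN]) (by rw [← hE]; exact h2) ?_
    rw [← hE]
    have h3 := QRE.tangent (E := E) (by linarith : 0 < C) hy0
    have h4 : y * (1 + Real.log y) * C ≤ (N + 1) * C := mul_le_mul_of_nonneg_right hyN (by linarith)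
    nlinarith
  · refine hg0 K v N κ e D hN ?_
    have h3 := QRS.ylog hy0
    have h4 : 2 * y ≤ N + 2 := by nlinarith
    have h5 : (κ : ℝ) < e + 2 := by
      have h6 : E * N < 2 * (C * N) := by nlinarith
      have h7 : 2 * y * E ≤ (N + 2) * E := mul_le_mul_of_nonneg_right h4 (by linarith)
      nlinarith
    have h6 : κ < e + 2 := by exact_mod_cast h5
    omega

/-- `y = (N + 1) / λ` -/
theorem y_ok {N : ℕ} {lam : ℝ} (h1 : 0 < lam) (h2 : 1 + Real.log (N + 1) ≤ lam + Real.log lam)
    (h3 : lam ≤ (N : ℝ) + 1) : 1 ≤ ((N : ℝ) + 1) / lam ∧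
      ((N : ℝ) + 1) / lam * (1 + Real.log (((N : ℝ) + 1) / lam)) ≤ (N : ℝ) + 1 := by
  have hN : (0 : ℝ) < (N : ℝ) + 1 := by positivity
  refine ⟨by rw [le_div_iff₀ h1]; linarith, ?_⟩
  have h5 : 1 + Real.log (((N : ℝ) + 1) / lam) ≤ lam := by
    rw [Real.log_div hN.ne' h1.ne']
    linarith
  calc ((N : ℝ) + 1) / lam * (1 + Real.log (((N : ℝ) + 1) / lam))
      ≤ ((N : ℝ) + 1) / lam * lam := mul_le_mul_of_nonneg_left h5 (by positivity)
    _ = (N : ℝ) + 1 := by field_simp

/-- The condition `J'`. -/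
def JJ (lam : ℝ) (N β P : ℕ) : Prop :=
  ∃ w : ℝ, 0 ≤ w ∧ w ≤ (β : ℝ) + 3 ∧ (P : ℝ) ≤ w * ((N : ℝ) + β + 2) - lam * w ^ 2

theorem JJ.sq {lam : ℝ} {N β P : ℕ} (hl : 0 ≤ lam) (h : JJ lam N β P) :
    4 * lam * P ≤ ((N : ℝ) + β + 2) ^ 2 := by
  obtain ⟨w, h0, h1, h2⟩ := h
  nlinarith [sq_nonneg ((N : ℝ) + β + 2 - 2 * lam * w)]

/-- (3) -/
theorem JJ.three {lam : ℝ} {M β P s : ℕ} (hs : s + 3 ≤ P) (h : JJ lam (M + 1) β P) :
    JJ lam M (β + 1) s := by
  obtain ⟨w, h0, h1, h2⟩ := h
  refine ⟨w, h0, ?_, ?_⟩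
  · push_cast
    linarith
  · have : (s : ℝ) + 3 ≤ P := by exact_mod_cast hs
    push_cast at h2 ⊢
    linarith

/-- (4) -/
theorem JJ.four {lam : ℝ} {M β P s : ℕ} (hs : s + 3 + β ≤ P) (h : JJ lam (M + 1) β P) :
    JJ lam M β s := by
  obtain ⟨w, h0, h1, h2⟩ := h
  refine ⟨w, h0, h1, ?_⟩
  have : (s : ℝ) + 3 + β ≤ P := by exact_mod_cast hs
  push_cast at h2 ⊢
  linarith

/-- (5) -/
theorem JJ.five {lam : ℝ} {M β P q : ℕ} (hl : 2 ≤ lam) (hβ : β ≤ M) (hq : P = q + M + 5)
    (h : JJ lam (M + 1) (β + 1) P) : JJ lam (M + 1) β q := by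
  obtain ⟨w, h0, h1, h2⟩ := h
  have hq' : (P : ℝ) = q + M + 5 := by exact_mod_cast hq
  have hβ' : (β : ℝ) ≤ M := by exact_mod_cast hβ
  have hβ0 : (0 : ℝ) ≤ β := by positivity
  push_cast at h1 h2
  rcases le_or_gt w (β + 3) with hw | hw
  · refine ⟨w, h0, hw, ?_⟩
    push_cast
    linarith
  · refine ⟨β + 3, by positivity, le_rfl, ?_⟩
    obtain ⟨δ, rfl⟩ : ∃ δ : ℝ, w = β + 3 + δ := ⟨w - (β + 3), by ring⟩
    have hδ0 : 0 < δ := by linarith
    have hδ1 : δ ≤ 1 := by linarith
    push_cast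
    have e1 : (q : ℝ) ≤
        (β + 3 + δ) * (M + 1 + (β + 1) + 2) - lam * (β + 3 + δ) ^ 2 - M - 5 := by
      linarith
    refine e1.trans ?_
    have h3 : 2 * (δ * (2 * β + 6 + δ)) ≤ lam * (δ * (2 * β + 6 + δ)) :=
      mul_le_mul_of_nonneg_right hl (by positivity)
    have h4 : (1 - δ) * (β : ℝ) ≤ (1 - δ) * M := mul_le_mul_of_nonneg_left hβ' (by linarith)
    nlinarith

/-- The main induction. -/
theorem main {lam : ℝ} (hl : 2 ≤ lam) : ∀ N β : ℕ, 1 ≤ β → β ≤ N + 1 →
    1 + Real.log (N + 1) ≤ lam + Real.log lam → ∀ P : ℕ, JJ lam N β P →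
      (N ≤ β ∨ 2 * P + β * (β - 1) ≤ 2 * ((β + 2) * N)) → VB K N β P := by
  intro N
  induction N with
  | zero =>
    intro β h1 h2 _ P hJ _
    obtain rfl : β = 1 := by omega
    have h3 := hJ.sq (by linarith)
    have h4 : P ≤ 1 := by
      by_contra h
      have : (2 : ℝ) ≤ P := by exact_mod_cast (by omega : 2 ≤ P)
      norm_num at h3
      nlinarith
    intro v p hp
    exact low K v 1 p _ le_rfl (by omega)
  | succ M ihM =>
    intro β
    induction β with
    | zero =>
      intro h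
      omega
    | succ β ihβ =>
      intro h1 h2 hlog P hJ hcap
      -- small `P`
      rcases Nat.lt_or_ge (M + 1 + (β + 1)) P with hP | hP
      swap
      · intro v p hp
        exact low K v (M + 2) p _ (by omega) (by omega)
      have hsq := hJ.sq (by linarith)
      have hPr : ((M : ℝ) + 1 + (β + 1)) + 1 ≤ P := by exact_mod_cast hP
      push_cast at hsq
      have hβM : (β : ℝ) ≤ M + 1 := by
        have : β ≤ M + 1 := by omega
        exact_mod_cast this
      have hM0 : (0 : ℝ) ≤ M := by positivity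
      have hβ0 : (0 : ℝ) ≤ β := by positivity
      have hlam : lam ≤ (M : ℝ) + 1 + 1 := by
        by_contra hc
        rw [not_le] at hc
        have h5 : 4 * ((M : ℝ) + 2) * (M + β + 3) < (M + β + 4) ^ 2 := by
          have h6 : 4 * ((M : ℝ) + 2) * (M + β + 3) < 4 * lam * P := by
            have h7 : 4 * ((M : ℝ) + 2) * (M + β + 3) < 4 * lam * (M + β + 3) := by
              apply mul_lt_mul_of_pos_right _ (by positivity)
              linarith
            have h8 : 4 * lam * ((M : ℝ) + β + 3) ≤ 4 * lam * P := by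
              apply mul_le_mul_of_nonneg_left _ (by linarith)
              linarith
            linarith
          nlinarith
        nlinarith
      have hy := y_ok (N := M + 1) (lam := lam) (by linarith) hlog (by push_cast; linarith)
      have hlogM : 1 + Real.log ((M : ℝ) + 1) ≤ lam + Real.log lam := by
        refine le_trans ?_ hlog
        have : Real.log ((M : ℝ) + 1) ≤ Real.log (((M + 1 : ℕ) : ℝ) + 1) := by
          apply Real.log_le_log (by positivity)
          push_cast
          linarith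
        linarith
      rcases Nat.lt_or_ge (β + 1) (M + 1) with hN | hN
      swap
      · -- `N ≤ β`
        intro v p hp
        have hpP : (p : ℝ) ≤ P := by exact_mod_cast hp
        refine QRS.vanA K (M := M) (β := β + 1) (by omega) hy.1 ?_ ?_ v _ ?_
        · have e1 : ((M + 2 : ℕ) : ℝ) = ((M + 1 : ℕ) : ℝ) + 1 := by
            push_cast
            ring
          rw [e1]
          exact hy.2
        · refine lt_of_le_of_lt hpP ?_
          have hMβ : (M : ℝ) ≤ β := by
            have : M ≤ β := by omega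
            exact_mod_cast this
          rw [div_mul_eq_mul_div, lt_div_iff₀ (by linarith)]
          push_cast
          nlinarith
        · omega
      · have hcap' : 2 * P + (β + 1) * β ≤ 2 * ((β + 3) * (M + 1)) := by
          rcases hcap with h | h
          · omega
          · rw [Nat.add_sub_cancel] at h
            exact h
        have h8 : 8 * P ≤ (M + β + 4) ^ 2 := by
          have h : (8 : ℝ) * P ≤ ((M : ℝ) + β + 4) ^ 2 := by nlinarith
          exact_mod_cast h
        refine VB.climb (K := K) stepx (M := M) (β := β + 1) (P := P) (q := P - (M + 5)) (by omega)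
          hcap ?_ ?_ ?_ (by omega) ?_
        · -- (3)
          intro s hs
          refine ihM (β + 1 + 1) (by omega) (by omega) hlogM s (hJ.three hs) ?_
          rcases Nat.lt_or_ge (β + 1 + 1) M with h3 | h3
          swap
          · exact Or.inl h3
          · right
            rw [Nat.add_sub_cancel]
            rcases Nat.lt_or_ge (2 * β) M with h4 | h4
            · nlinarith
            · obtain ⟨m, rfl⟩ : ∃ m, M = β + 3 + m := ⟨M - (β + 3), by omega⟩
              have h5 : m * m ≤ m * β := Nat.mul_le_mul_left _ (by omega)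
              nlinarith
        · -- (4)
          intro s hs
          refine ihM (β + 1) (by omega) (by omega) hlogM s (hJ.four hs) (Or.inr ?_)
          rw [Nat.add_sub_cancel]
          nlinarith
        · -- (5)
          rw [Nat.add_sub_cancel]
          rcases Nat.eq_zero_or_pos β with hb | hb
          · subst hb
            refine (vb0 K (M + 1) (by omega)).mono le_rfl ?_
            omega
          · refine ihβ hb (by omega) hlog _ ?_ ?_
            · rcases Nat.lt_or_ge P (M + 5) with h5 | h5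
              · rw [Nat.sub_eq_zero_of_le h5.le]
                exact ⟨0, le_rfl, by positivity, by simp⟩
              · exact JJ.five hl (by omega) (by omega) hJ
            · right
              rcases Nat.lt_or_ge P (M + 5) with h5 | h5
              · rw [Nat.sub_eq_zero_of_le h5.le]
                have h6 : β * (β - 1) ≤ (β + 2) * (M + 1) :=
                  Nat.mul_le_mul (by omega) (by omega)
                omega
              · obtain ⟨q, rfl⟩ : ∃ q, P = q + (M + 5) := ⟨P - (M + 5), by omega⟩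
                obtain ⟨c, rfl⟩ : ∃ c, β = c + 1 := ⟨β - 1, by omega⟩
                rw [Nat.add_sub_cancel, Nat.add_sub_cancel]
                nlinarith
        · -- (7)
          intro v t κ D ht hv hq hD
          refine hg_lin K (by omega) (by omega) hy.1 hy.2 ?_
          have h9 : (D : ℝ) + κ + (β + 1) + t ≤ 2 * P + 1 := by exact_mod_cast hD
          have h10 : (3 : ℝ) ≤ t := by exact_mod_cast ht
          have h11 : (β : ℝ) + 1 ≤ M := by
            have : β + 1 ≤ M := by omega
            exact_mod_cast this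
          rw [div_mul_eq_mul_div, lt_div_iff₀ (by linarith)]
          push_cast
          have h12 : ((κ : ℝ) + D) * lam ≤ (2 * P - 3 - β) * lam :=
            mul_le_mul_of_nonneg_right (by linarith) (by linarith)
          have h13 : 2 * ((3 : ℝ) + β) ≤ lam * (3 + β) :=
            mul_le_mul_of_nonneg_right hl (by positivity)
          nlinarith

end ord

/-- The row `q = 2`: the range `p ≤ w (d + b + 2) - λ w²`, `p < L`. -/
theorem row (K : Type) [Field K] [CharZero K] (v b d p : ℕ) (hd : b + 3 ≤ d) (lam w : ℝ)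
    (hl : 2 ≤ lam) (hlog : 1 + Real.log d ≤ lam + Real.log lam) (hw0 : 0 ≤ w)
    (hw : w ≤ (b : ℝ) + 4) (hp : (p : ℝ) ≤ w * ((d : ℝ) + b + 2) - lam * w ^ 2)
    (hL : (p : ℤ) < Lend 2 b d) : Van K v d p (2 * d + b) := by
  obtain ⟨N, rfl⟩ : ∃ N, d = N + 1 := ⟨d - 1, by omega⟩
  have e : 2 * (N + 1) + b = 2 * N + (b + 1) + 1 := by ring
  rw [e]
  refine FIN3.vb_bc K (main ℚ hl N (b + 1) (by omega) (by omega) ?_ p ⟨w, hw0, ?_, ?_⟩ (Or.inr ?_))
    v p le_rfl
  · push_cast at hlog
    exact hlog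
  · push_cast
    linarith
  · push_cast at hp ⊢
    linarith
  · rw [Nat.add_sub_cancel]
    have hl' := lend_eq (b := b) (d := N + 1) (by omega)
    push_cast at hl'
    have h8 : (2 : ℤ) * p + (b + 1) * b ≤ 2 * ((b + 1 + 2) * N) := by nlinarith
    exact_mod_cast h8

/-- The whole lower end of the row `q = 2` for `λ (b + 4)² ≤ d + (3 b² + 15 b + 22) / 2`. -/
theorem lower (K : Type) [Field K] [CharZero K] (v b d p : ℕ) (hd : b + 3 ≤ d) (lam : ℝ)
    (hl : 2 ≤ lam) (hlog : 1 + Real.log d ≤ lam + Real.log lam)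
    (h : lam * ((b : ℝ) + 4) ^ 2 ≤ d + (3 * (b : ℝ) ^ 2 + 15 * b + 22) / 2)
    (hL : (p : ℤ) < Lend 2 b d) : Van K v d p (2 * d + b) := by
  refine row K v b d p hd lam (b + 4) hl hlog (by positivity) le_rfl ?_ hL
  have hl' := lend_eq (b := b) (d := d) (by omega)
  have h8 : (2 : ℤ) * p + 2 ≤ ((d : ℤ) + 2) * (d + 1) - (d - b - 1) * (d - b - 2) - 4 := by
    linarith
  have h9 : (2 : ℝ) * p + 2 ≤ ((d : ℝ) + 2) * (d + 1) - (d - b - 1) * (d - b - 2) - 4 := by
    exact_mod_cast h8
  nlinarith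

end QRT

end Pool.Agent.VOP
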