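import Pool.Agent.VOP.QRT
import Pool.Agent.VPT.STEPV

/-!
# MP_deb8da_ag, weight `q = 2`: the ranges below the tangent lines of `(N + 1) (N + β + 2) / (2 λ)`

`VB N β P`: vanishing at the level `2 N + β + 1` for `p ≤ P` (letters of degree `N + 1`).
`λ ≥ 2`, `1 + log (N + 1) ≤ λ + log λ`,
`P ≤ w (N + (β + 3) / 2) - λ w² / 2 - (β + 1)² / (8 λ)`, `0 ≤ w ≤ β + 3`, `P ≤ P_β(N)`.
-/

set_option autoImplicit false

namespace Pool.Agent.VOP

open Pool.Agent.VSY Pool.Agent.VSY.CH

namespace QRU

section ord

variable (K : Type) [Field K] [LinearOrder K] [IsStrictOrderedRing K]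

variable {K} in
/-- The climb: the range `p ≤ P` for `(M + 1, β)` from smaller cases. -/
theorem climb {M β P q : ℕ} (hβ : 1 ≤ β) (hβM : β ≤ M + 2)
    (h3 : M + 1 ≤ β ∨ 2 * P + β * (β - 1) ≤ 2 * ((β + 2) * (M + 1)))
    (hA : ∀ i s, s + 2 + β ≤ P + i → VB K M (β + 1 + i) s)
    (hB : ∀ s, s + 3 + β ≤ P → VB K M β s)
    (hq : VB K (M + 1) (β - 1) q) (hP : P ≤ q + M + 5)
    (hHG : ∀ v t κ D, 3 ≤ t → D + κ + β + t ≤ 2 * P + 1 →
      HG K v (M + 1) κ (M + 1 + β) D) : VB K (M + 1) β P := by
  have hcz : CharZero K := IsStrictOrderedRing.toCharZero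
  have e : 2 * (M + 1) + β + 1 = 2 * M + 3 + β := by ring
  have key : ∀ p, p ≤ P → ∀ v, Van K v (M + 2) p (2 * M + 3 + β) := by
    intro p
    induction p using Nat.strong_induction_on with
    | _ p ih =>
      intro hp
      have hH : ∀ p', p' < p → ∀ v r', 2 * M + 3 + β ≤ r' → Van K v (M + 2) p' r' := by
        intro p' hp' v r' hr'
        have h : VB K (M + 1) β p' := by
          intro v' p'' hp''
          rw [e]
          exact ih p'' (by omega) (by omega) v'
        obtain ⟨j, rfl⟩ := Nat.exists_eq_add_of_le hr'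
        have h2 := h.mono (β' := β + j) (by omega) le_rfl v p' le_rfl
        have e2 : 2 * (M + 1) + (β + j) + 1 = 2 * M + 3 + β + j := by ring
        rwa [e2] at h2
      have hthree : Van K 3 (M + 2) p (2 * M + 3 + β) := by
        have h := VB.three (K := K) (N := M + 1) (β := β) (p := p) (by omega) (by omega)
        rwa [e] at h
      intro v
      induction v with
      | zero => exact red K 0 3 _ _ _ (by omega) hthree
      | succ v ihv =>
        rcases Nat.lt_or_ge v 3 with hv | hv
        · exact red K (v + 1) 3 _ _ _ (by omega) hthree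
        · refine stepv K v M β p q hv hβ ihv (fun p' hp' r' hr' => hH p' hp' _ r' hr') ?_ ?_ ?_ ?_
            (by omega) ?_
          · intro s hs
            have h := hB s (by omega) (v + 1) s le_rfl
            have e1 : 2 * M + β + 1 = 2 * M + 1 + β := by ring
            rwa [e1] at h
          · intro s i _ hs
            have h := hA i s (by omega) (v + 1) s le_rfl
            have e1 : 2 * M + (β + 1 + i) + 1 = 2 * M + 2 + β + i := by ring
            rwa [e1] at h
          · intro s r' hs hr'
            obtain ⟨j, rfl⟩ := Nat.exists_eq_add_of_le hr'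
            have h := (hA M s (by omega)).mono (β' := β + 1 + M + j) (by omega) le_rfl (v + 1) s
              le_rfl
            have e1 : 2 * M + (β + 1 + M + j) + 1 = 3 * M + 2 + β + j := by ring
            rwa [e1] at h
          · intro p' hp' r' hr'
            obtain ⟨j, rfl⟩ := Nat.exists_eq_add_of_le hr'
            have h := hq.mono (β' := β - 1 + j) (by omega) le_rfl (v + 1) p' hp'
            have e1 : 2 * (M + 1) + (β - 1 + j) + 1 = 2 * M + 2 + β + j := by omega
            rwa [e1] at h
          · intro t κ l D ht hl hD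
            exact HGr.of_HG (hHG (v + 1) t κ D (by omega) (by omega))
  intro v p hp
  have h := key p hp v
  rwa [← e] at h

/-- The condition `J''`. -/
def JJ (lam : ℝ) (N β P : ℕ) : Prop :=
  ∃ w : ℝ, 0 ≤ w ∧ w ≤ (β : ℝ) + 3 ∧
    8 * lam * P ≤ 4 * lam * w * (2 * N + β + 3) - 4 * lam ^ 2 * w ^ 2 - ((β : ℝ) + 1) ^ 2

theorem JJ.sq {lam : ℝ} {N β P : ℕ} (h : JJ lam N β P) :
    2 * lam * P ≤ ((N : ℝ) + 1) * ((N : ℝ) + β + 2) := by
  obtain ⟨w, h0, h1, h2⟩ := h
  nlinarith [sq_nonneg (2 * (N : ℝ) + β + 3 - 2 * lam * w)]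

/-- (4) -/
theorem JJ.four {lam : ℝ} {M β P s : ℕ} (hl : 0 ≤ lam) (hs : s + 3 + β ≤ P)
    (h : JJ lam (M + 1) β P) : JJ lam M β s := by
  obtain ⟨w, h0, h1, h2⟩ := h
  refine ⟨w, h0, h1, ?_⟩
  have h3 : (s : ℝ) + 3 + β ≤ P := by exact_mod_cast hs
  have h4 : lam * ((s : ℝ) + 3 + β) ≤ lam * P := mul_le_mul_of_nonneg_left h3 hl
  have h5 : lam * w ≤ lam * (β + 3) := mul_le_mul_of_nonneg_left h1 hl
  push_cast at h2
  nlinarith

/-- (5) -/
theorem JJ.five {lam : ℝ} {M β P q : ℕ} (hl : 2 ≤ lam) (hβ : β ≤ M) (hq : P = q + M + 5)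
    (h : JJ lam (M + 1) (β + 1) P) : JJ lam (M + 1) β q := by
  obtain ⟨w, h0, h1, h2⟩ := h
  have hq' : (P : ℝ) = q + M + 5 := by exact_mod_cast hq
  have hβ' : (β : ℝ) ≤ M := by exact_mod_cast hβ
  have hβ0 : (0 : ℝ) ≤ β := by positivity
  have hM0 : (0 : ℝ) ≤ M := by positivity
  rw [hq'] at h2
  push_cast at h1 h2
  have hl0 : 0 < lam := by linarith
  rcases le_or_gt w (β + 3) with hw | hw
  · refine ⟨w, h0, hw, ?_⟩
    push_cast
    have h3 : lam * w ≤ lam * (M + 3) := mul_le_mul_of_nonneg_left (by linarith) hl0.le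
    nlinarith
  · refine ⟨β + 3, by positivity, le_rfl, ?_⟩
    obtain ⟨δ, rfl⟩ : ∃ δ : ℝ, w = β + 3 + δ := ⟨w - (β + 3), by ring⟩
    have hδ0 : 0 < δ := by linarith
    have hδ1 : δ ≤ 1 := by linarith
    push_cast
    have h3 : 2 * (lam * (2 * δ * (β + 3) + δ ^ 2)) ≤ lam * (lam * (2 * δ * (β + 3) + δ ^ 2)) :=
      mul_le_mul_of_nonneg_right hl (by positivity)
    have h4 : (β : ℝ) + 3 + δ * (2 * (M + 1) + β + 4) - 2 * (2 * δ * (β + 3) + δ ^ 2)
        - 2 * (M + 5) ≤ 0 := by
      have h5 : (1 - δ) * (β : ℝ) ≤ (1 - δ) * M := mul_le_mul_of_nonneg_left hβ' (by linarith)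
      nlinarith [sq_nonneg δ, mul_nonneg hδ0.le hβ0]
    have h5 := mul_le_mul_of_nonneg_left h4 hl0.le
    nlinarith

/-- The base of the step: from (4) by slope 3. -/
theorem base {M β P : ℕ} (hβM : β ≤ M) (hM : 1 ≤ M)
    (hcap : 2 * P + β * (β - 1) ≤ 2 * ((β + 2) * (M + 1)))
    (hB : ∀ s, s + 3 + β ≤ P → VB K M β s) :
    ∀ i s, s + 2 + β ≤ P + i → VB K M (β + 1 + i) s := by
  intro i
  induction i with
  | zero =>
    intro s hs
    rcases Nat.lt_or_ge s 3 with h3 | h3
    · rcases Nat.lt_or_ge P (3 + β) with h4 | h4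
      · intro v p hp
        exact low K v (M + 1) p _ (by omega) (by omega)
      · refine VB.slope3 hM (hB 0 (by omega)) (by omega) ?_
        rcases Nat.lt_or_ge (β + 1) M with h5 | h5
        swap
        · exact Or.inl h5
        · right
          nlinarith
    · refine VB.slope3 hM (hB (s - 3) (by omega)) (by omega) ?_
      rcases Nat.lt_or_ge (β + 1) M with h5 | h5
      swap
      · exact Or.inl h5
      · right
        rcases Nat.eq_zero_or_pos β with hb | hb
        · subst hb
          omega
        · obtain ⟨c, rfl⟩ : ∃ c, β = c + 1 := ⟨β - 1, by omega⟩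
          rw [Nat.add_sub_cancel] at hcap
          nlinarith
  | succ i ih =>
    intro s hs
    rcases Nat.eq_zero_or_pos s with h0 | h0
    · subst h0
      intro v p hp
      exact low K v (M + 1) p _ (by omega) (by omega)
    · have h1 := ih (s - 1) (by omega)
      refine VB.slope3 (β := β + 1 + i) hM h1 (by omega) ?_
      rcases Nat.lt_or_ge (β + 1 + i + 1) M with h5 | h5
      swap
      · exact Or.inl h5
      · right
        obtain ⟨m, rfl⟩ : ∃ m, M = β + 1 + i + 2 + m := ⟨M - (β + 1 + i + 2), by omega⟩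
        rcases Nat.eq_zero_or_pos β with hb | hb
        · subst hb
          nlinarith
        · obtain ⟨c, rfl⟩ : ∃ c, β = c + 1 := ⟨β - 1, by omega⟩
          rw [Nat.add_sub_cancel] at hcap
          nlinarith

/-- The main induction. -/
theorem main {lam : ℝ} (hl : 2 ≤ lam) : ∀ N β : ℕ, 1 ≤ β → β ≤ N + 1 →
    1 + Real.log (N + 1) ≤ lam + Real.log lam → ∀ P : ℕ, JJ lam N β P →
      (N ≤ β ∨ 2 * P + β * (β - 1) ≤ 2 * ((β + 2) * N)) → VB K N β P := by
  intro N
  induction N with
  | zero =>
    intro β h1 h2 _ P hJ _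
    obtain rfl : β = 1 := by omega
    have h3 := hJ.sq
    have h4 : P ≤ 1 := by
      by_contra h
      have : (2 : ℝ) ≤ P := by exact_mod_cast (by omega : 2 ≤ P)
      norm_num at h3
      nlinarith
    intro v p hp
    exact low K v 1 p _ le_rfl (by omega)
  | succ M ihM =>
    intro β
    induction β with
    | zero =>
      intro h
      omega
    | succ β ihβ =>
      intro h1 h2 hlog P hJ hcap
      -- small `P`
      rcases Nat.lt_or_ge (M + 1 + (β + 1)) P with hP | hP
      swap
      · intro v p hp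
        exact low K v (M + 2) p _ (by omega) (by omega)
      have hsq := hJ.sq
      have hPr : ((M : ℝ) + 1 + (β + 1)) + 1 ≤ P := by exact_mod_cast hP
      push_cast at hsq
      have hβM : (β : ℝ) ≤ M + 1 := by
        have : β ≤ M + 1 := by omega
        exact_mod_cast this
      have hM0 : (0 : ℝ) ≤ M := by positivity
      have hβ0 : (0 : ℝ) ≤ β := by positivity
      have hlam : lam ≤ (M : ℝ) + 1 + 1 := by
        by_contra hc
        rw [not_le] at hc
        have h7 : ((M : ℝ) + 1 + 1) * (M + β + 3) < lam * (M + β + 3) :=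
          mul_lt_mul_of_pos_right hc (by positivity)
        have h8 : lam * ((M : ℝ) + β + 3) ≤ lam * P := by
          apply mul_le_mul_of_nonneg_left _ (by linarith)
          linarith
        nlinarith
      have hy := QRT.y_ok (N := M + 1) (lam := lam) (by linarith) hlog (by push_cast; linarith)
      have hlogM : 1 + Real.log ((M : ℝ) + 1) ≤ lam + Real.log lam := by
        refine le_trans ?_ hlog
        have : Real.log ((M : ℝ) + 1) ≤ Real.log (((M + 1 : ℕ) : ℝ) + 1) := by
          apply Real.log_le_log (by positivity)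
          push_cast
          linarith
        linarith
      rcases Nat.lt_or_ge (β + 1) (M + 1) with hN | hN
      swap
      · -- `N ≤ β`
        intro v p hp
        have hpP : (p : ℝ) ≤ P := by exact_mod_cast hp
        refine QRS.vanA K (M := M) (β := β + 1) (by omega) hy.1 ?_ ?_ v _ ?_
        · have e1 : ((M + 2 : ℕ) : ℝ) = ((M + 1 : ℕ) : ℝ) + 1 := by
            push_cast
            ring
          rw [e1]
          exact hy.2
        · refine lt_of_le_of_lt hpP ?_
          have hMβ : (M : ℝ) ≤ β := by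
            have : M ≤ β := by omega
            exact_mod_cast this
          rw [div_mul_eq_mul_div, lt_div_iff₀ (by linarith)]
          push_cast
          nlinarith
        · omega
      · have hcap' : 2 * P + (β + 1) * β ≤ 2 * ((β + 3) * (M + 1)) := by
          rcases hcap with h | h
          · omega
          · rw [Nat.add_sub_cancel] at h
            exact h
        have h4 : ∀ s, s + 3 + (β + 1) ≤ P → VB K M (β + 1) s := by
          intro s hs
          refine ihM (β + 1) (by omega) (by omega) hlogM s (hJ.four (by linarith) hs) (Or.inr ?_)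
          rw [Nat.add_sub_cancel]
          nlinarith
        refine climb (K := K) (M := M) (β := β + 1) (P := P) (q := P - (M + 5)) (by omega)
          (by omega) hcap ?_ h4 ?_ (by omega) ?_
        · -- (3)
          intro i s hs
          refine base K (M := M) (β := β + 1) (P := P) (by omega) (by omega) ?_ h4 i s hs
          rw [Nat.add_sub_cancel]
          exact hcap'
        · -- (5)
          rw [Nat.add_sub_cancel]
          rcases Nat.lt_or_ge P (M + 5) with h5 | h5
          · rw [Nat.sub_eq_zero_of_le h5.le]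
            intro v p hp
            exact low K v (M + 2) p _ (by omega) (by omega)
          · rcases Nat.eq_zero_or_pos β with hb | hb
            · subst hb
              refine (vb0 K (M + 1) (by omega)).mono le_rfl ?_
              omega
            · refine ihβ hb (by omega) hlog _ (JJ.five hl (by omega) (by omega) hJ) (Or.inr ?_)
              obtain ⟨q, rfl⟩ : ∃ q, P = q + (M + 5) := ⟨P - (M + 5), by omega⟩
              obtain ⟨c, rfl⟩ : ∃ c, β = c + 1 := ⟨β - 1, by omega⟩
              rw [Nat.add_sub_cancel, Nat.add_sub_cancel]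
              nlinarith
        · -- (7)
          intro v t κ D ht hD
          refine QRT.hg_lin K (by omega) (by omega) hy.1 hy.2 ?_
          have h9 : (D : ℝ) + κ + (β + 1) + t ≤ 2 * P + 1 := by exact_mod_cast hD
          have h10 : (3 : ℝ) ≤ t := by exact_mod_cast ht
          rw [div_mul_eq_mul_div, lt_div_iff₀ (by linarith)]
          push_cast
          have h12 : ((κ : ℝ) + D) * lam ≤ (2 * P - 3 - β) * lam :=
            mul_le_mul_of_nonneg_right (by linarith) (by linarith)
          have h13 : 0 < lam * (3 + β) := by positivity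
          nlinarith

end ord

/-- The row `q = 2`: the range `p ≤ w (d + (b + 2) / 2) - λ w² / 2 - (b + 2)² / (8 λ)`, `p < L`. -/
theorem row (K : Type) [Field K] [CharZero K] (v b d p : ℕ) (hd : b + 3 ≤ d)
    (lam w : ℝ) (hl : 2 ≤ lam) (hlog : 1 + Real.log d ≤ lam + Real.log lam) (hw0 : 0 ≤ w)
    (hw : w ≤ (b : ℝ) + 4)
    (hp : (p : ℝ) ≤ w * ((d : ℝ) + (b + 2) / 2) - lam * w ^ 2 / 2 - ((b : ℝ) + 2) ^ 2 / (8 * lam))
    (hL : (p : ℤ) < Lend 2 b d) : Van K v d p (2 * d + b) := by
  obtain ⟨N, rfl⟩ : ∃ N, d = N + 1 := ⟨d - 1, by omega⟩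
  have e : 2 * (N + 1) + b = 2 * N + (b + 1) + 1 := by ring
  rw [e]
  refine FIN3.vb_bc K (main ℚ hl N (b + 1) (by omega) (by omega) ?_ p ⟨w, hw0, ?_, ?_⟩
    (Or.inr ?_)) v p le_rfl
  · push_cast at hlog
    exact hlog
  · push_cast
    linarith
  · push_cast at hp ⊢
    have h1 : 8 * lam * (((b : ℝ) + 2) ^ 2 / (8 * lam)) = ((b : ℝ) + 2) ^ 2 := by
      field_simp
    have h2 := mul_le_mul_of_nonneg_left hp (by linarith : 0 ≤ 8 * lam)
    nlinarith
  · rw [Nat.add_sub_cancel]
    have hl' := lend_eq (b := b) (d := N + 1) (by omega)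
    push_cast at hl'
    have h8 : (2 : ℤ) * p + (b + 1) * b ≤ 2 * ((b + 1 + 2) * N) := by nlinarith
    exact_mod_cast h8

end QRU

end Pool.Agent.VOP
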