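import Pool.Agent.VOP.StmtsX
import Pool.Agent.VOP.VTH

/-!
# MP_deb8da_ag, `b > 0`: the inductive step
-/

namespace Pool.Agent.VOP

open MvPolynomial Pool.Agent.VSY

namespace STEP

/-- `MVB` without `S`-points is the vanishing with parameters. -/
theorem mvb_zero (K : Type) [Field K] (v N d p e : ℕ) (h : PV K v d p e) :
    MVB K v N d 0 p e := by
  intro A _ _ δ T S C w f hcf hS hC _ hCd hw hf _ hcC
  obtain ⟨g, hg, hgf⟩ := h A δ T S C w f hcf hC hCd hw hf hcC
  refine ⟨g, hg, ?_, hgf⟩
  intro u hu
  rw [Finset.card_eq_zero] at hS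
  rw [hS] at hu
  simp [sm] at hu

end STEP

theorem STEP_thm (hTRS : Stmt_TRS) (hPPM2 : Stmt_PPM2) (hLIFTM : Stmt_LIFTM) (hPV : Stmt_PV)
    (hPPV : Stmt_PPV) (hMVBI : Stmt_MVBI) (hVLF : SV_VLF) : Stmt_STEP := by
  intro K _ _ _ M β p q hβ h3 hH1 hA hB hq hpq hHG
  have hAm : ∀ r', 2 * M + 2 + β ≤ r' → ∀ v s, s + 3 ≤ p → Van K v (M + 1) s r' := by
    intro r' hr' v s hs
    exact VTH.mono' (K := K) (r := 2 * M + 2 + β) (P := p - 3) (by omega) (by omega)
      (fun v s hs' => hA v s (by omega)) hr' v s (by omega)
  have hqm : ∀ r', 2 * M + 2 + β ≤ r' → ∀ v p', p' ≤ q → Van K v (M + 2) p' r' := by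
    intro r' hr'
    exact VTH.mono' (K := K) (r := 2 * M + 2 + β) (P := q) (by omega) (by omega) hq hr'
  have hHm : ∀ r', 2 * M + 3 + β ≤ r' → ∀ v p', p' < p → Van K v (M + 2) p' r' := by
    intro r' hr' v p' hp'
    exact VTH.mono' (K := K) (r := 2 * M + 3 + β) (P := p - 1) (by omega) (by omega)
      (fun v s hs' => hH1 v s (by omega)) hr' v p' (by omega)
  have hLIFT : ∀ v, 1 ≤ v → ∀ s l, s + l + 3 ≤ p →
      LIFT K v (M + 1) (M + 2) s l (2 * M + 1 + β) := by
    intro v hv s l hsl
    rcases Nat.lt_or_ge (q + 1) l with hl | hl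
    · rcases Nat.eq_zero_or_pos s with hs | hs
      · subst hs
        refine hVLF K v (M + 1) (M + 2) 0 l (2 * M + 1 + β) (by omega) (by omega)
          (fun h => by omega) ?_
        intro _
        refine STEP.mvb_zero K v (M + 1) (M + 2) (l - 1) (2 * M + 1 + β) ?_
        exact hPV K v (M + 2) (l - 1) _ (by omega) (hHm _ (by omega) v (l - 1) (by omega))
      · have hsM : s ≤ M := by omega
        refine hLIFTM K v (M + 1) (M + 2) s l (2 * M + 1 + β) s hv (by omega) (by omega)
          hs (by omega) ?_ ?_
        · intro p' e' hp' he'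
          exact low K v (M + 1) p' _ (by omega) (by omega)
        · intro p' q' hq'
          refine hHm _ ?_ v p' (by omega)
          have : 0 ≤ q' * (M + 2 - 1) := Nat.zero_le _
          omega
    · refine hVLF K v (M + 1) (M + 2) s l (2 * M + 1 + β) (by omega) (by omega) ?_ ?_
      · intro hs
        exact hPV K v (M + 1) (s - 1) _ (by omega) (hAm _ (by omega) v (s - 1) (by omega))
      · intro hl1
        refine hMVBI K v (M + 1) s (l - 1) (2 * M + 1 + β) (by omega) (by omega) ?_ ?_
        · intro i hi
          exact hAm _ (by omega) v (s + i) (by omega)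
        · intro i hi
          exact hqm _ (by omega) v (l - 1 - i) (by omega)
  have hPP : ∀ j v t, 1 ≤ v → v ≤ t + 1 → 3 ≤ t → t + j = p → PP K v M β t j := by
    intro j
    induction j with
    | zero =>
      intro v t hv hvt ht hp'
      refine hPPV K v M β t 0 (hPV K v (M + 2) 0 (M + β) (by omega) ?_)
      exact low K v (M + 2) 0 _ (by omega) (by omega)
    | succ j ihj =>
      intro v t hv hvt ht hp'
      rcases Nat.lt_or_ge q (j + 1) with hj | hj
      · refine hPPM2 K v M β t (j + 1) hv ?_ (Or.inr ?_)
        · intro l hl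
          rcases Nat.lt_or_ge l β with hlb | hlb
          · left
            refine hMVBI K v (M + 1) (j + 1 - l) l (M + β) (by omega) (by omega) ?_ ?_
            · intro i hi
              exact hAm _ (by omega) v _ (by omega)
            · intro i hi
              exact low K v (M + 1 + 1) (l - i) _ (by omega) (by omega)
          · right
            refine ⟨hB v (j + 1 - l) (by omega), ?_, ?_, ?_⟩
            · intro s hs
              exact hLIFT v hv s l (by omega)
            · intro hl1
              exact hLIFT v hv (j + 1 - l) (l - 1) (by omega)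
            · intro k g hk hkt hgl
              exact hHG v t (k + g + l) _ ht hvt (by omega) (by omega)
        · rw [Nat.add_sub_cancel]
          exact ihj v (t + 1) hv (by omega) (by omega) (by omega)
      · refine hPPV K v M β t (j + 1) (hPV K v (M + 2) (j + 1) (M + β) (by omega) ?_)
        have h := hq v (j + 1) hj
        rwa [show 2 * M + 2 + β = M + β + (M + 2) by omega] at h
  have hup : ∀ n, Van K (3 + n) (M + 2) p (2 * M + 3 + β) := by
    intro n
    induction n with
    | zero => exact h3
    | succ n ihn =>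
      refine hTRS K (3 + n) M β p (by omega) ihn ?_ ?_
      · intro hvp
        exact hPP (p - (3 + n)) (3 + n + 1) (3 + n) (by omega) (by omega) (by omega) (by omega)
      · intro hvp
        exact hH1 _ _ (by omega)
  intro v
  rcases Nat.lt_or_ge v 3 with hv | hv
  · exact red K v 3 (M + 2) p _ (by omega) h3
  · obtain ⟨n, rfl⟩ := Nat.exists_eq_add_of_le hv
    exact hup n

end Pool.Agent.VOP
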