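import Pool.Agent.VOP.Iface

/-!
# The Ottaviani-Paoletti conjecture (MP_deb8da_ag): block G (degrees, symmetry, good polynomials)

Every statement carries its complete proof.  Basic lemmas about `ren` are in
`Pool.Agent.VSY.Basic` (`ren_ren`, `ren_X`, `exists_of_mem_support_ren`, `mapDomain_sum`, ...).
-/

namespace Pool.Agent.VOP

open MvPolynomial Pool.Agent.VSY

/-- DG: degrees at the points.
Proofs.  (1)-(5): `support_add`, `support_smul`, `support_mul`, `support_sum`.  (6), (7): every monomial of `lin x p` is `(p, i)`;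
`atp p b` is a rename of `b`.  (8): `exists_of_mem_support_ren` and `mapDomain_sum`.  (9) special case of (8) for a bijection.
(10): all monomials of `f` only involve points with `δ x ≠ 0`; write `f` as the sum of its monomials (`MvPolynomial.as_sum`),
`ren_monomial`, the two `mapDomain` agree on the support of the exponent.  (11) a monomial of `f`.  (12) product of (6). -/
def Stmt_DG : Prop :=
  ∀ (K : Type) [Field K] (A B : Type) [Fintype A] [DecidableEq A] [Fintype B] [DecidableEq B]
    (v : ℕ),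
    (∀ δ : A → ℕ, Dg δ (0 : PX K A v)) ∧
    (∀ (δ : A → ℕ) (f g : PX K A v), Dg δ f → Dg δ g → Dg δ (f + g) ∧ Dg δ (f - g)) ∧
    (∀ (δ : A → ℕ) (a : K) (n : ℤ) (f : PX K A v), Dg δ f →
      Dg δ (a • f) ∧ Dg δ (-f) ∧ Dg δ (n • f)) ∧
    (∀ (δ : A → ℕ) (ι : Type) (s : Finset ι) (f : ι → PX K A v), (∀ i ∈ s, Dg δ (f i)) →
      Dg δ (∑ i ∈ s, f i)) ∧
    (∀ (δ δ' : A → ℕ) (f g : PX K A v), Dg δ f → Dg δ' g → Dg (fun x => δ x + δ' x) (f * g)) ∧
    (∀ (x : Fin v → K) (p : A), Dg (Pi.single p 1) (lin x p : PX K A v)) ∧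
    (∀ (n : ℕ) (b : MvPolynomial (Fin v) K) (p : A), b.IsHomogeneous n →
      Dg (Pi.single p n) (atp p b : PX K A v)) ∧
    (∀ (δ : A → ℕ) (φ : A → B) (f : PX K A v), Dg δ f →
      Dg (fun b => ∑ a ∈ Finset.univ.filter (fun a => φ a = b), δ a) (ren φ f)) ∧
    (∀ (δ : A → ℕ) (π : Equiv.Perm A) (f : PX K A v), (∀ a, δ (π a) = δ a) → Dg δ f →
      Dg δ (ren π f)) ∧
    (∀ (δ : A → ℕ) (φ ψ : A → B) (f : PX K A v), (∀ x, δ x ≠ 0 → φ x = ψ x) → Dg δ f →
      ren φ f = ren ψ f) ∧
    (∀ (δ δ' : A → ℕ) (f : PX K A v), f ≠ 0 → Dg δ f → Dg δ' f → δ = δ') ∧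
    (∀ (x : Fin v → K) (S : Finset A),
      Dg (fun p => if p ∈ S then 1 else 0) (xS x S : PX K A v))

/-- DIV: division by `x(w)`.
Proofs.  `lin x w ≠ 0` if `x ≠ 0` (coefficient of `X (w, i)`), the ring is a domain: (1).  (2) homogeneous polynomials (at every point): `lin x w * q` has
degrees `δ`; write `q` as the sum of its multihomogeneous components `q_ε` (`weightedHomogeneousComponent` with the weight `(p, i) ↦ Pi.single p 1 : A → ℕ`, finitely many):
`lin x w * q_ε` is homogeneous of degree `ε + single w 1`, so all `q_ε` with `ε + single w 1 ≠ δ` are zero (components are unique).  (3) the same with no `ε` possible.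
(4) `lin x w` is a prime element (a non-zero linear form; or: `lin x w ∣ X(u,i)`-type arguments): only the case of a product with `lin x u`, `u ≠ w`: if `lin x w ∣ lin x u * q` then `lin x w ∣ q`.
Suggestion: pick `k` with `x k ≠ 0`; `lin x w ∣ h` iff `h` vanishes after the substitution `σ : X (w, k) ↦ - (∑_{i ≠ k} x i X (w, i)) / x k` (algebra homomorphism, `h - σ h` is divisible by `lin x w` as
`X (w, k) - σ (X (w, k)) = lin x w / x k`); `σ (lin x u) = lin x u ≠ 0`. (5) same criterion: `σ` commutes with `ren φ` if `φ⁻¹(w) = {w}` in both spaces. -/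
def Stmt_DIV : Prop :=
  ∀ (K : Type) [Field K] (A B : Type) [Fintype A] [DecidableEq A] [Fintype B] [DecidableEq B]
    (v : ℕ) (x : Fin v → K), x ≠ 0 →
    (∀ (w : A) (f g : PX K A v), lin x w * f = lin x w * g → f = g) ∧
    (∀ (δ : A → ℕ) (w : A) (e : ℕ) (q : PX K A v), δ w = e + 1 → Dg δ (lin x w * q) →
      Dg (Function.update δ w e) q) ∧
    (∀ (δ : A → ℕ) (w : A) (q : PX K A v), δ w = 0 → Dg δ (lin x w * q) → q = 0) ∧
    (∀ (w u : A) (q : PX K A v), u ≠ w → lin x w ∣ lin x u * q → lin x w ∣ q) ∧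
    (∀ (w : A) (w' : B) (φ : A → B) (f : PX K A v), φ w = w' → lin x w ∣ f →
      lin x w' ∣ ren φ f) ∧
    (∀ (φ : A → B) (p : A), ren φ (lin x p : PX K A v) = lin x (φ p)) ∧
    (∀ (φ : A → B) (S : Finset A), Set.InjOn φ S →
      ren φ (xS x S : PX K A v) = xS x (S.image φ))

/-- SYM: symmetrisation.
Proofs.  (2) `pS S` is generated by the swaps of two points of `S`: e.g. `Equiv.Perm.swap_induction_on` for the permutations of the subtype, or induction on the support size; (3), (4): reindex the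
sums by left multiplication with the swap.  (5): (2).  (6): conjugation by a swap of two points of `T` is a bijection of `pS S` preserving the sign, in fact such a swap commutes with all of `pS S`.  (7): `Finset.sum_comm`, commuting permutations.
(8) DG (9).  (9) `ren π g = g`.  (10) right multiplication by the swap.  (11) for `x, y ∈ S` conjugate; for `u` and `y ∈ S`: `ren (swap u y)` exchanges `f` and `-(-...)`: the terms `f`, `ren (swap u y) f` are exchanged, and for
`b ∈ S`, `b ≠ y`: `swap u y * swap u b = swap u b * swap b y`, so `ren (swap u y) (ren (swap u b) f) = ren (swap u b) (ren (swap b y) f) = - ren (swap u b) f`.  (12) the map `(b, π) ↦ π * swap u b` (b ∈ S or b = u) is a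
bijection of `(insert u S) × pS S` onto `pS (insert u S)`; equivalently `alt (insert u S) f = alt S (f - ∑_{b ∈ S} ren (swap u b) f)` and (5) with (11). -/
def Stmt_SYM : Prop :=
  ∀ (K : Type) [Field K] (A : Type) [Fintype A] [DecidableEq A] (v : ℕ),
    (∀ (T T' : Finset A) (f : PX K A v), T' ⊆ T → (Sy T f → Sy T' f) ∧ (Al T f → Al T' f)) ∧
    (∀ (T : Finset A) (f : PX K A v), ∀ π ∈ pS T, (Sy T f → ren π f = f) ∧
      (Al T f → ren π f = ((Equiv.Perm.sign π : ℤˣ) : ℤ) • f)) ∧
    (∀ (T : Finset A) (f : PX K A v), Sy T (smz T f) ∧ Al T (alt T f)) ∧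
    (∀ (T : Finset A) (f g : PX K A v), (Sy T f → Sy T g → Sy T (f + g) ∧ Sy T (f - g)) ∧
      (Al T f → Al T g → Al T (f + g) ∧ Al T (f - g)) ∧ (Sy T f → Al T g → Al T (f * g)) ∧
      (Sy T f → Sy T g → Sy T (f * g)) ∧ (∀ a : K, (Sy T f → Sy T (a • f)) ∧
        (Al T f → Al T (a • f)))) ∧
    (∀ (T : Finset A) (f : PX K A v), (Sy T f → smz T f = (T.card.factorial : ℤ) • f) ∧
      (Al T f → alt T f = (T.card.factorial : ℤ) • f)) ∧
    (∀ (T S : Finset A) (f : PX K A v), Disjoint T S → (Sy T f → Sy T (alt S f)) ∧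
      (Al T f → Al T (alt S f)) ∧ (Sy T f → Sy T (smz S f)) ∧ (Al T f → Al T (smz S f))) ∧
    (∀ (T S : Finset A) (f : PX K A v), Disjoint T S → smz T (alt S f) = alt S (smz T f) ∧
      alt T (alt S f) = alt S (alt T f) ∧ smz T (smz S f) = smz S (smz T f)) ∧
    (∀ (T : Finset A) (δ : A → ℕ) (f : PX K A v), (∀ x ∈ T, ∀ y ∈ T, δ x = δ y) → Dg δ f →
      Dg δ (alt T f) ∧ Dg δ (smz T f)) ∧
    (∀ (T : Finset A) (f g : PX K A v) (a : K), alt T (f + g) = alt T f + alt T g ∧
      smz T (f + g) = smz T f + smz T g ∧ alt T (a • f) = a • alt T f ∧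
      smz T (a • f) = a • smz T f ∧
      (Sy T g → alt T (g * f) = g * alt T f ∧ smz T (g * f) = g * smz T f)) ∧
    (∀ (T : Finset A) (f : PX K A v), ∀ x ∈ T, ∀ y ∈ T,
      smz T (ren (Equiv.swap x y) f) = smz T f ∧
      (x ≠ y → alt T (ren (Equiv.swap x y) f) = -alt T f)) ∧
    (∀ (S : Finset A) (u : A) (f : PX K A v), u ∉ S → Al S f →
      Al (insert u S) (f - ∑ b ∈ S, ren (Equiv.swap u b) f)) ∧
    (∀ (S : Finset A) (u : A) (f : PX K A v), u ∉ S → Al S f →
      alt (insert u S) f = (S.card.factorial : ℤ) • (f - ∑ b ∈ S, ren (Equiv.swap u b) f))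

/-- GD0: `TT` and good polynomials form subspaces; for a cycle `f` (symmetric, alternating) `TT` and
`Good` are the same.
Proofs.  `G`, `g` can be added (DG, SYM; the conditions of `Zc` and `Cg` are linear).  `smz T (alt C f) = t! j! f` for `f` symmetric in `T` and alternating in `C` (SYM (5)), `TT` is closed under multiplication with scalars,
and `t! j! ≠ 0`. -/
def Stmt_GD0 : Prop :=
  ∀ (K : Type) [Field K] [CharZero K] (A : Type) [Fintype A] [DecidableEq A] (v M β : ℕ)
    (T C : Finset A) (w : A), Cf T ∅ C w →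
    (∀ f g : PX K A v, TT M β T C w f → TT M β T C w g → TT M β T C w (f + g)) ∧
    (∀ (a : K) (f : PX K A v), TT M β T C w f → TT M β T C w (a • f)) ∧
    (Good M β T C w (0 : PX K A v)) ∧
    (∀ f g : PX K A v, Good M β T C w f → Good M β T C w g → Good M β T C w (f + g) ∧
      Good M β T C w (f - g)) ∧
    (∀ (a : K) (f : PX K A v), Good M β T C w f → Good M β T C w (a • f)) ∧
    (∀ (a : K) (f : PX K A v), a ≠ 0 → Good M β T C w (a • f) → Good M β T C w f) ∧
    (∀ (ι : Type) (s : Finset ι) (f : ι → PX K A v), (∀ i ∈ s, Good M β T C w (f i)) →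
      Good M β T C w (∑ i ∈ s, f i)) ∧
    (∀ f : PX K A v, Zc M T ∅ C w (2 * M + 2 + β) f → (Good M β T C w f ↔ TT M β T C w f))

/-- GD1: `(G1)`.
Proof.  SYM (7), (9), (10): `smz T (alt C (h - ren (swap x y) h)) = 0` for `x, y ∈ T` (use `smz T ∘ alt C = alt C ∘ smz T`), `alt C (h + ren (swap x y) h) = 0` for `x ≠ y` in `C`; `TT 0` holds; degrees: DG (9). -/
def Stmt_GD1 : Prop :=
  ∀ (K : Type) [Field K] [CharZero K] (A : Type) [Fintype A] [DecidableEq A] (v M β : ℕ)
    (T C : Finset A) (w : A) (h : PX K A v), Cf T ∅ C w →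
    Dg (dgc M T ∅ C w (2 * M + 2 + β)) h →
    (∀ x ∈ T, ∀ y ∈ T, Good M β T C w (h - ren (Equiv.swap x y) h)) ∧
    (∀ x ∈ C, ∀ y ∈ C, x ≠ y → Good M β T C w (h + ren (Equiv.swap x y) h))

/-- GD2: `(G2)`, boundaries.
Proof.  Put `g' := smz (sm T) (alt (isn C) g)` (degrees kept; symmetric in `sm T`, alternating in `isn C`; SYM).  Then
`rn w g' = smz T (alt C (rn w g - ∑_{c ∈ C} ren (fun o => (swap none (some c) o).getD w) g))`: every permutation in `pS (isn C)` is uniquely `(Option.map-extension of σ ∈ pS C) * swap none y`, `y = none` or `y = some c`, `c ∈ C`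
(`Equiv.Perm.decomposeOption`, or the argument of VSY.ASM; SYM (12) gives it too when `g` is first made alternating in `sm C`: both sides only depend on the alternation, so one may replace `g` by `alt (sm C) g` and
divide by `j!`), `rn w ∘ ren (map σ) = ren σ ∘ rn w` for `σ` fixing `w`.  So `TT` holds with `G = 0` and this `g'`.  Degrees: DG (8) for the two kinds of terms: `w` gets `M + β + (M + 2)`. -/
def Stmt_GD2 : Prop :=
  ∀ (K : Type) [Field K] [CharZero K] (A : Type) [Fintype A] [DecidableEq A] (v M β : ℕ)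
    (T C : Finset A) (w : A) (g : PX K (Option A) v), Cf T ∅ C w →
    Dg (dgc M (sm T) ∅ (isn C) (some w) (M + β)) g →
    Good M β T C w (rn w g -
      ∑ c ∈ C, ren (fun o => (Equiv.swap none (some c) o : Option A).getD w) g)

/-- GD2': `(G2)` when the new letter is a point `u` of `A` outside the configuration.
Proof.  GD2 for `ren (fun x => if x = u then none else some x) g` (an injective renaming; the point `some u` has degree 0, DG (10)). -/
def Stmt_GD2' : Prop :=
  ∀ (K : Type) [Field K] [CharZero K] (A : Type) [Fintype A] [DecidableEq A] (v M β : ℕ)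
    (T C : Finset A) (w u : A) (g : PX K A v), Cf T ∅ C w → u ∉ T → u ∉ C → u ≠ w →
    Dg (dgc M T ∅ (insert u C) w (M + β)) g →
    Good M β T C w (ren (mv u w) g - ∑ c ∈ C, ren (mv u w) (ren (Equiv.swap u c) g))

/-- GD3: `(G3)`, for a point `a` of `A` outside the configuration.
Proof.  `f := ren (mv a w) E`; it is symmetric in `T`, alternating in `C`, of the right degrees.  TT with `g = 0` and `G := ren (fun x => if x = a then none else some x) E` (`rn w G = f`): symmetric in
`isn T`, a cycle for `sm C`: `ren (mv (some c) (some w)) G = ren ι (ren (mv c w) E) = 0` with the injective renaming `ι` (note `a ≠ w`, `a ∉ C`).  GD0 (last clause) needs `f` to be a cycle: `ren (mv c w) (ren (mv a w) E) = ren (mv a w) (ren (mv c w) E) = 0`. -/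
def Stmt_GD3 : Prop :=
  ∀ (K : Type) [Field K] [CharZero K] (A : Type) [Fintype A] [DecidableEq A] (v M β : ℕ)
    (T C : Finset A) (w a : A) (E : PX K A v), Cf T ∅ C w → a ∉ T → a ∉ C → a ≠ w →
    Zc M (insert a T) ∅ C w (M + 1 + β) E → Good M β T C w (ren (mv a w) E)

/-- SBT: substitution of the coordinates.
Proofs.  (1) both sides are algebra homomorphisms, check on variables.  (2) `sb g` sends `X (p, i)` to `lin (g i) p` (Dg (single p 1)); for a monomial the image is a product of such forms: DG (5), (6) (induction on `f`, or via `aeval`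
of a sum of monomials).  (3) `Sy`, `Al`, `Cy` by (1); `TT`: apply `sb g` to `G` and `g`; `Good`: `smz`, `alt` commute with `sb g`.  (4) check on variables / definitions; for `atp`: `b' = aeval (fun i => ∑ j, C (g i j) * X j) b` is homogeneous.
(5) on variables: `sb g' (sb g (X (p, i))) = sb g' (lin (g i) p) = lin (g i · g') p`.  (6) linear algebra: pick `k` with `x k ≠ 0`, `g i = Pi.single i 1` for `i ≠ k`, `g k = x`; the inverse is explicit.
(7) `E_ij`: `sb (1 + c e_{ij})`: not needed here. -/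
def Stmt_SBT : Prop :=
  ∀ (K : Type) [Field K] [CharZero K] (v : ℕ),
    (∀ (A B : Type) (φ : A → B) (g : Fin v → Fin v → K) (f : PX K A v),
      ren φ (sb g f) = sb g (ren φ f)) ∧
    (∀ (A : Type) [Fintype A] [DecidableEq A] (δ : A → ℕ) (g : Fin v → Fin v → K)
      (f : PX K A v), Dg δ f → Dg δ (sb g f)) ∧
    (∀ (A : Type) [Fintype A] [DecidableEq A] (M β r : ℕ) (T S C : Finset A) (w : A)
      (g : Fin v → Fin v → K) (f : PX K A v), (Zc M T S C w r f → Zc M T S C w r (sb g f)) ∧
      (TT M β T C w f → TT M β T C w (sb g f)) ∧ (Good M β T C w f → Good M β T C w (sb g f)) ∧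
      smz T (sb g f) = sb g (smz T f) ∧ alt S (sb g f) = sb g (alt S f)) ∧
    (∀ (A : Type) (g : Fin v → Fin v → K) (x : Fin v → K) (p : A) (n : ℕ)
      (b : MvPolynomial (Fin v) K),
      sb g (lin x p : PX K A v) = lin (fun j => ∑ i, x i * g i j) p ∧
      sb g (atp p b : PX K A v) = atp p (aeval (fun i => ∑ j, C (g i j) * X j) b) ∧
      (b.IsHomogeneous n → (aeval (fun i => ∑ j, C (g i j) * X j) b :
        MvPolynomial (Fin v) K).IsHomogeneous n)) ∧
    (∀ (A : Type) (g g' : Fin v → Fin v → K) (f : PX K A v),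
      sb g' (sb g f) = sb (fun i j => ∑ l, g i l * g' l j) f) ∧
    (∀ x : Fin v → K, x ≠ 0 → ∃ (k : Fin v) (g g' : Fin v → Fin v → K), g k = x ∧
      (∀ (A : Type) (f : PX K A v), sb g' (sb g f) = f ∧ sb g (sb g' f) = f))

end Pool.Agent.VOP
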