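import Pool.Agent.VOP.StmtsN
import Pool.Agent.VOP.StmtsH

/-!
# The first row criterion (MP_deb8da_ag), part (A) of the linear strand of the Veronese threefolds

Let `d = M + 2`, `N = M + 1`, and let `y = X_last` be the last of the `v + 1` coordinates.
Criterion (`Stmt_RCR`): if `K_p(k^(v+1))[e + 1 + d] = 0` and for all `l + D = p` the highest weight
cycles in `Z_l(k^v)[e + 1]` of a weight `ν` with all `ν_j ≤ D` are boundaries, then
`K_p(k^(v+1))[e + d] = 0`.

Outline.  A cycle `f` of degree `e + d` at `w`: `y(w) f = g|_{c → w}`, `g` a chain with the `p + 1`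
letters `Λ ∋ c`, of degree `e + 1` at `w`.  `CHR(i)`: `f` is a boundary if every monomial of `g` without
`y(w)` contains `y(u)` for at least `i` letters `u ∈ Λ`.  `CHR(p + 2)` is trivial, `CHR(0)` is the goal.
Step (`Stmt_RCS`): the part of `g` with exactly `n` letters `S` divisible by `y` is `y_S h`, `h` of degree
`N` in the letters of `S`, a cycle for the letters `C = Λ \ S`, without `y` outside `S`.  So it is enough
(`FNR(n)`) that `Θ_y(h)` is a boundary, where `x(w) Θ_x(h) = (alt_Λ (x_S h))|_{c → w}`.  `FNR(n)`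
(`Stmt_RFN`): `h = ∑ b_i κ_i`, `κ_i` cycles in `Z_l(k^v)[e + 1]`, `l = p + 1 - n`; the `κ` such that
`Θ_y(b κ)` is a boundary for all `b` form a subspace stable under `gl_v`, which contains the boundaries
(`Stmt_RBI`) and the `κ` of degree `≥ n` in one coordinate (`Stmt_RCT`, the `c`-trick), so by the
hypothesis all highest weight vectors, so it is everything (ORT).

The theorems `DG_thm, DIV_thm, SYM_thm, SBT_thm, PR_thm, VDM_thm, ORT_thm` (`Pool/Agent/VOP/DG.lean`, ...),
`NAT_thm, DEG_thm, OPS_thm, WB_thm, VAR_thm, VU_thm` (`Pool/Agent/VSY/...`), `CFO_thm` are available.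
-/

namespace Pool.Agent.VOP

open MvPolynomial Pool.Agent.VSY

/-! ### Definitions -/

section defs

variable {K : Type} [Field K] {A : Type} {v : ℕ}

/-- Boundaries: `f = g|_{c → w}`, where `g` is a chain with the letters `Λ` (all of degree `M + 2`), of
degree `e` at `w`. -/
def BdR [DecidableEq A] (M e : ℕ) (Λ : Finset A) (w c : A) (f : PX K A v) : Prop :=
  ∃ g : PX K A v, Dg (dgc M ∅ ∅ Λ w e) g ∧ Al Λ g ∧ ren (mv c w) g = f

/-- `Θ_x(h)`: `x(w) Θ_x(h)` is the boundary of `alt (x_S h)` if `h` is a cycle for `C`. -/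
noncomputable def ThR [Fintype A] [DecidableEq A] (S C : Finset A) (w c : A) (x : Fin v → K)
    (h : PX K A v) : PX K A v :=
  ∑ π ∈ (pS (S ∪ C)).filter (fun π => π⁻¹ c ∈ S),
    ((Equiv.Perm.sign π : ℤˣ) : ℤ) • ren (mv c w) (ren π (xS x (S.erase (π⁻¹ c)) * h))

/-- The degrees `M + 1` on `S`, and `0` elsewhere. -/
def dgs [DecidableEq A] (M : ℕ) (S : Finset A) : A → ℕ := fun q => if q ∈ S then M + 1 else 0

/-- The linear form `X_last + t X_j`. -/
def zt (v : ℕ) (j : Fin v) (t : K) : Fin (v + 1) → K :=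
  Pi.single (Fin.last v) 1 + t • Pi.single (Fin.castSucc j) 1

/-- The configuration: `Λ = S ∪ C`, `c ∈ Λ`, `w ∉ Λ`. -/
structure CfR [DecidableEq A] (S C : Finset A) (w c : A) : Prop where
  SC : Disjoint S C
  wS : w ∉ S
  wC : w ∉ C
  mem : c ∈ S ∪ C

variable (K)

/-- `CHR(i)`. -/
def CHR (v M e p i : ℕ) : Prop :=
  ∀ (A : Type) [Fintype A] [DecidableEq A] (Λ : Finset A) (w c : A) (g f : PX K A (v + 1)),
    w ∉ Λ → c ∈ Λ → Λ.card = p + 1 → Dg (dgc M ∅ ∅ Λ w (e + 1)) g → Al Λ g →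
    (∀ m ∈ g.support, m (w, Fin.last v) = 0 →
      i ≤ (Λ.filter fun u => 1 ≤ m (u, Fin.last v)).card) →
    X (w, Fin.last v) * f = ren (mv c w) g → BdR M e Λ w c f

/-- `FNR(n)`. -/
def FNR (v M e p n : ℕ) : Prop :=
  ∀ (A : Type) [Fintype A] [DecidableEq A] (S C : Finset A) (w c : A) (h : PX K A (v + 1)),
    CfR S C w c → S.card = n → S.card + C.card = p + 1 → Dg (dgc M ∅ S C w (e + 1)) h →
    Al S h → Al C h → Cy C w h →
    (∀ m ∈ h.support, ∀ u, u ∉ S → m (u, Fin.last v) = 0) →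
    BdR M e (S ∪ C) w c (ThR S C w c (Pi.single (Fin.last v) 1) h)

/-- Highest weight cycles with `l` letters, of degree `r` at `w` and of a weight `ν` with all `ν j ≤ D`,
are boundaries. -/
def HVR (v d l r D : ℕ) : Prop :=
  ∀ (U : Type) [Fintype U] [DecidableEq U], Fintype.card U = l →
    ∀ (ν : Fin v → ℕ) (f : PX K (Option U) v), InZ U v d r f → HasW ν f →
      (∀ i j : Fin v, i < j → Eij i j f = 0) → (∀ j, ν j ≤ D) → InB U v d r f

end defs

/-! ### Statements -/

/-- RBD: basic properties of boundaries.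
Proofs.  (1)-(4): take `0`, `g + g'`, `g - g'`, `a • g`, sums (DG, SYM (4)).  (5) `ren` commutes with `Eij` (NAT (1)), `Eij i j` preserves the degrees at all points (DEG (1) with `sh = 0`) and alternation (`ren (swap x y) (Eij i j g) = Eij i j (ren (swap x y) g)`).  (6) the same for `sb` (SBT (1), (2)).
(7) `alt Λ g` has the degrees of `g` (SYM (8), all letters of `Λ` have the same degree) and is alternating (SYM (3)). -/
def Stmt_RBD : Prop :=
  ∀ (K : Type) [Field K] [CharZero K] (A : Type) [Fintype A] [DecidableEq A] (v M e : ℕ)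
    (Λ : Finset A) (w c : A),
    (BdR M e Λ w c (0 : PX K A v)) ∧
    (∀ f g : PX K A v, BdR M e Λ w c f → BdR M e Λ w c g →
      BdR M e Λ w c (f + g) ∧ BdR M e Λ w c (f - g)) ∧
    (∀ (a : K) (f : PX K A v), BdR M e Λ w c f → BdR M e Λ w c (a • f)) ∧
    (∀ (ι : Type) (s : Finset ι) (f : ι → PX K A v), (∀ i ∈ s, BdR M e Λ w c (f i)) →
      BdR M e Λ w c (∑ i ∈ s, f i)) ∧
    (∀ (i j : Fin v) (f : PX K A v), BdR M e Λ w c f → BdR M e Λ w c (Eij i j f)) ∧
    (∀ (g : Fin v → Fin v → K) (f : PX K A v), BdR M e Λ w c f → BdR M e Λ w c (sb g f)) ∧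
    (∀ g : PX K A v, w ∉ Λ → Dg (dgc M ∅ ∅ Λ w e) g →
      BdR M e Λ w c (ren (mv c w) (alt Λ g)))

/-- RTH: basic properties of `Θ`.
Proofs.  (1) `alt (S ∪ C) F = ∑ π ∈ pS (S ∪ C), sgn π • ren π F`, `F = xS x S * h`; a permutation `π ∈ pS (S ∪ C)` preserves `S ∪ C` and fixes the other points, so `j := π⁻¹ c ∈ S ∪ C`.  If `j ∈ S`: `xS x S = lin x j * xS x (S.erase j)` and
`ren (mv c w) (ren π (lin x j)) = ren (mv c w) (lin x c) = lin x w` (DIV (6)).  If `j ∈ C`: `mv c w ∘ π = π ∘ mv j w` (both send `j` to `w`, as `π w = w`, and `a ≠ j` to `π a`), so the term is `sgn π • ren π (ren (mv j w) (xS x S) * ren (mv j w) h) = 0`.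
(2) `ren` is additive.  (3) `xS (x + t • y) (S.erase j) = ∑_{Q ⊆ S.erase j} t^|Q| (∏_{q ∈ Q} lin y q) (∏_{q ∈ (S.erase j) \ Q} lin x q)` (`Finset.prod_add`; `lin (x + t • y) q = lin x q + t • lin y q`), `|Q| ≤ |S| - 1`; collect the coefficients of `t^i`.  For `S = ∅` everything is `0`.
(4) `sb g` commutes with `ren` (SBT (1)), `sb g (lin x q) = lin (fun j => ∑ i, x i * g i j) q` (SBT (4)).  (5) `Eij i j (lin x q) = x j • X (q, i) = 0` (WB (11)), so by the product rule (WB (10)) `Eij i j (xS x S' * h) = xS x S' * Eij i j h`; `Eij i j` commutes with `ren` (NAT (1)). -/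
def Stmt_RTH : Prop :=
  ∀ (K : Type) [Field K] [CharZero K] (A : Type) [Fintype A] [DecidableEq A] (v : ℕ)
    (S C : Finset A) (w c : A), CfR S C w c →
    (∀ (x : Fin v → K) (h : PX K A v), Cy C w h →
      ren (mv c w) (alt (S ∪ C) (xS x S * h)) = lin x w * ThR S C w c x h) ∧
    (∀ (x : Fin v → K) (h h' : PX K A v) (a : K),
      ThR S C w c x (h + h') = ThR S C w c x h + ThR S C w c x h' ∧
      ThR S C w c x (h - h') = ThR S C w c x h - ThR S C w c x h' ∧
      ThR S C w c x (a • h) = a • ThR S C w c x h ∧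
      ∀ (ι : Type) (s : Finset ι) (F : ι → PX K A v),
        ThR S C w c x (∑ i ∈ s, F i) = ∑ i ∈ s, ThR S C w c x (F i)) ∧
    (∀ (x y : Fin v → K) (h : PX K A v), ∃ P : ℕ → PX K A v, P 0 = ThR S C w c x h ∧
      (∀ i, S.card ≤ i → P i = 0) ∧
      ∀ t : K, ThR S C w c (x + t • y) h = ∑ i ∈ Finset.range S.card, t ^ i • P i) ∧
    (∀ (g : Fin v → Fin v → K) (x : Fin v → K) (h : PX K A v),
      sb g (ThR S C w c x h) = ThR S C w c (fun j => ∑ i, x i * g i j) (sb g h)) ∧
    (∀ (i j : Fin v) (x : Fin v → K) (h : PX K A v), x j = 0 →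
      Eij i j (ThR S C w c x h) = ThR S C w c x (Eij i j h))

/-- RN0: `Θ_z(b κ)` is a boundary if the cycle `κ` is in the ideal of the `z(q)`; `z = X_last + t X_j`.
Proof.  `k := Fin.last v`, `z := zt v j t`, `g` := the substitution `X (q, k) ↦ X (q, k) + t X (q, castSucc j)` (`g k = z`, `g i = Pi.single i 1` for `i ≠ k`), `g'` the same with `-t`; `sb g` and `sb g'` are inverse to each other (SBT (5), or on variables), `sb g' (lin z q) = X (q, k)`.
`b' := sb g' b`, `κ' := sb g' κ` (degrees, cycle: SBT (2), (3)).  `κ'` is in the ideal of the `X (q, k)`, `q : A` (image of an ideal), so every monomial of `κ'` is divisible by some `X (q, k)` (`MvPolynomial.mem_ideal_span_X_image`), with `q ∈ C` or `q = w` as `κ'` has degree `0` elsewhere.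
Let `x := Pi.single k 1`, `G := alt (S ∪ C) (xS x S * (b' * κ'))`, `xS x S = ∏_{q ∈ S} X (q, k)`.  `Dg (dgc M ∅ ∅ (S ∪ C) w (e + 1)) G`, `Al (S ∪ C) G` (SYM).  A monomial `m` of `G` is the image under some `π ∈ pS (S ∪ C)` of a monomial `m'` of `xS x S * (b' * κ')` (support of a sum; `exists_of_mem_support_ren`); if
`m (w, k) = 0` then (as `π w = w`) `m' (w, k) = 0`, `m'` is divisible by `X (q, k)` for all `q ∈ S` and for some `q ∈ C`; so `m` is divisible by `X (u, k)` for the `n + 1` letters `u = π q`.  `ren (mv c w) G = X (w, k) * ThR S C w c x (b' * κ')` (RTH (1); `Cy C w (b' * κ')`).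
`CHR(n + 1)`: `BdR (ThR S C w c x (b' * κ'))`.  Apply `sb g` (RBD (6), RTH (4), `fun j => ∑ i, x i * g i j = g k = z`). -/
def Stmt_RN0 : Prop :=
  ∀ (K : Type) [Field K] [CharZero K] (v M e p n : ℕ), CHR K v M e p (n + 1) →
    ∀ (A : Type) [Fintype A] [DecidableEq A] (S C : Finset A) (w c : A) (j : Fin v) (t : K)
      (b κ : PX K A (v + 1)), CfR S C w c → S.card = n → S.card + C.card = p + 1 →
      Dg (dgs M S) b → Zc M ∅ ∅ C w (e + 1) κ →
      κ ∈ Ideal.span (Set.range fun q : A => (lin (zt v j t) q : PX K A (v + 1))) →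
      BdR M e (S ∪ C) w c (ThR S C w c (zt v j t) (b * κ))

/-- RCT: the `c`-trick.
Proof.  `n = 0`: `S = ∅`, `ThR = 0`.  Let `n ≥ 1`, `k := Fin.last v`, `κ₁ := up _ κ` (a cycle, VAR (3), without the coordinate `k`), `κ' := sb g₀ κ₁`, `g₀ (castSucc j) = Pi.single k 1`, `g₀ i = Pi.single i 1` for the other `i`: `X (q, castSucc j) ↦ X (q, k)` (a cycle, SBT (3)).  For `t : K`, `z := zt v j t`:
`κ' - (-t)^M₀ • κ₁` is in the ideal of the `lin z q`: `κ' = κ₁ (X (q, castSucc j) ↦ X (q, k))`, `(-t)^M₀ • κ₁ = κ₁ (X (q, castSucc j) ↦ - t X (q, castSucc j))` (all monomials of `κ₁` have total exponent `M₀` in the coordinate `castSucc j`), and `X (q, k) - (- t X (q, castSucc j)) = lin z q`: two algebra homomorphisms which agree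
modulo an ideal (cf. the proof of N3, `Pool/Agent/VOP/N3.lean`).  RN0: `BdR (ThR z (b * κ') - (-t)^M₀ • ThR z (b * κ₁))` for all `t`.  RTH (3) (`x := Pi.single k 1`, `y := Pi.single (castSucc j) 1`): `ThR z (b * κ') = ∑_{i < n} t^i • P' i`, `ThR z (b * κ₁) = ∑_{i < n} t^i • P i`, `P 0 = ThR x (b * κ₁)`, `P' i = P i = 0` for `i ≥ n`.
So with `Z i := P' i - (if M₀ ≤ i then (-1)^M₀ • P (i - M₀) else 0)`: `∑_{i ≤ M₀ + n} t^i • Z i` is in the subspace `U` of the `f` with `BdR f` (RBD) for all `t`.  VDM (`F₀ = ∅`): `Z M₀ ∈ U`; `P' M₀ = 0` because `n ≤ M₀`; so `P 0 ∈ U`. -/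
def Stmt_RCT : Prop :=
  ∀ (K : Type) [Field K] [CharZero K] (v M e p n : ℕ), CHR K v M e p (n + 1) →
    ∀ (A : Type) [Fintype A] [DecidableEq A] (S C : Finset A) (w c : A) (j : Fin v) (M₀ : ℕ)
      (b : PX K A (v + 1)) (κ : PX K A v), CfR S C w c → S.card = n → S.card + C.card = p + 1 →
      Dg (dgs M S) b → Zc M ∅ ∅ C w (e + 1) κ → (∀ μ ∈ κ.support, ∑ q, μ (q, j) = M₀) →
      n ≤ M₀ →
      BdR M e (S ∪ C) w c
        (ThR S C w c (Pi.single (Fin.last v) 1) (b * up (Nat.le_succ v) κ))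

/-- RBI: `Θ_x(b κ)` is a boundary if `κ` is a boundary.
Proof.  `Λ := S ∪ C`, `F₀ := ren some (xS x S * b) * μ` in `PX K (Option A) v`.  For every `F₀`: `rn w (alt (isn Λ) F₀) = alt Λ (rn w F₀ - ∑_{u ∈ Λ} ren (fun o => (Equiv.swap none (some u) o).getD w) F₀)` (see the proof of GD2, `Pool/Agent/VOP/GD2.lean`, with `T = ∅`; it is `VSY.ASM (2)`).  Here `rn w F₀ = xS x S * b * rn w μ`.
For `u ∈ S` the summand is `lin x w * Q_u`, `Q_u := xS x (S.erase u) * ren (mv u w) b * rn u μ`: on old points the map is `mv u w`, and on `μ` (degree `0` at `some u`) it is `o ↦ o.getD u` (DG (10)).  For `u ∈ C` it is `- xS x S * b * rn w μ` (`xS x S * b` does not involve `u`; `μ` is alternating in `isn C`).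
So `rn w (alt (isn Λ) F₀) = (1 + |C|) • alt Λ (xS x S * (b * rn w μ)) - lin x w * ∑_{u ∈ S} alt Λ Q_u` (`lin x w` is symmetric in `Λ`, SYM (9)).  Apply `ren (mv c w)`: the left side becomes `0` (`alt (isn Λ) F₀` is alternating, and `none`, `some c` both go to `w`; characteristic `0`).
`b * rn w μ` is a cycle for `C` (`ren (mv u w) (rn w μ) = 0` for `u ∈ C` for the same reason), so by RTH (1): `(1 + |C|) • lin x w * ThR S C w c x (b * rn w μ) = lin x w * ∑_{u ∈ S} ren (mv c w) (alt Λ Q_u)` (`c ≠ w`).  Cancel `lin x w` (DIV (1)).  `Q_u` has degree `M + 2` at all points of `Λ` and `M + 1 + e' = e` at `w`: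
RBD (7), (4), (3). -/
def Stmt_RBI : Prop :=
  ∀ (K : Type) [Field K] [CharZero K] (v M e e' : ℕ), e' + (M + 2) = e + 1 →
    ∀ (A : Type) [Fintype A] [DecidableEq A] (S C : Finset A) (w c : A) (x : Fin v → K)
      (b : PX K A v) (μ : PX K (Option A) v), CfR S C w c → x ≠ 0 → Dg (dgs M S) b →
      Cg (dgc M ∅ ∅ (isn C) (some w) e') ∅ ∅ (isn C) μ →
      BdR M e (S ∪ C) w c (ThR S C w c x (b * rn w μ))

/-- REX: expansion with respect to the letters of `S`.
Proof.  For an exponent `α` supported on `S` let `h_α` be the coefficient of `X^α` (a polynomial in the coordinates of the points outside `S`): `h_α := cfo S α h` (CFO), and `ι` := the (finite) set of the restrictions `α` of the exponents of `h` to `S × Fin (v + 1)`.  `h = ∑_α monomial α 1 * h_α` (compare coefficients: CFO (1), (2)).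
`b_α := monomial α 1` has degree `M + 1` at the points of `S` and `0` elsewhere.  `h_α` has degrees `dgc M ∅ ∅ C w r` (CFO (5); points of `S` get `0`), is alternating in `C` (a permutation of `C` fixes the points of `S` and acts coefficientwise: compare coefficients, or as in CFO (4)), `ren (mv u w) h_α = 0` for `u ∈ C` (CFO (4)), and does not
contain the last coordinate (a monomial of `h_α` plus `α` is a monomial of `h`).  `κ_α := down h_α`, `up _ κ_α = h_α` (VAR (2)), and `down` preserves the degrees (every monomial of `κ_α` is one of `h_α`), alternation and cycles (VAR (4)). -/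
def Stmt_REX : Prop :=
  ∀ (K : Type) [Field K] [CharZero K] (v M r : ℕ) (A : Type) [Fintype A] [DecidableEq A]
    (S C : Finset A) (w : A) (h : PX K A (v + 1)), Disjoint S C → w ∉ S → w ∉ C →
    Dg (dgc M ∅ S C w r) h → Al C h → Cy C w h →
    (∀ m ∈ h.support, ∀ u, u ∉ S → m (u, Fin.last v) = 0) →
    ∃ (ι : Type) (_ : Fintype ι) (b : ι → PX K A (v + 1)) (κ : ι → PX K A v),
      (∀ i, Dg (dgs M S) (b i)) ∧ (∀ i, Zc M ∅ ∅ C w r (κ i)) ∧
      h = ∑ i, b i * up (Nat.le_succ v) (κ i)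

/-- RHA: `HVR` for points of `A`.
Proof.  `U := {x // x ∈ C}`, `φ : A → Option U`, `φ u = some u` for `u ∈ C` and `φ a = none` otherwise; `ψ : Option U → A`, `none ↦ w`, `some u ↦ u`; `ψ (φ a) = a` for `a ∈ C` and for `a = w`, so `ren ψ (ren φ κ) = κ` (DG (10), `κ` has degree `0` at the other points).  `f := ren φ κ` is in `InZ U v (M + 2) r` (a permutation of `U` extends to a
permutation of `A` in `pS C`, SYM (2); DG (8); `ren (mg u) (ren φ κ) = ren φ (ren (mv u w) κ)` by DG (10)), `HasW ν f` (WB (4)), `Eij i j f = ren φ (Eij i j κ) = 0` (NAT (1)).  `HVR`: `g : PX K (Option (Option U)) v`, `InC (Option U) v (M + 2) (M + 2) r g`, `ren Option.join g = f`.  If `g = 0` then `κ = ren ψ f = 0`.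
Otherwise a monomial of `g` shows `M + 2 ≤ r`; `e' := r - (M + 2)`, `μ := ren ψ' g` with `ψ' none = some w`, `ψ' (some none) = none`, `ψ' (some (some u)) = some u` (injective).  `rn w μ = ren (ψ ∘ Option.join) g = ren ψ f = κ`.  Degrees: DG (8); alternation: permutations of `isn C` come from permutations of `Option U`. -/
def Stmt_RHA : Prop :=
  ∀ (K : Type) [Field K] [CharZero K] (v M l r D : ℕ), HVR K v (M + 2) l r D →
    ∀ (A : Type) [Fintype A] [DecidableEq A] (C : Finset A) (w : A) (ν : Fin v → ℕ)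
      (κ : PX K A v), w ∉ C → C.card = l → Zc M ∅ ∅ C w r κ → HasW ν κ →
      (∀ i j : Fin v, i < j → Eij i j κ = 0) → (∀ j, ν j ≤ D) →
      κ = 0 ∨ ∃ (e' : ℕ) (μ : PX K (Option A) v), e' + (M + 2) = r ∧
        Cg (dgc M ∅ ∅ (isn C) (some w) e') ∅ ∅ (isn C) μ ∧ rn w μ = κ

/-- RFN: `FNR(n)`.
Proof.  `FNR(0)`: `S = ∅`, `ThR = 0`, `BdR 0`.  `n = D + 1`, `k := Fin.last v`, `x := Pi.single k 1`, `h` as in `FNR`, `C.card = l`.  `Z` := the submodule of the `κ : PX K A v` with `Zc M ∅ ∅ C w (e + 1) κ`; `𝒩 := {κ ∈ Z | ∀ b, Dg (dgs M S) b → BdR M e (S ∪ C) w c (ThR S C w c x (b * up _ κ))}`, a submodule (RBD, RTH (2)).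
`Z` is stable under the `Eij i j` (DEG (1), NAT (1)).  `𝒩` is stable: let `i, j : Fin v`, `E := Eij (castSucc i) (castSucc j)` on `PX K A (v + 1)`; `up _ (Eij i j κ) = E (up _ κ)` (induction on `κ`, or on monomials), `E (ThR x (b * up κ)) = ThR x (E b * up κ) + ThR x (b * up (Eij i j κ))` (RTH (5), (2), WB (10); `x (castSucc j) = 0`), `Dg (dgs M S) (E b)`; RBD (5), (2).
The total degree on `Z` is bounded.  ORT: let `κ ∈ Z` be a highest weight vector of weight `ν`.  If `ν j ≥ n` for some `j`: RCT with `M₀ = ν j` (`HasW`).  Otherwise all `ν j ≤ D`: RHA (for `r = e + 1`): `κ = 0`, or `κ = rn w μ` with `e' + (M + 2) = e + 1`; `up _ (rn w μ) = rn w (up _ μ)` (VAR (3)), `up _ μ` satisfies the hypothesis of RBI: `BdR`.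
So `Z ≤ 𝒩`.  REX: `h = ∑ b_i * up _ κ_i`, `κ_i ∈ Z`; RTH (2), RBD (4). -/
def Stmt_RFN : Prop :=
  ∀ (K : Type) [Field K] [LinearOrder K] [IsStrictOrderedRing K] (v M e p : ℕ),
    FNR K v M e p 0 ∧
    ∀ l D : ℕ, l + D = p → CHR K v M e p (D + 2) → HVR K v (M + 2) l (e + 1) D →
      FNR K v M e p (D + 1)

/-- RCS: the step `CHR(n + 1), FNR(n) → CHR(n)`.
Proof.  `k := Fin.last v`.  `Λ, w, c, g, f` as in `CHR(n)`.  (a) `X (w, k) ∣ ren (mv u w) g` for all `u ∈ Λ`: for `u = c` by hypothesis; for `u ≠ c`: `g = - ren (swap u c) g` and `mv u w ∘ swap u c = mv u c ∘ mv c w` (`c ↦ w`, `u ↦ c`), so `ren (mv u w) g = - ren (mv u c) (ren (mv c w) g) = - X (w, k) * ren (mv u c) f`.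
Choose `S ⊆ Λ`, `|S| = n`, `C := Λ \ S`, `g_S := pr k w (fun J => J = S) g`.  All monomials of `g_S` are divisible by `X (u, k)`, `u ∈ S` (PR (10)), hence by their product: `g_S = xS (Pi.single k 1) S * h`.  `h` has degrees `dgc M ∅ S C w (e + 1)` (`Dg` of `g_S`: PR (3)), is alternating in `S` and in `C` (PR (7): `g_S` is; cancel the factor, which is
invariant), `Cy C w h` (PR (9), second part, and (a): `ren (mv u w) g_S = 0` for `u ∈ C`; cancel the factor), and no monomial of `h` contains `X (u, k)`, `u ∉ S` (a monomial `m` of `g_S` has `js k w m = S`, `m (w, k) = 0`).  `FNR(n)`: `BdR (ThR S C w c (Pi.single k 1) h)`, and RTH (1): `ren (mv c w) (alt Λ g_S) = X (w, k) * ThR S C w c (Pi.single k 1) h`.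
(b) `alt Λ g_S = q • g_n`, `g_n := pr k w (fun J => J.card = n) g`, `q := #{π ∈ pS Λ | π S = S} ≥ 1`: `alt Λ g_S = ∑_π sgn π • ren π (pr (· = S) g) = ∑_π pr (· = π S) g` (PR (7), SYM (2)); the coefficient of a monomial `m` with `m (w, k) = 0`, `js k w m = J` (then `J ⊆ Λ` because `g` has degree `0` outside `Λ ∪ {w}`) is `#{π ∈ pS Λ | π S = J}` times `coeff m g`, and this
number is `0` for `|J| ≠ n` and `q` for `|J| = n` (left multiplication with some `σ ∈ pS Λ`, `σ S = J`).  Now `G := q • g - alt Λ g_S = q • (g - g_n)` has the degrees of `g`, is alternating, its monomials `m` with `m (w, k) = 0` are monomials of `g` with `|js k w m| ≠ n` (PR (1)), so `≥ n + 1`, and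
`X (w, k) * (q • f - ThR ..) = ren (mv c w) G`.  `CHR(n + 1)`: `BdR (q • f - ThR ..)`, so `BdR (q • f)`, `BdR f` (RBD). -/
def Stmt_RCS : Prop :=
  ∀ (K : Type) [Field K] [CharZero K] (v M e p n : ℕ), n ≤ p + 1 → FNR K v M e p n →
    CHR K v M e p (n + 1) → CHR K v M e p n

/-- RCV: the ends of the induction.
Proofs.  (1) `CHR(p + 2)`: `|Λ| = p + 1`, so every monomial of `g` contains `X (w, k)`, `k = Fin.last v`: `g = X (w, k) * g'`; `Dg (dgc M ∅ ∅ Λ w e) g'` (DIV (2) for `x = Pi.single k 1`, `Function.update`), `Al Λ g'` (cancel `X (w, k)`), `X (w, k) * f = X (w, k) * ren (mv c w) g'` (`c ≠ w`), so `f = ren (mv c w) g'`.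
(2) VU: one set of letters, `U := Fin p`.  `f : PX K (Option U) (v + 1)` with `InZ U (v + 1) (M + 2) (e + (M + 2)) f`.  `X (none, k) * f` is in `InZ U (v + 1) (M + 2) (e + 1 + (M + 2))`, so there is `g : PX K (Option (Option U)) (v + 1)` with `InC (Option U) (v + 1) (M + 2) (M + 2) (e + 1 + (M + 2)) g` and `ren Option.join g = X (none, k) * f`.
`A := Option (Option U)`, `w := none`, `c := some none`, `Λ := univ.erase none`, `f' := ren (Option.map some) f`.  `Al Λ g`, `Dg (dgc M ∅ ∅ Λ w (e + 1)) g` (`InC`; a transposition of two elements `some a`, `some b` is `Option.map (swap a b)`), and `mv c w = Option.map some ∘ Option.join`, so `ren (mv c w) g = X (w, k) * f'`.  `CHR(0)`: `BdR M e Λ w c f'`: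
`g₁` with `Dg (dgc M ∅ ∅ Λ w e) g₁`, `Al Λ g₁`, `ren (mv c w) g₁ = f'`.  Then `InC (Option U) (v + 1) (M + 2) (M + 2) (e + (M + 2)) g₁` (SYM (2)) and `ren Option.join g₁ = ren Option.join (ren (mv c w) g₁) = ren Option.join f' = f` (`Option.join ∘ mv c w = Option.join`, `Option.join ∘ Option.map some = id`). -/
def Stmt_RCV : Prop :=
  ∀ (K : Type) [Field K] [CharZero K] (v M e p : ℕ),
    CHR K v M e p (p + 2) ∧
    (CHR K v M e p 0 → Van K (v + 1) (M + 2) p (e + 1 + (M + 2)) →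
      Van K (v + 1) (M + 2) p (e + (M + 2)))

/-- RCR: the first row criterion.
Proof.  `CHR(p + 2)` (RCV), and downwards `CHR(n + 1) → CHR(n)` for `n = p + 1, ..., 0` by RCS and RFN (`n = D + 1`, `l = p - D`; `n = 0`).  RCV (2). -/
def Stmt_RCR : Prop :=
  ∀ (K : Type) [Field K] [LinearOrder K] [IsStrictOrderedRing K] (v M e p : ℕ),
    Van K (v + 1) (M + 2) p (e + 1 + (M + 2)) →
    (∀ l D : ℕ, l + D = p → HVR K v (M + 2) l (e + 1) D) →
    Van K (v + 1) (M + 2) p (e + (M + 2))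

/-- RNM: numbers.
Proof.  `N = M + 1`, `d = N + 1`, `e + 1 = 2 N - 1`, `e + d = 3 N - 1`.  `Van K 4 d p (3 N)`: TG with `v = 3`, `s = N`: `p + (N + 3).choose 3 + 4 ≤ (d + 3).choose 3 = (N + 3).choose 3 + (N + 3).choose 2`.  `HVR K 3 d l (2 N - 1) D`, `l + D = p`: `l ≤ N - 2`: `Van K 3 d l (2 N - 1)` by LOW (`d + l ≤ 2 N - 1`).  `l = N - 1 + i`, `i + 3 ≤ N`: the hypothesis
(`D ≤ (N + 2).choose 2 - 3 - i`, because `p + 6 ≤ (N + 3).choose 2 = (N + 2).choose 2 + N + 2`).  `i ≥ N - 2`: then `3 D < l d + 2 N - 1`, which is the total degree of `f`, so `f = 0` (`InB` of `0`): `3 D ≤ 3 ((N + 2).choose 2 - 3 - i)`, `2 (N + 2).choose 2 = (N + 2)(N + 1)`, and `N ≥ 4`. -/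
def Stmt_RNM : Prop :=
  ∀ (K : Type) [Field K] [LinearOrder K] [IsStrictOrderedRing K] (M : ℕ), 3 ≤ M →
    (∀ i D : ℕ, i + 2 ≤ M → D + i + 3 ≤ (M + 3).choose 2 →
      HVR K 3 (M + 2) (M + i) (2 * M + 1) D) →
    ∀ p : ℕ, p + 6 ≤ (M + 4).choose 2 → Van K 4 (M + 2) p (3 * M + 2)

end Pool.Agent.VOP
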