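import Pool.Agent.VOP.StmtsG

/-!
# The Ottaviani-Paoletti conjecture (MP_deb8da_ag): block S (the steps of sections 2 and 3)

`≡` in the proofs means: equal modulo good polynomials (of the configuration `(T, S ∪ C)`).  The
statements of block G may be used as hypotheses.
-/

namespace Pool.Agent.VOP

open MvPolynomial Pool.Agent.VSY

/-- CHI (section 2, (i)).  `a` is the new symmetric point, `κ c` the quotient of `E|_{c → w}` by `x(w)`.
Proof.  `κ c` has degree `0` at `c` and (DIV (2)) degree `2M+2+β` at `w` (`ren (mv c w) E` has degree `M+1+β+M+2` at `w`), is symmetric in `insert a T`, alternating in `C.erase c` and a cycle there: `lin x w * ren (mv c' w) (κ c) =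
ren (mv c' w) (ren (mv c w) E)`, and `ren (mv c w) (ren (mv c' w) E) = - itself` by the alternation of `E` (both points go to `w`: `mv c' w ∘ mv c w ∘ swap c c' = mv c' w ∘ mv c w`), so it is `0` (char ≠ 2).  Also for `c, c' ∈ C`: `κ c' = - ren (swap c c') (κ c)`
(cancel `lin x w`).  Fix `c₀ ∈ C`.  PP for `(insert a T, C.erase c₀)` and `κ c₀`: `κ c₀ = rn w G + rn w g`, `G g : PX K (Option A) v`.  Put `G₁ := rn c₀ G`, `g₁ := rn c₀ g : PX K A v` (the new letter becomes `c₀`; `some c₀` has degree `0` in `G`, `g`, so these are injective renamings on the points that occur, DG (10)):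
`G₁` is symmetric in `insert c₀ (insert a T)`, of degree `M+1` at `c₀`, alternating cycle in `C.erase c₀`, degree `M+1+β` at `w`; `g₁` is symmetric in `insert a T`, alternating in `C`, degree `M+β` at `w`; `ren (mv c₀ w) G₁ = rn w G`, `ren (mv c₀ w) g₁ = rn w g`.
`E₁ := lin x w * g₁`, `E₂ := lin x c₀ * G₁ - ∑ c ∈ C.erase c₀, ren (swap c₀ c) (lin x c₀ * G₁)` (alternating in `C`: SYM (11)).  `ren (mv c₀ w) E₁ = lin x w * rn w g`; `ren (mv c₀ w) E₂ = lin x w * rn w G`, because
`ren (mv c₀ w) (ren (swap c₀ c) (lin x c₀ * G₁)) = lin x c * ren (..) G₁` where `c₀ ↦ c`, `c ↦ w`: `= lin x c * ren (c₀ ↦ c) (ren (mv c w) G₁) = 0`.  So `E' := E - E₁ - E₂` is alternating in `C`, `ren (mv c₀ w) E' = 0`, so a cycle: `Zc M (insert a T) ∅ C w (M+1+β) E'`, `Good (ren (mv a w) E')` by GD3.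
Moreover `κ c = κ₁ c + κ₂ c`, `κ₁ c := ren (mv c w) g₁`, `κ₂ c := the quotient for E₂`, `κ₂ c₀ = ren (mv c₀ w) G₁`, `κ₂ c = - ren (swap c₀ c) (κ₂ c₀)`.
`E₁`: `ren (mv a w) E₁ - ∑ lin x c * ren (mv a c) (κ₁ c)` is the expression of GD2' for `g := lin x a * g₁` and `u := a` (`ren (mv a w) (ren (swap a c) (lin x a * g₁)) = lin x c * ren (a ↦ c, c ↦ w) g₁`): good.
`E₂`: by GD1 `ren (mv a w) E₂ ≡ j • (lin x c₀ * ren (mv a w) G₁)` (`j = C.card`; each `- ren (swap c₀ c) h ≡ h`), and `∑ c, lin x c * ren (mv a c) (κ₂ c) ≡ j • (lin x c₀ * ren (mv a c₀) (ren (mv c₀ w) G₁))` (the term of `c` is `- ren (swap c₀ c)` of the term of `c₀`); both are equal: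
`ren (mv a c₀) (ren (mv c₀ w) G₁) = ren (mv a w) (ren (swap a c₀) G₁) = ren (mv a w) G₁`. -/
def Stmt_CHI : Prop :=
  ∀ (K : Type) [Field K] [CharZero K] (v M β t j : ℕ), PP K v M β (t + 1) j →
    ∀ (A : Type) [Fintype A] [DecidableEq A] (T C : Finset A) (w a : A) (x : Fin v → K)
      (E : PX K A v) (κ : A → PX K A v), Cf T ∅ C w → T.card = t → C.card = j + 1 → x ≠ 0 →
      a ∉ T → a ∉ C → a ≠ w →
      Cg (dgc M (insert a T) ∅ C w (M + 1 + β)) (insert a T) ∅ C E →
      (∀ c ∈ C, ren (mv c w) E = lin x w * κ c) →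
      Good M β T C w (ren (mv a w) E - ∑ c ∈ C, lin x c * ren (mv a c) (κ c))

/-- CHI' (section 2, (i')): the same without alternation.
Proof.  Apply CHI to `alt C E`, `κ' c := ∑ π ∈ pS C, sign π • ren π (κ (π⁻¹ c))` (`mv c w ∘ π = π ∘ mv (π⁻¹ c) w` as `π w = w`).  Then `ren (mv a w) (alt C E) - ∑ c, lin x c * ren (mv a c) (κ' c) = alt C h`, `h := ren (mv a w) E - ∑ c, lin x c * ren (mv a c) (κ c)`
(`mv a c ∘ π = π ∘ mv a (π⁻¹ c)`, reindex the sum over `c ∈ C` by `π`).  `Good (alt C h)` and `Good h` are equivalent: `alt C (alt C h) = j! • alt C h` (SYM), `TT` is closed under scalars (GD0); degrees of `h`: DG (8). -/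
def Stmt_CHI' : Prop :=
  ∀ (K : Type) [Field K] [CharZero K] (v M β t j : ℕ), PP K v M β (t + 1) j →
    ∀ (A : Type) [Fintype A] [DecidableEq A] (T C : Finset A) (w a : A) (x : Fin v → K)
      (E : PX K A v) (κ : A → PX K A v), Cf T ∅ C w → T.card = t → C.card = j + 1 → x ≠ 0 →
      a ∉ T → a ∉ C → a ≠ w →
      Dg (dgc M (insert a T) ∅ C w (M + 1 + β)) E → Sy (insert a T) E →
      (∀ c ∈ C, ren (mv c w) E = lin x w * κ c) →
      (∀ c ∈ C, Dg (Function.update (dgc M (insert a T) ∅ C w (2 * M + 2 + β)) c 0) (κ c)) →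
      Good M β T C w (ren (mv a w) E - ∑ c ∈ C, lin x c * ren (mv a c) (κ c))

/-- OMG: the relation (G2) for `x_{S+n} Ω`: `Ω` alternating in `isn S` and in `sm C`.
Proof.  GD2 for `g := lin x none * (∏ p ∈ S, lin x (some p)) * Ω`, configuration `(T, S ∪ C)`; degrees: `M+2` on `none`, `S`, `C`; `M + β` at `w`.  `rn w g = lin x w * xS x S * rn w Ω`.  For `c ∈ S`: `ren (swap none (some c)) g = - g` (the product is symmetric, `Ω` alternating in `isn S`), so
the term contributes `+ rn w g`.  For `c ∈ C`: `(swap none (some c) o).getD w` sends `none ↦ c`, `some c ↦ w`, so the term is `lin x c * xS x S * ren (fun o => (swap none (some c) o).getD w) Ω = xS x (insert c S) * ...`. -/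
def Stmt_OMG : Prop :=
  ∀ (K : Type) [Field K] [CharZero K] (v M β : ℕ) (A : Type) [Fintype A] [DecidableEq A]
    (T S C : Finset A) (w : A) (x : Fin v → K) (Ω : PX K (Option A) v), Cf T S C w →
    Cg (dgc M (sm T) (isn S) (sm C) (some w) (M + β)) (sm T) (isn S) (sm C) Ω →
    Good M β T (S ∪ C) w (((S.card + 1 : ℕ) : K) • (lin x w * xS x S * rn w Ω) -
      ∑ c ∈ C, xS x (insert c S) * ren (fun o => (Equiv.swap none (some c) o : Option A).getD w) Ω)

/-- OMC: properties of `Ω_c = ren (none ↦ c, some c ↦ w) Ω`.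
Proof.  Direct: symmetric in `T`; alternating in `insert c S`, `C.erase c`; degrees `M+1` on `insert c S`, `M+2` on `C.erase c`, `M + β + (M + 2)` at `w`, `0` at the other points.
`ren (mv c w) Ω_c = ren (mv c w) (rn w Ω)`: both send `none` and `some c` to `w`.  `ren (mv c' w) Ω_c = 0` for `c' ∈ C.erase c`: `some c` and `some c'` both go to `w`, `Ω` is alternating in `sm C`, char ≠ 2.  `ren (swap c c') Ω_c = - Ω_{c'}` for `c, c' ∈ C`. -/
def Stmt_OMC : Prop :=
  ∀ (K : Type) [Field K] [CharZero K] (v M β : ℕ) (A : Type) [Fintype A] [DecidableEq A]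
    (T S C : Finset A) (w : A) (Ω : PX K (Option A) v), Cf T S C w →
    Cg (dgc M (sm T) (isn S) (sm C) (some w) (M + β)) (sm T) (isn S) (sm C) Ω →
    ∀ c ∈ C, Cg (dgc M T (insert c S) (C.erase c) w (2 * M + 2 + β)) T (insert c S) (C.erase c)
        (ren (fun o => (Equiv.swap none (some c) o : Option A).getD w) Ω) ∧
      ren (mv c w) (ren (fun o => (Equiv.swap none (some c) o : Option A).getD w) Ω) =
        ren (mv c w) (rn w Ω) ∧
      (∀ c' ∈ C, c' ≠ c →
        ren (mv c' w) (ren (fun o => (Equiv.swap none (some c) o : Option A).getD w) Ω) = 0 ∧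
        ren (Equiv.swap c c') (ren (fun o => (Equiv.swap none (some c) o : Option A).getD w) Ω) =
          -ren (fun o => (Equiv.swap none (some c') o : Option A).getD w) Ω)

/-- ALPM (section 3, (α')).
Proof.  PV with active letters `S` (degree `M+1`, `e = M+β`, `e + d = 2M+1+β`), `T` symmetric, `C` alternating (apply PV with its `(T, S, C)` := `(T, C, S)`): `f = rn w Ω`, `Ω` in `Cg (dgc M (sm T) (isn S) (sm C) (some w) (M+β)) ...`.
OMG: `(s+1) • (lin x w * xS x S * f) ≡ ∑_{c ∈ C} xS x (insert c S) * Ω_c`.  By OMC `Ω_c` is a bicycle for `(insert c S, C.erase c)`: `ren (mv c w) Ω_c = ren (mv c w) f = 0`, for `b ∈ S`: `ren (mv b w) Ω_c = - ren (mv b w) (ren (swap b c) Ω_c) = ∓ ren (swap b c) (ren (mv c w) Ω_c) = 0`.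
CLAIM(l-1) for `(T, insert c S, C.erase c)` (the union is again `S ∪ C`).  Divide by `s + 1`.  If `l = 0` there are no terms. -/
def Stmt_ALPM : Prop :=
  ∀ (K : Type) [Field K] [CharZero K] (v M β t s l : ℕ), PV K v (M + 1) s (M + β) →
    (l = 0 ∨ CL K v M β t (s + l) (l - 1)) → ALP K v M β t s l

/-- TWOM (section 3, (2')).
Proof.  Put `H := lin x u * η`, `F := H - ∑ c ∈ C.erase u, ren (swap u c) H` (alternating in `C`, SYM (11)), `lin x w * ρ = F - f`.  `ρ` is symmetric in `T`, alternating in `S`, in `C` (cancel `lin x w`), of degree `2M+1+β` at `w` (DIV (2)).  For `b ∈ S`: `ren (mv b w) F = 0 = ren (mv b w) f` (`η` is a cycle for `S`), so `ren (mv b w) ρ = 0`.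
`ren (mv u w) F = lin x w * ren (mv u w) η` (the terms `c`: `lin x c * ren (u ↦ c, c ↦ w) η = 0` as `η` is a cycle at `c ∈ C.erase u`), so `ren (mv u w) ρ = ren (mv u w) η`.  PV (active letters `S`): `ρ = rn w Ω`.  OMG: `(s+1) • (lin x w * xS x S * ρ) ≡ ∑_{c ∈ C} xS x (insert c S) * Ω_c ≡ l • (xS x (insert u S) * Ω_u)`
(OMC last clause and GD1).  `xS x S * F ≡ l • (xS x (insert u S) * η)` (GD1; `ren (swap u c) (xS x S) = xS x S`).  `(s+1) • (xS x (insert u S) * η) ≡ xS x (insert u S) * η'`, `η' := η - ∑ b ∈ S, ren (swap u b) η` (GD1).  So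
`(s+1) • (xS x S * f) ≡ l • (xS x (insert u S) * θ)`, `θ := η' - Ω_u`.  `θ` is a bicycle of `(T; insert u S, C.erase u)`: alternating (SYM (11), OMC); `ren (mv u w) θ = ren (mv u w) η - ∑_b ren (u ↦ b) (ren (mv b w) η) - ren (mv u w) ρ = 0` (OMC: `ren (mv u w) Ω_u = ren (mv u w) (rn w Ω)`),
the other points of `insert u S` by alternation; `c ∈ C.erase u`: `ren (mv c w) η' = 0`, OMC.  CLAIM(l-1). -/
def Stmt_TWOM : Prop :=
  ∀ (K : Type) [Field K] [CharZero K] (v M β t s l : ℕ), PV K v (M + 1) s (M + β) →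
    CL K v M β t (s + l) (l - 1) → TWO K v M β t s l

/-- THRM (section 3, (3')), for `s + l ≥ 1`.
Proof.  Write `ren (mv u w) η = lin x w * y u` (`u ∈ S ∪ C`).  Facts (cancel `lin x w`): `y u` has degree `0` at `u`; is symmetric in `insert a T`; for `b ∈ S`: alternating in `S.erase b`, in `C`, `ren (mv b' w) (y b) = 0` for `b' ∈ S.erase b`, `y b' = - ren (swap b b') (y b)`; the same for `c ∈ C`;
for `b ∈ S`, `c ∈ C`: `ren (mv c w) (y b) = ren (mv b w) (y c)`.  CHI' for `E := xS x S * η`, configuration `(T, S ∪ C)`, `κ c := lin x w * xS x (S.erase c) * y c` (`c ∈ S`), `κ c := xS x S * y c` (`c ∈ C`).  So with `ρ₁ := ∑_{b ∈ S} ren (mv a b) (y b)`: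
`xS x S * ren (mv a w) η ≡ lin x w * xS x S * ρ₁ + ∑_{c ∈ C} xS x (insert c S) * ren (mv a c) (y c)`.  (★)
Let `lin x w * ρ = ren (mv a w) η - f`.  Then `ren (mv u w) ρ = ren (mv a w) (y u)` for `u ∈ S ∪ C` (`f` is a bicycle); `ρ` symmetric in `T`, alternating in `S`, `C`, degree `2M+1+β` at `w`.  `ρ₂ := ρ - ρ₁`: the same symmetries; for `b ∈ S`: `ren (mv b w) ρ₁ = ren (mv a w) (y b)` (the terms `b' ≠ b` vanish), so `ren (mv b w) ρ₂ = 0`.
PV (active letters `S`): `ρ₂ = rn w Ω`.  OMG: `(s+1) • (lin x w * xS x S * ρ₂) ≡ ∑_{c ∈ C} xS x (insert c S) * Ω_c`.  Hence `(s+1) • (xS x S * f) ≡ ∑_{c ∈ C} xS x (insert c S) * ((s+1) • h_c - Ω_c)`, `h_c := ren (mv a c) (y c)`, and `(s+1) • (xS x (insert c S) * h_c) ≡ xS x (insert c S) * h'_c`,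
`h'_c := h_c - ∑_{b ∈ S} ren (swap c b) h_c` (GD1).  `θ_c := h'_c - Ω_c` is a bicycle of `(T; insert c S, C.erase c)`: `ren (mv c w) h'_c = ren (mv a w) (y c) - ∑_{b ∈ S} ren (mv a b) (ren (mv b w) (y c))` (`ren (mv c w) (ren (swap c b) (ren (mv a c) (y c)))` sends `a ↦ b`, `b ↦ w`),
`ren (mv c w) Ω_c = ren (mv c w) ρ₂ = ren (mv a w) (y c) - ∑_{b ∈ S} ren (mv a b) (ren (mv c w) (y b))`, equal.  For `c' ∈ C.erase c`: `ren (mv c' w) (y c) = 0`.  CLAIM(l-1) for every `c ∈ C`; if `l = 0` there are none.  `PP (t+1) (s+l-1)` is used in CHI'. -/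
def Stmt_THRM : Prop :=
  ∀ (K : Type) [Field K] [CharZero K] (v M β t s l : ℕ), 1 ≤ s + l →
    PV K v (M + 1) s (M + β) → (l = 0 ∨ CL K v M β t (s + l) (l - 1)) →
    PP K v M β (t + 1) (s + l - 1) → THREE K v M β t s l

/-- CHB: `CLAIM^H(i)` for `i > t + s` follows from `(α')`.
Proof.  `(T ∪ S).filter ..` has at most `t + s` elements, so every monomial of `f` is divisible by `X (w, k)`: `f = X (w, k) * f'` (`MvPolynomial` division by a monomial, all `m (w, k) ≥ 1`), `X (w, k) = lin (Pi.single k 1) w`; `f'` is a bicycle of degree `2M+1+β` at `w` (cancel `lin`, DIV (2); `mv u w` fixes `w`).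
`∏ p ∈ S, X (p, k) = xS (Pi.single k 1) S`. -/
def Stmt_CHB : Prop :=
  ∀ (K : Type) [Field K] [CharZero K] (v M β t s l i : ℕ), ALP K v M β t s l → t + s < i →
    CH K v M β t s l i

/-- CLCH: `CLAIM^H(0)` for `(s, l)` with `s + l = j` gives `CLAIM(l)`.
Proof.  `x ≠ 0`: SBT (6) gives `k`, `g`, `g'` with `g k = x`.  `f₀ := sb g' f` is a bicycle, `CH .. 0` for `k`, `f₀`: `(∏ p ∈ S, X (p, k)) * f₀` is good; apply `sb g`: `sb g (X (p, k)) = lin (g k) p = lin x p`, `sb g f₀ = f`. -/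
def Stmt_CLCH : Prop :=
  ∀ (K : Type) [Field K] [CharZero K] (v M β t s l : ℕ), CH K v M β t s l 0 →
    CL K v M β t (s + l) l

/-- PPC: `CLAIM(j)` gives `PP`.
Proof.  `S = ∅`, `C` of card `j`, `xS x ∅ = 1`, `x` any non-zero vector (`1 ≤ v`).  CL needs a point outside the configuration: apply it on `Option A` to `ren some f` and `sm T`, `∅`, `sm C`, `some w` (spare point `none`), GD0 last clause: `TT M β (sm T) (sm C) (some w) (ren some f)`,
with `G' g' : PX K (Option (Option A)) v`; rename them to `Option A` by `none ↦ none`, `some (some x) ↦ some x`, `some none ↦ none` (the point `some none` has degree `0`, DG (10)): injective on the points that occur; `TT M β T C w f`. -/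
def Stmt_PPC : Prop :=
  ∀ (K : Type) [Field K] [CharZero K] (v M β t j : ℕ), 1 ≤ v → CL K v M β t j j →
    PP K v M β t j

/-- PP0: `PP` for `j = 0`.
Proof.  `C = ∅`.  `f` is symmetric in `T`, degree `2M+2+β` at `w`.  TT with `G = 0` and `g`: every monomial `X^m` of `f` is `∏ (T-part) * X_w^α` with `|α| = 2M+2+β`; choose once and for all for every exponent `α : Fin v → ℕ` with `|α| = 2M+2+β` an exponent `α' ≤ α` with `|α'| = M+2`;
`g := ∑_m coeff m f • monomial (m with X_w^α replaced by X_{none}^{α'} X_w^{α - α'})`; `rn w g = f`; symmetric in `sm T` as the choice only depends on `α`; `Al (isn ∅)`: a single point, trivial. -/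
def Stmt_PP0 : Prop :=
  ∀ (K : Type) [Field K] [CharZero K] (v M β t : ℕ), PP K v M β t 0

end Pool.Agent.VOP
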