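import Pool.Agent.VOP.Iface

/-!
# The Ottaviani-Paoletti conjecture (MP_deb8da_ag): block T, the statements of the modules

The alternating points are `u_1, ..., u_v` (`Sum.inl i`) and `q` others (`Sum.inr j`); `w = none`.
-/

namespace Pool.Agent.VOP

open MvPolynomial Pool.Agent.VSY

/-- The alternating points `u_1, ..., u_v` and the `q` others. -/
abbrev QV (v q : ℕ) : Type := Fin v ⊕ Fin q

/-- The points `w, u_1, ..., u_v`. -/
def qv (v q : ℕ) : Fin (v + 1) → Option (QV v q) := Fin.cons none fun i => some (Sum.inl i)

/-- The determinant of the coordinates of the points `p 0, ..., p (n - 1)`. -/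
noncomputable def dtn (K : Type) [Field K] {A : Type} {n : ℕ} (p : Fin n → A) : PX K A n :=
  (Matrix.of fun i j : Fin n => (X (p i, j) : PX K A n)).det

/-- The determinant of the coordinates of `w, u_1, ..., u_v`. -/
noncomputable def DV (K : Type) [Field K] (v q : ℕ) : PX K (Option (QV v q)) (v + 1) :=
  dtn K (qv v q)

/-- The symmetric points `u_1, ..., u_v`. -/
def TV (v q : ℕ) : Finset (Option (QV v q)) :=
  Finset.univ.image fun i : Fin v => some (Sum.inl i)

/-- The alternating points. -/
def CV (v q : ℕ) : Finset (Option (QV v q)) :=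
  Finset.univ.image fun j : Fin q => some (Sum.inr j)

/-- The alternating sum over the permutations of the points `some u`. -/
noncomputable def AS {K : Type} [Field K] {U : Type} [Fintype U] [DecidableEq U] {v : ℕ}
    (F : PX K (Option U) v) : PX K (Option U) v :=
  ∑ π : Equiv.Perm U, ((Equiv.Perm.sign π : ℤˣ) : ℤ) • ren (Option.map π) F

/-- TCB: the Capelli element as an alternating sum.
PROOF: this is `Stmt_L0B` (proof in `Pool/Agent/VSY/L0B.lean`) with `v + 1` coordinates instead of
`4`, `v` points instead of `3` and `q` instead of `N`.  Copy that file and replace `4` by `v + 1`,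
`3` by `v`, `QU N` by `QV v q`, `q4 N` by `qv v q`, `DD4 K N` by `DV K v q` (unfold `DV`, `dtn`).
(The sum of `CAPS` over all tuples `t` is a sum over the tuples of distinct points containing
`none`; these are one orbit of `Perm (QV v q) × Perm (Fin (v + 1))`, all fibres of the orbit map
have the same number of elements; the terms of one coset add up to the determinant.) -/
def Stmt_TCB : Prop :=
  ∀ (K : Type) [Field K] [CharZero K] (v q : ℕ)
    (c : SA K (Option (QV v q)) (v + 1) (List.finRange (v + 1)).length),
    (∀ π : Equiv.Perm (QV v q),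
      push (Option.map π) c = ((Equiv.Perm.sign π : ℤˣ) : ℤ) • c) →
    (∀ t, (∀ i, t i ≠ none) → c (sgl K t) = 0) →
    ∃ a : K, capL (List.finRange (v + 1)) c =
      a • AS (DV K v q *
        c (sgl K fun i => qv v q (Fin.cast (List.length_finRange (n := v + 1)) i)))

/-- TCD: the component of a super cycle at the tuple `(w, u_1, ..., u_v)` is a bicycle.
PROOF: generalises `L0M.cond` (`Pool/Agent/VSY/L0M.lean`).  Put `t₁ i := qv v q (Fin.cast hk i)`,
`H := c (sgl K t₁)` (`t₁` is injective).
(dg) `hc.1.deg t₁ m hm`: at `some (inl i)` exactly one index `j` has `t₁ j = some (inl i)`, so the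
degree is `(M + 2) - 1`; at `some (inr j)` none: `M + 2`; at `none` one: `r - 1 = 2M + 2 + β`;
every point of `Option (QV v q)` is one of these, `dgc` gives these numbers.
(symmetries) For a permutation `π` of `QV v q`, `hc.1.alt π` evaluated at `sgl K (Option.map π ∘ t)`
gives `c (sgl K (Option.map π ∘ t)) = sign π • ren (Option.map π) (c (sgl K t))` (see `c_map` in
`Pool/Agent/VSY/L0B.lean`: `push_sgl` has only one term).  For `π = swap (inr a) (inr b)`, `a ≠ b`:
`Option.map π ∘ t₁ = t₁`, so `ren (Option.map π) H = - H`; for `π = swap (inl a) (inl b)`, `a ≠ b`: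
`Option.map π ∘ t₁ = t₁ ∘ swap (i_a) (i_b)` (`i_a` the index with `t₁ i_a = some (inl a)`), and
`sgl_perm` gives another sign: `ren (Option.map π) H = H`; for `x = y` the swap is the identity.
`ren (Equiv.swap (some x) (some y)) = ren (Option.map (Equiv.swap x y))` (`ren_congr`).
(cycle) exactly as in `L0M.cond`: `hc.2 (Sum.inr j)` evaluated at `sgl K t₁`, `push_sgl`; all terms
except that of `t₁` vanish by the hypothesis (their tuple does not contain `none`);
`mv (some (inr j)) none = mg (inr j)` by definition.  `S = ∅`: trivial. -/
def Stmt_TCD : Prop :=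
  ∀ (K : Type) [Field K] (v q M β k : ℕ) (hk : k = v + 1)
    (c : SA K (Option (QV v q)) (v + 1) k),
    KZ (QV v q) (v + 1) (M + 2) (2 * M + 3 + β) k c →
    (∀ t : Fin k → Option (QV v q), (∀ i, t i ≠ none) → c (sgl K t) = 0) →
    Zc M (TV v q) ∅ (CV v q) none (2 * M + 2 + β) (c (sgl K fun i => qv v q (Fin.cast hk i)))

/-- TL1: the alternating sum of `det(w, u_1, ..., u_v) * g|_{u₀ → w}` is a boundary.
PROOF (generalises `Pool/Agent/VSY/L1M.lean`).  Put `U := QV v q`, and let
`κ : Option (Option U) → Option (Option U)` be the exchange of `none` and `some none`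
(`Equiv.swap none (some none)`; in `g` the new point `u₀` is `none` and `w` is `some none`, in the
chains of `InC (Option U)` the point `w` is `none` and `some none` is an alternating point).
`F := ren (Option.map some) (DV K v q) * ren κ g`.
Degrees of `F`: at `some none`: `0 + (M + 2)`; at `some (some (inl i))`: `1 + (M + 1)`; at
`some (some (inr j))`: `0 + (M + 2)`; at `none`: `1 + (M + β)`, and
`1 + (M + β) + (M + 2) = 2M + 3 + β`.  So `AS F` (over the permutations of `Option U`) is in
`InC (Option U) (v + 1) (M + 2) (M + 2) (2M + 3 + β)` by `ASM_thm`, part 1, and by part 2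
`ren Option.join (AS F) = AS (ren Option.join F - ∑ u, F_u)`,
`F_u := ren (Option.join ∘ Option.map (swap none (some u))) F`.
`ren Option.join F = DV * rn none g` (`Option.join ∘ Option.map some = id`; `rn none = ren join`,
and `join ∘ κ = join`, as functions).
`F_(inl i) = 0`: the first factor is `dtn` of a tuple with two equal points (`none` at the index
`0` and at `i.succ`).
`F_(inr j) = - DV * rn none g`: the first factor is `DV` (all points of `qv` are fixed); by the
antisymmetry of `g` (`alC`, `none` and `some (some (inr j))` are in `isn (CV v q)`)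
`g = - ren (swap none (some (some (inr j)))) g` and
`join ∘ Option.map (swap none (some (inr j))) ∘ κ ∘ swap none (some (some (inr j))) = join`
(at `none`: `some (some (inr j))` → same → `some none` → `none`; at `some (some (inr j))`:
`none → some none → some (some (inr j)) → some (inr j)`; at `some none`: `→ none → none`).
So the bracket is `(1 + q) • (DV * rn none g)`, and `InB.smul` with `(1 + q)⁻¹`. -/
def Stmt_TL1 : Prop :=
  ∀ (K : Type) [Field K] [CharZero K] (v q M β : ℕ) (g : PX K (Option (Option (QV v q))) (v + 1)),
    Cg (dgc M (sm (TV v q)) ∅ (isn (CV v q)) (some none) (M + β)) (sm (TV v q)) ∅ (isn (CV v q))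
      g →
    InB (QV v q) (v + 1) (M + 2) (2 * M + 3 + β) (AS (DV K v q * rn none g))

/-- TL2: the alternating sum of `det(w, u_1, ..., u_v) * G|_{a₀ → w}` is a boundary.
PROOF (generalises `Pool/Agent/VSY/L2M.lean`).  Notation of TL1 (`U`, `κ`).
`F := ren some (DV K v q) * ren κ G` (the determinant of the points `some none = a₀` and
`some (some (inl i))`).  Degrees of `F`: at `some none`: `1 + (M + 1)`; at `some (some (inl i))`:
`1 + (M + 1)`; at `some (some (inr j))`: `0 + (M + 2)`; at `none`: `0 + (M + 1 + β)`, and
`(M + 1 + β) + (M + 2) = 2M + 3 + β`.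
`ren Option.join F = DV * rn none G` (`join ∘ some = id`).
`F_(inl i) = - DV * rn none G`: the first factor is `ren (swap none (some (inl i))) DV = - DV`
(two rows of the determinant are exchanged); `G = ren (swap none (some (some (inl i)))) G` (`sy`)
and `join ∘ Option.map (swap none (some (inl i))) ∘ κ ∘ swap none (some (some (inl i))) = join`.
`F_(inr j) = 0`: `join ∘ Option.map (swap none (some (inr j))) ∘ κ` sends `none` to
`some (inr j)`, `some (some (inr j))` to `none` and `some none` to `none`, so it is
`ψ ∘ mv (some (some (inr j))) (some none)` (with `ψ` the same map), and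
`ren (mv (some (some (inr j))) (some none)) G = 0` by `cyC`.
So the bracket is `(1 + v) • (DV * rn none G)`. -/
def Stmt_TL2 : Prop :=
  ∀ (K : Type) [Field K] [CharZero K] (v q M β : ℕ) (G : PX K (Option (Option (QV v q))) (v + 1)),
    Zc M (isn (TV v q)) ∅ (sm (CV v q)) (some none) (M + 1 + β) G →
    InB (QV v q) (v + 1) (M + 2) (2 * M + 3 + β) (AS (DV K v q * rn none G))

end Pool.Agent.VOP
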