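import Pool.Agent.VOP.StmtsN

/-!
# Theorem D1 in points, and the first row bound for `K_l(k³)[2N-1]` (MP_deb8da_ag), part 1

All points have three coordinates.  `w` is the special point, `Λ` a finite set of letters.
The mathematics is in `PAPER4.md`; every statement carries its complete proof.

* `q_s := p_s × w` (cross product, `cr K s w i`), `[i, j] := det(p_i, p_j, w)` (`br K i j w`);
* `IB K w b Λ`: the ideal generated by the products of `b` determinants `[i, j]` over disjoint pairs of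
  `Λ` and of one coordinate of `q_s` for every other letter `s`;
* `PY K A`: polynomials in three more variables `y` (or `ℓ`), `av K x = y(x)`, `el K w s = ℓ · q_s`;
* `ps K J`: the points of `J` are moved to the line `y = 0`: the point with coordinates `(s, t, *)`
  becomes `(y₂ s, y₂ t, - y₀ s - y₁ t)`.  If `w, s ∈ J` then `q_s` becomes `lm K w s • y`.
-/

namespace Pool.Agent.VOP

open MvPolynomial Pool.Agent.VSY

/-! ### Definitions -/

/-- Polynomials in three variables over the polynomials in points with three coordinates. -/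
abbrev PY (K : Type) [Field K] (A : Type) : Type := MvPolynomial (Fin 3) (PX K A 3)

/-- The coordinates of the cross product `p × q`. -/
noncomputable def cr (K : Type) [Field K] {A : Type} (p q : A) (i : Fin 3) : PX K A 3 :=
  X (p, i + 1) * X (q, i + 2) - X (p, i + 2) * X (q, i + 1)

/-- The determinant of `p`, `q`, `w`. -/
noncomputable def br (K : Type) [Field K] {A : Type} (p q w : A) : PX K A 3 :=
  ∑ i, X (p, i) * cr K q w i

/-- The linear form `y` at the point `p`. -/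
noncomputable def av (K : Type) [Field K] {A : Type} (p : A) : PY K A :=
  ∑ i, C (X (p, i)) * X i

/-- `ℓ · (p × w)`. -/
noncomputable def el (K : Type) [Field K] {A : Type} (w p : A) : PY K A :=
  ∑ i, C (cr K p w i) * X i

/-- The factor `y₂ (p₀ w₁ - p₁ w₀)`. -/
noncomputable def lm (K : Type) [Field K] {A : Type} (w p : A) : PY K A :=
  X 2 * C (X (p, 0) * X (w, 1) - X (p, 1) * X (w, 0))

/-- The ideals `I_b`. -/
noncomputable def IB (K : Type) [Field K] {A : Type} [DecidableEq A] (w : A) :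
    ℕ → Finset A → Ideal (PX K A 3)
  | 0, Λ => ∏ s ∈ Λ, Ideal.span (Set.range (cr K s w))
  | b + 1, Λ => ⨆ i ∈ Λ, ⨆ j ∈ Λ.erase i,
      Ideal.span {br K i j w} * IB K w b ((Λ.erase i).erase j)

/-- Multiplication of a symbol (a function on finite sets `I`, the coefficient of `∏_{i ∈ I} u_i` in a
multi-affine polynomial) by `u_i - u_j`. -/
def um {A : Type} [DecidableEq A] {M : Type} [Neg M] [Zero M] (i j : A) (p : Finset A → M)
    (I : Finset A) : M :=
  if i ∈ I ∧ j ∉ I then p (I.erase i) else if j ∈ I ∧ i ∉ I then -p (I.erase j) else 0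

/-- Specht elements: functions on the subsets of `Λ` with `b` elements, killed by the sum over the
sets containing a given set with `b - 1` elements. -/
structure Spe {A : Type} [DecidableEq A] {M : Type} [AddCommMonoid M] (Λ : Finset A) (b : ℕ)
    (p : Finset A → M) : Prop where
  supp : ∀ I, p I ≠ 0 → I ⊆ Λ ∧ I.card = b
  sum : ∀ I, I ⊆ Λ → I.card + 1 = b → ∑ i ∈ Λ \ I, p (insert i I) = 0

/-- `WP K w b Λ p g`: the pair `(p, g)` is a sum of pairs
`(c ∏ (u_i - u_j), c ∏ [i, j] ∏_s ℓ · q_s)` over matchings of `Λ` with `b` pairs. -/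
inductive WP (K : Type) [Field K] {A : Type} [DecidableEq A] (w : A) :
    ℕ → Finset A → (Finset A → PX K A 3) → PY K A → Prop
  | base (Λ : Finset A) (c : PX K A 3) :
      WP K w 0 Λ (fun I => if I = ∅ then c else 0) (C c * ∏ s ∈ Λ, el K w s)
  | pair (b : ℕ) (Λ : Finset A) (i j : A) (p : Finset A → PX K A 3) (g : PY K A) :
      i ∈ Λ → j ∈ Λ → i ≠ j → WP K w b ((Λ.erase i).erase j) p g →
      WP K w (b + 1) Λ (um i j p) (C (br K i j w) * g)
  | add (b : ℕ) (Λ : Finset A) (p p' : Finset A → PX K A 3) (g g' : PY K A) :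
      WP K w b Λ p g → WP K w b Λ p' g' → WP K w b Λ (fun I => p I + p' I) (g + g')

/-- `f` is the polynomial with the symbol `P` (of degree `t` in `y`): the pairing of the coefficients
of `P` in `y` with those of `g` in `ℓ`. -/
def Th (K : Type) [Field K] {A : Type} [DecidableEq A] (w : A) (b t : ℕ) (Λ : Finset A)
    (P : Finset A → PY K A) (f : PX K A 3) : Prop :=
  ∃ g : (Fin 3 →₀ ℕ) → PY K A, (∀ α, WP K w b Λ (fun I => coeff α (P I)) (g α)) ∧
    (t.factorial : K) • f = ∑ α ∈ (Finset.univ : Finset (Fin 3)).finsuppAntidiag t,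
      ((∏ i, (α i).factorial : ℕ) : K) • coeff α (g α)

/-- The points of `J` are moved to the line `y = 0`. -/
noncomputable def ps (K : Type) [Field K] {A : Type} [DecidableEq A] (J : Finset A) :
    PX K A 3 →ₐ[K] PY K A :=
  aeval fun x : A × Fin 3 =>
    if x.1 ∈ J then
      (if x.2 = 2 then -(C (X (x.1, 0)) * X 0 + C (X (x.1, 1)) * X 1) else C (X x) * X 2)
    else C (X x)

/-- The extension of `ps K J` to `PY K A` which fixes the variables `y`. -/
noncomputable def psY (K : Type) [Field K] {A : Type} [DecidableEq A] (J : Finset A) :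
    PY K A →+* PY K A :=
  eval₂Hom (ps K J : PX K A 3 →+* PY K A) X

/-- The coordinate `2` does not occur at the points of `J`. -/
def NC {K : Type} [Field K] {A : Type} (J : Finset A) (f : PX K A 3) : Prop :=
  ∀ m ∈ f.support, ∀ x ∈ J, m (x, 2) = 0

/-- The family `x` is glueable on the line `y`. -/
def GluL {K : Type} [Field K] {A : Type} [DecidableEq A] (δ : A → ℕ) (Λ : Finset A) (w : A)
    (x : A → PX K A 3) (y : Fin 3 → K) : Prop :=
  ∃ Y : PX K A 3, Dg δ Y ∧ ∀ u ∈ Λ, lin y w ∣ ren (mv u w) Y - x u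

/-- The family `x` is glueable. -/
def GluA {K : Type} [Field K] {A : Type} [DecidableEq A] (δ : A → ℕ) (Λ : Finset A) (w : A)
    (x : A → PX K A 3) : Prop :=
  ∃ Y : PX K A 3, Dg δ Y ∧ ∀ u ∈ Λ, ren (mv u w) Y = x u

/-- Boundaries in the first two coordinates: `F = H|_{u₀ → w}`, `H` alternating in `J ∪ {u₀}`, of degree
`N + 1` at `u₀` and `e` at `w`. -/
def BdN {K : Type} [Field K] {A : Type} [DecidableEq A] (δ : A → ℕ) (N e : ℕ) (J : Finset A)
    (w u₀ : A) (F : PX K A 3) : Prop :=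
  ∃ H : PX K A 3, Al (insert u₀ J) H ∧ NC (insert w (insert u₀ J)) H ∧
    Dg (Function.update (Function.update δ w e) u₀ (N + 1)) H ∧ ren (mv u₀ w) H = F

/-! ### Koszul exactness and the inclusion maps -/

/-- UKX: exactness of the Koszul complex of the forms `y(x)`, `x ∈ J`, in degree `0` and `1`.
Proof.  `R := PX K A 3`.  For `n ≤ 3` let `S_n := MvPolynomial (Fin n) R`, `a_x := ∑_{i < n} X (x, i) y_i ∈ S_n`, and consider for finite sets `J`:
K0(n): if `P` is homogeneous of degree `t + 1` and `y_{n-1}^M P ∈ (a_x)_{x ∈ J}` for some `M` (`n ≥ 1`) then `P = ∑_{x ∈ J} a_x Q_x` with `Q_x` homogeneous of degree `t`;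
K1(n): if `∑_{x ∈ J} a_x Q_x = 0`, `Q_x` homogeneous of degree `t + 1`, then `Q_x = ∑_{x'} a_{x'} B_{x x'}`, `B` antisymmetric, homogeneous of degree `t`.
K1(0): `S_0 = R`, a homogeneous element of degree `t + 1` is `0`.
K1(n) → K0(n+1): it is enough that `y_n P ∈ (a)` implies `P ∈ (a)` for `P` homogeneous of positive degree (apply it `M` times).  `y_n P = ∑ a_x Q_x`, `Q_x` homogeneous of the degree of `P` (components); put `y_n := 0` (`S_{n+1} → S_n`): `∑ a_x' Q_x' = 0`, K1(n):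
`Q_x' = ∑ a_{x'}' B_{x x'}`, lift `B` to `S_{n+1}` (antisymmetric): `Q_x - ∑ a_{x'} B_{x x'} = y_n Q''_x`, and `y_n P = y_n ∑ a_x Q''_x`; cancel `y_n`.
K0(n) → K1(n), `n ≥ 1`: induction on `J`.  `J = insert m J'`.  Let `ψ : S_n → S_n` be the algebra homomorphism `X (x, n-1) ↦ - ∑_{i < n-1} X (x, i) y_i`, `X (x, i) ↦ y_{n-1} X (x, i)` (`i < n-1`) for `x ∈ J'`, all other variables fixed.
(E) for every `Q` there are `M` and `Q'` without the variables `X (x, n-1)`, `x ∈ J'`, such that `y_{n-1}^M Q - Q' ∈ (a_x)_{x ∈ J'}` (`y_{n-1} X (x, n-1) = a_x - ∑_{i<n-1} X (x,i) y_i`; monomials).  (I) `ψ` is injective on the polynomials without these variables (it multiplies a monomial by a power of `y_{n-1}`, and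
different monomials have different images); `ψ (a_x) = 0` for `x ∈ J'`.  So `ψ Q = 0` iff `y_{n-1}^M Q ∈ (a_x)_{x ∈ J'}` for some `M`.  Now `a_m Q_m ∈ (a_x)_{x ∈ J'}`, so `0 = ψ (a_m) ψ (Q_m) = a_m ψ (Q_m)` (`m ∉ J'`), `ψ (Q_m) = 0`, K0(n): `Q_m = ∑_{x ∈ J'} a_x B_x`.
Then `∑_{x ∈ J'} a_x (Q_x + a_m B_x) = 0`; induction: `Q_x + a_m B_x = ∑ a_{x'} B_{x x'}`; put `B_{m x} := B_x`, `B_{x m} := -B_x`, `B_{m m} := 0` (and `B := 0` outside `J`).
The first statement is K0(3): by (E), (I) (for `J`), `psY K J P = 0` means `y_2^M P ∈ (a_x)_{x ∈ J}` for some `M` (`psY K J` is `ψ` for `n = 3`); the second is K1(3). -/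
def Stmt_UKX : Prop :=
  ∀ (K : Type) [Field K] [CharZero K] (A : Type) [Fintype A] [DecidableEq A] (J : Finset A)
    (t : ℕ),
    (∀ P : PY K A, P.IsHomogeneous (t + 1) → psY K J P = 0 →
      ∃ Q : A → PY K A, (∀ x, (Q x).IsHomogeneous t) ∧ P = ∑ x ∈ J, av K x * Q x) ∧
    (∀ Q : A → PY K A, (∀ x, (Q x).IsHomogeneous (t + 1)) → ∑ x ∈ J, av K x * Q x = 0 →
      ∃ B : A → A → PY K A, (∀ x x', (B x x').IsHomogeneous t) ∧
        (∀ x x', B x x' = -B x' x) ∧ ∀ x ∈ J, Q x = ∑ x' ∈ J, av K x' * B x x')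

/-- UGOT: the inclusion maps.
Proofs.  For a function `F` on finite sets put `(U F) I := ∑_{i ∈ I} F (I.erase i)`, `(D F) I := ∑_{i ∈ X \ I} F (insert i I)` (`I ⊆ X`).  `(D U F) I = (U D F) I + (|X| - 2 |I|) F I` (the terms `F (I.erase j ∪ {i})` agree; `F I` occurs `|X \ I|` times on the left, `|I|` times in `U D F`).
(1) So `D U^(s+1) G = U^(s+1) D G + κ U^s G` on the sets with `j + s` elements for `G` living on sets with `j` elements, `κ = (s+1)(|X| - 2j - s)` (induction on `s`).  With `G = D^s F`, `j = b - s`: `κ_s = (s+1)(|X| - 2b + s) > 0`.  So `B := ∑_{s=0}^{b} c_s U^(s+1) D^s F` with `c_0 κ_0 = 1`,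
`c_{s-1} + c_s κ_s = 0` satisfies `D B = F` on the subsets of `X` with `b` elements (`D^(b+1) F = 0` there).  (Alternatively: `D` is given by a rational matrix, whose transpose `U` is injective because `⟨U F, U F⟩ = ⟨D F, D F⟩ + (|X| - 2b) ⟨F, F⟩`; so `D` has a rational right inverse matrix; apply it to `F`.)
(2) Let `I₀ ⊆ X`, `|I₀| = b`, and `σ_j` the sum of `p (C ∪ B)` over `C ⊆ I₀`, `|C| = b - j`, `B ⊆ X \ I₀`, `|B| = j`.  The relations `sum` for the sets `C' ∪ B'`, `|C'| = b - j - 1`, `|B'| = j`, add up to `(b - j) σ_j + (j + 1) σ_(j+1) = 0` for `j < b`.  `σ_b = 0` as `|X \ I₀| < b`, so `σ_0 = p I₀ = 0`. -/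
def Stmt_UGOT : Prop :=
  ∀ (K : Type) [Field K] [CharZero K] (A : Type) [DecidableEq A] (M : Type) [AddCommGroup M]
    [Module K M] (X : Finset A) (b : ℕ),
    (∀ N : Submodule K M, 2 * b + 1 ≤ X.card → ∀ F : Finset A → M, (∀ I, F I ∈ N) →
      ∃ B : Finset A → M, (∀ I, B I ∈ N) ∧
        ∀ I, I ⊆ X → I.card = b → ∑ i ∈ X \ I, B (insert i I) = F I) ∧
    (X.card < 2 * b → ∀ p : Finset A → M, Spe X b p → ∀ I, p I = 0)

/-- UCB: the decomposition of a symbol.
Proof.  `Λ⁺ := insert w Λ`.  By UKX (first part) `P I = ∑_{x ∈ Λ⁺ \ I} a_x Q_{I,x}` for `I ⊆ Λ`, `|I| = b` (`a_x = av K x`), `Q_{I,x}` homogeneous of degree `t`; put `Q_{I,x} := 0` for the other `I`.  `b = 0`: done (`P' x ∅ := Q_{∅,x}`; `P' x I := 0` for `I ≠ ∅`).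
`b ≥ 1`: for `I' ⊆ Λ`, `|I'| = b - 1`: `0 = ∑_{i ∈ Λ \ I'} P (I' + i) = ∑_{x ∈ Λ⁺ \ I'} a_x R_{I',x}`, `R_{I',x} := ∑_{i ∈ Λ \ I', i ≠ x} Q_{I'+i,x}`, homogeneous of degree `t ≥ 1`.  UKX (second part): `R_{I',x} = ∑_{x' ∈ Λ⁺ \ I'} a_{x'} A_{I';x,x'}`, `A` antisymmetric, of degree `t - 1`.
For every pair `x ≠ x'` in `Λ⁺` UGOT (1) for `X = Λ \ {x, x'}` (`2 (b - 1) + 1 ≤ |Λ| - 2`; `M` = `PY K A`, `N` = the homogeneous elements of degree `t - 1`) gives `B_{I;x,x'}`, antisymmetric in `x, x'` (choose it for one order of the pair), zero unless `I ⊆ Λ \ {x,x'}`, `|I| = b`, with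
`∑_{i ∈ Λ \ (I' ∪ {x,x'})} B_{I'+i;x,x'} = A_{I';x,x'}` for all `I' ⊆ Λ \ {x,x'}`, `|I'| = b - 1`.  Put `P' x I := Q_{I,x} - ∑_{x' ∈ Λ⁺ \ I, x' ≠ x} a_{x'} B_{I;x,x'}` for `I ⊆ Λ`, `|I| = b`, `x ∉ I`, and `0` otherwise.  `∑_x a_x P' x I = P I` by antisymmetry.
`∑_{i ∈ Λ \ I', i ≠ x} P' x (I' + i) = R_{I',x} - ∑_{x'} a_{x'} ∑_{i ∈ Λ \ (I' ∪ {x,x'})} B_{I'+i;x,x'} = 0`: the Specht condition for `Λ.erase x` (`x ∈ Λ`) and for `Λ` (`x = w`). -/
def Stmt_UCB : Prop :=
  ∀ (K : Type) [Field K] [CharZero K] (A : Type) [Fintype A] [DecidableEq A] (Λ : Finset A)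
    (w : A) (b t : ℕ) (P : Finset A → PY K A), w ∉ Λ → Spe Λ b P →
    (∀ I, (P I).IsHomogeneous (t + 1)) → (b = 0 ∨ (1 ≤ t ∧ 2 * b + 1 ≤ Λ.card)) →
    (∀ I, I ⊆ Λ → I.card = b → psY K (insert w (Λ \ I)) (P I) = 0) →
    ∃ P' : A → Finset A → PY K A, (∀ x ∈ Λ, Spe (Λ.erase x) b (P' x)) ∧ Spe Λ b (P' w) ∧
      (∀ x I, (P' x I).IsHomogeneous t) ∧
      ∀ I, P I = ∑ x ∈ insert w Λ, av K x * P' x I

/-! ### Symbols -/

/-- UWP: basic properties of the pairs `(p, g)`.
Proofs.  (1) induction; `um i j (c * p) = c * um i j p`.  (2) induction (`um i j p` is supported on subsets of `Λ` with `b + 1` elements containing exactly one of `i, j`; for `I ⊆ Λ`, `|I| = b`: if `i, j ∉ I` the terms `insert i I`, `insert j I` give `p I - p I`, the others vanish; if `i ∈ I`, `j ∉ I` the terms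
`x ∈ Λ \ (I ∪ {j})` give `∑ p (insert x (I.erase i))` over `x ∈ ((Λ.erase i).erase j) \ I.erase i`, which is `0` (`b ≥ 1`, Specht; for `b = 0` there is no such `I`... then `|I.erase i| + 1 = b`), the term `x = j` vanishes; `j ∈ I`, `i ∉ I` the same; `i, j ∈ I`: all vanish).
(3) induction: `el` is homogeneous of degree `1`, `|(Λ.erase i).erase j| = |Λ| - 2`.  (4) by (1) with `c = 0` from any pair `(p, g)`: a pair exists if `2 b ≤ |Λ|` (induction on `b`).
(5) put `Z := C (X (w, 2)) * X 1 - C (X (w, 1)) * X 2`.  Identity: `∑_{I ∈ Λ.powersetCard b} C (p I * ∏_{i ∈ I} cr K i w 0) * ∏_{j ∈ Λ \ I} el K w j = Z ^ b * g`, by induction from `Z * C (br K i j w) = C (cr K i w 0) * el K w j - C (cr K j w 0) * el K w i`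
(`i ≠ j`; a polynomial identity in the coordinates, `ring` after expanding: `(z × ℓ) · w [i,j] = (z · q_i)(ℓ · q_j) - (z · q_j)(ℓ · q_i)`, `z = e_0`); for `um i j p` the sets `I` with `i ∈ I`, `j ∉ I` and those with `j ∈ I`, `i ∉ I` contribute, `I ↦ I.erase i` resp. `I.erase j` is a bijection onto the subsets of
`(Λ.erase i).erase j` with `b` elements.  `Z ≠ 0`, `PY K A` is a domain: `g` is determined by `p`.  (6), (7), (8): `Th` (choose the sum of the `g`; (5) for uniqueness, and divide by `t!`); in (8) `2 b ≤ |Λ|` gives the zero pair (empty sum).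
(9) coefficientwise: `um i j` commutes with `coeff α`; `coeff α (C (br ..) * g) = br .. * coeff α g`. -/
def Stmt_UWP : Prop :=
  ∀ (K : Type) [Field K] [CharZero K] (A : Type) [Fintype A] [DecidableEq A] (w : A),
    (∀ (b : ℕ) (Λ : Finset A) (p : Finset A → PX K A 3) (g : PY K A) (c : PX K A 3),
      WP K w b Λ p g → WP K w b Λ (fun I => c * p I) (C c * g)) ∧
    (∀ (b : ℕ) (Λ : Finset A) (p : Finset A → PX K A 3) (g : PY K A),
      WP K w b Λ p g → Spe Λ b p) ∧
    (∀ (b : ℕ) (Λ : Finset A) (p : Finset A → PX K A 3) (g : PY K A),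
      WP K w b Λ p g → 2 * b ≤ Λ.card ∧ g.IsHomogeneous (Λ.card - 2 * b)) ∧
    (∀ (b : ℕ) (Λ : Finset A), 2 * b ≤ Λ.card → WP K w b Λ (fun _ => 0) 0) ∧
    (∀ (b : ℕ) (Λ : Finset A) (p : Finset A → PX K A 3) (g g' : PY K A), w ∉ Λ →
      WP K w b Λ p g → WP K w b Λ p g' → g = g') ∧
    (∀ (b t : ℕ) (Λ : Finset A) (P P' : Finset A → PY K A) (f f' : PX K A 3),
      Th K w b t Λ P f → Th K w b t Λ P' f' → Th K w b t Λ (fun I => P I + P' I) (f + f')) ∧
    (∀ (b t : ℕ) (Λ : Finset A) (P : Finset A → PY K A) (f f' : PX K A 3), w ∉ Λ →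
      Th K w b t Λ P f → Th K w b t Λ P f' → f = f') ∧
    (∀ (b t : ℕ) (Λ : Finset A) (S : Finset A) (P : A → Finset A → PY K A) (f : A → PX K A 3),
      2 * b ≤ Λ.card → (∀ x ∈ S, Th K w b t Λ (P x) (f x)) →
      Th K w b t Λ (fun I => ∑ x ∈ S, P x I) (∑ x ∈ S, f x)) ∧
    (∀ (b t : ℕ) (Λ : Finset A) (i j : A) (P : Finset A → PY K A) (f : PX K A 3), i ∈ Λ →
      j ∈ Λ → i ≠ j → Th K w b t ((Λ.erase i).erase j) P f →
      Th K w (b + 1) t Λ (um i j P) (br K i j w * f))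

/-- UWS: every Specht element is a symbol.
Proof.  (1) Induction on `Λ` (strong induction on the cardinality), for all `b`.  `b = 0`: `p I = if I = ∅ then p ∅ else 0`.  `b ≥ 1`: choose `x ∈ Λ` (`|Λ| ≥ 2 b ≥ 2`).  `p₁ I := if x ∈ I then 0 else p (insert x I)` is a Specht element for `Λ.erase x`, `b - 1` (the relation for `insert x I`).  `2 (b - 1) ≤ |Λ| - 1`: by induction
there is `g₁` with `WP K w (b - 1) (Λ.erase x) p₁ g₁`.  Claim: there is `g` with `WP K w b Λ p₂ g` and `p₂ I = n • p₁ (I.erase x)` for `x ∈ I`, `n = |Λ| - 1 - 2 (b - 1) > 0`: this holds for every pair `WP K w (b-1) (Λ.erase x) p₁ g₁` by induction on `WP`: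
for a product over a matching of `Λ.erase x` multiply by `(u_x - u_j)` and add over the `n` letters `j` of `Λ.erase x` which are not covered by the matching (formally: prove by induction on `WP K w c Γ p g`, for `x ∉ Γ` and `2 c < |Γ|`: there are `p'`, `g'` with `WP K w (c + 1) (insert x Γ) p' g'`, `p' I = (|Γ| - 2 c) • p (I.erase x)` if `x ∈ I`;
base (`Γ ≠ ∅`): the sum over `j ∈ Γ` of the pairs `um x j (fun I => if I = ∅ then c else 0)`; pair: apply `um i j` to the pair for `(Γ.erase i).erase j` (`|(Γ.erase i).erase j| - 2 c = |Γ| - 2 (c + 1)`); add).  So `p - n⁻¹ • p₂` vanishes on the sets containing `x`; it is a Specht element for `Λ.erase x`, `b`.  If `|Λ| - 1 ≥ 2 b` it is a symbol for `Λ.erase x` by induction, hence for `Λ` (by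
induction on `WP`: if `WP K w b Γ p g` and `x ∉ Γ` then `WP K w b (insert x Γ) p (el K w x * g)`); if `|Λ| - 1 < 2 b` it is zero by UGOT (2).
(2) the coefficients of `P` are Specht elements, choose `g α` by (1) and define `f` by the formula (`t! ≠ 0`).  (3) as explained. -/
def Stmt_UWS : Prop :=
  ∀ (K : Type) [Field K] [CharZero K] (A : Type) [Fintype A] [DecidableEq A] (w : A),
    (∀ (b : ℕ) (Λ : Finset A) (p : Finset A → PX K A 3), 2 * b ≤ Λ.card → Spe Λ b p →
      ∃ g, WP K w b Λ p g) ∧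
    (∀ (b t : ℕ) (Λ : Finset A) (P : Finset A → PY K A), 2 * b ≤ Λ.card → Spe Λ b P →
      ∃ f, Th K w b t Λ P f) ∧
    (∀ (b : ℕ) (Λ : Finset A) (x : A) (p : Finset A → PX K A 3) (g : PY K A), x ∉ Λ →
      WP K w b Λ p g → WP K w b (insert x Λ) p (el K w x * g))

/-- URP: every element of `I_b` has a symbol, modulo `I_(b+1)`.
Proof.  Induction on `b`, for all `Λ`.  The set of the `f` satisfying the conclusion is closed under addition (UWP (6), sums of `P` and of `h`) and under multiplication by `c : PX K A 3` (multiply `P` and `h` by `c`; UWP (1) coefficientwise), and contains `0`.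
Step: `f = br K i j w * f'`, `f' ∈ IB K w b ((Λ.erase i).erase j)`: `P := um i j P'`, `h := br K i j w * h'` (UWP (9), (2)).  `b = 0`: `IB K w 0 Λ` is the span of the products `∏_{s ∈ Λ} cr K s w (ι s)`, `ι : A → Fin 3` (`Ideal.prod_span` or induction on `Λ`).  For such a product take `P ∅ := ∏_{s ∈ Λ} X (ι s)`, `P I := 0` otherwise.
`Th` holds with `g α := C (coeff α (P ∅)) * ∏ el` (WP.base) for `f' := (α! / t!) coeff α (∏_{s ∈ Λ} el K w s)`, `α :=` the exponent of `∏ X (ι s)`, `t = |Λ|`.  It remains: `∏_{s ∈ Λ} cr K s w (ι s) - f' ∈ IB K w 1 Λ`.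
(X) exchange: for `s ≠ s'`: `cr s a * cr s' b - cr s b * cr s' a` is `0` (`a = b`) or `± X (w, c) * br K s s' w` (`{a,b,c} = {0,1,2}`; all `cr s a := cr K s w a`).  So `∏ cr s (ι s) - ∏ cr s (ι' s) ∈ IB K w 1 Λ` if `ι' = ι ∘ swap s s'`, hence if `ι' = ι ∘ σ` with `σ` a permutation of `Λ`, i.e. if `ι`, `ι'` have the same type (exponent) `α` on `Λ`.
(Y) by induction on `Λ`: for every list `a_1, .., a_t` (`t = |Λ|`) and every `ι` on `Λ` with the same multiset of values `∂_{a_1} ... ∂_{a_t} ∏_{s ∈ Λ} el K w s - t! • ∏_{s ∈ Λ} cr s (ι s) ∈ IB K w 1 Λ` (`∂_a := pderiv a`, constants are identified with elements of `PX K A 3`):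
`∂_{a_1} ∏ el = ∑_{s'} cr s' a_1 * ∏_{s ≠ s'} el`; use induction for `Λ.erase s'` (`cr s' a * IB K w 1 (Λ.erase s') ⊆ IB K w 1 Λ`) and (X).  Finally `∂^α G = α! coeff α G` for `G` homogeneous of degree `t = |α|`. -/
def Stmt_URP : Prop :=
  ∀ (K : Type) [Field K] [CharZero K] (A : Type) [Fintype A] [DecidableEq A] (Λ : Finset A)
    (w : A) (b t : ℕ) (f : PX K A 3), w ∉ Λ → 2 * b + t = Λ.card → f ∈ IB K w b Λ →
    ∃ (P : Finset A → PY K A) (h : PX K A 3), Spe Λ b P ∧ (∀ I, (P I).IsHomogeneous t) ∧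
      h ∈ IB K w (b + 1) Λ ∧ Th K w b t Λ P (f - h)

/-- UTX: multiplication of a symbol by `y(x)`.
Proofs.  `coeff β (av K x * Q) = ∑_{i, β i ≥ 1} X (x, i) * coeff (β - single i 1) Q`.  (1) `x ∈ Λ`; UWS (1) for `Λ.erase x` (`|Λ| - 1 = 2 b + t`): `g'_γ` with `WP K w b (Λ.erase x) (coeff γ ∘ P') (g'_γ)`; UWS (3): `WP K w b Λ (coeff γ ∘ P') (el K w x * g'_γ)`.  So `g_β := ∑_{i, β i ≥ 1} C (X (x, i)) * el K w x * g'_{β - e_i}`
is a pair for `coeff β (av K x * P')` (UWP (1), add; `2 b ≤ |Λ|` for the zero pair) and `∑_β β! coeff β (g_β) = ∑_γ γ! coeff γ (∑_i C (X (x, i)) * pderiv i (el K w x * g'_γ))` (`coeff γ (pderiv i G) = (γ i + 1) coeff (γ + e_i) G`; `|γ| = t`).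
`∑_i C (X (x,i)) * pderiv i (el K w x) = C (∑ X (x,i) cr K x w i) = 0`, so the inner sum is `el K w x * D g'_γ`, `D := ∑_i C (X (x,i)) * pderiv i`.  Claim, by induction on `WP K w b Γ p g` with `x ∉ Γ`: all coefficients of `el K w x * D g` lie in `IB K w (b + 1) (insert x Γ)`: base: `D (∏_{s ∈ Γ} el K w s) = ∑_s C (br K x s w) * ∏_{s' ≠ s} el K w s'`
and the coefficients of `el K w x * ∏_{s' ∈ Γ.erase s} el K w s'` lie in the ideal `∏_{s' ∈ insert x (Γ.erase s)} (cr K s' w _)` ⊆ `∏_{s' ∈ Γ.erase s}`.. = `IB K w 0 (((insert x Γ).erase x).erase s)`; pair: `IB K w (b+1) (insert x Γ'')` times `br K i j w` is in `IB K w (b+2) (insert x Γ)`.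
(2) `g_β := ∑_{i, β i ≥ 1} C (X (w, i)) * g'_{β - e_i}` with `g'_γ` a pair for `coeff γ ∘ P'` and `Λ` (UWS (1)); `∑_β β! coeff β (g_β) = ∑_γ γ! coeff γ (∑_i C (X (w,i)) * pderiv i g'_γ)`, and `∑_i C (X (w,i)) * pderiv i` is a derivation over `PX K A 3` that kills all `el K w s` (`∑ X (w,i) cr K s w i = 0`), so it kills `g'_γ` (induction on `WP`). -/
def Stmt_UTX : Prop :=
  ∀ (K : Type) [Field K] [CharZero K] (A : Type) [Fintype A] [DecidableEq A] (Λ : Finset A)
    (w : A) (b t : ℕ) (P' : Finset A → PY K A), w ∉ Λ → 2 * b + (t + 1) = Λ.card →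
    (∀ I, (P' I).IsHomogeneous t) →
    (∀ x ∈ Λ, Spe (Λ.erase x) b P' →
      ∃ f ∈ IB K w (b + 1) Λ, Th K w b (t + 1) Λ (fun I => av K x * P' I) f) ∧
    (Spe Λ b P' → Th K w b (t + 1) Λ (fun I => av K w * P' I) 0)

/-- UEV: evaluation on a line.
Proofs.  Facts (`w ∈ J`; expand, `ring`): `ps K J (cr K s w i) = lm K w s * X i` if `s ∈ J`; hence `ps K J (br K i j w) = 0` if `i, j ∈ J`, `= lm K w j * av K i` if `i ∉ J`, `j ∈ J`, and `= - lm K w i * av K j` if `i ∈ J`, `j ∉ J` (`br K i j w = - br K j i w`).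
(2) by induction on `b`: `f = c * br K i j w * f'`: if `i, j ∈ J` the factor vanishes (this is always so for `b = 0`); otherwise `((Λ.erase i).erase j) \ J` has at most `b - 1` elements and `f'` is mapped to zero; sums (`Submodule.iSup_induction`, `Ideal.mul` elements).
(1) Let `π := MvPolynomial.map (ps K J : PX K A 3 →+* PY K A) : PY K A →+* MvPolynomial (Fin 3) (PY K A)` (the variables `ℓ` are kept).  Claim, for `WP K w b Λ p g`: (a) if `|Λ \ J| < b` then `π g = 0`; (b) if `|Λ \ J| = b`, `I := Λ \ J`, then `π g = C ((∏_{i ∈ I} av K i) * (∏_{j ∈ Λ \ I} lm K w j) * ps K J (p I)) * (∑ i, C (X i) * X i) ^ (|Λ| - 2 b)`.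
Induction on `WP`: base (`I = ∅`): `π (el K w s) = C (lm K w s) * ∑ i, C (X i) * X i`; pair: the four cases `i, j ∈ J` or not (`i, j ∉ J`: (a) for `(Λ.erase i).erase j`, and `um i j p I = 0`).  Take coefficients: `coeff α ((∑ C (X i) * X i) ^ t) = (t! / α!) X^α` for `|α| = t`
(`α! • coeff α (L ^ t) = t! • ∏ X i ^ α i`: induction on `t`, or multinomial).  So `t! • ps K J f = ∑_α α! ps K J (coeff α (g α)) = t! • (∏ av)(∏ lm) ∑_α ps K J (coeff α (P I)) X^α = t! • (∏ av)(∏ lm) psY K J (P I)` (`P I` homogeneous of degree `t`). -/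
def Stmt_UEV : Prop :=
  ∀ (K : Type) [Field K] [CharZero K] (A : Type) [Fintype A] [DecidableEq A] (Λ J : Finset A)
    (w : A), w ∉ Λ → w ∈ J →
    (∀ (b t : ℕ) (P : Finset A → PY K A) (f : PX K A 3), 2 * b + t = Λ.card →
      (∀ I, (P I).IsHomogeneous t) → Th K w b t Λ P f → (Λ \ J).card = b →
      ps K J f = (∏ i ∈ Λ \ J, av K i) * (∏ j ∈ Λ ∩ J, lm K w j) * psY K J (P (Λ \ J))) ∧
    (∀ (b : ℕ) (f : PX K A 3), f ∈ IB K w (b + 1) Λ → (Λ \ J).card ≤ b → ps K J f = 0)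

/-- USB: the step from `I_b` to `I_(b+1)`.
Proof.  `t' := |Λ| - 2 b ≥ 1`, `t' = t + 1`.  URP: `P`, `h`.  For `I ⊆ Λ`, `|I| = b`, `J := insert w (Λ \ I)` (`Λ \ J = I`, `Λ ∩ J = Λ \ I`): `ps K J f = 0` (hypothesis) and `ps K J h = 0` (UEV (2)), so UEV (1) for `f - h` gives `psY K J (P I) = 0` (`av K i ≠ 0`, `lm K w j ≠ 0` as `j ≠ w`, domain).
UCB (if `b ≥ 1` then `t ≥ 1` and `2 b + 1 ≤ |Λ|` by hypothesis): `P I = ∑_{x ∈ insert w Λ} av K x * P' x I`.  UTX: `Th K w b (t+1) Λ (fun I => av K x * P' x I) (f_x)` with `f_x ∈ IB K w (b+1) Λ` (`f_w = 0`).  UWP (8), (7): `f - h = ∑ f_x ∈ IB K w (b+1) Λ`. -/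
def Stmt_USB : Prop :=
  ∀ (K : Type) [Field K] [CharZero K] (A : Type) [Fintype A] [DecidableEq A] (Λ : Finset A)
    (w : A) (b : ℕ) (f : PX K A 3), w ∉ Λ → ((b = 0 ∧ 1 ≤ Λ.card) ∨ 2 * b + 2 ≤ Λ.card) →
    f ∈ IB K w b Λ →
    (∀ I, I ⊆ Λ → I.card = b → ps K (insert w (Λ \ I)) f = 0) → f ∈ IB K w (b + 1) Λ

end Pool.Agent.VOP
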