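import Pool.Agent.VOP.DefsV
import Pool.Agent.VOP.DIV
import Pool.Agent.VOP.SYM
import Pool.Agent.VOP.DG

/-!
# The Ottaviani-Paoletti conjecture (MP_deb8da_ag): block V+L, statements of the modules

Definitions: `Pool.Agent.VOP.DefsV`.  Everything is elementary (section 5 of PAPER.md); `X`, `E` is a
graded module (operators `X i` on `W`, submodules `E k`), a chain with `p` letters of degree `δ` is an
alternating function `c : (Fin p → Mn v δ) → W`.
-/

namespace Pool.Agent.VOP

open MvPolynomial Pool.Agent.VSY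

/-! ## A. alternating functions -/

/-- MO.  The operators `mo X α`.
Proof: `mo X α` is the product over `List.finRange v` of the commuting `X i ^ α i` (`List.prod_map_mul` for commuting
factors: use `Commute` and induction on the list; for the last item induction on the list with partial sums). -/
def SV_MO : Prop :=
  ∀ (K : Type) [Field K] (v : ℕ) (W : Type) [AddCommGroup W] [Module K W]
    (X : Fin v → (W →ₗ[K] W)),
    (∀ w, mo X 0 w = w) ∧ (∀ i w, mo X (Pi.single i 1) w = X i w) ∧
    ((∀ i j, X i ∘ₗ X j = X j ∘ₗ X i) →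
      (∀ α i w, mo X α (X i w) = X i (mo X α w)) ∧
      (∀ α β w, mo X (α + β) w = mo X α (mo X β w))) ∧
    (∀ E : ℕ → Submodule K W, GrM X E → ∀ k α, ∀ x ∈ E k, mo X α x ∈ E (k + ∑ j, α j))

/-- NAT.  Linear maps which commute with the operators. -/
def SV_NAT : Prop :=
  ∀ (K : Type) [Field K] (v : ℕ) (W W' : Type) [AddCommGroup W] [Module K W] [AddCommGroup W']
    [Module K W'] (X : Fin v → (W →ₗ[K] W)) (X' : Fin v → (W' →ₗ[K] W')) (f : W →ₗ[K] W'),
    (∀ i w, f (X i w) = X' i (f w)) →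
    (∀ α w, f (mo X α w) = mo X' α (f w)) ∧
    (∀ (δ p : ℕ) (c : (Fin (p + 1) → Mn v δ) → W) (t : Fin p → Mn v δ),
      f (bdF X c t) = bdF X' (fun s => f (c s)) t) ∧
    (∀ (δ p : ℕ) (c : (Fin p → Mn v δ) → W), CycF X c → CycF X' fun s => f (c s))

/-- AL.  Alternating functions: linear operations, the boundary is linear and alternating.
Proof of the last item: `Fin.cons α (t ∘ σ) = Fin.cons α t ∘ Equiv.Perm.decomposeFin.symm (0, σ)`, a permutation of
the same sign. -/
def SV_AL : Prop :=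
  ∀ (K : Type) [Field K] (v : ℕ) (W W' : Type) [AddCommGroup W] [Module K W] [AddCommGroup W']
    [Module K W'] (X : Fin v → (W →ₗ[K] W)) (δ p : ℕ),
    (∀ c c' : (Fin p → Mn v δ) → W, AltF c → AltF c' →
      AltF (fun t => c t + c' t) ∧ AltF (fun t => c t - c' t)) ∧
    (∀ (c : (Fin p → Mn v δ) → W) (a : K), AltF c → AltF fun t => a • c t) ∧
    (∀ (c : (Fin p → Mn v δ) → W) (f : W →ₗ[K] W'), AltF c → AltF fun t => f (c t)) ∧
    (∀ (c c' : (Fin (p + 1) → Mn v δ) → W) (t : Fin p → Mn v δ),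
      bdF X (fun s => c s + c' s) t = bdF X c t + bdF X c' t ∧
      bdF X (fun s => c s - c' s) t = bdF X c t - bdF X c' t) ∧
    (∀ (c : (Fin (p + 1) → Mn v δ) → W) (a : K) (t : Fin p → Mn v δ),
      bdF X (fun s => a • c s) t = a • bdF X c t) ∧
    (∀ c : (Fin (p + 1) → Mn v δ) → W, AltF c → AltF fun t => bdF X c t)

/-- CYC.  For alternating functions a cycle is a function with boundary zero (at least one letter).
Proof: `Function.update t i α ∘ Equiv.swap 0 i` is `Fin.cons α t'` with `t'` independent of `α`, so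
`c (Function.update t i α) = ± c (Fin.cons α t')` with a sign independent of `α`; `i = 0` for the other direction. -/
def SV_CYC : Prop :=
  ∀ (K : Type) [Field K] (v : ℕ) (W : Type) [AddCommGroup W] [Module K W]
    (X : Fin v → (W →ₗ[K] W)) (δ p : ℕ) (c : (Fin (p + 1) → Mn v δ) → W), AltF c →
    (CycF X c ↔ ∀ t, bdF X c t = 0)

/-- BB.  The boundary of a boundary is zero.
Proof: `bdF X (bdF X y) t = ∑ α, ∑ β, X^α X^β y (β, α, t)`; exchanging `α` and `β` changes the sign (`X^α X^β = X^β X^α` by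
`mo X (α + β)`, MO), so twice the sum is zero. -/
def SV_BB : Prop :=
  ∀ (K : Type) [Field K] [CharZero K] (v : ℕ) (W : Type) [AddCommGroup W] [Module K W]
    (X : Fin v → (W →ₗ[K] W)) (δ p : ℕ) (y : (Fin (p + 1 + 1) → Mn v δ) → W),
    (∀ i j, X i ∘ₗ X j = X j ∘ₗ X i) → AltF y → ∀ t, bdF X (fun s => bdF X y s) t = 0

/-- ALL.  Alternating lifts.
Proof: choose lifts `C₀ t ∈ Y` and put `C t = (p!)⁻¹ • ∑ σ, sign σ • C₀ (t ∘ σ)`. -/
def SV_ALL : Prop :=
  ∀ (K : Type) [Field K] [CharZero K] (v : ℕ) (W W' : Type) [AddCommGroup W] [Module K W]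
    [AddCommGroup W'] [Module K W'] (f : W →ₗ[K] W') (Y : Submodule K W) (δ p : ℕ)
    (c : (Fin p → Mn v δ) → W'), AltF c → (∀ t, ∃ F ∈ Y, f F = c t) →
    ∃ C : (Fin p → Mn v δ) → W, AltF C ∧ (∀ t, C t ∈ Y) ∧ ∀ t, f (C t) = c t

/-! ## B. exactness -/

/-- HOM.  The homotopy: operators `D i` of degree `-1` with `D_i X_j = X_j D_i + δ_ij` and the Euler identity.
Proof.  The elements of `Mn v 1` are the `Pi.single i 1`; `mo X (Pi.single i 1) = X i` (MO), so write `t : Fin q → Fin v`.
Put `h c (t) = ∑ i : Fin (q + 1), (-1)^i • D_{t i} (c (i.removeNth t))` for an alternating cycle `c` (`q` letters) with values in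
`E (e + 1)`.  `h c` is alternating: it suffices to check the swaps of `i.castSucc` and `i.succ`
(`Equiv.Perm.mclosure_swap_castSucc_succ`); its values are in `E e`.  `bd (h c) (t) = ∑_a X_a (h c)(a, t) =
∑_a X_a D_a c(t) - ∑_i (-1)^i ∑_a X_a D_{t_i} c(a, t∖i)`, the first sum is `(e + 1) • c t`, and
`X_a D_{t_i} = D_{t_i} X_a - δ_{a,t_i}`: `∑_a D_{t_i} X_a c(a, t∖i) = 0` as `c` is a cycle, and `(-1)^i c(t_i, t∖i) = c t`.
So `bd (h c) = (e + 1 + q) • c`; divide.  (`q = 0`: `c` is an element of `E (e + 1)`, the same formula.) -/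
def SV_HOM : Prop :=
  ∀ (K : Type) [Field K] [CharZero K] (v : ℕ) (W : Type) [AddCommGroup W] [Module K W]
    (X D : Fin v → (W →ₗ[K] W)) (E : ℕ → Submodule K W),
    (∀ i j w, D i (X j w) = X j (D i w) + if i = j then w else 0) →
    (∀ k i, ∀ x ∈ E (k + 1), D i x ∈ E k) →
    (∀ k, ∀ x ∈ E k, ∑ j, X j (D j x) = (k : K) • x) → LK X E 0

/-- FRL.  The free module.  Proof of the second part: HOM with `D i (single α w) = α i • single (α - e_i) w`. -/
def SV_FRL : Prop :=
  ∀ (K : Type) [Field K] [CharZero K] (v : ℕ) (W : Type) [AddCommGroup W] [Module K W]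
    (Y : Submodule K W), GrM (frX K v W) (FE v Y) ∧ LK (frX K v W) (FE v Y) 0

/-- PFL.  Polynomials in the point `w`.  Proof of the second part: HOM with `D i = pderiv (w, i)`, which commutes with the
renamings by permutations of the points of `T` and `S`; Euler: `∑_j X(w,j) ∂_(w,j) f = k f` for `f` of degree `k` at `w`. -/
def SV_PFL : Prop :=
  ∀ (K : Type) [Field K] [CharZero K] (A : Type) [Fintype A] [DecidableEq A] (v : ℕ)
    (δ : A → ℕ) (T S : Finset A) (w : A), w ∉ T → w ∉ S →
    GrM (wX (K := K) w) (FS (v := v) δ T S w) ∧ LK (wX (K := K) w) (FS (v := v) δ T S w) 0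

/-- GEN.  A module with `LK X E m` is generated in degree `m` (above `m`); alternating lifts.
Proof.  Items 1, 2: `eps X (single α w) = mo X α w`, MO.  Item 3: induction on `k`: `k = m`: `single 0 x`; `x ∈ E (k + 1)`: `KE X E 1 0 k`
for the constant function `x` gives `x = ∑_α X^α y(α)`, `y(α) ∈ E k`, lift the `y(α)`.  Item 4: ALL. -/
def SV_GEN : Prop :=
  ∀ (K : Type) [Field K] [CharZero K] (v : ℕ) (W : Type) [AddCommGroup W] [Module K W]
    (X : Fin v → (W →ₗ[K] W)) (E : ℕ → Submodule K W) (m : ℕ), GrM X E →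
    (∀ i F, eps X (frX K v W i F) = X i (eps X F)) ∧
    (∀ j, ∀ F ∈ FE v (E m) j, eps X F ∈ E (m + j)) ∧
    (LK X E m → (∀ k, m ≤ k → ∀ x ∈ E k, ∃ F ∈ FE v (E m) (k - m), eps X F = x) ∧
      (∀ (δ p k : ℕ) (c : (Fin p → Mn v δ) → W), m ≤ k → AltF c → (∀ t, c t ∈ E k) →
        ∃ C : (Fin p → Mn v δ) → FR v W, AltF C ∧ (∀ t, C t ∈ FE v (E m) (k - m)) ∧
          ∀ t, eps X (C t) = c t))

/-- LA (Lemma A).  Proof.  Let `c` be an alternating cycle (`q` letters of degree 1) with values in `ER X E m (e + 1)`,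
`e ≥ m + 1`.  FRL: `c = bd y`, `y` with values in `FE v (E m) (e - m)` (`c t ∈ FE v (E m) (e + 1 - m)`).  `eps ∘ y` has values in `E e`,
is alternating, and a cycle: `bd (eps ∘ y) = eps ∘ c = 0` (NAT, CYC).  As `e = (e - 1) + 1`, `e - 1 ≥ m`: `LK X E m` gives
`eps ∘ y = bd y'`, `y'` with values in `E (e - 1)`; GEN: `y' = eps ∘ y''`, `y''` alternating with values in `FE v (E m) (e - 1 - m)`.
`y - bd y''` has values in `FE v (E m) (e - m)` and `eps (y - bd y'') = eps y - bd y' = 0`, and `bd (y - bd y'') = c` (BB). -/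
def SV_LA : Prop :=
  ∀ (K : Type) [Field K] [CharZero K] (v : ℕ) (W : Type) [AddCommGroup W] [Module K W]
    (X : Fin v → (W →ₗ[K] W)) (E : ℕ → Submodule K W) (m : ℕ), GrM X E → LK X E m →
    GrM (frX K v W) (ER X E m) ∧ LK (frX K v W) (ER X E m) (m + 1)

/-- COE.  Coefficients at the points `c i` (`c` injective).
Proof.  `co t` := `Finsupp.lsum` of: the monomial `m` goes to the monomial `m.filter (fun y => y.1 ∉ range c)` if
`m (c i, j) = t i j` for all `i`, `j`, and to `0` otherwise.  Items 1, 2, 3 on monomials.  Items 4, 5, 6 follow from 2 and 3 (uniqueness):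
write `f = ∑ t, mc c t * co t f`; `ren φ f = ∑ t, mc (φ ∘ c) t * ren φ (co t f)`.  In item 5 `mc (c ∘ σ) t = mc c (t ∘ σ⁻¹)`.  In item 6
`mc` becomes `(∏_(i' ≠ i) X(c i')^(t i')) X(w)^(t i)`; collect the terms with equal `t i'`, `i' ≠ i`: the coefficient
`∑ α, mo (wX w) α (co (update t i α) f)` vanishes (multiply with the monomial `X(c i)^β`, `β` of degree `d`, if you want to use item 3 with all
points `c`; if there is no such `β` there are no tuples).  Item 7: `wX w i ^ n = ` multiplication by `X(w,i)^n`. -/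
def SV_COE : Prop :=
  ∀ (K : Type) [Field K] (A : Type) [Fintype A] [DecidableEq A] (v p d : ℕ) (c : Fin p → A),
    Function.Injective c →
    ∃ co : (Fin p → Mn v d) → (PX K A v →ₗ[K] PX K A v),
      (∀ t δ f, Dg δ f → Dg (fun x => if ∃ i, c i = x then 0 else δ x) (co t f)) ∧
      (∀ δ f, Dg δ f → (∀ i, δ (c i) = d) →
        f = ∑ t : Fin p → Mn v d, mc c (fun i => (t i).1) * co t f) ∧
      (∀ t s δ g, Dg δ g → (∀ i, δ (c i) = 0) →
        co t (mc c (fun i => (s i).1) * g) = if t = s then g else 0) ∧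
      (∀ t δ f (φ : A → A), Dg δ f → (∀ i, δ (c i) = d) → (∀ i, φ (c i) = c i) →
        (∀ x, (∀ i, c i ≠ x) → ∀ i, c i ≠ φ x) → co t (ren φ f) = ren φ (co t f)) ∧
      (∀ t δ f (σ : Equiv.Perm (Fin p)) (π : Equiv.Perm A), Dg δ f → (∀ i, δ (c i) = d) →
        (∀ i, π (c i) = c (σ i)) → (∀ x, (∀ i, c i ≠ x) → π x = x) →
        co t (ren π f) = co (t ∘ σ) f) ∧
      (∀ t δ f (i : Fin p) (w : A), Dg δ f → (∀ i, δ (c i) = d) → (∀ i, c i ≠ w) →
        ren (mv (c i) w) f = 0 → ∑ α : Mn v d, mo (wX w) α.1 (co (Function.update t i α) f) = 0) ∧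
      (∀ (w : A) α (f : PX K A v), mo (wX w) α f = (∏ j, X (w, j) ^ α j) * f)

/-- FR1.  The vanishing for the free module of rank one.
Proof.  `ρ : FR v K → PX K (Option (Fin p)) v`, `ρ F = ∑_α F α ∏_j X(none,j)^(α j)`.  For an alternating cycle `c` with values in
`FE v ⊤ (e + δ)` put `f = ∑_t mc some t * ρ (c t)`: `ren (Option.map π) f = ∑_t mc some (t ∘ π⁻¹) * ρ (c t) = sign π • f`, degrees, and
`ren (mg i) f = ∑_(t without i) (∏_(i' ≠ i) X(i')^(t i')) ρ (∑_α mo α (c (update t i α))) = 0`, so `InZ (Fin p) v δ (e + δ) f`.  `Van` gives `g` on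
`Option (Option (Fin p))`, alternating in `Option (Fin p)`, degrees `δ`, `e` at `none`.  `y s` := the coefficients of `g` at the monomials
`∏_i X(c' i)^(s i)`, `c' 0 = some none`, `c' (i + 1) = some (some i)`: `y s α = coeff (..) g`; `y` is alternating (coefficients of `ren (Option.map π) g`), and
`ρ (bd y t)` is the coefficient of `ren join g = f` at `t` (collect terms).  Either directly with `coeff` or with COE. -/
def SV_FR1 : Prop :=
  ∀ (K : Type) [Field K] [CharZero K] (v δ p e : ℕ), Van K v δ p (e + δ) →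
    KE (frX K v K) (FE v (⊤ : Submodule K K)) δ p e

/-- FR2.  The same with coefficients in `Y`.
Proof.  `c` has finitely many values (`Mn v δ` is finite), each with finitely many coefficients in `Y`; let `Y'` be their span, finite-dimensional, with a basis
`b_1 … b_n` (`Module.finBasis`).  `c t = ∑_i ins (b_i) (c_i t)`, `ins b : FR v K → FR v W` (`Finsupp.mapRange.linearMap` of `a ↦ a • b`), `c_i t α` = the `i`-th
coordinate of `c t α`: alternating cycles (the coordinate is linear; NAT-like: `Finsupp.mapRange.linearMap` of a linear map commutes with `frX`).  Apply the hypothesis to each `c_i`, `y = ∑ ins (b_i) (y_i)`. -/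
def SV_FR2 : Prop :=
  ∀ (K : Type) [Field K] [CharZero K] (v δ p e : ℕ),
    KE (frX K v K) (FE v (⊤ : Submodule K K)) δ p e →
    ∀ (W : Type) [AddCommGroup W] [Module K W] (Y : Submodule K W),
      KE (frX K v W) (FE v Y) δ p e

/-- LB (Lemma B).  Proof: induction on `p`, for all `W`, `X`, `E`, `m`, `e`.  Let `c` be an alternating cycle (`p` letters of degree `δ`) with values in
`E (e + δ)`.  GEN (`e + δ ≥ m`): `c = eps ∘ c₀`, `c₀` alternating with values in `FE v (E m) (e + δ - m)`.
`p = 0`: the exactness of the free module (hypothesis with `q = 0`, level `e - m`): `c₀ = bd h`, `c = bd (eps ∘ h)`.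
`p = p' + 1`: `bd c₀` is alternating, a cycle (if `p' ≥ 1`: BB, CYC; if `p' = 0` no condition), values in `ER X E m (e + δ + δ)` because
`eps (bd c₀) = bd c = 0`.  Induction for `frX`, `ER X E m`, `m + 1`, `p'`, `e + δ` (LA; `m + 1 ≤ e + δ`; the exponents:
`(e + δ) - (m + 1) + q (δ - 1) = e - m + (q + 1) (δ - 1)`): `bd c₀ = bd z₁`, `z₁` alternating with values in `ER X E m (e + δ)`.  `c₀ - z₁` is an alternating cycle with values
in `FE v (E m) (e + δ - m)`, so `= bd h`, `h` with values in `FE v (E m) (e - m)`.  `c = eps (c₀ - z₁) = bd (eps ∘ h)`. -/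
def SV_LB : Prop :=
  ∀ (K : Type) [Field K] [CharZero K] (v δ p : ℕ), 1 ≤ δ →
    ∀ (W : Type) [AddCommGroup W] [Module K W] (X : Fin v → (W →ₗ[K] W)) (E : ℕ → Submodule K W)
      (m e : ℕ), GrM X E → LK X E m → m ≤ e →
      (∀ q ≤ p, ∀ (W' : Type) [AddCommGroup W'] [Module K W'] (Y : Submodule K W'),
        KE (frX K v W') (FE v Y) δ (p - q) (e - m + q * (δ - 1))) →
      KE X E δ p e

/-! ## C. points -/

/-- MVL.  A point `b ∈ C` is moved to `w`.
Proofs.  (1) degrees: DG (`ren_push`); symmetries: `mv b w` commutes with the swaps of the other points.  (2) in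
`ren (mv u w) (ren (mv b w) f)` the points `b`, `u` both go to `w`, so composing with `swap b u` changes nothing, and changes the sign: it is zero.
(3) the two maps are equal.  (4) `ren (mv u w) f = - ren (mv u w) (ren (swap b u) f)` and `mv u w ∘ swap b u = (move u to b) ∘ mv b w` on the points. -/
def SV_MVL : Prop :=
  ∀ (K : Type) [Field K] [CharZero K] (A : Type) [Fintype A] [DecidableEq A] (v : ℕ)
    (δ : A → ℕ) (T S C : Finset A) (w b : A) (f : PX K A v), Cf T S C w → b ∈ C → Cg δ T S C f →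
    Cg (Function.update (Function.update δ b 0) w (δ w + δ b)) T S (C.erase b) (ren (mv b w) f) ∧
    (∀ u ∈ C.erase b, ren (mv u w) (ren (mv b w) f) = 0) ∧
    (∀ u ∈ S, ren (mv u w) (ren (mv b w) f) = ren (mv b w) (ren (mv u w) f)) ∧
    (ren (mv b w) f = 0 → ∀ u ∈ C, ren (mv u w) f = 0)

/-- RNB.  The new point becomes `b ∈ C`, a point of degree `0` before.
Proofs.  Degrees: DG (`ren_push`; the point `some b` has degree `0`).  `ren (mv b w) (rn b g) = rn w g` and the symmetries: the maps agree at all points of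
non-zero degree (DG `ren_eq`: the exception is `some b`, of degree `0`). -/
def SV_RNB : Prop :=
  ∀ (K : Type) [Field K] [CharZero K] (A : Type) [Fintype A] [DecidableEq A] (v : ℕ)
    (δ : A → ℕ) (T S C : Finset A) (w b : A) (e : ℕ) (g : PX K (Option A) v), Cf T S C w →
    b ∈ C → Cg (ext (Function.update δ b 0) (δ b) w e) (sm T) (sm S) (isn (C.erase b)) g →
    Cg (Function.update δ w e) T S C (rn b g) ∧ ren (mv b w) (rn b g) = rn w g ∧
    (∀ u ∈ S, ren (mv (some u) (some w)) g = 0 → ren (mv u w) (rn b g) = 0)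

/-- LC (Lemma C).  Proof.  Induction on `s`, for all data.  `ES` for `S = ∅` is `FS`: PFL.  `s = s' + 1`: let `b ∈ S`, `δ' = update δ b 0`, `S' = S.erase b`,
`∂ := ren (mv b w)`, which commutes with `wX w i` (`i`).
 (i) `f ∈ FS δ T S w k → ∂ f ∈ ES δ' T S' w (k + N)` (MVL with the roles `S := ∅`, `C := S`; `update (update δ w k)`: mind the order of the updates).
 (ii) `f ∈ FS δ T S w k`, `∂ f = 0` → `f ∈ ES δ T S w k` (MVL (4)); `f ∈ ES δ T S w k → ∂ f = 0`.
 (iii) `g ∈ ES δ' T S' w (e' + N)`, `m ≤ e' + 1` → there is `y ∈ FS δ T S w e'` with `∂ y = g` (`PV v N s' e'` for `T := T, S := ∅, C := S'`; RNB).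
Let `c` be an alternating cycle (`q` letters of degree 1) with values in `ES δ T S w (e + 1)`, `m ≤ e`.  PFL: `c = bd y`, `y` with values in `FS δ T S w e`.
`∂ ∘ y` is alternating, a cycle (`bd (∂ y) = ∂ c = 0`, NAT, CYC), with values in `ES δ' T S' w (e + N)`, `e + N = (e + N - 1) + 1`, `e + N - 1 ≥ m`: induction:
`∂ ∘ y = bd y'`, `y'` with values in `ES δ' T S' w (e + N - 1)`, `e + N - 1 = (e - 1) + N`, `m ≤ (e - 1) + 1`: (iii) and ALL: `y' = ∂ ∘ y''`, `y''` alternating with values in
`FS δ T S w (e - 1)`.  `y - bd y''` has values in `FS δ T S w e`, `∂ (y - bd y'') = ∂ y - bd y' = 0`, so it has values in `ES δ T S w e` (ii), and `bd (y - bd y'') = c` (BB). -/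
def SV_LC : Prop :=
  ∀ (K : Type) [Field K] [CharZero K] (v N m s : ℕ), 1 ≤ N → 1 ≤ m →
    (∀ p' e', p' < s → m ≤ e' + 1 → PV K v N p' e') →
    ∀ (A : Type) [Fintype A] [DecidableEq A] (δ : A → ℕ) (T S : Finset A) (w : A),
      Disjoint T S → w ∉ T → w ∉ S → S.card = s → (∀ u ∈ S, δ u = N) →
      GrM (wX (K := K) w) (ES (v := v) δ T S w) ∧ LK (wX (K := K) w) (ES (v := v) δ T S w) m

/-- BRM.  From tuples of monomials to polynomials.
Proof.  Let `c : Fin p → A` enumerate `C` (`C.equivFin` or `Finset.orderIsoOfFin`-like), `δ₀` = `δ` outside `C`, `0` on `C`, `co` from COE.  `F t := co t f`: values in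
`ES δ₀ T S w (e + d)` (COE 1, 4: `co t` commutes with the swaps of points of `T`, `S` and with `mv u w`, `u ∈ S`), alternating (COE 5, `Al C f`: for a permutation `σ` of `Fin p` take the permutation `π` of
`A` with `π (c i) = c (σ i)`, of the same sign, SYM), a cycle (COE 6).  `KE`: `F = bd y`, `y` alternating with values in `ES δ₀ T S w e`.
`g := ∑ s : Fin (p + 1) → Mn v d, mc c' s * ren some (y s)`, `c' 0 = none`, `c' (i + 1) = some (c i)`.  Symmetric in `sm T`, alternating in `sm S`, a cycle for `sm S` (`mc c' s` does not contain these points), degrees;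
alternating in `isn C`: for a swap of two points of `isn C`, `c' i`, `c' j`: `ren (swap) (mc c' s) = mc c' (s ∘ swap i j)`.  `rn w g = ∑ t, mc c t * ∑ α, X(w)^α y (cons α t) = ∑ t, mc c t * bdF y t = f`. -/
def SV_BRM : Prop :=
  ∀ (K : Type) [Field K] [CharZero K] (v N d s p e : ℕ),
    (∀ (A : Type) [Fintype A] [DecidableEq A] (δ : A → ℕ) (T S : Finset A) (w : A),
      Disjoint T S → w ∉ T → w ∉ S → S.card = s → (∀ u ∈ S, δ u = N) →
      KE (wX (K := K) w) (ES (v := v) δ T S w) d p e) →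
    MVB K v N d s p e

/-- VLF.  `(LIFT)` from `PV` and `MVB`.
Proof.  Let `f` be as in `LIFT`.  S-part: if `S` is empty put `ρ₁ = 0`.  Otherwise let `b ∈ S`: `ren (mv b w) f = lin x w * q`, `q` has degrees `update (update δ b 0) w (e + N)` (DIV (2): degree
`e + 1 + N` at `w` for the product), is symmetric in `T`, alternating in `C` and in `S.erase b` (cancel `lin x w`, DIV (1)), and `ren (mv u w) q = 0` for `u ∈ S.erase b` (MVL (2), roles of `S` and `C` exchanged; `ren (mv u w)` fixes `lin x w`; cancel).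
`PV K v N (s - 1) e` (active set `C := S.erase b`, `S := C`) gives `g`, `rn w g = q`; `ρ₁ := rn b g` (RNB, roles exchanged): `Cg (update δ w e) T S C ρ₁`, `ren (mv b w) ρ₁ = q`.  `f₁ := f - lin x w * ρ₁`: degrees `δ`, same symmetries, `ren (mv u w) f₁ = 0` for
`u ∈ S` (MVL (4)), and `lin x w ∣ ren (mv u w) f₁` for `u ∈ C`.
C-part: if `C` is empty put `ρ₂ = 0`.  Otherwise let `c ∈ C`: `ren (mv c w) f₁ = lin x w * q'`, `q'` has degree `e + d` at `w`, `0` at `c`, is symmetric in `T`, alternating in `S`, a cycle for `S` (MVL (3)), alternating in `C.erase c` and a cycle for it.  `MVB K v N d s (l - 1) e`: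
`g'`, `ρ₂ := rn c g'` (RNB, with the last item).  `ρ := ρ₁ + ρ₂`. -/
def SV_VLF : Prop :=
  ∀ (K : Type) [Field K] [CharZero K] (v N d s l e : ℕ), 1 ≤ N → 1 ≤ d →
    (1 ≤ s → PV K v N (s - 1) e) → (1 ≤ l → MVB K v N d s (l - 1) e) → LIFT K v N d s l e

/-- PVM (`Stmt_PV`).  Proof.  `PAR_thm : Stmt_PAR` gives `PVan K v d p (e + d)`.  Let `f` be as in `PV`; `f = 0`: `g = 0`.  `f ≠ 0`: `PVan` with `S := C`, the same `w` (`Al C f` gives the sign rule for all permutations of `C`: SYM (2)); the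
result `G` has degrees `ext δ d w e` (the clause on parameters with `e := δ x`), is alternating in `isn C` (swaps), symmetric in `sm T` (the equivariance clause for `σ = swap x y`, `x, y ∈ T`; `Option.map (swap x y) = swap (some x) (some y)`), `rn w G = f`.
`δ` is constant on `S` (for `x, y ∈ S` the degree of `ren (swap x y) f = - f ≠ 0` at `y` is `δ x`: DG `unique`).  Put `g := (|S|!)⁻¹ • alt (sm S) G` (SYM: alternating in `sm S`, keeps the symmetry in `sm T`, the alternation in `isn C`, the degrees);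
`rn w (alt (sm S) G) = alt S (rn w G)` (permutations in `pS (sm S)` are the `Equiv.optionCongr`-extensions of those in `pS S`) `= |S|! • f`. -/
def SV_PVM : Prop := Stmt_PV

end Pool.Agent.VOP
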