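import Pool.Agent.VOP.StmtsV
import Pool.Agent.VOP.StmtsS

/-!
# MP_deb8da_ag, `b > 0`, weight `q = 2`: the statements of the new modules

Notation: `N = M + 1`, `d = M + 2 = N + 1`, `β = b + 1`, `R = 2 N + β = 2 M + 2 + β`; the theorem is the vanishing
of `K_p[R + 1]` for letters of degree `d`.  Complete mathematics: `Pool/Agent/VOP/PAPER2.md`.  The definitions are in
`Pool/Agent/VOP/Defs.lean` (points `w`, `T`, `S`, `C`; `none` is a new point).
-/

namespace Pool.Agent.VOP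

open MvPolynomial Pool.Agent.VSY

/-- LEMT (Lemma T): if the Koszul homology (letters `C`) of the module of `S`-cycles vanishes then `CLAIM(l)` holds.
PROOF.  Let `f` be as in `CL` (`S.card = s`, `C.card = l`).  `MVB` for `δ := dgc M T S C w (2M+2+β)`, `e := M + β`
(`e + (M + 2) = 2M+2+β`) gives `g : PX K (Option A) v` with `Cg (ext δ (M+2) w (M+β)) (sm T) (sm S) (isn C) g`,
`Cy (sm S) (some w) g`, `rn w g = f`.  Put `h := (∏ p ∈ S, lin x (some p)) * g`.  Its degrees are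
`dgc M (sm T) ∅ (isn (S ∪ C)) (some w) (M + β)` (`M + 2` on `isn (S ∪ C)`; as in OMG, see `Pool/Agent/VOP/OMG.lean`), so GD2 (configuration
`(T, S ∪ C)`) says that `rn w h - ∑ c ∈ S ∪ C, ren φ_c h`, `φ_c o := (Equiv.swap none (some c) o).getD w`, is good.
`rn w h = xS x S * f`.  For `c ∈ C`: `ren (swap none (some c)) h = - h` (the product does not contain these points, `g` is alternating in `isn C`),
`φ_c = (fun o => o.getD w) ∘ swap`, so `ren φ_c h = - rn w h`.  For `c ∈ S`: `φ_c` sends `none` to `c`, `some c` to `w`, fixes the others, so `φ_c = χ ∘ mv (some c) (some w)`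
with `χ none = c`, `χ (some y) = y`, and `ren (mv (some c) (some w)) g = 0` (`Cy`): `ren φ_c h = 0`.
So `(l + 1) • (xS x S * f)` is good, and GD0 (division by a non-zero scalar). -/
def Stmt_LEMT : Prop :=
  ∀ (K : Type) [Field K] [CharZero K] (v M β t s l : ℕ), MVB K v (M + 1) (M + 2) s l (M + β) →
    CL K v M β t (s + l) l

/-- MVT: the inductive step for `MVB`, letters of degree `d = N + 1`.
PROOF.  Let `A δ T S C w f` be as in `MVB` (`S.card = s`, `C.card = p`, `δ w = e + (N + 1)`).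
(1) `PV K v N s (e + 1)` with `(T, S, C) := (T, C, S)` (active letters `S`; `e + 1 + N = δ w`): `Ω : PX K (Option A) v` with
`Cg (ext δ N w (e + 1)) (sm T) (sm C) (isn S) Ω`, `rn w Ω = f`.
(2) CLAIM: there is `Ω'` with `Cg (ext δ N w (e + 1)) (sm T) (isn S) (sm C) Ω'`, `ren (mv (some c) (some w)) (Ω - Ω') = 0` for all `c ∈ C`, and
`rn w Ω' = 0`.  If `C = ∅` put `Ω' = 0`.  Otherwise let `c₀ ∈ C`, `κ := ren (mv (some c₀) (some w)) Ω`.  `SV_MVL` (on `Option A`, with
`S := isn S`, `C := sm C`, `b := some c₀`, `w := some w`): `κ` has the degrees `update (update (ext δ N w (e+1)) (some c₀) 0) (some w) (e + 1 + (N + 1))`, is symmetric in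
`sm T`, alternating in `isn S` and `(sm C).erase (some c₀)`, and is a cycle for `(sm C).erase (some c₀)`.
It is a cycle for `isn S`: `ren (mv none (some w)) κ = ren (mv (some c₀) (some w)) (ren (mv none (some w)) Ω)`, and `ren (mv none (some w)) Ω = ren some (rn w Ω) = ren some f`, so it is
`ren some (ren (mv c₀ w) f) = 0`; for the other points of `isn S` use the last clause of `SV_MVL` (with the roles of the two alternating sets exchanged, `b := none`).
`MVB K v N (N+1) (s+1) (p-1) (e+1)` on `Option A` (`S := isn S`, `C := (sm C).erase (some c₀)`): `Y : PX K (Option (Option A)) v`, a cycle for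
`sm (isn S)`, `rn (some w) Y = κ`.  `SV_RNB` (on `Option A`, `S := isn S`, `C := sm C`, `b := some c₀`, `e := e + 1`): `Ω' := rn (some c₀) Y` has the degrees
`update (ext δ N w (e+1)) (some w) (e+1) = ext δ N w (e+1)`, the same symmetries as `Ω`, `ren (mv (some c₀) (some w)) Ω' = κ`, and is a cycle for `isn S`.  So
`ren (mv (some c₀) (some w)) (Ω - Ω') = 0`, and `SV_MVL` (last clause) gives it for all `c ∈ sm C`.  `rn w Ω' = rn w (ren (mv none (some w)) Ω') = 0`.
(3) `PV K v (N+1) p (e - N)` on `Option A`, active letters `sm C`, for `Ω - Ω'` (degree `e + 1 = (e - N) + (N + 1)` at `some w`):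
`Y' : PX K (Option (Option A)) v`, `Cg (ext (ext δ N w (e+1)) (N+1) (some w) (e-N)) (sm (sm T)) (sm (isn S)) (isn (sm C)) Y'`, `rn (some w) Y' = Ω - Ω'`.
(4) `g := ren (Option.map fun o => o.getD w) Y'` (the point `some none` is moved to `w`): degrees `N + 1` at `none`, `(e - N) + N = e` at `some w`; symmetric in
`sm T`, alternating in `sm S`, in `isn C`; `Cy (sm S) (some w) g`: two points of `sm (isn S)` go to `w` (`char ≠ 2`);
`rn w g = rn w (rn (some w) Y') = rn w (Ω - Ω') = f - 0` (the two maps `Option (Option A) → A` are equal). -/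
def Stmt_MVT : Prop :=
  ∀ (K : Type) [Field K] [CharZero K] (v N s p e : ℕ), 1 ≤ N → N ≤ e → PV K v N s (e + 1) →
    PV K v (N + 1) p (e - N) → (p = 0 ∨ MVB K v N (N + 1) (s + 1) (p - 1) (e + 1)) →
    MVB K v N (N + 1) s p e

/-- MVBI: `MVB` from the vanishing of Koszul homology.
PROOF.  Induction on `l`, for all `s`, `e`: MVT; `PV K v N s (e+1)` from `Stmt_PV` and the hypothesis for `i = 0` (`e + 1 + N`), `PV K v (N+1) l (e - N)` from
`Stmt_PV` and the hypothesis for `i = 0` (`(e - N) + (N + 1) = e + 1`); for `l ≥ 1` the inductive hypothesis for `(s + 1, l - 1, e + 1)`, `i` becomes `i + 1`. -/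
def Stmt_MVBI : Prop :=
  ∀ (K : Type) [Field K] [CharZero K] (v N s l e : ℕ), 1 ≤ N → N ≤ e →
    (∀ i ≤ l, Van K v N (s + i) (e + 1 + i + N)) →
    (∀ i ≤ l, Van K v (N + 1) (l - i) (e + i + 1)) →
    MVB K v N (N + 1) s l e

/-- PPV: `PP` from the vanishing of `K_j[R]`.
PROOF.  `f` with `Zc M T ∅ C w (2M+2+β) f`.  `PV K v (M+2) j (M+β)` (`δ := dgc M T ∅ C w (2M+2+β)`, `T := T`, `S := ∅`, `C := C`; `M + β + (M + 2) = 2M+2+β`) gives
`g`, `rn w g = f`, `Cg (ext δ (M+2) w (M+β)) (sm T) (sm ∅) (isn C) g`; this `ext` is `dgc M (sm T) ∅ (isn C) (some w) (M+β)` (compare `ALPM.ext_eq` in `VOP/ALPM.lean`).  `TT` with `G = 0`. -/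
def Stmt_PPV : Prop :=
  ∀ (K : Type) [Field K] [CharZero K] (v M β t j : ℕ), PV K v (M + 2) j (M + β) →
    PP K v M β t j

/-- PPM2: the main theorem with an alternative (Lemma T) for every `l`.
PROOF.  Copy `PPM_thm` (`Pool/Agent/VOP/PPM.lean`) with the additional argument `Stmt_LEMT`: `CL K v M β t j l` by induction on `l ≤ j`.  If the first alternative
holds: LEMT for `s := j - l` (`j - l + l = j`).  Otherwise exactly the proof in `PPM.lean`: it uses `Van` for `s = j - l`, `LIFT` for `(s', l)`, `s' ≤ s`, `LIFT` for `(s, l - 1)`,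
the `HG` for this `l`, `PP (t + 1) (j - 1)` and `CL` for `l - 1`. -/
def Stmt_PPM2 : Prop :=
  ∀ (K : Type) [Field K] [LinearOrder K] [IsStrictOrderedRing K] (v M β t j : ℕ), 1 ≤ v →
    (∀ l ≤ j, MVB K v (M + 1) (M + 2) (j - l) l (M + β) ∨
      (Van K v (M + 1) (j - l) (2 * M + 1 + β) ∧
        (∀ s ≤ j - l, LIFT K v (M + 1) (M + 2) s l (2 * M + 1 + β)) ∧
        (1 ≤ l → LIFT K v (M + 1) (M + 2) (j - l) (l - 1) (2 * M + 1 + β)) ∧
        (∀ k g, 1 ≤ k → k ≤ t + 1 → g + l ≤ j →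
          HG K v (M + 1) (k + g + l) (M + 1 + β) (t + 1 - k + (j - l - g) + (j - l))))) →
    (j = 0 ∨ PP K v M β (t + 1) (j - 1)) →
    PP K v M β t j

/-- STEP: `K_p[R + 1] = 0` from smaller cases, `R + 1 = 2M + 3 + β`, `β ≥ 1`.
The hypotheses: (1) three variables; (2) smaller `p`; (3) `K^{(N)}_s[R] = 0` for `s ≤ p - 3`; (4) `K^{(N)}_s[R - 1] = 0` for `s ≤ p - 3 - β`;
(5) `K_{p'}[R] = 0` for `p' ≤ q`; (6) `p ≤ q + N + 4`; (7) highest weight gluing.
PROOF: see `PAPER2.md`, section 4. -/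
def Stmt_STEP : Prop :=
  ∀ (K : Type) [Field K] [LinearOrder K] [IsStrictOrderedRing K] (M β p q : ℕ), 1 ≤ β →
    Van K 3 (M + 2) p (2 * M + 3 + β) →
    (∀ v p', p' < p → Van K v (M + 2) p' (2 * M + 3 + β)) →
    (∀ v s, s + 3 ≤ p → Van K v (M + 1) s (2 * M + 2 + β)) →
    (∀ v s, s + 3 + β ≤ p → Van K v (M + 1) s (2 * M + 1 + β)) →
    (∀ v p', p' ≤ q → Van K v (M + 2) p' (2 * M + 2 + β)) → p ≤ q + M + 5 →
    (∀ v t κ D, 3 ≤ t → v ≤ t + 1 → t + q < p → D + κ + β + t ≤ 2 * p + 1 →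
      HG K v (M + 1) κ (M + 1 + β) D) →
    ∀ v, Van K v (M + 2) p (2 * M + 3 + β)

/-- HGC: highest weight gluing for large `N`.
PROOF.  Claim, for fixed `e₀`: for all `e`, `κ`, `D` with `D ≤ C e₀` and `κ ≤ e + 1 + (C - 1) (2 e - e₀)` (natural subtraction): `HG K v N κ e D`.
Induction on `e`, then on `κ`.  If `κ ≤ e + 1`: HG0.  Otherwise `2 e ≥ e₀ + 1`, `κ ≥ e + 2`; HGS: let `ρ ≥ 1`, `κ N + e ≤ ρ D`.
The first family `(κ - ρ, e, D - 1)`: inductive hypothesis (`κ - ρ < κ`).  The second `(κ + 1 - ρ, e - 1, D - 1)`: `ρ C e₀ ≥ ρ D ≥ (e + 2) N ≥ (e₀ / 2) 4 C²`, so `ρ ≥ 2 C`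
(`e₀ ≥ 1`, as `D ≥ 1`), and `κ + 1 - ρ ≤ e + (C - 1)(2 e - e₀) - 2 (C - 1) ≤ (e - 1) + 1 + (C - 1) (2 (e - 1) - e₀)`.
Apply the claim for `e₀ = e` (`κ + D ≤ C e`; if `κ = 0` or so HG0). -/
def Stmt_HGC : Prop :=
  ∀ (K : Type) [Field K] [LinearOrder K] [IsStrictOrderedRing K] (v N κ e D C : ℕ), 1 ≤ C →
    4 * C * C ≤ N → κ + D ≤ C * e → HG K v N κ e D

/-- The recursion for HGF. -/
def FF (C : ℕ) : ℕ → ℕ
  | 0 => 1
  | e + 1 => max (e + 2) (FF C e + FF C e / (C - 1))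

/-- HGF: highest weight gluing if `D < C N`.
PROOF.  Induction on `e`, then on `κ` (for all `D`).  `κ ≤ e + 1`: HG0.  Otherwise `e ≥ 1` (`FF C 0 = 1`), `κ ≤ FF C (e-1) + FF C (e-1) / (C - 1)`; HGS: `ρ D ≥ κ N + e`, `D < C N`, so `κ < ρ C`, `ρ ≥ κ / C + 1`.
First family: `κ - ρ < κ`.  Second: `κ + 1 - ρ ≤ κ - κ / C ≤ FF C (e - 1)`: if `κ = C a + r`, `r < C`, and `F := FF C (e-1)`: suppose `F < κ - a = (C-1) a + r`, i.e. `F ≤ (C-1) a + r - 1`; then
`F / (C-1) ≤ a` if `r ≤ C - 1`, so `κ ≤ F + a ≤ (C - 1) a + r - 1 + a = κ - 1`, a contradiction. -/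
def Stmt_HGF : Prop :=
  ∀ (K : Type) [Field K] [LinearOrder K] [IsStrictOrderedRing K] (v N C : ℕ), 1 ≤ N → 2 ≤ C →
    ∀ e κ D, D < C * N → κ ≤ FF C e → HG K v N κ e D

/-- The recursion for HGT (with at most `v` rows). -/
def GR (N v : ℕ) : ℕ → ℕ → ℕ
  | 0, _ => 1
  | e + 1, D =>
    if D ≤ N then 100000 else
      if v * D < (max (e + 2) ((e + GR N v e (D - 1) * D) / (D - N)) + 1) * N + (e + 1) then 100000
      else max (e + 2) ((e + GR N v e (D - 1) * D) / (D - N))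

/-- The recursion for HGT (no bound for the number of rows). -/
def GN (N : ℕ) : ℕ → ℕ → ℕ
  | 0, _ => 1
  | e + 1, D =>
    if D ≤ N then 100000 else max (e + 2) ((e + GN N e (D - 1) * D) / (D - N))

/-- HGT: highest weight gluing from the recursions.
PROOF.  Both parts: induction on `e`, for all `D`, then on `κ`.  `κ ≤ e + 1`: HG0; otherwise `e = e' + 1`.  `D ≤ N`: HGS, `ρ D ≥ κ N + e`, `e ≥ 1` imply `ρ > κ`, so only `ρ = κ + 1`, the family `(0, e - 1, D - 1)`: HG0.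
`D > N`: HGS; first family: `κ - ρ < κ`, and `HG` is monotone in `D` (clear: `ν j ≤ D - 1 ≤ D`).  Second family `(κ + 1 - ρ, e', D - 1)`, `f := GN N e' (D - 1)` (or `GR`): we need `κ + 1 - ρ ≤ f`.  Otherwise `ρ ≤ κ - f`,
`κ N + e ≤ (κ - f) D` (so `f ≤ κ`), `κ (D - N) ≥ e' + 1 + f D`, but `κ ≤ (e' + f D) / (D - N)`: a contradiction.  (`κ ≤ max (e + 1) ...` and `κ > e + 1`.)
With rows (`GR`): let `x` be the maximum; for `κ ≤ x` as before; if `v D < (x + 1) N + e` then for `κ > x` there is no `ρ ≤ v` with `κ N + e ≤ ρ D`. -/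
def Stmt_HGT : Prop :=
  ∀ (K : Type) [Field K] [LinearOrder K] [IsStrictOrderedRing K] (v N : ℕ), 1 ≤ N →
    (∀ e D κ, κ ≤ GN N e D → HG K v N κ e D) ∧
    (∀ v', v ≤ v' → ∀ e D κ, κ ≤ GR N v' e D → HG K v N κ e D)

end Pool.Agent.VOP
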