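import Pool.Agent.VOP.StmtsT
import Pool.Agent.VSY.CAPS

/-!
# TCB: the Capelli element as an alternating sum
-/

set_option autoImplicit false

namespace Pool.Agent.VOP

open MvPolynomial Pool.Agent.VSY

namespace TCB

variable {K : Type} [Field K]

/-- The terms of the Capelli element. -/
noncomputable def TT (v q : ℕ) (c : SA K (Option (QV v q)) (v + 1) (v + 1)) (t : Fin (v + 1) → Option (QV v q)) :
    PX K (Option (QV v q)) (v + 1) :=
  (∏ i, X (t i, i)) * c (sgl K t)

/-- The orbit map. -/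
def FF (v q : ℕ) (g : Equiv.Perm (QV v q) × Equiv.Perm (Fin (v + 1))) : Fin (v + 1) → Option (QV v q) :=
  Option.map g.1 ∘ qv v q ∘ g.2

theorem zero_smul_zsmul_sq (v q : ℕ) (s : ℤˣ) (f : PX K (Option (QV v q)) (v + 1)) :
    (s : ℤ) • ((s : ℤ) • f) = f := by
  rw [smul_smul]
  rcases Int.units_eq_one_or s with h | h <;> simp [h]

theorem c_map (v q : ℕ) (c : SA K (Option (QV v q)) (v + 1) (v + 1))
    (hc : ∀ π : Equiv.Perm (QV v q),
      push (Option.map π) c = ((Equiv.Perm.sign π : ℤˣ) : ℤ) • c)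
    (π : Equiv.Perm (QV v q)) (s : Fin (v + 1) → Option (QV v q)) :
    c (sgl K (Option.map π ∘ s)) =
      ((Equiv.Perm.sign π : ℤˣ) : ℤ) • ren (Option.map π) (c (sgl K s)) := by
  have hinj : Function.Injective (Option.map π : Option (QV v q) → Option (QV v q)) :=
    Option.map_injective π.injective
  have h1 : push (Option.map π) c (sgl K (Option.map π ∘ s)) = ren (Option.map π) (c (sgl K s)) := by
    rw [push_sgl]
    have : (Finset.univ.filter fun s' : Fin (v + 1) → Option (QV v q) =>
        Option.map π ∘ s' = Option.map π ∘ s) = {s} := by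
      ext s'
      simp only [Finset.mem_filter, Finset.mem_univ, true_and, Finset.mem_singleton]
      constructor
      · intro h
        funext i
        exact hinj (congrFun h i)
      · intro h
        rw [h]
    rw [this, Finset.sum_singleton]
  rw [hc] at h1
  rw [← h1, AlternatingMap.smul_apply, zero_smul_zsmul_sq]

theorem TT_FF (v q : ℕ) (c : SA K (Option (QV v q)) (v + 1) (v + 1))
    (hc : ∀ π : Equiv.Perm (QV v q),
      push (Option.map π) c = ((Equiv.Perm.sign π : ℤˣ) : ℤ) • c)
    (π : Equiv.Perm (QV v q)) (σ : Equiv.Perm (Fin (v + 1))) :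
    TT v q c (FF v q (π, σ)) = ((Equiv.Perm.sign π : ℤˣ) : ℤ) • ren (Option.map π)
      (((Equiv.Perm.sign σ : ℤˣ) : ℤ) • ((∏ i, X (qv v q (σ i), i)) * c (sgl K (qv v q)))) := by
  have h1 : c (sgl K (FF v q (π, σ))) = ((Equiv.Perm.sign σ : ℤˣ) : ℤ) •
      ((Equiv.Perm.sign π : ℤˣ) : ℤ) • ren (Option.map π) (c (sgl K (qv v q))) := by
    rw [← c_map v q c hc, ← sgl_perm]
    rfl
  rw [TT, h1, map_zsmul, map_mul, map_prod]
  simp only [ren_X, FF, Function.comp_apply]
  rw [mul_smul_comm, mul_smul_comm, smul_comm]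

theorem sum_FF (v q : ℕ) (c : SA K (Option (QV v q)) (v + 1) (v + 1))
    (hc : ∀ π : Equiv.Perm (QV v q),
      push (Option.map π) c = ((Equiv.Perm.sign π : ℤˣ) : ℤ) • c) :
    ∑ g, TT v q c (FF v q g) = ∑ π : Equiv.Perm (QV v q),
      ((Equiv.Perm.sign π : ℤˣ) : ℤ) • ren (Option.map π) (DV K v q * c (sgl K (qv v q))) := by
  rw [Fintype.sum_prod_type]
  refine Finset.sum_congr rfl fun π _ => ?_
  rw [DV, dtn, Matrix.det_apply, Finset.sum_mul, map_sum, Finset.smul_sum]
  refine Finset.sum_congr rfl fun σ _ => ?_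
  rw [TT_FF v q c hc, Units.smul_def, smul_mul_assoc]
  rfl

/-- Every tuple of different points which contains `none` is in the orbit of `q4`. -/
theorem exists_FF (v q : ℕ) (t : Fin (v + 1) → Option (QV v q)) (ht : Function.Injective t) (i₀ : Fin (v + 1))
    (hi : t i₀ = none) : ∃ g, FF v q g = t := by
  classical
  let σ : Equiv.Perm (Fin (v + 1)) := Equiv.swap 0 i₀
  have h0 : t (σ 0) = none := by simp [σ, hi]
  have h1 : ∀ j : Fin v, ∃ x : QV v q, t (σ j.succ) = some x := by
    intro j
    rcases h : t (σ j.succ) with _ | x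
    · exfalso
      rw [← h0] at h
      have := σ.injective (ht h)
      exact Fin.succ_ne_zero j this
    · exact ⟨x, rfl⟩
  choose x hx using h1
  have hxinj : Function.Injective x := by
    intro j j' h
    have h2 : t (σ j.succ) = t (σ j'.succ) := by rw [hx, hx, h]
    exact Fin.succ_injective _ (σ.injective (ht h2))
  let e : {y : QV v q // y ∈ Set.range (Sum.inl : Fin v → QV v q)} ≃ {y : QV v q // y ∈ Set.range x} :=
    (Equiv.ofInjective _ Sum.inl_injective).symm.trans (Equiv.ofInjective x hxinj)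
  let π : Equiv.Perm (QV v q) := e.extendSubtype
  have hπ : ∀ j : Fin v, π (Sum.inl j) = x j := by
    intro j
    have h3 := e.extendSubtype_apply_of_mem (Sum.inl j) ⟨j, rfl⟩
    rw [show π (Sum.inl j) = e.extendSubtype (Sum.inl j) from rfl, h3]
    have h4 : (Equiv.ofInjective (Sum.inl : Fin v → QV v q) Sum.inl_injective).symm
        ⟨Sum.inl j, ⟨j, rfl⟩⟩ = j := by
      rw [Equiv.symm_apply_eq]
      rfl
    simp only [e, Equiv.trans_apply, h4]
    rfl
  refine ⟨(π, σ), ?_⟩
  have hkey : ∀ i, Option.map π (qv v q i) = t (σ i) := by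
    intro i
    refine Fin.cases ?_ (fun j => ?_) i
    · simp [qv, h0]
    · simp [qv, hx, hπ]
  funext i
  show Option.map π (qv v q (σ i)) = t i
  rw [hkey]
  simp [σ]

/-- All the fibres over points of the orbit have the same number of elements. -/
theorem card_FF (v q : ℕ) (g₁ : Equiv.Perm (QV v q) × Equiv.Perm (Fin (v + 1))) :
    (Finset.univ.filter fun g => FF v q g = FF v q g₁).card =
      (Finset.univ.filter fun g => FF v q g = qv v q).card := by
  refine Finset.card_nbij' (fun g => (g₁.1⁻¹ * g.1, g.2 * g₁.2⁻¹))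
    (fun g => (g₁.1 * g.1, g.2 * g₁.2)) ?_ ?_ ?_ ?_
  · intro g hg
    simp only [Finset.coe_filter, Finset.mem_univ, true_and, Set.mem_ofPred_eq] at hg ⊢
    funext i
    have h1 := congrFun hg (g₁.2⁻¹ i)
    simp only [FF, Function.comp_apply] at h1 ⊢
    have h0 : g₁.2 (g₁.2⁻¹ i) = i := g₁.2.apply_symm_apply i
    rw [h0] at h1
    have h2 := congrArg (Option.map (g₁.1⁻¹ : Equiv.Perm (QV v q))) h1
    rw [Option.map_map, Option.map_map] at h2
    have h3 : (⇑(g₁.1⁻¹ : Equiv.Perm (QV v q)) ∘ ⇑g₁.1) = id := by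
      funext x
      simp
    rw [h3, Option.map_id] at h2
    simpa [Equiv.Perm.coe_mul] using h2
  · intro g hg
    simp only [Finset.coe_filter, Finset.mem_univ, true_and, Set.mem_ofPred_eq] at hg ⊢
    funext i
    have h1 := congrFun hg (g₁.2 i)
    simp only [FF, Function.comp_apply] at h1 ⊢
    rw [Equiv.Perm.coe_mul, ← Option.map_map, Equiv.Perm.mul_apply, h1]
  · intro g hg
    simp
  · intro g hg
    simp

theorem main (v q : ℕ) [CharZero K] (c : SA K (Option (QV v q)) (v + 1) (v + 1))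
    (hc : ∀ π : Equiv.Perm (QV v q),
      push (Option.map π) c = ((Equiv.Perm.sign π : ℤˣ) : ℤ) • c)
    (hn : ∀ t, (∀ i, t i ≠ none) → c (sgl K t) = 0) :
    ∃ a : K, ∑ t : Fin (v + 1) → Option (QV v q), (∏ i, X (t i, i)) * c (sgl K t) =
      a • ∑ π : Equiv.Perm (QV v q),
      ((Equiv.Perm.sign π : ℤˣ) : ℤ) • ren (Option.map π) (DV K v q * c (sgl K (qv v q))) := by
  classical
  set n0 := (Finset.univ.filter fun g => FF v q g = qv v q).card with hn0
  have hpos : (n0 : K) ≠ 0 := by
    rw [Nat.cast_ne_zero, hn0, ← Nat.pos_iff_ne_zero, Finset.card_pos]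
    refine ⟨(1, 1), ?_⟩
    simp only [Finset.mem_filter, Finset.mem_univ, true_and]
    funext i
    simp [FF]
  refine ⟨(n0 : K)⁻¹, ?_⟩
  rw [← sum_FF v q c hc]
  have h1 : ∑ g, TT v q c (FF v q g) = ∑ t, (Finset.univ.filter fun g => FF v q g = t).card •
      TT v q c t := by
    rw [← Finset.sum_fiberwise (s := Finset.univ) (g := FF v q)]
    refine Finset.sum_congr rfl fun t _ => ?_
    rw [Finset.sum_congr rfl (g := fun _ => TT v q c t) ?_]
    · rw [Finset.sum_const]
    · intro g hg
      simp only [Finset.mem_filter, Finset.mem_univ, true_and] at hg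
      rw [hg]
  have h2 : ∀ t, (Finset.univ.filter fun g => FF v q g = t).card • TT v q c t = (n0 : K) •
      TT v q c t := by
    intro t
    by_cases hz : TT v q c t = 0
    · rw [hz, smul_zero, smul_zero]
    have h3 : c (sgl K t) ≠ 0 := by
      intro h
      apply hz
      rw [TT, h, mul_zero]
    have hinj : Function.Injective t := by
      by_contra h
      exact h3 (sgl_eq_zero c t h)
    obtain ⟨i₀, hi⟩ : ∃ i, t i = none := by
      by_contra h
      push Not at h
      exact h3 (hn t h)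
    obtain ⟨g, rfl⟩ := exists_FF v q t hinj i₀ hi
    rw [card_FF, ← hn0, Nat.cast_smul_eq_nsmul]
  rw [h1, Finset.sum_congr rfl fun t _ => h2 t, ← Finset.smul_sum, smul_smul,
    inv_mul_cancel₀ hpos, one_smul]
  rfl

theorem main' (v q : ℕ) [CharZero K] (k : ℕ) (hk : k = v + 1) (gg : Fin k → Fin (v + 1))
    (hgg : ∀ i, gg i = Fin.cast hk i) (c : SA K (Option (QV v q)) (v + 1) k)
    (hc : ∀ π : Equiv.Perm (QV v q),
      push (Option.map π) c = ((Equiv.Perm.sign π : ℤˣ) : ℤ) • c)
    (hn : ∀ t, (∀ i, t i ≠ none) → c (sgl K t) = 0) :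
    ∃ a : K, ∑ t : Fin k → Option (QV v q), (∏ i, X (t i, gg i)) * c (sgl K t) =
      a • ∑ π : Equiv.Perm (QV v q),
      ((Equiv.Perm.sign π : ℤˣ) : ℤ) • ren (Option.map π)
        (DV K v q * c (sgl K fun i => qv v q (Fin.cast hk i))) := by
  subst hk
  have : gg = id := by
    funext i
    rw [hgg]
    rfl
  subst this
  exact main v q c hc hn

end TCB

theorem TCB_thm : Stmt_TCB := by
  intro K _ _ v q c hc hn
  rw [CAPS_thm K (Option (QV v q)) (v + 1) (List.finRange (v + 1)) c]
  exact TCB.main' v q _ (List.length_finRange (n := v + 1)) _ (fun i => by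
    rw [List.get_finRange]) c hc hn

end Pool.Agent.VOP
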