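import Pool.Agent.VOP.StmtsU

/-!
# Exactness of the Koszul complex of the forms `y(x)` in degree `0` and `1` (MP_deb8da_ag)
-/

namespace Pool.Agent.VOP

open MvPolynomial Pool.Agent.VSY

namespace UKX

/-! ### Homogeneous components -/

section hom

variable {R : Type} [CommRing R] {σ : Type}

theorem hc_mul {a : MvPolynomial σ R} {m : ℕ} (ha : a.IsHomogeneous m) (d : ℕ)
    (Q : MvPolynomial σ R) :
    homogeneousComponent (m + d) (a * Q) = a * homogeneousComponent d Q := by
  classical
  have h1 : ∀ i, homogeneousComponent (m + d) (a * homogeneousComponent i Q) =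
      if i = d then a * homogeneousComponent d Q else 0 := by
    intro i
    have h2 : a * homogeneousComponent i Q ∈ homogeneousSubmodule σ R (m + i) :=
      ha.mul (homogeneousComponent_isHomogeneous i Q)
    rw [homogeneousComponent_of_mem h2]
    by_cases h : i = d
    · subst h
      simp
    · rw [if_neg (by omega), if_neg h]
  have h3 : a * Q = ∑ i ∈ Finset.range (Q.totalDegree + 1), a * homogeneousComponent i Q := by
    rw [← Finset.mul_sum, sum_homogeneousComponent]
  rw [h3, map_sum, Finset.sum_congr rfl fun i _ => h1 i, Finset.sum_ite_eq']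
  split_ifs with h4
  · rfl
  · rw [homogeneousComponent_eq_zero _ _ (by rw [Finset.mem_range] at h4; omega), mul_zero]

theorem HM {B : Type} {J : Finset B} {a : B → MvPolynomial σ R}
    (ha : ∀ x, (a x).IsHomogeneous 1) {t : ℕ} {P : MvPolynomial σ R}
    (hP : P.IsHomogeneous (t + 1)) {Q : B → MvPolynomial σ R} (h : P = ∑ x ∈ J, a x * Q x) :
    ∃ Q : B → MvPolynomial σ R, (∀ x, (Q x).IsHomogeneous t) ∧ P = ∑ x ∈ J, a x * Q x := by
  refine ⟨fun x => homogeneousComponent t (Q x), fun x => homogeneousComponent_isHomogeneous _ _, ?_⟩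
  have h1 := homogeneousComponent_eq_self hP
  rw [← h1, h, map_sum]
  apply Finset.sum_congr rfl
  intro x _
  rw [add_comm t 1, hc_mul (ha x)]

end hom

/-! ### The forms -/

section

variable {K : Type} [Field K] {A ι : Type}

/-- the polynomials in points -/
abbrev RR (K : Type) [Field K] (A ι : Type) : Type := MvPolynomial (A × ι) K

/-- polynomials in `n` variables over `RR` -/
abbrev SS (K : Type) [Field K] (A ι : Type) (n : ℕ) : Type := MvPolynomial (Fin n) (RR K A ι)

/-- the forms -/
noncomputable def aa {n : ℕ} (c : Fin n → ι) (x : A) : SS K A ι n :=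
  ∑ i, C (X (x, c i)) * X i

theorem aa_hom {n : ℕ} (c : Fin n → ι) (x : A) : (aa (K := K) c x).IsHomogeneous 1 := by
  unfold aa
  apply IsHomogeneous.sum
  intro i _
  exact isHomogeneous_C_mul_X _ _

theorem aa_ne {n : ℕ} (c : Fin (n + 1) → ι) (x : A) : aa (K := K) c x ≠ 0 := by
  intro h
  have h1 := congrArg (coeff (Finsupp.single (Fin.last n) 1)) h
  unfold aa at h1
  rw [coeff_sum, Finset.sum_eq_single (Fin.last n)] at h1
  · rw [coeff_C_mul, coeff_X, if_pos rfl, mul_one, coeff_zero] at h1
    exact X_ne_zero _ h1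
  · intro b _ hb
    rw [coeff_C_mul, coeff_X, if_neg, mul_zero]
    intro h2
    exact hb (Finsupp.single_left_injective one_ne_zero h2)
  · intro h2
    exact absurd (Finset.mem_univ _) h2

/-- exactness in degree one -/
def K1 {n : ℕ} (c : Fin n → ι) (J : Finset A) : Prop :=
  ∀ (t : ℕ) (Q : A → SS K A ι n), (∀ x, (Q x).IsHomogeneous (t + 1)) →
    ∑ x ∈ J, aa c x * Q x = 0 →
    ∃ B : A → A → SS K A ι n, (∀ x x', (B x x').IsHomogeneous t) ∧
      (∀ x x', B x x' = -B x' x) ∧ ∀ x ∈ J, Q x = ∑ x' ∈ J, aa c x' * B x x'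

/-- saturation -/
def K0 {n : ℕ} (c : Fin (n + 1) → ι) (J : Finset A) : Prop :=
  ∀ (t M : ℕ) (P : SS K A ι (n + 1)) (Q : A → SS K A ι (n + 1)), P.IsHomogeneous (t + 1) →
    X (Fin.last n) ^ M * P = ∑ x ∈ J, aa c x * Q x →
    ∃ Q : A → SS K A ι (n + 1), (∀ x, (Q x).IsHomogeneous t) ∧ P = ∑ x ∈ J, aa c x * Q x

theorem k1_zero (c : Fin 0 → ι) (J : Finset A) : K1 (K := K) c J := by
  intro t Q hQ _
  refine ⟨fun _ _ => 0, fun _ _ => isHomogeneous_zero _ _ _, fun _ _ => by simp, ?_⟩
  intro x _
  simp only [mul_zero, Finset.sum_const_zero]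
  apply MvPolynomial.ext
  intro d
  rw [coeff_zero]
  by_contra h
  have h1 := hQ x h
  have h2 : d = 0 := Subsingleton.elim _ _
  rw [h2, map_zero] at h1
  omega

/-! ### The last variable -/

/-- the last variable is put to zero -/
noncomputable def rho (R : Type) [CommRing R] (n : ℕ) :
    MvPolynomial (Fin (n + 1)) R →ₐ[R] MvPolynomial (Fin n) R :=
  aeval fun i => Fin.lastCases (motive := fun _ => MvPolynomial (Fin n) R) 0 (fun j => X j) i

theorem rho_last (R : Type) [CommRing R] (n : ℕ) : rho R n (X (Fin.last n)) = 0 := by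
  rw [rho, aeval_X, Fin.lastCases_last]

theorem rho_cast (R : Type) [CommRing R] (n : ℕ) (i : Fin n) :
    rho R n (X i.castSucc) = X i := by
  rw [rho, aeval_X, Fin.lastCases_castSucc]

theorem rho_hom (R : Type) [CommRing R] (n d : ℕ) {P : MvPolynomial (Fin (n + 1)) R}
    (h : P.IsHomogeneous d) : (rho R n P).IsHomogeneous d := by
  have := h.aeval (fun i => Fin.lastCases (motive := fun _ => MvPolynomial (Fin n) R) 0
    (fun j => X j) i) (n := 1) (by
      intro i
      refine Fin.lastCases ?_ (fun j => ?_) i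
      · rw [Fin.lastCases_last]
        exact isHomogeneous_zero _ _ _
      · rw [Fin.lastCases_castSucc]
        exact isHomogeneous_X _ _)
  rw [one_mul] at this
  exact this

theorem rho_ren (R : Type) [CommRing R] (n : ℕ) (P : MvPolynomial (Fin n) R) :
    rho R n (rename Fin.castSucc P) = P := by
  have h : (rho R n).comp (rename Fin.castSucc) = AlgHom.id R _ := by
    apply MvPolynomial.algHom_ext
    intro i
    rw [AlgHom.comp_apply, rename_X, rho_cast, AlgHom.id_apply]
  exact congrArg (fun f => f P) h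

theorem rho_div (R : Type) [CommRing R] (n : ℕ) (P : MvPolynomial (Fin (n + 1)) R)
    (h : rho R n P = 0) : ∃ P', P = X (Fin.last n) * P' := by
  set I : Ideal (MvPolynomial (Fin (n + 1)) R) := Ideal.span {X (Fin.last n)} with hI
  have h1 : ((Ideal.Quotient.mkₐ R I).comp (rename Fin.castSucc)).comp (rho R n) =
      Ideal.Quotient.mkₐ R I := by
    apply MvPolynomial.algHom_ext
    intro i
    refine Fin.lastCases ?_ (fun j => ?_) i
    · rw [AlgHom.comp_apply, rho_last, map_zero]
      symm
      rw [Ideal.Quotient.mkₐ_eq_mk, Ideal.Quotient.eq_zero_iff_mem, hI]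
      exact Ideal.mem_span_singleton_self _
    · rw [AlgHom.comp_apply, rho_cast, AlgHom.comp_apply, rename_X]
  have h2 : Ideal.Quotient.mkₐ R I P = 0 := by
    rw [← h1, AlgHom.comp_apply, h, map_zero]
  rw [Ideal.Quotient.mkₐ_eq_mk, Ideal.Quotient.eq_zero_iff_mem, hI, Ideal.mem_span_singleton] at h2
  exact h2

theorem rho_aa {n : ℕ} (c : Fin (n + 1) → ι) (x : A) :
    rho (RR K A ι) n (aa c x) = aa (fun i => c i.castSucc) x := by
  unfold aa
  rw [map_sum, Fin.sum_univ_castSucc]
  have hC : ∀ r : RR K A ι, rho (RR K A ι) n (C r) = C r := by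
    intro r
    rw [rho, aeval_C]
    rfl
  rw [map_mul, rho_last, mul_zero, add_zero]
  apply Finset.sum_congr rfl
  intro i _
  rw [map_mul, rho_cast, hC]

/-- double sums with antisymmetric coefficients -/
theorem anti [CharZero K] {n : ℕ} (J : Finset A) (a : A → SS K A ι n) (B : A → A → SS K A ι n)
    (hB : ∀ x x', B x x' = -B x' x) : ∑ x ∈ J, ∑ x' ∈ J, a x * (a x' * B x x') = 0 := by
  have h1 : ∑ x ∈ J, ∑ x' ∈ J, a x * (a x' * B x x') =
      -∑ x ∈ J, ∑ x' ∈ J, a x * (a x' * B x x') := by
    conv_lhs => rw [Finset.sum_comm]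
    rw [← Finset.sum_neg_distrib]
    apply Finset.sum_congr rfl
    intro x _
    rw [← Finset.sum_neg_distrib]
    apply Finset.sum_congr rfl
    intro x' _
    rw [hB x' x]
    ring
  have h2 : (2 : SS K A ι n) * ∑ x ∈ J, ∑ x' ∈ J, a x * (a x' * B x x') = 0 := by
    linear_combination h1
  rcases mul_eq_zero.mp h2 with h3 | h3
  · exact absurd h3 two_ne_zero
  · exact h3

/-- one step of the saturation -/
theorem sat1 [CharZero K] {n : ℕ} (c : Fin (n + 1) → ι) (J : Finset A)
    (h1 : K1 (K := K) (fun i => c i.castSucc) J) (t : ℕ) (P : SS K A ι (n + 1))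
    (Q : A → SS K A ι (n + 1)) (hP : P.IsHomogeneous (t + 1))
    (h : X (Fin.last n) * P = ∑ x ∈ J, aa c x * Q x) :
    ∃ Q' : A → SS K A ι (n + 1), P = ∑ x ∈ J, aa c x * Q' x := by
  have hXP : (X (Fin.last n) * P).IsHomogeneous (t + 1 + 1) := by
    rw [add_comm (t + 1) 1]
    exact (isHomogeneous_X _ _).mul hP
  obtain ⟨Q₁, hQ₁, h2⟩ := HM (fun x => aa_hom c x) hXP h
  obtain ⟨B, hB, hBa, hBQ⟩ := h1 t (fun x => rho _ n (Q₁ x)) (fun x => rho_hom _ n _ (hQ₁ x)) (by
    have h3 := congrArg (rho (RR K A ι) n) h2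
    rw [map_mul, rho_last, zero_mul, map_sum] at h3
    rw [h3]
    apply Finset.sum_congr rfl
    intro x _
    rw [map_mul, rho_aa])
  have h4 : ∀ x, ∃ Q'' : SS K A ι (n + 1), x ∈ J →
      Q₁ x - ∑ x' ∈ J, aa c x' * rename Fin.castSucc (B x x') = X (Fin.last n) * Q'' := by
    intro x
    by_cases hx : x ∈ J
    · obtain ⟨Q'', hQ''⟩ := rho_div _ n (Q₁ x - ∑ x' ∈ J, aa c x' * rename Fin.castSucc (B x x')) (by
        rw [map_sub, map_sum, hBQ x hx]
        rw [sub_eq_zero]
        apply Finset.sum_congr rfl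
        intro x' _
        rw [map_mul, rho_aa, rho_ren])
      exact ⟨Q'', fun _ => hQ''⟩
    · exact ⟨0, fun h => absurd h hx⟩
  choose Q'' hQ'' using h4
  refine ⟨Q'', ?_⟩
  have h5 : ∑ x ∈ J, ∑ x' ∈ J, aa (K := K) c x * (aa c x' * rename Fin.castSucc (B x x')) = 0 :=
    anti J (aa c) (fun x x' => rename Fin.castSucc (B x x')) (fun x x' => by
      rw [hBa x x', map_neg])
  have h6 : X (Fin.last n) * P = X (Fin.last n) * ∑ x ∈ J, aa c x * Q'' x := by
    rw [h2, Finset.mul_sum]
    have h7 : ∀ x ∈ J, aa c x * Q₁ x = X (Fin.last n) * (aa c x * Q'' x) +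
        ∑ x' ∈ J, aa c x * (aa c x' * rename Fin.castSucc (B x x')) := by
      intro x hx
      rw [← Finset.mul_sum]
      have := hQ'' x hx
      linear_combination (aa c x) * this
    rw [Finset.sum_congr rfl h7, Finset.sum_add_distrib, h5, add_zero]
  exact mul_left_cancel₀ (X_ne_zero _) h6

theorem k0_of_k1 [CharZero K] {n : ℕ} (c : Fin (n + 1) → ι) (J : Finset A)
    (h1 : K1 (K := K) (fun i => c i.castSucc) J) : K0 (K := K) c J := by
  intro t M
  induction M with
  | zero =>
    intro P Q hP h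
    rw [pow_zero, one_mul] at h
    exact HM (fun x => aa_hom c x) hP h
  | succ M ih =>
    intro P Q hP h
    have hP' : (X (Fin.last n) ^ M * P).IsHomogeneous (M + t + 1) := by
      rw [add_assoc]
      exact (isHomogeneous_X_pow _ _).mul hP
    obtain ⟨Q', hQ'⟩ := sat1 c J h1 (M + t) (X (Fin.last n) ^ M * P) Q hP' (by
      rw [← h, pow_succ]
      ring)
    exact ih P Q' hP hQ'

/-! ### The points are moved -/

section psi

variable [DecidableEq A] [DecidableEq ι]

/-- `ps` for `n + 1` variables -/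
noncomputable def psR {n : ℕ} (c : Fin (n + 1) → ι) (J : Finset A) :
    RR K A ι →ₐ[K] SS K A ι (n + 1) :=
  aeval fun x : A × ι =>
    if x.1 ∈ J then
      (if x.2 = c (Fin.last n) then -(∑ i : Fin n, C (X (x.1, c i.castSucc)) * X i.castSucc)
        else C (X x) * X (Fin.last n))
    else C (X x)

/-- `psY` for `n + 1` variables -/
noncomputable def psi {n : ℕ} (c : Fin (n + 1) → ι) (J : Finset A) :
    SS K A ι (n + 1) →+* SS K A ι (n + 1) :=
  eval₂Hom (psR (K := K) c J : RR K A ι →+* SS K A ι (n + 1)) X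

variable {n : ℕ} (c : Fin (n + 1) → ι) (J : Finset A)

theorem psi_X (i : Fin (n + 1)) : psi (K := K) c J (X i) = X i := by
  rw [psi, eval₂Hom_X']

theorem psi_C (r : RR K A ι) : psi (K := K) c J (C r) = psR c J r := by
  rw [psi, eval₂Hom_C]
  rfl

theorem psR_last (x : A) (hx : x ∈ J) : psR (K := K) c J (X (x, c (Fin.last n))) =
    -(∑ i : Fin n, C (X (x, c i.castSucc)) * X i.castSucc) := by
  rw [psR, aeval_X, if_pos hx, if_pos rfl]

theorem psR_other (x : A) (k : ι) (hx : x ∈ J) (hk : k ≠ c (Fin.last n)) :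
    psR (K := K) c J (X (x, k)) = C (X (x, k)) * X (Fin.last n) := by
  rw [psR, aeval_X, if_pos hx, if_neg hk]

theorem psR_out (x : A) (k : ι) (hx : x ∉ J) : psR (K := K) c J (X (x, k)) = C (X (x, k)) := by
  rw [psR, aeval_X, if_neg hx]

theorem psi_aa (hc : Function.Injective c) (x : A) (hx : x ∈ J) : psi (K := K) c J (aa c x) = 0 := by
  unfold aa
  rw [map_sum, Fin.sum_univ_castSucc]
  have h1 : ∀ i : Fin n, psi (K := K) c J (C (X (x, c i.castSucc)) * X i.castSucc) =
      C (X (x, c i.castSucc)) * X i.castSucc * X (Fin.last n) := by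
    intro i
    rw [map_mul, psi_X, psi_C, psR_other c J x _ hx]
    · ring
    · intro h
      exact (Fin.castSucc_lt_last i).ne (hc h)
  rw [Finset.sum_congr rfl fun i _ => h1 i, map_mul, psi_X, psi_C, psR_last c J x hx,
    ← Finset.sum_mul]
  ring

theorem psi_aa_out (x : A) (hx : x ∉ J) : psi (K := K) c J (aa c x) = aa c x := by
  unfold aa
  rw [map_sum]
  apply Finset.sum_congr rfl
  intro i _
  rw [map_mul, psi_X, psi_C, psR_out c J x _ hx]

/-- the localization -/
abbrev TT (K : Type) [Field K] (A ι : Type) (n : ℕ) : Type :=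
  Localization.Away (X (Fin.last n) : SS K A ι (n + 1))

/-- the inverse of the last variable -/
noncomputable def iv (K : Type) [Field K] (A ι : Type) (n : ℕ) : TT K A ι n :=
  IsLocalization.Away.invSelf (X (Fin.last n) : SS K A ι (n + 1))

omit [DecidableEq A] [DecidableEq ι] in
theorem iv_mul : algebraMap (SS K A ι (n + 1)) (TT K A ι n) (X (Fin.last n)) * iv K A ι n = 1 :=
  IsLocalization.Away.mul_invSelf _

/-- the points are scaled -/
noncomputable def thR : RR K A ι →ₐ[K] TT K A ι n :=
  aeval fun x : A × ι =>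
    if x.1 ∈ J then algebraMap (SS K A ι (n + 1)) (TT K A ι n) (C (X x)) * iv K A ι n
    else algebraMap (SS K A ι (n + 1)) (TT K A ι n) (C (X x))

/-- the points are scaled -/
noncomputable def th : SS K A ι (n + 1) →+* TT K A ι n :=
  eval₂Hom (thR (K := K) (ι := ι) (n := n) J : RR K A ι →+* TT K A ι n)
    fun i => algebraMap (SS K A ι (n + 1)) (TT K A ι n) (X i)

omit [DecidableEq ι] in
theorem th_X (i : Fin (n + 1)) : th (K := K) (ι := ι) J (X i) =
    algebraMap (SS K A ι (n + 1)) (TT K A ι n) (X i) := by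
  rw [th, eval₂Hom_X']

omit [DecidableEq ι] in
theorem th_C (r : RR K A ι) : th (K := K) (n := n) J (C r) = thR (n := n) J r := by
  rw [th, eval₂Hom_C]
  rfl

/-- the ideal of the forms -/
noncomputable def aI : Ideal (SS K A ι (n + 1)) := Ideal.span (aa c '' (J : Set A))

omit [DecidableEq ι] in
theorem thR_in (x : A) (k : ι) (hx : x ∈ J) : thR (K := K) (n := n) J (X (x, k)) =
    algebraMap (SS K A ι (n + 1)) (TT K A ι n) (C (X (x, k))) * iv K A ι n := by
  rw [thR, aeval_X, if_pos hx]

omit [DecidableEq ι] in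
theorem thR_out (x : A) (k : ι) (hx : x ∉ J) : thR (K := K) (n := n) J (X (x, k)) =
    algebraMap (SS K A ι (n + 1)) (TT K A ι n) (C (X (x, k))) := by
  rw [thR, aeval_X, if_neg hx]

theorem th_last (x : A) (hx : x ∈ J) : th J (psR (K := K) c J (X (x, c (Fin.last n)))) =
    algebraMap (SS K A ι (n + 1)) (TT K A ι n) (C (X (x, c (Fin.last n)))) -
      iv K A ι n * algebraMap (SS K A ι (n + 1)) (TT K A ι n) (aa c x) := by
  rw [psR_last c J x hx, map_neg, map_sum]
  have h1 : ∀ i : Fin n, th (K := K) J (C (X (x, c i.castSucc)) * X i.castSucc) =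
      iv K A ι n * algebraMap (SS K A ι (n + 1)) (TT K A ι n)
        (C (X (x, c i.castSucc)) * X i.castSucc) := by
    intro i
    rw [map_mul, th_C, th_X, thR_in J x _ hx, map_mul]
    ring
  rw [Finset.sum_congr rfl fun i _ => h1 i]
  unfold aa
  rw [Fin.sum_univ_castSucc, map_add, map_sum, mul_add, Finset.mul_sum,
    map_mul _ (C (X (x, c (Fin.last n))))]
  have h2 := iv_mul (K := K) (A := A) (ι := ι) (n := n)
  linear_combination (algebraMap (SS K A ι (n + 1)) (TT K A ι n) (C (X (x, c (Fin.last n))))) * h2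

theorem main_C :
    (Ideal.Quotient.mk ((aI (K := K) c J).map (algebraMap (SS K A ι (n + 1)) (TT K A ι n)))).comp
      ((th J).comp (psR (K := K) c J : RR K A ι →+* SS K A ι (n + 1))) =
    (Ideal.Quotient.mk ((aI (K := K) c J).map (algebraMap (SS K A ι (n + 1)) (TT K A ι n)))).comp
      ((algebraMap (SS K A ι (n + 1)) (TT K A ι n)).comp C) := by
  apply MvPolynomial.ringHom_ext
  · intro k
    simp only [RingHom.comp_apply, RingHom.coe_coe]
    congr 1
    have h1 : psR (K := K) c J (C k) = C (C k) := by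
      rw [← algebraMap_eq, AlgHom.commutes]
      rfl
    rw [h1, th_C]
    have h2 : thR (K := K) (n := n) J (C k : RR K A ι) = algebraMap K (TT K A ι n) k := by
      rw [← algebraMap_eq, AlgHom.commutes]
    rw [h2, IsScalarTower.algebraMap_apply K (SS K A ι (n + 1)) (TT K A ι n)]
    rfl
  · rintro ⟨x, k⟩
    simp only [RingHom.comp_apply, RingHom.coe_coe]
    by_cases hx : x ∈ J
    · by_cases hk : k = c (Fin.last n)
      · subst hk
        rw [th_last c J x hx, map_sub, sub_eq_self, Ideal.Quotient.eq_zero_iff_mem]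
        apply Ideal.mul_mem_left
        apply Ideal.mem_map_of_mem
        exact Ideal.subset_span ⟨x, hx, rfl⟩
      · rw [psR_other c J x k hx hk, map_mul, th_C, th_X, thR_in J x k hx, mul_assoc, mul_comm (iv K A ι n),
          iv_mul, mul_one]
    · rw [psR_out c J x k hx, th_C, thR_out J x k hx]

theorem main_eq :
    (Ideal.Quotient.mk ((aI (K := K) c J).map (algebraMap (SS K A ι (n + 1)) (TT K A ι n)))).comp
      ((th J).comp (psi c J)) =
    (Ideal.Quotient.mk ((aI (K := K) c J).map (algebraMap (SS K A ι (n + 1)) (TT K A ι n)))).comp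
      (algebraMap (SS K A ι (n + 1)) (TT K A ι n)) := by
  apply MvPolynomial.ringHom_ext
  · intro r
    have h := congrArg (fun f => f r) (main_C (K := K) c J)
    simp only [RingHom.comp_apply] at h ⊢
    rw [psi_C]
    exact h
  · intro i
    rw [RingHom.comp_apply, RingHom.comp_apply, psi_X, th_X, RingHom.comp_apply]

theorem sat (P : SS K A ι (n + 1)) (h : psi (K := K) c J P = 0) :
    ∃ (M : ℕ) (Q : A → SS K A ι (n + 1)), X (Fin.last n) ^ M * P = ∑ x ∈ J, aa c x * Q x := by
  have h1 := congrArg (fun f => f P) (main_eq (K := K) c J)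
  simp only [RingHom.comp_apply] at h1
  rw [h, map_zero, map_zero] at h1
  have h2 := h1.symm
  rw [Ideal.Quotient.eq_zero_iff_mem] at h2
  rw [IsLocalization.algebraMap_mem_map_algebraMap_iff
    (Submonoid.powers (X (Fin.last n) : SS K A ι (n + 1)))] at h2
  obtain ⟨m, ⟨M, rfl⟩, h3⟩ := h2
  refine ⟨M, ?_⟩
  unfold aI at h3
  rw [Ideal.span, Submodule.mem_span_image_finset_iff_exists_fun'] at h3
  obtain ⟨Q, hQ⟩ := h3
  refine ⟨Q, ?_⟩
  simp only at hQ
  rw [← hQ]
  apply Finset.sum_congr rfl
  intro x _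
  rw [smul_eq_mul, mul_comm]

/-- the induction on the finite set -/
theorem k1_of_k0 [CharZero K] (hc : Function.Injective c)
    (h0 : ∀ J : Finset A, K0 (K := K) c J) (J : Finset A) : K1 (K := K) c J := by
  induction J using Finset.induction_on with
  | empty =>
    intro t Q hQ _
    exact ⟨fun _ _ => 0, fun _ _ => isHomogeneous_zero _ _ _, fun _ _ => by simp, fun x hx =>
      absurd hx (Finset.notMem_empty x)⟩
  | insert m J hm ih =>
    intro t Q hQ h
    rw [Finset.sum_insert hm] at h
    have h1 : psi (K := K) c J (Q m) = 0 := by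
      have h2 := congrArg (psi (K := K) c J) h
      rw [map_add, map_mul, psi_aa_out c J m hm, map_zero, map_sum, Finset.sum_eq_zero, add_zero] at h2
      · rcases mul_eq_zero.mp h2 with h3 | h3
        · exact absurd h3 (aa_ne c m)
        · exact h3
      · intro x hx
        rw [map_mul, psi_aa c J hc x hx, zero_mul]
    obtain ⟨M, Q', hQ'⟩ := sat c J (Q m) h1
    obtain ⟨b, hb, hbQ⟩ := h0 J t M (Q m) Q' (hQ m) hQ'
    obtain ⟨B, hB, hBa, hBQ⟩ := ih t (fun x => Q x + aa c m * b x) (fun x => by
      apply (hQ x).add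
      rw [add_comm t 1]
      exact (aa_hom c m).mul (hb x)) (by
        have h4 : ∑ x ∈ J, aa c x * (Q x + aa c m * b x) =
            ∑ x ∈ J, aa c x * Q x + aa c m * ∑ x ∈ J, aa c x * b x := by
          rw [Finset.mul_sum, ← Finset.sum_add_distrib]
          apply Finset.sum_congr rfl
          intro x _
          ring
        rw [h4, ← hbQ]
        linear_combination h)
    refine ⟨fun x x' => if x = m then (if x' = m then 0 else b x') else
      if x' = m then -b x else B x x', ?_, ?_, ?_⟩
    · intro x x'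
      simp only
      split_ifs
      · exact isHomogeneous_zero _ _ _
      · exact hb x'
      · exact (hb x).neg
      · exact hB x x'
    · intro x x'
      simp only
      split_ifs
      · simp
      · rw [neg_neg]
      · rfl
      · exact hBa x x'
    · intro x hx
      rw [Finset.sum_insert hm]
      by_cases hxm : x = m
      · subst hxm
        simp only [if_true, mul_zero, zero_add]
        rw [hbQ]
        apply Finset.sum_congr rfl
        intro x' hx'
        rw [if_neg (ne_of_mem_of_not_mem hx' hm)]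
      · have hxJ : x ∈ J := (Finset.mem_insert.mp hx).resolve_left hxm
        simp only [if_neg hxm, if_true]
        have h5 : ∑ x' ∈ J, aa (K := K) c x' * (if x' = m then -b x else B x x') =
            ∑ x' ∈ J, aa c x' * B x x' := by
          apply Finset.sum_congr rfl
          intro x' hx'
          rw [if_neg (ne_of_mem_of_not_mem hx' hm)]
        rw [h5, ← hBQ x hxJ]
        ring

end psi

/-- exactness in degree one -/
theorem k1 [CharZero K] [DecidableEq A] [DecidableEq ι] (n : ℕ) :
    ∀ (c : Fin n → ι), Function.Injective c → ∀ J : Finset A, K1 (K := K) c J := by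
  induction n with
  | zero => exact fun c _ J => k1_zero c J
  | succ n ih =>
    intro c hc J
    refine k1_of_k0 c hc (fun J' => k0_of_k1 c J' (ih _ ?_ J')) J
    intro i j hij
    exact Fin.castSucc_injective n (hc hij)

end

theorem psi_psY (K : Type) [Field K] {A : Type} [DecidableEq A] (J : Finset A) :
    psi (K := K) (n := 2) (id : Fin 3 → Fin 3) J = psY K J := by
  have h : psR (K := K) (n := 2) (id : Fin 3 → Fin 3) J = ps K J := by
    unfold psR ps
    congr 1
    funext x
    by_cases h1 : x.1 ∈ J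
    · rw [if_pos h1, if_pos h1, Fin.sum_univ_two]
      rfl
    · rw [if_neg h1, if_neg h1]
  unfold psi psY
  rw [h]

end UKX

open UKX in
theorem UKX_thm : Stmt_UKX := by
  intro K _ _ A _ _ J t
  constructor
  · intro P hP h
    rw [← psi_psY] at h
    obtain ⟨M, Q, hQ⟩ := sat (id : Fin 3 → Fin 3) J P h
    have h0 : K0 (K := K) (n := 2) (id : Fin 3 → Fin 3) J :=
      k0_of_k1 _ J (k1 2 _ (Fin.castSucc_injective 2) J)
    exact h0 t M P Q hP hQ
  · intro Q hQ h
    exact k1 3 (id : Fin 3 → Fin 3) Function.injective_id J t Q hQ h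

end Pool.Agent.VOP
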