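import Pool.Agent.VOP.DK5
import Pool.Agent.VOP.FIN3
import Pool.Agent.VSY.KOS

/-!
# MP_deb8da_ag: all ends of the non-vanishing ranges for `n ≤ 3`, `b = 0`

The lower end of the weight `2` is the Ottaviani-Paoletti theorem of the library; the upper end of
the linear strand of the Veronese threefolds is the hypothesis `LS3`; all others follow by the
duality from vanishing theorems of the library.
-/

namespace Pool.Agent.VOP.V3F

open Pool.Agent.VSY Pool.Agent.VOP

/-- The end of the linear strand of the Veronese threefolds. -/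
def LS3 (K : Type) [Field K] : Prop :=
  ∀ d p : ℕ, 2 ≤ d → (d + 2).choose 3 + 2 ≤ p → KExact K 3 d p d

theorem of_van (K : Type) [Field K] [CharZero K] {n d p r : ℕ} (hd : 1 ≤ d)
    (h : Van K (n + 1) d p r) : KExact K n d p r := by
  have h1 : Van K (n + 1) d p (0 * d + r) := by rwa [zero_mul, zero_add]
  have h2 := KOS_thm K n r d p 0 (off K n r d p 0 hd h1)
  rwa [zero_mul, zero_add] at h2

theorem le_choose {n d : ℕ} (hd : 1 ≤ d) : n + 1 ≤ (d + n).choose n := by
  have h1 : (n + 1).choose n ≤ (d + n).choose n := Nat.choose_le_choose _ (by omega)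
  rwa [Nat.choose_succ_self_right] at h1

/-- The Koszul homology is zero if there are too many letters. -/
theorem beyond (K : Type) [Field K] {n d p r : ℕ} (hd : 1 ≤ d)
    (h : (d + n).choose n < p + (n + 1)) : KExact K n d p r :=
  DK.KExact_dual K n d p r hd (fun h1 _ => by
    have := le_choose (n := n) hd
    omega)

/-- The weight `0`. -/
theorem weight_zero (K : Type) [Field K] [CharZero K] {n d p : ℕ} (hd : 1 ≤ d) (hp : 1 ≤ p) :
    KExact K n d p 0 :=
  DK.KExact_dual K n d p 0 hd (fun h1 _ => by
    refine of_van K hd (tg K n d _ _ hd ?_ (Or.inr ⟨0, ?_, ?_⟩))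
    · rw [Nat.sub_zero]
      omega
    · rw [Nat.sub_zero]
      omega
    · rw [zero_add, Nat.choose_self]
      have := le_choose (n := n) hd
      omega)

/-- The lower end of the weight `n`. -/
theorem top_lower (K : Type) [Field K] [CharZero K] {n d p : ℕ} (hd : n + 1 ≤ d)
    (h : p + (d - 1).choose n + n + 1 ≤ (d + n).choose n) : KExact K n d p (n * d) := by
  obtain ⟨s, rfl⟩ := Nat.exists_eq_add_of_le hd
  refine of_van K (by omega) (tg K n (n + 1 + s) p _ (by omega) ?_ (Or.inr ⟨s, ?_, ?_⟩))
  · have e : n + 1 + s - 1 = n + s := by omega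
    rw [e]
    nlinarith
  · have e : n + 1 + s - 1 = n + s := by omega
    rw [e]
    ring
  · have e : n + 1 + s - 1 = s + n := by omega
    rw [e] at h
    omega

/-- The upper end of the linear strand for the plane. -/
theorem linear_plane (K : Type) [Field K] [CharZero K] {d p : ℕ} (hd : 2 ≤ d)
    (h : (d + 1).choose 2 + 1 ≤ p) : KExact K 2 d p d :=
  DK.KExact_dual K 2 d p d (by omega) (fun h1 _ => by
    refine of_van K (by omega) (low K _ d _ _ (by omega) ?_)
    have h2 : (d + 2).choose 2 = (d + 1).choose 2 + (d + 1) := by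
      rw [show d + 2 = (d + 1) + 1 from rfl, Nat.choose_succ_succ, Nat.choose_one_right]
      simp only [Nat.succ_eq_add_one]
      ring
    omega)

/-- The upper end of the weight `2` for threefolds. -/
theorem quad_upper (K : Type) [Field K] [CharZero K] {d p : ℕ} (hd : 3 ≤ d)
    (h : (d + 3).choose 3 ≤ p + d) : KExact K 3 d p (2 * d) :=
  DK.KExact_dual K 3 d p (2 * d) (by omega) (fun h1 _ => by
    refine of_van K (by omega) (low K _ d _ _ (by omega) ?_)
    have := le_choose (n := 3) (d := d) (by omega)
    omega)

/-- The lower end of the weight `2`. -/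
theorem quad_lower (K : Type) [Field K] [CharZero K] {n d p : ℕ} (hd : 1 ≤ d)
    (h : p + 3 ≤ 3 * d) : KExact K n d p (2 * d) :=
  of_van K hd (van_two K (n + 1) d p h)

theorem choose_three (d : ℕ) : (d + 3).choose 3 = (d + 2).choose 2 + (d + 2).choose 3 :=
  Nat.choose_succ_succ (d + 2) 2

theorem choose_two (d : ℕ) : (d + 2).choose 2 = (d + 1) + (d + 1).choose 2 := by
  have := Nat.choose_succ_succ (d + 1) 1
  rwa [Nat.choose_one_right] at this

/-- `L` for the weight `2`. -/
theorem lend_two {d : ℕ} (hd : 1 ≤ d) : (d + 2).choose 2 = (d - 1).choose 2 + 3 * d := by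
  obtain ⟨e, rfl⟩ := Nat.exists_eq_add_of_le' hd
  rw [Nat.add_sub_cancel]
  have h1 : (e + 1 + 2).choose 2 = (e + 2) + (e + 2).choose 2 := choose_two (e + 1)
  have h2 := choose_two e
  have h4 : e.choose 2 + e = (e + 1).choose 2 := by
    have := Nat.choose_succ_succ e 1
    rw [Nat.choose_one_right] at this
    rw [this, add_comm]
  omega

/-- The lower end of the dual place suffices for the end of the linear strand. -/
theorem ls3_of_van (K : Type) [Field K] [CharZero K] {d : ℕ} (hd : 2 ≤ d)
    (H : ∀ l : ℕ, l + 6 ≤ (d + 2).choose 2 → Van K 4 d l (3 * d - 4)) {p : ℕ}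
    (hp : (d + 2).choose 3 + 2 ≤ p) : KExact K 3 d p d :=
  DK.KExact_dual K 3 d p d (by omega) (fun h1 _ => by
    have h2 := choose_three d
    have h3 := choose_two d
    have h4 : (d + 1).choose 2 ≠ 0 := (Nat.choose_pos (by omega)).ne'
    have e1 : (3 + 1) * (d - 1) - d = 3 * d - 4 := by omega
    rw [e1]
    rcases Nat.lt_or_ge ((d + 3).choose 3) (p + 4) with h5 | h5
    · have e2 : (d + 3).choose 3 - (3 + 1) - p = 0 := by omega
      rw [e2]
      rcases Nat.lt_or_ge d 4 with h6 | h6
      · have h7 : d = 2 ∨ d = 3 := by omega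
        rcases h7 with rfl | rfl
        · exact of_van K (by omega) (low K _ 2 0 _ (by omega) (by omega))
        · exact of_van K (by omega) (low K _ 3 0 _ (by omega) (by omega))
      · exact of_van K (by omega) (low K _ d 0 _ (by omega) (by omega))
    · exact of_van K (by omega) (H _ (by omega)))

/-- The end of the linear strand for `d ≤ 5`. -/
theorem ls3_small (K : Type) [Field K] [CharZero K] {d p : ℕ} (hd : 2 ≤ d) (hd5 : d ≤ 5)
    (hp : (d + 2).choose 3 + 2 ≤ p) : KExact K 3 d p d := by
  refine ls3_of_van K hd (fun l hl => ?_) hp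
  have h : d = 2 ∨ d = 3 ∨ d = 4 ∨ d = 5 := by omega
  rcases h with rfl | rfl | rfl | rfl
  · have e : (2 + 2).choose 2 = 6 := rfl
    rw [e] at hl
    exact low K 4 2 l _ (by omega) (by omega)
  · have e : (3 + 2).choose 2 = 10 := rfl
    rw [e] at hl
    exact van_one K 4 3 l (by omega)
  · have e : (4 + 2).choose 2 = 15 := rfl
    rw [e] at hl
    exact van_two K 4 4 l (by omega)
  · have e : (5 + 2).choose 2 = 21 := rfl
    rw [e] at hl
    obtain ⟨-, -, h3, -⟩ := FINN_thm tr tg red K 5 (fun v p hp => van_two K v 5 p hp)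
    have e2 : (5 + 2).choose 2 = 21 := rfl
    have e3 : (5 - 1 - 1).choose 2 = 3 := rfl
    refine h3 4 2 1 l le_rfl (by omega) ?_ (by omega) (by omega)
    unfold Lend
    rw [e2, e3]
    push_cast
    omega

/-- It suffices to treat `d ≥ 6`. -/
theorem ls3_of_six (K : Type) [Field K] [CharZero K]
    (H : ∀ d p : ℕ, 6 ≤ d → (d + 2).choose 3 + 2 ≤ p → KExact K 3 d p d) : LS3 K := by
  intro d p hd hp
  rcases Nat.lt_or_ge d 6 with h | h
  · exact ls3_small K hd (by omega) hp
  · exact H d p h hp

/-- All ends for `n ≤ 3`, `b = 0`. -/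
theorem ends (K : Type) [Field K] [CharZero K] (hLS : LS3 K) {n q d p : ℕ}
    (hn3 : n ≤ 3) (hq : q ≤ n) (hd : q + 1 ≤ d)
    (h : (p : ℤ) < ((d + q).choose q : ℤ) - ((d - 1).choose q : ℤ) - q ∨
      ((d + n).choose n : ℤ) - ((d + n - q).choose (n - q) : ℤ) + (n.choose q : ℤ) - q - 1 < p) :
    KExact K n d p (q * d) := by
  rcases Nat.eq_zero_or_pos q with rfl | hq0
  · -- weight 0
    rw [zero_mul]
    refine weight_zero K (by omega) ?_
    rw [Nat.sub_zero, Nat.sub_zero, Nat.choose_zero_right, Nat.choose_zero_right,
      Nat.choose_zero_right] at h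
    omega
  rcases Nat.lt_or_ge q n with hqn | hqn
  · have hn : n = 2 ∨ n = 3 := by omega
    rcases hn with rfl | rfl
    · -- n = 2, q = 1
      obtain rfl : q = 1 := by omega
      rw [one_mul]
      have e1 : d + 2 - 1 = d + 1 := by omega
      have e2 : (2 - 1 : ℕ) = 1 := rfl
      rw [Nat.choose_one_right, Nat.choose_one_right, e1, e2, Nat.choose_one_right,
        Nat.choose_one_right] at h
      have h1 := choose_two d
      rcases h with h | h
      · obtain rfl : p = 0 := by omega
        exact of_van K (by omega) (low K _ d 0 d (by omega) (by omega))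
      · refine linear_plane K (by omega) ?_
        omega
    · -- n = 3
      have hq' : q = 1 ∨ q = 2 := by omega
      rcases hq' with rfl | rfl
      · rw [one_mul]
        have e1 : d + 3 - 1 = d + 2 := by omega
        have e2 : (3 - 1 : ℕ) = 2 := rfl
        rw [Nat.choose_one_right, Nat.choose_one_right, e1, e2, Nat.choose_one_right] at h
        have h1 := choose_three d
        rcases h with h | h
        · obtain rfl : p = 0 := by omega
          exact of_van K (by omega) (low K _ d 0 d (by omega) (by omega))
        · refine hLS d p (by omega) ?_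
          omega
      · have e1 : d + 3 - 2 = d + 1 := by omega
        have e2 : (3 - 2 : ℕ) = 1 := rfl
        have e3 : Nat.choose 3 2 = 3 := rfl
        rw [e1, e2, e3, Nat.choose_one_right] at h
        rcases h with h | h
        · have h1 := lend_two (d := d) (by omega)
          refine quad_lower K (by omega) ?_
          omega
        · refine quad_upper K (by omega) ?_
          omega
  · -- q = n
    obtain rfl : q = n := by omega
    rcases h with h | h
    · refine top_lower K hd ?_
      omega
    · refine beyond K (by omega) ?_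
      rw [Nat.sub_self, Nat.choose_zero_right, Nat.choose_self] at h
      omega

end Pool.Agent.VOP.V3F
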