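import Pool.Agent.VOP.StmtsV

/-!
# Module VFR1: the vanishing for the free module of rank one
-/

namespace Pool.Agent.VOP

open MvPolynomial Pool.Agent.VSY

namespace VFR1

variable {K : Type} [Field K] {v : ℕ} {U : Type} [Fintype U] [DecidableEq U]

/-- The exponent `t u` at `some u`, `α` at `none`. -/
noncomputable def mon (t : U → Fin v → ℕ) (α : Fin v → ℕ) : Option U × Fin v →₀ ℕ :=
  Finsupp.equivFunOnFinite.symm fun y => y.1.elim (α y.2) fun u => t u y.2

theorem mon_none (t : U → Fin v → ℕ) (α : Fin v → ℕ) (j : Fin v) :
    mon t α (none, j) = α j := rfl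

theorem mon_some (t : U → Fin v → ℕ) (α : Fin v → ℕ) (u : U) (j : Fin v) :
    mon t α (some u, j) = t u j := rfl

theorem mon_inj {t t' : U → Fin v → ℕ} {α α' : Fin v → ℕ} (h : mon t α = mon t' α') :
    t = t' ∧ α = α' := by
  constructor
  · funext u j
    have h1 := DFunLike.congr_fun h (some u, j)
    exact h1
  · funext j
    have h1 := DFunLike.congr_fun h (none, j)
    exact h1

theorem eq_mon (m : Option U × Fin v →₀ ℕ) :
    m = mon (fun u j => m (some u, j)) fun j => m (none, j) := by
  ext y
  obtain ⟨o, j⟩ := y
  cases o <;> rfl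

/-- The polynomial with coefficients `F` at the tuple `t`. -/
noncomputable def Q (t : U → Fin v → ℕ) : FR v K →ₗ[K] PX K (Option U) v :=
  Finsupp.lsum K fun α => monomial (mon t α)

theorem Q_single (t : U → Fin v → ℕ) (α : Fin v → ℕ) (a : K) :
    Q t (Finsupp.single α a) = monomial (mon t α) a := by
  rw [Q, Finsupp.lsum_single]

theorem coeff_Q (t t' : U → Fin v → ℕ) (α : Fin v → ℕ) (F : FR v K) :
    coeff (mon t α) (Q t' F) = if t = t' then F α else 0 := by
  classical
  induction F using Finsupp.induction_linear with
  | zero => simp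
  | add F G hF hG =>
    rw [map_add, coeff_add, hF, hG, Finsupp.add_apply]
    split_ifs <;> simp
  | single β a =>
    rw [Q_single, coeff_monomial]
    by_cases h : t = t'
    · subst h
      rw [if_pos rfl, Finsupp.single_apply]
      by_cases h2 : β = α
      · subst h2
        simp
      · rw [if_neg h2, if_neg]
        exact fun h3 => h2 (mon_inj h3).2
    · rw [if_neg h, if_neg]
      exact fun h3 => h (mon_inj h3).1.symm

/-- The coefficients at the tuple `t`. -/
noncomputable def Co (t : U → Fin v → ℕ) (g : PX K (Option U) v) : FR v K :=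
  Finsupp.onFinset (g.support.image fun m j => m (none, j)) (fun α => coeff (mon t α) g) (by
    intro α h
    exact Finset.mem_image.2 ⟨mon t α, mem_support_iff.2 h, rfl⟩)

theorem Co_apply (t : U → Fin v → ℕ) (g : PX K (Option U) v) (α : Fin v → ℕ) :
    Co t g α = coeff (mon t α) g := rfl

theorem decomp (δ : ℕ) (g : PX K (Option U) v)
    (hg : ∀ m ∈ g.support, ∀ u : U, ∑ j, m (some u, j) = δ) :
    g = ∑ t : U → Mn v δ, Q (fun u => (t u).1) (Co (fun u => (t u).1) g) := by
  classical
  ext m
  rw [coeff_sum]
  by_cases hm : m ∈ g.support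
  · let t₀ : U → Mn v δ := fun u => ⟨fun j => m (some u, j),
      Finset.mem_piAntidiag.2 ⟨hg m hm u, fun _ _ => Finset.mem_univ _⟩⟩
    rw [Finset.sum_eq_single t₀]
    · have h1 : m = mon (fun u => (t₀ u).1) fun j => m (none, j) := eq_mon m
      have h2 := coeff_Q (fun u => (t₀ u).1) (fun u => (t₀ u).1) (fun j => m (none, j))
        (Co (fun u => (t₀ u).1) g)
      rw [← h1, if_pos rfl, Co_apply, ← h1] at h2
      exact h2.symm
    · intro t _ h
      have h1 : m = mon (fun u => (t₀ u).1) fun j => m (none, j) := eq_mon m
      have h2 := coeff_Q (fun u => (t₀ u).1) (fun u => (t u).1) (fun j => m (none, j))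
        (Co (fun u => (t u).1) g)
      rw [← h1, if_neg] at h2
      · exact h2
      · intro h3
        apply h
        funext u
        exact Subtype.ext (congrFun h3 u).symm
    · intro h
      exact absurd (Finset.mem_univ _) h
  · have h0 : coeff m g = 0 := by
      by_contra h
      exact hm (mem_support_iff.2 h)
    rw [h0, Finset.sum_eq_zero]
    intro t _
    have h2 := coeff_Q (fun u j => m (some u, j)) (fun u => (t u).1) (fun j => m (none, j))
        (Co (fun u => (t u).1) g)
    rw [← eq_mon] at h2
    rw [h2]
    split_ifs with h3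
    · rw [Co_apply, ← h3, ← eq_mon, h0]
    · rfl

theorem coeff_sum_Q (δ : ℕ) (F : (U → Mn v δ) → FR v K) (t₀ : U → Mn v δ) (α : Fin v → ℕ) :
    coeff (mon (fun u => (t₀ u).1) α) (∑ t : U → Mn v δ, Q (fun u => (t u).1) (F t)) =
      F t₀ α := by
  classical
  rw [coeff_sum, Finset.sum_eq_single t₀]
  · rw [coeff_Q, if_pos rfl]
  · intro t _ h
    rw [coeff_Q, if_neg]
    intro h3
    apply h
    funext u
    exact Subtype.ext (congrFun h3 u).symm
  · intro h
    exact absurd (Finset.mem_univ _) h

theorem supp_sum_Q (δ : ℕ) (F : (U → Mn v δ) → FR v K) (m : Option U × Fin v →₀ ℕ)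
    (hm : m ∈ (∑ t : U → Mn v δ, Q (fun u => (t u).1) (F t)).support) :
    ∃ (t : U → Mn v δ) (α : Fin v → ℕ), m = mon (fun u => (t u).1) α ∧ F t α ≠ 0 := by
  classical
  rw [mem_support_iff, coeff_sum] at hm
  obtain ⟨t, -, ht⟩ := Finset.exists_ne_zero_of_sum_ne_zero hm
  have h2 := coeff_Q (fun u j => m (some u, j)) (fun u => (t u).1) (fun j => m (none, j)) (F t)
  rw [← eq_mon] at h2
  rw [h2] at ht
  split_ifs at ht with h3
  · refine ⟨t, fun j => m (none, j), ?_, ht⟩
    rw [← h3]
    exact eq_mon m
  · exact absurd rfl ht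

/-! ### renamings -/

theorem map_perm (π : Equiv.Perm U) (t : U → Fin v → ℕ) (α : Fin v → ℕ) :
    (mon t α).mapDomain (Prod.map (Option.map π) id) = mon (t ∘ π.symm) α := by
  ext y
  obtain ⟨o, j⟩ := y
  rw [mapDomain_deg, Finset.sum_filter, Fintype.sum_option]
  cases o with
  | none => simp [mon_none]
  | some u =>
    rw [mon_some]
    simp only [Option.map_none, reduceCtorEq, if_false, Option.map_some, Option.some.injEq,
      mon_some, zero_add, Function.comp_apply]
    rw [Finset.sum_eq_single (π.symm u)]
    · rw [if_pos (π.apply_symm_apply u)]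
    · intro u' _ h
      rw [if_neg]
      intro h2
      exact h (by rw [← h2, π.symm_apply_apply])
    · intro h
      exact absurd (Finset.mem_univ _) h

theorem map_mg (u : U) (t : U → Fin v → ℕ) (α : Fin v → ℕ) :
    (mon t α).mapDomain (Prod.map (mg u) id) = mon (Function.update t u 0) (α + t u) := by
  ext y
  obtain ⟨o, j⟩ := y
  have h0 : mg u (none : Option U) = none := by
    rw [mg, Function.update_of_ne (by simp)]
    rfl
  have h1 : mg u (some u) = none := by
    rw [mg, Function.update_self]
  have h2 : ∀ u', u' ≠ u → mg u (some u') = some u' := by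
    intro u' h
    rw [mg, Function.update_of_ne (by simpa using h)]
    rfl
  rw [mapDomain_deg, Finset.sum_filter, Fintype.sum_option]
  cases o with
  | none =>
    rw [if_pos h0, mon_none, mon_none, Finset.sum_eq_single u, if_pos h1, mon_some, Pi.add_apply]
    · intro u' _ h
      rw [if_neg]
      rw [h2 u' h]
      simp
    · intro h
      exact absurd (Finset.mem_univ _) h
  | some w =>
    rw [if_neg (by rw [h0]; simp), zero_add, mon_some]
    by_cases hw : w = u
    · subst hw
      rw [Function.update_self, Finset.sum_eq_zero]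
      · rfl
      · intro u' _
        rw [if_neg]
        by_cases h : u' = w
        · subst h
          rw [h1]
          simp
        · rw [h2 u' h]
          simpa using h
    · rw [Function.update_of_ne hw, Finset.sum_eq_single w]
      · rw [if_pos (h2 w hw), mon_some]
      · intro u' _ h
        rw [if_neg]
        by_cases h' : u' = u
        · subst h'
          rw [h1]
          simp
        · rw [h2 u' h']
          simpa using h
      · intro h
        exact absurd (Finset.mem_univ _) h

theorem map_join (s : Option U → Fin v → ℕ) (α : Fin v → ℕ) :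
    (mon s α).mapDomain (Prod.map Option.join id) = mon (s ∘ some) (α + s none) := by
  ext y
  obtain ⟨o, j⟩ := y
  rw [mapDomain_deg, Finset.sum_filter, Fintype.sum_option]
  cases o with
  | none =>
    rw [if_pos (by rfl), mon_none, mon_none, Finset.sum_eq_single none, if_pos (by rfl), mon_some,
      Pi.add_apply]
    · intro u' _ h
      rw [if_neg]
      simpa using h
    · intro h
      exact absurd (Finset.mem_univ _) h
  | some w =>
    rw [if_neg (by simp), zero_add, mon_some, Finset.sum_eq_single (some w), if_pos (by rfl),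
      mon_some, Function.comp_apply]
    · intro u' _ h
      rw [if_neg]
      simpa using h
    · intro h
      exact absurd (Finset.mem_univ _) h

/-! ### the operators of the free module -/

theorem comm (i j : Fin v) : frX K v K i ∘ₗ frX K v K j = frX K v K j ∘ₗ frX K v K i := by
  refine Finsupp.lhom_ext fun α a => ?_
  simp only [LinearMap.comp_apply, frX, Finsupp.lmapDomain_apply, Finsupp.mapDomain_single]
  rw [add_right_comm]

theorem frX_single (i : Fin v) (α : Fin v → ℕ) (a : K) :
    frX K v K i (Finsupp.single α a) = Finsupp.single (α + Pi.single i 1) a := by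
  rw [frX, Finsupp.lmapDomain_apply, Finsupp.mapDomain_single]

theorem mo_single (h2 : SV_MO) (β α : Fin v → ℕ) (a : K) :
    mo (frX K v K) β (Finsupp.single α a) = Finsupp.single (α + β) a := by
  obtain ⟨h0, h1, h3, -⟩ := h2 K v (FR v K) (frX K v K)
  have h4 := (h3 comm).2
  obtain ⟨n, hn⟩ : ∃ n, ∑ j, β j = n := ⟨_, rfl⟩
  induction n generalizing β α with
  | zero =>
    have : β = 0 := by
      funext j
      exact Finset.sum_eq_zero_iff.1 hn j (Finset.mem_univ _)
    rw [this, h0, add_zero]
  | succ n ih =>
    have h5 : ∃ i, β i ≠ 0 := by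
      by_contra h
      push Not at h
      rw [Finset.sum_eq_zero fun j _ => h j] at hn
      omega
    obtain ⟨i, hi⟩ := h5
    have h6 : β = (β - Pi.single i 1) + Pi.single i 1 := by
      funext j
      by_cases hj : j = i
      · subst hj
        simp only [Pi.add_apply, Pi.sub_apply, Pi.single_eq_same]
        omega
      · simp [Pi.single_eq_of_ne hj]
    have h7 : ∑ j, (β - Pi.single i 1 : Fin v → ℕ) j = n := by
      have h8 : ∑ j, β j = ∑ j, (β - Pi.single i 1 : Fin v → ℕ) j +
          ∑ j, (Pi.single i 1 : Fin v → ℕ) j := by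
        rw [← Finset.sum_add_distrib]
        exact Finset.sum_congr rfl fun j _ => congrFun h6 j
      rw [Finset.sum_pi_single' i (1 : ℕ) Finset.univ, if_pos (Finset.mem_univ _), hn] at h8
      omega
    rw [h6, h4, h1, frX_single, ih _ _ h7, add_assoc, add_comm (Pi.single i 1)]

theorem ren_Q_perm (π : Equiv.Perm U) (t : U → Fin v → ℕ) (F : FR v K) :
    ren (Option.map π) (Q t F) = Q (t ∘ π.symm) F := by
  induction F using Finsupp.induction_linear with
  | zero => simp
  | add F G hF hG => rw [map_add, map_add, hF, hG, map_add]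
  | single α a => rw [Q_single, Q_single, ren_monomial, map_perm]

theorem ren_Q_mg (h2 : SV_MO) (u : U) (t : U → Fin v → ℕ) (F : FR v K) :
    ren (mg u) (Q t F) = Q (Function.update t u 0) (mo (frX K v K) (t u) F) := by
  induction F using Finsupp.induction_linear with
  | zero => simp
  | add F G hF hG => rw [map_add, map_add, hF, hG, map_add, map_add]
  | single α a => rw [Q_single, mo_single h2, Q_single, ren_monomial, map_mg]

theorem ren_Q_join (h2 : SV_MO) (s : Option U → Fin v → ℕ) (F : FR v K) :
    ren Option.join (Q s F) = Q (s ∘ some) (mo (frX K v K) (s none) F) := by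
  induction F using Finsupp.induction_linear with
  | zero => simp
  | add F G hF hG => rw [map_add, map_add, hF, hG, map_add, map_add]
  | single α a => rw [Q_single, mo_single h2, Q_single, ren_monomial, map_join]

theorem Co_perm (π : Equiv.Perm U) (t : U → Fin v → ℕ) (g : PX K (Option U) v) :
    Co t (ren (Option.map π) g) = Co (t ∘ π) g := by
  ext α
  rw [Co_apply, Co_apply, ren]
  have h1 : (mon (t ∘ π) α).mapDomain (Prod.map (Option.map π) (id : Fin v → Fin v)) =
      mon t α := by
    rw [map_perm]
    have : (t ∘ π) ∘ π.symm = t := by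
      funext u
      simp
    rw [this]
  rw [← h1]
  refine coeff_rename_mapDomain _ ?_ _ _
  exact Function.Injective.prodMap (Option.map_injective π.injective) Function.injective_id

theorem Co_zsmul (n : ℤ) (t : U → Fin v → ℕ) (g : PX K (Option U) v) :
    Co t (n • g) = n • Co t g := by
  ext α
  rw [Co_apply, Finsupp.smul_apply, Co_apply]
  exact map_zsmul (coeffAddMonoidHom (mon t α)) n g

theorem sum_split {p : ℕ} {M V : Type} [Fintype M] [AddCommMonoid V] (i : Fin p)
    (G : (Fin p → M) → V) (h : ∀ t, ∑ α, G (Function.update t i α) = 0) : ∑ t, G t = 0 := by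
  classical
  rcases isEmpty_or_nonempty M with hM | ⟨⟨α₀⟩⟩
  · have : IsEmpty (Fin p → M) := ⟨fun t => hM.elim (t i)⟩
    exact Fintype.sum_empty _
  · rw [← Equiv.sum_comp (Equiv.funSplitAt i M).symm, Fintype.sum_prod_type_right,
      Finset.sum_eq_zero]
    intro t' _
    rw [← h ((Equiv.funSplitAt i M).symm (α₀, t'))]
    refine Finset.sum_congr rfl fun α _ => ?_
    have h1 : (Equiv.funSplitAt i M).symm (α, t') =
        Function.update ((Equiv.funSplitAt i M).symm (α₀, t')) i α := by
      funext j
      by_cases hj : j = i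
      · subst hj
        rw [Function.update_self]
        simp [Equiv.funSplitAt, Equiv.piSplitAt]
      · rw [Function.update_of_ne hj]
        simp [Equiv.funSplitAt, Equiv.piSplitAt, hj]
    rw [h1]

end VFR1

open VFR1 in
theorem t_VFR1 (_h1 : SV_COE) (h2 : SV_MO) : SV_FR1 := by
  intro K _ _ v δ p e hV c hc hE hZ
  classical
  -- the polynomial
  obtain ⟨f, hf⟩ : ∃ f : PX K (Option (Fin p)) v,
      f = ∑ t : Fin p → Mn v δ, Q (fun u => (t u).1) (c t) := ⟨_, rfl⟩
  have hIC : InC (Fin p) v δ 0 (e + δ) f := by
    constructor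
    · intro π
      rw [hf, map_sum, Finset.smul_sum]
      refine Fintype.sum_equiv (Equiv.arrowCongr π (Equiv.refl (Mn v δ))) _ _ fun t => ?_
      rw [ren_Q_perm, ← map_zsmul, ← hc π]
      have h3 : (Equiv.arrowCongr π (Equiv.refl (Mn v δ)) t) ∘ π = t := by
        funext u
        simp [Equiv.arrowCongr]
      rw [h3]
      rfl
    · intro m hm
      rw [hf] at hm
      obtain ⟨t, α, rfl, h⟩ := supp_sum_Q δ c m hm
      refine ⟨fun u => ?_, ?_⟩
      · exact (Finset.mem_piAntidiag.1 (t u).2).1
      · exact (hE t α).2 h
  have hIZ : InZ (Fin p) v δ (e + δ) f := by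
    refine ⟨hIC, fun i => ?_⟩
    rw [hf, map_sum]
    refine sum_split i _ fun t => ?_
    have h3 : ∀ α : Mn v δ, ren (mg i) (Q (fun u => ((Function.update t i α) u).1)
        (c (Function.update t i α))) = Q (Function.update (fun u => (t u).1) i 0)
          (mo (frX K v K) α.1 (c (Function.update t i α))) := by
      intro α
      rw [ren_Q_mg h2]
      have h4 : Function.update (fun u => ((Function.update t i α) u).1) i 0 =
          Function.update (fun u => (t u).1) i 0 := by
        funext u
        by_cases hu : u = i
        · subst hu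
          rw [Function.update_self, Function.update_self]
        · rw [Function.update_of_ne hu, Function.update_of_ne hu, Function.update_of_ne hu]
      rw [h4, Function.update_self]
    rw [Finset.sum_congr rfl fun α _ => h3 α, ← map_sum, hZ i t, map_zero]
  obtain ⟨g, hg, hgf⟩ := hV (Fin p) (Fintype.card_fin p) f hIZ
  refine ⟨fun s => Co (fun o => (s ((finSuccEquiv p).symm o)).1) g, ?_, ?_, ?_⟩
  · intro σ s
    have h3 := hg.alt ((finSuccEquiv p).permCongr σ)
    have h4 := Co_perm ((finSuccEquiv p).permCongr σ)
      (fun o => (s ((finSuccEquiv p).symm o)).1) g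
    rw [h3, Co_zsmul, Equiv.Perm.sign_permCongr] at h4
    rw [h4]
    have h5 : ((fun o => (s ((finSuccEquiv p).symm o)).1) ∘ ((finSuccEquiv p).permCongr σ)) =
        fun o => ((s ∘ σ) ((finSuccEquiv p).symm o)).1 := by
      funext o
      simp [Equiv.permCongr_apply]
    rw [h5]
  · intro s α
    refine ⟨Submodule.mem_top, fun h => ?_⟩
    have h3 := (hg.deg _ (mem_support_iff.2 h)).2
    have h4 : ∑ j, α j + δ = e + δ := h3
    omega
  · intro t₀
    have h3 : ∑ t : Fin p → Mn v δ, Q (fun u => (t u).1) (bdF (frX K v K)
        (fun s => Co (fun o => (s ((finSuccEquiv p).symm o)).1) g) t) = f := by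
      rw [← hgf]
      conv_rhs => rw [decomp δ g fun m hm => (hg.deg m hm).1]
      rw [map_sum, ← Equiv.sum_comp (Equiv.piOptionEquivProd (β := fun _ => Mn v δ)).symm,
        Fintype.sum_prod_type_right]
      refine Finset.sum_congr rfl fun t _ => ?_
      rw [bdF, map_sum]
      refine Finset.sum_congr rfl fun β _ => ?_
      rw [ren_Q_join h2]
      have h5 : (fun o => ((Fin.cons β t : Fin (p + 1) → Mn v δ)
          ((finSuccEquiv p).symm o)).1) =
          fun u => ((Equiv.piOptionEquivProd (β := fun _ => Mn v δ)).symm (β, t) u).1 := by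
        funext o
        cases o with
        | none => simp
        | some u => simp
      rw [h5]
      rfl
    ext α
    rw [← coeff_sum_Q δ (fun t => bdF (frX K v K)
      (fun s => Co (fun o => (s ((finSuccEquiv p).symm o)).1) g) t) t₀ α, h3, hf, coeff_sum_Q]

end Pool.Agent.VOP
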