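import Pool.Agent.VOP.VL0
import Pool.Agent.VOP.VMO
import Pool.Agent.VOP.VAL
import Pool.Agent.VOP.VCYC
import Pool.Agent.VOP.VBB
import Pool.Agent.VOP.VALL
import Pool.Agent.VOP.VHOM
import Pool.Agent.VOP.VFRL
import Pool.Agent.VOP.VPFL
import Pool.Agent.VOP.VGEN
import Pool.Agent.VOP.VLA
import Pool.Agent.VOP.VCOE
import Pool.Agent.VOP.VFR1
import Pool.Agent.VOP.VFR2
import Pool.Agent.VOP.VLB
import Pool.Agent.VOP.VMVL
import Pool.Agent.VOP.VRNB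
import Pool.Agent.VOP.VLC
import Pool.Agent.VOP.VBRM
import Pool.Agent.VOP.VLF
import Pool.Agent.VOP.VPVM

/-!
# The Ottaviani-Paoletti conjecture (MP_deb8da_ag): the blocks V and L
-/

namespace Pool.Agent.VOP

open MvPolynomial Pool.Agent.VSY

theorem f_VBB : SV_BB := t_VBB t_VMO
theorem f_VHOM : SV_HOM := t_VHOM t_VMO
theorem f_VFRL : SV_FRL := t_VFRL f_VHOM
theorem f_VPFL : SV_PFL := t_VPFL f_VHOM
theorem f_VGEN : SV_GEN := t_VGEN t_VMO t_VALL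
theorem f_VLA : SV_LA := t_VLA t_VNAT t_VAL t_VCYC f_VBB f_VFRL f_VGEN t_VMO
theorem f_VFR1 : SV_FR1 := t_VFR1 t_VCOE t_VMO
theorem f_VFR2 : SV_FR2 := t_VFR2 t_VNAT t_VAL
theorem f_VLB : SV_LB := t_VLB t_VNAT t_VAL t_VCYC f_VBB f_VGEN f_VLA t_VMO f_VFRL
theorem f_VLC : SV_LC :=
  t_VLC t_VNAT t_VAL t_VCYC f_VBB t_VALL f_VPFL t_VMVL t_VRNB
theorem f_VBRM : SV_BRM := t_VBRM t_VCOE
theorem f_VLF : SV_VLF := t_VLF t_VMVL t_VRNB

/-- Vanishing with parameters and symmetries. -/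
theorem PV_thm : Stmt_PV := t_VPVM

/-- The lifting statement. -/
theorem LIFTM_thm : Stmt_LIFTM := LIFTM_of PV_thm f_VLC f_VLB f_VFR1 f_VFR2 f_VBRM f_VLF

end Pool.Agent.VOP
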